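import Pool.Agent.Q70.NilMain

/-!
# Nilsystems on quotients of nilpotent Lie groups

Auxiliary file for `MP_33f427_an`.
-/

set_option autoImplicit false
set_option linter.unusedSectionVars false

namespace Q70.Nil

open Topology Filter Set
open scoped Manifold ContDiff

universe u v

theorem t2_quotient {G : Type u} [Group G] [TopologicalSpace G] [IsTopologicalGroup G]
    (Γ : Subgroup G) (hΓ : IsClosed (Γ : Set G)) : T2Space (G ⧸ Γ) := by
  refine ⟨fun x y hxy => ?_⟩
  obtain ⟨x, rfl⟩ := QuotientGroup.mk_surjective x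
  obtain ⟨y, rfl⟩ := QuotientGroup.mk_surjective y
  have hcon : x⁻¹ * y ∉ Γ := fun h => hxy (QuotientGroup.eq.2 h)
  have hopen : IsOpen {q : G × G | q.1⁻¹ * q.2 ∈ (Γ : Set G)ᶜ} :=
    hΓ.isOpen_compl.preimage (by fun_prop)
  have hmem : {q : G × G | q.1⁻¹ * q.2 ∈ (Γ : Set G)ᶜ} ∈ 𝓝 (x, y) := hopen.mem_nhds hcon
  rw [mem_nhds_prod_iff'] at hmem
  obtain ⟨U, V, hU, hxU, hV, hyV, hUV⟩ := hmem
  refine ⟨QuotientGroup.mk '' U, QuotientGroup.mk '' V, QuotientGroup.isOpenMap_coe _ hU,
    QuotientGroup.isOpenMap_coe _ hV, ⟨x, hxU, rfl⟩, ⟨y, hyV, rfl⟩, ?_⟩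
  rw [Set.disjoint_left]
  rintro _ ⟨u, hu, rfl⟩ ⟨v, hv, hvu⟩
  exact hUV (mk_mem_prod hu hv) (QuotientGroup.eq.1 hvu.symm)

theorem secondCountable_quotient {E : Type v} [NormedAddCommGroup E] [NormedSpace ℝ E]
    [FiniteDimensional ℝ E] {G : Type u} [Group G] [TopologicalSpace G] [IsTopologicalGroup G]
    [ChartedSpace E G] (Γ : Subgroup G) [CompactSpace (G ⧸ Γ)] :
    SecondCountableTopology (G ⧸ Γ) := by
  have hE : SecondCountableTopology E := secondCountable_of_proper
  have hcover : (univ : Set (G ⧸ Γ)) ⊆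
      ⋃ x : G, (QuotientGroup.mk '' (chartAt E x).source : Set (G ⧸ Γ)) := by
    intro ξ _
    obtain ⟨x, rfl⟩ := QuotientGroup.mk_surjective ξ
    exact mem_iUnion.2 ⟨x, x, mem_chart_source E x, rfl⟩
  have hopen : ∀ x : G, IsOpen (QuotientGroup.mk '' (chartAt E x).source : Set (G ⧸ Γ)) :=
    fun x => QuotientGroup.isOpenMap_coe _ (chartAt E x).open_source
  obtain ⟨t, ht⟩ := isCompact_univ.elim_finite_subcover _ hopen hcover
  have h2 : ∀ i : t, SecondCountableTopology
      (QuotientGroup.mk '' (chartAt E (i : G)).source : Set (G ⧸ Γ)) := by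
    intro i
    have hs : SecondCountableTopology (chartAt E (i : G)).source :=
      (chartAt E (i : G)).secondCountableTopology_source
    let f : (chartAt E (i : G)).source →
        (QuotientGroup.mk '' (chartAt E (i : G)).source : Set (G ⧸ Γ)) :=
      fun x => ⟨QuotientGroup.mk (x : G), ⟨x, x.2, rfl⟩⟩
    have hfc : Continuous f :=
      (QuotientGroup.continuous_mk.comp continuous_subtype_val).subtype_mk _
    have hfs : Function.Surjective f := by
      rintro ⟨_, x, hx, rfl⟩
      exact ⟨⟨x, hx⟩, rfl⟩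
    have hfo : IsOpenMap f := by
      intro W hW
      have h3 : IsOpen (Subtype.val '' W : Set G) :=
        (chartAt E (i : G)).open_source.isOpenMap_subtype_val _ hW
      have h4 : f '' W = Subtype.val ⁻¹' (QuotientGroup.mk '' (Subtype.val '' W : Set G)) := by
        ext ⟨z, hz⟩
        constructor
        · rintro ⟨w, hw, hwz⟩
          exact ⟨w, ⟨w, hw, rfl⟩, congrArg Subtype.val hwz⟩
        · rintro ⟨_, ⟨w, hw, rfl⟩, hwz⟩
          exact ⟨w, hw, Subtype.ext hwz⟩
      rw [h4]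
      exact (QuotientGroup.isOpenMap_coe _ h3).preimage continuous_subtype_val
    exact (hfo.isQuotientMap hfc hfs).secondCountableTopology hfo
  refine TopologicalSpace.secondCountableTopology_of_countable_cover
    (U := fun i : t => (QuotientGroup.mk '' (chartAt E (i : G)).source : Set (G ⧸ Γ)))
    (fun i => hopen i) ?_
  rw [eq_univ_iff_forall]
  intro ξ
  obtain ⟨i, hi, hξ⟩ := mem_iUnion₂.1 (ht (mem_univ ξ))
  exact mem_iUnion.2 ⟨⟨i, hi⟩, hξ⟩

theorem main_lie {A : Set ℕ} (hA : IsReSequence.{u} A) {E : Type v} [NormedAddCommGroup E]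
    [NormedSpace ℝ E] [FiniteDimensional ℝ E] (G : Type u) [Group G] [TopologicalSpace G]
    [T2Space G] [ChartedSpace E G] [LieGroup 𝓘(ℝ, E) ∞ G] [Group.IsNilpotent G] (Γ : Subgroup G)
    [DiscreteTopology Γ] [CompactSpace (G ⧸ Γ)] (a : G)
    (hmin : IsMinimalMap fun x : G ⧸ Γ => a • x) :
    ∃ y, DenseAlong A (fun x : G ⧸ Γ => a • x) y := by
  have hTG : IsTopologicalGroup G := topologicalGroup_of_lieGroup 𝓘(ℝ, E) ∞
  have hlpc : LocallyPathConnectedSpace G := ChartedSpace.locallyPathConnectedSpace E G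
  have hcl : IsClosed (Γ : Set G) := Subgroup.isClosed_of_discrete
  have h1 := t2_quotient Γ hcl
  have h2 : SecondCountableTopology (G ⧸ Γ) := secondCountable_quotient (E := E) Γ
  exact main hA inferInstance Γ hcl a hmin

end Q70.Nil
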