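import Pool.Agent.Q70.FpM

/-!
# First passage percolation: the optimal bound for the outer deviations of the cluster
-/

set_option autoImplicit false

open MeasureTheory ProbabilityTheory Finset Filter
open scoped Topology Pointwise

namespace Q70.Fp

variable {μ : ℝ × ℝ → ℝ} {Ω : Type} [MeasurableSpace Ω] {P : Measure Ω} {X : Ed → Ω → ℝ}

open Q69.FL in
lemma outer_of_opt [IsProbabilityMeasure P] (hW : Wts P X) (h : Shape μ) {b : ℝ} (hb : 0 < b)
    (hb1 : b < 1) {ζ : ℝ} (hζ : 0 < ζ) (hO : Opt μ b (ζ / 2)) :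
    ∃ C : ℝ, 0 < C ∧ ∀ t : ℝ, 1 ≤ t → ∀ r : ℝ, 0 ≤ r → r ≤ 1 →
      (P (Ou X μ ((1 + r) * t) t)).toReal ≤
        C * Real.exp (-((r * t ^ (1 - b - ζ)) ^ (1 / (1 - b)))) := by
  classical
  obtain ⟨C2, hC2, hO⟩ := hO
  have hb' : 0 < 1 - b := by linarith
  set γ : ℝ := ζ / 2 / (1 - b) with hγ
  have hγ0 : 0 < γ := by positivity
  set c1 : ℝ := 1 / (2 * 46 ^ (b + ζ / 2)) with hc1
  have hc10 : 0 < c1 := by positivity
  set c' : ℝ := c1 ^ (1 / (1 - b)) with hc'
  have hc'0 : 0 < c' := by positivity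
  obtain ⟨t0, h0⟩ := eventually_atTop.1
    ((absorbR (93 ^ 2 * C2 * Real.exp 1) hc'0 (show 0 < γ / 2 by positivity)
      (show γ / 2 < γ by linarith)).and
    ((Q70.Fp.rpow_small (K := 8) (show (0:ℝ) < b + ζ by positivity)).and
      (Q70.Fp.rpow_small (K := 1 / c') hγ0)))
  refine ⟨Real.exp 1 + Real.exp |t0| + 1, by positivity, fun t ht r hr hr1 => ?_⟩
  have ht0 : 0 < t := by linarith
  set B : ℝ := (r * t ^ (1 - b - ζ)) ^ (1 / (1 - b)) with hB
  have hB0 : 0 ≤ B := by positivity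
  have p1 := Real.exp_pos 1
  have p2 := Real.exp_pos |t0|
  have triv : ∀ M : ℝ, B ≤ M → Real.exp M ≤ Real.exp 1 + Real.exp |t0| + 1 →
      (P (Ou X μ ((1 + r) * t) t)).toReal ≤ (Real.exp 1 + Real.exp |t0| + 1) * Real.exp (-B) := by
    intro M hM hM2
    calc (P (Ou X μ ((1 + r) * t) t)).toReal ≤ 1 := measureReal_le_one (μ := P)
      _ = Real.exp B * Real.exp (-B) := by rw [← Real.exp_add, add_neg_cancel, Real.exp_zero]
      _ ≤ _ := by
          gcongr
          exact (Real.exp_le_exp.2 hM).trans hM2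
  by_cases cB : B ≤ 1
  · exact triv 1 cB (by linarith)
  push Not at cB
  by_cases ct : t < t0
  · refine triv |t0| ?_ (by linarith)
    have e1 : r * t ^ (1 - b - ζ) ≤ t ^ (1 - b) := by
      calc r * t ^ (1 - b - ζ) ≤ 1 * t ^ (1 - b) := by
            have := Real.rpow_le_rpow_of_exponent_le ht (show 1 - b - ζ ≤ 1 - b by linarith)
            gcongr
        _ = _ := one_mul _
    calc B ≤ (t ^ (1 - b)) ^ (1 / (1 - b)) := Real.rpow_le_rpow (by positivity) e1 (by positivity)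
      _ = t := by rw [← Real.rpow_mul ht0.le, mul_one_div_cancel hb'.ne', Real.rpow_one]
      _ ≤ _ := ct.le.trans (le_abs_self _)
  push Not at ct
  obtain ⟨s1, s2, s3⟩ := h0 t ct
  rw [Real.rpow_zero, mul_one] at s2 s3
  have hx1 : 1 < r * t ^ (1 - b - ζ) := by
    by_contra hcon
    push Not at hcon
    exact absurd (Real.rpow_le_one (by positivity) hcon (by positivity)) (not_le.2 cB)
  have ert : r * t = (r * t ^ (1 - b - ζ)) * t ^ (b + ζ) := by
    rw [mul_assoc, ← Real.rpow_add ht0, show 1 - b - ζ + (b + ζ) = 1 by ring, Real.rpow_one]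
  have hrt : 8 ≤ r * t := by
    rw [ert]
    nlinarith
  set R : ℕ := ⌈45 * t⌉₊ with hR
  have hR1 : 45 * t ≤ R := Nat.le_ceil _
  have hR2 : (R:ℝ) ≤ 46 * t := by
    have := Nat.ceil_lt_add_one (show 0 ≤ 45 * t by positivity)
    linarith
  have hct : 0 < (1 + r) * t := by positivity
  set F : Finset (ℤ × ℤ) := (ball R 0).filter (fun u => (1 + r) * t - 3 < mz μ u) with hF
  have hsub : Ou X μ ((1 + r) * t) t ⊆ (⋃ u ∈ F,
      {ω | TT (fun e => X e ω) 0 u ∈ Set.Iio (mz μ u - (r * t - 4))}) ∪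
      {ω | ¬ (pw (fun e => X e ω) = fun e => X e ω)} := by
    intro ω hω
    obtain ⟨u, hu1, hu2⟩ := Ou_sub h hct hω
    by_cases hpos : pw (fun e => X e ω) = fun e => X e ω
    · refine Or.inl ?_
      have hnn : ∀ e, 0 ≤ (fun e => X e ω) e := by
        intro e
        rw [← hpos]
        exact pw_nonneg _ e
      simp only [Set.mem_iUnion, Set.mem_setOf_eq, exists_prop, Set.mem_Iio]
      by_cases hd : dd 0 u ≤ R
      · exact ⟨u, Finset.mem_filter.2 ⟨mem_ball.2 hd, hu1⟩, by linarith⟩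
      · obtain ⟨u', hu3, hu4⟩ := pass (s := t + 1) hnn (by linarith) (show R ≤ dd 0 u by omega)
        have h3 := mz_low h u'
        rw [hu3] at h3
        have h4 : r * t ≤ 1 * t := by gcongr
        exact ⟨u', Finset.mem_filter.2 ⟨mem_ball.2 hu3.le, by linarith⟩, by linarith⟩
    · exact Or.inr hpos
  have e0 : P.real {ω | ¬ (pw (fun e => X e ω) = fun e => X e ω)} = 0 := by
    rw [measureReal_def, ae_iff.1 hW.ae, ENNReal.toReal_zero]
  have ecard : (F.card : ℝ) ≤ 93 ^ 2 * t ^ 2 := by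
    have f1 : (F.card : ℝ) ≤ ((2 * R + 1 : ℕ) : ℝ) ^ 2 := by
      exact_mod_cast (Finset.card_filter_le _ _).trans (card_ball R)
    have f2 : ((2 * R + 1 : ℕ) : ℝ) ≤ 93 * t := by push_cast; linarith
    calc _ ≤ ((2 * R + 1 : ℕ) : ℝ) ^ 2 := f1
      _ ≤ (93 * t) ^ 2 := pow_le_pow_left₀ (by positivity) f2 2
      _ = _ := by ring
  have eone : ∀ u ∈ F, P.real {ω | TT (fun e => X e ω) 0 u ∈ Set.Iio (mz μ u - (r * t - 4))} ≤
      C2 * Real.exp (-(c' * (B * t ^ γ))) := by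
    intro u hu
    rw [hF, Finset.mem_filter, mem_ball] at hu
    have hu0 : u ≠ 0 := by
      rintro rfl
      rw [mz_zero h] at hu
      have : (1 + r) * t = t + r * t := by ring
      linarith [hu.2]
    rw [hW.real u measurableSet_Iio]
    refine (hO u hu0 (r * t - 4) (by linarith)).trans ?_
    refine mul_le_mul_of_nonneg_left (Real.exp_le_exp.2 (neg_le_neg ?_)) hC2.le
    have hd1 : (1:ℝ) ≤ dd 0 u := by exact_mod_cast dd_pos hu0
    have hd0 : (0:ℝ) < dd 0 u := by linarith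
    have hd2 : (dd 0 u : ℝ) ≤ 46 * t := by
      have : (dd 0 u : ℝ) ≤ R := by exact_mod_cast hu.1
      linarith
    have g1 : c1 * ((r * t ^ (1 - b - ζ)) * t ^ (ζ / 2)) ≤
        (r * t - 4) / (dd 0 u : ℝ) ^ (b + ζ / 2) := by
      have f1 : (dd 0 u : ℝ) ^ (b + ζ / 2) ≤ 46 ^ (b + ζ / 2) * t ^ (b + ζ / 2) := by
        rw [← Real.mul_rpow (by norm_num) ht0.le]
        exact Real.rpow_le_rpow hd0.le hd2 (by positivity)
      rw [le_div_iff₀ (by positivity)]
      calc c1 * ((r * t ^ (1 - b - ζ)) * t ^ (ζ / 2)) * (dd 0 u : ℝ) ^ (b + ζ / 2) ≤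
            c1 * ((r * t ^ (1 - b - ζ)) * t ^ (ζ / 2)) * (46 ^ (b + ζ / 2) * t ^ (b + ζ / 2)) := by
            gcongr
        _ = (c1 * 46 ^ (b + ζ / 2)) * ((r * t ^ (1 - b - ζ)) * (t ^ (ζ / 2) * t ^ (b + ζ / 2))) := by
            ring
        _ = (c1 * 46 ^ (b + ζ / 2)) * (r * t) := by
            rw [← Real.rpow_add ht0, show ζ / 2 + (b + ζ / 2) = b + ζ by ring, ← ert]
        _ = r * t / 2 := by
            rw [hc1]
            have : (46:ℝ) ^ (b + ζ / 2) ≠ 0 := by positivity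
            field_simp
        _ ≤ _ := by linarith
    calc c' * (B * t ^ γ) = (c1 * ((r * t ^ (1 - b - ζ)) * t ^ (ζ / 2))) ^ (1 / (1 - b)) := by
          rw [Real.mul_rpow hc10.le (by positivity), Real.mul_rpow (by positivity) (by positivity),
            ← Real.rpow_mul ht0.le]
          congr 3
          rw [hγ]
          ring
      _ ≤ _ := Real.rpow_le_rpow (by positivity) g1 (by positivity)
  have e1 : P.real (⋃ u ∈ F, {ω | TT (fun e => X e ω) 0 u ∈ Set.Iio (mz μ u - (r * t - 4))}) ≤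
      Real.exp (-B) := by
    have f1 : Real.exp (-(c' * (B * t ^ γ))) ≤
        Real.exp 1 * Real.exp (-(c' * t ^ γ)) * Real.exp (-B) := by
      rw [← Real.exp_add, ← Real.exp_add]
      refine Real.exp_le_exp.2 ?_
      have : 1 ≤ c' * t ^ γ := by
        calc 1 = c' * (1 / c') := by field_simp
          _ ≤ _ := by gcongr
      nlinarith
    calc _ ≤ ∑ _u ∈ F, C2 * Real.exp (-(c' * (B * t ^ γ))) :=
          (measureReal_biUnion_finset_le _ _).trans (Finset.sum_le_sum eone)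
      _ = (F.card : ℝ) * (C2 * Real.exp (-(c' * (B * t ^ γ)))) := by
          rw [Finset.sum_const, nsmul_eq_mul]
      _ ≤ (93 ^ 2 * t ^ 2) * (C2 * (Real.exp 1 * Real.exp (-(c' * t ^ γ)) * Real.exp (-B))) := by
          gcongr
      _ = (93 ^ 2 * C2 * Real.exp 1 * t ^ 2 * Real.exp (-(c' * t ^ γ))) * Real.exp (-B) := by ring
      _ ≤ 1 * Real.exp (-B) := by
          refine mul_le_mul_of_nonneg_right (s1.trans ?_) (Real.exp_pos _).le
          exact Real.exp_le_one_iff.2 (neg_nonpos.2 (by positivity))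
      _ = _ := one_mul _
  have e3 : P.real (Ou X μ ((1 + r) * t) t) ≤ _ := measureReal_mono hsub (measure_ne_top _ _)
  have e4 := measureReal_union_le (μ := P) (⋃ u ∈ F,
      {ω | TT (fun e => X e ω) 0 u ∈ Set.Iio (mz μ u - (r * t - 4))})
      {ω | ¬ (pw (fun e => X e ω) = fun e => X e ω)}
  show P.real (Ou X μ ((1 + r) * t) t) ≤ _
  calc P.real (Ou X μ ((1 + r) * t) t) ≤ 1 * Real.exp (-B) := by linarith
    _ ≤ _ := by
        gcongr
        linarith

end Q70.Fp
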