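import Pool.Agent.Q70.FpQ
import Pool.Agent.Q70.FpN

/-!
# First passage percolation: the upper tail
-/

set_option autoImplicit false

open MeasureTheory ProbabilityTheory Finset Filter
open scoped Topology Pointwise

namespace Q70.Fp

variable {μ : ℝ × ℝ → ℝ}

/-- bound for the upper exponential moments at all scales -/
def CumU (μ : ℝ × ℝ → ℝ) (b ζ : ℝ) : Prop := ∃ C : ℝ, 0 < C ∧ ∀ v : ℤ × ℤ, v ≠ 0 → ∀ θ : ℝ, 0 < θ →
  θ ≤ 1 / 2 → uq μ θ v ≤ Real.exp (C * (dd 0 v : ℝ) ^ ζ * (1 + θ ^ (1 / b) * (dd 0 v : ℝ)))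

/-- the upper tail -/
def OptU (μ : ℝ × ℝ → ℝ) (b ζ : ℝ) : Prop := ∃ C : ℝ, 0 < C ∧ ∀ v : ℤ × ℤ, v ≠ 0 → ∀ s : ℝ, 0 < s →
  s ≤ 3 * (dd 0 v : ℝ) → nu.real {w | mz μ v + s < TT (pw w) 0 v} ≤
    C * Real.exp (-((s / (dd 0 v : ℝ) ^ (b + ζ)) ^ (1 / (1 - b))))

lemma cumU_of_UU (h : Shape μ) {b : ℝ} (hb : 0 < b) (hE : ∀ a, b < a → UU μ a) {ζ : ℝ} (hζ : 0 < ζ) :
    CumU μ b ζ := by
  set δ : ℝ := min (ζ / 2) (1 / (2 * b)) with hδ
  have hδ0 : 0 < δ := lt_min (by positivity) (by positivity)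
  have hδ1 : δ ≤ ζ / 2 := min_le_left _ _
  have hδ2 : δ ≤ 1 / (2 * b) := min_le_right _ _
  have hb2 : 1 / (2 * b) < 1 / b := by
    rw [div_lt_div_iff₀ (by positivity) hb]; linarith
  have hd : 0 < 1 / b - δ := by linarith
  set a : ℝ := 1 / (1 / b - δ) with ha
  have ha0 : 0 < a := by positivity
  have hab : b < a := by
    rw [ha, lt_div_iff₀ hd, mul_sub, mul_one_div_cancel hb.ne']
    nlinarith
  have hainv : 1 / a = 1 / b - δ := by rw [ha, one_div_one_div]
  obtain ⟨K, hK, hA⟩ := all_scalesU h ha0.le (hE a hab)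
  set c0 : ℝ := (5 ^ (-a) / 3200) ^ (1 / b) with hc0
  have hc00 : 0 < c0 := by positivity
  set K' : ℝ := 5 * 3200 ^ (1 / a) * K + K with hK'
  have hK'0 : 0 < K' := by positivity
  refine ⟨2 + 1 / c0 + K', by positivity, fun v hv θ hθ hθ1 => ?_⟩
  set n : ℝ := (dd 0 v : ℝ) with hn
  have hn1 : (1:ℝ) ≤ n := by rw [hn]; exact_mod_cast dd_pos hv
  have hn0 : 0 < n := by linarith
  have hnζ : 1 ≤ n ^ ζ := Real.one_le_rpow hn1 hζ.le
  have hθb : 0 < θ ^ (1 / b) := by positivity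
  have hc0i : 0 < 1 / c0 := by positivity
  have hP : 0 ≤ n ^ ζ * (1 + θ ^ (1 / b) * n) := by positivity
  have hP1 : 1 ≤ n ^ ζ * (1 + θ ^ (1 / b) * n) := by
    have : 0 ≤ θ ^ (1 / b) * n := by positivity
    nlinarith
  have hmon : ∀ A : ℝ, A ≤ 2 + 1 / c0 + K' → A * (n ^ ζ * (1 + θ ^ (1 / b) * n)) ≤
      (2 + 1 / c0 + K') * n ^ ζ * (1 + θ ^ (1 / b) * n) := by
    intro A hA'
    rw [mul_assoc (2 + 1 / c0 + K')]
    exact mul_le_mul_of_nonneg_right hA' hP
  by_cases cA : θ * n ≤ 1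
  · refine (uq_small h hθ.le hθ1 v).trans (Real.exp_le_exp.2 ?_)
    rw [← hn]
    have := hmon 2 (by linarith)
    linarith
  push Not at cA
  by_cases cB : 5 ^ (-a) / 3200 < θ
  · refine (uq_small h hθ.le hθ1 v).trans (Real.exp_le_exp.2 ?_)
    rw [← hn]
    have e0 : c0 ≤ θ ^ (1 / b) := Real.rpow_le_rpow (by positivity) cB.le (by positivity)
    have e1 : n ≤ 1 / c0 * (θ ^ (1 / b) * n) := by
      calc n = 1 / c0 * (c0 * n) := by field_simp
        _ ≤ _ := by gcongr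
    have e2 : 1 / c0 * (θ ^ (1 / b) * n) ≤ 1 / c0 * (n ^ ζ * (1 + θ ^ (1 / b) * n)) := by
      have e3 : 0 ≤ θ ^ (1 / b) * n := by positivity
      have : θ ^ (1 / b) * n ≤ n ^ ζ * (1 + θ ^ (1 / b) * n) := by nlinarith
      gcongr
    have e4 := hmon (1 / c0) (by linarith)
    have e5 : 2 * θ * n ≤ n := by nlinarith
    linarith
  push Not at cB
  have h32 : 3200 * θ ≤ 5 ^ (-a) := by linarith
  have h320 : 0 < 3200 * θ := by positivity
  set m : ℝ := (3200 * θ) ^ (-(1 / a)) / 5 with hm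
  have hθm : 5 ≤ (3200 * θ) ^ (-(1 / a)) := by
    have e1 : (5:ℝ) = ((5:ℝ) ^ (-a)) ^ (-(1 / a)) := by
      rw [← Real.rpow_mul (by norm_num), show -a * -(1 / a) = 1 by field_simp, Real.rpow_one]
    conv_lhs => rw [e1]
    exact Real.rpow_le_rpow_of_nonpos h320 h32 (by
      have : 0 < 1 / a := by positivity
      linarith)
  have hm1 : 1 ≤ m := by rw [hm, le_div_iff₀ (by norm_num)]; linarith
  have hm0 : 0 < m := by linarith
  have hmθ : (5 * m) ^ (-a) / 3200 = θ := by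
    rw [hm, mul_div_cancel₀ _ (by norm_num), ← Real.rpow_mul h320.le,
      show -(1 / a) * -a = 1 by field_simp, Real.rpow_one]
    ring
  have key := hA m θ hm1 hθ.le hmθ.ge v
  rw [← hn] at key
  refine key.trans (Real.exp_le_exp.2 ?_)
  have hinv : 1 / n ≤ θ := by rw [div_le_iff₀ hn0]; exact cA.le
  have f1 : ∀ e : ℝ, 0 ≤ e → θ ^ (-e) ≤ n ^ e := by
    intro e he
    have : n ^ e = (1 / n) ^ (-e) := by
      rw [one_div, Real.inv_rpow hn0.le, ← Real.rpow_neg hn0.le, neg_neg]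
    rw [this]
    exact Real.rpow_le_rpow_of_nonpos (by positivity) hinv (by linarith)
  have f3 : n / m ≤ 5 * 3200 ^ (1 / a) * (n * θ ^ (1 / b) * n ^ (ζ / 2)) := by
    have e1 : n / m = 5 * 3200 ^ (1 / a) * (n * θ ^ (1 / a)) := by
      rw [hm, Real.rpow_neg h320.le, Real.mul_rpow (by norm_num) hθ.le]
      have h1 : θ ^ (1 / a) ≠ 0 := by positivity
      have h2 : (3200:ℝ) ^ (1 / a) ≠ 0 := by positivity
      field_simp
    have ea : θ ^ (1 / a) = θ ^ (1 / b) * θ ^ (-δ) := by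
      rw [hainv, sub_eq_add_neg, Real.rpow_add hθ]
    rw [e1, ea]
    have e2 : θ ^ (-δ) ≤ n ^ (ζ / 2) :=
      (f1 δ hδ0.le).trans (Real.rpow_le_rpow_of_exponent_le hn1 hδ1)
    have e3 : n * (θ ^ (1 / b) * θ ^ (-δ)) ≤ n * θ ^ (1 / b) * n ^ (ζ / 2) := by
      rw [← mul_assoc]
      gcongr
    gcongr
  have hz2 : n ^ (ζ / 2) ≤ n ^ ζ := Real.rpow_le_rpow_of_exponent_le hn1 (by linarith)
  have f4 : K * (n / m + 1) ≤ K' * (n ^ ζ * (1 + θ ^ (1 / b) * n)) := by
    have e1 : K * (n / m) ≤ 5 * 3200 ^ (1 / a) * K * (n ^ ζ * (1 + θ ^ (1 / b) * n)) := by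
      calc K * (n / m) ≤ K * (5 * 3200 ^ (1 / a) * (n * θ ^ (1 / b) * n ^ (ζ / 2))) := by gcongr
        _ = 5 * 3200 ^ (1 / a) * K * (n ^ (ζ / 2) * (θ ^ (1 / b) * n)) := by ring
        _ ≤ 5 * 3200 ^ (1 / a) * K * (n ^ ζ * (1 + θ ^ (1 / b) * n)) := by
            gcongr
            linarith
    have e2 : K ≤ K * (n ^ ζ * (1 + θ ^ (1 / b) * n)) := by nlinarith
    rw [hK', add_mul, mul_add, mul_one]
    linarith
  have f5 := hmon K' (by linarith)
  linarith

lemma chernoffU {θ Y s : ℝ} (hθ : 0 ≤ θ) (hθ1 : θ ≤ 1 / 2) {v : ℤ × ℤ}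
    (h : uq μ θ v ≤ Real.exp Y) :
    nu.real {w | mz μ v + s < TT (pw w) 0 v} ≤ Real.exp (-(θ * s) + Y) := by
  have h1 := mul_meas_ge_le_integral_of_nonneg (μ := nu)
    (f := fun w => Real.exp (θ * (TT (pw w) 0 v - mz μ v)))
    (Eventually.of_forall fun w => (Real.exp_pos _).le)
    (int_TTexp hθ hθ1 0 v _) (Real.exp (θ * s))
  have h2 : nu.real {w | mz μ v + s < TT (pw w) 0 v} ≤
      nu.real {w | Real.exp (θ * s) ≤ Real.exp (θ * (TT (pw w) 0 v - mz μ v))} := by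
    refine measureReal_mono ?_ (measure_ne_top _ _)
    intro w hw
    have hw' : mz μ v + s < TT (pw w) 0 v := hw
    show Real.exp _ ≤ Real.exp _
    refine Real.exp_le_exp.2 (mul_le_mul_of_nonneg_left ?_ hθ)
    linarith
  have h3 : Real.exp (θ * s) * nu.real {w | mz μ v + s < TT (pw w) 0 v} ≤ Real.exp Y :=
    (mul_le_mul_of_nonneg_left h2 (Real.exp_pos _).le).trans (h1.trans h)
  have e : Real.exp (-(θ * s) + Y) = Real.exp Y / Real.exp (θ * s) := by
    rw [← Real.exp_sub]; congr 1; ring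
  rw [e, le_div_iff₀ (Real.exp_pos _), mul_comm]
  exact h3

/-- the tail from the cumulants -/
lemma optU_of_cum {b : ℝ} (hb : 0 < b) (hb1 : b < 1) {ζ : ℝ} (hζ : 0 < ζ)
    (hC : CumU μ b (ζ / 2)) : OptU μ b ζ := by
  obtain ⟨C0, hC0, hC⟩ := hC
  have hb' : 0 < 1 - b := by linarith
  set w2 : ℝ := 2 ^ ((1 - b) / b) with hw2
  have hw20 : 0 < w2 := by positivity
  set C1 : ℝ := max C0 (2 * w2) with hC1
  have hC12 : 2 * w2 ≤ C1 := le_max_right _ _
  have hC10 : 0 < C1 := by linarith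
  set c1 : ℝ := 1 / 2 * (2 * C1) ^ (-(b / (1 - b))) with hc1
  have hc10 : 0 < c1 := by positivity
  set γ : ℝ := (ζ - b * (ζ / 2)) / (1 - b) with hγ
  have hγ1 : ζ / 2 < γ := by
    rw [hγ, lt_div_iff₀ hb']; nlinarith
  have s1 := pow_small (K := C1 / c1) hγ1
  have s2 := pow_small (K := 1 / c1) (show (0:ℝ) < γ by linarith)
  obtain ⟨n0, h0⟩ := eventually_atTop.1 (s1.and s2)
  refine ⟨Real.exp 1 + Real.exp ((3 * (n0:ℝ)) ^ (1 / (1 - b))) + 1, by positivity,
    fun v hv s hs hs3 => ?_⟩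
  set n : ℝ := (dd 0 v : ℝ) with hn
  have hn1 : (1:ℝ) ≤ n := by rw [hn]; exact_mod_cast dd_pos hv
  have hn0 : 0 < n := by linarith
  have hnp : 0 < n ^ (b + ζ) := by positivity
  set B : ℝ := (s / n ^ (b + ζ)) ^ (1 / (1 - b)) with hB
  have hB0 : 0 < B := by positivity
  have hexpB := Real.exp_pos (-B)
  have e1 := Real.exp_pos 1
  have e2 := Real.exp_pos ((3 * (n0:ℝ)) ^ (1 / (1 - b)))
  have triv : ∀ M : ℝ, B ≤ M → Real.exp M ≤ Real.exp 1 + Real.exp ((3 * (n0:ℝ)) ^ (1 / (1 - b))) + 1 →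
      nu.real {w | mz μ v + s < TT (pw w) 0 v} ≤
        (Real.exp 1 + Real.exp ((3 * (n0:ℝ)) ^ (1 / (1 - b))) + 1) * Real.exp (-B) := by
    intro M hM hM2
    calc nu.real {w | mz μ v + s < TT (pw w) 0 v} ≤ 1 := measureReal_le_one
      _ = Real.exp B * Real.exp (-B) := by rw [← Real.exp_add, add_neg_cancel, Real.exp_zero]
      _ ≤ _ := by
          gcongr
          exact (Real.exp_le_exp.2 hM).trans hM2
  by_cases c1' : s ≤ n ^ (b + ζ)
  · refine triv 1 ?_ (by linarith)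
    exact Real.rpow_le_one (by positivity) (by rw [div_le_one hnp]; exact c1') (by positivity)
  push Not at c1'
  have hn1' : 1 ≤ n ^ (b + ζ) := Real.one_le_rpow hn1 (by linarith)
  by_cases c3 : dd 0 v < n0
  · refine triv ((3 * (n0:ℝ)) ^ (1 / (1 - b))) ?_ (by linarith)
    refine Real.rpow_le_rpow (by positivity) ?_ (by positivity)
    have : n ≤ n0 := by rw [hn]; exact_mod_cast c3.le
    calc s / n ^ (b + ζ) ≤ s / 1 := by gcongr
      _ ≤ _ := by rw [div_one]; linarith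
  push Not at c3
  obtain ⟨g1, g2⟩ := h0 _ c3
  rw [← hn] at g1 g2
  have hB1 : 1 ≤ B := Real.one_le_rpow (by rw [one_le_div hnp]; exact c1'.le) (by positivity)
  set y : ℝ := s / (2 * C1 * n ^ (1 + ζ / 2)) with hy
  have hnn : n ≤ n ^ (1 + ζ / 2) := by
    conv_lhs => rw [← Real.rpow_one n]
    exact Real.rpow_le_rpow_of_exponent_le hn1 (by linarith)
  have hy0 : 0 < y := by positivity
  have hy1 : y ≤ 1 / w2 := by
    rw [hy, div_le_div_iff₀ (by positivity) hw20, one_mul]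
    calc s * w2 ≤ (3 * n) * w2 := by gcongr
      _ ≤ 2 * (2 * w2) * n := by nlinarith
      _ ≤ _ := by gcongr
  set θ : ℝ := y ^ (b / (1 - b)) with hθ
  have hθ0 : 0 < θ := by positivity
  have hθ1 : θ ≤ 1 / 2 := by
    calc θ ≤ (1 / w2) ^ (b / (1 - b)) := Real.rpow_le_rpow hy0.le hy1 (by positivity)
      _ = 1 / 2 := by
          rw [hw2, one_div, Real.inv_rpow (by positivity), ← Real.rpow_mul (by norm_num),
            show (1 - b) / b * (b / (1 - b)) = 1 by field_simp, Real.rpow_one, one_div]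
  have hθb : θ ^ (1 / b) = θ * y := by
    rw [hθ, ← Real.rpow_mul hy0.le, ← Real.rpow_add_one hy0.ne']
    congr 1
    field_simp
    ring
  have k0 := hC v hv θ hθ0 hθ1
  rw [← hn] at k0
  have k1 : uq μ θ v ≤ Real.exp (C1 * n ^ (ζ / 2) + θ * s / 2) := by
    refine k0.trans (Real.exp_le_exp.2 ?_)
    have e3 : C0 * n ^ (ζ / 2) * (1 + θ ^ (1 / b) * n) ≤ C1 * n ^ (ζ / 2) * (1 + θ ^ (1 / b) * n) := by
      gcongr
      exact le_max_left _ _
    have e4 : C1 * n ^ (ζ / 2) * (1 + θ ^ (1 / b) * n) = C1 * n ^ (ζ / 2) + θ * s / 2 := by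
      rw [hθb, hy, Real.rpow_add hn0, Real.rpow_one]
      have : n ^ (ζ / 2) ≠ 0 := by positivity
      field_simp
    linarith
  have k2 := chernoffU (s := s) hθ0.le hθ1 k1
  refine k2.trans ?_
  -- the exponent
  have k3 : θ * s / 2 = c1 * (B * n ^ γ) := by
    have e4 : θ * s = s ^ (1 / (1 - b)) * (2 * C1) ^ (-(b / (1 - b))) *
        (n ^ (1 + ζ / 2)) ^ (-(b / (1 - b))) := by
      rw [hθ, hy, Real.div_rpow hs.le (by positivity), Real.mul_rpow (by positivity) (by positivity),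
        Real.rpow_neg (by positivity), Real.rpow_neg (by positivity)]
      have : s ^ (1 / (1 - b)) = s ^ (b / (1 - b)) * s := by
        rw [← Real.rpow_add_one hs.ne']
        congr 1
        field_simp
        ring
      rw [this]
      have f1 : ((2 * C1) ^ (b / (1 - b)) : ℝ) ≠ 0 := by positivity
      have f2 : ((n ^ (1 + ζ / 2)) ^ (b / (1 - b)) : ℝ) ≠ 0 := by positivity
      field_simp
    have e5 : s ^ (1 / (1 - b)) = B * n ^ ((b + ζ) / (1 - b)) := by
      rw [hB, Real.div_rpow hs.le hnp.le, ← Real.rpow_mul hn0.le,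
        show (b + ζ) * (1 / (1 - b)) = (b + ζ) / (1 - b) by ring]
      have : (n ^ ((b + ζ) / (1 - b)) : ℝ) ≠ 0 := by positivity
      field_simp
    have e6 : n ^ ((b + ζ) / (1 - b)) * (n ^ (1 + ζ / 2)) ^ (-(b / (1 - b))) = n ^ γ := by
      rw [← Real.rpow_mul hn0.le, ← Real.rpow_add hn0]
      congr 1
      rw [hγ]
      field_simp
      ring
    rw [e4, e5, hc1, ← e6]
    ring
  have k4 : B ≤ c1 * (B * n ^ γ) - C1 * n ^ (ζ / 2) := by
    rw [Real.rpow_zero, mul_one] at g2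
    have f1 : C1 * n ^ (ζ / 2) ≤ c1 * (n ^ γ / 4) := by
      have : C1 * n ^ (ζ / 2) = c1 * (C1 / c1 * n ^ (ζ / 2)) := by field_simp
      rw [this]
      gcongr
    have f2 : 1 ≤ c1 * (n ^ γ / 4) := by
      have : 1 = c1 * (1 / c1) := by field_simp
      rw [this]
      gcongr
    have f3 : 0 < c1 * n ^ γ := by positivity
    nlinarith
  calc Real.exp (-(θ * s) + (C1 * n ^ (ζ / 2) + θ * s / 2)) ≤ Real.exp (-B) :=
        Real.exp_le_exp.2 (by linarith)
    _ = 1 * Real.exp (-B) := (one_mul _).symm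
    _ ≤ _ := by
        gcongr
        linarith

/-- the tail is uniform over the smaller distances -/
lemma unif_opt (h : Shape μ) {b : ℝ} (hb : 0 < b) (hb1 : b < 1) {ζ : ℝ} (hζ : 0 < ζ)
    (hO : OptU μ b ζ) : ∃ C : ℝ, 0 < C ∧ ∀ (u : ℤ × ℤ) (s M : ℝ), 0 < s → s ≤ M → 1 ≤ M →
      (dd 0 u : ℝ) ≤ M → nu.real {w | mz μ u + s < TT (pw w) 0 u} ≤
        C * Real.exp (-((s / M ^ (b + ζ)) ^ (1 / (1 - b)))) := by
  obtain ⟨C, hC, hO⟩ := hO
  have hb' : 0 < 1 - b := by linarith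
  have hlog : 0 < Real.log 2 := Real.log_pos one_lt_two
  obtain ⟨M0, hM0⟩ := eventually_atTop.1 (rpow_small (K := 3 / Real.log 2)
    (show (0:ℝ) < ζ / (1 - b) by positivity))
  refine ⟨C + 2 + Real.exp |M0|, by positivity, fun u s M hs hsM hM1 huM => ?_⟩
  have hM : 0 < M := by linarith
  set B : ℝ := (s / M ^ (b + ζ)) ^ (1 / (1 - b)) with hB
  have hB0 : 0 ≤ B := by positivity
  have hE := Real.exp_pos (-B)
  have hEM := Real.exp_pos |M0|
  have hBs : B ≤ s * M ^ (-(ζ / (1 - b))) := by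
    have e1 : s / M ^ (b + ζ) ≤ s ^ (1 - b) * M ^ (-ζ) := by
      have f1 : s = s ^ (1 - b) * s ^ b := by
        rw [← Real.rpow_add hs, show 1 - b + b = 1 by ring, Real.rpow_one]
      have f2 : s ^ b ≤ M ^ b := Real.rpow_le_rpow hs.le hsM hb.le
      rw [div_le_iff₀ (by positivity)]
      calc s = s ^ (1 - b) * s ^ b := f1
        _ ≤ s ^ (1 - b) * M ^ b := by gcongr
        _ = s ^ (1 - b) * (M ^ (-ζ) * M ^ (b + ζ)) := by
            rw [← Real.rpow_add hM]; congr 2; ring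
        _ = _ := by ring
    calc B ≤ (s ^ (1 - b) * M ^ (-ζ)) ^ (1 / (1 - b)) :=
          Real.rpow_le_rpow (by positivity) e1 (by positivity)
      _ = s * M ^ (-(ζ / (1 - b))) := by
          rw [Real.mul_rpow (by positivity) (by positivity), ← Real.rpow_mul hs.le,
            ← Real.rpow_mul hM.le, mul_one_div_cancel hb'.ne', Real.rpow_one]
          congr 2
          ring
  by_cases c1 : s ≤ 3 * (dd 0 u : ℝ)
  · have hu0 : u ≠ 0 := by
      rintro rfl
      rw [dd_self] at c1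
      simp only [Nat.cast_zero, mul_zero] at c1
      linarith
    have hd0 : (0:ℝ) < dd 0 u := by exact_mod_cast dd_pos hu0
    have e1 : B ≤ (s / (dd 0 u : ℝ) ^ (b + ζ)) ^ (1 / (1 - b)) := by
      have f1 : (dd 0 u : ℝ) ^ (b + ζ) ≤ M ^ (b + ζ) :=
        Real.rpow_le_rpow hd0.le huM (by positivity)
      refine Real.rpow_le_rpow (by positivity) ?_ (by positivity)
      gcongr
    calc _ ≤ C * Real.exp (-((s / (dd 0 u : ℝ) ^ (b + ζ)) ^ (1 / (1 - b)))) := hO u hu0 s hs c1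
      _ ≤ (C + 2 + Real.exp |M0|) * Real.exp (-B) := by
          gcongr
          linarith
  push Not at c1
  by_cases c2 : M < M0
  · have e1 : B ≤ |M0| := by
      have f1 : M ^ (-(ζ / (1 - b))) ≤ 1 :=
        Real.rpow_le_one_of_one_le_of_nonpos hM1 (by
          have : 0 < ζ / (1 - b) := by positivity
          linarith)
      have f2 := le_abs_self M0
      nlinarith
    calc _ ≤ (1:ℝ) := measureReal_le_one
      _ = Real.exp B * Real.exp (-B) := by rw [← Real.exp_add, add_neg_cancel, Real.exp_zero]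
      _ ≤ Real.exp |M0| * Real.exp (-B) := by gcongr
      _ ≤ _ := by
          gcongr
          linarith
  push Not at c2
  have hM2 := hM0 M c2
  rw [Real.rpow_zero, mul_one] at hM2
  have e1 : B ≤ Real.log 2 / 3 * s := by
    have f1 : M ^ (-(ζ / (1 - b))) ≤ Real.log 2 / 3 := by
      rw [Real.rpow_neg hM.le, inv_le_comm₀ (by positivity) (by positivity)]
      refine le_trans (le_of_eq ?_) hM2
      rw [inv_div]
    calc B ≤ s * M ^ (-(ζ / (1 - b))) := hBs
      _ ≤ s * (Real.log 2 / 3) := by gcongr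
      _ = _ := by ring
  set k := ⌊s / 3⌋₊ with hk
  have h3 : dd 0 u ≤ k := Nat.le_floor (by linarith)
  have h4 : (k:ℝ) ≤ s / 3 := Nat.floor_le (by positivity)
  have h5 : s / 3 < k + 1 := Nat.lt_floor_add_one _
  have h6 : nu.real {w | mz μ u + s < TT (pw w) 0 u} ≤ (1 / 2) ^ k := by
    refine (measureReal_mono ?_ (measure_ne_top _ _)).trans (straight h3)
    intro w hw
    simp only [Set.mem_setOf_eq] at hw ⊢
    linarith [mz_nonneg h u]
  have h7 : ((1:ℝ) / 2) ^ k = 2 * Real.exp (-(Real.log 2 * (k + 1))) := by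
    have := Q69.FL.half_exp (k + 1)
    push_cast at this
    rw [← this, pow_succ]
    ring
  calc _ ≤ ((1:ℝ) / 2) ^ k := h6
    _ = 2 * Real.exp (-(Real.log 2 * (k + 1))) := h7
    _ ≤ (C + 2 + Real.exp |M0|) * Real.exp (-B) := by
        have : B ≤ Real.log 2 * (k + 1) := by
          calc B ≤ Real.log 2 / 3 * s := e1
            _ = Real.log 2 * (s / 3) := by ring
            _ ≤ _ := by gcongr
        gcongr
        linarith

variable {Ω : Type} [MeasurableSpace Ω] {P : Measure Ω} {X : Ed → Ω → ℝ}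

lemma inner_of_opt [IsProbabilityMeasure P] (hW : Wts P X) (h : Shape μ) {b : ℝ} (hb : 0 < b)
    (hb1 : b < 1) {ζ : ℝ} (hζ : 0 < ζ) (hO : OptU μ b (ζ / 2)) :
    ∃ C : ℝ, 0 < C ∧ ∀ t : ℝ, 1 ≤ t → ∀ r : ℝ, 0 ≤ r → r < 1 →
      (P (Fl X μ ((1 - r) * t) t)).toReal ≤
        C * Real.exp (-((r * t ^ (1 - b - ζ)) ^ (1 / (1 - b)))) := by
  classical
  obtain ⟨C2, hC2, hO⟩ := unif_opt h hb hb1 (by positivity) hO
  have hb' : 0 < 1 - b := by linarith
  set γ : ℝ := ζ / 2 / (1 - b) with hγ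
  have hγ0 : 0 < γ := by positivity
  set c1 : ℝ := 1 / (2 * 89 ^ (b + ζ / 2)) with hc1
  have hc10 : 0 < c1 := by positivity
  set c' : ℝ := c1 ^ (1 / (1 - b)) with hc'
  have hc'0 : 0 < c' := by positivity
  obtain ⟨t0, h0⟩ := eventually_atTop.1
    ((Q69.FL.absorbR (179 ^ 2 * C2 * Real.exp 1) hc'0 (show 0 < γ / 2 by positivity)
      (show γ / 2 < γ by linarith)).and
    ((rpow_small (K := 8) (show (0:ℝ) < b + ζ by positivity)).and
      (rpow_small (K := 1 / c') hγ0)))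
  refine ⟨Real.exp 1 + Real.exp |t0| + 1, by positivity, fun t ht r hr hr1 => ?_⟩
  have ht0 : 0 < t := by linarith
  set B : ℝ := (r * t ^ (1 - b - ζ)) ^ (1 / (1 - b)) with hB
  have hB0 : 0 ≤ B := by positivity
  have p1 := Real.exp_pos 1
  have p2 := Real.exp_pos |t0|
  have triv : ∀ M : ℝ, B ≤ M → Real.exp M ≤ Real.exp 1 + Real.exp |t0| + 1 →
      (P (Fl X μ ((1 - r) * t) t)).toReal ≤ (Real.exp 1 + Real.exp |t0| + 1) * Real.exp (-B) := by
    intro M hM hM2
    calc (P (Fl X μ ((1 - r) * t) t)).toReal ≤ 1 := measureReal_le_one (μ := P)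
      _ = Real.exp B * Real.exp (-B) := by rw [← Real.exp_add, add_neg_cancel, Real.exp_zero]
      _ ≤ _ := by
          gcongr
          exact (Real.exp_le_exp.2 hM).trans hM2
  by_cases cB : B ≤ 1
  · exact triv 1 cB (by linarith)
  push Not at cB
  by_cases ct : t < t0
  · refine triv |t0| ?_ (by linarith)
    have e1 : r * t ^ (1 - b - ζ) ≤ t ^ (1 - b) := by
      calc r * t ^ (1 - b - ζ) ≤ 1 * t ^ (1 - b) := by
            have := Real.rpow_le_rpow_of_exponent_le ht (show 1 - b - ζ ≤ 1 - b by linarith)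
            gcongr
        _ = _ := one_mul _
    calc B ≤ (t ^ (1 - b)) ^ (1 / (1 - b)) := Real.rpow_le_rpow (by positivity) e1 (by positivity)
      _ = t := by rw [← Real.rpow_mul ht0.le, mul_one_div_cancel hb'.ne', Real.rpow_one]
      _ ≤ _ := ct.le.trans (le_abs_self _)
  push Not at ct
  obtain ⟨s1, s2, s3⟩ := h0 t ct
  rw [Real.rpow_zero, mul_one] at s2 s3
  have hx1 : 1 < r * t ^ (1 - b - ζ) := by
    by_contra hcon
    push Not at hcon
    exact absurd (Real.rpow_le_one (by positivity) hcon (by positivity)) (not_le.2 cB)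
  have ert : r * t = (r * t ^ (1 - b - ζ)) * t ^ (b + ζ) := by
    rw [mul_assoc, ← Real.rpow_add ht0, show 1 - b - ζ + (b + ζ) = 1 by ring, Real.rpow_one]
  have hrt : 8 ≤ r * t := by
    rw [ert]
    nlinarith
  have hrt1 : r * t ≤ t := by nlinarith
  set R : ℕ := ⌈88 * t⌉₊ with hR
  have hR1 : 88 * t ≤ R := Nat.le_ceil _
  have hR2 : (R:ℝ) ≤ 89 * t := by
    have := Nat.ceil_lt_add_one (show 0 ≤ 88 * t by positivity)
    linarith
  have hct : 0 < (1 - r) * t := mul_pos (by linarith) ht0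
  have hsub : Fl X μ ((1 - r) * t) t ⊆ (⋃ u ∈ ball R 0,
      {ω | TT (fun e => X e ω) 0 u ∈ Set.Ioi (mz μ u + (r * t - 4))}) := by
    intro ω hω
    obtain ⟨u, hu1, hu2⟩ := Fl_sub h hct hω
    simp only [Set.mem_iUnion, Set.mem_setOf_eq, exists_prop, Set.mem_Ioi]
    refine ⟨u, mem_ball.2 ?_, by linarith⟩
    have h1 := mz_low h u
    have h2 : (dd 0 u : ℝ) ≤ R := by
      have : (1 - r) * t ≤ t := by nlinarith
      linarith
    exact_mod_cast h2
  have ecard : ((ball R 0).card : ℝ) ≤ 179 ^ 2 * t ^ 2 := by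
    have f1 : ((ball R 0).card : ℝ) ≤ ((2 * R + 1 : ℕ) : ℝ) ^ 2 := by
      exact_mod_cast card_ball R
    have f2 : ((2 * R + 1 : ℕ) : ℝ) ≤ 179 * t := by push_cast; linarith
    calc _ ≤ ((2 * R + 1 : ℕ) : ℝ) ^ 2 := f1
      _ ≤ (179 * t) ^ 2 := pow_le_pow_left₀ (by positivity) f2 2
      _ = _ := by ring
  have eone : ∀ u ∈ ball R 0, P.real {ω | TT (fun e => X e ω) 0 u ∈ Set.Ioi (mz μ u + (r * t - 4))} ≤
      C2 * Real.exp (-(c' * (B * t ^ γ))) := by
    intro u hu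
    rw [mem_ball] at hu
    have hd : (dd 0 u : ℝ) ≤ 89 * t := by
      have : (dd 0 u : ℝ) ≤ R := by exact_mod_cast hu
      linarith
    rw [hW.real u measurableSet_Ioi]
    refine (hO u (r * t - 4) (89 * t) (by linarith) (by linarith) (by linarith) hd).trans ?_
    refine mul_le_mul_of_nonneg_left (Real.exp_le_exp.2 (neg_le_neg ?_)) hC2.le
    have g1 : c1 * ((r * t ^ (1 - b - ζ)) * t ^ (ζ / 2)) ≤
        (r * t - 4) / (89 * t) ^ (b + ζ / 2) := by
      rw [le_div_iff₀ (by positivity), Real.mul_rpow (by norm_num) ht0.le]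
      calc c1 * ((r * t ^ (1 - b - ζ)) * t ^ (ζ / 2)) * (89 ^ (b + ζ / 2) * t ^ (b + ζ / 2))
          = (c1 * 89 ^ (b + ζ / 2)) * ((r * t ^ (1 - b - ζ)) * (t ^ (ζ / 2) * t ^ (b + ζ / 2))) := by
            ring
        _ = (c1 * 89 ^ (b + ζ / 2)) * (r * t) := by
            rw [← Real.rpow_add ht0, show ζ / 2 + (b + ζ / 2) = b + ζ by ring, ← ert]
        _ = r * t / 2 := by
            rw [hc1]
            have : (89:ℝ) ^ (b + ζ / 2) ≠ 0 := by positivity
            field_simp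
        _ ≤ _ := by linarith
    calc c' * (B * t ^ γ) = (c1 * ((r * t ^ (1 - b - ζ)) * t ^ (ζ / 2))) ^ (1 / (1 - b)) := by
          rw [Real.mul_rpow hc10.le (by positivity), Real.mul_rpow (by positivity) (by positivity),
            ← Real.rpow_mul ht0.le]
          congr 3
          rw [hγ]
          ring
      _ ≤ _ := Real.rpow_le_rpow (by positivity) g1 (by positivity)
  have e1 : P.real (⋃ u ∈ ball R 0, {ω | TT (fun e => X e ω) 0 u ∈ Set.Ioi (mz μ u + (r * t - 4))}) ≤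
      Real.exp (-B) := by
    have f1 : Real.exp (-(c' * (B * t ^ γ))) ≤
        Real.exp 1 * Real.exp (-(c' * t ^ γ)) * Real.exp (-B) := by
      rw [← Real.exp_add, ← Real.exp_add]
      refine Real.exp_le_exp.2 ?_
      have : 1 ≤ c' * t ^ γ := by
        calc 1 = c' * (1 / c') := by field_simp
          _ ≤ _ := by gcongr
      nlinarith
    calc _ ≤ ∑ _u ∈ ball R 0, C2 * Real.exp (-(c' * (B * t ^ γ))) :=
          (measureReal_biUnion_finset_le _ _).trans (Finset.sum_le_sum eone)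
      _ = ((ball R 0).card : ℝ) * (C2 * Real.exp (-(c' * (B * t ^ γ)))) := by
          rw [Finset.sum_const, nsmul_eq_mul]
      _ ≤ (179 ^ 2 * t ^ 2) * (C2 * (Real.exp 1 * Real.exp (-(c' * t ^ γ)) * Real.exp (-B))) := by
          gcongr
      _ = (179 ^ 2 * C2 * Real.exp 1 * t ^ 2 * Real.exp (-(c' * t ^ γ))) * Real.exp (-B) := by ring
      _ ≤ 1 * Real.exp (-B) := by
          refine mul_le_mul_of_nonneg_right (s1.trans ?_) (Real.exp_pos _).le
          exact Real.exp_le_one_iff.2 (neg_nonpos.2 (by positivity))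
      _ = _ := one_mul _
  have e3 : P.real (Fl X μ ((1 - r) * t) t) ≤ _ := measureReal_mono hsub (measure_ne_top _ _)
  show P.real (Fl X μ ((1 - r) * t) t) ≤ _
  calc P.real (Fl X μ ((1 - r) * t) t) ≤ 1 * Real.exp (-B) := by linarith
    _ ≤ _ := by
        gcongr
        linarith

end Q70.Fp
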