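import Mathlib

set_option autoImplicit false

/-! Geometric means of positive definite bilinear forms on a finite dimensional real vector space:
existence, uniqueness, monotonicity, compatibility with exterior powers. -/

open Module

namespace Q70.Ad

/-- Bilinear forms. -/
abbrev Bil (W : Type*) [AddCommGroup W] [Module ℝ W] := W →ₗ[ℝ] W →ₗ[ℝ] ℝ

variable {W : Type*} [AddCommGroup W] [Module ℝ W]

/-- Positive definite symmetric bilinear forms. -/
structure PD (P : Bil W) : Prop where
  symm : ∀ u v, P u v = P v u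
  pos : ∀ u, u ≠ 0 → 0 < P u u

/-- The basis `b` is orthogonal for `P`, with values `a` on the diagonal. -/
structure Diag {ι : Type*} (b : Basis ι ℝ W) (P : Bil W) (a : ι → ℝ) : Prop where
  diag : ∀ i, P (b i) (b i) = a i
  off : ∀ i j, i ≠ j → P (b i) (b j) = 0

lemma PD.nonneg {P : Bil W} (h : PD P) (u : W) : 0 ≤ P u u := by
  by_cases hu : u = 0
  · simp [hu]
  · exact (h.pos u hu).le

lemma PD.smul {P : Bil W} (h : PD P) {r : ℝ} (hr : 0 < r) : PD (r • P) := by
  refine ⟨fun u v => ?_, fun u hu => ?_⟩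
  · simp [h.symm u v]
  · simpa using mul_pos hr (h.pos u hu)

lemma PD.add {P Q : Bil W} (h : PD P) (h' : PD Q) : PD (P + Q) := by
  refine ⟨fun u v => ?_, fun u hu => ?_⟩
  · simp [h.symm u v, h'.symm u v]
  · simpa using add_pos (h.pos u hu) (h'.pos u hu)

lemma Diag.apply {ι : Type*} [Fintype ι] {b : Basis ι ℝ W} {P : Bil W} {a : ι → ℝ}
    (h : Diag b P a) (u v : W) : P u v = ∑ i, a i * b.repr u i * b.repr v i := by
  classical
  conv_lhs => rw [← b.sum_repr u, ← b.sum_repr v]
  simp only [map_sum, LinearMap.sum_apply, map_smul, LinearMap.smul_apply, smul_eq_mul]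
  refine Finset.sum_congr rfl fun i _ => ?_
  rw [Finset.sum_eq_single i]
  · rw [h.diag]; ring
  · intro j _ hj
    rw [h.off j i hj]; ring
  · simp

lemma Diag.nonneg {ι : Type*} [Fintype ι] {b : Basis ι ℝ W} {P : Bil W} {a : ι → ℝ}
    (h : Diag b P a) (ha : ∀ i, 0 ≤ a i) (u : W) : 0 ≤ P u u := by
  rw [h.apply]
  refine Finset.sum_nonneg fun i _ => ?_
  rw [mul_assoc]
  exact mul_nonneg (ha i) (mul_self_nonneg _)

lemma Diag.symm {ι : Type*} [Fintype ι] {b : Basis ι ℝ W} {P : Bil W} {a : ι → ℝ}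
    (h : Diag b P a) (u v : W) : P u v = P v u := by
  rw [h.apply, h.apply]
  refine Finset.sum_congr rfl fun i _ => ?_
  ring

lemma Diag.pd {ι : Type*} [Fintype ι] {b : Basis ι ℝ W} {P : Bil W} {a : ι → ℝ}
    (h : Diag b P a) (ha : ∀ i, 0 < a i) : PD P := by
  refine ⟨h.symm, fun u hu => ?_⟩
  rw [h.apply]
  have h1 : ∃ i, b.repr u i ≠ 0 := by
    by_contra hcon
    push Not at hcon
    apply hu
    rw [← b.sum_repr u]
    simp [hcon]
  obtain ⟨i, hi⟩ := h1
  refine Finset.sum_pos' (fun j _ => ?_) ⟨i, Finset.mem_univ i, ?_⟩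
  · rw [mul_assoc]
    exact mul_nonneg (ha j).le (mul_self_nonneg _)
  · rw [mul_assoc]
    exact mul_pos (ha i) (mul_self_pos.2 hi)

/-- The form with given diagonal in a basis. -/
noncomputable def ofDiag {ι : Type*} [Fintype ι] (b : Basis ι ℝ W) (a : ι → ℝ) : Bil W :=
  LinearMap.mk₂ ℝ (fun u v => ∑ i, a i * b.repr u i * b.repr v i)
    (by intro u u' v; simp only [map_add, Finsupp.add_apply, ← Finset.sum_add_distrib]
        exact Finset.sum_congr rfl fun i _ => by ring)
    (by intro c u v; simp only [map_smul, Finsupp.smul_apply, smul_eq_mul, Finset.mul_sum]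
        exact Finset.sum_congr rfl fun i _ => by ring)
    (by intro u v v'; simp only [map_add, Finsupp.add_apply, ← Finset.sum_add_distrib]
        exact Finset.sum_congr rfl fun i _ => by ring)
    (by intro c u v; simp only [map_smul, Finsupp.smul_apply, smul_eq_mul, Finset.mul_sum]
        exact Finset.sum_congr rfl fun i _ => by ring)

lemma ofDiag_diag {ι : Type*} [Fintype ι] (b : Basis ι ℝ W) (a : ι → ℝ) :
    Diag b (ofDiag b a) a := by
  classical
  refine ⟨fun i => ?_, fun i j hij => ?_⟩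
  · simp only [ofDiag, LinearMap.mk₂_apply, Basis.repr_self]
    rw [Finset.sum_eq_single i]
    · simp
    · intro j _ hj
      simp [Finsupp.single_apply, Ne.symm hj]
    · simp
  · simp only [ofDiag, LinearMap.mk₂_apply, Basis.repr_self]
    refine Finset.sum_eq_zero fun k _ => ?_
    by_cases h : i = k
    · subst h
      simp [Finsupp.single_apply, Ne.symm hij]
    · simp [Finsupp.single_apply, h]

/-- Simultaneous diagonalisation. -/
theorem exists_diag [FiniteDimensional ℝ W] {P Q : Bil W} (hP : PD P)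
    (hQ : ∀ u v, Q u v = Q v u) :
    ∃ (b : Basis (Fin (finrank ℝ W)) ℝ W) (q : Fin (finrank ℝ W) → ℝ),
      Diag b P (fun _ => 1) ∧ Diag b Q q := by
  classical
  let core : InnerProductSpace.Core ℝ W :=
    { inner := fun u v => P u v
      conj_inner_symm := fun u v => by simpa using hP.symm v u
      re_inner_nonneg := fun u => by simpa using hP.nonneg u
      add_left := fun u v w => by simp
      smul_left := fun u v r => by simp
      definite := fun u hu => by
        by_contra h
        exact absurd hu (ne_of_gt (hP.pos u h)) }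
  letI : NormedAddCommGroup W := core.toNormedAddCommGroup
  letI : InnerProductSpace ℝ W := InnerProductSpace.ofCore core.toCore
  have hin : ∀ u v : W, inner ℝ u v = P u v := fun u v => rfl
  let e := stdOrthonormalBasis ℝ W
  let T : W →ₗ[ℝ] W := ∑ i, (LinearMap.toSpanSingleton ℝ W (e i)) ∘ₗ (Q.flip (e i))
  have hT : ∀ u v, inner ℝ (T u) v = Q u v := by
    intro u v
    have h1 : T u = ∑ i, Q u (e i) • e i := by
      simp [T, LinearMap.sum_apply]
    rw [h1, sum_inner]
    simp only [inner_smul_left, conj_trivial]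
    conv_rhs => rw [← e.sum_repr' v]
    rw [map_sum]
    refine Finset.sum_congr rfl fun i _ => ?_
    rw [map_smul, smul_eq_mul, mul_comm]
  have hTs : T.IsSymmetric := by
    intro u v
    rw [hT, real_inner_comm, hT, hQ]
  have hn : finrank ℝ W = finrank ℝ W := rfl
  let f := hTs.eigenvectorBasis hn
  refine ⟨f.toBasis, fun i => hTs.eigenvalues hn i, ⟨fun i => ?_, fun i j hij => ?_⟩,
    ⟨fun i => ?_, fun i j hij => ?_⟩⟩
  · rw [← hin]
    simp [f]
  · rw [← hin]
    simp only [OrthonormalBasis.coe_toBasis]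
    exact f.orthonormal.2 hij
  · rw [← hT]
    simp only [OrthonormalBasis.coe_toBasis]
    rw [hTs.apply_eigenvectorBasis hn i]
    simp only [inner_smul_left, f]
    simp
  · rw [← hT]
    simp only [OrthonormalBasis.coe_toBasis]
    rw [hTs.apply_eigenvectorBasis hn i]
    simp only [inner_smul_left]
    have := f.orthonormal.2 hij
    simp only [f] at this
    rw [this]; simp

/-- `X` is the geometric mean of `P` and `Q`. -/
def IsMean (P Q X : Bil W) : Prop :=
  ∃ (ι : Type) (_ : Fintype ι) (b : Basis ι ℝ W) (a c : ι → ℝ), (∀ i, 0 < a i) ∧ (∀ i, 0 < c i) ∧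
    Diag b P a ∧ Diag b Q c ∧ Diag b X (fun i => √(a i * c i))

lemma exists_mean [FiniteDimensional ℝ W] {P Q : Bil W} (hP : PD P) (hQ : PD Q) :
    ∃ X, IsMean P Q X := by
  obtain ⟨b, q, h1, h2⟩ := exists_diag hP hQ.symm
  refine ⟨ofDiag b fun i => √(1 * q i), Fin (finrank ℝ W), inferInstance, b, fun _ => 1, q,
    fun _ => one_pos, fun i => ?_, h1, h2, ofDiag_diag _ _⟩
  rw [← h2.diag i]
  exact hQ.pos _ (b.ne_zero i)

lemma IsMean.symm {P Q X : Bil W} (h : IsMean P Q X) : IsMean Q P X := by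
  obtain ⟨ι, _, b, a, c, ha, hc, h1, h2, h3⟩ := h
  refine ⟨ι, ‹_›, b, c, a, hc, ha, h2, h1, ?_⟩
  simpa [mul_comm] using h3

lemma IsMean.pd {P Q X : Bil W} (h : IsMean P Q X) : PD X := by
  obtain ⟨ι, _, b, a, c, ha, hc, h1, h2, h3⟩ := h
  exact h3.pd fun i => Real.sqrt_pos.2 (mul_pos (ha i) (hc i))

lemma IsMean.pd_left {P Q X : Bil W} (h : IsMean P Q X) : PD P := by
  obtain ⟨ι, _, b, a, c, ha, hc, h1, h2, h3⟩ := h
  exact h1.pd ha

lemma IsMean.pd_right {P Q X : Bil W} (h : IsMean P Q X) : PD Q := h.symm.pd_left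

lemma Diag.smul {ι : Type*} {b : Basis ι ℝ W} {P : Bil W} {a : ι → ℝ}
    (h : Diag b P a) (r : ℝ) : Diag b (r • P) (fun i => r * a i) := by
  refine ⟨fun i => ?_, fun i j hij => ?_⟩
  · simp [h.diag]
  · simp [h.off i j hij]

lemma IsMean.smul {P Q X : Bil W} (h : IsMean P Q X) {r s : ℝ} (hr : 0 < r) (hs : 0 < s) :
    IsMean (r • P) (s • Q) (√(r * s) • X) := by
  obtain ⟨ι, _, b, a, c, ha, hc, h1, h2, h3⟩ := h
  refine ⟨ι, ‹_›, b, fun i => r * a i, fun i => s * c i, fun i => mul_pos hr (ha i),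
    fun i => mul_pos hs (hc i), h1.smul r, h2.smul s, ?_⟩
  have := h3.smul √(r * s)
  convert this using 2 with i
  rw [← Real.sqrt_mul (mul_pos hr hs).le]
  congr 1; ring

/-- Transport by a linear equivalence. -/
def pull {W' : Type*} [AddCommGroup W'] [Module ℝ W'] (T : W' →ₗ[ℝ] W) (P : Bil W) : Bil W' :=
  P.compl₁₂ T T

@[simp] lemma pull_apply {W' : Type*} [AddCommGroup W'] [Module ℝ W'] (T : W' →ₗ[ℝ] W)
    (P : Bil W) (u v : W') : pull T P u v = P (T u) (T v) := rfl

lemma PD.pull {W' : Type*} [AddCommGroup W'] [Module ℝ W'] {P : Bil W} (h : PD P)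
    {T : W' →ₗ[ℝ] W} (hT : Function.Injective T) : PD (pull T P) := by
  refine ⟨fun u v => by simpa using h.symm _ _, fun u hu => ?_⟩
  rw [pull_apply]
  exact h.pos _ fun h0 => hu (hT (by simpa using h0))

lemma Diag.pull {W' : Type*} [AddCommGroup W'] [Module ℝ W'] {ι : Type*} {b : Basis ι ℝ W}
    {P : Bil W} {a : ι → ℝ} (h : Diag b P a) (T : W' ≃ₗ[ℝ] W) :
    Diag (b.map T.symm) (pull (T : W' →ₗ[ℝ] W) P) a := by
  refine ⟨fun i => ?_, fun i j hij => ?_⟩
  · simp [h.diag]
  · simp [h.off i j hij]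

lemma IsMean.pull {W' : Type*} [AddCommGroup W'] [Module ℝ W'] {P Q X : Bil W}
    (h : IsMean P Q X) (T : W' ≃ₗ[ℝ] W) :
    IsMean (pull (T : W' →ₗ[ℝ] W) P) (Ad.pull (T : W' →ₗ[ℝ] W) Q)
      (Ad.pull (T : W' →ₗ[ℝ] W) X) := by
  obtain ⟨ι, _, b, a, c, ha, hc, h1, h2, h3⟩ := h
  exact ⟨ι, ‹_›, b.map T.symm, a, c, ha, hc, h1.pull T, h2.pull T, h3.pull T⟩

/-- The operator of the mean. -/
lemma IsMean.exists_op {P Q X : Bil W} (h : IsMean P Q X) :
    ∃ x : W →ₗ[ℝ] W, (∀ u v, P (x u) v = X u v) ∧ ∀ u, P (x u) (x u) = Q u u := by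
  obtain ⟨ι, _, b, a, c, ha, hc, h1, h2, h3⟩ := h
  let x : W →ₗ[ℝ] W := ∑ i, (LinearMap.toSpanSingleton ℝ W (b i)) ∘ₗ
    ((√(a i * c i) / a i) • b.coord i)
  have hx : ∀ u i, b.repr (x u) i = √(a i * c i) / a i * b.repr u i := by
    intro u i
    classical
    simp only [x, LinearMap.sum_apply, LinearMap.comp_apply, LinearMap.smul_apply,
      Basis.coord_apply, LinearMap.toSpanSingleton_apply, map_sum, map_smul, Basis.repr_self,
      Finsupp.coe_finset_sum, Finset.sum_apply, Finsupp.smul_apply, smul_eq_mul]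
    rw [Finset.sum_eq_single i]
    · simp
    · intro j _ hj
      simp [Finsupp.single_apply, hj]
    · simp
  refine ⟨x, fun u v => ?_, fun u => ?_⟩
  · rw [h1.apply, h3.apply]
    refine Finset.sum_congr rfl fun i _ => ?_
    rw [hx]
    have := ha i
    field_simp
  · rw [h1.apply, h2.apply]
    refine Finset.sum_congr rfl fun i _ => ?_
    rw [hx]
    have h4 := ha i
    have h5 : √(a i * c i) * √(a i * c i) = a i * c i :=
      Real.mul_self_sqrt (mul_pos h4 (hc i)).le
    field_simp
    calc √(a i * c i) ^ 2 * b.repr u i ^ 2 = (√(a i * c i) * √(a i * c i)) * b.repr u i ^ 2 := by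
          ring
      _ = _ := by rw [h5]

/-- **Monotonicity of the geometric mean** (Loewner-Heinz). -/
theorem IsMean.mono [FiniteDimensional ℝ W] {P Q Q' X Y : Bil W} (hX : IsMean P Q X)
    (hY : IsMean P Q' Y) (hQ : ∀ w, Q w w ≤ Q' w w) (w : W) : X w w ≤ Y w w := by
  obtain ⟨x, hx1, hx2⟩ := hX.exists_op
  obtain ⟨y, hy1, hy2⟩ := hY.exists_op
  have hP := hX.pd_left
  obtain ⟨e, l, he1, he2⟩ := exists_diag (Q := Y - X) hP (fun u v => by
    simp [hX.pd.symm u v, hY.pd.symm u v])
  have key : ∀ i, 0 ≤ l i := by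
    intro i
    have h1 : y (e i) = x (e i) + l i • e i := by
      have h2 : ∀ v, P (y (e i) - (x (e i) + l i • e i)) v = 0 := by
        intro v
        have h3 : P (y (e i)) v - P (x (e i)) v = l i * P (e i) v := by
          rw [hx1, hy1]
          have := he2.apply (e i) v
          have h4 := he1.apply (e i) v
          simp only [LinearMap.sub_apply] at this
          rw [this, h4, Finset.mul_sum]
          refine Finset.sum_congr rfl fun j _ => ?_
          by_cases hij : i = j
          · subst hij; ring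
          · simp [Finsupp.single_apply, hij]
        simp only [map_sub, map_add, map_smul, LinearMap.sub_apply, LinearMap.add_apply,
          LinearMap.smul_apply, smul_eq_mul]
        linarith
      by_contra hne
      have h5 := hP.pos _ (sub_ne_zero.2 hne)
      rw [h2] at h5
      exact lt_irrefl _ h5
    have h2 := hQ (e i)
    rw [← hx2, ← hy2, h1] at h2
    simp only [map_add, map_smul, LinearMap.add_apply, LinearMap.smul_apply, smul_eq_mul] at h2
    have h3 : P (x (e i)) (e i) = X (e i) (e i) := hx1 _ _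
    have h4 : P (e i) (x (e i)) = X (e i) (e i) := by rw [hP.symm, hx1]
    have h5 : P (e i) (e i) = 1 := he1.diag i
    have h6 : (Y - X) (e i) (e i) = l i := he2.diag i
    simp only [LinearMap.sub_apply] at h6
    rw [h3, h4, h5] at h2
    have h7 := hX.pd.pos _ (e.ne_zero i)
    have h8 := hY.pd.pos _ (e.ne_zero i)
    by_contra hl
    push Not at hl
    nlinarith
  have := he2.nonneg key w
  simp only [LinearMap.sub_apply] at this
  linarith

/-- Two symmetric forms with the same quadratic form agree. -/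
lemma ext_of_symm {P Q : Bil W} (hP : ∀ u v, P u v = P v u) (hQ : ∀ u v, Q u v = Q v u)
    (h : ∀ w, P w w = Q w w) : P = Q := by
  ext u v
  have h1 := h (u + v)
  have h2 := h u
  have h3 := h v
  simp only [map_add, LinearMap.add_apply] at h1
  rw [hP v u, hQ v u] at h1
  linarith

theorem IsMean.unique [FiniteDimensional ℝ W] {P Q X Y : Bil W} (hX : IsMean P Q X)
    (hY : IsMean P Q Y) : X = Y :=
  ext_of_symm hX.pd.symm hY.pd.symm fun w =>
    le_antisymm (hX.mono hY (fun _ => le_rfl) w) (hY.mono hX (fun _ => le_rfl) w)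

theorem IsMean.mono₂ [FiniteDimensional ℝ W] {P Q P' Q' X Y : Bil W} (hX : IsMean P Q X)
    (hY : IsMean P' Q' Y) (hP : ∀ w, P w w ≤ P' w w) (hQ : ∀ w, Q w w ≤ Q' w w) (w : W) :
    X w w ≤ Y w w := by
  obtain ⟨Z, hZ⟩ := exists_mean hX.pd_left hY.pd_right
  exact (hX.mono hZ hQ w).trans (hZ.symm.mono hY.symm hP w)

end Q70.Ad
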