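import Pool.Agent.Q70.AdA

set_option autoImplicit false

/-! Exterior powers of bilinear forms, and the halving lemma. -/

open Module Set

namespace Q70.Ad

variable {W : Type*} [AddCommGroup W] [Module ℝ W]

/-- The Gram determinant of a `k`-frame. -/
def gram {k : ℕ} (P : Bil W) (v : Fin k → W) : ℝ :=
  Matrix.det (Matrix.of fun i j => P (v i) (v j))

/-- The form induced on the exterior power. -/
noncomputable def wedge (k : ℕ) (P : Bil W) : Bil (⋀[ℝ]^k W) :=
  (exteriorPower.pairingDual ℝ W k) ∘ₗ (exteriorPower.map k P)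

lemma wedge_ι (k : ℕ) (P : Bil W) (u v : Fin k → W) :
    wedge k P (exteriorPower.ιMulti ℝ k u) (exteriorPower.ιMulti ℝ k v) =
      Matrix.det (Matrix.of fun i j => P (u j) (v i)) := by
  simp only [wedge, LinearMap.comp_apply, exteriorPower.map_apply_ιMulti]
  exact exteriorPower.pairingDual_ιMulti_ιMulti _ _

lemma wedge_ι_self (k : ℕ) {P : Bil W} (v : Fin k → W) :
    wedge k P (exteriorPower.ιMulti ℝ k v) (exteriorPower.ιMulti ℝ k v) = gram P v := by
  rw [wedge_ι, gram, ← Matrix.det_transpose]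
  rfl

lemma wedge_diag {n : ℕ} (k : ℕ) {P : Bil W} {b : Basis (Fin n) ℝ W} {a : Fin n → ℝ}
    (h : Diag b P a) :
    Diag (b.exteriorPower k) (wedge k P)
      (fun s => ∏ i, a (Set.powersetCard.ofFinEmbEquiv.symm s i)) := by
  refine ⟨fun s => ?_, fun s t hst => ?_⟩
  · rw [exteriorPower.basis_apply, exteriorPower.ιMulti_family, wedge_ι_self, gram]
    have : (Matrix.of fun i j => P ((b ∘ (Set.powersetCard.ofFinEmbEquiv.symm s)) i)
        ((b ∘ (Set.powersetCard.ofFinEmbEquiv.symm s)) j)) =
        Matrix.diagonal (fun i => a (Set.powersetCard.ofFinEmbEquiv.symm s i)) := by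
      ext i j
      by_cases hij : i = j
      · subst hij
        simp [h.diag]
      · rw [Matrix.diagonal_apply_ne _ hij]
        exact h.off _ _ fun h0 => hij ((Set.powersetCard.ofFinEmbEquiv.symm s).injective h0)
    rw [this, Matrix.det_diagonal]
  · rw [exteriorPower.basis_apply, exteriorPower.basis_apply, exteriorPower.ιMulti_family,
      exteriorPower.ιMulti_family, wedge_ι]
    obtain ⟨i, his, hit⟩ := (powersetCard.exists_mem_notMem_iff_ne s t).mp hst
    obtain ⟨l, rfl⟩ := (powersetCard.mem_range_ofFinEmbEquiv_symm_iff_mem s i).mpr his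
    apply Matrix.det_eq_zero_of_column_eq_zero l
    intro j
    simp only [Matrix.of_apply, Function.comp_apply]
    refine h.off _ _ fun h0 => hit ?_
    rw [h0]
    exact (powersetCard.mem_range_ofFinEmbEquiv_symm_iff_mem t _).mp ⟨j, rfl⟩

lemma wedge_pd [FiniteDimensional ℝ W] (k : ℕ) {P : Bil W} (h : PD P) : PD (wedge k P) := by
  obtain ⟨b, q, h1, -⟩ := exists_diag h h.symm
  exact (wedge_diag k h1).pd fun s => by simp

/-- Frames suffice. -/
lemma wedge_le [FiniteDimensional ℝ W] (k : ℕ) {P R : Bil W} (hP : PD P) (hR : PD R) {c : ℝ}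
    (h : ∀ v : Fin k → W, c * gram P v ≤ gram R v) (w : ⋀[ℝ]^k W) :
    c * wedge k P w w ≤ wedge k R w w := by
  obtain ⟨b, q, h1, h2⟩ := exists_diag hP hR.symm
  have h3 := wedge_diag k h1
  have h4 := wedge_diag k h2
  rw [h3.apply, h4.apply, Finset.mul_sum]
  refine Finset.sum_le_sum fun s _ => ?_
  have h5 := h (b ∘ (Set.powersetCard.ofFinEmbEquiv.symm s))
  rw [← wedge_ι_self, ← wedge_ι_self] at h5
  have h6 : (exteriorPower.ιMulti ℝ k) (b ∘ (Set.powersetCard.ofFinEmbEquiv.symm s)) =
      b.exteriorPower k s := by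
    rw [exteriorPower.basis_apply, exteriorPower.ιMulti_family]
  rw [h6, h3.diag, h4.diag] at h5
  have h7 : 0 ≤ (b.exteriorPower k).repr w s * (b.exteriorPower k).repr w s := mul_self_nonneg _
  nlinarith

lemma gram_pos [FiniteDimensional ℝ W] {k : ℕ} {P : Bil W} (h : PD P) (v : Fin k → W) :
    0 ≤ gram P v := by
  rw [← wedge_ι_self]
  exact (wedge_pd k h).nonneg _

lemma IsMean.wedge [FiniteDimensional ℝ W] (k : ℕ) {P Q X : Bil W} (h : IsMean P Q X) :
    IsMean (wedge k P) (Ad.wedge k Q) (Ad.wedge k X) := by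
  obtain ⟨b, q, h1, h2⟩ := exists_diag h.pd_left h.pd_right.symm
  have hq : ∀ i, 0 < q i := fun i => by
    rw [← h2.diag i]
    exact h.pd_right.pos _ (b.ne_zero i)
  have h3 : Diag b X (fun i => √(1 * q i)) := by
    have : IsMean P Q (ofDiag b fun i => √(1 * q i)) :=
      ⟨Fin (finrank ℝ W), inferInstance, b, fun _ => 1, q, fun _ => one_pos, hq, h1, h2,
        ofDiag_diag _ _⟩
    rw [h.unique this]
    exact ofDiag_diag _ _
  refine ⟨powersetCard (Fin (finrank ℝ W)) k, Fintype.ofFinite _, b.exteriorPower k, _, _,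
    fun s => ?_, fun s => ?_, wedge_diag k h1, wedge_diag k h2, ?_⟩
  · simp
  · exact Finset.prod_pos fun i _ => hq _
  · have := wedge_diag k h3
    convert this using 2 with s
    simp only [Finset.prod_const_one, one_mul]
    rw [Real.sqrt_prod _ fun i _ => (hq _).le]

/-- **Halving lemma**: lower bounds for `k`-volumes. -/
theorem halve_gram [FiniteDimensional ℝ W] {k : ℕ} {P Q R X Y : Bil W} (hX : IsMean P Q X)
    (hY : IsMean Q R Y) {c : ℝ} (hc : 0 < c) (h : ∀ v : Fin k → W, c * gram P v ≤ gram R v)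
    (v : Fin k → W) : √c * gram X v ≤ gram Y v := by
  have h1 : IsMean (wedge k Q) (c • wedge k P) (√c • wedge k X) := by
    have := (hX.wedge k).symm.smul one_pos hc
    simpa using this
  have h2 : IsMean (wedge k Q) (wedge k R) (wedge k Y) := hY.wedge k
  have h3 := h1.mono h2 (fun w => by
    have := wedge_le k hX.pd_left hY.pd_right h w
    simpa using this) ((exteriorPower.ιMulti ℝ k) v)
  rw [← wedge_ι_self, ← wedge_ι_self]
  simpa using h3

/-- Halving lemma for lower bounds of vectors. -/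
theorem halve_lower [FiniteDimensional ℝ W] {P Q R X Y : Bil W} (hX : IsMean P Q X)
    (hY : IsMean Q R Y) {c : ℝ} (hc : 0 < c) (h : ∀ v, c * P v v ≤ R v v) (v : W) :
    √c * X v v ≤ Y v v := by
  have h1 : IsMean Q (c • P) (√c • X) := by
    have := hX.symm.smul one_pos hc
    simpa using this
  have := h1.mono hY (fun w => by simpa using h w) v
  simpa using this

theorem halve_upper [FiniteDimensional ℝ W] {P Q R X Y : Bil W} (hX : IsMean P Q X)
    (hY : IsMean Q R Y) {c : ℝ} (hc : 0 < c) (h : ∀ v, R v v ≤ c * P v v) (v : W) :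
    Y v v ≤ √c * X v v := by
  have h1 : IsMean Q (c • P) (√c • X) := by
    have := hX.symm.smul one_pos hc
    simpa using this
  have := hY.mono h1 (fun w => by simpa using h w) v
  simpa using this

end Q70.Ad
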