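import Pool.Agent.Q70.AdB

set_option autoImplicit false

/-! Block diagonal forms, and halving on a direct summand. -/

open Module Set

namespace Q70.Ad

variable {W : Type*} [AddCommGroup W] [Module ℝ W]

/-- Restriction to a submodule. -/
def res (S : Submodule ℝ W) (P : Bil W) : Bil S := pull S.subtype P

@[simp] lemma res_apply (S : Submodule ℝ W) (P : Bil W) (u v : S) : res S P u v = P u v := rfl

lemma PD.res {P : Bil W} (h : PD P) (S : Submodule ℝ W) : PD (res S P) :=
  h.pull S.subtype_injective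

lemma diag_prod {S S' : Submodule ℝ W} (hS : IsCompl S S') {ι κ : Type*}
    {b : Basis ι ℝ S} {b' : Basis κ ℝ S'} {P : Bil W} {a : ι → ℝ} {a' : κ → ℝ}
    (hP : ∀ u v, P u v = P v u) (h0 : ∀ u ∈ S, ∀ v ∈ S', P u v = 0)
    (hb : Diag b (res S P) a) (hb' : Diag b' (res S' P) a') :
    Diag ((b.prod b').map (S.prodEquivOfIsCompl S' hS)) P (Sum.elim a a') := by
  have e1 : ∀ i, ((b.prod b').map (S.prodEquivOfIsCompl S' hS)) (Sum.inl i) = (b i : W) := by
    intro i; simp
  have e2 : ∀ i, ((b.prod b').map (S.prodEquivOfIsCompl S' hS)) (Sum.inr i) = (b' i : W) := by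
    intro i; simp
  refine ⟨?_, ?_⟩
  · rintro (i | i)
    · rw [e1]; exact hb.diag i
    · rw [e2]; exact hb'.diag i
  · rintro (i | i) (j | j) hij
    · rw [e1, e1]; exact hb.off i j fun h => hij (by rw [h])
    · rw [e1, e2]; exact h0 _ (b i).2 _ (b' j).2
    · rw [e1, e2, hP]; exact h0 _ (b j).2 _ (b' i).2
    · rw [e2, e2]; exact hb'.off i j fun h => hij (by rw [h])

lemma Diag.congr {ι : Type*} {b : Basis ι ℝ W} {P : Bil W} {a a' : ι → ℝ} (h : Diag b P a)
    (e : ∀ i, a i = a' i) : Diag b P a' := ⟨fun i => by rw [h.diag, e], h.off⟩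

/-- The mean of two block diagonal forms is block diagonal, and its blocks are the means of the
blocks. -/
theorem IsMean.block [FiniteDimensional ℝ W] {S S' : Submodule ℝ W} (hS : IsCompl S S')
    {P Q X : Bil W} (h : IsMean P Q X) (hP : ∀ u ∈ S, ∀ v ∈ S', P u v = 0)
    (hQ : ∀ u ∈ S, ∀ v ∈ S', Q u v = 0) :
    (∀ u ∈ S, ∀ v ∈ S', X u v = 0) ∧ IsMean (res S P) (res S Q) (res S X) ∧
      IsMean (res S' P) (res S' Q) (res S' X) := by
  obtain ⟨b, q, h1, h2⟩ := exists_diag (h.pd_left.res S) (h.pd_right.res S).symm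
  obtain ⟨b', q', h1', h2'⟩ := exists_diag (h.pd_left.res S') (h.pd_right.res S').symm
  have hq : ∀ i, 0 < q i := fun i => by
    rw [← h2.diag i]
    exact (h.pd_right.res S).pos _ (b.ne_zero i)
  have hq' : ∀ i, 0 < q' i := fun i => by
    rw [← h2'.diag i]
    exact (h.pd_right.res S').pos _ (b'.ne_zero i)
  set B := (b.prod b').map (S.prodEquivOfIsCompl S' hS) with hB
  have e1 : ∀ i, B (Sum.inl i) = (b i : W) := by intro i; simp [hB]
  have e2 : ∀ i, B (Sum.inr i) = (b' i : W) := by intro i; simp [hB]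
  have k1 := diag_prod hS h.pd_left.symm hP h1 h1'
  have k2 := diag_prod hS h.pd_right.symm hQ h2 h2'
  rw [← hB] at k1 k2
  have k3 : Diag B X (Sum.elim (fun i => √(1 * q i)) (fun i => √(1 * q' i))) := by
    have : IsMean P Q (ofDiag B (Sum.elim (fun i => √(1 * q i)) (fun i => √(1 * q' i)))) := by
      refine ⟨Fin (finrank ℝ S) ⊕ Fin (finrank ℝ S'), inferInstance, B, _, _, ?_, ?_, k1, k2,
        (ofDiag_diag B _).congr ?_⟩
      · rintro (i | i) <;> simp
      · rintro (i | i)
        · exact hq i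
        · exact hq' i
      · rintro (i | i) <;> simp
    rw [h.unique this]
    exact ofDiag_diag _ _
  refine ⟨?_, ⟨Fin (finrank ℝ S), inferInstance, b, fun _ => 1, q, fun _ => one_pos, hq, h1, h2,
    ?_⟩, ⟨Fin (finrank ℝ S'), inferInstance, b', fun _ => 1, q', fun _ => one_pos, hq', h1', h2',
    ?_⟩⟩
  · intro u hu v hv
    have hu' : u = ∑ i, b.repr ⟨u, hu⟩ i • B (Sum.inl i) := by
      have := congrArg (fun z : S => (z : W)) (b.sum_repr ⟨u, hu⟩)
      simp only [Submodule.coe_sum, Submodule.coe_smul] at this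
      refine this.symm.trans ?_
      simp [e1]
    have hv' : v = ∑ i, b'.repr ⟨v, hv⟩ i • B (Sum.inr i) := by
      have := congrArg (fun z : S' => (z : W)) (b'.sum_repr ⟨v, hv⟩)
      simp only [Submodule.coe_sum, Submodule.coe_smul] at this
      refine this.symm.trans ?_
      simp [e2]
    rw [hu', hv']
    simp only [map_sum, LinearMap.sum_apply, map_smul, LinearMap.smul_apply, smul_eq_mul]
    refine Finset.sum_eq_zero fun i _ => ?_
    refine mul_eq_zero_of_right _ (Finset.sum_eq_zero fun j _ => ?_)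
    rw [k3.off _ _ (by simp), mul_zero]
  · refine ⟨fun i => ?_, fun i j hij => ?_⟩
    · have := k3.diag (Sum.inl i)
      rw [e1] at this
      exact this
    · have := k3.off (Sum.inl i) (Sum.inl j) (by simpa using hij)
      rw [e1, e1] at this
      exact this
  · refine ⟨fun i => ?_, fun i j hij => ?_⟩
    · have := k3.diag (Sum.inr i)
      rw [e2] at this
      exact this
    · have := k3.off (Sum.inr i) (Sum.inr j) (by simpa using hij)
      rw [e2, e2] at this
      exact this

end Q70.Ad
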