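import Pool.Agent.Q70.AdC

set_option autoImplicit false

/-! Continuous fields of positive definite forms in local frames, and the halving operator. -/

open Module Set Filter Topology

namespace Q70.Ad

/-- Multiplicative closeness of quadratic forms. -/
def Close {W : Type*} [AddCommGroup W] [Module ℝ W] (ε : ℝ) (P Q : Bil W) : Prop :=
  ∀ u, (1 - ε) * P u u ≤ Q u u ∧ Q u u ≤ (1 + ε) * P u u

variable {M : Type*} [TopologicalSpace M] {E : Type*} [NormedAddCommGroup E] [NormedSpace ℝ E]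
  [FiniteDimensional ℝ E]

omit [TopologicalSpace M] in
lemma bil_continuous (P : Bil E) : Continuous fun p : E × E => P p.1 p.2 := by
  have : Continuous fun p : E × E => P.toContinuousBilinearMap p.1 p.2 := by fun_prop
  exact this

lemma tendsto_close {N : Type*} {l : Filter N} {P : Bil E} (hP : PD P) {Q : N → Bil E}
    (h : ∀ u v, Tendsto (fun n => Q n u v) l (𝓝 (P u v))) {ε : ℝ} (hε : 0 < ε) :
    ∀ᶠ n in l, Close ε P (Q n) := by
  obtain ⟨b, -, hb, -⟩ := exists_diag hP hP.symm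
  generalize finrank ℝ E = m at b hb
  have hη : 0 < ε / (m + 1) := by positivity
  have h1 : ∀ᶠ n in l, ∀ i j : Fin m, |Q n (b i) (b j) - P (b i) (b j)| < ε / (m + 1) := by
    rw [eventually_all]; intro i
    rw [eventually_all]; intro j
    have := h (b i) (b j)
    rw [Metric.tendsto_nhds] at this
    simpa [Real.dist_eq] using this _ hη
  filter_upwards [h1] with n hn u
  have e1 : P u u = ∑ i, (b.repr u i) ^ 2 := by
    rw [hb.apply]
    exact Finset.sum_congr rfl fun i _ => by ring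
  have e2 : Q n u u - P u u =
      ∑ i, ∑ j, b.repr u i * b.repr u j * (Q n (b i) (b j) - P (b i) (b j)) := by
    have k : ∀ R : Bil E, R u u = ∑ i, ∑ j, b.repr u i * b.repr u j * R (b i) (b j) := by
      intro R
      conv_lhs => rw [← b.sum_repr u]
      simp only [map_sum, LinearMap.sum_apply, map_smul, LinearMap.smul_apply, smul_eq_mul,
        Finset.mul_sum]
      rw [Finset.sum_comm]
      refine Finset.sum_congr rfl fun i _ => Finset.sum_congr rfl fun j _ => ?_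
      ring
    rw [k (Q n), k P, ← Finset.sum_sub_distrib]
    refine Finset.sum_congr rfl fun i _ => ?_
    rw [← Finset.sum_sub_distrib]
    exact Finset.sum_congr rfl fun j _ => by ring
  have e3 : |Q n u u - P u u| ≤ ε * P u u := by
    rw [e2]
    refine (Finset.abs_sum_le_sum_abs _ _).trans ?_
    have : ∀ i, |∑ j, b.repr u i * b.repr u j * (Q n (b i) (b j) - P (b i) (b j))| ≤
        ∑ j, ((b.repr u i) ^ 2 + (b.repr u j) ^ 2) / 2 * (ε / (m + 1)) := by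
      intro i
      refine (Finset.abs_sum_le_sum_abs _ _).trans (Finset.sum_le_sum fun j _ => ?_)
      rw [abs_mul]
      refine mul_le_mul ?_ (hn i j).le (abs_nonneg _) (by positivity)
      rw [abs_mul]
      nlinarith [sq_abs (b.repr u i), sq_abs (b.repr u j),
        sq_nonneg (|b.repr u i| - |b.repr u j|)]
    refine (Finset.sum_le_sum fun i _ => this i).trans ?_
    have e4 : ∑ i : Fin m, ∑ j : Fin m, ((b.repr u i) ^ 2 + (b.repr u j) ^ 2) / 2 * (ε / (m + 1))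
        = m * (ε / (m + 1)) * P u u := by
      simp only [← Finset.sum_mul, ← Finset.sum_div, Finset.sum_add_distrib, e1,
        Finset.sum_const, Finset.card_univ, Fintype.card_fin, nsmul_eq_mul, ← Finset.mul_sum]
      ring
    rw [e4]
    have h5 : (m : ℝ) * (ε / (m + 1)) ≤ ε := by
      rw [← mul_div_assoc, div_le_iff₀ (by positivity)]
      nlinarith
    exact mul_le_mul_of_nonneg_right h5 (hP.nonneg u)
  rw [abs_le] at e3
  constructor <;> nlinarith [e3.1, e3.2]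

/-- Local frames of a rank `dim E` bundle with all fibres written as `E`. -/
structure Frames (M : Type*) [TopologicalSpace M] (E : Type*) [NormedAddCommGroup E]
    [NormedSpace ℝ E] where
  S : M → M → E →L[ℝ] E
  L : M → M → E →L[ℝ] E
  LS : ∀ x₀, ∀ᶠ x in 𝓝 x₀, ∀ u, L x₀ x (S x₀ x u) = u
  SL : ∀ x₀, ∀ᶠ x in 𝓝 x₀, ∀ u, S x₀ x (L x₀ x u) = u

/-- The form `P` pulled back by a continuous linear map. -/
def cpull (T : E →L[ℝ] E) (P : Bil E) : Bil E := pull (T : E →ₗ[ℝ] E) P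

@[simp] lemma cpull_apply (T : E →L[ℝ] E) (P : Bil E) (u v : E) :
    cpull T P u v = P (T u) (T v) := rfl

lemma cpull_comp (T T' : E →L[ℝ] E) (P : Bil E) : cpull T (cpull T' P) = cpull (T' ∘L T) P := rfl

lemma PD.cpull {P : Bil E} (h : PD P) {T : E →L[ℝ] E} (hT : Function.Injective T) :
    PD (cpull T P) := h.pull hT

lemma IsMean.cpull {P Q X : Bil E} (h : IsMean P Q X) {T : E →L[ℝ] E}
    (hT : Function.Bijective T) : IsMean (cpull T P) (Ad.cpull T Q) (Ad.cpull T X) :=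
  h.pull (LinearEquiv.ofBijective (T : E →ₗ[ℝ] E) hT)

variable (𝔽 : Frames M E) (Λ : Set M)

/-- Continuity on `Λ` of a field of positive definite forms. -/
def OCont (G : M → Bil E) : Prop :=
  ∀ x₀ ∈ Λ, ∀ ε : ℝ, 0 < ε → ∀ᶠ x in 𝓝[Λ] x₀,
    Close ε (cpull (𝔽.S x₀ x₀) (G x₀)) (cpull (𝔽.S x₀ x) (G x))

variable {𝔽} {Λ}

lemma Frames.bijS (x₀ : M) : ∀ᶠ x in 𝓝 x₀, Function.Bijective (𝔽.S x₀ x) := by
  filter_upwards [𝔽.LS x₀, 𝔽.SL x₀] with x h1 h2
  exact ⟨fun u v h => by rw [← h1 u, h, h1], fun v => ⟨_, h2 v⟩⟩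

lemma Frames.bijS_self (x₀ : M) : Function.Bijective (𝔽.S x₀ x₀) := (𝔽.bijS x₀).self_of_nhds

lemma Close.trans₂ {W : Type*} [AddCommGroup W] [Module ℝ W] {ε δ : ℝ} {P Q R : Bil W}
    (h1 : Close ε P Q) (h2 : Close δ Q R) (hP : ∀ u, 0 ≤ P u u) (hε0 : 0 ≤ ε) (hε1 : ε ≤ 1)
    (hδ0 : 0 ≤ δ) (hδ1 : δ ≤ 1) : Close (ε + 2 * δ) P R := by
  intro u
  obtain ⟨a1, a2⟩ := h1 u
  obtain ⟨b1, b2⟩ := h2 u
  have hp := hP u
  have hεδ : 0 ≤ ε * δ := mul_nonneg hε0 hδ0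
  have hεδ' : ε * δ ≤ δ := by nlinarith
  constructor
  · have : (1 - δ) * ((1 - ε) * P u u) ≤ R u u :=
      (mul_le_mul_of_nonneg_left a1 (by linarith)).trans b1
    nlinarith [mul_nonneg hεδ hp, mul_nonneg hδ0 hp]
  · have : R u u ≤ (1 + δ) * ((1 + ε) * P u u) :=
      b2.trans (mul_le_mul_of_nonneg_left a2 (by linarith))
    nlinarith [mul_nonneg hεδ hp, mul_le_mul_of_nonneg_right hεδ' hp]

omit [TopologicalSpace M] in
lemma tendsto_close_op {P : Bil E} (hP : PD P) {N : Type*} {l : Filter N} {C : N → E →L[ℝ] E}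
    {B : E →L[ℝ] E} (hB : Function.Injective B) (hC : Tendsto C l (𝓝 B)) {ε : ℝ} (hε : 0 < ε) :
    ∀ᶠ n in l, Close ε (cpull B P) (cpull (C n) P) := by
  refine tendsto_close (hP.cpull hB) (fun u v => ?_) hε
  have e1 : Tendsto (fun n => C n u) l (𝓝 (B u)) :=
    ((ContinuousLinearMap.apply ℝ E u).continuous.tendsto _).comp hC
  have e2 : Tendsto (fun n => C n v) l (𝓝 (B v)) :=
    ((ContinuousLinearMap.apply ℝ E v).continuous.tendsto _).comp hC
  have := ((bil_continuous P).tendsto (B u, B v)).comp (e1.prodMk_nhds e2)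
  simpa [Function.comp_def] using this

/-- Continuity of pulled back forms along convergent families of isomorphisms. -/
theorem OCont.pull' {G : M → Bil E} (hG : OCont 𝔽 Λ G) (hpd : ∀ x ∈ Λ, PD (G x)) {N : Type*}
    {l : Filter N} {y : N → M} {y₀ : M} {B : N → E →L[ℝ] E} {B₀ : E →L[ℝ] E} (hy₀ : y₀ ∈ Λ)
    (hy : Tendsto y l (𝓝[Λ] y₀))
    (hB : Tendsto (fun n => 𝔽.L y₀ (y n) ∘L B n) l (𝓝 (𝔽.L y₀ y₀ ∘L B₀)))
    (hB₀ : Function.Injective B₀) {ε : ℝ} (hε : 0 < ε) :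
    ∀ᶠ n in l, Close ε (cpull B₀ (G y₀)) (cpull (B n) (G (y n))) := by
  set δ : ℝ := min (ε / 3) 1 with hδ
  have hδ0 : 0 < δ := lt_min (by positivity) one_pos
  have hδ1 : δ ≤ 1 := min_le_right _ _
  have hδε : δ + 2 * δ ≤ ε := by have := min_le_left (ε / 3) 1; rw [← hδ] at this; linarith
  set P' : Bil E := cpull (𝔽.S y₀ y₀) (G y₀) with hP'
  have hP'pd : PD P' := (hpd y₀ hy₀).cpull (𝔽.bijS_self y₀).1
  set C₀ : E →L[ℝ] E := 𝔽.L y₀ y₀ ∘L B₀ with hC₀
  have hSB : ∀ u, 𝔽.S y₀ y₀ (C₀ u) = B₀ u := fun u => (𝔽.SL y₀).self_of_nhds _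
  have hC₀inj : Function.Injective C₀ := by
    intro u v huv
    have : B₀ u = B₀ v := by rw [← hSB, ← hSB, huv]
    exact hB₀ this
  have hPB : cpull C₀ P' = cpull B₀ (G y₀) := by
    ext u v
    simp only [hP', cpull_apply, hSB]
  have k1 : ∀ᶠ n in l, Close δ (cpull C₀ P') (cpull (𝔽.L y₀ (y n) ∘L B n) P') :=
    tendsto_close_op hP'pd hC₀inj hB hδ0
  have k2 := hy.eventually (hG y₀ hy₀ δ hδ0)
  have k3 := (hy.mono_right nhdsWithin_le_nhds).eventually (𝔽.SL y₀)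
  filter_upwards [k1, k2, k3] with n h1 h2 h3
  rw [← hPB]
  have h4 : Close δ (cpull (𝔽.L y₀ (y n) ∘L B n) P') (cpull (B n) (G (y n))) := by
    intro u
    have := h2 ((𝔽.L y₀ (y n) ∘L B n) u)
    have e : 𝔽.S y₀ (y n) ((𝔽.L y₀ (y n) ∘L B n) u) = B n u := h3 _
    simp only [cpull_apply, hP'] at this ⊢
    rw [e] at this
    exact this
  have h5 := h1.trans₂ h4 (fun u => (hP'pd.cpull hC₀inj).nonneg u) hδ0.le hδ1 hδ0.le hδ1
  intro u
  obtain ⟨a, b⟩ := h5 u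
  have hp := (hP'pd.cpull hC₀inj).nonneg u
  constructor <;> nlinarith [mul_le_mul_of_nonneg_right hδε hp]

theorem OCont.pull {G : M → Bil E} (hG : OCont 𝔽 Λ G) (hpd : ∀ x ∈ Λ, PD (G x)) {N : Type*}
    {l : Filter N} {x y : N → M} {x₀ y₀ : M} {A : N → E →L[ℝ] E} {A₀ : E →L[ℝ] E} (hy₀ : y₀ ∈ Λ)
    (hy : Tendsto y l (𝓝[Λ] y₀))
    (hA : Tendsto (fun n => 𝔽.L y₀ (y n) ∘L A n ∘L 𝔽.S x₀ (x n)) l
      (𝓝 (𝔽.L y₀ y₀ ∘L A₀ ∘L 𝔽.S x₀ x₀))) (hA₀ : Function.Injective A₀) {ε : ℝ} (hε : 0 < ε) :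
    ∀ᶠ n in l, Close ε (cpull (A₀ ∘L 𝔽.S x₀ x₀) (G y₀)) (cpull (A n ∘L 𝔽.S x₀ (x n)) (G (y n))) :=
  OCont.pull' (B := fun n => A n ∘L 𝔽.S x₀ (x n)) hG hpd hy₀ hy hA
    (hA₀.comp (𝔽.bijS_self x₀).1) hε

/-- The geometric mean. -/
noncomputable def mean (P Q : Bil E) : Bil E := by
  classical
  exact if h : ∃ X, IsMean P Q X then h.choose else 0

lemma mean_spec {P Q : Bil E} (hP : PD P) (hQ : PD Q) : IsMean P Q (mean P Q) := by
  have h : ∃ X, IsMean P Q X := exists_mean hP hQ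
  rw [mean, dif_pos h]
  exact h.choose_spec

lemma mean_close {P Q P' Q' : Bil E} (hP : PD P) (hQ : PD Q) (hP' : PD P') (hQ' : PD Q') {ε : ℝ}
    (hε0 : 0 ≤ ε) (hε1 : ε < 1) (h1 : Close ε P P') (h2 : Close ε Q Q') :
    Close ε (mean P Q) (mean P' Q') := by
  have e1 : 0 < 1 - ε := by linarith
  have e2 : 0 < 1 + ε := by linarith
  have k1 := (mean_spec hP hQ).smul e1 e1
  have k2 := (mean_spec hP hQ).smul e2 e2
  rw [Real.sqrt_mul_self e1.le] at k1
  rw [Real.sqrt_mul_self e2.le] at k2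
  intro u
  constructor
  · have := k1.mono₂ (mean_spec hP' hQ') (fun w => by simpa using (h1 w).1)
      (fun w => by simpa using (h2 w).1) u
    simpa using this
  · have := (mean_spec hP' hQ').mono₂ k2 (fun w => by simpa using (h1 w).2)
      (fun w => by simpa using (h2 w).2) u
    simpa using this

lemma mean_cpull {P Q : Bil E} (hP : PD P) (hQ : PD Q) {T : E →L[ℝ] E}
    (hT : Function.Bijective T) : cpull T (mean P Q) = mean (cpull T P) (cpull T Q) :=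
  ((mean_spec hP hQ).cpull hT).unique (mean_spec (hP.cpull hT.1) (hQ.cpull hT.1))

lemma OCont.mean {G H : M → Bil E} (hG : OCont 𝔽 Λ G) (hH : OCont 𝔽 Λ H)
    (hpG : ∀ x ∈ Λ, PD (G x)) (hpH : ∀ x ∈ Λ, PD (H x)) :
    OCont 𝔽 Λ (fun x => Ad.mean (G x) (H x)) := by
  intro x₀ hx₀ ε hε
  set δ : ℝ := min ε (1 / 2) with hδ
  have hδ0 : 0 < δ := lt_min hε (by norm_num)
  have hδ1 : δ < 1 := lt_of_le_of_lt (min_le_right _ _) (by norm_num)
  have hδε : δ ≤ ε := min_le_left _ _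
  filter_upwards [hG x₀ hx₀ δ hδ0, hH x₀ hx₀ δ hδ0, self_mem_nhdsWithin,
    mem_nhdsWithin_of_mem_nhds (𝔽.bijS x₀)] with x h1 h2 h3 h4
  have h0 := 𝔽.bijS_self x₀
  rw [mean_cpull (hpG x₀ hx₀) (hpH x₀ hx₀) h0, mean_cpull (hpG x h3) (hpH x h3) h4]
  have h5 := mean_close ((hpG x₀ hx₀).cpull h0.1) ((hpH x₀ hx₀).cpull h0.1)
    ((hpG x h3).cpull h4.1) ((hpH x h3).cpull h4.1) hδ0.le hδ1 h1 h2
  intro u
  obtain ⟨a, b⟩ := h5 u
  have hp := (mean_spec ((hpG x₀ hx₀).cpull h0.1) ((hpH x₀ hx₀).cpull h0.1)).pd.nonneg u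
  constructor <;> nlinarith [mul_le_mul_of_nonneg_right hδε hp]

end Q70.Ad
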