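import Pool.Agent.Q70.AdD

set_option autoImplicit false

/-! Linear cocycles over a compact invariant set with an invariant splitting, adapted fields of
forms, and the halving step. -/

open Module Set Filter Topology

namespace Q70.Ad

variable {M : Type*} [TopologicalSpace M] {E : Type*} [NormedAddCommGroup E] [NormedSpace ℝ E]
  [FiniteDimensional ℝ E]

/-- A continuous field of positive definite forms on `Λ` for which the splitting is orthogonal. -/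
structure Met (𝔽 : Frames M E) (Λ : Set M) (Es Fs : M → Submodule ℝ E) (G : M → Bil E) :
    Prop where
  pd : ∀ x ∈ Λ, PD (G x)
  orth : ∀ x ∈ Λ, ∀ u ∈ Es x, ∀ v ∈ Fs x, G x u v = 0
  cont : OCont 𝔽 Λ G

/-- A cocycle with times in `𝕋`. -/
structure Act {𝕋 : Type*} [AddMonoid 𝕋] (𝔽 : Frames M E) (Λ : Set M)
    (Es Fs : M → Submodule ℝ E) (φ : 𝕋 → M → M) (A : 𝕋 → M → E →L[ℝ] E) : Prop where
  compl : ∀ x ∈ Λ, IsCompl (Es x) (Fs x)
  zero : ∀ x ∈ Λ, φ 0 x = x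
  Azero : ∀ x ∈ Λ, A 0 x = ContinuousLinearMap.id ℝ E
  add : ∀ s t, ∀ x ∈ Λ, φ (s + t) x = φ s (φ t x)
  Aadd : ∀ s t, ∀ x ∈ Λ, A (s + t) x = A s (φ t x) ∘L A t x
  maps : ∀ t, ∀ x ∈ Λ, φ t x ∈ Λ
  bij : ∀ t, ∀ x ∈ Λ, Function.Bijective (A t x)
  mapE : ∀ t, ∀ x ∈ Λ, ∀ u ∈ Es x, A t x u ∈ Es (φ t x)
  mapF : ∀ t, ∀ x ∈ Λ, ∀ u ∈ Fs x, A t x u ∈ Fs (φ t x)
  tend : ∀ t, ∀ x₀ ∈ Λ, Tendsto (φ t) (𝓝[Λ] x₀) (𝓝 (φ t x₀))
  Atend : ∀ t, ∀ x₀ ∈ Λ, Tendsto (fun x => 𝔽.L (φ t x₀) (φ t x) ∘L A t x ∘L 𝔽.S x₀ x) (𝓝[Λ] x₀)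
    (𝓝 (𝔽.L (φ t x₀) (φ t x₀) ∘L A t x₀ ∘L 𝔽.S x₀ x₀))

variable {𝔽 : Frames M E} {Λ : Set M} {Es Fs : M → Submodule ℝ E} {𝕋 : Type*} [AddMonoid 𝕋]
  {φ : 𝕋 → M → M} {A : 𝕋 → M → E →L[ℝ] E}

/-- Pulled back field. -/
def pb (φ : 𝕋 → M → M) (A : 𝕋 → M → E →L[ℝ] E) (t : 𝕋) (G : M → Bil E) : M → Bil E :=
  fun x => cpull (A t x) (G (φ t x))

/-- The halving operator. -/
noncomputable def half (φ : 𝕋 → M → M) (A : 𝕋 → M → E →L[ℝ] E) (t : 𝕋) (G : M → Bil E) :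
    M → Bil E := fun x => mean (G x) (pb φ A t G x)

lemma Met.pb {G : M → Bil E} (hG : Met 𝔽 Λ Es Fs G) (h : Act 𝔽 Λ Es Fs φ A) (t : 𝕋) :
    Met 𝔽 Λ Es Fs (pb φ A t G) := by
  refine ⟨fun x hx => ?_, fun x hx u hu v hv => ?_, fun x₀ hx₀ ε hε => ?_⟩
  · exact (hG.pd _ (h.maps t x hx)).cpull (h.bij t x hx).1
  · exact hG.orth _ (h.maps t x hx) _ (h.mapE t x hx u hu) _ (h.mapF t x hx v hv)
  · have h1 : Tendsto (φ t) (𝓝[Λ] x₀) (𝓝[Λ] (φ t x₀)) :=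
      tendsto_nhdsWithin_of_tendsto_nhds_of_eventually_within _ (h.tend t x₀ hx₀)
        (by filter_upwards [self_mem_nhdsWithin] with x hx using h.maps t x hx)
    exact OCont.pull (x := fun x => x) hG.cont hG.pd (h.maps t x₀ hx₀) h1 (h.Atend t x₀ hx₀)
      (h.bij t x₀ hx₀).1 hε

lemma Met.half {G : M → Bil E} (hG : Met 𝔽 Λ Es Fs G) (h : Act 𝔽 Λ Es Fs φ A) (t : 𝕋) :
    Met 𝔽 Λ Es Fs (half φ A t G) := by
  have h2 := hG.pb h t
  refine ⟨fun x hx => ?_, fun x hx u hu v hv => ?_, ?_⟩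
  · exact (mean_spec (hG.pd x hx) (h2.pd x hx)).pd
  · exact ((mean_spec (hG.pd x hx) (h2.pd x hx)).block (h.compl x hx) (hG.orth x hx)
      (h2.orth x hx)).1 u hu v hv
  · exact hG.cont.mean h2.cont hG.pd h2.pd

variable (Λ Es Fs φ A) in
/-- Lower bound for the `k`-volumes. -/
def Vol (k : ℕ) (c : ℝ) (t : 𝕋) (G : M → Bil E) : Prop :=
  ∀ x ∈ Λ, ∀ v : Fin k → E, (∀ i, v i ∈ Fs x) →
    c * gram (G x) v ≤ gram (G (φ t x)) (fun i => A t x (v i))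

variable (Λ Es Fs φ A) in
/-- Upper bound on `Es`. -/
def Con (c : ℝ) (t : 𝕋) (G : M → Bil E) : Prop :=
  ∀ x ∈ Λ, ∀ u ∈ Es x, G (φ t x) (A t x u) (A t x u) ≤ c * G x u u

variable (Λ Es Fs φ A) in
/-- Domination. -/
def Dom (c : ℝ) (t : 𝕋) (G : M → Bil E) : Prop :=
  ∀ x ∈ Λ, ∀ u ∈ Es x, ∀ v ∈ Fs x, G (φ t x) (A t x u) (A t x u) * G x v v ≤
    c * (G x u u * G (φ t x) (A t x v) (A t x v))

lemma Vol.comp (h : Act 𝔽 Λ Es Fs φ A) {k : ℕ} {c c' : ℝ} {s t : 𝕋} {G : M → Bil E}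
    (hc : 0 ≤ c) (h1 : Vol Λ Fs φ A k c s G) (h2 : Vol Λ Fs φ A k c' t G) :
    Vol Λ Fs φ A k (c * c') (s + t) G := by
  intro x hx v hv
  have e1 := h2 x hx v hv
  have e2 := h1 (φ t x) (h.maps t x hx) (fun i => A t x (v i)) (fun i => h.mapF t x hx _ (hv i))
  rw [h.add s t x hx, h.Aadd s t x hx]
  calc c * c' * gram (G x) v = c * (c' * gram (G x) v) := by ring
    _ ≤ c * gram (G (φ t x)) (fun i => A t x (v i)) := mul_le_mul_of_nonneg_left e1 hc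
    _ ≤ _ := e2

lemma Con.comp (h : Act 𝔽 Λ Es Fs φ A) {c c' : ℝ} {s t : 𝕋} {G : M → Bil E}
    (hc : 0 ≤ c) (h1 : Con Λ Es φ A c s G) (h2 : Con Λ Es φ A c' t G) :
    Con Λ Es φ A (c * c') (s + t) G := by
  intro x hx u hu
  have e1 := h2 x hx u hu
  have e2 := h1 (φ t x) (h.maps t x hx) (A t x u) (h.mapE t x hx _ hu)
  rw [h.add s t x hx, h.Aadd s t x hx]
  calc _ ≤ c * G (φ t x) (A t x u) (A t x u) := e2
    _ ≤ c * (c' * G x u u) := mul_le_mul_of_nonneg_left e1 hc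
    _ = c * c' * G x u u := by ring

lemma Dom.comp (h : Act 𝔽 Λ Es Fs φ A) {c c' : ℝ} {s t : 𝕋} {G : M → Bil E}
    (hpd : ∀ x ∈ Λ, PD (G x)) (hc : 0 ≤ c) (h1 : Dom Λ Es Fs φ A c s G)
    (h2 : Dom Λ Es Fs φ A c' t G) :
    Dom Λ Es Fs φ A (c * c') (s + t) G := by
  intro x hx u hu v hv
  have e1 := h2 x hx u hu v hv
  have e2 := h1 (φ t x) (h.maps t x hx) (A t x u) (h.mapE t x hx _ hu) (A t x v)
    (h.mapF t x hx _ hv)
  rw [h.add s t x hx, h.Aadd s t x hx]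
  simp only [ContinuousLinearMap.comp_apply]
  by_cases hv0 : v = 0
  · subst hv0; simp
  have hp : 0 < G (φ t x) (A t x v) (A t x v) :=
    (hpd _ (h.maps t x hx)).pos _ fun h0 => hv0 ((h.bij t x hx).1 (by rw [h0, map_zero]))
  have hp2 : 0 ≤ G x v v := (hpd x hx).nonneg v
  have hp3 : 0 ≤ G (φ s (φ t x)) (A s (φ t x) (A t x v)) (A s (φ t x) (A t x v)) :=
    (hpd _ (h.maps s _ (h.maps t x hx))).nonneg _
  refine le_of_mul_le_mul_right ?_ hp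
  calc _ = (G (φ s (φ t x)) (A s (φ t x) (A t x u)) (A s (φ t x) (A t x u)) *
        G (φ t x) (A t x v) (A t x v)) * G x v v := by ring
    _ ≤ (c * (G (φ t x) (A t x u) (A t x u) *
        G (φ s (φ t x)) (A s (φ t x) (A t x v)) (A s (φ t x) (A t x v)))) * G x v v :=
      mul_le_mul_of_nonneg_right e2 hp2
    _ = (G (φ t x) (A t x u) (A t x u) * G x v v) *
        (c * G (φ s (φ t x)) (A s (φ t x) (A t x v)) (A s (φ t x) (A t x v))) := by ring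
    _ ≤ (c' * (G x u u * G (φ t x) (A t x v) (A t x v))) *
        (c * G (φ s (φ t x)) (A s (φ t x) (A t x v)) (A s (φ t x) (A t x v))) :=
      mul_le_mul_of_nonneg_right e1 (mul_nonneg hc hp3)
    _ = _ := by ring

/-- The three forms at `x` and their two means. -/
lemma half_means {G : M → Bil E} (hG : Met 𝔽 Λ Es Fs G) (h : Act 𝔽 Λ Es Fs φ A) (t : 𝕋) {x : M}
    (hx : x ∈ Λ) :
    IsMean (G x) (pb φ A t G x) (half φ A t G x) ∧
      IsMean (pb φ A t G x) (cpull (A t x) (pb φ A t G (φ t x)))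
        (cpull (A t x) (half φ A t G (φ t x))) :=
  ⟨mean_spec (hG.pd x hx) ((hG.pb h t).pd x hx),
    (mean_spec (hG.pd _ (h.maps t x hx)) ((hG.pb h t).pd _ (h.maps t x hx))).cpull
      (h.bij t x hx)⟩

lemma pb_pb {G : M → Bil E} (h : Act 𝔽 Λ Es Fs φ A) (s t : 𝕋) {x : M} (hx : x ∈ Λ) :
    cpull (A t x) (pb φ A s G (φ t x)) = pb φ A (s + t) G x := by
  unfold pb
  rw [h.add s t x hx, h.Aadd s t x hx, cpull_comp]

lemma half_blocks {G : M → Bil E} (hG : Met 𝔽 Λ Es Fs G) (h : Act 𝔽 Λ Es Fs φ A) (t : 𝕋) {x : M}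
    (hx : x ∈ Λ) :
    (IsMean (res (Es x) (G x)) (res (Es x) (pb φ A t G x)) (res (Es x) (half φ A t G x)) ∧
      IsMean (res (Es x) (pb φ A t G x)) (res (Es x) (pb φ A (t + t) G x))
        (res (Es x) (cpull (A t x) (half φ A t G (φ t x))))) ∧
    (IsMean (res (Fs x) (G x)) (res (Fs x) (pb φ A t G x)) (res (Fs x) (half φ A t G x)) ∧
      IsMean (res (Fs x) (pb φ A t G x)) (res (Fs x) (pb φ A (t + t) G x))
        (res (Fs x) (cpull (A t x) (half φ A t G (φ t x))))) := by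
  obtain ⟨h1, h2⟩ := half_means hG h t hx
  rw [pb_pb h t t hx] at h2
  have b1 := h1.block (h.compl x hx) (hG.orth x hx) ((hG.pb h t).orth x hx)
  have b2 := h2.block (h.compl x hx) ((hG.pb h t).orth x hx) ((hG.pb h (t + t)).orth x hx)
  exact ⟨⟨b1.2.1, b2.2.1⟩, ⟨b1.2.2, b2.2.2⟩⟩

theorem Vol.half {G : M → Bil E} (hG : Met 𝔽 Λ Es Fs G) (h : Act 𝔽 Λ Es Fs φ A) {t : 𝕋} {k : ℕ}
    {c : ℝ} (hc : 0 < c) (hV : Vol Λ Fs φ A k c (t + t) G) :
    Vol Λ Fs φ A k √c t (half φ A t G) := by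
  intro x hx v hv
  obtain ⟨-, b1, b2⟩ := half_blocks hG h t hx
  exact halve_gram b1 b2 hc (fun w => hV x hx (fun i => (w i : E)) fun i => (w i).2)
    (fun i => ⟨v i, hv i⟩)

theorem Con.half {G : M → Bil E} (hG : Met 𝔽 Λ Es Fs G) (h : Act 𝔽 Λ Es Fs φ A) {t : 𝕋}
    {c : ℝ} (hc : 0 < c) (hV : Con Λ Es φ A c (t + t) G) :
    Con Λ Es φ A √c t (half φ A t G) := by
  intro x hx u hu
  obtain ⟨⟨b1, b2⟩, -⟩ := half_blocks hG h t hx
  exact halve_upper b1 b2 hc (fun w => hV x hx (w : E) w.2) ⟨u, hu⟩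

theorem Dom.half {G : M → Bil E} (hG : Met 𝔽 Λ Es Fs G) (h : Act 𝔽 Λ Es Fs φ A) {t : 𝕋}
    {c : ℝ} (hc : 0 < c) (hV : Dom Λ Es Fs φ A c (t + t) G) :
    Dom Λ Es Fs φ A √c t (half φ A t G) := by
  intro x hx u hu v hv
  obtain ⟨⟨a1, a2⟩, b1, b2⟩ := half_blocks hG h t hx
  by_cases hu0 : u = 0
  · subst hu0; simp
  by_cases hv0 : v = 0
  · subst hv0; simp
  set P := G x with hP
  set R := pb φ A (t + t) G x with hR
  have hPpd : PD P := hG.pd x hx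
  have hRpd : PD R := (hG.pb h (t + t)).pd x hx
  have hD : ∀ u ∈ Es x, ∀ v ∈ Fs x, R u u * P v v ≤ c * (P u u * R v v) := hV x hx
  let T : Set ℝ := {s | ∀ u ∈ Es x, R u u ≤ s * P u u}
  have hPu : 0 < P u u := hPpd.pos u hu0
  have hRu : 0 < R u u := hRpd.pos u hu0
  have hmem : ∀ v ∈ Fs x, v ≠ 0 → c * R v v / P v v ∈ T := by
    intro v hv hv0 u hu
    have h1 := hD u hu v hv
    have h2 : 0 < P v v := hPpd.pos v hv0
    rw [div_mul_eq_mul_div, le_div_iff₀ h2]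
    linarith
  have hne : T.Nonempty := ⟨_, hmem v hv hv0⟩
  have hbd : BddBelow T := by
    refine ⟨0, fun s hs => ?_⟩
    have := hs u hu
    by_contra hcon
    push Not at hcon
    nlinarith
  set m := sInf T with hm
  have hmT : m ∈ T := by
    intro w hw
    by_cases hw0 : w = 0
    · subst hw0; simp
    have hPw : 0 < P w w := hPpd.pos w hw0
    rw [← div_le_iff₀ hPw]
    refine le_csInf hne fun s hs => ?_
    rw [div_le_iff₀ hPw]
    exact hs w hw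
  have hm0 : 0 < m := by
    have := hmT u hu
    by_contra hcon
    push Not at hcon
    nlinarith
  have hlow : ∀ w ∈ Fs x, m / c * P w w ≤ R w w := by
    intro w hw
    by_cases hw0 : w = 0
    · subst hw0; simp
    have hPw : 0 < P w w := hPpd.pos w hw0
    have h1 := csInf_le hbd (hmem w hw hw0)
    rw [← hm, le_div_iff₀ hPw] at h1
    rw [div_mul_eq_mul_div, div_le_iff₀ hc]
    linarith
  have k1 := halve_upper a1 a2 hm0 (fun w => hmT (w : E) w.2) ⟨u, hu⟩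
  have k2 := halve_lower b1 b2 (div_pos hm0 hc) (fun w => hlow (w : E) w.2) ⟨v, hv⟩
  simp only [res_apply, cpull_apply] at k1 k2
  have hX := (hG.half h t).pd x hx
  have hXv := hX.nonneg v
  have hXu := hX.nonneg u
  calc _ ≤ (√m * Ad.half φ A t G x u u) * Ad.half φ A t G x v v :=
        mul_le_mul_of_nonneg_right k1 hXv
    _ = √c * (Ad.half φ A t G x u u * (√(m / c) * Ad.half φ A t G x v v)) := by
        have : √m = √c * √(m / c) := by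
          rw [← Real.sqrt_mul hc.le]
          congr 1
          field_simp
        rw [this]; ring
    _ ≤ _ := by
        refine mul_le_mul_of_nonneg_left ?_ (Real.sqrt_nonneg c)
        exact mul_le_mul_of_nonneg_left k2 hXu

end Q70.Ad
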