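import Pool.Agent.Q70.AdE

set_option autoImplicit false

/-! Iterated halving, and Gram determinants of close forms. -/

open Module Set Filter Topology

namespace Q70.Ad

variable {M : Type*} [TopologicalSpace M] {E : Type*} [NormedAddCommGroup E] [NormedSpace ℝ E]
  [FiniteDimensional ℝ E] {𝔽 : Frames M E} {Λ : Set M} {Es Fs : M → Submodule ℝ E} {𝕋 : Type*}
  [AddMonoid 𝕋] {φ : 𝕋 → M → M} {A : 𝕋 → M → E →L[ℝ] E}

lemma sqrt_iter_pos (m : ℕ) {c : ℝ} (hc : 0 < c) : 0 < Real.sqrt^[m] c := by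
  induction m with
  | zero => simpa using hc
  | succ m ih => rw [Function.iterate_succ_apply']; exact Real.sqrt_pos.2 ih

lemma sqrt_iter_gt (m : ℕ) {c : ℝ} (hc : 1 < c) : 1 < Real.sqrt^[m] c := by
  induction m with
  | zero => simpa using hc
  | succ m ih =>
    rw [Function.iterate_succ_apply', Real.lt_sqrt zero_le_one]
    simpa using ih

lemma sqrt_iter_lt (m : ℕ) {c : ℝ} (hc : c < 1) : Real.sqrt^[m] c < 1 := by
  induction m with
  | zero => simpa using hc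
  | succ m ih =>
    rw [Function.iterate_succ_apply', Real.sqrt_lt' one_pos]
    simpa using ih

/-- Iterated halving. -/
theorem iter_half (h : Act 𝔽 Λ Es Fs φ A) (t : 𝕋) {k : ℕ} (m : ℕ) {a b c : ℝ} (ha : 0 < a)
    (hb : 0 < b) (hc : 0 < c) {G : M → Bil E} (hG : Met 𝔽 Λ Es Fs G)
    (h1 : Vol Λ Fs φ A k a (2 ^ m • t) G) (h2 : Con Λ Es φ A b (2 ^ m • t) G)
    (h3 : Dom Λ Es Fs φ A c (2 ^ m • t) G) :
    ∃ G' : M → Bil E, Met 𝔽 Λ Es Fs G' ∧ Vol Λ Fs φ A k (Real.sqrt^[m] a) t G' ∧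
      Con Λ Es φ A (Real.sqrt^[m] b) t G' ∧ Dom Λ Es Fs φ A (Real.sqrt^[m] c) t G' := by
  induction m generalizing a b c G with
  | zero =>
    refine ⟨G, hG, ?_, ?_, ?_⟩
    · simpa using h1
    · simpa using h2
    · simpa using h3
  | succ m ih =>
    have e : 2 ^ (m + 1) • t = 2 ^ m • t + 2 ^ m • t := by
      rw [pow_succ, mul_two, add_nsmul]
    rw [e] at h1 h2 h3
    have := ih (Real.sqrt_pos.2 ha) (Real.sqrt_pos.2 hb) (Real.sqrt_pos.2 hc)
      (hG.half h (2 ^ m • t)) (h1.half hG h ha) (h2.half hG h hb) (h3.half hG h hc)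
    simpa only [Function.iterate_succ_apply] using this

/-- Gram determinants of close forms. -/
lemma gram_close {W : Type*} [AddCommGroup W] [Module ℝ W] [FiniteDimensional ℝ W] {k : ℕ}
    {P Q : Bil W} (hP : PD P) (hQ : PD Q) {ε : ℝ} (hε0 : 0 ≤ ε) (hε1 : ε < 1)
    (h : Close ε P Q) (v : Fin k → W) :
    (1 - ε) ^ k * gram P v ≤ gram Q v ∧ gram Q v ≤ (1 + ε) ^ k * gram P v := by
  obtain ⟨b, q, h1, h2⟩ := exists_diag hP hQ.symm
  have hq : ∀ i, 1 - ε ≤ q i ∧ q i ≤ 1 + ε := by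
    intro i
    have := h (b i)
    rw [h1.diag, h2.diag] at this
    simpa using this
  rw [← wedge_ι_self, ← wedge_ι_self, (wedge_diag k h1).apply, (wedge_diag k h2).apply,
    Finset.mul_sum, Finset.mul_sum]
  have key : ∀ s : powersetCard (Fin (finrank ℝ W)) k,
      (1 - ε) ^ k ≤ ∏ i, q (Set.powersetCard.ofFinEmbEquiv.symm s i) ∧
      ∏ i, q (Set.powersetCard.ofFinEmbEquiv.symm s i) ≤ (1 + ε) ^ k := by
    intro s
    constructor
    · calc (1 - ε) ^ k = ∏ _i : Fin k, (1 - ε) := by simp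
        _ ≤ _ := Finset.prod_le_prod (fun i _ => by linarith) fun i _ => (hq _).1
    · calc ∏ i, q (Set.powersetCard.ofFinEmbEquiv.symm s i) ≤ ∏ _i : Fin k, (1 + ε) :=
          Finset.prod_le_prod (fun i _ => by linarith [(hq
            (Set.powersetCard.ofFinEmbEquiv.symm s i)).1]) fun i _ => (hq _).2
        _ = _ := by simp
  constructor
  · refine Finset.sum_le_sum fun s _ => ?_
    have := mul_self_nonneg ((b.exteriorPower k).repr (exteriorPower.ιMulti ℝ k v) s)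
    simp only [Finset.prod_const_one]
    nlinarith [(key s).1]
  · refine Finset.sum_le_sum fun s _ => ?_
    have := mul_self_nonneg ((b.exteriorPower k).repr (exteriorPower.ιMulti ℝ k v) s)
    simp only [Finset.prod_const_one]
    nlinarith [(key s).2]

lemma gram_nonneg {W : Type*} [AddCommGroup W] [Module ℝ W] [FiniteDimensional ℝ W] {k : ℕ}
    {P : Bil W} (hP : PD P) (v : Fin k → W) : 0 ≤ gram P v := gram_pos hP v

/-- Perturbation of `Vol`. -/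
lemma Vol.close {k : ℕ} {c : ℝ} {t : 𝕋} {G G' : M → Bil E} (h : Act 𝔽 Λ Es Fs φ A)
    (hpd : ∀ x ∈ Λ, PD (G x)) (hpd' : ∀ x ∈ Λ, PD (G' x)) {ε : ℝ} (hε0 : 0 ≤ ε) (hε1 : ε < 1)
    (hcl : ∀ x ∈ Λ, Close ε (G x) (G' x)) (hc : 0 ≤ c) (hV : Vol Λ Fs φ A k c t G) :
    Vol Λ Fs φ A k (c * ((1 - ε) / (1 + ε)) ^ k) t G' := by
  intro x hx v hv
  have h1 := hV x hx v hv
  have h2 := (gram_close (hpd x hx) (hpd' x hx) hε0 hε1 (hcl x hx) v).2
  have h3 := (gram_close (hpd _ (h.maps t x hx)) (hpd' _ (h.maps t x hx)) hε0 hε1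
    (hcl _ (h.maps t x hx)) (fun i => A t x (v i))).1
  have e1 : 0 < (1 + ε) ^ k := by positivity
  have e2 : 0 ≤ (1 - ε) ^ k := pow_nonneg (by linarith) k
  calc c * ((1 - ε) / (1 + ε)) ^ k * gram (G' x) v
      ≤ c * ((1 - ε) / (1 + ε)) ^ k * ((1 + ε) ^ k * gram (G x) v) := by
        refine mul_le_mul_of_nonneg_left h2 (mul_nonneg hc ?_)
        exact pow_nonneg (div_nonneg (by linarith) (by linarith)) k
    _ = (1 - ε) ^ k * (c * gram (G x) v) := by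
        rw [div_pow]; field_simp
    _ ≤ (1 - ε) ^ k * gram (G (φ t x)) (fun i => A t x (v i)) :=
        mul_le_mul_of_nonneg_left h1 e2
    _ ≤ _ := h3

lemma Con.close {c : ℝ} {t : 𝕋} {G G' : M → Bil E} (h : Act 𝔽 Λ Es Fs φ A)
    (hpd : ∀ x ∈ Λ, PD (G x)) {ε : ℝ} (hε0 : 0 ≤ ε) (hε1 : ε < 1)
    (hcl : ∀ x ∈ Λ, Close ε (G x) (G' x)) (hc : 0 ≤ c) (hV : Con Λ Es φ A c t G) :
    Con Λ Es φ A (c * ((1 + ε) / (1 - ε))) t G' := by
  intro x hx u hu
  have h1 := hV x hx u hu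
  have h2 := (hcl x hx u).1
  have h3 := (hcl _ (h.maps t x hx) (A t x u)).2
  have e1 : 0 < 1 - ε := by linarith
  have e2 : 0 < 1 + ε := by linarith
  calc G' (φ t x) (A t x u) (A t x u) ≤ (1 + ε) * G (φ t x) (A t x u) (A t x u) := h3
    _ ≤ (1 + ε) * (c * G x u u) := mul_le_mul_of_nonneg_left h1 e2.le
    _ = (c * ((1 + ε) / (1 - ε))) * ((1 - ε) * G x u u) := by field_simp
    _ ≤ _ := mul_le_mul_of_nonneg_left h2 (mul_nonneg hc (div_pos e2 e1).le)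

lemma Dom.close {c : ℝ} {t : 𝕋} {G G' : M → Bil E} (h : Act 𝔽 Λ Es Fs φ A)
    (hpd : ∀ x ∈ Λ, PD (G x)) (hpd' : ∀ x ∈ Λ, PD (G' x)) {ε : ℝ} (hε0 : 0 ≤ ε) (hε1 : ε < 1)
    (hcl : ∀ x ∈ Λ, Close ε (G x) (G' x)) (hc : 0 ≤ c) (hV : Dom Λ Es Fs φ A c t G) :
    Dom Λ Es Fs φ A (c * ((1 + ε) / (1 - ε)) ^ 2) t G' := by
  intro x hx u hu v hv
  have h1 := hV x hx u hu v hv
  have h2 := (hcl x hx u).1
  have h2' := (hcl x hx v).2
  have h3 := (hcl _ (h.maps t x hx) (A t x u)).2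
  have h3' := (hcl _ (h.maps t x hx) (A t x v)).1
  have e1 : 0 < 1 - ε := by linarith
  have e2 : 0 < 1 + ε := by linarith
  have p1 := (hpd x hx).nonneg v
  have p2 := (hpd x hx).nonneg u
  have p3 := (hpd _ (h.maps t x hx)).nonneg (A t x u)
  have p4 := (hpd _ (h.maps t x hx)).nonneg (A t x v)
  have p1' := (hpd' x hx).nonneg v
  have p2' := (hpd' x hx).nonneg u
  calc G' (φ t x) (A t x u) (A t x u) * G' x v v
      ≤ ((1 + ε) * G (φ t x) (A t x u) (A t x u)) * ((1 + ε) * G x v v) :=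
        mul_le_mul h3 h2' p1' (mul_nonneg e2.le p3)
    _ = (1 + ε) ^ 2 * (G (φ t x) (A t x u) (A t x u) * G x v v) := by ring
    _ ≤ (1 + ε) ^ 2 * (c * (G x u u * G (φ t x) (A t x v) (A t x v))) :=
        mul_le_mul_of_nonneg_left h1 (by positivity)
    _ = (c * ((1 + ε) / (1 - ε)) ^ 2) * (((1 - ε) * G x u u) *
        ((1 - ε) * G (φ t x) (A t x v) (A t x v))) := by field_simp
    _ ≤ _ := by
        refine mul_le_mul_of_nonneg_left ?_ (mul_nonneg hc (by positivity))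
        exact mul_le_mul h2 h3' (mul_nonneg e1.le p4) p2'

/-- Iterating a one step estimate. -/
lemma Vol.nsmul (h : Act 𝔽 Λ Es Fs φ A) {k : ℕ} {c : ℝ} {t : 𝕋} {G : M → Bil E}
    (hc : 0 ≤ c) (h1 : Vol Λ Fs φ A k c t G) (n : ℕ) : Vol Λ Fs φ A k (c ^ n) (n • t) G := by
  induction n with
  | zero =>
    intro x hx v hv
    rw [zero_smul, h.zero x hx, h.Azero x hx]
    simp
  | succ n ih =>
    rw [pow_succ, succ_nsmul]
    exact ih.comp h (pow_nonneg hc n) h1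

lemma Con.nsmul (h : Act 𝔽 Λ Es Fs φ A) {c : ℝ} {t : 𝕋} {G : M → Bil E}
    (hc : 0 ≤ c) (h1 : Con Λ Es φ A c t G) (n : ℕ) : Con Λ Es φ A (c ^ n) (n • t) G := by
  induction n with
  | zero =>
    intro x hx v hv
    rw [zero_smul, h.zero x hx, h.Azero x hx]
    simp
  | succ n ih =>
    rw [pow_succ, succ_nsmul]
    exact ih.comp h (pow_nonneg hc n) h1

lemma Dom.nsmul (h : Act 𝔽 Λ Es Fs φ A) {c : ℝ} {t : 𝕋} {G : M → Bil E}
    (hpd : ∀ x ∈ Λ, PD (G x)) (hc : 0 ≤ c) (h1 : Dom Λ Es Fs φ A c t G) (n : ℕ) :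
    Dom Λ Es Fs φ A (c ^ n) (n • t) G := by
  induction n with
  | zero =>
    intro x hx v hv
    rw [zero_smul, h.zero x hx, h.Azero x hx]
    simp
  | succ n ih =>
    rw [pow_succ, succ_nsmul]
    exact ih.comp h hpd (pow_nonneg hc n) h1

end Q70.Ad
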