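import Pool.Agent.Q70.AdF

set_option autoImplicit false

/-! Continuous time: the limit of the dyadic halvings. -/

open Module Set Filter Topology

namespace Q70.Ad

variable {M : Type*} [TopologicalSpace M] {E : Type*} [NormedAddCommGroup E] [NormedSpace ℝ E]
  [FiniteDimensional ℝ E]

/-- A jointly continuous cocycle over a flow. -/
structure CFlow (𝔽 : Frames M E) (Λ : Set M) (Es Fs : M → Submodule ℝ E) (φ : ℝ → M → M)
    (A : ℝ → M → E →L[ℝ] E) : Prop where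
  act : Act 𝔽 Λ Es Fs φ A
  tend : ∀ t₀, ∀ x₀ ∈ Λ, Tendsto (fun p : ℝ × M => φ p.1 p.2) (𝓝 (t₀, x₀)) (𝓝 (φ t₀ x₀))
  Atend : ∀ t₀, ∀ x₀ ∈ Λ, Tendsto
    (fun p : ℝ × M => 𝔽.L (φ t₀ x₀) (φ p.1 p.2) ∘L A p.1 p.2 ∘L 𝔽.S x₀ p.2) (𝓝 (t₀, x₀))
    (𝓝 (𝔽.L (φ t₀ x₀) (φ t₀ x₀) ∘L A t₀ x₀ ∘L 𝔽.S x₀ x₀))

variable {𝔽 : Frames M E} {Λ : Set M} {Es Fs : M → Submodule ℝ E}
  {φ : ℝ → M → M} {A : ℝ → M → E →L[ℝ] E}

lemma Close.mono {W : Type*} [AddCommGroup W] [Module ℝ W] {ε δ : ℝ} {P Q : Bil W}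
    (h : Close ε P Q) (hP : ∀ u, 0 ≤ P u u) (hεδ : ε ≤ δ) : Close δ P Q := by
  intro u
  obtain ⟨a, b⟩ := h u
  have := mul_le_mul_of_nonneg_right hεδ (hP u)
  constructor <;> nlinarith

/-- The time modulus. -/
theorem exists_modulus (h : CFlow 𝔽 Λ Es Fs φ A) (hΛ : IsCompact Λ) {G : M → Bil E}
    (hG : Met 𝔽 Λ Es Fs G) {ε : ℝ} (hε : 0 < ε) :
    ∃ δ > 0, ∀ s : ℝ, |s| ≤ δ → ∀ x ∈ Λ, Close ε (G x) (pb φ A s G x) := by
  set δ : ℝ := min (ε / 4) (1 / 2) with hδ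
  have hδ0 : 0 < δ := lt_min (by positivity) (by norm_num)
  have hδ1 : δ ≤ 1 / 2 := min_le_right _ _
  have hδε : 4 * δ ≤ ε := by have := min_le_left (ε / 4) (1 / 2); rw [← hδ] at this; linarith
  have key : ∀ x₀ ∈ Λ, ∀ᶠ p : ℝ × M in 𝓝 ((0 : ℝ), x₀), p.2 ∈ Λ →
      Close ε (G p.2) (pb φ A p.1 G p.2) := by
    intro x₀ hx₀
    set l := 𝓝 ((0 : ℝ), x₀) ⊓ 𝓟 {p : ℝ × M | p.2 ∈ Λ} with hl
    suffices hsuff : ∀ᶠ p in l, Close ε (G p.2) (pb φ A p.1 G p.2) from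
      eventually_inf_principal.1 hsuff
    have hzero := h.act.zero x₀ hx₀
    have hy : Tendsto (fun p : ℝ × M => φ p.1 p.2) l (𝓝[Λ] (φ 0 x₀)) := by
      refine tendsto_nhdsWithin_of_tendsto_nhds_of_eventually_within _
        ((h.tend 0 x₀ hx₀).mono_left inf_le_left) ?_
      rw [hl, eventually_inf_principal]
      exact Eventually.of_forall fun p hp => h.act.maps _ _ hp
    have k1 := OCont.pull (x := fun p : ℝ × M => p.2) hG.cont hG.pd (h.act.maps 0 x₀ hx₀) hy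
      ((h.Atend 0 x₀ hx₀).mono_left inf_le_left) (h.act.bij 0 x₀ hx₀).1 hδ0
    have k2 : ∀ᶠ p : ℝ × M in l, Close δ (cpull (𝔽.S x₀ x₀) (G x₀))
        (cpull (𝔽.S x₀ p.2) (G p.2)) := by
      have ht : Tendsto (fun p : ℝ × M => p.2) l (𝓝[Λ] x₀) := by
        refine tendsto_nhdsWithin_of_tendsto_nhds_of_eventually_within _
          (continuous_snd.continuousAt.tendsto.mono_left inf_le_left) ?_
        rw [hl, eventually_inf_principal]
        exact Eventually.of_forall fun p hp => hp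
      exact ht.eventually (hG.cont x₀ hx₀ δ hδ0)
    have k3 : ∀ᶠ p : ℝ × M in l, Function.Bijective (𝔽.S x₀ p.2) := by
      have ht : Tendsto (fun p : ℝ × M => p.2) l (𝓝 x₀) :=
        continuous_snd.continuousAt.tendsto.mono_left inf_le_left
      exact ht.eventually (𝔽.bijS x₀)
    rw [hzero, h.act.Azero x₀ hx₀] at k1
    filter_upwards [k1, k2, k3] with p h1 h2 h3 w
    obtain ⟨u, rfl⟩ := h3.2 w
    obtain ⟨a1, a2⟩ := h1 u
    obtain ⟨b1, b2⟩ := h2 u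
    have hp0 : 0 ≤ (cpull (𝔽.S x₀ x₀) (G x₀)) u u := (hG.pd x₀ hx₀).nonneg _
    simp only [cpull_apply, ContinuousLinearMap.comp_apply, ContinuousLinearMap.id_apply, pb]
      at a1 a2 b1 b2 hp0 ⊢
    constructor
    · refine le_trans ?_ a1
      have : (1 - ε) * G p.2 (𝔽.S x₀ p.2 u) (𝔽.S x₀ p.2 u) ≤
          (1 - 4 * δ) * G p.2 (𝔽.S x₀ p.2 u) (𝔽.S x₀ p.2 u) := by
        refine mul_le_mul_of_nonneg_right (by linarith) ?_
        nlinarith
      refine this.trans ?_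
      by_cases h4 : 0 ≤ 1 - 4 * δ
      · calc _ ≤ (1 - 4 * δ) * ((1 + δ) * _) := mul_le_mul_of_nonneg_left b2 h4
          _ ≤ _ := by nlinarith [mul_nonneg hδ0.le hp0, mul_nonneg (mul_nonneg hδ0.le hδ0.le) hp0]
      · push Not at h4
        have : (1 - 4 * δ) * G p.2 (𝔽.S x₀ p.2 u) (𝔽.S x₀ p.2 u) ≤ 0 :=
          mul_nonpos_of_nonpos_of_nonneg h4.le (by nlinarith)
        nlinarith
    · refine a2.trans ?_
      have : (1 + 4 * δ) * G p.2 (𝔽.S x₀ p.2 u) (𝔽.S x₀ p.2 u) ≤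
          (1 + ε) * G p.2 (𝔽.S x₀ p.2 u) (𝔽.S x₀ p.2 u) := by
        refine mul_le_mul_of_nonneg_right (by linarith) ?_
        nlinarith
      refine le_trans ?_ this
      calc _ ≤ (1 + 4 * δ) * ((1 - δ) * _) := by
            nlinarith [mul_nonneg hδ0.le hp0, mul_nonneg (mul_nonneg hδ0.le
              (by linarith : 0 ≤ 1 / 2 - δ)) hp0]
        _ ≤ _ := mul_le_mul_of_nonneg_left b1 (by linarith)
  have h2 := hΛ.eventually_forall_of_forall_eventually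
    (P := fun s x => x ∈ Λ → Close ε (G x) (pb φ A s G x)) key
  rw [Metric.eventually_nhds_iff] at h2
  obtain ⟨η, hη, h3⟩ := h2
  refine ⟨η / 2, by positivity, fun s hs x hx => h3 ?_ x hx hx⟩
  rw [Real.dist_eq, sub_zero]
  linarith

lemma Close.cpull {ε : ℝ} {P Q : Bil E} (h : Close ε P Q) (T : E →L[ℝ] E) :
    Close ε (cpull T P) (Ad.cpull T Q) := fun u => h (T u)

lemma isMean_self {P : Bil E} (hP : PD P) : IsMean P P P := by
  obtain ⟨b, -, h1, -⟩ := exists_diag hP hP.symm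
  exact ⟨Fin (finrank ℝ E), inferInstance, b, fun _ => 1, fun _ => 1, fun _ => one_pos,
    fun _ => one_pos, h1, h1, h1.congr fun i => by simp⟩

lemma mean_self {P : Bil E} (hP : PD P) : mean P P = P :=
  (mean_spec hP hP).unique (isMean_self hP)

/-- Pulling back a halved field. -/
lemma pb_half (h : Act 𝔽 Λ Es Fs φ A) {G : M → Bil E} (hG : Met 𝔽 Λ Es Fs G) (r s : ℝ) {x : M}
    (hx : x ∈ Λ) : pb φ A s (half φ A r G) x = mean (pb φ A s G x) (pb φ A (r + s) G x) := by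
  have h1 := hG.pd _ (h.maps s x hx)
  have h2 := (hG.pb h r).pd _ (h.maps s x hx)
  rw [← pb_pb h r s hx]
  exact mean_cpull h1 h2 (h.bij s x hx)

/-- The sequence of halved fields. -/
noncomputable def seq (φ : ℝ → M → M) (A : ℝ → M → E →L[ℝ] E) (T : ℝ) (G : M → Bil E) :
    ℕ → M → Bil E
  | 0 => G
  | n + 1 => half φ A (T / 2 ^ (n + 1)) (seq φ A T G n)

lemma seq_met (h : Act 𝔽 Λ Es Fs φ A) (T : ℝ) {G : M → Bil E} (hG : Met 𝔽 Λ Es Fs G) (n : ℕ) :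
    Met 𝔽 Λ Es Fs (seq φ A T G n) := by
  induction n with
  | zero => exact hG
  | succ n ih => exact ih.half h _

lemma seq_modulus (h : Act 𝔽 Λ Es Fs φ A) (T : ℝ) {G : M → Bil E} (hG : Met 𝔽 Λ Es Fs G)
    {ε s : ℝ} (hε0 : 0 ≤ ε) (hε1 : ε < 1) (hs : ∀ x ∈ Λ, Close ε (G x) (pb φ A s G x)) (n : ℕ) :
    ∀ x ∈ Λ, Close ε (seq φ A T G n x) (pb φ A s (seq φ A T G n) x) := by
  induction n with
  | zero => exact hs
  | succ n ih =>
    intro x hx
    have hm := seq_met h T hG n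
    set r := T / 2 ^ (n + 1) with hr
    change Close ε (half φ A r (seq φ A T G n) x) (pb φ A s (half φ A r (seq φ A T G n)) x)
    rw [pb_half h hm r s hx]
    refine mean_close (hm.pd x hx) ((hm.pb h r).pd x hx) ((hm.pb h s).pd x hx)
      ((hm.pb h (r + s)).pd x hx) hε0 hε1 (ih x hx) ?_
    have := (ih _ (h.maps r x hx)).cpull (A r x)
    rw [pb_pb h s r hx, add_comm s r] at this
    exact this

lemma seq_close (h : Act 𝔽 Λ Es Fs φ A) {T : ℝ} (hT : 0 < T) {G : M → Bil E}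
    (hG : Met 𝔽 Λ Es Fs G) {ε : ℝ} (hε0 : 0 ≤ ε) (hε1 : ε < 1) {m : ℕ}
    (hs : ∀ s, 0 ≤ s → s ≤ T / 2 ^ m → ∀ x ∈ Λ, Close ε (G x) (pb φ A s G x)) (j : ℕ) :
    ∀ s, 0 ≤ s → s ≤ T / 2 ^ (m + j) → ∀ x ∈ Λ,
      Close ε (seq φ A T G m x) (pb φ A s (seq φ A T G (m + j)) x) := by
  induction j with
  | zero => exact fun s hs0 hs1 => seq_modulus h T hG hε0 hε1 (hs s hs0 hs1) m
  | succ j ih =>
    intro s hs0 hs1 x hx
    have hm := seq_met h T hG (m + j)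
    have hm' := seq_met h T hG m
    set r := T / 2 ^ (m + j + 1) with hr
    have hr0 : 0 ≤ r := by positivity
    have hr2 : r + r = T / 2 ^ (m + j) := by rw [hr, pow_succ]; field_simp; ring
    change Close ε (seq φ A T G m x) (pb φ A s (half φ A r (seq φ A T G (m + j))) x)
    rw [pb_half h hm r s hx, ← mean_self (hm'.pd x hx)]
    have hs1' : s ≤ r := hs1
    exact mean_close (hm'.pd x hx) (hm'.pd x hx) ((hm.pb h s).pd x hx)
      ((hm.pb h (r + s)).pd x hx) hε0 hε1 (ih s hs0 (by linarith) x hx)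
      (ih (r + s) (by linarith) (by linarith) x hx)

lemma pb_zero (h : Act 𝔽 Λ Es Fs φ A) (G : M → Bil E) {x : M} (hx : x ∈ Λ) :
    pb φ A 0 G x = G x := by
  unfold pb
  rw [h.zero x hx, h.Azero x hx]
  rfl

theorem seq_cauchy (h : CFlow 𝔽 Λ Es Fs φ A) (hΛ : IsCompact Λ) {T : ℝ} (hT : 0 < T)
    {G : M → Bil E} (hG : Met 𝔽 Λ Es Fs G) {ε : ℝ} (hε0 : 0 < ε) (hε1 : ε < 1) :
    ∃ m₀, ∀ m, m₀ ≤ m → ∀ n, m ≤ n → ∀ x ∈ Λ,
      Close ε (seq φ A T G m x) (seq φ A T G n x) := by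
  obtain ⟨δ, hδ, hmod⟩ := exists_modulus h hΛ hG hε0
  obtain ⟨m₀, hm₀⟩ : ∃ m₀ : ℕ, T / 2 ^ m₀ ≤ δ := by
    obtain ⟨m₀, hm₀⟩ := pow_unbounded_of_one_lt (T / δ) one_lt_two
    refine ⟨m₀, ?_⟩
    rw [div_le_iff₀ (by positivity)]
    rw [div_lt_iff₀ hδ] at hm₀
    linarith
  refine ⟨m₀, fun m hm n hn x hx => ?_⟩
  obtain ⟨j, rfl⟩ := Nat.exists_eq_add_of_le hn
  have hle : T / 2 ^ m ≤ δ := by
    refine le_trans ?_ hm₀
    gcongr
    norm_num
  have := seq_close h.act hT hG hε0.le hε1 (m := m)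
    (fun s hs0 hs1 => hmod s (by rw [abs_of_nonneg hs0]; linarith)) j 0 le_rfl (by positivity) x hx
  rwa [pb_zero h.act _ hx] at this

omit [TopologicalSpace M] in
/-- Pointwise limits of bilinear forms. -/
lemma exists_bil_limit {P : ℕ → Bil E}
    (h : ∀ u v, ∃ a : ℝ, Tendsto (fun n => P n u v) atTop (𝓝 a)) :
    ∃ Q : Bil E, ∀ u v, Tendsto (fun n => P n u v) atTop (𝓝 (Q u v)) := by
  choose a ha using h
  refine ⟨LinearMap.mk₂ ℝ a ?_ ?_ ?_ ?_, fun u v => ha u v⟩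
  · intro u u' v
    refine tendsto_nhds_unique (ha _ _) ?_
    simpa using (ha u v).add (ha u' v)
  · intro c u v
    refine tendsto_nhds_unique (ha _ _) ?_
    simpa using (ha u v).const_mul c
  · intro u v v'
    refine tendsto_nhds_unique (ha _ _) ?_
    simpa using (ha u v).add (ha u v')
  · intro c u v
    refine tendsto_nhds_unique (ha _ _) ?_
    simpa using (ha u v).const_mul c

omit [TopologicalSpace M] in
lemma polar {P : Bil E} (h : ∀ u v, P u v = P v u) (u v : E) :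
    P u v = (P (u + v) (u + v) - P u u - P v v) / 2 := by
  simp only [map_add, LinearMap.add_apply, h v u]
  ring

omit [TopologicalSpace M] [FiniteDimensional ℝ E] in
lemma tendsto_of_close {N : Type*} {l : Filter N} {P : Bil E} {Q : N → Bil E}
    (h : ∀ ε : ℝ, 0 < ε → ∀ᶠ n in l, Close ε P (Q n)) (u : E) :
    Tendsto (fun n => Q n u u) l (𝓝 (P u u)) := by
  rw [Metric.tendsto_nhds]
  intro η hη
  have hp : 0 < |P u u| + 1 := by positivity
  filter_upwards [h (η / (2 * (|P u u| + 1))) (by positivity)] with n hn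
  obtain ⟨a, b⟩ := hn u
  rw [Real.dist_eq]
  have h1 : |Q n u u - P u u| ≤ η / (2 * (|P u u| + 1)) * |P u u| := by
    have h2 := le_abs_self (P u u)
    have h3 := neg_abs_le (P u u)
    have h4 : 0 < η / (2 * (|P u u| + 1)) := by positivity
    rw [abs_le]
    constructor <;> nlinarith
  have h2 : η / (2 * (|P u u| + 1)) * |P u u| < η := by
    rw [div_mul_eq_mul_div, div_lt_iff₀ (by positivity)]
    nlinarith [abs_nonneg (P u u)]
  linarith

end Q70.Ad
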