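import Pool.Agent.Q70.AdG

set_option autoImplicit false

/-! Adapted fields for flows. -/

open Module Set Filter Topology

namespace Q70.Ad

variable {M : Type*} [TopologicalSpace M] {E : Type*} [NormedAddCommGroup E] [NormedSpace ℝ E]
  [FiniteDimensional ℝ E] {𝔽 : Frames M E} {Λ : Set M} {Es Fs : M → Submodule ℝ E}
  {φ : ℝ → M → M} {A : ℝ → M → E →L[ℝ] E}

omit [TopologicalSpace M] [NormedAddCommGroup E] [NormedSpace ℝ E] [FiniteDimensional ℝ E] in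
lemma tendsto_gram {W : Type*} [AddCommGroup W] [Module ℝ W] {N : Type*} {l : Filter N} {k : ℕ}
    {P : N → Bil W} {v : N → Fin k → W} {P₀ : Bil W} {v₀ : Fin k → W}
    (h : ∀ i j, Tendsto (fun n => P n (v n i) (v n j)) l (𝓝 (P₀ (v₀ i) (v₀ j)))) :
    Tendsto (fun n => gram (P n) (v n)) l (𝓝 (gram P₀ v₀)) := by
  unfold gram
  have hc : Continuous fun B : Matrix (Fin k) (Fin k) ℝ => B.det := continuous_id.matrix_det
  refine (hc.tendsto _).comp ?_
  exact tendsto_pi_nhds.2 fun i => tendsto_pi_nhds.2 fun j => h i j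

/-- Existence of the limit field. -/
theorem exists_limit (h : CFlow 𝔽 Λ Es Fs φ A) (hΛ : IsCompact Λ) {T : ℝ} (hT : 0 < T)
    {G : M → Bil E} (hG : Met 𝔽 Λ Es Fs G) :
    ∃ H : M → Bil E, ∀ x ∈ Λ, ∀ u v,
      Tendsto (fun n => seq φ A T G n x u v) atTop (𝓝 (H x u v)) := by
  have hmet := fun n => seq_met h.act T hG n
  have key : ∀ x : M, ∃ Hx : Bil E, x ∈ Λ → ∀ u v,
      Tendsto (fun n => seq φ A T G n x u v) atTop (𝓝 (Hx u v)) := by
    intro x
    by_cases hx : x ∈ Λ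
    swap
    · exact ⟨0, fun h => absurd h hx⟩
    have hq : ∀ u, ∃ a : ℝ, Tendsto (fun n => seq φ A T G n x u u) atTop (𝓝 a) := by
      intro u
      apply cauchySeq_tendsto_of_complete
      rw [Metric.cauchySeq_iff']
      intro η hη
      obtain ⟨m₁, h1⟩ := seq_cauchy h hΛ hT hG (ε := 1 / 2) (by norm_num) (by norm_num)
      set B := 3 / 2 * seq φ A T G m₁ x u u with hB
      have hB0 : 0 ≤ B := by
        have := ((hmet m₁).pd x hx).nonneg u
        positivity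
      set ε := min (1 / 2) (η / (2 * (B + 1))) with hε
      have hε0 : 0 < ε := lt_min (by norm_num) (by positivity)
      have hε1 : ε < 1 := lt_of_le_of_lt (min_le_left _ _) (by norm_num)
      have hε2 : ε ≤ η / (2 * (B + 1)) := min_le_right _ _
      obtain ⟨m₂, h2⟩ := seq_cauchy h hΛ hT hG hε0 hε1
      refine ⟨max m₁ m₂, fun n hn => ?_⟩
      obtain ⟨a1, a2⟩ := h2 _ (le_max_right m₁ m₂) n hn x hx u
      have a3 := (h1 m₁ le_rfl _ (le_max_left m₁ m₂) x hx u).2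
      have a4 : seq φ A T G (max m₁ m₂) x u u ≤ B := by rw [hB]; linarith
      have a5 := ((hmet (max m₁ m₂)).pd x hx).nonneg u
      have a6 : ε * seq φ A T G (max m₁ m₂) x u u ≤ ε * B := mul_le_mul_of_nonneg_left a4 hε0.le
      have a7 : ε * B ≤ η / (2 * (B + 1)) * B := mul_le_mul_of_nonneg_right hε2 hB0
      have a8 : η / (2 * (B + 1)) * B < η := by
        rw [div_mul_eq_mul_div, div_lt_iff₀ (by positivity)]
        nlinarith
      rw [Real.dist_eq, abs_lt]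
      constructor <;> linarith
    obtain ⟨Hx, hHx⟩ := exists_bil_limit (P := fun n => seq φ A T G n x) (fun u v => by
      obtain ⟨a1, h1⟩ := hq (u + v)
      obtain ⟨a2, h2⟩ := hq u
      obtain ⟨a3, h3⟩ := hq v
      refine ⟨(a1 - a2 - a3) / 2, ?_⟩
      have := ((h1.sub h2).sub h3).div_const 2
      refine this.congr fun n => ?_
      exact (polar ((hmet n).pd x hx).symm u v).symm)
    exact ⟨Hx, fun _ => hHx⟩
  choose H hH using key
  exact ⟨H, fun x hx => hH x hx⟩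

theorem limit_close (h : CFlow 𝔽 Λ Es Fs φ A) (hΛ : IsCompact Λ) {T : ℝ} (hT : 0 < T)
    {G H : M → Bil E} (hG : Met 𝔽 Λ Es Fs G)
    (hH : ∀ x ∈ Λ, ∀ u v, Tendsto (fun n => seq φ A T G n x u v) atTop (𝓝 (H x u v)))
    {ε : ℝ} (hε0 : 0 < ε) (hε1 : ε < 1) :
    ∃ m₀, ∀ m, m₀ ≤ m → ∀ x ∈ Λ, Close ε (seq φ A T G m x) (H x) := by
  obtain ⟨m₀, h1⟩ := seq_cauchy h hΛ hT hG hε0 hε1
  refine ⟨m₀, fun m hm x hx u => ⟨?_, ?_⟩⟩
  · exact ge_of_tendsto (hH x hx u u) (by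
      filter_upwards [eventually_ge_atTop m] with n hn
      exact (h1 m hm n hn x hx u).1)
  · exact le_of_tendsto (hH x hx u u) (by
      filter_upwards [eventually_ge_atTop m] with n hn
      exact (h1 m hm n hn x hx u).2)

theorem limit_met (h : CFlow 𝔽 Λ Es Fs φ A) (hΛ : IsCompact Λ) {T : ℝ} (hT : 0 < T)
    {G H : M → Bil E} (hG : Met 𝔽 Λ Es Fs G)
    (hH : ∀ x ∈ Λ, ∀ u v, Tendsto (fun n => seq φ A T G n x u v) atTop (𝓝 (H x u v))) :
    Met 𝔽 Λ Es Fs H := by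
  have hmet := fun n => seq_met h.act T hG n
  have hpd : ∀ x ∈ Λ, PD (H x) := by
    intro x hx
    obtain ⟨m₀, h1⟩ := limit_close h hΛ hT hG hH (ε := 1 / 2) (by norm_num) (by norm_num)
    refine ⟨fun u v => ?_, fun u hu => ?_⟩
    · refine tendsto_nhds_unique (hH x hx u v) ((hH x hx v u).congr fun n => ?_)
      exact ((hmet n).pd x hx).symm v u
    · have := (h1 m₀ le_rfl x hx u).1
      have h2 := ((hmet m₀).pd x hx).pos u hu
      linarith
  refine ⟨hpd, fun x hx u hu v hv => ?_, ?_⟩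
  · refine tendsto_nhds_unique (hH x hx u v) (tendsto_const_nhds.congr fun n => ?_)
    exact ((hmet n).orth x hx u hu v hv).symm
  · intro x₀ hx₀ ε hε
    set δ : ℝ := min (ε / 8) (1 / 4) with hδ
    have hδ0 : 0 < δ := lt_min (by positivity) (by norm_num)
    have hδ1 : δ ≤ 1 / 4 := min_le_right _ _
    have hδε : 8 * δ ≤ ε := by have := min_le_left (ε / 8) (1 / 4); rw [← hδ] at this; linarith
    obtain ⟨m, h1⟩ := limit_close h hΛ hT hG hH hδ0 (by linarith)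
    filter_upwards [(hmet m).cont x₀ hx₀ δ hδ0, self_mem_nhdsWithin] with x h2 hx u
    obtain ⟨a1, a2⟩ := h2 u
    obtain ⟨b1, b2⟩ := h1 m le_rfl x hx (𝔽.S x₀ x u)
    obtain ⟨c1, c2⟩ := h1 m le_rfl x₀ hx₀ (𝔽.S x₀ x₀ u)
    have p0 := ((hmet m).pd x₀ hx₀).nonneg (𝔽.S x₀ x₀ u)
    have p1 := (hpd x₀ hx₀).nonneg (𝔽.S x₀ x₀ u)
    simp only [cpull_apply] at a1 a2 ⊢
    set g0 := seq φ A T G m x₀ (𝔽.S x₀ x₀ u) (𝔽.S x₀ x₀ u)
    set g1 := seq φ A T G m x (𝔽.S x₀ x u) (𝔽.S x₀ x u)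
    set H0 := H x₀ (𝔽.S x₀ x₀ u) (𝔽.S x₀ x₀ u)
    set H1 := H x (𝔽.S x₀ x u) (𝔽.S x₀ x u)
    -- (1-δ) g0 ≤ H0 ≤ (1+δ) g0, (1-δ) g0 ≤ g1 ≤ (1+δ) g0, (1-δ) g1 ≤ H1 ≤ (1+δ) g1
    have e1 : (1 - 4 * δ) * g0 ≤ H1 := by
      refine le_trans ?_ b1
      refine le_trans ?_ (mul_le_mul_of_nonneg_left a1 (by linarith : (0 : ℝ) ≤ 1 - δ))
      nlinarith [mul_nonneg hδ0.le p0, mul_nonneg (mul_nonneg hδ0.le hδ0.le) p0]
    have e2 : H1 ≤ (1 + 3 * δ) * g0 := by
      refine b2.trans ?_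
      refine (mul_le_mul_of_nonneg_left a2 (by linarith : (0 : ℝ) ≤ 1 + δ)).trans ?_
      nlinarith [mul_nonneg (mul_nonneg hδ0.le (by linarith : (0 : ℝ) ≤ 1 / 4 - δ)) p0,
        mul_nonneg hδ0.le p0]
    have e3 : g0 ≤ (1 + 2 * δ) * H0 := by
      refine le_trans ?_ (mul_le_mul_of_nonneg_left c1 (by linarith : (0 : ℝ) ≤ 1 + 2 * δ))
      nlinarith [mul_nonneg (mul_nonneg hδ0.le (by linarith : (0 : ℝ) ≤ 1 / 4 - δ)) p0,
        mul_nonneg hδ0.le p0]
    have e4 : (1 - δ) * H0 ≤ g0 := by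
      have := mul_le_mul_of_nonneg_left c2 (by linarith : (0 : ℝ) ≤ 1 - δ)
      nlinarith [mul_nonneg (mul_nonneg hδ0.le hδ0.le) p0]
    constructor
    · calc (1 - ε) * H0 ≤ (1 - 8 * δ) * H0 := by nlinarith
        _ ≤ (1 - 4 * δ) * ((1 - δ) * H0) := by
          nlinarith [mul_nonneg hδ0.le p1, mul_nonneg (mul_nonneg hδ0.le hδ0.le) p1]
        _ ≤ (1 - 4 * δ) * g0 := mul_le_mul_of_nonneg_left e4 (by linarith)
        _ ≤ H1 := e1
    · calc H1 ≤ (1 + 3 * δ) * g0 := e2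
        _ ≤ (1 + 3 * δ) * ((1 + 2 * δ) * H0) := mul_le_mul_of_nonneg_left e3 (by linarith)
        _ ≤ (1 + 8 * δ) * H0 := by
          nlinarith [mul_nonneg (mul_nonneg hδ0.le (by linarith : (0 : ℝ) ≤ 1 / 4 - δ)) p1,
            mul_nonneg hδ0.le p1]
        _ ≤ (1 + ε) * H0 := by nlinarith

/-- Continuity in time. -/
theorem tendsto_time (h : CFlow 𝔽 Λ Es Fs φ A) {H : M → Bil E} (hH : Met 𝔽 Λ Es Fs H) {x : M}
    (hx : x ∈ Λ) (t : ℝ) (u v : E) :
    Tendsto (fun s => H (φ s x) (A s x u) (A s x v)) (𝓝 t) (𝓝 (H (φ t x) (A t x u) (A t x v))) := by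
  have hpair : Tendsto (fun s : ℝ => (s, x)) (𝓝 t) (𝓝 (t, x)) := by
    rw [nhds_prod_eq]
    exact tendsto_id.prodMk tendsto_const_nhds
  have hq : ∀ w, Tendsto (fun s => H (φ s x) (A s x w) (A s x w)) (𝓝 t)
      (𝓝 (H (φ t x) (A t x w) (A t x w))) := by
    intro w
    obtain ⟨w', rfl⟩ := (𝔽.bijS_self x).2 w
    have hy : Tendsto (fun s => φ s x) (𝓝 t) (𝓝[Λ] (φ t x)) :=
      tendsto_nhdsWithin_of_tendsto_nhds_of_eventually_within _ ((h.tend t x hx).comp hpair)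
        (Eventually.of_forall fun s => h.act.maps s x hx)
    have hA := (h.Atend t x hx).comp hpair
    exact tendsto_of_close (P := cpull (A t x ∘L 𝔽.S x x) (H (φ t x)))
      (Q := fun s => cpull (A s x ∘L 𝔽.S x x) (H (φ s x))) (fun ε hε =>
      OCont.pull (x := fun _ : ℝ => x) hH.cont hH.pd (h.act.maps t x hx) hy hA
        (h.act.bij t x hx).1 hε) w'
  have h1 := ((hq (u + v)).sub (hq u)).sub (hq v)
  have h2 := h1.div_const 2
  have e : ∀ s, (H (φ s x) (A s x (u + v)) (A s x (u + v)) - H (φ s x) (A s x u) (A s x u) -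
      H (φ s x) (A s x v) (A s x v)) / 2 = H (φ s x) (A s x u) (A s x v) := by
    intro s
    rw [map_add]
    exact (polar (hH.pd _ (h.act.maps s x hx)).symm _ _).symm
  rw [e t] at h2
  exact h2.congr fun s => e s

end Q70.Ad
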