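import Pool.Agent.Q70.AdH

set_option autoImplicit false

/-! Adapted fields for flows: the final estimates. -/

open Module Set Filter Topology

namespace Q70.Ad

variable {M : Type*} [TopologicalSpace M] {E : Type*} [NormedAddCommGroup E] [NormedSpace ℝ E]
  [FiniteDimensional ℝ E] {𝔽 : Frames M E} {Λ : Set M} {Es Fs : M → Submodule ℝ E}
  {φ : ℝ → M → M} {A : ℝ → M → E →L[ℝ] E}

lemma sqrt_iter_rpow (m : ℕ) {c : ℝ} (hc : 0 < c) : Real.sqrt^[m] c = c ^ ((1 : ℝ) / 2 ^ m) := by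
  induction m with
  | zero => simp
  | succ m ih =>
    rw [Function.iterate_succ_apply', ih, Real.sqrt_eq_rpow, ← Real.rpow_mul hc.le]
    congr 1
    rw [pow_succ]; field_simp

lemma seq_props (h : Act 𝔽 Λ Es Fs φ A) {T : ℝ} {k : ℕ} {a b c : ℝ} (ha : 0 < a)
    (hb : 0 < b) (hc : 0 < c) {G : M → Bil E} (hG : Met 𝔽 Λ Es Fs G)
    (h1 : Vol Λ Fs φ A k a T G) (h2 : Con Λ Es φ A b T G) (h3 : Dom Λ Es Fs φ A c T G) (n : ℕ) :
    Vol Λ Fs φ A k (a ^ ((1 : ℝ) / 2 ^ n)) (T / 2 ^ n) (seq φ A T G n) ∧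
      Con Λ Es φ A (b ^ ((1 : ℝ) / 2 ^ n)) (T / 2 ^ n) (seq φ A T G n) ∧
      Dom Λ Es Fs φ A (c ^ ((1 : ℝ) / 2 ^ n)) (T / 2 ^ n) (seq φ A T G n) := by
  rw [← sqrt_iter_rpow n ha, ← sqrt_iter_rpow n hb, ← sqrt_iter_rpow n hc]
  induction n with
  | zero => simpa using ⟨h1, h2, h3⟩
  | succ n ih =>
    have e : T / 2 ^ n = T / 2 ^ (n + 1) + T / 2 ^ (n + 1) := by
      rw [pow_succ]; field_simp; ring
    rw [e] at ih
    have hm := seq_met h T hG n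
    rw [Function.iterate_succ_apply', Function.iterate_succ_apply', Function.iterate_succ_apply']
    exact ⟨ih.1.half hm h (sqrt_iter_pos n ha), ih.2.1.half hm h (sqrt_iter_pos n hb),
      ih.2.2.half hm h (sqrt_iter_pos n hc)⟩

/-- The properties of the fields `seq m` at dyadic times. -/
lemma seq_dyadic (h : Act 𝔽 Λ Es Fs φ A) {T : ℝ} {k : ℕ} {a b c : ℝ} (ha : 0 < a)
    (hb : 0 < b) (hc : 0 < c) {G : M → Bil E} (hG : Met 𝔽 Λ Es Fs G)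
    (h1 : Vol Λ Fs φ A k a T G) (h2 : Con Λ Es φ A b T G) (h3 : Dom Λ Es Fs φ A c T G)
    (j n m : ℕ) (hm : j ≤ m) :
    Vol Λ Fs φ A k (a ^ ((n : ℝ) / 2 ^ j)) (n * (T / 2 ^ j)) (seq φ A T G m) ∧
      Con Λ Es φ A (b ^ ((n : ℝ) / 2 ^ j)) (n * (T / 2 ^ j)) (seq φ A T G m) ∧
      Dom Λ Es Fs φ A (c ^ ((n : ℝ) / 2 ^ j)) (n * (T / 2 ^ j)) (seq φ A T G m) := by
  obtain ⟨i, rfl⟩ := Nat.exists_eq_add_of_le hm
  obtain ⟨k1, k2, k3⟩ := seq_props h ha hb hc hG h1 h2 h3 (j + i)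
  have e1 : (n : ℝ) * (T / 2 ^ j) = (n * 2 ^ i) • (T / 2 ^ (j + i)) := by
    rw [nsmul_eq_mul, pow_add]; push_cast; field_simp
  have e2 : ∀ z : ℝ, 0 < z → z ^ ((n : ℝ) / 2 ^ j) = (z ^ ((1 : ℝ) / 2 ^ (j + i))) ^ (n * 2 ^ i) := by
    intro z hz
    rw [← Real.rpow_mul_natCast hz.le]
    congr 1
    rw [pow_add]; push_cast; field_simp
  rw [e1, e2 a ha, e2 b hb, e2 c hc]
  exact ⟨k1.nsmul h (Real.rpow_nonneg ha.le _) _, k2.nsmul h (Real.rpow_nonneg hb.le _) _,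
    k3.nsmul h (seq_met h T hG _).pd (Real.rpow_nonneg hc.le _) _⟩

/-- `Vol` passes to the limit in the field. -/
lemma Vol.limit (h : Act 𝔽 Λ Es Fs φ A) {k : ℕ} {a t : ℝ} {g : ℕ → M → Bil E} {H : M → Bil E}
    (hH : ∀ x ∈ Λ, ∀ u v, Tendsto (fun n => g n x u v) atTop (𝓝 (H x u v)))
    (hV : ∀ᶠ m in atTop, Vol Λ Fs φ A k a t (g m)) : Vol Λ Fs φ A k a t H := by
  intro x hx v hv
  have l0 : Tendsto (fun m => gram (g m x) v) atTop (𝓝 (gram (H x) v)) :=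
    tendsto_gram (v := fun _ => v) (v₀ := v) fun i i' => hH x hx (v i) (v i')
  have l1 := l0.const_mul a
  have l2 : Tendsto (fun m => gram (g m (φ t x)) (fun i => A t x (v i))) atTop
      (𝓝 (gram (H (φ t x)) (fun i => A t x (v i)))) :=
    tendsto_gram (v := fun _ i => A t x (v i)) (v₀ := fun i => A t x (v i))
      fun i i' => hH _ (h.maps t x hx) (A t x (v i)) (A t x (v i'))
  refine le_of_tendsto_of_tendsto l1 l2 ?_
  filter_upwards [hV] with m hm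
  exact hm x hx v hv

lemma Con.limit (h : Act 𝔽 Λ Es Fs φ A) {a t : ℝ} {g : ℕ → M → Bil E} {H : M → Bil E}
    (hH : ∀ x ∈ Λ, ∀ u v, Tendsto (fun n => g n x u v) atTop (𝓝 (H x u v)))
    (hV : ∀ᶠ m in atTop, Con Λ Es φ A a t (g m)) : Con Λ Es φ A a t H := by
  intro x hx u hu
  have l1 := (hH x hx u u).const_mul a
  have l2 := hH _ (h.maps t x hx) (A t x u) (A t x u)
  refine le_of_tendsto_of_tendsto l2 l1 ?_
  filter_upwards [hV] with m hm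
  exact hm x hx u hu

lemma Dom.limit (h : Act 𝔽 Λ Es Fs φ A) {a t : ℝ} {g : ℕ → M → Bil E} {H : M → Bil E}
    (hH : ∀ x ∈ Λ, ∀ u v, Tendsto (fun n => g n x u v) atTop (𝓝 (H x u v)))
    (hV : ∀ᶠ m in atTop, Dom Λ Es Fs φ A a t (g m)) : Dom Λ Es Fs φ A a t H := by
  intro x hx u hu v hv
  have l1 := ((hH x hx u u).mul (hH _ (h.maps t x hx) (A t x v) (A t x v))).const_mul a
  have l2 := (hH _ (h.maps t x hx) (A t x u) (A t x u)).mul (hH x hx v v)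
  refine le_of_tendsto_of_tendsto l2 l1 ?_
  filter_upwards [hV] with m hm
  exact hm x hx u hu v hv

lemma Vol.limit_time (h : CFlow 𝔽 Λ Es Fs φ A) {k : ℕ} {H : M → Bil E} (hmet : Met 𝔽 Λ Es Fs H)
    {t a : ℝ} {s α : ℕ → ℝ} (hs : Tendsto s atTop (𝓝 t)) (hα : Tendsto α atTop (𝓝 a))
    (hV : ∀ n, Vol Λ Fs φ A k (α n) (s n) H) : Vol Λ Fs φ A k a t H := by
  intro x hx v hv
  have l1 := hα.mul_const (gram (H x) v)
  have l2 : Tendsto (fun s => gram (H (φ s x)) (fun i => A s x (v i))) (𝓝 t)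
      (𝓝 (gram (H (φ t x)) (fun i => A t x (v i)))) :=
    tendsto_gram (P := fun s => H (φ s x)) (v := fun s i => A s x (v i))
      (v₀ := fun i => A t x (v i)) fun i i' => tendsto_time h hmet hx t (v i) (v i')
  exact le_of_tendsto_of_tendsto' l1 (l2.comp hs) fun j => hV j x hx v hv

lemma Con.limit_time (h : CFlow 𝔽 Λ Es Fs φ A) {H : M → Bil E} (hmet : Met 𝔽 Λ Es Fs H)
    {t a : ℝ} {s α : ℕ → ℝ} (hs : Tendsto s atTop (𝓝 t)) (hα : Tendsto α atTop (𝓝 a))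
    (hV : ∀ n, Con Λ Es φ A (α n) (s n) H) : Con Λ Es φ A a t H := by
  intro x hx u hu
  have l1 := hα.mul_const (H x u u)
  have l2 := (tendsto_time h hmet hx t u u).comp hs
  exact le_of_tendsto_of_tendsto' l2 l1 fun j => hV j x hx u hu

lemma Dom.limit_time (h : CFlow 𝔽 Λ Es Fs φ A) {H : M → Bil E} (hmet : Met 𝔽 Λ Es Fs H)
    {t a : ℝ} {s α : ℕ → ℝ} (hs : Tendsto s atTop (𝓝 t)) (hα : Tendsto α atTop (𝓝 a))
    (hV : ∀ n, Dom Λ Es Fs φ A (α n) (s n) H) : Dom Λ Es Fs φ A a t H := by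
  intro x hx u hu v hv
  have l1 := hα.mul (((tendsto_time h hmet hx t v v).comp hs).const_mul (H x u u))
  have l2 := ((tendsto_time h hmet hx t u u).comp hs).mul_const (H x v v)
  exact le_of_tendsto_of_tendsto' l2 l1 fun j => hV j x hx u hu v hv

/-- **Adapted fields for flows.** -/
theorem flow_adapt (h : CFlow 𝔽 Λ Es Fs φ A) (hΛ : IsCompact Λ) {T : ℝ} (hT : 0 < T) {k : ℕ}
    {a b c : ℝ} (ha : 0 < a) (hb : 0 < b) (hc : 0 < c) {G : M → Bil E} (hG : Met 𝔽 Λ Es Fs G)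
    (h1 : Vol Λ Fs φ A k a T G) (h2 : Con Λ Es φ A b T G) (h3 : Dom Λ Es Fs φ A c T G) :
    ∃ H : M → Bil E, Met 𝔽 Λ Es Fs H ∧ ∀ t : ℝ, 0 ≤ t →
      Vol Λ Fs φ A k (a ^ (t / T)) t H ∧ Con Λ Es φ A (b ^ (t / T)) t H ∧
        Dom Λ Es Fs φ A (c ^ (t / T)) t H := by
  obtain ⟨H, hH⟩ := exists_limit h hΛ hT hG
  have hmet := limit_met h hΛ hT hG hH
  -- dyadic times
  have hdy : ∀ j n : ℕ,
      Vol Λ Fs φ A k (a ^ ((n : ℝ) / 2 ^ j)) (n * (T / 2 ^ j)) H ∧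
      Con Λ Es φ A (b ^ ((n : ℝ) / 2 ^ j)) (n * (T / 2 ^ j)) H ∧
      Dom Λ Es Fs φ A (c ^ ((n : ℝ) / 2 ^ j)) (n * (T / 2 ^ j)) H := by
    intro j n
    have hs := fun m hm => seq_dyadic h.act ha hb hc hG h1 h2 h3 j n m hm
    refine ⟨Vol.limit h.act hH ?_, Con.limit h.act hH ?_, Dom.limit h.act hH ?_⟩
    · filter_upwards [eventually_ge_atTop j] with m hm using (hs m hm).1
    · filter_upwards [eventually_ge_atTop j] with m hm using (hs m hm).2.1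
    · filter_upwards [eventually_ge_atTop j] with m hm using (hs m hm).2.2
  refine ⟨H, hmet, fun t ht => ?_⟩
  -- dyadic approximation
  have hpow : Tendsto (fun j : ℕ => (2 : ℝ) ^ j) atTop atTop :=
    tendsto_pow_atTop_atTop_of_one_lt one_lt_two
  have hd : Tendsto (fun j : ℕ => ((⌊t / T * 2 ^ j⌋₊ : ℕ) : ℝ) / 2 ^ j) atTop (𝓝 (t / T)) :=
    (tendsto_nat_floor_mul_div_atTop (div_nonneg ht hT.le)).comp hpow
  have hd2 : Tendsto (fun j : ℕ => ((⌊t / T * 2 ^ j⌋₊ : ℕ) : ℝ) * (T / 2 ^ j)) atTop (𝓝 t) := by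
    have := hd.mul_const T
    rw [div_mul_cancel₀ _ hT.ne'] at this
    refine this.congr fun j => ?_
    ring
  have hrp : ∀ z : ℝ, 0 < z → Tendsto (fun j : ℕ => z ^ (((⌊t / T * 2 ^ j⌋₊ : ℕ) : ℝ) / 2 ^ j))
      atTop (𝓝 (z ^ (t / T))) := fun z hz => tendsto_const_nhds.rpow hd (Or.inl hz.ne')
  exact ⟨Vol.limit_time h hmet hd2 (hrp a ha) fun j => (hdy j _).1,
    Con.limit_time h hmet hd2 (hrp b hb) fun j => (hdy j _).2.1,
    Dom.limit_time h hmet hd2 (hrp c hc) fun j => (hdy j _).2.2⟩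

end Q70.Ad
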