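import Pool.Agent.Q70.AdI

set_option autoImplicit false

/-! The tangent bundle of a manifold: frames, coordinates of bilinear forms. -/

open Module Set Filter Topology Bundle Manifold ContinuousLinearMap
open scoped ContDiff

namespace Q70.Ad

variable {E : Type*} [NormedAddCommGroup E] [NormedSpace ℝ E]
  {M : Type*} [TopologicalSpace M] [ChartedSpace E M] [IsManifold 𝓘(ℝ, E) 1 M]

variable (E M) in
/-- The frames of the tangent bundle. -/
noncomputable def tframes : Frames M E where
  S x₀ x := (trivializationAt E (TangentSpace 𝓘(ℝ, E) : M → Type _) x₀).symmL ℝ x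
  L x₀ x := (trivializationAt E (TangentSpace 𝓘(ℝ, E) : M → Type _) x₀).continuousLinearMapAt ℝ x
  LS x₀ := by
    filter_upwards [(trivializationAt E (TangentSpace 𝓘(ℝ, E) : M → Type _) x₀).open_baseSet.mem_nhds
      (mem_baseSet_trivializationAt E _ x₀)] with x hx u
    exact Trivialization.continuousLinearMapAt_symmL _ hx u
  SL x₀ := by
    filter_upwards [(trivializationAt E (TangentSpace 𝓘(ℝ, E) : M → Type _) x₀).open_baseSet.mem_nhds
      (mem_baseSet_trivializationAt E _ x₀)] with x hx u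
    exact Trivialization.symmL_continuousLinearMapAt _ hx u

/-- The bundle of bilinear forms. -/
abbrev BF (E : Type*) [NormedAddCommGroup E] [NormedSpace ℝ E] (M : Type*) [TopologicalSpace M]
    [ChartedSpace E M] [IsManifold 𝓘(ℝ, E) 1 M] (x : M) :=
  TangentSpace 𝓘(ℝ, E) x →L[ℝ] TangentSpace 𝓘(ℝ, E) x →L[ℝ] ℝ

lemma coord_eq (x₀ x : M) (hx : x ∈ (chartAt E x₀).source) (q : BF E M x) (u v : E) :
    (trivializationAt (E →L[ℝ] E →L[ℝ] ℝ) (BF E M) x₀ ⟨x, q⟩).2 u v =
      q ((tframes E M).S x₀ x u) ((tframes E M).S x₀ x v) := by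
  rw [hom_trivializationAt_apply]
  change inCoordinates E (TangentSpace 𝓘(ℝ, E)) (E →L[ℝ] ℝ)
    (fun x => TangentSpace 𝓘(ℝ, E) x →L[ℝ] ℝ) x₀ x x₀ x q u v = _
  have hb : x ∈ (trivializationAt E (TangentSpace 𝓘(ℝ, E) : M → Type _) x₀).baseSet := hx
  rw [inCoordinates_apply_eq₂ hb hb (Set.mem_univ _)]
  have e : ∀ w : E, (tframes E M).S x₀ x w =
      (trivializationAt E (TangentSpace 𝓘(ℝ, E) : M → Type _) x₀).symm x w :=
    fun w => Trivialization.symmL_apply _ hb w
  simp only [Trivial.fiberBundle_trivializationAt', Trivial.linearMapAt_trivialization,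
    LinearMap.id_coe, id_eq]
  rw [e, e]

end Q70.Ad
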