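import Pool.Agent.Q70.AdJ

set_option autoImplicit false

/-! Riemannian metrics close to, or equal to, a given field of forms on a closed set. -/

open Module Set Filter Topology Bundle Manifold
open scoped ContDiff

namespace Q70.Ad

variable {E : Type*} [NormedAddCommGroup E] [NormedSpace ℝ E] [FiniteDimensional ℝ E]
  {M : Type*} [TopologicalSpace M] [ChartedSpace E M]

/-- The bilinear form of a continuous bilinear form. -/
noncomputable def toBil (q : E →L[ℝ] E →L[ℝ] ℝ) : Bil E :=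
  LinearMap.mk₂ ℝ (fun u v => q u v) (by simp) (by simp) (by simp) (by simp)

omit [FiniteDimensional ℝ E] in
@[simp] lemma toBil_apply (q : E →L[ℝ] E →L[ℝ] ℝ) (u v : E) : toBil q u v = q u v := rfl

section
variable [IsManifold 𝓘(ℝ, E) 1 M]

/-- A bilinear form on the tangent space, seen on the model space. -/
def asE {x : M} (q : BF E M x) : E →L[ℝ] E →L[ℝ] ℝ := q

/-- The field which reads `q` in the frame at `x₀`. -/
noncomputable def sloc (x₀ : M) (q : E →L[ℝ] E →L[ℝ] ℝ) (x : M) : BF E M x :=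
  (q.bilinearComp ((tframes E M).L x₀ x) ((tframes E M).L x₀ x) : E →L[ℝ] E →L[ℝ] ℝ)

omit [FiniteDimensional ℝ E] in
lemma sloc_apply (x₀ : M) (q : E →L[ℝ] E →L[ℝ] ℝ) (x : M) (u v : E) :
    (sloc x₀ q x : E →L[ℝ] E →L[ℝ] ℝ) u v = q ((tframes E M).L x₀ x u) ((tframes E M).L x₀ x v) :=
  rfl

omit [FiniteDimensional ℝ E] in
lemma frame_LS {x₀ x : M} (hx : x ∈ (chartAt E x₀).source) (u : E) :
    (tframes E M).L x₀ x ((tframes E M).S x₀ x u) = u := by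
  have hb : x ∈ (trivializationAt E (TangentSpace 𝓘(ℝ, E) : M → Type _) x₀).baseSet := hx
  exact Trivialization.continuousLinearMapAt_symmL _ hb u

omit [FiniteDimensional ℝ E] in
lemma frame_SL {x₀ x : M} (hx : x ∈ (chartAt E x₀).source) (u : E) :
    (tframes E M).S x₀ x ((tframes E M).L x₀ x u) = u := by
  have hb : x ∈ (trivializationAt E (TangentSpace 𝓘(ℝ, E) : M → Type _) x₀).baseSet := hx
  exact Trivialization.symmL_continuousLinearMapAt _ hb u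

end

omit [FiniteDimensional ℝ E] in
lemma sloc_contMDiffOn [IsManifold 𝓘(ℝ, E) ∞ M] {n : ℕ∞} (x₀ : M) {q : M → E →L[ℝ] E →L[ℝ] ℝ}
    {U : Set M} (hU : IsOpen U) (hUs : U ⊆ (chartAt E x₀).source)
    (hq : ContMDiffOn 𝓘(ℝ, E) 𝓘(ℝ, E →L[ℝ] E →L[ℝ] ℝ) n q U) :
    ContMDiffOn 𝓘(ℝ, E) (𝓘(ℝ, E).prod 𝓘(ℝ, E →L[ℝ] E →L[ℝ] ℝ)) n
      (fun x => TotalSpace.mk' (E →L[ℝ] E →L[ℝ] ℝ) (E := BF E M) x (sloc x₀ (q x) x)) U := by
  have hU' : U ⊆ (trivializationAt (E →L[ℝ] E →L[ℝ] ℝ) (BF E M) x₀).baseSet := by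
    intro x hx
    have := hUs hx
    simpa using this
  rw [(trivializationAt (E →L[ℝ] E →L[ℝ] ℝ) (BF E M) x₀).contMDiffOn_section_iff hU hU']
  refine hq.congr fun x hx => ?_
  ext u v
  rw [coord_eq x₀ x (hUs hx)]
  exact (sloc_apply x₀ (q x) x _ _).trans (by rw [frame_LS (hUs hx), frame_LS (hUs hx)])

omit [ChartedSpace E M] [TopologicalSpace M] in
lemma isVonNBounded_of_pd {q : E →L[ℝ] E →L[ℝ] ℝ} (hq : PD (toBil q)) :
    Bornology.IsVonNBounded ℝ {v : E | q v v < 1} := by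
  rw [NormedSpace.isVonNBounded_iff, isBounded_iff_forall_norm_le]
  obtain ⟨b, -, hb, -⟩ := exists_diag hq hq.symm
  refine ⟨∑ i, ‖b i‖, fun v hv => ?_⟩
  have h1 : q v v = ∑ i, (b.repr v i) ^ 2 := by
    have := hb.apply v v
    rw [toBil_apply] at this
    rw [this]
    exact Finset.sum_congr rfl fun i _ => by ring
  have h2 : ∀ i, |b.repr v i| ≤ 1 := by
    intro i
    have h3 : (b.repr v i) ^ 2 ≤ ∑ i, (b.repr v i) ^ 2 :=
      Finset.single_le_sum (f := fun i => (b.repr v i) ^ 2) (fun _ _ => sq_nonneg _)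
        (Finset.mem_univ i)
    have h4 : q v v < 1 := hv
    rw [h1] at h4
    rw [← sq_le_one_iff_abs_le_one]
    linarith
  conv_lhs => rw [← b.sum_repr v]
  refine (norm_sum_le _ _).trans (Finset.sum_le_sum fun i _ => ?_)
  rw [norm_smul, Real.norm_eq_abs]
  exact mul_le_of_le_one_left (norm_nonneg _) (h2 i)

/-- The metric given by a section of positive definite forms. -/
noncomputable def mkMetric [IsManifold 𝓘(ℝ, E) 1 M] {n : ℕ∞} (s : ∀ x : M, BF E M x)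
    (hs : ContMDiff 𝓘(ℝ, E) (𝓘(ℝ, E).prod 𝓘(ℝ, E →L[ℝ] E →L[ℝ] ℝ)) n
      (fun x => TotalSpace.mk' (E →L[ℝ] E →L[ℝ] ℝ) x (s x)))
    (hpd : ∀ x, PD (toBil (asE (s x)))) :
    ContMDiffRiemannianMetric 𝓘(ℝ, E) n E (TangentSpace 𝓘(ℝ, E) : M → Type _) where
  inner := s
  symm x v w := (hpd x).symm v w
  pos x v hv := (hpd x).pos v hv
  isVonNBounded x := isVonNBounded_of_pd (E := E) (q := asE (s x)) (hpd x)
  contMDiff := hs

variable [IsManifold 𝓘(ℝ, E) ∞ M] [T2Space M] [SigmaCompactSpace M]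

/-- A metric from local data in convex sets of positive definite forms. -/
theorem exists_metric_of_local (n : ℕ∞) (t : ∀ x : M, Set (BF E M x))
    (ht : ∀ x, Convex ℝ (t x)) (htpd : ∀ x, ∀ q ∈ t x, PD (toBil (asE q)))
    (hloc : ∀ x₀ : M, ∃ (q : M → E →L[ℝ] E →L[ℝ] ℝ) (U : Set M), IsOpen U ∧ x₀ ∈ U ∧
      U ⊆ (chartAt E x₀).source ∧ ContMDiffOn 𝓘(ℝ, E) 𝓘(ℝ, E →L[ℝ] E →L[ℝ] ℝ) n q U ∧
      ∀ x ∈ U, sloc x₀ (q x) x ∈ t x) :
    ∃ g : ContMDiffRiemannianMetric 𝓘(ℝ, E) n E (TangentSpace 𝓘(ℝ, E) : M → Type _),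
      ∀ x, g.inner x ∈ t x := by
  obtain ⟨s, hs⟩ := exists_contMDiffSection_forall_mem_convex_of_local (n := n) 𝓘(ℝ, E)
    (F_fiber := E →L[ℝ] E →L[ℝ] ℝ) (BF E M) t ht (fun x₀ => by
      obtain ⟨q, U, hU, hx₀, hUs, hq, hmem⟩ := hloc x₀
      exact ⟨U, hU.mem_nhds hx₀, fun x => sloc x₀ (q x) x, sloc_contMDiffOn x₀ hU hUs hq, hmem⟩)
  exact ⟨mkMetric (fun x => s x) s.contMDiff (fun x => htpd x _ (hs x)), fun x => hs x⟩

end Q70.Ad
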