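import Pool.Agent.Q70.AdK

set_option autoImplicit false

/-! Smooth approximation and continuous extension of a field of positive definite forms. -/

open Module Set Filter Topology Bundle Manifold
open scoped ContDiff

namespace Q70.Ad

variable {E : Type*} [NormedAddCommGroup E] [NormedSpace ℝ E] [FiniteDimensional ℝ E]
  {M : Type*} [TopologicalSpace M] [ChartedSpace E M] [IsManifold 𝓘(ℝ, E) ∞ M]

/-- A positive definite form exists. -/
lemma exists_pd : ∃ P : Bil E, PD P := by
  let b := finBasis ℝ E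
  exact ⟨ofDiag b fun _ => 1, (ofDiag_diag b _).pd fun _ => one_pos⟩

lemma toBil_of (P : Bil E) : toBil P.toContinuousBilinearMap = P := by
  ext u v; rfl

lemma sloc_pd {x₀ x : M} (hx : x ∈ (chartAt E x₀).source) {q : E →L[ℝ] E →L[ℝ] ℝ}
    (hq : PD (toBil q)) : PD (toBil (asE (sloc x₀ q x))) := by
  refine ⟨fun u v => hq.symm _ _, fun u hu => hq.pos _ fun h0 => hu ?_⟩
  exact (frame_SL hx u).symm.trans ((congrArg ((tframes E M).S x₀ x) h0).trans (map_zero _))

lemma convex_pd (x : M) (R : Bil E → Prop)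
    (hR : ∀ P Q : Bil E, R P → R Q → ∀ a b : ℝ, 0 ≤ a → 0 ≤ b → a + b = 1 → R (a • P + b • Q)) :
    Convex ℝ {q : BF E M x | PD (toBil (asE q)) ∧ R (toBil (asE q))} := by
  intro q1 h1 q2 h2 a b ha hb hab
  have e : toBil (asE (a • q1 + b • q2)) = a • toBil (asE q1) + b • toBil (asE q2) := by
    ext u v; rfl
  refine ⟨?_, ?_⟩
  · rw [e]
    refine ⟨fun u v => ?_, fun u hu => ?_⟩
    · simp [h1.1.symm u v, h2.1.symm u v]
    · have p1 := h1.1.pos u hu
      have p2 := h2.1.pos u hu
      simp only [LinearMap.add_apply, LinearMap.smul_apply, smul_eq_mul]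
      rcases ha.eq_or_lt with h | h
      · have : b = 1 := by linarith
        subst this; rw [← h]; linarith
      · have := mul_pos h p1
        have := mul_nonneg hb p2.le
        linarith
  · rw [e]
    exact hR _ _ h1.2 h2.2 a b ha hb hab

variable [T2Space M] [SigmaCompactSpace M]

/-- **Smooth approximation.** -/
theorem exists_smooth_close {Λ : Set M} (hΛ : IsClosed Λ) {H : M → Bil E}
    (hpd : ∀ x ∈ Λ, PD (H x)) (hcont : OCont (tframes E M) Λ H) {ε : ℝ} (hε : 0 < ε) :
    ∃ g : ContMDiffRiemannianMetric 𝓘(ℝ, E) ∞ E (TangentSpace 𝓘(ℝ, E) : M → Type _),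
      ∀ x ∈ Λ, Close ε (H x) (toBil (asE (g.inner x))) := by
  obtain ⟨g, hg⟩ := exists_metric_of_local (⊤ : ℕ∞)
    (fun x : M => {q : BF E M x | PD (toBil (asE q)) ∧ (x ∈ Λ → Close ε (H x) (toBil (asE q)))})
    (fun x => convex_pd x (fun Q => x ∈ Λ → Close ε (H x) Q) (by
      intro P Q hP hQ a b ha hb hab hx u
      obtain ⟨p1, p2⟩ := hP hx u
      obtain ⟨q1, q2⟩ := hQ hx u
      simp only [LinearMap.add_apply, LinearMap.smul_apply, smul_eq_mul]
      have e1 : (1 - ε) * H x u u = a * ((1 - ε) * H x u u) + b * ((1 - ε) * H x u u) := by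
        rw [← add_mul, hab, one_mul]
      have e2 : (1 + ε) * H x u u = a * ((1 + ε) * H x u u) + b * ((1 + ε) * H x u u) := by
        rw [← add_mul, hab, one_mul]
      rw [e1, e2]
      exact ⟨add_le_add (mul_le_mul_of_nonneg_left p1 ha) (mul_le_mul_of_nonneg_left q1 hb),
        add_le_add (mul_le_mul_of_nonneg_left p2 ha) (mul_le_mul_of_nonneg_left q2 hb)⟩))
    (fun x q hq => hq.1) (fun x₀ => by
      by_cases hx₀ : x₀ ∈ Λ
      · set δ : ℝ := min (ε / 2) (1 / 2) with hδ
        have hδ0 : 0 < δ := lt_min (by positivity) (by norm_num)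
        have hδ1 : δ ≤ 1 / 2 := min_le_right _ _
        have hδε : 2 * δ ≤ ε := by
          have := min_le_left (ε / 2) (1 / 2); rw [← hδ] at this; linarith
        have h1 := hcont x₀ hx₀ δ hδ0
        set Q₀ := cpull ((tframes E M).S x₀ x₀) (H x₀) with hQ₀
        have hQpd : PD Q₀ := (hpd x₀ hx₀).cpull ((tframes E M).bijS_self x₀).1
        rw [eventually_nhdsWithin_iff] at h1
        obtain ⟨V, hV, hVo, hxV⟩ := eventually_nhds_iff.1 h1
        refine ⟨fun _ => Q₀.toContinuousBilinearMap, V ∩ (chartAt E x₀).source,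
          hVo.inter (chartAt E x₀).open_source, ⟨hxV, mem_chart_source E x₀⟩,
          inter_subset_right, contMDiffOn_const, fun x hx => ⟨?_, fun hxΛ w => ?_⟩⟩
        · exact sloc_pd hx.2 (by rw [toBil_of]; exact hQpd)
        · obtain ⟨a1, a2⟩ := hV x hx.1 hxΛ ((tframes E M).L x₀ x w)
          have e3 : cpull ((tframes E M).S x₀ x) (H x) ((tframes E M).L x₀ x w)
              ((tframes E M).L x₀ x w) = H x w w := by rw [cpull_apply, frame_SL hx.2]
          rw [e3] at a1 a2
          have hp := hQpd.nonneg ((tframes E M).L x₀ x w)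
          change (1 - ε) * H x w w ≤ Q₀ ((tframes E M).L x₀ x w) ((tframes E M).L x₀ x w) ∧
            Q₀ ((tframes E M).L x₀ x w) ((tframes E M).L x₀ x w) ≤ (1 + ε) * H x w w
          set z := Q₀ ((tframes E M).L x₀ x w) ((tframes E M).L x₀ x w)
          have hH : 0 ≤ H x w w := le_trans (mul_nonneg (by linarith) hp) a1
          constructor
          · have e1 : (1 - ε) * H x w w ≤ (1 - 2 * δ) * H x w w :=
              mul_le_mul_of_nonneg_right (by linarith) hH
            have e2 : (1 - 2 * δ) * H x w w ≤ (1 - 2 * δ) * ((1 + δ) * z) :=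
              mul_le_mul_of_nonneg_left a2 (by linarith)
            nlinarith [mul_nonneg hδ0.le hp, mul_nonneg (mul_nonneg hδ0.le hδ0.le) hp]
          · have e1 : (1 + 2 * δ) * H x w w ≤ (1 + ε) * H x w w :=
              mul_le_mul_of_nonneg_right (by linarith) hH
            have e2 : (1 + 2 * δ) * ((1 - δ) * z) ≤ (1 + 2 * δ) * H x w w :=
              mul_le_mul_of_nonneg_left a1 (by linarith)
            nlinarith [mul_nonneg hδ0.le hp,
              mul_nonneg (mul_nonneg hδ0.le (by linarith : (0 : ℝ) ≤ 1 / 2 - δ)) hp]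
      · obtain ⟨P, hP⟩ := exists_pd (E := E)
        refine ⟨fun _ => P.toContinuousBilinearMap, Λᶜ ∩ (chartAt E x₀).source,
          hΛ.isOpen_compl.inter (chartAt E x₀).open_source, ⟨hx₀, mem_chart_source E x₀⟩,
          inter_subset_right, contMDiffOn_const, fun x hx => ⟨?_, fun hxΛ => absurd hxΛ hx.1⟩⟩
        exact sloc_pd hx.2 (by rw [toBil_of]; exact hP))
  exact ⟨g, fun x hx => (hg x).2 hx⟩

end Q70.Ad
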