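import Pool.Agent.Q70.AdL

set_option autoImplicit false

/-! The initial field of forms of a continuous splitting, and derivative cocycles in frames. -/

open Module Set Filter Topology Bundle Manifold
open scoped ContDiff

namespace Q70.Ad

variable {E : Type*} [NormedAddCommGroup E] [NormedSpace ℝ E]
  {M : Type*} [TopologicalSpace M] [ChartedSpace E M] [IsManifold 𝓘(ℝ, E) 1 M]

/-- The bundle of endomorphisms of the tangent bundle. -/
abbrev EndB (E : Type*) [NormedAddCommGroup E] [NormedSpace ℝ E] (M : Type*) [TopologicalSpace M]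
    [ChartedSpace E M] [IsManifold 𝓘(ℝ, E) 1 M] (x : M) :=
  TangentSpace 𝓘(ℝ, E) x →L[ℝ] TangentSpace 𝓘(ℝ, E) x

/-- The derivative of a `C¹` map in frames, with a parameter. -/
lemma tendsto_mfderiv_param {N : Type*} [TopologicalSpace N] {E' : Type*} [NormedAddCommGroup E']
    [NormedSpace ℝ E'] [ChartedSpace E' N] [IsManifold 𝓘(ℝ, E') 1 N] {f : N → M → M} {g : N → M}
    {n₀ : N} (hf : ContMDiffAt (𝓘(ℝ, E').prod 𝓘(ℝ, E)) 𝓘(ℝ, E) 1 (Function.uncurry f) (n₀, g n₀))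
    (hg : ContMDiffAt 𝓘(ℝ, E') 𝓘(ℝ, E) 0 g n₀) :
    Tendsto (fun n => (tframes E M).L (f n₀ (g n₀)) (f n (g n)) ∘L
      (mfderiv 𝓘(ℝ, E) 𝓘(ℝ, E) (f n) (g n) : E →L[ℝ] E) ∘L (tframes E M).S (g n₀) (g n)) (𝓝 n₀)
      (𝓝 ((tframes E M).L (f n₀ (g n₀)) (f n₀ (g n₀)) ∘L
      (mfderiv 𝓘(ℝ, E) 𝓘(ℝ, E) (f n₀) (g n₀) : E →L[ℝ] E) ∘L (tframes E M).S (g n₀) (g n₀))) := by
  have := (ContMDiffAt.mfderiv (m := 0) f g hf hg (by norm_num)).continuousAt
  exact this

lemma tendsto_mfderiv {f : M → M} (hf : ContMDiff 𝓘(ℝ, E) 𝓘(ℝ, E) 1 f) (x₀ : M) :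
    Tendsto (fun x => (tframes E M).L (f x₀) (f x) ∘L
      (mfderiv 𝓘(ℝ, E) 𝓘(ℝ, E) f x : E →L[ℝ] E) ∘L (tframes E M).S x₀ x) (𝓝 x₀)
      (𝓝 ((tframes E M).L (f x₀) (f x₀) ∘L
      (mfderiv 𝓘(ℝ, E) 𝓘(ℝ, E) f x₀ : E →L[ℝ] E) ∘L (tframes E M).S x₀ x₀)) := by
  have := (ContMDiffAt.mfderiv_const (m := 0) (hf x₀) (by norm_num)).continuousAt
  exact this

/-- An endomorphism of the tangent space, seen on the model space. -/
def asEnd {x : M} (p : EndB E M x) : E →L[ℝ] E := p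

/-- The form for which the splitting with projection `P` is orthogonal. -/
noncomputable def G0 (q : ∀ x : M, BF E M x) (P : ∀ x : M, EndB E M x) : M → Bil E := fun x =>
  cpull (asEnd (P x)) (toBil (asE (q x))) +
    cpull (ContinuousLinearMap.id ℝ E - asEnd (P x)) (toBil (asE (q x)))

lemma G0_apply (q : ∀ x : M, BF E M x) (P : ∀ x : M, EndB E M x) (x : M) (u v : E) :
    G0 q P x u v = asE (q x) (asEnd (P x) u) (asEnd (P x) v) +
      asE (q x) (u - asEnd (P x) u) (v - asEnd (P x) v) := rfl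

lemma coordEnd_eq (x₀ x : M) (p : EndB E M x) :
    (trivializationAt (E →L[ℝ] E) (EndB E M) x₀ ⟨x, p⟩).2 =
      (tframes E M).L x₀ x ∘L asEnd p ∘L (tframes E M).S x₀ x := rfl

/-- Continuity in the base point of the initial field. -/
lemma G0_cont [FiniteDimensional ℝ E] {Λ : Set M} {q : ∀ x : M, BF E M x}
    {P : ∀ x : M, EndB E M x}
    (hq : ContinuousOn (fun x => TotalSpace.mk' (E →L[ℝ] E →L[ℝ] ℝ) x (q x)) Λ)
    (hP : ContinuousOn (fun x => TotalSpace.mk' (E →L[ℝ] E) x (P x)) Λ)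
    (hpd : ∀ x ∈ Λ, PD (G0 q P x)) : OCont (tframes E M) Λ (G0 q P) := by
  intro x₀ hx₀ ε hε
  have h1 := ((FiberBundle.continuousWithinAt_totalSpace _ _).1 (hq x₀ hx₀)).2
  have h2 := ((FiberBundle.continuousWithinAt_totalSpace _ _).1 (hP x₀ hx₀)).2
  simp only [TotalSpace.mk'] at h1 h2
  set c : M → E →L[ℝ] E →L[ℝ] ℝ := fun x =>
    (trivializationAt (E →L[ℝ] E →L[ℝ] ℝ) (BF E M) x₀ ⟨x, q x⟩).2 with hc
  set p : M → E →L[ℝ] E := fun x =>
    (trivializationAt (E →L[ℝ] E) (EndB E M) x₀ ⟨x, P x⟩).2 with hp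
  have hsrc : ∀ᶠ x in 𝓝[Λ] x₀, x ∈ (chartAt E x₀).source :=
    mem_nhdsWithin_of_mem_nhds ((chartAt E x₀).open_source.mem_nhds (mem_chart_source E x₀))
  have key : ∀ x ∈ (chartAt E x₀).source, ∀ u v : E,
      cpull ((tframes E M).S x₀ x) (G0 q P x) u v =
        c x (p x u) (p x v) + c x (u - p x u) (v - p x v) := by
    intro x hx u v
    have e1 : ∀ w : E, (tframes E M).S x₀ x (p x w) = asEnd (P x) ((tframes E M).S x₀ x w) := by
      intro w
      exact frame_SL hx _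
    have e2 : ∀ w w' : E, c x w w' = asE (q x) ((tframes E M).S x₀ x w)
        ((tframes E M).S x₀ x w') := fun w w' => coord_eq x₀ x hx (q x) w w'
    have e3 : ∀ w : E, (tframes E M).S x₀ x (w - p x w) =
        (tframes E M).S x₀ x w - asEnd (P x) ((tframes E M).S x₀ x w) := fun w => by
      rw [map_sub, e1]
    rw [cpull_apply, G0_apply, e2, e2, e1, e1, e3, e3]
  refine tendsto_close ((hpd x₀ hx₀).cpull ((tframes E M).bijS_self x₀).1) (fun u v => ?_) hε
  rw [key x₀ (mem_chart_source E x₀)]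
  have h3 : ContinuousWithinAt c Λ x₀ := h1
  have h4 : ContinuousWithinAt p Λ x₀ := h2
  have h5 : ∀ w : E, ContinuousWithinAt (fun x => p x w) Λ x₀ := fun w =>
    h4.clm_apply continuousWithinAt_const
  have h6 : ContinuousWithinAt (fun x => c x (p x u) (p x v) + c x (u - p x u) (v - p x v)) Λ x₀ :=
    ((h3.clm_apply (h5 u)).clm_apply (h5 v)).add
      ((h3.clm_apply (continuousWithinAt_const.sub (h5 u))).clm_apply
        (continuousWithinAt_const.sub (h5 v)))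
  refine Tendsto.congr' ?_ h6
  filter_upwards [hsrc] with x hx
  exact (key x hx u v).symm

lemma G0_E {q : ∀ x : M, BF E M x} {P : ∀ x : M, EndB E M x} {x : M} {u v : E}
    (hu : asEnd (P x) u = u) (hv : asEnd (P x) v = v) : G0 q P x u v = asE (q x) u v := by
  rw [G0_apply, hu, hv]; simp

lemma G0_F {q : ∀ x : M, BF E M x} {P : ∀ x : M, EndB E M x} {x : M} {u v : E}
    (hu : asEnd (P x) u = 0) (hv : asEnd (P x) v = 0) : G0 q P x u v = asE (q x) u v := by
  rw [G0_apply, hu, hv]; simp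

lemma G0_pd {q : ∀ x : M, BF E M x} {P : ∀ x : M, EndB E M x} {x : M}
    (hq : PD (toBil (asE (q x)))) : PD (G0 q P x) := by
  refine ⟨fun u v => ?_, fun u hu => ?_⟩
  · rw [G0_apply, G0_apply]
    have h1 := hq.symm (asEnd (P x) u) (asEnd (P x) v)
    have h2 := hq.symm (u - asEnd (P x) u) (v - asEnd (P x) v)
    rw [toBil_apply, toBil_apply] at h1 h2
    rw [h1, h2]
  · rw [G0_apply]
    have h1 := hq.nonneg (asEnd (P x) u)
    have h2 := hq.nonneg (u - asEnd (P x) u)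
    rw [toBil_apply] at h1 h2
    by_cases h0 : asEnd (P x) u = 0
    · have := hq.pos (u - asEnd (P x) u) (by rw [h0, sub_zero]; exact hu)
      rw [toBil_apply] at this
      linarith
    · have := hq.pos _ h0
      rw [toBil_apply] at this
      linarith

/-- The initial field is an adapted field for the splitting. -/
lemma G0_met [FiniteDimensional ℝ E] {Λ : Set M} {Es Fs : M → Submodule ℝ E}
    {q : ∀ x : M, BF E M x} {P : ∀ x : M, EndB E M x}
    (hq : ContinuousOn (fun x => TotalSpace.mk' (E →L[ℝ] E →L[ℝ] ℝ) x (q x)) Λ)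
    (hP : ContinuousOn (fun x => TotalSpace.mk' (E →L[ℝ] E) x (P x)) Λ)
    (hpd : ∀ x, PD (toBil (asE (q x))))
    (hPE : ∀ x ∈ Λ, ∀ u ∈ Es x, asEnd (P x) u = u) (hPF : ∀ x ∈ Λ, ∀ u ∈ Fs x, asEnd (P x) u = 0) :
    Met (tframes E M) Λ Es Fs (G0 q P) := by
  refine ⟨fun x _ => G0_pd (hpd x), fun x hx u hu v hv => ?_,
    G0_cont hq hP fun x _ => G0_pd (hpd x)⟩
  rw [G0_apply, hPE x hx u hu, hPF x hx v hv]
  simp

end Q70.Ad
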