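import Pool.Agent.Q70.AdM

set_option autoImplicit false

/-! Discrete time: adapted smooth metrics. -/

open Module Set Filter Topology Bundle Manifold
open scoped ContDiff

namespace Q70.Ad

section weaken
variable {M : Type*} [TopologicalSpace M] {E : Type*} [NormedAddCommGroup E] [NormedSpace ℝ E]
  [FiniteDimensional ℝ E] {Λ : Set M} {Es Fs : M → Submodule ℝ E} {𝕋 : Type*}
  {φ : 𝕋 → M → M} {A : 𝕋 → M → E →L[ℝ] E}

lemma Vol.weaken {k : ℕ} {c c' : ℝ} {t : 𝕋} {G : M → Bil E} (hpd : ∀ x ∈ Λ, PD (G x))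
    (h : Vol Λ Fs φ A k c t G) (hc : c' ≤ c) : Vol Λ Fs φ A k c' t G := fun x hx v hv =>
  (mul_le_mul_of_nonneg_right hc (gram_nonneg (hpd x hx) v)).trans (h x hx v hv)

lemma Con.weaken {c c' : ℝ} {t : 𝕋} {G : M → Bil E} (hpd : ∀ x ∈ Λ, PD (G x))
    (h : Con Λ Es φ A c t G) (hc : c ≤ c') : Con Λ Es φ A c' t G := fun x hx u hu =>
  (h x hx u hu).trans (mul_le_mul_of_nonneg_right hc ((hpd x hx).nonneg u))

lemma Dom.weaken {c c' : ℝ} {t : 𝕋} {G : M → Bil E} (hpd : ∀ x ∈ Λ, PD (G x))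
    (hmaps : ∀ x ∈ Λ, φ t x ∈ Λ)
    (h : Dom Λ Es Fs φ A c t G) (hc : c ≤ c') : Dom Λ Es Fs φ A c' t G := fun x hx u hu v hv =>
  (h x hx u hu v hv).trans (mul_le_mul_of_nonneg_right hc
    (mul_nonneg ((hpd x hx).nonneg u) ((hpd _ (hmaps x hx)).nonneg _)))

end weaken

lemma exists_eps {a b c : ℝ} (ha : 1 < a) (hb : b < 1) (hc : c < 1) (k : ℕ) :
    ∃ ε : ℝ, 0 < ε ∧ ε < 1 ∧ 1 < a * ((1 - ε) / (1 + ε)) ^ k ∧ b * ((1 + ε) / (1 - ε)) < 1 ∧
      c * ((1 + ε) / (1 - ε)) ^ 2 < 1 := by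
  have e1 : ContinuousAt (fun ε : ℝ => (1 - ε) / (1 + ε)) 0 :=
    (continuousAt_const.sub continuousAt_id).div (continuousAt_const.add continuousAt_id)
      (by norm_num)
  have e2 : ContinuousAt (fun ε : ℝ => (1 + ε) / (1 - ε)) 0 :=
    (continuousAt_const.add continuousAt_id).div (continuousAt_const.sub continuousAt_id)
      (by norm_num)
  have h1 : ∀ᶠ ε in 𝓝 (0 : ℝ), 1 < a * ((1 - ε) / (1 + ε)) ^ k := by
    have : ContinuousAt (fun ε : ℝ => a * ((1 - ε) / (1 + ε)) ^ k) 0 :=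
      continuousAt_const.mul (e1.pow k)
    exact this.eventually (lt_mem_nhds (by simpa using ha))
  have h2 : ∀ᶠ ε in 𝓝 (0 : ℝ), b * ((1 + ε) / (1 - ε)) < 1 := by
    have : ContinuousAt (fun ε : ℝ => b * ((1 + ε) / (1 - ε))) 0 := continuousAt_const.mul e2
    exact this.eventually (gt_mem_nhds (by simpa using hb))
  have h3 : ∀ᶠ ε in 𝓝 (0 : ℝ), c * ((1 + ε) / (1 - ε)) ^ 2 < 1 := by
    have : ContinuousAt (fun ε : ℝ => c * ((1 + ε) / (1 - ε)) ^ 2) 0 :=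
      continuousAt_const.mul (e2.pow 2)
    exact this.eventually (gt_mem_nhds (by simpa using hc))
  obtain ⟨η, hη, h⟩ := Metric.eventually_nhds_iff.1 (h1.and (h2.and h3))
  refine ⟨min (η / 2) (1 / 2), lt_min (by positivity) (by norm_num),
    lt_of_le_of_lt (min_le_right _ _) (by norm_num), ?_⟩
  have := h (y := min (η / 2) (1 / 2)) (by
    rw [Real.dist_eq, sub_zero, abs_of_pos (lt_min (by positivity) (by norm_num))]
    exact lt_of_le_of_lt (min_le_left _ _) (by linarith))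
  exact ⟨this.1, this.2.1, this.2.2⟩

variable {E : Type*} [NormedAddCommGroup E] [NormedSpace ℝ E] [FiniteDimensional ℝ E]
  {M : Type*} [TopologicalSpace M] [ChartedSpace E M] [IsManifold 𝓘(ℝ, E) ∞ M]
  [T2Space M] [SigmaCompactSpace M]

/-- **Adapted metrics, discrete time.** -/
theorem discrete_adapt {Λ : Set M} (hΛ : IsClosed Λ) {Es Fs : M → Submodule ℝ E}
    {φ : ℕ → M → M} {A : ℕ → M → E →L[ℝ] E} (h : Act (tframes E M) Λ Es Fs φ A) {k : ℕ}
    {G : M → Bil E} (hG : Met (tframes E M) Λ Es Fs G) {C K l μ : ℝ} (hC : 0 < C) (hK : 0 < K)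
    (hl : 0 < l) (hμ0 : 0 < μ) (hμ1 : μ < 1)
    (h1 : ∀ n : ℕ, Vol Λ Fs φ A k ((C * Real.exp (l * n)) ^ 2) n G)
    (h2 : ∀ n : ℕ, Con Λ Es φ A ((K * μ ^ n) ^ 2) n G)
    (h3 : ∀ n : ℕ, Dom Λ Es Fs φ A ((K * μ ^ n) ^ 2) n G) :
    ∃ g : ContMDiffRiemannianMetric 𝓘(ℝ, E) ∞ E (TangentSpace 𝓘(ℝ, E) : M → Type _),
      ∃ κ : ℝ, 0 < κ ∧ ∀ n : ℕ,
        Vol Λ Fs φ A k (Real.exp (κ * n) ^ 2) n (fun x => toBil (asE (g.inner x))) ∧
        Con Λ Es φ A (Real.exp (-(κ * n)) ^ 2) n (fun x => toBil (asE (g.inner x))) ∧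
        Dom Λ Es Fs φ A (Real.exp (-(κ * n)) ^ 2) n (fun x => toBil (asE (g.inner x))) := by
  have hpow : Tendsto (fun m : ℕ => 2 ^ m) atTop atTop :=
    (pow_right_strictMono₀ (by norm_num)).tendsto_atTop
  have t1 : Tendsto (fun n : ℕ => C * Real.exp (l * n)) atTop atTop := by
    refine Tendsto.const_mul_atTop hC (Real.tendsto_exp_atTop.comp ?_)
    exact Tendsto.const_mul_atTop hl tendsto_natCast_atTop_atTop
  have t2 : Tendsto (fun n : ℕ => K * μ ^ n) atTop (𝓝 0) := by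
    have := (tendsto_pow_atTop_nhds_zero_of_lt_one hμ0.le hμ1).const_mul K
    simpa using this
  have s1 := (t1.comp hpow).eventually (eventually_gt_atTop 1)
  have s2 := (t2.comp hpow).eventually (gt_mem_nhds one_pos)
  obtain ⟨m, hm1, hm2⟩ := (s1.and s2).exists
  simp only [Function.comp_apply] at hm1 hm2
  set a := (C * Real.exp (l * ((2 ^ m : ℕ) : ℝ))) ^ 2 with ha
  set b := (K * μ ^ (2 ^ m)) ^ 2 with hb
  have ha1 : 1 < a := one_lt_pow₀ hm1 (by norm_num)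
  have hb0 : 0 < b := by positivity
  have hb1 : b < 1 := pow_lt_one₀ (by positivity) hm2 (by norm_num)
  have e : 2 ^ m • (1 : ℕ) = 2 ^ m := by simp
  obtain ⟨G', hG', v1, v2, v3⟩ := iter_half (k := k) h (1 : ℕ) m (lt_trans one_pos ha1) hb0 hb0 hG
    (by rw [e]; exact h1 (2 ^ m)) (by rw [e]; exact h2 (2 ^ m)) (by rw [e]; exact h3 (2 ^ m))
  set a' := Real.sqrt^[m] a with ha'
  set b' := Real.sqrt^[m] b with hb'
  have ha1' : 1 < a' := sqrt_iter_gt m ha1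
  have hb1' : b' < 1 := sqrt_iter_lt m hb1
  have hb0' : 0 < b' := sqrt_iter_pos m hb0
  obtain ⟨ε, hε0, hε1, p1, p2, p3⟩ := exists_eps ha1' hb1' hb1' k
  obtain ⟨g, hg⟩ := exists_smooth_close hΛ hG'.pd hG'.cont hε0
  have hgpd : ∀ x, PD (toBil (asE (g.inner x))) := fun x =>
    ⟨fun u v => g.symm x u v, fun u hu => g.pos x u hu⟩
  have w1 := v1.close h hG'.pd (fun x _ => hgpd x) hε0.le hε1 hg (by linarith)
  have w2 := v2.close h hG'.pd hε0.le hε1 hg hb0'.le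
  have w3 := v3.close h hG'.pd (fun x _ => hgpd x) hε0.le hε1 hg hb0'.le
  set α := a' * ((1 - ε) / (1 + ε)) ^ k with hα
  set β := b' * ((1 + ε) / (1 - ε)) with hβ
  set γ := b' * ((1 + ε) / (1 - ε)) ^ 2 with hγ
  have hq : 0 < (1 + ε) / (1 - ε) := div_pos (by linarith) (by linarith)
  have hβ0 : 0 < β := mul_pos hb0' hq
  have hγ0 : 0 < γ := mul_pos hb0' (pow_pos hq 2)
  set κ := min (Real.log α / 2) (min (-Real.log β / 2) (-Real.log γ / 2)) with hκ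
  have hlα : 0 < Real.log α := Real.log_pos p1
  have hlβ : Real.log β < 0 := Real.log_neg hβ0 p2
  have hlγ : Real.log γ < 0 := Real.log_neg hγ0 p3
  have hκ0 : 0 < κ := lt_min (by linarith) (lt_min (by linarith) (by linarith))
  have k1 : κ ≤ Real.log α / 2 := min_le_left _ _
  have k2 : κ ≤ -Real.log β / 2 := (min_le_right _ _).trans (min_le_left _ _)
  have k3 : κ ≤ -Real.log γ / 2 := (min_le_right _ _).trans (min_le_right _ _)
  refine ⟨g, κ, hκ0, fun n => ?_⟩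
  have hn : (0 : ℝ) ≤ n := Nat.cast_nonneg n
  have en : n • (1 : ℕ) = n := by simp
  have u1 := w1.nsmul h (by linarith) n
  have u2 := w2.nsmul h hβ0.le n
  have u3 := w3.nsmul h (fun x _ => hgpd x) hγ0.le n
  rw [en] at u1 u2 u3
  have ex : ∀ z : ℝ, Real.exp z ^ 2 = Real.exp (2 * z) := fun z => by
    rw [← Real.exp_nat_mul]; norm_num
  have el : ∀ z : ℝ, 0 < z → z ^ n = Real.exp (n * Real.log z) := fun z hz => by
    rw [mul_comm, Real.exp_mul, Real.exp_log hz, Real.rpow_natCast]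
  refine ⟨u1.weaken (fun x _ => hgpd x) ?_, u2.weaken (fun x _ => hgpd x) ?_,
    u3.weaken (fun x _ => hgpd x) (h.maps n) ?_⟩
  · rw [ex, el α (by linarith), Real.exp_le_exp]; nlinarith
  · rw [ex, el β hβ0, Real.exp_le_exp]; nlinarith
  · rw [ex, el γ hγ0, Real.exp_le_exp]; nlinarith

end Q70.Ad
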