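import Pool.Agent.Q70.AdN
import Mathlib.Analysis.Complex.Tietze

set_option autoImplicit false

/-! Continuous extension of a continuous field of positive definite forms. -/

open Module Set Filter Topology Bundle Manifold
open scoped ContDiff

namespace Q70.Ad

variable {E : Type*} [NormedAddCommGroup E] [NormedSpace ℝ E] [FiniteDimensional ℝ E]
  {M : Type*} [TopologicalSpace M] [ChartedSpace E M] [IsManifold 𝓘(ℝ, E) ∞ M]

omit [FiniteDimensional ℝ E] in
lemma frames_change {x₀ y₀ : M} (hy : y₀ ∈ (chartAt E x₀).source) :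
    Tendsto (fun x => (tframes E M).L y₀ x ∘L (tframes E M).S x₀ x) (𝓝 y₀)
      (𝓝 ((tframes E M).L y₀ y₀ ∘L (tframes E M).S x₀ y₀)) := by
  have h1 := continuousOn_coordChange ℝ
    (trivializationAt E (TangentSpace 𝓘(ℝ, E) : M → Type _) x₀)
    (trivializationAt E (TangentSpace 𝓘(ℝ, E) : M → Type _) y₀)
  set B := (trivializationAt E (TangentSpace 𝓘(ℝ, E) : M → Type _) x₀).baseSet ∩
    (trivializationAt E (TangentSpace 𝓘(ℝ, E) : M → Type _) y₀).baseSet with hB
  have hBo : IsOpen B := (trivializationAt E _ x₀).open_baseSet.inter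
    (trivializationAt E _ y₀).open_baseSet
  have hyB : y₀ ∈ B := ⟨hy, mem_baseSet_trivializationAt E _ y₀⟩
  have h2 := (h1 y₀ hyB).continuousAt (hBo.mem_nhds hyB)
  have e : ∀ x ∈ B, ((trivializationAt E (TangentSpace 𝓘(ℝ, E) : M → Type _) x₀).coordChangeL ℝ
      (trivializationAt E (TangentSpace 𝓘(ℝ, E) : M → Type _) y₀) x : E →L[ℝ] E) =
      (tframes E M).L y₀ x ∘L (tframes E M).S x₀ x := by
    intro x hx
    ext u
    rw [ContinuousLinearEquiv.coe_coe, Trivialization.coordChangeL_apply _ _ hx]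
    change _ = (trivializationAt E (TangentSpace 𝓘(ℝ, E) : M → Type _) y₀).continuousLinearMapAt ℝ
      x ((trivializationAt E (TangentSpace 𝓘(ℝ, E) : M → Type _) x₀).symmL ℝ x u)
    rw [Trivialization.continuousLinearMapAt_apply, Trivialization.linearMapAt_apply,
      if_pos hx.2, Trivialization.symmL_apply _ hx.1]
  have h3 : Tendsto (fun x => ((trivializationAt E (TangentSpace 𝓘(ℝ, E) : M → Type _)
      x₀).coordChangeL ℝ (trivializationAt E (TangentSpace 𝓘(ℝ, E) : M → Type _) y₀) x :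
      E →L[ℝ] E)) (𝓝 y₀) (𝓝 ((tframes E M).L y₀ y₀ ∘L (tframes E M).S x₀ y₀)) := by
    rw [← e y₀ hyB]
    exact h2
  refine h3.congr' ?_
  filter_upwards [hBo.mem_nhds hyB] with x hx using e x hx

/-- The coordinates of a continuous field are continuous. -/
lemma coord_continuousOn {Λ : Set M} {H : M → Bil E} (hpd : ∀ x ∈ Λ, PD (H x))
    (hcont : OCont (tframes E M) Λ H) {x₀ : M} {K : Set M} (hK : K ⊆ (chartAt E x₀).source) :
    ContinuousOn (fun x => (cpull ((tframes E M).S x₀ x) (H x)).toContinuousBilinearMap)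
      (Λ ∩ K) := by
  rw [continuousOn_clm_apply]
  intro u
  rw [continuousOn_clm_apply]
  intro v y₀ hy₀
  have hl : 𝓝[Λ ∩ K] y₀ ≤ 𝓝[Λ] y₀ := nhdsWithin_mono _ inter_subset_left
  have hS : Function.Injective ((tframes E M).S x₀ y₀) := by
    intro a b hab
    rw [← frame_LS (hK hy₀.2) a, hab, frame_LS (hK hy₀.2)]
  have h1 : ∀ ε : ℝ, 0 < ε → ∀ᶠ x in 𝓝[Λ ∩ K] y₀,
      Close ε (cpull ((tframes E M).S x₀ y₀) (H y₀)) (cpull ((tframes E M).S x₀ x) (H x)) := by
    intro ε hε
    exact OCont.pull' (y := fun x => x) (B := fun x => (tframes E M).S x₀ x) hcont hpd hy₀.1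
      (tendsto_id'.2 hl) ((frames_change (hK hy₀.2)).mono_left nhdsWithin_le_nhds) hS hε
  have h2 : ∀ w : E, Tendsto (fun x => cpull ((tframes E M).S x₀ x) (H x) w w) (𝓝[Λ ∩ K] y₀)
      (𝓝 (cpull ((tframes E M).S x₀ y₀) (H y₀) w w)) := fun w => tendsto_of_close h1 w
  have hsy : ∀ x ∈ Λ, ∀ a b, cpull ((tframes E M).S x₀ x) (H x) a b =
      cpull ((tframes E M).S x₀ x) (H x) b a := fun x hx a b => (hpd x hx).symm _ _
  have h3 := (((h2 (u + v)).sub (h2 u)).sub (h2 v)).div_const 2
  change Tendsto (fun x => cpull ((tframes E M).S x₀ x) (H x) u v) (𝓝[Λ ∩ K] y₀)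
    (𝓝 (cpull ((tframes E M).S x₀ y₀) (H y₀) u v))
  rw [polar (hsy y₀ hy₀.1) u v]
  refine h3.congr' ?_
  filter_upwards [self_mem_nhdsWithin] with x hx
  rw [polar (hsy x hx.1) u v]

variable [T2Space M] [SigmaCompactSpace M]

/-- **Continuous extension.** -/
theorem exists_extension {Λ : Set M} (hΛ : IsClosed Λ) {H : M → Bil E}
    (hpd : ∀ x ∈ Λ, PD (H x)) (hcont : OCont (tframes E M) Λ H) :
    ∃ g : ContinuousRiemannianMetric E (TangentSpace 𝓘(ℝ, E) : M → Type _),
      ∀ x ∈ Λ, toBil (asE (g.inner x)) = H x := by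
  haveI : LocallyCompactSpace M := Manifold.locallyCompact_of_finiteDimensional 𝓘(ℝ, E)
  haveI : NormalSpace M := inferInstance
  obtain ⟨g, hg⟩ := exists_metric_of_local (0 : ℕ∞)
    (fun x : M => {q : BF E M x | PD (toBil (asE q)) ∧ (x ∈ Λ → toBil (asE q) = H x)})
    (fun x => convex_pd x (fun Q => x ∈ Λ → Q = H x) (by
      intro P Q hP hQ a b ha hb hab hx
      rw [hP hx, hQ hx, ← add_smul, hab, one_smul]))
    (fun x q hq => hq.1) (fun x₀ => by
      by_cases hx₀ : x₀ ∈ Λ
      · obtain ⟨K, ⟨hKn, hKc⟩, hKs⟩ := (closed_nhds_basis x₀).mem_iff.1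
          ((chartAt E x₀).open_source.mem_nhds (mem_chart_source E x₀))
        simp only [id] at hKs
        have hco := coord_continuousOn hpd hcont hKs
        obtain ⟨q₁, hq₁⟩ := ContinuousMap.exists_restrict_eq (hΛ.inter hKc)
          ⟨_, hco.restrict⟩
        have hq₁' : ∀ x ∈ Λ ∩ K, q₁ x =
            (cpull ((tframes E M).S x₀ x) (H x)).toContinuousBilinearMap := fun x hx =>
          DFunLike.congr_fun hq₁ (⟨x, hx⟩ : ↥(Λ ∩ K))
        set q₂ : M → E →L[ℝ] E →L[ℝ] ℝ := fun x => (1 / 2 : ℝ) • (q₁ x + (q₁ x).flip) with hq₂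
        have hq₂c : Continuous q₂ := by
          rw [continuous_clm_apply]
          intro u
          rw [continuous_clm_apply]
          intro v
          have h1 : Continuous fun x => q₁ x := q₁.continuous
          change Continuous fun x => (1 / 2 : ℝ) * (q₁ x u v + q₁ x v u)
          fun_prop
        have hq₂e : ∀ x ∈ Λ ∩ K, q₂ x =
            (cpull ((tframes E M).S x₀ x) (H x)).toContinuousBilinearMap := by
          intro x hx
          ext u v
          have e1 : q₁ x u v = H x ((tframes E M).S x₀ x u) ((tframes E M).S x₀ x v) := by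
            rw [hq₁' x hx]; rfl
          have e2 : q₁ x v u = H x ((tframes E M).S x₀ x u) ((tframes E M).S x₀ x v) := by
            rw [hq₁' x hx]; exact (hpd x hx.1).symm _ _
          change (1 / 2 : ℝ) * (q₁ x u v + q₁ x v u) =
            H x ((tframes E M).S x₀ x u) ((tframes E M).S x₀ x v)
          rw [e1, e2]; ring
        have hq₂s : ∀ x u v, q₂ x u v = q₂ x v u := by
          intro x u v
          change (1 / 2 : ℝ) * (q₁ x u v + q₁ x v u) = (1 / 2 : ℝ) * (q₁ x v u + q₁ x u v)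
          ring
        have hx₀K : x₀ ∈ Λ ∩ K := ⟨hx₀, mem_of_mem_nhds hKn⟩
        have hpd₀ : PD (toBil (q₂ x₀)) := by
          rw [hq₂e x₀ hx₀K, toBil_of]
          exact (hpd x₀ hx₀).cpull ((tframes E M).bijS_self x₀).1
        have hev : ∀ᶠ x in 𝓝 x₀, Close (1 / 2) (toBil (q₂ x₀)) (toBil (q₂ x)) := by
          refine tendsto_close hpd₀ (fun u v => ?_) (by norm_num)
          have h1 : Continuous fun x => q₂ x u v := by fun_prop
          exact h1.tendsto x₀
        obtain ⟨W, hW, hWo, hxW⟩ := eventually_nhds_iff.1 (hev.and hKn)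
        refine ⟨q₂, W, hWo, hxW, fun x hx => hKs (hW x hx).2, ?_, fun x hx => ?_⟩
        · exact contMDiffOn_zero_iff.2 hq₂c.continuousOn
        · have hxs := hKs (hW x hx).2
          refine ⟨sloc_pd hxs ⟨fun u v => hq₂s x u v, fun u hu => ?_⟩, fun hxΛ => ?_⟩
          · have h1 := ((hW x hx).1 u).1
            have h2 := hpd₀.pos u hu
            linarith
          · have h1 := hq₂e x ⟨hxΛ, (hW x hx).2⟩
            ext u v
            change q₂ x ((tframes E M).L x₀ x u) ((tframes E M).L x₀ x v) = H x u v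
            rw [h1]
            change H x ((tframes E M).S x₀ x ((tframes E M).L x₀ x u))
              ((tframes E M).S x₀ x ((tframes E M).L x₀ x v)) = H x u v
            rw [frame_SL hxs, frame_SL hxs]
      · obtain ⟨P, hP⟩ := exists_pd (E := E)
        refine ⟨fun _ => P.toContinuousBilinearMap, Λᶜ ∩ (chartAt E x₀).source,
          hΛ.isOpen_compl.inter (chartAt E x₀).open_source, ⟨hx₀, mem_chart_source E x₀⟩,
          inter_subset_right, contMDiffOn_const, fun x hx => ⟨?_, fun hxΛ => absurd hxΛ hx.1⟩⟩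
        exact sloc_pd hx.2 (by rw [toBil_of]; exact hP))
  exact ⟨g.toContinuousRiemannianMetric, fun x hx => (hg x).2 hx⟩

end Q70.Ad
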