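import Pool.Agent.W764.FB.Comp
import Pool.Agent.H847R3.XpXqF
import Pool.Agent.H165R3.Birk

/-!
Ergodic measures for `x ↦ q x` on the circle: mean ergodic theorem for characters, equality or
mutual singularity, injectivity of `x ↦ p x` off a null set.
-/

set_option autoImplicit false

open MeasureTheory Filter Topology Set
open scoped ENNReal

namespace Q70.Af

abbrev T := UnitAddCircle

open Pool.Agent.W764.FB (es fc MeanErg hh)

lemma iter_smul (q k : ℕ) (x : T) : (fun x : T => q • x)^[k] x = (q ^ k) • x := by
  induction k with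
  | zero => simp
  | succ k ih => rw [Function.iterate_succ_apply', ih, smul_smul, pow_succ']

lemma meanErg {q : ℕ} {μ : Measure T} [IsProbabilityMeasure μ]
    (h : Ergodic (fun x : T => q • x) μ) : MeanErg q μ := by
  intro m
  have hcont : Continuous fun x : T => fourier m x := (fourier m).continuous
  have hb : ∀ x : T, ‖fourier m x‖ ≤ 1 := fun x => (Circle.norm_coe _).le
  have hre := Pool.Agent.H165R3.birkhoff h (fun x => (fourier m x).re)
    (Complex.continuous_re.comp hcont).measurable
    ⟨1, fun x => (Complex.abs_re_le_norm _).trans (hb x)⟩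
  have him := Pool.Agent.H165R3.birkhoff h (fun x => (fourier m x).im)
    (Complex.continuous_im.comp hcont).measurable
    ⟨1, fun x => (Complex.abs_im_le_norm _).trans (hb x)⟩
  have hint : Integrable (fun x : T => fourier m x) μ :=
    Integrable.of_bound hcont.aestronglyMeasurable 1 (Eventually.of_forall hb)
  have hfc : fc μ m = ((∫ x, (fourier m x).re ∂μ : ℝ) : ℂ) +
      ((∫ x, (fourier m x).im ∂μ : ℝ) : ℂ) * Complex.I :=
    (integral_re_add_im hint).symm
  have hae : ∀ᵐ x ∂μ, Tendsto (fun N : ℕ => ‖((N : ℂ))⁻¹ * es q m N x - fc μ m‖ ^ 2) atTop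
      (𝓝 0) := by
    filter_upwards [hre, him] with x h1 h2
    have h3 : Tendsto (fun N : ℕ => ((N : ℂ))⁻¹ * es q m N x) atTop (𝓝 (fc μ m)) := by
      rw [hfc]
      have h4 := ((Complex.continuous_ofReal.tendsto _).comp h1).add
        (((Complex.continuous_ofReal.tendsto _).comp h2).mul_const Complex.I)
      refine h4.congr fun N => ?_
      simp only [Function.comp_apply, iter_smul, es]
      push_cast
      rw [mul_assoc, ← mul_add, Finset.sum_mul, ← Finset.sum_add_distrib]
      congr 1
      refine Finset.sum_congr rfl fun i _ => ?_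
      exact Complex.re_add_im _
    have h5 := (h3.sub_const (fc μ m)).norm.pow 2
    simpa using h5
  have hdom := tendsto_integral_of_dominated_convergence (μ := μ) (fun _ => (4 : ℝ))
    (F := fun N : ℕ => fun x => ‖((N : ℂ))⁻¹ * es q m N x - fc μ m‖ ^ 2) (f := fun _ => (0 : ℝ))
    (fun N => ((((Pool.Agent.W764.FB.continuous_es q m N).const_mul _).sub
      continuous_const).norm.pow 2).aestronglyMeasurable) (integrable_const _)
    (fun N => Eventually.of_forall fun x => by
      rw [Real.norm_eq_abs, abs_of_nonneg (by positivity)]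
      have h1 := Pool.Agent.W764.FB.norm_av_le q μ m N x
      have h2 := norm_nonneg (((N : ℂ))⁻¹ * es q m N x - fc μ m)
      nlinarith) hae
  simpa using hdom

/-- ergodic measures are equal or mutually singular -/
lemma eq_or_sing {X : Type*} [MeasurableSpace X] {f : X → X} {μ ν : Measure X}
    [IsProbabilityMeasure μ] [IsProbabilityMeasure ν] (hμ : Ergodic f μ) (hν : Ergodic f ν) :
    μ = ν ∨ μ ⟂ₘ ν := by
  have hac := hμ.toMeasurePreserving.withDensity_rnDeriv hν.toMeasurePreserving
  have hle : ν.withDensity (μ.rnDeriv ν) ≤ μ := Measure.withDensity_rnDeriv_le μ ν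
  have hfin : IsFiniteMeasure (ν.withDensity (μ.rnDeriv ν)) := isFiniteMeasure_of_le μ hle
  obtain ⟨c, hc⟩ := hν.eq_smul_of_absolutelyContinuous hac
    (withDensity_absolutelyContinuous _ _)
  by_cases hc0 : c = 0
  · right
    have h0 : ν.withDensity (μ.rnDeriv ν) = 0 := by rw [hc, hc0, zero_smul]
    rw [Measure.haveLebesgueDecomposition_add μ ν, h0, add_zero]
    exact Measure.mutuallySingular_singularPart μ ν
  · left
    have h1 : ν ≪ μ := by
      have h2 : ν ≪ c • ν := Measure.AbsolutelyContinuous.rfl.smul_right hc0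
      rw [← hc] at h2
      exact h2.trans hle.absolutelyContinuous
    exact (hμ.eq_of_absolutelyContinuous hν.toMeasurePreserving h1).symm

end Q70.Af
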