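import Pool.Agent.Q70.AfA

/-!
Injectivity of the multiplications off null sets, and translations.
-/

set_option autoImplicit false

open MeasureTheory Filter Topology Set
open scoped ENNReal

namespace Q70.Af

open Pool.Agent.W764.FB (es fc MeanErg hh)

lemma meas_aff (n : ℤ) (t : T) : Measurable (fun x : T => n • x + t) :=
  ((continuous_zsmul n).add continuous_const).measurable

lemma meas_nsmul (n : ℕ) : Measurable (fun x : T => n • x) := (continuous_nsmul n).measurable

lemma meas_add (t : T) : Measurable (fun x : T => x + t) :=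
  (continuous_id.add continuous_const).measurable

/-- the `p`-torsion points -/
lemma torsion {p : ℕ} (hp : 0 < p) {z : T} (hz : p • z = 0) : ∃ k, k < p ∧ z = hh p 1 k := by
  obtain ⟨k, hk, hkz⟩ := (AddCircle.nsmul_eq_zero_iff hp).1 hz
  refine ⟨k, hk, ?_⟩
  rw [← hkz, hh, pow_one, mul_one]

lemma inj_one {p q : ℕ} (hp : p.Prime) (hq : 2 ≤ q) (hpq : ¬ p ∣ q) {μ : Measure T}
    [IsProbabilityMeasure μ] (hμp : MeasurePreserving (fun x : T => p • x) μ μ)
    (hμq : Ergodic (fun x : T => q • x) μ) (hne : μ ≠ volume) :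
    ∃ B : Set T, MeasurableSet B ∧ μ Bᶜ = 0 ∧ InjOn (fun x : T => p • x) B := by
  rcases Pool.Agent.W764.FB.dichotomy hp hq hpq μ hμp (meanErg hμq) with h | ⟨B, hB, hB0, hB1⟩
  · exact absurd h hne
  · refine ⟨B, hB, hB0, fun x hx y hy hxy => ?_⟩
    have h1 : p • (y - x) = 0 := by
      rw [nsmul_sub, sub_eq_zero]; exact hxy.symm
    obtain ⟨k, hk, hkz⟩ := torsion hp.pos h1
    rcases Nat.eq_zero_or_pos k with h0 | h0
    · rw [h0, Pool.Agent.W764.FB.hh_zero, sub_eq_zero] at hkz
      exact hkz.symm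
    · exact absurd (by rw [← hkz, add_sub_cancel]; exact hy) (hB1 x hx k h0 hk)

/-- compositions -/
lemma inj_comp {a b : ℕ} {μ : Measure T} (hb : MeasurePreserving (fun x : T => b • x) μ μ)
    (h1 : ∃ B : Set T, MeasurableSet B ∧ μ Bᶜ = 0 ∧ InjOn (fun x : T => a • x) B)
    (h2 : ∃ B : Set T, MeasurableSet B ∧ μ Bᶜ = 0 ∧ InjOn (fun x : T => b • x) B) :
    ∃ B : Set T, MeasurableSet B ∧ μ Bᶜ = 0 ∧ InjOn (fun x : T => (a * b) • x) B := by
  obtain ⟨A, hA, hA0, hA1⟩ := h1
  obtain ⟨B, hB, hB0, hB1⟩ := h2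
  refine ⟨B ∩ (fun x : T => b • x) ⁻¹' A, hB.inter (meas_nsmul b hA), ?_, ?_⟩
  · rw [compl_inter]
    refine measure_union_null hB0 ?_
    rw [← preimage_compl, hb.measure_preimage hA.compl.nullMeasurableSet, hA0]
  · rintro x ⟨hx, hx'⟩ y ⟨hy, hy'⟩ hxy
    simp only [mul_smul] at hxy
    exact hB1 hx hy (hA1 hx' hy' hxy)

lemma inj_pow {a : ℕ} {μ : Measure T} (ha : MeasurePreserving (fun x : T => a • x) μ μ)
    (h1 : ∃ B : Set T, MeasurableSet B ∧ μ Bᶜ = 0 ∧ InjOn (fun x : T => a • x) B) (k : ℕ) :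
    ∃ B : Set T, MeasurableSet B ∧ μ Bᶜ = 0 ∧ InjOn (fun x : T => (a ^ k) • x) B := by
  induction k with
  | zero => exact ⟨univ, MeasurableSet.univ, by simp, fun x _ y _ h => by simpa using h⟩
  | succ k ih =>
    rw [pow_succ]
    exact inj_comp ha ih h1

/-- a translation by a torsion point moves a measure to a singular one -/
lemma sing_of_inj {N : ℕ} {μ : Measure T} {w : T} (hw : w ≠ 0) (hN : N • w = 0)
    (h : ∃ B : Set T, MeasurableSet B ∧ μ Bᶜ = 0 ∧ InjOn (fun x : T => N • x) B) :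
    μ.map (fun x : T => x + w) ⟂ₘ μ := by
  obtain ⟨B, hB, hB0, hB1⟩ := h
  refine ⟨B, hB, ?_, hB0⟩
  rw [Measure.map_apply (meas_add w) hB]
  refine measure_mono_null (fun x hx => ?_) hB0
  intro hxB
  apply hw
  have h1 : N • (x + w) = N • x := by rw [nsmul_add, hN, add_zero]
  have h2 := hB1 (show x + w ∈ B from hx) hxB h1
  exact add_eq_left.1 h2

/-- measures with mutually singular images are mutually singular -/
lemma sing_of_map {X Y : Type*} [MeasurableSpace X] [MeasurableSpace Y] {g : X → Y}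
    (hg : Measurable g) {α β : Measure X} (h : α.map g ⟂ₘ β.map g) : α ⟂ₘ β := by
  obtain ⟨s, hs, h1, h2⟩ := h
  refine ⟨g ⁻¹' s, hg hs, ?_, ?_⟩
  · rwa [Measure.map_apply hg hs] at h1
  · rwa [Measure.map_apply hg hs.compl] at h2

lemma mp_pow {a : ℕ} {μ : Measure T} (ha : MeasurePreserving (fun x : T => a • x) μ μ) (k : ℕ) :
    MeasurePreserving (fun x : T => (a ^ k) • x) μ μ := by
  have h := ha.iterate k
  have e : (fun x : T => a • x)^[k] = fun x : T => (a ^ k) • x := by
    funext x; exact iter_smul a k x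
  rwa [e] at h

lemma mp_mul {a b : ℕ} {μ : Measure T} (ha : MeasurePreserving (fun x : T => a • x) μ μ)
    (hb : MeasurePreserving (fun x : T => b • x) μ μ) :
    MeasurePreserving (fun x : T => (a * b) • x) μ μ := by
  have h := ha.comp hb
  have e : ((fun x : T => a • x) ∘ fun x : T => b • x) = fun x : T => (a * b) • x := by
    funext x; simp [mul_smul]
  rwa [e] at h

/-- an affine map with `a t = t` intertwines multiplication by `a` -/
lemma semi {a : ℕ} (n : ℤ) {t : T} (ht : a • t = t) :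
    Function.Semiconj (fun x : T => n • x + t) (fun x : T => a • x) (fun x : T => a • x) := by
  intro x
  show n • (a • x) + t = a • (n • x + t)
  rw [nsmul_add, ht, smul_comm]

lemma erg_aff {a : ℕ} {μ : Measure T} (h : Ergodic (fun x : T => a • x) μ) (n : ℤ) {t : T}
    (ht : a • t = t) :
    Ergodic (fun x : T => a • x) (μ.map (fun x : T => n • x + t)) := by
  have hg : MeasurePreserving (fun x : T => n • x + t) μ (μ.map (fun x : T => n • x + t)) :=
    (meas_aff n t).measurePreserving μ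
  exact hg.ergodic_of_ergodic_semiconj h (meas_nsmul a) (semi n ht)

lemma mp_aff {a : ℕ} {μ : Measure T} (h : MeasurePreserving (fun x : T => a • x) μ μ) (n : ℤ)
    {t : T} (ht : a • t = t) :
    MeasurePreserving (fun x : T => a • x) (μ.map (fun x : T => n • x + t))
      (μ.map (fun x : T => n • x + t)) := by
  refine ⟨meas_nsmul a, ?_⟩
  rw [Measure.map_map (meas_nsmul a) (meas_aff n t), ← (semi n ht).comp_eq,
    ← Measure.map_map (meas_aff n t) (meas_nsmul a), h.map_eq]

end Q70.Af
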