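import Pool.Agent.Q70.AfB
import Pool.Agent.W764.SH.Vol

/-!
Affine images of ergodic `×p`, `×q` invariant measures are equal or mutually singular.
-/

set_option autoImplicit false

open MeasureTheory Filter Topology Set
open scoped ENNReal

namespace Q70.Af

open Pool.Agent.W764.FB (es fc MeanErg hh)

/-- `μ` is ergodic for `x ↦ p ^ k x`, `k ≥ 1`, and for `x ↦ q x` -/
structure TE (p q : ℕ) (μ : Measure T) : Prop where
  tot : ∀ k : ℕ, 1 ≤ k → Ergodic (fun x : T => (p ^ k) • x) μ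
  erg : Ergodic (fun x : T => q • x) μ

lemma TE.one {p q : ℕ} {μ : Measure T} (h : TE p q μ) : Ergodic (fun x : T => p • x) μ := by
  simpa using h.tot 1 le_rfl

lemma vol_aff {n : ℤ} (hn : n ≠ 0) (t : T) :
    (volume : Measure T).map (fun x : T => n • x + t) = volume := by
  have h1 := (Pool.Agent.H847R3.XpXq.mp_vol hn).map_eq
  have e : (fun x : T => n • x + t) = (fun x : T => x + t) ∘ fun x : T => n • x := rfl
  rw [e, ← Measure.map_map (meas_add t) (continuous_zsmul n).measurable, h1]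
  exact (measurePreserving_add_right volume t).map_eq

lemma sing_vol {p : ℕ} (hp : 2 ≤ p) {μ : Measure T} [IsProbabilityMeasure μ]
    (h : Ergodic (fun x : T => p • x) μ) (hne : μ ≠ volume) : μ ⟂ₘ (volume : Measure T) :=
  (eq_or_sing h (AddCircle.ergodic_nsmul (by omega : 1 < p))).resolve_left hne

lemma irr_rep {t : T} (ht : ¬ IsOfFinAddOrder t) : ∃ θ : ℝ, Irrational θ ∧ (θ : T) = t := by
  obtain ⟨θ, rfl⟩ := QuotientAddGroup.mk_surjective t
  refine ⟨θ, ?_, rfl⟩
  rintro ⟨r, rfl⟩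
  apply ht
  rw [isOfFinAddOrder_iff_nsmul_eq_zero]
  refine ⟨r.den, r.den_pos, ?_⟩
  show r.den • (((r : ℝ)) : T) = 0
  rw [← AddCircle.coe_nsmul, AddCircle.coe_eq_zero_iff]
  refine ⟨r.num, ?_⟩
  rw [zsmul_eq_mul, mul_one, nsmul_eq_mul]
  have : (r.num : ℚ) = (r.den : ℚ) * r := by rw [mul_comm, Rat.mul_den_eq_num]
  exact_mod_cast this

/-- the case of a translation of infinite order -/
lemma case_inf {p q : ℕ} (hp : p.Prime) (hq : q.Prime) (hpq : p ≠ q) {μ ν : Measure T}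
    [IsProbabilityMeasure μ] [IsProbabilityMeasure ν] (hμ : TE p q μ) (hν : TE p q ν) {n : ℤ}
    (hn : n ≠ 0) {t : T} (ht : ¬ IsOfFinAddOrder t) :
    μ.map (fun x : T => n • x + t) = ν ∨ μ.map (fun x : T => n • x + t) ⟂ₘ ν := by
  by_cases hvol : μ = volume ∧ ν = volume
  · left
    rw [hvol.1, hvol.2]
    exact vol_aff hn t
  · right
    have hsing : μ ⟂ₘ (volume : Measure T) ∨ ν ⟂ₘ (volume : Measure T) := by
      by_cases h : μ = volume
      · exact Or.inr (sing_vol hp.two_le hν.one fun h' => hvol ⟨h, h'⟩)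
      · exact Or.inl (sing_vol hp.two_le hμ.one h)
    obtain ⟨θ, hθ, hθt⟩ := irr_rep ht
    have hco : Nat.Coprime p q := (Nat.coprime_primes hp hq).2 hpq
    refine Pool.Agent.H847R3.XpXq.maps hp.two_le hq.two_le
      (Pool.Agent.W764.SH.irr_of_coprime hp.two_le hq.two_le hco) hμ.one.toMeasurePreserving
      hμ.erg.toMeasurePreserving hν.one.toMeasurePreserving hν.erg.toMeasurePreserving hsing
      (C := {(θ, fun _ => 1)}) (countable_singleton _) ?_ (meas_aff n t)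
      (Eventually.of_forall fun x => ⟨n, 1, hn, one_ne_zero, _, mem_singleton _, ?_⟩)
    · rintro c rfl
      exact ⟨hθ, fun k => ⟨0, 0, by simp⟩⟩
    · have e : (1 : ℕ) • ((1 : ℤ) • (n • x + t) - n • x) = (θ : T) := by
        rw [hθt, one_smul, one_smul, add_sub_cancel_left]
      show Tendsto (fun _ : ℕ => (1 : ℕ) • ((1 : ℤ) • (n • x + t) - n • x)) atTop (𝓝 (θ : T))
      rw [e]
      exact tendsto_const_nhds

lemma smul_fix {s M p : ℕ} {u : T} (hu : s • u = 0) (hM : p ^ M ≡ 1 [MOD s]) : (p ^ M) • u = u := by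
  have h1 : ((p ^ M : ℕ) : ℤ) ≡ 1 [ZMOD s] := by exact_mod_cast (Int.natCast_modEq_iff.2 hM)
  obtain ⟨c, hc⟩ := h1.symm.dvd
  have h2 : ((p ^ M : ℕ) : ℤ) = 1 + c * s := by rw [mul_comm]; linarith
  rw [← natCast_zsmul, h2, add_zsmul, one_zsmul, mul_zsmul, natCast_zsmul, hu, smul_zero, add_zero]

/-- splitting a torsion point -/
lemma split {p q : ℕ} (hp : p.Prime) (hq : q.Prime) {t : T} (ht : IsOfFinAddOrder t) :
    ∃ (a b s : ℕ) (u w : T), t = u + w ∧ 0 < s ∧ ¬ p ∣ s ∧ ¬ q ∣ s ∧ s • u = 0 ∧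
      (p ^ a * q ^ b) • w = 0 := by
  have hs := ht.addOrderOf_pos
  obtain ⟨a, s1, hs1, hs2⟩ := Nat.exists_eq_pow_mul_and_not_dvd hs.ne' p hp.ne_one
  have hs1' : s1 ≠ 0 := by rintro rfl; simp at hs1
  obtain ⟨b, s0, hs3, hs4⟩ := Nat.exists_eq_pow_mul_and_not_dvd hs1' q hq.ne_one
  have hs0 : s0 ≠ 0 := by rintro rfl; simp at hs3
  have hps0 : ¬ p ∣ s0 := fun h => hs1 (hs4 ▸ h.mul_left _)
  have hco : IsCoprime ((p ^ a * q ^ b : ℕ) : ℤ) (s0 : ℤ) := by
    rw [Nat.isCoprime_iff_coprime]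
    exact Nat.Coprime.mul_left (((Nat.Prime.coprime_iff_not_dvd hp).2 hps0).pow_left a)
      (((Nat.Prime.coprime_iff_not_dvd hq).2 hs3).pow_left b)
  obtain ⟨x, y, hxy⟩ := hco
  have h0 : ((p ^ a * q ^ b : ℕ) * s0) • t = 0 := by
    rw [mul_assoc, ← hs4, ← hs2]
    exact addOrderOf_nsmul_eq_zero t
  refine ⟨a, b, s0, (x * (p ^ a * q ^ b : ℕ)) • t, (y * s0) • t, ?_, Nat.pos_of_ne_zero hs0,
    hps0, hs3, ?_, ?_⟩
  · rw [← add_zsmul, hxy, one_zsmul]
  · rw [← natCast_zsmul, smul_smul]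
    have : (s0 : ℤ) * (x * (p ^ a * q ^ b : ℕ)) = x * ((p ^ a * q ^ b : ℕ) * s0 : ℕ) := by
      push_cast; ring
    rw [this, mul_zsmul, natCast_zsmul, h0, smul_zero]
  · rw [← natCast_zsmul, smul_smul]
    have : ((p ^ a * q ^ b : ℕ) : ℤ) * (y * s0) = y * ((p ^ a * q ^ b : ℕ) * s0 : ℕ) := by
      push_cast; ring
    rw [this, mul_zsmul, natCast_zsmul, h0, smul_zero]

/-- injectivity off null sets -/
lemma TE.inj {p q : ℕ} (hp : p.Prime) (hq : q.Prime) (hpq : p ≠ q) {ν : Measure T}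
    [IsProbabilityMeasure ν] (hν : TE p q ν) (hne : ν ≠ volume) (a b : ℕ) :
    ∃ B : Set T, MeasurableSet B ∧ ν Bᶜ = 0 ∧ InjOn (fun x : T => (p ^ a * q ^ b) • x) B := by
  have h1 : ¬ p ∣ q := fun h => hpq ((Nat.prime_dvd_prime_iff_eq hp hq).1 h)
  have h2 : ¬ q ∣ p := fun h => hpq ((Nat.prime_dvd_prime_iff_eq hq hp).1 h).symm
  have hP := inj_one hp hq.two_le h1 hν.one.toMeasurePreserving hν.erg hne
  have hQ := inj_one hq hp.two_le h2 hν.erg.toMeasurePreserving hν.one hne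
  exact inj_comp (mp_pow hν.erg.toMeasurePreserving b)
    (inj_pow hν.one.toMeasurePreserving hP a) (inj_pow hν.erg.toMeasurePreserving hQ b)

/-- the case of a translation of finite order -/
lemma case_fin {p q : ℕ} (hp : p.Prime) (hq : q.Prime) (hpq : p ≠ q) {μ ν : Measure T}
    [IsProbabilityMeasure μ] [IsProbabilityMeasure ν] (hμ : TE p q μ) (hν : TE p q ν) {n : ℤ}
    (hn : n ≠ 0) {t : T} (ht : IsOfFinAddOrder t) :
    μ.map (fun x : T => n • x + t) = ν ∨ μ.map (fun x : T => n • x + t) ⟂ₘ ν := by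
  obtain ⟨a, b, s, u, w, rfl, hs, hps, hqs, hu, hw⟩ := split hp hq ht
  set M := s.totient with hM
  have hM1 : 1 ≤ M := Nat.totient_pos.2 hs
  have hpM : (p ^ M) • u = u :=
    smul_fix hu (Nat.ModEq.pow_totient ((Nat.Prime.coprime_iff_not_dvd hp).2 hps))
  have hqM : (q ^ M) • u = u :=
    smul_fix hu (Nat.ModEq.pow_totient ((Nat.Prime.coprime_iff_not_dvd hq).2 hqs))
  set ν' := μ.map (fun x : T => n • x + u) with hν'
  have hprob : IsProbabilityMeasure ν' := Measure.isProbabilityMeasure_map (meas_aff n u).aemeasurable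
  have e : μ.map (fun x : T => n • x + (u + w)) = ν'.map (fun x : T => x + w) := by
    rw [hν', Measure.map_map (meas_add w) (meas_aff n u)]
    congr 1
    funext x
    simp [add_assoc]
  rw [e]
  have hN' : ((p ^ M) ^ a * (q ^ M) ^ b) • w = 0 := by
    have : (p ^ M) ^ a * (q ^ M) ^ b = (p ^ (M * a - a) * q ^ (M * b - b)) * (p ^ a * q ^ b) := by
      have h1 : a ≤ M * a := Nat.le_mul_of_pos_left a hM1
      have h2 : b ≤ M * b := Nat.le_mul_of_pos_left b hM1
      rw [← pow_mul, ← pow_mul]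
      calc p ^ (M * a) * q ^ (M * b) = p ^ (M * a - a + a) * q ^ (M * b - b + b) := by
            rw [Nat.sub_add_cancel h1, Nat.sub_add_cancel h2]
        _ = _ := by rw [pow_add, pow_add]; ring
    rw [this, mul_smul, hw, smul_zero]
  have hμM : MeasurePreserving (fun x : T => ((p ^ M) ^ a * (q ^ M) ^ b) • x) ν' ν' :=
    mp_mul (mp_pow (mp_aff (mp_pow hμ.one.toMeasurePreserving M) n hpM) a)
      (mp_pow (mp_aff (mp_pow hμ.erg.toMeasurePreserving M) n hqM) b)
  have hνM : MeasurePreserving (fun x : T => ((p ^ M) ^ a * (q ^ M) ^ b) • x) ν ν :=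
    mp_mul (mp_pow (mp_pow hν.one.toMeasurePreserving M) a)
      (mp_pow (mp_pow hν.erg.toMeasurePreserving M) b)
  rcases eq_or_sing (erg_aff (hμ.tot M hM1) n hpM) (hν.tot M hM1) with h | h
  · -- the same measure
    rw [← hν'] at h
    rw [h]
    by_cases hw0 : w = 0
    · left
      simp [hw0]
    · by_cases hvol : ν = volume
      · left
        rw [hvol]
        exact (measurePreserving_add_right volume w).map_eq
      · right
        exact sing_of_inj hw0 hw (hν.inj hp hq hpq hvol a b)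
  · right
    refine sing_of_map (meas_nsmul ((p ^ M) ^ a * (q ^ M) ^ b)) ?_
    rw [hνM.map_eq, Measure.map_map (meas_nsmul _) (meas_add w)]
    have e2 : ((fun x : T => ((p ^ M) ^ a * (q ^ M) ^ b) • x) ∘ fun x : T => x + w) =
        fun x : T => ((p ^ M) ^ a * (q ^ M) ^ b) • x := by
      funext x
      simp only [Function.comp_apply]
      rw [nsmul_add, hN', add_zero]
    rw [e2, hμM.map_eq]
    exact h

theorem zero_one {p q : ℕ} (hp : p.Prime) (hq : q.Prime) (hpq : p ≠ q) {μ ν : Measure T}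
    [IsProbabilityMeasure μ] [IsProbabilityMeasure ν] (hμ : TE p q μ) (hν : TE p q ν) {n : ℤ}
    (hn : n ≠ 0) (t : T) :
    μ.map (fun x : T => n • x + t) = ν ∨ μ.map (fun x : T => n • x + t) ⟂ₘ ν := by
  by_cases ht : IsOfFinAddOrder t
  · exact case_fin hp hq hpq hμ hν hn ht
  · exact case_inf hp hq hpq hμ hν hn ht

end Q70.Af
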