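import Pool.Agent.Q70.AfC

/-!
The translations which fix an ergodic `×p`, `×q` invariant measure.
-/

set_option autoImplicit false

open MeasureTheory Filter Topology Set
open scoped ENNReal

namespace Q70.Af

open Pool.Agent.W764.FB (es fc MeanErg hh)

lemma fourier_one_iff (k : ℤ) (t : T) : fourier k t = 1 ↔ k • t = 0 := by
  rw [fourier_apply]
  constructor
  · intro h
    have h1 : AddCircle.toCircle (k • t) = AddCircle.toCircle (0 : T) := by
      rw [AddCircle.toCircle_zero]
      exact Circle.ext (by rw [Circle.coe_one]; exact h)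
    exact AddCircle.injective_toCircle one_ne_zero h1
  · intro h
    rw [h, AddCircle.toCircle_zero]
    simp

lemma fc_aff (μ : Measure T) (n : ℤ) (t : T) (k : ℤ) :
    fc (μ.map (fun x : T => n • x + t)) k = fourier k t * fc μ (k * n) := by
  unfold fc
  rw [integral_map (meas_aff n t).aemeasurable (fourier k).continuous.aestronglyMeasurable,
    ← integral_const_mul]
  refine integral_congr_ae (Eventually.of_forall fun x => ?_)
  show fourier k (n • x + t) = fourier k t * fourier (k * n) x
  rw [Pool.Agent.W764.FB.fourier_add_pt, mul_comm]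
  congr 1
  rw [fourier_apply, fourier_apply, mul_zsmul]

lemma fc_add (μ : Measure T) (t : T) (k : ℤ) :
    fc (μ.map (fun x : T => x + t)) k = fourier k t * fc μ k := by
  have h := fc_aff μ 1 t k
  simpa using h

lemma prob_add (μ : Measure T) [IsProbabilityMeasure μ] (t : T) :
    IsProbabilityMeasure (μ.map (fun x : T => x + t)) :=
  Measure.isProbabilityMeasure_map (meas_add t).aemeasurable

/-- a torsion point of order `p` -/
lemma exists_tors {p m : ℕ} (hp : p.Prime) (hpm : p ∣ m) :
    ∃ t : T, t ≠ 0 ∧ p • t = 0 ∧ m • t = 0 := by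
  have hpR : (p : ℝ) ≠ 0 := by exact_mod_cast hp.ne_zero
  have hpt : p • (((1 / (p : ℝ) : ℝ)) : T) = 0 := by
    rw [← AddCircle.coe_nsmul, AddCircle.coe_eq_zero_iff]
    refine ⟨1, ?_⟩
    rw [nsmul_eq_mul]
    field_simp
    simp
  refine ⟨((1 / (p : ℝ) : ℝ) : T), ?_, hpt, ?_⟩
  · intro h
    rw [AddCircle.coe_eq_zero_iff] at h
    obtain ⟨n, hn⟩ := h
    rw [zsmul_eq_mul, mul_one, eq_div_iff hpR] at hn
    have h1 : n * (p : ℤ) = 1 := by exact_mod_cast hn
    have h2 : (p : ℤ) ∣ 1 := ⟨n, by rw [mul_comm]; exact h1.symm⟩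
    have h3 : p ∣ 1 := by exact_mod_cast h2
    exact hp.one_lt.ne' (Nat.dvd_one.1 h3)
  · obtain ⟨c, rfl⟩ := hpm
    rw [mul_comm, mul_smul, hpt, smul_zero]

theorem stab {p q : ℕ} (hp : p.Prime) (hq : q.Prime) (hpq : p ≠ q) {ν : Measure T}
    [IsProbabilityMeasure ν] (hν : TE p q ν) (hne : ν ≠ volume) :
    ∃ m : ℕ, 1 ≤ m ∧ m.Coprime (p * q) ∧
      ∀ t : T, ν.map (fun x : T => x + t) = ν ↔ m • t = 0 := by
  obtain ⟨a, ha⟩ := Int.subgroup_cyclic (AddSubgroup.closure {k : ℤ | fc ν k ≠ 0})
  have hmem : ∀ k : ℤ, fc ν k ≠ 0 → k ∈ AddSubgroup.closure {a} := by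
    intro k hk
    rw [← ha]
    exact AddSubgroup.subset_closure hk
  have key : ∀ t : T, ν.map (fun x : T => x + t) = ν ↔ a.natAbs • t = 0 := by
    intro t
    have hnat : a.natAbs • t = 0 ↔ a • t = 0 := by
      rw [← natCast_zsmul, Int.natCast_natAbs]
      rcases abs_choice a with h | h
      · rw [h]
      · rw [h, neg_zsmul, neg_eq_zero]
    rw [hnat]
    constructor
    · intro h
      have h1 : AddSubgroup.closure {k : ℤ | fc ν k ≠ 0} ≤ (zmultiplesHom T t).ker := by
        rw [AddSubgroup.closure_le]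
        intro k hk
        have h2 := fc_add ν t k
        rw [h] at h2
        have h3 : fourier k t = 1 := by
          have h4 : (1 - fourier k t) * fc ν k = 0 := by rw [sub_mul, one_mul, ← h2, sub_self]
          rcases mul_eq_zero.1 h4 with h5 | h5
          · exact (sub_eq_zero.1 h5).symm
          · exact absurd h5 hk
        show k • t = 0
        exact (fourier_one_iff k t).1 h3
      have h2 : a ∈ (zmultiplesHom T t).ker := h1 (by rw [ha]; exact AddSubgroup.subset_closure rfl)
      exact h2
    · intro h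
      have hprob := prob_add ν t
      refine Pool.Agent.W764.FB.ext_fourier fun k => ?_
      have h1 := fc_add ν t k
      unfold fc at h1
      rw [h1]
      by_cases hk : fc ν k = 0
      · unfold fc at hk
        rw [hk, mul_zero]
      · have h2 : AddSubgroup.closure {a} ≤ (zmultiplesHom T t).ker := by
          rw [AddSubgroup.closure_le]
          rintro _ rfl
          exact h
        have h3 : k • t = 0 := h2 (hmem k hk)
        rw [(fourier_one_iff k t).2 h3, one_mul]
  have ha0 : a ≠ 0 := by
    rintro rfl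
    apply hne
    refine Pool.Agent.W764.FB.eq_volume fun m hm => ?_
    by_contra h
    have h1 := hmem m h
    rw [AddSubgroup.mem_closure_singleton] at h1
    obtain ⟨c, hc⟩ := h1
    exact hm (by simpa using hc.symm)
  have hcop : ∀ r : ℕ, r.Prime → (∃ B : Set T, MeasurableSet B ∧ ν Bᶜ = 0 ∧
      InjOn (fun x : T => r • x) B) → ¬ r ∣ a.natAbs := by
    intro r hr hinj hdvd
    obtain ⟨t, ht0, hrt, hmt⟩ := exists_tors hr hdvd
    have h1 := sing_of_inj ht0 hrt hinj
    rw [(key t).2 hmt] at h1
    have h2 := (Measure.MutuallySingular.self_iff _).1 h1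
    exact IsProbabilityMeasure.ne_zero ν h2
  refine ⟨a.natAbs, Int.natAbs_pos.2 ha0, ?_, key⟩
  have h1 := hcop p hp (by simpa using hν.inj hp hq hpq hne 1 0)
  have h2 := hcop q hq (by simpa using hν.inj hp hq hpq hne 0 1)
  exact Nat.Coprime.mul_right (((Nat.Prime.coprime_iff_not_dvd hp).2 h1).symm)
    (((Nat.Prime.coprime_iff_not_dvd hq).2 h2).symm)

/-- the affine maps with the same slope between two measures -/
theorem stab_aff {μ ν : Measure T} {m : ℕ}
    (hm : ∀ t : T, ν.map (fun x : T => x + t) = ν ↔ m • t = 0) (n : ℤ) (t t' : T)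
    (h : μ.map (fun x : T => n • x + t) = ν) :
    μ.map (fun x : T => n • x + t') = ν ↔ m • t' = m • t := by
  have e : μ.map (fun x : T => n • x + t') = ν.map (fun x : T => x + (t' - t)) := by
    rw [← h, Measure.map_map (meas_add _) (meas_aff n t)]
    congr 1
    funext x
    simp only [Function.comp_apply]
    abel
  rw [e, hm, nsmul_sub, sub_eq_zero]

end Q70.Af
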