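import Pool.Agent.Q70.AfD

/-!
Fourier coefficients of atomless measures are small on average; slopes; the conjecture near
Lebesgue measure.
-/

set_option autoImplicit false

open MeasureTheory Filter Topology Set
open scoped ENNReal

namespace Q70.Af

open Pool.Agent.W764.FB (es fc MeanErg hh)

lemma norm_four (k : ℤ) (x : T) : ‖fourier k x‖ = 1 := Circle.norm_coe _

lemma int_four (k : ℤ) {X : Type*} [MeasurableSpace X] (κ : Measure X) [IsFiniteMeasure κ]
    {g : X → T} (hg : Measurable g) : Integrable (fun x => fourier k (g x)) κ :=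
  Integrable.of_bound ((fourier k).continuous.measurable.comp hg).aestronglyMeasurable 1
    (Eventually.of_forall fun x => (norm_four k _).le)

lemma four_sub (k : ℤ) (x y : T) :
    fourier k (x - y) = fourier k x * (starRingEnd ℂ) (fourier k y) := by
  have h : fourier k (-y) = fourier (-k) y := by
    rw [fourier_apply, fourier_apply, smul_neg, neg_smul]
  rw [sub_eq_add_neg, Pool.Agent.W764.FB.fourier_add_pt, h, fourier_neg]

/-- the Dirichlet sums -/
noncomputable def dir (L : ℕ) (z : T) : ℂ := ∑ j ∈ Finset.range L, fourier (j : ℤ) z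

lemma norm_dir_le (L : ℕ) (z : T) : ‖dir L z‖ ≤ L := by
  calc ‖dir L z‖ ≤ ∑ j ∈ Finset.range L, (1 : ℝ) :=
        norm_sum_le_of_le _ fun i _ => (norm_four _ _).le
    _ = L := by simp

lemma dir_lim {z : T} (hz : z ≠ 0) :
    Tendsto (fun L : ℕ => ‖dir L z‖ / L) atTop (𝓝 0) := by
  have h1 : fourier 1 z ≠ 1 := by
    intro h
    apply hz
    simpa using (fourier_one_iff 1 z).1 h
  have h2 : ∀ L : ℕ, ‖dir L z‖ ≤ 2 / ‖fourier 1 z - 1‖ := by
    intro L
    have e : dir L z = ∑ j ∈ Finset.range L, (fourier 1 z) ^ j := by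
      unfold dir
      refine Finset.sum_congr rfl fun j _ => ?_
      rw [fourier_apply, fourier_apply, natCast_zsmul, AddCircle.toCircle_nsmul, one_smul]
      push_cast
      rfl
    rw [e, geom_sum_eq h1, norm_div]
    refine div_le_div_of_nonneg_right ?_ (norm_nonneg _)
    calc ‖fourier 1 z ^ L - 1‖ ≤ ‖fourier 1 z ^ L‖ + ‖(1 : ℂ)‖ := norm_sub_le _ _
      _ = 2 := by rw [norm_pow, norm_four, one_pow, norm_one]; norm_num
  refine squeeze_zero (fun L => by positivity)
    (fun L => div_le_div_of_nonneg_right (h2 L) (Nat.cast_nonneg L)) ?_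
  exact tendsto_const_nhds.div_atTop tendsto_natCast_atTop_atTop

lemma norm_fc_sq (κ : Measure T) [IsProbabilityMeasure κ] (k : ℤ) :
    ((‖fc κ k‖ ^ 2 : ℝ) : ℂ) = ∫ z, fourier k (z.1 - z.2) ∂(κ.prod κ) := by
  have h1 : ∫ z, fourier k (z.1 - z.2) ∂(κ.prod κ) =
      ∫ z, fourier k z.1 * (starRingEnd ℂ) (fourier k z.2) ∂(κ.prod κ) :=
    integral_congr_ae (Eventually.of_forall fun z => four_sub k z.1 z.2)
  rw [h1, integral_prod_mul (fun x : T => fourier k x) (fun y : T => (starRingEnd ℂ) (fourier k y)),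
    integral_conj]
  show _ = fc κ k * (starRingEnd ℂ) (fc κ k)
  rw [Complex.mul_conj, Complex.normSq_eq_norm_sq]

lemma wiener_le (κ : Measure T) [IsProbabilityMeasure κ] (M : ℤ) (L : ℕ) :
    ∑ j ∈ Finset.range L, ‖fc κ (M + j)‖ ^ 2 ≤ ∫ z, ‖dir L (z.1 - z.2)‖ ∂(κ.prod κ) := by
  have hm : Measurable fun z : T × T => z.1 - z.2 := measurable_fst.sub measurable_snd
  have h1 : ((∑ j ∈ Finset.range L, ‖fc κ (M + j)‖ ^ 2 : ℝ) : ℂ) =
      ∫ z, fourier M (z.1 - z.2) * dir L (z.1 - z.2) ∂(κ.prod κ) := by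
    rw [Complex.ofReal_sum]
    simp_rw [norm_fc_sq]
    rw [← integral_finset_sum _ fun j _ => int_four _ _ hm]
    refine integral_congr_ae (Eventually.of_forall fun z => ?_)
    simp only [dir, Finset.mul_sum]
    refine Finset.sum_congr rfl fun j _ => ?_
    rw [fourier_add]
  have h2 : ∑ j ∈ Finset.range L, ‖fc κ (M + j)‖ ^ 2 =
      ‖((∑ j ∈ Finset.range L, ‖fc κ (M + j)‖ ^ 2 : ℝ) : ℂ)‖ := by
    rw [Complex.norm_real, Real.norm_of_nonneg (Finset.sum_nonneg fun _ _ => by positivity)]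
  rw [h2, h1]
  refine (norm_integral_le_integral_norm _).trans (le_of_eq ?_)
  refine integral_congr_ae (Eventually.of_forall fun z => ?_)
  simp only [norm_mul, norm_four, one_mul]

lemma diag_null (κ : Measure T) [IsProbabilityMeasure κ] (h : ∀ x, κ {x} = 0) :
    ∀ᵐ z ∂(κ.prod κ), z.1 - z.2 ≠ 0 := by
  rw [ae_iff]
  have hm : MeasurableSet {z : T × T | ¬ (z.1 - z.2 ≠ 0)} := by
    have : {z : T × T | ¬ (z.1 - z.2 ≠ 0)} = {z : T × T | z.1 = z.2} := by
      ext z; simp [sub_eq_zero]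
    rw [this]
    exact measurableSet_eq_fun measurable_fst measurable_snd
  rw [Measure.prod_apply hm]
  refine lintegral_eq_zero_of_ae_eq_zero (Eventually.of_forall fun x => ?_)
  have : Prod.mk x ⁻¹' {z : T × T | ¬ (z.1 - z.2 ≠ 0)} = {x} := by
    ext y
    simp only [mem_preimage, mem_ofPred_eq, not_not, mem_singleton_iff, sub_eq_zero]
    exact eq_comm
  show κ (Prod.mk x ⁻¹' {z : T × T | ¬ (z.1 - z.2 ≠ 0)}) = 0
  rw [this]
  exact h x

/-- Wiener's lemma, uniformly over all intervals of frequencies -/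
theorem wiener (κ : Measure T) [IsProbabilityMeasure κ] (h : ∀ x, κ {x} = 0) {ε : ℝ}
    (hε : 0 < ε) : ∃ L₀ : ℕ, ∀ L : ℕ, L₀ ≤ L → ∀ M : ℤ,
      ∑ j ∈ Finset.range L, ‖fc κ (M + j)‖ ^ 2 ≤ ε * L := by
  have hm : Measurable fun z : T × T => z.1 - z.2 := measurable_fst.sub measurable_snd
  have hdm : ∀ L, Measurable fun z : T × T => ‖dir L (z.1 - z.2)‖ / L := by
    intro L
    have hc : Continuous (dir L) := by
      unfold dir
      exact continuous_finset_sum _ fun j _ => (fourier (j : ℤ)).continuous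
    exact ((hc.norm.measurable.comp hm).div_const _)
  have hlim : Tendsto (fun L : ℕ => ∫ z, ‖dir L (z.1 - z.2)‖ / L ∂(κ.prod κ)) atTop
      (𝓝 (∫ z : T × T, (0 : ℝ) ∂(κ.prod κ))) := by
    refine tendsto_integral_of_dominated_convergence (fun _ => (1 : ℝ))
      (fun L => (hdm L).aestronglyMeasurable) (integrable_const _)
      (fun L => Eventually.of_forall fun z => ?_) ?_
    · rw [Real.norm_of_nonneg (by positivity)]
      rcases Nat.eq_zero_or_pos L with h0 | h0
      · subst h0; simp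
      · rw [div_le_one (by exact_mod_cast h0)]
        exact norm_dir_le L _
    · filter_upwards [diag_null κ h] with z hz
      exact dir_lim hz
  rw [integral_zero] at hlim
  obtain ⟨L₀, hL₀⟩ := eventually_atTop.1 (hlim.eventually (gt_mem_nhds hε))
  refine ⟨L₀ + 1, fun L hL M => ?_⟩
  have h1 := hL₀ L (by omega)
  have hL0 : (0 : ℝ) < L := by exact_mod_cast (by omega : 0 < L)
  rw [integral_div, div_lt_iff₀ hL0] at h1
  exact (wiener_le κ M L).trans h1.le

end Q70.Af
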