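import Pool.Agent.Q70.AfE

/-!
Slopes of affine maps between ergodic `×p`, `×q` invariant measures; the conjecture near Lebesgue
measure.
-/

set_option autoImplicit false

open MeasureTheory Filter Topology Set
open scoped ENNReal

namespace Q70.Af

open Pool.Agent.W764.FB (es fc MeanErg hh)

lemma fin_fibre {k : ℤ} (hk : k ≠ 0) (y : T) : {x : T | k • x = y}.Finite := by
  by_cases h : ∃ x₀ : T, k • x₀ = y
  · obtain ⟨x₀, hx₀⟩ := h
    have h1 : {u : T | k.natAbs • u = 0}.Finite :=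
      AddCircle.finite_torsion 1 (Int.natAbs_pos.2 hk)
    refine (h1.image fun u => x₀ + u).subset fun x hx => ⟨x - x₀, ?_, by simp⟩
    have h2 : k • (x - x₀) = 0 := by
      have : k • x = y := hx
      rw [zsmul_sub, this, hx₀, sub_self]
    show k.natAbs • (x - x₀) = 0
    rw [← natCast_zsmul, Int.natCast_natAbs]
    rcases abs_choice k with h3 | h3
    · rw [h3, h2]
    · rw [h3, neg_zsmul, h2, neg_zero]
  · push Not at h
    have : {x : T | k • x = y} = ∅ := by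
      ext x; simpa using h x
    rw [this]; exact finite_empty

lemma atomless_aff {μ : Measure T} (h : ∀ x, μ {x} = 0) {n : ℤ} (hn : n ≠ 0) (t : T) (y : T) :
    (μ.map (fun x : T => n • x + t)) {y} = 0 := by
  rw [Measure.map_apply (meas_aff n t) (measurableSet_singleton y)]
  have h1 : ((fun x : T => n • x + t) ⁻¹' {y}).Finite := by
    refine (fin_fibre hn (y - t)).subset fun x hx => ?_
    have : n • x + t = y := hx
    show n • x = y - t
    rw [← this, add_sub_cancel_right]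
  rw [← biUnion_of_singleton ((fun x : T => n • x + t) ⁻¹' {y})]
  exact (measure_biUnion_null_iff h1.countable).2 fun x _ => h x

lemma prob_aff (μ : Measure T) [IsProbabilityMeasure μ] (n : ℤ) (t : T) :
    IsProbabilityMeasure (μ.map (fun x : T => n • x + t)) :=
  Measure.isProbabilityMeasure_map (meas_aff n t).aemeasurable

/-- a lower bound for many Fourier coefficients fails for atomless measures -/
lemma density {μ : Measure T} [IsProbabilityMeasure μ] (h : ∀ x, μ {x} = 0) {k : ℤ} (hk : k ≠ 0)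
    {c : ℝ} (hc : 0 < c) {ε : ℝ} (hε : 0 < ε) :
    ∃ L₀ : ℕ, ∀ L : ℕ, L₀ ≤ L → ∀ M : ℤ,
      (({n : ℤ | c ≤ ‖fc μ (k * n)‖} ∩ Ico M (M + L)).ncard : ℝ) ≤ ε * L := by
  have hprob := prob_aff μ k 0
  obtain ⟨L₀, hL₀⟩ := wiener (μ.map (fun x : T => k • x + 0)) (atomless_aff h hk 0)
    (ε := ε * c ^ 2) (by positivity)
  refine ⟨L₀, fun L hL M => ?_⟩
  have h1 := hL₀ L hL M
  have h2 : ∀ n : ℤ, fc (μ.map (fun x : T => k • x + 0)) n = fc μ (k * n) := by
    intro n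
    rw [fc_aff, (fourier_one_iff n 0).2 (smul_zero _), one_mul, mul_comm]
  simp_rw [h2] at h1
  set S : Set ℤ := {n : ℤ | c ≤ ‖fc μ (k * n)‖} ∩ Ico M (M + L) with hS
  classical
  set F : Finset ℕ := (Finset.range L).filter fun j => c ≤ ‖fc μ (k * (M + j))‖ with hF
  have h3 : S ⊆ ((F.image fun j : ℕ => M + (j : ℤ) : Finset ℤ) : Set ℤ) := by
    rintro n ⟨hn, hn1, hn2⟩
    rw [Finset.mem_coe, Finset.mem_image]
    refine ⟨(n - M).toNat, ?_, by omega⟩
    rw [hF, Finset.mem_filter, Finset.mem_range]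
    have e : M + ((n - M).toNat : ℤ) = n := by omega
    refine ⟨by omega, ?_⟩
    rw [e]; exact hn
  have h4 : S.ncard ≤ F.card := by
    refine (Set.ncard_le_ncard h3 (Finset.finite_toSet _)).trans ?_
    rw [Set.ncard_coe_finset]
    exact Finset.card_image_le
  have h5 : (F.card : ℝ) * c ^ 2 ≤ ∑ j ∈ Finset.range L, ‖fc μ (k * (M + j))‖ ^ 2 := by
    calc (F.card : ℝ) * c ^ 2 = ∑ j ∈ F, c ^ 2 := by simp
      _ ≤ ∑ j ∈ F, ‖fc μ (k * (M + j))‖ ^ 2 := by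
        refine Finset.sum_le_sum fun j hj => ?_
        have := (Finset.mem_filter.1 hj).2
        exact pow_le_pow_left₀ hc.le this 2
      _ ≤ _ := Finset.sum_le_sum_of_subset_of_nonneg (Finset.filter_subset _ _)
        fun _ _ _ => by positivity
  have h6 : (S.ncard : ℝ) ≤ F.card := by exact_mod_cast h4
  have h7 : (F.card : ℝ) * c ^ 2 ≤ (ε * L) * c ^ 2 := by
    refine (h5.trans h1).trans (le_of_eq ?_)
    ring
  exact h6.trans (le_of_mul_le_mul_right h7 (by positivity))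

/-- the slopes of the affine maps which map `μ` to `ν` -/
theorem slopes {μ ν : Measure T} [IsProbabilityMeasure μ] [IsProbabilityMeasure ν]
    (h : ∀ x, μ {x} = 0) (hne : ν ≠ volume) {ε : ℝ} (hε : 0 < ε) :
    ∃ L₀ : ℕ, ∀ L : ℕ, L₀ ≤ L → ∀ M : ℤ,
      (({n : ℤ | ∃ t : T, μ.map (fun x : T => n • x + t) = ν} ∩ Ico M (M + L)).ncard : ℝ) ≤
        ε * L := by
  have hex : ∃ k : ℤ, k ≠ 0 ∧ fc ν k ≠ 0 := by
    by_contra hcon
    push Not at hcon
    exact hne (Pool.Agent.W764.FB.eq_volume fun m hm => hcon m hm)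
  obtain ⟨k, hk, hk0⟩ := hex
  obtain ⟨L₀, hL₀⟩ := density h hk (norm_pos_iff.2 hk0) hε
  refine ⟨L₀, fun L hL M => le_trans ?_ (hL₀ L hL M)⟩
  have hsub : {n : ℤ | ∃ t : T, μ.map (fun x : T => n • x + t) = ν} ∩ Ico M (M + L) ⊆
      {n : ℤ | ‖fc ν k‖ ≤ ‖fc μ (k * n)‖} ∩ Ico M (M + L) := by
    rintro n ⟨⟨t, ht⟩, hn⟩
    refine ⟨?_, hn⟩
    show ‖fc ν k‖ ≤ ‖fc μ (k * n)‖
    rw [← ht, fc_aff, norm_mul, norm_four, one_mul]
  exact_mod_cast Set.ncard_le_ncard hsub ((Set.finite_Ico M (M + L)).subset inter_subset_right)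

lemma TE.map {p q : ℕ} {μ : Measure T} (hμ : TE p q μ) (n : ℤ) :
    TE p q (μ.map (fun x : T => n • x + 0)) :=
  ⟨fun k hk => erg_aff (hμ.tot k hk) n (smul_zero _), erg_aff hμ.erg n (smul_zero _)⟩

/-- images of a counterexample near Lebesgue measure -/
theorem near {p q : ℕ} (hp : p.Prime) {μ : Measure T} [IsProbabilityMeasure μ] (hμ : TE p q μ)
    (h : ∀ x, μ {x} = 0) (hne : μ ≠ volume) (K : ℕ) {ε : ℝ} (hε : 0 < ε) :
    ∃ n : ℕ, 1 ≤ n ∧ (μ.map (fun x : T => (n : ℤ) • x + 0)) ≠ volume ∧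
      ∀ k : ℕ, 1 ≤ k → k ≤ K → ‖fc (μ.map (fun x : T => (n : ℤ) • x + 0)) k‖ < ε := by
  have h1 : ∀ k : ℕ, ∃ L₀ : ℕ, 1 ≤ k → ∀ L : ℕ, L₀ ≤ L →
      (({n : ℤ | ε ≤ ‖fc μ (k * n)‖} ∩ Ico 1 (1 + L)).ncard : ℝ) ≤ 1 / (2 * (K + 1)) * L := by
    intro k
    by_cases hk : 1 ≤ k
    · obtain ⟨L₀, hL₀⟩ := density h (k := (k : ℤ)) (by exact_mod_cast (by omega : k ≠ 0)) hε
        (ε := 1 / (2 * ((K : ℝ) + 1))) (by positivity)
      exact ⟨L₀, fun _ L hL => hL₀ L hL 1⟩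
    · exact ⟨0, fun h => absurd h hk⟩
  choose L₀ hL₀ using h1
  set L : ℕ := (∑ k ∈ Finset.range (K + 1), L₀ k) + 1 with hL
  have hLk : ∀ k ∈ Finset.Icc 1 K, L₀ k ≤ L := by
    intro k hk
    rw [Finset.mem_Icc] at hk
    have : L₀ k ≤ ∑ k ∈ Finset.range (K + 1), L₀ k :=
      Finset.single_le_sum (f := L₀) (fun _ _ => Nat.zero_le _)
        (Finset.mem_range.2 (by omega : k < K + 1))
    omega
  have hex : ∃ n : ℤ, n ∈ Ico (1 : ℤ) (1 + L) ∧ ∀ k ∈ Finset.Icc 1 K, ‖fc μ (k * n)‖ < ε := by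
    by_contra hcon
    push Not at hcon
    classical
    have hsub : Ico (1 : ℤ) (1 + L) ⊆ ⋃ k ∈ Finset.Icc 1 K,
        ({n : ℤ | ε ≤ ‖fc μ (k * n)‖} ∩ Ico 1 (1 + L)) := by
      intro n hn
      obtain ⟨k, hk, hkn⟩ := hcon n hn
      rw [mem_iUnion₂]
      exact ⟨k, hk, hkn, hn⟩
    have h2 : (Ico (1 : ℤ) (1 + L)).ncard = L := by
      rw [← Finset.coe_Ico, Set.ncard_coe_finset, Int.card_Ico]
      omega
    have h3 : (Ico (1 : ℤ) (1 + L)).ncard ≤
        ∑ k ∈ Finset.Icc 1 K, ({n : ℤ | ε ≤ ‖fc μ (k * n)‖} ∩ Ico 1 (1 + L)).ncard := by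
      refine (Set.ncard_le_ncard hsub ?_).trans ?_
      · exact Set.Finite.biUnion (Finset.finite_toSet _) fun k _ =>
          (Set.finite_Ico (1 : ℤ) (1 + L)).subset inter_subset_right
      · exact Finset.set_ncard_biUnion_le _ _
    have h4 : (L : ℝ) ≤ ∑ k ∈ Finset.Icc 1 K, (1 / (2 * ((K : ℝ) + 1)) * L) := by
      have h5 : (L : ℝ) ≤ ∑ k ∈ Finset.Icc 1 K,
          (({n : ℤ | ε ≤ ‖fc μ (k * n)‖} ∩ Ico 1 (1 + L)).ncard : ℝ) := by
        rw [h2] at h3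
        exact_mod_cast h3
      refine h5.trans (Finset.sum_le_sum fun k hk => ?_)
      exact hL₀ k (Finset.mem_Icc.1 hk).1 L (hLk k hk)
    rw [Finset.sum_const, Nat.card_Icc, nsmul_eq_mul] at h4
    have hLpos : (0 : ℝ) < L := by rw [hL]; positivity
    have hK : ((K + 1 - 1 : ℕ) : ℝ) = K := by simp
    rw [hK] at h4
    have h6 : (K : ℝ) * (1 / (2 * ((K : ℝ) + 1)) * L) = (K / (2 * (K + 1))) * L := by ring
    rw [h6] at h4
    have h7 : (K : ℝ) / (2 * (K + 1)) < 1 := by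
      rw [div_lt_one (by positivity)]
      have : (0 : ℝ) ≤ K := Nat.cast_nonneg K
      linarith
    nlinarith
  obtain ⟨n, hn, hnk⟩ := hex
  have hn1 : 1 ≤ n := hn.1
  obtain ⟨m, rfl⟩ : ∃ m : ℕ, n = m := ⟨n.toNat, by omega⟩
  refine ⟨m, by exact_mod_cast hn1, ?_, fun k hk1 hkK => ?_⟩
  · intro hvol
    have hs := sing_vol hp.two_le hμ.one hne
    have h8 := Pool.Agent.H847R3.XpXq.sing_map (a := (m : ℤ)) (by omega) hs
    have e : μ.map (fun x : T => (m : ℤ) • x) = volume := by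
      rw [← hvol]; simp
    rw [e] at h8
    exact IsProbabilityMeasure.ne_zero (volume : Measure T)
      ((Measure.MutuallySingular.self_iff _).1 h8)
  · rw [fc_aff, (fourier_one_iff _ 0).2 (smul_zero _), one_mul]
    exact hnk k (Finset.mem_Icc.2 ⟨hk1, hkK⟩)

end Q70.Af
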