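import Pool.Agent.Q70.AfR

/-!
Finite invariant measures: singular parts, averages, injectivity for powers.
-/

set_option autoImplicit false

open MeasureTheory Filter Topology Set
open scoped ENNReal

namespace Q70.Af

open Pool.Agent.W764.FB

/-- `x ↦ N x` is injective off a null set -/
def InjAE (N : ℕ) (μ : Measure T) : Prop :=
  ∃ B : Set T, MeasurableSet B ∧ μ Bᶜ = 0 ∧ InjOn (fun x : T => N • x) B

/-- invariance under `×p` and `×q` -/
def Inv (p q : ℕ) (μ : Measure T) : Prop :=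
  MeasurePreserving (fun x : T => p • x) μ μ ∧ MeasurePreserving (fun x : T => q • x) μ μ

lemma mp_const {p : ℕ} {μ : Measure T} (h : MeasurePreserving (fun x : T => p • x) μ μ)
    (c : ℝ≥0∞) : MeasurePreserving (fun x : T => p • x) (c • μ) (c • μ) :=
  ⟨meas_nsmul p, by rw [Measure.map_smul, h.map_eq]⟩

lemma mp_plus {p : ℕ} {μ ν : Measure T} (h : MeasurePreserving (fun x : T => p • x) μ μ)
    (h' : MeasurePreserving (fun x : T => p • x) ν ν) :
    MeasurePreserving (fun x : T => p • x) (μ + ν) (μ + ν) :=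
  ⟨meas_nsmul p, by rw [Measure.map_add _ _ (meas_nsmul p), h.map_eq, h'.map_eq]⟩

/-- normalisation of a finite measure -/
lemma norm_prob {μ : Measure T} [IsFiniteMeasure μ] (h : μ ≠ 0) :
    IsProbabilityMeasure ((μ univ)⁻¹ • μ) := by
  refine ⟨?_⟩
  rw [Measure.smul_apply, smul_eq_mul]
  exact ENNReal.inv_mul_cancel (fun h0 => h (Measure.measure_univ_eq_zero.1 h0))
    (measure_ne_top _ _)

lemma rudolph_fin {p q : ℕ} (hp : p.Prime) (hq : 2 ≤ q) (hpq : ¬ p ∣ q) {μ : Measure T}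
    [IsFiniteMeasure μ] (hip : MeasurePreserving (fun x : T => p • x) μ μ)
    (hiq : MeasurePreserving (fun x : T => q • x) μ μ) (hs : μ ⟂ₘ (volume : Measure T)) :
    InjAE p μ := by
  by_cases h0 : μ = 0
  · exact ⟨∅, MeasurableSet.empty, by simp [h0], injOn_empty _⟩
  · have hprob := norm_prob h0
    have hc : (μ univ)⁻¹ ≠ 0 := ENNReal.inv_ne_zero.2 (measure_ne_top _ _)
    obtain ⟨B, hB, hB0, hB1⟩ := rudolph hp hq hpq (mp_const hip (μ univ)⁻¹)
      (mp_const hiq (μ univ)⁻¹) (hs.smul (μ univ)⁻¹)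
    refine ⟨B, hB, ?_, hB1⟩
    rw [Measure.smul_apply, smul_eq_mul, mul_eq_zero] at hB0
    exact hB0.resolve_left hc

lemma InjAE.mono {N : ℕ} {μ ν : Measure T} (h : InjAE N ν) (hle : μ ≤ ν) : InjAE N μ := by
  obtain ⟨B, hB, hB0, hB1⟩ := h
  exact ⟨B, hB, le_antisymm ((hle _).trans hB0.le) zero_le, hB1⟩

lemma inj_all {p q : ℕ} (hp : p.Prime) (hq : q.Prime) (hpq : p ≠ q) {μ : Measure T}
    [IsFiniteMeasure μ] (h : Inv p q μ) (hs : μ ⟂ₘ (volume : Measure T)) (a b : ℕ) :
    InjAE (p ^ a * q ^ b) μ := by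
  have h1 : ¬ p ∣ q := fun h => hpq ((Nat.prime_dvd_prime_iff_eq hp hq).1 h)
  have h2 : ¬ q ∣ p := fun h => hpq ((Nat.prime_dvd_prime_iff_eq hq hp).1 h).symm
  have hP := rudolph_fin hp hq.two_le h1 h.1 h.2 hs
  have hQ := rudolph_fin hq hp.two_le h2 h.2 h.1 hs
  exact inj_comp (mp_pow h.2 b) (inj_pow h.1 hP a) (inj_pow h.2 hQ b)

/-- the sum of the images under `a ^ i`, `i < M` -/
noncomputable def spr (a M : ℕ) (κ : Measure T) : Measure T :=
  ∑ i ∈ Finset.range M, κ.map (fun x : T => (a ^ i) • x)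

instance (a M : ℕ) (κ : Measure T) [IsFiniteMeasure κ] : IsFiniteMeasure (spr a M κ) := by
  unfold spr
  infer_instance

lemma int_spr (a M : ℕ) (κ : Measure T) [IsFiniteMeasure κ] (m : ℤ) :
    ∫ x, fourier m x ∂(spr a M κ) =
      ∑ i ∈ Finset.range M, ∫ x, fourier (m * (a ^ i : ℕ)) x ∂κ := by
  unfold spr
  rw [integral_finset_sum_measure]
  · exact Finset.sum_congr rfl fun i _ => fc_smul κ (a ^ i) m
  · intro k _
    exact Integrable.of_bound (fourier m).continuous.aestronglyMeasurable 1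
      (Eventually.of_forall fun x => (norm_four m x).le)

lemma spr_mp {a M : ℕ} {κ : Measure T} [IsFiniteMeasure κ]
    (h : MeasurePreserving (fun x : T => (a ^ M) • x) κ κ) :
    MeasurePreserving (fun x : T => a • x) (spr a M κ) (spr a M κ) := by
  refine ⟨meas_nsmul a, ?_⟩
  have hfin : IsFiniteMeasure ((spr a M κ).map fun x : T => a • x) :=
    Measure.isFiniteMeasure_map _ _
  refine ext_fourier fun m => ?_
  rw [fc_smul, int_spr, int_spr, ← sub_eq_zero, ← Finset.sum_sub_distrib]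
  have e : ∀ i : ℕ, (m * a * (a ^ i : ℕ) : ℤ) = m * (a ^ (i + 1) : ℕ) := by
    intro i; push_cast; ring
  simp_rw [e]
  rw [Finset.sum_range_sub (fun i => ∫ x, fourier (m * (a ^ i : ℕ)) x ∂κ), ← fc_smul κ (a ^ M) m,
    h.map_eq]
  simp

lemma spr_mp' {a M b : ℕ} {κ : Measure T} [IsFiniteMeasure κ]
    (h : MeasurePreserving (fun x : T => b • x) κ κ) :
    MeasurePreserving (fun x : T => b • x) (spr a M κ) (spr a M κ) := by
  refine ⟨meas_nsmul b, ?_⟩
  have hfin : IsFiniteMeasure ((spr a M κ).map fun x : T => b • x) :=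
    Measure.isFiniteMeasure_map _ _
  refine ext_fourier fun m => ?_
  rw [fc_smul, int_spr, int_spr]
  refine Finset.sum_congr rfl fun i _ => ?_
  have e : (m * b * (a ^ i : ℕ) : ℤ) = (m * (a ^ i : ℕ)) * b := by ring
  rw [e, ← fc_smul, h.map_eq]

lemma le_spr {a M : ℕ} (hM : 1 ≤ M) (κ : Measure T) : κ ≤ spr a M κ := by
  have h0 : κ.map (fun x : T => (a ^ 0) • x) = κ := by
    simp
  obtain ⟨K, rfl⟩ : ∃ K, M = K + 1 := ⟨M - 1, by omega⟩
  unfold spr
  rw [Finset.sum_range_succ', h0]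
  exact Measure.le_add_left le_rfl

lemma sing_nsmul {μ : Measure T} {a : ℕ} (ha : a ≠ 0) (h : μ ⟂ₘ (volume : Measure T)) :
    μ.map (fun x : T => a • x) ⟂ₘ (volume : Measure T) := by
  have h1 := Pool.Agent.H847R3.XpXq.sing_map (a := (a : ℤ)) (by exact_mod_cast ha) h
  simpa using h1

lemma spr_sing {a M : ℕ} (ha : a ≠ 0) {κ : Measure T} (h : κ ⟂ₘ (volume : Measure T)) :
    spr a M κ ⟂ₘ (volume : Measure T) := by
  unfold spr
  induction M with
  | zero => simp
  | succ M ih =>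
    rw [Finset.sum_range_succ]
    exact ih.add_left (sing_nsmul (pow_ne_zero M ha) h)

/-- injectivity for measures which are only invariant under powers -/
lemma inj_powers {p q : ℕ} (hp : p.Prime) (hq : q.Prime) (hpq : p ≠ q) {M : ℕ} (hM : 1 ≤ M)
    {κ : Measure T} [IsFiniteMeasure κ] (h : Inv (p ^ M) (q ^ M) κ)
    (hs : κ ⟂ₘ (volume : Measure T)) (a b : ℕ) : InjAE (p ^ a * q ^ b) κ := by
  have h1 : Inv p (q ^ M) (spr p M κ) := ⟨spr_mp h.1, spr_mp' h.2⟩
  have h2 : Inv p q (spr q M (spr p M κ)) := ⟨spr_mp' h1.1, spr_mp h1.2⟩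
  have hs2 : spr q M (spr p M κ) ⟂ₘ (volume : Measure T) :=
    spr_sing hq.ne_zero (spr_sing hp.ne_zero hs)
  exact (inj_all hp hq hpq h2 hs2 a b).mono ((le_spr hM κ).trans (le_spr hM _))

/-- the decomposition of an invariant measure -/
lemma decomp {p q : ℕ} (hp : 2 ≤ p) (hq : 2 ≤ q) {μ : Measure T} [IsFiniteMeasure μ] (h : Inv p q μ) :
    ∃ c : ℝ≥0∞, Inv p q (μ.singularPart volume) ∧
      μ = μ.singularPart volume + c • (volume : Measure T) := by
  have hve : Ergodic (fun x : T => p • x) (volume : Measure T) :=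
    AddCircle.ergodic_nsmul (by omega : 1 < p)
  have hvp := hve.toMeasurePreserving
  have h1 := h.1.withDensity_rnDeriv hvp
  have hfin : IsFiniteMeasure ((volume : Measure T).withDensity (μ.rnDeriv volume)) :=
    isFiniteMeasure_of_le μ (Measure.withDensity_rnDeriv_le μ _)
  obtain ⟨c, hc⟩ := hve.eq_smul_of_absolutelyContinuous h1 (withDensity_absolutelyContinuous _ _)
  have hadd : μ = μ.singularPart volume + c • (volume : Measure T) := by
    conv_lhs => rw [Measure.haveLebesgueDecomposition_add μ (volume : Measure T), hc]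
  refine ⟨c, ⟨h.1.singularPart hvp, ?_⟩, hadd⟩
  have hvq : MeasurePreserving (fun x : T => q • x) (volume : Measure T) volume :=
    (AddCircle.ergodic_nsmul (by omega : 1 < q)).toMeasurePreserving
  exact h.2.singularPart hvq

end Q70.Af
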