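import Pool.Agent.Q70.AfG

/-!
Maps with a displacement which is not a torsion point of order prime to `p q`.
-/

set_option autoImplicit false

open MeasureTheory Filter Topology Set
open scoped ENNReal

namespace Q70.Af

open Pool.Agent.W764.FB

/-- a torsion point of order prime to `p q` -/
def Tame (p q : ℕ) (t : T) : Prop := ∃ s : ℕ, 1 ≤ s ∧ s.Coprime (p * q) ∧ s • t = 0

lemma inv_aff {p q : ℕ} {μ : Measure T} (h : Inv p q μ) (n : ℤ) {t : T} (hp : p • t = t)
    (hq : q • t = t) : Inv p q (μ.map (fun x : T => n • x + t)) :=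
  ⟨mp_aff h.1 n hp, mp_aff h.2 n hq⟩

lemma inv_pow {p q : ℕ} {μ : Measure T} (h : Inv p q μ) (M : ℕ) : Inv (p ^ M) (q ^ M) μ :=
  ⟨mp_pow h.1 M, mp_pow h.2 M⟩

lemma sing_aff {μ : Measure T} {n : ℤ} (hn : n ≠ 0) (t : T) (h : μ ⟂ₘ (volume : Measure T)) :
    μ.map (fun x : T => n • x + t) ⟂ₘ (volume : Measure T) := by
  obtain ⟨s, hs, h1, h2⟩ := Pool.Agent.H847R3.XpXq.sing_map hn h
  have e : (fun x : T => n • x + t) = (fun x : T => x + t) ∘ fun x : T => n • x := rfl
  rw [e, ← Measure.map_map (meas_add t) (continuous_zsmul n).measurable]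
  have hms : MeasurableSet ((fun x : T => x - t) ⁻¹' s) :=
    (continuous_id.sub continuous_const).measurable hs
  refine ⟨(fun x : T => x - t) ⁻¹' s, hms, ?_, ?_⟩
  · rw [Measure.map_apply (meas_add t) hms]
    convert h1 using 2
    ext x; simp
  · rw [← preimage_compl]
    have h3 : (volume : Measure T) ((fun x : T => x - t) ⁻¹' sᶜ) = volume sᶜ :=
      (measurePreserving_sub_right (volume : Measure T) t).measure_preimage
        hs.compl.nullMeasurableSet
    rw [h3, h2]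

/-- translation of one of two measures by a torsion point -/
lemma sing_of_inj2 {N : ℕ} {α β : Measure T} {w : T} (hw : w ≠ 0) (hN : N • w = 0)
    (h : InjAE N (α + β)) : α.map (fun x : T => x + w) ⟂ₘ β := by
  obtain ⟨B, hB, hB0, hB1⟩ := h
  rw [Measure.add_apply, add_eq_zero] at hB0
  refine ⟨B, hB, ?_, hB0.2⟩
  rw [Measure.map_apply (meas_add w) hB]
  refine measure_mono_null (fun x hx => ?_) hB0.1
  intro hxB
  apply hw
  have h1 : N • (x + w) = N • x := by rw [nsmul_add, hN, add_zero]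
  exact add_eq_left.1 (hB1 (show x + w ∈ B from hx) hxB h1)

/-- two singular measures -/
lemma aff_sing2 {p q : ℕ} (hp : p.Prime) (hq : q.Prime) (hpq : p ≠ q) {μ ν : Measure T}
    [IsFiniteMeasure μ] [IsFiniteMeasure ν] (hμ : Inv p q μ) (hν : Inv p q ν)
    (hμs : μ ⟂ₘ (volume : Measure T)) (hνs : ν ⟂ₘ (volume : Measure T)) {n : ℤ} (hn : n ≠ 0)
    {t : T} (ht : ¬ Tame p q t) : μ.map (fun x : T => n • x + t) ⟂ₘ ν := by
  by_cases hfin : IsOfFinAddOrder t
  · obtain ⟨a, b, s, u, w, rfl, hs, hps, hqs, hu, hw⟩ := split hp hq hfin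
    have hw0 : w ≠ 0 := by
      rintro rfl
      apply ht
      refine ⟨s, hs, ?_, by rw [add_zero]; exact hu⟩
      exact Nat.Coprime.mul_right (((Nat.Prime.coprime_iff_not_dvd hp).2 hps).symm)
        (((Nat.Prime.coprime_iff_not_dvd hq).2 hqs).symm)
    set M := s.totient with hM
    have hM1 : 1 ≤ M := Nat.totient_pos.2 hs
    have hpM : (p ^ M) • u = u :=
      smul_fix hu (Nat.ModEq.pow_totient ((Nat.Prime.coprime_iff_not_dvd hp).2 hps))
    have hqM : (q ^ M) • u = u :=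
      smul_fix hu (Nat.ModEq.pow_totient ((Nat.Prime.coprime_iff_not_dvd hq).2 hqs))
    have e : μ.map (fun x : T => n • x + (u + w)) =
        (μ.map (fun x : T => n • x + u)).map (fun x : T => x + w) := by
      rw [Measure.map_map (meas_add w) (meas_aff n u)]
      congr 1
      funext x
      simp [add_assoc]
    rw [e]
    have hfin' : IsFiniteMeasure (μ.map (fun x : T => n • x + u)) := Measure.isFiniteMeasure_map _ _
    have h1 := inv_aff (inv_pow hμ M) n hpM hqM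
    have h2 := inv_pow hν M
    have h3 : Inv (p ^ M) (q ^ M) (μ.map (fun x : T => n • x + u) + ν) :=
      ⟨mp_plus h1.1 h2.1, mp_plus h1.2 h2.2⟩
    exact sing_of_inj2 hw0 hw (inj_powers hp hq hpq hM1 h3 ((sing_aff hn u hμs).add_left hνs) a b)
  · obtain ⟨θ, hθ, hθt⟩ := irr_rep hfin
    have hco : Nat.Coprime p q := (Nat.coprime_primes hp hq).2 hpq
    refine Pool.Agent.H847R3.XpXq.maps hp.two_le hq.two_le
      (Pool.Agent.W764.SH.irr_of_coprime hp.two_le hq.two_le hco) hμ.1 hμ.2 hν.1 hν.2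
      (Or.inl hμs) (C := {(θ, fun _ => 1)}) (countable_singleton _) ?_ (meas_aff n t)
      (Eventually.of_forall fun x => ⟨n, 1, hn, one_ne_zero, _, mem_singleton _, ?_⟩)
    · rintro c rfl
      exact ⟨hθ, fun k => ⟨0, 0, by simp⟩⟩
    · have e : (1 : ℕ) • ((1 : ℤ) • (n • x + t) - n • x) = (θ : T) := by
        rw [hθt, one_smul, one_smul, add_sub_cancel_left]
      show Tendsto (fun _ : ℕ => (1 : ℕ) • ((1 : ℤ) • (n • x + t) - n • x)) atTop (𝓝 (θ : T))
      rw [e]
      exact tendsto_const_nhds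

lemma vol_sing_iff {c : ℝ≥0∞} {n : ℤ} (hn : n ≠ 0) (t : T) :
    (c • (volume : Measure T)).map (fun x : T => n • x + t) = c • volume := by
  rw [Measure.map_smul, vol_aff hn t]

/-- one of the two measures is singular -/
lemma aff_sing {p q : ℕ} (hp : p.Prime) (hq : q.Prime) (hpq : p ≠ q) {μ ν : Measure T}
    [IsFiniteMeasure μ] [IsFiniteMeasure ν] (hμ : Inv p q μ) (hν : Inv p q ν)
    (hs : μ ⟂ₘ (volume : Measure T) ∨ ν ⟂ₘ (volume : Measure T)) {n : ℤ} (hn : n ≠ 0)
    {t : T} (ht : ¬ Tame p q t) : μ.map (fun x : T => n • x + t) ⟂ₘ ν := by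
  rcases hs with hs | hs
  · obtain ⟨c, hinv, hdec⟩ := decomp hp.two_le hq.two_le hν
    rw [hdec]
    exact (aff_sing2 hp hq hpq hμ hinv hs (Measure.mutuallySingular_singularPart _ _) hn
      ht).add_right (((sing_aff hn t hs).symm.smul c).symm)
  · obtain ⟨c, hinv, hdec⟩ := decomp hp.two_le hq.two_le hμ
    rw [hdec, Measure.map_add _ _ (meas_aff n t), vol_sing_iff hn t]
    exact (aff_sing2 hp hq hpq hinv hν (Measure.mutuallySingular_singularPart _ _) hs hn
      ht).add_left ((hs.symm).smul c)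

/-- **Maps.** -/
theorem maps {p q : ℕ} (hp : p.Prime) (hq : q.Prime) (hpq : p ≠ q) {μ ν : Measure T}
    [IsProbabilityMeasure μ] [IsProbabilityMeasure ν] (hμ : Inv p q μ) (hν : Inv p q ν)
    (hs : μ ⟂ₘ (volume : Measure T) ∨ ν ⟂ₘ (volume : Measure T)) {C : Set T} (hC : C.Countable)
    (hCt : ∀ t ∈ C, ¬ Tame p q t) {f : T → T} (hf : Measurable f)
    (hfC : ∀ᵐ x ∂μ, ∃ a b : ℤ, a ≠ 0 ∧ b ≠ 0 ∧ ∃ t ∈ C, b • f x = a • x + t) :
    μ.map f ⟂ₘ ν := by
  have hCc : Countable C := hC.to_subtype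
  set P : {a : ℤ // a ≠ 0} × {b : ℤ // b ≠ 0} × C → Set T := fun i =>
    {x | (i.2.1 : ℤ) • f x = (i.1 : ℤ) • x + (i.2.2 : T)} with hP
  have hPm : ∀ i, MeasurableSet (P i) := fun i =>
    measurableSet_eq_fun ((continuous_zsmul (i.2.1 : ℤ)).measurable.comp hf)
      (meas_aff (i.1 : ℤ) (i.2.2 : T))
  have hpiece : ∀ i, (μ.restrict (P i)).map f ⟂ₘ ν := by
    rintro ⟨⟨a, ha⟩, ⟨b, hb⟩, ⟨t, ht⟩⟩
    refine sing_of_map (g := fun x : T => b • x) (continuous_zsmul b).measurable ?_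
    have e : ((μ.restrict (P ⟨⟨a, ha⟩, ⟨b, hb⟩, ⟨t, ht⟩⟩)).map f).map (fun x : T => b • x) =
        (μ.restrict (P ⟨⟨a, ha⟩, ⟨b, hb⟩, ⟨t, ht⟩⟩)).map (fun x : T => a • x + t) := by
      rw [Measure.map_map (continuous_zsmul b).measurable hf]
      refine Measure.map_congr ?_
      filter_upwards [ae_restrict_mem (hPm ⟨⟨a, ha⟩, ⟨b, hb⟩, ⟨t, ht⟩⟩)] with x hx
      exact hx
    rw [e]
    have hνb : Inv p q (ν.map (fun x : T => b • x)) := by
      have h1 := inv_aff hν b (t := 0) (smul_zero _) (smul_zero _)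
      simpa using h1
    have hfin : IsFiniteMeasure (ν.map (fun x : T => b • x)) := Measure.isFiniteMeasure_map _ _
    have hs' : μ ⟂ₘ (volume : Measure T) ∨
        ν.map (fun x : T => b • x) ⟂ₘ (volume : Measure T) :=
      hs.imp id fun h => Pool.Agent.H847R3.XpXq.sing_map hb h
    have h2 := aff_sing hp hq hpq hμ hνb hs' ha (hCt t ht)
    refine h2.mono_ac ?_ Measure.AbsolutelyContinuous.rfl
    exact (Measure.map_mono Measure.restrict_le_self (meas_aff a t)).absolutelyContinuous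
  have hsum : Measure.sum (fun i => (μ.restrict (P i)).map f) ⟂ₘ ν :=
    Measure.MutuallySingular.sum_left.2 hpiece
  refine hsum.mono_ac ?_ Measure.AbsolutelyContinuous.rfl
  refine Measure.AbsolutelyContinuous.mk fun A hA hA0 => ?_
  rw [Measure.sum_apply _ hA, ENNReal.tsum_eq_zero] at hA0
  rw [Measure.map_apply hf hA]
  have hcov : ∀ᵐ x ∂μ, x ∈ ⋃ i, P i := by
    filter_upwards [hfC] with x hx
    obtain ⟨a, b, ha, hb, t, ht, hxt⟩ := hx
    exact mem_iUnion.2 ⟨⟨⟨a, ha⟩, ⟨b, hb⟩, ⟨t, ht⟩⟩, hxt⟩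
  have hz : μ (⋃ i, f ⁻¹' A ∩ P i) = 0 := by
    refine measure_iUnion_null fun i => ?_
    have h1 := hA0 i
    rwa [Measure.map_apply hf hA, Measure.restrict_apply (hf hA)] at h1
  refine le_antisymm ?_ zero_le
  calc μ (f ⁻¹' A) ≤ μ (⋃ i, f ⁻¹' A ∩ P i) := by
        refine measure_mono_ae ?_
        filter_upwards [hcov] with x hx hxA
        obtain ⟨i, hi⟩ := mem_iUnion.1 hx
        exact mem_iUnion.2 ⟨i, hxA, hi⟩
    _ = 0 := hz

end Q70.Af
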