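import Pool.Agent.Q70.AfH

/-!
Joint ergodicity, the zero-one law, the stabiliser, the conjecture near Lebesgue measure.
-/

set_option autoImplicit false

open MeasureTheory Filter Topology Set
open scoped ENNReal

namespace Q70.Af

open Pool.Agent.W764.FB

/-- ergodicity for the joint action of `×p` and `×q` -/
def JE (p q : ℕ) (μ : Measure T) : Prop :=
  ∀ E : Set T, MeasurableSet E → (fun x : T => p • x) ⁻¹' E = E →
    (fun x : T => q • x) ⁻¹' E = E → μ E = 0 ∨ μ E = 1

lemma je_ae {p q : ℕ} {μ : Measure T} [IsProbabilityMeasure μ] (h : Inv p q μ) (hj : JE p q μ)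
    {S : Set T} (hS : MeasurableSet S) (hp : ∀ᵐ x ∂μ, (p • x ∈ S ↔ x ∈ S))
    (hq : ∀ᵐ x ∂μ, (q • x ∈ S ↔ x ∈ S)) : μ S = 0 ∨ μ S = 1 := by
  set S' : Set T := {x | ∀ n : ℕ, ∃ i, n ≤ i ∧ ∃ j, n ≤ j ∧ (p ^ i * q ^ j) • x ∈ S} with hS'
  have hm : MeasurableSet S' := by
    have : S' = ⋂ n : ℕ, ⋃ i : ℕ, ⋃ _ : n ≤ i, ⋃ j : ℕ, ⋃ _ : n ≤ j,
        (fun x : T => (p ^ i * q ^ j) • x) ⁻¹' S := by
      ext x
      simp [hS']
    rw [this]
    exact MeasurableSet.iInter fun n => MeasurableSet.iUnion fun i => MeasurableSet.iUnion fun _ =>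
      MeasurableSet.iUnion fun j => MeasurableSet.iUnion fun _ => meas_nsmul _ hS
  have hP : (fun x : T => p • x) ⁻¹' S' = S' := by
    ext x
    constructor
    · intro hx n
      obtain ⟨i, hi, j, hj, h1⟩ := hx n
      refine ⟨i + 1, by omega, j, hj, ?_⟩
      rw [smul_smul] at h1
      convert h1 using 2
      ring
    · intro hx n
      obtain ⟨i, hi, j, hj, h1⟩ := hx (n + 1)
      refine ⟨i - 1, by omega, j, by omega, ?_⟩
      rw [smul_smul]
      convert h1 using 2
      have : p ^ i = p ^ (i - 1) * p := by rw [← pow_succ]; congr 1; omega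
      rw [this]; ring
  have hQ : (fun x : T => q • x) ⁻¹' S' = S' := by
    ext x
    constructor
    · intro hx n
      obtain ⟨i, hi, j, hj, h1⟩ := hx n
      refine ⟨i, hi, j + 1, by omega, ?_⟩
      rw [smul_smul] at h1
      convert h1 using 2
      ring
    · intro hx n
      obtain ⟨i, hi, j, hj, h1⟩ := hx (n + 1)
      refine ⟨i, by omega, j - 1, by omega, ?_⟩
      rw [smul_smul]
      convert h1 using 2
      have : q ^ j = q ^ (j - 1) * q := by rw [← pow_succ]; congr 1; omega
      rw [this]; ring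
  have hall : ∀ᵐ x ∂μ, ∀ i j : ℕ, ((p ^ i * q ^ j) • x ∈ S ↔ x ∈ S) := by
    have h1 : ∀ i : ℕ, ∀ᵐ x ∂μ, (p • ((p ^ i) • x) ∈ S ↔ (p ^ i) • x ∈ S) := fun i =>
      (mp_pow h.1 i).quasiMeasurePreserving.ae hp
    have h2 : ∀ j : ℕ, ∀ᵐ x ∂μ, (q • ((q ^ j) • x) ∈ S ↔ (q ^ j) • x ∈ S) := fun j =>
      (mp_pow h.2 j).quasiMeasurePreserving.ae hq
    have h3 : ∀ᵐ x ∂μ, ∀ i : ℕ, ((p ^ i) • x ∈ S ↔ x ∈ S) := by
      filter_upwards [ae_all_iff.2 h1] with x hx i
      induction i with
      | zero => simp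
      | succ i ih => rw [← ih, ← hx i, smul_smul, pow_succ']
    have h4 : ∀ᵐ x ∂μ, ∀ j : ℕ, ((q ^ j) • x ∈ S ↔ x ∈ S) := by
      filter_upwards [ae_all_iff.2 h2] with x hx j
      induction j with
      | zero => simp
      | succ j ih => rw [← ih, ← hx j, smul_smul, pow_succ']
    have h5 : ∀ j : ℕ, ∀ᵐ x ∂μ, ∀ i : ℕ, ((p ^ i) • ((q ^ j) • x) ∈ S ↔ (q ^ j) • x ∈ S) :=
      fun j => (mp_pow h.2 j).quasiMeasurePreserving.ae h3
    filter_upwards [h4, ae_all_iff.2 h5] with x hx4 hx5 i j
    rw [mul_smul, hx5 j i, hx4 j]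
  have hSS : μ S = μ S' := by
    refine measure_congr ?_
    filter_upwards [hall] with x hx
    apply propext
    show x ∈ S ↔ x ∈ S'
    constructor
    · exact fun h n => ⟨n, le_rfl, n, le_rfl, (hx n n).2 h⟩
    · intro h
      obtain ⟨i, _, j, _, h1⟩ := h 0
      exact (hx i j).1 h1
  rw [hSS]
  exact hj S' hm hP hQ

/-- the density of one invariant measure with respect to another, jointly ergodic one -/
lemma je_density {p q : ℕ} {μ ν : Measure T} [IsFiniteMeasure μ] [IsProbabilityMeasure ν]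
    (hμ : Inv p q μ) (hν : Inv p q ν) (hj : JE p q ν) :
    ∃ c : ℝ≥0∞, ν.withDensity (μ.rnDeriv ν) = c • ν := by
  have h1 := hμ.1.rnDeriv_comp_aeEq hν.1
  have h2 := hμ.2.rnDeriv_comp_aeEq hν.2
  obtain ⟨c, hc⟩ := exists_eventuallyEq_const_of_forall_separating (l := ae ν)
    (f := μ.rnDeriv ν) MeasurableSet fun U hU => by
      have h3 := je_ae hν hj (S := μ.rnDeriv ν ⁻¹' U) (Measure.measurable_rnDeriv _ _ hU)
        (by
          filter_upwards [h1] with x hx
          show μ.rnDeriv ν (p • x) ∈ U ↔ μ.rnDeriv ν x ∈ U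
          rw [← hx]; rfl)
        (by
          filter_upwards [h2] with x hx
          show μ.rnDeriv ν (q • x) ∈ U ↔ μ.rnDeriv ν x ∈ U
          rw [← hx]; rfl)
      rcases h3 with h3 | h3
      · right
        rw [ae_iff]
        simp only [not_not]
        exact h3
      · left
        rw [ae_iff]
        exact (prob_compl_eq_zero_iff (Measure.measurable_rnDeriv _ _ hU)).2 h3
  refine ⟨c, ?_⟩
  rw [withDensity_congr_ae hc]
  exact withDensity_const c

lemma je_eq_or_sing {p q : ℕ} {μ ν : Measure T} [IsProbabilityMeasure μ]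
    [IsProbabilityMeasure ν] (hμ : Inv p q μ) (hν : Inv p q ν) (hμj : JE p q μ)
    (hνj : JE p q ν) : μ = ν ∨ μ ⟂ₘ ν := by
  have hleb : μ.HaveLebesgueDecomposition ν :=
    Measure.haveLebesgueDecomposition_of_sigmaFinite _ _
  have hleb' : ν.HaveLebesgueDecomposition μ :=
    Measure.haveLebesgueDecomposition_of_sigmaFinite _ _
  obtain ⟨c, hc⟩ := je_density hμ hν hνj
  by_cases hc0 : c = 0
  · right
    rw [Measure.haveLebesgueDecomposition_add μ ν, hc, hc0, zero_smul, add_zero]
    exact Measure.mutuallySingular_singularPart μ ν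
  · left
    have h1 : ν ≪ μ := by
      have h2 : ν ≪ c • ν := Measure.AbsolutelyContinuous.rfl.smul_right hc0
      rw [← hc] at h2
      exact h2.trans (Measure.withDensity_rnDeriv_le μ ν).absolutelyContinuous
    obtain ⟨c', hc'⟩ := je_density hν hμ hμj
    rw [Measure.withDensity_rnDeriv_eq _ _ h1] at hc'
    have h3 : ν univ = c' * μ univ := by
      conv_lhs => rw [hc']
      rw [Measure.smul_apply, smul_eq_mul]
    rw [measure_univ, measure_univ, mul_one] at h3
    rw [hc', ← h3, one_smul]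

lemma je_vol {p : ℕ} (hp : 2 ≤ p) (q : ℕ) : JE p q (volume : Measure T) := fun _ hE h _ =>
  (AddCircle.ergodic_nsmul (by omega : 1 < p)).prob_eq_zero_or_one hE h

lemma inv_vol {p q : ℕ} (hp : 2 ≤ p) (hq : 2 ≤ q) : Inv p q (volume : Measure T) :=
  ⟨(AddCircle.ergodic_nsmul (by omega : 1 < p)).toMeasurePreserving,
    (AddCircle.ergodic_nsmul (by omega : 1 < q)).toMeasurePreserving⟩

lemma je_aff {p q : ℕ} {μ : Measure T} (h : JE p q μ) (n : ℤ) {t : T} (hp : p • t = t)
    (hq : q • t = t) : JE p q (μ.map (fun x : T => n • x + t)) := by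
  intro E hE h1 h2
  rw [Measure.map_apply (meas_aff n t) hE]
  refine h _ (meas_aff n t hE) ?_ ?_
  · conv_rhs => rw [← h1]
    ext x
    have h3 : n • (p • x) + t = p • (n • x + t) := semi n hp x
    simp only [mem_preimage]
    rw [h3]
  · conv_rhs => rw [← h2]
    ext x
    have h3 : n • (q • x) + t = q • (n • x + t) := semi n hq x
    simp only [mem_preimage]
    rw [h3]

/-- **The zero-one law.** -/
theorem zero_one_je {p q : ℕ} (hp : p.Prime) (hq : q.Prime) (hpq : p ≠ q) {μ ν : Measure T}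
    [IsProbabilityMeasure μ] [IsProbabilityMeasure ν] (hμ : Inv p q μ) (hν : Inv p q ν)
    (hμj : ∀ M : ℕ, 1 ≤ M → JE (p ^ M) (q ^ M) μ) (hνj : ∀ M : ℕ, 1 ≤ M → JE (p ^ M) (q ^ M) ν)
    {n : ℤ} (hn : n ≠ 0) (t : T) :
    μ.map (fun x : T => n • x + t) = ν ∨ μ.map (fun x : T => n • x + t) ⟂ₘ ν := by
  have hprob := prob_aff μ n t
  by_cases ht : Tame p q t
  · obtain ⟨s, hs, hsc, hst⟩ := ht
    set M := s.totient with hM
    have hM1 : 1 ≤ M := Nat.totient_pos.2 hs
    have hpM : (p ^ M) • t = t :=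
      smul_fix hst (Nat.ModEq.pow_totient (hsc.coprime_mul_right_right).symm)
    have hqM : (q ^ M) • t = t :=
      smul_fix hst (Nat.ModEq.pow_totient (hsc.coprime_mul_left_right).symm)
    exact je_eq_or_sing (inv_aff (inv_pow hμ M) n hpM hqM) (inv_pow hν M)
      (je_aff (hμj M hM1) n hpM hqM) (hνj M hM1)
  · have hvi := inv_vol hp.two_le hq.two_le
    have hvj := je_vol hp.two_le q
    have hμ1 : JE p q μ := by simpa using hμj 1 le_rfl
    have hν1 : JE p q ν := by simpa using hνj 1 le_rfl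
    rcases je_eq_or_sing hμ hvi hμ1 hvj with h | h
    · rcases je_eq_or_sing hν hvi hν1 hvj with h' | h'
      · left
        rw [h, h']
        exact vol_aff hn t
      · right
        exact aff_sing hp hq hpq hμ hν (Or.inr h') hn ht
    · right
      exact aff_sing hp hq hpq hμ hν (Or.inl h) hn ht

/-- **The stabiliser.** -/
theorem stab_sing {p q : ℕ} (hp : p.Prime) (hq : q.Prime) (hpq : p ≠ q) {ν : Measure T}
    [IsProbabilityMeasure ν] (hν : Inv p q ν) (hs : ν ⟂ₘ (volume : Measure T)) :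
    ∃ m : ℕ, 1 ≤ m ∧ m.Coprime (p * q) ∧
      ∀ t : T, ν.map (fun x : T => x + t) = ν ↔ m • t = 0 := by
  have hne : ν ≠ volume := by
    rintro rfl
    exact IsProbabilityMeasure.ne_zero (volume : Measure T)
      ((Measure.MutuallySingular.self_iff _).1 hs)
  obtain ⟨a, ha⟩ := Int.subgroup_cyclic (AddSubgroup.closure {k : ℤ | fc ν k ≠ 0})
  have hmem : ∀ k : ℤ, fc ν k ≠ 0 → k ∈ AddSubgroup.closure {a} := by
    intro k hk
    rw [← ha]
    exact AddSubgroup.subset_closure hk
  have key : ∀ t : T, ν.map (fun x : T => x + t) = ν ↔ a.natAbs • t = 0 := by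
    intro t
    have hnat : a.natAbs • t = 0 ↔ a • t = 0 := by
      rw [← natCast_zsmul, Int.natCast_natAbs]
      rcases abs_choice a with h | h
      · rw [h]
      · rw [h, neg_zsmul, neg_eq_zero]
    rw [hnat]
    constructor
    · intro h
      have h1 : AddSubgroup.closure {k : ℤ | fc ν k ≠ 0} ≤ (zmultiplesHom T t).ker := by
        rw [AddSubgroup.closure_le]
        intro k hk
        have h2 := fc_add ν t k
        rw [h] at h2
        have h3 : fourier k t = 1 := by
          have h4 : (1 - fourier k t) * fc ν k = 0 := by rw [sub_mul, one_mul, ← h2, sub_self]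
          rcases mul_eq_zero.1 h4 with h5 | h5
          · exact (sub_eq_zero.1 h5).symm
          · exact absurd h5 hk
        show k • t = 0
        exact (fourier_one_iff k t).1 h3
      have h2 : a ∈ (zmultiplesHom T t).ker := h1 (by rw [ha]; exact AddSubgroup.subset_closure rfl)
      exact h2
    · intro h
      have hprob := prob_add ν t
      refine ext_fourier fun k => ?_
      have h1 := fc_add ν t k
      unfold fc at h1
      rw [h1]
      by_cases hk : fc ν k = 0
      · unfold fc at hk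
        rw [hk, mul_zero]
      · have h2 : AddSubgroup.closure {a} ≤ (zmultiplesHom T t).ker := by
          rw [AddSubgroup.closure_le]
          rintro _ rfl
          exact h
        have h3 : k • t = 0 := h2 (hmem k hk)
        rw [(fourier_one_iff k t).2 h3, one_mul]
  have ha0 : a ≠ 0 := by
    rintro rfl
    apply hne
    refine eq_volume fun m hm => ?_
    by_contra h
    have h1 := hmem m h
    rw [AddSubgroup.mem_closure_singleton] at h1
    obtain ⟨c, hc⟩ := h1
    exact hm (by simpa using hc.symm)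
  have hcop : ∀ r : ℕ, r.Prime → InjAE r ν → ¬ r ∣ a.natAbs := by
    intro r hr hinj hdvd
    obtain ⟨t, ht0, hrt, hmt⟩ := exists_tors hr hdvd
    have h1 := sing_of_inj ht0 hrt hinj
    rw [(key t).2 hmt] at h1
    have h2 := (Measure.MutuallySingular.self_iff _).1 h1
    exact IsProbabilityMeasure.ne_zero ν h2
  refine ⟨a.natAbs, Int.natAbs_pos.2 ha0, ?_, key⟩
  have h1 := hcop p hp (by simpa using inj_all hp hq hpq hν hs 1 0)
  have h2 := hcop q hq (by simpa using inj_all hp hq hpq hν hs 0 1)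
  exact Nat.Coprime.mul_right (((Nat.Prime.coprime_iff_not_dvd hp).2 h1).symm)
    (((Nat.Prime.coprime_iff_not_dvd hq).2 h2).symm)

end Q70.Af
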