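import Pool.Agent.Q70.AfI

/-!
Images of atomless measures near Lebesgue measure.
-/

set_option autoImplicit false

open MeasureTheory Filter Topology Set
open scoped ENNReal

namespace Q70.Af

open Pool.Agent.W764.FB

theorem near0 {μ : Measure T} [IsProbabilityMeasure μ] (h : ∀ x, μ {x} = 0) (K : ℕ) {ε : ℝ}
    (hε : 0 < ε) : ∃ n : ℕ, 1 ≤ n ∧
      ∀ k : ℕ, 1 ≤ k → k ≤ K → ‖fc (μ.map (fun x : T => (n : ℤ) • x + 0)) k‖ < ε := by
  have h1 : ∀ k : ℕ, ∃ L₀ : ℕ, 1 ≤ k → ∀ L : ℕ, L₀ ≤ L →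
      (({n : ℤ | ε ≤ ‖fc μ (k * n)‖} ∩ Ico 1 (1 + L)).ncard : ℝ) ≤ 1 / (2 * (K + 1)) * L := by
    intro k
    by_cases hk : 1 ≤ k
    · obtain ⟨L₀, hL₀⟩ := density h (k := (k : ℤ)) (by exact_mod_cast (by omega : k ≠ 0)) hε
        (ε := 1 / (2 * ((K : ℝ) + 1))) (by positivity)
      exact ⟨L₀, fun _ L hL => hL₀ L hL 1⟩
    · exact ⟨0, fun h => absurd h hk⟩
  choose L₀ hL₀ using h1
  set L : ℕ := (∑ k ∈ Finset.range (K + 1), L₀ k) + 1 with hL
  have hLk : ∀ k ∈ Finset.Icc 1 K, L₀ k ≤ L := by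
    intro k hk
    rw [Finset.mem_Icc] at hk
    have : L₀ k ≤ ∑ k ∈ Finset.range (K + 1), L₀ k :=
      Finset.single_le_sum (f := L₀) (fun _ _ => Nat.zero_le _)
        (Finset.mem_range.2 (by omega : k < K + 1))
    omega
  have hex : ∃ n : ℤ, n ∈ Ico (1 : ℤ) (1 + L) ∧ ∀ k ∈ Finset.Icc 1 K, ‖fc μ (k * n)‖ < ε := by
    by_contra hcon
    push Not at hcon
    classical
    have hsub : Ico (1 : ℤ) (1 + L) ⊆ ⋃ k ∈ Finset.Icc 1 K,
        ({n : ℤ | ε ≤ ‖fc μ (k * n)‖} ∩ Ico 1 (1 + L)) := by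
      intro n hn
      obtain ⟨k, hk, hkn⟩ := hcon n hn
      rw [mem_iUnion₂]
      exact ⟨k, hk, hkn, hn⟩
    have h2 : (Ico (1 : ℤ) (1 + L)).ncard = L := by
      rw [← Finset.coe_Ico, Set.ncard_coe_finset, Int.card_Ico]
      omega
    have h3 : (Ico (1 : ℤ) (1 + L)).ncard ≤
        ∑ k ∈ Finset.Icc 1 K, ({n : ℤ | ε ≤ ‖fc μ (k * n)‖} ∩ Ico 1 (1 + L)).ncard := by
      refine (Set.ncard_le_ncard hsub ?_).trans ?_
      · exact Set.Finite.biUnion (Finset.finite_toSet _) fun k _ =>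
          (Set.finite_Ico (1 : ℤ) (1 + L)).subset inter_subset_right
      · exact Finset.set_ncard_biUnion_le _ _
    have h4 : (L : ℝ) ≤ ∑ k ∈ Finset.Icc 1 K, (1 / (2 * ((K : ℝ) + 1)) * L) := by
      have h5 : (L : ℝ) ≤ ∑ k ∈ Finset.Icc 1 K,
          (({n : ℤ | ε ≤ ‖fc μ (k * n)‖} ∩ Ico 1 (1 + L)).ncard : ℝ) := by
        rw [h2] at h3
        exact_mod_cast h3
      refine h5.trans (Finset.sum_le_sum fun k hk => ?_)
      exact hL₀ k (Finset.mem_Icc.1 hk).1 L (hLk k hk)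
    rw [Finset.sum_const, Nat.card_Icc, nsmul_eq_mul] at h4
    have hLpos : (0 : ℝ) < L := by rw [hL]; positivity
    have hK : ((K + 1 - 1 : ℕ) : ℝ) = K := by simp
    rw [hK] at h4
    have h6 : (K : ℝ) * (1 / (2 * ((K : ℝ) + 1)) * L) = (K / (2 * (K + 1))) * L := by ring
    rw [h6] at h4
    have h7 : (K : ℝ) / (2 * (K + 1)) < 1 := by
      rw [div_lt_one (by positivity)]
      have : (0 : ℝ) ≤ K := Nat.cast_nonneg K
      linarith
    nlinarith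
  obtain ⟨n, hn, hnk⟩ := hex
  have hn1 : 1 ≤ n := hn.1
  obtain ⟨m, rfl⟩ : ∃ m : ℕ, n = m := ⟨n.toNat, by omega⟩
  refine ⟨m, by exact_mod_cast hn1, fun k hk1 hkK => ?_⟩
  rw [fc_aff, (fourier_one_iff _ 0).2 (smul_zero _), one_mul]
  exact hnk k (Finset.mem_Icc.2 ⟨hk1, hkK⟩)

/-- the singular part of an atomless invariant measure, normalised -/
lemma sing_part {p q : ℕ} (hp : 2 ≤ p) (hq : 2 ≤ q) {μ : Measure T} [IsProbabilityMeasure μ]
    (hμ : Inv p q μ) (h : ∀ x, μ {x} = 0) (hne : μ ≠ volume) :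
    ∃ σ : Measure T, IsProbabilityMeasure σ ∧ Inv p q σ ∧ (∀ x, σ {x} = 0) ∧
      σ ⟂ₘ (volume : Measure T) := by
  obtain ⟨c, hinv, hdec⟩ := decomp hp hq hμ
  have h0 : μ.singularPart volume ≠ 0 := by
    intro h0
    rw [h0, zero_add] at hdec
    have h1 : μ univ = c * (volume : Measure T) univ := by
      conv_lhs => rw [hdec]
      rw [Measure.smul_apply, smul_eq_mul]
    rw [measure_univ, measure_univ, mul_one] at h1
    rw [← h1, one_smul] at hdec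
    exact hne hdec
  refine ⟨((μ.singularPart volume) univ)⁻¹ • μ.singularPart volume, norm_prob h0,
    ⟨mp_const hinv.1 _, mp_const hinv.2 _⟩, fun x => ?_,
    (Measure.mutuallySingular_singularPart _ _).smul _⟩
  rw [Measure.smul_apply, smul_eq_mul]
  have : μ.singularPart volume {x} = 0 :=
    le_antisymm ((Measure.singularPart_le μ volume {x}).trans (h x).le) zero_le
  rw [this, mul_zero]

/-- **The conjecture near Lebesgue measure.** -/
theorem local_iff {p q : ℕ} (hp : 2 ≤ p) (hq : 2 ≤ q) :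
    (∀ μ : Measure T, IsProbabilityMeasure μ → Inv p q μ → (∀ x, μ {x} = 0) → μ = volume) ↔
    ∃ (K : ℕ) (ε : ℝ), 0 < ε ∧ ∀ μ : Measure T, IsProbabilityMeasure μ → Inv p q μ →
      (∀ x, μ {x} = 0) → μ ⟂ₘ (volume : Measure T) →
      ∃ k : ℕ, 1 ≤ k ∧ k ≤ K ∧ ε ≤ ‖∫ x, fourier (k : ℤ) x ∂μ‖ := by
  constructor
  · intro h
    refine ⟨0, 1, one_pos, fun μ hμ hi ha hs => ?_⟩
    rw [h μ hμ hi ha] at hs
    exact absurd ((Measure.MutuallySingular.self_iff _).1 hs)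
      (IsProbabilityMeasure.ne_zero (volume : Measure T))
  · rintro ⟨K, ε, hε, h⟩ μ hμ hi ha
    by_contra hne
    obtain ⟨σ, hσ, hσi, hσa, hσs⟩ := sing_part hp hq hi ha hne
    obtain ⟨n, hn, hnk⟩ := near0 hσa K hε
    have hn0 : (n : ℤ) ≠ 0 := by exact_mod_cast (by omega : n ≠ 0)
    obtain ⟨k, hk1, hk2, hk3⟩ := h (σ.map (fun x : T => (n : ℤ) • x + 0)) (prob_aff σ n 0)
      (inv_aff hσi n (smul_zero _) (smul_zero _)) (atomless_aff hσa hn0 0) (sing_aff hn0 0 hσs)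
    exact absurd (hnk k hk1 hk2) (not_lt.2 hk3)

end Q70.Af
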