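import Pool.Agent.Q70.AfF

/-!
Measures invariant under `×p` and `×q` which are singular to Lebesgue measure: the map `x ↦ p x` is
injective off a null set (no ergodicity is assumed).
-/

set_option autoImplicit false

open MeasureTheory Filter Topology Set
open scoped ENNReal

namespace Q70.Af

open Pool.Agent.W764.FB

lemma int_mu1 (p : ℕ) (μ : Measure T) [IsFiniteMeasure μ] (m : ℤ) :
    ∫ x, fourier m x ∂(mu1 p μ) =
      (∑ k ∈ Finset.range p, fourier m (hh p 1 k)) * ∫ x, fourier m x ∂μ := by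
  unfold mu1
  rw [integral_finset_sum_measure, Finset.sum_mul]
  · refine Finset.sum_congr rfl fun k _ => ?_
    have h := fc_add μ (hh p 1 k) m
    unfold fc at h
    exact h
  · intro k _
    exact Integrable.of_bound (fourier m).continuous.aestronglyMeasurable 1
      (Eventually.of_forall fun x => (norm_four m x).le)

lemma sum_hh {p : ℕ} (hp : 0 < p) (m : ℤ) :
    ∑ k ∈ Finset.range p, fourier m (hh p 1 k) = if (p : ℤ) ∣ m then (p : ℂ) else 0 := by
  split_ifs with h
  · obtain ⟨c, rfl⟩ := h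
    have h1 : ∀ k ∈ Finset.range p, fourier (p * c) (hh p 1 k) = 1 := by
      intro k _
      rw [fourier_one_iff, mul_comm, mul_zsmul, natCast_zsmul]
      have h2 : p • hh p 1 k = hh p 0 k := smul_hh p 0 k hp
      rw [h2]
      unfold hh
      rw [pow_zero, div_one]
      have : (((k : ℝ)) : T) = 0 := by
        rw [AddCircle.coe_eq_zero_iff]
        exact ⟨k, by simp⟩
      rw [this, smul_zero]
    rw [Finset.sum_congr rfl h1]
    simp
  · have h1 := fourier_sum_zero hp 1 (t := m) (by rwa [pow_one]) 0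
    rw [pow_one] at h1
    simpa using h1

lemma fc_smul (μ : Measure T) (q : ℕ) (m : ℤ) :
    ∫ x, fourier m x ∂(μ.map fun x : T => q • x) = ∫ x, fourier (m * q) x ∂μ := by
  have h := fc_aff μ q 0 m
  unfold fc at h
  have e : (fun x : T => (q : ℤ) • x + 0) = fun x : T => q • x := by
    funext x; rw [add_zero, natCast_zsmul]
  rw [e, (fourier_one_iff m 0).2 (smul_zero _), one_mul] at h
  exact h

lemma mu1_q {p q : ℕ} (hp : p.Prime) (hpq : ¬ p ∣ q) {μ : Measure T} [IsFiniteMeasure μ]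
    (hq : MeasurePreserving (fun x : T => q • x) μ μ) :
    MeasurePreserving (fun x : T => q • x) (mu1 p μ) (mu1 p μ) := by
  refine ⟨meas_nsmul q, ?_⟩
  have hfin : IsFiniteMeasure ((mu1 p μ).map fun x : T => q • x) :=
    Measure.isFiniteMeasure_map _ _
  refine ext_fourier fun m => ?_
  rw [fc_smul, int_mu1, int_mu1, sum_hh hp.pos, sum_hh hp.pos, ← fc_smul, hq.map_eq]
  congr 1
  have hpz : Prime (p : ℤ) := Nat.prime_iff_prime_int.1 hp
  have h1 : (p : ℤ) ∣ m * q ↔ (p : ℤ) ∣ m := by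
    constructor
    · intro h
      rcases hpz.dvd_or_dvd h with h2 | h2
      · exact h2
      · exact absurd (by exact_mod_cast h2) hpq
    · exact fun h => h.mul_right _
  simp only [h1]

/-- the density is invariant under `×q` -/
lemma psi_inv {p q : ℕ} (hp : p.Prime) (hpq : ¬ p ∣ q) {μ : Measure T} [IsFiniteMeasure μ]
    (hq : MeasurePreserving (fun x : T => q • x) μ μ) {ψ : T → ℝ≥0∞} (hψ : Measurable ψ)
    (h : ∀ g : T → ℝ≥0∞, Measurable g → ∫⁻ x, fs p 1 (fun y => ψ y * g y) x ∂μ = ∫⁻ x, g x ∂μ) :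
    ∀ᵐ x ∂μ, ψ (q • x) = ψ x := by
  have hfin : IsFiniteMeasure (mu1 p μ) := inferInstance
  have h1 : (mu1 p μ).withDensity ψ = μ := by
    ext s hs
    rw [withDensity_apply _ hs, ← lintegral_indicator hs]
    have e : (fun x => s.indicator ψ x) = fun x => ψ x * s.indicator 1 x := by
      funext x
      by_cases hx : x ∈ s
      · simp [hx]
      · simp [hx]
    rw [e, lintegral_mu1 p μ (g := fun x => ψ x * s.indicator 1 x)
      (hψ.mul (measurable_one.indicator hs)), h _ (measurable_one.indicator hs),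
      lintegral_indicator_one hs]
  have h2 : μ.rnDeriv (mu1 p μ) =ᵐ[mu1 p μ] ψ := by
    have := Measure.rnDeriv_withDensity (mu1 p μ) hψ
    rwa [h1] at this
  have hmq := mu1_q hp hpq hq
  have h3 := hq.rnDeriv_comp_aeEq hmq
  have h4 : μ.rnDeriv (mu1 p μ) ∘ (fun x : T => q • x) =ᵐ[mu1 p μ] ψ ∘ (fun x : T => q • x) :=
    hmq.quasiMeasurePreserving.ae_eq_comp h2
  have h5 : ψ ∘ (fun x : T => q • x) =ᵐ[mu1 p μ] ψ := h4.symm.trans (h3.trans h2)
  exact (le_mu1 hp.pos μ).absolutelyContinuous.ae_le h5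

/-- the case of a trivial density -/
lemma inj_of_psi {p : ℕ} (hp : 0 < p) {μ : Measure T} [IsProbabilityMeasure μ] {ψ : T → ℝ≥0∞}
    (hψm : Measurable ψ) (hψ1 : ∀ x, ψ x ≤ 1)
    (hψ : ∀ g : T → ℝ≥0∞, Measurable g → ∫⁻ x, fs p 1 (fun y => ψ y * g y) x ∂μ = ∫⁻ x, g x ∂μ)
    (h0 : μ {x | ψ x < 1} = 0) :
    ∃ B : Set T, MeasurableSet B ∧ μ Bᶜ = 0 ∧ InjOn (fun x : T => p • x) B := by
  set A : Set T := {x | ψ x = 1} with hA
  have hAm : MeasurableSet A := measurableSet_eq_fun hψm measurable_const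
  have hAc : μ Aᶜ = 0 := by
    have : Aᶜ = {x | ψ x < 1} := by
      ext x
      simp only [hA, mem_compl_iff, mem_ofPred_eq]
      exact ⟨fun h => lt_of_le_of_ne (hψ1 x) h, fun h => h.ne⟩
    rw [this, h0]
  have hk : ∀ k, 1 ≤ k → k < p → μ {x | x + hh p 1 k ∈ A} = 0 := by
    intro k hk1 hkp
    have h1 := hψ (A.indicator 1) (measurable_one.indicator hAm)
    rw [lintegral_indicator_one hAm] at h1
    have hA1 : μ A = 1 := (prob_compl_eq_zero_iff hAm).1 hAc
    have h2 : ∫⁻ x, (A.indicator (1 : T → ℝ≥0∞) x + A.indicator 1 (x + hh p 1 k)) ∂μ ≤ μ A := by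
      rw [← h1]
      refine lintegral_mono fun x => ?_
      have h3 : ∀ y, ψ y * A.indicator (1 : T → ℝ≥0∞) y = A.indicator 1 y := by
        intro y
        by_cases hy : y ∈ A
        · rw [indicator_of_mem hy]
          have : ψ y = 1 := hy
          rw [this, one_mul]
        · rw [indicator_of_notMem hy, mul_zero]
      unfold fs
      simp_rw [h3]
      have h4 : ({0, k} : Finset ℕ) ⊆ Finset.range (p ^ 1) := by
        intro j hj
        rw [Finset.mem_insert, Finset.mem_singleton] at hj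
        rw [pow_one, Finset.mem_range]
        omega
      refine le_trans (le_of_eq ?_) (Finset.sum_le_sum_of_subset h4)
      rw [Finset.sum_pair (by omega), hh_zero, add_zero]
    rw [lintegral_add_left (measurable_one.indicator hAm), lintegral_indicator_one hAm, hA1] at h2
    have h5 : ∫⁻ x, A.indicator (1 : T → ℝ≥0∞) (x + hh p 1 k) ∂μ = 0 := by
      have h6 : (1 : ℝ≥0∞) + ∫⁻ x, A.indicator (1 : T → ℝ≥0∞) (x + hh p 1 k) ∂μ ≤ 1 + 0 := by
        rw [add_zero]; exact h2
      have := (ENNReal.add_le_add_iff_left (by simp)).1 h6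
      exact le_antisymm this zero_le
    have h7 : (fun x => A.indicator (1 : T → ℝ≥0∞) (x + hh p 1 k)) =
        {x | x + hh p 1 k ∈ A}.indicator 1 := by
      ext x
      simp only [indicator, mem_ofPred_eq, Pi.one_apply]
    have hmk : MeasurableSet {x | x + hh p 1 k ∈ A} := measurable_add_const _ hAm
    rw [h7] at h5
    exact (lintegral_indicator_one hmk).symm.trans h5
  set B : Set T := A ∩ ⋂ k ∈ Finset.Ico 1 p, {x | x + hh p 1 k ∈ A}ᶜ with hB
  refine ⟨B, ?_, ?_, ?_⟩
  · exact hAm.inter (Finset.measurableSet_biInter _ fun k _ => (measurable_add_const _ hAm).compl)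
  · rw [hB, compl_inter, compl_iInter₂]
    simp only [compl_compl]
    refine measure_union_null hAc ?_
    refine (measure_biUnion_null_iff (Finset.Ico 1 p).countable_toSet).2 fun k hk' => ?_
    rw [Finset.coe_Ico, mem_Ico] at hk'
    exact hk k hk'.1 hk'.2
  · intro x hx y hy hxy
    have h1 : p • (y - x) = 0 := by
      rw [nsmul_sub, sub_eq_zero]; exact hxy.symm
    obtain ⟨k, hkp, hkz⟩ := torsion hp h1
    rcases Nat.eq_zero_or_pos k with h0 | h0
    · rw [h0, hh_zero, sub_eq_zero] at hkz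
      exact hkz.symm
    · have h2 := hx.2
      rw [mem_iInter₂] at h2
      refine absurd ?_ (h2 k (Finset.mem_Ico.2 ⟨h0, hkp⟩))
      show x + hh p 1 k ∈ A
      rw [← hkz, add_sub_cancel]
      exact hy.1

/-- integrals over almost invariant sets -/
lemma int_inv {q : ℕ} {μ : Measure T} [IsFiniteMeasure μ]
    (hq : MeasurePreserving (fun x : T => q • x) μ μ) {C : Set T} (hC : MeasurableSet C)
    (hCq : ∀ᵐ x ∂μ, (q • x ∈ C ↔ x ∈ C)) (m : ℤ) (i : ℕ) :
    ∫ x in C, fourier m ((q ^ i) • x) ∂μ = ∫ x in C, fourier m x ∂μ := by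
  induction i with
  | zero => simp
  | succ i ih =>
    rw [← ih, ← integral_indicator hC, ← integral_indicator hC]
    have h1 : ∫ x, (C.indicator (fun x : T => fourier m ((q ^ i) • x)) x) ∂μ =
        ∫ x, (C.indicator (fun x : T => fourier m ((q ^ i) • x)) (q • x)) ∂μ := by
      have hm : AEStronglyMeasurable (C.indicator (fun x : T => fourier m ((q ^ i) • x)))
          (μ.map fun x : T => q • x) :=
        (((fourier m).continuous.comp (continuous_nsmul (q ^ i))).measurable.indicator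
          hC).aestronglyMeasurable
      conv_lhs => rw [← hq.map_eq]
      exact integral_map hq.aemeasurable hm
    rw [h1]
    refine integral_congr_ae ?_
    filter_upwards [hCq] with x hx
    by_cases hxC : x ∈ C
    · rw [indicator_of_mem hxC, indicator_of_mem (hx.2 hxC), smul_smul, pow_succ]
    · rw [indicator_of_notMem hxC, indicator_of_notMem fun h => hxC (hx.1 h)]

lemma norm_av (q : ℕ) (m : ℤ) (N : ℕ) (x : T) : ‖((N : ℂ))⁻¹ * es q m N x‖ ≤ 1 := by
  rw [norm_mul, norm_inv, Complex.norm_natCast]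
  rcases Nat.eq_zero_or_pos N with h | h
  · subst h; simp
  · have hL : (0 : ℝ) < N := by exact_mod_cast h
    rw [inv_mul_le_iff₀ hL, mul_one]
    exact norm_es_le q m N x

/-- the Fourier coefficients of the conservative part vanish -/
lemma coeff_zero {p q : ℕ} (hp : p.Prime) (hq : 2 ≤ q) (hpq : ¬ p ∣ q) {μ : Measure T}
    [IsProbabilityMeasure μ] (hip : MeasurePreserving (fun x : T => p • x) μ μ)
    (hiq : MeasurePreserving (fun x : T => q • x) μ μ) {ψ : T → ℝ≥0∞}
    (hψm : Measurable ψ) (hψ1 : ∀ x, ψ x ≤ 1)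
    (hψ : ∀ g : T → ℝ≥0∞, Measurable g → ∫⁻ x, fs p 1 (fun y => ψ y * g y) x ∂μ = ∫⁻ x, g x ∂μ)
    {C : Set T} (hC : MeasurableSet C) (hCq : ∀ᵐ x ∂μ, (q • x ∈ C ↔ x ∈ C))
    (hCφ : ∀ x ∈ C, ∀ δ : ℝ≥0∞, 0 < δ → ∃ n, phi p ψ n x ≤ δ) {m : ℤ} (hm : m ≠ 0) :
    ∫ x in C, fourier m x ∂μ = 0 := by
  obtain ⟨K, hK1, hK⟩ := Pool.Agent.H706R2.Ren.ord_bound p q hp hq hpq
  have hpz : Prime (p : ℤ) := Nat.prime_iff_prime_int.1 hp
  obtain ⟨v, m', hm', hmv⟩ : ∃ (v : ℕ) (m' : ℤ), ¬ (p : ℤ) ∣ m' ∧ m = (p : ℤ) ^ v * m' := by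
    have hfin : FiniteMultiplicity (p : ℤ) m :=
      Int.finiteMultiplicity_iff.2 ⟨by simpa using hp.one_lt.ne', hm⟩
    obtain ⟨c, hc1, hc2⟩ := hfin.exists_eq_pow_mul_and_not_dvd
    exact ⟨_, c, hc2, hc1⟩
  obtain ⟨N, hNlim, hN1, hN2⟩ := exists_length hp.two_le hK1 v
  set D : ℝ := 2 * K * p ^ v with hD
  have hD0 : 0 ≤ D := by positivity
  by_contra hne
  set c : ℝ := ‖∫ x in C, fourier m x ∂μ‖ with hc
  have hc0 : 0 < c := norm_pos_iff.2 hne
  set δ : ℝ := c ^ 2 / (16 * (D + 1)) with hδ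
  have hδ0 : 0 < δ := by positivity
  set F : ℕ → Set T := fun n => {y | phi p ψ n y ≤ ENNReal.ofReal δ} with hF
  have hFm : ∀ n, MeasurableSet (F n) := fun n =>
    measurableSet_le (measurable_phi p hψm n) measurable_const
  have hFmono : Monotone fun n => C ∩ F n := by
    intro a b hab x hx
    exact ⟨hx.1, (phi_anti p hψ1 x hab).trans hx.2⟩
  have hlim : Tendsto (fun n => μ.real (C ∩ F n)) atTop (𝓝 (μ.real C)) := by
    have h1 : Tendsto (fun n => μ (C ∩ F n)) atTop (𝓝 (μ (⋃ n, C ∩ F n))) :=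
      tendsto_measure_iUnion_atTop hFmono
    have h2 : (⋃ n, C ∩ F n) = C := by
      refine subset_antisymm (iUnion_subset fun n => inter_subset_left) fun x hx => ?_
      obtain ⟨n, hn⟩ := hCφ x hx (ENNReal.ofReal δ) (ENNReal.ofReal_pos.2 hδ0)
      exact mem_iUnion.2 ⟨n, hx, hn⟩
    rw [h2] at h1
    exact (ENNReal.tendsto_toReal (measure_ne_top μ C)).comp h1
  -- the main estimate
  have hbound : ∀ᶠ n in atTop, c ≤ (4 / c) * (δ * D) + c / 4 + (μ.real C - μ.real (C ∩ F n)) := by
    filter_upwards [hN2, eventually_ge_atTop v] with n hn hvn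
    have hNn : (0 : ℝ) < N n := by exact_mod_cast hn.1
    have hNc : ((N n : ℕ) : ℂ) ≠ 0 := by exact_mod_cast hNn.ne'
    have h1 := small_weight (q := q) hp.pos μ hip hψm hψ n (N n) m
      (distinct_mod hp hq hpq hK hmv hm' hvn (hN1 n) hK1) hδ0.le
    have hcontA : Continuous fun x : T => ((N n : ℂ))⁻¹ * es q m (N n) x :=
      (continuous_es q m (N n)).const_mul _
    -- the average has the same integral
    have h2 : ∫ x in C, ((N n : ℂ))⁻¹ * es q m (N n) x ∂μ = ∫ x in C, fourier m x ∂μ := by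
      rw [integral_const_mul]
      have h3 : ∫ x in C, es q m (N n) x ∂μ = (N n : ℂ) * ∫ x in C, fourier m x ∂μ := by
        unfold es
        rw [integral_finset_sum]
        · rw [Finset.sum_congr rfl fun i _ => int_inv hiq hC hCq m i]
          simp
        · intro i _
          exact (int_four m μ (meas_nsmul (q ^ i))).integrableOn
      rw [h3, inv_mul_cancel_left₀ hNc]
    have hiA : Integrable (fun x : T => ‖((N n : ℂ))⁻¹ * es q m (N n) x‖) μ :=
      Integrable.of_bound hcontA.norm.aestronglyMeasurable 1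
        (Eventually.of_forall fun x => by rw [norm_norm]; exact norm_av q m (N n) x)
    have hiA2 : Integrable (fun x : T => ‖es q m (N n) x‖ ^ 2) μ := by
      have := es_integrable q m (N n) 0 1 μ
      simpa using this
    have h4 : c ≤ ∫ x in C, ‖((N n : ℂ))⁻¹ * es q m (N n) x‖ ∂μ := by
      rw [hc, ← h2]
      exact norm_integral_le_integral_norm _
    have h5 : ∫ x in C, ‖((N n : ℂ))⁻¹ * es q m (N n) x‖ ∂μ =
        ∫ x in C ∩ F n, ‖((N n : ℂ))⁻¹ * es q m (N n) x‖ ∂μ +
        ∫ x in C \ F n, ‖((N n : ℂ))⁻¹ * es q m (N n) x‖ ∂μ :=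
      (integral_inter_add_diff (hFm n) hiA.integrableOn).symm
    have h6 : ∫ x in C \ F n, ‖((N n : ℂ))⁻¹ * es q m (N n) x‖ ∂μ ≤
        μ.real C - μ.real (C ∩ F n) := by
      have h7 : ∫ x in C \ F n, ‖((N n : ℂ))⁻¹ * es q m (N n) x‖ ∂μ ≤
          ∫ _ in C \ F n, (1 : ℝ) ∂μ :=
        setIntegral_mono hiA.integrableOn (integrableOn_const (measure_ne_top _ _))
          fun x => norm_av q m (N n) x
      rw [setIntegral_const, smul_eq_mul, mul_one] at h7
      have h8 := measureReal_inter_add_diff (μ := μ) (s := C) (hFm n)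
      linarith
    have h9 : ∫ x in C ∩ F n, ‖((N n : ℂ))⁻¹ * es q m (N n) x‖ ∂μ ≤
        (4 / c) * (δ * D) + c / 4 := by
      have h10 : ∀ x, ‖((N n : ℂ))⁻¹ * es q m (N n) x‖ ≤
          (4 / c) * ((N n : ℝ)⁻¹ ^ 2 * ‖es q m (N n) x‖ ^ 2) + c / 4 := by
        intro x
        have e1 : (N n : ℝ)⁻¹ ^ 2 * ‖es q m (N n) x‖ ^ 2 =
            ‖((N n : ℂ))⁻¹ * es q m (N n) x‖ ^ 2 := by
          rw [norm_mul, norm_inv, Complex.norm_natCast]
          ring
        rw [e1]
        set a := ‖((N n : ℂ))⁻¹ * es q m (N n) x‖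
        have h11 : (4 / c) * a ^ 2 + c / 4 - a = ((2 * a / Real.sqrt c - Real.sqrt c / 4)) ^ 2 +
            3 * c / 16 := by
          have hs : Real.sqrt c ^ 2 = c := Real.sq_sqrt hc0.le
          have hs0 : Real.sqrt c ≠ 0 := (Real.sqrt_pos.2 hc0).ne'
          have e2 : (2 * a / Real.sqrt c - Real.sqrt c / 4) ^ 2 =
              4 * a ^ 2 / Real.sqrt c ^ 2 - a + Real.sqrt c ^ 2 / 16 := by
            field_simp
            ring
          rw [e2, hs]
          ring
        have h12 := sq_nonneg (2 * a / Real.sqrt c - Real.sqrt c / 4)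
        have h13 : 0 ≤ 3 * c / 16 := by positivity
        linarith
      calc ∫ x in C ∩ F n, ‖((N n : ℂ))⁻¹ * es q m (N n) x‖ ∂μ
          ≤ ∫ x in C ∩ F n, ((4 / c) * ((N n : ℝ)⁻¹ ^ 2 * ‖es q m (N n) x‖ ^ 2) + c / 4) ∂μ :=
            setIntegral_mono hiA.integrableOn
              (((hiA2.const_mul _).const_mul _).add (integrable_const _)).integrableOn h10
        _ = (4 / c) * ((N n : ℝ)⁻¹ ^ 2 * ∫ x in C ∩ F n, ‖es q m (N n) x‖ ^ 2 ∂μ) +
            μ.real (C ∩ F n) * (c / 4) := by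
            rw [integral_add ((hiA2.const_mul _).const_mul _).integrableOn
              (integrable_const _).integrableOn, integral_const_mul, integral_const_mul,
              setIntegral_const, smul_eq_mul]
        _ ≤ (4 / c) * ((N n : ℝ)⁻¹ ^ 2 * ∫ x in F n, ‖es q m (N n) x‖ ^ 2 ∂μ) + 1 * (c / 4) := by
            have h14 : ∫ x in C ∩ F n, ‖es q m (N n) x‖ ^ 2 ∂μ ≤
                ∫ x in F n, ‖es q m (N n) x‖ ^ 2 ∂μ :=
              setIntegral_mono_set hiA2.integrableOn
                (Eventually.of_forall fun x => by positivity)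
                (Eventually.of_forall fun x hx => hx.2)
            have h15 : μ.real (C ∩ F n) ≤ 1 := measureReal_le_one
            gcongr
        _ ≤ (4 / c) * (δ * D) + c / 4 := by
            rw [one_mul]
            have h16 : (N n : ℝ)⁻¹ ^ 2 * ∫ x in F n, ‖es q m (N n) x‖ ^ 2 ∂μ ≤ δ * D := by
              calc (N n : ℝ)⁻¹ ^ 2 * ∫ x in F n, ‖es q m (N n) x‖ ^ 2 ∂μ
                  ≤ (N n : ℝ)⁻¹ ^ 2 * (δ * ((p : ℝ) ^ n * N n)) :=
                    mul_le_mul_of_nonneg_left h1 (by positivity)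
                _ ≤ (N n : ℝ)⁻¹ ^ 2 * (δ * ((D * N n) * N n)) := by
                    have := hn.2
                    gcongr
                _ = δ * D := by field_simp
            gcongr
    linarith
  have hl2 : Tendsto (fun n => (4 / c) * (δ * D) + c / 4 + (μ.real C - μ.real (C ∩ F n))) atTop
      (𝓝 ((4 / c) * (δ * D) + c / 4 + (μ.real C - μ.real C))) :=
    (hlim.const_sub _).const_add _
  have h1 := ge_of_tendsto hl2 hbound
  have h2 : (4 / c) * (δ * D) ≤ c / 4 := by
    rw [hδ]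
    have h3 : (4 / c) * (c ^ 2 / (16 * (D + 1)) * D) = (c / 4) * (D / (D + 1)) := by
      field_simp
      ring
    rw [h3]
    have h4 : D / (D + 1) ≤ 1 := by rw [div_le_one (by positivity)]; linarith
    nlinarith
  linarith

/-- **Measures singular to Lebesgue measure have an injective `×p`.** -/
theorem rudolph {p q : ℕ} (hp : p.Prime) (hq : 2 ≤ q) (hpq : ¬ p ∣ q) {μ : Measure T}
    [IsProbabilityMeasure μ] (hip : MeasurePreserving (fun x : T => p • x) μ μ)
    (hiq : MeasurePreserving (fun x : T => q • x) μ μ) (hs : μ ⟂ₘ (volume : Measure T)) :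
    ∃ B : Set T, MeasurableSet B ∧ μ Bᶜ = 0 ∧ InjOn (fun x : T => p • x) B := by
  obtain ⟨ψ, hψm, hψ1, hψ⟩ := exists_density hp.pos μ
  by_cases h0 : μ {x | ψ x < 1} = 0
  · exact inj_of_psi hp.pos hψm hψ1 hψ h0
  · exfalso
    obtain ⟨u, -, hu, hulim⟩ := exists_seq_strictMono_tendsto' (show (0 : ℝ≥0∞) < 1 by norm_num)
    obtain ⟨j, hj⟩ : ∃ j, μ {x | ψ x ≤ u j} ≠ 0 := by
      by_contra hcon
      push Not at hcon
      apply h0
      refine measure_mono_null ?_ (measure_iUnion_null hcon)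
      intro x hx
      obtain ⟨j, hj⟩ := (hulim.eventually (lt_mem_nhds (show ψ x < 1 from hx))).exists
      exact mem_iUnion.2 ⟨j, hj.le⟩
    set E : Set T := {x | ψ x ≤ u j} with hE
    have hEm : MeasurableSet E := measurableSet_le hψm measurable_const
    have hrec := hip.conservative.ae_mem_imp_frequently_image_mem hEm.nullMeasurableSet
    have hae : ∀ᵐ x ∂μ, x ∈ E → ∀ δ : ℝ≥0∞, 0 < δ → ∃ n, phi p ψ n x ≤ δ := by
      filter_upwards [hrec] with x hx hxE δ hδ
      refine phi_eventually p hψ1 (hu j).2 ?_ hδ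
      refine (hx hxE).mono fun n hn => ?_
      rw [iter_smul] at hn
      exact hn
    set C : Set T := {x | ⨅ n, phi p ψ n x = 0} with hCdef
    have hC : MeasurableSet C :=
      measurableSet_eq_fun (Measurable.iInf fun n => measurable_phi p hψm n) measurable_const
    have hCφ : ∀ x ∈ C, ∀ δ : ℝ≥0∞, 0 < δ → ∃ n, phi p ψ n x ≤ δ := by
      intro x hx δ hδ
      have h1 : ⨅ n, phi p ψ n x < δ := by
        have : ⨅ n, phi p ψ n x = 0 := hx
        rw [this]; exact hδ
      obtain ⟨n, hn⟩ := iInf_lt_iff.1 h1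
      exact ⟨n, hn.le⟩
    have hEC : μ E ≤ μ C := by
      refine measure_mono_ae ?_
      filter_upwards [hae] with x hx hxE
      show ⨅ n, phi p ψ n x = 0
      refine le_antisymm (le_of_forall_gt_imp_ge_of_dense fun δ hδ => ?_) zero_le
      obtain ⟨n, hn⟩ := hx hxE δ hδ
      exact (iInf_le _ n).trans hn
    have hCq : ∀ᵐ x ∂μ, (q • x ∈ C ↔ x ∈ C) := by
      have h1 := psi_inv hp hpq hiq hψm hψ
      have h2 : ∀ i : ℕ, ∀ᵐ x ∂μ, ψ (q • ((p ^ i) • x)) = ψ ((p ^ i) • x) := fun i =>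
        (mp_pow hip i).quasiMeasurePreserving.ae h1
      filter_upwards [ae_all_iff.2 h2] with x hx
      have h3 : ∀ n, phi p ψ n (q • x) = phi p ψ n x := by
        intro n
        unfold phi
        refine Finset.prod_congr rfl fun i _ => ?_
        rw [smul_comm, hx i]
      show (⨅ n, phi p ψ n (q • x) = 0) ↔ (⨅ n, phi p ψ n x = 0)
      simp only [h3]
    have hzero := fun (m : ℤ) (hm : m ≠ 0) =>
      coeff_zero hp hq hpq hip hiq hψm hψ1 hψ hC hCq hCφ hm
    have hCpos : μ C ≠ 0 := fun h => hj (le_antisymm (hEC.trans h.le) zero_le)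
    have heq : μ.restrict C = (μ C) • (volume : Measure T) := by
      have hfin : IsFiniteMeasure ((μ C) • (volume : Measure T)) :=
        Measure.smul_finite _ (measure_ne_top _ _)
      refine ext_fourier fun m => ?_
      rcases eq_or_ne m 0 with rfl | hm
      · simp [measureReal_def]
      · rw [hzero m hm, integral_smul_measure, Pool.Agent.H847R3.XpXq.integral_fourier_zero hm,
          smul_zero]
    have h1 : (μ.restrict C) ⟂ₘ (volume : Measure T) :=
      hs.mono_ac Measure.restrict_le_self.absolutelyContinuous Measure.AbsolutelyContinuous.rfl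
    rw [heq] at h1
    have h2 : (volume : Measure T) ⟂ₘ (volume : Measure T) :=
      h1.mono_ac (Measure.AbsolutelyContinuous.rfl.smul_right hCpos)
        Measure.AbsolutelyContinuous.rfl
    exact IsProbabilityMeasure.ne_zero (volume : Measure T)
      ((Measure.MutuallySingular.self_iff _).1 h2)

end Q70.Af
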