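import Pool.Agent.Q70.AfJ
import Pool.Agent.W764.FB.Cover
import Pool.Agent.H165R3.Birk

/-!
Measures for which `x ↦ p x` is injective off a null set have pointwise dimension zero.
-/

set_option autoImplicit false

open MeasureTheory Filter Topology Set
open scoped ENNReal

namespace Q70.Ag

open Q70.Af
open Pool.Agent.W764.FB (hh EssInj code same_code card_codes card_code local_inj close_hh)
open Pool.Agent.H706R2.Ren (labels out)
open Pool.Agent.H165R3.BIRK (Mx Mx_nonneg Mx_meas Mx_le Mx_mono Mx_sum)

/-- the maximal inequality -/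
lemma maximal {B : Type*} [MeasurableSpace B] {m : Measure B} [IsProbabilityMeasure m] {F : B → B}
    (hF : MeasurePreserving F m m) {E : Set B} (hE : MeasurableSet E) {θ : ℝ} (hθ : 0 < θ)
    (hθ1 : θ ≤ 1) :
    ∃ G : Set B, m.real G ≤ m.real E / θ ∧ ∀ x, x ∉ G → ∀ n : ℕ,
      ∑ k ∈ Finset.range n, E.indicator (fun _ => (1 : ℝ)) (F^[k] x) ≤ θ * n := by
  set φ : B → ℝ := fun x => E.indicator (fun _ => (1 : ℝ)) x - θ with hφ
  have hφm : Measurable φ := (measurable_const.indicator hE).sub measurable_const
  have hφb : ∀ x, |φ x| ≤ 1 := by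
    intro x
    simp only [hφ]
    by_cases hx : x ∈ E
    · rw [indicator_of_mem hx, abs_le]; constructor <;> linarith
    · rw [indicator_of_notMem hx, abs_le]; constructor <;> linarith
  have hMm : ∀ n, Measurable (Mx F φ n) := Mx_meas hF.measurable hφm
  have hMi : ∀ n, Integrable (Mx F φ n) m := fun n =>
    Integrable.of_bound (hMm n).aestronglyMeasurable (n * 1) (Eventually.of_forall fun x => by
      rw [Real.norm_of_nonneg (Mx_nonneg F φ n x)]; exact Mx_le hφb n x)
  set A : ℕ → Set B := fun n => {x | 0 < Mx F φ n x} with hA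
  have hAm : ∀ n, MeasurableSet (A n) := fun n => measurableSet_lt measurable_const (hMm n)
  have hφi : Integrable φ m := Integrable.of_bound hφm.aestronglyMeasurable 1
    (Eventually.of_forall fun x => hφb x)
  have key : ∀ n, m.real (A n) ≤ m.real E / θ := by
    intro n
    have hFi : Integrable (fun x => Mx F φ n (F x)) m := hF.integrable_comp_of_integrable (hMi n)
    have h1 : 0 ≤ ∫ x in A n, φ x ∂m := by
      have h2 : ∫ x, (Mx F φ n x - Mx F φ n (F x)) ∂m = 0 := by
        have h3 : ∫ x, Mx F φ n (F x) ∂m = ∫ x, Mx F φ n x ∂m := by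
          have h3 := integral_map (μ := m) hF.measurable.aemeasurable
            (f := Mx F φ n) (hMm n).aestronglyMeasurable
          rw [hF.map_eq] at h3
          exact h3.symm
        rw [integral_sub (hMi n) hFi, h3, sub_self]
      rw [← integral_indicator (hAm n), ← h2]
      refine integral_mono ((hMi n).sub hFi)
        (hφi.indicator (hAm n)) fun x => ?_
      by_cases hx : x ∈ A n
      · rw [indicator_of_mem hx]
        cases n with
        | zero => simp [hA, Mx] at hx
        | succ n =>
          have hx' : 0 < max 0 (φ x + Mx F φ n (F x)) := hx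
          have h4 : Mx F φ (n + 1) x = φ x + Mx F φ n (F x) := by
            show max 0 (φ x + Mx F φ n (F x)) = _
            rcases lt_max_iff.1 hx' with h5 | h5
            · exact absurd h5 (lt_irrefl _)
            · exact max_eq_right h5.le
          have h5 := Mx_mono F φ n (F x)
          show Mx F φ (n + 1) x - Mx F φ (n + 1) (F x) ≤ φ x
          linarith
      · rw [indicator_of_notMem hx]
        have h4 : Mx F φ n x ≤ 0 := not_lt.1 hx
        have h5 := Mx_nonneg F φ n (F x)
        show Mx F φ n x - Mx F φ n (F x) ≤ 0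
        linarith
    have h2 : ∫ x in A n, φ x ∂m = m.real (A n ∩ E) - θ * m.real (A n) := by
      have hi1 : IntegrableOn (E.indicator fun _ => (1 : ℝ)) (A n) m :=
        ((integrable_const (1 : ℝ)).indicator hE).integrableOn
      have hi2 : IntegrableOn (fun _ : B => θ) (A n) m := (integrable_const θ).integrableOn
      rw [integral_sub hi1 hi2, setIntegral_indicator hE]
      simp [mul_comm]
    have h3 : m.real (A n ∩ E) ≤ m.real E := measureReal_mono inter_subset_right
    rw [le_div_iff₀ hθ]
    nlinarith
  refine ⟨⋃ n, A n, ?_, fun x hx n => ?_⟩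
  · have hmono : Monotone A := by
      refine monotone_nat_of_le_succ fun n x hx => ?_
      exact lt_of_lt_of_le hx (Mx_mono F φ n x)
    have h1 := tendsto_measure_iUnion_atTop (μ := m) hmono
    have h2 : Tendsto (fun n => m.real (A n)) atTop (𝓝 (m.real (⋃ n, A n))) :=
      (ENNReal.tendsto_toReal (measure_ne_top _ _)).comp h1
    exact le_of_tendsto' h2 key
  · have h1 : Mx F φ n x ≤ 0 := by
      by_contra h
      exact hx (mem_iUnion.2 ⟨n, not_le.1 h⟩)
    have h2 := Mx_sum F φ n x
    simp only [hφ] at h2
    rw [Finset.sum_sub_distrib, Finset.sum_const, Finset.card_range, nsmul_eq_mul] at h2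
    have h3 : Mx F φ n x ≤ 0 := h1
    simp only [hφ] at h3
    linarith

end Q70.Ag
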