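import Pool.Agent.Q70.AgA

/-!
Measures for which `x ↦ p x` is injective off a null set have pointwise dimension zero.
-/

set_option autoImplicit false

open MeasureTheory Filter Topology Set
open scoped ENNReal

namespace Q70.Ag

open Q70.Af
open Pool.Agent.W764.FB (hh EssInj code same_code card_codes card_code local_inj close_hh)
open Pool.Agent.H706R2.Ren (labels out out_eq)

/-- the measure of the set of the points with a small neighbourhood -/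
lemma bad_le {p : ℕ} (hp : 2 ≤ p) (κ : Measure T) [IsProbabilityMeasure κ] {Z G : Set T}
    {η : ℝ} (hη0 : 0 < η) (hη1 : η ≤ 1 / 4)
    (hZ : ∀ x ∈ Z, ∀ y ∈ Z, ‖p • (x - y)‖ ≤ η → ‖x - y‖ ≤ ‖p • (x - y)‖ / p) {Q1 Q0 s g : ℕ}
    {lab1 : T → Fin Q1} (hlab1 : ∀ y z, lab1 y = lab1 z → ‖y - z‖ ≤ 1 / (2 * p))
    {lab0 : T → Fin Q0} (hlab0 : ∀ y z, lab0 y = lab0 z → ‖y - z‖ ≤ η) (hs : 1 ≤ s) (n : ℕ)
    (hG : ∀ x, x ∉ G → out p Z n x ≤ g) (b : ℝ≥0∞) :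
    κ {x | x ∉ G ∧ κ (Metric.closedBall x (((p : ℝ) ^ n)⁻¹)) < b} ≤
      ENNReal.ofReal (Q0 * ((s : ℝ) ^ g * (1 + (Q1 : ℝ) / s) ^ n)) * b := by
  classical
  set B : Set T := {x | x ∉ G ∧ κ (Metric.closedBall x (((p : ℝ) ^ n)⁻¹)) < b} with hB
  set CS := Finset.univ.filter fun c : Fin n → Fin (Q1 + 1) =>
      (Finset.univ.filter fun j => c j ≠ 0).card ≤ g with hCS
  have hMle : (CS.card : ℝ) ≤ (s : ℝ) ^ g * (1 + (Q1 : ℝ) / s) ^ n := card_codes Q1 s n g hs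
  have hcode : ∀ x ∈ B, code p Z lab1 n x ∈ CS := by
    intro x hx
    rw [hCS, Finset.mem_filter]
    refine ⟨Finset.mem_univ _, ?_⟩
    rw [card_code]
    exact hG x hx.1
  set cl : Fin Q0 × (Fin n → Fin (Q1 + 1)) → Set T := fun a =>
    {x | x ∈ B ∧ lab0 ((p ^ n) • x) = a.1 ∧ code p Z lab1 n x = a.2} with hcl
  have hcover : B ⊆ ⋃ a ∈ (Finset.univ : Finset (Fin Q0)) ×ˢ CS, cl a := by
    intro x hx
    rw [mem_iUnion₂]
    exact ⟨(lab0 ((p ^ n) • x), code p Z lab1 n x),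
      Finset.mem_product.2 ⟨Finset.mem_univ _, hcode x hx⟩, hx, rfl, rfl⟩
  have hone : ∀ a ∈ (Finset.univ : Finset (Fin Q0)) ×ˢ CS, κ (cl a) ≤ b := by
    intro a _
    rcases (cl a).eq_empty_or_nonempty with h0 | ⟨x, hx⟩
    · rw [h0, measure_empty]; exact zero_le
    · refine le_trans (measure_mono (t := Metric.closedBall x (((p : ℝ) ^ n)⁻¹)) ?_) hx.1.2.le
      intro y hy
      rw [Metric.mem_closedBall, dist_eq_norm]
      have h1 := same_code (by omega : 0 < p) hη1 hZ hlab1 n y x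
        (by rw [smul_sub]; exact hlab0 _ _ (hy.2.1.trans hx.2.1.symm)) (hy.2.2.trans hx.2.2.symm)
      refine h1.trans ?_
      rw [div_eq_mul_inv]
      have h2 : (0 : ℝ) ≤ ((p : ℝ) ^ n)⁻¹ := by positivity
      nlinarith
  calc κ B ≤ κ (⋃ a ∈ (Finset.univ : Finset (Fin Q0)) ×ˢ CS, cl a) := measure_mono hcover
    _ ≤ ∑ a ∈ (Finset.univ : Finset (Fin Q0)) ×ˢ CS, κ (cl a) := measure_biUnion_finset_le _ _
    _ ≤ ∑ a ∈ (Finset.univ : Finset (Fin Q0)) ×ˢ CS, b := Finset.sum_le_sum hone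
    _ = ((Q0 * CS.card : ℕ) : ℝ≥0∞) * b := by
        rw [Finset.sum_const, Finset.card_product, Finset.card_univ, Fintype.card_fin, nsmul_eq_mul]
    _ ≤ _ := by
        refine mul_le_mul_left ?_ b
        rw [← ENNReal.ofReal_natCast]
        refine ENNReal.ofReal_le_ofReal ?_
        push_cast
        gcongr

lemma exists_theta {s : ℝ} (hs : 1 ≤ s) {P : ℝ} (hP : 1 < P) : ∃ θ : ℝ, 0 < θ ∧ θ ≤ 1 ∧ s ^ θ ≤ P := by
  have hc : ContinuousAt (fun θ : ℝ => s ^ θ) 0 :=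
    Real.continuousAt_const_rpow (by linarith)
  have h1 : (fun θ : ℝ => s ^ θ) 0 < P := by simpa using hP
  obtain ⟨δ, hδ, h2⟩ := Metric.eventually_nhds_iff.1 (hc.eventually (gt_mem_nhds h1))
  refine ⟨min (δ / 2) 1, by positivity, min_le_right _ _, (h2 ?_).le⟩
  rw [Real.dist_eq, sub_zero, abs_of_pos (by positivity)]
  exact (min_le_left _ _).trans_lt (by linarith)

lemma zero_dim_off {p : ℕ} (hp : 2 ≤ p) (κ : Measure T) [IsProbabilityMeasure κ]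
    (hinv : MeasurePreserving (fun x : T => p • x) κ κ) (h : EssInj p κ) {ε : ℝ} (hε : 0 < ε)
    {δ : ℝ} (hδ : 0 < δ) : ∃ G : Set T, κ.real G ≤ δ ∧ ∀ᵐ x ∂κ, x ∉ G → ∀ᶠ n : ℕ in atTop,
      (p : ℝ) ^ (-(ε * n)) ≤ κ.real (Metric.closedBall x (((p : ℝ) ^ n)⁻¹)) := by
  have hpR : (2 : ℝ) ≤ p := by exact_mod_cast hp
  have hp0 : (0 : ℝ) < p := by linarith
  obtain ⟨Q1, lab1, hlab1⟩ := labels (ε := 1 / (2 * (p : ℝ))) (by positivity)
  set P : ℝ := (p : ℝ) ^ (ε / 4) with hP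
  have hP1 : 1 < P := Real.one_lt_rpow (by linarith) (by positivity)
  obtain ⟨s, hs1, hs2⟩ : ∃ s : ℕ, 1 ≤ s ∧ 1 + (Q1 : ℝ) / s ≤ P := by
    obtain ⟨s, hs⟩ := exists_nat_gt ((Q1 : ℝ) / (P - 1))
    have h1 : 0 < P - 1 := by linarith
    refine ⟨s + 1, by omega, ?_⟩
    rw [div_lt_iff₀ h1] at hs
    push_cast
    have h2 : (Q1 : ℝ) / ((s : ℝ) + 1) ≤ P - 1 := by
      rw [div_le_iff₀ (by positivity)]
      nlinarith
    linarith
  have hsR : (1 : ℝ) ≤ s := by exact_mod_cast hs1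
  obtain ⟨θ, hθ0, hθ1, hθ⟩ := exists_theta hsR hP1
  obtain ⟨Z, hZm, hZκ, η, hη, hZ⟩ := local_inj (by omega : 0 < p) κ h (ε := δ * θ) (by positivity)
  set η' : ℝ := min η (1 / 4) with hη'
  have hη'0 : 0 < η' := lt_min hη (by norm_num)
  have hZ' : ∀ x ∈ Z, ∀ y ∈ Z, ‖p • (x - y)‖ ≤ η' → ‖x - y‖ ≤ ‖p • (x - y)‖ / p :=
    fun x hx y hy hxy => hZ x hx y hy (hxy.trans (min_le_left _ _))
  obtain ⟨Q0, lab0, hlab0⟩ := labels (ε := η') hη'0
  obtain ⟨G, hG1, hG2⟩ := maximal hinv hZm.compl hθ0 hθ1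
  have hGout : ∀ x, x ∉ G → ∀ n : ℕ, out p Z n x ≤ ⌊θ * n⌋₊ := by
    intro x hx n
    refine Nat.le_floor ?_
    have h1 := hG2 x hx n
    rw [out_eq]
    refine le_trans (le_of_eq ?_) h1
    refine Finset.sum_congr rfl fun i _ => ?_
    rw [iter_smul]
    rfl
  refine ⟨G, ?_, ?_⟩
  · refine hG1.trans ?_
    rw [div_le_iff₀ hθ0]
    exact hZκ
  have hbound : ∀ n : ℕ, κ {x | x ∉ G ∧ κ (Metric.closedBall x (((p : ℝ) ^ n)⁻¹)) <
      ENNReal.ofReal ((p : ℝ) ^ (-(ε * n)))} ≤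
      ENNReal.ofReal (Q0 * ((p : ℝ) ^ (-(ε / 2))) ^ n) := by
    intro n
    refine (bad_le hp κ hη'0 (min_le_right _ _) hZ' hlab1 hlab0 hs1 n (hGout · · n) _).trans ?_
    rw [← ENNReal.ofReal_mul (by positivity)]
    refine ENNReal.ofReal_le_ofReal ?_
    have h1 : (s : ℝ) ^ ⌊θ * n⌋₊ ≤ P ^ n := by
      calc (s : ℝ) ^ ⌊θ * n⌋₊ = (s : ℝ) ^ ((⌊θ * n⌋₊ : ℕ) : ℝ) := (Real.rpow_natCast _ _).symm
        _ ≤ (s : ℝ) ^ (θ * n) :=
            Real.rpow_le_rpow_of_exponent_le hsR (Nat.floor_le (by positivity))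
        _ = ((s : ℝ) ^ θ) ^ n := by rw [Real.rpow_mul (by positivity), Real.rpow_natCast]
        _ ≤ P ^ n := by gcongr
    have h2 : (1 + (Q1 : ℝ) / s) ^ n ≤ P ^ n := by gcongr
    have h3 : P ^ n * P ^ n * (p : ℝ) ^ (-(ε * n)) = ((p : ℝ) ^ (-(ε / 2))) ^ n := by
      rw [hP, ← Real.rpow_natCast, ← Real.rpow_natCast, ← Real.rpow_mul hp0.le,
        ← Real.rpow_mul hp0.le, ← Real.rpow_add hp0, ← Real.rpow_add hp0]
      congr 1
      ring
    calc (Q0 : ℝ) * ((s : ℝ) ^ ⌊θ * n⌋₊ * (1 + (Q1 : ℝ) / s) ^ n) * (p : ℝ) ^ (-(ε * n))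
        ≤ Q0 * (P ^ n * P ^ n) * (p : ℝ) ^ (-(ε * n)) := by gcongr
      _ = Q0 * (P ^ n * P ^ n * (p : ℝ) ^ (-(ε * n))) := by ring
      _ = _ := by rw [h3]
  have hsum : ∑' n : ℕ, κ {x | x ∉ G ∧ κ (Metric.closedBall x (((p : ℝ) ^ n)⁻¹)) <
      ENNReal.ofReal ((p : ℝ) ^ (-(ε * n)))} ≠ ∞ := by
    have hr1 : (p : ℝ) ^ (-(ε / 2)) < 1 :=
      Real.rpow_lt_one_of_one_lt_of_neg (by linarith) (by linarith)
    have hsm : Summable fun n : ℕ => (Q0 : ℝ) * ((p : ℝ) ^ (-(ε / 2))) ^ n :=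
      (summable_geometric_of_lt_one (by positivity) hr1).mul_left _
    refine ne_top_of_le_ne_top ?_ (ENNReal.tsum_le_tsum hbound)
    rw [← ENNReal.ofReal_tsum_of_nonneg (fun n => by positivity) hsm]
    exact ENNReal.ofReal_ne_top
  filter_upwards [ae_eventually_notMem hsum] with x hx hxG
  filter_upwards [hx] with n hn
  by_contra hcon
  apply hn
  refine ⟨hxG, ?_⟩
  rw [ENNReal.lt_ofReal_iff_toReal_lt (measure_ne_top _ _)]
  exact not_le.1 hcon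

/-- **Pointwise dimension zero.** -/
theorem zero_dim {p : ℕ} (hp : 2 ≤ p) (κ : Measure T) [IsProbabilityMeasure κ]
    (hinv : MeasurePreserving (fun x : T => p • x) κ κ) (h : EssInj p κ) {ε : ℝ} (hε : 0 < ε) :
    ∀ᵐ x ∂κ, ∀ᶠ n : ℕ in atTop,
      (p : ℝ) ^ (-(ε * n)) ≤ κ.real (Metric.closedBall x (((p : ℝ) ^ n)⁻¹)) := by
  have h1 := fun k : ℕ => zero_dim_off hp κ hinv h hε (δ := 1 / ((k : ℝ) + 1)) (by positivity)
  choose G hG hG2 using h1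
  have h2 : κ (⋂ k, G k) = 0 := by
    have h3 : κ.real (⋂ k, G k) ≤ 0 := by
      refine ge_of_tendsto' (tendsto_one_div_add_atTop_nhds_zero_nat (𝕜 := ℝ)) fun k => ?_
      exact (measureReal_mono (iInter_subset _ k)).trans (hG k)
    have h4 : κ.real (⋂ k, G k) = 0 := le_antisymm h3 measureReal_nonneg
    rwa [measureReal_eq_zero_iff] at h4
  have h3 : ∀ᵐ x ∂κ, x ∉ ⋂ k, G k := measure_eq_zero_iff_ae_notMem.1 h2
  filter_upwards [ae_all_iff.2 hG2, h3] with x hx hxG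
  rw [mem_iInter, not_forall] at hxG
  obtain ⟨k, hk⟩ := hxG
  exact hx k hk

/-- injectivity off a null set in the form used above -/
lemma essInj_of {p : ℕ} {κ : Measure T} {B : Set T} (hB : MeasurableSet B)
    (h0 : κ Bᶜ = 0) (hinj : InjOn (fun x : T => p • x) B) : EssInj p κ := by
  refine ⟨B, hB, h0, fun x hx k hk1 hkp hxk => ?_⟩
  have hp : 0 < p := by omega
  have h1 : p • hh p 1 k = 0 := by
    have h2 : p • hh p 1 k = hh p 0 k := Pool.Agent.W764.FB.smul_hh p 0 k hp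
    rw [h2]
    unfold hh
    rw [pow_zero, div_one, AddCircle.coe_eq_zero_iff]
    exact ⟨k, by simp⟩
  have h2 : x = x + hh p 1 k := by
    refine hinj hx hxk ?_
    show p • x = p • (x + hh p 1 k)
    rw [smul_add, h1, add_zero]
  have h3 : hh p 1 k = 0 := by simpa using h2
  have h4 := Pool.Agent.W764.FB.norm_hh hk1 hkp
  rw [h3, norm_zero] at h4
  have h5 : (0 : ℝ) < p := by exact_mod_cast hp
  have : (0 : ℝ) < 1 / p := by positivity
  linarith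

end Q70.Ag
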