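import Pool.Agent.Q70.AgB

/-!
Many affine images which coincide: pigeonhole and rational approximation.
-/

set_option autoImplicit false

open MeasureTheory Filter Topology Set
open scoped ENNReal

namespace Q70.Ag

open Q70.Af
open Pool.Agent.W764.FB (hh EssInj close_hh)

lemma norm_zsmul_le' (n : ℤ) (z : T) : ‖n • z‖ ≤ |(n : ℝ)| * ‖z‖ := by
  have h := norm_zsmul_le (a := z) (n := n)
  simpa [Int.norm_eq_abs] using h

/-- a heavy point of the second measure -/
lemma heavy {μ ν : Measure T} [IsProbabilityMeasure μ] [IsProbabilityMeasure ν] {n : ℤ} {d : ℕ}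
    (hd : 1 ≤ d) {t : T}
    (h : μ.map (fun x : T => n • x + t) = ν.map (fun x : T => d • x))
    {x : T} {r m R : ℝ} (hr : m ≤ μ.real (Metric.closedBall x r)) (hnr : |(n : ℝ)| * r ≤ R) :
    ∃ y : T, d • y = n • x + t ∧ m / d ≤ ν.real (Metric.closedBall y R) := by
  have hdR : (1 : ℝ) ≤ d := by exact_mod_cast hd
  have hgm : Measurable (fun x : T => n • x + t) := by
    exact ((continuous_zsmul n).add_const t).measurable
  obtain ⟨y0, hy0⟩ : ∃ y0 : T, d • y0 = n • x + t := by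
    obtain ⟨a, ha⟩ := QuotientAddGroup.mk_surjective (n • x + t)
    refine ⟨((a / d : ℝ) : T), ?_⟩
    rw [← ha, ← AddCircle.coe_nsmul, nsmul_eq_mul, mul_div_cancel₀ _ (by positivity)]
  set V : Set T := {y | ‖d • y - (n • x + t)‖ ≤ |(n : ℝ)| * r} with hV
  have hVm : MeasurableSet V := by
    have hc : Continuous fun y : T => ‖d • y - (n • x + t)‖ := by fun_prop
    exact hc.measurable measurableSet_Iic
  have h1 : m ≤ ν.real V := by
    have e1 : V = (fun y : T => d • y) ⁻¹'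
        (Metric.closedBall (n • x + t) (|(n : ℝ)| * r)) := by
      ext y; simp [hV, dist_eq_norm]
    have e2 : ν.real V = (ν.map (fun y : T => d • y)).real
        (Metric.closedBall (n • x + t) (|(n : ℝ)| * r)) := by
      rw [measureReal_def, measureReal_def, Measure.map_apply (meas_nsmul d)
        Metric.isClosed_closedBall.measurableSet, e1]
    rw [e2, ← h, measureReal_def, Measure.map_apply hgm
      Metric.isClosed_closedBall.measurableSet, ← measureReal_def]
    refine hr.trans (measureReal_mono fun u hu => ?_)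
    have hu' := hu
    rw [Metric.mem_closedBall, dist_eq_norm] at hu'
    show dist (n • u + t) (n • x + t) ≤ _
    have h3 : ‖n • (u - x)‖ ≤ |(n : ℝ)| * r := (norm_zsmul_le' n _).trans (by gcongr)
    have e3 : n • u + t - (n • x + t) = n • (u - x) := by
      rw [smul_sub]; abel
    rw [dist_eq_norm, e3]
    exact h3
  have h2 : V ⊆ ⋃ k ∈ Finset.range d, Metric.closedBall (y0 + hh d 1 k) R := by
    intro y hy
    obtain ⟨k, hk, hk2⟩ := close_hh (by omega : 0 < d) (y - y0)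
    rw [mem_iUnion₂]
    refine ⟨k, Finset.mem_range.2 hk, ?_⟩
    rw [Metric.mem_closedBall, dist_eq_norm]
    have e : y - (y0 + hh d 1 k) = y - y0 - hh d 1 k := by abel
    rw [e]
    refine hk2.trans ?_
    rw [smul_sub, hy0]
    exact (div_le_self (norm_nonneg _) hdR).trans (le_trans hy hnr)
  have h3 : ν.real V ≤ ∑ k ∈ Finset.range d, ν.real (Metric.closedBall (y0 + hh d 1 k) R) :=
    (measureReal_mono h2 (measure_ne_top _ _)).trans (measureReal_biUnion_finset_le _ _)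
  by_contra hcon
  push Not at hcon
  have h4 : ∀ k ∈ Finset.range d, ν.real (Metric.closedBall (y0 + hh d 1 k) R) < m / d := by
    intro k _
    refine hcon _ ?_
    have h5 : d • hh d 1 k = 0 := by
      rw [Pool.Agent.W764.FB.smul_hh d 0 k (by omega)]
      unfold hh
      rw [pow_zero, div_one, AddCircle.coe_eq_zero_iff]
      exact ⟨k, by simp⟩
    rw [smul_add, hy0, h5, add_zero]
  have h5 : ∑ k ∈ Finset.range d, ν.real (Metric.closedBall (y0 + hh d 1 k) R) <
      ∑ _k ∈ Finset.range d, m / d :=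
    Finset.sum_lt_sum_of_nonempty (Finset.nonempty_range_iff.2 (by omega)) h4
  rw [Finset.sum_const, Finset.card_range, nsmul_eq_mul, mul_div_cancel₀ _ (by positivity)] at h5
  linarith

/-- the pigeonhole principle -/
lemma pigeon {μ ν : Measure T} [IsProbabilityMeasure μ] [IsProbabilityMeasure ν]
    (S : Finset (ℤ × ℕ)) {D N : ℝ}
    (hS : ∀ s ∈ S, 1 ≤ s.2 ∧ (s.2 : ℝ) ≤ D ∧ |(s.1 : ℝ)| ≤ N ∧
      ∃ t : T, μ.map (fun x : T => s.1 • x + t) = ν.map (fun x : T => s.2 • x))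
    {x x' : T} {r m : ℝ} (hm : 0 < m) (hr0 : 0 ≤ r) (hx : m ≤ μ.real (Metric.closedBall x r))
    (hx' : m ≤ μ.real (Metric.closedBall x' r)) (hcard : 1 < S.card * (m / D) ^ 2) :
    ∃ s ∈ S, ∃ s' ∈ S, s ≠ s' ∧
      ‖((s'.2 : ℤ) * s.1 - s.2 * s'.1) • (x - x')‖ ≤ 4 * D ^ 2 * (N * r) := by
  classical
  have hex : ∀ s : S, ∃ t : T, ∃ y y' : T, s.1.2 • y = s.1.1 • x + t ∧
      s.1.2 • y' = s.1.1 • x' + t ∧
      m / D ≤ ν.real (Metric.closedBall y (N * r)) ∧
      m / D ≤ ν.real (Metric.closedBall y' (N * r)) := by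
    rintro ⟨s, hs⟩
    obtain ⟨h1, h2, h3, t, ht⟩ := hS s hs
    have hdR : (1 : ℝ) ≤ s.2 := by exact_mod_cast h1
    obtain ⟨y, hy1, hy2⟩ := heavy h1 ht hx (R := N * r) (by gcongr)
    obtain ⟨y', hy1', hy2'⟩ := heavy h1 ht hx' (R := N * r) (by gcongr)
    have h4 : m / D ≤ m / s.2 := by gcongr
    exact ⟨t, y, y', hy1, hy1', h4.trans hy2, h4.trans hy2'⟩
  choose t y y' h1 h2 h3 h4 using hex
  set P : S → Set (T × T) := fun s =>
    Metric.closedBall (y s) (N * r) ×ˢ Metric.closedBall (y' s) (N * r) with hP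
  have hPm : ∀ s, MeasurableSet (P s) := fun s =>
    Metric.isClosed_closedBall.measurableSet.prod Metric.isClosed_closedBall.measurableSet
  have hD : 0 ≤ m / D := by
    by_contra hneg
    have hS0 : S.Nonempty := by
      rw [Finset.nonempty_iff_ne_empty]
      rintro rfl
      simp at hcard
      linarith
    obtain ⟨s, hs⟩ := hS0
    have h5 := (hS s hs).2.1
    have h6 : (0 : ℝ) ≤ D := (Nat.cast_nonneg _).trans h5
    exact hneg (div_nonneg hm.le h6)
  have hPμ : ∀ s, (m / D) ^ 2 ≤ (ν.prod ν).real (P s) := by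
    intro s
    rw [hP, measureReal_prod_prod, sq]
    exact mul_le_mul (h3 s) (h4 s) hD measureReal_nonneg
  obtain ⟨s, s', hne, z, hz⟩ : ∃ s s' : S, s ≠ s' ∧ (P s ∩ P s').Nonempty := by
    by_contra hcon
    push Not at hcon
    have hdisj : Pairwise (Function.onFun Disjoint P) := fun a b hab => by
      rw [Function.onFun, Set.disjoint_iff_inter_eq_empty]
      exact Set.not_nonempty_iff_eq_empty.1 (by rw [hcon a b hab]; simp)
    have h5 : ∑ s : S, (ν.prod ν).real (P s) ≤ 1 := by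
      have h6 := measureReal_iUnion_fintype (μ := ν.prod ν) hdisj hPm
      rw [← h6]
      exact measureReal_le_one
    have h6 : (S.card : ℝ) * (m / D) ^ 2 ≤ ∑ s : S, (ν.prod ν).real (P s) := by
      calc (S.card : ℝ) * (m / D) ^ 2 = ∑ _s : S, (m / D) ^ 2 := by
            rw [Finset.sum_const, Finset.card_univ, Fintype.card_coe, nsmul_eq_mul]
        _ ≤ _ := Finset.sum_le_sum fun s _ => hPμ s
    linarith
  refine ⟨s, s.2, s', s'.2, fun h => hne (Subtype.ext h), ?_⟩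
  have hz1 := hz.1
  have hz2 := hz.2
  simp only [hP, mem_prod, Metric.mem_closedBall] at hz1 hz2
  have hy : ‖y s - y s'‖ ≤ 2 * (N * r) := by
    rw [← dist_eq_norm]
    have := dist_triangle_left (y s) (y s') z.1
    linarith [hz1.1, hz2.1]
  have hy' : ‖y' s - y' s'‖ ≤ 2 * (N * r) := by
    rw [← dist_eq_norm]
    have := dist_triangle_left (y' s) (y' s') z.2
    linarith [hz1.2, hz2.2]
  have e1 : (s.1.2 : ℤ) • (y s - y' s) = s.1.1 • (x - x') := by
    rw [natCast_zsmul, smul_sub, h1, h2, smul_sub]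
    abel
  have e2 : (s'.1.2 : ℤ) • (y s' - y' s') = s'.1.1 • (x - x') := by
    rw [natCast_zsmul, smul_sub, h1, h2, smul_sub]
    abel
  have e3 : ((s'.1.2 : ℤ) * s.1.1 - s.1.2 * s'.1.1) • (x - x') =
      ((s'.1.2 : ℤ) * s.1.2) • ((y s - y s') - (y' s - y' s')) := by
    have e4 : ((s'.1.2 : ℤ) * s.1.1) • (x - x') = ((s'.1.2 : ℤ) * s.1.2) • (y s - y' s) := by
      rw [mul_zsmul, ← e1, ← mul_zsmul]
    have e5 : ((s.1.2 : ℤ) * s'.1.1) • (x - x') = ((s'.1.2 : ℤ) * s.1.2) • (y s' - y' s') := by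
      rw [mul_zsmul, ← e2, ← mul_zsmul, mul_comm]
    rw [sub_zsmul, e4, e5, ← sub_eq_add_neg, ← smul_sub]
    congr 1
    abel
  rw [e3]
  refine (norm_zsmul_le' _ _).trans ?_
  have hd1 := (hS s.1 s.2).2.1
  have hd2 := (hS s'.1 s'.2).2.1
  have h5 : |(((s'.1.2 : ℤ) * s.1.2 : ℤ) : ℝ)| ≤ D ^ 2 := by
    push_cast
    rw [abs_of_nonneg (by positivity), sq]
    gcongr
    exact (Nat.cast_nonneg _).trans hd2
  have h6 : ‖(y s - y s') - (y' s - y' s')‖ ≤ 4 * (N * r) := by
    refine (norm_sub_le _ _).trans ?_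
    linarith
  calc |(((s'.1.2 : ℤ) * s.1.2 : ℤ) : ℝ)| * ‖(y s - y s') - (y' s - y' s')‖
      ≤ D ^ 2 * (4 * (N * r)) := by gcongr
    _ = _ := by ring

lemma fractions {s s' : ℤ × ℕ} (h : 1 ≤ s.2) (h' : 1 ≤ s'.2) (hc : s.1.gcd s.2 = 1)
    (hc' : s'.1.gcd s'.2 = 1) (hne : s ≠ s') : (s'.2 : ℤ) * s.1 - s.2 * s'.1 ≠ 0 := by
  intro h0
  apply hne
  have e : (s'.2 : ℤ) * s.1 = s.2 * s'.1 := by linarith
  have hco : IsCoprime s.1 (s.2 : ℤ) := Int.isCoprime_iff_gcd_eq_one.2 hc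
  have hco' : IsCoprime s'.1 (s'.2 : ℤ) := Int.isCoprime_iff_gcd_eq_one.2 hc'
  have h1 : (s.2 : ℤ) ∣ s'.2 := hco.symm.dvd_of_dvd_mul_right ⟨s'.1, e⟩
  have h2 : (s'.2 : ℤ) ∣ s.2 := hco'.symm.dvd_of_dvd_mul_right ⟨s.1, e.symm⟩
  have h3 : s.2 = s'.2 := Nat.dvd_antisymm (by exact_mod_cast h1) (by exact_mod_cast h2)
  have h4 : s.1 = s'.1 := by
    rw [h3] at e
    exact mul_left_cancel₀ (by exact_mod_cast (by omega : s'.2 ≠ 0)) e
  exact Prod.ext h4 h3

end Q70.Ag
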