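import Pool.Agent.Q70.AgC

/-!
The affine orbit of an atomless `×p`, `×q` invariant measure other than Lebesgue measure grows with
exponent one.
-/

set_option autoImplicit false

open MeasureTheory Filter Topology Set
open scoped ENNReal

namespace Q70.Ag

open Q70.Af
open Pool.Agent.W764.FB (hh EssInj close_hh)

/-- a point with very good rational approximations at sufficiently many scales is a torsion
point -/
lemma tors {z : T} {b c N₀ : ℕ} (h : ∀ M : ℕ, N₀ ≤ M → ∃ N : ℕ, M ≤ N ∧ N ≤ M ^ c ∧ ∃ k : ℤ, k ≠ 0 ∧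
    |(k : ℝ)| ≤ 2 * (N : ℝ) ^ (b + 1) ∧ ‖k • z‖ ≤ 4 / (N : ℝ) ^ (c * (b + 1) + 4)) :
    ∃ k : ℤ, k ≠ 0 ∧ k • z = 0 := by
  obtain ⟨d, rfl⟩ : ∃ d : ℝ, (d : T) = z := QuotientAddGroup.mk_surjective z
  set E : ℕ := c * (b + 1) + 4 with hE
  have h1 : ∀ M : ℕ, ∃ N : ℕ, ∃ k a : ℤ, N₀ ≤ M → M ≤ N ∧ N ≤ M ^ c ∧ k ≠ 0 ∧
      |(k : ℝ)| ≤ 2 * (N : ℝ) ^ (b + 1) ∧ |k * d - a| ≤ 4 / (N : ℝ) ^ E := by
    intro M
    by_cases hN : N₀ ≤ M
    · obtain ⟨N, hN1, hN2, k, hk1, hk2, hk3⟩ := h M hN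
      refine ⟨N, k, round ((k : ℝ) * d), fun _ => ⟨hN1, hN2, hk1, hk2, ?_⟩⟩
      rw [← AddCircle.coe_zsmul, zsmul_eq_mul, UnitAddCircle.norm_eq] at hk3
      exact hk3
    · exact ⟨0, 0, 0, fun h => absurd h hN⟩
  choose f k a hka using h1
  set N₁ : ℕ := max N₀ (16 * 2 ^ (c * (b + 1)) + 1) with hN₁
  -- the starting points of the scales
  set M : ℕ → ℕ := fun i => Nat.rec N₁ (fun _ x => f x + 1) i with hM
  have hM0 : M 0 = N₁ := rfl
  have hMs : ∀ i, M (i + 1) = f (M i) + 1 := fun i => rfl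
  have hMge : ∀ i, N₁ + i ≤ M i := by
    intro i
    induction i with
    | zero => exact le_rfl
    | succ i ih =>
      have h1 := (hka (M i) ((le_max_left _ _).trans ((Nat.le_add_right _ _).trans ih))).1
      rw [hMs]
      omega
  have hN₀M : ∀ i, N₀ ≤ M i := fun i =>
    (le_max_left _ _).trans ((Nat.le_add_right _ _).trans (hMge i))
  have hstep : ∀ i : ℕ, a (M i) * k (M (i + 1)) = a (M (i + 1)) * k (M i) := by
    intro i
    obtain ⟨hf1, hf2, -, h1, h2⟩ := hka (M i) (hN₀M i)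
    obtain ⟨hf3, hf4, -, h3, h4⟩ := hka (M (i + 1)) (hN₀M (i + 1))
    set N : ℕ := f (M i) with hN
    set N' : ℕ := f (M (i + 1)) with hN'
    have hN2 : 16 * 2 ^ (c * (b + 1)) + 1 ≤ N :=
      (le_max_right _ _).trans (((Nat.le_add_right _ _).trans (hMge i)).trans hf1)
    have hN1 : 1 ≤ N := (Nat.le_add_left _ _).trans hN2
    have hNR : (1 : ℝ) ≤ N := by exact_mod_cast hN1
    have hNN' : N ≤ N' := by
      rw [hMs] at hf3
      omega
    have hNN'R : (N : ℝ) ≤ N' := by exact_mod_cast hNN'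
    have hN'le : (N' : ℝ) ≤ (2 * N : ℝ) ^ c := by
      have h5 : N' ≤ (2 * N) ^ c := by
        refine hf4.trans (Nat.pow_le_pow_left ?_ c)
        rw [hMs]
        omega
      exact_mod_cast h5
    have e : ((a (M i) * k (M (i + 1)) - a (M (i + 1)) * k (M i) : ℤ) : ℝ) =
        k (M i) * (k (M (i + 1)) * d - a (M (i + 1))) -
          k (M (i + 1)) * (k (M i) * d - a (M i)) := by
      push_cast; ring
    have h5 : |((a (M i) * k (M (i + 1)) - a (M (i + 1)) * k (M i) : ℤ) : ℝ)| < 1 := by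
      rw [e]
      have h7 : |(k (M (i + 1)) * d - a (M (i + 1)) : ℝ)| ≤ 4 / (N : ℝ) ^ E :=
        h4.trans (by gcongr)
      have h8 : |(k (M i) : ℝ)| ≤ 2 * (N' : ℝ) ^ (b + 1) := h1.trans (by gcongr)
      have h9 : (N' : ℝ) ^ (b + 1) ≤ 2 ^ (c * (b + 1)) * (N : ℝ) ^ (c * (b + 1)) := by
        calc (N' : ℝ) ^ (b + 1) ≤ ((2 * N : ℝ) ^ c) ^ (b + 1) := by gcongr
          _ = _ := by rw [← pow_mul, mul_pow]
      calc |(k (M i) * (k (M (i + 1)) * d - a (M (i + 1))) -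
            k (M (i + 1)) * (k (M i) * d - a (M i)) : ℝ)|
          ≤ |(k (M i) * (k (M (i + 1)) * d - a (M (i + 1))) : ℝ)| +
            |(k (M (i + 1)) * (k (M i) * d - a (M i)) : ℝ)| := abs_sub _ _
        _ ≤ 2 * (N' : ℝ) ^ (b + 1) * (4 / (N : ℝ) ^ E) +
            2 * (N' : ℝ) ^ (b + 1) * (4 / (N : ℝ) ^ E) := by
            rw [abs_mul, abs_mul]
            gcongr
        _ = 16 * (N' : ℝ) ^ (b + 1) / (N : ℝ) ^ E := by ring
        _ ≤ 16 * (2 ^ (c * (b + 1)) * (N : ℝ) ^ (c * (b + 1))) / (N : ℝ) ^ E := by gcongr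
        _ = 16 * 2 ^ (c * (b + 1)) / (N : ℝ) ^ 4 := by
            rw [hE, pow_add]
            field_simp
        _ < 1 := by
            rw [div_lt_one (by positivity)]
            have h10 : (16 * 2 ^ (c * (b + 1)) : ℝ) < N := by exact_mod_cast hN2
            have h11 : (N : ℝ) ≤ (N : ℝ) ^ 4 := by
              calc (N : ℝ) = (N : ℝ) ^ 1 := (pow_one _).symm
                _ ≤ (N : ℝ) ^ 4 := pow_le_pow_right₀ hNR (by norm_num)
            linarith
    have h6 : |a (M i) * k (M (i + 1)) - a (M (i + 1)) * k (M i)| < 1 := by exact_mod_cast h5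
    have h7 := Int.abs_lt_one_iff.1 h6
    linarith
  have hk0 : ∀ i : ℕ, (k (M i) : ℝ) ≠ 0 := fun i => by
    exact_mod_cast (hka (M i) (hN₀M i)).2.2.1
  have hconst : ∀ i : ℕ, (a (M i) : ℝ) / k (M i) = a (M 0) / k (M 0) := by
    intro i
    induction i with
    | zero => rfl
    | succ i ih =>
      rw [← ih]
      have h1 := hstep i
      rw [div_eq_div_iff (hk0 (i + 1)) (hk0 i)]
      exact_mod_cast h1.symm
  have hlim : |d - a (M 0) / k (M 0)| ≤ 0 := by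
    have ht : Tendsto (fun i : ℕ => 4 / (((N₁ + i : ℕ) : ℝ)) ^ E) atTop (𝓝 0) := by
      refine Tendsto.div_atTop tendsto_const_nhds ?_
      refine (tendsto_pow_atTop (by omega)).comp ?_
      refine tendsto_natCast_atTop_atTop.comp ?_
      exact tendsto_atTop_mono (fun j => Nat.le_add_left j N₁) tendsto_id
    refine ge_of_tendsto' ht fun i => ?_
    obtain ⟨hf1, -, h1, -, h2⟩ := hka (M i) (hN₀M i)
    have h3 : (1 : ℝ) ≤ |(k (M i) : ℝ)| := by exact_mod_cast Int.one_le_abs h1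
    rw [← hconst i]
    have h4 : d - a (M i) / k (M i) = (k (M i) * d - a (M i)) / k (M i) := by
      have := hk0 i
      field_simp
    rw [h4, abs_div]
    have h5 : ((N₁ + i : ℕ) : ℝ) ≤ f (M i) := by exact_mod_cast (hMge i).trans hf1
    have h6 : (0 : ℝ) < ((N₁ + i : ℕ) : ℝ) := by
      have : 0 < N₁ := lt_of_lt_of_le (Nat.succ_pos _) (le_max_right N₀ _)
      exact_mod_cast (by omega : 0 < N₁ + i)
    refine (div_le_self (abs_nonneg _) h3).trans (h2.trans ?_)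
    gcongr
  have h0 : d = a (M 0) / k (M 0) := by
    have := abs_nonpos_iff.1 hlim
    linarith
  refine ⟨k (M 0), by exact_mod_cast hk0 0, ?_⟩
  rw [← AddCircle.coe_zsmul, AddCircle.coe_eq_zero_iff]
  refine ⟨a (M 0), ?_⟩
  rw [zsmul_eq_mul, zsmul_eq_mul, mul_one, h0]
  have := hk0 0
  field_simp

/-- the pairs `(n, d)` such that the image of `μ` under `x ↦ n x` is a translate of the image of `ν`
under `x ↦ d x` -/
def Pairs (μ ν : Measure T) (β : ℝ) (N : ℕ) : Set (ℤ × ℕ) :=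
  {s | s.1 ≠ 0 ∧ |s.1| ≤ N ∧ 1 ≤ s.2 ∧ (s.2 : ℝ) ≤ (N : ℝ) ^ β ∧ s.1.gcd s.2 = 1 ∧
    ∃ t : T, μ.map (fun x : T => s.1 • x + t) = ν.map (fun x : T => s.2 • x)}

lemma pairs_finite (μ ν : Measure T) (β : ℝ) (N : ℕ) : (Pairs μ ν β N).Finite := by
  refine Set.Finite.subset ((Set.finite_Icc (-(N : ℤ)) N).prod
    (Set.finite_Icc 1 ⌊(N : ℝ) ^ β⌋₊)) ?_
  rintro ⟨n, d⟩ ⟨-, h1, h2, h3, -⟩
  exact ⟨abs_le.1 h1, h2, Nat.le_floor h3⟩

lemma clog_tendsto {p Λ : ℕ} (hp : 2 ≤ p) (hΛ : 1 ≤ Λ) :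
    Tendsto (fun N : ℕ => Nat.clog p (N ^ Λ)) atTop atTop := by
  refine tendsto_atTop.2 fun M => ?_
  filter_upwards [eventually_ge_atTop (p ^ M)] with N hN
  have h1 : p ^ M ≤ N ^ Λ := hN.trans (Nat.le_self_pow (by omega) N)
  calc M = Nat.clog p (p ^ M) := (Nat.clog_pow p M (by omega)).symm
    _ ≤ _ := Nat.clog_mono_right p h1

theorem growth {p q : ℕ} (hp : p.Prime) (hq : 2 ≤ q) (hpq : ¬ p ∣ q) {μ : Measure T}
    [IsProbabilityMeasure μ] (hμ : Inv p q μ) (hat : ∀ x, μ {x} = 0) (hne : μ ≠ volume)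
    {α β : ℝ} (hβ : 0 ≤ β) (hαβ : 2 * β < α) (c N₀ : ℕ) :
    ∃ M : ℕ, N₀ ≤ M ∧ ∀ N : ℕ, M ≤ N → N ≤ M ^ c → ∀ ν : Measure T, IsProbabilityMeasure ν →
      ((Pairs μ ν β N).ncard : ℝ) < (N : ℝ) ^ α := by
  classical
  by_contra hcon
  push Not at hcon
  have hp2 := hp.two_le
  have hpR : (2 : ℝ) ≤ p := by exact_mod_cast hp2
  have hp0 : (0 : ℝ) < p := by linarith
  obtain ⟨w, hinv, hdec⟩ := decomp hp2 hq hμ
  set κ := μ.singularPart volume with hκ
  have hκ0 : κ ≠ 0 := by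
    intro h0
    rw [h0, zero_add] at hdec
    have h1 : μ univ = w * (volume : Measure T) univ := by
      conv_lhs => rw [hdec]
      rw [Measure.smul_apply, smul_eq_mul]
    rw [measure_univ, measure_univ, mul_one] at h1
    rw [← h1, one_smul] at hdec
    exact hne hdec
  have hκle : κ ≤ μ := Measure.singularPart_le μ volume
  have hκfin : IsFiniteMeasure κ := isFiniteMeasure_of_le μ hκle
  set σ : Measure T := (κ univ)⁻¹ • κ with hσ
  have hσp : IsProbabilityMeasure σ := norm_prob hκ0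
  have hσinv : Inv p q σ := ⟨mp_const hinv.1 _, mp_const hinv.2 _⟩
  have hσs : σ ⟂ₘ (volume : Measure T) := (Measure.mutuallySingular_singularPart _ _).smul _
  have hκat : ∀ x, κ {x} = 0 := fun x => le_antisymm ((hκle {x}).trans (hat x).le) zero_le
  have hσat : ∀ x, σ {x} = 0 := fun x => by
    rw [hσ, Measure.smul_apply, smul_eq_mul, hκat x, mul_zero]
  set c₀ : ℝ := κ.real univ with hc₀
  have hc₀pos : 0 < c₀ := by
    rw [hc₀, measureReal_def]
    exact ENNReal.toReal_pos (fun h => hκ0 (Measure.measure_univ_eq_zero.1 h)) (measure_ne_top _ _)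
  have hμσ : ∀ A : Set T, c₀ * σ.real A ≤ μ.real A := by
    intro A
    have h1 : σ.real A = c₀⁻¹ * κ.real A := by
      rw [hσ, measureReal_def, Measure.smul_apply, smul_eq_mul, ENNReal.toReal_mul,
        ENNReal.toReal_inv, hc₀, measureReal_def, measureReal_def]
    rw [h1, ← mul_assoc, mul_inv_cancel₀ hc₀pos.ne', one_mul]
    exact ENNReal.toReal_mono (measure_ne_top _ _) (hκle A)
  obtain ⟨B, hBm, hB0, hBinj⟩ := rudolph hp hq hpq hσinv.1 hσinv.2 hσs
  have hess : EssInj p σ := essInj_of hBm hB0 hBinj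
  -- parameters
  set b : ℕ := ⌈β⌉₊ with hb
  have hβb : β ≤ b := Nat.le_ceil β
  set Λ : ℕ := 2 * b + 1 + (c * (b + 1) + 4) with hΛ
  have hΛR : (0 : ℝ) < Λ := by exact_mod_cast (by omega : 0 < Λ)
  set ε : ℝ := (α - 2 * β) / (4 * Λ) with hε
  have hεpos : 0 < ε := by
    rw [hε]
    have : 0 < α - 2 * β := by linarith
    positivity
  have hgood := zero_dim hp2 σ hσinv.1 hess hεpos
  -- the scales
  set m : ℕ → ℝ := fun N => c₀ * ((p : ℝ) * (N : ℝ) ^ Λ) ^ (-ε) with hm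
  set r : ℕ → ℝ := fun N => ((p : ℝ) ^ Nat.clog p (N ^ Λ))⁻¹ with hr
  have hmass : ∀ x : T, (∀ᶠ n : ℕ in atTop,
      (p : ℝ) ^ (-(ε * n)) ≤ σ.real (Metric.closedBall x (((p : ℝ) ^ n)⁻¹))) →
      ∀ᶠ N : ℕ in atTop, m N ≤ μ.real (Metric.closedBall x (r N)) := by
    intro x hx
    have h1 := (clog_tendsto (Λ := Λ) hp2 (by omega)).eventually hx
    filter_upwards [h1, eventually_ge_atTop 2] with N hN hN2
    refine le_trans ?_ (hμσ _)
    simp only [hm]
    refine mul_le_mul_of_nonneg_left (le_trans ?_ hN) hc₀pos.le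
    have hy : 1 < N ^ Λ := Nat.one_lt_pow (by omega) (by omega)
    have h2 : p ^ Nat.clog p (N ^ Λ) < p * N ^ Λ := by
      have h3 := Nat.pow_pred_clog_lt_self (b := p) (by omega) hy
      have h4 : 0 < Nat.clog p (N ^ Λ) := Nat.clog_pos (by omega) hy
      have h5 : Nat.clog p (N ^ Λ) = (Nat.clog p (N ^ Λ)).pred + 1 := by
        rw [Nat.pred_eq_sub_one]; omega
      rw [h5, pow_succ, mul_comm]
      exact Nat.mul_lt_mul_of_pos_left h3 (by omega)
    have h3 : (p : ℝ) ^ Nat.clog p (N ^ Λ) ≤ (p : ℝ) * (N : ℝ) ^ Λ := by exact_mod_cast h2.le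
    have e : (p : ℝ) ^ (-(ε * (Nat.clog p (N ^ Λ) : ℕ))) =
        ((p : ℝ) ^ Nat.clog p (N ^ Λ)) ^ (-ε) := by
      rw [← Real.rpow_natCast, ← Real.rpow_mul hp0.le]
      congr 1
      ring
    rw [e]
    exact Real.rpow_le_rpow_of_nonpos (by positivity) h3 (by linarith)
  have hcard : ∀ᶠ N : ℕ in atTop, 1 < (N : ℝ) ^ α * (m N / (N : ℝ) ^ β) ^ 2 := by
    have h1 : Tendsto (fun N : ℕ => c₀ ^ 2 * (p : ℝ) ^ (-(2 * ε)) * (N : ℝ) ^ ((α - 2 * β) / 2))
        atTop atTop := by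
      refine Tendsto.const_mul_atTop (by positivity) ?_
      exact (tendsto_rpow_atTop (by linarith)).comp tendsto_natCast_atTop_atTop
    filter_upwards [h1.eventually (eventually_gt_atTop 1), eventually_ge_atTop 1] with N hN hN1
    refine lt_of_lt_of_le hN (le_of_eq ?_)
    have hNR : (0 : ℝ) < N := by exact_mod_cast hN1
    have hΛε : 2 * ε * Λ = (α - 2 * β) / 2 := by
      rw [hε]
      field_simp
      ring
    have e1 : (((p : ℝ) * (N : ℝ) ^ Λ) ^ (-ε)) ^ 2 =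
        (p : ℝ) ^ (-(2 * ε)) * (N : ℝ) ^ (-(2 * ε * Λ)) := by
      rw [← Real.rpow_natCast _ 2, ← Real.rpow_mul (by positivity),
        Real.mul_rpow hp0.le (by positivity), ← Real.rpow_natCast (N : ℝ) Λ,
        ← Real.rpow_mul hNR.le]
      congr 2
      · push_cast; ring
      · push_cast; ring
    have e2 : ((N : ℝ) ^ β) ^ 2 = (N : ℝ) ^ (2 * β) := by
      rw [← Real.rpow_natCast _ 2, ← Real.rpow_mul hNR.le]
      congr 1
      push_cast; ring
    have e3 : (N : ℝ) ^ α * ((N : ℝ) ^ (-(2 * ε * Λ)) / (N : ℝ) ^ (2 * β)) =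
        (N : ℝ) ^ ((α - 2 * β) / 2) := by
      rw [← Real.rpow_sub hNR, ← Real.rpow_add hNR, hΛε]
      congr 1
      ring
    simp only [hm]
    rw [div_pow, mul_pow, e1, e2, ← e3]
    ring
  -- approximations of differences
  have hpair : ∀ x x' : T, (∀ᶠ N : ℕ in atTop, m N ≤ μ.real (Metric.closedBall x (r N))) →
      (∀ᶠ N : ℕ in atTop, m N ≤ μ.real (Metric.closedBall x' (r N))) →
      ∃ k : ℤ, k ≠ 0 ∧ k • (x - x') = 0 := by
    intro x x' hx hx'
    obtain ⟨N₁, hN₁⟩ := eventually_atTop.1 (hx.and (hx'.and hcard))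
    refine tors (b := b) (c := c) (N₀ := max (max N₀ N₁) 1) fun M hM => ?_
    have hM0 : N₀ ≤ M := (le_max_left _ _).trans ((le_max_left _ _).trans hM)
    obtain ⟨N, hMN, hNM, ν, hν, h4⟩ := hcon M hM0
    have hN := hM.trans hMN
    have hNN1 : N₁ ≤ N := (le_max_right _ _).trans ((le_max_left _ _).trans hN)
    have hN1 : 1 ≤ N := (le_max_right _ _).trans hN
    have hNR : (1 : ℝ) ≤ N := by exact_mod_cast hN1
    refine ⟨N, hMN, hNM, ?_⟩
    obtain ⟨h1, h2, h3⟩ := hN₁ N hNN1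
    set S := (pairs_finite μ ν β N).toFinset with hS
    have hScard : (S.card : ℝ) = (Pairs μ ν β N).ncard := by
      rw [hS, Set.ncard_eq_toFinset_card _ (pairs_finite μ ν β N)]
    have hmem : ∀ s ∈ S, s ∈ Pairs μ ν β N := fun s hs => by simpa [hS] using hs
    have hmpos : 0 < m N := by simp only [hm]; positivity
    have hcd : 1 < S.card * (m N / (N : ℝ) ^ β) ^ 2 := by
      refine h3.trans_le ?_
      rw [hScard]
      gcongr
    obtain ⟨s, hs, s', hs', hne', hle⟩ := pigeon (μ := μ) (ν := ν) S (D := (N : ℝ) ^ β) (N := N)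
      (fun s hs => ⟨(hmem s hs).2.2.1, (hmem s hs).2.2.2.1, by exact_mod_cast (hmem s hs).2.1,
        (hmem s hs).2.2.2.2.2⟩) hmpos (by simp only [hr]; positivity) h1 h2 hcd
    have hsP := hmem s hs
    have hsP' := hmem s' hs'
    refine ⟨(s'.2 : ℤ) * s.1 - s.2 * s'.1, fractions hsP.2.2.1 hsP'.2.2.1 hsP.2.2.2.2.1
      hsP'.2.2.2.2.1 hne', ?_, ?_⟩
    · have hb1 : (N : ℝ) ^ β ≤ (N : ℝ) ^ b := by
        rw [← Real.rpow_natCast]
        exact Real.rpow_le_rpow_of_exponent_le hNR hβb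
      have h5 : |(s.1 : ℝ)| ≤ N := by exact_mod_cast hsP.2.1
      have h6 : |(s'.1 : ℝ)| ≤ N := by exact_mod_cast hsP'.2.1
      have h7 : (s.2 : ℝ) ≤ (N : ℝ) ^ b := hsP.2.2.2.1.trans hb1
      have h8 : (s'.2 : ℝ) ≤ (N : ℝ) ^ b := hsP'.2.2.2.1.trans hb1
      push_cast
      calc |(s'.2 : ℝ) * s.1 - s.2 * s'.1| ≤ |(s'.2 : ℝ) * s.1| + |(s.2 : ℝ) * s'.1| := abs_sub _ _
        _ ≤ (N : ℝ) ^ b * N + (N : ℝ) ^ b * N := by
            rw [abs_mul, abs_mul, Nat.abs_cast, Nat.abs_cast]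
            gcongr
        _ = 2 * (N : ℝ) ^ (b + 1) := by ring
    · refine hle.trans ?_
      have hrle : r N ≤ ((N : ℝ) ^ Λ)⁻¹ := by
        simp only [hr]
        have h5 : N ^ Λ ≤ p ^ Nat.clog p (N ^ Λ) := Nat.le_pow_clog (by omega) _
        have h6 : (N : ℝ) ^ Λ ≤ (p : ℝ) ^ Nat.clog p (N ^ Λ) := by exact_mod_cast h5
        gcongr
      have hb1 : (N : ℝ) ^ β ≤ (N : ℝ) ^ b := by
        rw [← Real.rpow_natCast]
        exact Real.rpow_le_rpow_of_exponent_le hNR hβb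
      calc 4 * ((N : ℝ) ^ β) ^ 2 * (N * r N) ≤ 4 * ((N : ℝ) ^ b) ^ 2 * (N * ((N : ℝ) ^ Λ)⁻¹) := by
            gcongr
        _ = 4 / (N : ℝ) ^ (c * (b + 1) + 4) := by
            rw [hΛ, pow_add (N : ℝ) (2 * b + 1), ← pow_mul]
            have : (N : ℝ) ≠ 0 := by positivity
            field_simp
            ring
  -- a good point
  obtain ⟨x, hx⟩ : ∃ x : T, ∀ᶠ n : ℕ in atTop,
      (p : ℝ) ^ (-(ε * n)) ≤ σ.real (Metric.closedBall x (((p : ℝ) ^ n)⁻¹)) := hgood.exists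
  have hall : ∀ᵐ x' ∂σ, ∃ k : ℤ, k ≠ 0 ∧ k • (x - x') = 0 := by
    filter_upwards [hgood] with x' hx'
    exact hpair x x' (hmass x hx) (hmass x' hx')
  have hcount : {x' : T | ∃ k : ℤ, k ≠ 0 ∧ k • (x - x') = 0}.Countable := by
    have : {x' : T | ∃ k : ℤ, k ≠ 0 ∧ k • (x - x') = 0} ⊆
        ⋃ k : {k : ℤ // k ≠ 0}, {x' : T | k.1 • x' = k.1 • x} := by
      rintro x' ⟨k, hk, h⟩
      rw [mem_iUnion]
      refine ⟨⟨k, hk⟩, ?_⟩
      rw [smul_sub, sub_eq_zero] at h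
      exact h.symm
    exact (countable_iUnion fun k => (fin_fibre k.2 _).countable).mono this
  have hnull : σ {x' : T | ∃ k : ℤ, k ≠ 0 ∧ k • (x - x') = 0} = 0 := by
    have : NullMeasurableSet {x' : T | ∃ k : ℤ, k ≠ 0 ∧ k • (x - x') = 0} σ :=
      hcount.measurableSet.nullMeasurableSet
    exact (measure_null_iff_singleton hcount).2 fun y _ => hσat y
  have h1 : ∀ᵐ x' ∂σ, False := by
    have h2 : ∀ᵐ x' ∂σ, x' ∉ {x' : T | ∃ k : ℤ, k ≠ 0 ∧ k • (x - x') = 0} :=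
      measure_eq_zero_iff_ae_notMem.1 hnull
    filter_upwards [hall, h2] with x' h3 h4
    exact h4 h3
  have h2 := (ae_iff.1 h1)
  simp at h2

/-- the number of the images `n μ`, `n ≤ N`, up to translations -/
theorem classes {p q : ℕ} (hp : p.Prime) (hq : 2 ≤ q) (hpq : ¬ p ∣ q) {μ : Measure T}
    [IsProbabilityMeasure μ] (hμ : Inv p q μ) (hat : ∀ x, μ {x} = 0) (hne : μ ≠ volume)
    {α : ℝ} (hα : 0 < α) (c N₀ : ℕ) :
    ∃ M : ℕ, N₀ ≤ M ∧ ∀ N : ℕ, M ≤ N → N ≤ M ^ c → ∀ F : Finset (Measure T),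
      (∀ n : ℕ, 1 ≤ n → n ≤ N → ∃ ν ∈ F, ∃ t : T, μ.map (fun x : T => n • x + t) = ν) →
      (N : ℝ) ^ (1 - α) ≤ F.card := by
  classical
  obtain ⟨M, hM, h⟩ := growth hp hq hpq hμ hat hne (α := α) (β := 0) le_rfl (by linarith)
    c (max N₀ 1)
  refine ⟨M, (le_max_left _ _).trans hM, fun N hMN hNM F hF => ?_⟩
  have hN1 : 1 ≤ N := ((le_max_right _ _).trans hM).trans hMN
  have hNR : (0 : ℝ) < N := by exact_mod_cast hN1
  have h1 : ∀ n : ℕ, ∃ ν : Measure T, n ∈ Finset.Icc 1 N → ν ∈ F ∧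
      ∃ t : T, μ.map (fun x : T => n • x + t) = ν := by
    intro n
    by_cases hn : n ∈ Finset.Icc 1 N
    · obtain ⟨h2, h3⟩ := Finset.mem_Icc.1 hn
      obtain ⟨ν, hν, h4⟩ := hF n h2 h3
      exact ⟨ν, fun _ => ⟨hν, h4⟩⟩
    · exact ⟨0, fun h => absurd h hn⟩
  choose f hf using h1
  have h2 := Finset.card_eq_sum_card_fiberwise (f := f) (s := Finset.Icc 1 N) (t := F)
    (fun n hn => (hf n hn).1)
  have h3 : ∀ ν ∈ F, (((Finset.Icc 1 N).filter fun n => f n = ν).card : ℝ) ≤ (N : ℝ) ^ α := by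
    intro ν _
    rcases ((Finset.Icc 1 N).filter fun n => f n = ν).eq_empty_or_nonempty with h0 | ⟨n, hn⟩
    · rw [h0]; simp; positivity
    · have hνp : IsProbabilityMeasure ν := by
        rw [Finset.mem_filter] at hn
        obtain ⟨-, t, ht⟩ := hf n hn.1
        rw [← hn.2, ← ht]
        have := prob_aff μ n t
        simpa using this
      have h4 := h N hMN hNM ν hνp
      refine le_trans ?_ h4.le
      have h5 : ((Finset.Icc 1 N).filter fun n => f n = ν).card ≤ (Pairs μ ν 0 N).ncard := by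
        rw [← Set.ncard_coe_finset]
        refine Set.ncard_le_ncard_of_injOn (fun n : ℕ => ((n : ℤ), 1)) ?_ ?_ (pairs_finite μ ν 0 N)
        · intro k hk
          rw [Finset.mem_coe, Finset.mem_filter, Finset.mem_Icc] at hk
          obtain ⟨-, t, ht⟩ := hf k (Finset.mem_Icc.2 hk.1)
          refine ⟨?_, ?_, le_rfl, by simp, by simp, t, ?_⟩
          · show ((k : ℕ) : ℤ) ≠ 0
            exact_mod_cast (by omega : k ≠ 0)
          · show |((k : ℕ) : ℤ)| ≤ (N : ℤ)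
            rw [Nat.abs_cast]
            exact_mod_cast hk.1.2
          · rw [hk.2] at ht
            simp only [natCast_zsmul, one_smul]
            rw [ht]
            exact Measure.map_id.symm
        · intro k _ l _ hkl
          have h6 : ((k : ℕ) : ℤ) = l := congrArg Prod.fst hkl
          exact_mod_cast h6
      exact_mod_cast h5
  have h4 : (N : ℝ) ≤ F.card * (N : ℝ) ^ α := by
    have h5 : ((Finset.Icc 1 N).card : ℝ) = ∑ ν ∈ F,
        (((Finset.Icc 1 N).filter fun n => f n = ν).card : ℝ) := by exact_mod_cast h2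
    rw [Nat.card_Icc] at h5
    have h6 : ((N + 1 - 1 : ℕ) : ℝ) = N := by norm_num
    rw [h6] at h5
    calc (N : ℝ) = ∑ ν ∈ F, (((Finset.Icc 1 N).filter fun n => f n = ν).card : ℝ) := h5
      _ ≤ ∑ _ν ∈ F, (N : ℝ) ^ α := Finset.sum_le_sum h3
      _ = _ := by rw [Finset.sum_const, nsmul_eq_mul]
  rw [Real.rpow_sub hNR, Real.rpow_one, div_le_iff₀ (by positivity)]
  exact h4

end Q70.Ag
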