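import Pool.Agent.Q70.AgD
import Pool.Agent.TH463.UQ.Trace
import Pool.Agent.W764.FB.Ext

/-!
# Affine classes of the extreme traces of `C*(ℤ² ⋉ ℤ[1/6])`
-/

set_option autoImplicit false

open MeasureTheory Filter Topology
open scoped ComplexOrder

namespace Q70.Ah

open Pool.Agent.TH654.FC Pool.Agent.W763.Tr Pool.Agent.TH463.UQ

/-- every complex number of absolute value one is a value of the first character -/
lemma exists_circ (z : ℂ) (hz : ‖z‖ = 1) : ∃ t : UnitAddCircle, ∀ k : ℤ, fourier k t * z ^ k = 1 := by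
  obtain ⟨t, ht⟩ : ∃ t : UnitAddCircle, fourier 1 t = z⁻¹ := by
    have hz' : z⁻¹ ∈ Metric.sphere (0 : ℂ) 1 := by simp [hz]
    obtain ⟨t, ht⟩ := (AddCircle.homeomorphCircle (T := (1 : ℝ)) one_ne_zero).surjective ⟨z⁻¹, hz'⟩
    refine ⟨t, ?_⟩
    have h1 : (AddCircle.toCircle t : ℂ) = z⁻¹ := by
      have := congrArg (Subtype.val) ht
      simpa [AddCircle.homeomorphCircle_apply] using this
    rw [fourier_one, h1]
  refine ⟨t, fun k => ?_⟩
  have hz0 : z ≠ 0 := by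
    intro h; rw [h] at hz; simp at hz
  have h2 : (fourier k t : ℂ) = (fourier 1 t) ^ k := by
    rw [fourier_apply, fourier_one, AddCircle.toCircle_zsmul]
    simp
  rw [h2, ht, inv_zpow, inv_mul_cancel₀ (zpow_ne_zero _ hz0)]

lemma coeff_mapz (μ : Measure UnitAddCircle) [IsProbabilityMeasure μ] (n : ℤ) (t : UnitAddCircle) (k : ℤ) :
    ∫ x, (fourier k x : ℂ) ∂(μ.map (fun x : UnitAddCircle => n • x + t)) =
      fourier k t * ∫ x, (fourier (n * k) x : ℂ) ∂μ := by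
  rw [integral_map (by fun_prop) (by fun_prop), ← integral_const_mul]
  refine integral_congr_ae (Eventually.of_forall fun x => ?_)
  simp only [fourier_apply]
  rw [smul_add, AddCircle.toCircle_add, mul_comm n k, mul_smul]
  push_cast
  ring

lemma coeff_map (μ : Measure UnitAddCircle) [IsProbabilityMeasure μ] (n : ℕ) (t : UnitAddCircle) (k : ℤ) :
    ∫ x, (fourier k x : ℂ) ∂(μ.map (fun x : UnitAddCircle => n • x + t)) =
      fourier k t * ∫ x, (fourier (n * k) x : ℂ) ∂μ := by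
  have := coeff_mapz μ n t k
  simpa only [natCast_zsmul] using this

lemma coeff_mapn (ν : Measure UnitAddCircle) (d : ℕ) (k : ℤ) :
    ∫ x, (fourier k x : ℂ) ∂(ν.map (fun x : UnitAddCircle => d • x)) =
      ∫ x, (fourier (d * k) x : ℂ) ∂ν := by
  rw [integral_map (by fun_prop) (by fun_prop)]
  refine integral_congr_ae (Eventually.of_forall fun x => ?_)
  simp only [fourier_apply]
  rw [mul_comm (d : ℤ) k, mul_smul, natCast_zsmul]

variable {G : Subgroup (Equiv.Perm ℚ)} {τ : ℤ → G} {φ : G → ℂ} {S6 : G} {μ : Measure UnitAddCircle}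

lemma tau_pow (D : Data G τ φ S6 μ) {u : G} (hu : ∀ x : ℚ, (u : Equiv.Perm ℚ) x = x + 1) (k : ℤ) :
    u ^ k = τ k := by
  have h1 : u = τ 1 := by
    apply Subtype.ext
    apply Equiv.ext
    intro x
    rw [D.hτ, hu]; push_cast; ring
  have hadd : ∀ a b : ℤ, τ (a + b) = τ a * τ b := by
    intro a b
    apply Subtype.ext
    apply Equiv.ext
    intro x
    rw [Subgroup.coe_mul, Equiv.Perm.mul_apply, D.hτ, D.hτ, D.hτ]; push_cast; ring
  have h0 : τ 0 = 1 := by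
    apply Subtype.ext
    apply Equiv.ext
    intro x
    rw [D.hτ]; simp
  have hneg : ∀ a : ℤ, τ (-a) = (τ a)⁻¹ := by
    intro a
    rw [eq_inv_iff_mul_eq_one, ← hadd, neg_add_cancel, h0]
  have hnat : ∀ n : ℕ, u ^ n = τ n := by
    intro n
    induction n with
    | zero => simp [h0]
    | succ n ih => rw [pow_succ, ih, h1, ← hadd]; push_cast; rfl
  obtain ⟨n, rfl | rfl⟩ := k.eq_nat_or_neg
  · rw [zpow_natCast, hnat]
  · rw [zpow_neg, zpow_natCast, hnat, hneg]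

/-- **Affine classes of an extreme trace.** -/
theorem trace_classes (s2 s3 t : Equiv.Perm ℚ) (hs2 : ∀ x : ℚ, s2 x = 2 * x)
    (hs3 : ∀ x : ℚ, s3 x = 3 * x)
    (ht : ∀ x : ℚ, t x = x + 1) (G : Subgroup (Equiv.Perm ℚ))
    (hG : G = Subgroup.closure {s2, s3, t}) (u : G)
    (hu : ∀ x : ℚ, (u : Equiv.Perm ℚ) x = x + 1) (φ : G → ℂ)
    (hext : φ ∈ Set.extremePoints ℝ {ψ : G → ℂ | ψ 1 = 1 ∧ (∀ g h : G, ψ (h * g * h⁻¹) = ψ g) ∧
      ∀ (s : Finset G) (c : G → ℂ), 0 ≤ ∑ i ∈ s, ∑ j ∈ s, star (c j) * c i * ψ (j⁻¹ * i)}) :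
    List.TFAE [
      φ = Set.indicator ({1} : Set G) (fun _ => (1 : ℂ)) ∨
        FiniteDimensional ℂ (Submodule.span ℂ {F : G → ℂ | ∃ n : G,
          (∃ r : ℚ, ∀ x : ℚ, (n : Equiv.Perm ℚ) x = x + r) ∧ F = fun x => φ (n * x)}),
      ∃ F : Finset (ℤ → ℂ), ∀ n : ℕ, 1 ≤ n → ∃ f ∈ F, ∀ k : ℤ, φ (u ^ ((n : ℤ) * k)) = f k,
      ∃ α : ℝ, 0 < α ∧ ∃ c N₀ : ℕ, ∀ M : ℕ, N₀ ≤ M → ∃ N : ℕ, M ≤ N ∧ N ≤ M ^ c ∧
        ∃ F : Finset (ℤ → ℂ), (F.card : ℝ) < (N : ℝ) ^ (1 - α) ∧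
          ∀ n : ℕ, 1 ≤ n → n ≤ N → ∃ f ∈ F, ∃ z : ℂ, ‖z‖ = 1 ∧
            ∀ k : ℤ, φ (u ^ ((n : ℤ) * k)) = z ^ k * f k,
      ∃ α β : ℝ, 0 ≤ β ∧ 2 * β < α ∧ ∃ c N₀ : ℕ, ∀ M : ℕ, N₀ ≤ M → ∃ N : ℕ, M ≤ N ∧ N ≤ M ^ c ∧
        ∃ ψ ∈ {ψ : G → ℂ | ψ 1 = 1 ∧ (∀ g h : G, ψ (h * g * h⁻¹) = ψ g) ∧
          ∀ (s : Finset G) (c : G → ℂ), 0 ≤ ∑ i ∈ s, ∑ j ∈ s, star (c j) * c i * ψ (j⁻¹ * i)},
          (N : ℝ) ^ α ≤ ({s : ℤ × ℕ | s.1 ≠ 0 ∧ |s.1| ≤ N ∧ 1 ≤ s.2 ∧ (s.2 : ℝ) ≤ (N : ℝ) ^ β ∧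
            s.1.gcd s.2 = 1 ∧ ∃ z : ℂ, ‖z‖ = 1 ∧
              ∀ k : ℤ, φ (u ^ (s.1 * k)) = z ^ k * ψ (u ^ ((s.2 : ℤ) * k))}.ncard : ℝ)] := by
  classical
  obtain ⟨h1, hcl, hpd⟩ := hext.1
  obtain ⟨τ, S6, μ, D⟩ := data_of hs2 hs3 ht hG h1 hcl hpd
  have := D.prob
  have hun : ∀ k : ℤ, φ (u ^ k) = ∫ x, fourier k x ∂μ := by
    intro k
    rw [tau_pow D hu, D.hμ]
  have hstart : (φ = Set.indicator ({1} : Set G) (fun _ => (1 : ℂ)) ∨
        FiniteDimensional ℂ (Submodule.span ℂ {F : G → ℂ | ∃ n : G,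
          (∃ r : ℚ, ∀ x : ℚ, (n : Equiv.Perm ℚ) x = x + r) ∧ F = fun x => φ (n * x)})) →
      ∃ M : ℕ, 1 ≤ M ∧ ∀ n : ℕ, 1 ≤ n → ∀ r : ℕ, 1 ≤ r → r ≡ n [MOD M] →
        ∀ k : ℤ, φ (u ^ ((n : ℤ) * k)) = φ (u ^ ((r : ℤ) * k)) := by
    rintro (h | h)
    · refine ⟨1, le_rfl, fun n hn r hr _ k => ?_⟩
      have key : ∀ m : ℤ, m ≠ 0 → φ (u ^ m) = 0 := by
        intro m hm
        rw [h, Set.indicator_of_notMem]
        intro hmem
        have e : u ^ m = 1 := hmem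
        rw [tau_pow D hu] at e
        have e2 := D.hτ m 0
        rw [e] at e2
        simp at e2
        exact hm (by exact_mod_cast e2.symm)
      by_cases hk : k = 0
      · simp [hk]
      · rw [key _ (mul_ne_zero (by omega) hk), key _ (mul_ne_zero (by omega) hk)]
    · obtain ⟨M, hM1, hM⟩ := exists_kernel D.hτ D.hμ D.h2 h
      have hper : ∀ a b : ℤ, φ (u ^ (a + M * b)) = φ (u ^ a) := by
        intro a b
        rw [hun, hun]
        have hae : ∀ᵐ x ∂μ, (fourier (M * b) x : ℂ) = 1 := by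
          have h3 : ∫ x, (fourier (M * b) x : ℂ) ∂μ = 1 := by rw [D.hμ]; exact hM b
          have h4 : ∫ x, (1 - (fourier (M * b) x : ℂ).re) ∂μ = 0 := by
            have hint : Integrable (fun x => (fourier (M * b) x : ℂ)) μ :=
              (by fun_prop : Continuous (fun x : UnitAddCircle =>
                (fourier (M * b) x : ℂ))).integrable_of_hasCompactSupport
                  (HasCompactSupport.of_compactSpace _)
            have h5 := integral_re hint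
            simp only [RCLike.re_to_complex] at h5
            have hre : Integrable (fun x => (fourier (M * b) x : ℂ).re) μ := hint.re
            rw [integral_sub (integrable_const _) hre, h5, h3]
            simp
          have h6 : 0 ≤ᵐ[μ] fun x => 1 - (fourier (M * b) x : ℂ).re := by
            refine Eventually.of_forall fun x => ?_
            have h7 : (fourier (M * b) x : ℂ).re ≤ ‖(fourier (M * b) x : ℂ)‖ := Complex.re_le_norm _
            have h8 : ‖(fourier (M * b) x : ℂ)‖ = 1 := by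
              rw [fourier_apply]; exact Circle.norm_coe _
            simp only [Pi.zero_apply]
            linarith
          have h9 : Integrable (fun x => 1 - (fourier (M * b) x : ℂ).re) μ :=
            (by fun_prop : Continuous (fun x : UnitAddCircle =>
                1 - (fourier (M * b) x : ℂ).re)).integrable_of_hasCompactSupport
                  (HasCompactSupport.of_compactSpace _)
          have h10 := (integral_eq_zero_iff_of_nonneg_ae h6 h9).1 h4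
          filter_upwards [h10] with x hx
          simp only [Pi.zero_apply] at hx
          have hre : (fourier (M * b) x : ℂ).re = 1 := by linarith
          have hn : ‖(fourier (M * b) x : ℂ)‖ = 1 := by
            rw [fourier_apply]; exact Circle.norm_coe _
          have hsq := Complex.sq_norm (fourier (M * b) x : ℂ)
          rw [hn, Complex.normSq_apply, hre] at hsq
          have him : (fourier (M * b) x : ℂ).im = 0 := by nlinarith
          exact Complex.ext (by simpa using hre) (by simpa using him)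
        refine integral_congr_ae ?_
        filter_upwards [hae] with x hx
        rw [fourier_add, hx, mul_one]
      refine ⟨M, hM1, fun n hn r hr hrn k => ?_⟩
      obtain ⟨b, hb⟩ := (Nat.modEq_iff_dvd.1 hrn)
      have e : (n : ℤ) * k = (r : ℤ) * k + M * (b * k) := by
        have h3 : (n : ℤ) = r + M * b := by linarith
        rw [h3]; ring
      rw [e, hper]
  tfae_have 1 → 2 := by
    intro h
    obtain ⟨M, hM1, hM⟩ := hstart h
    refine ⟨(Finset.range (M + 1)).image (fun (r : ℕ) (k : ℤ) => φ (u ^ ((r : ℤ) * k))), fun n hn => ?_⟩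
    have hlt := Nat.mod_lt (n - 1) (show 0 < M by omega)
    refine ⟨fun k => φ (u ^ ((((n - 1) % M + 1 : ℕ) : ℤ) * k)), Finset.mem_image.2
      ⟨(n - 1) % M + 1, Finset.mem_range.2 (by omega), rfl⟩, hM n hn _ (by omega) ?_⟩
    have h4 : (n - 1) % M ≡ n - 1 [MOD M] := Nat.mod_modEq _ _
    have h5 := h4.add_right 1
    rwa [Nat.sub_add_cancel hn] at h5
  tfae_have 2 → 3 := by
    rintro ⟨F, hF⟩
    refine ⟨1 / 2, by norm_num, 1, (F.card + 1) ^ 2, fun M hM => ⟨M, le_rfl, by simp, F, ?_, ?_⟩⟩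
    · have h3 : ((F.card : ℝ) + 1) ^ 2 ≤ M := by exact_mod_cast hM
      have h4 : (0 : ℝ) ≤ (F.card : ℝ) + 1 := by positivity
      have h5 : (F.card : ℝ) + 1 ≤ (M : ℝ) ^ (1 - 1 / 2 : ℝ) := by
        rw [show (1 - 1 / 2 : ℝ) = 1 / 2 by norm_num, ← Real.sqrt_eq_rpow]
        exact Real.le_sqrt_of_sq_le h3
      linarith
    · intro n hn _
      obtain ⟨f, hf, hk⟩ := hF n hn
      exact ⟨f, hf, 1, by simp, fun k => by rw [one_zpow, one_mul, hk]⟩
  have hend : (φ = Set.indicator ({1} : Set G) (fun _ => (1 : ℂ)) ∨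
        FiniteDimensional ℂ (Submodule.span ℂ {F : G → ℂ | ∃ n : G,
          (∃ r : ℚ, ∀ x : ℚ, (n : Equiv.Perm ℚ) x = x + r) ∧ F = fun x => φ (n * x)})) ∨
      ((∀ x, μ {x} = 0) ∧ μ ≠ volume) := by
    rcases finite_or_atomless D hext with hfd | hat
    · exact Or.inl (Or.inr hfd)
    by_cases hne : μ = volume
    · have hz' : ∀ n : ℤ, n ≠ 0 → φ (τ n) = 0 := by
        intro n hn
        rw [← D.hμ, hne]
        exact Pool.Agent.H769R3.integral_fourier_volume hn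
      left; left
      funext g
      by_cases hg : g = 1
      · rw [hg, h1]
        simp
      · rw [eq_regular D.hτ D.h1 D.hcl D.hpd S6 D.hS6 D.hform hz' g hg]
        simp [hg]
    exact Or.inr ⟨hat, hne⟩
  have hfin : ∀ (N : ℕ) (β : ℝ) (S : Set (ℤ × ℕ)), (∀ s ∈ S, |s.1| ≤ N ∧ 1 ≤ s.2 ∧
      (s.2 : ℝ) ≤ (N : ℝ) ^ β) → S.Finite := by
    intro N β S hS
    refine Set.Finite.subset ((Set.finite_Icc (-(N : ℤ)) N).prod
      (Set.finite_Icc 1 ⌊(N : ℝ) ^ β⌋₊)) ?_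
    rintro ⟨n, d⟩ hs
    obtain ⟨h1, h2, h3⟩ := hS _ hs
    exact ⟨abs_le.1 h1, h2, Nat.le_floor h3⟩
  tfae_have 1 → 4 := by
    intro h
    obtain ⟨m, hm1, hm⟩ := hstart h
    refine ⟨1 / 2, 0, le_rfl, by norm_num, 1, m ^ 2, fun M hM => ⟨M, le_rfl, by simp, φ, hext.1, ?_⟩⟩
    have hM0 : 0 < M := by
      have : 0 < m ^ 2 := by positivity
      omega
    have hsub : (fun j : ℕ => ((1 + m * j : ℤ), 1)) '' (Set.Iio ((M - 1) / m + 1)) ⊆
        {s : ℤ × ℕ | s.1 ≠ 0 ∧ |s.1| ≤ M ∧ 1 ≤ s.2 ∧ (s.2 : ℝ) ≤ (M : ℝ) ^ (0 : ℝ) ∧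
            s.1.gcd s.2 = 1 ∧ ∃ z : ℂ, ‖z‖ = 1 ∧
              ∀ k : ℤ, φ (u ^ (s.1 * k)) = z ^ k * φ (u ^ ((s.2 : ℤ) * k))} := by
      rintro _ ⟨j, hj, rfl⟩
      have hj' : j ≤ (M - 1) / m := by
        have : j < (M - 1) / m + 1 := hj
        omega
      have hj2 : m * j ≤ M - 1 := by
        calc m * j ≤ m * ((M - 1) / m) := Nat.mul_le_mul_left _ hj'
          _ ≤ M - 1 := Nat.mul_div_le _ _
      refine ⟨?_, ?_, le_rfl, by simp, by simp, 1, by simp, fun k => ?_⟩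
      · simp only; positivity
      · simp only
        rw [abs_of_pos (by positivity)]
        have : 1 + m * j ≤ M := by omega
        exact_mod_cast this
      · rw [one_zpow, one_mul]
        have := hm (1 + m * j) (by omega) 1 le_rfl (by simp [Nat.ModEq]) k
        push_cast at this ⊢
        exact this
    have hinj : Set.InjOn (fun j : ℕ => ((1 + m * j : ℤ), 1) : ℕ → ℤ × ℕ) (Set.Iio ((M - 1) / m + 1)) := by
      intro a _ b _ hab
      simp only [Prod.mk.injEq, and_true, add_right_inj] at hab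
      have hm' : (m : ℤ) ≠ 0 := by omega
      exact_mod_cast mul_left_cancel₀ hm' hab
    have hcard : (M - 1) / m + 1 ≤ ({s : ℤ × ℕ | s.1 ≠ 0 ∧ |s.1| ≤ M ∧ 1 ≤ s.2 ∧
        (s.2 : ℝ) ≤ (M : ℝ) ^ (0 : ℝ) ∧ s.1.gcd s.2 = 1 ∧ ∃ z : ℂ, ‖z‖ = 1 ∧
              ∀ k : ℤ, φ (u ^ (s.1 * k)) = z ^ k * φ (u ^ ((s.2 : ℤ) * k))}.ncard) := by
      have h3 := Set.ncard_le_ncard hsub (hfin M 0 _ fun s hs => ⟨hs.2.1, hs.2.2.1, hs.2.2.2.1⟩)
      rw [Set.InjOn.ncard_image hinj] at h3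
      have h4 : (Set.Iio ((M - 1) / m + 1)).ncard = (M - 1) / m + 1 := by
        rw [← Finset.coe_range, Set.ncard_coe_finset, Finset.card_range]
      omega
    have h5 : (M : ℝ) ^ (1 / 2 : ℝ) ≤ (((M - 1) / m + 1 : ℕ) : ℝ) := by
      rw [← Real.sqrt_eq_rpow, Real.sqrt_le_left (by positivity)]
      have h6 : M ≤ m * ((M - 1) / m + 1) := by
        have := Nat.mod_add_div (M - 1) m
        have := Nat.mod_lt (M - 1) (show 0 < m by omega)
        rw [mul_add, mul_one]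
        omega
      have h7 : m ≤ (M - 1) / m + 1 := by
        by_contra hlt
        push Not at hlt
        have h8 : (M - 1) / m + 1 ≤ m - 1 + 1 := by omega
        have : m * ((M - 1) / m + 1) < m * m := Nat.mul_lt_mul_of_pos_left hlt (by omega)
        have : m ^ 2 ≤ M := hM
        nlinarith
      have h8 : M ≤ ((M - 1) / m + 1) ^ 2 := by
        calc M ≤ m * ((M - 1) / m + 1) := h6
          _ ≤ ((M - 1) / m + 1) * ((M - 1) / m + 1) := Nat.mul_le_mul_right _ h7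
          _ = _ := (sq _).symm
      exact_mod_cast h8
    calc (M : ℝ) ^ (1 / 2 : ℝ) ≤ (((M - 1) / m + 1 : ℕ) : ℝ) := h5
      _ ≤ _ := by exact_mod_cast hcard
  tfae_have 4 → 1 := by
    rintro ⟨α, β, hβ, hαβ, c, N₀, h⟩
    rcases hend with h0 | ⟨hat, hne⟩
    · exact h0
    exfalso
    obtain ⟨M, hM, hgr⟩ := Q70.Ag.growth (p := 2) (q := 3) Nat.prime_two (by norm_num) (by decide)
      ⟨D.mp2, D.mp3⟩ hat hne hβ hαβ c N₀
    obtain ⟨N, hMN, hNM, ψ, ⟨g1, gcl, gpd⟩, hψ⟩ := h M hM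
    obtain ⟨τ', S6', ν, D'⟩ := data_of hs2 hs3 ht hG g1 gcl gpd
    have hν := D'.prob
    have hunψ : ∀ k : ℤ, ψ (u ^ k) = ∫ x, fourier k x ∂ν := by
      intro k
      rw [tau_pow D' hu, D'.hμ]
    have h3 := hgr N hMN hNM ν hν
    have hsub : {s : ℤ × ℕ | s.1 ≠ 0 ∧ |s.1| ≤ N ∧ 1 ≤ s.2 ∧ (s.2 : ℝ) ≤ (N : ℝ) ^ β ∧
            s.1.gcd s.2 = 1 ∧ ∃ z : ℂ, ‖z‖ = 1 ∧
              ∀ k : ℤ, φ (u ^ (s.1 * k)) = z ^ k * ψ (u ^ ((s.2 : ℤ) * k))} ⊆
        Q70.Ag.Pairs μ ν β N := by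
      rintro ⟨n, d⟩ ⟨e1, e2, e3, e4, e5, z, hz, hk⟩
      obtain ⟨s, hs⟩ := exists_circ z hz
      refine ⟨e1, e2, e3, e4, e5, s, ?_⟩
      have i1 : IsProbabilityMeasure (μ.map (fun x : UnitAddCircle => n • x + s)) :=
        Measure.isProbabilityMeasure_map (by fun_prop)
      have i2 : IsProbabilityMeasure (ν.map (fun x : UnitAddCircle => d • x)) :=
        Measure.isProbabilityMeasure_map (by fun_prop)
      refine Pool.Agent.W764.FB.ext_fourier fun k => ?_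
      have hk' := hk k
      simp only at hk'
      rw [coeff_mapz, coeff_mapn, ← hun, ← hunψ, hk', ← mul_assoc, hs, one_mul]
    have h4 := Set.ncard_le_ncard hsub (Q70.Ag.pairs_finite μ ν β N)
    have h5 : (({s : ℤ × ℕ | s.1 ≠ 0 ∧ |s.1| ≤ N ∧ 1 ≤ s.2 ∧ (s.2 : ℝ) ≤ (N : ℝ) ^ β ∧
            s.1.gcd s.2 = 1 ∧ ∃ z : ℂ, ‖z‖ = 1 ∧
              ∀ k : ℤ, φ (u ^ (s.1 * k)) = z ^ k * ψ (u ^ ((s.2 : ℤ) * k))}.ncard : ℕ) : ℝ) ≤
        ((Q70.Ag.Pairs μ ν β N).ncard : ℝ) := by exact_mod_cast h4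
    linarith
  tfae_have 3 → 1 := by
    rintro ⟨α, hα, c, N₀, h⟩
    rcases hend with h0 | ⟨hat, hne⟩
    · exact h0
    exfalso
    obtain ⟨M, hM, hgr⟩ := Q70.Ag.classes (p := 2) (q := 3) Nat.prime_two (by norm_num) (by decide)
      ⟨D.mp2, D.mp3⟩ hat hne hα c N₀
    obtain ⟨N, hMN, hNM, F, hcard, hF⟩ := h M hM
    -- the measures with Fourier coefficients in `F`
    set E : (ℤ → ℂ) → Measure UnitAddCircle := fun f =>
      if hf : ∃ ν : Measure UnitAddCircle, IsProbabilityMeasure ν ∧ ∀ k : ℤ, ∫ x, (fourier k x : ℂ) ∂ν = f k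
      then hf.choose else 0 with hE
    have hEf : ∀ (f : ℤ → ℂ) (ν : Measure UnitAddCircle), IsProbabilityMeasure ν →
        (∀ k : ℤ, ∫ x, (fourier k x : ℂ) ∂ν = f k) → E f = ν := by
      intro f ν hν hk
      have hf : ∃ ν : Measure UnitAddCircle, IsProbabilityMeasure ν ∧
          ∀ k : ℤ, ∫ x, (fourier k x : ℂ) ∂ν = f k := ⟨ν, hν, hk⟩
      have h3 : E f = hf.choose := by simp only [hE, dif_pos hf]
      rw [h3]
      have h4 := hf.choose_spec
      have := h4.1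
      exact Pool.Agent.W764.FB.ext_fourier fun m => by rw [h4.2, hk]
    have hres := hgr N hMN hNM (F.image E) ?_
    · have h3 : ((F.image E).card : ℝ) ≤ F.card := by exact_mod_cast Finset.card_image_le
      linarith
    · intro n hn1 hnN
      obtain ⟨f, hf, z, hz, hk⟩ := hF n hn1 hnN
      obtain ⟨s, hs⟩ := exists_circ z hz
      refine ⟨E f, Finset.mem_image_of_mem _ hf, s, ?_⟩
      symm
      have hprob : IsProbabilityMeasure (μ.map (fun x : UnitAddCircle => n • x + s)) :=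
        Measure.isProbabilityMeasure_map (by fun_prop)
      refine hEf f _ hprob fun k => ?_
      rw [coeff_map, ← hun, hk, ← mul_assoc, hs, one_mul]
  tfae_finish

end Q70.Ah
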