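import Pool.Agent.Y331.EP.Ent

/-! # Numbers of separated orbits in subsets -/

set_option autoImplicit false
set_option linter.unusedSectionVars false

open Filter Topology Set

namespace Q70.AnG

open Pool.Agent.Y331.EP

variable {X : Type*} [MetricSpace X] [CompactSpace X]

/-- the largest number of `(n, v)`-separated points in `U` -/
noncomputable def sN (g : X ≃ₜ X) (U : Set X) (v : ℝ) (n : ℕ) : ℕ :=
  sSup {m | ∃ S : Finset X, (S : Set X) ⊆ U ∧ Sp g n v S ∧ S.card = m}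

lemma sp_bdd (g : X ≃ₜ X) (n : ℕ) {v : ℝ} (hv : 0 < v) :
    ∃ B : ℕ, ∀ S : Finset X, Sp g n v S → S.card ≤ B := by
  classical
  obtain ⟨η, hη, h1⟩ := unif_iter g n hv
  obtain ⟨t, -, htf, ht⟩ := finite_cover_balls_of_compact (isCompact_univ (X := X)) (half_pos hη)
  have h2 : ∀ x : X, ∃ z ∈ htf.toFinset, dist x z < η / 2 := fun x => by
    obtain ⟨z, hz, hxz⟩ := mem_iUnion₂.1 (ht (mem_univ x))
    exact ⟨z, htf.mem_toFinset.2 hz, hxz⟩
  choose c hc1 hc2 using h2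
  refine ⟨htf.toFinset.card, fun S hS => Finset.card_le_card_of_injOn c (fun x _ => hc1 x) ?_⟩
  intro x hx y hy hxy
  by_contra hne
  obtain ⟨k, hk, h3⟩ := hS x hx y hy hne
  have h4 : dist x y < η := by
    have h5 := dist_triangle_right x y (c x)
    have h6 := hc2 x
    have h7 := hc2 y
    have hxy' : c x = c y := hxy
    rw [← hxy'] at h7
    linarith
  exact absurd (h1 x y h4 k hk) (not_le.2 h3)

lemma sN_bdd (g : X ≃ₜ X) (U : Set X) {v : ℝ} (hv : 0 < v) (n : ℕ) :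
    BddAbove {m | ∃ S : Finset X, (S : Set X) ⊆ U ∧ Sp g n v S ∧ S.card = m} := by
  obtain ⟨B, hB⟩ := sp_bdd g n hv
  refine ⟨B, ?_⟩
  rintro m ⟨S, -, hS, rfl⟩
  exact hB S hS

lemma le_sN {g : X ≃ₜ X} {U : Set X} {v : ℝ} (hv : 0 < v) {n : ℕ} {S : Finset X}
    (hU : (S : Set X) ⊆ U) (hS : Sp g n v S) : S.card ≤ sN g U v n :=
  le_csSup (sN_bdd g U hv n) ⟨S, hU, hS, rfl⟩

lemma sN_ex (g : X ≃ₜ X) (U : Set X) {v : ℝ} (hv : 0 < v) (n : ℕ) :
    ∃ S : Finset X, (S : Set X) ⊆ U ∧ Sp g n v S ∧ S.card = sN g U v n ∧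
      ∀ y ∈ U, ∃ z ∈ S, ∀ t ≤ n, dist (g^[t] y) (g^[t] z) ≤ v := by
  classical
  obtain ⟨S, h1, h2, h3⟩ := Nat.sSup_mem (s := {m | ∃ S : Finset X, (S : Set X) ⊆ U ∧
    Sp g n v S ∧ S.card = m}) ⟨0, ∅, by simp, fun z hz => absurd hz (Finset.notMem_empty z), rfl⟩
    (sN_bdd g U hv n)
  refine ⟨S, h1, h2, h3, fun y hy => ?_⟩
  by_contra hcon
  push Not at hcon
  have hyS : y ∉ S := fun h => by
    obtain ⟨t, -, h4⟩ := hcon y h
    rw [dist_self] at h4
    linarith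
  have h4 : Sp g n v (insert y S) := by
    intro z hz z' hz' hne
    rcases Finset.mem_insert.1 hz with h5 | h5 <;> rcases Finset.mem_insert.1 hz' with h6 | h6
    · exact absurd (h5.trans h6.symm) hne
    · rw [h5]
      exact hcon _ h6
    · rw [h6]
      obtain ⟨t, ht, h3⟩ := hcon _ h5
      exact ⟨t, ht, by rwa [dist_comm]⟩
    · exact h2 z h5 z' h6 hne
  have h5 := le_sN (U := U) hv (by
    rw [Finset.coe_insert]
    exact insert_subset hy h1) h4
  rw [Finset.card_insert_of_notMem hyS] at h5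
  have h6 : S.card = sN g U v n := h3
  omega

lemma sN_pos (g : X ≃ₜ X) {U : Set X} (hU : U.Nonempty) {v : ℝ} (hv : 0 < v) (n : ℕ) :
    1 ≤ sN g U v n := by
  obtain ⟨x, hx⟩ := hU
  have := le_sN (g := g) (U := U) (n := n) hv (S := {x}) (by simpa using hx) (by
    intro z hz z' hz' hne
    rw [Finset.mem_singleton] at hz hz'
    exact absurd (hz.trans hz'.symm) hne)
  simpa using this

lemma sp_mono {g : X ≃ₜ X} {n n' : ℕ} {v v' : ℝ} (hn : n ≤ n') (hv : v' ≤ v) {S : Finset X}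
    (h : Sp g n v S) : Sp g n' v' S := by
  intro z hz z' hz' hne
  obtain ⟨t, ht, h1⟩ := h z hz z' hz' hne
  exact ⟨t, ht.trans hn, hv.trans_lt h1⟩

lemma sN_mono {g : X ≃ₜ X} {U V : Set X} (hUV : U ⊆ V) {n n' : ℕ} {v v' : ℝ} (hv' : 0 < v')
    (hn : n ≤ n') (hv : v' ≤ v) : sN g U v n ≤ sN g V v' n' := by
  obtain ⟨S, h1, h2, h3, -⟩ := sN_ex g U (hv'.trans_le hv) n
  rw [← h3]
  exact le_sN hv' (h1.trans hUV) (sp_mono hn hv h2)

/-- a longer time costs a constant factor -/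
lemma sN_add (g : X ≃ₜ X) {w : ℝ} (hw : 0 < w) (m : ℕ) :
    ∃ C : ℕ, ∀ (U : Set X) (n : ℕ), sN g U w (n + m) ≤ C * sN g U w n := by
  classical
  obtain ⟨η, hη, h1⟩ := unif_iter g m hw
  obtain ⟨t, -, htf, ht⟩ := finite_cover_balls_of_compact (isCompact_univ (X := X)) (half_pos hη)
  have h2 : ∀ x : X, ∃ z ∈ htf.toFinset, dist x z < η / 2 := fun x => by
    obtain ⟨z, hz, hxz⟩ := mem_iUnion₂.1 (ht (mem_univ x))
    exact ⟨z, htf.mem_toFinset.2 hz, hxz⟩
  choose c hc1 hc2 using h2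
  refine ⟨htf.toFinset.card, fun U n => ?_⟩
  obtain ⟨S, hS1, hS2, hS3, -⟩ := sN_ex g U hw (n + m)
  rw [← hS3]
  have h3 := Finset.card_le_mul_card_image (f := fun x => c (g^[n] x)) S (sN g U w n) (by
    intro a _
    refine le_sN hw ?_ ?_
    · exact (Finset.coe_subset.2 (Finset.filter_subset _ _)).trans hS1
    · intro z hz z' hz' hne
      rw [Finset.mem_filter] at hz hz'
      obtain ⟨k, hk, h4⟩ := hS2 z hz.1 z' hz'.1 hne
      by_cases hkn : k ≤ n
      · exact ⟨k, hkn, h4⟩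
      · exfalso
        obtain ⟨j, rfl⟩ := Nat.exists_eq_add_of_le (not_le.1 hkn).le
        have h5 : dist (g^[n] z) (g^[n] z') < η := by
          have h6 := hc2 (g^[n] z)
          have h7 := hc2 (g^[n] z')
          rw [hz.2] at h6
          rw [hz'.2] at h7
          have := dist_triangle_right (g^[n] z) (g^[n] z') a
          linarith
        have h6 := h1 _ _ h5 j (by omega)
        rw [← Function.iterate_add_apply, ← Function.iterate_add_apply, Nat.add_comm j n] at h6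
        linarith)
  refine h3.trans ?_
  rw [Nat.mul_comm]
  refine Nat.mul_le_mul_right _ ?_
  refine Finset.card_le_card ?_
  intro a ha
  obtain ⟨x, _, rfl⟩ := Finset.mem_image.1 ha
  exact hc1 _

/-- submultiplicativity with loss of scale -/
lemma sN_sub2 (g : X ≃ₜ X) {v : ℝ} (hv : 0 < v) (a b : ℕ) :
    sN g univ v (a + b) ≤ sN g univ (v / 2) a * sN g univ (v / 2) b := by
  classical
  obtain ⟨S, -, hS2, hS3, -⟩ := sN_ex g univ hv (a + b)
  obtain ⟨A, -, -, hA3, hA4⟩ := sN_ex g univ (half_pos hv) a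
  obtain ⟨B, -, -, hB3, hB4⟩ := sN_ex g univ (half_pos hv) b
  choose p hp1 hp2 using fun x : X => hA4 x (mem_univ x)
  choose q hq1 hq2 using fun x : X => hB4 x (mem_univ x)
  rw [← hS3, ← hA3, ← hB3, ← Finset.card_product]
  refine Finset.card_le_card_of_injOn (fun x => (p x, q (g^[a] x)))
    (fun x _ => Finset.mem_coe.2 (Finset.mem_product.2 ⟨hp1 x, hq1 _⟩)) ?_
  intro x hx y hy hxy
  by_contra hne
  obtain ⟨k, hk, h1⟩ := hS2 x hx y hy hne
  obtain ⟨e1, e2⟩ := Prod.mk.inj hxy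
  by_cases hka : k ≤ a
  · have h2 := hp2 x k hka
    have h3 := hp2 y k hka
    rw [← e1] at h3
    have := dist_triangle_right (g^[k] x) (g^[k] y) (g^[k] (p x))
    linarith
  · obtain ⟨j, rfl⟩ := Nat.exists_eq_add_of_le (not_le.1 hka).le
    have h2 := hq2 (g^[a] x) j (by omega)
    have h3 := hq2 (g^[a] y) j (by omega)
    rw [← e2] at h3
    rw [← Function.iterate_add_apply, Nat.add_comm j a] at h2 h3
    have := dist_triangle_right (g^[a + j] x) (g^[a + j] y) (g^[j] (q (g^[a] x)))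
    linarith

lemma iter_symm_iter (f : X ≃ₜ X) (n : ℕ) (x : X) : f^[n] (f.symm^[n] x) = x :=
  (Function.LeftInverse.iterate f.apply_symm_apply n) x

lemma symm_iter_iter (f : X ≃ₜ X) (n : ℕ) (x : X) : f.symm^[n] (f^[n] x) = x :=
  (Function.LeftInverse.iterate f.symm_apply_apply n) x

lemma iter_inj (f : X ≃ₜ X) (n : ℕ) : Function.Injective (f^[n]) :=
  f.injective.iterate n

/-- change of scale for expansive homeomorphisms -/
lemma sN_shift {f : X ≃ₜ X} {e : ℝ} (hE : Ex f e) {v w : ℝ} (hv : 0 < v) (hw : 0 < w)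
    (hwe : w ≤ e) : ∃ T : ℕ, ∀ n, sN f univ v n ≤ sN f univ w (n + 2 * T) := by
  classical
  obtain ⟨T, hT⟩ := unif_nat hE hv
  refine ⟨T, fun n => ?_⟩
  obtain ⟨S, -, hS2, hS3, -⟩ := sN_ex f univ hv n
  rw [← hS3, ← Finset.card_image_of_injective S (iter_inj f.symm T)]
  refine le_sN hw (subset_univ _) ?_
  intro z hz z' hz' hne
  obtain ⟨s, hs, rfl⟩ := Finset.mem_image.1 hz
  obtain ⟨s', hs', rfl⟩ := Finset.mem_image.1 hz'
  by_contra hcon
  push Not at hcon
  obtain ⟨k, hk, h1⟩ := hS2 s hs s' hs' (fun h => hne (by rw [h]))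
  have h2 := hT (f^[k] (f.symm^[T] s)) (f^[k] (f.symm^[T] s')) fun j hj => by
    rw [← Function.iterate_add_apply, ← Function.iterate_add_apply]
    exact (hcon (j + k) (by omega)).trans hwe
  rw [← Function.iterate_add_apply, ← Function.iterate_add_apply, Nat.add_comm T k,
    Function.iterate_add_apply, Function.iterate_add_apply, iter_symm_iter, iter_symm_iter] at h2
  linarith

lemma sN_scale {f : X ≃ₜ X} {e : ℝ} (hE : Ex f e) {v w : ℝ} (hv : 0 < v) (hw : 0 < w)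
    (hwe : w ≤ e) : ∃ C : ℕ, ∀ n, sN f univ v n ≤ C * sN f univ w n := by
  obtain ⟨T, hT⟩ := sN_shift hE hv hw hwe
  obtain ⟨C, hC⟩ := sN_add f hw (2 * T)
  exact ⟨C, fun n => (hT n).trans (hC univ n)⟩

lemma sN_sub {f : X ≃ₜ X} {e : ℝ} (hE : Ex f e) {w : ℝ} (hw : 0 < w) (hwe : w ≤ e) :
    ∃ C : ℕ, ∀ a b, sN f univ w (a + b) ≤ C * (sN f univ w a * sN f univ w b) := by
  obtain ⟨C, hC⟩ := sN_scale hE (half_pos hw) hw hwe
  refine ⟨C * C, fun a b => (sN_sub2 f hw a b).trans ?_⟩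
  calc sN f univ (w / 2) a * sN f univ (w / 2) b ≤
      (C * sN f univ w a) * (C * sN f univ w b) := Nat.mul_le_mul (hC a) (hC b)
    _ = C * C * (sN f univ w a * sN f univ w b) := by ring

lemma sp_symm {f : X ≃ₜ X} {n : ℕ} {v : ℝ} {S : Finset X} [DecidableEq X] (h : Sp f n v S) :
    Sp f.symm n v (S.image (f^[n])) := by
  intro z hz z' hz' hne
  obtain ⟨s, hs, rfl⟩ := Finset.mem_image.1 hz
  obtain ⟨s', hs', rfl⟩ := Finset.mem_image.1 hz'
  obtain ⟨t, ht, h1⟩ := h s hs s' hs' (fun h => hne (by rw [h]))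
  refine ⟨n - t, by omega, ?_⟩
  have e : ∀ y, f.symm^[n - t] (f^[n] y) = f^[t] y := by
    intro y
    have h2 : f^[n] y = f^[n - t] (f^[t] y) := by
      rw [← Function.iterate_add_apply]
      congr 2
      omega
    rw [h2, symm_iter_iter]
  rw [e, e]
  exact h1

lemma sN_symm_le (f : X ≃ₜ X) {v : ℝ} (hv : 0 < v) (n : ℕ) :
    sN f univ v n ≤ sN f.symm univ v n := by
  classical
  obtain ⟨S, -, hS2, hS3, -⟩ := sN_ex f univ hv n
  rw [← hS3, ← Finset.card_image_of_injective S (iter_inj f n)]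
  exact le_sN hv (subset_univ _) (sp_symm hS2)

lemma sN_symm (f : X ≃ₜ X) {v : ℝ} (hv : 0 < v) (n : ℕ) :
    sN f.symm univ v n = sN f univ v n := by
  refine le_antisymm ?_ (sN_symm_le f hv n)
  have := sN_symm_le f.symm hv n
  rwa [Homeomorph.symm_symm] at this

end Q70.AnG
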