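import Pool.Agent.Q70.AnA

/-! # Gluing orbits -/

set_option autoImplicit false
set_option linter.unusedSectionVars false

open Filter Topology Set

namespace Q70.AnG

open Pool.Agent.Y331.EP

variable {X : Type*} [MetricSpace X] [CompactSpace X]

lemma zp_neg (f : X ≃ₜ X) (k : ℕ) (p : X) : (f ^ (-(k : ℤ))) p = f.symm^[k] p := by
  have h : f^[k] ((f ^ (-(k : ℤ))) p) = p := by
    rw [← zp_nat]
    show (f ^ (k : ℤ) * f ^ (-(k : ℤ))) p = p
    rw [← zpow_add, add_neg_cancel, zpow_zero]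
    rfl
  have h2 := symm_iter_iter f k ((f ^ (-(k : ℤ))) p)
  rw [h] at h2
  exact h2.symm

/-- backward orbit, path, forward orbit -/
lemma glue {f : X ≃ₜ X} {δ ε : ℝ} (hδ : 0 ≤ δ)
    (hsh : ∀ x : ℤ → X, (∀ n, dist (f (x n)) (x (n + 1)) ≤ δ) →
      ∃ y, Orb f y ∧ ∀ n, dist (x n) (y n) ≤ ε)
    {y u : X} (τ : ℕ) (q : ℕ → X) (hq : Pth f δ τ q) (h0 : q 0 = y) (hτ : q τ = u) :
    ∃ p : X, (∀ t : ℕ, dist (f.symm^[t] y) (f.symm^[t] p) ≤ ε) ∧
      (∀ t ≤ τ, dist (q t) (f^[t] p) ≤ ε) ∧ ∀ t, dist (f^[t] u) (f^[τ + t] p) ≤ ε := by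
  set r : ℕ → X := fun k => if k ≤ τ then q k else f^[k - τ] u with hr
  have hr1 : ∀ k, k ≤ τ → r k = q k := fun k hk => if_pos hk
  have hr2 : ∀ t, r (τ + t) = f^[t] u := by
    intro t
    simp only [hr]
    by_cases ht : t = 0
    · subst ht
      rw [if_pos (by omega), add_zero, hτ]
      rfl
    · rw [if_neg (by omega)]
      congr 1
      congr 1
      omega
  have hrs : ∀ k, dist (f (r k)) (r (k + 1)) ≤ δ := by
    intro k
    by_cases hk : k < τ
    · rw [hr1 k hk.le, hr1 (k + 1) hk]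
      exact hq k hk
    · obtain ⟨j, rfl⟩ := Nat.exists_eq_add_of_le (not_lt.1 hk)
      rw [hr2, add_assoc, hr2, Function.iterate_succ_apply', dist_self]
      exact hδ
  obtain ⟨o, ho, hd⟩ := hsh (fun n => if n < 0 then (f ^ n) y else r n.toNat) fun n => by
    show dist (f (if n < 0 then (f ^ n) y else r n.toNat))
      (if n + 1 < 0 then (f ^ (n + 1)) y else r (n + 1).toNat) ≤ δ
    by_cases h1 : n < 0
    · rw [if_pos h1, ← zp_succ]
      by_cases h2 : n + 1 < 0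
      · rw [if_pos h2, dist_self]
        exact hδ
      · have h3 : n + 1 = 0 := by omega
        rw [if_neg h2, h3, Int.toNat_zero, hr1 0 (Nat.zero_le _), h0, zpow_zero]
        show dist y y ≤ δ
        rw [dist_self]
        exact hδ
    · rw [if_neg h1, if_neg (by omega)]
      have h3 : (n + 1).toNat = n.toNat + 1 := by omega
      rw [h3]
      exact hrs _
  have hn : ∀ k : ℕ, o k = f^[k] (o 0) := fun k => by rw [orb_eq f ho, zp_nat]
  have hm : ∀ k : ℕ, o (-(k : ℤ)) = f.symm^[k] (o 0) := fun k => by rw [orb_eq f ho, zp_neg]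
  have hd1 : ∀ k : ℕ, dist (r k) (f^[k] (o 0)) ≤ ε := by
    intro k
    have h1 := hd k
    rw [hn] at h1
    have h2 : ¬ ((k : ℤ) < 0) := by omega
    rw [if_neg h2, Int.toNat_natCast] at h1
    exact h1
  refine ⟨o 0, fun t => ?_, fun t ht => ?_, fun t => ?_⟩
  · rcases Nat.eq_zero_or_pos t with rfl | ht
    · have h1 := hd1 0
      rw [hr1 0 (Nat.zero_le _), h0] at h1
      exact h1
    · have h1 := hd (-(t : ℤ))
      rw [if_pos (by omega), hm, zp_neg] at h1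
      exact h1
  · have := hd1 t
    rwa [hr1 t ht] at this
  · have := hd1 (τ + t)
    rwa [hr2] at this

/-- a jump without loss of time -/
lemma glue_jump {f : X ≃ₜ X} {δ ε : ℝ} (hδ : 0 ≤ δ)
    (hsh : ∀ x : ℤ → X, (∀ n, dist (f (x n)) (x (n + 1)) ≤ δ) →
      ∃ y, Orb f y ∧ ∀ n, dist (x n) (y n) ≤ ε) {y u : X} (hyu : dist y u ≤ δ) :
    ∃ p : X, (∀ t : ℕ, 1 ≤ t → dist (f.symm^[t] y) (f.symm^[t] p) ≤ ε) ∧
      ∀ t, dist (f^[t] u) (f^[t] p) ≤ ε := by
  obtain ⟨p, h1, -, h3⟩ := glue hδ hsh (y := f.symm y) (u := u) 1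
    (fun k => if k = 0 then f.symm y else u) (fun k hk => by
      obtain rfl : k = 0 := by omega
      show dist (f (f.symm y)) u ≤ δ
      rwa [f.apply_symm_apply]) rfl rfl
  refine ⟨f p, fun t ht => ?_, fun t => ?_⟩
  · obtain ⟨s, rfl⟩ := Nat.exists_eq_add_of_le' ht
    rw [Function.iterate_succ_apply, Function.iterate_succ_apply, f.symm_apply_apply]
    exact h1 s
  · have := h3 t
    rwa [Nat.add_comm, Function.iterate_succ_apply] at this

lemma card_le_sN {f : X ≃ₜ X} {U : Set X} {v : ℝ} (hv : 0 < v) {n : ℕ} {ι : Type*}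
    (I : Finset ι) (F : ι → X) (hU : ∀ i ∈ I, F i ∈ U)
    (h : ∀ i ∈ I, ∀ j ∈ I, i ≠ j → ∃ t ≤ n, v < dist (f^[t] (F i)) (f^[t] (F j))) :
    I.card ≤ sN f U v n := by
  classical
  have hinj : Set.InjOn F I := by
    intro i hi j hj hij
    by_contra hne
    obtain ⟨t, -, h1⟩ := h i hi j hj hne
    rw [hij, dist_self] at h1
    linarith
  rw [← Finset.card_image_of_injOn hinj]
  refine le_sN hv ?_ ?_
  · intro x hx
    obtain ⟨i, hi, rfl⟩ := Finset.mem_image.1 (Finset.mem_coe.1 hx)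
    exact hU i hi
  · intro x hx y hy hxy
    obtain ⟨i, hi, rfl⟩ := Finset.mem_image.1 hx
    obtain ⟨j, hj, rfl⟩ := Finset.mem_image.1 hy
    exact h i hi j hj (fun e => hxy (by rw [e]))

/-- **orbits through a wandering ball at different times** -/
lemma wander_sum {f : X ≃ₜ X} (hS : Shad f) {z : X} {r : ℝ} (hr : 0 < r)
    (hw : ∀ m : ℕ, 1 ≤ m → ∀ x ∈ Metric.ball z r, f^[m] x ∉ Metric.ball z r) {w : ℝ}
    (hw0 : 0 < w) :
    ∃ ρ v : ℝ, 0 < ρ ∧ 0 < v ∧ ∀ n, ∑ k ∈ Finset.range (n + 1),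
      sN f.symm (Metric.ball z ρ) w k * sN f (Metric.ball z ρ) w (n - k) ≤ sN f univ v n := by
  classical
  set ε : ℝ := min (w / 4) (r / 4) with hε
  have hε0 : 0 < ε := lt_min (by linarith) (by linarith)
  have hε1 : ε ≤ w / 4 := min_le_left _ _
  have hε2 : ε ≤ r / 4 := min_le_right _ _
  obtain ⟨δ, hδ, hsh⟩ := hS ε hε0
  set ρ : ℝ := min (min (w / 2) (r / 4)) (δ / 2) with hρ
  have hρ0 : 0 < ρ := lt_min (lt_min (by linarith) (by linarith)) (by linarith)
  have hρ1 : ρ ≤ w / 2 := (min_le_left _ _).trans (min_le_left _ _)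
  have hρ2 : ρ ≤ r / 4 := (min_le_left _ _).trans (min_le_right _ _)
  have hρ3 : ρ ≤ δ / 2 := min_le_right _ _
  refine ⟨ρ, ε, hρ0, hε0, fun n => ?_⟩
  choose A hA1 hA2 hA3 _ using fun k => sN_ex f.symm (Metric.ball z ρ) hw0 k
  choose B hB1 hB2 hB3 _ using fun k => sN_ex f (Metric.ball z ρ) hw0 k
  have hp : ∀ y u : X, ∃ p : X, y ∈ Metric.ball z ρ → u ∈ Metric.ball z ρ →
      (∀ t : ℕ, 1 ≤ t → dist (f.symm^[t] y) (f.symm^[t] p) ≤ ε) ∧
      ∀ t, dist (f^[t] u) (f^[t] p) ≤ ε := by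
    intro y u
    by_cases h : y ∈ Metric.ball z ρ ∧ u ∈ Metric.ball z ρ
    · have h1 : dist y u ≤ δ := by
        have h2 : dist y z < ρ := h.1
        have h3 : dist u z < ρ := h.2
        have := dist_triangle_right y u z
        linarith
      obtain ⟨p, h2, h3⟩ := glue_jump hδ.le hsh h1
      exact ⟨p, fun _ _ => ⟨h2, h3⟩⟩
    · exact ⟨y, fun h1 h2 => absurd ⟨h1, h2⟩ h⟩
  choose p hp using hp
  have hcard : ∑ k ∈ Finset.range (n + 1),
      sN f.symm (Metric.ball z ρ) w k * sN f (Metric.ball z ρ) w (n - k) =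
      ((Finset.range (n + 1)).sigma fun k => A k ×ˢ B (n - k)).card := by
    rw [Finset.card_sigma]
    refine Finset.sum_congr rfl fun k _ => ?_
    rw [Finset.card_product, hA3, hB3]
  rw [hcard]
  -- the points
  set F : (Σ _ : ℕ, X × X) → X := fun i => f.symm^[i.1] (p i.2.1 i.2.2) with hF
  have hmem : ∀ i ∈ (Finset.range (n + 1)).sigma (fun k => A k ×ˢ B (n - k)),
      i.1 ≤ n ∧ i.2.1 ∈ A i.1 ∧ i.2.2 ∈ B (n - i.1) ∧ i.2.1 ∈ Metric.ball z ρ ∧
        i.2.2 ∈ Metric.ball z ρ := by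
    intro i hi
    rw [Finset.mem_sigma, Finset.mem_range, Finset.mem_product] at hi
    exact ⟨by omega, hi.2.1, hi.2.2, hA1 _ hi.2.1, hB1 _ hi.2.2⟩
  -- forward time
  have hfw : ∀ i ∈ (Finset.range (n + 1)).sigma (fun k => A k ×ˢ B (n - k)), ∀ t,
      f^[i.1 + t] (F i) = f^[t] (p i.2.1 i.2.2) := by
    intro i _ t
    simp only [hF]
    rw [Nat.add_comm, Function.iterate_add_apply, iter_symm_iter]
  have hbw : ∀ i ∈ (Finset.range (n + 1)).sigma (fun k => A k ×ˢ B (n - k)), ∀ t ≤ i.1,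
      f^[i.1 - t] (F i) = f.symm^[t] (p i.2.1 i.2.2) := by
    intro i _ t ht
    simp only [hF]
    have e : i.1 = (i.1 - t) + t := by omega
    conv_lhs => rw [show f.symm^[i.1] (p i.2.1 i.2.2) = f.symm^[i.1 - t]
      (f.symm^[t] (p i.2.1 i.2.2)) by rw [← Function.iterate_add_apply, ← e]]
    rw [iter_symm_iter]
  -- the points pass near `z`
  have hz : ∀ i ∈ (Finset.range (n + 1)).sigma (fun k => A k ×ˢ B (n - k)),
      dist (p i.2.1 i.2.2) z < r / 2 := by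
    intro i hi
    obtain ⟨-, -, -, h1, h2⟩ := hmem i hi
    have h3 : dist i.2.2 (p i.2.1 i.2.2) ≤ ε := (hp _ _ h1 h2).2 0
    have h4 : dist i.2.2 z < ρ := h2
    have := dist_triangle_left (p i.2.1 i.2.2) z i.2.2
    linarith
  have hlt : ∀ i ∈ (Finset.range (n + 1)).sigma (fun k => A k ×ˢ B (n - k)),
      ∀ j ∈ (Finset.range (n + 1)).sigma (fun k => A k ×ˢ B (n - k)), i.1 < j.1 →
      ∃ t ≤ n, ε < dist (f^[t] (F i)) (f^[t] (F j)) := by
    intro i hi j hj hij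
    obtain ⟨m, hm⟩ := Nat.exists_eq_add_of_le hij.le
    refine ⟨j.1, (hmem j hj).1, ?_⟩
    have h1 : f^[j.1] (F j) = p j.2.1 j.2.2 := hfw j hj 0
    have h2 : f^[j.1] (F i) = f^[m] (p i.2.1 i.2.2) := by rw [hm]; exact hfw i hi m
    rw [h1, h2]
    have h3 := hw m (by omega) (p i.2.1 i.2.2) (by
      have := hz i hi
      rw [Metric.mem_ball]
      linarith)
    rw [Metric.mem_ball, not_lt] at h3
    have h4 := hz j hj
    have := dist_triangle_right (f^[m] (p i.2.1 i.2.2)) z (p j.2.1 j.2.2)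
    rw [dist_comm z] at this
    linarith
  refine card_le_sN hε0 _ F (fun _ _ => mem_univ _) fun i hi j hj hij => ?_
  rcases lt_trichotomy i.1 j.1 with h | h | h
  · exact hlt i hi j hj h
  · obtain ⟨hi1, hi2, hi3, hi4, hi5⟩ := hmem i hi
    obtain ⟨hj1, hj2, hj3, hj4, hj5⟩ := hmem j hj
    by_cases hy : i.2.1 = j.2.1
    · have hu : i.2.2 ≠ j.2.2 := fun hu => hij (Sigma.ext h (heq_of_eq (Prod.ext hy hu)))
      rw [← h] at hj3
      obtain ⟨t, ht, h1⟩ := hB2 _ _ hi3 _ hj3 hu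
      refine ⟨i.1 + t, by omega, ?_⟩
      rw [hfw i hi]
      have e : f^[i.1 + t] (F j) = f^[t] (p j.2.1 j.2.2) := by rw [h]; exact hfw j hj t
      rw [e]
      have h2 := (hp _ _ hi4 hi5).2 t
      have h3 := (hp _ _ hj4 hj5).2 t
      have h4 := dist_triangle4 (f^[t] i.2.2) (f^[t] (p i.2.1 i.2.2)) (f^[t] (p j.2.1 j.2.2))
        (f^[t] j.2.2)
      rw [dist_comm (f^[t] (p j.2.1 j.2.2))] at h4
      linarith
    · rw [← h] at hj2
      obtain ⟨t, ht, h1⟩ := hA2 _ _ hi2 _ hj2 hy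
      have ht1 : 1 ≤ t := by
        by_contra hc
        obtain rfl : t = 0 := by omega
        have h2 : dist i.2.1 z < ρ := hi4
        have h3 : dist j.2.1 z < ρ := hj4
        have h4 := dist_triangle_right i.2.1 j.2.1 z
        have h5 : w < dist i.2.1 j.2.1 := h1
        linarith
      refine ⟨i.1 - t, by omega, ?_⟩
      rw [hbw i hi t ht]
      have e : f^[i.1 - t] (F j) = f.symm^[t] (p j.2.1 j.2.2) := by
        rw [h]
        exact hbw j hj t (by omega)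
      rw [e]
      have h2 := (hp _ _ hi4 hi5).1 t ht1
      have h3 := (hp _ _ hj4 hj5).1 t ht1
      have h4 := dist_triangle4 (f.symm^[t] i.2.1) (f.symm^[t] (p i.2.1 i.2.2))
        (f.symm^[t] (p j.2.1 j.2.2)) (f.symm^[t] j.2.1)
      rw [dist_comm (f.symm^[t] (p j.2.1 j.2.2))] at h4
      linarith
  · obtain ⟨t, ht, h1⟩ := hlt j hj i hi h
    exact ⟨t, ht, by rwa [dist_comm]⟩

/-- in a transitive system all open sets have comparable growth -/
lemma mix_low [ConnectedSpace X] {f : X ≃ₜ X} {e : ℝ} (hE : Ex f e) (hS : Shad f) (hT : TT f)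
    {w : ℝ} (hw : 0 < w) (hwe : w < e) {U : Set X} (hU : IsOpen U) (hUn : U.Nonempty) :
    ∃ C : ℕ, ∀ n, sN f univ w n ≤ C * sN f U w n := by
  classical
  obtain ⟨z, hz⟩ := hUn
  obtain ⟨ρ, hρ, hρU⟩ := Metric.isOpen_iff.1 hU z hz
  set ε : ℝ := min (ρ / 2) ((e - w) / 2) with hε
  have hε0 : 0 < ε := lt_min (by linarith) (by linarith)
  have hε1 : ε ≤ ρ / 2 := min_le_left _ _
  have hε2 : ε ≤ (e - w) / 2 := min_le_right _ _
  obtain ⟨δ, hδ, hsh⟩ := hS ε hε0
  obtain ⟨τ, hτ⟩ := exists_mx hT hδ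
  have hM := hτ τ le_rfl
  obtain ⟨C0, hC0⟩ := sN_scale hE hw hE.pos le_rfl
  obtain ⟨C1, hC1⟩ := sN_add f hw τ
  refine ⟨C0 * C1, fun n => ?_⟩
  obtain ⟨S, -, hS2, hS3, -⟩ := sN_ex f univ hE.pos n
  have hp : ∀ y : X, ∃ p : X, dist z p ≤ ε ∧ ∀ t, dist (f^[t] y) (f^[τ + t] p) ≤ ε := by
    intro y
    obtain ⟨q, hq, h0, h1⟩ := hM z y
    obtain ⟨p, h2, -, h4⟩ := glue hδ.le hsh τ q hq h0 h1
    exact ⟨p, h2 0, h4⟩
  choose p hp1 hp2 using hp
  have hmain : sN f univ e n ≤ sN f U w (n + τ) := by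
    rw [← hS3]
    refine card_le_sN hw S p (fun y _ => ?_) fun y hy y' hy' hne => ?_
    · apply hρU
      rw [Metric.mem_ball, dist_comm]
      have := hp1 y
      linarith
    · obtain ⟨t, ht, h1⟩ := hS2 y hy y' hy' hne
      refine ⟨τ + t, by omega, ?_⟩
      have h2 := hp2 y t
      have h3 := hp2 y' t
      have h4 := dist_triangle4 (f^[t] y) (f^[τ + t] (p y)) (f^[τ + t] (p y')) (f^[t] y')
      rw [dist_comm (f^[τ + t] (p y'))] at h4
      linarith
  calc sN f univ w n ≤ C0 * sN f univ e n := hC0 n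
    _ ≤ C0 * (C1 * sN f U w n) := Nat.mul_le_mul_left _ (hmain.trans (hC1 U n))
    _ = C0 * C1 * sN f U w n := by ring

/-! ### the inverse -/

lemma ex_symm {f : X ≃ₜ X} {e : ℝ} (h : Ex f e) : Ex f.symm e where
  pos := h.pos
  exp := fun x y hx hy hd => by
    have key : ∀ x : ℤ → X, Orb f.symm x → Orb f fun n => x (-n) := by
      intro x hx n
      have h1 := hx (-n - 1)
      rw [sub_add_cancel] at h1
      show x (-(n + 1)) = f (x (-n))
      rw [h1, f.apply_symm_apply]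
      congr 1
      ring
    have := h.exp _ _ (key x hx) (key y hy) fun n => hd (-n)
    simpa using this

lemma shad_symm {f : X ≃ₜ X} (h : Shad f) : Shad f.symm := by
  intro ε hε
  obtain ⟨δ, hδ, hsh⟩ := h ε hε
  have huc : UniformContinuous f := CompactSpace.uniformContinuous_of_continuous f.continuous
  obtain ⟨η, hη, h1⟩ := Metric.uniformContinuous_iff.1 huc δ hδ
  refine ⟨η / 2, half_pos hη, fun x hx => ?_⟩
  obtain ⟨y, hy, hd⟩ := hsh (fun n => x (-n)) fun n => by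
    have h2 := hx (-(n + 1))
    have h3 : dist (f (f.symm (x (-(n + 1))))) (f (x (-(n + 1) + 1))) < δ :=
      h1 (h2.trans_lt (half_lt_self hη))
    rw [f.apply_symm_apply, show -(n + 1) + 1 = -n by ring] at h3
    show dist (f (x (-n))) (x (-(n + 1))) ≤ δ
    rw [dist_comm]
    exact h3.le
  refine ⟨fun n => y (-n), fun n => ?_, fun n => ?_⟩
  · have h2 := hy (-(n + 1))
    rw [show -(n + 1) + 1 = -n by ring] at h2
    show y (-(n + 1)) = f.symm (y (-n))
    rw [h2, f.symm_apply_apply]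
  · have := hd (-n)
    simpa using this

lemma tt_symm {f : X ≃ₜ X} (h : TT f) : TT f.symm := by
  intro U V hU hUn hV hVn
  obtain ⟨n, x, ⟨y, hy, rfl⟩, hx⟩ := h V U hV hVn hU hUn
  refine ⟨n, y, ⟨f^[n] y, hx, symm_iter_iter f n y⟩, hy⟩

end Q70.AnG
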