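import Pool.Agent.Q70.AnB

/-! # Separated orbits and entropy of subsets -/

set_option autoImplicit false
set_option linter.unusedSectionVars false

open Filter Topology Set
open scoped Uniformity SetRel

namespace Q70.AnG

open Pool.Agent.Y331.EP

variable {X : Type*} [MetricSpace X] [CompactSpace X]

/-- change of scale, for arbitrary subsets -/
lemma sN_scaleU {f : X ≃ₜ X} {e : ℝ} (hE : Ex f e) {v w : ℝ} (hv : 0 < v) (hw : 0 < w)
    (hwe : w ≤ e) : ∃ C : ℕ, ∀ (U : Set X) (n : ℕ), sN f U v n ≤ C * sN f U w n := by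
  classical
  obtain ⟨T, hT⟩ := unif_nat hE hv
  obtain ⟨C1, hC1⟩ := sN_add f hw T
  obtain ⟨η, hη, h1⟩ := unif_iter f.symm T hE.pos
  obtain ⟨t, -, htf, ht⟩ := finite_cover_balls_of_compact (isCompact_univ (X := X)) (half_pos hη)
  have h2 : ∀ x : X, ∃ z ∈ htf.toFinset, dist x z < η / 2 := fun x => by
    obtain ⟨z, hz, hxz⟩ := mem_iUnion₂.1 (ht (mem_univ x))
    exact ⟨z, htf.mem_toFinset.2 hz, hxz⟩
  choose c hc1 hc2 using h2
  refine ⟨htf.toFinset.card * C1, fun U n => ?_⟩
  obtain ⟨S, hS1, hS2, hS3, -⟩ := sN_ex f U hv n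
  rw [← hS3]
  have h3 := Finset.card_le_mul_card_image (f := c) S (sN f U w (n + T)) (by
    intro a _
    refine le_sN hw ?_ ?_
    · exact (Finset.coe_subset.2 (Finset.filter_subset _ _)).trans hS1
    · intro x hx y hy hne
      rw [Finset.mem_filter] at hx hy
      by_contra hcon
      push Not at hcon
      obtain ⟨k, hk, h4⟩ := hS2 x hx.1 y hy.1 hne
      have hxy : dist x y < η := by
        have h6 := hc2 x
        have h7 := hc2 y
        rw [hx.2] at h6
        rw [hy.2] at h7
        have := dist_triangle_right x y a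
        linarith
      have h5 := hT (f^[k] (f.symm^[T] x)) (f^[k] (f.symm^[T] y)) fun j hj => by
        rw [← Function.iterate_add_apply, ← Function.iterate_add_apply]
        by_cases hs : T ≤ j + k
        · obtain ⟨s, hs⟩ := Nat.exists_eq_add_of_le hs
          rw [hs, Nat.add_comm T s, Function.iterate_add_apply, Function.iterate_add_apply,
            iter_symm_iter, iter_symm_iter]
          exact (hcon s (by omega)).trans hwe
        · obtain ⟨s, hs⟩ := Nat.exists_eq_add_of_le (not_le.1 hs).le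
          have e1 : ∀ z, f^[j + k] (f.symm^[T] z) = f.symm^[s] z := by
            intro z
            rw [hs, Function.iterate_add_apply f.symm, iter_symm_iter]
          rw [e1, e1]
          exact h1 x y hxy s (by omega)
      rw [← Function.iterate_add_apply, ← Function.iterate_add_apply, Nat.add_comm T k,
        Function.iterate_add_apply, Function.iterate_add_apply, iter_symm_iter,
        iter_symm_iter] at h5
      linarith)
  calc S.card ≤ sN f U w (n + T) * (Finset.image c S).card := h3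
    _ ≤ (C1 * sN f U w n) * htf.toFinset.card := by
        refine Nat.mul_le_mul (hC1 U n) (Finset.card_le_card ?_)
        intro a ha
        obtain ⟨x, _, rfl⟩ := Finset.mem_image.1 ha
        exact hc1 _
    _ = _ := by ring

/-! ### entropy -/

lemma growth_shift {u : ℕ → ENNReal} (hu : Monotone u) (m : ℕ) :
    ExpGrowth.expGrowthSup (fun n => u (n + m)) = ExpGrowth.expGrowthSup u := by
  have hlim : Tendsto (fun n : ℕ => ((n + m : ℕ) : EReal) / n) atTop (𝓝 1) := by
    have h3 : Tendsto (fun n : ℕ => ((1 + (m : ℝ) * (n : ℝ)⁻¹ : ℝ) : EReal)) atTop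
        (𝓝 ((1 : ℝ) : EReal)) := by
      refine (continuous_coe_real_ereal.tendsto _).comp ?_
      have h4 : Tendsto (fun n : ℕ => (n : ℝ)⁻¹) atTop (𝓝 0) := tendsto_inv_atTop_nhds_zero_nat
      have := (h4.const_mul (m : ℝ)).const_add 1
      simpa using this
    rw [EReal.coe_one] at h3
    refine h3.congr' ?_
    filter_upwards [eventually_ge_atTop 1] with n hn
    have h4 : (n : ℝ) ≠ 0 := by
      have : n ≠ 0 := by omega
      exact_mod_cast this
    have h5 : ((n + m : ℕ) : EReal) / n = (((n + m : ℕ) : ℝ) / (n : ℝ) : ℝ) := by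
      rw [EReal.coe_div]
      rfl
    rw [h5]
    congr 1
    push_cast
    field_simp
  have h3 := hu.expGrowthSup_comp hlim one_ne_zero (by decide)
  rw [one_mul] at h3
  exact h3

/-- separated sets are at most as numerous as covers of half the scale -/
lemma sN_le_cover (f : X ≃ₜ X) (K : Set X) {w : ℝ} (hw : 0 < w) (n : ℕ) :
    (sN f K w n : ℕ∞) ≤ Dynamics.coverMincard f K (Cl X (w / 2)) (n + 1) := by
  classical
  refine le_iInf₂ fun s hs => ?_
  obtain ⟨S, hS1, hS2, hS3, -⟩ := sN_ex f K hw n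
  rw [← hS3]
  have h1 : ∀ y : X, ∃ z : X, y ∈ K → z ∈ s ∧ ∀ k ≤ n, dist (f^[k] y) (f^[k] z) ≤ w / 2 := by
    intro y
    by_cases hy : y ∈ K
    · obtain ⟨z, hz, hyz⟩ := hs hy
      refine ⟨z, fun _ => ⟨hz, fun k hk => ?_⟩⟩
      rw [Dynamics.mem_dynEntourage] at hyz
      exact hyz k (by omega)
    · exact ⟨y, fun h => absurd h hy⟩
  choose c hc using h1
  have h2 : S.card ≤ s.card := by
    refine Finset.card_le_card_of_injOn c (fun y hy => (hc y (hS1 hy)).1) ?_
    intro y hy y' hy' hyy
    by_contra hne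
    obtain ⟨k, hk, h3⟩ := hS2 y hy y' hy' hne
    have h4 := (hc y (hS1 hy)).2 k hk
    have h5 := (hc y' (hS1 hy')).2 k hk
    have hyy' : c y = c y' := hyy
    rw [← hyy'] at h5
    have := dist_triangle_right (f^[k] y) (f^[k] y') (f^[k] (c y))
    linarith
  exact_mod_cast h2

lemma growth_le_ent (f : X ≃ₜ X) (K : Set X) {w : ℝ} (hw : 0 < w) :
    ExpGrowth.expGrowthSup (fun n => (sN f K w n : ENNReal)) ≤
      Dynamics.coverEntropyEntourage f K (Cl X (w / 2)) := by
  have hmono : Monotone fun n => (Dynamics.coverMincard f K (Cl X (w / 2)) n).toENNReal :=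
    fun _ _ h => ENat.toENNReal_mono (Dynamics.coverMincard_monotone_time f K _ h)
  rw [Dynamics.coverEntropyEntourage, ← growth_shift hmono 1]
  refine ExpGrowth.expGrowthSup_monotone fun n => ?_
  have := ENat.toENNReal_mono (sN_le_cover f K hw n)
  rwa [ENat.toENNReal_coe] at this

lemma ent_le_growth {f : X ≃ₜ X} {e : ℝ} (hE : Ex f e) (K : Set X) {w : ℝ} (hw : 0 < w)
    (hwe : w ≤ e) :
    Dynamics.coverEntropy f K ≤ ExpGrowth.expGrowthSup (fun n => (sN f K w n : ENNReal)) := by
  classical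
  refine iSup₂_le fun U hU => ?_
  obtain ⟨θ, hθ, h1⟩ := Metric.mem_uniformity_dist.1 hU
  obtain ⟨C, hC⟩ := sN_scaleU hE (half_pos hθ) hw hwe
  rw [Dynamics.coverEntropyEntourage]
  refine ExpGrowth.expGrowthSup_le_of_eventually_le (b := (C : ENNReal)) (ENNReal.natCast_ne_top C)
    (Eventually.of_forall fun n => ?_)
  have h2 : Dynamics.coverMincard f K U n ≤ ((C * sN f K w n : ℕ) : ℕ∞) := by
    obtain ⟨S, hS1, hS2, hS3, hS4⟩ := sN_ex f K (half_pos hθ) n
    have h3 : Dynamics.IsDynCoverOf f K U n (S : Set X) := by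
      intro y hy
      obtain ⟨z, hz, hyz⟩ := hS4 y hy
      refine ⟨z, hz, ?_⟩
      rw [Dynamics.mem_dynEntourage]
      intro k hk
      apply h1
      have := hyz k hk.le
      linarith
    refine h3.coverMincard_le_card.trans ?_
    rw [hS3]
    exact_mod_cast hC K n
  have h3 := ENat.toENNReal_mono h2
  refine h3.trans (le_of_eq ?_)
  rw [ENat.toENNReal_coe]
  push_cast
  rfl

/-- the entropy of a subset is attained at the scale of expansivity -/
lemma ent_le_ClU {f : X ≃ₜ X} {e : ℝ} (hE : Ex f e) (K : Set X) :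
    Dynamics.coverEntropy f K ≤ Dynamics.coverEntropyEntourage f K (Cl X (e / 2)) :=
  (ent_le_growth hE K hE.pos le_rfl).trans (growth_le_ent f K hE.pos)

lemma growth_le (f : X ≃ₜ X) (K : Set X) {w : ℝ} (hw : 0 < w) :
    ExpGrowth.expGrowthSup (fun n => (sN f K w n : ENNReal)) ≤ Dynamics.coverEntropy f K :=
  (growth_le_ent f K hw).trans
    (Dynamics.coverEntropyEntourage_le_coverEntropy f K (Cl_unif (half_pos hw)))

/-- submultiplicativity: forward invariant sets have at least `exp (h (n + 1))` separated orbits -/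
lemma inv_low {f : X ≃ₜ X} {e : ℝ} (hE : Ex f e) {F : Set X} (hF : MapsTo f F F)
    (hFn : F.Nonempty) {h : ℝ} (hh : (h : EReal) ≤ Dynamics.coverEntropy f F) (ℓ : ℕ) :
    Real.exp (h * (ℓ + 1)) ≤ sN f F (e / 4) ℓ := by
  have he := hE.pos
  obtain ⟨S, hS1, hS2, hS3, hS4⟩ := sN_ex f F (v := e / 4) (by linarith) ℓ
  have h1 : Dynamics.IsDynCoverOf f F (Cl X (e / 4)) (ℓ + 1) (S : Set X) := by
    intro y hy
    obtain ⟨z, hz, hyz⟩ := hS4 y hy
    refine ⟨z, hz, ?_⟩
    rw [Dynamics.mem_dynEntourage]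
    intro k hk
    exact hyz k (by omega)
  have h2 := h1.coverEntropyEntourage_le_log_card_div hF (by omega)
  have h3 := (ent_le_ClU hE F).trans
    (Dynamics.coverEntropyEntourage_antitone f F (Cl_comp (Y := X) (e / 2)))
  rw [show e / 2 / 2 = e / 4 by ring] at h3
  have hpos : 1 ≤ sN f F (e / 4) ℓ := sN_pos f hFn (by linarith) ℓ
  have h4 : ENNReal.log (S.card : ENNReal) = ((Real.log S.card : ℝ) : EReal) := by
    rw [ENNReal.log_pos_real]
    · simp
    · rw [hS3]
      have : sN f F (e / 4) ℓ ≠ 0 := by omega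
      exact_mod_cast this
    · exact ENNReal.natCast_ne_top _
  have h5 : (h : EReal) ≤ ((Real.log S.card / (ℓ + 1) : ℝ) : EReal) := by
    refine (hh.trans (h3.trans h2)).trans (le_of_eq ?_)
    rw [h4, EReal.coe_div]
    push_cast
    rfl
  have h6 : h ≤ Real.log S.card / (ℓ + 1) := by exact_mod_cast h5
  rw [le_div_iff₀ (by positivity), hS3] at h6
  have h7 : (0 : ℝ) < sN f F (e / 4) ℓ := by exact_mod_cast hpos
  rw [← Real.exp_log h7]
  exact Real.exp_le_exp.2 h6

/-- finite entropy -/
lemma ent_lt_top {f : X ≃ₜ X} {e : ℝ} (hE : Ex f e) [Nonempty X] :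
    Dynamics.coverEntropy f univ = ((Dynamics.coverEntropy f univ).toReal : EReal) := by
  obtain ⟨S, -, -, h⟩ := ent_le_sep hE 0
  have h0 := Dynamics.coverEntropy_nonneg (F := univ) f (univ_nonempty (α := X))
  rw [EReal.coe_toReal]
  · intro h1
    rw [h1] at h
    exact absurd h (not_le.2 (EReal.coe_lt_top _))
  · intro h1
    rw [h1] at h0
    exact absurd h0 (not_le.2 (by decide))

/-- exponential lower bounds give entropy -/
lemma ent_ge (f : X ≃ₜ X) (K : Set X) {w : ℝ} (hw : 0 < w) {c h : ℝ} (hc : 0 < c)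
    (hlow : ∀ n : ℕ, c * Real.exp (h * n) ≤ sN f K w n) :
    (h : EReal) ≤ Dynamics.coverEntropy f K := by
  refine le_trans ?_ (growth_le f K hw)
  refine le_of_forall_lt fun a ha => ?_
  obtain ⟨b, hab, hb⟩ := EReal.lt_iff_exists_real_btwn.1 ha
  have hbh : b < h := by exact_mod_cast hb
  refine hab.trans_le (Frequently.le_expGrowthSup (Eventually.frequently ?_))
  have h1 : Tendsto (fun n : ℕ => c * Real.exp ((h - b) * n)) atTop atTop := by
    refine Tendsto.const_mul_atTop hc ?_
    refine Real.tendsto_exp_atTop.comp ?_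
    exact Tendsto.const_mul_atTop (sub_pos.2 hbh) tendsto_natCast_atTop_atTop
  filter_upwards [h1.eventually_ge_atTop 1] with n hn
  have h2 : Real.exp (b * n) ≤ sN f K w n := by
    refine le_trans ?_ (hlow n)
    have h3 : Real.exp (h * n) = Real.exp ((h - b) * n) * Real.exp (b * n) := by
      rw [← Real.exp_add]
      congr 1
      ring
    rw [h3, ← mul_assoc]
    exact le_mul_of_one_le_left (Real.exp_pos _).le hn
  have h4 : EReal.exp ((b : EReal) * (n : EReal)) = ENNReal.ofReal (Real.exp (b * n)) := by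
    have : (b : EReal) * (n : EReal) = ((b * n : ℝ) : EReal) := by push_cast; rfl
    rw [this, EReal.exp_coe]
  rw [h4]
  calc ENNReal.ofReal (Real.exp (b * n)) ≤ ENNReal.ofReal (sN f K w n : ℝ) :=
        ENNReal.ofReal_le_ofReal h2
    _ = _ := ENNReal.ofReal_natCast _

/-- upper bound for entropies of subsets -/
lemma ent_le {f : X ≃ₜ X} {e : ℝ} (hE : Ex f e) {K L : Set X} {w : ℝ} (hw : 0 < w)
    (hwe : w ≤ e) {C : ℕ} (h : ∀ n, sN f K w n ≤ C * sN f L w n) :
    Dynamics.coverEntropy f K ≤ Dynamics.coverEntropy f L := by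
  refine (ent_le_growth hE K hw hwe).trans (le_trans ?_ (growth_le f L hw))
  refine ExpGrowth.expGrowthSup_le_of_eventually_le (b := (C : ENNReal)) (ENNReal.natCast_ne_top C)
    (Eventually.of_forall fun n => ?_)
  have := h n
  exact_mod_cast this

/-- the inverse has the same entropy -/
lemma ent_symm {f : X ≃ₜ X} {e : ℝ} (hE : Ex f e) :
    Dynamics.coverEntropy f.symm univ = Dynamics.coverEntropy f univ := by
  have key : ∀ (g : X ≃ₜ X), Ex g e →
      Dynamics.coverEntropy g.symm univ ≤ Dynamics.coverEntropy g univ := by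
    intro g hg
    refine (ent_le_growth (ex_symm hg) univ hg.pos le_rfl).trans ?_
    refine le_trans (le_of_eq ?_) (growth_le g univ hg.pos)
    congr 1
    funext n
    rw [sN_symm g hg.pos]
  refine le_antisymm (key f hE) ?_
  have := key f.symm (ex_symm hE)
  rwa [Homeomorph.symm_symm] at this

end Q70.AnG
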