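import Pool.Agent.Q70.AnC

/-! # Entropy of open sets, limit sets and disjoint invariant sets -/

set_option autoImplicit false
set_option linter.unusedSectionVars false

open Filter Topology Set
open scoped Uniformity SetRel

namespace Q70.AnG

open Pool.Agent.Y331.EP

variable {X : Type*} [MetricSpace X] [CompactSpace X]

/-- Bowen's upper bound in the transitive case -/
lemma upper [ConnectedSpace X] {f : X ≃ₜ X} {e : ℝ} (hE : Ex f e) (hS : Shad f) (hT : TT f)
    {w : ℝ} (hw : 0 < w) :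
    ∃ C : ℝ, 0 < C ∧ ∀ n : ℕ, (sN f univ w n : ℝ) ≤
      C * Real.exp ((Dynamics.coverEntropy f univ).toReal * n) := by
  set h : ℝ := (Dynamics.coverEntropy f univ).toReal with hh
  set ε : ℝ := min (w / 2) (e / 2) with hε
  have hε0 : 0 < ε := lt_min (by linarith) (by linarith [hE.pos])
  have hε1 : 2 * ε ≤ w := by have := min_le_left (w / 2) (e / 2); linarith
  have hε2 : 2 * ε ≤ e := by have := min_le_right (w / 2) (e / 2); linarith
  obtain ⟨δ, hδ, cl⟩ := closing hE hS hε0 hε2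
  obtain ⟨N, hN⟩ := exists_mx hT hδ
  obtain ⟨τ, hτ1, hM⟩ : ∃ τ : ℕ, 1 ≤ τ ∧ Mx f δ τ := ⟨max N 1, le_max_right _ _, hN _ (le_max_left _ _)⟩
  refine ⟨Real.exp (h * (3 * τ)), Real.exp_pos _, fun n => ?_⟩
  obtain ⟨S, -, hS2, hS3, -⟩ := sN_ex f univ hw n
  have h1 := sep_le_per hE hδ.le cl hM hτ1 hε1 n S hS2
  rw [← hS3, ← Real.exp_add]
  rcases Nat.eq_zero_or_pos S.card with h0 | h0
  · rw [h0, Nat.cast_zero]
    exact (Real.exp_pos _).le
  have hP : (0 : ℝ) < Pn f (n + τ) := by exact_mod_cast h0.trans_le h1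
  have h2 := ent_ge_per hE hδ.le hε2 cl hM (a := n + τ) (by omega)
  rw [ent_lt_top hE] at h2
  have h3 : Real.log (Pn f (n + τ)) / ((n + τ + 2 * τ : ℕ) : ℝ) ≤ h := by exact_mod_cast h2
  have h4 : (0 : ℝ) < ((n + τ + 2 * τ : ℕ) : ℝ) := by
    have : 0 < n + τ + 2 * τ := by omega
    exact_mod_cast this
  rw [div_le_iff₀ h4] at h3
  have h5 : (Pn f (n + τ) : ℝ) ≤ Real.exp (h * ((n + τ + 2 * τ : ℕ) : ℝ)) := by
    rw [← Real.exp_log hP]
    exact Real.exp_le_exp.2 h3
  have h6 : (S.card : ℝ) ≤ Pn f (n + τ) := by exact_mod_cast h1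
  refine (h6.trans h5).trans (le_of_eq ?_)
  congr 1
  push_cast
  ring

lemma ent_image (f : X ≃ₜ X) (U : Set X) :
    Dynamics.coverEntropy f U ≤ Dynamics.coverEntropy f (f '' U) := by
  have h1 := Dynamics.coverEntropy_image_le_of_uniformContinuous (S := f) (T := f) (φ := f.symm)
    (fun x => by simp)
    (CompactSpace.uniformContinuous_of_continuous f.symm.continuous) (f '' U)
  have h2 : f.symm '' (f '' U) = U := by
    rw [← image_comp]
    have : (f.symm ∘ f : X → X) = id := by funext x; simp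
    rw [this, image_id]
  rwa [h2] at h1

/-- the closure of the future -/
def FJ (g : X ≃ₜ X) (U : Set X) (J : ℕ) : Set X := closure (⋃ m : ℕ, g^[m + J] '' U)

lemma FJ_maps (g : X ≃ₜ X) (U : Set X) (J : ℕ) : MapsTo g (FJ g U J) (FJ g U J) := by
  refine MapsTo.closure ?_ g.continuous
  intro x hx
  obtain ⟨m, y, hy, rfl⟩ := mem_iUnion.1 hx
  refine mem_iUnion.2 ⟨m + 1, y, hy, ?_⟩
  rw [show m + 1 + J = (m + J) + 1 by ring, Function.iterate_succ_apply']

lemma FJ_anti (g : X ≃ₜ X) (U : Set X) {J J' : ℕ} (h : J ≤ J') : FJ g U J' ⊆ FJ g U J := by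
  refine closure_mono ?_
  intro x hx
  obtain ⟨m, hm⟩ := mem_iUnion.1 hx
  obtain ⟨d, rfl⟩ := Nat.exists_eq_add_of_le h
  refine mem_iUnion.2 ⟨m + d, ?_⟩
  rw [show m + d + J = m + (J + d) by ring]
  exact hm

lemma FJ_nonempty (g : X ≃ₜ X) {U : Set X} (hU : U.Nonempty) (J : ℕ) : (FJ g U J).Nonempty := by
  obtain ⟨x, hx⟩ := hU
  exact ⟨g^[0 + J] x, subset_closure (mem_iUnion.2 ⟨0, x, hx, rfl⟩)⟩

lemma FJ_ent (g : X ≃ₜ X) (U : Set X) (J : ℕ) :
    Dynamics.coverEntropy g U ≤ Dynamics.coverEntropy g (FJ g U J) := by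
  have h1 : ∀ J : ℕ, Dynamics.coverEntropy g U ≤ Dynamics.coverEntropy g (g^[J] '' U) := by
    intro J
    induction J with
    | zero => simp
    | succ J ih =>
      refine ih.trans ((ent_image g _).trans (le_of_eq ?_))
      rw [← image_comp, Function.iterate_succ']
  refine (h1 J).trans (Dynamics.coverEntropy_monotone g ?_)
  intro x hx
  refine subset_closure (mem_iUnion.2 ⟨0, ?_⟩)
  rwa [zero_add]

/-- **full entropy of the open sets gives a lower bound with a constant factor** -/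
lemma open_low {f : X ≃ₜ X} {e : ℝ} (hE : Ex f e) (hS : Shad f) {h : ℝ}
    (hfull : ∀ U : Set X, IsOpen U → U.Nonempty → (h : EReal) ≤ Dynamics.coverEntropy f U)
    {w : ℝ} (hw : 0 < w) (hwe : w ≤ e) {U : Set X} (hU : IsOpen U) (hUn : U.Nonempty) :
    ∃ c : ℝ, 0 < c ∧ ∀ n : ℕ, c * Real.exp (h * n) ≤ sN f U w n := by
  classical
  have he := hE.pos
  obtain ⟨z, hz⟩ := hUn
  obtain ⟨ρ, hρ, hρU⟩ := Metric.isOpen_iff.1 hU z hz
  set U0 : Set X := Metric.ball z (ρ / 2) with hU0
  have hU0n : U0.Nonempty := ⟨z, Metric.mem_ball_self (half_pos hρ)⟩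
  set F := FJ f U0 1 with hF
  have hlow := inv_low hE (FJ_maps f U0 1) (FJ_nonempty f hU0n 1)
    ((hfull U0 Metric.isOpen_ball hU0n).trans (FJ_ent f U0 1))
  set ε : ℝ := min (ρ / 4) (e / 16) with hε
  have hε0 : 0 < ε := lt_min (by linarith) (by linarith)
  have hε1 : ε ≤ ρ / 4 := min_le_left _ _
  have hε2 : ε ≤ e / 16 := min_le_right _ _
  obtain ⟨δ, hδ, hsh⟩ := hS ε hε0
  -- finite cover
  obtain ⟨t, ht⟩ := (isClosed_closure (s := ⋃ m : ℕ, f^[m + 1] '' U0)).isCompact.elim_finite_subcover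
    (fun i : ℕ × U0 => Metric.ball (f^[i.1 + 1] i.2) δ) (fun i => Metric.isOpen_ball) (by
      intro y hy
      obtain ⟨x, hx, hxy⟩ := Metric.mem_closure_iff.1 hy δ hδ
      obtain ⟨m, a, ha, rfl⟩ := mem_iUnion.1 hx
      exact mem_iUnion.2 ⟨(m, ⟨a, ha⟩), hxy⟩)
  set M : ℕ := t.sup fun i => i.1 + 1 with hM
  have h1 : ∀ y : X, ∃ (i : ℕ × U0) (p : X), y ∈ F → i ∈ t ∧ dist z p < ρ ∧
      ∀ s, dist (f^[s] y) (f^[i.1 + 1 + s] p) ≤ ε := by
    intro y
    by_cases hy : y ∈ F
    · obtain ⟨i, hi, hyi⟩ := mem_iUnion₂.1 (ht hy)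
      obtain ⟨p, h2, h3, h4⟩ := glue hδ.le hsh (y := (i.2 : X)) (u := y) (i.1 + 1)
        (fun k => if k < i.1 + 1 then f^[k] i.2 else y) (fun k hk => by
          show dist (f (if k < i.1 + 1 then f^[k] i.2 else y))
            (if k + 1 < i.1 + 1 then f^[k + 1] i.2 else y) ≤ δ
          rw [if_pos hk, ← Function.iterate_succ_apply' f]
          by_cases hk2 : k + 1 < i.1 + 1
          · rw [if_pos hk2, dist_self]
            exact hδ.le
          · rw [if_neg hk2]
            have : k = i.1 := by omega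
            rw [this, dist_comm]
            exact (Metric.mem_ball.1 hyi).le) (by simp) (by simp)
      refine ⟨i, p, fun _ => ⟨hi, ?_, h4⟩⟩
      have h5 : dist (i.2 : X) p ≤ ε := h2 0
      have h6 : dist (i.2 : X) z < ρ / 2 := i.2.2
      have := dist_triangle_left z p (i.2 : X)
      linarith
    · exact ⟨(0, ⟨z, Metric.mem_ball_self (half_pos hρ)⟩), y, fun h => absurd h hy⟩
  choose ix p hp using h1
  obtain ⟨C1, hC1⟩ := sN_add f (show 0 < e / 8 by linarith) M
  obtain ⟨C2, hC2⟩ := sN_scaleU hE (show 0 < e / 8 by linarith) hw hwe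
  have hmain : ∀ n, sN f F (e / 4) n ≤ C1 * C2 * t.card * sN f U w n := by
    intro n
    obtain ⟨S, hS1, hS2, hS3, -⟩ := sN_ex f F (v := e / 4) (by linarith) n
    rw [← hS3]
    have h3 := Finset.card_le_mul_card_image (f := ix) S (sN f U (e / 8) (n + M)) (by
      intro i hi
      refine card_le_sN (by linarith) _ p (fun y hy => ?_) fun y hy y' hy' hne => ?_
      · rw [Finset.mem_filter] at hy
        apply hρU
        rw [Metric.mem_ball, dist_comm]
        exact (hp y (hS1 hy.1)).2.1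
      · rw [Finset.mem_filter] at hy hy'
        obtain ⟨s, hs, h4⟩ := hS2 y hy.1 y' hy'.1 hne
        have h5 := hp y (hS1 hy.1)
        have h6 := hp y' (hS1 hy'.1)
        rw [hy.2] at h5
        rw [hy'.2] at h6
        have h7 : i.1 + 1 ≤ M := Finset.le_sup (f := fun i : ℕ × U0 => i.1 + 1) h5.1
        refine ⟨i.1 + 1 + s, by omega, ?_⟩
        have h8 := h5.2.2 s
        have h9 := h6.2.2 s
        have h10 := dist_triangle4 (f^[s] y) (f^[i.1 + 1 + s] (p y)) (f^[i.1 + 1 + s] (p y'))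
          (f^[s] y')
        rw [dist_comm (f^[i.1 + 1 + s] (p y'))] at h10
        linarith)
    calc S.card ≤ sN f U (e / 8) (n + M) * (Finset.image ix S).card := h3
      _ ≤ (C1 * (C2 * sN f U w n)) * t.card := by
          refine Nat.mul_le_mul ((hC1 U n).trans (Nat.mul_le_mul_left _ (hC2 U n)))
            (Finset.card_le_card ?_)
          intro i hi
          obtain ⟨y, hy, rfl⟩ := Finset.mem_image.1 hi
          exact (hp y (hS1 hy)).1
      _ = _ := by ring
  set D : ℝ := ((C1 * C2 * t.card : ℕ) : ℝ) + 1 with hD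
  have hD0 : 0 < D := by positivity
  refine ⟨Real.exp h / D, by positivity, fun n => ?_⟩
  rw [div_mul_eq_mul_div, div_le_iff₀ hD0]
  have h2 := hlow n
  have h3 : (sN f F (e / 4) n : ℝ) ≤ ((C1 * C2 * t.card : ℕ) : ℝ) * sN f U w n := by
    exact_mod_cast hmain n
  have h4 : Real.exp h * Real.exp (h * n) = Real.exp (h * (n + 1)) := by
    rw [← Real.exp_add]
    congr 1
    ring
  rw [h4]
  have h5 : (0 : ℝ) ≤ sN f U w n := Nat.cast_nonneg _
  rw [hD]
  linarith

/-! ### invariant sets -/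

lemma image_iter {f : X ≃ₜ X} {K : Set X} (hK : f '' K = K) (n : ℕ) {x : X} (hx : x ∈ K) :
    f^[n] x ∈ K := by
  induction n with
  | zero => exact hx
  | succ n ih =>
    rw [Function.iterate_succ_apply', ← hK]
    exact ⟨_, ih, rfl⟩

lemma image_symm' {f : X ≃ₜ X} {K : Set X} (hK : f '' K = K) : f.symm '' K = K := by
  conv_lhs => rw [← hK]
  rw [← image_comp]
  have : (f.symm ∘ f : X → X) = id := by funext x; simp
  rw [this, image_id]

lemma sN_symmK_le {f : X ≃ₜ X} {K : Set X} (hK : f '' K = K) {v : ℝ} (hv : 0 < v) (n : ℕ) :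
    sN f K v n ≤ sN f.symm K v n := by
  classical
  obtain ⟨S, hS1, hS2, hS3, -⟩ := sN_ex f K hv n
  rw [← hS3, ← Finset.card_image_of_injective S (iter_inj f n)]
  refine le_sN hv ?_ (sp_symm hS2)
  intro x hx
  obtain ⟨y, hy, rfl⟩ := Finset.mem_image.1 (Finset.mem_coe.1 hx)
  exact image_iter hK n (hS1 hy)

lemma sN_symmK {f : X ≃ₜ X} {K : Set X} (hK : f '' K = K) {v : ℝ} (hv : 0 < v) (n : ℕ) :
    sN f.symm K v n = sN f K v n := by
  refine le_antisymm ?_ (sN_symmK_le hK hv n)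
  have := sN_symmK_le (image_symm' hK) hv n
  rwa [Homeomorph.symm_symm] at this

lemma ent_symmK {f : X ≃ₜ X} {e : ℝ} (hE : Ex f e) {K : Set X} (hK : f '' K = K) :
    Dynamics.coverEntropy f.symm K = Dynamics.coverEntropy f K := by
  have key : ∀ (g : X ≃ₜ X), Ex g e → g '' K = K →
      Dynamics.coverEntropy g.symm K ≤ Dynamics.coverEntropy g K := by
    intro g hg hgK
    refine (ent_le_growth (ex_symm hg) K hg.pos le_rfl).trans ?_
    refine le_trans (le_of_eq ?_) (growth_le g K hg.pos)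
    congr 1
    funext n
    rw [sN_symmK hgK hg.pos]
  refine le_antisymm (key f hE hK) ?_
  have := key f.symm (ex_symm hE) (image_symm' hK)
  rwa [Homeomorph.symm_symm] at this

/-- the limit set of an open set -/
def KK (g : X ≃ₜ X) (U : Set X) : Set X := ⋂ J : ℕ, FJ g U J

lemma KK_closed (g : X ≃ₜ X) (U : Set X) : IsClosed (KK g U) :=
  isClosed_iInter fun _ => isClosed_closure

lemma KK_inv (g : X ≃ₜ X) (U : Set X) : g '' KK g U = KK g U := by
  have h1 : ∀ J, g '' FJ g U J = FJ g U (J + 1) := by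
    intro J
    unfold FJ
    rw [g.image_closure, image_iUnion]
    congr 1
    refine iUnion_congr fun m => ?_
    rw [← image_comp, ← Function.iterate_succ']
    rfl
  unfold KK
  rw [image_iInter g.bijective]
  simp only [h1]
  refine Subset.antisymm ?_ ?_
  · refine subset_iInter fun J => ?_
    exact (iInter_subset _ J).trans (FJ_anti g U (Nat.le_succ J))
  · exact subset_iInter fun J => iInter_subset (fun J => FJ g U J) (J + 1)

lemma KK_low {g : X ≃ₜ X} {e : ℝ} (hE : Ex g e) {U : Set X} (hU : U.Nonempty) {h : ℝ}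
    (hh : (h : EReal) ≤ Dynamics.coverEntropy g U) (ℓ : ℕ) :
    Real.exp (h * (ℓ + 1)) ≤ sN g (KK g U) (e / 16) ℓ := by
  classical
  have he := hE.pos
  obtain ⟨A, hA1, hA2, hA3, hA4⟩ := sN_ex g (KK g U) (v := e / 16) (by linarith) ℓ
  set O : Set X := ⋃ z ∈ A, ⋂ k ∈ Finset.range (ℓ + 1), {y | dist (g^[k] y) (g^[k] z) < e / 8}
    with hO
  have hOo : IsOpen O := by
    refine isOpen_biUnion fun z _ => isOpen_biInter_finset fun k _ => ?_
    exact isOpen_lt ((g.continuous.iterate k).dist continuous_const) continuous_const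
  obtain ⟨J, hJ⟩ := exists_subset_nhds_of_isCompact' (V := fun J => FJ g U J)
    (directed_of_isDirected_le fun i j hij => FJ_anti g U hij)
    (fun J => isClosed_closure.isCompact) (fun J => isClosed_closure) (U := O) (by
      intro x hx
      refine hOo.mem_nhds ?_
      obtain ⟨z, hz, hxz⟩ := hA4 x hx
      refine mem_iUnion₂.2 ⟨z, hz, mem_iInter₂.2 fun k hk => ?_⟩
      have h1 := hxz k (by have := Finset.mem_range.1 hk; omega)
      show dist (g^[k] x) (g^[k] z) < e / 8
      linarith)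
  have h1 := inv_low hE (FJ_maps g U J) (FJ_nonempty g hU J) (hh.trans (FJ_ent g U J)) ℓ
  refine h1.trans ?_
  have h2 : sN g (FJ g U J) (e / 4) ℓ ≤ sN g (KK g U) (e / 16) ℓ := by
    obtain ⟨S, hS1, hS2, hS3, -⟩ := sN_ex g (FJ g U J) (v := e / 4) (by linarith) ℓ
    rw [← hS3, ← hA3]
    have h3 : ∀ y : X, ∃ z : X, y ∈ FJ g U J → z ∈ A ∧ ∀ k ≤ ℓ, dist (g^[k] y) (g^[k] z) < e / 8 := by
      intro y
      by_cases hy : y ∈ FJ g U J
      · obtain ⟨z, hz, hyz⟩ := mem_iUnion₂.1 (hJ hy)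
        refine ⟨z, fun _ => ⟨hz, fun k hk => ?_⟩⟩
        exact mem_iInter₂.1 hyz k (Finset.mem_range.2 (by omega))
      · exact ⟨y, fun h => absurd h hy⟩
    choose c hc using h3
    refine Finset.card_le_card_of_injOn c (fun y hy => (hc y (hS1 hy)).1) ?_
    intro y hy y' hy' hyy
    by_contra hne
    obtain ⟨k, hk, h4⟩ := hS2 y hy y' hy' hne
    have h5 := (hc y (hS1 hy)).2 k hk
    have h6 := (hc y' (hS1 hy')).2 k hk
    have hyy' : c y = c y' := hyy
    rw [← hyy'] at h6
    have := dist_triangle_right (g^[k] y) (g^[k] y') (g^[k] (c y))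
    linarith
  exact_mod_cast h2

lemma KK_ent {g : X ≃ₜ X} {e : ℝ} (hE : Ex g e) {U : Set X} (hU : U.Nonempty) {h : ℝ}
    (hh : (h : EReal) ≤ Dynamics.coverEntropy g U) :
    (h : EReal) ≤ Dynamics.coverEntropy g (KK g U) := by
  refine ent_ge g _ (w := e / 16) (by linarith [hE.pos]) (Real.exp_pos h) fun n => ?_
  refine le_trans (le_of_eq ?_) (KK_low hE hU hh n)
  rw [← Real.exp_add]
  congr 1
  ring

/-- the future and the past of a small ball around a wandering point have disjoint limit sets -/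
lemma KK_disjoint {f : X ≃ₜ X} (hS : Shad f) {z : X} {r : ℝ} (hr : 0 < r)
    (hw : ∀ m : ℕ, 1 ≤ m → ∀ x ∈ Metric.ball z r, f^[m] x ∉ Metric.ball z r) :
    Disjoint (KK f (Metric.ball z (r / 2))) (KK f.symm (Metric.ball z (r / 2))) := by
  rw [Set.disjoint_left]
  intro p hp1 hp2
  obtain ⟨δ, hδ, hsh⟩ := hS (r / 4) (by linarith)
  obtain ⟨a, ha, hpa⟩ := Metric.mem_closure_iff.1 (mem_iInter.1 hp1 1) (δ / 2) (half_pos hδ)
  obtain ⟨b, hb, hpb⟩ := Metric.mem_closure_iff.1 (mem_iInter.1 hp2 1) (δ / 2) (half_pos hδ)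
  obtain ⟨m, x, hx, rfl⟩ := mem_iUnion.1 ha
  obtain ⟨m', x', hx', rfl⟩ := mem_iUnion.1 hb
  set y : X := f.symm^[m' + 1] x' with hy
  have hxy : dist (f^[m + 1] x) y ≤ δ := by
    have := dist_triangle_left (f^[m + 1] x) y p
    linarith
  obtain ⟨P, h1, -, h3⟩ := glue hδ.le hsh (y := x) (u := y) (m + 1)
    (fun k => if k < m + 1 then f^[k] x else y) (fun k hk => by
      show dist (f (if k < m + 1 then f^[k] x else y)) (if k + 1 < m + 1 then f^[k + 1] x else y) ≤ δ
      rw [if_pos hk, ← Function.iterate_succ_apply' f]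
      by_cases hk2 : k + 1 < m + 1
      · rw [if_pos hk2, dist_self]
        exact hδ.le
      · rw [if_neg hk2]
        have : k = m := by omega
        rw [this]
        exact hxy) (by simp) (by simp)
  have h4 : dist x P ≤ r / 4 := h1 0
  have h5 := h3 (m' + 1)
  rw [hy, iter_symm_iter] at h5
  have h6 : dist x z < r / 2 := hx
  have h7 : dist x' z < r / 2 := hx'
  refine hw (m + 1 + (m' + 1)) (by omega) P ?_ ?_
  · rw [Metric.mem_ball]
    have := dist_triangle_left P z x
    linarith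
  · rw [Metric.mem_ball]
    have := dist_triangle_left (f^[m + 1 + (m' + 1)] P) z x'
    linarith

end Q70.AnG
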