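import Pool.Agent.Q70.AnD

/-! # Criteria for transitivity -/

set_option autoImplicit false
set_option linter.unusedSectionVars false

open Filter Topology Set
open scoped Uniformity SetRel

namespace Q70.AnG

open Pool.Agent.Y331.EP

variable {X : Type*} [MetricSpace X] [CompactSpace X]

/-- orbits which go from `K` to `L` -/
lemma cross_sum {f : X ≃ₜ X} {δ ε : ℝ} (hδ : 0 ≤ δ)
    (hsh : ∀ x : ℤ → X, (∀ n, dist (f (x n)) (x (n + 1)) ≤ δ) →
      ∃ y, Orb f y ∧ ∀ n, dist (x n) (y n) ≤ ε) {τ : ℕ} (hM : Mx f δ τ)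
    {K L : Set X} (hL : f '' L = L) {w r : ℝ} (hw : 0 < w) (hε : 0 < ε) (hεw : 4 * ε ≤ w)
    (hεr : 4 * ε ≤ r) (hKL : ∀ x ∈ K, ∀ y ∈ L, r ≤ dist x y) (J : ℕ) :
    ∑ j ∈ Finset.range (J + 1), sN f.symm K w (j * (τ + 1)) *
      sN f L w (J * (τ + 1) - j * (τ + 1)) ≤ sN f univ ε (J * (τ + 1) + τ) := by
  classical
  obtain ⟨N, hN⟩ : ∃ N, N = J * (τ + 1) := ⟨_, rfl⟩
  rw [← hN]
  choose A hA1 hA2 hA3 _ using fun k => sN_ex f.symm K hw k
  choose B hB1 hB2 hB3 _ using fun k => sN_ex f L hw k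
  have hp : ∀ y u : X, ∃ p : X, (∀ t : ℕ, dist (f.symm^[t] y) (f.symm^[t] p) ≤ ε) ∧
      ∀ t, dist (f^[t] u) (f^[τ + t] p) ≤ ε := by
    intro y u
    obtain ⟨q, hq, h0, h1⟩ := hM y u
    obtain ⟨p, h2, -, h4⟩ := glue hδ hsh τ q hq h0 h1
    exact ⟨p, h2, h4⟩
  choose p hp1 hp2 using hp
  have hcard : ∑ j ∈ Finset.range (J + 1), sN f.symm K w (j * (τ + 1)) *
      sN f L w (N - j * (τ + 1)) = ((Finset.range (J + 1)).sigma fun j =>
        A (j * (τ + 1)) ×ˢ B (N - j * (τ + 1))).card := by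
    rw [Finset.card_sigma]
    refine Finset.sum_congr rfl fun k _ => ?_
    rw [Finset.card_product, hA3, hB3]
  rw [hcard]
  set I := (Finset.range (J + 1)).sigma fun j => A (j * (τ + 1)) ×ˢ B (N - j * (τ + 1)) with hI
  set F : (Σ _ : ℕ, X × X) → X := fun i => f.symm^[i.1 * (τ + 1)] (p i.2.1 i.2.2) with hF
  have hmem : ∀ i ∈ I, i.1 ≤ J ∧ i.1 * (τ + 1) ≤ N ∧ i.2.1 ∈ A (i.1 * (τ + 1)) ∧
      i.2.2 ∈ B (N - i.1 * (τ + 1)) := by
    intro i hi
    rw [hI, Finset.mem_sigma, Finset.mem_range, Finset.mem_product] at hi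
    refine ⟨by omega, ?_, hi.2.1, hi.2.2⟩
    rw [hN]
    exact Nat.mul_le_mul_right _ (by omega)
  have hfw : ∀ i : (Σ _ : ℕ, X × X), ∀ t, f^[i.1 * (τ + 1) + t] (F i) =
      f^[t] (p i.2.1 i.2.2) := by
    intro i t
    simp only [hF]
    rw [Nat.add_comm, Function.iterate_add_apply, iter_symm_iter]
  have hbw : ∀ i : (Σ _ : ℕ, X × X), ∀ t ≤ i.1 * (τ + 1),
      f^[i.1 * (τ + 1) - t] (F i) = f.symm^[t] (p i.2.1 i.2.2) := by
    intro i t ht
    simp only [hF]
    have e : i.1 * (τ + 1) = (i.1 * (τ + 1) - t) + t := by omega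
    conv_lhs => rw [show f.symm^[i.1 * (τ + 1)] (p i.2.1 i.2.2) = f.symm^[i.1 * (τ + 1) - t]
      (f.symm^[t] (p i.2.1 i.2.2)) by rw [← Function.iterate_add_apply, ← e]]
    rw [iter_symm_iter]
  have hlt : ∀ i ∈ I, ∀ j ∈ I, i.1 < j.1 →
      ∃ t ≤ N + τ, ε < dist (f^[t] (F i)) (f^[t] (F j)) := by
    intro i hi j hj hij
    obtain ⟨m, hm⟩ : ∃ m, j.1 * (τ + 1) = i.1 * (τ + 1) + (τ + m) := by
      have h1 : (i.1 + 1) * (τ + 1) ≤ j.1 * (τ + 1) := Nat.mul_le_mul_right _ hij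
      rw [Nat.add_mul, Nat.one_mul] at h1
      exact ⟨j.1 * (τ + 1) - i.1 * (τ + 1) - τ, by omega⟩
    obtain ⟨hj1, hj2, hj3, hj4⟩ := hmem j hj
    obtain ⟨hi1, hi2, hi3, hi4⟩ := hmem i hi
    refine ⟨j.1 * (τ + 1), by omega, ?_⟩
    have h1 : f^[j.1 * (τ + 1)] (F j) = p j.2.1 j.2.2 := hfw j 0
    have h2 : f^[j.1 * (τ + 1)] (F i) = f^[τ + m] (p i.2.1 i.2.2) := by rw [hm]; exact hfw i _
    rw [h1, h2]
    have h3 := hp2 i.2.1 i.2.2 m
    have h4 : dist j.2.1 (p j.2.1 j.2.2) ≤ ε := hp1 j.2.1 j.2.2 0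
    have h5 : f^[m] i.2.2 ∈ L := image_iter hL m (hB1 _ hi4)
    have h6 := hKL j.2.1 (hA1 _ hj3) _ h5
    have h7 := dist_triangle4 j.2.1 (p j.2.1 j.2.2) (f^[τ + m] (p i.2.1 i.2.2)) (f^[m] i.2.2)
    rw [dist_comm (f^[τ + m] (p i.2.1 i.2.2)) (f^[m] i.2.2)] at h7
    rw [dist_comm]
    linarith
  refine card_le_sN hε I F (fun _ _ => mem_univ _) fun i hi j hj hij => ?_
  rcases lt_trichotomy i.1 j.1 with h | h | h
  · exact hlt i hi j hj h
  · obtain ⟨hi1, hi2, hi3, hi4⟩ := hmem i hi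
    obtain ⟨hj1, hj2, hj3, hj4⟩ := hmem j hj
    by_cases hy : i.2.1 = j.2.1
    · have hu : i.2.2 ≠ j.2.2 := fun hu => hij (Sigma.ext h (heq_of_eq (Prod.ext hy hu)))
      rw [← h] at hj4
      obtain ⟨t, ht, h1⟩ := hB2 _ _ hi4 _ hj4 hu
      refine ⟨i.1 * (τ + 1) + (τ + t), by omega, ?_⟩
      rw [hfw i]
      have e : f^[i.1 * (τ + 1) + (τ + t)] (F j) = f^[τ + t] (p j.2.1 j.2.2) := by
        rw [h]
        exact hfw j _
      rw [e]
      have h2 := hp2 i.2.1 i.2.2 t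
      have h3 := hp2 j.2.1 j.2.2 t
      have h4 := dist_triangle4 (f^[t] i.2.2) (f^[τ + t] (p i.2.1 i.2.2))
        (f^[τ + t] (p j.2.1 j.2.2)) (f^[t] j.2.2)
      rw [dist_comm (f^[τ + t] (p j.2.1 j.2.2))] at h4
      linarith
    · rw [← h] at hj3
      obtain ⟨t, ht, h1⟩ := hA2 _ _ hi3 _ hj3 hy
      refine ⟨i.1 * (τ + 1) - t, by omega, ?_⟩
      rw [hbw i t ht]
      have e : f^[i.1 * (τ + 1) - t] (F j) = f.symm^[t] (p j.2.1 j.2.2) := by
        rw [h]
        exact hbw j t (by rw [← h]; exact ht)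
      rw [e]
      have h2 := hp1 i.2.1 i.2.2 t
      have h3 := hp1 j.2.1 j.2.2 t
      have h4 := dist_triangle4 (f.symm^[t] i.2.1) (f.symm^[t] (p i.2.1 i.2.2))
        (f.symm^[t] (p j.2.1 j.2.2)) (f.symm^[t] j.2.1)
      rw [dist_comm (f.symm^[t] (p j.2.1 j.2.2))] at h4
      linarith
  · obtain ⟨t, ht, h1⟩ := hlt j hj i hi h
    exact ⟨t, ht, by rwa [dist_comm]⟩

/-- a transitive system has no two disjoint closed invariant sets of full entropy -/
lemma no_disjoint [ConnectedSpace X] {f : X ≃ₜ X} {e : ℝ} (hE : Ex f e) (hS : Shad f) (hT : TT f)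
    {K L : Set X} (hK : IsClosed K) (hL : IsClosed L) (hKi : f '' K = K) (hLi : f '' L = L)
    (hd : Disjoint K L) (hKe : Dynamics.coverEntropy f K = Dynamics.coverEntropy f univ)
    (hLe : Dynamics.coverEntropy f L = Dynamics.coverEntropy f univ) : False := by
  classical
  have he := hE.pos
  have h0 := Dynamics.coverEntropy_nonneg (F := univ) f (univ_nonempty (α := X))
  have hne : ∀ K : Set X, Dynamics.coverEntropy f K = Dynamics.coverEntropy f univ →
      K.Nonempty := by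
    intro K hK
    rw [Set.nonempty_iff_ne_empty]
    rintro rfl
    rw [Dynamics.coverEntropy_empty] at hK
    rw [← hK] at h0
    exact absurd h0 (not_le.2 (by decide))
  set h : ℝ := (Dynamics.coverEntropy f univ).toReal with hh
  have htop := ent_lt_top hE
  rw [← hh] at htop
  obtain ⟨r, hr, hrd⟩ := hd.exists_thickenings hK.isCompact hL
  have hKL : ∀ x ∈ K, ∀ y ∈ L, r ≤ dist x y := by
    intro x hx y hy
    by_contra hc
    push Not at hc
    exact Set.disjoint_left.1 hrd (Metric.self_subset_thickening hr _ hx)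
      (Metric.mem_thickening_iff.2 ⟨y, hy, hc⟩)
  set w : ℝ := e / 4 with hw
  have hw0 : 0 < w := by rw [hw]; linarith
  set ε : ℝ := min (w / 4) (r / 4) with hε
  have hε0 : 0 < ε := lt_min (by linarith) (by linarith)
  have hε1 : 4 * ε ≤ w := by have := min_le_left (w / 4) (r / 4); linarith
  have hε2 : 4 * ε ≤ r := by have := min_le_right (w / 4) (r / 4); linarith
  obtain ⟨δ, hδ, hsh⟩ := hS ε hε0
  obtain ⟨τ, hτ⟩ := exists_mx hT hδ
  have hM := hτ τ le_rfl
  obtain ⟨C, hC0, hC⟩ := upper hE hS hT hε0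
  rw [← hh] at hC
  have hKlow : ∀ ℓ : ℕ, Real.exp (h * (ℓ + 1)) ≤ sN f.symm K w ℓ := by
    intro ℓ
    rw [sN_symmK hKi hw0]
    refine inv_low hE (fun x hx => ?_) (hne K hKe) (le_of_eq (htop.symm.trans hKe.symm)) ℓ
    rw [← hKi]
    exact ⟨x, hx, rfl⟩
  have hLlow : ∀ ℓ : ℕ, Real.exp (h * (ℓ + 1)) ≤ sN f L w ℓ := by
    intro ℓ
    refine inv_low hE (fun x hx => ?_) (hne L hLe) (le_of_eq (htop.symm.trans hLe.symm)) ℓ
    rw [← hLi]
    exact ⟨x, hx, rfl⟩
  have key : ∀ J : ℕ, ((J : ℝ) + 1) * Real.exp (2 * h) ≤ C * Real.exp (h * τ) := by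
    intro J
    have h1 := cross_sum hδ.le hsh hM (K := K) hLi hw0 hε0 hε1 hε2 hKL J
    have h2 : (∑ j ∈ Finset.range (J + 1), (sN f.symm K w (j * (τ + 1)) : ℝ) *
        sN f L w (J * (τ + 1) - j * (τ + 1))) ≤ sN f univ ε (J * (τ + 1) + τ) := by
      exact_mod_cast h1
    have h3 : ∀ j ∈ Finset.range (J + 1), Real.exp (h * (J * (τ + 1) : ℕ)) * Real.exp (2 * h) ≤
        (sN f.symm K w (j * (τ + 1)) : ℝ) * sN f L w (J * (τ + 1) - j * (τ + 1)) := by
      intro j hj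
      have h4 := hKlow (j * (τ + 1))
      have h5 := hLlow (J * (τ + 1) - j * (τ + 1))
      refine le_trans (le_of_eq ?_) (mul_le_mul h4 h5 (Real.exp_pos _).le (Nat.cast_nonneg _))
      rw [← Real.exp_add, ← Real.exp_add]
      congr 1
      have h6 : j * (τ + 1) ≤ J * (τ + 1) :=
        Nat.mul_le_mul_right _ (by have := Finset.mem_range.1 hj; omega)
      rw [Nat.cast_sub h6]
      ring
    have h4 := Finset.sum_le_sum h3
    rw [Finset.sum_const, Finset.card_range, nsmul_eq_mul] at h4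
    have h5 := (h4.trans h2).trans (hC _)
    have h6 : Real.exp (h * ((J * (τ + 1) + τ : ℕ) : ℝ)) =
        Real.exp (h * (J * (τ + 1) : ℕ)) * Real.exp (h * τ) := by
      rw [← Real.exp_add]
      congr 1
      push_cast
      ring
    rw [h6] at h5
    have h7 := Real.exp_pos (h * (J * (τ + 1) : ℕ))
    have h8 : Real.exp (h * (J * (τ + 1) : ℕ)) * (((J : ℝ) + 1) * Real.exp (2 * h)) ≤
        Real.exp (h * (J * (τ + 1) : ℕ)) * (C * Real.exp (h * τ)) := by
      push_cast at h5 ⊢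
      linarith
    exact le_of_mul_le_mul_left h8 h7
  obtain ⟨J, hJ⟩ := exists_nat_gt (C * Real.exp (h * τ) / Real.exp (2 * h))
  rw [div_lt_iff₀ (Real.exp_pos _)] at hJ
  have h1 := key J
  have h2 := Real.exp_pos (2 * h)
  linarith

/-- all nonempty open sets have full entropy in both directions of time -/
def FullOpen (f : X ≃ₜ X) : Prop := ∀ U : Set X, IsOpen U → U.Nonempty →
  Dynamics.coverEntropy f U = Dynamics.coverEntropy f univ ∧
    Dynamics.coverEntropy f.symm U = Dynamics.coverEntropy f univ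

lemma not_tt {f : X ≃ₜ X}
    (hNW : (∀ U : Set X, IsOpen U → U.Nonempty → ∃ m : ℕ, 1 ≤ m ∧ (f^[m] '' U ∩ U).Nonempty) →
      TT f) (h : ¬ TT f) :
    ∃ (z : X) (r : ℝ), 0 < r ∧
      ∀ m : ℕ, 1 ≤ m → ∀ x ∈ Metric.ball z r, f^[m] x ∉ Metric.ball z r := by
  have h1 : ¬ ∀ U : Set X, IsOpen U → U.Nonempty → ∃ m : ℕ, 1 ≤ m ∧ (f^[m] '' U ∩ U).Nonempty :=
    fun h2 => h (hNW h2)
  push Not at h1
  obtain ⟨U, hU, ⟨z, hz⟩, hUm⟩ := h1
  obtain ⟨r, hr, hrU⟩ := Metric.isOpen_iff.1 hU z hz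
  refine ⟨z, r, hr, fun m hm x hx hx' => ?_⟩
  have h2 : f^[m] x ∈ f^[m] '' U ∩ U := ⟨⟨x, hrU hx, rfl⟩, hrU hx'⟩
  rw [hUm m hm] at h2
  exact h2

lemma low2 [ConnectedSpace X] {f : X ≃ₜ X} {e : ℝ} (hE : Ex f e) (hS : Shad f) (hT : TT f)
    {w : ℝ} (hw : 0 < w) (hwe : w < e) {U : Set X} (hU : IsOpen U) (hUn : U.Nonempty) :
    ∃ C : ℕ, ∀ n, sN f univ w n ≤ C * sN f U w n ∧ sN f univ w n ≤ C * sN f.symm U w n := by
  obtain ⟨C1, h1⟩ := mix_low hE hS hT hw hwe hU hUn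
  obtain ⟨C2, h2⟩ := mix_low (ex_symm hE) (shad_symm hS) (tt_symm hT) hw hwe hU hUn
  refine ⟨max C1 C2, fun n => ⟨?_, ?_⟩⟩
  · exact (h1 n).trans (Nat.mul_le_mul_right _ (le_max_left _ _))
  · have := h2 n
    rw [sN_symm f hw] at this
    exact this.trans (Nat.mul_le_mul_right _ (le_max_right _ _))

lemma full_of_tt [ConnectedSpace X] {f : X ≃ₜ X} {e : ℝ} (hE : Ex f e) (hS : Shad f)
    (hT : TT f) : FullOpen f := by
  have he := hE.pos
  intro U hU hUn
  obtain ⟨C, hC⟩ := low2 hE hS hT (half_pos he) (half_lt_self he) hU hUn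
  refine ⟨le_antisymm (Dynamics.coverEntropy_monotone f (subset_univ U))
    (ent_le hE (half_pos he) (half_le_self he.le) fun n => (hC n).1), ?_⟩
  rw [← ent_symm hE]
  refine le_antisymm (Dynamics.coverEntropy_monotone f.symm (subset_univ U))
    (ent_le (ex_symm hE) (half_pos he) (half_le_self he.le) (C := C) fun n => ?_)
  rw [sN_symm f (half_pos he)]
  exact (hC n).2

theorem tfae [ConnectedSpace X] {f : X ≃ₜ X} {e : ℝ} (hE : Ex f e) (hS : Shad f)
    (hNW : (∀ U : Set X, IsOpen U → U.Nonempty → ∃ m : ℕ, 1 ≤ m ∧ (f^[m] '' U ∩ U).Nonempty) →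
      TT f) {w : ℝ} (hw : 0 < w) (hwe : w < e) :
    List.TFAE [TT f,
      ∀ U : Set X, IsOpen U → U.Nonempty → ∃ c : ℝ, 0 < c ∧ ∀ n : ℕ,
        c * sN f univ w n ≤ sN f U w n ∧ c * sN f univ w n ≤ sN f.symm U w n,
      ∀ U : Set X, IsOpen U → U.Nonempty → ∃ a b c : ℝ, 0 ≤ a ∧ 0 ≤ b ∧ a + b < 1 ∧ 0 < c ∧
        ∀ n : ℕ, c * ((n : ℝ) + 1) ^ (-a) * sN f univ w n ≤ sN f U w n ∧
          c * ((n : ℝ) + 1) ^ (-b) * sN f univ w n ≤ sN f.symm U w n,
      ∀ U : Set X, IsOpen U → U.Nonempty → ∀ B : ℝ, ∃ n : ℕ, B * sN f univ w n <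
        ∑ k ∈ Finset.range (n + 1), (sN f.symm U w k : ℝ) * sN f U w (n - k),
      FullOpen f ∧ ∀ η : ℝ, 0 < η → ∃ᶠ n : ℕ in atTop, (sN f univ w n : ℝ) ≤
        η * n * Real.exp ((Dynamics.coverEntropy f univ).toReal * n),
      FullOpen f ∧ ¬ ∃ K L : Set X, IsClosed K ∧ IsClosed L ∧ f '' K = K ∧ f '' L = L ∧
        Disjoint K L ∧ Dynamics.coverEntropy f K = Dynamics.coverEntropy f univ ∧
          Dynamics.coverEntropy f L = Dynamics.coverEntropy f univ] := by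
  classical
  have he := hE.pos
  have hpos : ∀ n, (1 : ℝ) ≤ sN f univ w n := fun n => by
    exact_mod_cast sN_pos f univ_nonempty hw n
  set h : ℝ := (Dynamics.coverEntropy f univ).toReal with hh
  have htop := ent_lt_top hE
  rw [← hh] at htop
  tfae_have 1 → 2 := by
    intro hT U hU hUn
    obtain ⟨C, hC⟩ := low2 hE hS hT hw hwe hU hUn
    refine ⟨1 / ((C : ℝ) + 1), by positivity, fun n => ?_⟩
    rw [one_div_mul_eq_div, div_le_iff₀ (by positivity), div_le_iff₀ (by positivity)]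
    have h1 : (sN f univ w n : ℝ) ≤ C * sN f U w n := by exact_mod_cast (hC n).1
    have h2 : (sN f univ w n : ℝ) ≤ C * sN f.symm U w n := by exact_mod_cast (hC n).2
    have h3 : (0 : ℝ) ≤ sN f U w n := Nat.cast_nonneg _
    have h4 : (0 : ℝ) ≤ sN f.symm U w n := Nat.cast_nonneg _
    constructor <;> linarith
  tfae_have 2 → 3 := by
    intro h2 U hU hUn
    obtain ⟨c, hc, h3⟩ := h2 U hU hUn
    refine ⟨0, 0, c, le_rfl, le_rfl, by norm_num, hc, fun n => ?_⟩
    rw [neg_zero, Real.rpow_zero, mul_one]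
    exact h3 n
  tfae_have 3 → 4 := by
    intro h3 U hU hUn B
    obtain ⟨a, b, c, ha, hb, hab, hc, h4⟩ := h3 U hU hUn
    obtain ⟨C, hC⟩ := sN_sub hE hw hwe.le
    have hC0 : (0 : ℝ) < (C : ℝ) + 1 := by positivity
    have hlim : Tendsto (fun n : ℕ => c ^ 2 / (C + 1) * ((n : ℝ) + 1) ^ (1 - (a + b))) atTop
        atTop := by
      refine Tendsto.const_mul_atTop (by positivity) ?_
      exact (tendsto_rpow_atTop (by linarith)).comp
        (tendsto_atTop_add_const_right _ _ tendsto_natCast_atTop_atTop)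
    obtain ⟨n, hn⟩ := (hlim.eventually_gt_atTop B).exists
    refine ⟨n, lt_of_lt_of_le (mul_lt_mul_of_pos_right hn (by linarith [hpos n])) ?_⟩
    have hn0 : (0 : ℝ) < (n : ℝ) + 1 := by positivity
    have hterm : ∀ k ∈ Finset.range (n + 1), c ^ 2 / (C + 1) * ((n : ℝ) + 1) ^ (-(a + b)) *
        sN f univ w n ≤ (sN f.symm U w k : ℝ) * sN f U w (n - k) := by
      intro k hk
      have hkn : k ≤ n := by have := Finset.mem_range.1 hk; omega
      have h5 := (h4 k).2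
      have h6 := (h4 (n - k)).1
      have h7 : ((n : ℝ) + 1) ^ (-b) ≤ ((k : ℝ) + 1) ^ (-b) := by
        refine Real.rpow_le_rpow_of_nonpos (by positivity) ?_ (by linarith)
        have : (k : ℝ) ≤ n := by exact_mod_cast hkn
        linarith
      have h8 : ((n : ℝ) + 1) ^ (-a) ≤ (((n - k : ℕ) : ℝ) + 1) ^ (-a) := by
        refine Real.rpow_le_rpow_of_nonpos (by positivity) ?_ (by linarith)
        have : ((n - k : ℕ) : ℝ) ≤ n := by exact_mod_cast Nat.sub_le n k
        linarith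
      have h9 : (sN f univ w n : ℝ) ≤ (C + 1) * (sN f univ w k * sN f univ w (n - k)) := by
        have h10 := hC k (n - k)
        rw [Nat.add_sub_cancel' hkn] at h10
        have h11 : (sN f univ w n : ℝ) ≤ C * (sN f univ w k * sN f univ w (n - k)) := by
          exact_mod_cast h10
        have h12 : (0 : ℝ) ≤ sN f univ w k * sN f univ w (n - k) := by positivity
        linarith
      have e1 : ((n : ℝ) + 1) ^ (-(a + b)) = ((n : ℝ) + 1) ^ (-b) * ((n : ℝ) + 1) ^ (-a) := by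
        rw [← Real.rpow_add hn0]
        congr 1
        ring
      calc c ^ 2 / (C + 1) * ((n : ℝ) + 1) ^ (-(a + b)) * sN f univ w n ≤
          c ^ 2 / (C + 1) * ((n : ℝ) + 1) ^ (-(a + b)) *
            ((C + 1) * (sN f univ w k * sN f univ w (n - k))) :=
            mul_le_mul_of_nonneg_left h9 (by positivity)
        _ = (c * ((n : ℝ) + 1) ^ (-b) * sN f univ w k) *
            (c * ((n : ℝ) + 1) ^ (-a) * sN f univ w (n - k)) := by
            rw [e1]
            field_simp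
        _ ≤ (c * ((k : ℝ) + 1) ^ (-b) * sN f univ w k) *
            (c * (((n - k : ℕ) : ℝ) + 1) ^ (-a) * sN f univ w (n - k)) := by
            gcongr
        _ ≤ _ := mul_le_mul h5 h6 (by positivity) (Nat.cast_nonneg _)
    have h5 := Finset.sum_le_sum hterm
    rw [Finset.sum_const, Finset.card_range, nsmul_eq_mul] at h5
    refine le_trans (le_of_eq ?_) h5
    have e2 : ((n : ℝ) + 1) ^ (1 - (a + b)) = ((n : ℝ) + 1) * ((n : ℝ) + 1) ^ (-(a + b)) := by
      rw [sub_eq_add_neg, Real.rpow_add hn0, Real.rpow_one]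
    rw [e2]
    push_cast
    ring
  tfae_have 4 → 1 := by
    intro h4
    by_contra hT
    obtain ⟨z, r, hr, hwd⟩ := not_tt hNW hT
    obtain ⟨ρ, v, hρ, hv, hsum⟩ := wander_sum hS hr hwd hw
    obtain ⟨C, hC⟩ := sN_scaleU hE hv hw hwe.le
    obtain ⟨n, hn⟩ := h4 (Metric.ball z ρ) Metric.isOpen_ball ⟨z, Metric.mem_ball_self hρ⟩ C
    have h5 := (hsum n).trans (hC univ n)
    have h6 : (∑ k ∈ Finset.range (n + 1), (sN f.symm (Metric.ball z ρ) w k : ℝ) *
        sN f (Metric.ball z ρ) w (n - k)) ≤ C * sN f univ w n := by exact_mod_cast h5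
    linarith
  tfae_have 1 → 5 := by
    intro hT
    refine ⟨full_of_tt hE hS hT, fun η hη => Eventually.frequently ?_⟩
    obtain ⟨C, hC0, hC⟩ := upper hE hS hT hw
    obtain ⟨N, hN⟩ := exists_nat_ge (C / η)
    filter_upwards [eventually_ge_atTop N] with n hn
    refine (hC n).trans ?_
    rw [← hh]
    refine mul_le_mul_of_nonneg_right ?_ (Real.exp_pos _).le
    have h1 : (N : ℝ) ≤ n := by exact_mod_cast hn
    have h2 := hN.trans h1
    rw [div_le_iff₀ hη] at h2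
    linarith
  tfae_have 5 → 1 := by
    rintro ⟨hfull, hgr⟩
    by_contra hT
    obtain ⟨z, r, hr, hwd⟩ := not_tt hNW hT
    obtain ⟨ρ, v, hρ, hv, hsum⟩ := wander_sum hS hr hwd hw
    obtain ⟨C, hC⟩ := sN_scaleU hE hv hw hwe.le
    obtain ⟨c1, hc1, h1⟩ := open_low (h := h) hE hS (fun U hU hUn => by
      rw [(hfull U hU hUn).1, ← htop]) hw hwe.le (Metric.isOpen_ball (x := z) (ε := ρ))
      ⟨z, Metric.mem_ball_self hρ⟩
    obtain ⟨c2, hc2, h2⟩ := open_low (h := h) (ex_symm hE) (shad_symm hS) (fun U hU hUn => by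
      rw [(hfull U hU hUn).2, ← htop]) hw hwe.le (Metric.isOpen_ball (x := z) (ε := ρ))
      ⟨z, Metric.mem_ball_self hρ⟩
    have hη : 0 < c1 * c2 / (C + 1) := by positivity
    obtain ⟨n, hn⟩ := (hgr _ hη).exists
    have h5 := (hsum n).trans (hC univ n)
    have h6 : (∑ k ∈ Finset.range (n + 1), (sN f.symm (Metric.ball z ρ) w k : ℝ) *
        sN f (Metric.ball z ρ) w (n - k)) ≤ C * sN f univ w n := by exact_mod_cast h5
    have h7 : ∀ k ∈ Finset.range (n + 1), c1 * c2 * Real.exp (h * n) ≤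
        (sN f.symm (Metric.ball z ρ) w k : ℝ) * sN f (Metric.ball z ρ) w (n - k) := by
      intro k hk
      have hkn : k ≤ n := by have := Finset.mem_range.1 hk; omega
      refine le_trans (le_of_eq ?_) (mul_le_mul (h2 k) (h1 (n - k)) (by positivity)
        (Nat.cast_nonneg _))
      have e1 : Real.exp (h * n) = Real.exp (h * k) * Real.exp (h * (n - k : ℕ)) := by
        rw [← Real.exp_add, Nat.cast_sub hkn]
        congr 1
        ring
      rw [e1]
      ring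
    have h8 := Finset.sum_le_sum h7
    rw [Finset.sum_const, Finset.card_range, nsmul_eq_mul] at h8
    have h9 := h8.trans h6
    have h10 : (C : ℝ) * sN f univ w n ≤ (C + 1) * (c1 * c2 / (C + 1) * n * Real.exp (h * n)) := by
      refine mul_le_mul (by linarith) hn (Nat.cast_nonneg _) (by positivity)
    have h11 : ((C : ℝ) + 1) * (c1 * c2 / (C + 1) * n * Real.exp (h * n)) =
        n * (c1 * c2 * Real.exp (h * n)) := by
      field_simp
    rw [h11] at h10
    have h12 : 0 < c1 * c2 * Real.exp (h * n) := by positivity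
    push_cast at h9
    nlinarith
  tfae_have 1 → 6 := by
    intro hT
    refine ⟨full_of_tt hE hS hT, ?_⟩
    rintro ⟨K, L, hK, hL, hKi, hLi, hd, hKe, hLe⟩
    exact no_disjoint hE hS hT hK hL hKi hLi hd hKe hLe
  tfae_have 6 → 1 := by
    rintro ⟨hfull, hno⟩
    by_contra hT
    obtain ⟨z, r, hr, hwd⟩ := not_tt hNW hT
    have hbn : (Metric.ball z (r / 2)).Nonempty := ⟨z, Metric.mem_ball_self (half_pos hr)⟩
    have hLi : f '' KK f.symm (Metric.ball z (r / 2)) = KK f.symm (Metric.ball z (r / 2)) := by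
      have := image_symm' (KK_inv f.symm (Metric.ball z (r / 2)))
      rwa [Homeomorph.symm_symm] at this
    refine hno ⟨KK f (Metric.ball z (r / 2)), KK f.symm (Metric.ball z (r / 2)), KK_closed _ _,
      KK_closed _ _, KK_inv _ _, hLi, KK_disjoint hS hr hwd, ?_, ?_⟩
    · refine le_antisymm (Dynamics.coverEntropy_monotone f (subset_univ _)) ?_
      rw [htop]
      refine KK_ent hE hbn ?_
      rw [(hfull _ Metric.isOpen_ball hbn).1, htop]
    · refine le_antisymm (Dynamics.coverEntropy_monotone f (subset_univ _)) ?_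
      rw [htop, ← ent_symmK hE hLi]
      refine KK_ent (ex_symm hE) hbn ?_
      rw [(hfull _ Metric.isOpen_ball hbn).2, htop]
  tfae_finish

end Q70.AnG
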