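import Pool.Agent.Q70.AnE
import Pool.Agent.Q182.AmAnosov
import Pool.Agent.Y331.EP.Man

/-! # Criteria for transitivity of Anosov diffeomorphisms -/

set_option autoImplicit false
set_option linter.unusedSectionVars false

open Filter Topology Set
open scoped Manifold ContDiff

namespace Q70.AnG

open Pool.Agent.H721R2 Pool.Agent.H789R2.AN Pool.Agent.TH289 Pool.Agent.TH289.K
open Pool.Agent.TH289.L Pool.Agent.Y331.EP

variable {E : Type*} [NormedAddCommGroup E] [NormedSpace ℝ E] [FiniteDimensional ℝ E]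

universe u

variable {M : Type u} [MetricSpace M] [CompactSpace M] [ConnectedSpace M]
    [ChartedSpace E M] [IsManifold 𝓘(ℝ, E) ∞ M]

theorem man_tfae (f : Diffeomorph 𝓘(ℝ, E) 𝓘(ℝ, E) M M 1)
    (Es Eu : ∀ x : M, Submodule ℝ (TangentSpace 𝓘(ℝ, E) x)) (hA : IsAnosov f Es Eu) :
    ∃ ε₀ : ℝ, 0 < ε₀ ∧ ∀ ε : ℝ, 0 < ε → ε < ε₀ → List.TFAE [TopTransitive f,
      ∀ U : Set M, IsOpen U → U.Nonempty → ∃ c : ℝ, 0 < c ∧ ∀ n : ℕ,
        c * sN f.toHomeomorph univ ε n ≤ sN f.toHomeomorph U ε n ∧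
          c * sN f.toHomeomorph univ ε n ≤ sN f.toHomeomorph.symm U ε n,
      ∀ U : Set M, IsOpen U → U.Nonempty → ∃ a b c : ℝ, 0 ≤ a ∧ 0 ≤ b ∧ a + b < 1 ∧ 0 < c ∧
        ∀ n : ℕ, c * ((n : ℝ) + 1) ^ (-a) * sN f.toHomeomorph univ ε n ≤
            sN f.toHomeomorph U ε n ∧
          c * ((n : ℝ) + 1) ^ (-b) * sN f.toHomeomorph univ ε n ≤
            sN f.toHomeomorph.symm U ε n,
      ∀ U : Set M, IsOpen U → U.Nonempty → ∀ B : ℝ, ∃ n : ℕ, B * sN f.toHomeomorph univ ε n <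
        ∑ k ∈ Finset.range (n + 1),
          (sN f.toHomeomorph.symm U ε k : ℝ) * sN f.toHomeomorph U ε (n - k),
      FullOpen f.toHomeomorph ∧ ∀ η : ℝ, 0 < η → ∃ᶠ n : ℕ in atTop,
        (sN f.toHomeomorph univ ε n : ℝ) ≤
          η * n * Real.exp ((Dynamics.coverEntropy f.toHomeomorph univ).toReal * n),
      FullOpen f.toHomeomorph ∧ ¬ ∃ K L : Set M, IsClosed K ∧ IsClosed L ∧
        f.toHomeomorph '' K = K ∧ f.toHomeomorph '' L = L ∧ Disjoint K L ∧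
        Dynamics.coverEntropy f.toHomeomorph K = Dynamics.coverEntropy f.toHomeomorph univ ∧
        Dynamics.coverEntropy f.toHomeomorph L = Dynamics.coverEntropy f.toHomeomorph univ] := by
  obtain ⟨e, hE⟩ := ex_of_expansive (expansive_of_anosov f Es Eu hA)
  exact ⟨e, hE.pos, fun ε h1 h2 => tfae hE (man_shad f Es Eu hA)
    (fun h => Q182.AmAnosov.man_nw f Es Eu hA h) h1 h2⟩

end Q70.AnG
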