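import Mathlib

/-! # Legendre polynomials: integration by parts, size in the complex plane, orthogonality -/

set_option autoImplicit false

namespace Pool.Agent.Q70.BeA

open Polynomial Set MeasureTheory intervalIntegral Metric

/-- `(X² - 1)ⁿ` -/
noncomputable def W (n : ℕ) : ℂ[X] := (X ^ 2 - 1) ^ n

/-- the Legendre polynomial -/
noncomputable def Lg (n : ℕ) : ℂ[X] :=
  C ((1 : ℂ) / (2 ^ n * n.factorial)) * derivative^[n] (W n)

theorem W_vanish {n m : ℕ} (hm : m < n) {c : ℂ} (hc : c ^ 2 = 1) :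
    (derivative^[m] (W n)).eval c = 0 := by
  have h1 : (X - C c) ^ n ∣ W n := by
    unfold W
    refine pow_dvd_pow_of_dvd ⟨X + C c, ?_⟩ n
    have : (C c : ℂ[X]) ^ 2 = 1 := by rw [← C_pow, hc, C_1]
    linear_combination this
  have h2 := pow_sub_dvd_iterate_derivative_of_pow_dvd m h1
  have h3 : (X - C c) ∣ derivative^[m] (W n) :=
    (dvd_pow_self _ (by omega)).trans h2
  rwa [dvd_iff_isRoot] at h3

theorem W_eval (n : ℕ) (z : ℂ) : (W n).eval z = (z ^ 2 - 1) ^ n := by
  unfold W
  simp

/-- one integration by parts -/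
theorem rod_step {n m : ℕ} (hm : m < n) {g : ℂ → ℂ}
    (hg : ∀ u : ℝ, u ∈ Icc (-1 : ℝ) 1 → AnalyticAt ℂ g u) :
    ∫ u in (-1 : ℝ)..1, (derivative^[m + 1] (W n)).eval (u : ℂ) * g u =
      -∫ u in (-1 : ℝ)..1, (derivative^[m] (W n)).eval (u : ℂ) * deriv g u := by
  have hu : uIcc (-1 : ℝ) 1 = Icc (-1) 1 := uIcc_of_le (by norm_num)
  have h1 := integral_deriv_mul_eq_sub (a := (-1 : ℝ)) (b := 1)
    (u := fun u : ℝ => (derivative^[m] (W n)).eval (u : ℂ))
    (u' := fun u : ℝ => (derivative^[m + 1] (W n)).eval (u : ℂ))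
    (v := fun u : ℝ => g u) (v' := fun u : ℝ => deriv g u) ?_ ?_ ?_ ?_
  · have e1 : (derivative^[m] (W n)).eval ((1 : ℝ) : ℂ) = 0 := W_vanish hm (by simp)
    have e2 : (derivative^[m] (W n)).eval ((-1 : ℝ) : ℂ) = 0 := W_vanish hm (by simp)
    simp only [e1, e2, zero_mul, sub_zero] at h1
    rw [intervalIntegral.integral_add] at h1
    · exact eq_neg_of_add_eq_zero_left h1
    · refine ContinuousOn.intervalIntegrable ?_
      rw [hu]
      intro u hu'
      have c1 : Continuous fun u : ℝ => (derivative^[m + 1] (W n)).eval (u : ℂ) := by fun_prop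
      have c2 : ContinuousAt (fun u : ℝ => g u) u :=
        ContinuousAt.comp (g := g) (f := fun u : ℝ => (u : ℂ)) (hg u hu').continuousAt
          (by fun_prop)
      exact (c1.continuousAt.mul c2).continuousWithinAt
    · refine ContinuousOn.intervalIntegrable ?_
      rw [hu]
      intro u hu'
      have c1 : Continuous fun u : ℝ => (derivative^[m] (W n)).eval (u : ℂ) := by fun_prop
      have c2 : ContinuousAt (fun u : ℝ => deriv g u) u :=
        ContinuousAt.comp (g := deriv g) (f := fun u : ℝ => (u : ℂ)) (hg u hu').deriv.continuousAt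
          (by fun_prop)
      exact (c1.continuousAt.mul c2).continuousWithinAt
  · intro u _
    have := (Polynomial.hasDerivAt (derivative^[m] (W n)) (u : ℂ)).comp_ofReal
    rwa [Function.iterate_succ_apply']
  · intro u hu'
    rw [hu] at hu'
    exact (hg u hu').differentiableAt.hasDerivAt.comp_ofReal
  · refine Continuous.intervalIntegrable ?_ _ _
    fun_prop
  · refine ContinuousOn.intervalIntegrable ?_
    rw [hu]
    intro u hu'
    exact (ContinuousAt.comp (g := deriv g) (f := fun u : ℝ => (u : ℂ))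
      (hg u hu').deriv.continuousAt (by fun_prop)).continuousWithinAt

theorem iteratedDeriv_analytic {g : ℂ → ℂ} {z : ℂ} (hg : AnalyticAt ℂ g z) (k : ℕ) :
    AnalyticAt ℂ (iteratedDeriv k g) z := by
  induction k with
  | zero => simpa using hg
  | succ k ih =>
    rw [iteratedDeriv_succ]
    exact ih.deriv

theorem rod_iter (n : ℕ) {g : ℂ → ℂ} (hg : ∀ u : ℝ, u ∈ Icc (-1 : ℝ) 1 → AnalyticAt ℂ g u) :
    ∀ k : ℕ, k ≤ n → ∫ u in (-1 : ℝ)..1, (derivative^[n] (W n)).eval (u : ℂ) * g u =
      (-1) ^ k * ∫ u in (-1 : ℝ)..1,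
        (derivative^[n - k] (W n)).eval (u : ℂ) * iteratedDeriv k g u := by
  intro k
  induction k with
  | zero => intro _; simp
  | succ k ih =>
    intro hk
    rw [ih (by omega)]
    have e : n - k = (n - (k + 1)) + 1 := by omega
    rw [e, rod_step (by omega) fun u hu => iteratedDeriv_analytic (hg u hu) k, iteratedDeriv_succ]
    ring

/-- **Rodrigues' formula** against an analytic function -/
theorem rod (n : ℕ) {g : ℂ → ℂ} (hg : ∀ u : ℝ, u ∈ Icc (-1 : ℝ) 1 → AnalyticAt ℂ g u) :
    ∫ u in (-1 : ℝ)..1, (Lg n).eval (u : ℂ) * g u =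
      1 / (2 ^ n * n.factorial) *
        ∫ u in (-1 : ℝ)..1, (1 - (u : ℂ) ^ 2) ^ n * iteratedDeriv n g u := by
  have h1 := rod_iter n hg n le_rfl
  have h2 : ∀ u : ℝ, (Lg n).eval (u : ℂ) * g u =
      1 / (2 ^ n * n.factorial) * ((derivative^[n] (W n)).eval (u : ℂ) * g u) := by
    intro u
    unfold Lg
    rw [eval_mul, eval_C]
    ring
  simp_rw [h2]
  rw [intervalIntegral.integral_const_mul, h1, Nat.sub_self, ← intervalIntegral.integral_const_mul]
  congr 1
  refine intervalIntegral.integral_congr fun u _ => ?_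
  simp only [Function.iterate_zero, id]
  rw [W_eval, ← mul_assoc, ← mul_pow]
  congr 2
  ring

theorem iteratedDeriv_eval (p : ℂ[X]) (n : ℕ) (z : ℂ) :
    iteratedDeriv n (fun w => p.eval w) z = (derivative^[n] p).eval z := by
  induction n generalizing z with
  | zero => simp
  | succ n ih =>
    rw [iteratedDeriv_succ, Function.iterate_succ_apply']
    have : iteratedDeriv n (fun w => p.eval w) = fun z => (derivative^[n] p).eval z := funext ih
    rw [this, Polynomial.deriv]

/-- size in the complex plane -/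
theorem norm_Lg (n : ℕ) (z : ℂ) : ‖(Lg n).eval z‖ ≤ (‖z‖ + Real.sqrt (1 + ‖z‖ ^ 2)) ^ n := by
  set ρ := Real.sqrt (1 + ‖z‖ ^ 2) with hρ
  have h1 : 0 < 1 + ‖z‖ ^ 2 := by positivity
  have hρ0 : 0 < ρ := Real.sqrt_pos.2 h1
  have hρ2 : ρ ^ 2 = 1 + ‖z‖ ^ 2 := Real.sq_sqrt h1.le
  have h2 := Complex.norm_iteratedDeriv_le_of_forall_mem_sphere_norm_le (c := z) (R := ρ)
    (C := ((‖z‖ + ρ) ^ 2 + 1) ^ n) (f := fun w => (W n).eval w) n hρ0
    (by
      have : Differentiable ℂ fun w => (W n).eval w := (W n).differentiable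
      exact this.diffContOnCl) (fun w hw => by
      rw [W_eval, norm_pow]
      refine pow_le_pow_left₀ (norm_nonneg _) ?_ n
      refine (norm_sub_le _ _).trans ?_
      rw [norm_pow, norm_one]
      have h3 : ‖w‖ ≤ ‖z‖ + ρ := by
        have h4 : ‖w - z‖ = ρ := by rwa [mem_sphere_iff_norm] at hw
        have h5 := norm_add_le z (w - z)
        rw [add_sub_cancel, h4] at h5
        exact h5
      have := pow_le_pow_left₀ (norm_nonneg w) h3 2
      linarith)
  rw [iteratedDeriv_eval] at h2
  unfold Lg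
  rw [eval_mul, eval_C, norm_mul, norm_div, norm_one, norm_mul, norm_pow, Complex.norm_ofNat,
    Complex.norm_natCast]
  have hf : (0 : ℝ) < n.factorial := by exact_mod_cast n.factorial_pos
  calc 1 / (2 ^ n * (n.factorial : ℝ)) * ‖(derivative^[n] (W n)).eval z‖ ≤
      1 / (2 ^ n * (n.factorial : ℝ)) * (n.factorial * ((‖z‖ + ρ) ^ 2 + 1) ^ n / ρ ^ n) := by
        gcongr
    _ = (((‖z‖ + ρ) ^ 2 + 1) / (2 * ρ)) ^ n := by
        rw [div_pow, mul_pow]
        field_simp
    _ = (‖z‖ + ρ) ^ n := by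
        congr 1
        rw [div_eq_iff (by positivity)]
        nlinarith

theorem natDegree_W (n : ℕ) : (W n).natDegree = 2 * n := by
  unfold W
  rw [natDegree_pow]
  have : (X ^ 2 - 1 : ℂ[X]).natDegree = 2 := by compute_degree!
  rw [this, mul_comm]

theorem monic_W (n : ℕ) : (W n).Monic := by
  unfold W
  refine Monic.pow ?_ n
  monicity!

theorem natDegree_Lg_le (n : ℕ) : (Lg n).natDegree ≤ n := by
  unfold Lg
  refine (natDegree_C_mul_le _ _).trans ((natDegree_iterate_derivative _ _).trans ?_)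
  rw [natDegree_W]
  omega

theorem coeff_Lg (n : ℕ) : (Lg n).coeff n =
    1 / (2 ^ n * n.factorial) * ((2 * n).descFactorial n : ℂ) := by
  unfold Lg
  rw [coeff_C_mul, coeff_iterate_derivative]
  have h1 : (W n).coeff (n + n) = 1 := by
    have := monic_W n
    rw [Monic, leadingCoeff, natDegree_W] at this
    rwa [← two_mul]
  rw [h1, ← two_mul]
  simp

theorem coeff_Lg_ne (n : ℕ) : (Lg n).coeff n ≠ 0 := by
  rw [coeff_Lg]
  have h1 : ((2 * n).descFactorial n : ℂ) ≠ 0 := by
    have : (2 * n).descFactorial n ≠ 0 := by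
      rw [Ne, Nat.descFactorial_eq_zero_iff_lt]
      omega
    exact_mod_cast this
  have h2 : (n.factorial : ℂ) ≠ 0 := by exact_mod_cast n.factorial_ne_zero
  exact mul_ne_zero (div_ne_zero one_ne_zero (mul_ne_zero (pow_ne_zero _ two_ne_zero) h2)) h1

/-- orthogonality to polynomials of smaller degree -/
theorem orth {n : ℕ} {p : ℂ[X]} (hp : p.natDegree < n) :
    ∫ u in (-1 : ℝ)..1, (Lg n).eval (u : ℂ) * p.eval (u : ℂ) = 0 := by
  rw [rod n (g := fun z => p.eval z) fun u _ => p.differentiable.analyticAt _]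
  have h1 : ∀ u : ℝ, (1 - (u : ℂ) ^ 2) ^ n * iteratedDeriv n (fun z => p.eval z) (u : ℂ) = 0 := by
    intro u
    rw [iteratedDeriv_eval, iterate_derivative_eq_zero hp]
    simp
  simp_rw [h1]
  simp

/-- the square norm -/
noncomputable def hh (n : ℕ) : ℂ := ∫ u in (-1 : ℝ)..1, (Lg n).eval (u : ℂ) * (Lg n).eval (u : ℂ)

theorem iterate_Lg (n : ℕ) : derivative^[n] (Lg n) =
    C (1 / (2 ^ n * n.factorial) * ((2 * n).factorial : ℂ)) := by
  have h1 : (derivative^[n] (Lg n)).natDegree ≤ 0 := by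
    refine (natDegree_iterate_derivative _ _).trans ?_
    have := natDegree_Lg_le n
    omega
  rw [eq_C_of_natDegree_le_zero h1, coeff_iterate_derivative, zero_add, coeff_Lg]
  congr 1
  have h2 : (n.descFactorial n : ℂ) * ((2 * n).descFactorial n : ℂ) = ((2 * n).factorial : ℂ) := by
    rw [Nat.descFactorial_self]
    have := Nat.factorial_mul_descFactorial (n := 2 * n) (k := n) (by omega)
    have e : 2 * n - n = n := by omega
    rw [e] at this
    exact_mod_cast this
  rw [nsmul_eq_mul, ← h2]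
  ring

theorem hh_eq (n : ℕ) : hh n = (((2 * n).factorial / (2 ^ n * n.factorial) ^ 2 *
    ∫ u in (-1 : ℝ)..1, (1 - u ^ 2) ^ n : ℝ) : ℂ) := by
  unfold hh
  rw [rod n (g := fun z => (Lg n).eval z) fun u _ => (Lg n).differentiable.analyticAt _]
  simp_rw [iteratedDeriv_eval, iterate_Lg, eval_C]
  rw [intervalIntegral.integral_mul_const]
  have h1 : ∫ u in (-1 : ℝ)..1, (1 - (u : ℂ) ^ 2) ^ n =
      ((∫ u in (-1 : ℝ)..1, (1 - u ^ 2) ^ n : ℝ) : ℂ) := by
    rw [← intervalIntegral.integral_ofReal]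
    refine intervalIntegral.integral_congr fun u _ => ?_
    push_cast
    rfl
  rw [h1]
  push_cast
  have h2 : (n.factorial : ℂ) ≠ 0 := by exact_mod_cast n.factorial_ne_zero
  field_simp

theorem int_lower (n : ℕ) : 1 / (n + 1 : ℝ) ≤ ∫ u in (-1 : ℝ)..1, (1 - u ^ 2) ^ n := by
  have h1 : ∫ u in (0 : ℝ)..1, (1 - u) ^ n = 1 / (n + 1 : ℝ) := by
    have := intervalIntegral.integral_comp_sub_left (fun u : ℝ => u ^ n) (a := 0) (b := 1) 1
    rw [this, integral_pow]
    simp
  rw [← h1]
  have hc : Continuous fun u : ℝ => (1 - u ^ 2) ^ n := by fun_prop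
  have hc2 : Continuous fun u : ℝ => (1 - u) ^ n := by fun_prop
  calc ∫ u in (0 : ℝ)..1, (1 - u) ^ n ≤ ∫ u in (0 : ℝ)..1, (1 - u ^ 2) ^ n := by
        refine intervalIntegral.integral_mono_on zero_le_one (hc2.intervalIntegrable _ _)
          (hc.intervalIntegrable _ _) fun u hu => ?_
        refine pow_le_pow_left₀ (by linarith [hu.2]) ?_ n
        nlinarith [hu.1, hu.2]
    _ ≤ ∫ u in (-1 : ℝ)..1, (1 - u ^ 2) ^ n := by
        rw [← intervalIntegral.integral_add_adjacent_intervals (a := -1) (b := 0) (c := 1)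
          (hc.intervalIntegrable _ _) (hc.intervalIntegrable _ _)]
        have : 0 ≤ ∫ u in (-1 : ℝ)..0, (1 - u ^ 2) ^ n := by
          refine intervalIntegral.integral_nonneg (by norm_num) fun u hu => ?_
          refine pow_nonneg ?_ n
          nlinarith [hu.1, hu.2]
        linarith

theorem hh_lower (n : ℕ) : 1 / ((2 * n + 1 : ℝ) ^ 2) ≤ ‖hh n‖ := by
  rw [hh_eq, Complex.norm_real]
  refine le_trans ?_ (le_abs_self _)
  have h1 := int_lower n
  have h2 : (1 : ℝ) / (2 * n + 1) ≤ (2 * n).factorial / (2 ^ n * n.factorial) ^ 2 := by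
    have h3 := Nat.four_pow_le_two_mul_add_one_mul_central_binom n
    have h4 : Nat.centralBinom n * (n.factorial * n.factorial) = (2 * n).factorial := by
      rw [Nat.centralBinom_eq_two_mul_choose, ← mul_assoc]
      have := Nat.choose_mul_factorial_mul_factorial (n := 2 * n) (k := n) (by omega)
      have e : 2 * n - n = n := by omega
      rwa [e] at this
    have h3' : (4 : ℝ) ^ n ≤ (2 * n + 1) * Nat.centralBinom n := by exact_mod_cast h3
    have h4' : ((Nat.centralBinom n : ℕ) : ℝ) * (n.factorial * n.factorial) =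
        ((2 * n).factorial : ℕ) := by exact_mod_cast h4
    have hf : (0 : ℝ) < n.factorial := by exact_mod_cast n.factorial_pos
    rw [div_le_div_iff₀ (by positivity) (by positivity), one_mul, mul_pow, ← pow_mul,
      mul_comm n 2, pow_mul, ← h4']
    norm_num
    nlinarith [mul_pos hf hf]
  have h5 : (1 : ℝ) / (2 * n + 1) ≤ 1 / (n + 1) := by
    apply one_div_le_one_div_of_le (by positivity)
    have : (0 : ℝ) ≤ n := Nat.cast_nonneg n
    linarith
  calc 1 / ((2 * n + 1 : ℝ) ^ 2) = 1 / (2 * n + 1) * (1 / (2 * n + 1)) := by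
        field_simp
    _ ≤ (2 * n).factorial / (2 ^ n * n.factorial) ^ 2 * ∫ u in (-1 : ℝ)..1, (1 - u ^ 2) ^ n :=
        mul_le_mul h2 (h5.trans h1) (by positivity) (by positivity)

theorem hh_ne (n : ℕ) : hh n ≠ 0 := by
  intro h
  have := hh_lower n
  rw [h, norm_zero] at this
  have h2 : (0 : ℝ) < 1 / ((2 * n + 1 : ℝ) ^ 2) := by positivity
  linarith

/-- spanning -/
theorem span_ind {Q : ℂ[X] → Prop} (h0 : Q 0) (hadd : ∀ p q, Q p → Q q → Q (p + q))
    (hL : ∀ (c : ℂ) (n : ℕ), Q (C c * Lg n)) (p : ℂ[X]) : Q p := by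
  have key : ∀ n : ℕ, ∀ p : ℂ[X], p.natDegree < n → Q p := by
    intro n
    induction n with
    | zero => intro p hp; omega
    | succ n ih =>
      intro p hp
      set c : ℂ := p.coeff n / (Lg n).coeff n with hc
      have e : p = (p - C c * Lg n) + C c * Lg n := by ring
      rw [e]
      refine hadd _ _ ?_ (hL c n)
      by_cases hr0 : p - C c * Lg n = 0
      · rw [hr0]; exact h0
      rcases Nat.eq_zero_or_pos n with hn | hn
      · exfalso
        apply hr0
        subst hn
        have d1 : p.natDegree ≤ 0 := by omega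
        have d2 := natDegree_Lg_le 0
        have e1 := eq_C_of_natDegree_le_zero d1
        have e2 := eq_C_of_natDegree_le_zero d2
        have hne := coeff_Lg_ne 0
        rw [e1, e2, ← C_mul, ← C_sub, hc]
        rw [div_mul_cancel₀ _ (by exact hne), sub_self, C_0]
      · refine ih _ ?_
        have d1 : (p - C c * Lg n).natDegree ≤ n := by
          refine (natDegree_sub_le _ _).trans (max_le (by omega) ?_)
          exact (natDegree_C_mul_le _ _).trans (natDegree_Lg_le n)
        have d2 : (p - C c * Lg n).coeff n = 0 := by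
          rw [coeff_sub, coeff_C_mul, hc, div_mul_cancel₀ _ (coeff_Lg_ne n), sub_self]
        refine lt_of_le_of_ne d1 fun h => ?_
        apply hr0
        rw [← leadingCoeff_eq_zero, leadingCoeff, h]
        exact d2
  exact key (p.natDegree + 1) p (by omega)

end Pool.Agent.Q70.BeA
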