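import Pool.Agent.Q70.BeA

/-! # Legendre series, completeness, and functions determined by their Legendre functionals -/

set_option autoImplicit false

namespace Pool.Agent.Q70.BeA

open Polynomial Set MeasureTheory intervalIntegral Metric Filter Topology

/-- the radius -/
noncomputable def rad (y : ℝ) : ℝ := (y - 1 / y) / 2

theorem lt_of_lt_rad {x y : ℝ} (hx : 0 ≤ x) (hy : 0 < y) (h : x < rad y) :
    x + Real.sqrt (1 + x ^ 2) < y := by
  unfold rad at h
  have h1 : 0 < y - x := by
    have : 0 < 1 / y := by positivity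
    linarith
  have h2 : Real.sqrt (1 + x ^ 2) < y - x := by
    rw [Real.sqrt_lt' h1]
    have h3 : 2 * x < y - 1 / y := by linarith
    have h4 : 2 * x * y < y ^ 2 - 1 := by
      have := mul_lt_mul_of_pos_right h3 hy
      have e : (y - 1 / y) * y = y ^ 2 - 1 := by field_simp
      rwa [e] at this
    nlinarith
  linarith

theorem one_lt_rad {y : ℝ} (hy : 1 + Real.sqrt 2 < y) : 1 < rad y := by
  unfold rad
  have h2 : Real.sqrt 2 ^ 2 = 2 := Real.sq_sqrt (by norm_num)
  have h3 : 0 ≤ Real.sqrt 2 := Real.sqrt_nonneg 2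
  have hy0 : 0 < y := by linarith
  rw [lt_div_iff₀ (by norm_num : (0 : ℝ) < 2), one_mul]
  have h4 : 2 * y < y ^ 2 - 1 := by nlinarith
  have e : y - 1 / y = (y ^ 2 - 1) / y := by field_simp
  rw [e, lt_div_iff₀ hy0]
  exact h4

/-- the coefficients -/
noncomputable def co (a : ℕ → ℂ) (n : ℕ) (z : ℂ) : ℂ := a n / hh n * (Lg n).eval z

theorem norm_co {a : ℕ → ℂ} {C y : ℝ} (hC : 0 ≤ C) (hy : 0 < y)
    (ha : ∀ n, ‖a n‖ ≤ C * (y⁻¹) ^ n) {x : ℝ} (n : ℕ) {z : ℂ} (hz : ‖z‖ ≤ x) :
    ‖co a n z‖ ≤ C * (2 * n + 1) ^ 2 * ((x + Real.sqrt (1 + x ^ 2)) / y) ^ n := by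
  have hx0 : 0 ≤ x := (norm_nonneg z).trans hz
  unfold co
  rw [norm_mul, norm_div]
  have h1 : ‖a n‖ / ‖hh n‖ ≤ C * (y⁻¹) ^ n * (2 * n + 1) ^ 2 := by
    rw [div_le_iff₀ (norm_pos_iff.2 (hh_ne n))]
    have h2 := hh_lower n
    have h3 : 1 ≤ (2 * n + 1 : ℝ) ^ 2 * ‖hh n‖ := by
      rw [div_le_iff₀ (by positivity)] at h2
      linarith
    calc ‖a n‖ ≤ C * (y⁻¹) ^ n := ha n
      _ ≤ C * (y⁻¹) ^ n * ((2 * n + 1 : ℝ) ^ 2 * ‖hh n‖) :=
          le_mul_of_one_le_right (by positivity) h3
      _ = _ := by ring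
  have h4 : ‖(Lg n).eval z‖ ≤ (x + Real.sqrt (1 + x ^ 2)) ^ n := by
    refine (norm_Lg n z).trans (pow_le_pow_left₀ (by positivity) ?_ n)
    gcongr
  calc ‖a n‖ / ‖hh n‖ * ‖(Lg n).eval z‖ ≤
      (C * (y⁻¹) ^ n * (2 * n + 1) ^ 2) * (x + Real.sqrt (1 + x ^ 2)) ^ n := by
        gcongr
    _ = _ := by
        rw [div_pow, inv_pow]
        field_simp

theorem summable_bd {C θ : ℝ} (h0 : 0 ≤ θ) (h1 : θ < 1) :
    Summable fun n : ℕ => C * (2 * n + 1) ^ 2 * θ ^ n := by
  have h : ‖θ‖ < 1 := by rwa [Real.norm_of_nonneg h0]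
  have s2 := summable_pow_mul_geometric_of_norm_lt_one 2 h
  have s1 := summable_pow_mul_geometric_of_norm_lt_one 1 h
  have s0 := summable_pow_mul_geometric_of_norm_lt_one 0 h
  have := (((s2.mul_left 4).add (s1.mul_left 4)).add s0).mul_left C
  refine this.congr fun n => ?_
  ring

/-- the Legendre series -/
noncomputable def ser (a : ℕ → ℂ) (z : ℂ) : ℂ := ∑' n, co a n z

theorem ser_data {a : ℕ → ℂ} {C y : ℝ} (hC : 0 ≤ C) (hy : 1 + Real.sqrt 2 < y)
    (ha : ∀ n, ‖a n‖ ≤ C * (y⁻¹) ^ n) : DifferentiableOn ℂ (ser a) (ball 0 (rad y)) ∧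
    ∀ m, ∫ u in (-1 : ℝ)..1, (Lg m).eval (u : ℂ) * ser a u = a m := by
  have h3 : 0 ≤ Real.sqrt 2 := Real.sqrt_nonneg 2
  have hy0 : 0 < y := by linarith
  constructor
  · intro z hz
    rw [mem_ball_zero_iff] at hz
    obtain ⟨x, hx1, hx2⟩ := exists_between hz
    have hx0 : 0 ≤ x := (norm_nonneg z).trans hx1.le
    have hθ := lt_of_lt_rad hx0 hy0 hx2
    have hd : DifferentiableOn ℂ (fun z => ∑' n, co a n z) (ball 0 x) := by
      refine Complex.differentiableOn_tsum_of_summable_norm (u := fun n : ℕ =>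
        C * (2 * n + 1) ^ 2 * ((x + Real.sqrt (1 + x ^ 2)) / y) ^ n) ?_ ?_ isOpen_ball ?_
      · exact summable_bd (by positivity) (by rwa [div_lt_one hy0])
      · intro n
        unfold co
        exact ((Lg n).differentiable.const_mul _).differentiableOn
      · intro n w hw
        rw [mem_ball_zero_iff] at hw
        exact norm_co hC hy0 ha n hw.le
    have := (hd z (by rwa [mem_ball_zero_iff])).differentiableAt
      (isOpen_ball.mem_nhds (by rwa [mem_ball_zero_iff]))
    exact this.differentiableWithinAt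
  · intro m
    have hθ := lt_of_lt_rad zero_le_one hy0 (one_lt_rad hy)
    have hs := summable_bd (C := C) (θ := (1 + Real.sqrt (1 + 1 ^ 2)) / y) (by positivity)
      (by rwa [div_lt_one hy0])
    -- a bound for the polynomial
    obtain ⟨M, hM⟩ : ∃ M : ℝ, ∀ u ∈ Icc (-1 : ℝ) 1, ‖(Lg m).eval (u : ℂ)‖ ≤ M := by
      have hc : ContinuousOn (fun u : ℝ => (Lg m).eval (u : ℂ)) (Icc (-1) 1) := by fun_prop
      exact isCompact_Icc.exists_bound_of_continuousOn hc
    have hM0 : 0 ≤ M := (norm_nonneg _).trans (hM 0 (by norm_num))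
    have hbd : ∀ n : ℕ, ∀ u ∈ Icc (-1 : ℝ) 1, ‖(Lg m).eval (u : ℂ) * co a n u‖ ≤
        M * (C * (2 * n + 1) ^ 2 * ((1 + Real.sqrt (1 + 1 ^ 2)) / y) ^ n) := by
      intro n u hu
      rw [norm_mul]
      refine mul_le_mul (hM u hu) (norm_co hC hy0 ha n ?_) (norm_nonneg _) hM0
      rw [Complex.norm_real, Real.norm_eq_abs, abs_le]
      exact ⟨hu.1, hu.2⟩
    have key := intervalIntegral.hasSum_integral_of_dominated_convergence (a := (-1 : ℝ)) (b := 1)
      (μ := volume)
      (F := fun n (u : ℝ) => (Lg m).eval (u : ℂ) * co a n u)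
      (f := fun u : ℝ => (Lg m).eval (u : ℂ) * ser a u)
      (bound := fun n _ => M * (C * (2 * n + 1) ^ 2 * ((1 + Real.sqrt (1 + 1 ^ 2)) / y) ^ n))
      (fun n => by
        refine Continuous.aestronglyMeasurable ?_
        unfold co
        fun_prop)
      (fun n => Eventually.of_forall fun u hu => by
        rw [uIoc_of_le (by norm_num)] at hu
        exact hbd n u ⟨hu.1.le, hu.2⟩)
      (Eventually.of_forall fun u _ => hs.mul_left M)
      (by exact _root_.intervalIntegrable_const)
      (Eventually.of_forall fun u hu => by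
        rw [uIoc_of_le (by norm_num)] at hu
        have h1 : Summable fun n => co a n (u : ℂ) := by
          refine Summable.of_norm_bounded hs fun n => norm_co hC hy0 ha n ?_
          rw [Complex.norm_real, Real.norm_eq_abs, abs_le]
          exact ⟨hu.1.le, hu.2⟩
        exact h1.hasSum.mul_left _)
    have h5 : ∀ n, ∫ u in (-1 : ℝ)..1, (Lg m).eval (u : ℂ) * co a n u =
        if n = m then a m else 0 := by
      intro n
      have e : ∀ u : ℝ, (Lg m).eval (u : ℂ) * co a n u =
          a n / hh n * ((Lg m).eval (u : ℂ) * (Lg n).eval (u : ℂ)) := by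
        intro u
        unfold co
        ring
      simp_rw [e]
      rw [intervalIntegral.integral_const_mul]
      rcases lt_trichotomy n m with h | h | h
      · rw [orth (lt_of_le_of_lt (natDegree_Lg_le n) h), mul_zero, if_neg (by omega)]
      · subst h
        rw [if_pos rfl]
        show a n / hh n * hh n = a n
        exact div_mul_cancel₀ _ (hh_ne n)
      · have : ∫ u in (-1 : ℝ)..1, (Lg m).eval (u : ℂ) * (Lg n).eval (u : ℂ) = 0 := by
          simp_rw [mul_comm ((Lg m).eval _)]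
          exact orth (lt_of_le_of_lt (natDegree_Lg_le m) h)
        rw [this, mul_zero, if_neg (by omega)]
    simp_rw [h5] at key
    exact key.unique (hasSum_ite_eq m (a m))

/-- completeness of the polynomials -/
theorem complete_real {D : ℝ → ℝ} (hD : ContinuousOn D (Icc (-1) 1))
    (h : ∀ p : ℝ[X], ∫ u in (-1 : ℝ)..1, p.eval u * D u = 0) : ∀ u ∈ Icc (-1 : ℝ) 1, D u = 0 := by
  have hu : uIcc (-1 : ℝ) 1 = Icc (-1) 1 := uIcc_of_le (by norm_num)
  have hDi : IntervalIntegrable D volume (-1) 1 := (by rw [hu]; exact hD : ContinuousOn D _).intervalIntegrable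
  have hDn : IntervalIntegrable (fun u => |D u|) volume (-1) 1 := hDi.abs
  set M := ∫ u in (-1 : ℝ)..1, |D u| with hM
  have hM0 : 0 ≤ M := intervalIntegral.integral_nonneg (by norm_num) fun u _ => abs_nonneg _
  have hsq : ∀ ε : ℝ, 0 < ε → ∫ u in (-1 : ℝ)..1, D u * D u ≤ ε * M := by
    intro ε hε
    obtain ⟨p, hp⟩ := exists_polynomial_near_of_continuousOn (-1) 1 D hD ε hε
    have hpD : IntervalIntegrable (fun u => p.eval u * D u) volume (-1) 1 := by
      refine ContinuousOn.intervalIntegrable ?_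
      rw [hu]
      exact (by fun_prop : Continuous fun u => p.eval u).continuousOn.mul hD
    have hDD : IntervalIntegrable (fun u => D u * D u) volume (-1) 1 := by
      refine ContinuousOn.intervalIntegrable ?_
      rw [hu]
      exact hD.mul hD
    have h1 : ∫ u in (-1 : ℝ)..1, D u * D u = ∫ u in (-1 : ℝ)..1, (D u * D u - p.eval u * D u) := by
      rw [intervalIntegral.integral_sub hDD hpD, h p, sub_zero]
    rw [h1, hM, ← intervalIntegral.integral_const_mul]
    refine intervalIntegral.integral_mono_on (by norm_num) (hDD.sub hpD) (hDn.const_mul ε)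
      fun u hu' => ?_
    have h2 := hp u hu'
    calc D u * D u - p.eval u * D u = (D u - p.eval u) * D u := by ring
      _ ≤ |(D u - p.eval u) * D u| := le_abs_self _
      _ = |p.eval u - D u| * |D u| := by rw [abs_mul, abs_sub_comm]
      _ ≤ ε * |D u| := mul_le_mul_of_nonneg_right h2.le (abs_nonneg _)
  have h0 : ∫ u in (-1 : ℝ)..1, D u * D u ≤ 0 := by
    refine le_of_forall_pos_le_add fun ε hε => ?_
    have := hsq (ε / (M + 1)) (by positivity)
    have h2 : ε / (M + 1) * M ≤ ε := by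
      rw [div_mul_eq_mul_div, div_le_iff₀ (by positivity)]
      nlinarith
    linarith
  by_contra hcon
  push Not at hcon
  obtain ⟨c, hc, hc0⟩ := hcon
  have hpos : 0 < ∫ u in (-1 : ℝ)..1, D u * D u := by
    refine intervalIntegral.integral_pos (by norm_num) (hD.mul hD) (fun u _ => mul_self_nonneg _)
      ⟨c, hc, mul_self_pos.2 hc0⟩
  linarith

theorem complete {D : ℝ → ℂ} (hD : ContinuousOn D (Icc (-1) 1))
    (h : ∀ p : ℂ[X], ∫ u in (-1 : ℝ)..1, p.eval (u : ℂ) * D u = 0) :
    ∀ u ∈ Icc (-1 : ℝ) 1, D u = 0 := by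
  have hu : uIcc (-1 : ℝ) 1 = Icc (-1) 1 := uIcc_of_le (by norm_num)
  have hp : ∀ p : ℝ[X], ∫ u in (-1 : ℝ)..1, ((p.eval u : ℝ) : ℂ) * D u = 0 := by
    intro p
    have h1 := h (p.map Complex.ofRealHom)
    rw [← h1]
    refine intervalIntegral.integral_congr fun u _ => ?_
    beta_reduce
    congr 1
    have := Polynomial.eval_map_apply (p := p) (f := Complex.ofRealHom) (x := u)
    simpa using this.symm
  have hint : ∀ p : ℝ[X], IntervalIntegrable (fun u : ℝ => ((p.eval u : ℝ) : ℂ) * D u)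
      volume (-1) 1 := by
    intro p
    refine ContinuousOn.intervalIntegrable ?_
    rw [hu]
    exact (by fun_prop : Continuous fun u : ℝ => ((p.eval u : ℝ) : ℂ)).continuousOn.mul hD
  have hre : ∀ u ∈ Icc (-1 : ℝ) 1, (D u).re = 0 := by
    refine complete_real (Complex.continuous_re.comp_continuousOn hD) fun p => ?_
    have h1 := Complex.reCLM.intervalIntegral_comp_comm (hint p)
    rw [hp p, map_zero] at h1
    rw [← h1]
    refine intervalIntegral.integral_congr fun u _ => ?_
    simp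
  have him : ∀ u ∈ Icc (-1 : ℝ) 1, (D u).im = 0 := by
    refine complete_real (Complex.continuous_im.comp_continuousOn hD) fun p => ?_
    have h1 := Complex.imCLM.intervalIntegral_comp_comm (hint p)
    rw [hp p, map_zero] at h1
    rw [← h1]
    refine intervalIntegral.integral_congr fun u _ => ?_
    simp
  intro u hu'
  exact Complex.ext (hre u hu') (him u hu')

/-- the functional `∫ q D'` -/
noncomputable def J (D : ℝ → ℂ) (q : ℂ[X]) : ℂ :=
  q.eval 1 * D 1 - q.eval (-1) * D (-1) - ∫ u in (-1 : ℝ)..1, q.derivative.eval (u : ℂ) * D u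

theorem int_poly {D : ℝ → ℂ} (hD : ContinuousOn D (Icc (-1) 1)) (q : ℂ[X]) :
    IntervalIntegrable (fun u : ℝ => q.eval (u : ℂ) * D u) volume (-1) 1 := by
  refine ContinuousOn.intervalIntegrable ?_
  rw [uIcc_of_le (by norm_num)]
  exact (by fun_prop : Continuous fun u : ℝ => q.eval (u : ℂ)).continuousOn.mul hD

theorem J_add {D : ℝ → ℂ} (hD : ContinuousOn D (Icc (-1) 1)) (p q : ℂ[X]) :
    J D (p + q) = J D p + J D q := by
  unfold J
  have h1 : ∫ u in (-1 : ℝ)..1, (derivative (p + q)).eval (u : ℂ) * D u =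
      (∫ u in (-1 : ℝ)..1, (derivative p).eval (u : ℂ) * D u) +
      ∫ u in (-1 : ℝ)..1, (derivative q).eval (u : ℂ) * D u := by
    rw [← intervalIntegral.integral_add (int_poly hD _) (int_poly hD _)]
    refine intervalIntegral.integral_congr fun u _ => ?_
    simp only [derivative_add, eval_add]
    ring
  rw [h1, eval_add, eval_add]
  ring

theorem J_C_mul (D : ℝ → ℂ) (c : ℂ) (q : ℂ[X]) : J D (C c * q) = c * J D q := by
  unfold J
  have h1 : ∫ u in (-1 : ℝ)..1, (derivative (C c * q)).eval (u : ℂ) * D u =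
      c * ∫ u in (-1 : ℝ)..1, (derivative q).eval (u : ℂ) * D u := by
    rw [← intervalIntegral.integral_const_mul]
    refine intervalIntegral.integral_congr fun u _ => ?_
    simp only [derivative_C_mul, eval_mul, eval_C]
    ring
  rw [h1, eval_mul, eval_mul, eval_C, eval_C]
  ring

theorem J_sub_fun {D E : ℝ → ℂ} (hD : ContinuousOn D (Icc (-1) 1))
    (hE : ContinuousOn E (Icc (-1) 1)) (q : ℂ[X]) :
    J (fun u => D u - E u) q = J D q - J E q := by
  unfold J
  have h1 : ∫ u in (-1 : ℝ)..1, (derivative q).eval (u : ℂ) * (D u - E u) =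
      (∫ u in (-1 : ℝ)..1, (derivative q).eval (u : ℂ) * D u) -
      ∫ u in (-1 : ℝ)..1, (derivative q).eval (u : ℂ) * E u := by
    rw [← intervalIntegral.integral_sub (int_poly hD _) (int_poly hE _)]
    refine intervalIntegral.integral_congr fun u _ => ?_
    beta_reduce
    ring
  rw [h1]
  ring

/-- a continuous function with vanishing functional is constant -/
theorem const_of_J {D : ℝ → ℂ} (hD : ContinuousOn D (Icc (-1) 1)) (h : ∀ q : ℂ[X], J D q = 0) :
    ∀ u ∈ Icc (-1 : ℝ) 1, D u = D 1 := by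
  have h1 : ∀ u ∈ Icc (-1 : ℝ) 1, D 1 - D u = 0 := by
    refine complete (continuousOn_const.sub hD) fun p => ?_
    -- a primitive of `p` vanishing at `-1`
    obtain ⟨q0, hq0⟩ : ∃ q0 : ℂ[X], derivative q0 = p := by
      refine Polynomial.induction_on' p ?_ ?_
      · rintro p q ⟨a, ha⟩ ⟨b, hb⟩
        exact ⟨a + b, by rw [derivative_add, ha, hb]⟩
      · intro n a
        refine ⟨monomial (n + 1) (a / (n + 1)), ?_⟩
        rw [derivative_monomial]
        have : (n + 1 : ℂ) ≠ 0 := by exact_mod_cast Nat.succ_ne_zero n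
        push_cast
        rw [div_mul_cancel₀ _ this]
    set q : ℂ[X] := q0 - C (q0.eval (-1)) with hq
    have hq' : derivative q = p := by
      rw [hq, derivative_sub, derivative_C, sub_zero, hq0]
    have hqm : q.eval (-1) = 0 := by rw [hq]; simp
    have h2 := h q
    unfold J at h2
    rw [hq', hqm, zero_mul, sub_zero] at h2
    have h3 : ∫ u in (-1 : ℝ)..1, p.eval (u : ℂ) = q.eval 1 := by
      have h4 := intervalIntegral.integral_eq_sub_of_hasDerivAt (a := (-1 : ℝ)) (b := 1)
        (f := fun u : ℝ => q.eval (u : ℂ)) (f' := fun u : ℝ => p.eval (u : ℂ)) (fun u _ => by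
          have := (Polynomial.hasDerivAt q (u : ℂ)).comp_ofReal
          rwa [hq'] at this) (Continuous.intervalIntegrable (by fun_prop) _ _)
      rw [h4]
      push_cast
      rw [hqm, sub_zero]
    have h5 : ∫ u in (-1 : ℝ)..1, p.eval (u : ℂ) * (D 1 - D u) =
        (∫ u in (-1 : ℝ)..1, p.eval (u : ℂ)) * D 1 - ∫ u in (-1 : ℝ)..1, p.eval (u : ℂ) * D u := by
      rw [← intervalIntegral.integral_mul_const, ← intervalIntegral.integral_sub
        (Continuous.intervalIntegrable (by fun_prop) _ _) (int_poly hD _)]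
      refine intervalIntegral.integral_congr fun u _ => ?_
      beta_reduce
      ring
    rw [h5, h3]
    exact h2
  intro u hu
  exact (sub_eq_zero.1 (h1 u hu)).symm

/-- integration by parts -/
theorem J_prim {G g : ℂ → ℂ} (hG : ∀ u : ℝ, u ∈ Icc (-1 : ℝ) 1 → HasDerivAt G (g u) u)
    (hg : ContinuousOn (fun u : ℝ => g u) (Icc (-1) 1)) (q : ℂ[X]) :
    J (fun u => G u) q = ∫ u in (-1 : ℝ)..1, q.eval (u : ℂ) * g u := by
  have hu : uIcc (-1 : ℝ) 1 = Icc (-1) 1 := uIcc_of_le (by norm_num)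
  have hGc : ContinuousOn (fun u : ℝ => G u) (Icc (-1) 1) := fun u hu' =>
    (hG u hu').comp_ofReal.continuousAt.continuousWithinAt
  have h1 := integral_deriv_mul_eq_sub (a := (-1 : ℝ)) (b := 1)
    (u := fun u : ℝ => q.eval (u : ℂ)) (u' := fun u : ℝ => (derivative q).eval (u : ℂ))
    (v := fun u : ℝ => G u) (v' := fun u : ℝ => g u)
    (fun u _ => (Polynomial.hasDerivAt q (u : ℂ)).comp_ofReal)
    (fun u hu' => (hG u (by rwa [hu] at hu')).comp_ofReal)
    (Continuous.intervalIntegrable (by fun_prop) _ _)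
    (by
      refine ContinuousOn.intervalIntegrable ?_
      rwa [hu])
  rw [intervalIntegral.integral_add (int_poly hGc _) (int_poly hg _)] at h1
  unfold J
  push_cast at h1 ⊢
  linear_combination -h1

/-- **functions determined by their functionals**: if the Legendre functionals of a continuous
function decay geometrically, the function is the restriction of a primitive of a holomorphic
function -/
theorem determine {D : ℝ → ℂ} (hD : ContinuousOn D (Icc (-1) 1)) {C y : ℝ} (hC : 0 ≤ C)
    (hy : 1 + Real.sqrt 2 < y) (ha : ∀ n, ‖J D (Lg n)‖ ≤ C * (y⁻¹) ^ n) :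
    ∃ G g : ℂ → ℂ, DifferentiableOn ℂ g (ball 0 (rad y)) ∧
      (∀ z ∈ ball (0 : ℂ) (rad y), HasDerivAt G (g z) z) ∧
      ∀ u : ℝ, u ∈ Icc (-1 : ℝ) 1 → D u = G u := by
  obtain ⟨hd, hint⟩ := ser_data hC hy ha
  set g := ser fun n => J D (Lg n) with hg
  have h1 := one_lt_rad hy
  obtain ⟨G, hG⟩ := hd.isExactOn_ball
  have hmem : ∀ u : ℝ, u ∈ Icc (-1 : ℝ) 1 → (u : ℂ) ∈ ball (0 : ℂ) (rad y) := by
    intro u hu
    rw [mem_ball_zero_iff, Complex.norm_real, Real.norm_eq_abs]
    exact lt_of_le_of_lt (abs_le.2 ⟨hu.1, hu.2⟩) h1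
  have hGc : ContinuousOn (fun u : ℝ => G u) (Icc (-1) 1) := fun u hu =>
    (hG u (hmem u hu)).comp_ofReal.continuousAt.continuousWithinAt
  have hgc : ContinuousOn (fun u : ℝ => g u) (Icc (-1) 1) := by
    intro u hu
    have : ContinuousAt g u := (hd.differentiableAt (isOpen_ball.mem_nhds (hmem u hu))).continuousAt
    exact (ContinuousAt.comp (g := g) (f := fun u : ℝ => (u : ℂ)) this
      (by fun_prop)).continuousWithinAt
  have hJ : ∀ q : ℂ[X], J (fun u => D u - G u) q = 0 := by
    refine span_ind ?_ ?_ ?_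
    · unfold J
      simp
    · intro p q hp hq
      have := J_add (D := fun u => D u - G u) (hD.sub hGc) p q
      rw [this, hp, hq, add_zero]
    · intro c n
      rw [J_C_mul, J_sub_fun hD hGc, J_prim (fun u hu => hG u (hmem u hu)) hgc, hint n, sub_self,
        mul_zero]
  have hconst := const_of_J (D := fun u => D u - G u) (hD.sub hGc) hJ
  refine ⟨fun z => G z + (D 1 - G ((1 : ℝ) : ℂ)), g, hd, fun z hz => (hG z hz).add_const _,
    fun u hu => ?_⟩
  have := hconst u hu
  beta_reduce at this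
  linear_combination this

end Pool.Agent.Q70.BeA
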