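import Pool.Agent.Q70.EdA

/-! # Existence and uniqueness of the primitive on the closed half-plane, quasisymmetry -/

set_option autoImplicit false

namespace Pool.Agent.Q70.EdA

open Set Filter Topology Complex MeasureTheory

variable {κ : ℝ} {H H' F : ℂ → ℂ}

theorem open_half : IsOpen {z : ℂ | 0 < z.re} := isOpen_lt continuous_const Complex.continuous_re

/-- a primitive on the open half-plane, by the Cayley transform -/
theorem exists_prim0 {E : ℂ → ℂ} (hE : DifferentiableOn ℂ E {z : ℂ | 0 < z.re}) :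
    ∃ G : ℂ → ℂ, ∀ z : ℂ, 0 < z.re → HasDerivAt G (E z) z := by
  have hmap : ∀ ζ ∈ Metric.ball (0 : ℂ) 1, 0 < ((1 + ζ) / (1 - ζ)).re := by
    intro ζ hζ
    rw [mem_ball_zero_iff] at hζ
    have h1 : normSq ζ < 1 := by
      rw [Complex.normSq_eq_norm_sq]
      nlinarith [norm_nonneg ζ]
    have h2 : 0 < normSq (1 - ζ) := by
      rw [Complex.normSq_pos]
      intro h
      have : ζ = 1 := by linear_combination -h
      rw [this, norm_one] at hζ
      exact lt_irrefl _ hζ
    rw [Complex.div_re]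
    rw [← add_div]
    refine div_pos ?_ h2
    rw [Complex.normSq_apply] at h1
    simp
    nlinarith
  have hne : ∀ ζ ∈ Metric.ball (0 : ℂ) 1, (1 - ζ) ≠ 0 := by
    intro ζ hζ h
    have : ζ = 1 := by linear_combination -h
    rw [mem_ball_zero_iff, this, norm_one] at hζ
    exact lt_irrefl _ hζ
  have hd : DifferentiableOn ℂ (fun ζ => E ((1 + ζ) / (1 - ζ)) * (2 / (1 - ζ) ^ 2))
      (Metric.ball 0 1) := by
    intro ζ hζ
    have h1 : DifferentiableAt ℂ E ((1 + ζ) / (1 - ζ)) :=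
      hE.differentiableAt (open_half.mem_nhds (hmap ζ hζ))
    have h2 : DifferentiableAt ℂ (fun ζ : ℂ => (1 + ζ) / (1 - ζ)) ζ :=
      ((differentiableAt_const _).add differentiableAt_id).div
        ((differentiableAt_const _).sub differentiableAt_id) (hne ζ hζ)
    have h3 : DifferentiableAt ℂ (fun ζ : ℂ => (2 : ℂ) / (1 - ζ) ^ 2) ζ :=
      (differentiableAt_const _).div (((differentiableAt_const _).sub differentiableAt_id).pow 2)
        (pow_ne_zero 2 (hne ζ hζ))
    exact ((h1.comp ζ h2).mul h3).differentiableWithinAt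
  obtain ⟨g, hg⟩ := hd.isExactOn_ball
  refine ⟨fun z => g ((z - 1) / (z + 1)), fun z hz => ?_⟩
  have hz1 : z + 1 ≠ 0 := by
    intro h
    have := congrArg Complex.re h
    simp at this
    linarith
  have hball : (z - 1) / (z + 1) ∈ Metric.ball (0 : ℂ) 1 := by
    rw [mem_ball_zero_iff, norm_div, div_lt_one (norm_pos_iff.mpr hz1)]
    rw [Complex.norm_def, Complex.norm_def]
    refine Real.sqrt_lt_sqrt (Complex.normSq_nonneg _) ?_
    rw [Complex.normSq_apply, Complex.normSq_apply]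
    simp
    nlinarith
  have h1 := hg _ hball
  have h2 : HasDerivAt (fun z : ℂ => (z - 1) / (z + 1)) (2 / (z + 1) ^ 2) z := by
    have := ((hasDerivAt_id z).sub_const 1).div ((hasDerivAt_id z).add_const 1) hz1
    refine this.congr_deriv ?_
    simp only [id]
    ring
  have h3 := h1.comp z h2
  refine h3.congr_deriv ?_
  beta_reduce
  have e0 : 1 - (z - 1) / (z + 1) = 2 / (z + 1) := by
    field_simp
    ring
  have e1 : (1 + (z - 1) / (z + 1)) / (1 - (z - 1) / (z + 1)) = z := by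
    rw [e0]
    field_simp
    ring
  rw [e1, e0]
  field_simp

theorem Bl.diff (hH : Bl κ H H') : DifferentiableOn ℂ H {z : ℂ | 0 < z.re} :=
  fun z hz => (hH z hz).1.differentiableAt.differentiableWithinAt

/-- growth near the boundary -/
theorem exp_growth (hH : Bl κ H H') {z : ℂ} (hz : 0 ≤ z.re) {t : ℝ} (ht : 0 < t) (ht1 : t ≤ 1) :
    ‖exp (H (z + t))‖ ≤ ‖exp (H (z + 1))‖ * t ^ (-κ) := by
  have h1 := hor hH hz ht ht1
  rw [norm_sub_rev] at h1
  have h2 := norm_exp_le _ _ h1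
  rw [rpow_log (by positivity)] at h2
  rw [one_div, Real.inv_rpow ht.le, ← Real.rpow_neg ht.le] at h2
  simpa using h2

/-- **existence** of the primitive, continuous up to the boundary -/
theorem exists_prim (hH : Bl κ H H') (hκ : κ < 1) : ∃ F : ℂ → ℂ, Pr H F := by
  have hE : DifferentiableOn ℂ (fun z => exp (H z)) {z : ℂ | 0 < z.re} := fun z hz =>
    (hH z hz).1.differentiableAt.cexp.differentiableWithinAt
  obtain ⟨G, hG⟩ := exists_prim0 hE
  have hEc : ContinuousOn (fun z => exp (H z)) {z : ℂ | 0 < z.re} := hE.continuousOn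
  set F : ℂ → ℂ := fun z => G (z + 1) - ∫ t in (0 : ℝ)..1, exp (H (z + t)) with hF
  have hint : ∀ z : ℂ, 0 ≤ z.re → IntervalIntegrable (fun t : ℝ => exp (H (z + t)))
      volume 0 1 := by
    intro z hz
    have h1 : IntervalIntegrable (fun t : ℝ => ‖exp (H (z + 1))‖ * t ^ (-κ)) volume 0 1 :=
      (intervalIntegral.intervalIntegrable_rpow' (by linarith)).const_mul _
    refine h1.mono_fun ?_ ?_
    · rw [uIoc_of_le zero_le_one]
      refine ContinuousOn.aestronglyMeasurable (ContinuousOn.comp (g := fun z => exp (H z))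
        (f := fun t : ℝ => z + (t : ℂ)) hEc (by fun_prop) ?_) measurableSet_Ioc
      intro t ht
      have := ht.1
      simp
      linarith
    · rw [uIoc_of_le zero_le_one]
      filter_upwards [ae_restrict_mem measurableSet_Ioc] with t ht
      refine (exp_growth hH hz ht.1 ht.2).trans (le_of_eq ?_)
      rw [Real.norm_of_nonneg]
      have := ht.1
      positivity
  have hFG : ∀ z : ℂ, 0 < z.re → F z = G z := by
    intro z hz
    have h1 : ∫ t in (0 : ℝ)..1, exp (H (z + t)) = G (z + ((1 : ℝ) : ℂ) * 1) -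
        G (z + ((0 : ℝ) : ℂ) * 1) := by
      refine intervalIntegral.integral_eq_sub_of_hasDerivAt
        (f := fun t : ℝ => G (z + (t : ℂ) * 1)) ?_ (hint z hz.le)
      intro t ht
      rw [uIcc_of_le zero_le_one] at ht
      have h2 := comp_line (u := t) (z := z) (w := 1) (hG (z + (t : ℂ) * 1) (by
        have := ht.1
        simp
        linarith))
      simpa using h2
    simp only [hF, h1]
    simp
  refine ⟨F, ?_, ?_⟩
  · intro z0 hz0
    have hz0' : 0 ≤ z0.re := hz0
    have h1 : ContinuousWithinAt (fun z => G (z + 1)) {z : ℂ | 0 ≤ z.re} z0 := by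
      have h2 : ContinuousAt G (z0 + 1) := (hG _ (by simp; linarith)).continuousAt
      exact (ContinuousAt.comp (g := G) (f := fun z : ℂ => z + 1) h2
        (by fun_prop)).continuousWithinAt
    refine h1.sub ?_
    -- local bound
    have h3 : ContinuousAt (fun z => ‖exp (H (z + 1))‖) z0 := by
      have h2 : ContinuousAt (fun z => exp (H z)) (z0 + 1) :=
        (hH (z0 + 1) (by simp; linarith)).1.continuousAt.cexp
      exact (ContinuousAt.comp (g := fun z => exp (H z)) (f := fun z : ℂ => z + 1) h2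
        (by fun_prop)).norm
    have h4 : ∀ᶠ z in 𝓝[{z : ℂ | 0 ≤ z.re}] z0, ‖exp (H (z + 1))‖ ≤ ‖exp (H (z0 + 1))‖ + 1 := by
      refine nhdsWithin_le_nhds ((h3.tendsto.eventually_le_const (u := ‖exp (H (z0 + 1))‖ + 1) ?_))
      linarith
    refine intervalIntegral.continuousWithinAt_of_dominated_interval
      (bound := fun t => (‖exp (H (z0 + 1))‖ + 1) * t ^ (-κ)) ?_ ?_ ?_ ?_
    · filter_upwards [self_mem_nhdsWithin] with z hz
      exact (hint z hz).aestronglyMeasurable_restrict_uIoc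
    · filter_upwards [h4, self_mem_nhdsWithin] with z hz hz2
      refine Eventually.of_forall fun t ht => ?_
      rw [uIoc_of_le zero_le_one] at ht
      refine (exp_growth hH hz2 ht.1 ht.2).trans ?_
      have := ht.1
      exact mul_le_mul_of_nonneg_right hz (by positivity)
    · exact (intervalIntegral.intervalIntegrable_rpow' (by linarith)).const_mul _
    · refine Eventually.of_forall fun t ht => ?_
      rw [uIoc_of_le zero_le_one] at ht
      have h2 : ContinuousAt (fun z => exp (H z)) (z0 + t) :=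
        (hH (z0 + t) (by
          have := ht.1
          simp
          linarith)).1.continuousAt.cexp
      exact (ContinuousAt.comp (g := fun z => exp (H z)) (f := fun z : ℂ => z + t) h2
        (by fun_prop)).continuousWithinAt
  · intro z hz
    have h1 : F =ᶠ[𝓝 z] G := by
      filter_upwards [open_half.mem_nhds hz] with y hy using hFG y hy
    exact (hG z hz).congr_of_eventuallyEq h1

theorem closure_half : closure {z : ℂ | 0 < z.re} = {z : ℂ | 0 ≤ z.re} :=
  Complex.closure_setOf_lt_re 0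

/-- **uniqueness** up to a constant -/
theorem prim_unique {F G : ℂ → ℂ} (hF : Pr H F) (hG : Pr H G) {z : ℂ} (hz : 0 ≤ z.re) :
    F z - G z = F 1 - G 1 := by
  have h1 : ∀ z : ℂ, 0 < z.re → F z - G z = F 1 - G 1 := by
    intro z hz
    refine (convex_halfSpace_re_gt 0).is_const_of_fderivWithin_eq_zero (𝕜 := ℂ)
      (f := fun z => F z - G z) ?_ ?_ hz (show (1 : ℂ) ∈ {c : ℂ | 0 < c.re} by simp)
    · intro x hx
      exact ((hF.2 x hx).sub (hG.2 x hx)).differentiableAt.differentiableWithinAt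
    · intro x hx
      have hd := ((hF.2 x hx).sub (hG.2 x hx))
      rw [sub_self] at hd
      rw [fderivWithin_of_isOpen open_half hx]
      have h3 : HasFDerivAt (fun z => F z - G z) (0 : ℂ →L[ℂ] ℂ) x := by
        have := hd.hasFDerivAt
        simp only [ContinuousLinearMap.toSpanSingleton_zero] at this
        exact this
      exact h3.fderiv
  have h2 : Set.EqOn (fun z => F z - G z) (fun _ => F 1 - G 1) (closure {z : ℂ | 0 < z.re}) := by
    refine Set.EqOn.of_subset_closure (s := {z : ℂ | 0 < z.re}) (fun z hz => h1 z hz) ?_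
      continuousOn_const subset_closure le_rfl
    rw [closure_half]
    exact hF.1.sub hG.1
  exact h2 (by rw [closure_half]; exact hz)

/-- two-sided distortion, the upper bound -/
theorem upper (hH : Bl κ H H') (hκ : κ ≤ 1 / 4) (hF : Pr H F) {s s' : ℂ} (hs : 0 ≤ s.re)
    (hs' : 0 ≤ s'.re) :
    ‖F s' - F s‖ ≤
      (1 + 7 / 2 * κ) * (‖exp (H ((s + s') / 2 + (‖s' - s‖ / 2 : ℝ)))‖ * ‖s' - s‖) := by
  have h1 := main hH hκ hF hs hs'
  have h2 := norm_sub_norm_le (F s' - F s) (exp (H ((s + s') / 2 + (‖s' - s‖ / 2 : ℝ))) * (s' - s))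
  rw [norm_mul] at h2
  linarith

theorem lower (hH : Bl κ H H') (hκ : κ ≤ 1 / 4) (hF : Pr H F) {s s' : ℂ} (hs : 0 ≤ s.re)
    (hs' : 0 ≤ s'.re) :
    (1 - 7 / 2 * κ) * (‖exp (H ((s + s') / 2 + (‖s' - s‖ / 2 : ℝ)))‖ * ‖s' - s‖) ≤
      ‖F s' - F s‖ := by
  have h1 := main hH hκ hF hs hs'
  have h2 := norm_sub_norm_le (exp (H ((s + s') / 2 + (‖s' - s‖ / 2 : ℝ))) * (s' - s)) (F s' - F s)
  rw [norm_mul, norm_sub_rev (exp (H ((s + s') / 2 + (‖s' - s‖ / 2 : ℝ))) * (s' - s))] at h2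
  linarith

theorem injOn (hH : Bl κ H H') (hκ : κ ≤ 1 / 4) (hF : Pr H F) : InjOn F {z : ℂ | 0 ≤ z.re} := by
  intro s hs s' hs' h
  by_contra hne
  have h1 := lower hH hκ hF hs hs'
  rw [h, sub_self, norm_zero] at h1
  have h2 : 0 < ‖s' - s‖ := norm_pos_iff.mpr (sub_ne_zero.mpr (Ne.symm hne))
  have h3 : 0 < ‖exp (H ((s + s') / 2 + (‖s' - s‖ / 2 : ℝ)))‖ := norm_pos_iff.mpr (exp_ne_zero _)
  have h4 : 0 < (1 - 7 / 2 * κ) * (‖exp (H ((s + s') / 2 + (‖s' - s‖ / 2 : ℝ)))‖ * ‖s' - s‖) := by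
    refine mul_pos ?_ (mul_pos h3 h2)
    linarith
  linarith

/-- **quasisymmetry** on the boundary line -/
theorem quasi (hH : Bl κ H H') (hκ : κ ≤ 1 / 4) (hF : Pr H F) {a b c : ℝ} (hab : a < b)
    (hbc : b ≤ c) :
    (1 - 7 / 2 * κ) * ‖F (b * I) - F (a * I)‖ ≤ (1 + 7 / 2 * κ) *
      ((b - a) / (c - a)) ^ (1 - Real.sqrt 2 * κ) * ‖F (c * I) - F (a * I)‖ := by
  have hκ0 := hH.nonneg
  have hba : 0 < b - a := by linarith
  have hca : 0 < c - a := by linarith
  have n1 : ∀ x y : ℝ, x ≤ y → ‖(y : ℂ) * I - x * I‖ = y - x := by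
    intro x y hxy
    rw [← sub_mul, norm_mul, Complex.norm_I, mul_one, ← Complex.ofReal_sub, Complex.norm_real,
      Real.norm_of_nonneg (by linarith)]
  have p1 : ∀ y : ℝ, ((a : ℂ) * I + y * I) / 2 + (((y - a) / 2 : ℝ) : ℂ) =
      ((a + (y - a) / 2 : ℝ) : ℂ) * I + (((y - a) / 2 : ℝ) : ℂ) := by
    intro y
    push_cast
    ring
  have u := upper hH hκ hF (s := a * I) (s' := b * I) (by simp) (by simp)
  have l := lower hH hκ hF (s := a * I) (s' := c * I) (by simp) (by simp)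
  rw [n1 a b hab.le, p1] at u
  rw [n1 a c (by linarith), p1] at l
  have d := diag hH a hba (by linarith : b - a ≤ c - a)
  rw [norm_sub_rev] at d
  have e := norm_exp_le _ _ d
  have e2 : Real.exp (Real.sqrt 2 * κ * Real.log ((c - a) / (b - a))) =
      ((c - a) / (b - a)) ^ (Real.sqrt 2 * κ) := rpow_log (by positivity)
  rw [e2] at e
  set A := ‖exp (H (((a + (b - a) / 2 : ℝ) : ℂ) * I + (((b - a) / 2 : ℝ) : ℂ)))‖ with hA
  set B := ‖exp (H (((a + (c - a) / 2 : ℝ) : ℂ) * I + (((c - a) / 2 : ℝ) : ℂ)))‖ with hB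
  set r : ℝ := (b - a) / (c - a) with hr
  have hr0 : 0 < r := by positivity
  have e3 : ((c - a) / (b - a)) ^ (Real.sqrt 2 * κ) * (b - a) =
      r ^ (1 - Real.sqrt 2 * κ) * (c - a) := by
    have h1 : (c - a) / (b - a) = r⁻¹ := by rw [hr, inv_div]
    rw [h1, Real.inv_rpow hr0.le, ← Real.rpow_neg hr0.le]
    have h2 : b - a = r ^ (1 : ℝ) * (c - a) := by
      rw [Real.rpow_one, hr]
      field_simp
    rw [h2, ← mul_assoc, ← Real.rpow_add hr0]
    congr 2
    ring
  have h3 : A * (b - a) ≤ r ^ (1 - Real.sqrt 2 * κ) * (B * (c - a)) := by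
    calc A * (b - a) ≤ (B * ((c - a) / (b - a)) ^ (Real.sqrt 2 * κ)) * (b - a) :=
          mul_le_mul_of_nonneg_right e hba.le
      _ = B * (((c - a) / (b - a)) ^ (Real.sqrt 2 * κ) * (b - a)) := by ring
      _ = _ := by rw [e3]; ring
  have h4 : 0 ≤ 1 - 7 / 2 * κ := by linarith
  calc (1 - 7 / 2 * κ) * ‖F (b * I) - F (a * I)‖ ≤
      (1 - 7 / 2 * κ) * ((1 + 7 / 2 * κ) * (A * (b - a))) := mul_le_mul_of_nonneg_left u h4
    _ ≤ (1 - 7 / 2 * κ) * ((1 + 7 / 2 * κ) * (r ^ (1 - Real.sqrt 2 * κ) * (B * (c - a)))) := by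
        gcongr
    _ = (1 + 7 / 2 * κ) * r ^ (1 - Real.sqrt 2 * κ) * ((1 - 7 / 2 * κ) * (B * (c - a))) := by ring
    _ ≤ _ := by gcongr

/-- lower bound near a boundary point -/
theorem lower_pt (hH : Bl κ H H') (hκ : κ ≤ 1 / 4) (hF : Pr H F) (t0 : ℝ) :
    ∃ c : ℝ, 0 < c ∧ ∀ s : ℂ, 0 ≤ s.re → ‖s - t0 * I‖ ≤ 1 →
      c * ‖s - t0 * I‖ ^ (1 + κ) ≤ ‖F s - F (t0 * I)‖ := by
  have hκ0 := hH.nonneg
  refine ⟨(1 - 7 / 2 * κ) * (‖exp (H (t0 * I + 1))‖ * Real.exp (-κ) * 2 ^ (-κ)), ?_, ?_⟩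
  · have h3 : 0 < ‖exp (H (t0 * I + 1))‖ := norm_pos_iff.mpr (exp_ne_zero _)
    have : 0 < 1 - 7 / 2 * κ := by linarith
    positivity
  · intro s hs hs1
    rcases eq_or_ne s (t0 * I) with rfl | hne
    · rw [sub_self, norm_zero, Real.zero_rpow (by linarith)]
      simp
    set d := ‖s - t0 * I‖ with hd
    have hd0 : 0 < d := norm_pos_iff.mpr (sub_ne_zero.mpr hne)
    have l := lower hH hκ hF (s := t0 * I) (s' := s) (by simp) hs
    rw [← hd] at l
    set ζ : ℂ := ((t0 : ℂ) * I + s) / 2 + ((d / 2 : ℝ) : ℂ) with hζ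
    have hζre : d / 2 ≤ ζ.re := by
      rw [hζ]
      simp
      linarith
    have h1 := lip hH (half_pos hd0) (w := ζ) (w' := t0 * I + ((d / 2 : ℝ) : ℂ)) hζre (by simp)
    have h2 : ‖ζ - (t0 * I + ((d / 2 : ℝ) : ℂ))‖ = d / 2 := by
      have : ζ - (t0 * I + ((d / 2 : ℝ) : ℂ)) = (s - t0 * I) / 2 := by
        rw [hζ]
        ring
      rw [this, norm_div, ← hd, Complex.norm_ofNat]
    rw [h2, div_mul_cancel₀ _ (half_pos hd0).ne'] at h1
    have h3 := hor hH (z := t0 * I) (by simp) (half_pos hd0) (by linarith : d / 2 ≤ 1)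
    have h4 : ‖H (t0 * I + 1) - H ζ‖ ≤ κ + κ * Real.log (2 / d) := by
      have e1 : (1 : ℝ) / (d / 2) = 2 / d := by field_simp
      rw [e1] at h3
      have e2 : H (t0 * I + 1) - H ζ = (H (t0 * I + ((1 : ℝ) : ℂ)) - H (t0 * I + ((d / 2 : ℝ) : ℂ)))
        - (H ζ - H (t0 * I + ((d / 2 : ℝ) : ℂ))) := by
        rw [Complex.ofReal_one]
        ring
      rw [e2]
      refine (norm_sub_le _ _).trans ?_
      linarith
    have h5 := norm_exp_le _ _ h4
    rw [Real.exp_add, rpow_log (by positivity)] at h5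
    have h6 : ‖exp (H (t0 * I + 1))‖ * Real.exp (-κ) * 2 ^ (-κ) * d ^ κ ≤ ‖exp (H ζ)‖ := by
      calc ‖exp (H (t0 * I + 1))‖ * Real.exp (-κ) * 2 ^ (-κ) * d ^ κ ≤
          (‖exp (H ζ)‖ * (Real.exp κ * (2 / d) ^ κ)) * Real.exp (-κ) * 2 ^ (-κ) * d ^ κ := by
            gcongr
        _ = ‖exp (H ζ)‖ := by
            rw [Real.div_rpow zero_le_two hd0.le, Real.rpow_neg zero_le_two, Real.exp_neg]
            have h7 : (0 : ℝ) < 2 ^ κ := by positivity
            have h8 : 0 < d ^ κ := by positivity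
            have h9 := Real.exp_pos κ
            field_simp
    refine le_trans ?_ l
    rw [Real.rpow_add hd0, Real.rpow_one]
    have h10 : 0 ≤ 1 - 7 / 2 * κ := by linarith
    calc (1 - 7 / 2 * κ) * (‖exp (H (t0 * I + 1))‖ * Real.exp (-κ) * 2 ^ (-κ)) * (d * d ^ κ) =
        (1 - 7 / 2 * κ) * ((‖exp (H (t0 * I + 1))‖ * Real.exp (-κ) * 2 ^ (-κ) * d ^ κ) * d) := by
          ring
      _ ≤ _ := by gcongr

end Pool.Agent.Q70.EdA
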