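import Pool.Agent.Q70.BeB
import Pool.Agent.Q70.EdC

/-! # Spherical Bessel functions and the functionals of the logarithm -/

set_option autoImplicit false

namespace Pool.Agent.Q70.BeA

open Polynomial Set MeasureTheory intervalIntegral Metric Filter Topology

/-- the spherical Bessel function -/
noncomputable def jb (n : ℕ) (x : ℝ) : ℝ :=
  x ^ n / (2 ^ (n + 1) * n.factorial) * ∫ u in (-1 : ℝ)..1, (1 - u ^ 2) ^ n * Real.cos (x * u)

theorem iteratedDeriv_exp (c : ℂ) (n : ℕ) :
    iteratedDeriv n (fun z => Complex.exp (c * z)) = fun z => c ^ n * Complex.exp (c * z) := by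
  induction n with
  | zero => simp
  | succ n ih =>
    rw [iteratedDeriv_succ, ih]
    funext z
    have h1 : HasDerivAt (fun z : ℂ => c * z) (c * 1) z := (hasDerivAt_id z).const_mul c
    have h2 := (h1.cexp.const_mul (c ^ n)).deriv
    rw [h2]
    ring

theorem odd_zero {f : ℝ → ℝ} (hf : ∀ u, f (-u) = -f u) : ∫ u in (-1 : ℝ)..1, f u = 0 := by
  have h1 := intervalIntegral.integral_comp_neg (a := (-1 : ℝ)) (b := 1) f
  simp only [hf, neg_neg] at h1
  rw [intervalIntegral.integral_neg] at h1
  linarith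

/-- the Legendre functional of an exponential -/
theorem bess (n : ℕ) (x : ℝ) :
    ∫ u in (-1 : ℝ)..1, (Lg n).eval (u : ℂ) * Complex.exp (-Complex.I * x * u) =
      2 * (-Complex.I) ^ n * (jb n x : ℂ) := by
  have h := rod n (g := fun z => Complex.exp (-Complex.I * x * z)) fun u _ =>
    (Differentiable.analyticAt (by fun_prop) _)
  rw [h, iteratedDeriv_exp]
  have h1 : ∀ u : ℝ, (1 - (u : ℂ) ^ 2) ^ n * ((-Complex.I * x) ^ n *
      Complex.exp (-Complex.I * x * u)) = (-Complex.I * x) ^ n *
      ((((1 - u ^ 2) ^ n * Real.cos (x * u) : ℝ) : ℂ) -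
        Complex.I * (((1 - u ^ 2) ^ n * Real.sin (x * u) : ℝ) : ℂ)) := by
    intro u
    have e : Complex.exp (-Complex.I * x * u) = Complex.cos ((x * u : ℝ) : ℂ) -
        Complex.I * Complex.sin ((x * u : ℝ) : ℂ) := by
      have : (-Complex.I * x * u : ℂ) = (-((x * u : ℝ) : ℂ)) * Complex.I := by
        push_cast
        ring
      rw [this, Complex.exp_mul_I, Complex.cos_neg, Complex.sin_neg]
      ring
    rw [e, ← Complex.ofReal_cos, ← Complex.ofReal_sin]
    push_cast
    ring
  simp_rw [h1]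
  rw [intervalIntegral.integral_const_mul]
  have hc1 : Continuous fun u : ℝ => (((1 - u ^ 2) ^ n * Real.cos (x * u) : ℝ) : ℂ) := by fun_prop
  have hc2 : Continuous fun u : ℝ =>
      Complex.I * (((1 - u ^ 2) ^ n * Real.sin (x * u) : ℝ) : ℂ) := by fun_prop
  rw [intervalIntegral.integral_sub (hc1.intervalIntegrable _ _) (hc2.intervalIntegrable _ _),
    intervalIntegral.integral_const_mul, intervalIntegral.integral_ofReal,
    intervalIntegral.integral_ofReal]
  have h2 : ∫ u in (-1 : ℝ)..1, (1 - u ^ 2) ^ n * Real.sin (x * u) = 0 := by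
    refine odd_zero fun u => ?_
    rw [mul_neg, Real.sin_neg]
    ring
  rw [h2]
  unfold jb
  push_cast
  have hf : (n.factorial : ℂ) ≠ 0 := by exact_mod_cast n.factorial_ne_zero
  generalize ((∫ u in (-1 : ℝ)..1, (1 - u ^ 2) ^ n * Real.cos (x * u) : ℝ) : ℂ) = A
  rw [mul_pow, pow_succ]
  field_simp
  ring

/-- the norm of the functional -/
noncomputable def KK (q : ℂ[X]) : ℝ :=
  ‖q.eval 1‖ + ‖q.eval (-1)‖ + ∫ u in (-1 : ℝ)..1, ‖(derivative q).eval (u : ℂ)‖

theorem KK_nonneg (q : ℂ[X]) : 0 ≤ KK q := by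
  unfold KK
  have := intervalIntegral.integral_nonneg (μ := volume) (by norm_num : (-1 : ℝ) ≤ 1)
    (fun u _ => norm_nonneg ((derivative q).eval (u : ℂ)))
  positivity

theorem norm_J {D : ℝ → ℂ} {q : ℂ[X]} {M : ℝ}
    (hM : ∀ u ∈ Icc (-1 : ℝ) 1, ‖D u‖ ≤ M) : ‖J D q‖ ≤ KK q * M := by
  have hM0 : 0 ≤ M := (norm_nonneg _).trans (hM 1 (by norm_num))
  unfold J KK
  have h1 : ‖q.eval 1 * D 1‖ ≤ ‖q.eval 1‖ * M := by
    rw [norm_mul]
    exact mul_le_mul_of_nonneg_left (hM 1 (by norm_num)) (norm_nonneg _)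
  have h2 : ‖q.eval (-1) * D (-1)‖ ≤ ‖q.eval (-1)‖ * M := by
    rw [norm_mul]
    exact mul_le_mul_of_nonneg_left (hM (-1) (by norm_num)) (norm_nonneg _)
  have h3 : ‖∫ u in (-1 : ℝ)..1, (derivative q).eval (u : ℂ) * D u‖ ≤
      (∫ u in (-1 : ℝ)..1, ‖(derivative q).eval (u : ℂ)‖) * M := by
    rw [← intervalIntegral.integral_mul_const]
    refine intervalIntegral.norm_integral_le_of_norm_le (by norm_num) ?_
      (Continuous.intervalIntegrable (by fun_prop) _ _)
    refine Eventually.of_forall fun u hu => ?_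
    rw [norm_mul]
    exact mul_le_mul_of_nonneg_left (hM u ⟨hu.1.le, hu.2⟩) (norm_nonneg _)
  refine (norm_sub_le _ _).trans ?_
  have h4 := norm_sub_le (q.eval 1 * D 1) (q.eval (-1) * D (-1))
  rw [add_mul, add_mul]
  linarith

/-- decay of the spherical Bessel functions -/
theorem norm_jb (n : ℕ) {x : ℝ} (hx : 0 < x) : |jb n x| ≤ KK (Lg n) / x := by
  have hc : (-Complex.I * x : ℂ) ≠ 0 := by
    have : (x : ℂ) ≠ 0 := by exact_mod_cast hx.ne'
    simp [this]
  have h1 := J_prim (G := fun z => Complex.exp (-Complex.I * x * z) / (-Complex.I * x))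
    (g := fun z => Complex.exp (-Complex.I * x * z)) (fun u _ => by
      have h1 : HasDerivAt (fun z : ℂ => -Complex.I * x * z) (-Complex.I * x * 1) (u : ℂ) :=
        (hasDerivAt_id (u : ℂ)).const_mul _
      have h2 := h1.cexp.div_const (-Complex.I * x)
      refine h2.congr_deriv ?_
      rw [mul_one, mul_div_assoc, div_self hc, mul_one]) (by fun_prop) (Lg n)
  rw [bess] at h1
  have h2 := norm_J (D := fun u : ℝ => Complex.exp (-Complex.I * x * u) / (-Complex.I * x))
    (q := Lg n) (M := 1 / x) (fun u _ => by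
      rw [norm_div]
      have e1 : ‖Complex.exp (-Complex.I * x * u)‖ = 1 := by
        have : (-Complex.I * x * u : ℂ) = ((-(x * u) : ℝ) : ℂ) * Complex.I := by
          push_cast
          ring
        rw [this, Complex.norm_exp_ofReal_mul_I]
      rw [e1, norm_mul, norm_neg, Complex.norm_I, one_mul, Complex.norm_real,
        Real.norm_of_nonneg hx.le])
  rw [h1, norm_mul, norm_mul, norm_pow, norm_neg, Complex.norm_I, one_pow, mul_one,
    Complex.norm_ofNat, Complex.norm_real, Real.norm_eq_abs] at h2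
  have h3 := abs_nonneg (jb n x)
  rw [div_eq_mul_one_div]
  linarith

/-- the primitive of the logarithm -/
noncomputable def lm (z : ℂ) : ℂ := z * (Complex.log z - 1)

theorem lm_deriv {z : ℂ} (hz : z ∈ Complex.slitPlane) : HasDerivAt lm (Complex.log z) z := by
  have h1 := (hasDerivAt_id z).mul ((Complex.hasDerivAt_log hz).sub_const 1)
  have hne := Complex.slitPlane_ne_zero hz
  refine h1.congr_deriv ?_
  simp only [id]
  field_simp
  ring

theorem lm_zero : Tendsto lm (𝓝 0) (𝓝 0) := by
  have h1 : ∀ᶠ z : ℂ in 𝓝 0, ‖lm z‖ ≤ ‖z‖ * |Real.log ‖z‖| + (Real.pi + 1) * ‖z‖ := by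
    refine Eventually.of_forall fun z => ?_
    unfold lm
    rw [norm_mul]
    have h2 : ‖Complex.log z - 1‖ ≤ |Real.log ‖z‖| + Real.pi + 1 := by
      refine (norm_sub_le _ _).trans ?_
      rw [norm_one]
      have h3 := Complex.norm_le_abs_re_add_abs_im (Complex.log z)
      rw [Complex.log_re, Complex.log_im] at h3
      have h4 := Complex.abs_arg_le_pi z
      linarith
    have := mul_le_mul_of_nonneg_left h2 (norm_nonneg z)
    nlinarith
  have h2 : Tendsto (fun z : ℂ => ‖z‖ * |Real.log ‖z‖| + (Real.pi + 1) * ‖z‖) (𝓝 0) (𝓝 0) := by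
    have c1 : Continuous fun x : ℝ => |x * Real.log x| := Real.continuous_mul_log.abs
    have c2 : Continuous fun z : ℂ => |‖z‖ * Real.log ‖z‖| + (Real.pi + 1) * ‖z‖ := by
      exact (c1.comp continuous_norm).add (by fun_prop)
    have := c2.tendsto 0
    simp only [norm_zero, zero_mul, abs_zero, mul_zero, add_zero] at this
    refine this.congr fun z => ?_
    rw [abs_mul, abs_of_nonneg (norm_nonneg z)]
  exact squeeze_zero_norm' h1 h2

theorem lm_cont : ContinuousOn lm {z : ℂ | 0 ≤ z.re} := by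
  intro z hz
  by_cases h0 : z = 0
  · subst h0
    have : ContinuousAt lm 0 := by
      unfold ContinuousAt
      have e : lm 0 = 0 := by simp [lm]
      rw [e]
      exact lm_zero
    exact this.continuousWithinAt
  · have hs : z ∈ Complex.slitPlane := by
      have hz' : 0 ≤ z.re := hz
      rcases hz'.lt_or_eq with h | h
      · exact Or.inl h
      · right
        intro him
        exact h0 (Complex.ext h.symm him)
    exact (lm_deriv hs).continuousAt.continuousWithinAt

/-- the shifted primitive converges uniformly -/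
theorem lm_unif (η : ℝ) (hη : 0 < η) : ∀ δ : ℝ, 0 < δ → ∃ ε₀ : ℝ, 0 < ε₀ ∧ ∀ ε : ℝ, 0 < ε → ε < ε₀ →
    ∀ u ∈ Icc (-1 : ℝ) 1, ‖lm (η * (ε + Complex.I * u)) / (Complex.I * η) -
      lm (η * (Complex.I * u)) / (Complex.I * η)‖ ≤ δ := by
  intro δ hδ
  set S : Set ℂ := closedBall (0 : ℂ) (2 * η) ∩ {z : ℂ | 0 ≤ z.re} with hS
  have hScomp : IsCompact S :=
    (isCompact_closedBall _ _).inter_right (isClosed_le continuous_const Complex.continuous_re)
  have huc := hScomp.uniformContinuousOn_of_continuous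
    (lm_cont.mono inter_subset_right)
  rw [Metric.uniformContinuousOn_iff_le] at huc
  obtain ⟨r, hr, h⟩ := huc (δ * η) (by positivity)
  refine ⟨min 1 (r / η), by positivity, fun ε hε hε0 u hu => ?_⟩
  have hε1 : ε < 1 := hε0.trans_le (min_le_left _ _)
  have hεr : η * ε ≤ r := by
    have := (hε0.trans_le (min_le_right _ _)).le
    rw [le_div_iff₀ hη] at this
    linarith
  have hu1 : |u| ≤ 1 := abs_le.2 ⟨hu.1, hu.2⟩
  have m1 : (η * (ε + Complex.I * u) : ℂ) ∈ S := by
    refine ⟨?_, ?_⟩
    · rw [mem_closedBall_zero_iff, norm_mul, Complex.norm_real, Real.norm_of_nonneg hη.le]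
      have h1 : ‖(ε : ℂ) + Complex.I * u‖ ≤ 2 := by
        refine (norm_add_le _ _).trans ?_
        rw [norm_mul, Complex.norm_I, one_mul, Complex.norm_real, Complex.norm_real,
          Real.norm_of_nonneg hε.le, Real.norm_eq_abs]
        linarith
      nlinarith
    · show 0 ≤ (η * (ε + Complex.I * u) : ℂ).re
      simp
      positivity
  have m2 : (η * (Complex.I * u) : ℂ) ∈ S := by
    refine ⟨?_, ?_⟩
    · rw [mem_closedBall_zero_iff, norm_mul, norm_mul, Complex.norm_real, Real.norm_of_nonneg hη.le,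
        Complex.norm_I, one_mul, Complex.norm_real, Real.norm_eq_abs]
      nlinarith
    · show 0 ≤ (η * (Complex.I * u) : ℂ).re
      simp
  have h2 := h _ m1 _ m2 (by
    rw [dist_eq_norm]
    have e : (η * (ε + Complex.I * u) : ℂ) - η * (Complex.I * u) = ((η * ε : ℝ) : ℂ) := by
      push_cast
      ring
    rw [e, Complex.norm_real, Real.norm_of_nonneg (by positivity)]
    exact hεr)
  rw [← sub_div, norm_div, norm_mul, Complex.norm_I, one_mul, Complex.norm_real,
    Real.norm_of_nonneg hη.le, div_le_iff₀ hη]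
  rwa [dist_eq_norm] at h2

/-- derivatives of the logarithm -/
theorem iter_log {η ε : ℝ} (hη : 0 < η) (k : ℕ) : ∀ z : ℂ, z.im < ε →
    iteratedDeriv (k + 1) (fun z : ℂ => Complex.log (η * (ε + Complex.I * z))) z =
      (-1) ^ k * k.factorial / (z - Complex.I * ε) ^ (k + 1) := by
  have hηc : (η : ℂ) ≠ 0 := by exact_mod_cast hη.ne'
  have hne : ∀ z : ℂ, z.im < ε → z - Complex.I * ε ≠ 0 := by
    intro z hz h
    have := congrArg Complex.im h
    simp at this
    linarith
  have hopen : IsOpen {z : ℂ | z.im < ε} := isOpen_lt Complex.continuous_im continuous_const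
  induction k with
  | zero =>
    intro z hz
    have hs : (η * (ε + Complex.I * z) : ℂ) ∈ Complex.slitPlane := by
      left
      simp
      exact mul_pos hη (by linarith)
    have h1 : HasDerivAt (fun z : ℂ => (η * (ε + Complex.I * z) : ℂ)) (η * (Complex.I * 1)) z :=
      (((hasDerivAt_id z).const_mul Complex.I).const_add (ε : ℂ)).const_mul (η : ℂ)
    rw [zero_add, iteratedDeriv_one, (h1.clog hs).deriv]
    have h2 := hne z hz
    have h3 : (ε + Complex.I * z : ℂ) ≠ 0 := by
      intro h
      have := Complex.slitPlane_ne_zero hs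
      rw [h, mul_zero] at this
      exact this rfl
    have h4 : (ε + Complex.I * z : ℂ) = Complex.I * (z - Complex.I * ε) := by
      have := Complex.I_mul_I
      linear_combination (ε : ℂ) * this
    rw [h4]
    simp only [pow_zero, Nat.factorial_zero, Nat.cast_one, one_mul, mul_one, zero_add, pow_one]
    have h5 := Complex.I_ne_zero
    field_simp
  | succ k ih =>
    intro z hz
    rw [iteratedDeriv_succ]
    have h1 : iteratedDeriv (k + 1) (fun z : ℂ => Complex.log (η * (ε + Complex.I * z))) =ᶠ[𝓝 z]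
        fun z => (-1) ^ k * k.factorial / (z - Complex.I * ε) ^ (k + 1) := by
      filter_upwards [hopen.mem_nhds hz] with y hy using ih y hy
    rw [h1.deriv_eq]
    have h2 := hne z hz
    have h3 : HasDerivAt (fun z : ℂ => (z - Complex.I * ε) ^ (k + 1))
        (((k + 1 : ℕ) : ℂ) * (z - Complex.I * ε) ^ k * 1) z :=
      ((hasDerivAt_id z).sub_const (Complex.I * ε)).fun_pow (k + 1)
    have h4 := (h3.fun_inv (pow_ne_zero _ h2)).const_mul ((-1 : ℂ) ^ k * k.factorial)
    have h5 : (fun z : ℂ => (-1 : ℂ) ^ k * k.factorial / (z - Complex.I * ε) ^ (k + 1)) =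
        fun z => (-1 : ℂ) ^ k * k.factorial * ((z - Complex.I * ε) ^ (k + 1))⁻¹ := by
      funext y
      rw [div_eq_mul_inv]
    rw [h5, h4.deriv, Nat.factorial_succ]
    push_cast
    field_simp
    ring

end Pool.Agent.Q70.BeA
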