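import Pool.Agent.Q70.BeC

/-! # The Legendre functionals of the logarithm -/

set_option autoImplicit false

namespace Pool.Agent.Q70.BeA

open Polynomial Set MeasureTheory intervalIntegral Metric Filter Topology

/-- the segment and the lower semicircle -/
theorem semicircle (n : ℕ) {ε : ℝ} (hε : 0 < ε) :
    ∫ u in (-1 : ℝ)..1, ((1 - (u : ℂ) ^ 2) / (u - Complex.I * ε)) ^ n =
      ∫ θ in (-Real.pi)..0, ((1 - (Complex.exp (θ * Complex.I)) ^ 2) /
        (Complex.exp (θ * Complex.I) - Complex.I * ε)) ^ n *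
          (Complex.I * Complex.exp (θ * Complex.I)) := by
  have hI := Complex.I_mul_I
  have hE : DifferentiableOn ℂ (fun z : ℂ =>
      ((1 - (-Complex.I * (z - ε)) ^ 2) / (-Complex.I * z)) ^ n) {z : ℂ | 0 < z.re} := by
    intro z hz
    have hz0 : z ≠ 0 := by
      intro h
      have h0 : 0 < z.re := hz
      rw [h] at h0
      simp at h0
    have h1 : (-Complex.I * z : ℂ) ≠ 0 := mul_ne_zero (neg_ne_zero.2 Complex.I_ne_zero) hz0
    have d1 : DifferentiableAt ℂ (fun z : ℂ => 1 - (-Complex.I * (z - ε)) ^ 2) z := by fun_prop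
    have d2 : DifferentiableAt ℂ (fun z : ℂ => -Complex.I * z) z := by fun_prop
    exact ((d1.div d2 h1).pow n).differentiableWithinAt
  obtain ⟨G, hG⟩ := Pool.Agent.Q70.EdA.exists_prim0 hE
  set F : ℂ → ℂ := fun w => -Complex.I * G (ε + Complex.I * w) with hF
  have hFd : ∀ w : ℂ, w.im < ε →
      HasDerivAt F (((1 - w ^ 2) / (w - Complex.I * ε)) ^ n) w := by
    intro w hw
    have hre : 0 < ((ε : ℂ) + Complex.I * w).re := by
      simp
      exact hw
    have h1 := hG _ hre
    have h2 : HasDerivAt (fun w : ℂ => (ε : ℂ) + Complex.I * w) (Complex.I * 1) w :=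
      ((hasDerivAt_id w).const_mul Complex.I).const_add (ε : ℂ)
    have h3 := (h1.comp w h2).const_mul (-Complex.I)
    refine h3.congr_deriv ?_
    have e1 : -Complex.I * ((ε : ℂ) + Complex.I * w - ε) = w := by linear_combination (-w) * hI
    have e2 : -Complex.I * ((ε : ℂ) + Complex.I * w) = w - Complex.I * ε := by
      linear_combination (-w) * hI
    rw [e1, e2]
    linear_combination (-((1 - w ^ 2) / (w - Complex.I * ε)) ^ n) * hI
  have hne : ∀ w : ℂ, w.im < ε → w - Complex.I * ε ≠ 0 := by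
    intro z hz h
    have := congrArg Complex.im h
    simp at this
    linarith
  have h1 : ∫ u in (-1 : ℝ)..1, ((1 - (u : ℂ) ^ 2) / (u - Complex.I * ε)) ^ n =
      F ((1 : ℝ) : ℂ) - F ((-1 : ℝ) : ℂ) := by
    refine intervalIntegral.integral_eq_sub_of_hasDerivAt (f := fun u : ℝ => F u) (fun u _ => ?_) ?_
    · exact (hFd u (by simpa using hε)).comp_ofReal
    · refine Continuous.intervalIntegrable ?_ _ _
      refine Continuous.pow (Continuous.div (by fun_prop) (by fun_prop) fun u => ?_) n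
      exact hne u (by simpa using hε)
  have him : ∀ θ ∈ uIcc (-Real.pi) 0, (Complex.exp (θ * Complex.I)).im ≤ 0 := by
    intro θ hθ
    rw [uIcc_of_le (by linarith [Real.pi_pos])] at hθ
    rw [Complex.exp_ofReal_mul_I_im]
    exact Real.sin_nonpos_of_nonpos_of_neg_pi_le hθ.2 hθ.1
  have h2 : ∫ θ in (-Real.pi)..0, ((1 - (Complex.exp (θ * Complex.I)) ^ 2) /
        (Complex.exp (θ * Complex.I) - Complex.I * ε)) ^ n *
          (Complex.I * Complex.exp (θ * Complex.I)) =
      F (Complex.exp (((0 : ℝ) : ℂ) * Complex.I)) -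
        F (Complex.exp (((-Real.pi : ℝ) : ℂ) * Complex.I)) := by
    refine intervalIntegral.integral_eq_sub_of_hasDerivAt
      (f := fun θ : ℝ => F (Complex.exp (θ * Complex.I))) (fun θ hθ => ?_) ?_
    · have k1 := hFd (Complex.exp (θ * Complex.I)) (lt_of_le_of_lt (him θ hθ) hε)
      have k2 : HasDerivAt (fun θ : ℝ => Complex.exp ((θ : ℂ) * Complex.I))
          (Complex.exp ((θ : ℂ) * Complex.I) * (1 * Complex.I)) θ :=
        ((Complex.ofRealCLM.hasDerivAt).mul_const Complex.I).cexp
      have k3 := HasDerivAt.comp θ k1 k2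
      refine k3.congr_deriv ?_
      ring
    · refine ContinuousOn.intervalIntegrable ?_
      refine ContinuousOn.mul (ContinuousOn.pow (ContinuousOn.div (by fun_prop) (by fun_prop)
        fun θ hθ => ?_) n) (by fun_prop)
      exact hne _ (lt_of_le_of_lt (him θ hθ) hε)
  rw [h1, h2]
  have e1 : Complex.exp (((0 : ℝ) : ℂ) * Complex.I) = ((1 : ℝ) : ℂ) := by simp
  have e2 : Complex.exp (((-Real.pi : ℝ) : ℂ) * Complex.I) = ((-1 : ℝ) : ℂ) := by
    push_cast
    rw [neg_mul, Complex.exp_neg, Complex.exp_pi_mul_I]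
    norm_num
  rw [e1, e2]

/-- the limit of the integral over the semicircle -/
theorem semi_lim (n : ℕ) : Tendsto (fun ε : ℝ => ∫ θ in (-Real.pi)..0,
      ((1 - (Complex.exp (θ * Complex.I)) ^ 2) /
        (Complex.exp (θ * Complex.I) - Complex.I * ε)) ^ n *
          (Complex.I * Complex.exp (θ * Complex.I))) (𝓝[>] 0)
      (𝓝 ((2 * Complex.I) ^ n * ((∫ θ in (0 : ℝ)..Real.pi, Real.sin θ ^ (n + 1) : ℝ) : ℂ))) := by
  have hI := Complex.I_mul_I
  have hlim : Tendsto (fun ε : ℝ => ∫ θ in (-Real.pi)..0,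
      ((1 - (Complex.exp (θ * Complex.I)) ^ 2) /
        (Complex.exp (θ * Complex.I) - Complex.I * ε)) ^ n *
          (Complex.I * Complex.exp (θ * Complex.I))) (𝓝[>] 0)
      (𝓝 (∫ θ in (-Real.pi)..0, ((1 - (Complex.exp (θ * Complex.I)) ^ 2) /
        (Complex.exp (θ * Complex.I) - Complex.I * (0 : ℝ))) ^ n *
          (Complex.I * Complex.exp (θ * Complex.I)))) := by
    refine intervalIntegral.tendsto_integral_filter_of_dominated_convergence
      (fun _ => (4 : ℝ) ^ n) ?_ ?_ ?_ ?_
    · filter_upwards [Ioo_mem_nhdsGT (show (0 : ℝ) < 1 / 2 by norm_num)] with ε hε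
      refine Continuous.aestronglyMeasurable ?_
      refine Continuous.mul (Continuous.pow (Continuous.div (by fun_prop) (by fun_prop)
        fun θ => ?_) n) (by fun_prop)
      intro h
      have h1 : Complex.exp (θ * Complex.I) = Complex.I * ε := sub_eq_zero.1 h
      have h2 := congrArg norm h1
      rw [Complex.norm_exp_ofReal_mul_I, norm_mul, Complex.norm_I, one_mul, Complex.norm_real,
        Real.norm_of_nonneg hε.1.le] at h2
      linarith [hε.2]
    · filter_upwards [Ioo_mem_nhdsGT (show (0 : ℝ) < 1 / 2 by norm_num)] with ε hε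
      refine Eventually.of_forall fun θ _ => ?_
      rw [norm_mul, norm_mul, Complex.norm_I, Complex.norm_exp_ofReal_mul_I, mul_one, mul_one,
        norm_pow]
      refine pow_le_pow_left₀ (norm_nonneg _) ?_ n
      rw [norm_div]
      have h1 : ‖1 - Complex.exp (θ * Complex.I) ^ 2‖ ≤ 2 := by
        refine (norm_sub_le _ _).trans ?_
        rw [norm_one, norm_pow, Complex.norm_exp_ofReal_mul_I]
        norm_num
      have h2 : 1 / 2 ≤ ‖Complex.exp (θ * Complex.I) - Complex.I * ε‖ := by
        have := norm_sub_norm_le (Complex.exp (θ * Complex.I)) (Complex.I * ε)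
        rw [Complex.norm_exp_ofReal_mul_I, norm_mul, Complex.norm_I, one_mul, Complex.norm_real,
          Real.norm_of_nonneg hε.1.le] at this
        linarith [hε.2]
      rw [div_le_iff₀ (by linarith)]
      linarith
    · exact _root_.intervalIntegrable_const
    · refine Eventually.of_forall fun θ _ => ?_
      have h0 : Complex.exp (θ * Complex.I) - Complex.I * ((0 : ℝ) : ℂ) ≠ 0 := by
        rw [Complex.ofReal_zero, mul_zero, sub_zero]
        exact Complex.exp_ne_zero _
      have hc0 : ContinuousAt (fun ε : ℝ => (1 - (Complex.exp (θ * Complex.I)) ^ 2) /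
        (Complex.exp (θ * Complex.I) - Complex.I * ε)) 0 :=
        ContinuousAt.div₀ (f := fun _ : ℝ => 1 - (Complex.exp (θ * Complex.I)) ^ 2)
          (g := fun ε : ℝ => Complex.exp (θ * Complex.I) - Complex.I * ε)
          continuousAt_const (by fun_prop) h0
      have hc := (hc0.pow n).mul_const (Complex.I * Complex.exp (θ * Complex.I))
      exact hc.tendsto.mono_left nhdsWithin_le_nhds
  convert hlim using 2
  have e1 : ∀ θ : ℝ, ((1 - (Complex.exp (θ * Complex.I)) ^ 2) /
        (Complex.exp (θ * Complex.I) - Complex.I * (0 : ℝ))) ^ n *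
          (Complex.I * Complex.exp (θ * Complex.I)) =
      (fun t : ℝ => (2 * Complex.I) ^ n * (Complex.I * ((Real.sin t ^ n * Real.cos t : ℝ) : ℂ) +
        ((Real.sin t ^ (n + 1) : ℝ) : ℂ))) (-θ) := by
    intro θ
    simp only []
    have hx : Complex.exp (θ * Complex.I) = Complex.cos θ + Complex.sin θ * Complex.I :=
      Complex.exp_mul_I _
    have hcs : Complex.cos (θ : ℂ) ^ 2 + Complex.sin (θ : ℂ) ^ 2 = 1 := Complex.cos_sq_add_sin_sq _
    have hq : (1 - (Complex.exp (θ * Complex.I)) ^ 2) /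
        (Complex.exp (θ * Complex.I) - Complex.I * (0 : ℝ)) = 2 * Complex.I * (-Complex.sin θ) := by
      rw [Complex.ofReal_zero, mul_zero, sub_zero, div_eq_iff (Complex.exp_ne_zero _), hx]
      linear_combination (-1 : ℂ) * hcs + (Complex.sin (θ : ℂ)) ^ 2 * hI
    rw [hq, hx, Real.sin_neg, Real.cos_neg, mul_pow]
    push_cast
    rw [pow_succ (-Complex.sin (θ : ℂ))]
    linear_combination ((2 * Complex.I) ^ n * (-Complex.sin (θ : ℂ)) ^ n * Complex.sin (θ : ℂ)) * hI
  simp_rw [e1]
  rw [intervalIntegral.integral_comp_neg (fun t : ℝ => (2 * Complex.I) ^ n *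
    (Complex.I * ((Real.sin t ^ n * Real.cos t : ℝ) : ℂ) + ((Real.sin t ^ (n + 1) : ℝ) : ℂ)))]
  rw [neg_neg, neg_zero, intervalIntegral.integral_const_mul]
  congr 1
  have hc1 : Continuous fun t : ℝ => Complex.I * ((Real.sin t ^ n * Real.cos t : ℝ) : ℂ) := by
    fun_prop
  have hc2 : Continuous fun t : ℝ => ((Real.sin t ^ (n + 1) : ℝ) : ℂ) := by fun_prop
  rw [intervalIntegral.integral_add (hc1.intervalIntegrable _ _) (hc2.intervalIntegrable _ _),
    intervalIntegral.integral_const_mul, intervalIntegral.integral_ofReal,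
    intervalIntegral.integral_ofReal]
  have h0 : ∫ t in (0 : ℝ)..Real.pi, Real.sin t ^ n * Real.cos t = 0 := by
    have := intervalIntegral.integral_eq_sub_of_hasDerivAt (a := (0 : ℝ)) (b := Real.pi)
      (f := fun t => Real.sin t ^ (n + 1) / (n + 1)) (f' := fun t => Real.sin t ^ n * Real.cos t)
      (fun t _ => by
        have h1 := ((Real.hasDerivAt_sin t).fun_pow (n + 1)).div_const (n + 1 : ℝ)
        refine h1.congr_deriv ?_
        push_cast
        have : (n + 1 : ℝ) ≠ 0 := by positivity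
        field_simp) (Continuous.intervalIntegrable (by fun_prop) _ _)
    rw [this]
    simp
  rw [h0]
  simp

theorem J_sub_fun' {D E : ℝ → ℂ} (hD : ContinuousOn D (Icc (-1) 1))
    (hE : ContinuousOn E (Icc (-1) 1)) (q : ℂ[X]) :
    J D q - J E q = J (fun u => D u - E u) q := (J_sub_fun hD hE q).symm

/-- **the functionals of the logarithm** -/
theorem J_log {η : ℝ} (hη : 0 < η) (n : ℕ) :
    J (fun u : ℝ => lm (η * (Complex.I * u)) / (Complex.I * η)) (Lg (n + 1)) =
      -(-Complex.I) ^ (n + 1) *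
        ((∫ θ in (0 : ℝ)..Real.pi, Real.sin θ ^ (n + 2) : ℝ) : ℂ) / (n + 1) := by
  have hηc : (η : ℂ) ≠ 0 := by exact_mod_cast hη.ne'
  set D0 : ℝ → ℂ := fun u : ℝ => lm (η * (Complex.I * u)) / (Complex.I * η) with hD0
  set De : ℝ → ℝ → ℂ := fun ε u => lm (η * (ε + Complex.I * u)) / (Complex.I * η) with hDe
  have cD0 : ContinuousOn D0 (Icc (-1) 1) := by
    refine ContinuousOn.div_const (lm_cont.comp (f := fun u : ℝ => (η * (Complex.I * u) : ℂ))
      (by fun_prop) ?_) _
    intro u _
    show 0 ≤ (η * (Complex.I * u) : ℂ).re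
    simp
  have cDe : ∀ ε : ℝ, 0 < ε → ContinuousOn (De ε) (Icc (-1) 1) := by
    intro ε hε
    refine ContinuousOn.div_const (lm_cont.comp (f := fun u : ℝ => (η * (ε + Complex.I * u) : ℂ))
      (by fun_prop) ?_) _
    intro u _
    show 0 ≤ (η * (ε + Complex.I * u) : ℂ).re
    simp
    positivity
  -- the approximation
  have hlim : Tendsto (fun ε : ℝ => J (De ε) (Lg (n + 1))) (𝓝[>] 0) (𝓝 (J D0 (Lg (n + 1)))) := by
    rw [Metric.tendsto_nhds]
    intro r hr
    have hK := KK_nonneg (Lg (n + 1))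
    obtain ⟨ε₀, hε₀, h⟩ := lm_unif η hη (r / (2 * (KK (Lg (n + 1)) + 1))) (by positivity)
    filter_upwards [Ioo_mem_nhdsGT hε₀] with ε hε
    rw [dist_eq_norm, J_sub_fun' (cDe ε hε.1) cD0]
    refine lt_of_le_of_lt (norm_J (h ε hε.1 hε.2)) ?_
    rw [← mul_div_assoc, div_lt_iff₀ (by positivity)]
    nlinarith
  have hval : ∀ ε : ℝ, 0 < ε → J (De ε) (Lg (n + 1)) =
      ((-1) ^ n / (2 ^ (n + 1) * (n + 1))) *
        ∫ θ in (-Real.pi)..0, ((1 - (Complex.exp (θ * Complex.I)) ^ 2) /
          (Complex.exp (θ * Complex.I) - Complex.I * ε)) ^ (n + 1) *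
            (Complex.I * Complex.exp (θ * Complex.I)) := by
    intro ε hε
    have hs : ∀ u : ℝ, (η * (ε + Complex.I * u) : ℂ) ∈ Complex.slitPlane := by
      intro u
      left
      simp
      positivity
    have h1 := J_prim (G := fun z => lm (η * (ε + Complex.I * z)) / (Complex.I * η))
      (g := fun z => Complex.log (η * (ε + Complex.I * z))) (fun u _ => by
        have k1 : HasDerivAt (fun z : ℂ => (η * (ε + Complex.I * z) : ℂ)) (η * (Complex.I * 1)) u :=
          (((hasDerivAt_id (u : ℂ)).const_mul Complex.I).const_add (ε : ℂ)).const_mul (η : ℂ)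
        have k2 := ((lm_deriv (hs u)).comp (u : ℂ) k1).div_const (Complex.I * η)
        refine k2.congr_deriv ?_
        have := Complex.I_ne_zero
        field_simp) (by
        refine ContinuousOn.clog (by fun_prop) fun u _ => hs u) (Lg (n + 1))
    have h2 : J (De ε) (Lg (n + 1)) = ∫ u in (-1 : ℝ)..1,
        (Lg (n + 1)).eval (u : ℂ) * Complex.log (η * (ε + Complex.I * u)) := h1
    rw [h2, rod (n + 1) (g := fun z => Complex.log (η * (ε + Complex.I * z))) fun u _ => by
      refine AnalyticAt.clog ?_ (hs u)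
      fun_prop]
    rw [← semicircle (n + 1) hε]
    have h3 : ∀ u : ℝ, (1 - (u : ℂ) ^ 2) ^ (n + 1) *
        iteratedDeriv (n + 1) (fun z : ℂ => Complex.log (η * (ε + Complex.I * z))) u =
        ((-1) ^ n * n.factorial) * ((1 - (u : ℂ) ^ 2) / (u - Complex.I * ε)) ^ (n + 1) := by
      intro u
      rw [iter_log hη n (u : ℂ) (by simpa using hε), div_pow]
      ring
    simp_rw [h3]
    rw [intervalIntegral.integral_const_mul, ← mul_assoc]
    congr 1
    rw [Nat.factorial_succ]
    push_cast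
    have hf : (n.factorial : ℂ) ≠ 0 := by exact_mod_cast n.factorial_ne_zero
    have hn : (n + 1 : ℂ) ≠ 0 := by exact_mod_cast Nat.succ_ne_zero n
    field_simp
  have h4 := (semi_lim (n + 1)).const_mul ((-1 : ℂ) ^ n / (2 ^ (n + 1) * (n + 1)))
  have h5 : Tendsto (fun ε : ℝ => J (De ε) (Lg (n + 1))) (𝓝[>] 0)
      (𝓝 ((-1 : ℂ) ^ n / (2 ^ (n + 1) * (n + 1)) * ((2 * Complex.I) ^ (n + 1) *
        ((∫ θ in (0 : ℝ)..Real.pi, Real.sin θ ^ (n + 1 + 1) : ℝ) : ℂ)))) := by
    refine h4.congr' ?_
    filter_upwards [self_mem_nhdsWithin] with ε hε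
    exact (hval ε hε).symm
  rw [tendsto_nhds_unique hlim h5]
  have hn : (n + 1 : ℂ) ≠ 0 := by exact_mod_cast Nat.succ_ne_zero n
  have e : (-Complex.I) ^ (n + 1) = (-1) ^ (n + 1) * Complex.I ^ (n + 1) := by
    rw [← mul_pow]
    congr 1
    ring
  rw [e, mul_pow, pow_succ (-1 : ℂ)]
  field_simp

end Pool.Agent.Q70.BeA
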