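import Pool.Agent.Q70.EdC
import Pool.Agent.H18R3.Refl

/-! # Analytic arcs and continuation across the boundary -/

set_option autoImplicit false

namespace Pool.Agent.Q70.EdA

open Set Filter Topology Complex MeasureTheory Metric

variable {κ : ℝ} {H H' F : ℂ → ℂ}

theorem convex_hb (z0 : ℂ) (r : ℝ) : Convex ℝ (ball z0 r ∩ {z : ℂ | 0 < z.re}) :=
  (convex_ball z0 r).inter (convex_halfSpace_re_gt 0)

theorem open_hb (z0 : ℂ) (r : ℝ) : IsOpen (ball z0 r ∩ {z : ℂ | 0 < z.re}) :=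
  isOpen_ball.inter open_half

/-- equal derivatives on a half-ball -/
theorem const_hb {f g d : ℂ → ℂ} {z0 : ℂ} {r : ℝ}
    (hf : ∀ z ∈ ball z0 r, 0 < z.re → HasDerivAt f (d z) z)
    (hg : ∀ z ∈ ball z0 r, 0 < z.re → HasDerivAt g (d z) z) {x y : ℂ} (hx : x ∈ ball z0 r)
    (hx0 : 0 < x.re) (hy : y ∈ ball z0 r) (hy0 : 0 < y.re) : f x - g x = f y - g y := by
  refine (convex_hb z0 r).is_const_of_fderivWithin_eq_zero (𝕜 := ℂ)
      (f := fun z => f z - g z) ?_ ?_ ⟨hx, hx0⟩ ⟨hy, hy0⟩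
  · intro x hx
    exact ((hf x hx.1 hx.2).sub (hg x hx.1 hx.2)).differentiableAt.differentiableWithinAt
  · intro x hx
    have hd := ((hf x hx.1 hx.2).sub (hg x hx.1 hx.2))
    rw [sub_self] at hd
    rw [fderivWithin_of_isOpen (open_hb z0 r) hx]
    have h3 : HasFDerivAt (fun z => f z - g z) (0 : ℂ →L[ℂ] ℂ) x := by
      have := hd.hasFDerivAt
      simp only [ContinuousLinearMap.toSpanSingleton_zero] at this
      exact this
    exact h3.fderiv

/-- an inner point of the half-ball -/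
theorem inner_pt (t0 : ℝ) {r : ℝ} (hr : 0 < r) :
    (t0 : ℂ) * I + ((r / 2 : ℝ) : ℂ) ∈ ball ((t0 : ℂ) * I) r ∧
      0 < ((t0 : ℂ) * I + ((r / 2 : ℝ) : ℂ)).re := by
  constructor
  · rw [mem_ball, dist_eq_norm, add_sub_cancel_left, Complex.norm_real,
      Real.norm_of_nonneg (by positivity)]
    linarith
  · simp
    exact hr

/-- powers of a function with a holomorphic logarithm continue together -/
theorem ext_pow {ℓ ℓ' : ℂ → ℂ} (hℓ : ∀ z : ℂ, 0 < z.re → HasDerivAt ℓ (ℓ' z) z) {a : ℂ}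
    (ha : a ≠ 0) (b : ℂ) {t0 : ℝ} {G : ℂ → ℂ} (hG : AnalyticAt ℂ G (t0 * I))
    (hG0 : G (t0 * I) ≠ 0)
    (he : ∀ᶠ z in 𝓝 ((t0 : ℂ) * I), 0 < z.re → G z = exp (a * ℓ z)) :
    ∃ G2 : ℂ → ℂ, AnalyticAt ℂ G2 (t0 * I) ∧ G2 (t0 * I) ≠ 0 ∧
      ∀ᶠ z in 𝓝 ((t0 : ℂ) * I), 0 < z.re → G2 z = exp (b * ℓ z) := by
  set z0 : ℂ := (t0 : ℂ) * I with hz0
  have h1 : ∀ᶠ z in 𝓝 z0, AnalyticAt ℂ G z := hG.eventually_analyticAt
  have h2 : ∀ᶠ z in 𝓝 z0, G z / G z0 ∈ slitPlane := by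
    have hc : ContinuousAt (fun z => G z / G z0) z0 := hG.continuousAt.div_const _
    refine hc.eventually_mem (isOpen_slitPlane.mem_nhds ?_)
    rw [div_self hG0]
    exact one_mem_slitPlane
  have h3 : ∀ᶠ z in 𝓝 z0, G z ≠ 0 := hG.continuousAt.eventually_ne hG0
  obtain ⟨r, hr, hb⟩ := Metric.eventually_nhds_iff_ball.1 (h1.and (h2.and (h3.and he)))
  set lam : ℂ → ℂ := fun z => Complex.log (G z / G z0) with hlam
  have hd : ∀ z ∈ ball z0 r, HasDerivAt lam (deriv G z / G z) z := by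
    intro z hz
    obtain ⟨b1, b2, b3, b4⟩ := hb z hz
    have := (b1.differentiableAt.hasDerivAt.div_const (G z0)).clog b2
    refine this.congr_deriv ?_
    field_simp
  have hd2 : ∀ z ∈ ball z0 r, 0 < z.re → HasDerivAt (fun z => a * ℓ z) (deriv G z / G z) z := by
    intro z hz hz0
    obtain ⟨b1, b2, b3, b4⟩ := hb z hz
    have h4 := (hℓ z hz0).const_mul a
    refine h4.congr_deriv ?_
    have h5 : G =ᶠ[𝓝 z] fun z => exp (a * ℓ z) := by
      filter_upwards [(open_hb _ r).mem_nhds ⟨hz, hz0⟩] with y hy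
      exact (hb y hy.1).2.2.2 hy.2
    have h6 : deriv G z = exp (a * ℓ z) * (a * ℓ' z) := by
      rw [h5.deriv_eq]
      exact h4.cexp.deriv
    rw [h6, b4 hz0]
    field_simp
  obtain ⟨p1, p2⟩ := inner_pt t0 hr
  rw [← hz0] at p1 p2
  set p : ℂ := z0 + ((r / 2 : ℝ) : ℂ) with hp
  set c : ℂ := a * ℓ p - lam p with hc
  refine ⟨fun z => exp (b / a * (lam z + c)), ?_, exp_ne_zero _, ?_⟩
  · have h4 : DifferentiableOn ℂ (fun z => exp (b / a * (lam z + c))) (ball z0 r) := fun z hz =>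
      (((hd z hz).differentiableAt.add_const c).const_mul (b / a)).cexp.differentiableWithinAt
    exact h4.analyticAt (isOpen_ball.mem_nhds (mem_ball_self hr))
  · filter_upwards [ball_mem_nhds z0 hr] with z hz hz0
    have h5 := const_hb (fun z hz h => hd2 z hz h) (fun z hz _ => hd z hz) hz hz0 p1 p2
    have h6 : lam z + c = a * ℓ z := by
      rw [hc, ← h5]
      ring
    rw [h6]
    congr 1
    field_simp

/-- from a continuation to an analytic arc -/
theorem bwd_arc (hF : Pr H F) {t0 : ℝ} {G : ℂ → ℂ}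
    (hG : AnalyticAt ℂ G (t0 * I)) (hG0 : G (t0 * I) ≠ 0)
    (he : ∀ᶠ z in 𝓝 ((t0 : ℂ) * I), 0 < z.re → G z = exp (H z)) :
    ∃ ψ : ℂ → ℂ, AnalyticAt ℂ ψ 0 ∧ deriv ψ 0 ≠ 0 ∧ ∃ x : ℝ → ℝ, Tendsto x (𝓝 t0) (𝓝 0) ∧
      ∀ᶠ t : ℝ in 𝓝 t0, F (t * I) = ψ (x t) := by
  set z0 : ℂ := (t0 : ℂ) * I with hz0
  obtain ⟨r, hr, hb⟩ := Metric.eventually_nhds_iff_ball.1 (hG.eventually_analyticAt.and he)
  have hd : DifferentiableOn ℂ G (ball z0 r) := fun z hz =>
    (hb z hz).1.differentiableAt.differentiableWithinAt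
  obtain ⟨P, hP0, hP⟩ := hd.isExactOn_ball.with_val_at z0 (F z0)
  have hPd : DifferentiableOn ℂ P (ball z0 r) := fun z hz =>
    (hP z hz).differentiableAt.differentiableWithinAt
  have hPa : AnalyticAt ℂ P z0 := hPd.analyticAt (isOpen_ball.mem_nhds (mem_ball_self hr))
  -- agreement on the closed half-ball
  obtain ⟨p1, p2⟩ := inner_pt t0 hr
  rw [← hz0] at p1 p2
  set p : ℂ := z0 + ((r / 2 : ℝ) : ℂ) with hp
  have hc1 : ∀ z ∈ ball z0 r, 0 < z.re → F z - P z = F p - P p := by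
    intro z hz hz0
    exact const_hb (d := fun z => exp (H z)) (fun z _ h => hF.2 z h) (fun z hz h => by
      have := hP z hz
      rw [(hb z hz).2 h] at this
      exact this) hz hz0 p1 p2
  have hc2 : ∀ t : ℝ, (t : ℂ) * I ∈ ball z0 r → F (t * I) - P (t * I) = F p - P p := by
    intro t ht
    have hcF : Tendsto (fun x : ℝ => F ((t : ℂ) * I + x)) (𝓝[>] 0) (𝓝 (F (t * I))) := by
      have h1 : ContinuousWithinAt F {z | 0 ≤ z.re} ((t : ℂ) * I) := hF.1 _ (by simp)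
      refine h1.tendsto.comp (tendsto_nhdsWithin_iff.2 ⟨?_, ?_⟩)
      · have : Continuous fun x : ℝ => (t : ℂ) * I + x := by fun_prop
        have h2 := this.tendsto 0
        simp only [Complex.ofReal_zero, add_zero] at h2
        exact h2.mono_left nhdsWithin_le_nhds
      · filter_upwards [self_mem_nhdsWithin] with x hx
        have : 0 < x := hx
        simp
        linarith
    have hcP : Tendsto (fun x : ℝ => P ((t : ℂ) * I + x)) (𝓝[>] 0) (𝓝 (P (t * I))) := by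
      have h1 : ContinuousAt P ((t : ℂ) * I) := (hP _ ht).continuousAt
      refine h1.tendsto.comp ?_
      have : Continuous fun x : ℝ => (t : ℂ) * I + x := by fun_prop
      have h2 := this.tendsto 0
      simp only [Complex.ofReal_zero, add_zero] at h2
      exact h2.mono_left nhdsWithin_le_nhds
    have hb2 : ∀ᶠ x : ℝ in 𝓝[>] 0, (t : ℂ) * I + x ∈ ball z0 r := by
      have : Continuous fun x : ℝ => (t : ℂ) * I + x := by fun_prop
      have h2 := this.tendsto 0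
      simp only [Complex.ofReal_zero, add_zero] at h2
      exact (h2.mono_left nhdsWithin_le_nhds).eventually (isOpen_ball.mem_nhds ht)
    refine tendsto_nhds_unique (hcF.sub hcP) ?_
    refine tendsto_const_nhds.congr' ?_
    filter_upwards [hb2, self_mem_nhdsWithin] with x hx hx0
    have : 0 < x := hx0
    exact (hc1 _ hx (by simp; exact this)).symm
  have hc3 : F p - P p = 0 := by
    rw [← hc2 t0 (by rw [← hz0]; exact mem_ball_self hr), ← hz0, hP0, sub_self]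
  refine ⟨fun z => P (z0 + z * I), ?_, ?_, fun t => t - t0, ?_, ?_⟩
  · have h1 : AnalyticAt ℂ (fun z : ℂ => z0 + z * I) 0 := by fun_prop
    exact AnalyticAt.comp' (by simpa using hPa) h1
  · have h1 : HasDerivAt (fun z : ℂ => z0 + z * I) (1 * I) 0 :=
      ((hasDerivAt_id (0 : ℂ)).mul_const I).const_add z0
    have h2 : HasDerivAt P (G z0) (z0 + 0 * I) := by
      rw [zero_mul, add_zero]
      exact hP z0 (mem_ball_self hr)
    have h3 := h2.comp (0 : ℂ) h1
    have h4 : deriv (fun z => P (z0 + z * I)) 0 = G z0 * (1 * I) := h3.deriv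
    rw [h4, one_mul]
    exact mul_ne_zero hG0 I_ne_zero
  · have h1 : Continuous fun t : ℝ => t - t0 := by fun_prop
    have h2 := h1.tendsto t0
    rwa [sub_self] at h2
  · have h1 : ∀ᶠ t : ℝ in 𝓝 t0, (t : ℂ) * I ∈ ball z0 r := by
      have : Continuous fun t : ℝ => (t : ℂ) * I := by fun_prop
      exact this.continuousAt.eventually_mem (isOpen_ball.mem_nhds (mem_ball_self hr))
    filter_upwards [h1] with t ht
    have h2 := hc2 t ht
    rw [hc3, sub_eq_zero] at h2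
    rw [h2]
    congr 1
    rw [hz0]
    push_cast
    ring

/-- from an analytic arc to a continuation -/
theorem fwd_arc (hH : Bl κ H H') (hκ : κ < 1) (hF : Pr H F) {t0 : ℝ} {ψ : ℂ → ℂ}
    (hψ : AnalyticAt ℂ ψ 0) (hψ' : deriv ψ 0 ≠ 0) {x : ℝ → ℝ} (hx : Tendsto x (𝓝 t0) (𝓝 0))
    (he : ∀ᶠ t : ℝ in 𝓝 t0, F (t * I) = ψ (x t)) :
    ∃ G : ℂ → ℂ, AnalyticAt ℂ G (t0 * I) ∧ G (t0 * I) ≠ 0 ∧
      ∀ᶠ z in 𝓝 ((t0 : ℂ) * I), 0 < z.re → G z = exp (H z) := by
  have hκ0 := hH.nonneg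
  set χ : ℂ → ℂ := hψ.hasStrictDerivAt.localInverse _ _ _ hψ' with hχ
  have hχa : AnalyticAt ℂ χ (ψ 0) := hψ.analyticAt_localInverse hψ'
  have hli : ∀ᶠ z in 𝓝 (0 : ℂ), χ (ψ z) = z := HasStrictDerivAt.eventually_left_inverse ..
  have hri : ∀ᶠ y in 𝓝 (ψ 0), ψ (χ y) = y := HasStrictDerivAt.eventually_right_inverse ..
  -- the value at the point
  have hx0 : x t0 = 0 := by
    by_contra hne
    have h1 := tendsto_nhds_unique (hx.mono_left (pure_le_nhds t0)) (tendsto_pure_nhds x t0)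
    exact hne h1.symm
  have hF0 : F (t0 * I) = ψ 0 := by
    have := he.self_of_nhds
    rw [hx0] at this
    simpa using this
  -- the function on the upper half-disc
  set m : ℂ → ℂ := fun ζ => (t0 : ℂ) * I - I * ζ with hm
  have hmre : ∀ ζ, (m ζ).re = ζ.im := fun ζ => by simp [hm]
  have hmc : Continuous m := by
    rw [hm]
    fun_prop
  have hm0 : m 0 = t0 * I := by simp [hm]
  have hFc : ContinuousWithinAt (fun ζ => F (m ζ)) {ζ | 0 ≤ ζ.im} 0 := by
    have h1 : ContinuousWithinAt F {z | 0 ≤ z.re} (m 0) := hF.1 _ (by rw [hm0]; simp)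
    refine ContinuousWithinAt.comp (t := {z : ℂ | 0 ≤ z.re}) (g := F) (f := m) h1
      hmc.continuousWithinAt ?_
    intro ζ hζ
    show 0 ≤ (m ζ).re
    rw [hmre]
    exact hζ
  have hFm0 : F (m 0) = ψ 0 := by rw [hm0, hF0]
  have e1 : ∀ᶠ ζ in 𝓝[{ζ : ℂ | 0 ≤ ζ.im}] 0, AnalyticAt ℂ χ (F (m ζ)) ∧ ψ (χ (F (m ζ))) = F (m ζ)
      := by
    have h1 : Tendsto (fun ζ => F (m ζ)) (𝓝[{ζ : ℂ | 0 ≤ ζ.im}] 0) (𝓝 (ψ 0)) := by
      have := hFc.tendsto
      rwa [hFm0] at this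
    exact h1.eventually (hχa.eventually_analyticAt.and hri)
  have e2 : ∀ᶠ u : ℝ in 𝓝 0, F (m u) = ψ (x (t0 - u)) ∧ χ (ψ (x (t0 - u))) = x (t0 - u) := by
    have h1 : Tendsto (fun u : ℝ => t0 - u) (𝓝 0) (𝓝 t0) := by
      have : Continuous fun u : ℝ => t0 - u := by fun_prop
      have h2 := this.tendsto 0
      rwa [sub_zero] at h2
    have h3 := h1.eventually he
    have h4 : Tendsto (fun u : ℝ => ((x (t0 - u) : ℝ) : ℂ)) (𝓝 0) (𝓝 0) := by
      have := (Complex.continuous_ofReal.tendsto 0).comp (hx.comp h1)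
      rw [Complex.ofReal_zero] at this
      exact this
    filter_upwards [h3, h4.eventually hli] with u h5 h6
    refine ⟨?_, h6⟩
    rw [← h5]
    congr 1
    rw [hm]
    push_cast
    ring
  obtain ⟨a1, ha1, hb1⟩ := Metric.mem_nhdsWithin_iff.1 e1
  obtain ⟨a2, ha2, hb2⟩ := Metric.eventually_nhds_iff_ball.1 e2
  set a := min a1 a2 with ha
  have ha0 : 0 < a := lt_min ha1 ha2
  have hin : ∀ ζ : ℂ, ‖ζ‖ < a → 0 ≤ ζ.im → AnalyticAt ℂ χ (F (m ζ)) ∧ ψ (χ (F (m ζ))) = F (m ζ) := by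
    intro ζ h1 h2
    exact hb1 ⟨by rw [mem_ball_zero_iff]; exact h1.trans_le (min_le_left _ _), h2⟩
  obtain ⟨Hh, hHd, hHe⟩ := Pool.Agent.H18R3.refl (h := fun ζ => χ (F (m ζ))) (a := a) (by
      intro ζ hζ
      have h1 : ContinuousWithinAt F {z | 0 ≤ z.re} (m ζ) := hF.1 _ (by
        show 0 ≤ (m ζ).re
        rw [hmre]
        exact hζ.2)
      have h2 : ContinuousWithinAt (fun ζ => F (m ζ)) {ζ | ‖ζ‖ < a ∧ 0 ≤ ζ.im} ζ := by
        refine ContinuousWithinAt.comp (t := {z : ℂ | 0 ≤ z.re}) (g := F) (f := m) h1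
          hmc.continuousWithinAt ?_
        intro y hy
        show 0 ≤ (m y).re
        rw [hmre]
        exact hy.2
      exact ContinuousAt.comp_continuousWithinAt (g := χ) (f := fun ζ => F (m ζ))
        (hin ζ hζ.1 hζ.2).1.continuousAt h2) (by
      intro ζ hζ
      have h1 : DifferentiableAt ℂ (fun ζ => F (m ζ)) ζ := by
        have h2 := (hF.2 (m ζ) (by rw [hmre]; exact hζ.2)).differentiableAt
        exact h2.comp ζ (by rw [hm]; fun_prop)
      exact ((hin ζ hζ.1 hζ.2.le).1.differentiableAt.comp ζ h1).differentiableWithinAt) (by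
      intro u hu
      obtain ⟨h1, h2⟩ := hb2 u (by
        rw [mem_ball_zero_iff, Real.norm_eq_abs]
        exact hu.trans_le (min_le_right _ _))
      rw [h1, h2, Complex.ofReal_im])
  -- the extension of `F`
  have hH0 : Hh 0 = 0 := by
    rw [hHe 0 (by simpa using ha0) (by simp), hFm0]
    exact hli.self_of_nhds
  have hHa : AnalyticAt ℂ Hh 0 := hHd.analyticAt (isOpen_ball.mem_nhds (mem_ball_self ha0))
  set n : ℂ → ℂ := fun z => t0 + I * z with hn
  have hn0 : n (t0 * I) = 0 := by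
    rw [hn]
    show (t0 : ℂ) + I * (t0 * I) = 0
    have := I_mul_I
    linear_combination (t0 : ℂ) * this
  have hnm : ∀ z, m (n z) = z := by
    intro z
    show (t0 : ℂ) * I - I * (t0 + I * z) = z
    have := I_mul_I
    linear_combination -z * this
  have hnim : ∀ z, (n z).im = z.re := by
    intro z
    rw [← hmre, hnm]
  have hna : AnalyticAt ℂ n (t0 * I) := by
    rw [hn]
    fun_prop
  set Ft : ℂ → ℂ := fun z => ψ (Hh (n z)) with hFt
  have hFta : AnalyticAt ℂ Ft (t0 * I) := by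
    have h1 : AnalyticAt ℂ (fun z => Hh (n z)) (t0 * I) := by
      refine AnalyticAt.comp' ?_ hna
      rw [hn0]
      exact hHa
    refine AnalyticAt.comp' ?_ h1
    rw [hn0, hH0]
    exact hψ
  have hFte : ∀ᶠ z in 𝓝 ((t0 : ℂ) * I), 0 < z.re → Ft z = F z := by
    have h1 : ∀ᶠ z in 𝓝 ((t0 : ℂ) * I), n z ∈ ball (0 : ℂ) a := by
      refine hna.continuousAt.eventually_mem (isOpen_ball.mem_nhds ?_)
      rw [hn0]
      exact mem_ball_self ha0
    filter_upwards [h1] with z hz hz0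
    rw [mem_ball_zero_iff] at hz
    have h2 : (0 : ℝ) ≤ (n z).im := by rw [hnim]; exact hz0.le
    show ψ (Hh (n z)) = F z
    rw [hHe _ hz h2, (hin _ hz h2).2, hnm]
  have hde : ∀ᶠ z in 𝓝 ((t0 : ℂ) * I), 0 < z.re → deriv Ft z = exp (H z) := by
    obtain ⟨r, hr, hb⟩ := Metric.eventually_nhds_iff_ball.1 hFte
    filter_upwards [ball_mem_nhds _ hr] with z hz hz0
    have h1 : Ft =ᶠ[𝓝 z] F := by
      filter_upwards [(open_hb _ r).mem_nhds ⟨hz, hz0⟩] with y hy
      exact hb y hy.1 hy.2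
    rw [h1.deriv_eq]
    exact (hF.2 z hz0).deriv
  refine ⟨deriv Ft, hFta.deriv, ?_, hde⟩
  -- the derivative does not vanish
  intro h0
  have hd := hFta.deriv.differentiableAt.hasDerivAt
  have hO := hd.isBigO_sub
  rw [h0] at hO
  simp only [sub_zero] at hO
  obtain ⟨C, hC⟩ := hO.bound
  have hray : Tendsto (fun t : ℝ => (t0 : ℂ) * I + t) (𝓝[>] 0) (𝓝 ((t0 : ℂ) * I)) := by
    have : Continuous fun x : ℝ => (t0 : ℂ) * I + x := by fun_prop
    have h2 := this.tendsto 0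
    simp only [Complex.ofReal_zero, add_zero] at h2
    exact h2.mono_left nhdsWithin_le_nhds
  set A := ‖exp (H (t0 * I + 1))‖ with hA
  have hA0 : 0 < A := norm_pos_iff.mpr (exp_ne_zero _)
  have h1 : ∀ᶠ t : ℝ in 𝓝[>] 0, A * t ^ κ ≤ C * t := by
    filter_upwards [hray.eventually hC, hray.eventually hde, self_mem_nhdsWithin,
      Ioo_mem_nhdsGT (zero_lt_one' ℝ)] with t k1 k2 k3 k4
    have ht : 0 < t := k3
    rw [k2 (by simp; exact ht), add_sub_cancel_left, Complex.norm_real,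
      Real.norm_of_nonneg ht.le] at k1
    refine le_trans ?_ k1
    have h5 := hor hH (z := t0 * I) (by simp) ht k4.2.le
    have h6 := norm_exp_le _ _ h5
    rw [rpow_log (by positivity), one_div, Real.inv_rpow ht.le, Complex.ofReal_one, ← hA] at h6
    have h7 : 0 < t ^ κ := by positivity
    calc A * t ^ κ ≤ (‖exp (H (t0 * I + t))‖ * (t ^ κ)⁻¹) * t ^ κ := by gcongr
      _ = _ := by field_simp
  have h2 : ∀ᶠ t : ℝ in 𝓝[>] 0, A ≤ C * t ^ (1 - κ) := by
    filter_upwards [h1, self_mem_nhdsWithin] with t k1 k2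
    have ht : 0 < t := k2
    have h7 : 0 < t ^ κ := by positivity
    have h8 : t ^ (1 - κ) * t ^ κ = t := by
      rw [← Real.rpow_add ht, sub_add_cancel, Real.rpow_one]
    have h9 : A * t ^ κ ≤ (C * t ^ (1 - κ)) * t ^ κ := by
      rw [mul_assoc, h8]
      exact k1
    exact le_of_mul_le_mul_right h9 h7
  have h3 : Tendsto (fun t : ℝ => C * t ^ (1 - κ)) (𝓝[>] 0) (𝓝 (C * 0)) := by
    have h4 : ContinuousAt (fun t : ℝ => t ^ (1 - κ)) 0 :=
      Real.continuousAt_rpow_const _ _ (Or.inr (by linarith))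
    have h5 := h4.tendsto
    rw [Real.zero_rpow (by linarith)] at h5
    exact (h5.mono_left nhdsWithin_le_nhds).const_mul C
  have h4 := ge_of_tendsto h3 h2
  rw [mul_zero] at h4
  linarith

end Pool.Agent.Q70.EdA
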