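import Pool.Agent.Q70.BeD
import Pool.Agent.Q70.EdD

/-! # Legendre functionals and continuation across a boundary point -/

set_option autoImplicit false

namespace Pool.Agent.Q70.BeA

open Polynomial Set MeasureTheory intervalIntegral Metric Filter Topology

theorem J_congr {D E : ℝ → ℂ} (h : ∀ u : ℝ, u ∈ Icc (-1 : ℝ) 1 → D u = E u) (q : ℂ[X]) :
    J D q = J E q := by
  unfold J
  rw [h 1 (by norm_num), h (-1) (by norm_num)]
  congr 1
  refine intervalIntegral.integral_congr fun u hu => ?_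
  rw [uIcc_of_le (by norm_num)] at hu
  beta_reduce
  rw [h u hu]

/-- the function on the segment -/
noncomputable def DD (P : ℂ → ℂ) (t0 η : ℝ) (r : ℤ) (u : ℂ) : ℂ :=
  (P (Complex.I * (t0 + η * u)) + r * lm (η * (Complex.I * u))) / (Complex.I * η)

variable {P Λ : ℂ → ℂ} {t0 : ℝ} {r : ℤ}

theorem DD_cont (hP : ContinuousOn P {z : ℂ | 0 ≤ z.re}) {η : ℝ} (hη : 0 < η) :
    ContinuousOn (DD P t0 η r) {u : ℂ | u.im ≤ 0} := by
  have e1 : ∀ u : ℂ, (Complex.I * (t0 + η * u) : ℂ).re = -(η * u.im) := by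
    intro u
    simp
  have e2 : ∀ u : ℂ, (η * (Complex.I * u) : ℂ).re = -(η * u.im) := by
    intro u
    simp
  unfold DD
  refine ContinuousOn.div_const (ContinuousOn.add ?_ (continuousOn_const.mul ?_)) _
  · refine hP.comp (by fun_prop) fun u hu => ?_
    have hu' : u.im ≤ 0 := hu
    show 0 ≤ (Complex.I * (t0 + η * u) : ℂ).re
    rw [e1]
    nlinarith
  · refine lm_cont.comp (by fun_prop) fun u hu => ?_
    have hu' : u.im ≤ 0 := hu
    show 0 ≤ (η * (Complex.I * u) : ℂ).re
    rw [e2]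
    nlinarith

theorem DD_deriv (hΛ : ∀ z : ℂ, 0 < z.re → HasDerivAt P (Λ z) z) {η : ℝ} (hη : 0 < η) {u : ℂ}
    (hu : u.im < 0) : HasDerivAt (DD P t0 η r)
      (Λ (Complex.I * (t0 + η * u)) + r * Complex.log (η * (Complex.I * u))) u := by
  have hηc : (η : ℂ) ≠ 0 := by exact_mod_cast hη.ne'
  have e1 : 0 < (Complex.I * (t0 + η * u) : ℂ).re := by
    simp
    exact mul_neg_of_pos_of_neg hη hu
  have e2 : (η * (Complex.I * u) : ℂ) ∈ Complex.slitPlane := by
    left
    simp
    exact mul_neg_of_pos_of_neg hη hu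
  have h1 : HasDerivAt (fun u : ℂ => (Complex.I * (t0 + η * u) : ℂ)) (Complex.I * (η * 1)) u :=
    (((hasDerivAt_id u).const_mul (η : ℂ)).const_add (t0 : ℂ)).const_mul Complex.I
  have h2 : HasDerivAt (fun u : ℂ => (η * (Complex.I * u) : ℂ)) (η * (Complex.I * 1)) u :=
    ((hasDerivAt_id u).const_mul Complex.I).const_mul (η : ℂ)
  have h3 := (((hΛ _ e1).comp u h1).add (((lm_deriv e2).comp u h2).const_mul (r : ℂ))).div_const
    (Complex.I * η)
  refine h3.congr_deriv ?_
  have := Complex.I_ne_zero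
  field_simp

/-- **from the segment to the half-disc** -/
theorem half_disc (hP : ContinuousOn P {z : ℂ | 0 ≤ z.re})
    (hΛ : ∀ z : ℂ, 0 < z.re → HasDerivAt P (Λ z) z) {η : ℝ} (hη : 0 < η) {G g : ℂ → ℂ} {ρ : ℝ}
    (hρ : 1 < ρ) (hG : ∀ z ∈ ball (0 : ℂ) ρ, HasDerivAt G (g z) z)
    (he : ∀ u : ℝ, u ∈ Icc (-1 : ℝ) 1 → DD P t0 η r u = G u) {u : ℂ} (hu : u.im < 0)
    (huρ : ‖u‖ < ρ) :
    Λ (Complex.I * (t0 + η * u)) + r * Complex.log (η * (Complex.I * u)) = g u := by
  -- the difference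
  set k : ℂ → ℂ := fun u => DD P t0 η r u - G u with hk
  have hGd : DifferentiableOn ℂ G (ball 0 ρ) := fun z hz =>
    (hG z hz).differentiableAt.differentiableWithinAt
  have hkc : ContinuousOn k (ball 0 ρ ∩ {u : ℂ | u.im ≤ 0}) :=
    ((DD_cont hP hη).mono inter_subset_right).sub (hGd.continuousOn.mono inter_subset_left)
  have hkd : ∀ u ∈ ball (0 : ℂ) ρ, u.im < 0 → HasDerivAt k
      (Λ (Complex.I * (t0 + η * u)) + r * Complex.log (η * (Complex.I * u)) - g u) u :=
    fun u hu hu0 => (DD_deriv hΛ hη hu0).sub (hG u hu)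
  -- reflection on the unit disc
  obtain ⟨Hh, hHd, hHe⟩ := Pool.Agent.H18R3.refl (h := fun ζ => k (-ζ)) (a := 1) (by
      refine hkc.comp (by fun_prop) fun ζ hζ => ?_
      refine ⟨?_, ?_⟩
      · rw [mem_ball_zero_iff, norm_neg]
        exact hζ.1.trans hρ
      · show (-ζ).im ≤ 0
        rw [Complex.neg_im]
        linarith [hζ.2]) (by
      intro ζ hζ
      have h1 : (-ζ) ∈ ball (0 : ℂ) ρ := by
        rw [mem_ball_zero_iff, norm_neg]
        exact hζ.1.trans hρ
      have h2 := (hkd (-ζ) h1 (by rw [Complex.neg_im]; linarith [hζ.2])).differentiableAt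
      exact (h2.comp ζ (by fun_prop)).differentiableWithinAt) (by
      intro x hx
      have h1 : k (-(x : ℂ)) = 0 := by
        have := he (-x) (by
          rw [abs_lt] at hx
          exact ⟨by linarith [hx.2], by linarith [hx.1]⟩)
        rw [Complex.ofReal_neg] at this
        rw [hk]
        simp only []
        rw [this, sub_self]
      rw [h1, Complex.zero_im])
  have hH0 : ∀ x : ℝ, |x| < 1 → Hh x = 0 := by
    intro x hx
    rw [hHe x (by rwa [Complex.norm_real]) (by simp)]
    have := he (-x) (by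
      rw [abs_lt] at hx
      exact ⟨by linarith [hx.2], by linarith [hx.1]⟩)
    rw [Complex.ofReal_neg] at this
    show k (-(x : ℂ)) = 0
    rw [hk]
    simp only []
    rw [this, sub_self]
  have hHan : AnalyticOnNhd ℂ Hh (ball 0 1) := hHd.analyticOnNhd isOpen_ball
  have hHz : ∀ ζ ∈ ball (0 : ℂ) 1, Hh ζ = 0 := by
    refine hHan.eqOn_zero_of_preconnected_of_frequently_eq_zero
      (convex_ball 0 1).isPreconnected (mem_ball_self one_pos) ?_
    have h1 : Tendsto (fun n : ℕ => ((1 / ((n : ℝ) + 2) : ℝ) : ℂ)) atTop (𝓝[≠] 0) := by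
      rw [tendsto_nhdsWithin_iff]
      refine ⟨?_, Eventually.of_forall fun n => ?_⟩
      · have h2 : Tendsto (fun n : ℕ => (1 / ((n : ℝ) + 2) : ℝ)) atTop (𝓝 0) := by
          have := (tendsto_one_div_add_atTop_nhds_zero_nat (𝕜 := ℝ)).comp (tendsto_add_atTop_nat 1)
          refine this.congr fun n => ?_
          simp only [Function.comp]
          push_cast
          ring_nf
        have := (Complex.continuous_ofReal.tendsto 0).comp h2
        rw [Complex.ofReal_zero] at this
        exact this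
      · show ((1 / ((n : ℝ) + 2) : ℝ) : ℂ) ≠ 0
        have : (1 / ((n : ℝ) + 2) : ℝ) ≠ 0 := by positivity
        exact_mod_cast this
    refine h1.frequently (Frequently.of_forall fun n => ?_)
    refine hH0 _ ?_
    rw [abs_of_pos (by positivity), div_lt_one (by positivity)]
    have : (0 : ℝ) ≤ n := Nat.cast_nonneg n
    linarith
  -- the difference vanishes on the lower half of the unit disc
  have hk1 : ∀ u ∈ ball (0 : ℂ) 1, u.im < 0 → k u = 0 := by
    intro u hu hu0
    have h1 : (-u) ∈ ball (0 : ℂ) 1 := by rwa [mem_ball_zero_iff, norm_neg, ← mem_ball_zero_iff]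
    have h2 := hHe (-u) (by rwa [← mem_ball_zero_iff]) (by rw [Complex.neg_im]; linarith)
    rw [hHz _ h1] at h2
    simp only [neg_neg] at h2
    exact h2.symm
  -- and on the whole half-disc
  set S : Set ℂ := ball (0 : ℂ) ρ ∩ {u : ℂ | u.im < 0} with hS
  have hSo : IsOpen S := isOpen_ball.inter (isOpen_lt Complex.continuous_im continuous_const)
  have hSc : Convex ℝ S := (convex_ball 0 ρ).inter (convex_halfSpace_im_lt 0)
  have hkS : DifferentiableOn ℂ k S := fun u hu =>
    (hkd u hu.1 hu.2).differentiableAt.differentiableWithinAt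
  have hpt : (-(Complex.I / 2) : ℂ) ∈ S := by
    refine ⟨?_, ?_⟩
    · rw [mem_ball_zero_iff, norm_neg, norm_div, Complex.norm_I, Complex.norm_ofNat]
      linarith
    · show (-(Complex.I / 2) : ℂ).im < 0
      simp
  have hkz : EqOn k 0 S := by
    refine (hkS.analyticOnNhd hSo).eqOn_zero_of_preconnected_of_eventuallyEq_zero
      hSc.isPreconnected hpt ?_
    have h1 : ball (0 : ℂ) 1 ∩ {u : ℂ | u.im < 0} ∈ 𝓝 (-(Complex.I / 2) : ℂ) := by
      refine (isOpen_ball.inter (isOpen_lt Complex.continuous_im continuous_const)).mem_nhds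
        ⟨?_, hpt.2⟩
      rw [mem_ball_zero_iff, norm_neg, norm_div, Complex.norm_I, Complex.norm_ofNat]
      norm_num
    filter_upwards [h1] with u hu using hk1 u hu.1 hu.2
  have huS : u ∈ S := ⟨by rwa [mem_ball_zero_iff], hu⟩
  have h1 := hkd u huS.1 hu
  have h2 : k =ᶠ[𝓝 u] fun _ => (0 : ℂ) := by
    filter_upwards [hSo.mem_nhds huS] with y hy using hkz hy
  have h3 := h1.unique ((hasDerivAt_const u (0 : ℂ)).congr_of_eventuallyEq h2)
  exact sub_eq_zero.1 h3

/-- `(z - z₀)^r e^{Λ}` has a holomorphic extension without zeros to the disc of radius `R` -/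
def Ext (Λ : ℂ → ℂ) (t0 : ℝ) (r : ℤ) (R : ℝ) : Prop :=
  ∃ F : ℂ → ℂ, DifferentiableOn ℂ F (ball (t0 * Complex.I) R) ∧
    (∀ z ∈ ball ((t0 : ℂ) * Complex.I) R, F z ≠ 0) ∧
    ∀ z ∈ ball ((t0 : ℂ) * Complex.I) R, 0 < z.re →
      (z - t0 * Complex.I) ^ r * Complex.exp (Λ z) = F z

/-- **from one scale to a disc** -/
theorem ext_of_bound (hP : ContinuousOn P {z : ℂ | 0 ≤ z.re})
    (hΛ : ∀ z : ℂ, 0 < z.re → HasDerivAt P (Λ z) z) {η : ℝ} (hη : 0 < η) {C y : ℝ}
    (hy : 1 + Real.sqrt 2 < y)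
    (hb : ∀ n : ℕ, 1 ≤ n → ‖J (fun u : ℝ => DD P t0 η r u) (Lg n)‖ ≤ C * (y⁻¹) ^ n) :
    Ext Λ t0 r (η * rad y) := by
  have hηc : (η : ℂ) ≠ 0 := by exact_mod_cast hη.ne'
  have hI := Complex.I_mul_I
  have hcont : ContinuousOn (fun u : ℝ => DD P t0 η r u) (Icc (-1) 1) := by
    refine (DD_cont hP hη).comp (by fun_prop) fun u _ => ?_
    show (u : ℂ).im ≤ 0
    simp
  set C' := max C ‖J (fun u : ℝ => DD P t0 η r u) (Lg 0)‖ with hC'
  have hC0 : 0 ≤ C' := (norm_nonneg _).trans (le_max_right _ _)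
  have hs2 : 0 ≤ Real.sqrt 2 := Real.sqrt_nonneg 2
  have hy0 : 0 < y := by linarith
  obtain ⟨G, g, hg, hG, he⟩ := determine hcont hC0 hy (fun n => by
    rcases Nat.eq_zero_or_pos n with h | h
    · subst h
      rw [pow_zero, mul_one]
      exact le_max_right _ _
    · exact (hb n h).trans (mul_le_mul_of_nonneg_right (le_max_left _ _) (by positivity)))
  have h1 := one_lt_rad hy
  have key : ∀ u : ℂ, u.im < 0 → ‖u‖ < rad y →
      Λ (Complex.I * (t0 + η * u)) + r * Complex.log (η * (Complex.I * u)) = g u := fun u hu huρ =>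
    half_disc hP hΛ hη h1 hG he hu huρ
  -- coordinates
  set m : ℂ → ℂ := fun z => (z - t0 * Complex.I) / (Complex.I * η) with hm
  have hmn : ∀ z, ‖m z‖ = ‖z - t0 * Complex.I‖ / η := by
    intro z
    rw [hm]
    simp only []
    rw [norm_div, norm_mul, Complex.norm_I, one_mul, Complex.norm_real, Real.norm_of_nonneg hη.le]
  have hmball : ∀ z ∈ ball ((t0 : ℂ) * Complex.I) (η * rad y), m z ∈ ball (0 : ℂ) (rad y) := by
    intro z hz
    rw [mem_ball_zero_iff, hmn, div_lt_iff₀ hη]
    rw [mem_ball, dist_eq_norm] at hz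
    linarith
  have hmi : ∀ z, (η * (Complex.I * m z) : ℂ) = z - t0 * Complex.I := by
    intro z
    rw [hm]
    simp only []
    have := Complex.I_ne_zero
    field_simp
  have hmz : ∀ z, (Complex.I * (t0 + η * m z) : ℂ) = z := by
    intro z
    have := hmi z
    linear_combination this
  have hmim : ∀ z : ℂ, 0 < z.re → (m z).im < 0 := by
    intro z hz
    have h2 := congrArg Complex.re (hmi z)
    simp at h2
    nlinarith
  refine ⟨fun z => Complex.exp (g (m z)), ?_, fun z _ => Complex.exp_ne_zero _, ?_⟩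
  · have h2 : DifferentiableOn ℂ (fun z => g (m z)) (ball ((t0 : ℂ) * Complex.I) (η * rad y)) := by
      refine hg.comp ?_ hmball
      rw [hm]
      fun_prop
    exact h2.cexp
  · intro z hz hz0
    have h2 := key (m z) (hmim z hz0) (by
      have := hmball z hz
      rwa [mem_ball_zero_iff] at this)
    rw [hmz, hmi] at h2
    have hne : z - t0 * Complex.I ≠ 0 := by
      intro h
      have := congrArg Complex.re h
      simp at this
      linarith
    show (z - t0 * Complex.I) ^ r * Complex.exp (Λ z) = Complex.exp (g (m z))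
    rw [← h2, Complex.exp_add, Complex.exp_int_mul, Complex.exp_log hne, mul_comm]

/-- a holomorphic logarithm on a disc -/
theorem exists_log {F : ℂ → ℂ} {z0 : ℂ} {R : ℝ} (hR : 0 < R) (hF : DifferentiableOn ℂ F (ball z0 R))
    (h0 : ∀ z ∈ ball z0 R, F z ≠ 0) :
    ∃ ℓ : ℂ → ℂ, DifferentiableOn ℂ ℓ (ball z0 R) ∧ ∀ z ∈ ball z0 R, Complex.exp (ℓ z) = F z := by
  have hd : DifferentiableOn ℂ (fun z => deriv F z / F z) (ball z0 R) :=
    (hF.deriv isOpen_ball).div hF h0
  obtain ⟨ℓ, hℓ0, hℓ⟩ := hd.isExactOn_ball.with_val_at z0 (Complex.log (F z0))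
  refine ⟨ℓ, fun z hz => (hℓ z hz).differentiableAt.differentiableWithinAt, fun z hz => ?_⟩
  have hFd : ∀ z ∈ ball z0 R, HasDerivAt F (deriv F z) z := fun z hz =>
    (hF.differentiableAt (isOpen_ball.mem_nhds hz)).hasDerivAt
  have hq : ∀ z ∈ ball z0 R, HasDerivAt (fun z => F z * Complex.exp (-ℓ z)) 0 z := by
    intro z hz
    have h1 := (hFd z hz).mul ((hℓ z hz).neg.cexp)
    refine h1.congr_deriv ?_
    have := h0 z hz
    simp only [Pi.neg_apply]
    field_simp
    ring
  have hc : F z * Complex.exp (-ℓ z) = F z0 * Complex.exp (-ℓ z0) := by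
    refine (convex_ball z0 R).is_const_of_fderivWithin_eq_zero (𝕜 := ℂ)
      (f := fun z => F z * Complex.exp (-ℓ z)) ?_ ?_ hz (mem_ball_self hR)
    · intro x hx
      exact (hq x hx).differentiableAt.differentiableWithinAt
    · intro x hx
      rw [fderivWithin_of_isOpen isOpen_ball hx]
      have h3 : HasFDerivAt (fun z => F z * Complex.exp (-ℓ z)) (0 : ℂ →L[ℂ] ℂ) x := by
        have := (hq x hx).hasFDerivAt
        simp only [ContinuousLinearMap.toSpanSingleton_zero] at this
        exact this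
      exact h3.fderiv
  rw [hℓ0, Complex.exp_neg, Complex.exp_neg, Complex.exp_log (h0 z0 (mem_ball_self hR)),
    mul_inv_cancel₀ (h0 z0 (mem_ball_self hR))] at hc
  have h5 := Complex.exp_ne_zero (ℓ z)
  field_simp at hc
  exact hc.symm

/-- **from a disc to all small scales** -/
theorem bound_of_ext (hP : ContinuousOn P {z : ℂ | 0 ≤ z.re})
    (hΛ : ∀ z : ℂ, 0 < z.re → HasDerivAt P (Λ z) z) {R R' : ℝ} (hE : Ext Λ t0 r R)
    (hR' : 0 < R') (hRR : R' < R) :
    ∃ η₀ C : ℝ, 0 < η₀ ∧ ∀ η : ℝ, 0 < η → η < η₀ → ∀ n : ℕ,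
      ‖J (fun u : ℝ => DD P t0 η r u) (Lg n)‖ ≤ C * (η / (2 * R')) ^ n := by
  have hR : 0 < R := by linarith
  set z0 : ℂ := (t0 : ℂ) * Complex.I with hz0
  obtain ⟨F, hF, hF0, hFe⟩ := hE
  obtain ⟨ℓ0, hℓ0, hexp⟩ := exists_log hR hF hF0
  have hΛd : DifferentiableOn ℂ Λ {z : ℂ | 0 < z.re} := by
    have h1 : DifferentiableOn ℂ P {z : ℂ | 0 < z.re} := fun z hz =>
      (hΛ z hz).differentiableAt.differentiableWithinAt
    refine (h1.deriv Pool.Agent.Q70.EdA.open_half).congr fun z hz => ?_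
    exact (hΛ z hz).deriv.symm
  have hnez : ∀ z : ℂ, 0 < z.re → z - z0 ≠ 0 := by
    intro z hz h
    have := congrArg Complex.re h
    rw [hz0] at this
    simp at this
    linarith
  have hslit : ∀ z : ℂ, 0 < z.re → z - z0 ∈ Complex.slitPlane := by
    intro z hz
    left
    rw [hz0]
    simpa using hz
  -- the difference of the logarithms is constant
  set kf : ℂ → ℂ := fun z => Λ z + r * Complex.log (z - z0) - ℓ0 z with hkf
  set S : Set ℂ := ball z0 R ∩ {z : ℂ | 0 < z.re} with hS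
  have hSo : IsOpen S := Pool.Agent.Q70.EdA.open_hb z0 R
  have hSc : Convex ℝ S := Pool.Agent.Q70.EdA.convex_hb z0 R
  have hkd : ∀ z ∈ S, DifferentiableAt ℂ kf z := by
    intro z hz
    have d1 := hΛd.differentiableAt (Pool.Agent.Q70.EdA.open_half.mem_nhds hz.2)
    have d2 : DifferentiableAt ℂ (fun z : ℂ => Complex.log (z - z0)) z :=
      DifferentiableAt.clog (by fun_prop) (hslit z hz.2)
    have d3 := hℓ0.differentiableAt (isOpen_ball.mem_nhds hz.1)
    exact (d1.add (d2.const_mul _)).sub d3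
  have hke : ∀ z ∈ S, Complex.exp (kf z) = 1 := by
    intro z hz
    rw [hkf]
    simp only []
    rw [Complex.exp_sub, hexp z hz.1, Complex.exp_add, Complex.exp_int_mul,
      Complex.exp_log (hnez z hz.2), ← hFe z hz.1 hz.2, mul_comm, div_self]
    exact mul_ne_zero (zpow_ne_zero _ (hnez z hz.2)) (Complex.exp_ne_zero _)
  have hk' : ∀ z ∈ S, HasDerivAt kf 0 z := by
    intro z hz
    have h1 := (hkd z hz).hasDerivAt
    have h2 : (fun z => Complex.exp (kf z)) =ᶠ[𝓝 z] fun _ => (1 : ℂ) := by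
      filter_upwards [hSo.mem_nhds hz] with y hy using hke y hy
    have h3 := h1.cexp.unique ((hasDerivAt_const z (1 : ℂ)).congr_of_eventuallyEq h2)
    have h4 : deriv kf z = 0 := by
      rcases mul_eq_zero.1 h3 with h | h
      · exact absurd h (Complex.exp_ne_zero _)
      · exact h
    rwa [h4] at h1
  obtain ⟨p1, p2⟩ := Pool.Agent.Q70.EdA.inner_pt t0 hR
  rw [← hz0] at p1 p2
  set p : ℂ := z0 + ((R / 2 : ℝ) : ℂ) with hp
  have hkc : ∀ z ∈ S, kf z = kf p := by
    intro z hz
    refine hSc.is_const_of_fderivWithin_eq_zero (𝕜 := ℂ) (f := kf) ?_ ?_ hz ⟨p1, p2⟩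
    · intro x hx
      exact (hk' x hx).differentiableAt.differentiableWithinAt
    · intro x hx
      rw [fderivWithin_of_isOpen hSo hx]
      have h3 : HasFDerivAt kf (0 : ℂ →L[ℂ] ℂ) x := by
        have := (hk' x hx).hasFDerivAt
        simp only [ContinuousLinearMap.toSpanSingleton_zero] at this
        exact this
      exact h3.fderiv
  -- the adjusted logarithm
  set ℓ : ℂ → ℂ := fun z => ℓ0 z + kf p with hℓ
  have hℓd : DifferentiableOn ℂ ℓ (ball z0 R) := hℓ0.add_const _
  have hΛℓ : ∀ z ∈ S, Λ z + r * Complex.log (z - z0) = ℓ z := by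
    intro z hz
    have := hkc z hz
    rw [hkf] at this
    simp only [] at this
    rw [hℓ]
    simp only []
    rw [hkf]
    simp only []
    linear_combination this
  obtain ⟨P2, hP2⟩ := hℓd.isExactOn_ball
  -- the primitives agree on the closed half-disc
  set Q : ℂ → ℂ := fun z => P z + r * lm (z - z0) - P2 z with hQ
  have hQd : ∀ z ∈ S, HasDerivAt Q 0 z := by
    intro z hz
    have h1 : HasDerivAt (fun z : ℂ => lm (z - z0)) (Complex.log (z - z0) * 1) z :=
      HasDerivAt.comp z (h₂ := lm) (h := fun z => z - z0) (lm_deriv (hslit z hz.2))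
        ((hasDerivAt_id z).sub_const z0)
    have h2 := ((hΛ z hz.2).add (h1.const_mul (r : ℂ))).sub (hP2 z hz.1)
    refine h2.congr_deriv ?_
    rw [← hΛℓ z hz]
    ring
  have hQS : ∀ z ∈ S, Q z = Q p := by
    intro z hz
    refine hSc.is_const_of_fderivWithin_eq_zero (𝕜 := ℂ) (f := Q) ?_ ?_ hz ⟨p1, p2⟩
    · intro x hx
      exact (hQd x hx).differentiableAt.differentiableWithinAt
    · intro x hx
      rw [fderivWithin_of_isOpen hSo hx]
      have h3 : HasFDerivAt Q (0 : ℂ →L[ℂ] ℂ) x := by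
        have := (hQd x hx).hasFDerivAt
        simp only [ContinuousLinearMap.toSpanSingleton_zero] at this
        exact this
      exact h3.fderiv
  have hQc : ContinuousOn Q (ball z0 R ∩ {z : ℂ | 0 ≤ z.re}) := by
    refine ContinuousOn.sub (ContinuousOn.add (hP.mono inter_subset_right)
      (continuousOn_const.mul (lm_cont.comp (by fun_prop) ?_))) ?_
    · intro z hz
      have : 0 ≤ z.re := hz.2
      show 0 ≤ (z - z0).re
      rw [hz0]
      simpa using this
    · intro z hz
      exact (hP2 z hz.1).continuousAt.continuousWithinAt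
  have hQb : ∀ t : ℝ, (t : ℂ) * Complex.I ∈ ball z0 R → Q (t * Complex.I) = Q p := by
    intro t ht
    have h1 : Tendsto (fun x : ℝ => Q ((t : ℂ) * Complex.I + x)) (𝓝[>] 0)
        (𝓝 (Q (t * Complex.I))) := by
      have h2 : ContinuousWithinAt Q (ball z0 R ∩ {z : ℂ | 0 ≤ z.re}) ((t : ℂ) * Complex.I) :=
        hQc _ ⟨ht, by simp⟩
      refine h2.tendsto.comp (tendsto_nhdsWithin_iff.2 ⟨?_, ?_⟩)
      · have : Continuous fun x : ℝ => (t : ℂ) * Complex.I + x := by fun_prop
        have h2 := this.tendsto 0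
        simp only [Complex.ofReal_zero, add_zero] at h2
        exact h2.mono_left nhdsWithin_le_nhds
      · have : Continuous fun x : ℝ => (t : ℂ) * Complex.I + x := by fun_prop
        have h2 := this.tendsto 0
        simp only [Complex.ofReal_zero, add_zero] at h2
        have h3 := (h2.mono_left (nhdsWithin_le_nhds (s := Ioi 0))).eventually
          (isOpen_ball.mem_nhds ht)
        filter_upwards [h3, self_mem_nhdsWithin] with x hx hx0
        have : 0 < x := hx0
        refine ⟨hx, ?_⟩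
        show 0 ≤ ((t : ℂ) * Complex.I + x).re
        simp
        linarith
    refine tendsto_nhds_unique h1 (tendsto_const_nhds.congr' ?_)
    have : Continuous fun x : ℝ => (t : ℂ) * Complex.I + x := by fun_prop
    have h2 := this.tendsto 0
    simp only [Complex.ofReal_zero, add_zero] at h2
    have h3 := (h2.mono_left (nhdsWithin_le_nhds (s := Ioi 0))).eventually
      (isOpen_ball.mem_nhds ht)
    filter_upwards [h3, self_mem_nhdsWithin] with x hx hx0
    have hx0' : 0 < x := hx0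
    exact (hQS _ ⟨hx, by
      show 0 < ((t : ℂ) * Complex.I + x).re
      simp
      exact hx0'⟩).symm
  -- the bound
  set R2 := (R' + R) / 2 with hR2
  have hR2R : R2 < R := by rw [hR2]; linarith
  have hR2R' : R' < R2 := by rw [hR2]; linarith
  obtain ⟨M, hM⟩ : ∃ M : ℝ, ∀ z ∈ closedBall z0 R2, ‖ℓ z‖ ≤ M :=
    (isCompact_closedBall z0 R2).exists_bound_of_continuousOn
      (hℓd.continuousOn.mono (closedBall_subset_ball hR2R))
  have hM0 : 0 ≤ M := (norm_nonneg _).trans (hM z0 (mem_closedBall_self (by linarith)))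
  refine ⟨R2 - R', 2 * M, by linarith, fun η hη hη0 n => ?_⟩
  have hηc : (η : ℂ) ≠ 0 := by exact_mod_cast hη.ne'
  -- the function on the segment is a primitive of `ℓ`
  have hcoord : ∀ u : ℂ, (Complex.I * (t0 + η * u) : ℂ) - z0 = η * (Complex.I * u) := by
    intro u
    rw [hz0]
    ring
  have hball : ∀ (u : ℂ) (x : ℝ), ‖u‖ ≤ x → η * x ≤ R2 →
      (Complex.I * (t0 + η * u) : ℂ) ∈ closedBall z0 R2 := by
    intro u x hu hx
    rw [mem_closedBall, dist_eq_norm, hcoord, norm_mul, norm_mul, Complex.norm_I, one_mul,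
      Complex.norm_real, Real.norm_of_nonneg hη.le]
    nlinarith
  set ρ := R2 / η - 1 with hρ
  have hρ0 : R' / η ≤ ρ := by
    rw [hρ, le_sub_iff_add_le, div_add_one hη.ne', div_le_div_iff_of_pos_right hη]
    linarith
  have hρp : 0 < ρ := lt_of_lt_of_le (by positivity) hρ0
  have hη1 : η * 1 ≤ R2 := by linarith
  have hDD : ∀ u : ℝ, u ∈ Icc (-1 : ℝ) 1 → DD P t0 η r u =
      (fun z : ℂ => (P2 (Complex.I * (t0 + η * z)) + Q p) / (Complex.I * η)) (u : ℂ) := by
    intro u hu
    have hn : ‖(u : ℂ)‖ ≤ 1 := by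
      rw [Complex.norm_real, Real.norm_eq_abs]
      exact abs_le.2 ⟨hu.1, hu.2⟩
    have h1 := closedBall_subset_ball hR2R (hball u 1 hn hη1)
    have e : (Complex.I * (t0 + η * u) : ℂ) = ((t0 + η * u : ℝ) : ℂ) * Complex.I := by
      push_cast
      ring
    have h2 := hQb (t0 + η * u) (by rwa [← e])
    rw [← e] at h2
    have h3 : P (Complex.I * (t0 + η * u)) + r * lm (Complex.I * (t0 + η * u) - z0) -
        P2 (Complex.I * (t0 + η * u)) = Q p := h2
    rw [hcoord] at h3
    unfold DD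
    beta_reduce
    congr 1
    linear_combination h3
  have hJ : J (fun u : ℝ => DD P t0 η r u) (Lg n) =
      J (fun u : ℝ => (fun z : ℂ => (P2 (Complex.I * (t0 + η * z)) + Q p) / (Complex.I * η))
        (u : ℂ)) (Lg n) := J_congr hDD _
  have hgan : ∀ u : ℂ, ‖u‖ ≤ 1 → AnalyticAt ℂ (fun z => ℓ (Complex.I * (t0 + η * z))) u := by
    intro u hu
    have h1 := closedBall_subset_ball hR2R (hball u 1 hu hη1)
    have h2 : AnalyticAt ℂ ℓ (Complex.I * (t0 + η * u)) := hℓd.analyticAt (isOpen_ball.mem_nhds h1)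
    exact AnalyticAt.comp' h2 (by fun_prop)
  have hnu : ∀ u : ℝ, u ∈ Icc (-1 : ℝ) 1 → ‖(u : ℂ)‖ ≤ 1 := by
    intro u hu
    rw [Complex.norm_real, Real.norm_eq_abs]
    exact abs_le.2 ⟨hu.1, hu.2⟩
  rw [hJ, J_prim (G := fun z : ℂ => (P2 (Complex.I * (t0 + η * z)) + Q p) / (Complex.I * η))
    (g := fun z => ℓ (Complex.I * (t0 + η * z))) (fun u hu => by
      have h1 := closedBall_subset_ball hR2R (hball u 1 (hnu u hu) hη1)
      have h2 : HasDerivAt (fun u : ℂ => (Complex.I * (t0 + η * u) : ℂ)) (Complex.I * (η * 1)) u :=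
        (((hasDerivAt_id (u : ℂ)).const_mul (η : ℂ)).const_add (t0 : ℂ)).const_mul Complex.I
      have h3 := (((hP2 _ h1).comp (u : ℂ) h2).add_const (Q p)).div_const (Complex.I * η)
      refine h3.congr_deriv ?_
      have := Complex.I_ne_zero
      field_simp) (fun u hu => (ContinuousAt.comp
        (g := fun z => ℓ (Complex.I * (t0 + η * z))) (f := fun u : ℝ => (u : ℂ))
        (hgan u (hnu u hu)).continuousAt (by fun_prop)).continuousWithinAt),
    rod n fun u hu => hgan u (hnu u hu)]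
  have hf : (0 : ℝ) < n.factorial := by exact_mod_cast n.factorial_pos
  have hint : ‖∫ u in (-1 : ℝ)..1, (1 - (u : ℂ) ^ 2) ^ n *
      iteratedDeriv n (fun z => ℓ (Complex.I * (t0 + η * z))) u‖ ≤
      (n.factorial * M / ρ ^ n) * |1 - (-1 : ℝ)| := by
    refine intervalIntegral.norm_integral_le_of_norm_le_const fun u hu => ?_
    rw [uIoc_of_le (by norm_num)] at hu
    have hu' : u ∈ Icc (-1 : ℝ) 1 := ⟨hu.1.le, hu.2⟩
    rw [norm_mul, norm_pow]
    have h1 : ‖1 - (u : ℂ) ^ 2‖ ≤ 1 := by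
      have e : (1 - (u : ℂ) ^ 2) = ((1 - u ^ 2 : ℝ) : ℂ) := by push_cast; ring
      rw [e, Complex.norm_real, Real.norm_eq_abs, abs_le]
      constructor <;> nlinarith [hu'.1, hu'.2]
    have h2 : ‖iteratedDeriv n (fun z => ℓ (Complex.I * (t0 + η * z))) (u : ℂ)‖ ≤
        n.factorial * M / ρ ^ n := by
      have hin : ∀ z ∈ closedBall (u : ℂ) ρ,
          (Complex.I * (t0 + η * z) : ℂ) ∈ closedBall z0 R2 := by
        intro z hz
        refine hball z (1 + ρ) ?_ ?_
        · rw [mem_closedBall, dist_eq_norm] at hz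
          have := norm_add_le (u : ℂ) (z - u)
          rw [add_sub_cancel] at this
          linarith [hnu u hu']
        · rw [hρ]
          have : η * (1 + (R2 / η - 1)) = R2 := by field_simp; ring
          rw [this]
      refine Complex.norm_iteratedDeriv_le_of_forall_mem_sphere_norm_le n hρp ?_ ?_
      · have hd : DifferentiableOn ℂ (fun z => ℓ (Complex.I * (t0 + η * z)))
            (closedBall (u : ℂ) ρ) := by
          refine hℓd.comp (by fun_prop) fun z hz => closedBall_subset_ball hR2R (hin z hz)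
        refine DifferentiableOn.diffContOnCl ?_
        exact hd.mono closure_ball_subset_closedBall
      · intro z hz
        exact hM _ (hin z (sphere_subset_closedBall hz))
    calc ‖1 - (u : ℂ) ^ 2‖ ^ n * ‖iteratedDeriv n (fun z => ℓ (Complex.I * (t0 + η * z))) (u : ℂ)‖ ≤
        1 ^ n * (n.factorial * M / ρ ^ n) := by gcongr
      _ = _ := by rw [one_pow, one_mul]
  rw [norm_mul, norm_div, norm_one, norm_mul, norm_pow, Complex.norm_ofNat, Complex.norm_natCast]
  have habs : |1 - (-1 : ℝ)| = 2 := by norm_num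
  rw [habs] at hint
  calc 1 / (2 ^ n * (n.factorial : ℝ)) * ‖∫ u in (-1 : ℝ)..1, (1 - (u : ℂ) ^ 2) ^ n *
        iteratedDeriv n (fun z => ℓ (Complex.I * (t0 + η * z))) u‖ ≤
      1 / (2 ^ n * (n.factorial : ℝ)) * ((n.factorial * M / ρ ^ n) * 2) := by gcongr
    _ = 2 * M * (1 / (2 * ρ)) ^ n := by
        rw [div_pow, mul_pow, one_pow]
        field_simp
    _ ≤ 2 * M * (η / (2 * R')) ^ n := by
        have h1 : 1 / (2 * ρ) ≤ η / (2 * R') := by
          rw [div_le_div_iff₀ (by positivity) (by positivity)]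
          rw [div_le_iff₀ hη] at hρ0
          linarith
        gcongr

end Pool.Agent.Q70.BeA
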