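import Pool.Agent.Q70.BeE
import Pool.Agent.Q255.SG.Contn

/-! # Legendre functionals of the Euler product -/

set_option autoImplicit false

namespace Pool.Agent.Q70.BeF

open NumberField IsDedekindDomain Finset Pool.Agent.H921R2.TatePole
  Pool.Agent.W350.EdgeEC Pool.Agent.W350.EdgeNF Pool.Agent.W350.EdgeV MeasureTheory Filter Topology
  Pool.Agent.Q255.SA Pool.Agent.Q255.SG Pool.Agent.Q70.BeA

variable {K : Type} [Field K] [NumberField K] {N : ℕ} {w : ℝ}

theorem J_sub_sum {ι : Type*} [DecidableEq ι] {D : ℝ → ℂ} {E : ι → ℝ → ℂ}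
    (hD : ContinuousOn D (Set.Icc (-1) 1)) (hE : ∀ v, ContinuousOn (E v) (Set.Icc (-1) 1))
    (q : Polynomial ℂ) (S : Finset ι) :
    J (fun u => D u - ∑ v ∈ S, E v u) q = J D q - ∑ v ∈ S, J (E v) q := by
  induction S using Finset.induction_on with
  | empty => simp
  | insert v S hv ih =>
    have h1 : (fun u => D u - ∑ x ∈ insert v S, E x u) =
        fun u => (fun u => D u - ∑ x ∈ S, E x u) u - E v u := by
      funext u
      rw [Finset.sum_insert hv]
      ring
    have hc : ContinuousOn (fun u => D u - ∑ x ∈ S, E x u) (Set.Icc (-1) 1) :=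
      hD.sub (continuousOn_finsetSum _ fun x _ => hE x)
    rw [h1, J_sub_fun hc (hE v), ih, Finset.sum_insert hv]
    ring

/-- the point over the segment -/
noncomputable def zt (t0 η : ℝ) (u : ℂ) : ℂ := Complex.I * (t0 + η * u)

theorem zt_re (t0 η u : ℝ) : (zt t0 η u).re = 0 := by
  unfold zt
  simp

/-- the functional of the primitive as a sum over the places -/
theorem J_PG {α : HeightOneSpectrum (𝓞 K) → Fin N → ℂ} (hα : BdK w α) {t0 η : ℝ} (hη : 0 < η)
    (q : Polynomial ℂ) :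
    HasSum (fun v => J (fun u : ℝ => pv1 w α v (zt t0 η u) / (Complex.I * η)) q)
      (J (fun u : ℝ => PG w α (zt t0 η u) / (Complex.I * η)) q) := by
  classical
  set B : HeightOneSpectrum (𝓞 K) → ℝ := fun v =>
    (N : ℝ) * (2 * (1 / ((nm v : ℝ) * Real.log (nm v)))) with hB
  have hBs : Summable B := summable_bound
  have hzc : Continuous fun u : ℝ => zt t0 η u := by
    unfold zt
    fun_prop
  have cD : ContinuousOn (fun u : ℝ => PG w α (zt t0 η u) / (Complex.I * η)) (Set.Icc (-1) 1) := by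
    refine ContinuousOn.div_const ((PG_continuousOn hα).comp hzc.continuousOn fun u _ => ?_) _
    show 0 ≤ (zt t0 η u).re
    rw [zt_re]
  have cE : ∀ v, ContinuousOn (fun u : ℝ => pv1 w α v (zt t0 η u) / (Complex.I * η))
      (Set.Icc (-1) 1) := by
    intro v
    refine ContinuousOn.div_const ?_ _
    intro u _
    have h1 : ContinuousAt (pv1 w α v) (zt t0 η u) :=
      (pv1_differentiableAt hα v (by rw [zt_re])).continuousAt
    exact (ContinuousAt.comp (g := pv1 w α v) (f := fun u : ℝ => zt t0 η u) h1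
      hzc.continuousAt).continuousWithinAt
  unfold HasSum
  rw [SummationFilter.unconditional_filter, tendsto_iff_norm_sub_tendsto_zero]
  have hK := KK_nonneg q
  have h0 : Tendsto (fun S : Finset (HeightOneSpectrum (𝓞 K)) =>
      KK q * ((∑' v, B v - ∑ v ∈ S, B v) / η)) atTop (𝓝 0) := by
    have h1 : Tendsto (fun S : Finset (HeightOneSpectrum (𝓞 K)) => ∑ v ∈ S, B v) atTop
        (𝓝 (∑' v, B v)) := hBs.hasSum
    have h2 := (((tendsto_const_nhds (x := ∑' v, B v)).sub h1).div_const η).const_mul (KK q)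
    rw [sub_self, zero_div, mul_zero] at h2
    exact h2
  refine squeeze_zero (fun S => norm_nonneg _) (fun S => ?_) h0
  rw [norm_sub_rev, ← J_sub_sum cD cE q S]
  refine norm_J fun u _ => ?_
  rw [← Finset.sum_div, ← sub_div, norm_div, norm_mul, Complex.norm_I, one_mul, Complex.norm_real,
    Real.norm_of_nonneg hη.le]
  refine div_le_div_of_nonneg_right ?_ hη.le
  have hs : Summable fun v => pv1 w α v (zt t0 η u) :=
    Summable.of_norm_bounded hBs fun v => norm_pv1 hα v (by rw [zt_re])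
  have e1 : PG w α (zt t0 η u) - ∑ v ∈ S, pv1 w α v (zt t0 η u) =
      ∑' v : { v // v ∉ S }, pv1 w α v (zt t0 η u) := by
    unfold PG
    rw [← hs.sum_add_tsum_subtype_compl S]
    ring
  have e2 : ∑' v, B v - ∑ v ∈ S, B v = ∑' v : { v // v ∉ S }, B v := by
    rw [← hBs.sum_add_tsum_subtype_compl S]
    ring
  rw [e1, e2]
  refine tsum_of_norm_bounded ((hBs.subtype _).hasSum) fun v => ?_
  exact norm_pv1 hα v.1 (by rw [zt_re])

/-- powers of the local parameter on the edge -/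
theorem bz_pow (a : ℂ) (v : HeightOneSpectrum (𝓞 K)) (t0 η : ℝ) (u : ℝ) (k : ℕ) :
    bz w a v (zt t0 η u) ^ (k + 1) =
      a ^ (k + 1) * (nm v : ℂ) ^ (-((k + 1 : ℂ) * epw w t0)) *
        Complex.exp (-Complex.I * (((k + 1) * η * Real.log (nm v) : ℝ) : ℂ) * u) := by
  have hq : (nm v : ℂ) ≠ 0 := nmC_ne v
  have hlog : Complex.log (nm v : ℂ) = ((Real.log (nm v) : ℝ) : ℂ) := (Complex.natCast_log).symm
  unfold bz
  rw [mul_pow, Complex.cpow_def_of_ne_zero hq, Complex.cpow_def_of_ne_zero hq, ← Complex.exp_nat_mul,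
    mul_assoc, ← Complex.exp_add, hlog]
  congr 2
  unfold zt epw
  push_cast
  ring

/-- the term of the Legendre-Bessel sum -/
noncomputable def term (w : ℝ) (α : HeightOneSpectrum (𝓞 K) → Fin N → ℂ) (t0 η : ℝ) (n : ℕ)
    (x : HeightOneSpectrum (𝓞 K) × ℕ) : ℂ :=
  (∑ j, α x.1 j ^ (x.2 + 1)) * (nm x.1 : ℂ) ^ (-((x.2 + 1 : ℂ) * epw w t0)) / (x.2 + 1) *
    (jb n ((x.2 + 1) * η * Real.log (nm x.1)) : ℂ)

theorem norm_term {α : HeightOneSpectrum (𝓞 K) → Fin N → ℂ} (hα : BdK w α) (t0 : ℝ) {η : ℝ}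
    (hη : 0 < η) (n : ℕ) (x : HeightOneSpectrum (𝓞 K) × ℕ) :
    ‖term w α t0 η n x‖ ≤ (N * KK (Lg n) / η) * ((1 / ((nm x.1 : ℝ) * Real.log (nm x.1))) *
      (1 / 2) ^ x.2) := by
  obtain ⟨v, k⟩ := x
  have hq : (0 : ℝ) < nm v := nm_pos v
  have hl := nm_log_pos v
  have hq2 : (2 : ℝ) ≤ nm v := by
    have h := below_le_nm v
    have h2 := (below v).2.two_le
    exact_mod_cast (by omega : 2 ≤ nm v)
  have hK := KK_nonneg (Lg n)
  unfold term
  simp only []
  rw [norm_mul, norm_div, norm_mul, Complex.norm_real, Real.norm_eq_abs,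
    Complex.norm_natCast_cpow_of_pos (by exact_mod_cast hq)]
  have h1 : ‖∑ j, α v j ^ (k + 1)‖ ≤ N * ((nm v : ℝ) ^ (w / 2)) ^ (k + 1) := by
    refine (norm_sum_le_of_le _ (n := fun _ => ((nm v : ℝ) ^ (w / 2)) ^ (k + 1))
      fun j _ => ?_).trans ?_
    · rw [norm_pow]
      exact pow_le_pow_left₀ (norm_nonneg _) (hα v j) _
    · rw [Finset.sum_const, Finset.card_univ, Fintype.card_fin, nsmul_eq_mul]
  have h2 : (-((k + 1 : ℂ) * epw w t0)).re = -((k + 1) * (w / 2 + 1)) := by
    unfold epw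
    simp
  rw [h2]
  have h3 : ‖(k + 1 : ℂ)‖ = k + 1 := by
    have : (k + 1 : ℂ) = ((k + 1 : ℕ) : ℂ) := by push_cast; ring
    rw [this, Complex.norm_natCast]
    push_cast
    ring
  rw [h3]
  have hk : (1 : ℝ) ≤ k + 1 := by
    have : (0 : ℝ) ≤ k := Nat.cast_nonneg k
    linarith
  have h4 := norm_jb n (x := (k + 1) * η * Real.log (nm v)) (by positivity)
  have h5 : ((nm v : ℝ) ^ (w / 2)) ^ (k + 1) * (nm v : ℝ) ^ (-((k + 1) * (w / 2 + 1)) : ℝ) =
      ((nm v : ℝ)⁻¹) ^ (k + 1) := by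
    rw [← Real.rpow_natCast ((nm v : ℝ) ^ (w / 2)) (k + 1), ← Real.rpow_mul hq.le, ← Real.rpow_add hq,
      ← Real.rpow_neg_one, ← Real.rpow_natCast, ← Real.rpow_mul hq.le]
    congr 1
    push_cast
    ring
  have h6 : ((nm v : ℝ)⁻¹) ^ (k + 1) ≤ (nm v : ℝ)⁻¹ * (1 / 2) ^ k := by
    rw [pow_succ, mul_comm]
    refine mul_le_mul_of_nonneg_left ?_ (by positivity)
    refine pow_le_pow_left₀ (by positivity) ?_ k
    rw [one_div]
    exact inv_anti₀ (by norm_num) hq2
  calc ‖∑ j, α v j ^ (k + 1)‖ * (nm v : ℝ) ^ (-((k + 1) * (w / 2 + 1)) : ℝ) / (k + 1) *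
        |jb n ((k + 1) * η * Real.log (nm v))| ≤
      (N * ((nm v : ℝ) ^ (w / 2)) ^ (k + 1)) * (nm v : ℝ) ^ (-((k + 1) * (w / 2 + 1)) : ℝ) / (k + 1) *
        (KK (Lg n) / ((k + 1) * η * Real.log (nm v))) := by gcongr
    _ = N * (((nm v : ℝ)⁻¹) ^ (k + 1)) / (k + 1) *
        (KK (Lg n) / ((k + 1) * η * Real.log (nm v))) := by
        rw [← h5]
        ring
    _ ≤ N * ((nm v : ℝ)⁻¹ * (1 / 2) ^ k) / 1 *
        (KK (Lg n) / (1 * η * Real.log (nm v))) := by gcongr
    _ = _ := by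
        field_simp

theorem summable_term {α : HeightOneSpectrum (𝓞 K) → Fin N → ℂ} (hα : BdK w α) (t0 : ℝ) {η : ℝ}
    (hη : 0 < η) (n : ℕ) : Summable (term w α t0 η n) := by
  have h1 : Summable fun v : HeightOneSpectrum (𝓞 K) => 1 / ((nm v : ℝ) * Real.log (nm v)) :=
    summable_place
  have h2 : Summable fun k : ℕ => ((1 : ℝ) / 2) ^ k := summable_geometric_two
  have h3 := (h1.mul_of_nonneg h2 (fun v => by
    have := nm_log_pos v
    have := nm_pos v
    positivity) fun k => by positivity).mul_left (N * KK (Lg n) / η)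
  exact Summable.of_norm_bounded h3 fun x => norm_term hα t0 hη n x

/-- one place -/
theorem J_place {α : HeightOneSpectrum (𝓞 K) → Fin N → ℂ} (hα : BdK w α) (t0 : ℝ) {η : ℝ}
    (hη : 0 < η) (n : ℕ) (v : HeightOneSpectrum (𝓞 K)) :
    HasSum (fun k : ℕ => 2 * (-Complex.I) ^ n * term w α t0 η n (v, k))
      (J (fun u : ℝ => pv1 w α v (zt t0 η u) / (Complex.I * η)) (Lg n)) := by
  have hηc : (η : ℂ) ≠ 0 := by exact_mod_cast hη.ne'
  have hzc : Continuous fun u : ℝ => zt t0 η u := by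
    unfold zt
    fun_prop
  have hbc : ∀ j, Continuous fun u : ℝ => bz w (α v j) v (zt t0 η u) := by
    intro j
    have : Continuous fun z : ℂ => bz w (α v j) v z :=
      continuous_iff_continuousAt.2 fun z => (bz_deriv w (α v j) v z).continuousAt
    exact this.comp hzc
  have hfc : Continuous fun u : ℝ => fz w α v (zt t0 η u) := by
    unfold fz
    refine continuous_finset_sum _ fun j _ => ?_
    refine (Continuous.clog (continuous_const.sub (hbc j)) fun u => ?_).neg
    left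
    show 0 < (1 - bz w (α v j) v (zt t0 η u)).re
    have h1 := (norm_bz (w := w) (hα v j) (z := zt t0 η u) (by rw [zt_re])).2
    have h2 := (le_abs_self _).trans (Complex.abs_re_le_norm (bz w (α v j) v (zt t0 η u)))
    rw [Complex.sub_re, Complex.one_re]
    linarith
  have h1 : J (fun u : ℝ => pv1 w α v (zt t0 η u) / (Complex.I * η)) (Lg n) =
      ∫ u in (-1 : ℝ)..1, (Lg n).eval (u : ℂ) * fz w α v (zt t0 η u) := by
    refine J_prim (G := fun z : ℂ => pv1 w α v (zt t0 η z) / (Complex.I * η))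
      (g := fun z => fz w α v (zt t0 η z)) (fun u _ => ?_) hfc.continuousOn (Lg n)
    have k1 := pv1_deriv hα v (z := zt t0 η u) (by rw [zt_re])
    have k2 : HasDerivAt (fun z : ℂ => zt t0 η z) (Complex.I * (η * 1)) (u : ℂ) :=
      (((hasDerivAt_id (u : ℂ)).const_mul (η : ℂ)).const_add (t0 : ℂ)).const_mul Complex.I
    have k3 := (k1.comp (u : ℂ) k2).div_const (Complex.I * η)
    refine k3.congr_deriv ?_
    have := Complex.I_ne_zero
    field_simp
  rw [h1]
  obtain ⟨M, hM⟩ : ∃ M : ℝ, ∀ u ∈ Set.Icc (-1 : ℝ) 1, ‖(Lg n).eval (u : ℂ)‖ ≤ M := by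
    have hc : ContinuousOn (fun u : ℝ => (Lg n).eval (u : ℂ)) (Set.Icc (-1) 1) := by fun_prop
    exact isCompact_Icc.exists_bound_of_continuousOn hc
  have hM0 : 0 ≤ M := (norm_nonneg _).trans (hM 0 (by norm_num))
  have hgeo : Summable fun k : ℕ => ((1 : ℝ) / 2) ^ (k + 1) :=
    (summable_nat_add_iff 1).2 summable_geometric_two
  -- one parameter
  have hj : ∀ j, HasSum (fun k : ℕ => ∫ u in (-1 : ℝ)..1,
      (Lg n).eval (u : ℂ) * (bz w (α v j) v (zt t0 η u) ^ (k + 1) / (k + 1)))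
      (∫ u in (-1 : ℝ)..1, (Lg n).eval (u : ℂ) * -Complex.log (1 - bz w (α v j) v (zt t0 η u))) := by
    intro j
    refine intervalIntegral.hasSum_integral_of_dominated_convergence
      (bound := fun k _ => M * ((1 : ℝ) / 2) ^ (k + 1)) (fun k => ?_) (fun k => ?_) ?_ ?_ ?_
    · refine Continuous.aestronglyMeasurable ?_
      have c1 : Continuous fun u : ℝ => (Lg n).eval (u : ℂ) := by fun_prop
      exact c1.mul (((hbc j).pow (k + 1)).div_const _)
    · refine Eventually.of_forall fun u hu => ?_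
      rw [Set.uIoc_of_le (by norm_num)] at hu
      rw [norm_mul]
      refine mul_le_mul (hM u ⟨hu.1.le, hu.2⟩) ?_ (norm_nonneg _) hM0
      rw [norm_div, norm_pow]
      have h2 := (norm_bz (w := w) (hα v j) (z := zt t0 η u) (by rw [zt_re])).2
      have h3 : ‖(k + 1 : ℂ)‖ = k + 1 := by
        have : (k + 1 : ℂ) = ((k + 1 : ℕ) : ℂ) := by push_cast; ring
        rw [this, Complex.norm_natCast]
        push_cast
        ring
      rw [h3]
      have hk : (1 : ℝ) ≤ k + 1 := by
        have : (0 : ℝ) ≤ k := Nat.cast_nonneg k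
        linarith
      calc ‖bz w (α v j) v (zt t0 η u)‖ ^ (k + 1) / (k + 1) ≤
          ‖bz w (α v j) v (zt t0 η u)‖ ^ (k + 1) / 1 := by gcongr
        _ ≤ (1 / 2) ^ (k + 1) := by
            rw [div_one]
            exact pow_le_pow_left₀ (norm_nonneg _) h2 _
    · exact Eventually.of_forall fun u _ => hgeo.mul_left M
    · exact _root_.intervalIntegrable_const
    · refine Eventually.of_forall fun u _ => ?_
      have h2 := (norm_bz (w := w) (hα v j) (z := zt t0 η u) (by rw [zt_re])).2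
      have h3 := Complex.hasSum_taylorSeries_neg_log (z := bz w (α v j) v (zt t0 η u))
        (by linarith)
      have h4 := (hasSum_nat_add_iff' 1).2 h3
      simp only [Finset.range_one, Finset.sum_singleton, pow_zero, Nat.cast_zero, div_zero,
        sub_zero, Nat.cast_add, Nat.cast_one] at h4
      exact h4.mul_left _
  have hval : ∀ (j : Fin N) (k : ℕ), ∫ u in (-1 : ℝ)..1,
      (Lg n).eval (u : ℂ) * (bz w (α v j) v (zt t0 η u) ^ (k + 1) / (k + 1)) =
      2 * (-Complex.I) ^ n * (α v j ^ (k + 1) * (nm v : ℂ) ^ (-((k + 1 : ℂ) * epw w t0)) / (k + 1) *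
        (jb n ((k + 1) * η * Real.log (nm v)) : ℂ)) := by
    intro j k
    have e : ∀ u : ℝ, (Lg n).eval (u : ℂ) * (bz w (α v j) v (zt t0 η u) ^ (k + 1) / (k + 1)) =
        (α v j ^ (k + 1) * (nm v : ℂ) ^ (-((k + 1 : ℂ) * epw w t0)) / (k + 1)) *
        ((Lg n).eval (u : ℂ) *
          Complex.exp (-Complex.I * (((k + 1) * η * Real.log (nm v) : ℝ) : ℂ) * u)) := by
      intro u
      rw [bz_pow]
      ring
    simp_rw [e]
    rw [intervalIntegral.integral_const_mul, bess]
    ring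
  have hsum := hasSum_sum (s := (Finset.univ : Finset (Fin N))) fun j _ => hj j
  have e1 : ∑ j, ∫ u in (-1 : ℝ)..1, (Lg n).eval (u : ℂ) *
      -Complex.log (1 - bz w (α v j) v (zt t0 η u)) =
      ∫ u in (-1 : ℝ)..1, (Lg n).eval (u : ℂ) * fz w α v (zt t0 η u) := by
    rw [← intervalIntegral.integral_finset_sum]
    · refine intervalIntegral.integral_congr fun u _ => ?_
      beta_reduce
      unfold fz
      rw [Finset.mul_sum]
    · intro j _
      refine Continuous.intervalIntegrable ?_ _ _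
      have c1 : Continuous fun u : ℝ => (Lg n).eval (u : ℂ) := by fun_prop
      refine c1.mul (Continuous.clog (continuous_const.sub (hbc j)) fun u => ?_).neg
      left
      show 0 < (1 - bz w (α v j) v (zt t0 η u)).re
      have h1 := (norm_bz (w := w) (hα v j) (z := zt t0 η u) (by rw [zt_re])).2
      have h2 := (le_abs_self _).trans (Complex.abs_re_le_norm (bz w (α v j) v (zt t0 η u)))
      rw [Complex.sub_re, Complex.one_re]
      linarith
  rw [e1] at hsum
  refine hsum.congr_fun fun k => ?_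
  simp_rw [hval]
  unfold term
  simp only []
  rw [← Finset.mul_sum, Finset.sum_mul, Finset.sum_div, Finset.sum_mul]

/-- the functional of the primitive is the Legendre-Bessel sum -/
theorem J_PG_eq {α : HeightOneSpectrum (𝓞 K) → Fin N → ℂ} (hα : BdK w α) (t0 : ℝ) {η : ℝ}
    (hη : 0 < η) (n : ℕ) :
    J (fun u : ℝ => PG w α (zt t0 η u) / (Complex.I * η)) (Lg n) =
      2 * (-Complex.I) ^ n * ∑' x, term w α t0 η n x := by
  have hs := summable_term hα t0 hη n
  have h1 := J_PG hα (t0 := t0) hη (Lg n)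
  have h2 : HasSum (fun v => ∑' k, term w α t0 η n (v, k)) (∑' x, term w α t0 η n x) :=
    hs.hasSum.prod_fiberwise fun v => (hs.prod_factor v).hasSum
  have h3 : ∀ v, J (fun u : ℝ => pv1 w α v (zt t0 η u) / (Complex.I * η)) (Lg n) =
      2 * (-Complex.I) ^ n * ∑' k, term w α t0 η n (v, k) := by
    intro v
    rw [← (J_place hα t0 hη n v).tsum_eq, tsum_mul_left]
  simp_rw [h3] at h1
  exact h1.unique (h2.mul_left _)

/-- the constants -/
noncomputable def Bw (n : ℕ) : ℝ := 1 / (2 * n) * ∫ θ in (0 : ℝ)..Real.pi, Real.sin θ ^ (n + 1)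

/-- the functional of the regularised primitive -/
theorem J_DD {α : HeightOneSpectrum (𝓞 K) → Fin N → ℂ} (hα : BdK w α) (t0 : ℝ) {η : ℝ}
    (hη : 0 < η) (r : ℤ) {n : ℕ} (hn : 1 ≤ n) :
    J (fun u : ℝ => DD (PG w α) t0 η r u) (Lg n) =
      2 * (-Complex.I) ^ n * (∑' x, term w α t0 η n x - r * (Bw n : ℂ)) := by
  obtain ⟨m, rfl⟩ : ∃ m, n = m + 1 := ⟨n - 1, by omega⟩
  have hzc : Continuous fun u : ℝ => zt t0 η u := by
    unfold zt
    fun_prop
  have cD : ContinuousOn (fun u : ℝ => PG w α (zt t0 η u) / (Complex.I * η)) (Set.Icc (-1) 1) := by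
    refine ContinuousOn.div_const ((PG_continuousOn hα).comp hzc.continuousOn fun u _ => ?_) _
    show 0 ≤ (zt t0 η u).re
    rw [zt_re]
  have cL : ContinuousOn (fun u : ℝ => -(r : ℂ) * (lm (η * (Complex.I * u)) / (Complex.I * η)))
      (Set.Icc (-1) 1) := by
    refine continuousOn_const.mul (ContinuousOn.div_const (lm_cont.comp
      (f := fun u : ℝ => (η * (Complex.I * u) : ℂ)) (by fun_prop) ?_) _)
    intro u _
    show 0 ≤ (η * (Complex.I * u) : ℂ).re
    simp
  have h1 : (fun u : ℝ => DD (PG w α) t0 η r u) = fun u : ℝ =>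
      PG w α (zt t0 η u) / (Complex.I * η) -
        (fun u : ℝ => -(r : ℂ) * (lm (η * (Complex.I * u)) / (Complex.I * η))) u := by
    funext u
    unfold DD zt
    ring
  rw [h1, J_sub_fun cD cL, J_PG_eq hα t0 hη]
  have h2 : J (fun u : ℝ => -(r : ℂ) * (lm (η * (Complex.I * u)) / (Complex.I * η))) (Lg (m + 1)) =
      -(r : ℂ) * J (fun u : ℝ => lm (η * (Complex.I * u)) / (Complex.I * η)) (Lg (m + 1)) := by
    unfold Pool.Agent.Q70.BeA.J
    have : ∫ u in (-1 : ℝ)..1, (Polynomial.derivative (Lg (m + 1))).eval (u : ℂ) *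
        (-(r : ℂ) * (lm (η * (Complex.I * u)) / (Complex.I * η))) = -(r : ℂ) *
        ∫ u in (-1 : ℝ)..1, (Polynomial.derivative (Lg (m + 1))).eval (u : ℂ) *
          (lm (η * (Complex.I * u)) / (Complex.I * η)) := by
      rw [← intervalIntegral.integral_const_mul]
      refine intervalIntegral.integral_congr fun u _ => ?_
      beta_reduce
      ring
    rw [this]
    ring
  rw [h2, J_log hη m]
  unfold Bw
  push_cast
  have hm : (m + 1 : ℂ) ≠ 0 := by exact_mod_cast Nat.succ_ne_zero m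
  field_simp

end Pool.Agent.Q70.BeF
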