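import Pool.Agent.Q70.BeF
import Mathlib.Analysis.SpecialFunctions.Integrals.Basic

/-! # Gluing, and the size of the constants -/

set_option autoImplicit false

namespace Pool.Agent.Q70.BeG

open Metric Set Filter Topology Pool.Agent.Q70.BeA Pool.Agent.Q70.BeF

variable {Λ : ℂ → ℂ} {t0 : ℝ} {r : ℤ}

theorem ext_mono {R R' : ℝ} (h : Ext Λ t0 r R) (hR : R' ≤ R) : Ext Λ t0 r R' := by
  obtain ⟨F, h1, h2, h3⟩ := h
  exact ⟨F, h1.mono (ball_subset_ball hR), fun z hz => h2 z (ball_subset_ball hR hz),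
    fun z hz => h3 z (ball_subset_ball hR hz)⟩

/-- uniqueness of the extension -/
theorem ext_unique {F G : ℂ → ℂ} {R : ℝ}
    (hF : DifferentiableOn ℂ F (ball (t0 * Complex.I) R))
    (hG : DifferentiableOn ℂ G (ball (t0 * Complex.I) R))
    (h : ∀ z ∈ ball ((t0 : ℂ) * Complex.I) R, 0 < z.re → F z = G z) :
    ∀ z ∈ ball ((t0 : ℂ) * Complex.I) R, F z = G z := by
  intro z hz
  have hR : 0 < R := pos_of_mem_ball hz
  set z1 : ℂ := (t0 : ℂ) * Complex.I + (R / 2 : ℝ) with hz1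
  have m1 : z1 ∈ ball ((t0 : ℂ) * Complex.I) R := by
    rw [hz1, mem_ball, dist_eq_norm, add_sub_cancel_left, Complex.norm_real,
      Real.norm_of_nonneg (by positivity)]
    linarith
  have hre : 0 < z1.re := by
    rw [hz1]
    simp
    exact hR
  have hS : ball ((t0 : ℂ) * Complex.I) R ∩ {z : ℂ | 0 < z.re} ∈ 𝓝 z1 :=
    (Pool.Agent.Q70.EdA.open_hb _ R).mem_nhds ⟨m1, hre⟩
  have he : F =ᶠ[𝓝 z1] G := by
    filter_upwards [hS] with y hy using h y hy.1 hy.2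
  exact (hF.analyticOnNhd isOpen_ball).eqOn_of_preconnected_of_eventuallyEq
    (hG.analyticOnNhd isOpen_ball) (convex_ball _ _).isPreconnected m1 he hz

/-- gluing -/
theorem ext_glue {R : ℝ} (h : ∀ R' : ℝ, 0 < R' → R' < R → Ext Λ t0 r R') : Ext Λ t0 r R := by
  classical
  rcases le_or_gt R 0 with hR | hR
  · refine ⟨fun _ => 1, ?_, ?_, ?_⟩ <;> rw [ball_eq_empty.2 hR] <;> simp
  choose! F h1 h2 h3 using h
  set z0 : ℂ := (t0 : ℂ) * Complex.I with hz0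
  set ρ : ℂ → ℝ := fun z => (dist z z0 + R) / 2 with hρ
  have hρ0 : ∀ z, 0 < ρ z := fun z => by
    have : 0 ≤ dist z z0 := dist_nonneg
    rw [hρ]
    beta_reduce
    linarith
  have hρR : ∀ z ∈ ball z0 R, ρ z < R := fun z hz => by
    rw [mem_ball] at hz
    rw [hρ]
    beta_reduce
    linarith
  have hzρ : ∀ z ∈ ball z0 R, z ∈ ball z0 (ρ z) := fun z hz => by
    rw [mem_ball] at hz ⊢
    rw [hρ]
    beta_reduce
    linarith
  -- two extensions agree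
  have key : ∀ R1 R2 : ℝ, 0 < R1 → R1 < R → 0 < R2 → R2 < R → R1 ≤ R2 → ∀ z ∈ ball z0 R1,
      F R1 z = F R2 z := by
    intro R1 R2 a1 b1 a2 b2 h12
    refine ext_unique (h1 R1 a1 b1) ((h1 R2 a2 b2).mono (ball_subset_ball h12)) fun z hz hre => ?_
    rw [← h3 R1 a1 b1 z hz hre, ← h3 R2 a2 b2 z (ball_subset_ball h12 hz) hre]
  have key2 : ∀ R1 R2 : ℝ, 0 < R1 → R1 < R → 0 < R2 → R2 < R → ∀ z ∈ ball z0 R1, z ∈ ball z0 R2 →
      F R1 z = F R2 z := by
    intro R1 R2 a1 b1 a2 b2 z hz hz2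
    rcases le_total R1 R2 with h12 | h12
    · exact key R1 R2 a1 b1 a2 b2 h12 z hz
    · exact (key R2 R1 a2 b2 a1 b1 h12 z hz2).symm
  refine ⟨fun z => F (ρ z) z, fun z hz => ?_, fun z hz => ?_, fun z hz hre => ?_⟩
  · have hd : DifferentiableAt ℂ (F (ρ z)) z :=
      (h1 _ (hρ0 z) (hρR z hz)).differentiableAt (isOpen_ball.mem_nhds (hzρ z hz))
    refine (hd.congr_of_eventuallyEq ?_).differentiableWithinAt
    filter_upwards [isOpen_ball.mem_nhds (hzρ z hz), isOpen_ball.mem_nhds hz] with y hy hy2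
    exact key2 _ _ (hρ0 y) (hρR y hy2) (hρ0 z) (hρR z hz) y (hzρ y hy2) hy
  · exact h2 _ (hρ0 z) (hρR z hz) z (hzρ z hz)
  · exact h3 _ (hρ0 z) (hρR z hz) z (hzρ z hz) hre

/-- Wallis -/
theorem wallis (n : ℕ) : (n + 1 : ℝ) * (∫ x in (0 : ℝ)..Real.pi, Real.sin x ^ n) *
    (∫ x in (0 : ℝ)..Real.pi, Real.sin x ^ (n + 1)) = 2 * Real.pi := by
  induction n with
  | zero =>
    simp
    ring
  | succ n ih =>
    have h := integral_sin_pow (a := 0) (b := Real.pi) n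
    simp only [Real.sin_zero, Real.sin_pi, ne_eq, Nat.add_eq_zero_iff, one_ne_zero, and_false,
      not_false_eq_true, zero_pow, zero_mul, sub_self, zero_div, zero_add] at h
    rw [show n + 1 + 1 = n + 2 by ring, h]
    have h2 : (n + 2 : ℝ) ≠ 0 := by positivity
    push_cast
    have e : ((n : ℝ) + 1 + 1) * (∫ x in (0 : ℝ)..Real.pi, Real.sin x ^ (n + 1)) *
        (((n : ℝ) + 1) / (n + 2) * ∫ x in (0 : ℝ)..Real.pi, Real.sin x ^ n) =
        (n + 1 : ℝ) * (∫ x in (0 : ℝ)..Real.pi, Real.sin x ^ n) *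
          (∫ x in (0 : ℝ)..Real.pi, Real.sin x ^ (n + 1)) := by
      field_simp
      ring
    rw [e, ih]

theorem sin_int_le (n : ℕ) : (∫ x in (0 : ℝ)..Real.pi, Real.sin x ^ n) ≤ Real.pi := by
  have h : (∫ x in (0 : ℝ)..Real.pi, Real.sin x ^ n) ≤ ∫ x in (0 : ℝ)..Real.pi, (1 : ℝ) := by
    refine intervalIntegral.integral_mono_on Real.pi_pos.le
      (Continuous.intervalIntegrable (by fun_prop) _ _)
      (Continuous.intervalIntegrable (by fun_prop) _ _) fun x hx => ?_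
    exact pow_le_one₀ (Real.sin_nonneg_of_mem_Icc hx) (Real.sin_le_one x)
  simpa using h

theorem Bw_lower {n : ℕ} (hn : 1 ≤ n) : 1 / (n * (n + 1) : ℝ) ≤ Bw n := by
  have h1 := wallis n
  have h2 := sin_int_le n
  have h3 : 0 < ∫ x in (0 : ℝ)..Real.pi, Real.sin x ^ (n + 1) := integral_sin_pow_pos _
  have hn0 : (0 : ℝ) < n := by exact_mod_cast hn
  have h4 : 2 / (n + 1 : ℝ) ≤ ∫ x in (0 : ℝ)..Real.pi, Real.sin x ^ (n + 1) := by
    rw [div_le_iff₀ (by positivity)]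
    have h5 : 2 * Real.pi ≤ (n + 1 : ℝ) * Real.pi *
        (∫ x in (0 : ℝ)..Real.pi, Real.sin x ^ (n + 1)) := by
      rw [← h1]
      gcongr
    have := Real.pi_pos
    nlinarith
  unfold Bw
  calc 1 / (n * (n + 1) : ℝ) = 1 / (2 * n) * (2 / (n + 1)) := by
        field_simp
    _ ≤ _ := by gcongr

theorem Bw_pos {n : ℕ} (hn : 1 ≤ n) : 0 < Bw n := by
  have hn0 : (0 : ℝ) < n := by exact_mod_cast hn
  exact lt_of_lt_of_le (by positivity) (Bw_lower hn)

/-- the order as a limit -/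
theorem tendsto_order {S : ℕ → ℂ} {C y : ℝ} {ρ : ℂ} (hy : 1 < y)
    (h : ∀ n : ℕ, 1 ≤ n → ‖S n - ρ * (Bw n : ℂ)‖ ≤ C * (y⁻¹) ^ n) :
    Tendsto (fun n => S n / (Bw n : ℂ)) atTop (𝓝 ρ) := by
  have hy0 : 0 < y := by linarith
  have hy1 : y⁻¹ < 1 := inv_lt_one_of_one_lt₀ hy
  have hy2 : 0 ≤ y⁻¹ := by positivity
  rw [tendsto_iff_norm_sub_tendsto_zero]
  have h0 : Tendsto (fun n : ℕ => |C| * (2 * ((n : ℝ) ^ 2 * (y⁻¹) ^ n))) atTop (𝓝 0) := by
    have := ((tendsto_pow_const_mul_const_pow_of_lt_one 2 hy2 hy1).const_mul 2).const_mul |C|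
    simpa using this
  refine squeeze_zero' (Eventually.of_forall fun n => norm_nonneg _) ?_ h0
  filter_upwards [eventually_ge_atTop 1] with n hn
  have hB := Bw_pos hn
  have hn1 : (1 : ℝ) ≤ n := by exact_mod_cast hn
  have hBc : (Bw n : ℂ) ≠ 0 := by exact_mod_cast hB.ne'
  have e : S n / (Bw n : ℂ) - ρ = (S n - ρ * (Bw n : ℂ)) / (Bw n : ℂ) := by
    field_simp
  rw [e, norm_div, Complex.norm_real, Real.norm_of_nonneg hB.le, div_le_iff₀ hB]
  calc ‖S n - ρ * (Bw n : ℂ)‖ ≤ C * (y⁻¹) ^ n := h n hn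
    _ ≤ |C| * (y⁻¹) ^ n := by
        gcongr
        exact le_abs_self C
    _ = |C| * (2 * ((n : ℝ) ^ 2 * (y⁻¹) ^ n)) * (1 / (2 * (n : ℝ) ^ 2)) := by
        field_simp
    _ ≤ |C| * (2 * ((n : ℝ) ^ 2 * (y⁻¹) ^ n)) * (1 / (n * (n + 1))) := by
        refine mul_le_mul_of_nonneg_left ?_ (by positivity)
        refine one_div_le_one_div_of_le (by positivity) ?_
        nlinarith
    _ ≤ _ := by
        gcongr
        exact Bw_lower hn

end Pool.Agent.Q70.BeG
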