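import Mathlib

/-!
# Bohr sets and joint return times along `t ^ (3/2)` and `α t ^ (3/2) + t`
-/

open Filter Topology

namespace Q70.BohrThick

/-- The upper density of a set of natural numbers (the elements `1, …, N` are counted). -/
noncomputable def upperDensity (E : Set ℕ) : ℝ :=
  limsup (fun N : ℕ => ((E ∩ Set.Icc 1 N).ncard : ℝ) / N) atTop

/-- The return set `R_f(E) = {n : E ∩ (E - ⌊f(n)⌋) ≠ ∅}`. -/
def returnSet (f : ℝ → ℝ) (E : Set ℕ) : Set ℕ :=
  {n | 1 ≤ n ∧ ∃ x ∈ E, ∃ y ∈ E, (x : ℤ) = (y : ℤ) - ⌊f n⌋}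

/-- A set of natural numbers is thick if it contains `a, a + 1, …, a + L` for every `L` and
some `a ≥ 1`. -/
def Thick (S : Set ℕ) : Prop :=
  ∀ L : ℕ, ∃ a : ℕ, 1 ≤ a ∧ ∀ i ≤ L, a + i ∈ S

/-- The Bohr-type set: the multiples `N j` of `N` for which `j α` is within `1/32` of an
integer. -/
def bohr (α : ℝ) (N : ℕ) : Set ℕ :=
  {m | ∃ j : ℕ, 1 ≤ j ∧ m = N * j ∧ ∃ k : ℤ, |(j : ℝ) * α - k| < 1 / 32}

theorem bohr_pos {α : ℝ} {N : ℕ} (hN : 1 ≤ N) : ∀ m ∈ bohr α N, 1 ≤ m := by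
  rintro m ⟨j, hj, rfl, -⟩
  exact Nat.mul_pos hN hj

/-- Counting: at least `J / 32 - 2` numbers `j ≤ J` have `j α` within `1/32` of an integer. -/
theorem count_bohr (α : ℝ) {N : ℕ} (hN : 1 ≤ N) (J : ℕ) :
    (J : ℝ) / 32 - 2 ≤ ((bohr α N ∩ Set.Icc 1 (N * J)).ncard : ℝ) := by
  classical
  -- boxes
  have hmaps : ∀ j ∈ Finset.range (J + 1),
      ⌊(Int.fract ((j : ℝ) * α)) * 32⌋₊ ∈ Finset.range 32 := by
    intro j _
    rw [Finset.mem_range]
    have h1 := Int.fract_lt_one ((j : ℝ) * α)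
    have h0 := Int.fract_nonneg ((j : ℝ) * α)
    rw [Nat.floor_lt (by positivity)]
    push_cast
    linarith
  obtain ⟨b, -, hb⟩ := Finset.exists_le_card_fiber_of_mul_le_card_of_maps_to
    (s := Finset.range (J + 1)) (t := Finset.range 32)
    (f := fun j : ℕ => ⌊(Int.fract ((j : ℝ) * α)) * 32⌋₊) (n := (J + 1) / 32) hmaps
    ⟨0, by simp⟩ (by
      rw [Finset.card_range, Finset.card_range]
      exact Nat.mul_div_le (J + 1) 32)
  set F := (Finset.range (J + 1)).filter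
    (fun j : ℕ => ⌊(Int.fract ((j : ℝ) * α)) * 32⌋₊ = b) with hF
  have hcard : (J : ℝ) / 32 - 2 ≤ (F.card : ℝ) - 1 := by
    have h1 : (((J + 1) / 32 : ℕ) : ℝ) ≤ (F.card : ℝ) := by exact_mod_cast hb
    have h2 : (J : ℝ) / 32 ≤ (((J + 1) / 32 : ℕ) : ℝ) + 1 := by
      have h3 : J + 1 < 32 * ((J + 1) / 32 + 1) := by omega
      have h4 : ((J : ℝ) + 1) < 32 * ((((J + 1) / 32 : ℕ) : ℝ) + 1) := by exact_mod_cast h3
      linarith
    linarith
  rcases F.eq_empty_or_nonempty with he | hne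
  · rw [he] at hcard
    simp only [Finset.card_empty, Nat.cast_zero] at hcard
    have : (0 : ℝ) ≤ ((bohr α N ∩ Set.Icc 1 (N * J)).ncard : ℝ) := by positivity
    linarith
  set j0 := F.min' hne with hj0
  have hj0F : j0 ∈ F := Finset.min'_mem F hne
  set G := (F.erase j0).image (fun j => N * (j - j0)) with hG
  have hGcard : G.card = F.card - 1 := by
    rw [hG, Finset.card_image_of_injOn, Finset.card_erase_of_mem hj0F]
    intro j hj j' hj' hjj
    rw [Finset.mem_coe, Finset.mem_erase] at hj hj'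
    have h1 := Finset.min'_le F j hj.2
    have h2 := Finset.min'_le F j' hj'.2
    have h3 := Nat.eq_of_mul_eq_mul_left hN hjj
    omega
  have hGsub : (G : Set ℕ) ⊆ bohr α N ∩ Set.Icc 1 (N * J) := by
    intro m hm
    rw [hG, Finset.coe_image] at hm
    obtain ⟨j, hj, rfl⟩ := hm
    rw [Finset.mem_coe, Finset.mem_erase] at hj
    obtain ⟨hjne, hjF⟩ := hj
    have hle := Finset.min'_le F j hjF
    have hlt : j0 < j := lt_of_le_of_ne hle (Ne.symm hjne)
    have hjJ : j < J + 1 := by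
      have := (Finset.mem_filter.1 hjF).1
      exact Finset.mem_range.1 this
    refine ⟨⟨j - j0, by omega, rfl, ⌊(j : ℝ) * α⌋ - ⌊(j0 : ℝ) * α⌋, ?_⟩, ?_, ?_⟩
    · have hb1 := (Finset.mem_filter.1 hjF).2
      have hb2 := (Finset.mem_filter.1 hj0F).2
      have ha1 := Nat.floor_le (a := Int.fract ((j : ℝ) * α) * 32)
        (mul_nonneg (Int.fract_nonneg _) (by norm_num))
      have ha2 := Nat.lt_floor_add_one (Int.fract ((j : ℝ) * α) * 32)
      have ha3 := Nat.floor_le (a := Int.fract ((j0 : ℝ) * α) * 32)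
        (mul_nonneg (Int.fract_nonneg _) (by norm_num))
      have ha4 := Nat.lt_floor_add_one (Int.fract ((j0 : ℝ) * α) * 32)
      rw [hb1] at ha1 ha2
      rw [hb2] at ha3 ha4
      have hf1 := Int.self_sub_floor ((j : ℝ) * α)
      have hf2 := Int.self_sub_floor ((j0 : ℝ) * α)
      push_cast [Nat.cast_sub hlt.le]
      rw [abs_lt]
      constructor <;> nlinarith
    · exact Nat.mul_pos hN (by omega)
    · exact Nat.mul_le_mul_left N (by omega)
  have hfin : (bohr α N ∩ Set.Icc 1 (N * J)).Finite := (Set.finite_Icc 1 (N * J)).inter_of_right _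
  have hle := Set.ncard_le_ncard hGsub hfin
  rw [Set.ncard_coe_finset, hGcard] at hle
  have h5 : ((F.card - 1 : ℕ) : ℝ) ≤ ((bohr α N ∩ Set.Icc 1 (N * J)).ncard : ℝ) := by
    exact_mod_cast hle
  have h6 : (F.card : ℝ) - 1 ≤ ((F.card - 1 : ℕ) : ℝ) := by
    have : F.card ≤ (F.card - 1) + 1 := by omega
    have : (F.card : ℝ) ≤ ((F.card - 1 : ℕ) : ℝ) + 1 := by exact_mod_cast this
    linarith
  linarith

theorem ncard_div_le_one (E : Set ℕ) (N : ℕ) :
    ((E ∩ Set.Icc 1 N).ncard : ℝ) / N ≤ 1 := by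
  rcases Nat.eq_zero_or_pos N with rfl | hN
  · simp
  · rw [div_le_one (by exact_mod_cast hN)]
    have h1 : (E ∩ Set.Icc 1 N).ncard ≤ (Set.Icc 1 N).ncard :=
      Set.ncard_le_ncard Set.inter_subset_right (Set.finite_Icc 1 N)
    have h2 : (Set.Icc 1 N).ncard = N := by
      rw [← Finset.coe_Icc, Set.ncard_coe_finset, Nat.card_Icc]
      omega
    rw [h2] at h1
    exact_mod_cast h1

theorem upperDensity_bohr_pos (α : ℝ) {N : ℕ} (hN : 1 ≤ N) :
    0 < upperDensity (bohr α N) := by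
  have hN' : (0 : ℝ) < N := by exact_mod_cast hN
  have hbound : ∃ᶠ M : ℕ in atTop,
      1 / (64 * (N : ℝ)) ≤ ((bohr α N ∩ Set.Icc 1 M).ncard : ℝ) / M := by
    rw [Filter.frequently_atTop]
    intro a
    refine ⟨N * (a + 128), by nlinarith, ?_⟩
    have h := count_bohr α hN (a + 128)
    have hJ : (0 : ℝ) < ((a + 128 : ℕ) : ℝ) := by positivity
    rw [Nat.cast_mul, div_le_div_iff₀ (by positivity) (by positivity)]
    have h128 : (128 : ℝ) ≤ ((a + 128 : ℕ) : ℝ) := by push_cast; linarith [(Nat.cast_nonneg a : (0:ℝ) ≤ a)]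
    nlinarith
  have hb : IsBoundedUnder (· ≤ ·) atTop
      (fun M : ℕ => ((bohr α N ∩ Set.Icc 1 M).ncard : ℝ) / M) :=
    isBoundedUnder_of ⟨1, fun M => ncard_div_le_one _ M⟩
  have := Filter.le_limsup_of_frequently_le hbound hb
  exact lt_of_lt_of_le (by positivity) this

/-- Main lemma: for the Bohr set with `N ≥ 8 (1 + |α|)`, `N` even, every `n` that is a joint
return time is within `N / 4` of a multiple of `N`. -/
theorem joint_return {α : ℝ} {N : ℕ} (hN : 8 * (1 + |α|) ≤ N) {n : ℕ}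
    (h1 : n ∈ returnSet (fun t => t ^ (3 / 2 : ℝ)) (bohr α N))
    (h2 : n ∈ returnSet (fun t => α * t ^ (3 / 2 : ℝ) + t) (bohr α N)) :
    ∃ k : ℤ, |(n : ℝ) - N * k| < N / 4 := by
  obtain ⟨hn, x, ⟨j, -, rfl, a, ha⟩, y, ⟨j', -, rfl, a', ha'⟩, hxy⟩ := h1
  obtain ⟨-, x', ⟨l, -, rfl, -⟩, y', ⟨l', -, rfl, -⟩, hxy'⟩ := h2
  simp only at hxy hxy'
  have hNpos : (0 : ℝ) < N := by
    have := abs_nonneg α
    nlinarith
  set s : ℝ := (n : ℝ) ^ (3 / 2 : ℝ) with hs
  have hf1 := Int.floor_le s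
  have hf2 := Int.lt_floor_add_one s
  have hg1 := Int.floor_le (α * s + n)
  have hg2 := Int.lt_floor_add_one (α * s + n)
  have e1 : ((⌊s⌋ : ℤ) : ℝ) = N * (j' - j) := by
    have : (⌊s⌋ : ℤ) = (N : ℤ) * j' - N * j := by push_cast at hxy; linarith
    rw [this]; push_cast; ring
  have e2 : ((⌊α * s + n⌋ : ℤ) : ℝ) = N * (l' - l) := by
    have : (⌊α * s + n⌋ : ℤ) = (N : ℤ) * l' - N * l := by push_cast at hxy'; linarith
    rw [this]; push_cast; ring
  rw [e1] at hf1 hf2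
  rw [e2] at hg1 hg2
  refine ⟨((l' : ℤ) - l) - (a' - a), ?_⟩
  push_cast
  have key : (n : ℝ) - N * (((l' : ℝ) - l) - (a' - a)) =
      ((α * s + n) - N * (l' - l)) - α * (s - N * (j' - j))
        - N * (((j' : ℝ) * α - a') - ((j : ℝ) * α - a)) := by ring
  rw [key]
  have b1 : |(α * s + n) - N * ((l' : ℝ) - l)| ≤ 1 := by
    rw [abs_le]; constructor <;> linarith
  have b2 : |s - N * ((j' : ℝ) - j)| ≤ 1 := by
    rw [abs_le]; constructor <;> linarith
  have b3 : |((j' : ℝ) * α - a') - ((j : ℝ) * α - a)| < 1 / 16 := by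
    have := abs_sub (((j' : ℝ) * α - a')) ((j : ℝ) * α - a)
    linarith
  have b4 : |α * (s - N * ((j' : ℝ) - j))| ≤ |α| := by
    rw [abs_mul]
    calc |α| * |s - N * ((j' : ℝ) - j)| ≤ |α| * 1 :=
          mul_le_mul_of_nonneg_left b2 (abs_nonneg _)
      _ = |α| := mul_one _
  have b5 : |N * (((j' : ℝ) * α - a') - ((j : ℝ) * α - a))| < N / 16 := by
    rw [abs_mul, abs_of_pos hNpos]
    nlinarith
  calc |(α * s + n) - N * ((l' : ℝ) - l) - α * (s - N * (j' - j))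
        - N * (((j' : ℝ) * α - a') - ((j : ℝ) * α - a))|
      ≤ |(α * s + n) - N * ((l' : ℝ) - l) - α * (s - N * (j' - j))|
        + |N * (((j' : ℝ) * α - a') - ((j : ℝ) * α - a))| := abs_sub _ _
    _ ≤ (|(α * s + n) - N * ((l' : ℝ) - l)| + |α * (s - N * ((j' : ℝ) - j))|)
        + |N * (((j' : ℝ) * α - a') - ((j : ℝ) * α - a))| := by
          gcongr
          exact abs_sub _ _
    _ < N / 4 := by
          have := abs_nonneg α
          linarith

/-- For every real `α` some set of positive upper density has the joint return set without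
long intervals. -/
theorem exists_set (α : ℝ) : ∃ E : Set ℕ, (∀ m ∈ E, 1 ≤ m) ∧ 0 < upperDensity E ∧
    ∃ L : ℕ, ∀ a : ℕ, ∃ i ≤ L, a + i ∉
      returnSet (fun t => t ^ (3 / 2 : ℝ)) E ∩
        returnSet (fun t => α * t ^ (3 / 2 : ℝ) + t) E := by
  obtain ⟨M, hM⟩ := exists_nat_gt (8 * (1 + |α|))
  have hM0 : 1 ≤ M := by
    have h0 := abs_nonneg α
    have : (0 : ℝ) < M := by linarith
    exact_mod_cast this
  -- use the even number `2 * M`
  refine ⟨bohr α (2 * M), bohr_pos (by omega), upperDensity_bohr_pos α (by omega), 2 * M, ?_⟩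
  intro a
  -- an index congruent to `M` modulo `2 M`
  refine ⟨(2 * M - (a + M) % (2 * M)) , by omega, ?_⟩
  rintro ⟨h1, h2⟩
  obtain ⟨k, hk⟩ := joint_return (α := α) (N := 2 * M)
    (by push_cast; linarith [(Nat.cast_nonneg M : (0:ℝ) ≤ M)]) h1 h2
  -- `a + i = 2 M q + M`
  obtain ⟨q, hq⟩ : ∃ q : ℤ, ((a + (2 * M - (a + M) % (2 * M)) : ℕ) : ℤ) = 2 * M * q + M := by
    have hlt : (a + M) % (2 * M) < 2 * M := Nat.mod_lt _ (by omega)
    have hdiv := Nat.div_add_mod (a + M) (2 * M)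
    refine ⟨((a + M) / (2 * M) : ℕ), ?_⟩
    push_cast [Nat.cast_sub hlt.le]
    have hdiv' : (2 * (M : ℤ)) * (((a + M) / (2 * M) : ℕ) : ℤ) + (((a + M) % (2 * M) : ℕ) : ℤ)
        = a + M := by exact_mod_cast hdiv
    push_cast at hdiv'
    linarith
  have hq' : ((a + (2 * M - (a + M) % (2 * M)) : ℕ) : ℝ) = 2 * M * q + M := by
    exact_mod_cast hq
  rw [hq'] at hk
  push_cast at hk
  have hMpos : (0 : ℝ) < M := by exact_mod_cast hM0
  have e : (2 * (M : ℝ) * q + M - 2 * M * k) = M * (2 * ((q - k : ℤ) : ℝ) + 1) := by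
    push_cast; ring
  rw [e, abs_mul, abs_of_pos hMpos] at hk
  have h3 : |(2 * ((q - k : ℤ) : ℝ) + 1)| < 1 := by
    by_contra hcon
    push Not at hcon
    nlinarith
  have h4 : |2 * (q - k) + 1| < 1 := by exact_mod_cast h3
  rw [Int.abs_lt_one_iff] at h4
  omega

end Q70.BohrThick
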