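import Mathlib

/-!
# Generalized Bratteli diagrams, orders, Vershik maps
-/

set_option autoImplicit false

open Set Filter Topology

universe u

namespace Q70.Bv

/-- A generalized Bratteli diagram. -/
structure Diagram where
  /-- the vertices of the levels -/
  V : ℕ → Type u
  /-- the edges from level `i` to level `i + 1` -/
  E : ℕ → Type u
  /-- sources -/
  s : ∀ i, E i → V i
  /-- ranges -/
  r : ∀ i, E i → V (i + 1)
  countable_V : ∀ i, Countable (V i)
  infinite_V : ∀ i, Infinite (V i)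
  countable_E : ∀ i, Countable (E i)
  s_surj : ∀ i, Function.Surjective (s i)
  r_surj : ∀ i, Function.Surjective (r i)
  r_fin : ∀ i (w : V (i + 1)), {e | r i e = w}.Finite

variable (D : Diagram.{u})

/-- The path space. -/
def Path : Type u := {x : ∀ i, D.E i // ∀ i, D.r i (x i) = D.s (i + 1) (x (i + 1))}

variable {D}

/-- `le` is an order on the diagram: it is a partial order in which two edges of a level are
comparable exactly when they have the same range. -/
structure IsOrd (le : ∀ i, D.E i → D.E i → Prop) : Prop where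
  refl : ∀ i e, le i e e
  trans : ∀ i e₁ e₂ e₃, le i e₁ e₂ → le i e₂ e₃ → le i e₁ e₃
  antisymm : ∀ i e₁ e₂, le i e₁ e₂ → le i e₂ e₁ → e₁ = e₂
  comparable : ∀ i e₁ e₂, (le i e₁ e₂ ∨ le i e₂ e₁) ↔ D.r i e₁ = D.r i e₂

/-- maximal edges -/
def IsMx (le : ∀ i, D.E i → D.E i → Prop) (i : ℕ) (e : D.E i) : Prop := ∀ e', le i e e' → e' = e

/-- minimal edges -/
def IsMn (le : ∀ i, D.E i → D.E i → Prop) (i : ℕ) (e : D.E i) : Prop := ∀ e', le i e' e → e' = e

/-- `e'` is the successor of `e` -/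
def IsSuc (le : ∀ i, D.E i → D.E i → Prop) (i : ℕ) (e e' : D.E i) : Prop :=
  le i e e' ∧ e ≠ e' ∧ ∀ e'', le i e e'' → e'' ≠ e → le i e' e''

/-- The graph of the Vershik map: `n` is the least index such that `x n` is not maximal, `y n` is
the successor of `x n`, `y` agrees with `x` after `n`, and `y i` is minimal for `i < n`. -/
def Vershik (le : ∀ i, D.E i → D.E i → Prop) (x y : Path D) : Prop :=
  ∃ n, (∀ i < n, IsMx le i (x.1 i)) ∧ ¬ IsMx le n (x.1 n) ∧ IsSuc le n (x.1 n) (y.1 n) ∧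
    (∀ i, n < i → y.1 i = x.1 i) ∧ ∀ i < n, IsMn le i (y.1 i)

/-! ### The orders `le ω` -/

/-- the index set of the random signs -/
abbrev Jx (D : Diagram.{u}) : Type u := Σ i, D.V (i + 1)

/-- the signs -/
abbrev Om (D : Diagram.{u}) : Type u := Jx D → ZMod 2

theorem exists_code (i : ℕ) : ∃ f : D.E i → ℕ, Function.Injective f := by
  have := D.countable_E i
  exact exists_injective_nat (D.E i)

/-- a numbering of the edges -/
noncomputable def code (i : ℕ) : D.E i → ℕ := (exists_code i).choose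

theorem code_inj (i : ℕ) : Function.Injective (code i : D.E i → ℕ) := (exists_code i).choose_spec

/-- the signed numbering -/
noncomputable def keyc (c : ZMod 2) (i : ℕ) (e : D.E i) : ℤ := if c = 0 then code i e else -(code i e : ℤ)

theorem keyc_inj (c : ZMod 2) (i : ℕ) : Function.Injective (keyc c i : D.E i → ℤ) := by
  intro e e' h
  unfold keyc at h
  apply code_inj i
  split_ifs at h <;> omega

theorem keyc_flip (c : ZMod 2) (i : ℕ) (e : D.E i) : keyc (c + 1) i e = - keyc c i e := by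
  have h : c + 1 = 0 ↔ c ≠ 0 := by
    revert c; decide
  unfold keyc
  by_cases hc : c = 0
  · rw [if_neg (fun h' => (h.1 h') hc), if_pos hc]
  · rw [if_pos (h.2 hc), if_neg hc]
    simp

/-- the order given by the signs -/
def leO (ω : Om D) (i : ℕ) (e e' : D.E i) : Prop :=
  D.r i e = D.r i e' ∧ keyc (ω ⟨i, D.r i e⟩) i e ≤ keyc (ω ⟨i, D.r i e⟩) i e'

theorem isOrd_leO (ω : Om D) : IsOrd (leO ω) where
  refl i e := ⟨rfl, le_rfl⟩
  trans i e₁ e₂ e₃ h1 h2 := by
    refine ⟨h1.1.trans h2.1, h1.2.trans ?_⟩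
    have := h2.2
    rwa [← h1.1] at this
  antisymm i e₁ e₂ h1 h2 := by
    have h3 := h2.2
    rw [← h1.1] at h3
    exact keyc_inj _ i (le_antisymm h1.2 h3)
  comparable i e₁ e₂ := by
    constructor
    · rintro (h | h)
      · exact h.1
      · exact h.1.symm
    · intro h
      rcases le_total (keyc (ω ⟨i, D.r i e₁⟩) i e₁) (keyc (ω ⟨i, D.r i e₁⟩) i e₂) with h1 | h1
      · exact Or.inl ⟨h, h1⟩
      · refine Or.inr ⟨h.symm, ?_⟩
        rwa [h] at h1

/-- the opposite signs give the opposite order -/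
theorem leO_flip (ω : Om D) (i : ℕ) (e e' : D.E i) : leO (ω + 1) i e e' ↔ leO ω i e' e := by
  unfold leO
  have h1 : ∀ e₁ e₂ : D.E i, keyc ((ω + 1) ⟨i, D.r i e₁⟩) i e₂ = - keyc (ω ⟨i, D.r i e₁⟩) i e₂ :=
    fun e₁ e₂ => keyc_flip _ i e₂
  rw [h1, h1]
  constructor
  · rintro ⟨h2, h3⟩
    refine ⟨h2.symm, ?_⟩
    rw [← h2]
    linarith
  · rintro ⟨h2, h3⟩
    refine ⟨h2.symm, ?_⟩
    rw [← h2]
    linarith

theorem isMn_iff (ω : Om D) (i : ℕ) (e : D.E i) : IsMn (leO ω) i e ↔ IsMx (leO (ω + 1)) i e := by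
  unfold IsMn IsMx
  simp_rw [leO_flip]

theorem om_flip_flip (ω : Om D) : ω + 1 + 1 = ω := by
  funext j
  change ω j + 1 + 1 = ω j
  have : ∀ c : ZMod 2, c + 1 + 1 = c := by decide
  exact this _

theorem isMx_iff (ω : Om D) (i : ℕ) (e : D.E i) : IsMx (leO ω) i e ↔ IsMn (leO (ω + 1)) i e := by
  rw [isMn_iff, om_flip_flip]

/-- maximal edges of the order given by the signs -/
def Mxc (c : ZMod 2) (i : ℕ) (e : D.E i) : Prop :=
  ∀ e', D.r i e' = D.r i e → keyc c i e' ≤ keyc c i e

theorem isMx_leO (ω : Om D) (i : ℕ) (e : D.E i) :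
    IsMx (leO ω) i e ↔ Mxc (ω ⟨i, D.r i e⟩) i e := by
  constructor
  · intro h e' he'
    by_contra hlt
    push Not at hlt
    have := h e' ⟨he'.symm, hlt.le⟩
    rw [this] at hlt
    exact lt_irrefl _ hlt
  · rintro h e' ⟨h1, h2⟩
    exact keyc_inj _ i (le_antisymm (h e' h1.symm) h2)

theorem Mxc_unique {c : ZMod 2} {i : ℕ} {e e' : D.E i} (h : Mxc c i e) (h' : Mxc c i e')
    (hr : D.r i e = D.r i e') : e = e' :=
  keyc_inj c i (le_antisymm (h' e hr) (h e' hr.symm))

theorem exists_Mxc (c : ZMod 2) (i : ℕ) (w : D.V (i + 1)) : ∃ e, D.r i e = w ∧ Mxc c i e := by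
  obtain ⟨e0, he0⟩ := D.r_surj i w
  obtain ⟨e, he, hmax⟩ := Set.exists_max_image {e | D.r i e = w} (keyc c i) (D.r_fin i w) ⟨e0, he0⟩
  refine ⟨e, he, fun e' he' => hmax e' ?_⟩
  rw [Set.mem_ofPred_eq] at he ⊢
  rw [he', he]

/-- the maximal infinite paths -/
def Xmax (ω : Om D) : Set (Path D) := {x | ∀ i, Mxc (ω ⟨i, D.r i (x.1 i)⟩) i (x.1 i)}

theorem mem_Xmax_iff (ω : Om D) (x : Path D) : x ∈ Xmax ω ↔ ∀ i, IsMx (leO ω) i (x.1 i) := by
  unfold Xmax
  simp_rw [isMx_leO]
  rfl

/-- an infinite maximal path is determined by its tail -/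
theorem path_unique {c : Om D} {x y : Path D} {n : ℕ} (h : ∀ i, n < i → x.1 i = y.1 i)
    (hx : ∀ i ≤ n, Mxc (c ⟨i, D.r i (x.1 i)⟩) i (x.1 i))
    (hy : ∀ i ≤ n, Mxc (c ⟨i, D.r i (y.1 i)⟩) i (y.1 i)) : x = y := by
  have key : ∀ k i, i + k = n + 1 → x.1 i = y.1 i := by
    intro k
    induction k with
    | zero => intro i hi; exact h i (by omega)
    | succ k ih =>
      intro i hi
      have h1 := ih (i + 1) (by omega)
      have h2 : D.r i (x.1 i) = D.r i (y.1 i) := by
        rw [x.2 i, y.2 i, h1]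
      have h3 := hx i (by omega)
      have h4 := hy i (by omega)
      rw [h2] at h3
      exact Mxc_unique h3 h4 h2
  apply Subtype.ext
  funext i
  rcases Nat.lt_or_ge n i with hi | hi
  · exact h i hi
  · exact key (n + 1 - i) i (by omega)

/-- finite maximal paths -/
theorem exists_finite (ω : Om D) (n : ℕ) : ∀ v : D.V (n + 1), ∃ y : ∀ i, D.E i,
    (∀ i ≤ n, Mxc (ω ⟨i, D.r i (y i)⟩) i (y i)) ∧
    (∀ i < n, D.r i (y i) = D.s (i + 1) (y (i + 1))) ∧ D.r n (y n) = v := by
  have hne : ∀ i, Nonempty (D.E i) := fun i => by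
    have := D.infinite_V (i + 1)
    obtain ⟨e, -⟩ := D.r_surj i (Classical.arbitrary _)
    exact ⟨e⟩
  induction n with
  | zero =>
    intro v
    obtain ⟨e, he, hM⟩ := exists_Mxc (ω ⟨0, v⟩) 0 v
    refine ⟨Function.update (fun i => (hne i).some) 0 e, ?_, ?_, ?_⟩
    · intro i hi
      obtain rfl : i = 0 := by omega
      rw [Function.update_self, he]
      exact hM
    · intro i hi
      omega
    · rw [Function.update_self, he]
  | succ n ih =>
    intro v
    obtain ⟨e, he, hM⟩ := exists_Mxc (ω ⟨n + 1, v⟩) (n + 1) v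
    obtain ⟨y, h1, h2, h3⟩ := ih (D.s (n + 1) e)
    refine ⟨Function.update y (n + 1) e, ?_, ?_, ?_⟩
    · intro i hi
      rcases Nat.lt_or_ge n i with h4 | h4
      · obtain rfl : i = n + 1 := by omega
        rw [Function.update_self, he]
        exact hM
      · rw [Function.update_of_ne (by omega)]
        exact h1 i h4
    · intro i hi
      rcases Nat.lt_or_ge i n with h4 | h4
      · rw [Function.update_of_ne (by omega), Function.update_of_ne (by omega)]
        exact h2 i h4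
      · obtain rfl : i = n := by omega
        rw [Function.update_of_ne (by omega), Function.update_self]
        exact h3
    · rw [Function.update_self, he]

/-- paths with a prescribed tail and a maximal beginning -/
theorem exists_path (ω : Om D) (x : Path D) (n : ℕ) : ∃ y : Path D, (∀ i, n < i → y.1 i = x.1 i) ∧
    ∀ i ≤ n, Mxc (ω ⟨i, D.r i (y.1 i)⟩) i (y.1 i) := by
  classical
  obtain ⟨z, h1, h2, h3⟩ := exists_finite ω n (D.s (n + 1) (x.1 (n + 1)))
  refine ⟨⟨fun i => if i ≤ n then z i else x.1 i, ?_⟩, ?_, ?_⟩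
  · intro i
    rcases lt_trichotomy i n with h | h | h
    · simp only [if_pos h.le, if_pos (Nat.succ_le_of_lt h)]
      exact h2 i h
    · subst h
      simp only [if_pos le_rfl, if_neg (show ¬ i + 1 ≤ i by omega)]
      exact h3
    · simp only [if_neg (show ¬ i ≤ n by omega), if_neg (show ¬ i + 1 ≤ n by omega)]
      exact x.2 i
  · intro i hi
    simp only [if_neg (show ¬ i ≤ n by omega)]
  · intro i hi
    simp only [if_pos hi]
    exact h1 i hi

/-- changing the signs on finitely many levels -/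
theorem exists_transfer {ω ω' : Om D} {n : ℕ} (h : ∀ i, n < i → ∀ w, ω ⟨i, w⟩ = ω' ⟨i, w⟩) :
    ∃ θ : Xmax ω → Xmax ω', Function.Injective θ := by
  have h1 : ∀ x : Xmax ω, ∃ y : Xmax ω', ∀ i, n < i → y.1.1 i = x.1.1 i := by
    intro x
    obtain ⟨y, hy1, hy2⟩ := exists_path ω' x.1 n
    refine ⟨⟨y, fun i => ?_⟩, hy1⟩
    rcases Nat.lt_or_ge n i with hi | hi
    · rw [hy1 i hi, ← h i hi]
      exact x.2 i
    · exact hy2 i hi
  choose θ hθ using h1
  refine ⟨θ, fun x y hxy => ?_⟩
  apply Subtype.ext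
  refine path_unique (c := ω) (n := n) (fun i hi => ?_) (fun i _ => x.2 i) (fun i _ => y.2 i)
  rw [← hθ x i hi, ← hθ y i hi, hxy]

end Q70.Bv
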