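import Pool.Agent.Q70.BvA

/-!
# The Vershik map of the orders `leO ω` and its Borel extensions
-/

set_option autoImplicit false

open Set Filter Topology MeasureTheory

universe u

namespace Q70.Bv

variable {D : Diagram.{u}}

/-- finite maximal paths ending in a given edge -/
theorem exists_before (ω : Om D) (n : ℕ) (e : D.E n) : ∃ z : ∀ i, D.E i, z n = e ∧
    (∀ i < n, Mxc (ω ⟨i, D.r i (z i)⟩) i (z i)) ∧ ∀ i < n, D.r i (z i) = D.s (i + 1) (z (i + 1)) := by
  have hne : ∀ i, Nonempty (D.E i) := fun i => by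
    have := D.infinite_V (i + 1)
    obtain ⟨e, -⟩ := D.r_surj i (Classical.arbitrary _)
    exact ⟨e⟩
  rcases n with _ | n
  · exact ⟨Function.update (fun i => (hne i).some) 0 e, Function.update_self _ _ _,
      fun i hi => by omega, fun i hi => by omega⟩
  · obtain ⟨y, h1, h2, h3⟩ := exists_finite ω n (D.s (n + 1) e)
    refine ⟨Function.update y (n + 1) e, Function.update_self _ _ _, ?_, ?_⟩
    · intro i hi
      rw [Function.update_of_ne (by omega)]
      exact h1 i (by omega)
    · intro i hi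
      rcases Nat.lt_or_ge i n with h4 | h4
      · rw [Function.update_of_ne (by omega), Function.update_of_ne (by omega)]
        exact h2 i h4
      · obtain rfl : i = n := by omega
        rw [Function.update_of_ne (by omega), Function.update_self]
        exact h3

theorem exists_suc (ω : Om D) {i : ℕ} {e : D.E i} (h : ¬ IsMx (leO ω) i e) :
    ∃ e', IsSuc (leO ω) i e e' := by
  unfold IsMx at h
  push Not at h
  obtain ⟨e1, h1, h2⟩ := h
  set c := ω ⟨i, D.r i e⟩ with hc
  have hfin : {e' : D.E i | D.r i e' = D.r i e ∧ keyc c i e < keyc c i e'}.Finite :=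
    (D.r_fin i (D.r i e)).subset fun e' he' => he'.1
  have hlt : keyc c i e < keyc c i e1 :=
    lt_of_le_of_ne h1.2 (fun h => h2 (keyc_inj c i h).symm)
  obtain ⟨e', he', hmin⟩ := Set.exists_min_image _ (keyc c i) hfin ⟨e1, h1.1.symm, hlt⟩
  refine ⟨e', ⟨he'.1.symm, he'.2.le⟩, ?_, ?_⟩
  · intro h
    rw [← h] at he'
    exact lt_irrefl _ he'.2
  · intro e'' h3 h4
    refine ⟨he'.1.trans h3.1, ?_⟩
    rw [he'.1]
    exact hmin e'' ⟨h3.1.symm, lt_of_le_of_ne h3.2 (fun h => h4 (keyc_inj c i h).symm)⟩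

theorem suc_unique {ω : Om D} {i : ℕ} {e e₁ e₂ : D.E i} (h1 : IsSuc (leO ω) i e e₁)
    (h2 : IsSuc (leO ω) i e e₂) : e₁ = e₂ :=
  (isOrd_leO ω).antisymm i _ _ (h1.2.2 _ h2.1 h2.2.1.symm) (h2.2.2 _ h1.1 h1.2.1.symm)

/-- the Vershik map is defined off the maximal paths -/
theorem exists_vershik (ω : Om D) {x : Path D} (hx : x ∉ Xmax ω) :
    ∃ y, Vershik (leO ω) x y := by
  classical
  rw [mem_Xmax_iff] at hx
  push Not at hx
  obtain ⟨n, hn, hmin⟩ : ∃ n, ¬ IsMx (leO ω) n (x.1 n) ∧ ∀ i < n, IsMx (leO ω) i (x.1 i) :=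
    ⟨Nat.find hx, Nat.find_spec hx, fun i hi => not_not.1 (Nat.find_min hx hi)⟩
  obtain ⟨e, he⟩ := exists_suc ω hn
  obtain ⟨z, hz, h1, h2⟩ := exists_before (ω + 1) n e
  refine ⟨⟨fun i => if i ≤ n then z i else x.1 i, ?_⟩, n, hmin, hn, ?_, ?_, ?_⟩
  · intro i
    rcases lt_trichotomy i n with h | h | h
    · simp only [if_pos h.le, if_pos (Nat.succ_le_of_lt h)]
      exact h2 i h
    · subst h
      simp only [if_pos le_rfl, if_neg (show ¬ i + 1 ≤ i by omega)]
      rw [hz, ← he.1.1]
      exact x.2 i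
    · simp only [if_neg (show ¬ i ≤ n by omega), if_neg (show ¬ i + 1 ≤ n by omega)]
      exact x.2 i
  · simp only [if_pos le_rfl]
    rw [hz]
    exact he
  · intro i hi
    simp only [if_neg (show ¬ i ≤ n by omega)]
  · intro i hi
    simp only [if_pos hi.le]
    rw [isMn_iff, isMx_leO]
    exact h1 i hi

theorem vershik_unique {ω : Om D} {x y y' : Path D} (h : Vershik (leO ω) x y)
    (h' : Vershik (leO ω) x y') : y = y' := by
  obtain ⟨n, h1, h2, h3, h4, h5⟩ := h
  obtain ⟨n', h1', h2', h3', h4', h5'⟩ := h'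
  have hn : n = n' := by
    rcases lt_trichotomy n n' with h | h | h
    · exact absurd (h1' n h) h2
    · exact h
    · exact absurd (h1 n' h) h2'
  subst hn
  have hyn : y.1 n = y'.1 n := suc_unique h3 h3'
  have htail : ∀ i, n ≤ i → y.1 i = y'.1 i := by
    intro i hi
    rcases hi.lt_or_eq with h | h
    · rw [h4 i h, h4' i h]
    · subst h
      exact hyn
  rcases n with _ | n
  · exact Subtype.ext (funext fun i => htail i (Nat.zero_le i))
  · refine path_unique (c := ω + 1) (n := n) (fun i hi => htail i hi) ?_ ?_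
    · intro i hi
      have := h5 i (by omega)
      rwa [isMn_iff, isMx_leO] at this
    · intro i hi
      have := h5' i (by omega)
      rwa [isMn_iff, isMx_leO] at this

theorem vershik_flip {ω : Om D} {x y : Path D} (h : Vershik (leO ω) x y) :
    Vershik (leO (ω + 1)) y x := by
  obtain ⟨n, h1, h2, h3, h4, h5⟩ := h
  refine ⟨n, ?_, ?_, ⟨?_, h3.2.1.symm, ?_⟩, ?_, ?_⟩
  · intro i hi
    rw [← isMn_iff]
    exact h5 i hi
  · intro hm
    have := hm (x.1 n) ((leO_flip ω n _ _).2 h3.1)
    exact h3.2.1 this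
  · exact (leO_flip ω n _ _).2 h3.1
  · intro e he hne
    rw [leO_flip] at he ⊢
    have hr : D.r n e = D.r n (x.1 n) := he.1.trans h3.1.1.symm
    rcases ((isOrd_leO ω).comparable n e (x.1 n)).2 hr with h | h
    · exact h
    · by_cases hex : e = x.1 n
      · rw [hex]
        exact (isOrd_leO ω).refl n _
      · exact absurd ((isOrd_leO ω).antisymm n _ _ he (h3.2.2 e h hex)) hne
  · intro i hi
    exact (h4 i hi).symm
  · intro i hi
    rw [← isMx_iff]
    exact h1 i hi

theorem vershik_left {ω : Om D} {x y : Path D} (h : Vershik (leO ω) x y) : x ∉ Xmax ω := by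
  obtain ⟨n, -, h2, -⟩ := h
  intro hx
  exact h2 ((mem_Xmax_iff ω x).1 hx n)

theorem vershik_right {ω : Om D} {x y : Path D} (h : Vershik (leO ω) x y) : y ∉ Xmax (ω + 1) :=
  vershik_left (vershik_flip h)

/-- the Vershik map off the maximal paths -/
noncomputable def vm (ω : Om D) (x : ((Xmax ω)ᶜ : Set (Path D))) : Path D :=
  (exists_vershik ω x.2).choose

theorem vm_spec (ω : Om D) (x : ((Xmax ω)ᶜ : Set (Path D))) : Vershik (leO ω) x.1 (vm ω x) :=
  (exists_vershik ω x.2).choose_spec

theorem vm_injective (ω : Om D) : Function.Injective (vm ω) := by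
  intro x x' h
  have h1 := vershik_flip (vm_spec ω x)
  have h2 := vershik_flip (vm_spec ω x')
  rw [← h] at h2
  exact Subtype.ext (vershik_unique h1 h2)

theorem vm_surj (ω : Om D) {y : Path D} (hy : y ∉ Xmax (ω + 1)) : ∃ x, vm ω x = y := by
  obtain ⟨x, hx⟩ := exists_vershik (ω + 1) hy
  have h1 := vershik_flip hx
  rw [om_flip_flip] at h1
  exact ⟨⟨x, vershik_left h1⟩, vershik_unique (vm_spec ω _) h1⟩

/-! ### Topology -/

instance (i : ℕ) : TopologicalSpace (D.E i) := ⊥

instance (i : ℕ) : DiscreteTopology (D.E i) := ⟨rfl⟩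

instance (i : ℕ) : Countable (D.E i) := D.countable_E i

instance : TopologicalSpace (Path D) :=
  inferInstanceAs (TopologicalSpace {x : ∀ i, D.E i // ∀ i, D.r i (x i) = D.s (i + 1) (x (i + 1))})

instance : MeasurableSpace (Path D) := borel (Path D)

instance : BorelSpace (Path D) := ⟨rfl⟩

instance : PolishSpace (Path D) := by
  have hcl : IsClosed {x : ∀ i, D.E i | ∀ i, D.r i (x i) = D.s (i + 1) (x (i + 1))} := by
    have h1 : {x : ∀ i, D.E i | ∀ i, D.r i (x i) = D.s (i + 1) (x (i + 1))} =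
        ⋂ i, {x : ∀ i, D.E i | D.r i (x i) = D.s (i + 1) (x (i + 1))} := by
      ext x; simp
    rw [h1]
    refine isClosed_iInter fun i => ?_
    letI : TopologicalSpace (D.V (i + 1)) := ⊥
    haveI : DiscreteTopology (D.V (i + 1)) := ⟨rfl⟩
    exact isClosed_eq ((continuous_of_discreteTopology (f := D.r i)).comp (continuous_apply i))
      ((continuous_of_discreteTopology (f := D.s (i + 1))).comp (continuous_apply (i + 1)))
  exact hcl.polishSpace

theorem continuous_coord (i : ℕ) : Continuous fun x : Path D => x.1 i :=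
  (continuous_apply i).comp continuous_subtype_val

theorem vm_local {ω : Om D} {x x' : ((Xmax ω)ᶜ : Set (Path D))} {n N : ℕ} (hnN : n ≤ N)
    (hn : (∀ i < n, IsMx (leO ω) i (x.1.1 i)) ∧ ¬ IsMx (leO ω) n (x.1.1 n) ∧
      IsSuc (leO ω) n (x.1.1 n) ((vm ω x).1 n) ∧
      (∀ i, n < i → (vm ω x).1 i = x.1.1 i) ∧ ∀ i < n, IsMn (leO ω) i ((vm ω x).1 i))
    (h : ∀ i ≤ N, x'.1.1 i = x.1.1 i) : ∀ i ≤ N, (vm ω x').1 i = (vm ω x).1 i := by
  classical
  obtain ⟨h1, h2, h3, h4, h5⟩ := hn
  have hp : ∀ i, D.r i (if i ≤ n then (vm ω x).1 i else x'.1.1 i) =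
      D.s (i + 1) (if i + 1 ≤ n then (vm ω x).1 (i + 1) else x'.1.1 (i + 1)) := by
    intro i
    rcases lt_trichotomy i n with h6 | h6 | h6
    · rw [if_pos h6.le, if_pos (Nat.succ_le_of_lt h6)]
      exact (vm ω x).2 i
    · subst h6
      rw [if_pos le_rfl, if_neg (show ¬ i + 1 ≤ i by omega), ← h3.1.1, ← h i hnN]
      exact x'.1.2 i
    · rw [if_neg (show ¬ i ≤ n by omega), if_neg (show ¬ i + 1 ≤ n by omega)]
      exact x'.1.2 i
  set y : Path D := ⟨fun i => if i ≤ n then (vm ω x).1 i else x'.1.1 i, hp⟩ with hy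
  have hV : Vershik (leO ω) x'.1 y := by
    refine ⟨n, ?_, ?_, ?_, ?_, ?_⟩
    · intro i hi
      rw [h i (by omega)]
      exact h1 i hi
    · rw [h n hnN]
      exact h2
    · rw [h n hnN]
      simp only [hy, if_pos le_rfl]
      exact h3
    · intro i hi
      simp only [hy, if_neg (show ¬ i ≤ n by omega)]
    · intro i hi
      simp only [hy, if_pos hi.le]
      exact h5 i hi
  have heq : vm ω x' = y := vershik_unique (vm_spec ω x') hV
  intro i hi
  rw [heq]
  by_cases h6 : i ≤ n
  · simp only [hy, if_pos h6]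
  · simp only [hy, if_neg h6]
    rw [h i hi, h4 i (by omega)]

theorem continuous_vm (ω : Om D) : Continuous (vm ω) := by
  refine Continuous.subtype_mk (continuous_pi fun i => ?_) _
  rw [continuous_iff_continuousAt]
  intro x
  obtain ⟨n, hn⟩ := vm_spec ω x
  refine ContinuousAt.congr (f := fun _ => (vm ω x).1 i) continuousAt_const ?_
  have hev : ∀ᶠ x' : ((Xmax ω)ᶜ : Set (Path D)) in 𝓝 x, ∀ j ∈ Finset.range (max n i + 1),
      x'.1.1 j = x.1.1 j := by
    rw [Filter.eventually_all_finset]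
    intro j _
    have hc : Continuous fun x' : ((Xmax ω)ᶜ : Set (Path D)) => x'.1.1 j :=
      (continuous_coord j).comp continuous_subtype_val
    exact hc.continuousAt.eventually_mem ((isOpen_discrete {x.1.1 j}).mem_nhds rfl)
  filter_upwards [hev] with x' hx'
  exact (vm_local (N := max n i) (le_max_left _ _) hn (fun j hj => hx' j (by
    rw [Finset.mem_range]; omega)) i (le_max_right _ _)).symm

end Q70.Bv
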