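import Pool.Agent.Q70.BvB
import Pool.Agent.H894R3.Ana

/-!
# A zero-one law for the number of maximal paths
-/

set_option autoImplicit false

open Set Filter Topology MeasureTheory

universe u

namespace Q70.Bv

variable {D : Diagram.{u}}

instance : Countable (Jx D) := by
  have := fun i => D.countable_V (i + 1)
  infer_instance

/-- the pairs (signs, maximal path) form a closed set -/
theorem isClosed_pairs : IsClosed {p : Om D × Path D | p.2 ∈ Xmax p.1} := by
  have h1 : {p : Om D × Path D | p.2 ∈ Xmax p.1} =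
      ⋂ i, ({p : Om D × Path D | ¬ Mxc (p.1 ⟨i, D.r i (p.2.1 i)⟩) i (p.2.1 i)})ᶜ := by
    ext p
    simp only [Xmax, Set.mem_ofPred_eq, mem_iInter, mem_compl_iff, not_not]
  rw [h1]
  refine isClosed_iInter fun i => isClosed_compl_iff.2 ?_
  have h2 : {p : Om D × Path D | ¬ Mxc (p.1 ⟨i, D.r i (p.2.1 i)⟩) i (p.2.1 i)} =
      ⋃ e : D.E i, ({p : Om D × Path D | p.2.1 i = e} ∩
        {p : Om D × Path D | ¬ Mxc (p.1 ⟨i, D.r i e⟩) i e}) := by
    ext p
    simp only [Set.mem_ofPred_eq, mem_iUnion, mem_inter_iff]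
    constructor
    · intro h
      exact ⟨p.2.1 i, rfl, h⟩
    · rintro ⟨e, he, h⟩
      rw [he]
      exact h
  rw [h2]
  refine isOpen_iUnion fun e => IsOpen.inter ?_ ?_
  · exact (isOpen_discrete ({e} : Set (D.E i))).preimage ((continuous_coord i).comp continuous_snd)
  · exact (isOpen_discrete {c : ZMod 2 | ¬ Mxc c i e}).preimage
      ((continuous_apply (A := fun _ : Jx D => ZMod 2) ⟨i, D.r i e⟩).comp continuous_fst)

theorem isClosed_Xmax (ω : Om D) : IsClosed (Xmax ω) :=
  isClosed_pairs.preimage (f := fun x : Path D => ((ω, x) : Om D × Path D))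
    (continuous_const.prodMk continuous_id)

instance : MeasurableSpace (Om D) := MeasurableSpace.pi

instance : BorelSpace (ZMod 2) := ⟨by
  rw [borel_eq_top_of_discrete]
  rfl⟩

instance : BorelSpace (Om D) := Pi.borelSpace

/-- at least `k` maximal paths -/
def Ak (D : Diagram.{u}) (k : ℕ) : Set (Om D) :=
  {ω | ∃ x : Fin k → Path D, Function.Injective x ∧ ∀ j, x j ∈ Xmax ω}

/-- uncountably many maximal paths -/
def Ai (D : Diagram.{u}) : Set (Om D) := {ω | ¬ (Xmax ω).Countable}

theorem analytic_Ak (k : ℕ) : AnalyticSet (Ak D k) := by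
  have h1 : Ak D k = Prod.fst '' {p : Om D × (Fin k → Path D) |
      Function.Injective p.2 ∧ ∀ j, p.2 j ∈ Xmax p.1} := by
    ext ω
    constructor
    · rintro ⟨x, hx⟩
      exact ⟨(ω, x), hx, rfl⟩
    · rintro ⟨p, hp, rfl⟩
      exact ⟨p.2, hp⟩
  rw [h1]
  refine MeasurableSet.analyticSet_image ?_ measurable_fst
  have h2 : {p : Om D × (Fin k → Path D) | Function.Injective p.2 ∧ ∀ j, p.2 j ∈ Xmax p.1} =
      (⋂ i : Fin k, ⋂ j : Fin k, ⋂ (_ : i ≠ j), {p : Om D × (Fin k → Path D) | p.2 i ≠ p.2 j}) ∩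
        ⋂ j : Fin k, {p : Om D × (Fin k → Path D) | p.2 j ∈ Xmax p.1} := by
    ext p
    simp only [Set.mem_ofPred_eq, mem_inter_iff, mem_iInter]
    constructor
    · rintro ⟨h, h'⟩
      exact ⟨fun i j hij h2 => hij (h h2), h'⟩
    · rintro ⟨h, h'⟩
      refine ⟨fun i j hij => ?_, h'⟩
      by_contra hne
      exact h i j hne hij
  rw [h2]
  refine MeasurableSet.inter ?_ ?_
  · refine MeasurableSet.iInter fun i => MeasurableSet.iInter fun j =>
      MeasurableSet.iInter fun _ => IsOpen.measurableSet ?_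
    exact (isClosed_eq ((continuous_apply i).comp continuous_snd)
      ((continuous_apply j).comp continuous_snd)).isOpen_compl
  · refine MeasurableSet.iInter fun j => IsClosed.measurableSet ?_
    exact isClosed_pairs.preimage (f := fun p : Om D × (Fin k → Path D) => (p.1, p.2 j))
      (continuous_fst.prodMk ((continuous_apply j).comp continuous_snd))

theorem not_countable_cantor : ¬ Countable (ℕ → Bool) := by
  have h4 : Cardinal.mk (ℕ → Bool) = Cardinal.continuum := by simp
  intro h2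
  have h3 : Cardinal.mk (ℕ → Bool) ≤ Cardinal.aleph0 := Cardinal.mk_le_aleph0_iff.2 h2
  rw [h4] at h3
  exact absurd Cardinal.aleph0_lt_continuum (not_lt.2 h3)

/-- an uncountable closed set contains a countable dense-in-itself set, and conversely -/
theorem uncountable_iff {C : Set (Path D)} (hC : IsClosed C) : ¬ C.Countable ↔
    ∃ x : ℕ → Path D, (∀ n, x n ∈ C) ∧
      ∀ n m, ∃ k, x k ≠ x n ∧ ∀ i < m, (x k).1 i = (x n).1 i := by
  constructor
  · intro h
    obtain ⟨P, hP, hPne, hPC⟩ := exists_perfect_nonempty_of_isClosed_of_not_countable hC h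
    haveI : Nonempty P := hPne.to_subtype
    refine ⟨fun n => (TopologicalSpace.denseSeq P n : Path D),
      fun n => hPC (TopologicalSpace.denseSeq P n).2, fun n m => ?_⟩
    set a : Path D := (TopologicalSpace.denseSeq P n : Path D) with ha
    have haP : a ∈ P := (TopologicalSpace.denseSeq P n).2
    set U : Set (Path D) := {y | ∀ i ∈ Finset.range m, y.1 i = a.1 i} with hU
    have hUo : IsOpen U := by
      have : U = ⋂ i ∈ Finset.range m, {y : Path D | y.1 i = a.1 i} := by
        ext y; simp [hU]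
      rw [this]
      refine isOpen_biInter_finset fun i _ => ?_
      exact (isOpen_discrete ({a.1 i} : Set (D.E i))).preimage (continuous_coord i)
    have haU : a ∈ U := fun i _ => rfl
    have hacc := hP.acc a haP
    rw [accPt_iff_nhds] at hacc
    obtain ⟨y, ⟨hyU, hyP⟩, hya⟩ := hacc U (hUo.mem_nhds haU)
    have hO : IsOpen {z : P | (z : Path D) ∈ U ∧ (z : Path D) ≠ a} :=
      (hUo.inter isOpen_ne).preimage continuous_subtype_val
    obtain ⟨z, hz, k, rfl⟩ := (TopologicalSpace.denseRange_denseSeq P).exists_mem_open hO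
      ⟨⟨y, hyP⟩, hyU, hya⟩ |> fun ⟨k, hk⟩ => (⟨_, hk, k, rfl⟩ :
        ∃ z, z ∈ {z : P | (z : Path D) ∈ U ∧ (z : Path D) ≠ a} ∧
          ∃ k, TopologicalSpace.denseSeq P k = z)
    exact ⟨k, hz.2, fun i hi => hz.1 i (Finset.mem_range.2 hi)⟩
  · rintro ⟨x, hx, hacc⟩ hcount
    have hpre : Preperfect (range x) := by
      rintro _ ⟨n, rfl⟩
      rw [accPt_iff_nhds]
      intro U hU
      obtain ⟨m, hm⟩ : ∃ m, ∀ y : Path D, (∀ i < m, y.1 i = (x n).1 i) → y ∈ U := by
        obtain ⟨V, hVU, hVo, hxV⟩ := mem_nhds_iff.1 hU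
        obtain ⟨W, hWo, rfl⟩ := isOpen_induced_iff.1 hVo
        rw [isOpen_pi_iff] at hWo
        obtain ⟨F, u, hu, hsub⟩ := hWo _ hxV
        refine ⟨F.sup id + 1, fun y hy => hVU ?_⟩
        refine hsub fun i hi => ?_
        have h1 : i ≤ F.sup id := Finset.le_sup (f := id) hi
        change y.1 i ∈ u i
        rw [hy i (by omega)]
        exact (hu i hi).2
      obtain ⟨k, hk1, hk2⟩ := hacc n m
      exact ⟨x k, ⟨hm _ hk2, ⟨k, rfl⟩⟩, hk1⟩
    have hperf := hpre.perfect_closure
    have hsub : closure (range x) ⊆ C := closure_minimal (range_subset_iff.2 hx) hC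
    letI := TopologicalSpace.upgradeIsCompletelyMetrizable (Path D)
    obtain ⟨f, hf1, -, hf3⟩ := hperf.exists_nat_bool_injection ⟨x 0, subset_closure ⟨0, rfl⟩⟩
    have h1 : (range f).Countable := hcount.mono (hf1.trans hsub)
    have h2 : Countable (ℕ → Bool) := by
      rw [← Set.countable_univ_iff]
      have := h1.preimage_of_injOn (f := f) hf3.injOn
      rwa [preimage_range] at this
    exact not_countable_cantor h2

theorem analytic_Ai : AnalyticSet (Ai D) := by
  have h1 : Ai D = Prod.fst '' {p : Om D × (ℕ → Path D) | (∀ n, p.2 n ∈ Xmax p.1) ∧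
      ∀ n m, ∃ k, p.2 k ≠ p.2 n ∧ ∀ i < m, (p.2 k).1 i = (p.2 n).1 i} := by
    ext ω
    unfold Ai
    rw [Set.mem_ofPred_eq, uncountable_iff (isClosed_Xmax ω)]
    constructor
    · rintro ⟨x, hx⟩
      exact ⟨(ω, x), hx, rfl⟩
    · rintro ⟨p, hp, rfl⟩
      exact ⟨p.2, hp⟩
  rw [h1]
  refine MeasurableSet.analyticSet_image ?_ measurable_fst
  have h2 : {p : Om D × (ℕ → Path D) | (∀ n, p.2 n ∈ Xmax p.1) ∧
      ∀ n m, ∃ k, p.2 k ≠ p.2 n ∧ ∀ i < m, (p.2 k).1 i = (p.2 n).1 i} =
      (⋂ n, {p : Om D × (ℕ → Path D) | p.2 n ∈ Xmax p.1}) ∩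
      ⋂ n, ⋂ m, ⋃ k, ({p : Om D × (ℕ → Path D) | p.2 k ≠ p.2 n} ∩
        ⋂ i, ⋂ (_ : i < m), {p : Om D × (ℕ → Path D) | (p.2 k).1 i = (p.2 n).1 i}) := by
    ext p
    simp only [Set.mem_ofPred_eq, mem_inter_iff, mem_iInter, mem_iUnion]
  rw [h2]
  refine MeasurableSet.inter ?_ ?_
  · refine MeasurableSet.iInter fun j => IsClosed.measurableSet ?_
    exact isClosed_pairs.preimage (f := fun p : Om D × (ℕ → Path D) => (p.1, p.2 j))
      (continuous_fst.prodMk ((continuous_apply j).comp continuous_snd))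
  · refine MeasurableSet.iInter fun n => MeasurableSet.iInter fun m =>
      MeasurableSet.iUnion fun k => MeasurableSet.inter ?_ ?_
    · exact (isClosed_eq ((continuous_apply k).comp continuous_snd)
        ((continuous_apply n).comp continuous_snd)).isOpen_compl.measurableSet
    · refine MeasurableSet.iInter fun i => MeasurableSet.iInter fun _ => IsClosed.measurableSet ?_
      exact isClosed_eq ((continuous_coord i).comp ((continuous_apply k).comp continuous_snd))
        ((continuous_coord i).comp ((continuous_apply n).comp continuous_snd))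

/-! ### The zero-one law -/

/-- the Haar probability measure on the signs -/
noncomputable def hm (D : Diagram.{u}) : Measure (Om D) := Measure.addHaarMeasure ⊤

instance : IsProbabilityMeasure (hm D) := ⟨by
  unfold hm
  have := Measure.addHaarMeasure_self (K₀ := (⊤ : TopologicalSpace.PositiveCompacts (Om D)))
  simpa using this⟩

instance : (hm D).IsAddHaarMeasure := by unfold hm; infer_instance

/-- invariance under changes of finitely many levels -/
def TailInv (A : Set (Om D)) : Prop := ∀ (ω ω' : Om D) (n : ℕ),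
  (∀ i, n < i → ∀ w, ω ⟨i, w⟩ = ω' ⟨i, w⟩) → ω ∈ A → ω' ∈ A

theorem tailInv_Ak (k : ℕ) : TailInv (Ak D k) := by
  rintro ω ω' n h ⟨x, hx, hmem⟩
  obtain ⟨θ, hθ⟩ := exists_transfer h
  refine ⟨fun j => (θ ⟨x j, hmem j⟩ : Path D), fun i j hij => ?_, fun j => (θ ⟨x j, hmem j⟩).2⟩
  have h1 := hθ (Subtype.ext hij)
  exact hx (congrArg Subtype.val h1)

theorem tailInv_Ai : TailInv (Ai D) := by
  intro ω ω' n h hA hc
  obtain ⟨θ, hθ⟩ := exists_transfer h
  apply hA
  have : Countable (Xmax ω') := hc.to_subtype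
  exact Set.countable_coe_iff.1 hθ.countable

theorem zero_one {A : Set (Om D)} (hA : AnalyticSet A) (hT : TailInv A) :
    (∀ᵐ ω ∂(hm D), ω ∈ A) ∨ (∀ᵐ ω ∂(hm D), ω ∉ A) := by
  have hnull : NullMeasurableSet A (hm D) :=
    Pool.Agent.H894R3.Ana.analytic_nullMeasurable (hm D) hA
  have hdense : Dense {g : Om D | (g +ᵥ ·) ⁻¹' A = A} := by
    intro ω
    rw [mem_closure_iff]
    intro O hO hωO
    rw [isOpen_pi_iff] at hO
    obtain ⟨F, u, hu, hsub⟩ := hO ω hωO
    set n : ℕ := F.sup fun j => j.1 with hn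
    classical
    refine ⟨fun j => if j.1 ≤ n then ω j else 0, hsub fun j hj => ?_, ?_⟩
    · have h1 : j.1 ≤ n := Finset.le_sup (f := fun j : Jx D => j.1) hj
      simp only [if_pos h1]
      exact (hu j hj).2
    · ext ω'
      rw [mem_preimage]
      constructor
      · refine hT _ _ n fun i hi w => ?_
        change (if i ≤ n then _ else (0 : ZMod 2)) + ω' ⟨i, w⟩ = ω' ⟨i, w⟩
        rw [if_neg (by omega), zero_add]
      · refine hT _ _ n fun i hi w => ?_
        change ω' ⟨i, w⟩ = (if i ≤ n then _ else (0 : ZMod 2)) + ω' ⟨i, w⟩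
        rw [if_neg (by omega), zero_add]
  have h1 := aeconst_of_dense_setOfPred_preimage_vadd_eq (M := Om D) hnull hdense
  rw [eventuallyConst_set] at h1
  exact h1

/-- there is a choice of signs for which the maximal and the minimal paths have the same
cardinality type -/
theorem exists_good (D : Diagram.{u}) : ∃ ω : Om D, (∀ k, ω ∈ Ak D k ↔ ω + 1 ∈ Ak D k) ∧
    (ω ∈ Ai D ↔ ω + 1 ∈ Ai D) := by
  have key : ∀ A : Set (Om D), AnalyticSet A → TailInv A → ∀ᵐ ω ∂(hm D), (ω ∈ A ↔ ω + 1 ∈ A) := by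
    intro A hA hT
    have hmp : MeasurePreserving (fun ω : Om D => ω + 1) (hm D) (hm D) :=
      measurePreserving_add_right (hm D) 1
    rcases zero_one hA hT with h | h
    · have h2 := hmp.quasiMeasurePreserving.ae h
      filter_upwards [h, h2] with ω h3 h4
      exact ⟨fun _ => h4, fun _ => h3⟩
    · have h2 := hmp.quasiMeasurePreserving.ae h
      filter_upwards [h, h2] with ω h3 h4
      exact ⟨fun h5 => absurd h5 h3, fun h5 => absurd h5 h4⟩
  have h1 : ∀ᵐ ω ∂(hm D), ∀ k, (ω ∈ Ak D k ↔ ω + 1 ∈ Ak D k) :=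
    ae_all_iff.2 fun k => key _ (analytic_Ak k) (tailInv_Ak k)
  have h2 := key _ (analytic_Ai (D := D)) tailInv_Ai
  exact (h1.and h2).exists

end Q70.Bv
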