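import Pool.Agent.Q70.BvC

/-!
# Borel extensions of the Vershik map
-/

set_option autoImplicit false

open Set Filter Topology MeasureTheory

universe u

namespace Q70.Bv

variable {D : Diagram.{u}}

/-- the order generates a Borel Vershik map -/
def GeneratesBorel (le : ∀ i, D.E i → D.E i → Prop) : Prop :=
  ∃ Φ : Path D → Path D, Measurable Φ ∧ Function.Bijective Φ ∧
    ∀ x : Path D, (¬ ∀ i, IsMx le i (x.1 i)) → Vershik le x (Φ x)

theorem fin_card {C : Set (Path D)} (k : ℕ) :
    (∃ x : Fin k → Path D, Function.Injective x ∧ ∀ j, x j ∈ C) ↔ (k : ℕ∞) ≤ C.encard := by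
  constructor
  · rintro ⟨x, hx, hmem⟩
    have h1 : range x ⊆ C := range_subset_iff.2 hmem
    refine le_trans ?_ (Set.encard_le_encard h1)
    rw [← Set.image_univ, hx.encard_image, Set.encard_univ, ENat.card_eq_coe_fintype_card,
      Fintype.card_fin]
  · intro h
    obtain ⟨t, ht, hcard⟩ := Set.exists_subset_encard_eq h
    have hfin : t.Finite := Set.finite_of_encard_eq_coe hcard
    obtain ⟨e⟩ : Nonempty (Fin k ≃ t) := by
      have : Fintype t := hfin.fintype
      refine ⟨(Fintype.equivFinOfCardEq ?_).symm⟩
      rw [← Set.toFinset_card]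
      have h2 := Set.encard_eq_coe_toFinset_card t
      rw [hcard] at h2
      exact_mod_cast h2.symm
    exact ⟨fun j => (e j : Path D), fun i j hij => e.injective (Subtype.ext hij),
      fun j => ht (e j).2⟩

theorem encard_eq {C C' : Set (Path D)}
    (h : ∀ k : ℕ, (∃ x : Fin k → Path D, Function.Injective x ∧ ∀ j, x j ∈ C) ↔
      ∃ x : Fin k → Path D, Function.Injective x ∧ ∀ j, x j ∈ C') : C.encard = C'.encard := by
  simp_rw [fin_card] at h
  apply le_antisymm
  · refine ENat.forall_natCast_le_iff_le.1 fun k hk => (h k).1 hk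
  · refine ENat.forall_natCast_le_iff_le.1 fun k hk => (h k).2 hk

/-- a Borel isomorphism of two closed sets of the same cardinality type -/
theorem exists_equiv {C C' : Set (Path D)} (hC : MeasurableSet C) (hC' : MeasurableSet C')
    (hcard : C.encard = C'.encard) (hunc : ¬ C.Countable ↔ ¬ C'.Countable) :
    Nonempty (C ≃ᵐ C') := by
  haveI := hC.standardBorel
  haveI := hC'.standardBorel
  by_cases h : C.Countable
  · have h' : C'.Countable := by
      by_contra hno
      exact hunc.2 hno h
    haveI : Countable C := h.to_subtype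
    haveI : Countable C' := h'.to_subtype
    have he : Nonempty (C ≃ C') := by
      by_cases hf : C.Finite
      · have hf' : C'.Finite := by
          rw [← Set.encard_lt_top_iff] at hf ⊢
          rwa [← hcard]
        haveI := hf.fintype
        haveI := hf'.fintype
        refine ⟨Fintype.equivOfCardEq ?_⟩
        rw [← Set.toFinset_card, ← Set.toFinset_card]
        rw [Set.encard_eq_coe_toFinset_card, Set.encard_eq_coe_toFinset_card] at hcard
        exact_mod_cast hcard
      · have hf' : C'.Infinite := by
          intro hf'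
          apply hf
          rw [← Set.encard_lt_top_iff] at hf' ⊢
          rwa [hcard]
        haveI : Infinite C := Set.infinite_coe_iff.2 hf
        haveI : Infinite C' := Set.infinite_coe_iff.2 hf'
        obtain ⟨d⟩ := nonempty_denumerable C
        obtain ⟨d'⟩ := nonempty_denumerable C'
        exact ⟨(Denumerable.eqv C).trans (Denumerable.eqv C').symm⟩
    obtain ⟨e⟩ := he
    exact ⟨⟨e, measurable_of_countable _, measurable_of_countable _⟩⟩
  · have h' : ¬ C'.Countable := hunc.1 h
    refine ⟨PolishSpace.measurableEquivOfNotCountable ?_ ?_⟩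
    · intro hc
      exact h (Set.countable_coe_iff.1 hc)
    · intro hc
      exact h' (Set.countable_coe_iff.1 hc)

/-- every generalized Bratteli diagram has an order which generates a Borel Vershik map -/
theorem main (D : Diagram.{u}) :
    ∃ le : ∀ i, D.E i → D.E i → Prop, IsOrd le ∧ GeneratesBorel le := by
  classical
  obtain ⟨ω, h1, h2⟩ := exists_good D
  have hC := (isClosed_Xmax ω).measurableSet
  have hC' := (isClosed_Xmax (ω + 1)).measurableSet
  obtain ⟨M⟩ := exists_equiv hC hC' (encard_eq h1) h2
  refine ⟨leO ω, isOrd_leO ω, fun x => if h : x ∈ Xmax ω then (M ⟨x, h⟩ : Path D) else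
    vm ω ⟨x, h⟩, ?_, ⟨?_, ?_⟩, ?_⟩
  · exact Measurable.dite (measurable_subtype_coe.comp M.measurable) (continuous_vm ω).measurable hC
  · intro x y hxy
    simp only at hxy
    by_cases hx : x ∈ Xmax ω
    · by_cases hy : y ∈ Xmax ω
      · rw [dif_pos hx, dif_pos hy] at hxy
        have := M.injective (Subtype.ext hxy)
        exact congrArg Subtype.val this
      · rw [dif_pos hx, dif_neg hy] at hxy
        exfalso
        have h3 := vershik_right (vm_spec ω ⟨y, hy⟩)
        rw [← hxy] at h3
        exact h3 (M ⟨x, hx⟩).2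
    · by_cases hy : y ∈ Xmax ω
      · rw [dif_neg hx, dif_pos hy] at hxy
        exfalso
        have h3 := vershik_right (vm_spec ω ⟨x, hx⟩)
        rw [hxy] at h3
        exact h3 (M ⟨y, hy⟩).2
      · rw [dif_neg hx, dif_neg hy] at hxy
        have := vm_injective ω hxy
        exact congrArg Subtype.val this
  · intro y
    by_cases hy : y ∈ Xmax (ω + 1)
    · obtain ⟨x, hx⟩ := M.surjective ⟨y, hy⟩
      refine ⟨x.1, ?_⟩
      simp only [dif_pos x.2]
      rw [hx]
    · obtain ⟨x, hx⟩ := vm_surj ω hy
      refine ⟨x.1, ?_⟩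
      simp only [dif_neg x.2]
      exact hx
  · intro x hx
    rw [← mem_Xmax_iff] at hx
    simp only [dif_neg hx]
    exact vm_spec ω ⟨x, hx⟩

end Q70.Bv
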