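import Mathlib

/-!
# The base `β ≈ 1.8885`, root of `x⁵ - x⁴ - x³ - x² - 1`, and integer vectors in `ℤ[β]`
-/

namespace Q70.Bx

/-- Integer vectors `(a, b, c, d, e)`, standing for `a + bβ + cβ² + dβ³ + eβ⁴`. -/
structure V5 where
  a : ℤ
  b : ℤ
  c : ℤ
  d : ℤ
  e : ℤ

/-- The digit of a letter. -/
def dz (x : Bool) : ℤ := if x then 1 else 0

/-- `v ↦ βv + x - y`. -/
def stepV (v : V5) (x y : Bool) : V5 :=
  ⟨v.e + dz x - dz y, v.a, v.b + v.e, v.c + v.e, v.d + v.e⟩

/-- Equality test. -/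
def eqV (u v : V5) : Bool :=
  decide (u.a = v.a) && decide (u.b = v.b) && decide (u.c = v.c) && decide (u.d = v.d) &&
    decide (u.e = v.e)

lemma eqV_iff (u v : V5) : eqV u v = true ↔ u = v := by
  cases u; cases v
  simp [eqV, and_assoc]

/-- One term of the lower bound (scaled by `10⁶`). -/
def lowT (n : ℤ) (l h : ℤ) : ℤ := if 0 ≤ n then n * l else n * h

/-- One term of the upper bound (scaled by `10⁶`). -/
def upT (n : ℤ) (l h : ℤ) : ℤ := if 0 ≤ n then n * h else n * l

/-- Lower bound for the value, scaled by `10⁶`. -/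
def lowV (v : V5) : ℤ :=
  lowT v.a 1000000 1000000 + lowT v.b 1888518 1888519 + lowT v.c 3566503 3566504 +
    lowT v.d 6735408 6735410 + lowT v.e 12719945 12719949

/-- Upper bound for the value, scaled by `10⁶`. -/
def upV (v : V5) : ℤ :=
  upT v.a 1000000 1000000 + upT v.b 1888518 1888519 + upT v.c 3566503 3566504 +
    upT v.d 6735408 6735410 + upT v.e 12719945 12719949

/-- The value of `v` is certainly larger than `1/(β-1)` in absolute value. -/
def oob (v : V5) : Bool := decide (1125469 < lowV v) || decide (upV v < -1125469)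

theorem exists_beta : ∃ β : ℝ, 1.8885188 < β ∧ β < 1.8885189 ∧ β ^ 5 = β ^ 4 + β ^ 3 + β ^ 2 + 1 := by
  have hc : ContinuousOn (fun x : ℝ => x ^ 5 - x ^ 4 - x ^ 3 - x ^ 2 - 1)
      (Set.Icc 1.8885188 1.8885189) := by fun_prop
  have h1 : (fun x : ℝ => x ^ 5 - x ^ 4 - x ^ 3 - x ^ 2 - 1) 1.8885188 < 0 := by norm_num
  have h2 : 0 < (fun x : ℝ => x ^ 5 - x ^ 4 - x ^ 3 - x ^ 2 - 1) 1.8885189 := by norm_num
  obtain ⟨β, hβ, h⟩ := intermediate_value_Ioo (by norm_num) hc ⟨h1, h2⟩
  exact ⟨β, hβ.1, hβ.2, by simp only at h; linarith⟩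

/-- The base. -/
noncomputable def β : ℝ := exists_beta.choose

lemma β_lo : 1.8885188 < β := exists_beta.choose_spec.1
lemma β_hi : β < 1.8885189 := exists_beta.choose_spec.2.1
lemma β_eq : β ^ 5 = β ^ 4 + β ^ 3 + β ^ 2 + 1 := exists_beta.choose_spec.2.2
lemma β_pos : 0 < β := by linarith [β_lo]
lemma β_one : 1 < β := by linarith [β_lo]
lemma β_two : β < 2 := by linarith [β_hi]

/-- The value of a vector. -/
noncomputable def val (v : V5) : ℝ := v.a + v.b * β + v.c * β ^ 2 + v.d * β ^ 3 + v.e * β ^ 4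

/-- The digit of a letter as a real number. -/
def dg (x : Bool) : ℝ := if x then 1 else 0

lemma dz_cast (x : Bool) : ((dz x : ℤ) : ℝ) = dg x := by cases x <;> simp [dz, dg]

lemma val_step (v : V5) (x y : Bool) : val (stepV v x y) = β * val v + dg x - dg y := by
  simp only [val, stepV]
  push_cast
  rw [dz_cast, dz_cast]
  linear_combination (-(v.e : ℝ)) * β_eq

lemma β2 : 3.566503 ≤ β ^ 2 ∧ β ^ 2 ≤ 3.566504 := by
  have h1 := β_lo; have h2 := β_hi
  constructor <;> nlinarith

lemma β3 : 6.735408 ≤ β ^ 3 ∧ β ^ 3 ≤ 6.735410 := by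
  have h1 := β_lo; have h2 := β_hi
  have h3 : (1.8885188 : ℝ) ^ 3 ≤ β ^ 3 := by gcongr
  have h4 : β ^ 3 ≤ (1.8885189 : ℝ) ^ 3 := by gcongr
  norm_num at h3 h4
  constructor <;> linarith

lemma β4 : 12.719945 ≤ β ^ 4 ∧ β ^ 4 ≤ 12.719949 := by
  have h1 := β_lo; have h2 := β_hi
  have h3 : (1.8885188 : ℝ) ^ 4 ≤ β ^ 4 := by gcongr
  have h4 : β ^ 4 ≤ (1.8885189 : ℝ) ^ 4 := by gcongr
  norm_num at h3 h4
  constructor <;> linarith

lemma lowT_le {n l h : ℤ} {x : ℝ} (hl : (l : ℝ) ≤ 1000000 * x) (hh : 1000000 * x ≤ h) :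
    ((lowT n l h : ℤ) : ℝ) ≤ 1000000 * (n * x) := by
  unfold lowT
  split_ifs with h0
  · push_cast
    have : (0 : ℝ) ≤ n := by exact_mod_cast h0
    nlinarith
  · push_cast
    have : (n : ℝ) ≤ 0 := by exact_mod_cast (not_le.1 h0).le
    nlinarith

lemma le_upT {n l h : ℤ} {x : ℝ} (hl : (l : ℝ) ≤ 1000000 * x) (hh : 1000000 * x ≤ h) :
    1000000 * (n * x) ≤ ((upT n l h : ℤ) : ℝ) := by
  unfold upT
  split_ifs with h0
  · push_cast
    have : (0 : ℝ) ≤ n := by exact_mod_cast h0
    nlinarith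
  · push_cast
    have : (n : ℝ) ≤ 0 := by exact_mod_cast (not_le.1 h0).le
    nlinarith

lemma lowV_le (v : V5) : ((lowV v : ℤ) : ℝ) ≤ 1000000 * val v := by
  have h1 := β_lo; have h2 := β_hi; have h3 := β2; have h4 := β3; have h5 := β4
  have e0 := lowT_le (n := v.a) (l := 1000000) (h := 1000000) (x := 1) (by norm_num) (by norm_num)
  have e1 := lowT_le (n := v.b) (l := 1888518) (h := 1888519) (x := β) (by push_cast; linarith)
    (by push_cast; linarith)
  have e2 := lowT_le (n := v.c) (l := 3566503) (h := 3566504) (x := β ^ 2)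
    (by push_cast; linarith) (by push_cast; linarith)
  have e3 := lowT_le (n := v.d) (l := 6735408) (h := 6735410) (x := β ^ 3)
    (by push_cast; linarith) (by push_cast; linarith)
  have e4 := lowT_le (n := v.e) (l := 12719945) (h := 12719949) (x := β ^ 4)
    (by push_cast; linarith) (by push_cast; linarith)
  simp only [lowV, val]
  push_cast
  linarith

lemma le_upV (v : V5) : 1000000 * val v ≤ ((upV v : ℤ) : ℝ) := by
  have h1 := β_lo; have h2 := β_hi; have h3 := β2; have h4 := β3; have h5 := β4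
  have e0 := le_upT (n := v.a) (l := 1000000) (h := 1000000) (x := 1) (by norm_num) (by norm_num)
  have e1 := le_upT (n := v.b) (l := 1888518) (h := 1888519) (x := β) (by push_cast; linarith)
    (by push_cast; linarith)
  have e2 := le_upT (n := v.c) (l := 3566503) (h := 3566504) (x := β ^ 2)
    (by push_cast; linarith) (by push_cast; linarith)
  have e3 := le_upT (n := v.d) (l := 6735408) (h := 6735410) (x := β ^ 3)
    (by push_cast; linarith) (by push_cast; linarith)
  have e4 := le_upT (n := v.e) (l := 12719945) (h := 12719949) (x := β ^ 4)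
    (by push_cast; linarith) (by push_cast; linarith)
  simp only [upV, val]
  push_cast
  linarith

/-- The length of the interval of numbers with an expansion. -/
noncomputable def BB : ℝ := 1 / (β - 1)

lemma BB_lt : 1000000 * BB < 1125469 := by
  have h1 := β_lo
  have h3 : 0 < β - 1 := by linarith
  rw [BB, mul_one_div, div_lt_iff₀ h3]
  linarith

lemma BB_pos : 0 < BB := by
  have h1 := β_lo
  have h3 : 0 < β - 1 := by linarith
  rw [BB]; positivity

lemma BB_eq : β * BB = BB + 1 := by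
  have h1 := β_lo
  have h3 : β - 1 ≠ 0 := by linarith
  rw [BB]; field_simp; ring

lemma oob_sound {v : V5} (h : oob v = true) : ¬ |val v| ≤ BB := by
  intro hv
  rw [abs_le] at hv
  have h1 := BB_lt
  have h2 := lowV_le v
  have h3 := le_upV v
  simp only [oob, Bool.or_eq_true, decide_eq_true_eq] at h
  rcases h with h | h
  · have : (1125469 : ℝ) < (lowV v : ℝ) := by exact_mod_cast h
    linarith [hv.2]
  · have : (upV v : ℝ) < (-1125469 : ℝ) := by exact_mod_cast h
    linarith [hv.1]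

end Q70.Bx
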