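import Pool.Agent.Q70.BxA

/-!
# The finite table of difference states
-/

namespace Q70.Bx

/-- The letters of `m w w w w`, with `m = 01111` and `w = 00101011`. -/
def word : List Bool :=
  [false, true, true, true, true, false, false, true, false, true, false, true, true, false, false, true, false, true, false, true, true, false, false, true, false, true, false, true, true, false, false, true, false, true, false, true, true]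

/-- The table: for each position the difference states with their class
(`0` spine, `1` branch, `2` frozen, `≥ 3` dead). -/
def tab : List (List (V5 × ℕ)) :=
  [[(⟨0, 0, 0, 0, 0⟩, 0),
    (⟨-1, 2, -3, 3, -1⟩, 2),
    (⟨0, 2, -3, 3, -1⟩, 2),
    (⟨1, 1, -1, 2, -1⟩, 2),
    (⟨0, 1, -1, 2, -1⟩, 3),
    (⟨0, 3, -4, 3, -1⟩, 3),
    (⟨1, 1, -1, 0, 0⟩, 3),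
    (⟨0, 2, -1, 2, -1⟩, 4),
    (⟨1, 0, 0, 0, 0⟩, 4)],
   [(⟨0, 0, 0, 0, 0⟩, 0),
    (⟨-1, 0, 0, 0, 0⟩, 1),
    (⟨-2, 0, 1, -4, 2⟩, 2),
    (⟨-2, 1, 0, -2, 1⟩, 2),
    (⟨-1, -1, 1, -4, 2⟩, 2),
    (⟨-2, 0, 1, -2, 1⟩, 3),
    (⟨-1, 0, 1, -4, 2⟩, 3),
    (⟨-1, 1, 0, 0, 0⟩, 3),
    (⟨-1, 1, 0, -2, 1⟩, 6)],
   [(⟨0, 0, 0, 0, 0⟩, 0),
    (⟨1, -1, 0, 0, 0⟩, 1),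
    (⟨2, -2, 2, 1, -1⟩, 2),
    (⟨2, -2, 2, 3, -2⟩, 2),
    (⟨3, -1, 1, 3, -2⟩, 2),
    (⟨1, 0, 0, 0, 0⟩, 3),
    (⟨3, -2, 2, 3, -2⟩, 3),
    (⟨1, -1, 2, 1, -1⟩, 5)],
   [(⟨0, 0, 0, 0, 0⟩, 0),
    (⟨1, 1, -1, 0, 0⟩, 1),
    (⟨-2, 2, -4, 0, 1⟩, 2),
    (⟨-1, 3, -3, -1, 1⟩, 2),
    (⟨0, 2, -3, 1, 0⟩, 2),
    (⟨1, 0, 0, 0, 0⟩, 3),
    (⟨-1, 1, -2, 1, 0⟩, 4),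
    (⟨-2, 3, -3, -1, 1⟩, 5)],
   [(⟨0, 0, 0, 0, 0⟩, 0),
    (⟨1, 1, 1, -1, 0⟩, 1),
    (⟨0, 0, 2, -3, 1⟩, 2),
    (⟨1, -2, 3, -3, 1⟩, 2),
    (⟨1, -1, 4, -2, 0⟩, 2),
    (⟨0, -1, 1, -2, 1⟩, 3),
    (⟨1, 0, 0, 0, 0⟩, 3),
    (⟨1, 0, 2, -3, 1⟩, 3),
    (⟨2, -1, 4, -2, 0⟩, 3),
    (⟨2, -2, 4, -2, 0⟩, 4)],
   [(⟨0, 0, 0, 0, 0⟩, 0),
    (⟨1, 1, 1, 1, -1⟩, 1),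
    (⟨0, 1, -1, 4, -2⟩, 2),
    (⟨1, 1, -1, 4, -2⟩, 2),
    (⟨2, 0, 1, 3, -2⟩, 2),
    (⟨1, 0, 1, 3, -2⟩, 3),
    (⟨1, 2, -2, 4, -2⟩, 3),
    (⟨0, 1, 1, 1, -1⟩, 4),
    (⟨1, 0, 0, 0, 0⟩, 5)],
   [(⟨0, 0, 0, 0, 0⟩, 0),
    (⟨-2, 1, 0, 0, 0⟩, 1),
    (⟨-3, 1, -1, -3, 2⟩, 2),
    (⟨-3, 2, -2, -1, 1⟩, 2),
    (⟨-2, 0, -1, -3, 2⟩, 2),
    (⟨-2, 2, -2, -1, 1⟩, 2),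
    (⟨-1, 0, 0, 0, 0⟩, 3),
    (⟨-1, 1, 0, 0, 0⟩, 4)],
   [(⟨0, 0, 0, 0, 0⟩, 0),
    (⟨0, -2, 1, 0, 0⟩, 1),
    (⟨0, -2, 3, -1, 0⟩, 2),
    (⟨1, -3, 3, -1, 0⟩, 2),
    (⟨1, -3, 3, 1, -1⟩, 2),
    (⟨2, -2, 2, 1, -1⟩, 2),
    (⟨-1, -1, 1, 0, 0⟩, 3),
    (⟨2, -3, 3, 1, -1⟩, 3),
    (⟨-1, 0, 0, 0, 0⟩, 4)],
   [(⟨0, 0, 0, 0, 0⟩, 0),
    (⟨0, 0, -2, 1, 0⟩, 1),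
    (⟨1, 0, -2, 1, 0⟩, 1),
    (⟨-1, 1, -4, 2, 0⟩, 2),
    (⟨0, 0, -2, 3, -1⟩, 2),
    (⟨0, 2, -3, 1, 0⟩, 2),
    (⟨1, 1, -3, 3, -1⟩, 2),
    (⟨1, -1, 0, 0, 0⟩, 3),
    (⟨0, 1, -4, 2, 0⟩, 4),
    (⟨1, 0, 0, 0, 0⟩, 4)],
   [(⟨0, 0, 0, 0, 0⟩, 0),
    (⟨-1, 1, 0, -2, 1⟩, 1),
    (⟨0, 0, 0, -2, 1⟩, 1),
    (⟨-2, 0, -1, -3, 2⟩, 2),
    (⟨-1, 1, 0, -4, 2⟩, 2),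
    (⟨0, -1, 1, -4, 2⟩, 2),
    (⟨0, 0, 2, -3, 1⟩, 2),
    (⟨-1, 0, -1, -3, 2⟩, 3),
    (⟨-1, 0, 1, -4, 2⟩, 3),
    (⟨-1, 1, 0, 0, 0⟩, 3),
    (⟨-1, 0, 0, 0, 0⟩, 4),
    (⟨-1, -1, 1, -4, 2⟩, 7)],
   [(⟨0, 0, 0, 0, 0⟩, 0),
    (⟨1, -1, 2, 1, -1⟩, 1),
    (⟨2, 0, 1, 1, -1⟩, 1),
    (⟨2, 0, 1, 3, -2⟩, 2),
    (⟨3, -2, 2, 1, -1⟩, 2),
    (⟨3, -1, 3, 2, -2⟩, 2),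
    (⟨1, -1, 0, 0, 0⟩, 3),
    (⟨1, 0, 1, 3, -2⟩, 3),
    (⟨2, -2, 2, 1, -1⟩, 3),
    (⟨1, 0, 0, 0, 0⟩, 4),
    (⟨3, -1, 1, 3, -2⟩, 6)],
   [(⟨0, 0, 0, 0, 0⟩, 0),
    (⟨-2, 1, -2, 1, 0⟩, 1),
    (⟨-1, 2, -1, 0, 0⟩, 1),
    (⟨-3, 2, -2, -1, 1⟩, 2),
    (⟨-2, 3, -3, 1, 0⟩, 2),
    (⟨-2, 2, -2, -1, 1⟩, 3),
    (⟨-1, 1, 0, 0, 0⟩, 3),
    (⟨-1, 3, -3, 1, 0⟩, 3),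
    (⟨-1, 1, -2, 1, 0⟩, 4),
    (⟨-2, 3, -3, -1, 1⟩, 5),
    (⟨-1, 0, 0, 0, 0⟩, 5)],
   [(⟨0, 0, 0, 0, 0⟩, 0),
    (⟨1, -2, 1, -2, 1⟩, 1),
    (⟨1, -1, 2, -1, 0⟩, 1),
    (⟨0, -2, 3, -3, 1⟩, 2),
    (⟨1, -2, 3, -3, 1⟩, 2),
    (⟨2, -3, 3, -1, 0⟩, 2),
    (⟨0, -1, 1, -2, 1⟩, 3),
    (⟨1, 0, 0, 0, 0⟩, 3),
    (⟨0, -2, 1, -2, 1⟩, 4),
    (⟨1, -1, 0, 0, 0⟩, 4),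
    (⟨2, -2, 4, -2, 0⟩, 4),
    (⟨1, -3, 3, -1, 0⟩, 5)],
   [(⟨0, 0, 0, 0, 0⟩, 0),
    (⟨1, 1, -1, 2, -1⟩, 1),
    (⟨0, 2, -3, 3, -1⟩, 2),
    (⟨1, 1, -1, 4, -2⟩, 2),
    (⟨2, 0, -1, 4, -2⟩, 2),
    (⟨0, 1, -1, 2, -1⟩, 3),
    (⟨1, 0, -1, 4, -2⟩, 3),
    (⟨1, 1, -1, 0, 0⟩, 3),
    (⟨1, 2, -2, 4, -2⟩, 3),
    (⟨2, 0, -1, 2, -1⟩, 3),
    (⟨1, 1, -3, 3, -1⟩, 4),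
    (⟨1, 0, 0, 0, 0⟩, 5),
    (⟨2, 1, -1, 2, -1⟩, 5)],
   [(⟨0, 0, 0, 0, 0⟩, 0),
    (⟨-1, 1, 0, -2, 1⟩, 1),
    (⟨-3, 1, -1, -3, 2⟩, 2),
    (⟨-2, 0, 1, -4, 2⟩, 2),
    (⟨-2, 2, -2, -3, 2⟩, 2),
    (⟨-3, 2, -2, -3, 2⟩, 3),
    (⟨-2, 1, 0, -2, 1⟩, 3),
    (⟨-1, 0, 0, 0, 0⟩, 3),
    (⟨-1, 1, 0, -4, 2⟩, 3),
    (⟨-2, 2, 0, -2, 1⟩, 4),
    (⟨-1, 0, 1, -4, 2⟩, 4),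
    (⟨-1, 1, 0, 0, 0⟩, 4)],
   [(⟨0, 0, 0, 0, 0⟩, 0),
    (⟨0, -1, 2, 1, -1⟩, 1),
    (⟨1, -1, 2, 1, -1⟩, 1),
    (⟨1, -3, 3, 1, -1⟩, 2),
    (⟨2, -2, 2, 3, -2⟩, 2),
    (⟨2, -2, 4, 0, -1⟩, 2),
    (⟨-1, -1, 1, 0, 0⟩, 3),
    (⟨0, -2, 3, 1, -1⟩, 3),
    (⟨1, -1, 2, 3, -2⟩, 3),
    (⟨2, -3, 3, 1, -1⟩, 3),
    (⟨-1, 0, 0, 0, 0⟩, 4),
    (⟨1, -2, 2, 3, -2⟩, 4)],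
   [(⟨0, 0, 0, 0, 0⟩, 0),
    (⟨-1, 1, -2, 1, 0⟩, 1),
    (⟨0, 0, -2, 1, 0⟩, 1),
    (⟨-2, 2, -4, 0, 1⟩, 2),
    (⟨-1, 1, -4, 2, 0⟩, 2),
    (⟨0, 2, -3, 3, -1⟩, 2),
    (⟨-1, 1, -4, 0, 1⟩, 3),
    (⟨1, -1, 0, 0, 0⟩, 3),
    (⟨0, 1, -4, 2, 0⟩, 4),
    (⟨1, 0, 0, 0, 0⟩, 4),
    (⟨-1, 2, -3, 3, -1⟩, 8)],
   [(⟨0, 0, 0, 0, 0⟩, 0),
    (⟨-1, -1, 1, -2, 1⟩, 1),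
    (⟨0, 0, 0, -2, 1⟩, 1),
    (⟨-2, 0, 1, -4, 2⟩, 2),
    (⟨0, -2, 3, -3, 1⟩, 2),
    (⟨0, -1, 1, -4, 2⟩, 2),
    (⟨-1, 0, 1, -4, 2⟩, 3),
    (⟨-1, 1, 0, 0, 0⟩, 3),
    (⟨0, -1, 1, -2, 1⟩, 3),
    (⟨-1, 0, 0, 0, 0⟩, 4),
    (⟨1, -2, 3, -3, 1⟩, 6),
    (⟨-1, -1, 1, -4, 2⟩, 7)],
   [(⟨0, 0, 0, 0, 0⟩, 0),
    (⟨1, -1, 0, 2, -1⟩, 1),
    (⟨2, 0, 1, 1, -1⟩, 1),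
    (⟨2, -2, 2, 3, -2⟩, 2),
    (⟨2, 0, -1, 4, -2⟩, 2),
    (⟨2, 0, 1, 3, -2⟩, 2),
    (⟨1, -1, 0, 0, 0⟩, 3),
    (⟨1, 0, -1, 4, -2⟩, 3),
    (⟨1, 0, 0, 0, 0⟩, 4),
    (⟨2, -1, 0, 2, -1⟩, 4),
    (⟨3, -2, 2, 3, -2⟩, 4),
    (⟨1, 1, -1, 4, -2⟩, 5),
    (⟨3, -1, 1, 3, -2⟩, 6)],
   [(⟨0, 0, 0, 0, 0⟩, 0),
    (⟨-1, 1, -2, -1, 1⟩, 1),
    (⟨-1, 2, -1, 0, 0⟩, 1),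
    (⟨-3, 2, -4, 0, 1⟩, 2),
    (⟨-3, 2, -2, -1, 1⟩, 2),
    (⟨-2, 2, -4, 0, 1⟩, 2),
    (⟨-2, 2, -2, -3, 2⟩, 2),
    (⟨-3, 3, -4, 0, 1⟩, 3),
    (⟨-2, 2, -2, -1, 1⟩, 3),
    (⟨-1, 1, 0, 0, 0⟩, 3),
    (⟨-3, 1, -1, -3, 2⟩, 4),
    (⟨-3, 2, -2, -3, 2⟩, 5),
    (⟨-2, 3, -3, -1, 1⟩, 5),
    (⟨-1, 0, 0, 0, 0⟩, 5)],
   [(⟨0, 0, 0, 0, 0⟩, 0),
    (⟨1, -1, 2, -1, 0⟩, 1),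
    (⟨1, -2, 3, -3, 1⟩, 2),
    (⟨2, -3, 3, -3, 1⟩, 2),
    (⟨2, -3, 3, -1, 0⟩, 2),
    (⟨2, -2, 4, 0, -1⟩, 2),
    (⟨1, 0, 0, 0, 0⟩, 3),
    (⟨2, -3, 3, 1, -1⟩, 3),
    (⟨3, -2, 4, 0, -1⟩, 3),
    (⟨1, -1, 0, 0, 0⟩, 4),
    (⟨2, -2, 4, -2, 0⟩, 4),
    (⟨3, -3, 4, 0, -1⟩, 4),
    (⟨1, -3, 3, -1, 0⟩, 5),
    (⟨2, -1, 2, -1, 0⟩, 8)],
   [(⟨0, 0, 0, 0, 0⟩, 0),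
    (⟨1, 1, -1, 2, -1⟩, 1),
    (⟨0, 2, -3, 3, -1⟩, 2),
    (⟨1, 1, -1, 4, -2⟩, 2),
    (⟨2, 2, -2, 4, -2⟩, 2),
    (⟨0, 1, -1, 2, -1⟩, 3),
    (⟨0, 3, -4, 3, -1⟩, 3),
    (⟨1, 1, -1, 0, 0⟩, 3),
    (⟨1, 2, -2, 4, -2⟩, 3),
    (⟨-1, 2, -3, 3, -1⟩, 4),
    (⟨1, 1, -3, 3, -1⟩, 4),
    (⟨1, 0, 0, 0, 0⟩, 5),
    (⟨0, 2, -1, 2, -1⟩, 7)],
   [(⟨0, 0, 0, 0, 0⟩, 0),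
    (⟨-1, 1, 0, -2, 1⟩, 1),
    (⟨-3, 1, -1, -3, 2⟩, 2),
    (⟨-2, 0, 1, -4, 2⟩, 2),
    (⟨-2, 2, 0, -4, 2⟩, 2),
    (⟨-3, 2, 0, -4, 2⟩, 3),
    (⟨-2, 1, 0, -2, 1⟩, 3),
    (⟨-1, -1, 1, -4, 2⟩, 3),
    (⟨-1, 0, 0, 0, 0⟩, 3),
    (⟨-1, 1, 0, -4, 2⟩, 3),
    (⟨-1, 0, 1, -4, 2⟩, 4),
    (⟨-1, 1, 0, 0, 0⟩, 4),
    (⟨-2, 0, 1, -2, 1⟩, 6)],
   [(⟨0, 0, 0, 0, 0⟩, 0),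
    (⟨0, -1, 2, 1, -1⟩, 1),
    (⟨1, -1, 2, 1, -1⟩, 1),
    (⟨1, -3, 3, 1, -1⟩, 2),
    (⟨1, -2, 4, 2, -2⟩, 2),
    (⟨2, -2, 2, 3, -2⟩, 2),
    (⟨-1, -1, 1, 0, 0⟩, 3),
    (⟨1, -1, 2, 3, -2⟩, 3),
    (⟨2, -3, 3, 1, -1⟩, 3),
    (⟨-1, 0, 0, 0, 0⟩, 4),
    (⟨1, -2, 2, 3, -2⟩, 4),
    (⟨0, -2, 1, 2, -1⟩, 5),
    (⟨2, -2, 4, 2, -2⟩, 5)],
   [(⟨0, 0, 0, 0, 0⟩, 0),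
    (⟨-1, 1, -2, 1, 0⟩, 1),
    (⟨0, 0, -2, 1, 0⟩, 1),
    (⟨-2, 2, -4, 0, 1⟩, 2),
    (⟨-1, 1, -4, 2, 0⟩, 2),
    (⟨-2, 1, -4, 2, 0⟩, 3),
    (⟨-1, 1, -4, 0, 1⟩, 3),
    (⟨1, -1, 0, 0, 0⟩, 3),
    (⟨-2, 2, -4, 2, 0⟩, 4),
    (⟨-1, 0, -3, 0, 1⟩, 4),
    (⟨0, 1, -4, 2, 0⟩, 4),
    (⟨1, 0, 0, 0, 0⟩, 4)],
   [(⟨0, 0, 0, 0, 0⟩, 0),
    (⟨-1, -1, 1, -2, 1⟩, 1),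
    (⟨0, 0, 0, -2, 1⟩, 1),
    (⟨0, -2, 3, -3, 1⟩, 2),
    (⟨0, -1, 1, -4, 2⟩, 2),
    (⟨-1, -2, 2, -4, 2⟩, 3),
    (⟨-1, 0, 1, -4, 2⟩, 3),
    (⟨-1, 1, 0, 0, 0⟩, 3),
    (⟨0, -1, 1, -2, 1⟩, 3),
    (⟨-1, 0, 0, 0, 0⟩, 4),
    (⟨1, -2, 3, -3, 1⟩, 6),
    (⟨-1, -1, 1, -4, 2⟩, 7)],
   [(⟨0, 0, 0, 0, 0⟩, 0),
    (⟨1, -1, 0, 2, -1⟩, 1),
    (⟨2, 0, 1, 1, -1⟩, 1),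
    (⟨2, 0, -1, 4, -2⟩, 2),
    (⟨2, 0, 1, 3, -2⟩, 2),
    (⟨1, -1, 0, 0, 0⟩, 3),
    (⟨1, 0, -1, 4, -2⟩, 3),
    (⟨1, 0, 0, 0, 0⟩, 4),
    (⟨2, -1, 0, 2, -1⟩, 4),
    (⟨1, 1, -1, 4, -2⟩, 5),
    (⟨3, -1, 1, 3, -2⟩, 6)],
   [(⟨0, 0, 0, 0, 0⟩, 0),
    (⟨-1, 1, -2, -1, 1⟩, 1),
    (⟨-1, 2, -1, 0, 0⟩, 1),
    (⟨-3, 2, -2, -1, 1⟩, 2),
    (⟨-2, 2, -2, -3, 2⟩, 2),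
    (⟨-2, 2, -2, -1, 1⟩, 3),
    (⟨-1, 1, 0, 0, 0⟩, 3),
    (⟨-3, 1, -1, -3, 2⟩, 4),
    (⟨-3, 2, -2, -3, 2⟩, 5),
    (⟨-2, 3, -3, -1, 1⟩, 5),
    (⟨-1, 0, 0, 0, 0⟩, 5)],
   [(⟨0, 0, 0, 0, 0⟩, 0),
    (⟨1, -1, 2, -1, 0⟩, 1),
    (⟨2, -3, 3, -1, 0⟩, 2),
    (⟨2, -2, 4, 0, -1⟩, 2),
    (⟨1, 0, 0, 0, 0⟩, 3),
    (⟨2, -3, 3, 1, -1⟩, 3),
    (⟨3, -2, 4, 0, -1⟩, 3),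
    (⟨1, -1, 0, 0, 0⟩, 4),
    (⟨2, -2, 4, -2, 0⟩, 4),
    (⟨3, -3, 4, 0, -1⟩, 4),
    (⟨1, -3, 3, -1, 0⟩, 5),
    (⟨2, -1, 2, -1, 0⟩, 8)],
   [(⟨0, 0, 0, 0, 0⟩, 0),
    (⟨1, 1, -1, 2, -1⟩, 1),
    (⟨0, 2, -3, 3, -1⟩, 2),
    (⟨0, 1, -1, 2, -1⟩, 3),
    (⟨0, 3, -4, 3, -1⟩, 3),
    (⟨1, 1, -1, 0, 0⟩, 3),
    (⟨1, 2, -2, 4, -2⟩, 3),
    (⟨-1, 2, -3, 3, -1⟩, 4),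
    (⟨1, 1, -3, 3, -1⟩, 4),
    (⟨1, 0, 0, 0, 0⟩, 5),
    (⟨0, 2, -1, 2, -1⟩, 7)],
   [(⟨0, 0, 0, 0, 0⟩, 0),
    (⟨-1, 1, 0, -2, 1⟩, 1),
    (⟨-2, 0, 1, -4, 2⟩, 2),
    (⟨-2, 1, 0, -2, 1⟩, 3),
    (⟨-1, -1, 1, -4, 2⟩, 3),
    (⟨-1, 0, 0, 0, 0⟩, 3),
    (⟨-1, 1, 0, -4, 2⟩, 3),
    (⟨-1, 0, 1, -4, 2⟩, 4),
    (⟨-1, 1, 0, 0, 0⟩, 4),
    (⟨-2, 0, 1, -2, 1⟩, 6)],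
   [(⟨0, 0, 0, 0, 0⟩, 0),
    (⟨0, -1, 2, 1, -1⟩, 1),
    (⟨1, -1, 2, 1, -1⟩, 1),
    (⟨2, -2, 2, 3, -2⟩, 2),
    (⟨-1, -1, 1, 0, 0⟩, 3),
    (⟨1, -1, 2, 3, -2⟩, 3),
    (⟨-1, 0, 0, 0, 0⟩, 4),
    (⟨1, -2, 2, 3, -2⟩, 4),
    (⟨0, -2, 1, 2, -1⟩, 5)],
   [(⟨0, 0, 0, 0, 0⟩, 0),
    (⟨-1, 1, -2, 1, 0⟩, 1),
    (⟨0, 0, -2, 1, 0⟩, 1),
    (⟨-2, 2, -4, 0, 1⟩, 2),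
    (⟨-1, 1, -4, 0, 1⟩, 3),
    (⟨1, -1, 0, 0, 0⟩, 3),
    (⟨-1, 0, -3, 0, 1⟩, 4),
    (⟨1, 0, 0, 0, 0⟩, 4)],
   [(⟨0, 0, 0, 0, 0⟩, 0),
    (⟨-1, -1, 1, -2, 1⟩, 1),
    (⟨0, 0, 0, -2, 1⟩, 1),
    (⟨0, -2, 3, -3, 1⟩, 2),
    (⟨-1, 1, 0, 0, 0⟩, 3),
    (⟨0, -1, 1, -2, 1⟩, 3),
    (⟨-1, 0, 0, 0, 0⟩, 4),
    (⟨1, -2, 3, -3, 1⟩, 6)],
   [(⟨0, 0, 0, 0, 0⟩, 0),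
    (⟨1, -1, 0, 2, -1⟩, 1),
    (⟨2, 0, 1, 1, -1⟩, 1),
    (⟨2, 0, -1, 4, -2⟩, 2),
    (⟨1, -1, 0, 0, 0⟩, 3),
    (⟨1, 0, -1, 4, -2⟩, 3),
    (⟨1, 0, 0, 0, 0⟩, 4),
    (⟨2, -1, 0, 2, -1⟩, 4),
    (⟨1, 1, -1, 4, -2⟩, 5)],
   [(⟨0, 0, 0, 0, 0⟩, 0),
    (⟨-1, 1, -2, -1, 1⟩, 1),
    (⟨-1, 2, -1, 0, 0⟩, 1),
    (⟨-2, 2, -2, -3, 2⟩, 2),
    (⟨-2, 2, -2, -1, 1⟩, 3),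
    (⟨-1, 1, 0, 0, 0⟩, 3),
    (⟨-3, 1, -1, -3, 2⟩, 4),
    (⟨-3, 2, -2, -3, 2⟩, 5),
    (⟨-1, 0, 0, 0, 0⟩, 5)],
   [(⟨0, 0, 0, 0, 0⟩, 0),
    (⟨1, -1, 2, -1, 0⟩, 1),
    (⟨2, -2, 4, 0, -1⟩, 2),
    (⟨1, 0, 0, 0, 0⟩, 3),
    (⟨2, -3, 3, 1, -1⟩, 3),
    (⟨3, -2, 4, 0, -1⟩, 3),
    (⟨1, -1, 0, 0, 0⟩, 4),
    (⟨3, -3, 4, 0, -1⟩, 4),
    (⟨2, -1, 2, -1, 0⟩, 8)]]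

/-- The letter at a position. -/
def letter (p : ℕ) : Bool := word.getD p false

/-- Search in a list. -/
def look : List (V5 × ℕ) → V5 → Option ℕ
  | [], _ => none
  | e :: l, v => if eqV e.1 v then some e.2 else look l v

/-- Search in the table. -/
def lookup (p : ℕ) (v : V5) : Option ℕ := look (tab.getD p []) v

/-- The possible next positions. -/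
def succ (p : ℕ) : List ℕ := if p < 36 then [p + 1] else [29, 0]

/-- The allowed class changes. -/
def allowed (c : ℕ) (same : Bool) (p p2 c2 : ℕ) : Bool :=
  if c = 0 then (if same then decide (c2 = 0) else decide (3 ≤ c2) || (decide (c2 = 1) && decide (p = 0)))
  else if c = 1 then (decide (c2 = 1) && decide (p2 ≠ 0)) || decide (2 ≤ c2)
  else if c = 2 then decide (2 ≤ c2)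
  else decide (3 ≤ c2) && decide (c2 < c)

/-- Check of one output at one node. -/
def chkOut (p : ℕ) (e : V5 × ℕ) (b : Bool) : Bool :=
  oob (stepV e.1 (letter p) b) ||
    (succ p).all fun p2 =>
      match lookup p2 (stepV e.1 (letter p) b) with
      | none => false
      | some c2 => allowed e.2 (b == letter p) p p2 c2

/-- Whether an output leads to an alive node. -/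
def aliveOut (p : ℕ) (v : V5) (b : Bool) (p2 : ℕ) : Bool :=
  !(oob (stepV v (letter p) b)) &&
    match lookup p2 (stepV v (letter p) b) with
    | none => false
    | some c2 => decide (c2 ≤ 2)

/-- Uniqueness of the alive output in the long part of a window. -/
def chkUniq (p : ℕ) (e : V5 × ℕ) : Bool :=
  if e.2 = 2 ∧ 29 ≤ p then
    !(aliveOut p e.1 false (if p = 36 then 29 else p + 1) &&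
      aliveOut p e.1 true (if p = 36 then 29 else p + 1))
  else true

/-- Check of one node. -/
def chkNode (p : ℕ) (e : V5 × ℕ) : Bool :=
  chkOut p e false && chkOut p e true && chkUniq p e

/-- The check of the whole table. -/
def chkAll : Bool := (List.range 37).all fun p => (tab.getD p []).all (chkNode p)

set_option maxRecDepth 100000 in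
theorem chkAll_eq : chkAll = true := by decide +kernel

end Q70.Bx
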