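import Pool.Agent.Q70.BxB

/-!
# The input sequence `m w^{L₀} m w^{L₁} …`, `L_k = 2^{k+2}`
-/

namespace Q70.Bx

/-- The length of the `k`-th block `m w^{L_k}`. -/
def len (k : ℕ) : ℕ := 32 * 2 ^ k + 5

/-- The beginning of the `k`-th block. -/
def tt : ℕ → ℕ
  | 0 => 0
  | k + 1 => tt k + len k

/-- Block number and offset. -/
def ps : ℕ → ℕ × ℕ
  | 0 => (0, 0)
  | n + 1 => if (ps n).2 + 1 = len (ps n).1 then ((ps n).1 + 1, 0) else ((ps n).1, (ps n).2 + 1)

/-- The position belonging to an offset. -/
def ph (o : ℕ) : ℕ := if o < 37 then o else 29 + (o - 29) % 8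

/-- The position at time `n`. -/
def pos (n : ℕ) : ℕ := ph (ps n).2

/-- The input sequence. -/
def ss (n : ℕ) : Bool := letter (pos n)

lemma len_ge (k : ℕ) : 37 ≤ len k := by
  have : 1 ≤ 2 ^ k := Nat.one_le_two_pow
  unfold len; omega

lemma ps_lt (n : ℕ) : (ps n).2 < len (ps n).1 := by
  induction n with
  | zero => simp only [ps]; have := len_ge 0; omega
  | succ n ih =>
    simp only [ps]
    split_ifs with h
    · have := len_ge ((ps n).1 + 1); simp only; omega
    · simp only; omega

lemma ps_time (n : ℕ) : n = tt (ps n).1 + (ps n).2 := by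
  induction n with
  | zero => simp [ps, tt]
  | succ n ih =>
    have h := ps_lt n
    simp only [ps]
    split_ifs with h1
    · simp only [tt]; omega
    · simp only; omega

lemma ps_aux (k : ℕ) (h0 : ps (tt k) = (k, 0)) : ∀ o, o < len k → ps (tt k + o) = (k, o) := by
  intro o ho
  induction o with
  | zero => simpa using h0
  | succ o ih =>
    have h1 := ih (by omega)
    rw [← add_assoc]
    simp only [ps, h1]
    rw [if_neg (by omega)]

lemma ps_tt0 (k : ℕ) : ps (tt k) = (k, 0) := by
  induction k with
  | zero => simp [tt, ps]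
  | succ k ih =>
    have hl := len_ge k
    have h1 := ps_aux k ih (len k - 1) (by omega)
    have h2 : tt (k + 1) = (tt k + (len k - 1)) + 1 := by simp only [tt]; omega
    rw [h2]
    simp only [ps, h1]
    rw [if_pos (by omega)]

lemma ps_tt (k : ℕ) (o : ℕ) (ho : o < len k) : ps (tt k + o) = (k, o) :=
  ps_aux k (ps_tt0 k) o ho

lemma pos_tt (k o : ℕ) (ho : o < len k) : pos (tt k + o) = ph o := by
  unfold pos; rw [ps_tt k o ho]

lemma ph_lt (o : ℕ) : ph o < 37 := by
  unfold ph
  split_ifs with h
  · exact h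
  · omega

lemma pos_lt (n : ℕ) : pos n < 37 := ph_lt _

/-- The next position is one of the successors. -/
lemma pos_succ (n : ℕ) : pos (n + 1) ∈ succ (pos n) := by
  have h := ps_lt n
  unfold pos
  simp only [ps]
  split_ifs with h1
  · -- end of the block
    have h2 : ph (ps n).2 = 36 := by
      unfold ph len at *
      have h3 : 1 ≤ 2 ^ (ps n).1 := Nat.one_le_two_pow
      split_ifs with h4
      · omega
      · omega
    rw [h2]
    simp [succ, ph]
  · simp only
    by_cases h2 : (ps n).2 + 1 < 37
    · have e1 : ph (ps n).2 = (ps n).2 := by unfold ph; rw [if_pos (by omega)]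
      have e2 : ph ((ps n).2 + 1) = (ps n).2 + 1 := by unfold ph; rw [if_pos h2]
      rw [e1, e2, succ, if_pos (by omega)]; simp
    · by_cases h3 : (ps n).2 = 36
      · rw [h3]; simp [ph, succ]
      · have e1 : ph (ps n).2 = 29 + ((ps n).2 - 29) % 8 := by unfold ph; rw [if_neg (by omega)]
        have e2 : ph ((ps n).2 + 1) = 29 + ((ps n).2 + 1 - 29) % 8 := by
          unfold ph; rw [if_neg (by omega)]
        rw [e1, e2]
        by_cases h5 : ((ps n).2 - 29) % 8 = 7
        · have h6 : ((ps n).2 + 1 - 29) % 8 = 0 := by omega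
          rw [h5, h6]; simp [succ]
        · have h6 : ((ps n).2 + 1 - 29) % 8 = ((ps n).2 - 29) % 8 + 1 := by omega
          rw [h6, succ, if_pos (by omega)]
          simp; omega

/-- Inside the long part the next position is the expected one. -/
lemma pos_succ_long (n : ℕ) (h29 : 29 ≤ pos n) (hn : (ps n).2 + 1 ≠ len (ps n).1) :
    pos (n + 1) = if pos n = 36 then 29 else pos n + 1 := by
  unfold pos at *
  simp only [ps]
  rw [if_neg hn]
  simp only
  unfold ph at *
  split_ifs at * with h2 h3 h4 <;> omega

lemma pos_eq_zero_of (n : ℕ) (h : pos (n + 1) = 0) : (ps n).2 + 1 = len (ps n).1 := by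
  by_contra h1
  unfold pos at h
  simp only [ps] at h
  rw [if_neg h1] at h
  simp only at h
  unfold ph at h
  split_ifs at h <;> omega

lemma pos_tt_zero (k : ℕ) : pos (tt k) = 0 := by
  have := pos_tt k 0 (by have := len_ge k; omega)
  simpa [ph] using this

lemma tt_mono : Monotone tt := by
  apply monotone_nat_of_le_succ
  intro k; simp only [tt]; omega

lemma tt_eq (k : ℕ) : tt k + 32 = 32 * 2 ^ k + 5 * k := by
  induction k with
  | zero => simp [tt]
  | succ k ih =>
    simp only [tt, len, pow_succ]
    omega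

lemma exists_block (n : ℕ) : ∃ k, tt k ≤ n ∧ n < tt (k + 1) := by
  refine ⟨(ps n).1, ?_, ?_⟩
  · have := ps_time n; omega
  · have := ps_time n; have := ps_lt n; simp only [tt]; omega

end Q70.Bx
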