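import Pool.Agent.Q70.BxC

/-!
# Bounded difference sequences follow the table
-/

namespace Q70.Bx

/-- The difference states of an output sequence. -/
def Dv (ε : ℕ → Bool) : ℕ → V5
  | 0 => ⟨0, 0, 0, 0, 0⟩
  | n + 1 => stepV (Dv ε n) (ss n) (ε n)

/-- All differences stay in `[-1/(β-1), 1/(β-1)]`. -/
def Bdd (ε : ℕ → Bool) : Prop := ∀ n, |val (Dv ε n)| ≤ BB

/-- The class of the sequence at time `n`. -/
def Cl (ε : ℕ → Bool) (n c : ℕ) : Prop := lookup (pos n) (Dv ε n) = some c

lemma look_mem {l : List (V5 × ℕ)} {v : V5} {c : ℕ} (h : look l v = some c) : (v, c) ∈ l := by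
  induction l with
  | nil => simp [look] at h
  | cons e l ih =>
    simp only [look] at h
    split_ifs at h with h1
    · rw [eqV_iff] at h1
      simp only [Option.some.injEq] at h
      rw [List.mem_cons]; left
      rw [← h1, ← h]
    · exact List.mem_cons_of_mem _ (ih h)

lemma chk_node {p : ℕ} {v : V5} {c : ℕ} (hp : p < 37) (h : lookup p v = some c) :
    chkNode p (v, c) = true := by
  have h1 := chkAll_eq
  unfold chkAll at h1
  rw [List.all_eq_true] at h1
  have h2 := h1 p (List.mem_range.2 hp)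
  rw [List.all_eq_true] at h2
  exact h2 _ (look_mem h)

lemma chk_out {p : ℕ} {v : V5} {c : ℕ} (hp : p < 37) (h : lookup p v = some c) (b : Bool) :
    chkOut p (v, c) b = true := by
  have h1 := chk_node hp h
  unfold chkNode at h1
  simp only [Bool.and_eq_true] at h1
  cases b
  · exact h1.1.1
  · exact h1.1.2

variable {ε : ℕ → Bool}

lemma step_class (hb : Bdd ε) {n c : ℕ} (h : Cl ε n c) :
    ∃ c2, Cl ε (n + 1) c2 ∧ allowed c (ε n == ss n) (pos n) (pos (n + 1)) c2 = true := by
  have h1 := chk_out (pos_lt n) h (ε n)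
  unfold chkOut at h1
  rw [Bool.or_eq_true] at h1
  have h3 : stepV (Dv ε n) (letter (pos n)) (ε n) = Dv ε (n + 1) := rfl
  simp only [h3] at h1
  rcases h1 with h1 | h1
  · exact absurd (hb (n + 1)) (oob_sound h1)
  · rw [List.all_eq_true] at h1
    have h2 := h1 _ (pos_succ n)
    unfold Cl
    cases hl : lookup (pos (n + 1)) (Dv ε (n + 1)) with
    | none => rw [hl] at h2; simp at h2
    | some c2 =>
      rw [hl] at h2
      exact ⟨c2, rfl, h2⟩

lemma no_dead (hb : Bdd ε) : ∀ c n, 3 ≤ c → ¬ Cl ε n c := by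
  intro c
  induction c using Nat.strong_induction_on with
  | _ c ih =>
    intro n hc h
    obtain ⟨c2, h2, ha⟩ := step_class hb h
    unfold allowed at ha
    rw [if_neg (by omega), if_neg (by omega), if_neg (by omega)] at ha
    simp only [Bool.and_eq_true, decide_eq_true_eq] at ha
    exact ih c2 ha.2 (n + 1) ha.1 h2

lemma cl_zero : Cl ε 0 0 := by
  unfold Cl
  simp only [Dv]
  have : pos 0 = 0 := by simp [pos, ps, ph]
  rw [this]
  decide +kernel

lemma cl_exists (hb : Bdd ε) (n : ℕ) : ∃ c, c ≤ 2 ∧ Cl ε n c := by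
  induction n with
  | zero => exact ⟨0, by norm_num, cl_zero⟩
  | succ n ih =>
    obtain ⟨c, _, h⟩ := ih
    obtain ⟨c2, h2, _⟩ := step_class hb h
    refine ⟨c2, ?_, h2⟩
    by_contra hc
    exact no_dead hb c2 (n + 1) (by omega) h2

lemma cl_unique {n c c' : ℕ} (h : Cl ε n c) (h' : Cl ε n c') : c = c' := by
  unfold Cl at h h'
  rw [h] at h'
  exact Option.some.inj h'

lemma step0_same (hb : Bdd ε) {n : ℕ} (h : Cl ε n 0) (he : ε n = ss n) : Cl ε (n + 1) 0 := by
  obtain ⟨c2, h2, ha⟩ := step_class hb h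
  rw [he] at ha
  simp [allowed] at ha
  rw [ha] at h2; exact h2

lemma step0_diff (hb : Bdd ε) {n : ℕ} (h : Cl ε n 0) (he : ε n ≠ ss n) :
    Cl ε (n + 1) 1 ∧ pos n = 0 := by
  obtain ⟨c2, h2, ha⟩ := step_class hb h
  have h3 : (ε n == ss n) = false := by simpa using he
  rw [h3] at ha
  simp [allowed] at ha
  rcases ha with ha | ha
  · exact absurd h2 (no_dead hb c2 (n + 1) ha)
  · rw [ha.1] at h2; exact ⟨h2, ha.2⟩

lemma step1 (hb : Bdd ε) {n : ℕ} (h : Cl ε n 1) :
    (Cl ε (n + 1) 1 ∧ pos (n + 1) ≠ 0) ∨ Cl ε (n + 1) 2 := by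
  obtain ⟨c2, h2, ha⟩ := step_class hb h
  simp [allowed] at ha
  rcases ha with ha | ha
  · rw [ha.1] at h2; exact Or.inl ⟨h2, ha.2⟩
  · right
    have : c2 = 2 := by
      by_contra hc
      exact no_dead hb c2 (n + 1) (by omega) h2
    rw [this] at h2; exact h2

lemma step2 (hb : Bdd ε) {n : ℕ} (h : Cl ε n 2) : Cl ε (n + 1) 2 := by
  obtain ⟨c2, h2, ha⟩ := step_class hb h
  simp [allowed] at ha
  have : c2 = 2 := by
    by_contra hc
    exact no_dead hb c2 (n + 1) (by omega) h2
  rw [this] at h2; exact h2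

/-- Every bounded sequence other than the input is eventually frozen. -/
theorem eventually_frozen (hb : Bdd ε) (hne : ε ≠ ss) : ∃ K, ∀ n ≥ tt K, Cl ε n 2 := by
  classical
  have hex : ∃ n, ε n ≠ ss n := by
    by_contra h
    push Not at h
    exact hne (funext h)
  set n0 := Nat.find hex with hn0
  have h1 : ε n0 ≠ ss n0 := Nat.find_spec hex
  have h2 : ∀ n, n ≤ n0 → Cl ε n 0 := by
    intro n
    induction n with
    | zero => intro _; exact cl_zero
    | succ n ih =>
      intro hn
      have h3 : ε n = ss n := by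
        by_contra h4
        exact Nat.find_min hex (show n < n0 by omega) h4
      exact step0_same hb (ih (by omega)) h3
  obtain ⟨h3, h4⟩ := step0_diff hb (h2 n0 le_rfl) h1
  have h5 : pos (n0 + 1) ≠ 0 := by
    have := pos_succ n0
    rw [h4] at this
    simp [succ] at this
    omega
  have h6 : ∀ n ≥ n0 + 1, (Cl ε n 1 ∧ pos n ≠ 0) ∨ Cl ε n 2 := by
    intro n hn
    induction n, hn using Nat.le_induction with
    | base => exact Or.inl ⟨h3, h5⟩
    | succ n hn ih =>
      rcases ih with ih | ih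
      · exact step1 hb ih.1
      · exact Or.inr (step2 hb ih)
  set K := (ps (n0 + 1)).1 + 1 with hK
  have h7 : n0 + 1 ≤ tt K := by
    have e1 := ps_time (n0 + 1)
    have e2 := ps_lt (n0 + 1)
    rw [hK]; simp only [tt]; omega
  refine ⟨K, fun n hn => ?_⟩
  induction n, hn using Nat.le_induction with
  | base =>
    rcases h6 (tt K) h7 with h | h
    · exact absurd (pos_tt_zero K) h.2
    · exact h
  | succ n hn ih => exact step2 hb ih

/-- The times at which a frozen sequence may have a choice. -/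
def Free (K n : ℕ) : Prop := n < tt K ∨ (ps n).2 < 29 ∨ (ps n).2 + 1 = len (ps n).1

lemma unique_out {ε ε' : ℕ → Bool} (hb : Bdd ε) (hb' : Bdd ε') {n : ℕ}
    (hD : Dv ε n = Dv ε' n) (h2 : Cl ε n 2) (h29 : 29 ≤ pos n)
    (hn : (ps n).2 + 1 ≠ len (ps n).1) : ε n = ε' n := by
  by_contra hne
  have h2' : Cl ε' n 2 := by unfold Cl at *; rw [← hD]; exact h2
  have hnext := pos_succ_long n h29 hn
  have hal : ∀ {η : ℕ → Bool}, Bdd η → Cl η n 2 →
      aliveOut (pos n) (Dv η n) (η n) (if pos n = 36 then 29 else pos n + 1) = true := by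
    intro η hη hc
    unfold aliveOut
    have h3 : stepV (Dv η n) (letter (pos n)) (η n) = Dv η (n + 1) := rfl
    rw [h3, ← hnext]
    have h4 : oob (Dv η (n + 1)) = false := by
      by_contra h5
      exact oob_sound (by simpa using h5) (hη (n + 1))
    have h5 := step2 hη hc
    unfold Cl at h5
    rw [h5, h4]; simp
  have hu := chk_node (pos_lt n) h2
  unfold chkNode at hu
  simp only [Bool.and_eq_true] at hu
  have hu2 := hu.2
  unfold chkUniq at hu2
  simp only [h29, and_self, if_true] at hu2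
  have a1 := hal hb h2
  have a2 := hal hb' h2'
  rw [← hD] at a2
  cases h7 : ε n <;> cases h8 : ε' n
  · exact hne (by rw [h7, h8])
  · rw [h7] at a1; rw [h8] at a2
    rw [a1, a2] at hu2; simp at hu2
  · rw [h7] at a1; rw [h8] at a2
    rw [a1, a2] at hu2; simp at hu2
  · exact hne (by rw [h7, h8])

lemma Dv_congr {ε ε' : ℕ → Bool} {n : ℕ} (h : ∀ i < n, ε i = ε' i) : Dv ε n = Dv ε' n := by
  induction n with
  | zero => rfl
  | succ n ih =>
    simp only [Dv]
    rw [ih (fun i hi => h i (by omega)), h n (by omega)]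

/-- Frozen sequences are determined by the free times. -/
theorem agree {ε ε' : ℕ → Bool} (hb : Bdd ε) (hb' : Bdd ε') {K N : ℕ}
    (h2 : ∀ n ≥ tt K, Cl ε n 2) (hf : ∀ n < N, Free K n → ε n = ε' n) :
    ∀ n < N, ε n = ε' n := by
  intro n
  induction n using Nat.strong_induction_on with
  | _ n ih =>
    intro hn
    by_cases hF : Free K n
    · exact hf n hn hF
    · unfold Free at hF
      push Not at hF
      obtain ⟨e1, e2, e3⟩ := hF
      have hD : Dv ε n = Dv ε' n := Dv_congr fun i hi => ih i hi (by omega)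
      refine unique_out hb hb' hD (h2 n e1) ?_ e3
      unfold pos ph
      split_ifs with h
      · exact e2
      · omega

end Q70.Bx
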