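import Pool.Agent.Q70.BxD

/-!
# The metric on binary sequences and the Hausdorff dimension of the frozen sets
-/

namespace Q70.Bx

open Filter Topology MeasureTheory Measure Metric
open scoped ENNReal NNReal

/-- Binary sequences, indexed from `0`. -/
def BinSeq : Type := ℕ → Bool

/-- The distance `2^{-n}`, where `n` is the first place at which the two sequences differ, the
places being counted from `1` (so `n` is one more than the first index, counted from `0`). -/
noncomputable def bdist (x y : BinSeq) : ℝ :=
  open Classical in if x = y then 0 else (1 / 2 : ℝ) ^ (PiNat.firstDiff (E := fun _ => Bool) x y + 1)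

lemma bdist_eq (x y : BinSeq) :
    bdist x y = (1 / 2) * @dist (ℕ → Bool) PiNat.dist x y := by
  classical
  unfold bdist
  split_ifs with h
  · subst h
    rw [PiNat.dist_self (E := fun _ => Bool)]; simp
  · rw [PiNat.dist_eq_of_ne (E := fun _ => Bool) h, pow_succ]; ring

noncomputable instance : MetricSpace BinSeq where
  dist := bdist
  dist_self x := by
    change bdist x x = 0
    rw [bdist_eq, PiNat.dist_self (E := fun _ => Bool)]; simp
  dist_comm x y := by
    change bdist x y = bdist y x
    rw [bdist_eq, bdist_eq, PiNat.dist_comm (E := fun _ => Bool)]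
  dist_triangle x y z := by
    change bdist x z ≤ bdist x y + bdist y z
    rw [bdist_eq, bdist_eq, bdist_eq]
    have := PiNat.dist_triangle (E := fun _ => Bool) x y z
    linarith
  eq_of_dist_eq_zero := by
    intro x y h
    change bdist x y = 0 at h
    rw [bdist_eq] at h
    exact PiNat.eq_of_dist_eq_zero (E := fun _ => Bool) x y (by linarith)

lemma dist_le_of_agree {x y : BinSeq} {N : ℕ} (h : ∀ i < N, x i = y i) :
    dist x y ≤ (1 / 2 : ℝ) ^ (N + 1) := by
  classical
  change bdist x y ≤ _
  unfold bdist
  split_ifs with hxy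
  · positivity
  · apply pow_le_pow_of_le_one (by norm_num) (by norm_num)
    have h1 := PiNat.apply_firstDiff_ne (E := fun _ => Bool) hxy
    by_contra h2
    exact h1 (h _ (by omega))

lemma ediam_le_of_agree {S : Set BinSeq} {N : ℕ} (h : ∀ x ∈ S, ∀ y ∈ S, ∀ i < N, x i = y i) :
    ediam S ≤ ENNReal.ofReal ((1 / 2 : ℝ) ^ (N + 1)) := by
  apply ediam_le
  intro x hx y hy
  rw [edist_dist]
  exact ENNReal.ofReal_le_ofReal (dist_le_of_agree (h x hx y hy))

/-- The sequences which are frozen from the `K`-th block on. -/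
def Frozen (K : ℕ) : Set BinSeq := {ε | Bdd ε ∧ ∀ n ≥ tt K, Cl ε n 2}

open Classical in
/-- The free times before `N`. -/
noncomputable def FreeS (K N : ℕ) : Finset ℕ := (Finset.range N).filter (Free K)

lemma card_free (K i : ℕ) : (FreeS K (tt (K + i))).card ≤ tt K + 30 * i := by
  classical
  induction i with
  | zero =>
    simp only [add_zero, mul_zero]
    calc (FreeS K (tt K)).card ≤ (Finset.range (tt K)).card := Finset.card_filter_le _ _
      _ = tt K := Finset.card_range _
  | succ i ih =>
    have hsub : FreeS K (tt (K + (i + 1))) ⊆ FreeS K (tt (K + i)) ∪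
        ((Finset.range 29).image (fun o => tt (K + i) + o) ∪ {tt (K + i) + (len (K + i) - 1)}) := by
      intro n hn
      simp only [FreeS, Finset.mem_filter, Finset.mem_range] at hn
      obtain ⟨h1, h2⟩ := hn
      rw [← add_assoc] at h1
      simp only [tt] at h1
      by_cases h3 : n < tt (K + i)
      · rw [Finset.mem_union]; left
        simp only [FreeS, Finset.mem_filter, Finset.mem_range]
        exact ⟨h3, h2⟩
      · push Not at h3
        obtain ⟨o, rfl⟩ := Nat.exists_eq_add_of_le h3
        have ho : o < len (K + i) := by omega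
        have hps := ps_tt (K + i) o ho
        rcases h2 with h2 | h2 | h2
        · have := tt_mono (show K ≤ K + i by omega)
          omega
        · rw [hps] at h2
          simp only at h2
          rw [Finset.mem_union]; right
          rw [Finset.mem_union]; left
          rw [Finset.mem_image]
          exact ⟨o, Finset.mem_range.2 h2, rfl⟩
        · rw [hps] at h2
          simp only at h2
          rw [Finset.mem_union]; right
          rw [Finset.mem_union]; right
          rw [Finset.mem_singleton]
          omega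
    calc (FreeS K (tt (K + (i + 1)))).card ≤ _ := Finset.card_le_card hsub
      _ ≤ (FreeS K (tt (K + i))).card + (29 + 1) := by
        refine (Finset.card_union_le _ _).trans ?_
        gcongr
        refine (Finset.card_union_le _ _).trans ?_
        gcongr
        · exact Finset.card_image_le.trans (by simp)
        · simp
      _ ≤ tt K + 30 * (i + 1) := by omega

lemma sq_le_tt (K i : ℕ) : i * i ≤ tt (K + i) := by
  have h1 := tt_eq (K + i)
  have h2 : 2 ^ i ≤ 2 ^ (K + i) := Nat.pow_le_pow_right (by norm_num) (by omega)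
  have h3 : i * i + 32 ≤ 32 * 2 ^ i + 5 * i := by
    clear h1 h2
    induction i with
    | zero => norm_num
    | succ i ih =>
      rw [pow_succ]
      have : i < 2 ^ i := Nat.lt_two_pow_self
      nlinarith
  have h4 : 32 * 2 ^ i ≤ 32 * 2 ^ (K + i) := by omega
  omega

/-- The Hausdorff measures of the frozen sets vanish. -/
theorem frozen_measure [MeasurableSpace BinSeq] [BorelSpace BinSeq] (K : ℕ) (d : ℝ)
    (hd : 0 < d) : μH[d] (Frozen K) = 0 := by
  classical
  have hle := hausdorffMeasure_le_liminf_sum (X := BinSeq) (β := ℕ)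
    (ι := fun i => ({n // n ∈ FreeS K (tt (K + i))} → Bool)) d (Frozen K) (l := atTop)
    (fun i => ENNReal.ofReal ((1 / 2 : ℝ) ^ (tt (K + i) + 1)))
    (by
      rw [show (0 : ℝ≥0∞) = ENNReal.ofReal 0 by simp]
      apply ENNReal.tendsto_ofReal
      have h1 : Tendsto (fun i => tt (K + i) + 1) atTop atTop := by
        apply tendsto_atTop_mono (f := fun i => i) _ tendsto_id
        intro i
        have := sq_le_tt K i
        nlinarith
      exact (tendsto_pow_atTop_nhds_zero_of_lt_one (by norm_num) (by norm_num)).comp h1)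
    (fun i f => {ε : BinSeq | ε ∈ Frozen K ∧ ∀ n : {n // n ∈ FreeS K (tt (K + i))}, ε n = f n})
    (by
      refine Eventually.of_forall fun i f => ?_
      apply ediam_le_of_agree
      intro x hx y hy
      apply agree hx.1.1 hy.1.1 hx.1.2
      intro n hn hf
      have hm : n ∈ FreeS K (tt (K + i)) := by
        simp only [FreeS, Finset.mem_filter, Finset.mem_range]; exact ⟨hn, hf⟩
      rw [hx.2 ⟨n, hm⟩, hy.2 ⟨n, hm⟩])
    (by
      refine Eventually.of_forall fun i ε hε => ?_
      rw [Set.mem_iUnion]
      exact ⟨fun n => ε n, hε, fun n => rfl⟩)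
  refine le_antisymm (hle.trans ?_) zero_le
  have hbound : ∀ i, (∑ f : ({n // n ∈ FreeS K (tt (K + i))} → Bool),
      ediam {ε : BinSeq | ε ∈ Frozen K ∧ ∀ n : {n // n ∈ FreeS K (tt (K + i))}, ε n = f n} ^ d)
      ≤ ENNReal.ofReal ((2 : ℝ) ^ (tt K + 30 * i) * ((1 / 2 : ℝ) ^ (tt (K + i) + 1)) ^ d) := by
    intro i
    calc _ ≤ ∑ f : ({n // n ∈ FreeS K (tt (K + i))} → Bool),
          ENNReal.ofReal ((1 / 2 : ℝ) ^ (tt (K + i) + 1)) ^ d := by
          apply Finset.sum_le_sum
          intro f _
          apply ENNReal.rpow_le_rpow _ hd.le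
          apply ediam_le_of_agree
          intro x hx y hy
          apply agree hx.1.1 hy.1.1 hx.1.2
          intro n hn hf
          have hm : n ∈ FreeS K (tt (K + i)) := by
            simp only [FreeS, Finset.mem_filter, Finset.mem_range]; exact ⟨hn, hf⟩
          rw [hx.2 ⟨n, hm⟩, hy.2 ⟨n, hm⟩]
      _ = ENNReal.ofReal ((2 : ℝ) ^ (FreeS K (tt (K + i))).card *
            ((1 / 2 : ℝ) ^ (tt (K + i) + 1)) ^ d) := by
          rw [Finset.sum_const, Finset.card_univ, Fintype.card_fun, Fintype.card_bool,
            Fintype.card_coe, nsmul_eq_mul, ENNReal.ofReal_mul (by positivity),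
            ENNReal.ofReal_rpow_of_nonneg (by positivity) hd.le]
          congr 1
          rw [ENNReal.ofReal_pow (by norm_num)]
          push_cast
          norm_num
      _ ≤ _ := by
          apply ENNReal.ofReal_le_ofReal
          gcongr
          · norm_num
          · exact card_free K i
  have hreal : Tendsto (fun i : ℕ => (2 : ℝ) ^ (tt K + 30 * i) *
      ((1 / 2 : ℝ) ^ (tt (K + i) + 1)) ^ d) atTop (𝓝 0) := by
    have hC : Tendsto (fun i : ℕ => (2 : ℝ) ^ (tt K) * (1 / 2 : ℝ) ^ i) atTop (𝓝 0) := by
      have := (tendsto_pow_atTop_nhds_zero_of_lt_one (by norm_num : (0 : ℝ) ≤ 1 / 2)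
        (by norm_num)).const_mul ((2 : ℝ) ^ (tt K))
      simpa using this
    obtain ⟨i₀, hi₀⟩ := exists_nat_ge (31 / d)
    refine squeeze_zero' (Eventually.of_forall fun i => by positivity) ?_ hC
    filter_upwards [eventually_ge_atTop i₀] with i hi
    rw [pow_add, mul_assoc]
    gcongr
    -- 2^(30 i) * ((1/2)^(N+1))^d ≤ (1/2)^i
    have hN : (i : ℝ) * i ≤ (tt (K + i) : ℝ) := by exact_mod_cast sq_le_tt K i
    have hdi : 31 ≤ d * i := by
      have : 31 / d ≤ (i : ℝ) := hi₀.trans (by exact_mod_cast hi)
      rw [div_le_iff₀ hd] at this; linarith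
    have e1 : (2 : ℝ) ^ (30 * i) = (2 : ℝ) ^ ((30 : ℝ) * i) := by
      rw [← Real.rpow_natCast]; push_cast; rfl
    have e2 : ((1 / 2 : ℝ) ^ (tt (K + i) + 1)) ^ d = (2 : ℝ) ^ (-(d * (tt (K + i) + 1))) := by
      rw [one_div, inv_pow, ← Real.rpow_natCast, ← Real.rpow_neg (by norm_num),
        ← Real.rpow_mul (by norm_num)]
      congr 1; push_cast; ring
    have e3 : (1 / 2 : ℝ) ^ i = (2 : ℝ) ^ (-(i : ℝ)) := by
      rw [one_div, inv_pow, ← Real.rpow_natCast, ← Real.rpow_neg (by norm_num)]
    rw [e1, e2, e3, ← Real.rpow_add (by norm_num)]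
    apply Real.rpow_le_rpow_of_exponent_le (by norm_num)
    have h6 : 31 * (i : ℝ) ≤ d * i * i := by
      have : (0 : ℝ) ≤ i := by positivity
      nlinarith
    nlinarith
  have hlim : Tendsto (fun i => ∑ f : ({n // n ∈ FreeS K (tt (K + i))} → Bool),
      ediam {ε : BinSeq | ε ∈ Frozen K ∧ ∀ n : {n // n ∈ FreeS K (tt (K + i))}, ε n = f n} ^ d)
      atTop (𝓝 0) := by
    have h0 := ENNReal.tendsto_ofReal hreal
    rw [ENNReal.ofReal_zero] at h0
    exact tendsto_of_tendsto_of_tendsto_of_le_of_le tendsto_const_nhds h0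
      (fun i => zero_le) hbound
  rw [hlim.liminf_eq]

theorem frozen_dim (K : ℕ) : dimH (Frozen K) = 0 := by
  borelize BinSeq
  refine le_antisymm ?_ zero_le
  apply le_of_forall_pos_le_add
  intro e he
  rw [zero_add]
  by_cases htop : e = ∞
  · rw [htop]; exact le_top
  · lift e to ℝ≥0 using htop
    have he' : 0 < e := by exact_mod_cast he
    apply dimH_le_of_hausdorffMeasure_ne_top
    rw [frozen_measure K (e : ℝ) (by exact_mod_cast he')]
    simp

/-- The bounded sequences form a set of dimension zero. -/
theorem bdd_dim : dimH ({ε : BinSeq | Bdd ε}) = 0 := by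
  have hsub : {ε : BinSeq | Bdd ε} ⊆ ({(ss : BinSeq)} : Set BinSeq) ∪ ⋃ K, Frozen K := by
    intro ε hε
    by_cases h : ε = ss
    · left; exact h
    · right
      obtain ⟨K, hK⟩ := eventually_frozen hε h
      rw [Set.mem_iUnion]
      exact ⟨K, hε, hK⟩
  refine le_antisymm ((dimH_mono hsub).trans ?_) zero_le
  rw [dimH_union, dimH_iUnion]
  have h1 : dimH ({(ss : BinSeq)} : Set BinSeq) = 0 := dimH_singleton (X := BinSeq) _
  rw [h1]
  simp [frozen_dim]

end Q70.Bx
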