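import Pool.Agent.Q70.BxE

/-!
# Expansions, bounded differences and many prefixes
-/

namespace Q70.Bx

open Filter Topology

lemma dg_nonneg (b : Bool) : 0 ≤ dg b := by cases b <;> simp [dg]
lemma dg_le_one (b : Bool) : dg b ≤ 1 := by cases b <;> simp [dg]

lemma hasSum_geo : HasSum (fun n : ℕ => 1 / β ^ (n + 1)) BB := by
  have h1 := β_one
  have h2 : |1 / β| < 1 := by
    rw [abs_of_pos (by have := β_pos; positivity), div_lt_one β_pos]; exact h1
  have h3 := (hasSum_geometric_of_abs_lt_one h2).mul_left (1 / β)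
  have h4 : 1 / β * (1 - 1 / β)⁻¹ = BB := by
    have h5 : β ≠ 0 := β_pos.ne'
    have h6 : β - 1 ≠ 0 := by linarith
    rw [BB]; field_simp
  rw [h4] at h3
  have h5 : (fun n : ℕ => 1 / β ^ (n + 1)) = fun n : ℕ => 1 / β * (1 / β) ^ n := by
    funext n
    rw [one_div_pow, pow_succ]
    field_simp
  rw [h5]; exact h3

/-- Every digit sequence gives a convergent series. -/
lemma summ (f : ℕ → Bool) : Summable fun n => dg (f n) / β ^ (n + 1) := by
  refine Summable.of_nonneg_of_le (fun n => ?_) (fun n => ?_) hasSum_geo.summable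
  · have := dg_nonneg (f n); have := β_pos; positivity
  · have h1 := dg_le_one (f n)
    have h2 : 0 < β ^ (n + 1) := pow_pos β_pos _
    gcongr

/-- The value of a digit sequence. -/
noncomputable def vl (f : ℕ → Bool) : ℝ := ∑' n, dg (f n) / β ^ (n + 1)

lemma vl_nonneg (f : ℕ → Bool) : 0 ≤ vl f :=
  tsum_nonneg fun n => by have := dg_nonneg (f n); have := β_pos; positivity

lemma vl_le (f : ℕ → Bool) : vl f ≤ BB := by
  rw [← hasSum_geo.tsum_eq]
  refine Summable.tsum_le_tsum (fun n => ?_) (summ f) hasSum_geo.summable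
  have h1 := dg_le_one (f n)
  have h2 : 0 < β ^ (n + 1) := pow_pos β_pos _
  gcongr

/-- Splitting off the first `n` digits. -/
lemma vl_split (f : ℕ → Bool) (n : ℕ) :
    vl f = ∑ i ∈ Finset.range n, dg (f i) / β ^ (i + 1) + vl (fun i => f (i + n)) / β ^ n := by
  unfold vl
  rw [← (summ f).sum_add_tsum_nat_add n, ← tsum_div_const]
  congr 1
  apply tsum_congr
  intro i
  have h : β ≠ 0 := β_pos.ne'
  rw [show i + n + 1 = (i + 1) + n by ring, pow_add]
  field_simp

lemma vl_first (f : ℕ → Bool) (h : f 0 = false) : vl f ≤ BB / β := by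
  rw [vl_split f 1]
  simp only [Finset.range_one, Finset.sum_singleton, h, zero_add, pow_one]
  have h1 := vl_le fun i => f (i + 1)
  have h2 := β_pos
  simp only [dg, Bool.false_eq_true, if_false, zero_div, zero_add]
  gcongr

lemma val_Dv (ε : ℕ → Bool) (n : ℕ) :
    val (Dv ε n) = β ^ n * (∑ i ∈ Finset.range n, dg (ss i) / β ^ (i + 1) -
      ∑ i ∈ Finset.range n, dg (ε i) / β ^ (i + 1)) := by
  induction n with
  | zero => simp [Dv, val]
  | succ n ih =>
    have h : β ≠ 0 := β_pos.ne'
    simp only [Dv]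
    rw [val_step, ih, Finset.sum_range_succ, Finset.sum_range_succ]
    field_simp
    ring

/-- Sequences with the value of the input have bounded differences. -/
theorem bdd_of_vl {ε : ℕ → Bool} (h : vl ε = vl ss) : Bdd ε := by
  intro n
  have h0 : 0 < β ^ n := pow_pos β_pos n
  have h1 := vl_split ε n
  have h2 := vl_split ss n
  have h3 : val (Dv ε n) = vl (fun i => ε (i + n)) - vl (fun i => ss (i + n)) := by
    rw [val_Dv]
    rw [h1, h2] at h
    have h4 : ∑ i ∈ Finset.range n, dg (ss i) / β ^ (i + 1) -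
        ∑ i ∈ Finset.range n, dg (ε i) / β ^ (i + 1)
        = vl (fun i => ε (i + n)) / β ^ n - vl (fun i => ss (i + n)) / β ^ n := by linarith
    rw [h4]; field_simp
  rw [h3, abs_le]
  have e1 := vl_nonneg fun i => ε (i + n)
  have e2 := vl_le fun i => ε (i + n)
  have e3 := vl_nonneg fun i => ss (i + n)
  have e4 := vl_le fun i => ss (i + n)
  constructor <;> linarith

/-! ### Greedy expansions -/

/-- The remainders of the greedy expansion. -/
noncomputable def rem (y : ℝ) : ℕ → ℝ
  | 0 => y
  | n + 1 => if 1 ≤ β * rem y n then β * rem y n - 1 else β * rem y n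

/-- The greedy digits. -/
noncomputable def gr (y : ℝ) (n : ℕ) : Bool := decide (1 ≤ β * rem y n)

lemma BB_ge_one : 1 ≤ BB := by
  have h1 := β_one; have h2 := β_two
  rw [BB, le_div_iff₀ (by linarith)]; linarith

lemma rem_mem {y : ℝ} (h0 : 0 ≤ y) (h1 : y ≤ BB) (n : ℕ) : 0 ≤ rem y n ∧ rem y n ≤ BB := by
  induction n with
  | zero => exact ⟨h0, h1⟩
  | succ n ih =>
    simp only [rem]
    have h2 := BB_eq
    have h3 := β_pos
    split_ifs with h
    · refine ⟨by linarith, ?_⟩
      have : β * rem y n ≤ β * BB := by gcongr; exact ih.2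
      linarith
    · push Not at h
      refine ⟨mul_nonneg h3.le ih.1, ?_⟩
      have := BB_ge_one
      linarith

lemma rem_step (y : ℝ) (n : ℕ) : rem y (n + 1) = β * rem y n - dg (gr y n) := by
  simp only [rem, gr, dg]
  by_cases h : 1 ≤ β * rem y n <;> simp [h]

lemma gr_sum (y : ℝ) (n : ℕ) :
    y = ∑ i ∈ Finset.range n, dg (gr y i) / β ^ (i + 1) + rem y n / β ^ n := by
  induction n with
  | zero => simp [rem]
  | succ n ih =>
    have h : β ≠ 0 := β_pos.ne'
    rw [Finset.sum_range_succ, rem_step]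
    have h2 : dg (gr y n) / β ^ (n + 1) + (β * rem y n - dg (gr y n)) / β ^ (n + 1)
        = rem y n / β ^ n := by
      field_simp; ring
    linarith

/-- Every number in `[0, 1/(β-1)]` has an expansion. -/
theorem exists_exp {y : ℝ} (h0 : 0 ≤ y) (h1 : y ≤ BB) : ∃ f : ℕ → Bool, vl f = y := by
  refine ⟨gr y, ?_⟩
  have hs := (summ (gr y)).hasSum.tendsto_sum_nat
  have ht : Tendsto (fun n => ∑ i ∈ Finset.range n, dg (gr y i) / β ^ (i + 1)) atTop (𝓝 y) := by
    have h2 : Tendsto (fun n => y - rem y n / β ^ n) atTop (𝓝 (y - 0)) := by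
      apply Tendsto.sub tendsto_const_nhds
      have h3 : Tendsto (fun n : ℕ => BB * (1 / β) ^ n) atTop (𝓝 0) := by
        have h4 := tendsto_pow_atTop_nhds_zero_of_lt_one (r := 1 / β)
          (by have := β_pos; positivity) (by rw [div_lt_one β_pos]; exact β_one)
        simpa using h4.const_mul BB
      refine squeeze_zero (fun n => ?_) (fun n => ?_) h3
      · have := (rem_mem h0 h1 n).1; have := β_pos; positivity
      · rw [one_div_pow, mul_one_div]
        have h5 := (rem_mem h0 h1 n).2
        have h6 : 0 < β ^ n := pow_pos β_pos n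
        gcongr
    rw [sub_zero] at h2
    refine h2.congr fun n => ?_
    have := gr_sum y n
    linarith
  exact tendsto_nhds_unique hs ht

/-- A finite word which leaves an admissible remainder can be continued to an expansion. -/
theorem extend {u : ℕ → Bool} {n : ℕ}
    (h0 : 0 ≤ val (Dv u n) + vl (fun i => ss (i + n)))
    (h1 : val (Dv u n) + vl (fun i => ss (i + n)) ≤ BB) :
    ∃ ε : ℕ → Bool, vl ε = vl ss ∧ ∀ i < n, ε i = u i := by
  obtain ⟨f, hf⟩ := exists_exp h0 h1
  have hβ : β ^ n ≠ 0 := (pow_pos β_pos n).ne'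
  refine ⟨fun i => if i < n then u i else f (i - n), ?_, fun i hi => by simp [hi]⟩
  rw [vl_split _ n, vl_split ss n]
  have e1 : ∑ i ∈ Finset.range n, dg ((fun i => if i < n then u i else f (i - n)) i) / β ^ (i + 1)
      = ∑ i ∈ Finset.range n, dg (u i) / β ^ (i + 1) := by
    apply Finset.sum_congr rfl
    intro i hi
    simp [Finset.mem_range.1 hi]
  have e2 : (fun i => (fun i => if i < n then u i else f (i - n)) (i + n)) = f := by
    funext i; simp
  rw [e1, e2, hf, val_Dv]
  field_simp
  ring

/-! ### Many prefixes -/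

/-- Reading `l` letters. -/
def iter (A B : ℕ → Bool) (v : V5) : ℕ → V5
  | 0 => v
  | l + 1 => stepV (iter A B v l) (A l) (B l)

lemma Dv_iter {u : ℕ → Bool} {n : ℕ} {A B : ℕ → Bool} (l : ℕ) (hA : ∀ i < l, ss (n + i) = A i)
    (hB : ∀ i < l, u (n + i) = B i) : Dv u (n + l) = iter A B (Dv u n) l := by
  induction l with
  | zero => rfl
  | succ l ih =>
    rw [← add_assoc]
    simp only [Dv, iter]
    rw [ih (fun i hi => hA i (by omega)) (fun i hi => hB i (by omega)), hA l (by omega),
      hB l (by omega)]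

/-- The state of the growing branch. -/
def gg : V5 := ⟨1, 1, -1, 2, -1⟩

/-- The word which leads from the input to the growing branch. -/
def eW (i : ℕ) : Bool :=
  [true, false, false, false, false, true, false, false, true, true, true, false, true, false,
    false, true, true, true, false, true, false, false, false, true, true, true, false, true,
    false].getD i false

/-- The two words of the growing branch. -/
def vW (c : Bool) (i : ℕ) : Bool :=
  if c then [false, false, true, true, true, false, true, false].getD i false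
  else [false, true, false, false, false, false, false, false].getD i false

lemma eqV_eq {u v : V5} (h : eqV u v = true) : u = v := (eqV_iff u v).1 h

lemma iter_e : iter letter eW ⟨0, 0, 0, 0, 0⟩ 29 = gg := eqV_eq (by decide +kernel)

lemma iter_v (c : Bool) : iter (fun i => letter (29 + i)) (vW c) gg 8 = gg := by
  cases c
  · exact eqV_eq (by decide +kernel)
  · exact eqV_eq (by decide +kernel)

/-- The branching prefix. -/
def br (K : ℕ) (c : ℕ → Bool) (n : ℕ) : Bool :=
  if n < tt K then ss n
  else if n - tt K < 29 then eW (n - tt K)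
  else vW (c ((n - tt K - 29) / 8)) ((n - tt K - 29) % 8)

lemma Dv_ss (n : ℕ) : Dv ss n = ⟨0, 0, 0, 0, 0⟩ := by
  induction n with
  | zero => rfl
  | succ n ih =>
    simp only [Dv, ih, stepV]
    cases ss n <;> rfl

lemma Dv_br0 (K : ℕ) (c : ℕ → Bool) : Dv (br K c) (tt K) = ⟨0, 0, 0, 0, 0⟩ := by
  rw [Dv_congr (ε' := ss), Dv_ss]
  intro i hi
  simp [br, hi]

lemma Dv_br1 (K : ℕ) (c : ℕ → Bool) : Dv (br K c) (tt K + 29) = gg := by
  rw [Dv_iter (A := letter) (B := eW) 29, Dv_br0, iter_e]
  · intro i hi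
    unfold ss
    rw [pos_tt K i (by have := len_ge K; omega)]
    unfold ph
    rw [if_pos (by omega)]
  · intro i hi
    unfold br
    rw [if_neg (by omega), if_pos (by omega)]
    congr 1; omega

lemma Dv_br2 (K : ℕ) (c : ℕ → Bool) (j : ℕ) (hj : 29 + 8 * j ≤ len K) :
    Dv (br K c) (tt K + 29 + 8 * j) = gg := by
  induction j with
  | zero => simpa using Dv_br1 K c
  | succ j ih =>
    have h1 := ih (by omega)
    rw [show tt K + 29 + 8 * (j + 1) = (tt K + 29 + 8 * j) + 8 by ring]
    rw [Dv_iter (A := fun i => letter (29 + i)) (B := vW (c j)) 8, h1, iter_v]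
    · intro i hi
      unfold ss
      rw [show tt K + 29 + 8 * j + i = tt K + (29 + 8 * j + i) by ring,
        pos_tt K _ (by omega)]
      congr 1
      unfold ph
      split_ifs with h
      · omega
      · omega
    · intro i hi
      unfold br
      rw [if_neg (by omega), if_neg (by omega)]
      have e1 : (tt K + 29 + 8 * j + i - tt K - 29) / 8 = j := by omega
      have e2 : (tt K + 29 + 8 * j + i - tt K - 29) % 8 = i := by omega
      rw [e1, e2]

/-- The number of choices in the `K`-th block. -/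
def JJ (K : ℕ) : ℕ := 4 * 2 ^ K - 3

lemma JJ_len (K : ℕ) : 29 + 8 * JJ K = len K := by
  have : 1 ≤ 2 ^ K := Nat.one_le_two_pow
  unfold JJ len; omega

lemma Dv_br3 (K : ℕ) (c : ℕ → Bool) : Dv (br K c) (tt (K + 1)) = gg := by
  have h := Dv_br2 K c (JJ K) (JJ_len K).le
  have h2 := JJ_len K
  rw [show tt (K + 1) = tt K + 29 + 8 * JJ K by simp only [tt]; omega]
  exact h

lemma ss_tt (K : ℕ) : ss (tt K) = false := by
  unfold ss; rw [pos_tt_zero]; rfl

lemma val_gg : 0 ≤ val gg ∧ val gg ≤ 1 / 10 := by
  have h1 := β_lo; have h2 := β_hi; have h3 := β2; have h4 := β3; have h5 := β4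
  unfold val gg
  push_cast
  constructor <;> linarith

/-- Every choice gives an expansion. -/
theorem exists_br (K : ℕ) (c : ℕ → Bool) :
    ∃ ε : ℕ → Bool, vl ε = vl ss ∧ ∀ i < tt (K + 1), ε i = br K c i := by
  apply extend
  · rw [Dv_br3]
    have := vl_nonneg fun i => ss (i + tt (K + 1))
    linarith [val_gg.1]
  · rw [Dv_br3]
    have h1 := vl_first (fun i => ss (i + tt (K + 1))) (by simpa using ss_tt (K + 1))
    have h2 := val_gg.2
    have h3 : BB / β ≤ BB - 1 / 10 := by
      have h4 := BB_ge_one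
      have h5 := β_lo
      rw [div_le_iff₀ β_pos]
      have h6 := BB_eq
      nlinarith [β_hi]
    linarith

/-- The set of words of length `n` which begin an expansion of the number with expansion `ss`. -/
def Pre (n : ℕ) : Set (Fin n → Bool) :=
  {w | ∃ ε : ℕ → Bool, vl ε = vl ss ∧ ∀ i : Fin n, w i = ε i}

theorem pre_card (K n : ℕ) (hn : tt (K + 1) ≤ n) : 2 ^ JJ K ≤ (Pre n).ncard := by
  classical
  choose E hE1 hE2 using fun c : Fin (JJ K) → Bool =>
    exists_br K (fun j => if h : j < JJ K then c ⟨j, h⟩ else false)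
  have hinj : Function.Injective
      (fun c : Fin (JJ K) → Bool => (fun i : Fin n => E c i : Fin n → Bool)) := by
    intro c c' h
    funext j
    have hj := j.2
    have hlen := JJ_len K
    have hlt : tt K + 29 + 8 * j.1 + 2 < tt (K + 1) := by simp only [tt]; omega
    have h1 := congrFun h ⟨tt K + 29 + 8 * j.1 + 2, by omega⟩
    simp only at h1
    rw [hE2 c _ hlt, hE2 c' _ hlt] at h1
    unfold br at h1
    rw [if_neg (by omega), if_neg (by omega), if_neg (by omega), if_neg (by omega)] at h1
    have e1 : (tt K + 29 + 8 * j.1 + 2 - tt K - 29) / 8 = j.1 := by omega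
    have e2 : (tt K + 29 + 8 * j.1 + 2 - tt K - 29) % 8 = 2 := by omega
    rw [e1, e2] at h1
    simp only [hj, dif_pos, Fin.eta] at h1
    have e3 : ∀ b : Bool, vW b 2 = b := by intro b; cases b <;> rfl
    rw [e3, e3] at h1
    exact h1
  have hsub : Set.range (fun c : Fin (JJ K) → Bool => (fun i : Fin n => E c i : Fin n → Bool))
      ⊆ Pre n := by
    rintro w ⟨c, rfl⟩
    exact ⟨E c, hE1 c, fun i => rfl⟩
  calc 2 ^ JJ K = (Set.range
        (fun c : Fin (JJ K) → Bool => (fun i : Fin n => E c i : Fin n → Bool))).ncard := by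
        rw [← Set.image_univ, Set.ncard_image_of_injective _ hinj, Set.ncard_univ]
        simp
    _ ≤ (Pre n).ncard := Set.ncard_le_ncard hsub (Set.toFinite _)

theorem pre_card_le (n : ℕ) : (Pre n).ncard ≤ 2 ^ n := by
  calc (Pre n).ncard ≤ (Set.univ : Set (Fin n → Bool)).ncard :=
        Set.ncard_le_ncard (Set.subset_univ _) (Set.toFinite _)
    _ = 2 ^ n := by rw [Set.ncard_univ]; simp

theorem growth : ∀ n ≥ tt 1, (1 / 133 : ℝ) ≤ Real.logb 2 (Pre n).ncard / n := by
  intro n hn
  obtain ⟨k, hk1, hk2⟩ := exists_block n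
  have hk : 1 ≤ k := by
    by_contra h
    have : k = 0 := by omega
    subst this
    rw [zero_add] at hk2
    omega
  obtain ⟨K, rfl⟩ := Nat.exists_eq_add_of_le' hk
  have h1 := pre_card K n hk1
  have h2 := tt_eq (K + 1 + 1)
  have hn0 : 0 < n := by
    have : tt 1 = 37 := by simp [tt, len]
    omega
  have h3 : n ≤ 133 * 2 ^ K := by
    have e1 : 2 ^ (K + 1 + 1) = 4 * 2 ^ K := by rw [pow_succ, pow_succ]; ring
    rw [e1] at h2
    have e2 : K < 2 ^ K := Nat.lt_two_pow_self
    omega
  have h4 : (JJ K : ℝ) ≤ Real.logb 2 (Pre n).ncard := by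
    rw [Real.le_logb_iff_rpow_le (by norm_num)
      (by exact_mod_cast lt_of_lt_of_le (by positivity) h1)]
    rw [Real.rpow_natCast]
    exact_mod_cast h1
  have h5 : 2 ^ K ≤ JJ K := by
    have : 1 ≤ 2 ^ K := Nat.one_le_two_pow
    unfold JJ; omega
  rw [le_div_iff₀ (by exact_mod_cast hn0)]
  have h6 : (n : ℝ) ≤ 133 * 2 ^ K := by exact_mod_cast h3
  have h7 : (2 : ℝ) ^ K ≤ JJ K := by exact_mod_cast h5
  linarith

end Q70.Bx
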