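import Pool.Agent.Q70.FpH

/-!
# First passage percolation: transfer to an arbitrary probability space, and the shape
-/

set_option autoImplicit false

open MeasureTheory ProbabilityTheory Finset Filter
open scoped Topology Pointwise

namespace Q70.Fp

/-- independent exponential weights -/
structure Wts {Ω : Type} [MeasurableSpace Ω] (P : Measure Ω) (X : Ed → Ω → ℝ) : Prop where
  meas : ∀ e, Measurable (X e)
  ind : iIndepFun X P
  law : ∀ e, Measure.map (X e) P = expMeasure 1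

variable {μ : ℝ × ℝ → ℝ} {Ω : Type} [MeasurableSpace Ω] {P : Measure Ω} {X : Ed → Ω → ℝ}

lemma Wts.map (hW : Wts P X) : P.map (fun ω e => X e ω) = nu := by
  rw [hW.ind.map_fun_eq_infinitePi_map hW.meas]
  unfold nu
  congr 1
  funext e
  exact hW.law e

lemma Wts.measPhi (hW : Wts P X) : Measurable (fun ω e => X e ω : Ω → Ed → ℝ) :=
  measurable_pi_iff.2 hW.meas

lemma Wts.ae (hW : Wts P X) : ∀ᵐ ω ∂P, pw (fun e => X e ω) = fun e => X e ω := by
  have h := ae_pw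
  rw [← hW.map] at h
  exact ae_of_ae_map hW.measPhi.aemeasurable h

lemma Wts.aeTT (hW : Wts P X) (v : ℤ × ℤ) :
    (fun ω => TT (fun e => X e ω) 0 v) =ᵐ[P] fun ω => TT (pw (fun e => X e ω)) 0 v := by
  filter_upwards [hW.ae] with ω hω
  rw [hω]

lemma Wts.real (hW : Wts P X) (v : ℤ × ℤ) {S : Set ℝ} (hS : MeasurableSet S) :
    P.real {ω | TT (fun e => X e ω) 0 v ∈ S} = nu.real {w | TT (pw w) 0 v ∈ S} := by
  have h1 : MeasurableSet {w : Ed → ℝ | TT (pw w) 0 v ∈ S} := (measurable_TT _ _) hS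
  rw [← hW.map, map_measureReal_apply hW.measPhi h1]
  refine measureReal_congr ?_
  filter_upwards [hW.ae] with ω hω
  refine propext ?_
  show TT (fun e => X e ω) 0 v ∈ S ↔ TT (pw (fun e => X e ω)) 0 v ∈ S
  rw [hω]

lemma Wts.int (hW : Wts P X) (v : ℤ × ℤ) {g : ℝ → ℝ} (hg : Measurable g) :
    ∫ ω, g (TT (fun e => X e ω) 0 v) ∂P = ∫ w, g (TT (pw w) 0 v) ∂nu := by
  have hm2 : Measurable (fun w : Ed → ℝ => g (TT (pw w) 0 v)) := hg.comp (measurable_TT 0 v)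
  rw [← hW.map, integral_map hW.measPhi.aemeasurable hm2.aestronglyMeasurable]
  refine integral_congr_ae ?_
  filter_upwards [hW.ae] with ω hω
  rw [hω]

lemma Wts.var (hW : Wts P X) (v : ℤ × ℤ) :
    variance (fun ω => TT (fun e => X e ω) 0 v) P = variance (fun w => TT (pw w) 0 v) nu := by
  have hm : AEMeasurable (fun ω => TT (fun e => X e ω) 0 v) P :=
    (((measurable_TT 0 v).comp hW.measPhi).aemeasurable).congr (hW.aeTT v).symm
  rw [variance_eq_integral hm, variance_eq_integral (measurable_TT 0 v).aemeasurable,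
    hW.int v (g := fun x => x) measurable_id,
    hW.int v (g := fun x => (x - ∫ w, TT (pw w) 0 v ∂nu) ^ 2) (by fun_prop)]

lemma Wts.shape (hW : Wts P X) (hom : ∀ (x : ℝ × ℝ) (c : ℝ), 0 ≤ c → μ (c • x) = c * μ x)
    (cont : Continuous μ)
    (lim : ∀ z : ℤ × ℤ, ∀ᵐ ω ∂P, Tendsto (fun n : ℕ => TT (fun e => X e ω) 0 ((n : ℤ) • z) / (n : ℝ))
      atTop (nhds (μ ((z.1 : ℝ), (z.2 : ℝ))))) : Shape μ := by
  refine ⟨hom, cont, fun z => ?_⟩
  rw [← hW.map]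
  have hms : MeasurableSet {w : Ed → ℝ | Tendsto (fun n : ℕ => TT (pw w) 0 ((n : ℤ) • z) / (n : ℝ))
      atTop (nhds (μ ((z.1 : ℝ), (z.2 : ℝ))))} :=
    measurableSet_tendsto _ fun n => (measurable_TT 0 ((n : ℤ) • z)).div_const _
  rw [ae_map_iff hW.measPhi.aemeasurable hms]
  filter_upwards [lim z, hW.ae] with ω h1 h2
  rw [h2]
  exact h1

/-- failure of the inner inclusion -/
def Fl (X : Ed → Ω → ℝ) (μ : ℝ × ℝ → ℝ) (c t : ℝ) : Set Ω :=
  {ω | ¬ (c • {x : ℝ × ℝ | μ x ≤ 1} ⊆ {x : ℝ × ℝ | ∃ v : ℤ × ℤ,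
    TT (fun e => X e ω) 0 v ≤ t ∧ |x.1 - (v.1 : ℝ)| ≤ 1 / 2 ∧ |x.2 - (v.2 : ℝ)| ≤ 1 / 2})}

lemma mem_Fl (h : Shape μ) {c t : ℝ} (hc : 0 < c) {v : ℤ × ℤ} (hv : mz μ v ≤ c) {ω : Ω}
    (hω : t < TT (fun e => X e ω) 0 v) : ω ∈ Fl X μ c t := by
  intro hsub
  have h1 : (((v.1:ℝ), (v.2:ℝ)) : ℝ × ℝ) ∈ c • {x : ℝ × ℝ | μ x ≤ 1} := by
    rw [Set.mem_smul_set_iff_inv_smul_mem₀ hc.ne']
    show μ _ ≤ 1
    rw [h.hom _ _ (by positivity), inv_mul_le_iff₀ hc, mul_one]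
    exact hv
  obtain ⟨u, hu1, hu2, hu3⟩ := hsub h1
  have e1 : u = v := by
    have f1 : |((v.1 - u.1 : ℤ) : ℝ)| < 1 := by push_cast; linarith
    have f2 : |((v.2 - u.2 : ℤ) : ℝ)| < 1 := by push_cast; linarith
    rw [← Int.cast_abs] at f1 f2
    have g1 : |v.1 - u.1| < 1 := by exact_mod_cast f1
    have g2 : |v.2 - u.2| < 1 := by exact_mod_cast f2
    rw [Int.abs_lt_one_iff] at g1 g2
    exact Prod.ext (by linarith) (by linarith)
  rw [e1] at hu1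
  exact absurd hu1 (not_le.2 hω)

lemma Fl_sub (h : Shape μ) {c t : ℝ} (hc : 0 < c) :
    Fl X μ c t ⊆ {ω | ∃ u : ℤ × ℤ, mz μ u ≤ c + 3 ∧ t < TT (fun e => X e ω) 0 u} := by
  intro ω hω
  simp only [Fl, Set.mem_setOf_eq, Set.not_subset] at hω
  obtain ⟨x, hx1, hx2⟩ := hω
  rw [Set.mem_smul_set_iff_inv_smul_mem₀ hc.ne'] at hx1
  have hx3 : μ x ≤ c := by
    have : μ (c⁻¹ • x) ≤ 1 := hx1
    rwa [h.hom _ _ (by positivity), inv_mul_le_iff₀ hc, mul_one] at this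
  have r1 := abs_sub_round x.1
  have r2 := abs_sub_round x.2
  refine ⟨(round x.1, round x.2), ?_, ?_⟩
  · have := mu_lip h x (((round x.1 : ℤ) : ℝ), ((round x.2 : ℤ) : ℝ))
    rw [abs_sub_comm] at r1 r2
    simp only at this
    show μ (((round x.1 : ℤ) : ℝ), ((round x.2 : ℤ) : ℝ)) ≤ c + 3
    linarith
  · by_contra hcon
    push Not at hcon
    exact hx2 ⟨(round x.1, round x.2), hcon, r1, r2⟩

lemma card_ball (m : ℕ) : (ball m 0).card ≤ (2 * m + 1) ^ 2 := by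
  refine (Finset.card_filter_le _ _).trans ?_
  rw [Finset.card_product, Int.card_Icc, Int.card_Icc, sq]
  refine Nat.mul_le_mul ?_ ?_ <;> simp <;> omega

lemma rpow_small {c a K : ℝ} (h : c < a) : ∀ᶠ t : ℝ in atTop, K * t ^ c ≤ t ^ a := by
  filter_upwards [(tendsto_rpow_atTop (show 0 < a - c by linarith)).eventually_ge_atTop K,
    eventually_gt_atTop 0] with t ht ht0
  have h2 : t ^ a = t ^ (a - c) * t ^ c := by rw [← Real.rpow_add ht0]; congr 1; ring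
  rw [h2]
  gcongr

lemma one_sub_mul {b ζ t : ℝ} (ht : 0 < t) : (1 - t ^ (b - 1 + ζ)) * t = t - t ^ (b + ζ) := by
  have : t ^ (b - 1 + ζ) * t = t ^ (b + ζ) := by
    rw [← Real.rpow_add_one ht.ne']; congr 1; ring
  rw [sub_mul, one_mul, this]

/-- rapid one-point bounds give the inner inclusion -/
lemma inner_of_HH [IsProbabilityMeasure P] (hW : Wts P X) (h : Shape μ) {b : ℝ} (hb : 0 < b)
    (hH : ∀ a, b < a → HH μ a) {ζ : ℝ} (hζ : 0 < ζ) (hζb : ζ < 1 - b) {q : ℝ} (hq : 0 < q) :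
    Asymptotics.IsBigO atTop (fun t : ℝ => (P (Fl X μ ((1 - t ^ (b - 1 + ζ)) * t) t)).toReal)
      (fun t : ℝ => t ^ (-q)) := by
  set a : ℝ := b + ζ / 2 with ha
  have ha0 : 0 < a := by positivity
  have ha1 : a ≤ 1 := by rw [ha]; linarith
  obtain ⟨C, hC, hU⟩ := unif h ha0 (δ := (q + 2) / a) (by positivity) (hH a (by rw [ha]; linarith) _
    (by positivity))
  rw [min_eq_left ha1, show (q + 2) / a * a = q + 2 by field_simp] at hU
  refine Asymptotics.IsBigO.of_bound (9 * C) ?_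
  filter_upwards [eventually_ge_atTop 1, rpow_small (K := 2 * 23 ^ a) (show a < b + ζ by rw [ha]; linarith),
    rpow_small (K := 6) (show 0 < b + ζ by positivity), rpow_small (K := 2) (show b + ζ < 1 by linarith)]
    with t ht s1 s2 s3
  have ht0 : 0 < t := lt_of_lt_of_le one_pos ht
  rw [Real.rpow_zero, mul_one] at s2
  rw [Real.rpow_one] at s3
  rw [one_sub_mul ht0, Real.norm_eq_abs, abs_of_nonneg ENNReal.toReal_nonneg, Real.norm_eq_abs,
    abs_of_nonneg (by positivity)]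
  set c : ℝ := t - t ^ (b + ζ) with hc
  have htb : 0 < t ^ (b + ζ) := by positivity
  have hc0 : 0 < c := by rw [hc]; linarith
  set m : ℕ := ⌈22 * t⌉₊ with hm
  have hm1 : 22 * t ≤ m := Nat.le_ceil _
  have hm2 : (m:ℝ) < 22 * t + 1 := Nat.ceil_lt_add_one (by positivity)
  have hmt : (m:ℝ) ≤ 23 * t := by linarith
  have hm3 : 1 ≤ m := by
    have : (1:ℝ) ≤ m := by linarith
    exact_mod_cast this
  have hm0 : (0:ℝ) < m := by linarith
  have hsub : Fl X μ c t ⊆ ⋃ u ∈ ball m 0,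
      {ω | TT (fun e => X e ω) 0 u ∈ Set.Ioi (mz μ u + (m:ℝ) ^ a)} := by
    refine (Fl_sub h hc0).trans ?_
    rintro ω ⟨u, hu1, hu2⟩
    simp only [Set.mem_iUnion, Set.mem_setOf_eq, exists_prop, Set.mem_Ioi]
    have e1 : (m:ℝ) ^ a ≤ 23 ^ a * t ^ a := by
      rw [← Real.mul_rpow (by norm_num) ht0.le]
      exact Real.rpow_le_rpow hm0.le hmt ha0.le
    refine ⟨u, mem_ball.2 ?_, ?_⟩
    · have e2 := mz_low h u
      have e3 : (dd 0 u : ℝ) ≤ m := by linarith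
      exact_mod_cast e3
    · linarith
  have e1 : P.real (Fl X μ c t) ≤ ∑ _u ∈ ball m 0, C * (m:ℝ) ^ (-(q + 2)) := by
    refine (measureReal_mono hsub (measure_ne_top _ _)).trans
      ((measureReal_biUnion_finset_le _ _).trans (Finset.sum_le_sum fun u hu => ?_))
    rw [hW.real u measurableSet_Ioi]
    exact hU m hm3 u (mem_ball.1 hu)
  rw [Finset.sum_const, nsmul_eq_mul] at e1
  have e2 : ((ball m 0).card : ℝ) ≤ 9 * (m:ℝ) ^ (2:ℝ) := by
    have f1 : ((ball m 0).card : ℝ) ≤ ((2 * m + 1 : ℕ) : ℝ) ^ 2 := by exact_mod_cast card_ball m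
    have f2 : (1:ℝ) ≤ m := by exact_mod_cast hm3
    rw [Real.rpow_two]
    push_cast at f1
    nlinarith
  have e3 : (m:ℝ) ^ (2:ℝ) * (m:ℝ) ^ (-(q + 2)) = (m:ℝ) ^ (-q) := by
    rw [← Real.rpow_add hm0]; congr 1; ring
  have e4 : (m:ℝ) ^ (-q) ≤ t ^ (-q) :=
    Real.rpow_le_rpow_of_nonpos ht0 (by linarith) (by linarith)
  calc (P (Fl X μ c t)).toReal ≤ ((ball m 0).card : ℝ) * (C * (m:ℝ) ^ (-(q + 2))) := e1
    _ ≤ (9 * (m:ℝ) ^ (2:ℝ)) * (C * (m:ℝ) ^ (-(q + 2))) := by gcongr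
    _ = 9 * C * ((m:ℝ) ^ (2:ℝ) * (m:ℝ) ^ (-(q + 2))) := by ring
    _ = 9 * C * (m:ℝ) ^ (-q) := by rw [e3]
    _ ≤ _ := by gcongr

lemma Tl_mono {a a' δ : ℝ} (haa : a ≤ a') (hT : Tl μ a δ) : Tl μ a' δ := by
  obtain ⟨C, hC, h1⟩ := hT
  refine ⟨C, hC, fun v hv => (measureReal_mono ?_ (measure_ne_top _ _)).trans (h1 v hv)⟩
  intro w hw
  simp only [Set.mem_setOf_eq] at hw ⊢
  have : (dd 0 v : ℝ) ^ a ≤ (dd 0 v : ℝ) ^ a' :=
    Real.rpow_le_rpow_of_exponent_le (by exact_mod_cast dd_pos hv) haa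
  linarith

/-- the inner inclusion with polynomial bounds gives one-point bounds -/
lemma tl_of_inner [IsProbabilityMeasure P] (hW : Wts P X) (h : Shape μ) {b : ℝ} (hb : 0 < b)
    (hb1 : b < 1)
    (hI : ∀ ζ : ℝ, 0 < ζ → ζ < 1 - b → ∃ δ : ℝ, 0 < δ ∧
      Asymptotics.IsBigO atTop (fun t : ℝ => (P (Fl X μ ((1 - t ^ (b - 1 + ζ)) * t) t)).toReal)
        (fun t : ℝ => t ^ (-δ))) :
    ∀ ζ : ℝ, 0 < ζ → ∃ δ : ℝ, 0 < δ ∧ Tl μ (b + ζ) δ := by
  intro ζ hζ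
  set ζ0 := min ζ (1 - b) with hζ0
  have h0 : 0 < ζ0 := lt_min hζ (by linarith)
  have h01 : ζ0 ≤ 1 - b := min_le_right _ _
  obtain ⟨δ, hδ, hO⟩ := hI (ζ0 / 2) (by positivity) (by linarith)
  obtain ⟨C, hC, hO⟩ := hO.exists_pos
  rw [Asymptotics.isBigOWith_iff, eventually_atTop] at hO
  obtain ⟨t0, hO⟩ := hO
  refine ⟨δ * (b + ζ0), by positivity, Tl_mono (show b + ζ0 ≤ b + ζ by linarith [min_le_left ζ (1 - b)]) ?_⟩
  have hlim : Tendsto (fun n : ℕ => (n:ℝ) ^ (b + ζ0)) atTop atTop :=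
    (tendsto_rpow_atTop (by linarith)).comp tendsto_natCast_atTop_atTop
  have hs1 := (rpow_small (K := 4) (show b + ζ0 / 2 < b + ζ0 by linarith))
  have hs1' := (tendsto_natCast_atTop_atTop (R := ℝ)).eventually hs1
  refine of_ev (fun v => measureReal_le_one) (by positivity) hC ?_
  filter_upwards [eventually_ge_atTop 2, hlim.eventually_ge_atTop t0, hs1',
    hlim.eventually_ge_atTop 2] with n hn2 s0 s1 s2 v hv
  have hn1 : (1:ℝ) ≤ n := by
    have : (2:ℝ) ≤ n := by exact_mod_cast hn2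
    linarith
  have hn0 : (0:ℝ) < n := by linarith
  have m1 := mz_nonneg h v
  have m2 := mz_up h v
  rw [hv] at m2
  set s : ℝ := (n:ℝ) ^ (b + ζ0) with hs
  have hs0 : 0 < s := by positivity
  have hsn : s ≤ n := by
    calc s ≤ (n:ℝ) ^ (1:ℝ) := Real.rpow_le_rpow_of_exponent_le hn1 (by linarith)
      _ = n := Real.rpow_one _
  set t : ℝ := mz μ v + s with ht
  have hst : s ≤ t := by rw [ht]; linarith
  have ht1 : 1 < t := by linarith
  have ht0 : 0 < t := by linarith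
  have ht4 : t ≤ 4 * n := by rw [ht]; linarith
  have hpow : t ^ (b + ζ0 / 2) ≤ s := by
    calc t ^ (b + ζ0 / 2) ≤ (4 * (n:ℝ)) ^ (b + ζ0 / 2) := Real.rpow_le_rpow ht0.le ht4 (by linarith)
      _ = 4 ^ (b + ζ0 / 2) * (n:ℝ) ^ (b + ζ0 / 2) := Real.mul_rpow (by norm_num) hn0.le
      _ ≤ 4 ^ (1:ℝ) * (n:ℝ) ^ (b + ζ0 / 2) := by
          gcongr
          · norm_num
          · linarith
      _ = 4 * (n:ℝ) ^ (b + ζ0 / 2) := by rw [Real.rpow_one]
      _ ≤ s := s1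
  have hlt : t ^ (b + ζ0 / 2) < t := by
    calc t ^ (b + ζ0 / 2) < t ^ (1:ℝ) := Real.rpow_lt_rpow_of_exponent_lt ht1 (by linarith)
      _ = t := Real.rpow_one _
  have e1 := hO t (s0.trans hst)
  rw [one_sub_mul ht0, Real.norm_eq_abs, abs_of_nonneg ENNReal.toReal_nonneg, Real.norm_eq_abs,
    abs_of_nonneg (by positivity)] at e1
  have e2 : nu.real {w | mz μ v + s < TT (pw w) 0 v} ≤ P.real (Fl X μ (t - t ^ (b + ζ0 / 2)) t) := by
    have f1 := hW.real v (measurableSet_Ioi (a := mz μ v + s))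
    have f2 : {w : Ed → ℝ | mz μ v + s < TT (pw w) 0 v} = {w | TT (pw w) 0 v ∈ Set.Ioi (mz μ v + s)} := rfl
    rw [f2, ← f1]
    refine measureReal_mono ?_ (measure_ne_top _ _)
    intro ω hω
    exact mem_Fl h (by linarith) (by linarith) hω
  rw [hv]
  refine e2.trans (le_trans e1 ?_)
  have e3 : t ^ (-δ) ≤ (n:ℝ) ^ (-(δ * (b + ζ0))) := by
    calc t ^ (-δ) ≤ s ^ (-δ) := Real.rpow_le_rpow_of_nonpos hs0 hst (by linarith)
      _ = _ := by rw [hs, ← Real.rpow_mul hn0.le]; congr 1; ring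
  gcongr

end Q70.Fp
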