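import Pool.Agent.TH967.DP.Paths
import Pool.Agent.Q70.FpI

/-!
# Directed polymers: the product space, Jensen's inequality for blocks, exponential moments
-/

set_option autoImplicit false

open MeasureTheory ProbabilityTheory Finset Filter TH967.DP
open scoped Topology

namespace Q70.Dp

variable {d : ℕ}

/-- space-time sites -/
abbrev Site (d : ℕ) := ℕ × (Fin d → ℤ)

/-- environments -/
abbrev Env (d : ℕ) := Site d → ℝ

/-- curried environment -/
def cu (η : Env d) : ℕ → (Fin d → ℤ) → ℝ := fun i x => η (i, x)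

/-- the law of the environment -/
noncomputable def en (d : ℕ) (law : Measure ℝ) : Measure (Env d) :=
  Measure.infinitePi (fun _ : Site d => law)

instance instProbEn (law : Measure ℝ) [IsProbabilityMeasure law] : IsProbabilityMeasure (en d law) := by
  unfold en; infer_instance

/-- sum of the weights of all walks -/
noncomputable def SZ (β : ℝ) (η : Env d) (n : ℕ) : ℝ :=
  ∑ w : Fin n → Step d, Real.exp (β * energy (cu η) w)

/-- log of the partition function -/
noncomputable def LL (β : ℝ) (n : ℕ) (η : Env d) : ℝ := Real.log (partitionFn β (cu η) n)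

/-- the polymer measure -/
noncomputable def PP (β : ℝ) (η : Env d) {n : ℕ} (w : Fin n → Step d) : ℝ :=
  Real.exp (β * energy (cu η) w) / SZ β η n

/-- shifted environment -/
def sft (T : ℕ) (z : Fin d → ℤ) (η : Env d) : Env d := fun s => η (T + s.1, z + s.2)

lemma cu_sft (T : ℕ) (z : Fin d → ℤ) (η : Env d) : cu (sft T z η) = shift T z (cu η) := rfl

lemma nonempty_walk (hd : 1 ≤ d) (n : ℕ) : Nonempty (Fin n → Step d) :=
  ⟨fun _ => (⟨0, hd⟩, true)⟩

lemma SZ_pos (hd : 1 ≤ d) (β : ℝ) (η : Env d) (n : ℕ) : 0 < SZ β η n := by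
  haveI := nonempty_walk hd n
  exact Finset.sum_pos (fun _ _ => Real.exp_pos _) Finset.univ_nonempty

lemma two_d_pos (hd : 1 ≤ d) (n : ℕ) : (0:ℝ) < (2 * (d:ℝ)) ^ n := by
  have : (0:ℝ) < d := by exact_mod_cast hd
  positivity

lemma Z_eq (β : ℝ) (η : Env d) (n : ℕ) : partitionFn β (cu η) n = SZ β η n / (2 * (d : ℝ)) ^ n := rfl

lemma Z_pos (hd : 1 ≤ d) (β : ℝ) (η : Env d) (n : ℕ) : 0 < partitionFn β (cu η) n := by
  rw [Z_eq]; exact div_pos (SZ_pos hd β η n) (two_d_pos hd n)

lemma PP_nonneg (hd : 1 ≤ d) (β : ℝ) (η : Env d) {n : ℕ} (w : Fin n → Step d) : 0 ≤ PP β η w :=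
  div_nonneg (Real.exp_pos _).le (SZ_pos hd β η n).le

lemma PP_sum (hd : 1 ≤ d) (β : ℝ) (η : Env d) (n : ℕ) : ∑ w : Fin n → Step d, PP β η w = 1 := by
  unfold PP
  rw [← Finset.sum_div]
  exact div_self (SZ_pos hd β η n).ne'

lemma PP_le_one (hd : 1 ≤ d) (β : ℝ) (η : Env d) {n : ℕ} (w : Fin n → Step d) : PP β η w ≤ 1 := by
  rw [← PP_sum hd β η n]
  exact Finset.single_le_sum (fun w _ => PP_nonneg hd β η w) (Finset.mem_univ w)

/-- the Markov property -/
lemma Z_append (hd : 1 ≤ d) (β : ℝ) (η : Env d) (n m : ℕ) :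
    partitionFn β (cu η) (n + m) = partitionFn β (cu η) n *
      ∑ w : Fin n → Step d, PP β η w * partitionFn β (cu (sft n (pos w n) η)) m := by
  have h1 := (SZ_pos hd β η n).ne'
  have h2 := (two_d_pos hd n).ne'
  have h3 := (two_d_pos hd m).ne'
  have e1 : SZ β η (n + m) = ∑ w : Fin n → Step d, Real.exp (β * energy (cu η) w) *
      SZ β (sft n (pos w n) η) m := by
    unfold SZ
    rw [sum_append]
    refine Finset.sum_congr rfl fun w _ => ?_
    rw [Finset.mul_sum]
    refine Finset.sum_congr rfl fun v _ => ?_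
    rw [energy_append, mul_add, Real.exp_add, cu_sft]
  have e2 : ∑ w : Fin n → Step d, PP β η w * partitionFn β (cu (sft n (pos w n) η)) m =
      (∑ w : Fin n → Step d, Real.exp (β * energy (cu η) w) * SZ β (sft n (pos w n) η) m) /
        (SZ β η n * (2 * (d:ℝ)) ^ m) := by
    rw [Finset.sum_div]
    refine Finset.sum_congr rfl fun w _ => ?_
    rw [Z_eq]
    unfold PP
    rw [div_mul_div_comm]
  rw [e2, ← e1, Z_eq, Z_eq, pow_add]
  field_simp

/-- Jensen's inequality for a block -/
lemma jensen (hd : 1 ≤ d) (β : ℝ) (η : Env d) (n m : ℕ) :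
    LL β n η + ∑ w : Fin n → Step d, PP β η w * LL β m (sft n (pos w n) η) ≤ LL β (n + m) η := by
  have h1 := Z_pos hd β η n
  have h2 : 0 < ∑ w : Fin n → Step d, PP β η w * partitionFn β (cu (sft n (pos w n) η)) m := by
    have h3 := Z_pos hd β η (n + m)
    rw [Z_append hd] at h3
    exact (pos_iff_pos_of_mul_pos h3).1 h1
  have h4 : LL β (n + m) η = LL β n η +
      Real.log (∑ w : Fin n → Step d, PP β η w * partitionFn β (cu (sft n (pos w n) η)) m) := by
    unfold LL
    rw [Z_append hd, Real.log_mul h1.ne' h2.ne']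
  rw [h4]
  have h5 := (strictConcaveOn_log_Ioi.concaveOn).le_map_sum (t := (Finset.univ : Finset (Fin n → Step d)))
    (w := fun w => PP β η w) (p := fun w => partitionFn β (cu (sft n (pos w n) η)) m)
    (fun w _ => PP_nonneg hd β η w) (PP_sum hd β η n) (fun w _ => Z_pos hd β _ m)
  simp only [smul_eq_mul] at h5
  have h6 : ∑ w : Fin n → Step d, PP β η w * LL β m (sft n (pos w n) η) ≤
      Real.log (∑ w : Fin n → Step d, PP β η w * partitionFn β (cu (sft n (pos w n) η)) m) := h5
  linarith

/-- forcing the walk through a point -/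
lemma join (hd : 1 ≤ d) (β : ℝ) (η : Env d) (n m : ℕ) (x : Fin d → ℤ) {q : ℝ} (hq : 0 < q)
    (hx : q ≤ ∑ w ∈ (Finset.univ : Finset (Fin n → Step d)).filter (fun w => pos w n = x), PP β η w) :
    LL β n η + Real.log q + LL β m (sft n x η) ≤ LL β (n + m) η := by
  have h1 := Z_pos hd β η n
  have h3 := Z_pos hd β (sft n x η) m
  unfold LL
  rw [← Real.log_mul h1.ne' hq.ne', ← Real.log_mul (by positivity) h3.ne']
  refine Real.log_le_log (by positivity) ?_
  rw [Z_append hd, mul_assoc]
  refine mul_le_mul_of_nonneg_left ?_ h1.le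
  calc q * partitionFn β (cu (sft n x η)) m
      ≤ (∑ w ∈ (Finset.univ : Finset (Fin n → Step d)).filter (fun w => pos w n = x), PP β η w) *
        partitionFn β (cu (sft n x η)) m := by gcongr
    _ = ∑ w ∈ (Finset.univ : Finset (Fin n → Step d)).filter (fun w => pos w n = x),
        PP β η w * partitionFn β (cu (sft n (pos w n) η)) m := by
        rw [Finset.sum_mul]
        refine Finset.sum_congr rfl fun w hw => ?_
        rw [(Finset.mem_filter.1 hw).2]
    _ ≤ _ := by
        refine Finset.sum_le_sum_of_subset_of_nonneg (Finset.filter_subset _ _) fun w _ _ => ?_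
        exact mul_nonneg (PP_nonneg hd β η w) (Z_pos hd β _ m).le

/-! ## measurability and locality -/

lemma measurable_energy {n : ℕ} (w : Fin n → Step d) : Measurable (fun η : Env d => energy (cu η) w) :=
  Finset.measurable_fun_sum _ fun _ _ => measurable_pi_apply _

lemma measurable_SZ (β : ℝ) (n : ℕ) : Measurable (fun η : Env d => SZ β η n) :=
  Finset.measurable_fun_sum _ fun w _ => ((measurable_energy w).const_mul β).exp

lemma measurable_LL (β : ℝ) (n : ℕ) : Measurable (fun η : Env d => LL β n η) := by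
  unfold LL
  simp only [Z_eq]
  exact ((measurable_SZ β n).div_const _).log

lemma measurable_PP (β : ℝ) {n : ℕ} (w : Fin n → Step d) : Measurable (fun η : Env d => PP β η w) :=
  ((measurable_energy w).const_mul β).exp.div (measurable_SZ β n)

lemma measurable_sft (T : ℕ) (z : Fin d → ℤ) : Measurable (sft T z : Env d → Env d) :=
  measurable_pi_iff.2 fun _ => measurable_pi_apply _

/-- the sites with times between `T + 1` and `T + n` and coordinates at most `T + n` -/
noncomputable def st (d T n : ℕ) : Finset (Site d) :=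
  (Finset.Icc (T + 1) (T + n)) ×ˢ Fintype.piFinset (fun _ : Fin d => Finset.Icc (-((T + n : ℕ):ℤ)) ((T + n : ℕ):ℤ))

lemma mem_st {T n : ℕ} {s : Site d} : s ∈ st d T n ↔
    (T + 1 ≤ s.1 ∧ s.1 ≤ T + n) ∧ ∀ k, |s.2 k| ≤ ((T + n : ℕ):ℤ) := by
  simp only [st, Finset.mem_product, Finset.mem_Icc, Fintype.mem_piFinset, abs_le]

lemma st_disj (T n m : ℕ) : Disjoint (st d 0 T) (st d T m) := by
  rw [Finset.disjoint_left]
  intro s h1 h2
  rw [mem_st] at h1 h2
  omega

lemma energy_dep {n : ℕ} (w : Fin n → Step d) {T : ℕ} {x : Fin d → ℤ} (hx : ∀ k, |x k| ≤ (T:ℤ))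
    {η η' : Env d} (h : ∀ s ∈ st d T n, η s = η' s) :
    energy (cu (sft T x η)) w = energy (cu (sft T x η')) w := by
  unfold energy
  refine Finset.sum_congr rfl fun i _ => ?_
  show η (T + (i.val + 1), x + pos w (i.val + 1)) = η' (T + (i.val + 1), x + pos w (i.val + 1))
  refine h _ (mem_st.2 ⟨⟨by omega, by have := i.isLt; omega⟩, fun k => ?_⟩)
  have h1 := abs_pos_le w (i.val + 1) k
  have h2 := hx k
  simp only [Pi.add_apply]
  refine (abs_add_le _ _).trans ?_
  push_cast
  linarith

lemma LL_dep (β : ℝ) {n T : ℕ} {x : Fin d → ℤ} (hx : ∀ k, |x k| ≤ (T:ℤ))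
    {η η' : Env d} (h : ∀ s ∈ st d T n, η s = η' s) :
    LL β n (sft T x η) = LL β n (sft T x η') := by
  unfold LL
  rw [Z_eq, Z_eq]
  unfold SZ
  simp only [energy_dep _ hx h]

lemma sft_zero (η : Env d) : sft 0 0 η = η := by
  funext s
  simp [sft]

lemma PP_dep (β : ℝ) {n : ℕ} (w : Fin n → Step d) {η η' : Env d} (h : ∀ s ∈ st d 0 n, η s = η' s) :
    PP β η w = PP β η' w := by
  have h0 : ∀ k : Fin d, |(0 : Fin d → ℤ) k| ≤ ((0:ℕ):ℤ) := by simp
  have h1 : ∀ w : Fin n → Step d, energy (cu η) w = energy (cu η') w := by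
    intro w
    have := energy_dep w h0 h
    rwa [sft_zero, sft_zero] at this
  unfold PP SZ
  simp only [h1]

lemma LL_dep0 (β : ℝ) {n : ℕ} {η η' : Env d} (h : ∀ s ∈ st d 0 n, η s = η' s) :
    LL β n η = LL β n η' := by
  have h0 : ∀ k : Fin d, |(0 : Fin d → ℤ) k| ≤ ((0:ℕ):ℤ) := by simp
  have := LL_dep β h0 h
  rwa [sft_zero, sft_zero] at this

/-- independence of functions of disjoint sets of sites -/
lemma integral_mul_disj {ι : Type*} {law : Measure ℝ} [IsProbabilityMeasure law] {f g : (ι → ℝ) → ℝ}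
    (S T : Finset ι) (hST : Disjoint S T) (hf : Measurable f) (hg : Measurable g)
    (hfS : ∀ w w', (∀ e ∈ S, w e = w' e) → f w = f w')
    (hgT : ∀ w w', (∀ e ∈ T, w e = w' e) → g w = g w') :
    ∫ w, f w * g w ∂(Measure.infinitePi (fun _ : ι => law)) =
      (∫ w, f w ∂(Measure.infinitePi (fun _ : ι => law))) *
        ∫ w, g w ∂(Measure.infinitePi (fun _ : ι => law)) := by
  classical
  have hind : iIndepFun (fun (e : ι) (w : ι → ℝ) => w e) (Measure.infinitePi (fun _ : ι => law)) :=
    iIndepFun_infinitePi (P := fun _ => law) (X := fun _ x => x) (fun _ => measurable_id)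
  have h1 := hind.indepFun_finset S T hST (fun e => measurable_pi_apply e)
  let ext (U : Finset ι) : (U → ℝ) → (ι → ℝ) := fun u e => if h : e ∈ U then u ⟨e, h⟩ else 0
  have hext : ∀ U, Measurable (ext U) := by
    intro U
    refine measurable_pi_iff.2 fun e => ?_
    by_cases h : e ∈ U
    · simp only [ext, h, dif_pos]; exact measurable_pi_apply _
    · simp only [ext, h, dif_neg, not_false_eq_true]; exact measurable_const
  have h2 := h1.comp (hf.comp (hext S)) (hg.comp (hext T))
  have e1 : (f ∘ ext S) ∘ (fun (a : ι → ℝ) (i : S) => a i) = f := by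
    funext w
    refine hfS _ _ fun e he => ?_
    simp [ext, he]
  have e2 : (g ∘ ext T) ∘ (fun (a : ι → ℝ) (i : T) => a i) = g := by
    funext w
    refine hgT _ _ fun e he => ?_
    simp [ext, he]
  rw [e1, e2] at h2
  exact h2.integral_mul_eq_mul_integral hf.aestronglyMeasurable hg.aestronglyMeasurable

variable {law : Measure ℝ} [IsProbabilityMeasure law]

lemma map_sft (T : ℕ) (z : Fin d → ℤ) : (en d law).map (sft T z) = en d law := by
  refine Measure.map_infinitePi_infinitePi_of_inj (P := fun _ : Site d => law)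
    (f := fun s : Site d => (T + s.1, z + s.2)) ?_
  rintro ⟨i, x⟩ ⟨j, y⟩ h
  simp only [Prod.mk.injEq, add_right_inj] at h
  exact Prod.ext h.1 h.2

lemma integral_sft (T : ℕ) (z : Fin d → ℤ) {g : Env d → ℝ} (hg : Measurable g) :
    ∫ η, g (sft T z η) ∂(en d law) = ∫ η, g η ∂(en d law) := by
  conv_rhs => rw [← map_sft T z]
  rw [integral_map (measurable_sft T z).aemeasurable hg.aestronglyMeasurable]

lemma real_sft (T : ℕ) (z : Fin d → ℤ) {S : Set (Env d)} (hS : MeasurableSet S) :
    (en d law).real {η | sft T z η ∈ S} = (en d law).real S := by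
  conv_rhs => rw [← map_sft T z]
  rw [map_measureReal_apply (measurable_sft T z) hS]
  rfl

/-! ## exponential moments -/

/-- sites of a walk -/
noncomputable def sw {n : ℕ} (w : Fin n → Step d) : Finset (Site d) :=
  (Finset.univ : Finset (Fin n)).image (fun i => (i.val + 1, pos w (i.val + 1)))

lemma sw_inj {n : ℕ} (w : Fin n → Step d) :
    Function.Injective (fun i : Fin n => ((i.val + 1, pos w (i.val + 1)) : Site d)) := by
  intro i j h
  simp only [Prod.mk.injEq, add_left_inj] at h
  exact Fin.ext h.1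

lemma energy_sw {n : ℕ} (w : Fin n → Step d) (η : Env d) : energy (cu η) w = ∑ s ∈ sw w, η s := by
  unfold sw
  rw [Finset.sum_image fun i _ j _ h => sw_inj w h]
  rfl

lemma card_sw {n : ℕ} (w : Fin n → Step d) : (sw w).card = n := by
  unfold sw
  rw [Finset.card_image_of_injective _ (sw_inj w), Finset.card_univ, Fintype.card_fin]

lemma ind_env : iIndepFun (fun (s : Site d) (η : Env d) => η s) (en d law) :=
  iIndepFun_infinitePi (P := fun _ => law) (X := fun _ x => x) (fun _ => measurable_id)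

lemma map_eval (s : Site d) : (en d law).map (fun η => η s) = law :=
  Measure.infinitePi_map_eval (fun _ : Site d => law) s

/-- the moment generating function of a site -/
noncomputable def MG (law : Measure ℝ) (t : ℝ) : ℝ := ∫ x, Real.exp (t * x) ∂law

lemma MG_pos {t : ℝ} (h : Integrable (fun x => Real.exp (t * x)) law) : 0 < MG law t :=
  integral_exp_pos h

lemma int_site {t : ℝ} (h : Integrable (fun x => Real.exp (t * x)) law) (s : Site d) :
    Integrable (fun η : Env d => Real.exp (t * η s)) (en d law) := by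
  rw [← map_eval (law := law) s] at h
  exact h.comp_measurable (measurable_pi_apply s)

lemma int_energy {t : ℝ} (h : Integrable (fun x => Real.exp (t * x)) law) {n : ℕ} (w : Fin n → Step d) :
    Integrable (fun η : Env d => Real.exp (t * energy (cu η) w)) (en d law) := by
  have := (ind_env (law := law)).integrable_exp_mul_sum (fun e => measurable_pi_apply e) (s := sw w)
    (fun e _ => int_site h e)
  refine this.congr (Filter.Eventually.of_forall fun η => ?_)
  simp [energy_sw]

lemma mgf_energy {t : ℝ} {n : ℕ} (w : Fin n → Step d) :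
    ∫ η : Env d, Real.exp (t * energy (cu η) w) ∂(en d law) = MG law t ^ n := by
  have h1 := (ind_env (d := d) (law := law)).mgf_sum (t := t) (fun e => measurable_pi_apply e) (sw w)
  have h2 : (∑ s ∈ sw w, fun η : Env d => η s) = fun η : Env d => energy (cu η) w := by
    funext η
    simp [energy_sw]
  have h3 : ∀ s : Site d, mgf (fun η : Env d => η s) (en d law) t = MG law t := by
    intro s
    unfold mgf MG
    rw [← map_eval (law := law) s, integral_map (measurable_pi_apply s).aemeasurable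
      (by fun_prop)]
    rw [map_eval]
  rw [h2, Finset.prod_congr rfl fun s _ => h3 s, Finset.prod_const, card_sw] at h1
  exact h1

lemma card_walks (n : ℕ) : ((Fintype.card (Fin n → Step d) : ℕ) : ℝ) = (2 * (d:ℝ)) ^ n := by
  rw [Fintype.card_fun, Fintype.card_prod, Fintype.card_fin, Fintype.card_bool, Fintype.card_fin]
  push_cast
  ring

lemma exp_LL (hd : 1 ≤ d) (β : ℝ) (n : ℕ) (η : Env d) :
    Real.exp (LL β n η) = (∑ w : Fin n → Step d, Real.exp (β * energy (cu η) w)) / (2 * (d:ℝ)) ^ n := by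
  unfold LL
  rw [Real.exp_log (Z_pos hd β η n)]
  rfl

lemma int_exp_LL (hd : 1 ≤ d) {β : ℝ} (h : Integrable (fun x => Real.exp (β * x)) law) (n : ℕ) :
    Integrable (fun η : Env d => Real.exp (LL β n η)) (en d law) := by
  simp only [exp_LL hd]
  exact (integrable_finset_sum _ fun w _ => int_energy h w).div_const _

lemma mean_exp_LL (hd : 1 ≤ d) {β : ℝ} (h : Integrable (fun x => Real.exp (β * x)) law) (n : ℕ) :
    ∫ η : Env d, Real.exp (LL β n η) ∂(en d law) = MG law β ^ n := by
  simp only [exp_LL hd]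
  rw [integral_div, integral_finset_sum _ fun w _ => int_energy h w,
    Finset.sum_congr rfl fun w _ => mgf_energy w, Finset.sum_const, nsmul_eq_mul, Finset.card_univ,
    card_walks, mul_div_assoc, mul_comm, div_mul_cancel₀ _ (two_d_pos hd n).ne']

/-- the inverse of the partition function is at most the average of the inverse weights -/
lemma exp_neg_LL_le (hd : 1 ≤ d) (β : ℝ) (n : ℕ) (η : Env d) :
    Real.exp (-LL β n η) ≤
      (∑ w : Fin n → Step d, Real.exp (-β * energy (cu η) w)) / (2 * (d:ℝ)) ^ n := by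
  have hc := two_d_pos (d := d) hd n
  have hw : ∀ w ∈ (Finset.univ : Finset (Fin n → Step d)), 0 ≤ ((2 * (d:ℝ)) ^ n)⁻¹ :=
    fun _ _ => (inv_pos.2 hc).le
  have hs : ∑ _w : Fin n → Step d, ((2 * (d:ℝ)) ^ n)⁻¹ = 1 := by
    rw [Finset.sum_const, nsmul_eq_mul, Finset.card_univ, card_walks, mul_inv_cancel₀ hc.ne']
  have h1 := convexOn_exp.map_sum_le (t := (Finset.univ : Finset (Fin n → Step d)))
    (w := fun _ => ((2 * (d:ℝ)) ^ n)⁻¹) (p := fun w => β * energy (cu η) w) hw hs
    (fun _ _ => Set.mem_univ _)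
  have h2 := convexOn_exp.map_sum_le (t := (Finset.univ : Finset (Fin n → Step d)))
    (w := fun _ => ((2 * (d:ℝ)) ^ n)⁻¹) (p := fun w => -β * energy (cu η) w) hw hs
    (fun _ _ => Set.mem_univ _)
  simp only [smul_eq_mul, ← Finset.mul_sum] at h1 h2
  have h3 : ((2 * (d:ℝ)) ^ n)⁻¹ * ∑ w : Fin n → Step d, Real.exp (β * energy (cu η) w) =
      Real.exp (LL β n η) := by
    rw [exp_LL hd]; ring
  rw [h3] at h1
  have h4 : ((2 * (d:ℝ)) ^ n)⁻¹ * (β * ∑ w : Fin n → Step d, energy (cu η) w) ≤ LL β n η :=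
    Real.exp_le_exp.1 h1
  have h5 : -LL β n η ≤ ((2 * (d:ℝ)) ^ n)⁻¹ * (-β * ∑ w : Fin n → Step d, energy (cu η) w) := by
    have : ((2 * (d:ℝ)) ^ n)⁻¹ * (-β * ∑ w : Fin n → Step d, energy (cu η) w) =
      -(((2 * (d:ℝ)) ^ n)⁻¹ * (β * ∑ w : Fin n → Step d, energy (cu η) w)) := by ring
    rw [this]
    linarith
  refine (Real.exp_le_exp.2 h5).trans (h2.trans (le_of_eq ?_))
  ring

lemma int_exp_neg_LL (hd : 1 ≤ d) {β : ℝ} (h : Integrable (fun x => Real.exp (-β * x)) law) (n : ℕ) :
    Integrable (fun η : Env d => Real.exp (-LL β n η)) (en d law) ∧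
    ∫ η : Env d, Real.exp (-LL β n η) ∂(en d law) ≤ MG law (-β) ^ n := by
  have hi : Integrable (fun η : Env d => (∑ w : Fin n → Step d, Real.exp (-β * energy (cu η) w)) /
      (2 * (d:ℝ)) ^ n) (en d law) :=
    (integrable_finset_sum _ fun w _ => int_energy h w).div_const _
  have hi2 : Integrable (fun η : Env d => Real.exp (-LL β n η)) (en d law) := by
    refine hi.mono' (measurable_LL β n).neg.exp.aestronglyMeasurable (Eventually.of_forall fun η => ?_)
    rw [Real.norm_eq_abs, abs_of_pos (Real.exp_pos _)]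
    exact exp_neg_LL_le hd β n η
  refine ⟨hi2, (integral_mono hi2 hi fun η => exp_neg_LL_le hd β n η).trans (le_of_eq ?_)⟩
  rw [integral_div, integral_finset_sum _ fun w _ => int_energy h w,
    Finset.sum_congr rfl fun w _ => mgf_energy w, Finset.sum_const, nsmul_eq_mul, Finset.card_univ,
    card_walks, mul_div_assoc, mul_comm, div_mul_cancel₀ _ (two_d_pos hd n).ne']

end Q70.Dp
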