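import Pool.Agent.Q70.DpA

/-!
# Directed polymers: the block step at a fixed scale
-/

set_option autoImplicit false

open MeasureTheory ProbabilityTheory Finset Filter TH967.DP
open scoped Topology

namespace Q70.Dp

variable {d : ℕ} {law : Measure ℝ} [IsProbabilityMeasure law]

lemma up_tail (hd : 1 ≤ d) {β : ℝ} (h : Integrable (fun x => Real.exp (β * x)) law) (n : ℕ) (s : ℝ) :
    (en d law).real {η | s ≤ LL β n η} ≤ Real.exp (-s) * MG law β ^ n := by
  have h1 := mul_meas_ge_le_integral_of_nonneg (μ := en d law)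
    (Eventually.of_forall fun η => (Real.exp_pos (LL β n η)).le) (int_exp_LL hd h n) (Real.exp s)
  rw [mean_exp_LL hd h] at h1
  simp only [Real.exp_le_exp] at h1
  rw [Real.exp_neg, ← div_eq_inv_mul, le_div_iff₀ (Real.exp_pos _)]
  linarith

lemma low_tail (hd : 1 ≤ d) {β : ℝ} (h : Integrable (fun x => Real.exp (-β * x)) law) (n : ℕ) (s : ℝ) :
    (en d law).real {η | LL β n η ≤ -s} ≤ Real.exp (-s) * MG law (-β) ^ n := by
  obtain ⟨i1, i2⟩ := int_exp_neg_LL (law := law) hd h n
  have h1 := mul_meas_ge_le_integral_of_nonneg (μ := en d law)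
    (Eventually.of_forall fun η => (Real.exp_pos (-LL β n η)).le) i1 (Real.exp s)
  simp only [Real.exp_le_exp] at h1
  have e1 : {η : Env d | LL β n η ≤ -s} = {η | s ≤ -LL β n η} := by
    ext η
    simp only [Set.mem_setOf_eq]
    constructor <;> intro h <;> linarith
  rw [e1, Real.exp_neg, ← div_eq_inv_mul, le_div_iff₀ (Real.exp_pos _)]
  linarith

lemma st_mono {a b : ℕ} (h : a ≤ b) : st d 0 a ⊆ st d 0 b := by
  intro s hs
  rw [mem_st] at hs ⊢
  refine ⟨by omega, fun k => (hs.2 k).trans ?_⟩
  push_cast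
  omega

lemma st_sub (T n : ℕ) : st d T n ⊆ st d 0 (T + n) := by
  intro s hs
  rw [mem_st] at hs ⊢
  refine ⟨by omega, fun k => (hs.2 k).trans ?_⟩
  push_cast
  omega

lemma sft_dep {T m : ℕ} {z : Fin d → ℤ} (hz : ∀ k, |z k| ≤ (T:ℤ)) {g : Env d → ℝ}
    (hg : ∀ η η', (∀ s ∈ st d 0 m, η s = η' s) → g η = g η') {η η' : Env d}
    (h : ∀ s ∈ st d T m, η s = η' s) : g (sft T z η) = g (sft T z η') := by
  refine hg _ _ fun s hs => ?_
  show η (T + s.1, z + s.2) = η' (T + s.1, z + s.2)
  rw [mem_st] at hs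
  refine h _ (mem_st.2 ⟨by simp only; omega, fun k => ?_⟩)
  have h1 := hz k
  have h2 := hs.2 k
  simp only [Pi.add_apply]
  refine (abs_add_le _ _).trans ?_
  push_cast at h2 ⊢
  linarith

lemma int_bdd {f : Env d → ℝ} (hf : Measurable f) {C : ℝ} (hC : ∀ η, |f η| ≤ C) :
    Integrable f (en d law) :=
  (integrable_const C).mono' hf.aestronglyMeasurable (Eventually.of_forall fun η => by
    rw [Real.norm_eq_abs]; exact hC η)

/-- averages over positions determined by the past -/
lemma avg_indep {J : Type*} (s : Finset J) {T m : ℕ} (z : J → Fin d → ℤ)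
    (hz : ∀ j ∈ s, ∀ k, |z j k| ≤ (T:ℤ)) (W : J → Env d → ℝ) (hWm : ∀ j, Measurable (W j))
    (hWd : ∀ j η η', (∀ e ∈ st d 0 T, η e = η' e) → W j η = W j η')
    (hW0 : ∀ j ∈ s, ∀ η, 0 ≤ W j η) (hW1 : ∀ η, ∑ j ∈ s, W j η = 1) {G : Env d → ℝ} (hGm : Measurable G)
    (hGd : ∀ η η', (∀ e ∈ st d 0 T, η e = η' e) → G η = G η') {C : ℝ} (hGC : ∀ η, |G η| ≤ C)
    {g : Env d → ℝ} (hgm : Measurable g)
    (hgd : ∀ η η', (∀ e ∈ st d 0 m, η e = η' e) → g η = g η') (hg1 : ∀ η, |g η| ≤ 1) :
    ∫ η, G η * ∑ j ∈ s, W j η * g (sft T (z j) η) ∂(en d law) =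
      (∫ η, G η ∂(en d law)) * ∫ η, g η ∂(en d law) := by
  have hC0 : 0 ≤ C := (abs_nonneg _).trans (hGC 0)
  have hWle : ∀ j ∈ s, ∀ η, W j η ≤ 1 := fun j hj η => by
    rw [← hW1 η]
    exact Finset.single_le_sum (f := fun j => W j η) (fun j hj => hW0 j hj η) hj
  have hGW : ∀ j ∈ s, ∀ η, |G η * W j η| ≤ C := fun j hj η => by
    rw [abs_mul, abs_of_nonneg (hW0 j hj η)]
    calc |G η| * W j η ≤ C * 1 := mul_le_mul (hGC η) (hWle j hj η) (hW0 j hj η) hC0
      _ = C := mul_one _
  have e1 : ∀ η, G η * ∑ j ∈ s, W j η * g (sft T (z j) η) =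
      ∑ j ∈ s, (G η * W j η) * g (sft T (z j) η) := by
    intro η
    rw [Finset.mul_sum]
    exact Finset.sum_congr rfl fun j _ => by ring
  simp only [e1]
  rw [integral_finset_sum]
  · have e2 : ∀ j ∈ s, ∫ η, (G η * W j η) * g (sft T (z j) η) ∂(en d law) =
        (∫ η, G η * W j η ∂(en d law)) * ∫ η, g η ∂(en d law) := by
      intro j hj
      rw [← integral_sft (law := law) T (z j) hgm]
      exact integral_mul_disj (law := law) (st d 0 T) (st d T m) (st_disj T 0 m) (hGm.mul (hWm j))
        (hgm.comp (measurable_sft T (z j)))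
        (fun η η' h => by rw [hGd η η' h, hWd j η η' h])
        (fun η η' h => sft_dep (hz j hj) hgd h)
    rw [Finset.sum_congr rfl e2, ← Finset.sum_mul]
    congr 1
    rw [← integral_finset_sum]
    · refine integral_congr_ae (Eventually.of_forall fun η => ?_)
      simp only
      rw [← Finset.mul_sum, hW1, mul_one]
    · intro j hj
      exact int_bdd (hGm.mul (hWm j)) (hGW j hj)
  · intro j hj
    refine int_bdd (C := C) ((hGm.mul (hWm j)).mul (hgm.comp (measurable_sft T (z j)))) fun η => ?_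
    rw [abs_mul]
    calc |G η * W j η| * |g (sft T (z j) η)| ≤ C * 1 :=
          mul_le_mul (hGW j hj η) (hg1 _) (abs_nonneg _) hC0
      _ = C := mul_one _

/-- the polymer average of a function of the block starting at time `T` -/
noncomputable def av (β : ℝ) (g : Env d → ℝ) (T : ℕ) (η : Env d) : ℝ :=
  ∑ w : Fin T → Step d, PP β η w * g (sft T (pos w T) η)

lemma av_le_one (hd : 1 ≤ d) (β : ℝ) {g : Env d → ℝ} (hg : ∀ η, g η ≤ 1) (T : ℕ) (η : Env d) :
    av β g T η ≤ 1 := by
  rw [← PP_sum hd β η T]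
  refine Finset.sum_le_sum fun w _ => ?_
  have := PP_nonneg hd β η w
  nlinarith [hg (sft T (pos w T) η)]

lemma av_nonneg (hd : 1 ≤ d) (β : ℝ) {g : Env d → ℝ} (hg : ∀ η, 0 ≤ g η) (T : ℕ) (η : Env d) :
    0 ≤ av β g T η :=
  Finset.sum_nonneg fun w _ => mul_nonneg (PP_nonneg hd β η w) (hg _)

lemma measurable_av (β : ℝ) {g : Env d → ℝ} (hg : Measurable g) (T : ℕ) :
    Measurable (av β g T : Env d → ℝ) :=
  Finset.measurable_fun_sum _ fun w _ => (measurable_PP β w).mul (hg.comp (measurable_sft _ _))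

lemma abs_pos_le' {n : ℕ} (w : Fin n → Step d) : ∀ k, |pos w n k| ≤ (n:ℤ) := fun k => abs_pos_le w n k

lemma av_dep (β : ℝ) {g : Env d → ℝ} {m : ℕ}
    (hg : ∀ η η', (∀ s ∈ st d 0 m, η s = η' s) → g η = g η') {T : ℕ} {η η' : Env d}
    (h : ∀ s ∈ st d 0 (T + m), η s = η' s) : av β g T η = av β g T η' := by
  refine Finset.sum_congr rfl fun w _ => ?_
  rw [PP_dep β w fun s hs => h s (st_mono (by omega) hs),
    sft_dep (abs_pos_le' w) hg fun s hs => h s (st_sub T m hs)]

/-- exponential bound for the averages over successive blocks -/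
lemma chain_exp (hd : 1 ≤ d) (β : ℝ) {m : ℕ} {g : Env d → ℝ} (hgm : Measurable g)
    (hgd : ∀ η η', (∀ e ∈ st d 0 m, η e = η' e) → g η = g η') (hg0 : ∀ η, 0 ≤ g η)
    (hg1 : ∀ η, g η ≤ 1) (N : ℕ) :
    ∫ η, Real.exp (∑ k ∈ range N, av β g (k * m) η) ∂(en d law) ≤
      Real.exp (2 * N * ∫ η, g η ∂(en d law)) := by
  induction N with
  | zero => simp
  | succ N ih =>
    set M : ℝ := ∫ η, g η ∂(en d law) with hM
    have hM0 : 0 ≤ M := integral_nonneg hg0
    let G : Env d → ℝ := fun η => Real.exp (∑ k ∈ range N, av β g (k * m) η)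
    have hGm : Measurable G :=
      (Finset.measurable_fun_sum _ fun k _ => measurable_av β hgm (k * m)).exp
    have hG0 : ∀ η, 0 < G η := fun η => Real.exp_pos _
    have hGC : ∀ η, |G η| ≤ Real.exp N := by
      intro η
      rw [abs_of_pos (hG0 η)]
      refine Real.exp_le_exp.2 ?_
      calc _ ≤ ∑ _k ∈ range N, (1:ℝ) := Finset.sum_le_sum fun k _ => av_le_one hd β hg1 _ _
        _ = _ := by simp
    have hGd : ∀ η η', (∀ e ∈ st d 0 (N * m), η e = η' e) → G η = G η' := by
      intro η η' h
      simp only [G]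
      congr 1
      refine Finset.sum_congr rfl fun k hk => ?_
      rw [Finset.mem_range] at hk
      refine av_dep β hgd fun s hs => h s (st_mono ?_ hs)
      calc k * m + m = (k + 1) * m := by ring
        _ ≤ N * m := Nat.mul_le_mul_right _ hk
    have hg1' : ∀ η, |g η| ≤ 1 := fun η => by rw [abs_of_nonneg (hg0 η)]; exact hg1 η
    have e1 : ∫ η, G η * av β g (N * m) η ∂(en d law) = (∫ η, G η ∂(en d law)) * M :=
      avg_indep (law := law) (Finset.univ : Finset (Fin (N * m) → Step d)) (T := N * m) (m := m)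
        (fun w => pos w (N * m)) (fun w _ => abs_pos_le' w) (fun w η => PP β η w)
        (fun w => measurable_PP β w) (fun w η η' h => PP_dep β w h)
        (fun w _ η => PP_nonneg hd β η w) (fun η => PP_sum hd β η _) hGm hGd hGC hgm hgd hg1'
    have hGi : Integrable G (en d law) := int_bdd hGm hGC
    have hGai : Integrable (fun η => G η * av β g (N * m) η) (en d law) := by
      refine int_bdd (C := Real.exp N) (hGm.mul (measurable_av β hgm _)) fun η => ?_
      rw [abs_mul, abs_of_nonneg (av_nonneg hd β hg0 _ η)]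
      calc |G η| * av β g (N * m) η ≤ Real.exp N * 1 :=
            mul_le_mul (hGC η) (av_le_one hd β hg1 _ _) (av_nonneg hd β hg0 _ η) (Real.exp_pos _).le
        _ = _ := mul_one _
    have hm2 : Measurable (fun η : Env d => Real.exp (∑ k ∈ range (N + 1), av β g (k * m) η)) :=
      (Finset.measurable_fun_sum _ fun k _ => measurable_av β hgm (k * m)).exp
    have hi2 : Integrable (fun η : Env d => Real.exp (∑ k ∈ range (N + 1), av β g (k * m) η))
        (en d law) := by
      refine int_bdd (C := Real.exp (N + 1)) hm2 fun η => ?_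
      rw [abs_of_pos (Real.exp_pos _)]
      refine Real.exp_le_exp.2 ?_
      calc _ ≤ ∑ _k ∈ range (N + 1), (1:ℝ) := Finset.sum_le_sum fun k _ => av_le_one hd β hg1 _ _
        _ = _ := by simp
    calc ∫ η, Real.exp (∑ k ∈ range (N + 1), av β g (k * m) η) ∂(en d law)
        ≤ ∫ η, (G η + 2 * (G η * av β g (N * m) η)) ∂(en d law) := by
          refine integral_mono hi2 (hGi.add (hGai.const_mul 2)) fun η => ?_
          simp only
          rw [Finset.sum_range_succ, Real.exp_add]
          have f1 := Q70.Fp.exp_le_two (av_nonneg hd β hg0 (N * m) η) (av_le_one hd β hg1 (N * m) η)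
          have f2 := hG0 η
          have f3 : G η * Real.exp (av β g (N * m) η) ≤ G η * (1 + 2 * av β g (N * m) η) :=
            mul_le_mul_of_nonneg_left f1 f2.le
          have f4 : G η * (1 + 2 * av β g (N * m) η) = G η + 2 * (G η * av β g (N * m) η) := by ring
          rw [← f4]
          exact f3
      _ = (∫ η, G η ∂(en d law)) * (1 + 2 * M) := by
          rw [integral_add hGi (hGai.const_mul 2), integral_const_mul, e1]; ring
      _ ≤ Real.exp (2 * N * M) * Real.exp (2 * M) := by
          refine mul_le_mul ih ?_ (by positivity) (Real.exp_pos _).le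
          linarith [Real.add_one_le_exp (2 * M)]
      _ = _ := by rw [← Real.exp_add]; congr 1; push_cast; ring

lemma chain_tail (hd : 1 ≤ d) (β : ℝ) {m : ℕ} {g : Env d → ℝ} (hgm : Measurable g)
    (hgd : ∀ η η', (∀ e ∈ st d 0 m, η e = η' e) → g η = g η') (hg0 : ∀ η, 0 ≤ g η)
    (hg1 : ∀ η, g η ≤ 1) (N : ℕ) (t : ℝ) :
    (en d law).real {η | t ≤ ∑ k ∈ range N, av β g (k * m) η} ≤
      Real.exp (-t + 2 * N * ∫ η, g η ∂(en d law)) := by
  have hm2 : Measurable (fun η : Env d => Real.exp (∑ k ∈ range N, av β g (k * m) η)) :=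
    (Finset.measurable_fun_sum _ fun k _ => measurable_av β hgm (k * m)).exp
  have hi2 : Integrable (fun η : Env d => Real.exp (∑ k ∈ range N, av β g (k * m) η))
      (en d law) := by
    refine int_bdd (C := Real.exp N) hm2 fun η => ?_
    rw [abs_of_pos (Real.exp_pos _)]
    refine Real.exp_le_exp.2 ?_
    calc _ ≤ ∑ _k ∈ range N, (1:ℝ) := Finset.sum_le_sum fun k _ => av_le_one hd β hg1 _ _
      _ = _ := by simp
  have h1 := mul_meas_ge_le_integral_of_nonneg (μ := en d law)
    (Eventually.of_forall fun η => (Real.exp_pos (∑ k ∈ range N, av β g (k * m) η)).le) hi2 (Real.exp t)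
  simp only [Real.exp_le_exp] at h1
  have h2 := h1.trans (chain_exp hd β hgm hgd hg0 hg1 N)
  rw [Real.exp_add, Real.exp_neg, ← div_eq_inv_mul, le_div_iff₀ (Real.exp_pos _)]
  linarith

lemma LL_zero (β : ℝ) (η : Env d) : LL β 0 η = 0 := by
  unfold LL
  rw [Z_eq]
  unfold SZ energy
  simp

/-- chains of blocks -/
lemma chain_le (hd : 1 ≤ d) (β : ℝ) (m : ℕ) (η : Env d) (N : ℕ) :
    ∑ k ∈ range N, av β (LL β m) (k * m) η ≤ LL β (N * m) η := by
  induction N with
  | zero => simp [LL_zero]
  | succ N ih =>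
    rw [Finset.sum_range_succ, Nat.succ_mul]
    refine le_trans ?_ (jensen hd β η (N * m) m)
    exact add_le_add ih le_rfl

/-- positions -/
noncomputable def bx (d T : ℕ) : Finset (Fin d → ℤ) :=
  Fintype.piFinset (fun _ : Fin d => Finset.Icc (-(T:ℤ)) (T:ℤ))

lemma mem_bx {T : ℕ} {x : Fin d → ℤ} : x ∈ bx d T ↔ ∀ k, |x k| ≤ (T:ℤ) := by
  simp only [bx, Fintype.mem_piFinset, Finset.mem_Icc, abs_le]

lemma card_bx (T : ℕ) : (bx d T).card = (2 * T + 1) ^ d := by
  unfold bx
  rw [Fintype.card_piFinset]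
  simp only [Int.card_Icc, Finset.prod_const, Finset.card_univ, Fintype.card_fin]
  congr 1
  omega

/-- lower bounds at all positions of a time -/
lemma bad_pos {β : ℝ} {T r n : ℕ} (hT : T ≤ n) {c g1 : ℝ}
    (hg1 : (en d law).real {η | LL β r η < c} ≤ g1) :
    (en d law).real (⋃ x ∈ bx d T, {η | LL β r (sft T x η) < c}) ≤ (2 * (n:ℝ) + 1) ^ d * g1 := by
  have hg0 : 0 ≤ g1 := measureReal_nonneg.trans hg1
  refine (measureReal_biUnion_finset_le _ _).trans ?_
  have hms : MeasurableSet {η : Env d | LL β r η < c} := measurableSet_lt (measurable_LL β r) measurable_const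
  calc _ ≤ ∑ _x ∈ bx d T, g1 := Finset.sum_le_sum fun x _ => by
        have := real_sft (law := law) T x hms
        exact this.le.trans hg1
    _ = ((2 * (T:ℝ) + 1) ^ d) * g1 := by
        rw [Finset.sum_const, nsmul_eq_mul, card_bx]; push_cast; ring
    _ ≤ _ := by
        have : (T:ℝ) ≤ n := by exact_mod_cast hT
        gcongr

/-- one block step at a fixed scale -/
lemma block (hd : 1 ≤ d) {β p : ℝ} {n m N r : ℕ} (hn : n = N * m + r) (hr : r ≤ m)
    {B D g1 g2 : ℝ} (hB : 0 < B) (hD : 0 ≤ D)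
    (hg1 : ∀ k ≤ m, (en d law).real {η | LL β k η < k * p - B} ≤ g1)
    (hg2 : (en d law).real {η | LL β m η < m * p - D} ≤ g2) (s : ℝ) :
    (en d law).real {η | LL β n η < n * p - (2 * N * (D + B * g2) + B * s) - B} ≤
      (N + 1) * ((2 * (n:ℝ) + 1) ^ d * g1) + Real.exp (-s) := by
  let g : Env d → ℝ := fun η => max 0 (min ((m * p - LL β m η) / B) 1)
  have hgm : Measurable g :=
    measurable_const.max (((measurable_const.sub (measurable_LL β m)).div_const _).min measurable_const)
  have hg0 : ∀ η, 0 ≤ g η := fun η => le_max_left _ _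
  have hgle : ∀ η, g η ≤ 1 := fun η => max_le zero_le_one (min_le_right _ _)
  have hgd : ∀ η η', (∀ e ∈ st d 0 m, η e = η' e) → g η = g η' := by
    intro η η' h
    simp only [g]
    rw [LL_dep0 β h]
  have hmean : ∫ η, g η ∂(en d law) ≤ D / B + g2 := by
    have hms : MeasurableSet {η : Env d | LL β m η < m * p - D} :=
      measurableSet_lt (measurable_LL β m) measurable_const
    have hle : ∀ η, g η ≤ D / B + Set.indicator {η : Env d | LL β m η < m * p - D} (fun _ => (1:ℝ)) η := by
      intro η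
      by_cases hη : LL β m η < m * p - D
      · rw [Set.indicator_of_mem (show η ∈ {η : Env d | LL β m η < m * p - D} from hη)]
        have : 0 ≤ D / B := by positivity
        linarith [hgle η]
      · rw [Set.indicator_of_notMem (show η ∉ {η : Env d | LL β m η < m * p - D} from hη), add_zero]
        push Not at hη
        refine max_le (by positivity) ((min_le_left _ _).trans ?_)
        gcongr
        linarith
    calc ∫ η, g η ∂(en d law) ≤
        ∫ η, (D / B + Set.indicator {η : Env d | LL β m η < m * p - D} (fun _ => (1:ℝ)) η) ∂(en d law) :=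
          integral_mono (int_bdd hgm (C := 1) fun η => by rw [abs_of_nonneg (hg0 η)]; exact hgle η)
            ((integrable_const _).add ((integrable_const _).indicator hms)) hle
      _ = D / B + (en d law).real {η : Env d | LL β m η < m * p - D} := by
          rw [integral_add (integrable_const _) ((integrable_const _).indicator hms),
            integral_indicator_const _ hms]
          simp
      _ ≤ _ := by linarith
  have htail : (en d law).real {η | 2 * N * (D / B + g2) + s ≤ ∑ k ∈ range N, av β g (k * m) η} ≤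
      Real.exp (-s) := by
    refine (chain_tail hd β hgm hgd hg0 hgle N _).trans (Real.exp_le_exp.2 ?_)
    have : (N:ℝ) * ∫ η, g η ∂(en d law) ≤ N * (D / B + g2) :=
      mul_le_mul_of_nonneg_left hmean (Nat.cast_nonneg _)
    linarith
  have hsub : {η | LL β n η < n * p - (2 * N * (D + B * g2) + B * s) - B} ⊆
      ((⋃ k ∈ range N, ⋃ x ∈ bx d (k * m), {η | LL β m (sft (k * m) x η) < m * p - B}) ∪
        (⋃ x ∈ bx d (N * m), {η | LL β r (sft (N * m) x η) < r * p - B})) ∪
      {η | 2 * N * (D / B + g2) + s ≤ ∑ k ∈ range N, av β g (k * m) η} := by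
    intro η hη
    by_contra hcon
    simp only [Set.mem_union, Set.mem_iUnion, Set.mem_setOf_eq, not_or, not_exists, not_lt, not_le,
      Finset.mem_range, exists_prop, not_and] at hcon
    obtain ⟨⟨c1, c2⟩, c3⟩ := hcon
    simp only [Set.mem_setOf_eq] at hη
    have d1 := jensen hd β η (N * m) r
    have d2 := chain_le hd β m η N
    have d3 : (r * p - B : ℝ) ≤ ∑ w : Fin (N * m) → Step d, PP β η w * LL β r (sft (N * m) (pos w (N * m)) η) := by
      calc (r * p - B : ℝ) = ∑ w : Fin (N * m) → Step d, PP β η w * (r * p - B) := by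
            rw [← Finset.sum_mul, PP_sum hd, one_mul]
        _ ≤ _ := Finset.sum_le_sum fun w _ =>
            mul_le_mul_of_nonneg_left (c2 _ (mem_bx.2 (abs_pos_le' w))) (PP_nonneg hd β η w)
    have d4 : ∀ k ∈ range N, m * p - B * av β g (k * m) η ≤ av β (LL β m) (k * m) η := by
      intro k hk
      unfold av
      rw [Finset.mul_sum]
      have e1 : (m:ℝ) * p = ∑ w : Fin (k * m) → Step d, PP β η w * (m * p) := by
        rw [← Finset.sum_mul, PP_sum hd, one_mul]
      rw [e1, ← Finset.sum_sub_distrib]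
      refine Finset.sum_le_sum fun w _ => ?_
      have e2 := c1 k (Finset.mem_range.1 hk) _ (mem_bx.2 (abs_pos_le' w))
      have e3 : (m * p - LL β m (sft (k * m) (pos w (k * m)) η)) / B ≤
          g (sft (k * m) (pos w (k * m)) η) := by
        refine le_trans ?_ (le_max_right _ _)
        rw [min_eq_left ((div_le_one hB).2 (by linarith))]
      rw [div_le_iff₀ hB] at e3
      have e4 := PP_nonneg hd β η w
      nlinarith
    have d5 := Finset.sum_le_sum d4
    rw [Finset.sum_sub_distrib, Finset.sum_const, Finset.card_range, nsmul_eq_mul, ← Finset.mul_sum] at d5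
    have d6 : B * (2 * N * (D / B + g2) + s) = 2 * N * (D + B * g2) + B * s := by
      field_simp
    have d7 := mul_lt_mul_of_pos_left c3 hB
    rw [d6] at d7
    rw [← hn] at d1
    have hnr : (n:ℝ) = N * m + r := by rw [hn]; push_cast; ring
    rw [hnr] at hη
    linarith
  refine (measureReal_mono hsub (measure_ne_top _ _)).trans ((measureReal_union_le _ _).trans ?_)
  refine add_le_add ((measureReal_union_le _ _).trans ?_) htail
  have f1 : (en d law).real (⋃ k ∈ range N, ⋃ x ∈ bx d (k * m),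
      {η | LL β m (sft (k * m) x η) < m * p - B}) ≤ N * ((2 * (n:ℝ) + 1) ^ d * g1) := by
    refine (measureReal_biUnion_finset_le _ _).trans ?_
    calc _ ≤ ∑ _k ∈ range N, ((2 * (n:ℝ) + 1) ^ d * g1) := Finset.sum_le_sum fun k hk => by
          refine bad_pos ?_ (hg1 m le_rfl)
          rw [hn]
          have : k * m ≤ N * m := Nat.mul_le_mul_right _ (Finset.mem_range.1 hk).le
          omega
      _ = _ := by rw [Finset.sum_const, Finset.card_range, nsmul_eq_mul]
  have f2 : (en d law).real (⋃ x ∈ bx d (N * m), {η | LL β r (sft (N * m) x η) < r * p - B}) ≤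
      (2 * (n:ℝ) + 1) ^ d * g1 := bad_pos (by omega) (hg1 r hr)
  linarith

end Q70.Dp
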