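import Pool.Agent.Q70.DpB

/-!
# Directed polymers: iteration of the block step
-/

set_option autoImplicit false

open MeasureTheory ProbabilityTheory Finset Filter TH967.DP
open scoped Topology

namespace Q70.Dp

variable {d : ℕ} {law : Measure ℝ} [IsProbabilityMeasure law]

/-- standing hypotheses -/
structure Hyp (d : ℕ) (law : Measure ℝ) (β : ℝ) : Prop where
  hd : 1 ≤ d
  up : Integrable (fun x => Real.exp (β * x)) law
  down : Integrable (fun x => Real.exp (-β * x)) law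

/-- a constant -/
noncomputable def K1 (law : Measure ℝ) (β p : ℝ) : ℝ := |p + Real.log (MG law (-β))| + 1

lemma K1_pos (β p : ℝ) : 1 ≤ K1 law β p := by
  unfold K1
  linarith [abs_nonneg (p + Real.log (MG law (-β)))]

lemma low_tail' {β : ℝ} (h : Hyp d law β) (p : ℝ) (n : ℕ) (s : ℝ) :
    (en d law).real {η | LL β n η < n * p - s} ≤ Real.exp (-s + n * K1 law β p) := by
  have h1 := low_tail (law := law) h.hd h.down n (s - n * p)
  have h2 : (en d law).real {η | LL β n η < n * p - s} ≤ (en d law).real {η | LL β n η ≤ -(s - n * p)} := by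
    refine measureReal_mono ?_ (measure_ne_top _ _)
    intro η hη
    simp only [Set.mem_setOf_eq] at hη ⊢
    linarith
  refine h2.trans (h1.trans ?_)
  have h3 : MG law (-β) ^ n = Real.exp (n * Real.log (MG law (-β))) := by
    rw [Real.exp_nat_mul, Real.exp_log (MG_pos h.down)]
  rw [h3, ← Real.exp_add]
  refine Real.exp_le_exp.2 ?_
  have h4 : p + Real.log (MG law (-β)) ≤ K1 law β p := by
    unfold K1
    linarith [le_abs_self (p + Real.log (MG law (-β)))]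
  have h5 : (n:ℝ) * (p + Real.log (MG law (-β))) ≤ n * K1 law β p :=
    mul_le_mul_of_nonneg_left h4 (Nat.cast_nonneg _)
  linarith

/-- polynomial bound for the lower tail at the exponent `a` -/
def Tl (d : ℕ) (law : Measure ℝ) (β p a δ : ℝ) : Prop := ∃ C : ℝ, 0 < C ∧ ∀ n : ℕ, 1 ≤ n →
  (en d law).real {η | LL β n η < n * p - (n:ℝ) ^ a} ≤ C * (n:ℝ) ^ (-δ)

/-- rapid decay of the lower tail at the exponent `a` -/
def HH (d : ℕ) (law : Measure ℝ) (β p a : ℝ) : Prop := ∀ q : ℝ, 0 < q → Tl d law β p a q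

lemma of_ev {P : ℕ → ℝ} (hP : ∀ n, P n ≤ 1) {q C : ℝ} (hq : 0 < q) (hC : 0 < C)
    (h : ∀ᶠ n : ℕ in atTop, P n ≤ C * (n:ℝ) ^ (-q)) :
    ∃ C' : ℝ, 0 < C' ∧ ∀ n : ℕ, 1 ≤ n → P n ≤ C' * (n : ℝ) ^ (-q) := by
  obtain ⟨n0, h0⟩ := eventually_atTop.1 h
  refine ⟨C + ((n0:ℝ) + 1) ^ q, by positivity, fun n hn => ?_⟩
  have h1' : (0:ℝ) < n := by exact_mod_cast hn
  have h2 : 0 < (n : ℝ) ^ (-q) := by positivity
  rw [add_mul]
  by_cases h3 : n0 ≤ n
  · refine (h0 _ h3).trans ?_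
    have : 0 ≤ ((n0:ℝ) + 1) ^ q * (n : ℝ) ^ (-q) := by positivity
    linarith
  · refine (hP n).trans ?_
    have h4 : (n : ℝ) ≤ (n0:ℝ) + 1 := by
      have : n ≤ n0 + 1 := by omega
      exact_mod_cast this
    have h5 : 1 ≤ ((n0:ℝ) + 1) ^ q * (n : ℝ) ^ (-q) := by
      rw [Real.rpow_neg h1'.le, ← div_eq_mul_inv, one_le_div (by positivity)]
      exact Real.rpow_le_rpow h1'.le h4 hq.le
    have h6 : 0 ≤ C * (n : ℝ) ^ (-q) := by positivity
    linarith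

lemma unif {β : ℝ} (h : Hyp d law β) {p a δ : ℝ} (ha : 0 < a) (hδ : 0 < δ) (hT : Tl d law β p a δ) :
    ∃ C : ℝ, 0 < C ∧ ∀ m : ℕ, 1 ≤ m → ∀ r ≤ m,
      (en d law).real {η | LL β r η < r * p - (m:ℝ) ^ a} ≤ C * (m:ℝ) ^ (-(δ * min a 1)) := by
  obtain ⟨C, hC, hT⟩ := hT
  obtain ⟨C2, hC2, h2⟩ := Q70.Fp.exp_poly δ hδ (show (0:ℝ) < 1 / 2 by norm_num)
  have hK := K1_pos (law := law) β p
  set K := K1 law β p with hKdef
  have hK0 : 0 < K := by linarith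
  refine ⟨C * (2 * K) ^ δ + C2, by positivity, fun m hm r hr => ?_⟩
  have hm1 : (1:ℝ) ≤ m := by exact_mod_cast hm
  have hm0 : (0:ℝ) < m := by linarith
  have hc0 : 0 < min a 1 := lt_min ha one_pos
  set u : ℝ := (m:ℝ) ^ (min a 1) with hu
  have hu1 : 1 ≤ u := Real.one_le_rpow hm1 hc0.le
  have hu0 : 0 < u := by linarith
  have hua : u ≤ (m:ℝ) ^ a := Real.rpow_le_rpow_of_exponent_le hm1 (min_le_left _ _)
  have e1 : (m:ℝ) ^ (-(δ * min a 1)) = u ^ (-δ) := by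
    rw [hu, ← Real.rpow_mul hm0.le]; congr 1; ring
  have e2 : (u / (2 * K)) ^ (-δ) = (2 * K) ^ δ * u ^ (-δ) := by
    rw [Real.div_rpow hu0.le (by positivity), Real.rpow_neg (by positivity : (0:ℝ) ≤ 2 * K), div_inv_eq_mul,
      mul_comm]
  rw [e1, add_mul, mul_assoc, ← e2]
  have hp1 : 0 < (u / (2 * K)) ^ (-δ) := by positivity
  have hp2 : 0 < u ^ (-δ) := by positivity
  by_cases hcase : (r : ℝ) ≤ u / (2 * K)
  · have h3 := low_tail' h p r ((m:ℝ) ^ a)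
    have h4 : (r:ℝ) * K ≤ u / 2 := by
      rw [le_div_iff₀ (by positivity)] at hcase
      linarith
    have h5 : Real.exp (-(m:ℝ) ^ a + r * K) ≤ Real.exp (-(1 / 2 * u)) := by
      refine Real.exp_le_exp.2 ?_
      linarith
    have h6 := h2 u hu1
    have h7 : 0 ≤ C * (u / (2 * K)) ^ (-δ) := by positivity
    linarith
  · push Not at hcase
    have hr0 : (0:ℝ) < r := lt_trans (by positivity) hcase
    have hr1 : 1 ≤ r := by
      have : 0 < r := by exact_mod_cast hr0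
      omega
    have h3 : (en d law).real {η | LL β r η < r * p - (m:ℝ) ^ a} ≤
        (en d law).real {η | LL β r η < r * p - (r:ℝ) ^ a} := by
      refine measureReal_mono ?_ (measure_ne_top _ _)
      intro η hη
      simp only [Set.mem_setOf_eq] at hη ⊢
      have : (r:ℝ) ^ a ≤ (m:ℝ) ^ a := Real.rpow_le_rpow hr0.le (by exact_mod_cast hr) ha.le
      linarith
    have h4 : (r : ℝ) ^ (-δ) ≤ (u / (2 * K)) ^ (-δ) :=
      Real.rpow_le_rpow_of_nonpos (by positivity) hcase.le (by linarith)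
    have h5 : C * (r : ℝ) ^ (-δ) ≤ C * (u / (2 * K)) ^ (-δ) := by gcongr
    have h10 : 0 ≤ C2 * u ^ (-δ) := by positivity
    linarith [hT r hr1]

lemma Tl_mono {β p a a' δ : ℝ} (haa : a ≤ a') (hT : Tl d law β p a δ) : Tl d law β p a' δ := by
  obtain ⟨C, hC, h1⟩ := hT
  refine ⟨C, hC, fun n hn => (measureReal_mono ?_ (measure_ne_top _ _)).trans (h1 n hn)⟩
  intro η hη
  simp only [Set.mem_setOf_eq] at hη ⊢
  have : (n : ℝ) ^ a ≤ (n : ℝ) ^ a' :=
    Real.rpow_le_rpow_of_exponent_le (by exact_mod_cast hn) haa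
  linarith

lemma HH_mono {β p a a' : ℝ} (haa : a ≤ a') (hH : HH d law β p a) : HH d law β p a' :=
  fun q hq => Tl_mono haa (hH q hq)

lemma HH_two {β : ℝ} (h : Hyp d law β) (p : ℝ) : HH d law β p 2 := by
  intro q hq
  obtain ⟨C, hC, h1⟩ := Q70.Fp.exp_poly q hq (show (0:ℝ) < 1 by norm_num)
  refine of_ev (fun n => measureReal_le_one) hq hC ?_
  have hbig := (tendsto_natCast_atTop_atTop (R := ℝ)).eventually_ge_atTop (K1 law β p + 1)
  filter_upwards [hbig, eventually_ge_atTop 1] with n hn hn1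
  have hnr : (1:ℝ) ≤ n := by exact_mod_cast hn1
  refine (low_tail' h p n _).trans (le_trans (Real.exp_le_exp.2 ?_) (h1 n hnr))
  rw [Real.rpow_two]
  nlinarith

lemma step {β : ℝ} (h : Hyp d law β) {p a a' b δ κ : ℝ} (ha : 0 < a) (hb : 0 < b) (hb1 : b ≤ 1)
    (hδ : 0 < δ) (hκ0 : 0 < κ) (hκ1 : κ < 1) (h1 : κ * a < a') (h2 : 1 - κ + κ * b < a')
    (h3 : 1 - κ + κ * (a - δ * b) < a') (hT : Tl d law β p b δ) (hH : HH d law β p a) :
    HH d law β p a' := by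
  intro q hq
  have hmin : 0 < min a 1 := lt_min ha one_pos
  set q1 : ℝ := (q + 1 + d) / (κ * min a 1) with hq1
  have hq1pos : 0 < q1 := by positivity
  obtain ⟨C1, hC1, hU1⟩ := unif h ha hq1pos (hH q1 hq1pos)
  obtain ⟨C2, hC2, hU2⟩ := unif h hb hδ hT
  set ε : ℝ := (a' - κ * a) / 2 with hε
  have hε0 : 0 < ε := by rw [hε]; linarith
  obtain ⟨C5, hC5, hP5⟩ := Q70.Fp.exp_poly (q / ε) (by positivity) one_pos
  rw [min_eq_left hb1] at hU2
  refine of_ev (fun n => measureReal_le_one) hq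
    (show 0 < 2 * 3 ^ d * C1 + C5 by positivity) ?_
  filter_upwards [eventually_ge_atTop 1,
    Q70.Fp.pow_small (K := 2 * 2 ^ b) h2, Q70.Fp.pow_small (K := 2 * 2 ^ a * C2) h3,
    Q70.Fp.pow_small (K := 2 ^ a) (show κ * a + ε < a' by rw [hε]; linarith),
    Q70.Fp.pow_small (K := 2 ^ a) h1]
    with n hn s1 s2 s3 s4
  have hn1 : (1:ℝ) ≤ n := by exact_mod_cast hn
  have hn0 : (0:ℝ) < n := by linarith
  set u : ℝ := (n:ℝ) ^ κ with hu
  have hu1 : 1 ≤ u := Real.one_le_rpow hn1 hκ0.le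
  have hu0 : 0 < u := by linarith
  set m : ℕ := ⌈u⌉₊ with hm
  have hmu : u ≤ m := Nat.le_ceil u
  have hmu2 : (m:ℝ) < u + 1 := Nat.ceil_lt_add_one hu0.le
  have hm2u : (m:ℝ) ≤ 2 * u := by linarith
  have hm0 : (0:ℝ) < m := by linarith
  have hm1 : 1 ≤ m := by
    have : 0 < m := by exact_mod_cast hm0
    omega
  set N : ℕ := n / m with hN
  set r : ℕ := n % m with hr
  have hnr : n = N * m + r := by
    rw [hN, hr, mul_comm]
    exact (Nat.div_add_mod n m).symm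
  have hrm : r ≤ m := (Nat.mod_lt n (by omega)).le
  have hNr : (N:ℝ) ≤ (n:ℝ) ^ (1 - κ) := by
    have e1 : (N:ℝ) * m ≤ n := by
      have : N * m ≤ n := by omega
      exact_mod_cast this
    have e2 : (N:ℝ) * u ≤ n := (mul_le_mul_of_nonneg_left hmu (Nat.cast_nonneg _)).trans e1
    rw [Real.rpow_sub hn0, Real.rpow_one, ← hu, le_div_iff₀ hu0]
    exact e2
  have hNn : (N:ℝ) ≤ n := by
    have : N ≤ n := Nat.div_le_self n m
    exact_mod_cast this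
  have hB : (m:ℝ) ^ a ≤ 2 ^ a * (n:ℝ) ^ (κ * a) := by
    calc (m:ℝ) ^ a ≤ (2 * u) ^ a := Real.rpow_le_rpow hm0.le hm2u ha.le
      _ = _ := by rw [Real.mul_rpow (by norm_num) hu0.le, hu, ← Real.rpow_mul hn0.le]
  have hD : (m:ℝ) ^ b ≤ 2 ^ b * (n:ℝ) ^ (κ * b) := by
    calc (m:ℝ) ^ b ≤ (2 * u) ^ b := Real.rpow_le_rpow hm0.le hm2u hb.le
      _ = _ := by rw [Real.mul_rpow (by norm_num) hu0.le, hu, ← Real.rpow_mul hn0.le]
  have hneg : ∀ r : ℝ, 0 < r → (m:ℝ) ^ (-r) ≤ (n:ℝ) ^ (-(κ * r)) := by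
    intro r hr
    refine (Real.rpow_le_rpow_of_nonpos hu0 hmu (by linarith)).trans (le_of_eq ?_)
    rw [hu, ← Real.rpow_mul hn0.le]; congr 1; ring
  have hg2 : C2 * (m:ℝ) ^ (-(δ * b)) ≤ C2 * (n:ℝ) ^ (-(κ * (δ * b))) := by
    have := hneg (δ * b) (by positivity)
    gcongr
  have hg1 : C1 * (m:ℝ) ^ (-(q1 * min a 1)) ≤ C1 * (n:ℝ) ^ (-(q + 1 + d)) := by
    have e0 : κ * (q1 * min a 1) = q + 1 + d := by rw [hq1]; field_simp
    have := hneg (q1 * min a 1) (by positivity)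
    rw [e0] at this
    gcongr
  have hblock := block (law := law) h.hd (β := β) (p := p) hnr hrm (B := (m:ℝ) ^ a) (D := (m:ℝ) ^ b)
    (g1 := C1 * (m:ℝ) ^ (-(q1 * min a 1))) (g2 := C2 * (m:ℝ) ^ (-(δ * b)))
    (by positivity) (by positivity) (fun k hk => hU1 m hm1 k hk)
    (hU2 m hm1 m le_rfl) ((n:ℝ) ^ ε)
  have hfl : 2 * N * ((m:ℝ) ^ b + (m:ℝ) ^ a * (C2 * (m:ℝ) ^ (-(δ * b)))) + (m:ℝ) ^ a * (n:ℝ) ^ ε
      + (m:ℝ) ^ a ≤ (n:ℝ) ^ a' := by
    have e2 : 2 * (N:ℝ) * ((m:ℝ) ^ b + (m:ℝ) ^ a * (C2 * (m:ℝ) ^ (-(δ * b)))) ≤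
        2 * (n:ℝ) ^ (1 - κ) * (2 ^ b * (n:ℝ) ^ (κ * b) +
          (2 ^ a * (n:ℝ) ^ (κ * a)) * (C2 * (n:ℝ) ^ (-(κ * (δ * b))))) := by gcongr
    have e3 : (m:ℝ) ^ a * (n:ℝ) ^ ε ≤ (2 ^ a * (n:ℝ) ^ (κ * a)) * (n:ℝ) ^ ε := by gcongr
    have e4 : (n:ℝ) ^ (1 - κ) * (n:ℝ) ^ (κ * b) = (n:ℝ) ^ (1 - κ + κ * b) := by rw [← Real.rpow_add hn0]
    have e5 : (n:ℝ) ^ (1 - κ) * ((n:ℝ) ^ (κ * a) * (n:ℝ) ^ (-(κ * (δ * b)))) =
        (n:ℝ) ^ (1 - κ + κ * (a - δ * b)) := by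
      rw [← Real.rpow_add hn0, ← Real.rpow_add hn0]; congr 1; ring
    have e6 : (n:ℝ) ^ (κ * a) * (n:ℝ) ^ ε = (n:ℝ) ^ (κ * a + ε) := by rw [← Real.rpow_add hn0]
    have e7 : 2 * (n:ℝ) ^ (1 - κ) * (2 ^ b * (n:ℝ) ^ (κ * b) +
          (2 ^ a * (n:ℝ) ^ (κ * a)) * (C2 * (n:ℝ) ^ (-(κ * (δ * b))))) =
          2 * 2 ^ b * ((n:ℝ) ^ (1 - κ) * (n:ℝ) ^ (κ * b)) +
          2 * 2 ^ a * C2 * ((n:ℝ) ^ (1 - κ) * ((n:ℝ) ^ (κ * a) * (n:ℝ) ^ (-(κ * (δ * b))))) := by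
      ring
    have e8 : (2 ^ a * (n:ℝ) ^ (κ * a)) * (n:ℝ) ^ ε = 2 ^ a * ((n:ℝ) ^ (κ * a) * (n:ℝ) ^ ε) := by ring
    rw [e7, e4, e5] at e2
    rw [e8, e6] at e3
    linarith
  have hmono : (en d law).real {η | LL β n η < n * p - (n:ℝ) ^ a'} ≤
      (N + 1) * ((2 * (n:ℝ) + 1) ^ d * (C1 * (m:ℝ) ^ (-(q1 * min a 1)))) + Real.exp (-(n:ℝ) ^ ε) := by
    refine (measureReal_mono ?_ (measure_ne_top _ _)).trans hblock
    intro η hη
    simp only [Set.mem_setOf_eq] at hη ⊢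
    linarith
  refine hmono.trans ?_
  have e1 : ((N:ℝ) + 1) * ((2 * (n:ℝ) + 1) ^ d * (C1 * (m:ℝ) ^ (-(q1 * min a 1)))) ≤
      (2 * (n:ℝ)) * ((3 * (n:ℝ)) ^ d * (C1 * (n:ℝ) ^ (-(q + 1 + d)))) := by
    have f1 : (N:ℝ) + 1 ≤ 2 * n := by linarith
    have f2 : 2 * (n:ℝ) + 1 ≤ 3 * n := by linarith
    gcongr
  have e2 : (n:ℝ) * ((n:ℝ) ^ d * (n:ℝ) ^ (-(q + 1 + d))) = (n:ℝ) ^ (-q) := by
    rw [← Real.rpow_natCast (n:ℝ) d, ← Real.rpow_add hn0, ← Real.rpow_one_add' hn0.le (by linarith)]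
    congr 1; ring
  have e3 := hP5 ((n:ℝ) ^ ε) (Real.one_le_rpow hn1 hε0.le)
  rw [one_mul, ← Real.rpow_mul hn0.le, show ε * -(q / ε) = -q by field_simp] at e3
  have e4 : (2 * (n:ℝ)) * ((3 * (n:ℝ)) ^ d * (C1 * (n:ℝ) ^ (-(q + 1 + d)))) =
      2 * 3 ^ d * C1 * ((n:ℝ) * ((n:ℝ) ^ d * (n:ℝ) ^ (-(q + 1 + d)))) := by
    rw [mul_pow]; ring
  rw [e4, e2] at e1
  linarith

lemma iter {β : ℝ} (h : Hyp d law β) {p b δ : ℝ} (hb : 0 < b) (hb1 : b ≤ 1) (hδ : 0 < δ)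
    (hT : Tl d law β p b δ) {η : ℝ} (hη : 0 < η) : HH d law β p (b + η) := by
  set e : ℝ := min η (δ * b) with he
  have he0 : 0 < e := lt_min hη (by positivity)
  have he1 : e ≤ η := min_le_left _ _
  have he2 : e ≤ δ * b := min_le_right _ _
  set κ : ℝ := 1 / (1 + e) with hκ
  set κ' : ℝ := 1 / (1 + e / 2) with hκ'
  have hκ0 : 0 < κ := by positivity
  have hκ1 : κ < 1 := by rw [hκ, div_lt_one (by positivity)]; linarith
  have hκκ' : κ < κ' := by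
    rw [hκ, hκ']
    exact one_div_lt_one_div_of_lt (by positivity) (by linarith)
  have hκ'1 : κ' < 1 := by rw [hκ', div_lt_one (by positivity)]; linarith
  have hκ'0 : 0 < κ' := by positivity
  have hid : 1 - κ = κ * e := by rw [hκ]; field_simp; ring
  have key : ∀ k : ℕ, HH d law β p (max (2 * κ' ^ k) (b + e)) := by
    intro k
    induction k with
    | zero =>
      refine HH_mono ?_ (HH_two h p)
      simp
    | succ k ih =>
      rcases le_total (2 * κ' ^ k) (b + e) with hc | hc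
      · rw [max_eq_right hc] at ih
        exact HH_mono (le_max_right _ _) ih
      · rw [max_eq_left hc] at ih
        refine HH_mono (le_max_left _ _) ?_
        have ha : 0 < 2 * κ' ^ k := by positivity
        rw [pow_succ, ← mul_assoc]
        generalize 2 * κ' ^ k = a at *
        refine step h (b := b) (δ := δ) (κ := κ) ha hb hb1 hδ hκ0 hκ1 ?_ ?_ ?_ hT ih
        · rw [mul_comm a]; exact mul_lt_mul_of_pos_right hκκ' ha
        · rw [hid]
          calc κ * e + κ * b = κ * (b + e) := by ring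
            _ ≤ κ * a := by gcongr
            _ < a * κ' := by rw [mul_comm a]; exact mul_lt_mul_of_pos_right hκκ' ha
        · rw [hid]
          calc κ * e + κ * (a - δ * b) = κ * (a + (e - δ * b)) := by ring
            _ ≤ κ * a := by
              refine mul_le_mul_of_nonneg_left ?_ hκ0.le
              linarith
            _ < a * κ' := by rw [mul_comm a]; exact mul_lt_mul_of_pos_right hκκ' ha
  have hlim : Tendsto (fun k : ℕ => 2 * κ' ^ k) atTop (𝓝 (2 * 0)) :=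
    (tendsto_pow_atTop_nhds_zero_of_lt_one hκ'0.le hκ'1).const_mul 2
  rw [mul_zero] at hlim
  obtain ⟨k, hk⟩ := (hlim.eventually (gt_mem_nhds (show 0 < b + e by positivity))).exists
  have := key k
  rw [max_eq_right hk.le] at this
  exact HH_mono (by linarith) this

/-- a polynomial bound at all larger exponents is a rapid one -/
lemma boost {β : ℝ} (h : Hyp d law β) {p b : ℝ} (hb : 0 < b) (hb1 : b < 1)
    (hT : ∀ ζ : ℝ, 0 < ζ → ∃ δ : ℝ, 0 < δ ∧ Tl d law β p (b + ζ) δ) {a : ℝ} (ha : b < a) :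
    HH d law β p a := by
  set ζ := min ((a - b) / 2) (1 - b) with hζ
  have h0 : 0 < ζ := lt_min (by linarith) (by linarith)
  have h1 : ζ ≤ (a - b) / 2 := min_le_left _ _
  have h2 : ζ ≤ 1 - b := min_le_right _ _
  obtain ⟨δ, hδ, hT'⟩ := hT ζ h0
  exact HH_mono (by linarith) (iter h (by linarith) (by linarith) hδ hT'
    (show 0 < (a - b) / 2 by linarith))

end Q70.Dp
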