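import Pool.Agent.Q70.DpC

/-!
# Directed polymers: means, moments of the negative part, many attempts
-/

set_option autoImplicit false

open MeasureTheory ProbabilityTheory Finset Filter TH967.DP
open scoped Topology

namespace Q70.Dp

variable {d : ℕ} {law : Measure ℝ} [IsProbabilityMeasure law]

lemma integrable_LL {β : ℝ} (h : Hyp d law β) (n : ℕ) :
    Integrable (fun η : Env d => LL β n η) (en d law) := by
  have i1 := int_exp_LL (law := law) h.hd h.up n
  have i2 := (int_exp_neg_LL (law := law) h.hd h.down n).1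
  refine (i1.add i2).mono' (measurable_LL β n).aestronglyMeasurable (Eventually.of_forall fun η => ?_)
  simp only [Pi.add_apply]
  rw [Real.norm_eq_abs, abs_le]
  constructor
  · linarith [Real.add_one_le_exp (-LL β n η), Real.exp_pos (LL β n η)]
  · linarith [Real.add_one_le_exp (LL β n η), Real.exp_pos (-LL β n η)]

lemma superadd {β : ℝ} (h : Hyp d law β) (n m : ℕ) :
    ∫ η, LL β n η ∂(en d law) + ∫ η, LL β m η ∂(en d law) ≤ ∫ η, LL β (n + m) η ∂(en d law) := by
  have hi : ∀ w : Fin n → Step d,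
      Integrable (fun η : Env d => PP β η w * LL β m (sft n (pos w n) η)) (en d law) := by
    intro w
    have hs : Integrable (fun η : Env d => LL β m (sft n (pos w n) η)) (en d law) := by
      have h1 := integrable_LL h m
      rw [← map_sft (law := law) n (pos w n)] at h1
      exact h1.comp_measurable (measurable_sft n (pos w n))
    refine hs.norm.mono' ((measurable_PP β w).mul
      ((measurable_LL β m).comp (measurable_sft n (pos w n)))).aestronglyMeasurable
      (Eventually.of_forall fun η => ?_)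
    rw [norm_mul, Real.norm_eq_abs, abs_of_nonneg (PP_nonneg h.hd β η w)]
    have := PP_le_one h.hd β η w
    nlinarith [norm_nonneg (LL β m (sft n (pos w n) η))]
  have e1 : ∫ η, ∑ w : Fin n → Step d, PP β η w * LL β m (sft n (pos w n) η) ∂(en d law) =
      ∫ η, LL β m η ∂(en d law) := by
    rw [integral_finset_sum _ fun w _ => hi w]
    have e2 : ∀ w : Fin n → Step d, ∫ η, PP β η w * LL β m (sft n (pos w n) η) ∂(en d law) =
        (∫ η, PP β η w ∂(en d law)) * ∫ η, LL β m η ∂(en d law) := by
      intro w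
      rw [← integral_sft (law := law) n (pos w n) (measurable_LL β m)]
      exact integral_mul_disj (law := law) (st d 0 n) (st d n m) (st_disj n 0 m) (measurable_PP β w)
        ((measurable_LL β m).comp (measurable_sft n (pos w n)))
        (fun η η' h => PP_dep β w h) (fun η η' h => LL_dep β (abs_pos_le' w) h)
    simp only [e2]
    rw [← Finset.sum_mul, ← integral_finset_sum]
    · simp only [PP_sum h.hd]
      simp
    · intro w _
      exact int_bdd (C := 1) (measurable_PP β w) fun η => by
        rw [abs_of_nonneg (PP_nonneg h.hd β η w)]; exact PP_le_one h.hd β η w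
  rw [← e1, ← integral_add (integrable_LL h n) (integrable_finset_sum _ fun w _ => hi w)]
  exact integral_mono ((integrable_LL h n).add (integrable_finset_sum _ fun w _ => hi w))
    (integrable_LL h (n + m)) fun η => jensen h.hd β η n m

/-- the mean of the log partition function is at most `n p` -/
lemma mean_le {β p : ℝ} (h : Hyp d law β)
    (hp : Tendsto (fun n : ℕ => (∫ η, LL β n η ∂(en d law)) / (n:ℝ)) atTop (𝓝 p)) (n : ℕ) :
    ∫ η, LL β n η ∂(en d law) ≤ n * p := by
  rcases Nat.eq_zero_or_pos n with rfl | hn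
  · simp [LL_zero]
  have hn0 : (0:ℝ) < n := by exact_mod_cast hn
  have h1 : ∀ k : ℕ, (k:ℝ) * ∫ η, LL β n η ∂(en d law) ≤ ∫ η, LL β (k * n) η ∂(en d law) := by
    intro k
    induction k with
    | zero => simp [LL_zero]
    | succ k ih =>
      have := superadd h (k * n) n
      rw [Nat.succ_mul]
      push_cast
      linarith
  have h2 : Tendsto (fun k : ℕ => k * n) atTop atTop :=
    tendsto_id.atTop_mul_const' hn
  have h3 := hp.comp h2
  rw [mul_comm, ← div_le_iff₀ hn0]
  refine ge_of_tendsto h3 ?_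
  filter_upwards [eventually_ge_atTop 1] with k hk
  have hk0 : (0:ℝ) < k := by exact_mod_cast hk
  simp only [Function.comp]
  rw [div_le_div_iff₀ hn0 (by positivity)]
  have := h1 k
  push_cast
  nlinarith

lemma meas_neg (β : ℝ) (n : ℕ) (c : ℝ) : Measurable (fun η : Env d => max (c - LL β n η) 0) :=
  (measurable_const.sub (measurable_LL β n)).max measurable_const

/-- all moments of the negative part -/
lemma neg_moment {β : ℝ} (h : Hyp d law β) {p a : ℝ} (ha : 0 < a) (hH : HH d law β p a) {q : ℝ}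
    (hq : 0 < q) :
    ∃ C : ℝ, 0 < C ∧ ∀ n : ℕ, 1 ≤ n →
      Integrable (fun η => max (n * p - LL β n η) 0 ^ q) (en d law) ∧
      ∫ η, max (n * p - LL β n η) 0 ^ q ∂(en d law) ≤ C * (n : ℝ) ^ (a * q) := by
  obtain ⟨C1, hC1, h1⟩ := hH q hq
  obtain ⟨C2, hC2, h2⟩ := Q70.Fp.exp_poly q hq (show (0:ℝ) < 1 / 2 by norm_num)
  have hK := K1_pos (law := law) β p
  set K := K1 law β p with hKdef
  refine ⟨1 + (2 * K) ^ q * C1 + C2, by positivity, fun n hn => ?_⟩
  have hn1 : (1:ℝ) ≤ n := by exact_mod_cast hn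
  have hn0 : (0:ℝ) < n := by linarith
  obtain ⟨i1, i2⟩ := int_exp_neg_LL (law := law) h.hd h.down n
  set A : Set (Env d) := {η | LL β n η < n * p - (n:ℝ) ^ a} with hA
  have hAm : MeasurableSet A := measurableSet_lt (measurable_LL β n) measurable_const
  set G : Env d → ℝ := fun η => (n:ℝ) ^ (a * q) + A.indicator (fun _ => (2 * K * (n:ℝ)) ^ q) η
    + C2 * Real.exp (n * p - n * K) * Real.exp (-LL β n η) with hG
  have hle : ∀ η, max (n * p - LL β n η) 0 ^ q ≤ G η := by
    intro η
    have t1 : 0 ≤ (n:ℝ) ^ (a * q) := by positivity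
    have t2 : 0 ≤ A.indicator (fun _ => (2 * K * (n:ℝ)) ^ q) η :=
      Set.indicator_nonneg (fun _ _ => by positivity) η
    have t3 : 0 ≤ C2 * Real.exp (n * p - n * K) * Real.exp (-LL β n η) := by positivity
    by_cases hw : η ∈ A
    · have hT : LL β n η < n * p - (n:ℝ) ^ a := hw
      have hpos : 0 < n * p - LL β n η := by
        have : 0 < (n:ℝ) ^ a := by positivity
        linarith
      rw [max_eq_left hpos.le]
      by_cases h3 : n * p - LL β n η ≤ 2 * K * n
      · have e1 : (n * p - LL β n η) ^ q ≤ (2 * K * (n:ℝ)) ^ q :=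
          Real.rpow_le_rpow hpos.le h3 hq.le
        simp only [hG, Set.indicator_of_mem hw]
        linarith
      · push Not at h3
        have hX1 : 1 ≤ n * p - LL β n η := by nlinarith
        have e2 := h2 (n * p - LL β n η) hX1
        have e3 : (n * p - LL β n η) ^ q ≤ C2 * Real.exp (1 / 2 * (n * p - LL β n η)) := by
          rw [Real.exp_neg, Real.rpow_neg hpos.le, ← div_eq_mul_inv,
            le_div_iff₀ (by positivity), inv_mul_le_iff₀ (Real.exp_pos _)] at e2
          linarith
        have e4 : Real.exp (1 / 2 * (n * p - LL β n η)) ≤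
            Real.exp (n * p - n * K) * Real.exp (-LL β n η) := by
          rw [← Real.exp_add]
          refine Real.exp_le_exp.2 ?_
          nlinarith
        have e5 : C2 * Real.exp (1 / 2 * (n * p - LL β n η)) ≤
            C2 * (Real.exp (n * p - n * K) * Real.exp (-LL β n η)) := by gcongr
        simp only [hG]
        linarith
    · have hT : n * p - LL β n η ≤ (n:ℝ) ^ a := by
        have := not_lt.1 (show ¬ (LL β n η < n * p - (n:ℝ) ^ a) from hw)
        linarith
      have e1 : max (n * p - LL β n η) 0 ^ q ≤ ((n:ℝ) ^ a) ^ q :=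
        Real.rpow_le_rpow (le_max_right _ _) (max_le hT (by positivity)) hq.le
      rw [← Real.rpow_mul hn0.le] at e1
      simp only [hG]
      linarith
  have hGi : Integrable G (en d law) :=
    ((integrable_const _).add ((integrable_const _).indicator hAm)).add (i1.const_mul _)
  have hint : Integrable (fun η => max (n * p - LL β n η) 0 ^ q) (en d law) := by
    refine hGi.mono' ((meas_neg β n _).pow_const q).aestronglyMeasurable
      (Eventually.of_forall fun w => ?_)
    rw [Real.norm_eq_abs, abs_of_nonneg (by positivity)]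
    exact hle w
  refine ⟨hint, (integral_mono hint hGi hle).trans ?_⟩
  have e1 : ∫ η, G η ∂(en d law) = (n:ℝ) ^ (a * q) + (en d law).real A * (2 * K * (n:ℝ)) ^ q +
      C2 * Real.exp (n * p - n * K) * ∫ η, Real.exp (-LL β n η) ∂(en d law) := by
    simp only [hG]
    rw [integral_add, integral_add, integral_const_mul, integral_indicator_const _ hAm]
    · simp
    · exact integrable_const _
    · exact (integrable_const _).indicator hAm
    · exact (integrable_const _).add ((integrable_const _).indicator hAm)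
    · exact i1.const_mul _
  rw [e1]
  have e2 := h1 n hn
  have e3 : (en d law).real A * (2 * K * (n:ℝ)) ^ q ≤ (2 * K) ^ q * C1 := by
    have e4 : (2 * K * (n:ℝ)) ^ q = (2 * K) ^ q * (n:ℝ) ^ q := Real.mul_rpow (by positivity) hn0.le
    have e5 : (n:ℝ) ^ (-q) * (n:ℝ) ^ q = 1 := by rw [← Real.rpow_add hn0]; simp
    calc (en d law).real A * (2 * K * (n:ℝ)) ^ q ≤ (C1 * (n:ℝ) ^ (-q)) * (2 * K * (n:ℝ)) ^ q := by gcongr
      _ = (2 * K) ^ q * C1 * ((n:ℝ) ^ (-q) * (n:ℝ) ^ q) := by rw [e4]; ring
      _ = _ := by rw [e5, mul_one]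
  have e6 : C2 * Real.exp (n * p - n * K) * ∫ η, Real.exp (-LL β n η) ∂(en d law) ≤ C2 := by
    have e7 : MG law (-β) ^ n = Real.exp (n * Real.log (MG law (-β))) := by
      rw [Real.exp_nat_mul, Real.exp_log (MG_pos h.down)]
    rw [e7] at i2
    have e8 : Real.exp (n * p - n * K) * ∫ η, Real.exp (-LL β n η) ∂(en d law) ≤ 1 := by
      calc _ ≤ Real.exp (n * p - n * K) * Real.exp (n * Real.log (MG law (-β))) := by gcongr
        _ = Real.exp (n * (p + Real.log (MG law (-β)) - K)) := by rw [← Real.exp_add]; congr 1; ring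
        _ ≤ Real.exp 0 := by
          refine Real.exp_le_exp.2 ?_
          have : p + Real.log (MG law (-β)) - K ≤ 0 := by
            rw [hKdef]; unfold K1
            linarith [le_abs_self (p + Real.log (MG law (-β)))]
          nlinarith
        _ = 1 := Real.exp_zero
    rw [mul_assoc]
    nlinarith
  have e11 : 1 ≤ (n:ℝ) ^ (a * q) := Real.one_le_rpow hn1 (by positivity)
  have e12 : 0 < (2 * K) ^ q * C1 := by positivity
  nlinarith

/-- the first absolute moment -/
lemma abs_moment {β : ℝ} (h : Hyp d law β) {p a : ℝ} (ha : 0 < a) (hH : HH d law β p a)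
    (hF : ∀ n : ℕ, ∫ η, LL β n η ∂(en d law) ≤ n * p) :
    ∃ C : ℝ, 0 < C ∧ ∀ n : ℕ, 1 ≤ n →
      ∫ η, |LL β n η - n * p| ∂(en d law) ≤ C * (n : ℝ) ^ a := by
  obtain ⟨C, hC, h1⟩ := neg_moment h ha hH one_pos
  refine ⟨2 * C, by positivity, fun n hn => ?_⟩
  obtain ⟨i1, i2⟩ := h1 n hn
  simp only [Real.rpow_one, mul_one] at i1 i2
  have e1 : ∀ η : Env d, |LL β n η - n * p| = 2 * max (n * p - LL β n η) 0 + (LL β n η - n * p) := by
    intro η
    rcases le_total (LL β n η - n * p) 0 with hc | hc
    · rw [abs_of_nonpos hc, max_eq_left (by linarith)]; ring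
    · rw [abs_of_nonneg hc, max_eq_right (by linarith)]; ring
  simp only [e1]
  have e3 : Integrable (fun η => LL β n η - n * p) (en d law) :=
    (integrable_LL h n).sub (integrable_const _)
  rw [integral_add (i1.const_mul 2) e3, integral_const_mul,
    integral_sub (integrable_LL h n) (integrable_const _)]
  have e2 := hF n
  simp only [integral_const, probReal_univ, smul_eq_mul, one_mul]
  nlinarith

lemma sft_sft (T m : ℕ) (x y : Fin d → ℤ) (η : Env d) :
    sft m y (sft T x η) = sft (T + m) (x + y) η := by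
  funext s
  simp only [sft, add_assoc]

/-- the weight of an endpoint -/
noncomputable def VV (β : ℝ) (T : ℕ) (x : Fin d → ℤ) (η : Env d) : ℝ :=
  ∑ w ∈ (Finset.univ : Finset (Fin T → Step d)).filter (fun w => pos w T = x), PP β η w

lemma VV_nonneg (hd : 1 ≤ d) (β : ℝ) (T : ℕ) (x : Fin d → ℤ) (η : Env d) : 0 ≤ VV β T x η :=
  Finset.sum_nonneg fun w _ => PP_nonneg hd β η w

lemma VV_sum (hd : 1 ≤ d) (β : ℝ) (T : ℕ) (η : Env d) : ∑ x ∈ bx d T, VV β T x η = 1 := by
  unfold VV
  rw [Finset.sum_fiberwise_of_maps_to (fun w _ => mem_bx.2 (abs_pos_le' w)), PP_sum hd]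

lemma measurable_VV (β : ℝ) (T : ℕ) (x : Fin d → ℤ) : Measurable (VV β T x : Env d → ℝ) :=
  Finset.measurable_fun_sum _ fun w _ => measurable_PP β w

/-- the threshold -/
noncomputable def qq (d T : ℕ) : ℝ := ((2 * (T:ℝ) + 1) ^ d)⁻¹

lemma qq_pos (d T : ℕ) : 0 < qq d T := by unfold qq; positivity

lemma exists_VV (hd : 1 ≤ d) (β : ℝ) (T : ℕ) (η : Env d) : ∃ x ∈ bx d T, qq d T ≤ VV β T x η := by
  by_contra hcon
  push Not at hcon
  have hne : (bx d T).Nonempty := ⟨0, mem_bx.2 fun k => by simp⟩
  have h1 := Finset.sum_lt_sum_of_nonempty hne hcon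
  rw [VV_sum hd, Finset.sum_const, nsmul_eq_mul, card_bx] at h1
  unfold qq at h1
  push_cast at h1
  rw [mul_inv_cancel₀ (by positivity)] at h1
  exact lt_irrefl _ h1

/-- the heavy endpoints -/
noncomputable def hv (β : ℝ) (T : ℕ) (x : Fin d → ℤ) (η : Env d) : ℝ :=
  if qq d T ≤ VV β T x η then VV β T x η else 0

/-- normalised weights of the heavy endpoints -/
noncomputable def WW (β : ℝ) (T : ℕ) (x : Fin d → ℤ) (η : Env d) : ℝ :=
  hv β T x η / ∑ y ∈ bx d T, hv β T y η

lemma hv_nonneg (hd : 1 ≤ d) (β : ℝ) (T : ℕ) (x : Fin d → ℤ) (η : Env d) : 0 ≤ hv β T x η := by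
  unfold hv
  split_ifs
  · exact VV_nonneg hd β T x η
  · exact le_rfl

lemma hv_sum_pos (hd : 1 ≤ d) (β : ℝ) (T : ℕ) (η : Env d) : 0 < ∑ y ∈ bx d T, hv β T y η := by
  obtain ⟨x, hx, h1⟩ := exists_VV hd β T η
  refine lt_of_lt_of_le ?_ (Finset.single_le_sum (f := fun y => hv β T y η)
    (fun y _ => hv_nonneg hd β T y η) hx)
  simp only [hv, if_pos h1]
  exact (qq_pos d T).trans_le h1

lemma WW_nonneg (hd : 1 ≤ d) (β : ℝ) (T : ℕ) (x : Fin d → ℤ) (η : Env d) : 0 ≤ WW β T x η :=
  div_nonneg (hv_nonneg hd β T x η) (hv_sum_pos hd β T η).le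

lemma WW_sum (hd : 1 ≤ d) (β : ℝ) (T : ℕ) (η : Env d) : ∑ x ∈ bx d T, WW β T x η = 1 := by
  unfold WW
  rw [← Finset.sum_div]
  exact div_self (hv_sum_pos hd β T η).ne'

lemma measurable_hv (β : ℝ) (T : ℕ) (x : Fin d → ℤ) : Measurable (hv β T x : Env d → ℝ) := by
  unfold hv
  exact Measurable.ite (measurableSet_le measurable_const (measurable_VV β T x))
    (measurable_VV β T x) measurable_const

lemma measurable_WW (β : ℝ) (T : ℕ) (x : Fin d → ℤ) : Measurable (WW β T x : Env d → ℝ) :=
  (measurable_hv β T x).div (Finset.measurable_fun_sum _ fun y _ => measurable_hv β T y)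

lemma WW_dep (β : ℝ) (T : ℕ) (x : Fin d → ℤ) {η η' : Env d} (h : ∀ s ∈ st d 0 T, η s = η' s) :
    WW β T x η = WW β T x η' := by
  have h1 : ∀ y, VV β T y η = VV β T y η' := by
    intro y
    unfold VV
    exact Finset.sum_congr rfl fun w _ => PP_dep β w h
  unfold WW hv
  simp only [h1]

/-- average over the heavy endpoints -/
noncomputable def aw (β : ℝ) (g : Env d → ℝ) (T : ℕ) (η : Env d) : ℝ :=
  ∑ x ∈ bx d T, WW β T x η * g (sft T x η)

lemma aw_dep (β : ℝ) {g : Env d → ℝ} {m : ℕ}
    (hg : ∀ η η', (∀ s ∈ st d 0 m, η s = η' s) → g η = g η') {T : ℕ} {η η' : Env d}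
    (h : ∀ s ∈ st d 0 (T + m), η s = η' s) : aw β g T η = aw β g T η' := by
  refine Finset.sum_congr rfl fun x hx => ?_
  rw [WW_dep β T x fun s hs => h s (st_mono (by omega) hs),
    sft_dep (mem_bx.1 hx) hg fun s hs => h s (st_sub T m hs)]

lemma measurable_aw (β : ℝ) {g : Env d → ℝ} (hg : Measurable g) (T : ℕ) :
    Measurable (aw β g T : Env d → ℝ) :=
  Finset.measurable_fun_sum _ fun x _ => (measurable_WW β T x).mul (hg.comp (measurable_sft _ _))

lemma aw_nonneg (hd : 1 ≤ d) (β : ℝ) {g : Env d → ℝ} (hg : ∀ η, 0 ≤ g η) (T : ℕ) (η : Env d) :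
    0 ≤ aw β g T η :=
  Finset.sum_nonneg fun x _ => mul_nonneg (WW_nonneg hd β T x η) (hg _)

lemma aw_le_one (hd : 1 ≤ d) (β : ℝ) {g : Env d → ℝ} (hg : ∀ η, g η ≤ 1) (T : ℕ) (η : Env d) :
    aw β g T η ≤ 1 := by
  rw [← WW_sum hd β T η]
  refine Finset.sum_le_sum fun x _ => ?_
  have := WW_nonneg hd β T x η
  nlinarith [hg (sft T x η)]

/-- products of the averages over successive blocks -/
lemma chain_prod (hd : 1 ≤ d) (β : ℝ) {m : ℕ} {g : Env d → ℝ} (hgm : Measurable g)
    (hgd : ∀ η η', (∀ e ∈ st d 0 m, η e = η' e) → g η = g η') (hg0 : ∀ η, 0 ≤ g η)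
    (hg1 : ∀ η, g η ≤ 1) (N : ℕ) :
    ∫ η, ∏ k ∈ range N, aw β g (k * m) η ∂(en d law) = (∫ η, g η ∂(en d law)) ^ N := by
  induction N with
  | zero => simp
  | succ N ih =>
    let G : Env d → ℝ := fun η => ∏ k ∈ range N, aw β g (k * m) η
    have hGm : Measurable G := Finset.measurable_fun_prod _ fun k _ => measurable_aw β hgm (k * m)
    have hGC : ∀ η, |G η| ≤ 1 := by
      intro η
      rw [abs_of_nonneg (Finset.prod_nonneg fun k _ => aw_nonneg hd β hg0 _ _)]
      exact Finset.prod_le_one (fun k _ => aw_nonneg hd β hg0 _ _) fun k _ => aw_le_one hd β hg1 _ _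
    have hGd : ∀ η η', (∀ e ∈ st d 0 (N * m), η e = η' e) → G η = G η' := by
      intro η η' h
      refine Finset.prod_congr rfl fun k hk => ?_
      rw [Finset.mem_range] at hk
      refine aw_dep β hgd fun s hs => h s (st_mono ?_ hs)
      calc k * m + m = (k + 1) * m := by ring
        _ ≤ N * m := Nat.mul_le_mul_right _ hk
    have hg1' : ∀ η, |g η| ≤ 1 := fun η => by rw [abs_of_nonneg (hg0 η)]; exact hg1 η
    have e1 : ∫ η, G η * aw β g (N * m) η ∂(en d law) = (∫ η, G η ∂(en d law)) * ∫ η, g η ∂(en d law) :=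
      avg_indep (law := law) (bx d (N * m)) (T := N * m) (m := m)
        (fun x => x) (fun x hx => mem_bx.1 hx) (fun x η => WW β (N * m) x η)
        (fun x => measurable_WW β _ x) (fun x η η' h => WW_dep β _ x h)
        (fun x _ η => WW_nonneg hd β _ x η) (fun η => WW_sum hd β _ η) hGm hGd hGC hgm hgd hg1'
    simp only [Finset.prod_range_succ]
    rw [pow_succ, ← ih]
    exact e1

/-- many attempts -/
lemma attempts {β : ℝ} (h : Hyp d law β) {p : ℝ} {m K : ℕ} (hK : 1 ≤ K) {ρ s g : ℝ}
    (hs : 2 * s + d * Real.log (2 * ((K * m : ℕ):ℝ) + 1) ≤ ρ / 2)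
    (hg : ∀ k ≤ K * m, (en d law).real {η | LL β k η < k * p - s} ≤ g)
    (hlow : (en d law).real {η | ((K * m : ℕ):ℝ) * p + ρ / 2 ≤ LL β (K * m) η} ≤ 1 / 8)
    (hsmall : 2 * K * ((2 * ((K * m : ℕ):ℝ) + 1) ^ d * g) ≤ 1 / 8) :
    (en d law).real {η | m * p + ρ < LL β m η} ≤ 1 / K := by
  set l := K * m with hl
  let gg : Env d → ℝ := {η : Env d | m * p + ρ < LL β m η}ᶜ.indicator (fun _ => (1:ℝ))
  have hSm : MeasurableSet {η : Env d | m * p + ρ < LL β m η} :=
    measurableSet_lt measurable_const (measurable_LL β m)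
  set π : ℝ := (en d law).real {η | m * p + ρ < LL β m η} with hπ
  have hggm : Measurable gg := measurable_const.indicator hSm.compl
  have hgg0 : ∀ η, 0 ≤ gg η := fun η => Set.indicator_nonneg (fun _ _ => zero_le_one) η
  have hgg1 : ∀ η, gg η ≤ 1 := fun η => Set.indicator_le_self' (fun _ _ => zero_le_one) η
  have hggd : ∀ η η', (∀ e ∈ st d 0 m, η e = η' e) → gg η = gg η' := by
    intro η η' hη
    simp only [gg, Set.indicator, Set.mem_compl_iff, Set.mem_setOf_eq, LL_dep0 β hη]
  have hggi : ∫ η, gg η ∂(en d law) = 1 - π := by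
    simp only [gg]
    rw [integral_indicator_const _ hSm.compl, probReal_compl_eq_one_sub hSm]
    simp [hπ]
  have hprod := chain_prod (law := law) h.hd β hggm hggd hgg0 hgg1 K
  rw [hggi] at hprod
  -- good events
  set Bad1 : Set (Env d) := ⋃ k ∈ range K, {η | LL β (k * m) η < ((k * m : ℕ):ℝ) * p - s} with hB1
  set Bad2 : Set (Env d) := ⋃ k ∈ range K, ⋃ y ∈ bx d (k * m + m),
    {η | LL β (l - (k * m + m)) (sft (k * m + m) y η) < ((l - (k * m + m) : ℕ):ℝ) * p - s} with hB2
  have hkm : ∀ k, k < K → k * m + m ≤ l := by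
    intro k hk
    calc k * m + m = (k + 1) * m := by ring
      _ ≤ K * m := Nat.mul_le_mul_right _ hk
  have hg0 : 0 ≤ g := measureReal_nonneg.trans (hg 0 (Nat.zero_le _))
  have hbad1 : (en d law).real Bad1 ≤ K * ((2 * (l:ℝ) + 1) ^ d * g) := by
    refine (measureReal_biUnion_finset_le _ _).trans ?_
    have hone : (1:ℝ) ≤ (2 * (l:ℝ) + 1) ^ d := one_le_pow₀ (by linarith [Nat.cast_nonneg (α := ℝ) l])
    calc _ ≤ ∑ _k ∈ range K, ((2 * (l:ℝ) + 1) ^ d * g) := Finset.sum_le_sum fun k hk => by
          have := hg (k * m) (by have := hkm k (Finset.mem_range.1 hk); omega)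
          nlinarith
      _ = _ := by rw [Finset.sum_const, Finset.card_range, nsmul_eq_mul]
  have hbad2 : (en d law).real Bad2 ≤ K * ((2 * (l:ℝ) + 1) ^ d * g) := by
    refine (measureReal_biUnion_finset_le _ _).trans ?_
    calc _ ≤ ∑ _k ∈ range K, ((2 * (l:ℝ) + 1) ^ d * g) := Finset.sum_le_sum fun k hk =>
          bad_pos (hkm k (Finset.mem_range.1 hk)) (hg _ (Nat.sub_le _ _))
      _ = _ := by rw [Finset.sum_const, Finset.card_range, nsmul_eq_mul]
  set Low : Set (Env d) := {η | (l:ℝ) * p + ρ / 2 ≤ LL β l η} with hLow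
  have hmain : ∀ η, η ∉ Bad1 → η ∉ Bad2 → η ∉ Low → ∏ k ∈ range K, aw β gg (k * m) η = 1 := by
    intro η hb1 hb2 hb3
    refine Finset.prod_eq_one fun k hk => ?_
    have hkK := Finset.mem_range.1 hk
    have e1 : ∀ x ∈ bx d (k * m), WW β (k * m) x η * gg (sft (k * m) x η) = WW β (k * m) x η := by
      intro x hx
      by_cases hq : qq d (k * m) ≤ VV β (k * m) x η
      · have : gg (sft (k * m) x η) = 1 := by
          simp only [gg]
          refine Set.indicator_of_mem ?_ _
          intro hbig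
          simp only [Set.mem_setOf_eq] at hbig
          -- success contradicts the bound on the long partition function
          set r := l - (k * m + m) with hr
          have hlr : l = k * m + (m + r) := by have := hkm k hkK; omega
          have j1 := join h.hd β η (k * m) (m + r) x (qq_pos d (k * m)) hq
          have j2 := jensen h.hd β (sft (k * m) x η) m r
          have j3 : ((r:ℝ) * p - s) ≤ ∑ w : Fin m → Step d, PP β (sft (k * m) x η) w *
              LL β r (sft m (pos w m) (sft (k * m) x η)) := by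
            calc ((r:ℝ) * p - s) = ∑ w : Fin m → Step d, PP β (sft (k * m) x η) w * ((r:ℝ) * p - s) := by
                  rw [← Finset.sum_mul, PP_sum h.hd, one_mul]
              _ ≤ _ := Finset.sum_le_sum fun w _ => by
                  refine mul_le_mul_of_nonneg_left ?_ (PP_nonneg h.hd β _ w)
                  rw [sft_sft]
                  by_contra hcon
                  push Not at hcon
                  refine hb2 (Set.mem_biUnion hk (Set.mem_biUnion (mem_bx.2 fun i => ?_) hcon))
                  have f1 := mem_bx.1 hx i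
                  have f2 := abs_pos_le' w i
                  simp only [Pi.add_apply]
                  refine (abs_add_le _ _).trans ?_
                  push_cast at f1 ⊢
                  linarith
          have j4 : ((k * m : ℕ):ℝ) * p - s ≤ LL β (k * m) η := by
            by_contra hcon
            push Not at hcon
            exact hb1 (Set.mem_biUnion hk hcon)
          have j5 : Real.log (qq d (k * m)) ≥ -(d * Real.log (2 * (l:ℝ) + 1)) := by
            unfold qq
            rw [Real.log_inv, Real.log_pow, ge_iff_le, neg_le_neg_iff]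
            have : ((k * m : ℕ):ℝ) ≤ l := by
              have := hkm k hkK
              exact_mod_cast (by omega : k * m ≤ l)
            have : Real.log (2 * ((k * m : ℕ):ℝ) + 1) ≤ Real.log (2 * (l:ℝ) + 1) :=
              Real.log_le_log (by positivity) (by linarith)
            gcongr
          rw [← hlr] at j1
          have hlcast : (l:ℝ) = ((k * m : ℕ):ℝ) + m + r := by
            rw [hlr]; push_cast; ring
          refine hb3 ?_
          show (l:ℝ) * p + ρ / 2 ≤ LL β l η
          have hs' : 2 * s + d * Real.log (2 * (l:ℝ) + 1) ≤ ρ / 2 := hs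
          rw [hlcast] at hs' j5 ⊢
          linarith
        rw [this, mul_one]
      · have : WW β (k * m) x η = 0 := by
          unfold WW hv
          rw [if_neg hq, zero_div]
        rw [this, zero_mul]
    show ∑ x ∈ bx d (k * m), WW β (k * m) x η * gg (sft (k * m) x η) = 1
    rw [Finset.sum_congr rfl e1, WW_sum h.hd]
  have hpm : Measurable (fun η : Env d => ∏ k ∈ range K, aw β gg (k * m) η) :=
    Finset.measurable_fun_prod _ fun k _ => measurable_aw β hggm (k * m)
  have hp0 : ∀ η, 0 ≤ ∏ k ∈ range K, aw β gg (k * m) η :=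
    fun η => Finset.prod_nonneg fun k _ => aw_nonneg h.hd β hgg0 _ _
  have hp1 : ∀ η, ∏ k ∈ range K, aw β gg (k * m) η ≤ 1 :=
    fun η => Finset.prod_le_one (fun k _ => aw_nonneg h.hd β hgg0 _ _) fun k _ => aw_le_one h.hd β hgg1 _ _
  have hpi : Integrable (fun η : Env d => ∏ k ∈ range K, aw β gg (k * m) η) (en d law) :=
    int_bdd (C := 1) hpm fun η => by rw [abs_of_nonneg (hp0 η)]; exact hp1 η
  -- the product is `1` with probability at least `3 / 4`
  have hge : 3 / 4 ≤ ∫ η, ∏ k ∈ range K, aw β gg (k * m) η ∂(en d law) := by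
    have f1 := mul_meas_ge_le_integral_of_nonneg (μ := en d law) (Eventually.of_forall hp0) hpi 1
    rw [one_mul] at f1
    have f2 : Set.univ ⊆ {η | 1 ≤ ∏ k ∈ range K, aw β gg (k * m) η} ∪ ((Bad1 ∪ Bad2) ∪ Low) := by
      intro η _
      by_cases hb1 : η ∈ Bad1
      · exact Or.inr (Or.inl (Or.inl hb1))
      · by_cases hb2 : η ∈ Bad2
        · exact Or.inr (Or.inl (Or.inr hb2))
        · by_cases hb3 : η ∈ Low
          · exact Or.inr (Or.inr hb3)
          · exact Or.inl (hmain η hb1 hb2 hb3).ge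
    have f3 := measureReal_mono f2 (measure_ne_top (en d law) _)
    rw [probReal_univ] at f3
    have f4 := measureReal_union_le (μ := en d law) {η | 1 ≤ ∏ k ∈ range K, aw β gg (k * m) η}
      ((Bad1 ∪ Bad2) ∪ Low)
    have f5 := measureReal_union_le (μ := en d law) (Bad1 ∪ Bad2) Low
    have f6 := measureReal_union_le (μ := en d law) Bad1 Bad2
    have f7 : (en d law).real Low ≤ 1 / 8 := hlow
    have f8 : 2 * K * ((2 * (l:ℝ) + 1) ^ d * g) ≤ 1 / 8 := hsmall
    linarith
  rw [hprod] at hge
  have hKpos : (0:ℝ) < K := by exact_mod_cast hK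
  have hπ0 : 0 ≤ π := measureReal_nonneg
  have hπ1 : π ≤ 1 := measureReal_le_one
  have e1 : (1 - π) ^ K ≤ Real.exp (-(K * π)) := by
    have : 1 - π ≤ Real.exp (-π) := by linarith [Real.add_one_le_exp (-π)]
    calc (1 - π) ^ K ≤ Real.exp (-π) ^ K := pow_le_pow_left₀ (by linarith) this K
      _ = _ := by rw [← Real.exp_nat_mul]; congr 1; ring
  have e3 : K * π ≤ 1 := by
    by_contra hcon
    push Not at hcon
    have e4 : Real.exp (-(K * π)) < Real.exp (-1) := Real.exp_lt_exp.2 (by linarith)
    have e5 : Real.exp (-1) ≤ 1 / 2 := by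
      rw [Real.exp_neg, inv_le_comm₀ (Real.exp_pos _) (by norm_num)]
      have := Real.add_one_le_exp (1:ℝ)
      linarith
    linarith
  rw [le_div_iff₀ hKpos]; linarith

end Q70.Dp
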