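import Pool.Agent.Q70.DpD

/-!
# Directed polymers: the upper tail and the two-sided moments; transfer to a probability space
-/

set_option autoImplicit false

open MeasureTheory ProbabilityTheory Finset Filter TH967.DP
open scoped Topology

namespace Q70.Dp

variable {d : ℕ} {law : Measure ℝ} [IsProbabilityMeasure law]

lemma log_le_pow {a : ℝ} (ha : 0 < a) (ha1 : a < 1) {l : ℝ} (hl : 1 ≤ l) :
    Real.log (2 * l + 1) ≤ 3 / a * l ^ a := by
  have h1 := Real.log_le_rpow_div (show 0 ≤ 2 * l + 1 by linarith) ha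
  have h2 : (2 * l + 1) ^ a ≤ 3 * l ^ a := by
    calc (2 * l + 1) ^ a ≤ (3 * l) ^ a := Real.rpow_le_rpow (by linarith) (by linarith) ha.le
      _ = 3 ^ a * l ^ a := Real.mul_rpow (by norm_num) (by linarith)
      _ ≤ 3 ^ (1:ℝ) * l ^ a := by
          gcongr
          · norm_num
      _ = 3 * l ^ a := by rw [Real.rpow_one]
  calc Real.log (2 * l + 1) ≤ (2 * l + 1) ^ a / a := h1
    _ ≤ 3 * l ^ a / a := by gcongr
    _ = 3 / a * l ^ a := by ring

/-- the upper tail -/
lemma upper_tail {β : ℝ} (h : Hyp d law β) {p a : ℝ} (ha : 0 < a) (ha1 : a < 1)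
    (hH : HH d law β p a) (hF : ∀ n : ℕ, ∫ η, LL β n η ∂(en d law) ≤ n * p) :
    ∃ C : ℝ, 0 < C ∧ ∀ m : ℕ, 1 ≤ m → ∀ ρ : ℝ, 0 < ρ →
      (en d law).real {η | m * p + ρ < LL β m η} ≤ C * ((m:ℝ) * ρ ^ (-(1 / a))) := by
  obtain ⟨C1, hC1, h1⟩ := abs_moment h ha hH hF
  obtain ⟨C2, hC2, h2⟩ := unif h ha (δ := ((d:ℝ) + 2) / a) (by positivity) (hH _ (by positivity))
  rw [min_eq_left ha1.le, show ((d:ℝ) + 2) / a * a = d + 2 by field_simp] at h2
  set c0 : ℝ := min (1 / (2 * (2 + 3 * d / a))) (1 / (16 * C1)) with hc0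
  have hc0pos : 0 < c0 := lt_min (by positivity) (by positivity)
  have hc1 : c0 ≤ 1 / (2 * (2 + 3 * d / a)) := min_le_left _ _
  have hc2 : c0 ≤ 1 / (16 * C1) := min_le_right _ _
  set L0 : ℝ := 16 * 3 ^ d * C2 with hL0
  have hL0pos : 0 < L0 := by positivity
  set R0 : ℝ := (2 * L0) ^ a / c0 with hR0
  have hR0pos : 0 < R0 := by positivity
  set D : ℝ := max (2 * c0 ^ (-(1 / a))) (R0 ^ (1 / a)) with hD
  have hD0 : 0 < D := lt_max_of_lt_left (by positivity)
  refine ⟨D, hD0, fun m hm ρ hρ => ?_⟩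
  have hm1 : (1:ℝ) ≤ m := by exact_mod_cast hm
  have hm0 : (0:ℝ) < m := by linarith
  have hρp : 0 < ρ ^ (-(1 / a)) := by positivity
  have hP1 : (en d law).real {η | m * p + ρ < LL β m η} ≤ 1 := measureReal_le_one
  set L : ℝ := (c0 * ρ) ^ (1 / a) with hL
  have hLpos : 0 < L := by positivity
  set K : ℕ := ⌊L / m⌋₊ with hK
  have hLρ : L = c0 ^ (1 / a) * ρ ^ (1 / a) := Real.mul_rpow hc0pos.le hρ.le
  have hinv : ρ ^ (-(1 / a)) = (ρ ^ (1 / a))⁻¹ := Real.rpow_neg hρ.le _
  have hc0inv : c0 ^ (-(1 / a)) = (c0 ^ (1 / a))⁻¹ := Real.rpow_neg hc0pos.le _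
  have hLn : 2 * m / L ≤ D * ((m:ℝ) * ρ ^ (-(1 / a))) := by
    have e1 : 2 * m / L = 2 * c0 ^ (-(1 / a)) * ((m:ℝ) * ρ ^ (-(1 / a))) := by
      rw [hLρ, hinv, hc0inv]; field_simp
    rw [e1]
    gcongr
    exact le_max_left _ _
  by_cases hK0 : K = 0
  · have e1 : L / m < 1 := by
      have := Nat.lt_floor_add_one (L / m)
      rw [← hK, hK0] at this
      simpa using this
    have e2 : 1 ≤ 2 * m / L := by
      rw [div_lt_one hm0] at e1
      rw [le_div_iff₀ hLpos]; linarith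
    linarith
  have hK1 : 1 ≤ K := Nat.one_le_iff_ne_zero.2 hK0
  have hKr : (1:ℝ) ≤ K := by exact_mod_cast hK1
  have hKL : (K:ℝ) * m ≤ L := by
    have := Nat.floor_le (show 0 ≤ L / m by positivity)
    rw [← hK, le_div_iff₀ hm0] at this
    exact this
  have hKL3 : L < (K + 1) * m := by
    have := Nat.lt_floor_add_one (L / m)
    rwa [← hK, div_lt_iff₀ hm0] at this
  have hKL2 : 1 / (K:ℝ) ≤ 2 * m / L := by
    rw [div_le_div_iff₀ (by positivity) hLpos]
    nlinarith
  set l : ℕ := K * m with hl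
  have hlr : (l:ℝ) = K * m := by rw [hl]; push_cast; ring
  have hlr1 : (1:ℝ) ≤ l := by rw [hlr]; nlinarith
  have hl1 : 1 ≤ l := by exact_mod_cast hlr1
  have hlpos : (0:ℝ) < l := by linarith
  have hla : (l:ℝ) ^ a ≤ c0 * ρ := by
    calc (l:ℝ) ^ a ≤ L ^ a := Real.rpow_le_rpow (by positivity) (by rw [hlr]; exact hKL) ha.le
      _ = c0 * ρ := by
        rw [hL, ← Real.rpow_mul (by positivity), one_div_mul_cancel ha.ne', Real.rpow_one]
  by_cases hsmall : (l:ℝ) < L0
  · have e1 : L < 2 * L0 := by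
      have : ((K:ℝ) + 1) * m ≤ 2 * l := by rw [hlr]; nlinarith
      linarith
    have e2 : ρ ≤ R0 := by
      have f1 : L ^ a = c0 * ρ := by
        rw [hL, ← Real.rpow_mul (by positivity), one_div_mul_cancel ha.ne', Real.rpow_one]
      have f2 : L ^ a ≤ (2 * L0) ^ a := Real.rpow_le_rpow hLpos.le e1.le ha.le
      rw [hR0, le_div_iff₀ hc0pos]
      linarith
    have e3 : 1 ≤ R0 ^ (1 / a) * ρ ^ (-(1 / a)) := by
      rw [hinv, ← div_eq_mul_inv, one_le_div (by positivity)]
      exact Real.rpow_le_rpow hρ.le e2 (by positivity)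
    have e4 : R0 ^ (1 / a) ≤ D := le_max_right _ _
    have e5 : R0 ^ (1 / a) * ρ ^ (-(1 / a)) ≤ D * ((m:ℝ) * ρ ^ (-(1 / a))) := by
      have : ρ ^ (-(1 / a)) ≤ (m:ℝ) * ρ ^ (-(1 / a)) := by nlinarith
      gcongr
    linarith
  push Not at hsmall
  have hla0 : 0 < (l:ℝ) ^ a := by positivity
  have hatt := attempts h (p := p) (m := m) hK1 (ρ := ρ) (s := (l:ℝ) ^ a)
    (g := C2 * (l:ℝ) ^ (-((d:ℝ) + 2))) ?_ (fun k hk => h2 l hl1 k hk) ?_ ?_
  · linarith
  · have e1 := log_le_pow ha ha1 hlr1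
    have e2 : (d:ℝ) * Real.log (2 * (l:ℝ) + 1) ≤ d * (3 / a * (l:ℝ) ^ a) := by gcongr
    have e3 : 2 * (l:ℝ) ^ a + d * (3 / a * (l:ℝ) ^ a) = (2 + 3 * d / a) * (l:ℝ) ^ a := by ring
    have e4 : (2 + 3 * d / a) * (l:ℝ) ^ a ≤ ρ / 2 := by
      calc (2 + 3 * d / a) * (l:ℝ) ^ a ≤ (2 + 3 * d / a) * (c0 * ρ) := by gcongr
        _ ≤ (2 + 3 * d / a) * (1 / (2 * (2 + 3 * d / a)) * ρ) := by gcongr
        _ = ρ / 2 := by field_simp
    show 2 * (l:ℝ) ^ a + d * Real.log (2 * (l:ℝ) + 1) ≤ ρ / 2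
    linarith
  · have e1 := h1 l hl1
    have e2 := mul_meas_ge_le_integral_of_nonneg (μ := en d law)
      (f := fun η => |LL β l η - l * p|)
      (Eventually.of_forall fun w => abs_nonneg _)
      (((integrable_LL h l).sub (integrable_const _)).abs) (ρ / 2)
    have e3 : (en d law).real {η | (l:ℝ) * p + ρ / 2 ≤ LL β l η} ≤ (en d law).real {η | ρ / 2 ≤
        |LL β l η - l * p|} := by
      refine measureReal_mono ?_ (measure_ne_top _ _)
      intro w hw
      simp only [Set.mem_setOf_eq] at hw ⊢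
      rw [le_abs]
      left
      linarith
    have e4 : C1 * (l:ℝ) ^ a ≤ ρ / 16 := by
      calc C1 * (l:ℝ) ^ a ≤ C1 * (c0 * ρ) := by gcongr
        _ ≤ C1 * (1 / (16 * C1) * ρ) := by gcongr
        _ = ρ / 16 := by field_simp
    have e5 : ρ / 2 * (en d law).real {η | (l:ℝ) * p + ρ / 2 ≤ LL β l η} ≤ ρ / 16 :=
      (mul_le_mul_of_nonneg_left e3 (by positivity)).trans (e2.trans (e1.trans e4))
    show (en d law).real {η | (l:ℝ) * p + ρ / 2 ≤ LL β l η} ≤ 1 / 8
    by_contra hcon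
    push Not at hcon
    nlinarith
  · show 2 * K * ((2 * (l:ℝ) + 1) ^ d * (C2 * (l:ℝ) ^ (-((d:ℝ) + 2)))) ≤ 1 / 8
    have e1 : (K:ℝ) ≤ l := by rw [hlr]; nlinarith
    have e2 : (l:ℝ) * ((l:ℝ) ^ d * (l:ℝ) ^ (-((d:ℝ) + 2))) = 1 / l := by
      rw [← Real.rpow_natCast (l:ℝ) d, ← Real.rpow_add hlpos, ← Real.rpow_one_add' hlpos.le (by
        intro h0
        linarith), one_div, ← Real.rpow_neg_one]
      congr 1; ring
    have e3 : 2 * (K:ℝ) * ((2 * (l:ℝ) + 1) ^ d * (C2 * (l:ℝ) ^ (-((d:ℝ) + 2)))) ≤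
        2 * (l:ℝ) * ((3 * (l:ℝ)) ^ d * (C2 * (l:ℝ) ^ (-((d:ℝ) + 2)))) := by
      have : 2 * (l:ℝ) + 1 ≤ 3 * l := by linarith
      gcongr
    have e4 : 2 * (l:ℝ) * ((3 * (l:ℝ)) ^ d * (C2 * (l:ℝ) ^ (-((d:ℝ) + 2)))) =
        2 * 3 ^ d * C2 * ((l:ℝ) * ((l:ℝ) ^ d * (l:ℝ) ^ (-((d:ℝ) + 2)))) := by
      rw [mul_pow]; ring
    rw [e4, e2] at e3
    refine e3.trans ?_
    rw [mul_one_div, div_le_iff₀ hlpos]
    linarith

/-- moments of the positive part -/
lemma pos_moment {β : ℝ} (h : Hyp d law β) {p a : ℝ} (ha : 0 < a) (ha1 : a < 1)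
    (hH : HH d law β p a) (hF : ∀ n : ℕ, ∫ η, LL β n η ∂(en d law) ≤ n * p) {q : ℝ} (hq : 0 < q)
    (hqa : q * a < 1) :
    ∃ C : ℝ, 0 < C ∧ ∀ n : ℕ, 1 ≤ n →
      Integrable (fun η => max (LL β n η - n * p) 0 ^ q) (en d law) ∧
      ∫ η, max (LL β n η - n * p) 0 ^ q ∂(en d law) ≤ C * (n : ℝ) ^ (a * q) := by
  obtain ⟨C1, hC1, h1⟩ := upper_tail h ha ha1 hH hF
  obtain ⟨C2, hC2, h2⟩ := Q70.Fp.exp_poly q hq (show (0:ℝ) < 1 / 2 by norm_num)
  set r : ℝ := 2 ^ (q - 1 / a) with hr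
  have hexp : q - 1 / a < 0 := by
    rw [sub_neg, lt_div_iff₀ ha]; exact hqa
  have hr0 : 0 < r := by positivity
  have hr1 : r < 1 := Real.rpow_lt_one_of_one_lt_of_neg one_lt_two hexp
  set K2 : ℝ := |Real.log (MG law β) - p| + 1 with hK2
  have hK2' : 1 ≤ K2 := by rw [hK2]; linarith [abs_nonneg (Real.log (MG law β) - p)]
  set Kc : ℕ := ⌈2 * K2⌉₊ with hKc
  have hKc1 : 2 * K2 ≤ Kc := Nat.le_ceil _
  refine ⟨1 + 2 ^ q * C1 * (1 - r)⁻¹ + C2, by
    have : 0 < (1 - r)⁻¹ := inv_pos.2 (by linarith)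
    positivity, fun n hn => ?_⟩
  have hn1 : (1:ℝ) ≤ n := by exact_mod_cast hn
  have hn0 : (0:ℝ) < n := by linarith
  set s : ℝ := (n:ℝ) ^ a with hs
  have hs1 : 1 ≤ s := Real.one_le_rpow hn1 ha.le
  have hs0 : 0 < s := by linarith
  let X : Env d → ℝ := fun η => max (LL β n η - n * p) 0
  have hXm : Measurable X := ((measurable_LL β n).sub_const _).max measurable_const
  have hX0 : ∀ w, 0 ≤ X w := fun w => le_max_right _ _
  let A : ℕ → Set (Env d) := fun k => {η | n * p + 2 ^ k * s < LL β n η}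
  have hAm : ∀ k, MeasurableSet (A k) := fun k => measurableSet_lt measurable_const (measurable_LL β n)
  set M : ℕ := Kc * n with hM
  have hMr : (M:ℝ) = Kc * n := by rw [hM]; push_cast; ring
  have i1 := int_exp_LL (law := law) h.hd h.up n
  set G : Env d → ℝ := fun w => s ^ q + ∑ k ∈ range (M + 1),
    (A k).indicator (fun _ => (2 ^ (k + 1) * s) ^ q) w
    + C2 * Real.exp (-(n * p) - n * K2) * Real.exp (LL β n w) with hG
  have hle : ∀ w, X w ^ q ≤ G w := by
    intro w
    have t1 : 0 ≤ s ^ q := by positivity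
    have t2 : ∀ k, 0 ≤ (A k).indicator (fun _ => (2 ^ (k + 1) * s) ^ q) w :=
      fun k => Set.indicator_nonneg (fun _ _ => by positivity) w
    have t3 := Finset.sum_nonneg fun k (_ : k ∈ range (M + 1)) => t2 k
    have t4 : 0 ≤ C2 * Real.exp (-(n * p) - n * K2) * Real.exp (LL β n w) := by positivity
    by_cases hc : X w ≤ s
    · have : X w ^ q ≤ s ^ q := Real.rpow_le_rpow (hX0 w) hc hq.le
      simp only [hG]
      linarith
    · push Not at hc
      have hXeq : X w = LL β n w - n * p := by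
        refine max_eq_left ?_
        by_contra hcon
        push Not at hcon
        have : X w = 0 := max_eq_right hcon.le
        linarith
      by_cases hbig : X w ≤ M
      · have hex : ∃ k : ℕ, X w ≤ 2 ^ (k + 1) * s := by
          refine ⟨M, hbig.trans ?_⟩
          have e2 : (M:ℝ) ≤ 2 ^ (M + 1) := by
            have : M < 2 ^ (M + 1) := (Nat.lt_pow_self one_lt_two).trans (Nat.pow_lt_pow_right one_lt_two (Nat.lt_succ_self M))
            exact_mod_cast this.le
          nlinarith [show (0:ℝ) < 2 ^ (M + 1) by positivity]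
        classical
        set k := Nat.find hex with hk
        have hk1 : X w ≤ 2 ^ (k + 1) * s := Nat.find_spec hex
        have hk2 : 2 ^ k * s < X w := by
          rcases Nat.eq_zero_or_pos k with h0 | h0
          · rw [h0, pow_zero, one_mul]; exact hc
          · have := Nat.find_min hex (show k - 1 < Nat.find hex by omega)
            rw [not_le, show k - 1 + 1 = k by omega] at this
            exact this
        have hkM : k ≤ M := by
          by_contra hcon
          push Not at hcon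
          have e1 : (2:ℝ) ^ M ≤ 2 ^ k := pow_le_pow_right₀ (by norm_num) hcon.le
          have e2 : (M:ℝ) < 2 ^ M := by exact_mod_cast Nat.lt_pow_self one_lt_two
          nlinarith [show (0:ℝ) < 2 ^ k by positivity]
        have hwA : w ∈ A k := by
          show n * p + 2 ^ k * s < LL β n w
          linarith
        have e1 : X w ^ q ≤ (2 ^ (k + 1) * s) ^ q := Real.rpow_le_rpow (hX0 w) hk1 hq.le
        have e2 : (A k).indicator (fun _ => (2 ^ (k + 1) * s) ^ q) w ≤ ∑ k ∈ range (M + 1),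
            (A k).indicator (fun _ => (2 ^ (k + 1) * s) ^ q) w :=
          Finset.single_le_sum (f := fun k => (A k).indicator (fun _ => (2 ^ (k + 1) * s) ^ q) w)
            (fun k _ => t2 k) (Finset.mem_range.2 (by omega))
        rw [Set.indicator_of_mem hwA] at e2
        simp only [hG]
        linarith
      · push Not at hbig
        have hX1 : 1 ≤ X w := by linarith
        have e2 := h2 (X w) hX1
        have e3 : X w ^ q ≤ C2 * Real.exp (1 / 2 * X w) := by
          rw [Real.exp_neg, Real.rpow_neg (hX0 w), ← div_eq_mul_inv,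
            le_div_iff₀ (by positivity), inv_mul_le_iff₀ (Real.exp_pos _)] at e2
          linarith
        have e4 : Real.exp (1 / 2 * X w) ≤ Real.exp (-(n * p) - n * K2) * Real.exp (LL β n w) := by
          rw [← Real.exp_add]
          refine Real.exp_le_exp.2 ?_
          have e5 : 2 * K2 * n ≤ M := by rw [hMr]; gcongr
          rw [hXeq] at hbig ⊢
          linarith
        have e5 : C2 * Real.exp (1 / 2 * X w) ≤
            C2 * (Real.exp (-(n * p) - n * K2) * Real.exp (LL β n w)) := by gcongr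
        simp only [hG]
        linarith
  have hGi : Integrable G (en d law) :=
    ((integrable_const _).add (integrable_finset_sum _ fun k _ =>
      (integrable_const _).indicator (hAm k))).add (i1.const_mul _)
  have hint : Integrable (fun w => X w ^ q) (en d law) := by
    refine hGi.mono' (hXm.pow_const q).aestronglyMeasurable (Eventually.of_forall fun w => ?_)
    rw [Real.norm_eq_abs, abs_of_nonneg (Real.rpow_nonneg (hX0 w) q)]
    exact hle w
  refine ⟨hint, (integral_mono hint hGi hle).trans ?_⟩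
  have e1 : ∫ w, G w ∂(en d law) = s ^ q + ∑ k ∈ range (M + 1), (en d law).real (A k) * (2 ^ (k + 1) * s) ^ q
      + C2 * Real.exp (-(n * p) - n * K2) * MG law β ^ n := by
    have j2 : Integrable (fun w : Env d => ∑ k ∈ range (M + 1),
        (A k).indicator (fun _ => (2 ^ (k + 1) * s) ^ q) w) (en d law) :=
      integrable_finset_sum _ fun k _ => (integrable_const _).indicator (hAm k)
    have j1 : Integrable (fun w : Env d => s ^ q + ∑ k ∈ range (M + 1),
        (A k).indicator (fun _ => (2 ^ (k + 1) * s) ^ q) w) (en d law) := (integrable_const _).add j2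
    simp only [hG]
    rw [integral_add j1 (i1.const_mul _), integral_add (integrable_const _) j2,
      integral_finset_sum _ fun k _ => (integrable_const _).indicator (hAm k), integral_const_mul,
      mean_exp_LL h.hd h.up]
    simp only [integral_indicator_const _ (hAm _), integral_const, probReal_univ, smul_eq_mul, one_mul]
  have esp : s ^ q = (n:ℝ) ^ (a * q) := by rw [hs, ← Real.rpow_mul hn0.le]
  rw [e1]
  have e2 : ∀ k ∈ range (M + 1), (en d law).real (A k) * (2 ^ (k + 1) * s) ^ q ≤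
      (2 ^ q * C1 * s ^ q) * r ^ k := by
    intro k _
    have f1 := h1 n hn (2 ^ k * s) (by positivity)
    have f2 : (2 ^ (k + 1) * s) ^ q = 2 ^ q * ((2 ^ k : ℝ) ^ q * s ^ q) := by
      rw [pow_succ, mul_comm ((2:ℝ) ^ k) 2, mul_assoc, Real.mul_rpow (by norm_num) (by positivity),
        Real.mul_rpow (by positivity) hs0.le]
    have f3 : (2 ^ k * s) ^ (-(1 / a)) = (2 ^ k : ℝ) ^ (-(1 / a)) * s ^ (-(1 / a)) :=
      Real.mul_rpow (by positivity) hs0.le
    have f4 : (n:ℝ) * s ^ (-(1 / a)) = 1 := by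
      rw [hs, ← Real.rpow_mul hn0.le, show a * -(1 / a) = -1 by field_simp, Real.rpow_neg_one,
        mul_inv_cancel₀ hn0.ne']
    have f5 : (2 ^ k : ℝ) ^ q * (2 ^ k : ℝ) ^ (-(1 / a)) = r ^ k := by
      rw [← Real.rpow_add (by positivity), hr, ← Real.rpow_natCast (2:ℝ) k, ← Real.rpow_mul (by norm_num),
        ← Real.rpow_natCast ((2:ℝ) ^ (q - 1 / a)) k, ← Real.rpow_mul (by norm_num)]
      congr 1; ring
    calc (en d law).real (A k) * (2 ^ (k + 1) * s) ^ q
        ≤ (C1 * ((n:ℝ) * (2 ^ k * s) ^ (-(1 / a)))) * (2 ^ (k + 1) * s) ^ q :=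
          mul_le_mul_of_nonneg_right f1 (by positivity)
      _ = 2 ^ q * C1 * s ^ q * ((n:ℝ) * s ^ (-(1 / a))) * ((2 ^ k : ℝ) ^ q * (2 ^ k : ℝ) ^ (-(1 / a))) := by
          rw [f2, f3]; ring
      _ = _ := by rw [f4, f5, mul_one]
  have e3 : ∑ k ∈ range (M + 1), r ^ k ≤ (1 - r)⁻¹ := by
    have := geom_sum_eq (ne_of_lt hr1) (M + 1)
    rw [this, ← neg_div_neg_eq, neg_sub, neg_sub, div_eq_mul_inv]
    have e4 : 0 < (1 - r)⁻¹ := inv_pos.2 (by linarith)
    have e5 : 0 ≤ r ^ (M + 1) := by positivity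
    nlinarith
  have e6 : Real.exp (-(n * p) - n * K2) * MG law β ^ n ≤ 1 := by
    have e7 : MG law β ^ n = Real.exp (n * Real.log (MG law β)) := by
      rw [Real.exp_nat_mul, Real.exp_log (MG_pos h.up)]
    rw [e7, ← Real.exp_add]
    calc _ ≤ Real.exp 0 := by
          refine Real.exp_le_exp.2 ?_
          have : Real.log (MG law β) - p - K2 ≤ 0 := by
            rw [hK2]; linarith [le_abs_self (Real.log (MG law β) - p)]
          nlinarith
      _ = 1 := Real.exp_zero
  have e7 : C2 * Real.exp (-(n * p) - n * K2) * MG law β ^ n ≤ C2 * s ^ q := by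
    have : 1 ≤ s ^ q := by rw [esp]; exact Real.one_le_rpow hn1 (by positivity)
    rw [mul_assoc]
    nlinarith
  calc _ ≤ s ^ q + ∑ k ∈ range (M + 1), (2 ^ q * C1 * s ^ q) * r ^ k + C2 * s ^ q :=
        add_le_add (add_le_add le_rfl (Finset.sum_le_sum e2)) e7
    _ = s ^ q + (2 ^ q * C1 * s ^ q) * ∑ k ∈ range (M + 1), r ^ k + C2 * s ^ q := by rw [Finset.mul_sum]
    _ ≤ s ^ q + (2 ^ q * C1 * s ^ q) * (1 - r)⁻¹ + C2 * s ^ q := by gcongr
    _ = _ := by rw [esp]; ring

/-- two-sided moments -/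
lemma two_moment {β : ℝ} (h : Hyp d law β) {p a : ℝ} (ha : 0 < a) (ha1 : a < 1)
    (hH : HH d law β p a) (hF : ∀ n : ℕ, ∫ η, LL β n η ∂(en d law) ≤ n * p) {q : ℝ} (hq : 0 < q)
    (hqa : q * a < 1) :
    ∃ C : ℝ, 0 < C ∧ ∀ n : ℕ, 1 ≤ n →
      Integrable (fun η => |LL β n η - n * p| ^ q) (en d law) ∧
      ∫ η, |LL β n η - n * p| ^ q ∂(en d law) ≤ C * (n : ℝ) ^ (a * q) := by
  obtain ⟨C1, hC1, h1⟩ := neg_moment h ha hH hq
  obtain ⟨C2, hC2, h2⟩ := pos_moment h ha ha1 hH hF hq hqa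
  refine ⟨C1 + C2, by positivity, fun n hn => ?_⟩
  obtain ⟨i1, j1⟩ := h1 n hn
  obtain ⟨i2, j2⟩ := h2 n hn
  have e1 : ∀ η : Env d, |LL β n η - n * p| ^ q = max (n * p - LL β n η) 0 ^ q +
      max (LL β n η - n * p) 0 ^ q := by
    intro η
    rcases le_total (LL β n η - n * p) 0 with hc | hc
    · rw [abs_of_nonpos hc, max_eq_right hc, max_eq_left (by linarith), Real.zero_rpow hq.ne', add_zero,
        neg_sub]
    · rw [abs_of_nonneg hc, max_eq_left hc, max_eq_right (by linarith : n * p - LL β n η ≤ 0),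
        Real.zero_rpow hq.ne', zero_add]
  simp only [e1]
  refine ⟨i1.add i2, ?_⟩
  rw [integral_add i1 i2, add_mul]
  linarith

/-- Markov: one moment gives polynomial tails -/
lemma tl_of_moment {β p b q : ℝ} (hq : 0 < q)
    (hM : ∀ ζ : ℝ, 0 < ζ → ∃ C : ℝ, ∀ n : ℕ, 1 ≤ n →
      Integrable (fun η => max (n * p - LL β n η) 0 ^ q) (en d law) ∧
      ∫ η, max (n * p - LL β n η) 0 ^ q ∂(en d law) ≤ C * (n : ℝ) ^ (b * q + ζ)) :
    ∀ ζ : ℝ, 0 < ζ → ∃ δ : ℝ, 0 < δ ∧ Tl d law β p (b + ζ) δ := by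
  intro ζ hζ
  obtain ⟨C, hC⟩ := hM (ζ * q / 2) (by positivity)
  refine ⟨ζ * q / 2, by positivity, max C 1, lt_max_of_lt_right one_pos, fun n hn => ?_⟩
  obtain ⟨i1, j1⟩ := hC n hn
  have hn1 : (1:ℝ) ≤ n := by exact_mod_cast hn
  have hn0 : (0:ℝ) < n := by linarith
  set s : ℝ := (n:ℝ) ^ (b + ζ) with hs
  have hs0 : 0 < s := by positivity
  have e1 := mul_meas_ge_le_integral_of_nonneg (μ := en d law)
    (f := fun η => max (n * p - LL β n η) 0 ^ q)
    (Eventually.of_forall fun w => by positivity) i1 (s ^ q)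
  have e2 : (en d law).real {η | LL β n η < n * p - s} ≤
      (en d law).real {η | s ^ q ≤ max (n * p - LL β n η) 0 ^ q} := by
    refine measureReal_mono ?_ (measure_ne_top _ _)
    intro w hw
    simp only [Set.mem_setOf_eq] at hw ⊢
    exact Real.rpow_le_rpow hs0.le (le_max_of_le_left (by linarith)) hq.le
  have e3 : s ^ q * (en d law).real {η | LL β n η < n * p - s} ≤ max C 1 * (n:ℝ) ^ (b * q + ζ * q / 2) := by
    refine (mul_le_mul_of_nonneg_left e2 (by positivity)).trans (e1.trans (j1.trans ?_))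
    gcongr
    exact le_max_left _ _
  have e4 : s ^ q = (n:ℝ) ^ (b * q + ζ * q) := by
    rw [hs, ← Real.rpow_mul hn0.le]; congr 1; ring
  have e5 : (n:ℝ) ^ (b * q + ζ * q / 2) = s ^ q * (n:ℝ) ^ (-(ζ * q / 2)) := by
    rw [e4, ← Real.rpow_add hn0]; congr 1; ring
  rw [e5] at e3
  have hsp : 0 < s ^ q := by positivity
  refine le_of_mul_le_mul_left ?_ hsp
  linarith

lemma memLp_LL {β : ℝ} (h : Hyp d law β) (n : ℕ) : MemLp (fun η : Env d => LL β n η) 2 (en d law) := by
  have i1 := int_exp_LL (law := law) h.hd h.up n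
  have i2 := (int_exp_neg_LL (law := law) h.hd h.down n).1
  rw [memLp_two_iff_integrable_sq (measurable_LL β n).aestronglyMeasurable]
  refine ((i1.add i2).const_mul 2).mono' ((measurable_LL β n).pow_const 2).aestronglyMeasurable
    (Eventually.of_forall fun η => ?_)
  simp only [Pi.add_apply]
  rw [Real.norm_eq_abs, abs_of_nonneg (sq_nonneg _)]
  rcases le_total 0 (LL β n η) with hc | hc
  · have := Real.quadratic_le_exp_of_nonneg hc
    nlinarith [Real.exp_pos (-LL β n η)]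
  · have := Real.quadratic_le_exp_of_nonneg (show 0 ≤ -LL β n η by linarith)
    nlinarith [Real.exp_pos (LL β n η)]

/-! ## transfer -/

variable {Ω : Type} [MeasurableSpace Ω] {P : Measure Ω} {ω : ℕ → (Fin d → ℤ) → Ω → ℝ}

/-- i.i.d. environments with law `law` -/
structure IsE (P : Measure Ω) (ω : ℕ → (Fin d → ℤ) → Ω → ℝ) (law : Measure ℝ) : Prop where
  meas : ∀ i y, Measurable (ω i y)
  ind : iIndepFun (fun s : ℕ × (Fin d → ℤ) => ω s.1 s.2) P
  law_eq : ∀ i y, P.map (ω i y) = law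

lemma IsE.map (h : IsE P ω law) : P.map (fun x (s : Site d) => ω s.1 s.2 x) = en d law := by
  have h1 := h.ind.map_fun_eq_infinitePi_map (fun s : Site d => h.meas s.1 s.2)
  refine h1.trans ?_
  unfold en
  congr 1
  funext s
  exact h.law_eq s.1 s.2

lemma IsE.measPhi (h : IsE P ω law) : Measurable (fun x (s : Site d) => ω s.1 s.2 x) :=
  measurable_pi_iff.2 fun s => h.meas s.1 s.2

lemma IsE.real (h : IsE P ω law) (β : ℝ) (n : ℕ) {S : Set ℝ} (hS : MeasurableSet S) :
    P.real {x | Real.log (partitionFn β (fun i y => ω i y x) n) ∈ S} =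
      (en d law).real {η | LL β n η ∈ S} := by
  have hm : MeasurableSet {η : Env d | LL β n η ∈ S} := (measurable_LL β n) hS
  rw [← h.map, map_measureReal_apply h.measPhi hm]
  rfl

lemma IsE.int (h : IsE P ω law) (β : ℝ) (n : ℕ) {g : ℝ → ℝ} (hg : Measurable g) :
    ∫ x, g (Real.log (partitionFn β (fun i y => ω i y x) n)) ∂P = ∫ η, g (LL β n η) ∂(en d law) := by
  have hm2 : Measurable (fun η : Env d => g (LL β n η)) := hg.comp (measurable_LL β n)
  rw [← h.map, integral_map h.measPhi.aemeasurable hm2.aestronglyMeasurable]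
  rfl

lemma IsE.var (h : IsE P ω law) (β : ℝ) (n : ℕ) :
    variance (fun x => Real.log (partitionFn β (fun i y => ω i y x) n)) P =
      variance (fun η => LL β n η) (en d law) := by
  have hm : AEMeasurable (fun x => Real.log (partitionFn β (fun i y => ω i y x) n)) P :=
    ((measurable_LL β n).comp h.measPhi).aemeasurable
  rw [variance_eq_integral hm, variance_eq_integral (measurable_LL β n).aemeasurable,
    h.int β n (g := fun x => x) measurable_id,
    h.int β n (g := fun x => (x - ∫ η, LL β n η ∂(en d law)) ^ 2) (by fun_prop)]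

end Q70.Dp
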