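import Mathlib

/-! # Primitives of small powers on a half-plane: distortion -/

set_option autoImplicit false

namespace Pool.Agent.Q70.EdA

open Set Filter Topology Complex

theorem log_path {G G' : ℝ → ℂ} {a b C : ℝ} (ha : 0 < a) (hab : a ≤ b)
    (hG : ∀ u ∈ Icc a b, HasDerivAt G (G' u) u) (hb : ∀ u ∈ Icc a b, ‖G' u‖ ≤ C / u) :
    ‖G b - G a‖ ≤ C * Real.log (b / a) := by
  have key := image_norm_le_of_norm_deriv_right_le_deriv_boundary' (a := a) (b := b)
    (f := fun u => G u - G a) (f' := G') (B := fun u => C * Real.log (u / a))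
    (B' := fun u => C / u)
    (fun u hu => ((hG u hu).continuousAt.sub continuousAt_const).continuousWithinAt)
    (fun u hu => ((hG u ⟨hu.1, hu.2.le⟩).sub_const _).hasDerivWithinAt)
    (by simp)
    (fun u hu => by
      have hu0 : 0 < u := lt_of_lt_of_le ha hu.1
      exact (continuousAt_const.mul ((Real.continuousAt_log (by positivity)).comp
        (continuousAt_id.div_const _))).continuousWithinAt)
    (fun u hu => by
      have hu0 : 0 < u := lt_of_lt_of_le ha hu.1
      have h1 := (((hasDerivAt_id u).div_const a).log (by simp; constructor <;> positivity)).const_mul C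
      refine (h1.congr_deriv ?_).hasDerivWithinAt
      simp only [id]
      field_simp)
    (fun u hu => hb u ⟨hu.1, hu.2.le⟩)
  exact key ⟨hab, le_rfl⟩

theorem norm_exp_sub_le (a b : ℂ) {x : ℝ} (h : ‖a - b‖ ≤ x) :
    ‖exp a - exp b‖ ≤ ‖exp b‖ * (Real.exp x - 1) := by
  have e : exp a - exp b = exp b * (exp (a - b) - 1) := by
    rw [mul_sub, ← Complex.exp_add]
    ring_nf
  rw [e, norm_mul]
  refine mul_le_mul_of_nonneg_left ?_ (norm_nonneg _)
  have h1 := Complex.norm_exp_sub_sum_le_exp_norm_sub_sum (a - b) 1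
  simp at h1
  have h2 : Real.exp ‖a - b‖ ≤ Real.exp x := Real.exp_le_exp.mpr h
  linarith

theorem norm_exp_le (a b : ℂ) {x : ℝ} (h : ‖a - b‖ ≤ x) : ‖exp a‖ ≤ ‖exp b‖ * Real.exp x := by
  rw [Complex.norm_exp, Complex.norm_exp, ← Real.exp_add]
  apply Real.exp_le_exp.mpr
  have := (Complex.abs_re_le_norm (a - b)).trans h
  have h2 := le_abs_self (a - b).re
  simp only [Complex.sub_re] at this h2
  linarith

/-- the hypotheses: `H` has derivative of size at most `κ / Re z` -/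
def Bl (κ : ℝ) (H H' : ℂ → ℂ) : Prop :=
  ∀ z : ℂ, 0 < z.re → HasDerivAt H (H' z) z ∧ ‖H' z‖ ≤ κ / z.re

variable {κ : ℝ} {H H' F : ℂ → ℂ}

theorem Bl.nonneg (hH : Bl κ H H') : 0 ≤ κ := by
  have := (hH 1 (by simp)).2
  simp at this
  exact (norm_nonneg _).trans this

theorem comp_line {G : ℂ → ℂ} {G' z w : ℂ} {u : ℝ} (h : HasDerivAt G G' (z + (u : ℂ) * w)) :
    HasDerivAt (fun u : ℝ => G (z + (u : ℂ) * w)) (G' * w) u := by
  have h1 : HasDerivAt (fun u : ℝ => z + (u : ℂ) * w) (1 * w) u :=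
    ((Complex.ofRealCLM.hasDerivAt).mul_const w).const_add z
  have h2 := HasDerivAt.comp u h h1
  rw [one_mul] at h2
  exact h2

/-- horizontal variation -/
theorem hor (hH : Bl κ H H') {z : ℂ} (hz : 0 ≤ z.re) {t h : ℝ} (ht : 0 < t) (hth : t ≤ h) :
    ‖H (z + h) - H (z + t)‖ ≤ κ * Real.log (h / t) := by
  have key := log_path (G := fun u : ℝ => H (z + (u : ℂ) * 1)) (G' := fun u => H' (z + u * 1) * 1)
    (C := κ) ht hth ?_ ?_
  · simpa using key
  · intro u hu
    have hu0 : 0 < u := lt_of_lt_of_le ht hu.1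
    exact comp_line (hH (z + u * 1) (by simp; linarith)).1
  · intro u hu
    have hu0 : 0 < u := lt_of_lt_of_le ht hu.1
    rw [mul_one]
    refine (hH (z + u * 1) (by simp; linarith)).2.trans ?_
    exact div_le_div_of_nonneg_left hH.nonneg hu0 (by simp; linarith)

/-- variation along the diagonal from `i a` -/
theorem diag (hH : Bl κ H H') (a : ℝ) {t h : ℝ} (ht : 0 < t) (hth : t ≤ h) :
    ‖H ((a + h / 2 : ℝ) * I + (h / 2 : ℝ)) - H ((a + t / 2 : ℝ) * I + (t / 2 : ℝ))‖ ≤
      Real.sqrt 2 * κ * Real.log (h / t) := by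
  have key := log_path (G := fun u : ℝ => H (a * I + (u : ℂ) * ((1 + I) / 2)))
    (G' := fun u => H' (a * I + (u : ℂ) * ((1 + I) / 2)) * ((1 + I) / 2))
    (C := Real.sqrt 2 * κ) ht hth ?_ ?_
  · have e : ∀ x : ℝ, ((a + x / 2 : ℝ) : ℂ) * I + ((x / 2 : ℝ) : ℂ) =
        a * I + (x : ℂ) * ((1 + I) / 2) := by
      intro x
      push_cast
      ring
    rw [e h, e t]
    exact key
  · intro u hu
    have hu0 : 0 < u := lt_of_lt_of_le ht hu.1
    exact comp_line (hH _ (by simp; linarith)).1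
  · intro u hu
    have hu0 : 0 < u := lt_of_lt_of_le ht hu.1
    have hre : (a * I + (u : ℂ) * ((1 + I) / 2)).re = u / 2 := by
      simp
      ring
    have h1 := (hH (a * I + (u : ℂ) * ((1 + I) / 2)) (by rw [hre]; linarith)).2
    rw [hre] at h1
    have h2 : ‖(1 + I) / 2‖ = Real.sqrt 2 / 2 := by
      rw [norm_div, Complex.norm_def]
      simp [Complex.normSq_apply]
      norm_num
    rw [norm_mul, h2]
    calc ‖H' (a * I + (u : ℂ) * ((1 + I) / 2))‖ * (Real.sqrt 2 / 2) ≤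
        κ / (u / 2) * (Real.sqrt 2 / 2) := by gcongr
      _ = Real.sqrt 2 * κ / u := by field_simp

/-- variation inside `Re ≥ h` -/
theorem lip (hH : Bl κ H H') {h : ℝ} (hh : 0 < h) {w w' : ℂ} (hw : h ≤ w.re) (hw' : h ≤ w'.re) :
    ‖H w - H w'‖ ≤ κ / h * ‖w - w'‖ := by
  refine (convex_halfSpace_re_ge h).norm_image_sub_le_of_norm_hasDerivWithin_le
    (f' := H') (C := κ / h) (s := {c : ℂ | h ≤ c.re}) ?_ ?_ hw' hw
  · intro x hx
    exact (hH x (lt_of_lt_of_le hh hx)).1.hasDerivWithinAt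
  · intro x hx
    refine (hH x (lt_of_lt_of_le hh hx)).2.trans ?_
    exact div_le_div_of_nonneg_left hH.nonneg hh hx

/-- the hypotheses on the primitive -/
def Pr (H F : ℂ → ℂ) : Prop :=
  ContinuousOn F {z : ℂ | 0 ≤ z.re} ∧ ∀ z : ℂ, 0 < z.re → HasDerivAt F (exp (H z)) z

theorem rpow_log {κ x : ℝ} (hx : 0 < x) : Real.exp (κ * Real.log x) = x ^ κ := by
  rw [Real.rpow_def_of_pos hx, mul_comm]

/-- vertical chords -/
theorem vert (hH : Bl κ H H') (hκ : κ < 1) (hF : Pr H F) {z : ℂ} (hz : 0 ≤ z.re) {h : ℝ}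
    (hh : 0 ≤ h) :
    ‖F (z + h) - F z - h * exp (H (z + h))‖ ≤ κ / (1 - κ) * (h * ‖exp (H (z + h))‖) := by
  rcases hh.eq_or_lt with rfl | hh
  · simp
  set A := ‖exp (H (z + h))‖ with hA
  have h1κ : 0 < 1 - κ := by linarith
  have key := image_norm_le_of_norm_deriv_right_le_deriv_boundary' (a := (0 : ℝ)) (b := h)
    (f := fun t : ℝ => F (z + h) - F (z + h + (t : ℂ) * (-1)) - t * exp (H (z + h)))
    (f' := fun t => exp (H (z + h + (t : ℂ) * (-1))) - exp (H (z + h)))
    (B := fun t => A * (h / (1 - κ) - h ^ κ * (h - t) ^ (1 - κ) / (1 - κ) - t))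
    (B' := fun t => A * (h ^ κ * (h - t) ^ (-κ) - 1))
    ?_ ?_ ?_ ?_ ?_ ?_
  · have k2 := key ⟨hh.le, le_rfl⟩
    simp only [sub_self] at k2
    rw [Real.zero_rpow h1κ.ne'] at k2
    have e : z + h + (h : ℂ) * (-1) = z := by ring
    rw [e] at k2
    refine k2.trans (le_of_eq ?_)
    field_simp
    ring
  · refine ContinuousOn.sub (ContinuousOn.sub continuousOn_const ?_) ?_
    · refine hF.1.comp (f := fun t : ℝ => z + h + (t : ℂ) * (-1)) ?_ ?_
      · fun_prop
      · intro t ht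
        have := ht.2
        simp
        linarith
    · fun_prop
  · intro t ht
    have hd := comp_line (z := z + h) (w := -1) (hF.2 (z + h + (t : ℂ) * (-1)) (by
      have := ht.2
      simp
      linarith))
    have h2 : HasDerivAt (fun t : ℝ => (t : ℂ) * exp (H (z + h))) (1 * exp (H (z + h))) t :=
      (Complex.ofRealCLM.hasDerivAt).mul_const _
    have h3 := (hd.const_sub (F (z + h))).sub h2
    refine (h3.congr_deriv ?_).hasDerivWithinAt
    ring
  · simp only [Complex.ofReal_zero, zero_mul, add_zero, sub_self, norm_zero, sub_zero]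
    rw [← Real.rpow_add hh, add_sub_cancel, Real.rpow_one]
    simp
  · refine ContinuousOn.mul continuousOn_const ?_
    refine ContinuousOn.sub (ContinuousOn.sub continuousOn_const ?_) continuousOn_id
    refine ContinuousOn.div_const (ContinuousOn.mul continuousOn_const ?_) _
    exact ContinuousOn.rpow_const (by fun_prop) fun t _ => Or.inr h1κ.le
  · intro t ht
    have ht2 : 0 < h - t := by linarith [ht.2]
    have h1 := ((hasDerivAt_id t).const_sub h).rpow_const (p := 1 - κ) (Or.inl ht2.ne')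
    have h2 := ((((h1.const_mul (h ^ κ)).div_const (1 - κ)).const_sub (h / (1 - κ))).sub
      (hasDerivAt_id t)).const_mul A
    refine (h2.congr_deriv ?_).hasDerivWithinAt
    simp only [id]
    have e : 1 - κ - 1 = -κ := by ring
    rw [e]
    field_simp
  · intro t ht
    have ht2 : 0 < h - t := by linarith [ht.2]
    have h1 := hor hH hz ht2 (by linarith [ht.1] : h - t ≤ h)
    have e : z + ((h - t : ℝ) : ℂ) = z + h + (t : ℂ) * (-1) := by
      push_cast
      ring
    rw [e, norm_sub_rev] at h1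
    refine (norm_exp_sub_le _ _ h1).trans (le_of_eq ?_)
    rw [rpow_log (div_pos hh ht2), Real.div_rpow hh.le ht2.le, Real.rpow_neg ht2.le, ← hA]
    ring

/-- the numerical bound for `exp` -/
theorem exp_le {x : ℝ} (h0 : 0 ≤ x) (h1 : x ≤ 1 / 4) : Real.exp x - 1 ≤ 1.14 * x := by
  have h := Real.exp_bound' h0 (by linarith : x ≤ 1) (n := 3) (by norm_num)
  simp [Finset.sum_range_succ, Nat.factorial] at h
  nlinarith [mul_nonneg h0 h0, mul_nonneg (mul_nonneg h0 h0) h0, mul_nonneg h0 (sub_nonneg.mpr h1),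
    mul_nonneg (mul_nonneg h0 h0) (sub_nonneg.mpr h1)]

/-- half of the top side -/
theorem half_top (hH : Bl κ H H') (hκ : κ ≤ 1 / 4) (hF : Pr H F) {ζ e : ℂ} {h : ℝ} (hh : 0 < h)
    (he : ‖e‖ = 1) (hζ : ∀ u ∈ Icc (0 : ℝ) h, h ≤ (ζ + (u : ℂ) * e).re) {x : ℝ} (hx0 : 0 ≤ x)
    (hx : x ≤ h) :
    ‖F (ζ + (x : ℂ) * e) - F ζ - x * e * exp (H ζ)‖ ≤
      0.57 * κ * (x ^ 2 / h) * ‖exp (H ζ)‖ := by
  have hζ0 : h ≤ ζ.re := by simpa using hζ 0 ⟨le_rfl, hh.le⟩
  have key := image_norm_le_of_norm_deriv_right_le_deriv_boundary' (a := (0 : ℝ)) (b := h)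
    (f := fun u : ℝ => F (ζ + (u : ℂ) * e) - F ζ - u * (e * exp (H ζ)))
    (f' := fun u => exp (H (ζ + (u : ℂ) * e)) * e - e * exp (H ζ))
    (B := fun u => 0.57 * κ * (u ^ 2 / h) * ‖exp (H ζ)‖)
    (B' := fun u => 0.57 * κ * (2 * u / h) * ‖exp (H ζ)‖)
    ?_ ?_ ?_ ?_ ?_ ?_
  · have := key ⟨hx0, hx⟩
    simpa [mul_assoc] using this
  · intro u hu
    have hd := comp_line (hF.2 (ζ + (u : ℂ) * e) (lt_of_lt_of_le hh (hζ u hu)))
    have h2 : ContinuousAt (fun t : ℝ => (t : ℂ) * (e * exp (H ζ))) u := by fun_prop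
    exact ((hd.continuousAt.sub continuousAt_const).sub h2).continuousWithinAt
  · intro u hu
    have hd := comp_line (hF.2 (ζ + (u : ℂ) * e) (lt_of_lt_of_le hh (hζ u ⟨hu.1, hu.2.le⟩)))
    have h2 : HasDerivAt (fun t : ℝ => (t : ℂ) * (e * exp (H ζ))) (1 * (e * exp (H ζ))) u :=
      (Complex.ofRealCLM.hasDerivAt).mul_const _
    refine (((hd.sub_const (F ζ)).sub h2).congr_deriv ?_).hasDerivWithinAt
    ring
  · simp
  · fun_prop
  · intro u hu
    have h1 := (((hasDerivAt_pow 2 u).div_const h).const_mul (0.57 * κ)).mul_const ‖exp (H ζ)‖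
    refine (h1.congr_deriv ?_).hasDerivWithinAt
    norm_num
  · intro u hu
    have hκ0 := hH.nonneg
    have h1 := lip hH hh (hζ u ⟨hu.1, hu.2.le⟩) hζ0
    have e1 : ‖ζ + (u : ℂ) * e - ζ‖ = u := by
      rw [add_sub_cancel_left, norm_mul, he, mul_one, Complex.norm_real, Real.norm_of_nonneg hu.1]
    rw [e1] at h1
    have h2 := norm_exp_sub_le _ _ h1
    have h3 : exp (H (ζ + (u : ℂ) * e)) * e - e * exp (H ζ) =
        (exp (H (ζ + (u : ℂ) * e)) - exp (H ζ)) * e := by ring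
    rw [h3, norm_mul, he, mul_one]
    refine h2.trans ?_
    have hu1 : u / h ≤ 1 := (div_le_one hh).mpr hu.2.le
    have hu2 : 0 ≤ u / h := div_nonneg hu.1 hh.le
    have h4 : κ / h * u ≤ 1 / 4 := by
      calc κ / h * u = κ * (u / h) := by ring
        _ ≤ (1 / 4) * 1 := by gcongr
        _ = 1 / 4 := by norm_num
    have h5 : 0 ≤ κ / h * u := by
      have := hu.1
      positivity
    have h6 := exp_le h5 h4
    calc ‖exp (H ζ)‖ * (Real.exp (κ / h * u) - 1) ≤ ‖exp (H ζ)‖ * (1.14 * (κ / h * u)) := by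
          gcongr
      _ = 0.57 * κ * (2 * u / h) * ‖exp (H ζ)‖ := by ring

/-- **distortion**: the difference quotient of `F` on the closed half-plane is close to the
derivative at the summit of the half-square over the segment -/
theorem main (hH : Bl κ H H') (hκ : κ ≤ 1 / 4) (hF : Pr H F) {s s' : ℂ} (hs : 0 ≤ s.re)
    (hs' : 0 ≤ s'.re) :
    ‖F s' - F s - exp (H ((s + s') / 2 + (‖s' - s‖ / 2 : ℝ))) * (s' - s)‖ ≤
      7 / 2 * κ * (‖exp (H ((s + s') / 2 + (‖s' - s‖ / 2 : ℝ)))‖ * ‖s' - s‖) := by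
  rcases eq_or_ne s' s with rfl | hne
  · simp
  have hκ0 := hH.nonneg
  set h : ℝ := ‖s' - s‖ / 2 with hh
  have hd : 0 < ‖s' - s‖ := norm_pos_iff.mpr (sub_ne_zero.mpr hne)
  have hh0 : 0 < h := by positivity
  have hd2 : ‖s' - s‖ = 2 * h := by rw [hh]; ring
  set ζ : ℂ := (s + s') / 2 + (h : ℂ) with hζ
  set e : ℂ := (s' - s) / (2 * h) with he
  have hhc : (h : ℂ) ≠ 0 := by exact_mod_cast hh0.ne'
  have he1 : ‖e‖ = 1 := by
    rw [he, norm_div, hd2, norm_mul, Complex.norm_real, Real.norm_of_nonneg hh0.le]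
    rw [Complex.norm_ofNat, div_self (by positivity)]
  have e1 : s' + h = ζ + (h : ℂ) * e := by
    rw [hζ, he]
    field_simp
    ring
  have e2 : s + h = ζ + (h : ℂ) * (-e) := by
    rw [hζ, he]
    field_simp
    ring
  have hre : ζ.re = (s.re + s'.re) / 2 + h := by
    rw [hζ]
    simp
  have hre2 : (h : ℝ) * e.re = (s'.re - s.re) / 2 := by
    have := congrArg Complex.re e1
    simp [hre] at this
    linarith
  have r1 : ∀ u ∈ Icc (0 : ℝ) h, h ≤ (ζ + (u : ℂ) * e).re := by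
    intro u hu
    simp [hre]
    have hA : u * e.re = u / h * ((s'.re - s.re) / 2) := by
      rw [← hre2]
      field_simp
    have hB0 : 0 ≤ u / h := div_nonneg hu.1 hh0.le
    have hB1 : u / h ≤ 1 := (div_le_one hh0).mpr hu.2
    nlinarith
  have r2 : ∀ u ∈ Icc (0 : ℝ) h, h ≤ (ζ + (u : ℂ) * (-e)).re := by
    intro u hu
    simp [hre]
    have hA : u * e.re = u / h * ((s'.re - s.re) / 2) := by
      rw [← hre2]
      field_simp
    have hB0 : 0 ≤ u / h := div_nonneg hu.1 hh0.le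
    have hB1 : u / h ≤ 1 := (div_le_one hh0).mpr hu.2
    nlinarith
  set A := ‖exp (H ζ)‖ with hA
  have hA0 : 0 ≤ A := norm_nonneg _
  have t1 := half_top hH hκ hF hh0 he1 r1 hh0.le le_rfl
  have t2 := half_top hH hκ hF hh0 (by rw [norm_neg]; exact he1) r2 hh0.le le_rfl
  rw [← e1] at t1
  rw [← e2] at t2
  have v1 := vert hH (by linarith) hF hs' hh0.le
  have v2 := vert hH (by linarith) hF hs hh0.le
  have hζre : h ≤ ζ.re := by simpa using r1 0 ⟨le_rfl, hh0.le⟩
  have l1 : ‖H (s' + h) - H ζ‖ ≤ κ := by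
    have := lip hH hh0 (w := s' + h) (w' := ζ) (by simp; linarith) hζre
    rw [e1, add_sub_cancel_left, norm_mul, he1, Complex.norm_real, Real.norm_of_nonneg hh0.le,
      mul_one, div_mul_cancel₀ _ hh0.ne', ← e1] at this
    exact this
  have l2 : ‖H (s + h) - H ζ‖ ≤ κ := by
    have := lip hH hh0 (w := s + h) (w' := ζ) (by simp; linarith) hζre
    rw [e2, add_sub_cancel_left, norm_mul, norm_neg, he1, Complex.norm_real,
      Real.norm_of_nonneg hh0.le, mul_one, div_mul_cancel₀ _ hh0.ne', ← e2] at this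
    exact this
  have x1 := norm_exp_sub_le _ _ l1
  have x2 := norm_exp_sub_le _ _ l2
  have y1 := norm_exp_le _ _ l1
  have y2 := norm_exp_le _ _ l2
  have hexp := exp_le hκ0 hκ
  have hexp2 : Real.exp κ ≤ 1.285 := by linarith
  have hk : κ / (1 - κ) ≤ 4 / 3 * κ := by
    rw [div_le_iff₀ (by linarith)]
    nlinarith
  have w1 : ‖F (s' + h) - F s' - h * exp (H (s' + h))‖ ≤ 4 / 3 * κ * (h * (A * 1.285)) := by
    refine v1.trans ?_
    refine mul_le_mul hk ?_ (by positivity) (by positivity)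
    refine mul_le_mul_of_nonneg_left (y1.trans ?_) hh0.le
    exact mul_le_mul_of_nonneg_left hexp2 hA0
  have w2 : ‖F (s + h) - F s - h * exp (H (s + h))‖ ≤ 4 / 3 * κ * (h * (A * 1.285)) := by
    refine v2.trans ?_
    refine mul_le_mul hk ?_ (by positivity) (by positivity)
    refine mul_le_mul_of_nonneg_left (y2.trans ?_) hh0.le
    exact mul_le_mul_of_nonneg_left hexp2 hA0
  have z1 : ‖(h : ℂ) * (exp (H (s' + h)) - exp (H ζ))‖ ≤ h * (A * (1.14 * κ)) := by
    rw [norm_mul, Complex.norm_real, Real.norm_of_nonneg hh0.le]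
    refine mul_le_mul_of_nonneg_left (x1.trans ?_) hh0.le
    exact mul_le_mul_of_nonneg_left hexp hA0
  have z2 : ‖(h : ℂ) * (exp (H (s + h)) - exp (H ζ))‖ ≤ h * (A * (1.14 * κ)) := by
    rw [norm_mul, Complex.norm_real, Real.norm_of_nonneg hh0.le]
    refine mul_le_mul_of_nonneg_left (x2.trans ?_) hh0.le
    exact mul_le_mul_of_nonneg_left hexp hA0
  have hdec : F s' - F s - exp (H ζ) * (s' - s) =
      -(F (s' + h) - F s' - h * exp (H (s' + h))) + (F (s + h) - F s - h * exp (H (s + h))) +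
      (F (s' + h) - F ζ - h * e * exp (H ζ)) - (F (s + h) - F ζ - h * (-e) * exp (H ζ)) -
      ((h : ℂ) * (exp (H (s' + h)) - exp (H ζ))) + ((h : ℂ) * (exp (H (s + h)) - exp (H ζ))) := by
    have : s' - s = 2 * ((h : ℂ) * e) := by
      rw [he]
      field_simp
    rw [this]
    ring
  have q1 : h ^ 2 / h = h := by field_simp
  rw [q1] at t1 t2
  rw [hdec, hd2]
  refine ((norm_add_le _ _).trans (add_le_add ((norm_sub_le _ _).trans (add_le_add
    ((norm_sub_le _ _).trans (add_le_add ((norm_add_le _ _).trans (add_le_add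
    (norm_add_le _ _) le_rfl)) le_rfl)) le_rfl)) le_rfl)).trans ?_
  rw [norm_neg]
  have hAh : 0 ≤ A * h * κ := by positivity
  nlinarith

end Pool.Agent.Q70.EdA
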