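import Mathlib

/-!
# The erasing substitution map: definitions and functional equations
-/

set_option autoImplicit false

open MeasureTheory Set Filter Topology
open scoped ENNReal

namespace Q70.Er

/-- The number with binary digits `b 0, b 1, …` (`b k` is the digit of weight `2 ^ (-(k + 1))`). -/
noncomputable def bin (b : ℕ → Bool) : ℝ := ∑' k, if b k = true then (1 / 2 : ℝ) ^ (k + 1) else 0

/-- The substitution: zeros are deleted, and the `j`-th one is replaced by `0` if its position
(which is its index plus one) is odd, by `1` if its position is even. -/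
noncomputable def rho (b : ℕ → Bool) : ℕ → Bool :=
  fun j => decide (Nat.nth (fun k => b k = true) j % 2 = 1)

/-- infinitely many ones -/
def Inf (b : ℕ → Bool) : Prop := ∃ᶠ k in atTop, b k = true

open Classical in
/-- The map `R`: if `x` has a (necessarily unique) binary expansion `b` with infinitely many ones,
then `R x` is the number with digits `rho b`; otherwise (in particular for `x = 0`) the value is
`2 / 3`. -/
noncomputable def R (x : ℝ) : ℝ :=
  if h : ∃ b : ℕ → Bool, Inf b ∧ bin b = x then bin (rho h.choose) else 2 / 3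

/-- prepend a symbol -/
def cons (a : Bool) (b : ℕ → Bool) : ℕ → Bool
  | 0 => a
  | n + 1 => b n

theorem summable_bin (b : ℕ → Bool) :
    Summable fun k => if b k = true then (1 / 2 : ℝ) ^ (k + 1) else 0 := by
  have h1 : Summable fun k : ℕ => (1 / 2 : ℝ) ^ (k + 1) :=
    (summable_geometric_of_lt_one (by norm_num) (by norm_num)).comp_injective
      (add_left_injective 1)
  refine Summable.of_nonneg_of_le (fun k => ?_) (fun k => ?_) h1
  · split_ifs <;> positivity
  · split_ifs
    · exact le_rfl
    · positivity

theorem bin_cons (a : Bool) (b : ℕ → Bool) :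
    bin (cons a b) = ((if a = true then 1 else 0) + bin b) / 2 := by
  unfold bin
  rw [(summable_bin (cons a b)).tsum_eq_zero_add]
  have h1 : ∀ k, (if cons a b (k + 1) = true then (1 / 2 : ℝ) ^ (k + 1 + 1) else 0)
      = (1 / 2) * (if b k = true then (1 / 2 : ℝ) ^ (k + 1) else 0) := by
    intro k
    change (if b k = true then (1 / 2 : ℝ) ^ (k + 1 + 1) else 0) = _
    split_ifs
    · ring
    · ring
  simp_rw [h1]
  rw [tsum_mul_left]
  change (if a = true then (1 / 2 : ℝ) ^ (0 + 1) else 0) + _ = _
  split_ifs <;> ring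

theorem bin_nonneg (b : ℕ → Bool) : 0 ≤ bin b :=
  tsum_nonneg fun k => by split_ifs <;> positivity

theorem tsum_half : ∑' k : ℕ, (1 / 2 : ℝ) ^ (k + 1) = 1 := by
  have h := tsum_geometric_two
  have h2 : Summable fun k : ℕ => (1 / 2 : ℝ) ^ k :=
    summable_geometric_of_lt_one (by norm_num) (by norm_num)
  rw [h2.tsum_eq_zero_add] at h
  simp only [pow_zero] at h
  linarith

theorem bin_not (b : ℕ → Bool) : bin (fun k => !b k) = 1 - bin b := by
  have h1 : bin (fun k => !b k) + bin b = 1 := by
    unfold bin
    rw [← (summable_bin _).tsum_add (summable_bin _)]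
    refine Eq.trans (tsum_congr fun k => ?_) tsum_half
    cases b k <;> simp
  linarith

theorem bin_le_one (b : ℕ → Bool) : bin b ≤ 1 := by
  have h1 := bin_not b
  have h2 := bin_nonneg (fun k => !b k)
  linarith

theorem cons_tail (b : ℕ → Bool) : cons (b 0) (fun n => b (n + 1)) = b := by
  funext n
  cases n <;> rfl

theorem Inf_tail {b : ℕ → Bool} (h : Inf b) : Inf (fun n => b (n + 1)) := by
  unfold Inf at h ⊢
  rw [frequently_atTop] at h ⊢
  intro N
  obtain ⟨k, hk, hbk⟩ := h (N + 1)
  refine ⟨k - 1, by omega, ?_⟩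
  have : k - 1 + 1 = k := by omega
  simp only [this]
  exact hbk

theorem Inf_cons (a : Bool) {b : ℕ → Bool} (h : Inf b) : Inf (cons a b) := by
  unfold Inf at h ⊢
  rw [frequently_atTop] at h ⊢
  intro N
  obtain ⟨k, hk, hbk⟩ := h N
  exact ⟨k + 1, by omega, hbk⟩

theorem bin_pos {b : ℕ → Bool} (h : Inf b) : 0 < bin b := by
  obtain ⟨k, hk⟩ := h.exists
  have h1 : (1 / 2 : ℝ) ^ (k + 1) ≤ bin b := by
    have h2 := (summable_bin b).le_tsum k (fun j _ => by split_ifs <;> positivity)
    rw [if_pos hk] at h2
    exact h2
  exact lt_of_lt_of_le (by positivity) h1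

theorem bin_inj_aux : ∀ (n : ℕ) (b c : ℕ → Bool), Inf b → Inf c → bin b = bin c → b n = c n := by
  have key : ∀ b c : ℕ → Bool, Inf b → Inf c → bin b = bin c →
      b 0 = c 0 ∧ bin (fun n => b (n + 1)) = bin (fun n => c (n + 1)) := by
    intro b c hb hc h
    have h1 := bin_cons (b 0) (fun n => b (n + 1))
    have h2 := bin_cons (c 0) (fun n => c (n + 1))
    rw [cons_tail] at h1 h2
    have hb1 := bin_pos (Inf_tail hb)
    have hc1 := bin_pos (Inf_tail hc)
    have hb2 := bin_le_one (fun n => b (n + 1))
    have hc2 := bin_le_one (fun n => c (n + 1))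
    rw [h, h2] at h1
    cases hb0 : b 0 <;> cases hc0 : c 0 <;> simp [hb0, hc0] at h1 ⊢ <;> linarith
  intro n
  induction n with
  | zero => intro b c hb hc h; exact (key b c hb hc h).1
  | succ n ih =>
    intro b c hb hc h
    exact ih _ _ (Inf_tail hb) (Inf_tail hc) (key b c hb hc h).2

theorem bin_inj {b c : ℕ → Bool} (hb : Inf b) (hc : Inf c) (h : bin b = bin c) : b = c :=
  funext fun n => bin_inj_aux n b c hb hc h

theorem R_bin {b : ℕ → Bool} (hb : Inf b) : R (bin b) = bin (rho b) := by
  classical
  have h : ∃ c : ℕ → Bool, Inf c ∧ bin c = bin b := ⟨b, hb, rfl⟩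
  unfold R
  rw [dif_pos h]
  rw [bin_inj h.choose_spec.1 hb h.choose_spec.2]

/-! ### Existence of expansions -/

/-- doubling map on `(0, 1]` -/
noncomputable def dbl (x : ℝ) : ℝ := if 1 / 2 < x then 2 * x - 1 else 2 * x

/-- the digits -/
noncomputable def dig (x : ℝ) : ℕ → Bool := fun n => decide (1 / 2 < dbl^[n] x)

theorem dbl_mem {x : ℝ} (hx : x ∈ Ioc (0 : ℝ) 1) : dbl x ∈ Ioc (0 : ℝ) 1 := by
  unfold dbl
  split_ifs with h
  · constructor <;> linarith [hx.1, hx.2]
  · constructor <;> linarith [hx.1, hx.2]

theorem dbl_iter_mem {x : ℝ} (hx : x ∈ Ioc (0 : ℝ) 1) (n : ℕ) : dbl^[n] x ∈ Ioc (0 : ℝ) 1 := by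
  induction n with
  | zero => exact hx
  | succ n ih => rw [Function.iterate_succ_apply']; exact dbl_mem ih

theorem dig_partial (x : ℝ) (n : ℕ) :
    ∑ k ∈ Finset.range n, (if dig x k = true then (1 / 2 : ℝ) ^ (k + 1) else 0) +
      (1 / 2) ^ n * dbl^[n] x = x := by
  induction n with
  | zero => simp
  | succ n ih =>
    rw [Finset.sum_range_succ, Function.iterate_succ_apply']
    conv_rhs => rw [← ih]
    by_cases h : 1 / 2 < dbl^[n] x
    · have h1 : dig x n = true := by simp only [dig, decide_eq_true_eq]; exact h
      have h2 : dbl (dbl^[n] x) = 2 * dbl^[n] x - 1 := by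
        conv_lhs => unfold dbl
        exact if_pos h
      rw [if_pos h1, h2]
      ring
    · have h1 : ¬ dig x n = true := by simp only [dig, decide_eq_true_eq]; exact h
      have h2 : dbl (dbl^[n] x) = 2 * dbl^[n] x := by
        conv_lhs => unfold dbl
        exact if_neg h
      rw [if_neg h1, h2]
      ring

theorem bin_dig {x : ℝ} (hx : x ∈ Ioc (0 : ℝ) 1) : bin (dig x) = x := by
  have h1 := (summable_bin (dig x)).hasSum.tendsto_sum_nat
  have h2 : Tendsto (fun n : ℕ => ∑ k ∈ Finset.range n,
      (if dig x k = true then (1 / 2 : ℝ) ^ (k + 1) else 0)) atTop (𝓝 x) := by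
    have h3 : Tendsto (fun n : ℕ => (1 / 2 : ℝ) ^ n * dbl^[n] x) atTop (𝓝 0) := by
      have h4 : Tendsto (fun n : ℕ => (1 / 2 : ℝ) ^ n) atTop (𝓝 0) :=
        tendsto_pow_atTop_nhds_zero_of_lt_one (by norm_num) (by norm_num)
      refine squeeze_zero (fun n => ?_) (fun n => ?_) h4
      · exact mul_nonneg (by positivity) (dbl_iter_mem hx n).1.le
      · exact mul_le_of_le_one_right (by positivity) (dbl_iter_mem hx n).2
    have h5 : Tendsto (fun n : ℕ => x - (1 / 2 : ℝ) ^ n * dbl^[n] x) atTop (𝓝 (x - 0)) :=
      tendsto_const_nhds.sub h3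
    rw [sub_zero] at h5
    refine h5.congr fun n => ?_
    have := dig_partial x n
    linarith
  exact tendsto_nhds_unique h1 h2

theorem Inf_dig {x : ℝ} (hx : x ∈ Ioc (0 : ℝ) 1) : Inf (dig x) := by
  unfold Inf
  rw [frequently_atTop]
  intro N
  by_contra hne
  push Not at hne
  have h1 : ∀ m, dbl^[N + m] x = 2 ^ m * dbl^[N] x := by
    intro m
    induction m with
    | zero => simp
    | succ m ih =>
      rw [← add_assoc, Function.iterate_succ_apply']
      have h2 := hne (N + m) (by omega)
      have h3 : ¬ 1 / 2 < dbl^[N + m] x := by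
        simpa [dig] using h2
      have h4 : dbl (dbl^[N + m] x) = 2 * dbl^[N + m] x := by
        conv_lhs => unfold dbl
        exact if_neg h3
      rw [h4, ih]
      ring
  have h5 := (dbl_iter_mem hx N).1
  obtain ⟨m, hm⟩ := pow_unbounded_of_one_lt (1 / dbl^[N] x) (show (1 : ℝ) < 2 by norm_num)
  rw [div_lt_iff₀ h5] at hm
  have h6 := (dbl_iter_mem hx (N + m)).2
  rw [h1 m] at h6
  linarith

/-! ### The functional equations -/

theorem nth_cons_false {b : ℕ → Bool} (hb : Inf b) (j : ℕ) :
    Nat.nth (fun k => cons false b k = true) j = Nat.nth (fun k => b k = true) j + 1 := by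
  have hinf : (setOf fun k => b k = true).Infinite := Nat.frequently_atTop_iff_infinite.1 hb
  have h1 : b (Nat.nth (fun k => b k = true) j) = true := Nat.nth_mem_of_infinite hinf j
  have h2 : Nat.count (fun k => cons false b k = true) (Nat.nth (fun k => b k = true) j + 1) = j := by
    rw [Nat.count_succ']
    have h3 : Nat.count (fun k => cons false b (k + 1) = true) (Nat.nth (fun k => b k = true) j)
        = Nat.count (fun k => b k = true) (Nat.nth (fun k => b k = true) j) := rfl
    rw [h3, Nat.count_nth_of_infinite hinf]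
    simp [cons]
  have h4 := Nat.nth_count (p := fun k => cons false b k = true)
    (n := Nat.nth (fun k => b k = true) j + 1) h1
  rw [h2] at h4
  exact h4

theorem nth_cons_true_zero (b : ℕ → Bool) : Nat.nth (fun k => cons true b k = true) 0 = 0 := by
  have h4 := Nat.nth_count (p := fun k => cons true b k = true) (n := 0) rfl
  simpa using h4

theorem nth_cons_true_succ {b : ℕ → Bool} (hb : Inf b) (j : ℕ) :
    Nat.nth (fun k => cons true b k = true) (j + 1) = Nat.nth (fun k => b k = true) j + 1 := by
  have hinf : (setOf fun k => b k = true).Infinite := Nat.frequently_atTop_iff_infinite.1 hb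
  have h1 : b (Nat.nth (fun k => b k = true) j) = true := Nat.nth_mem_of_infinite hinf j
  have h2 : Nat.count (fun k => cons true b k = true) (Nat.nth (fun k => b k = true) j + 1)
      = j + 1 := by
    rw [Nat.count_succ']
    have h3 : Nat.count (fun k => cons true b (k + 1) = true) (Nat.nth (fun k => b k = true) j)
        = Nat.count (fun k => b k = true) (Nat.nth (fun k => b k = true) j) := rfl
    rw [h3, Nat.count_nth_of_infinite hinf]
    simp [cons]
  have h4 := Nat.nth_count (p := fun k => cons true b k = true)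
    (n := Nat.nth (fun k => b k = true) j + 1) h1
  rw [h2] at h4
  exact h4

theorem rho_cons_false {b : ℕ → Bool} (hb : Inf b) : rho (cons false b) = fun j => !rho b j := by
  funext j
  unfold rho
  rw [nth_cons_false hb j]
  have : ∀ n : ℕ, decide ((n + 1) % 2 = 1) = !decide (n % 2 = 1) := by
    intro n
    by_cases h : n % 2 = 1
    · simp [h]; omega
    · simp [h]; omega
  exact this _

theorem rho_cons_true {b : ℕ → Bool} (hb : Inf b) :
    rho (cons true b) = cons false (fun j => !rho b j) := by
  funext j
  cases j with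
  | zero =>
    unfold rho
    rw [nth_cons_true_zero]
    rfl
  | succ j =>
    change rho (cons true b) (j + 1) = !rho b j
    unfold rho
    rw [nth_cons_true_succ hb j]
    have : ∀ n : ℕ, decide ((n + 1) % 2 = 1) = !decide (n % 2 = 1) := by
      intro n
      by_cases h : n % 2 = 1
      · simp [h]; omega
      · simp [h]; omega
    exact this _

theorem R_half {x : ℝ} (hx : x ∈ Ioc (0 : ℝ) 1) : R (x / 2) = 1 - R x := by
  have h1 := bin_dig hx
  have h2 := Inf_dig hx
  set b := dig x
  have h3 : x / 2 = bin (cons false b) := by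
    rw [bin_cons, h1]; simp
  rw [h3, R_bin (Inf_cons false h2), rho_cons_false h2, bin_not, ← h1, R_bin h2]

theorem R_half_one {x : ℝ} (hx : x ∈ Ioc (0 : ℝ) 1) : R ((1 + x) / 2) = (1 - R x) / 2 := by
  have h1 := bin_dig hx
  have h2 := Inf_dig hx
  set b := dig x
  have h3 : (1 + x) / 2 = bin (cons true b) := by
    rw [bin_cons, h1]; simp
  rw [h3, R_bin (Inf_cons true h2), rho_cons_true h2, bin_cons, bin_not, ← h1, R_bin h2]
  simp

theorem R_mem (x : ℝ) : R x ∈ Icc (0 : ℝ) 1 := by
  classical
  unfold R
  split_ifs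
  · exact ⟨bin_nonneg _, bin_le_one _⟩
  · norm_num

/-! ### Measurability -/

theorem meas_coord (k : ℕ) : MeasurableSet {b : ℕ → Bool | b k = true} :=
  measurableSet_eq_fun (measurable_pi_apply k) measurable_const

theorem measurable_bin : Measurable bin := by
  unfold bin
  refine Measurable.tsum fun k => ?_
  refine Measurable.ite ?_ measurable_const measurable_const
  exact meas_coord k

theorem measurable_dbl : Measurable dbl := by
  unfold dbl
  refine Measurable.ite (measurableSet_lt measurable_const measurable_id) ?_ ?_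
  · fun_prop
  · fun_prop

theorem measurable_dig : Measurable dig := by
  refine measurable_pi_iff.2 fun n => ?_
  refine measurable_to_bool ?_
  have : (fun x : ℝ => dig x n) ⁻¹' {true} = {x | 1 / 2 < dbl^[n] x} := by
    ext x; simp [dig]
  rw [this]
  exact measurableSet_lt measurable_const (measurable_dbl.iterate n)

theorem measurable_count (n : ℕ) :
    Measurable fun b : ℕ → Bool => Nat.count (fun k => b k = true) n := by
  induction n with
  | zero => simp
  | succ n ih =>
    simp_rw [Nat.count_succ]
    refine ih.add (Measurable.ite ?_ measurable_const measurable_const)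
    exact meas_coord n

theorem rho_true_iff (b : ℕ → Bool) (j : ℕ) :
    rho b j = true ↔ ∃ n, n % 2 = 1 ∧ b n = true ∧ Nat.count (fun k => b k = true) n = j := by
  unfold rho
  rw [decide_eq_true_eq]
  constructor
  · intro h
    have hcard : ∀ hf : (setOf fun k => b k = true).Finite, j < hf.toFinset.card := by
      intro hf
      by_contra hle
      push Not at hle
      rw [Nat.nth_of_card_le hf hle] at h
      simp at h
    refine ⟨_, h, Nat.nth_mem j hcard, Nat.count_nth hcard⟩
  · rintro ⟨n, hn, hbn, hc⟩
    have := Nat.nth_count (p := fun k => b k = true) (n := n) hbn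
    rw [hc] at this
    rw [this]
    exact hn

theorem measurable_rho : Measurable rho := by
  refine measurable_pi_iff.2 fun j => ?_
  refine measurable_to_bool ?_
  have : (fun b : ℕ → Bool => rho b j) ⁻¹' {true} =
      ⋃ n ∈ {n : ℕ | n % 2 = 1}, {b | b n = true ∧ Nat.count (fun k => b k = true) n = j} := by
    ext b
    rw [mem_preimage, mem_singleton_iff, rho_true_iff]
    simp only [mem_iUnion, Set.mem_ofPred_eq, exists_prop]
  rw [this]
  refine MeasurableSet.biUnion (Set.to_countable _) fun n _ => ?_
  refine MeasurableSet.inter ?_ ?_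
  · exact meas_coord n
  · exact (measurable_count n) (measurableSet_singleton j)

theorem R_eq (x : ℝ) : R x = if x ∈ Ioc (0 : ℝ) 1 then bin (rho (dig x)) else 2 / 3 := by
  classical
  split_ifs with hx
  · have h1 := R_bin (Inf_dig hx)
    rw [bin_dig hx] at h1
    exact h1
  · unfold R
    rw [dif_neg]
    rintro ⟨b, hb, rfl⟩
    exact hx ⟨bin_pos hb, bin_le_one b⟩

theorem measurable_R : Measurable R := by
  have : R = fun x => if x ∈ Ioc (0 : ℝ) 1 then bin (rho (dig x)) else 2 / 3 := funext R_eq
  rw [this]
  refine Measurable.ite measurableSet_Ioc ?_ measurable_const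
  exact measurable_bin.comp (measurable_rho.comp measurable_dig)

end Q70.Er
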