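import Pool.Agent.Q70.ErA

/-!
# The erasing substitution map: push-forwards of the Lebesgue measure
-/

set_option autoImplicit false

open MeasureTheory Set Filter Topology
open scoped ENNReal

namespace Q70.Er

/-- the two branches -/
noncomputable def S0 (x : ℝ) : ℝ := x / 2

/-- the two branches -/
noncomputable def S1 (x : ℝ) : ℝ := (1 + x) / 2

/-- the reflection -/
noncomputable def J (x : ℝ) : ℝ := 1 - x

theorem mS0 : Measurable S0 := by unfold S0; fun_prop
theorem mS1 : Measurable S1 := by unfold S1; fun_prop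
theorem mJ : Measurable J := by unfold J; fun_prop

/-- Lebesgue measure on `(0, 1]` -/
noncomputable def lam : Measure ℝ := volume.restrict (Ioc 0 1)

instance : IsProbabilityMeasure lam := by
  constructor
  unfold lam
  simp

theorem lam_conc : lam (Ioc 0 1)ᶜ = 0 := by
  unfold lam
  rw [Measure.restrict_apply measurableSet_Ioc.compl, compl_inter_self, measure_empty]

theorem J_map_lam : lam.map J = lam := by
  unfold lam
  have h1 : MeasurePreserving (fun x : ℝ => 1 - x) volume volume := Measure.measurePreserving_sub_left volume 1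
  have h2 := h1.restrict_preimage (s := Ico (0 : ℝ) 1) measurableSet_Ico
  have h3 : (fun x : ℝ => 1 - x) ⁻¹' Ico 0 1 = Ioc 0 1 := by
    ext x
    simp only [mem_preimage, mem_Ico, mem_Ioc]
    constructor <;> rintro ⟨h, h'⟩ <;> constructor <;> linarith
  rw [h3] at h2
  have h4 : J = fun x : ℝ => 1 - x := rfl
  rw [h4, h2.map_eq]
  exact restrict_Ico_eq_restrict_Ioc

theorem S0_map_apply (A : Set ℝ) (hA : MeasurableSet A) :
    lam.map S0 A = 2 * volume (A ∩ Ioc 0 (1 / 2)) := by
  rw [Measure.map_apply mS0 hA]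
  unfold lam
  rw [Measure.restrict_apply (mS0 hA)]
  have h1 : S0 ⁻¹' A ∩ Ioc 0 1 = (fun x : ℝ => (1 / 2 : ℝ) * x) ⁻¹' (A ∩ Ioc 0 (1 / 2)) := by
    ext x
    simp only [mem_inter_iff, mem_preimage, mem_Ioc, S0]
    have : x / 2 = 1 / 2 * x := by ring
    rw [this]
    constructor
    · rintro ⟨h, h', h''⟩; exact ⟨h, by linarith, by linarith⟩
    · rintro ⟨h, h', h''⟩; exact ⟨h, by linarith, by linarith⟩
  rw [h1, Real.volume_preimage_mul_left (by norm_num)]
  norm_num

theorem S1_map_apply (A : Set ℝ) (hA : MeasurableSet A) :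
    lam.map S1 A = 2 * volume (A ∩ Ioc (1 / 2) 1) := by
  rw [Measure.map_apply mS1 hA]
  unfold lam
  rw [Measure.restrict_apply (mS1 hA)]
  have h1 : S1 ⁻¹' A ∩ Ioc 0 1 =
      (fun x : ℝ => (1 / 2 : ℝ) * x) ⁻¹' ((fun x : ℝ => 1 / 2 + x) ⁻¹' (A ∩ Ioc (1 / 2) 1)) := by
    ext x
    simp only [mem_inter_iff, mem_preimage, mem_Ioc, S1]
    have : (1 + x) / 2 = 1 / 2 + 1 / 2 * x := by ring
    rw [this]
    constructor
    · rintro ⟨h, h', h''⟩; exact ⟨h, by linarith, by linarith⟩
    · rintro ⟨h, h', h''⟩; exact ⟨h, by linarith, by linarith⟩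
  rw [h1, Real.volume_preimage_mul_left (by norm_num), measure_preimage_add]
  norm_num

/-- real value of a measure of a set under a map -/
theorem lam_split (A : Set ℝ) (hA : MeasurableSet A) :
    lam.real A = (1 / 2) * (lam.map S0).real A + (1 / 2) * (lam.map S1).real A := by
  have h1 : Ioc (0 : ℝ) 1 = Ioc 0 (1 / 2) ∪ Ioc (1 / 2) 1 := by
    rw [Ioc_union_Ioc_eq_Ioc] <;> norm_num
  have hd : Disjoint (A ∩ Ioc (0 : ℝ) (1 / 2)) (A ∩ Ioc (1 / 2) 1) := by
    refine Set.disjoint_left.2 ?_
    rintro x ⟨_, h⟩ ⟨_, h'⟩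
    linarith [h.2, h'.1]
  have h2 : lam A = volume (A ∩ Ioc 0 (1 / 2)) + volume (A ∩ Ioc (1 / 2) 1) := by
    unfold lam
    rw [Measure.restrict_apply hA, h1, inter_union_distrib_left,
      measure_union hd (hA.inter measurableSet_Ioc)]
  have hf1 : volume (A ∩ Ioc (0 : ℝ) (1 / 2)) ≠ ∞ :=
    ne_top_of_le_ne_top (by simp) (measure_mono inter_subset_right)
  have hf2 : volume (A ∩ Ioc (1 / 2 : ℝ) 1) ≠ ∞ :=
    ne_top_of_le_ne_top (by simp) (measure_mono inter_subset_right)
  simp only [Measure.real]
  rw [h2, S0_map_apply A hA, S1_map_apply A hA, ENNReal.toReal_add hf1 hf2, ENNReal.toReal_mul,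
    ENNReal.toReal_mul]
  norm_num
  ring

/-! ### General rules -/

theorem mp (m : Measure ℝ) [IsProbabilityMeasure m] {f : ℝ → ℝ} (hf : Measurable f) :
    IsProbabilityMeasure (m.map f) := Measure.isProbabilityMeasure_map hf.aemeasurable

theorem R_S0 {m : Measure ℝ} (hm : m (Ioc 0 1)ᶜ = 0) : (m.map S0).map R = (m.map R).map J := by
  rw [Measure.map_map measurable_R mS0, Measure.map_map mJ measurable_R]
  refine Measure.map_congr ?_
  have h : ∀ᵐ x ∂m, x ∈ Ioc (0 : ℝ) 1 := by rw [ae_iff]; exact hm
  filter_upwards [h] with x hx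
  exact R_half hx

theorem R_S1 {m : Measure ℝ} (hm : m (Ioc 0 1)ᶜ = 0) :
    (m.map S1).map R = ((m.map R).map J).map S0 := by
  rw [Measure.map_map measurable_R mS1, Measure.map_map mJ measurable_R,
    Measure.map_map mS0 (mJ.comp measurable_R)]
  refine Measure.map_congr ?_
  have h : ∀ᵐ x ∂m, x ∈ Ioc (0 : ℝ) 1 := by rw [ae_iff]; exact hm
  filter_upwards [h] with x hx
  exact R_half_one hx

theorem J_J (m : Measure ℝ) : (m.map J).map J = m := by
  rw [Measure.map_map mJ mJ]
  have : J ∘ J = id := by funext x; simp [J]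
  rw [this, Measure.map_id]

theorem J_S0 (m : Measure ℝ) : (m.map S0).map J = (m.map J).map S1 := by
  rw [Measure.map_map mJ mS0, Measure.map_map mS1 mJ]
  congr 1
  funext x; simp only [Function.comp_apply, J, S0, S1]; ring

theorem J_S1 (m : Measure ℝ) : (m.map S1).map J = (m.map J).map S0 := by
  rw [Measure.map_map mJ mS1, Measure.map_map mS0 mJ]
  congr 1
  funext x; simp only [Function.comp_apply, J, S0, S1]; ring

/-- linear combination of measures -/
noncomputable def comb (a b : ℝ) (m n : Measure ℝ) : Measure ℝ :=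
  ENNReal.ofReal a • m + ENNReal.ofReal b • n

theorem comb_real {a b : ℝ} (ha : 0 ≤ a) (hb : 0 ≤ b) (m n : Measure ℝ) [IsFiniteMeasure m]
    [IsFiniteMeasure n] (A : Set ℝ) : (comb a b m n).real A = a * m.real A + b * n.real A := by
  unfold comb
  simp only [Measure.real, Measure.add_apply, Measure.smul_apply, smul_eq_mul]
  rw [ENNReal.toReal_add (by finiteness) (by finiteness), ENNReal.toReal_mul, ENNReal.toReal_mul,
    ENNReal.toReal_ofReal ha, ENNReal.toReal_ofReal hb]

instance comb_finite (a b : ℝ) (m n : Measure ℝ) [IsFiniteMeasure m] [IsFiniteMeasure n] :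
    IsFiniteMeasure (comb a b m n) := by
  constructor
  unfold comb
  simp only [Measure.add_apply, Measure.smul_apply, smul_eq_mul]
  finiteness

theorem comb_map (a b : ℝ) (m n : Measure ℝ) {f : ℝ → ℝ} (hf : Measurable f) :
    (comb a b m n).map f = comb a b (m.map f) (n.map f) := by
  unfold comb
  rw [Measure.map_add _ _ hf, Measure.map_smul, Measure.map_smul]

theorem meas_eq {m n : Measure ℝ} [IsFiniteMeasure m] [IsFiniteMeasure n]
    (h : ∀ A, MeasurableSet A → m.real A = n.real A) : m = n := by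
  ext A hA
  exact (ENNReal.toReal_eq_toReal_iff' (measure_ne_top _ _) (measure_ne_top _ _)).1 (h A hA)

/-! ### The image of the Lebesgue measure -/

/-- `R_* λ` -/
noncomputable def nu : Measure ℝ := lam.map R

instance : IsProbabilityMeasure nu := mp lam measurable_R

instance instJnu : IsProbabilityMeasure (nu.map J) := mp nu mJ

theorem lam_comb : lam = comb (1 / 2) (1 / 2) (lam.map S0) (lam.map S1) := by
  have := mp lam mS0
  have := mp lam mS1
  refine meas_eq fun A hA => ?_
  rw [comb_real (by norm_num) (by norm_num)]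
  exact lam_split A hA

theorem nu_eq1 : nu = comb (1 / 2) (1 / 2) (nu.map J) ((nu.map J).map S0) := by
  have h1 := congrArg (fun m => Measure.map R m) lam_comb
  rw [comb_map _ _ _ _ measurable_R, R_S0 lam_conc, R_S1 lam_conc] at h1
  exact h1

theorem Jnu_eq : nu.map J = comb (1 / 2) (1 / 2) nu (nu.map S1) := by
  have h1 := congrArg (fun m => Measure.map J m) nu_eq1
  rw [comb_map _ _ _ _ mJ, J_J, J_S0, J_J] at h1
  exact h1

theorem nu_eq2 : nu = comb (1 / 3) (2 / 3) (nu.map S1) ((nu.map J).map S0) := by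
  have := mp nu mS1
  have := mp (nu.map J) mS0
  refine meas_eq fun A hA => ?_
  have h1 := congrArg (fun m : Measure ℝ => m.real A) nu_eq1
  have h2 := congrArg (fun m : Measure ℝ => m.real A) Jnu_eq
  rw [comb_real (by norm_num) (by norm_num)] at h1 h2 ⊢
  linarith

/-- `ν` is concentrated on `(0, 1)` -/
theorem nu_conc : nu (Ioo 0 1)ᶜ = 0 := by
  have h01 : nu (Icc 0 1)ᶜ = 0 := by
    unfold nu
    rw [Measure.map_apply measurable_R measurableSet_Icc.compl]
    have : R ⁻¹' (Icc 0 1)ᶜ = ∅ := by
      ext x; simp only [mem_preimage, mem_compl_iff, mem_empty_iff_false, iff_false, not_not]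
      exact R_mem x
    rw [this, measure_empty]
  have hout : ∀ x : ℝ, x ∉ Icc (0 : ℝ) 1 → nu.real {x} = 0 := by
    intro x hx
    rw [Measure.real, measure_mono_null (singleton_subset_iff.2 hx) h01]
    rfl
  have := mp nu mS1
  have := mp (nu.map J) mS0
  have hs : ∀ x : ℝ, nu.real {x} = 1 / 3 * nu.real {2 * x - 1} + 2 / 3 * nu.real {1 - 2 * x} := by
    intro x
    have h1 := congrArg (fun m : Measure ℝ => m.real {x}) nu_eq2
    rw [comb_real (by norm_num) (by norm_num)] at h1
    have h2 : (nu.map S1).real {x} = nu.real {2 * x - 1} := by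
      rw [Measure.real, Measure.map_apply mS1 (measurableSet_singleton x), ← Measure.real]
      congr 1
      ext y
      simp only [mem_preimage, mem_singleton_iff, S1]
      constructor <;> intro h <;> linarith
    have h3 : ((nu.map J).map S0).real {x} = nu.real {1 - 2 * x} := by
      rw [Measure.real, Measure.map_map mS0 mJ,
        Measure.map_apply (mS0.comp mJ) (measurableSet_singleton x), ← Measure.real]
      congr 1
      ext y
      simp only [mem_preimage, mem_singleton_iff, Function.comp_apply, J, S0]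
      constructor <;> intro h <;> linarith
    rw [h2, h3] at h1
    exact h1
  have h1 : nu.real {(1 : ℝ)} = 0 := by
    have h2 := hs 1
    have h3 := hout (1 - 2 * 1) (by norm_num)
    norm_num at h2 h3
    linarith
  have h0 : nu.real {(0 : ℝ)} = 0 := by
    have h2 := hs 0
    have h3 := hout (2 * 0 - 1) (by norm_num)
    norm_num at h2 h3
    linarith
  have h0' : nu {(0 : ℝ)} = 0 := by
    rw [Measure.real, ENNReal.toReal_eq_zero_iff] at h0
    exact h0.resolve_right (measure_ne_top _ _)
  have h1' : nu {(1 : ℝ)} = 0 := by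
    rw [Measure.real, ENNReal.toReal_eq_zero_iff] at h1
    exact h1.resolve_right (measure_ne_top _ _)
  refine measure_mono_null (t := (Icc 0 1)ᶜ ∪ ({0} ∪ {1})) ?_ (measure_union_null h01
    (measure_union_null h0' h1'))
  intro x hx
  by_cases h : x ∈ Icc (0 : ℝ) 1
  · right
    by_contra h2
    simp only [mem_union, mem_singleton_iff, not_or] at h2
    exact hx ⟨lt_of_le_of_ne h.1 (Ne.symm h2.1), lt_of_le_of_ne h.2 h2.2⟩
  · exact Or.inl h

theorem nu_concIoc : nu (Ioc 0 1)ᶜ = 0 :=
  measure_mono_null (compl_subset_compl.2 Ioo_subset_Ioc_self) nu_conc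

theorem Jnu_conc : nu.map J (Ioc 0 1)ᶜ = 0 := by
  rw [Measure.map_apply mJ measurableSet_Ioc.compl]
  refine measure_mono_null ?_ nu_conc
  intro x hx
  simp only [mem_preimage, J, mem_compl_iff, mem_Ioc, mem_Ioo, not_and, not_lt, not_le] at hx ⊢
  intro h
  by_contra h2
  push Not at h2
  linarith [hx (by linarith)]

/-- `D = R_* ν`; it will turn out that `D = λ`. -/
noncomputable def DD : Measure ℝ := nu.map R

/-- `E = R_* J_* ν` -/
noncomputable def EE : Measure ℝ := (nu.map J).map R

instance : IsProbabilityMeasure DD := mp nu measurable_R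
instance : IsProbabilityMeasure EE := mp (nu.map J) measurable_R

theorem EE_eq : EE = comb (1 / 2) (1 / 2) DD ((DD.map J).map S0) := by
  have h1 := congrArg (fun m => Measure.map R m) Jnu_eq
  rw [comb_map _ _ _ _ measurable_R, R_S1 nu_concIoc] at h1
  exact h1

theorem DD_eq : DD = comb (1 / 3) (2 / 3) ((DD.map J).map S0) (EE.map J) := by
  have h1 := congrArg (fun m => Measure.map R m) nu_eq2
  rw [comb_map _ _ _ _ measurable_R, R_S1 nu_concIoc, R_S0 Jnu_conc] at h1
  exact h1

theorem JEE_eq : EE.map J = comb (1 / 2) (1 / 2) (DD.map J) (DD.map S1) := by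
  have h1 := congrArg (fun m => Measure.map J m) EE_eq
  rw [comb_map _ _ _ _ mJ, J_S0, J_J] at h1
  exact h1

theorem DD_J : DD.map J = DD := by
  have i1 := mp DD mJ
  have i2 := mp (DD.map J) mS0
  have i3 := mp DD mS1
  have i4 := mp EE mJ
  refine meas_eq fun A hA => ?_
  have h1 := congrArg (fun m : Measure ℝ => m.real A) DD_eq
  have h2 := congrArg (fun m : Measure ℝ => m.real A) JEE_eq
  have h3 : DD.map J = comb (1 / 3) (2 / 3) (DD.map S1) EE := by
    have h4 := congrArg (fun m => Measure.map J m) DD_eq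
    rw [comb_map _ _ _ _ mJ, J_S0, J_J, J_J] at h4
    exact h4
  have h3' := congrArg (fun m : Measure ℝ => m.real A) h3
  have h4 := congrArg (fun m : Measure ℝ => m.real A) EE_eq
  rw [comb_real (by norm_num) (by norm_num)] at h1 h2 h3' h4
  linarith

theorem DD_self : DD = comb (1 / 2) (1 / 2) (DD.map S0) (DD.map S1) := by
  have i1 := mp DD mS0
  have i2 := mp DD mS1
  have i4 := mp EE mJ
  refine meas_eq fun A hA => ?_
  have h1 := congrArg (fun m : Measure ℝ => m.real A) DD_eq
  have h2 := congrArg (fun m : Measure ℝ => m.real A) JEE_eq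
  rw [DD_J] at h1 h2
  rw [comb_real (by norm_num) (by norm_num)] at h1 h2 ⊢
  linarith

/-- uniqueness of the self-similar measure, by characteristic functions -/
theorem self_similar_unique {m n : Measure ℝ} [IsProbabilityMeasure m] [IsProbabilityMeasure n]
    (hm : m = comb (1 / 2) (1 / 2) (m.map S0) (m.map S1))
    (hn : n = comb (1 / 2) (1 / 2) (n.map S0) (n.map S1)) : m = n := by
  have key : ∀ (q : Measure ℝ) [IsProbabilityMeasure q],
      q = comb (1 / 2) (1 / 2) (q.map S0) (q.map S1) → ∀ t : ℝ, charFun q t =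
        (1 / 2) * (1 + Complex.exp (t / 2 * Complex.I)) * charFun q (t / 2) := by
    intro q _ hq t
    have i1 := mp q mS0
    have i2 := mp q mS1
    conv_lhs => rw [hq]
    rw [charFun_apply_real, charFun_apply_real]
    unfold comb
    have hint : ∀ (p : Measure ℝ) [IsProbabilityMeasure p] (c : ℝ≥0∞), c ≠ ∞ →
        Integrable (fun x : ℝ => Complex.exp (t * x * Complex.I)) (c • p) := by
      intro p _ c hc
      refine Integrable.smul_measure ?_ hc
      refine Integrable.of_bound (by fun_prop) 1 (ae_of_all _ fun x => ?_)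
      rw [← Complex.ofReal_mul, Complex.norm_exp_ofReal_mul_I]
    rw [integral_add_measure (hint _ _ ENNReal.ofReal_ne_top) (hint _ _ ENNReal.ofReal_ne_top),
      integral_smul_measure, integral_smul_measure,
      integral_map mS0.aemeasurable (by fun_prop), integral_map mS1.aemeasurable (by fun_prop),
      ENNReal.toReal_ofReal (by norm_num)]
    have h1 : ∀ x : ℝ, Complex.exp (t * (S0 x : ℝ) * Complex.I) =
        Complex.exp ((t / 2 : ℝ) * x * Complex.I) := by
      intro x
      congr 1
      simp only [S0]; push_cast; ring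
    have h2 : ∀ x : ℝ, Complex.exp (t * (S1 x : ℝ) * Complex.I) =
        Complex.exp (t / 2 * Complex.I) * Complex.exp ((t / 2 : ℝ) * x * Complex.I) := by
      intro x
      rw [← Complex.exp_add]
      congr 1
      simp only [S1]; push_cast; ring
    simp_rw [h1, h2]
    rw [integral_const_mul]
    simp only [Complex.real_smul]
    push_cast
    ring
  refine Measure.ext_of_charFun ?_
  funext t
  have hdiff : ∀ k : ℕ, ‖charFun m t - charFun n t‖ ≤
      ‖charFun m (t / 2 ^ k) - charFun n (t / 2 ^ k)‖ := by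
    intro k
    induction k with
    | zero => simp
    | succ k ih =>
      refine ih.trans ?_
      rw [key m hm, key n hn, ← mul_sub, norm_mul]
      have h1 : t / 2 ^ k / 2 = t / 2 ^ (k + 1) := by rw [pow_succ]; field_simp
      rw [h1]
      refine mul_le_of_le_one_left (norm_nonneg _) ?_
      rw [norm_mul]
      have h2 : ‖(1 : ℂ) + Complex.exp (((t / 2 ^ k : ℝ) : ℂ) / 2 * Complex.I)‖ ≤ 2 := by
        refine (norm_add_le _ _).trans ?_
        have h3 : (((t / 2 ^ k : ℝ) : ℂ) / 2 * Complex.I) = ((t / 2 ^ k / 2 : ℝ) : ℂ) * Complex.I := by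
          push_cast; ring
        rw [h3, Complex.norm_exp_ofReal_mul_I]
        norm_num
      have h4 : ‖(1 / 2 : ℂ)‖ = 1 / 2 := by norm_num
      rw [h4]
      linarith
  have hlim : Tendsto (fun k : ℕ => ‖charFun m (t / 2 ^ k) - charFun n (t / 2 ^ k)‖) atTop (𝓝 0) := by
    have h1 : Tendsto (fun k : ℕ => t / 2 ^ k) atTop (𝓝 0) := by
      have := (tendsto_pow_atTop_nhds_zero_of_lt_one (show (0 : ℝ) ≤ 1 / 2 by norm_num)
        (by norm_num)).const_mul t
      rw [mul_zero] at this
      refine this.congr fun k => ?_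
      rw [one_div, inv_pow]; rfl
    have h2 : Tendsto (fun k : ℕ => charFun m (t / 2 ^ k)) atTop (𝓝 (charFun m 0)) :=
      (continuous_charFun.tendsto 0).comp h1
    have h3 : Tendsto (fun k : ℕ => charFun n (t / 2 ^ k)) atTop (𝓝 (charFun n 0)) :=
      (continuous_charFun.tendsto 0).comp h1
    have h4 := (h2.sub h3).norm
    simpa using h4
  have h5 : ‖charFun m t - charFun n t‖ ≤ 0 := ge_of_tendsto hlim (Eventually.of_forall hdiff)
  exact sub_eq_zero.1 (norm_le_zero_iff.1 h5)

/-- `R²` preserves Lebesgue measure. -/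
theorem DD_eq_lam : DD = lam := self_similar_unique DD_self lam_comb

theorem EE_lam : EE = comb (3 / 4) (1 / 4) (lam.map S0) (lam.map S1) := by
  have i1 := mp lam mS0
  have i2 := mp lam mS1
  refine meas_eq fun A hA => ?_
  have h1 := congrArg (fun m : Measure ℝ => m.real A) EE_eq
  have h2 := congrArg (fun m : Measure ℝ => m.real A) lam_comb
  rw [DD_J, DD_eq_lam] at h1
  rw [comb_real (by norm_num) (by norm_num)] at h1 h2 ⊢
  linarith

end Q70.Er
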