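import Pool.Agent.Q70.ErB

/-!
# The erasing substitution map: almost every orbit is dense
-/

set_option autoImplicit false

open MeasureTheory Set Filter Topology
open scoped ENNReal

namespace Q70.Er

/-- measures with a biased first digit and otherwise uniform digits -/
noncomputable def cls (a b : ℝ) : Measure ℝ := comb a b (lam.map S0) (lam.map S1)

instance iS0 : IsProbabilityMeasure (lam.map S0) := mp lam mS0
instance iS1 : IsProbabilityMeasure (lam.map S1) := mp lam mS1
instance icls (a b : ℝ) : IsFiniteMeasure (cls a b) := comb_finite _ _ _ _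

theorem cls_real {a b : ℝ} (ha : 0 ≤ a) (hb : 0 ≤ b) (A : Set ℝ) :
    (cls a b).real A = a * (lam.map S0).real A + b * (lam.map S1).real A := comb_real ha hb _ _ A

theorem lam_cls : lam = cls (1 / 2) (1 / 2) := lam_comb

/-- `R` followed by a reflection if `e` is true -/
noncomputable def Rr (e : Bool) (x : ℝ) : ℝ := if e = true then J (R x) else R x

theorem mRr (e : Bool) : Measurable (Rr e) := by
  cases e
  · exact measurable_R
  · exact mJ.comp measurable_R

theorem Rr_map (e : Bool) (m : Measure ℝ) :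
    m.map (Rr e) = if e = true then (m.map R).map J else m.map R := by
  cases e
  · rfl
  · rw [if_pos rfl, Measure.map_map mJ measurable_R]
    rfl

theorem cls_map_R (a b : ℝ) : (cls a b).map R = comb a b (nu.map J) ((nu.map J).map S0) := by
  unfold cls
  rw [comb_map _ _ _ _ measurable_R, R_S0 lam_conc, R_S1 lam_conc]
  rfl

theorem cls_map_J (a b : ℝ) : (cls a b).map J = cls b a := by
  unfold cls
  rw [comb_map _ _ _ _ mJ, J_S0, J_S1, J_map_lam]
  unfold comb
  rw [add_comm]

theorem two_false (a b : ℝ) (ha : 0 ≤ a) (hb : 0 ≤ b) :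
    ((cls a b).map R).map R = cls (3 / 4 * a + 1 / 4 * b) (1 / 4 * a + 3 / 4 * b) := by
  have h1 : ((cls a b).map R).map R = comb a b EE (EE.map J) := by
    rw [cls_map_R, comb_map _ _ _ _ measurable_R, R_S0 Jnu_conc]
    rfl
  have i1 : IsProbabilityMeasure (EE.map J) := mp EE mJ
  have h2 : EE.map J = cls (1 / 4) (3 / 4) := by
    rw [EE_lam]
    exact cls_map_J _ _
  have h3 : EE = cls (3 / 4) (1 / 4) := EE_lam
  rw [h1]
  refine meas_eq fun A hA => ?_
  rw [comb_real ha hb, cls_real (by positivity) (by positivity), h2, h3,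
    cls_real (by positivity) (by positivity), cls_real (by positivity) (by positivity)]
  ring

theorem two_true (a b : ℝ) (ha : 0 ≤ a) (hb : 0 ≤ b) :
    (((cls a b).map R).map J).map R = cls (1 / 2 * a + b) (1 / 2 * a) := by
  have h1 : (((cls a b).map R).map J).map R = comb a b lam (lam.map S0) := by
    rw [cls_map_R, comb_map _ _ _ _ mJ, J_J, J_S0, J_J, comb_map _ _ _ _ measurable_R,
      R_S1 nu_concIoc]
    have h2 : nu.map R = lam := DD_eq_lam
    rw [h2, J_map_lam]
  rw [h1]
  refine meas_eq fun A hA => ?_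
  rw [comb_real ha hb, cls_real (by positivity) (by positivity)]
  have h2 : lam.real A = (cls (1 / 2) (1 / 2)).real A := by rw [← lam_cls]
  rw [h2, cls_real (by positivity) (by positivity)]
  ring

theorem two_step (e e' : Bool) {a b : ℝ} (ha : 0 ≤ a) (hb : 0 ≤ b) (hab : a + b = 1) :
    ∃ a' b' : ℝ, 0 ≤ a' ∧ 0 ≤ b' ∧ a' + b' = 1 ∧
      ((cls a b).map (Rr e)).map (Rr e') = cls a' b' := by
  have key : ∃ a' b' : ℝ, 0 ≤ a' ∧ 0 ≤ b' ∧ a' + b' = 1 ∧
      ((cls a b).map (Rr e)).map R = cls a' b' := by
    cases e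
    · exact ⟨3 / 4 * a + 1 / 4 * b, 1 / 4 * a + 3 / 4 * b, by positivity, by positivity,
        by linarith, by rw [Rr_map]; exact two_false a b ha hb⟩
    · exact ⟨1 / 2 * a + b, 1 / 2 * a, by positivity, by positivity, by linarith, by
        rw [Rr_map, if_pos rfl]; exact two_true a b ha hb⟩
  obtain ⟨a', b', h1, h2, h3, h4⟩ := key
  cases e'
  · exact ⟨a', b', h1, h2, h3, by rw [Rr_map]; exact h4⟩
  · refine ⟨b', a', h2, h1, by linarith, ?_⟩
    rw [Rr_map, if_pos rfl, h4, cls_map_J]

theorem map_S0_conc {m : Measure ℝ} (hm : m (Ioc 0 1)ᶜ = 0) : m.map S0 (Ioc 0 1)ᶜ = 0 := by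
  rw [Measure.map_apply mS0 measurableSet_Ioc.compl]
  refine measure_mono_null ?_ hm
  intro x hx
  simp only [mem_preimage, S0, mem_compl_iff, mem_Ioc, not_and, not_le] at hx ⊢
  intro h
  have := hx (by linarith)
  linarith

theorem map_S1_conc {m : Measure ℝ} (hm : m (Ioc 0 1)ᶜ = 0) : m.map S1 (Ioc 0 1)ᶜ = 0 := by
  rw [Measure.map_apply mS1 measurableSet_Ioc.compl]
  refine measure_mono_null ?_ hm
  intro x hx
  simp only [mem_preimage, S1, mem_compl_iff, mem_Ioc, not_and, not_le] at hx ⊢
  intro h
  have := hx (by linarith)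
  linarith

theorem comb_conc {a b : ℝ} {m n : Measure ℝ} (hm : m (Ioc 0 1)ᶜ = 0) (hn : n (Ioc 0 1)ᶜ = 0) :
    comb a b m n (Ioc 0 1)ᶜ = 0 := by
  unfold comb
  simp [hm, hn]

theorem cls_conc (a b : ℝ) : cls a b (Ioc 0 1)ᶜ = 0 :=
  comb_conc (map_S0_conc lam_conc) (map_S1_conc lam_conc)

theorem one_conc (e : Bool) (a b : ℝ) : (cls a b).map (Rr e) (Ioc 0 1)ᶜ = 0 := by
  rw [Rr_map, cls_map_R]
  cases e
  · rw [if_neg (by simp)]
    exact comb_conc Jnu_conc (map_S0_conc Jnu_conc)
  · rw [if_pos rfl, comb_map _ _ _ _ mJ, J_J, J_S0, J_J]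
    exact comb_conc nu_concIoc (map_S1_conc nu_concIoc)

/-! ### Words -/

/-- the branch of a word -/
noncomputable def Sw : List Bool → ℝ → ℝ
  | [] => id
  | a :: u => fun x => if a = true then S1 (Sw u x) else S0 (Sw u x)

/-- the substitution on finite words; `e` records the parity of the position -/
def rhoW : Bool → List Bool → List Bool
  | _, [] => []
  | e, true :: u => e :: rhoW (!e) u
  | e, false :: u => rhoW (!e) u

/-- the parity after a word -/
def fl : Bool → List Bool → Bool
  | e, [] => e
  | e, _ :: u => fl (!e) u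

theorem Sw_formula (u : List Bool) (x : ℝ) : Sw u x = Sw u 0 + x / 2 ^ u.length := by
  induction u with
  | nil => simp [Sw]
  | cons a u ih =>
    have h1 : Sw u x = Sw u 0 + x / 2 ^ u.length := ih
    simp only [Sw, List.length_cons]
    rw [h1]
    split_ifs
    · simp only [S1]; rw [pow_succ]; field_simp; ring
    · simp only [S0]; rw [pow_succ]; field_simp

theorem mSw (u : List Bool) : Measurable (Sw u) := by
  have : Sw u = fun x => Sw u 0 + x / 2 ^ u.length := funext (Sw_formula u)
  rw [this]
  fun_prop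

theorem Sw_mem (u : List Bool) {x : ℝ} (hx : x ∈ Ioc (0 : ℝ) 1) : Sw u x ∈ Ioc (0 : ℝ) 1 := by
  induction u with
  | nil => exact hx
  | cons a u ih =>
    simp only [Sw]
    split_ifs
    · simp only [S1, mem_Ioc] at *; constructor <;> linarith [ih.1, ih.2]
    · simp only [S0, mem_Ioc] at *; constructor <;> linarith [ih.1, ih.2]

theorem R_word (u : List Bool) : ∀ (e : Bool) {x : ℝ}, x ∈ Ioc (0 : ℝ) 1 →
    Rr e (Sw u x) = Sw (rhoW e u) (Rr (fl e u) x) := by
  induction u with
  | nil => intro e x hx; rfl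
  | cons a u ih =>
    intro e x hx
    have h1 := Sw_mem u hx
    cases a
    · have h2 : Sw (false :: u) x = Sw u x / 2 := rfl
      have h3 : Rr e (Sw u x / 2) = Rr (!e) (Sw u x) := by
        cases e
        · simp only [Rr, J]; rw [R_half h1]; simp
        · simp only [Rr, J]; rw [R_half h1]; simp
      rw [h2, h3]
      exact ih (!e) hx
    · have h2 : Sw (true :: u) x = (1 + Sw u x) / 2 := rfl
      have h3 : Rr e ((1 + Sw u x) / 2) =
          if e = true then S1 (Rr (!e) (Sw u x)) else S0 (Rr (!e) (Sw u x)) := by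
        cases e
        · simp only [Rr, J, S0, S1]; rw [R_half_one h1]; simp
        · simp only [Rr, J, S0, S1]; rw [R_half_one h1]; simp; ring
      rw [h2, h3, ih (!e) hx]
      rfl

theorem rhoW_length (u : List Bool) : ∀ e, (rhoW e u).length = u.count true := by
  induction u with
  | nil => intro e; rfl
  | cons a u ih =>
    intro e
    cases a
    · simp [rhoW, ih]
    · simp [rhoW, ih]

theorem rhoW_count (u : List Bool) : ∀ e, (rhoW e u).count true ≤
    (u.length + if e = true then 1 else 0) / 2 := by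
  induction u with
  | nil => intro e; simp [rhoW]
  | cons a u ih =>
    intro e
    cases a
    · cases e
      · have := ih true
        simp [rhoW] at this ⊢
        omega
      · have := ih false
        simp [rhoW] at this ⊢
        omega
    · cases e
      · have := ih true
        simp [rhoW] at this ⊢
        omega
      · have := ih false
        simp [rhoW] at this ⊢
        omega

theorem rhoW_shrink {u : List Bool} (hu : u ≠ []) :
    (rhoW false (rhoW false u)).length < u.length := by
  rw [rhoW_length]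
  have h1 := rhoW_count u false
  have h2 : 0 < u.length := List.length_pos_iff.2 hu
  simp at h1
  omega

/-- **Exactness**: after finitely many steps, the image of a cylinder is spread over `(0, 1]`. -/
theorem exact (n : ℕ) : ∀ u : List Bool, u.length ≤ n → ∃ N : ℕ, ∀ a b : ℝ, 0 ≤ a → 0 ≤ b →
    a + b = 1 → ∀ A, MeasurableSet A →
      (1 / 2) * lam.real A ≤ (((cls a b).map (Sw u)).map R^[N]).real A := by
  induction n with
  | zero =>
    intro u hu
    have hu' : u = [] := List.length_eq_zero_iff.1 (by omega)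
    subst hu'
    refine ⟨2, fun a b ha hb hab A hA => ?_⟩
    have h1 : (cls a b).map (Sw []) = cls a b := Measure.map_id
    have h2 : (cls a b).map R^[2] = ((cls a b).map R).map R := by
      rw [Measure.map_map measurable_R measurable_R]; rfl
    rw [h1, h2, two_false a b ha hb, cls_real (by positivity) (by positivity)]
    have h3 : lam.real A = (cls (1 / 2) (1 / 2)).real A := by rw [← lam_cls]
    rw [h3, cls_real (by positivity) (by positivity)]
    have h4 : 0 ≤ (lam.map S0).real A := measureReal_nonneg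
    have h5 : 0 ≤ (lam.map S1).real A := measureReal_nonneg
    have h6 : b = 1 - a := by linarith
    subst h6
    nlinarith [mul_nonneg ha h4, mul_nonneg ha h5, mul_nonneg hb h4, mul_nonneg hb h5]
  | succ n ih =>
    intro u hu
    by_cases hun : u = []
    · exact ih u (by rw [hun]; simp)
    · set u' := rhoW false (rhoW false u) with hu'
      have hlt : u'.length < u.length := rhoW_shrink hun
      obtain ⟨N, hN⟩ := ih u' (by omega)
      refine ⟨N + 2, fun a b ha hb hab A hA => ?_⟩
      obtain ⟨a', b', ha', hb', hab', hab2⟩ := two_step (fl false u) (fl false (rhoW false u))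
        ha hb hab
      have h1 : ((cls a b).map (Sw u)).map R^[N + 2] = ((cls a' b').map (Sw u')).map R^[N] := by
        rw [← hab2]
        have m1 := mSw u
        have m2 := mRr (fl false u)
        have m3 := mRr (fl false (rhoW false u))
        have m4 := mSw u'
        rw [Measure.map_map (measurable_R.iterate _) m1, Measure.map_map m3 m2,
          Measure.map_map m4 (m3.comp m2), Measure.map_map (measurable_R.iterate _)
            (m4.comp (m3.comp m2))]
        refine Measure.map_congr ?_
        have c1 : ∀ᵐ x ∂(cls a b), x ∈ Ioc (0 : ℝ) 1 := by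
          rw [ae_iff]; exact cls_conc a b
        have c2 : ∀ᵐ x ∂(cls a b), Rr (fl false u) x ∈ Ioc (0 : ℝ) 1 := by
          have := one_conc (fl false u) a b
          rw [Measure.map_apply m2 measurableSet_Ioc.compl] at this
          rw [ae_iff]; exact this
        filter_upwards [c1, c2] with x hx1 hx2
        simp only [Function.comp_apply]
        rw [Function.iterate_add_apply]
        congr 1
        have h2 : R (Sw u x) = Sw (rhoW false u) (Rr (fl false u) x) := R_word u false hx1
        have h3 : R (Sw (rhoW false u) (Rr (fl false u) x)) =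
            Sw u' (Rr (fl false (rhoW false u)) (Rr (fl false u) x)) :=
          R_word (rhoW false u) false hx2
        change R (R (Sw u x)) = _
        rw [h2, h3]
      rw [h1]
      exact hN a' b' ha' hb' hab' A hA

/-! ### Density argument -/

/-- the digit words of a point -/
noncomputable def pre (x : ℝ) : ℕ → List Bool
  | 0 => []
  | n + 1 => pre x n ++ [dig x n]

theorem pre_length (x : ℝ) (n : ℕ) : (pre x n).length = n := by
  induction n with
  | zero => rfl
  | succ n ih => simp [pre, ih]

theorem Sw_append (u v : List Bool) (x : ℝ) : Sw (u ++ v) x = Sw u (Sw v x) := by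
  induction u with
  | nil => rfl
  | cons a u ih => simp only [List.cons_append, Sw, ih]

theorem Sw_pre (x : ℝ) (n : ℕ) : Sw (pre x n) (dbl^[n] x) = x := by
  induction n with
  | zero => rfl
  | succ n ih =>
    rw [pre, Sw_append, Function.iterate_succ_apply']
    have h : Sw [dig x n] (dbl (dbl^[n] x)) = dbl^[n] x := by
      by_cases h : 1 / 2 < dbl^[n] x
      · have h1 : dig x n = true := by simp only [dig, decide_eq_true_eq]; exact h
        have h2 : dbl (dbl^[n] x) = 2 * dbl^[n] x - 1 := by
          conv_lhs => unfold dbl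
          exact if_pos h
        rw [h1, h2]
        simp only [Sw, if_true, S1, id]
        ring
      · have h1 : dig x n = false := by simp only [dig, decide_eq_false_iff_not]; exact h
        have h2 : dbl (dbl^[n] x) = 2 * dbl^[n] x := by
          conv_lhs => unfold dbl
          exact if_neg h
        rw [h1, h2]
        simp [Sw, S0]
    rw [h, ih]

/-- scaling -/
theorem Sw_volume (u : List Bool) {B : Set ℝ} (hB : MeasurableSet B) :
    volume (B ∩ Ioc (Sw u 0) (Sw u 0 + 1 / 2 ^ u.length)) =
      ENNReal.ofReal (1 / 2 ^ u.length) * lam (Sw u ⁻¹' B) := by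
  set c := Sw u 0 with hc
  set q : ℝ := 1 / 2 ^ u.length with hq
  have hqpos : 0 < q := by positivity
  unfold lam
  rw [Measure.restrict_apply (mSw u hB)]
  have h1 : Sw u ⁻¹' B ∩ Ioc 0 1 = (fun x : ℝ => q * x) ⁻¹' ((fun x : ℝ => c + x) ⁻¹'
      (B ∩ Ioc c (c + q))) := by
    ext x
    have h2 : Sw u x = c + q * x := by rw [Sw_formula, hq]; ring
    simp only [mem_inter_iff, mem_preimage, mem_Ioc, h2]
    constructor
    · rintro ⟨h, h', h''⟩
      exact ⟨h, by nlinarith, by nlinarith⟩
    · rintro ⟨h, h', h''⟩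
      exact ⟨h, by nlinarith, by nlinarith⟩
  rw [h1, Real.volume_preimage_mul_left hqpos.ne', measure_preimage_add, ← mul_assoc,
    ← ENNReal.ofReal_mul hqpos.le, abs_of_pos (inv_pos.2 hqpos), mul_inv_cancel₀ hqpos.ne',
    ENNReal.ofReal_one, one_mul]

/-- A measurable set which has density at most `1 - ε` in every cylinder is a null set. -/
theorem null_of_density {B : Set ℝ} (hB : MeasurableSet B) {ε : ℝ} (hε : 0 < ε)
    (h : ∀ u : List Bool, lam.real (Sw u ⁻¹' B) ≤ 1 - ε) : lam B = 0 := by
  by_contra hne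
  set S : Set ℝ := B ∩ Ioc 0 1 with hS
  have hSm : MeasurableSet S := hB.inter measurableSet_Ioc
  have hlamS : volume S ≠ 0 := by
    unfold lam at hne
    rwa [Measure.restrict_apply hB] at hne
  have hae := IsUnifLocDoublingMeasure.ae_tendsto_measure_inter_div (μ := (volume : Measure ℝ)) S 1
  have hne2 : (volume.restrict S) ≠ 0 := by
    rw [Ne, Measure.restrict_eq_zero]; exact hlamS
  have hex : ∃ x ∈ S, ∀ {ι : Type} {l : Filter ι} (w : ι → ℝ) (δ : ι → ℝ),
      Tendsto δ l (𝓝[>] 0) → (∀ᶠ j in l, x ∈ Metric.closedBall (w j) (1 * δ j)) →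
      Tendsto (fun j => volume (S ∩ Metric.closedBall (w j) (δ j)) /
        volume (Metric.closedBall (w j) (δ j))) l (𝓝 1) := by
    have h1 : ∀ᵐ x ∂(volume.restrict S), x ∈ S := ae_restrict_mem hSm
    have := ae_neBot.2 hne2
    obtain ⟨x, hx1, hx2⟩ := (h1.and hae).exists
    exact ⟨x, hx1, fun w δ h3 h4 => hx2 w δ h3 h4⟩
  obtain ⟨x, hxS, hx⟩ := hex
  have hx01 : x ∈ Ioc (0 : ℝ) 1 := hxS.2
  let δ : ℕ → ℝ := fun n => 1 / 2 ^ (n + 1)
  let w : ℕ → ℝ := fun n => Sw (pre x n) 0 + δ n
  have hδpos : ∀ n, 0 < δ n := fun n => by positivity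
  have hδ : Tendsto δ atTop (𝓝[>] 0) := by
    refine tendsto_nhdsWithin_iff.2 ⟨?_, Eventually.of_forall hδpos⟩
    have h1 : Tendsto (fun n : ℕ => (1 / 2 : ℝ) ^ (n + 1)) atTop (𝓝 0) :=
      (tendsto_pow_atTop_nhds_zero_of_lt_one (by norm_num) (by norm_num)).comp
        (tendsto_add_atTop_nat 1)
    refine h1.congr fun n => ?_
    simp [δ]
  have hball : ∀ n, Metric.closedBall (w n) (δ n) =
      Icc (Sw (pre x n) 0) (Sw (pre x n) 0 + 1 / 2 ^ n) := by
    intro n
    rw [Real.closedBall_eq_Icc]
    have h2 : w n - δ n = Sw (pre x n) 0 := by simp [w]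
    have h3 : w n + δ n = Sw (pre x n) 0 + 1 / 2 ^ n := by
      simp only [w, δ]; rw [pow_succ]; field_simp; ring
    rw [h2, h3]
  have hxin : ∀ n, x ∈ Metric.closedBall (w n) (1 * δ n) := by
    intro n
    rw [one_mul, hball n]
    have h1 := Sw_pre x n
    rw [Sw_formula, pre_length] at h1
    have h2 := dbl_iter_mem hx01 n
    constructor
    · have : 0 ≤ dbl^[n] x / 2 ^ n := div_nonneg h2.1.le (by positivity)
      linarith
    · have : dbl^[n] x / 2 ^ n ≤ 1 / 2 ^ n := by
        exact div_le_div_of_nonneg_right h2.2 (by positivity)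
      linarith
  have hlim := hx w δ hδ (Eventually.of_forall hxin)
  have hbound : ∀ n, volume (S ∩ Metric.closedBall (w n) (δ n)) /
      volume (Metric.closedBall (w n) (δ n)) ≤ ENNReal.ofReal (1 - ε) := by
    intro n
    have hvol : volume (Metric.closedBall (w n) (δ n)) = ENNReal.ofReal (1 / 2 ^ n) := by
      rw [hball n, Real.volume_Icc]
      congr 1; ring
    have hpos : (0 : ℝ) < 1 / 2 ^ n := by positivity
    rw [hvol]
    rw [ENNReal.div_le_iff (by simpa using hpos) ENNReal.ofReal_ne_top]
    have h1 : volume (S ∩ Metric.closedBall (w n) (δ n)) ≤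
        volume (B ∩ Ioc (Sw (pre x n) 0) (Sw (pre x n) 0 + 1 / 2 ^ (pre x n).length)) := by
      rw [hball n, pre_length]
      have h2 : volume (B ∩ Icc (Sw (pre x n) 0) (Sw (pre x n) 0 + 1 / 2 ^ n)) =
          volume (B ∩ Ioc (Sw (pre x n) 0) (Sw (pre x n) 0 + 1 / 2 ^ n)) :=
        measure_congr ((ae_eq_refl B).inter Ioc_ae_eq_Icc.symm)
      rw [← h2]
      refine measure_mono ?_
      rintro y ⟨hy1, hy2⟩
      exact ⟨hy1.1, hy2⟩
    refine h1.trans ?_
    rw [Sw_volume _ hB, pre_length, mul_comm]
    refine mul_le_mul' ?_ le_rfl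
    rw [← ofReal_measureReal]
    exact ENNReal.ofReal_le_ofReal (h _)
  have h1 : (1 : ℝ≥0∞) ≤ ENNReal.ofReal (1 - ε) := le_of_tendsto hlim (Eventually.of_forall hbound)
  have h2 : ENNReal.ofReal (1 - ε) < 1 := by
    rw [← ENNReal.ofReal_one]
    exact (ENNReal.ofReal_lt_ofReal_iff (by norm_num)).2 (by linarith)
  exact absurd (lt_of_le_of_lt h1 h2) (lt_irrefl _)

/-- Almost every orbit visits a given set of positive measure. -/
theorem ae_visit {A : Set ℝ} (hA : MeasurableSet A) (hpos : 0 < lam.real A) :
    ∀ᵐ x ∂lam, ∃ n, R^[n] x ∈ A := by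
  set B : Set ℝ := {x | ∀ n, R^[n] x ∉ A} with hBdef
  have hB : MeasurableSet B := by
    have : B = ⋂ n, (R^[n] ⁻¹' A)ᶜ := by
      ext x; simp [hBdef]
    rw [this]
    exact MeasurableSet.iInter fun n => ((measurable_R.iterate n) hA).compl
  have h0 : lam B = 0 := by
    refine null_of_density hB (ε := 1 / 2 * lam.real A) (by positivity) fun u => ?_
    obtain ⟨N, hN⟩ := exact u.length u le_rfl
    have h1 := hN (1 / 2) (1 / 2) (by norm_num) (by norm_num) (by norm_num) A hA
    rw [← lam_cls, Measure.map_map (measurable_R.iterate N) (mSw u)] at h1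
    have h2 : (lam.map (R^[N] ∘ Sw u)).real A = lam.real ((R^[N] ∘ Sw u) ⁻¹' A) := by
      rw [Measure.real, Measure.map_apply ((measurable_R.iterate N).comp (mSw u)) hA]
      rfl
    rw [h2] at h1
    have hd : Disjoint (Sw u ⁻¹' B) ((R^[N] ∘ Sw u) ⁻¹' A) := by
      refine Set.disjoint_left.2 fun x hx hx' => ?_
      exact hx N hx'
    have h3 : lam.real (Sw u ⁻¹' B) + lam.real ((R^[N] ∘ Sw u) ⁻¹' A) ≤ 1 := by
      rw [← measureReal_union hd (((measurable_R.iterate N).comp (mSw u)) hA)]
      exact measureReal_le_one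
    linarith
  rw [ae_iff]
  convert h0 using 2
  ext x
  simp [hBdef]

end Q70.Er
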