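import Pool.Agent.Q70.ErC

/-!
# The erasing substitution map: continuity points and conclusions
-/

set_option autoImplicit false

open MeasureTheory Set Filter Topology
open scoped ENNReal

namespace Q70.Er

theorem nu_atom_rec (x : ℝ) :
    nu.real {x} = 1 / 3 * nu.real {2 * x - 1} + 2 / 3 * nu.real {1 - 2 * x} := by
  have := mp nu mS1
  have := mp (nu.map J) mS0
  have h1 := congrArg (fun m : Measure ℝ => m.real {x}) nu_eq2
  rw [comb_real (by norm_num) (by norm_num)] at h1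
  have h2 : (nu.map S1).real {x} = nu.real {2 * x - 1} := by
    rw [Measure.real, Measure.map_apply mS1 (measurableSet_singleton x), ← Measure.real]
    congr 1
    ext y
    simp only [mem_preimage, mem_singleton_iff, S1]
    constructor <;> intro h <;> linarith
  have h3 : ((nu.map J).map S0).real {x} = nu.real {1 - 2 * x} := by
    rw [Measure.real, Measure.map_map mS0 mJ,
      Measure.map_apply (mS0.comp mJ) (measurableSet_singleton x), ← Measure.real]
    congr 1
    ext y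
    simp only [mem_preimage, mem_singleton_iff, Function.comp_apply, J, S0]
    constructor <;> intro h <;> linarith
  rw [h2, h3] at h1
  exact h1

theorem nu_out {x : ℝ} (hx : x ∉ Ioo (0 : ℝ) 1) : nu.real {x} = 0 := by
  rw [Measure.real, measure_mono_null (singleton_subset_iff.2 hx) nu_conc]
  rfl

theorem nu_atom (n : ℕ) : ∀ x : ℝ, nu.real {x} ≤ (2 / 3) ^ n := by
  induction n with
  | zero => intro x; simpa using measureReal_le_one
  | succ n ih =>
    intro x
    rw [nu_atom_rec x, pow_succ]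
    have h1 := ih (2 * x - 1)
    have h2 := ih (1 - 2 * x)
    have h0 : (0 : ℝ) ≤ (2 / 3) ^ n := by positivity
    by_cases h : 2 * x - 1 ∈ Ioo (0 : ℝ) 1
    · have h3 : 1 - 2 * x ∉ Ioo (0 : ℝ) 1 := by
        intro h4
        linarith [h.1, h4.1]
      rw [nu_out h3]
      linarith
    · rw [nu_out h]
      linarith

theorem nu_noAtom (x : ℝ) : nu {x} = 0 := by
  have h1 : Tendsto (fun n : ℕ => (2 / 3 : ℝ) ^ n) atTop (𝓝 0) :=
    tendsto_pow_atTop_nhds_zero_of_lt_one (by norm_num) (by norm_num)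
  have h2 : nu.real {x} ≤ 0 := ge_of_tendsto h1 (Eventually.of_forall fun n => nu_atom n x)
  have h3 : nu.real {x} = 0 := le_antisymm h2 measureReal_nonneg
  rw [Measure.real, ENNReal.toReal_eq_zero_iff] at h3
  exact h3.resolve_right (measure_ne_top _ _)

/-- dyadic points -/
def Dy : Set ℝ := Set.range fun u : List Bool => Sw u 1

theorem Dy_countable : Dy.Countable := countable_range _

theorem nu_Dy : nu Dy = 0 := by
  rw [← biUnion_of_singleton Dy]
  exact (measure_biUnion_null_iff Dy_countable).2 fun x _ => nu_noAtom x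

theorem lam_Dy : lam Dy = 0 := by
  unfold lam
  refine le_antisymm ((Measure.restrict_apply_le _ _).trans ?_) bot_le
  rw [Dy_countable.measure_zero]

theorem lam_concIoo : lam (Ioo 0 1)ᶜ = 0 := by
  unfold lam
  rw [Measure.restrict_apply measurableSet_Ioo.compl]
  refine measure_mono_null (t := {1}) ?_ (by simp)
  rintro x ⟨h1, h2⟩
  simp only [mem_compl_iff, mem_Ioo, not_and, not_lt] at h1
  exact le_antisymm h2.2 (h1 h2.1)

theorem law (k : ℕ) : lam.map R^[k] = lam ∨ lam.map R^[k] = nu := by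
  induction k with
  | zero => left; exact Measure.map_id
  | succ k ih =>
    rw [Function.iterate_succ', ← Measure.map_map measurable_R (measurable_R.iterate k)]
    rcases ih with h | h
    · right; rw [h]; rfl
    · left; rw [h]; exact DD_eq_lam

/-- the good points: the whole orbit is in `(0, 1)` and avoids the dyadic points -/
def Good : Set ℝ := {x | ∀ k, R^[k] x ∈ Ioo (0 : ℝ) 1 \ Dy}

theorem ae_good : ∀ᵐ x ∂lam, x ∈ Good := by
  have : ∀ᵐ x ∂lam, ∀ k, R^[k] x ∈ Ioo (0 : ℝ) 1 \ Dy := by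
    rw [ae_all_iff]
    intro k
    have hm : MeasurableSet (Ioo (0 : ℝ) 1 \ Dy)ᶜ :=
      (measurableSet_Ioo.diff Dy_countable.measurableSet).compl
    have h1 : lam.map R^[k] (Ioo (0 : ℝ) 1 \ Dy)ᶜ = 0 := by
      have h2 : (Ioo (0 : ℝ) 1 \ Dy)ᶜ ⊆ (Ioo 0 1)ᶜ ∪ Dy := by
        intro x hx
        by_cases h : x ∈ Ioo (0 : ℝ) 1
        · right
          by_contra h3
          exact hx ⟨h, h3⟩
        · exact Or.inl h
      refine measure_mono_null h2 ?_
      rcases law k with h | h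
      · rw [h]; exact measure_union_null lam_concIoo lam_Dy
      · rw [h]; exact measure_union_null nu_conc nu_Dy
    rw [Measure.map_apply (measurable_R.iterate k) hm] at h1
    rw [ae_iff]
    exact h1
  exact this

theorem count_pre (x : ℝ) (n : ℕ) :
    (pre x n).count true = Nat.count (fun k => dig x k = true) n := by
  induction n with
  | zero => rfl
  | succ n ih =>
    rw [pre, List.count_append, ih, Nat.count_succ]
    congr 1
    cases h : dig x n <;> simp

theorem continuousAt_R {x : ℝ} (hx : x ∈ Ioo (0 : ℝ) 1 \ Dy) : ContinuousAt R x := by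
  have hx01 : x ∈ Ioc (0 : ℝ) 1 := ⟨hx.1.1, hx.1.2.le⟩
  rw [Metric.continuousAt_iff']
  intro ε hε
  obtain ⟨K, hK⟩ := exists_pow_lt_of_lt_one hε (show (1 / 2 : ℝ) < 1 by norm_num)
  have hinf : (setOf fun k => dig x k = true).Infinite :=
    Nat.frequently_atTop_iff_infinite.1 (Inf_dig hx01)
  set n := Nat.nth (fun k => dig x k = true) K with hn
  have hcount : (pre x n).count true = K := by
    rw [count_pre, hn, Nat.count_nth_of_infinite hinf]
  set u := pre x n with hu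
  have hlen : u.length = n := pre_length x n
  have hxu := Sw_pre x n
  rw [← hu] at hxu
  have ht := dbl_iter_mem hx01 n
  have ht1 : dbl^[n] x ≠ 1 := by
    intro h
    rw [h] at hxu
    exact hx.2 ⟨u, hxu⟩
  have ht' : dbl^[n] x < 1 := lt_of_le_of_ne ht.2 ht1
  have hq : (0 : ℝ) < 1 / 2 ^ u.length := by positivity
  have hxI : x ∈ Ioo (Sw u 0) (Sw u 0 + 1 / 2 ^ u.length) := by
    have h1 := Sw_formula u (dbl^[n] x)
    rw [hxu] at h1
    have h2 : dbl^[n] x / 2 ^ u.length = dbl^[n] x * (1 / 2 ^ u.length) := by ring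
    constructor
    · have : 0 < dbl^[n] x * (1 / 2 ^ u.length) := mul_pos ht.1 hq
      linarith
    · have : dbl^[n] x * (1 / 2 ^ u.length) < 1 * (1 / 2 ^ u.length) :=
        mul_lt_mul_of_pos_right ht' hq
      linarith
  have hval : ∀ y ∈ Ioo (Sw u 0) (Sw u 0 + 1 / 2 ^ u.length), ∃ s ∈ Icc (0 : ℝ) 1,
      R y = Sw (rhoW false u) 0 + s * (1 / 2) ^ K := by
    intro y hy
    set t := (y - Sw u 0) * 2 ^ u.length with ht
    have hp : (0 : ℝ) < 2 ^ u.length := by positivity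
    have ht01 : t ∈ Ioc (0 : ℝ) 1 := by
      have h1 : (0 : ℝ) < y - Sw u 0 := by linarith [hy.1]
      have h2 : y - Sw u 0 < 1 / 2 ^ u.length := by linarith [hy.2]
      constructor
      · exact mul_pos h1 hp
      · rw [lt_div_iff₀ hp] at h2; exact h2.le
    have hy' : y = Sw u t := by
      rw [Sw_formula, ht, mul_div_assoc, div_self hp.ne', mul_one]; ring
    have h3 : R y = Sw (rhoW false u) (Rr (fl false u) t) := by
      rw [hy']; exact R_word u false ht01
    refine ⟨Rr (fl false u) t, ?_, ?_⟩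
    · cases fl false u
      · exact R_mem t
      · have := R_mem t
        simp only [Rr, J, if_true, mem_Icc]
        constructor <;> linarith [this.1, this.2]
    · rw [h3, Sw_formula, rhoW_length, hcount]
      rw [one_div, inv_pow]; rfl
  obtain ⟨s₀, hs₀, hRx⟩ := hval x hxI
  filter_upwards [isOpen_Ioo.mem_nhds hxI] with y hy
  obtain ⟨s, hs, hRy⟩ := hval y hy
  rw [Real.dist_eq, hRy, hRx]
  have h4 : Sw (rhoW false u) 0 + s * (1 / 2) ^ K - (Sw (rhoW false u) 0 + s₀ * (1 / 2) ^ K)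
      = (s - s₀) * (1 / 2) ^ K := by ring
  rw [h4, abs_mul, abs_of_pos (show (0 : ℝ) < (1 / 2) ^ K by positivity)]
  have h5 : |s - s₀| ≤ 1 := by
    rw [abs_le]; constructor <;> linarith [hs.1, hs.2, hs₀.1, hs₀.2]
  calc |s - s₀| * (1 / 2) ^ K ≤ 1 * (1 / 2) ^ K := mul_le_mul_of_nonneg_right h5 (by positivity)
    _ = (1 / 2) ^ K := one_mul _
    _ < ε := hK

theorem continuousAt_iter {x : ℝ} (hx : x ∈ Good) (k : ℕ) : ContinuousAt R^[k] x := by
  induction k with
  | zero => exact continuousAt_id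
  | succ k ih =>
    rw [Function.iterate_succ']
    exact ContinuousAt.comp (continuousAt_R (hx k)) ih

/-- the points with a dense orbit -/
def E : Set ℝ := {x | x ∈ Icc (0 : ℝ) 1 ∧ Icc (0 : ℝ) 1 ⊆ closure (Set.range fun n => R^[n] x)}

/-- the admissible rational intervals -/
def Fam : Set (ℚ × ℚ) := {p | 0 ≤ p.1 ∧ p.1 < p.2 ∧ p.2 ≤ 1}

theorem mem_E {x : ℝ} (hx : x ∈ Icc (0 : ℝ) 1)
    (h : ∀ p ∈ Fam, ∃ n, R^[n] x ∈ Ioo (p.1 : ℝ) p.2) : x ∈ E := by
  refine ⟨hx, fun y hy => ?_⟩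
  rw [Metric.mem_closure_iff]
  intro ε hε
  have h1 : max 0 (y - ε) < min 1 (y + ε) := by
    rw [max_lt_iff, lt_min_iff, lt_min_iff]
    refine ⟨⟨by norm_num, by linarith [hy.1]⟩, by linarith [hy.2], by linarith⟩
  obtain ⟨a, ha1, ha2⟩ := exists_rat_btwn h1
  obtain ⟨b, hb1, hb2⟩ := exists_rat_btwn ha2
  have ha3 := max_lt_iff.1 ha1
  have hb3 := lt_min_iff.1 hb2
  obtain ⟨n, hn⟩ := h (a, b) ⟨by exact_mod_cast ha3.1.le, by exact_mod_cast hb1,
    by exact_mod_cast hb3.1.le⟩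
  refine ⟨R^[n] x, ⟨n, rfl⟩, ?_⟩
  simp only [mem_Ioo] at hn
  rw [Real.dist_eq, abs_lt]
  constructor <;> linarith [hn.1, hn.2, ha3.2, hb3.2]

theorem ae_vis : ∀ᵐ x ∂lam, ∀ p ∈ Fam, ∃ n, R^[n] x ∈ Ioo (p.1 : ℝ) p.2 := by
  rw [ae_ball_iff (Set.to_countable Fam)]
  intro p hp
  refine ae_visit measurableSet_Ioo ?_
  have h0 : (0 : ℝ) ≤ p.1 := by exact_mod_cast hp.1
  have h1 : (p.1 : ℝ) < p.2 := by exact_mod_cast hp.2.1
  have h2 : (p.2 : ℝ) ≤ 1 := by exact_mod_cast hp.2.2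
  unfold lam
  rw [Measure.real, Measure.restrict_apply measurableSet_Ioo]
  have h3 : Ioo (p.1 : ℝ) p.2 ∩ Ioc 0 1 = Ioo (p.1 : ℝ) p.2 := by
    rw [inter_eq_left]
    intro x hx
    exact ⟨lt_of_le_of_lt h0 hx.1, (hx.2.trans_le h2).le⟩
  rw [h3, Real.volume_Ioo, ENNReal.toReal_ofReal (by linarith)]
  linarith

theorem ae_E : ∀ᵐ x ∂lam, x ∈ E := by
  have h1 : ∀ᵐ x ∂lam, x ∈ Ioc (0 : ℝ) 1 := by rw [ae_iff]; exact lam_conc
  filter_upwards [ae_vis, h1] with x hx hx1
  exact mem_E ⟨hx1.1.le, hx1.2⟩ hx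

theorem compl_E_null : volume (Icc (0 : ℝ) 1 \ E) = 0 := by
  have h1 : lam Eᶜ = 0 := ae_iff.1 ae_E
  have h2 : Icc (0 : ℝ) 1 \ E ⊆ {0} ∪ (Eᶜ ∩ Ioc 0 1) := by
    rintro x ⟨hx, hxE⟩
    by_cases h : x = 0
    · exact Or.inl h
    · exact Or.inr ⟨hxE, lt_of_le_of_ne hx.1 (Ne.symm h), hx.2⟩
  refine measure_mono_null h2 (measure_union_null (by simp) ?_)
  unfold lam at h1
  have h3 := Measure.restrict_apply₀' (μ := (volume : Measure ℝ)) (s := Ioc (0 : ℝ) 1) (t := Eᶜ)
    measurableSet_Ioc.nullMeasurableSet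
  rw [h3] at h1
  exact h1

theorem volume_E : volume E = 1 := by
  refine le_antisymm ?_ ?_
  · calc volume E ≤ volume (Icc (0 : ℝ) 1) := measure_mono fun x hx => hx.1
      _ = 1 := by simp
  · calc (1 : ℝ≥0∞) = volume (Icc (0 : ℝ) 1) := by simp
      _ ≤ volume (E ∪ (Icc (0 : ℝ) 1 \ E)) := measure_mono fun x hx => by
          by_cases h : x ∈ E
          · exact Or.inl h
          · exact Or.inr ⟨hx, h⟩
      _ ≤ volume E + volume (Icc (0 : ℝ) 1 \ E) := measure_union_le _ _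
      _ = volume E := by rw [compl_E_null, add_zero]

theorem E_residual : (Subtype.val ⁻¹' E : Set (Icc (0 : ℝ) 1)) ∈ residual (Icc (0 : ℝ) 1) := by
  let U : ℚ × ℚ → Set ℝ := fun p => interior {y | ∃ k, R^[k] y ∈ Ioo (p.1 : ℝ) p.2}
  have hU : ∀ p ∈ Fam, Dense (Subtype.val ⁻¹' U p : Set (Icc (0 : ℝ) 1)) := by
    intro p hp
    rw [dense_iff_inter_open]
    rintro V hV ⟨x, hx⟩
    obtain ⟨W, hW, rfl⟩ := isOpen_induced_iff.1 hV
    have hxW : (x : ℝ) ∈ W := hx
    have hxcl : (x : ℝ) ∈ closure (Ioo (0 : ℝ) 1) := by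
      rw [closure_Ioo (by norm_num)]; exact x.2
    have hne : (W ∩ Ioo (0 : ℝ) 1).Nonempty := mem_closure_iff.1 hxcl W hW hxW
    have hpos : lam (W ∩ Ioo 0 1) ≠ 0 := by
      unfold lam
      rw [Measure.restrict_apply (hW.inter isOpen_Ioo).measurableSet]
      have h1 : W ∩ Ioo (0 : ℝ) 1 ∩ Ioc 0 1 = W ∩ Ioo 0 1 := by
        rw [inter_eq_left]
        intro y hy
        exact ⟨hy.2.1, hy.2.2.le⟩
      rw [h1]
      exact ((hW.inter isOpen_Ioo).measure_pos _ hne).ne'
    have hfr : ∃ y ∈ W ∩ Ioo 0 1, y ∈ Good ∧ ∀ p ∈ Fam, ∃ n, R^[n] y ∈ Ioo (p.1 : ℝ) p.2 := by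
      by_contra hno
      push Not at hno
      apply hpos
      have h2 := ae_good.and ae_vis
      rw [ae_iff] at h2
      refine measure_mono_null ?_ h2
      intro y hy
      simp only [Set.mem_ofPred_eq]
      rintro ⟨h3, h4⟩
      obtain ⟨p, hp, h5⟩ := hno y hy h3
      obtain ⟨n, hn⟩ := h4 p hp
      exact h5 n hn
    obtain ⟨y, hyW, hyG, hyV⟩ := hfr
    refine ⟨⟨y, hyW.2.1.le, hyW.2.2.le⟩, hyW.1, ?_⟩
    obtain ⟨k, hk⟩ := hyV p hp
    have h1 : ∀ᶠ z in 𝓝 y, R^[k] z ∈ Ioo (p.1 : ℝ) p.2 :=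
      (continuousAt_iter hyG k).eventually (isOpen_Ioo.mem_nhds hk)
    change y ∈ interior _
    rw [mem_interior_iff_mem_nhds]
    filter_upwards [h1] with z hz
    exact ⟨k, hz⟩
  have h1 : (⋂ p ∈ Fam, (Subtype.val ⁻¹' U p : Set (Icc (0 : ℝ) 1))) ∈ residual (Icc (0 : ℝ) 1) := by
    refine (countable_bInter_mem (Set.to_countable Fam)).2 fun p hp => ?_
    exact residual_of_dense_open (isOpen_interior.preimage continuous_subtype_val) (hU p hp)
  refine mem_of_superset h1 ?_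
  intro x hx
  refine mem_E x.2 fun p hp => ?_
  have h2 := mem_iInter₂.1 hx p hp
  have h3 : (x : ℝ) ∈ interior {y : ℝ | ∃ k, R^[k] y ∈ Ioo (p.1:ℝ) p.2} := h2
  exact interior_subset (s := {y : ℝ | ∃ k, R^[k] y ∈ Ioo (p.1:ℝ) p.2}) h3

end Q70.Er
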