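import Mathlib

/-!
# First passage percolation on the square lattice: deterministic part

Walks are functions `p : ℕ → ℤ × ℤ` together with a number of steps.  `TT w x y` is the passage time
for the weights `w`, `TB w R x y` the passage time over the walks in the ball of radius `R` about `x`.
-/

set_option autoImplicit false

open Finset

namespace Q70.Fp

/-- distance on the lattice -/
def dd (x y : ℤ × ℤ) : ℕ := (y.1 - x.1).natAbs + (y.2 - x.2).natAbs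

/-- adjacent vertices -/
def Adj (x y : ℤ × ℤ) : Prop := |y.1 - x.1| + |y.2 - x.2| = 1

/-- `p` is a walk of `n` steps from `x` to `y` -/
def IsW (x y : ℤ × ℤ) (n : ℕ) (p : ℕ → ℤ × ℤ) : Prop :=
  p 0 = x ∧ p n = y ∧ ∀ i < n, Adj (p i) (p (i + 1))

/-- the weight of the first `n` steps -/
def Wt (w : Sym2 (ℤ × ℤ) → ℝ) (p : ℕ → ℤ × ℤ) (n : ℕ) : ℝ :=
  ∑ i ∈ range n, w s(p i, p (i + 1))

/-- the passage time -/
noncomputable def TT (w : Sym2 (ℤ × ℤ) → ℝ) (x y : ℤ × ℤ) : ℝ :=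
  sInf {s : ℝ | ∃ n p, IsW x y n p ∧ s = Wt w p n}

/-- the passage time in a ball -/
noncomputable def TB (w : Sym2 (ℤ × ℤ) → ℝ) (R : ℕ) (x y : ℤ × ℤ) : ℝ :=
  sInf {s : ℝ | ∃ n p, (IsW x y n p ∧ ∀ i ≤ n, dd x (p i) ≤ R) ∧ s = Wt w p n}

/-- a self-avoiding walk of `R` steps from `x` of weight at most `s` -/
def Bad (w : Sym2 (ℤ × ℤ) → ℝ) (x : ℤ × ℤ) (R : ℕ) (s : ℝ) : Prop :=
  ∃ q : ℕ → ℤ × ℤ, q 0 = x ∧ (∀ i < R, Adj (q i) (q (i + 1))) ∧ Set.InjOn q (Set.Iic R) ∧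
    Wt w q R ≤ s

lemma dd_self (x : ℤ × ℤ) : dd x x = 0 := by simp [dd]

lemma dd_comm (x y : ℤ × ℤ) : dd x y = dd y x := by simp only [dd]; omega

lemma dd_tri (x y z : ℤ × ℤ) : dd x z ≤ dd x y + dd y z := by simp only [dd]; omega

lemma dd_eq_zero {x y : ℤ × ℤ} (h : dd x y = 0) : x = y := by
  simp only [dd] at h
  exact Prod.ext (by omega) (by omega)

lemma adj_iff {x y : ℤ × ℤ} : Adj x y ↔ dd x y = 1 := by
  simp only [Adj, dd, Int.abs_eq_natAbs]; omega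

lemma dd_add (x y a : ℤ × ℤ) : dd (x + a) (y + a) = dd x y := by
  simp only [dd, Prod.fst_add, Prod.snd_add]; omega

lemma adj_add {x y : ℤ × ℤ} (a : ℤ × ℤ) : Adj (x + a) (y + a) ↔ Adj x y := by
  rw [adj_iff, adj_iff, dd_add]

/-- there is a neighbour closer to the target -/
lemma exists_closer {x y : ℤ × ℤ} {k : ℕ} (h : dd x y = k + 1) : ∃ x', Adj x x' ∧ dd x' y = k := by
  obtain ⟨a, b⟩ := x
  obtain ⟨c, d⟩ := y
  simp only [dd] at h
  rcases lt_trichotomy a c with h1 | h1 | h1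
  · exact ⟨(a + 1, b), by simp only [Adj]; simp, by simp only [dd]; omega⟩
  · rcases lt_trichotomy b d with h2 | h2 | h2
    · exact ⟨(a, b + 1), by simp only [Adj]; simp, by simp only [dd]; omega⟩
    · subst h1; subst h2; simp at h
    · exact ⟨(a, b - 1), by simp only [Adj]; simp, by simp only [dd]; omega⟩
  · exact ⟨(a - 1, b), by simp only [Adj]; simp, by simp only [dd]; omega⟩

/-- a geodesic of the lattice -/
lemma exists_geo (y : ℤ × ℤ) : ∀ (k : ℕ) (x : ℤ × ℤ), dd x y = k →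
    ∃ p, IsW x y k p ∧ ∀ i ≤ k, dd (p i) y = k - i := by
  intro k
  induction k with
  | zero =>
    intro x h
    refine ⟨fun _ => x, ⟨rfl, dd_eq_zero h, fun i hi => absurd hi (Nat.not_lt_zero _)⟩, ?_⟩
    intro i hi
    simp [h]
  | succ k ih =>
    intro x h
    obtain ⟨x', hx, hx'⟩ := exists_closer h
    obtain ⟨p, ⟨h0, h1, h2⟩, h3⟩ := ih x' hx'
    refine ⟨fun i => Nat.casesOn i x p, ⟨rfl, h1, ?_⟩, ?_⟩
    · intro i hi
      rcases i with _ | i
      · show Adj x (p 0)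
        rw [h0]; exact hx
      · exact h2 i (by omega)
    · intro i hi
      rcases i with _ | i
      · simpa using h
      · show dd (p i) y = _
        rw [h3 i (by omega)]; omega

lemma dd_walk {x y : ℤ × ℤ} {n : ℕ} {p : ℕ → ℤ × ℤ} (h : IsW x y n p) :
    ∀ i ≤ n, dd x (p i) ≤ i := by
  intro i
  induction i with
  | zero => intro _; rw [h.1, dd_self]
  | succ i ih =>
    intro hi
    have h1 := ih (by omega)
    have h2 := adj_iff.1 (h.2.2 i (by omega))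
    have h3 := dd_tri x (p i) (p (i + 1))
    omega

/-- cutting a loop -/
lemma cut {w : Sym2 (ℤ × ℤ) → ℝ} (hw : ∀ e, 0 ≤ w e) {x y : ℤ × ℤ} {n : ℕ} {p : ℕ → ℤ × ℤ}
    (h : IsW x y n p) {i j : ℕ} (hij : i < j) (hj : j ≤ n) (hp : p i = p j) :
    ∃ p', IsW x y (n - (j - i)) p' ∧ Wt w p' (n - (j - i)) ≤ Wt w p n := by
  obtain ⟨d, rfl⟩ : ∃ d, j = i + d := ⟨j - i, by omega⟩
  obtain ⟨l, rfl⟩ : ∃ l, n = i + d + l := ⟨n - (i + d), by omega⟩
  have e1 : i + d + l - (i + d - i) = i + l := by omega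
  rw [e1]
  obtain ⟨h0, h1, h2⟩ := h
  refine ⟨fun k => if k ≤ i then p k else p (k + d), ⟨?_, ?_, ?_⟩, ?_⟩
  · simpa using h0
  · by_cases hl : l = 0
    · subst hl
      simp only [add_zero, le_refl, if_true]
      rw [hp]; simpa using h1
    · beta_reduce
      rw [if_neg (by omega)]
      rw [← h1]; congr 1; omega
  · intro k hk
    beta_reduce
    by_cases h3 : k + 1 ≤ i
    · rw [if_pos (by omega), if_pos h3]; exact h2 k (by omega)
    · by_cases h4 : k ≤ i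
      · have hki : k = i := by omega
        have hpk : p k = p (k + d) := by rw [hki]; exact hp
        rw [if_pos h4, if_neg h3, hpk]
        have := h2 (k + d) (by omega)
        rwa [show k + 1 + d = k + d + 1 by ring]
      · rw [if_neg h4, if_neg h3]
        have := h2 (k + d) (by omega)
        rwa [show k + 1 + d = k + d + 1 by ring]
  · unfold Wt
    beta_reduce
    rw [Finset.sum_range_add, show i + d + l = i + (d + l) by ring, Finset.sum_range_add _ i (d + l),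
      Finset.sum_range_add _ d l]
    have a1 : ∑ k ∈ range i, w s(if k ≤ i then p k else p (k + d),
        if k + 1 ≤ i then p (k + 1) else p (k + 1 + d)) = ∑ k ∈ range i, w s(p k, p (k + 1)) := by
      refine Finset.sum_congr rfl fun k hk => ?_
      rw [Finset.mem_range] at hk
      rw [if_pos (by omega), if_pos (by omega)]
    have a2 : ∑ k ∈ range l, w s(if i + k ≤ i then p (i + k) else p (i + k + d),
        if i + k + 1 ≤ i then p (i + k + 1) else p (i + k + 1 + d))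
        = ∑ k ∈ range l, w s(p (i + (d + k)), p (i + (d + k) + 1)) := by
      refine Finset.sum_congr rfl fun k hk => ?_
      rw [if_neg (by omega : ¬ (i + k + 1 ≤ i))]
      by_cases hk0 : k = 0
      · subst hk0
        simp only [add_zero, le_refl, if_true]
        rw [hp, show i + 1 + d = i + d + 1 by ring]
      · rw [if_neg (by omega)]
        rw [show i + k + d = i + (d + k) by ring, show i + k + 1 + d = i + (d + k) + 1 by ring]
    have a3 : 0 ≤ ∑ k ∈ range d, w s(p (i + k), p (i + k + 1)) :=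
      Finset.sum_nonneg fun k _ => hw _
    rw [a1, a2]
    linarith

/-- every walk contains a self-avoiding one -/
lemma exists_saw {w : Sym2 (ℤ × ℤ) → ℝ} (hw : ∀ e, 0 ≤ w e) (x y : ℤ × ℤ) :
    ∀ (n : ℕ) (p : ℕ → ℤ × ℤ), IsW x y n p →
    ∃ n' p', IsW x y n' p' ∧ Wt w p' n' ≤ Wt w p n ∧ Set.InjOn p' (Set.Iic n') := by
  intro n
  induction n using Nat.strong_induction_on with
  | _ n ih =>
    intro p hp
    by_cases hinj : Set.InjOn p (Set.Iic n)
    · exact ⟨n, p, hp, le_rfl, hinj⟩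
    · have : ∃ i j, i < j ∧ j ≤ n ∧ p i = p j := by
        by_contra hcon
        push Not at hcon
        refine hinj fun a ha b hb hab => ?_
        rcases lt_trichotomy a b with h | h | h
        · exact absurd hab (hcon a b h hb)
        · exact h
        · exact absurd hab.symm (hcon b a h ha)
      obtain ⟨i, j, hij, hj, hpp⟩ := this
      obtain ⟨p', h1, h2⟩ := cut hw hp hij hj hpp
      obtain ⟨n'', p'', h3, h4, h5⟩ := ih (n - (j - i)) (by omega) p' h1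
      exact ⟨n'', p'', h3, h4.trans h2, h5⟩

lemma Wt_mono {w : Sym2 (ℤ × ℤ) → ℝ} (hw : ∀ e, 0 ≤ w e) (p : ℕ → ℤ × ℤ) {k n : ℕ} (h : k ≤ n) :
    Wt w p k ≤ Wt w p n :=
  Finset.sum_le_sum_of_subset_of_nonneg (Finset.range_mono h) fun _ _ _ => hw _

lemma Wt_nonneg {w : Sym2 (ℤ × ℤ) → ℝ} (hw : ∀ e, 0 ≤ w e) (p : ℕ → ℤ × ℤ) (n : ℕ) :
    0 ≤ Wt w p n := Finset.sum_nonneg fun _ _ => hw _

/-- a walk which leaves the ball is bad -/
lemma bad_of_exit {w : Sym2 (ℤ × ℤ) → ℝ} (hw : ∀ e, 0 ≤ w e) {x y : ℤ × ℤ} {n : ℕ}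
    {p : ℕ → ℤ × ℤ} (h : IsW x y n p) {R k : ℕ} (hk : k ≤ n) (hR : R < dd x (p k)) :
    Bad w x (R + 1) (Wt w p n) := by
  obtain ⟨n', p', h1, h2, h3⟩ := exists_saw hw x (p k) k p ⟨h.1, rfl, fun i hi => h.2.2 i (by omega)⟩
  have h4 := dd_walk h1 n' le_rfl
  rw [h1.2.1] at h4
  refine ⟨p', h1.1, fun i hi => h1.2.2 i (by omega), h3.mono fun a (ha : a ≤ _) => ?_, ?_⟩
  · show a ≤ n'
    omega
  · exact (Wt_mono hw p' (by omega)).trans (h2.trans (Wt_mono hw p hk))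

lemma bdd {w : Sym2 (ℤ × ℤ) → ℝ} (hw : ∀ e, 0 ≤ w e) (x y : ℤ × ℤ) :
    BddBelow {s : ℝ | ∃ n p, IsW x y n p ∧ s = Wt w p n} :=
  ⟨0, by rintro s ⟨n, p, -, rfl⟩; exact Wt_nonneg hw p n⟩

lemma bddB {w : Sym2 (ℤ × ℤ) → ℝ} (hw : ∀ e, 0 ≤ w e) (R : ℕ) (x y : ℤ × ℤ) :
    BddBelow {s : ℝ | ∃ n p, (IsW x y n p ∧ ∀ i ≤ n, dd x (p i) ≤ R) ∧ s = Wt w p n} :=
  ⟨0, by rintro s ⟨n, p, -, rfl⟩; exact Wt_nonneg hw p n⟩

lemma nonempty (w : Sym2 (ℤ × ℤ) → ℝ) (x y : ℤ × ℤ) :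
    {s : ℝ | ∃ n p, IsW x y n p ∧ s = Wt w p n}.Nonempty := by
  obtain ⟨p, hp, -⟩ := exists_geo y (dd x y) x rfl
  exact ⟨_, _, p, hp, rfl⟩

lemma nonemptyB (w : Sym2 (ℤ × ℤ) → ℝ) {R : ℕ} {x y : ℤ × ℤ} (h : dd x y ≤ R) :
    {s : ℝ | ∃ n p, (IsW x y n p ∧ ∀ i ≤ n, dd x (p i) ≤ R) ∧ s = Wt w p n}.Nonempty := by
  obtain ⟨p, hp, -⟩ := exists_geo y (dd x y) x rfl
  exact ⟨_, _, p, ⟨hp, fun i hi => (dd_walk hp i hi).trans (hi.trans h)⟩, rfl⟩

lemma TT_nonneg {w : Sym2 (ℤ × ℤ) → ℝ} (hw : ∀ e, 0 ≤ w e) (x y : ℤ × ℤ) : 0 ≤ TT w x y :=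
  Real.sInf_nonneg (by rintro s ⟨n, p, -, rfl⟩; exact Wt_nonneg hw p n)

lemma TB_nonneg {w : Sym2 (ℤ × ℤ) → ℝ} (hw : ∀ e, 0 ≤ w e) (R : ℕ) (x y : ℤ × ℤ) :
    0 ≤ TB w R x y :=
  Real.sInf_nonneg (by rintro s ⟨n, p, -, rfl⟩; exact Wt_nonneg hw p n)

lemma TT_le {w : Sym2 (ℤ × ℤ) → ℝ} (hw : ∀ e, 0 ≤ w e) {x y : ℤ × ℤ} {n : ℕ} {p : ℕ → ℤ × ℤ}
    (h : IsW x y n p) : TT w x y ≤ Wt w p n := csInf_le (bdd hw x y) ⟨n, p, h, rfl⟩

lemma exists_lt {w : Sym2 (ℤ × ℤ) → ℝ} {x y : ℤ × ℤ} {s : ℝ} (h : TT w x y < s) :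
    ∃ n p, IsW x y n p ∧ Wt w p n < s := by
  obtain ⟨a, ⟨n, p, hp, rfl⟩, ha⟩ := exists_lt_of_csInf_lt (nonempty w x y) h
  exact ⟨n, p, hp, ha⟩

lemma TT_le_TB {w : Sym2 (ℤ × ℤ) → ℝ} (hw : ∀ e, 0 ≤ w e) {R : ℕ} {x y : ℤ × ℤ}
    (h : dd x y ≤ R) : TT w x y ≤ TB w R x y := by
  refine le_csInf (nonemptyB w h) ?_
  rintro s ⟨n, p, ⟨hp, -⟩, rfl⟩
  exact TT_le hw hp

lemma TB_le_TT {w : Sym2 (ℤ × ℤ) → ℝ} (hw : ∀ e, 0 ≤ w e) {R : ℕ} {x y : ℤ × ℤ} {s : ℝ}
    (hs : TT w x y < s) (hb : ¬ Bad w x (R + 1) s) : TB w R x y ≤ TT w x y := by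
  refine le_of_forall_gt_imp_ge_of_dense fun a ha => ?_
  obtain ⟨n, p, hp, hlt⟩ := exists_lt (lt_min ha hs)
  have hb' : ∀ i ≤ n, dd x (p i) ≤ R := by
    intro i hi
    by_contra hcon
    push Not at hcon
    obtain ⟨q, h1, h2, h3, h4⟩ := bad_of_exit hw hp hi hcon
    exact hb ⟨q, h1, h2, h3, h4.trans (hlt.le.trans (min_le_right _ _))⟩
  exact (csInf_le (bddB hw R x y) ⟨n, p, ⟨hp, hb'⟩, rfl⟩).trans (hlt.le.trans (min_le_left _ _))

/-- joining two walks -/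
lemma join (w : Sym2 (ℤ × ℤ) → ℝ) {x y z : ℤ × ℤ} {n m : ℕ} {p q : ℕ → ℤ × ℤ}
    (hp : IsW x y n p) (hq : IsW y z m q) :
    ∃ r, IsW x z (n + m) r ∧ Wt w r (n + m) = Wt w p n + Wt w q m := by
  refine ⟨fun i => if i < n then p i else q (i - n), ⟨?_, ?_, ?_⟩, ?_⟩
  · by_cases hn : 0 < n
    · simp only [hn, if_true]; exact hp.1
    · have : n = 0 := by omega
      subst this
      simp only [lt_irrefl, if_false, Nat.zero_sub]
      rw [hq.1, ← hp.2.1, hp.1]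
  · beta_reduce
    rw [if_neg (by omega), show n + m - n = m by omega]; exact hq.2.1
  · intro i hi
    beta_reduce
    by_cases h1 : i + 1 < n
    · rw [if_pos (by omega), if_pos h1]; exact hp.2.2 i (by omega)
    · by_cases h2 : i < n
      · have : i + 1 = n := by omega
        rw [if_pos h2, if_neg h1, this, Nat.sub_self, hq.1, ← hp.2.1, ← this]
        exact hp.2.2 i h2
      · rw [if_neg h2, if_neg h1, show i + 1 - n = i - n + 1 by omega]
        exact hq.2.2 (i - n) (by omega)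
  · unfold Wt
    beta_reduce
    rw [Finset.sum_range_add]
    congr 1
    · refine Finset.sum_congr rfl fun i hi => ?_
      rw [Finset.mem_range] at hi
      rw [if_pos hi]
      by_cases h1 : i + 1 < n
      · rw [if_pos h1]
      · have : i + 1 = n := by omega
        rw [if_neg h1, this, Nat.sub_self, hq.1, ← hp.2.1]
    · refine Finset.sum_congr rfl fun i hi => ?_
      rw [if_neg (by omega), if_neg (by omega), show n + i - n = i by omega,
        show n + i + 1 - n = i + 1 by omega]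

lemma TT_tri {w : Sym2 (ℤ × ℤ) → ℝ} (hw : ∀ e, 0 ≤ w e) (x y z : ℤ × ℤ) :
    TT w x z ≤ TT w x y + TT w y z := by
  refine le_of_forall_pos_le_add fun ε hε => ?_
  obtain ⟨n, p, hp, h1⟩ := exists_lt (show TT w x y < TT w x y + ε / 2 by linarith)
  obtain ⟨m, q, hq, h2⟩ := exists_lt (show TT w y z < TT w y z + ε / 2 by linarith)
  obtain ⟨r, hr, h3⟩ := join w hp hq
  have := TT_le hw hr
  linarith

lemma TT_self {w : Sym2 (ℤ × ℤ) → ℝ} (hw : ∀ e, 0 ≤ w e) (x : ℤ × ℤ) : TT w x x = 0 := by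
  refine le_antisymm ?_ (TT_nonneg hw x x)
  have : IsW x x 0 (fun _ => x) := ⟨rfl, rfl, fun i hi => absurd hi (Nat.not_lt_zero _)⟩
  have := TT_le hw this
  simpa [Wt] using this

/-- chains of points -/
lemma TT_chain {w : Sym2 (ℤ × ℤ) → ℝ} (hw : ∀ e, 0 ≤ w e) (x : ℕ → ℤ × ℤ) (N : ℕ) :
    TT w (x 0) (x N) ≤ ∑ i ∈ range N, TT w (x i) (x (i + 1)) := by
  induction N with
  | zero => simp [TT_self hw]
  | succ N ih =>
    rw [Finset.sum_range_succ]
    exact (TT_tri hw _ (x N) _).trans (by linarith)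

/-- the passage time is at most the weight of a geodesic of the lattice -/
lemma exists_geo' (x y : ℤ × ℤ) : ∃ p, IsW x y (dd x y) p ∧ Set.InjOn p (Set.Iic (dd x y)) := by
  obtain ⟨p, hp, h⟩ := exists_geo y (dd x y) x rfl
  refine ⟨p, hp, fun i (hi : i ≤ _) j (hj : j ≤ _) hij => ?_⟩
  have h1 := h i hi
  have h2 := h j hj
  rw [hij] at h1
  omega

/-- a self-avoiding walk uses each edge once -/
lemma edge_inj {p : ℕ → ℤ × ℤ} {n : ℕ} (h : Set.InjOn p (Set.Iic n)) :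
    Set.InjOn (fun i => s(p i, p (i + 1))) (Set.Iio n) := by
  intro i (hi : i < n) j (hj : j < n) hij
  have h' : s(p i, p (i + 1)) = s(p j, p (j + 1)) := hij
  rw [Sym2.eq_iff] at h'
  rcases h' with ⟨h1, -⟩ | ⟨h1, h2⟩
  · exact h (show i ≤ n by omega) (show j ≤ n by omega) h1
  · have h3 := h (show i ≤ n by omega) (show j + 1 ≤ n by omega) h1
    have h4 := h (show i + 1 ≤ n by omega) (show j ≤ n by omega) h2
    omega

end Q70.Fp
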