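import Pool.Agent.Q70.FpA

/-!
# First passage percolation: the product space, measurability, locality, translations
-/

set_option autoImplicit false

open MeasureTheory ProbabilityTheory Finset

namespace Q70.Fp

/-- edges -/
abbrev Ed := Sym2 (ℤ × ℤ)

instance instProbExp : IsProbabilityMeasure (expMeasure 1) := isProbabilityMeasure_expMeasure one_pos

/-- the law of the weights -/
noncomputable def nu : Measure (Ed → ℝ) := Measure.infinitePi (fun _ => expMeasure 1)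

instance instProbNu : IsProbabilityMeasure nu := by unfold nu; infer_instance

/-- positive parts of the weights -/
def pw (w : Ed → ℝ) : Ed → ℝ := fun e => max (w e) 0

lemma pw_nonneg (w : Ed → ℝ) (e : Ed) : 0 ≤ pw w e := le_max_right _ _

lemma measurable_pw (e : Ed) : Measurable (fun w : Ed → ℝ => pw w e) :=
  (measurable_pi_apply e).max measurable_const

lemma measurable_Wt (p : ℕ → ℤ × ℤ) (n : ℕ) : Measurable (fun w : Ed → ℝ => Wt (pw w) p n) :=
  Finset.measurable_fun_sum _ (fun _ _ => measurable_pw _)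

lemma isW_congr {x y : ℤ × ℤ} {n : ℕ} {p p' : ℕ → ℤ × ℤ} (h : ∀ i ≤ n, p i = p' i)
    (hp : IsW x y n p) : IsW x y n p' :=
  ⟨(h 0 (Nat.zero_le _)).symm.trans hp.1, (h n le_rfl).symm.trans hp.2.1, fun i hi => by
    rw [← h i hi.le, ← h (i + 1) hi]; exact hp.2.2 i hi⟩

lemma Wt_congr {w : Ed → ℝ} {n : ℕ} {p p' : ℕ → ℤ × ℤ} (h : ∀ i ≤ n, p i = p' i) :
    Wt w p n = Wt w p' n :=
  Finset.sum_congr rfl fun i hi => by
    rw [Finset.mem_range] at hi
    rw [h i hi.le, h (i + 1) hi]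

/-- extension of a finite sequence -/
def ex {n : ℕ} (q : Fin (n + 1) → ℤ × ℤ) : ℕ → ℤ × ℤ := fun i => if h : i < n + 1 then q ⟨i, h⟩ else 0

lemma ex_spec (n : ℕ) (p : ℕ → ℤ × ℤ) : ∀ i ≤ n, p i = ex (fun j : Fin (n + 1) => p j) i := by
  intro i hi
  have : i < n + 1 := by omega
  simp [ex, this]

lemma measurable_inf (Q : ℕ → (ℕ → ℤ × ℤ) → Prop)
    (hQ : ∀ n p p', (∀ i ≤ n, p i = p' i) → Q n p → Q n p') :
    Measurable (fun w : Ed → ℝ => sInf {s : ℝ | ∃ n p, Q n p ∧ s = Wt (pw w) p n}) := by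
  by_cases hne : ∃ n p, Q n p
  · refine measurable_of_Iio fun a => ?_
    have : (fun w : Ed → ℝ => sInf {s : ℝ | ∃ n p, Q n p ∧ s = Wt (pw w) p n}) ⁻¹' Set.Iio a
        = ⋃ (n : ℕ) (q : Fin (n + 1) → ℤ × ℤ) (_ : Q n (ex q)), {w | Wt (pw w) (ex q) n < a} := by
      ext w
      simp only [Set.mem_preimage, Set.mem_Iio, Set.mem_iUnion, Set.mem_setOf_eq, exists_prop]
      constructor
      · intro h
        obtain ⟨n0, p0, h0⟩ := hne
        obtain ⟨s, ⟨n, p, hp, rfl⟩, hs⟩ := exists_lt_of_csInf_lt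
          (⟨_, n0, p0, h0, rfl⟩ : Set.Nonempty {s : ℝ | ∃ n p, Q n p ∧ s = Wt (pw w) p n}) h
        refine ⟨n, fun j => p j, hQ n p _ (ex_spec n p) hp, ?_⟩
        rwa [← Wt_congr (ex_spec n p)]
      · rintro ⟨n, q, hq, h⟩
        refine lt_of_le_of_lt (csInf_le ⟨0, ?_⟩ ⟨n, ex q, hq, rfl⟩) h
        rintro s ⟨n, p, -, rfl⟩
        exact Wt_nonneg (pw_nonneg w) p n
    rw [this]
    refine MeasurableSet.iUnion fun n => MeasurableSet.iUnion fun q => MeasurableSet.iUnion fun _ => ?_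
    exact measurableSet_lt (measurable_Wt _ _) measurable_const
  · have : (fun w : Ed → ℝ => sInf {s : ℝ | ∃ n p, Q n p ∧ s = Wt (pw w) p n}) = fun _ => sInf ∅ := by
      funext w
      congr 1
      ext s
      simp only [Set.mem_setOf_eq, Set.mem_empty_iff_false, iff_false]
      rintro ⟨n, p, hp, -⟩
      exact hne ⟨n, p, hp⟩
    rw [this]
    exact measurable_const

lemma measurable_TT (x y : ℤ × ℤ) : Measurable (fun w : Ed → ℝ => TT (pw w) x y) :=
  measurable_inf (fun n p => IsW x y n p) (fun _ _ _ h hp => isW_congr h hp)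

lemma measurable_TB (R : ℕ) (x y : ℤ × ℤ) : Measurable (fun w : Ed → ℝ => TB (pw w) R x y) :=
  measurable_inf (fun n p => IsW x y n p ∧ ∀ i ≤ n, dd x (p i) ≤ R)
    (fun _ _ _ h hp => ⟨isW_congr h hp.1, fun i hi => by rw [← h i hi]; exact hp.2 i hi⟩)

/-- the ball -/
noncomputable def ball (R : ℕ) (x : ℤ × ℤ) : Finset (ℤ × ℤ) :=
  ((Finset.Icc (x.1 - R) (x.1 + R)) ×ˢ (Finset.Icc (x.2 - R) (x.2 + R))).filter
    (fun z => dd x z ≤ R)

lemma mem_ball {R : ℕ} {x z : ℤ × ℤ} : z ∈ ball R x ↔ dd x z ≤ R := by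
  simp only [ball, Finset.mem_filter, Finset.mem_product, Finset.mem_Icc, dd]
  omega

/-- the edges of the ball -/
noncomputable def be (R : ℕ) (x : ℤ × ℤ) : Finset Ed := (ball R x ×ˢ ball R x).image (fun a => s(a.1, a.2))

lemma mem_be {R : ℕ} {x a b : ℤ × ℤ} : s(a, b) ∈ be R x ↔ dd x a ≤ R ∧ dd x b ≤ R := by
  simp only [be, Finset.mem_image, Finset.mem_product, mem_ball]
  constructor
  · rintro ⟨⟨c, d⟩, ⟨h1, h2⟩, h3⟩
    rcases Sym2.eq_iff.1 h3 with ⟨h4, h5⟩ | ⟨h4, h5⟩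
    · exact ⟨h4 ▸ h1, h5 ▸ h2⟩
    · exact ⟨h5 ▸ h2, h4 ▸ h1⟩
  · rintro ⟨h1, h2⟩
    exact ⟨(a, b), ⟨h1, h2⟩, rfl⟩

lemma be_disj {R : ℕ} {x y : ℤ × ℤ} (h : 2 * R < dd x y) : Disjoint (be R x) (be R y) := by
  rw [Finset.disjoint_left]
  intro e
  refine Sym2.inductionOn e fun a b => ?_
  intro h1 h2
  rw [mem_be] at h1 h2
  have h3 := dd_tri x a y
  have h4 := dd_comm a y
  omega

lemma TB_dep {R : ℕ} {x y : ℤ × ℤ} {w w' : Ed → ℝ} (h : ∀ e ∈ be R x, w e = w' e) :
    TB (pw w) R x y = TB (pw w') R x y := by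
  unfold TB
  congr 1
  ext s
  have key : ∀ {w w' : Ed → ℝ}, (∀ e ∈ be R x, w e = w' e) → ∀ {n p},
      (∀ i ≤ n, dd x (p i) ≤ R) → Wt (pw w) p n = Wt (pw w') p n := by
    intro w w' h n p hp
    refine Finset.sum_congr rfl fun i hi => ?_
    rw [Finset.mem_range] at hi
    simp only [pw]
    rw [h _ (mem_be.2 ⟨hp i hi.le, hp (i + 1) hi⟩)]
  constructor
  · rintro ⟨n, p, ⟨h1, h2⟩, rfl⟩
    exact ⟨n, p, ⟨h1, h2⟩, key h h2⟩
  · rintro ⟨n, p, ⟨h1, h2⟩, rfl⟩
    exact ⟨n, p, ⟨h1, h2⟩, key (fun e he => (h e he).symm) h2⟩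

/-- independence of functions of disjoint sets of edges -/
lemma integral_mul_disj {f g : (Ed → ℝ) → ℝ} (S T : Finset Ed) (hST : Disjoint S T)
    (hf : Measurable f) (hg : Measurable g)
    (hfS : ∀ w w', (∀ e ∈ S, w e = w' e) → f w = f w')
    (hgT : ∀ w w', (∀ e ∈ T, w e = w' e) → g w = g w') :
    ∫ w, f w * g w ∂nu = (∫ w, f w ∂nu) * ∫ w, g w ∂nu := by
  have hind : iIndepFun (fun (e : Ed) (w : Ed → ℝ) => w e) nu :=
    iIndepFun_infinitePi (P := fun _ => expMeasure 1) (X := fun _ x => x) (fun _ => measurable_id)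
  have h1 := hind.indepFun_finset S T hST (fun e => measurable_pi_apply e)
  let ext (U : Finset Ed) : (U → ℝ) → (Ed → ℝ) := fun u e => if h : e ∈ U then u ⟨e, h⟩ else 0
  have hext : ∀ U, Measurable (ext U) := by
    intro U
    refine measurable_pi_iff.2 fun e => ?_
    by_cases h : e ∈ U
    · simp only [ext, h, dif_pos]; exact measurable_pi_apply _
    · simp only [ext, h, dif_neg, not_false_eq_true]; exact measurable_const
  have h2 := h1.comp (hf.comp (hext S)) (hg.comp (hext T))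
  have e1 : (f ∘ ext S) ∘ (fun (a : Ed → ℝ) (i : S) => a i) = f := by
    funext w
    refine hfS _ _ fun e he => ?_
    simp [ext, he]
  have e2 : (g ∘ ext T) ∘ (fun (a : Ed → ℝ) (i : T) => a i) = g := by
    funext w
    refine hgT _ _ fun e he => ?_
    simp [ext, he]
  rw [e1, e2] at h2
  exact h2.integral_mul_eq_mul_integral hf.aestronglyMeasurable hg.aestronglyMeasurable

lemma integral_prod_disj {ι : Type*} [DecidableEq ι] (I : Finset ι) (S : ι → Finset Ed)
    (f : ι → (Ed → ℝ) → ℝ) (hf : ∀ i, Measurable (f i))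
    (hd : ∀ i w w', (∀ e ∈ S i, w e = w' e) → f i w = f i w')
    (hdisj : ∀ i ∈ I, ∀ j ∈ I, i ≠ j → Disjoint (S i) (S j)) :
    ∫ w, ∏ i ∈ I, f i w ∂nu = ∏ i ∈ I, ∫ w, f i w ∂nu := by
  induction I using Finset.induction_on with
  | empty => simp
  | insert j I hj ih =>
    simp only [Finset.prod_insert hj]
    rw [integral_mul_disj (S j) (I.biUnion S) ?_ (hf j) (Finset.measurable_fun_prod _ fun i _ => hf i)
      (hd j) ?_, ih fun i hi k hk => hdisj i (Finset.mem_insert_of_mem hi) k (Finset.mem_insert_of_mem hk)]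
    · rw [Finset.disjoint_biUnion_right]
      intro i hi
      exact hdisj j (Finset.mem_insert_self _ _) i (Finset.mem_insert_of_mem hi)
        (fun h => hj (h ▸ hi))
    · intro w w' h
      refine Finset.prod_congr rfl fun i hi => hd i _ _ fun e he => h e ?_
      exact Finset.mem_biUnion.2 ⟨i, hi, he⟩

/-- shifted weights -/
def sh (a : ℤ × ℤ) (w : Ed → ℝ) : Ed → ℝ := fun e => w (e.map (· + a))

lemma map_sh (a : ℤ × ℤ) : nu.map (sh a) = nu :=
  Measure.map_infinitePi_infinitePi_of_inj (P := fun _ : Ed => expMeasure 1)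
    (f := Sym2.map (· + a)) (Sym2.map.injective (add_left_injective a))

lemma TT_sh (a x y : ℤ × ℤ) (w : Ed → ℝ) :
    TT (pw (sh a w)) x y = TT (pw w) (x + a) (y + a) := by
  unfold TT
  congr 1
  ext s
  constructor
  · rintro ⟨n, p, ⟨h1, h2, h3⟩, rfl⟩
    refine ⟨n, fun i => p i + a, ⟨by simp [h1], by simp [h2], fun i hi => (adj_add a).2 (h3 i hi)⟩, ?_⟩
    refine Finset.sum_congr rfl fun i _ => ?_
    simp [pw, sh]
  · rintro ⟨n, p, ⟨h1, h2, h3⟩, rfl⟩
    refine ⟨n, fun i => p i - a, ⟨by simp [h1], by simp [h2], fun i hi => ?_⟩, ?_⟩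
    · rw [← adj_add a]; simpa using h3 i hi
    · refine Finset.sum_congr rfl fun i _ => ?_
      simp [pw, sh]

/-- invariance under translations -/
lemma nu_TT_sh (x y : ℤ × ℤ) {S : Set ℝ} (hS : MeasurableSet S) :
    nu.real {w | TT (pw w) x y ∈ S} = nu.real {w | TT (pw w) 0 (y - x) ∈ S} := by
  have hm : Measurable (sh x) := measurable_pi_iff.2 fun e => measurable_pi_apply _
  have h1 : MeasurableSet {w : Ed → ℝ | TT (pw w) 0 (y - x) ∈ S} := (measurable_TT _ _) hS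
  conv_rhs => rw [← map_sh x]
  rw [map_measureReal_apply hm h1]
  congr 1
  ext w
  simp only [Set.mem_preimage, Set.mem_setOf_eq, TT_sh]
  simp

end Q70.Fp
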