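import Pool.Agent.Q70.FpB

/-!
# First passage percolation: exponential bounds
-/

set_option autoImplicit false

open MeasureTheory ProbabilityTheory Finset

namespace Q70.Fp

lemma lintegral_exp (t : ℝ) (ht : t < 1) :
    ∫⁻ x, ENNReal.ofReal (Real.exp (t * x)) ∂(expMeasure 1) = ENNReal.ofReal ((1 - t)⁻¹) := by
  have h0 : (0:ℝ) < 1 - t := by linarith
  have hm : Measurable (fun x : ℝ => ENNReal.ofReal (Real.exp (t * x))) := by fun_prop
  have hd : Measurable (exponentialPDF 1) := (measurable_exponentialPDFReal 1).ennreal_ofReal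
  have e1 : expMeasure 1 = volume.withDensity (exponentialPDF 1) := rfl
  rw [e1, lintegral_withDensity_eq_lintegral_mul _ hd hm]
  have e2 : ∀ x, (exponentialPDF 1 * fun x : ℝ => ENNReal.ofReal (Real.exp (t * x))) x
      = ENNReal.ofReal ((1 - t)⁻¹) * exponentialPDF (1 - t) x := by
    intro x
    simp only [Pi.mul_apply]
    rcases lt_or_ge x 0 with hx | hx
    · rw [exponentialPDF_of_neg hx, exponentialPDF_of_neg hx]; simp
    · rw [exponentialPDF_of_nonneg hx, exponentialPDF_of_nonneg hx,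
        ← ENNReal.ofReal_mul (by positivity), ← ENNReal.ofReal_mul (by positivity)]
      congr 1
      rw [one_mul, one_mul, ← Real.exp_add, ← mul_assoc, inv_mul_cancel₀ h0.ne', one_mul]
      congr 1; ring
  simp only [e2]
  rw [lintegral_const_mul' _ _ ENNReal.ofReal_ne_top, lintegral_exponentialPDF_eq_one h0, mul_one]

lemma integrable_exp (t : ℝ) (ht : t < 1) : Integrable (fun x => Real.exp (t * x)) (expMeasure 1) := by
  refine ⟨by fun_prop, ?_⟩
  rw [hasFiniteIntegral_iff_ofReal (Filter.Eventually.of_forall fun x => (Real.exp_pos _).le),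
    lintegral_exp t ht]
  exact ENNReal.ofReal_lt_top

lemma integral_exp (t : ℝ) (ht : t < 1) :
    ∫ x, Real.exp (t * x) ∂(expMeasure 1) = (1 - t)⁻¹ := by
  rw [integral_eq_lintegral_of_nonneg_ae (Filter.Eventually.of_forall fun x => (Real.exp_pos _).le)
    (by fun_prop), lintegral_exp t ht, ENNReal.toReal_ofReal (inv_nonneg.2 (by linarith))]

lemma ae_nonneg_exp : ∀ᵐ x ∂(expMeasure 1), 0 ≤ x := by
  have e1 : expMeasure 1 = volume.withDensity (exponentialPDF 1) := rfl
  have hd : Measurable (exponentialPDF 1) := (measurable_exponentialPDFReal 1).ennreal_ofReal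
  have hs : MeasurableSet {a : ℝ | ¬ 0 ≤ a} := by
    have : {a : ℝ | ¬ 0 ≤ a} = Set.Iio 0 := by ext a; simp
    rw [this]; exact measurableSet_Iio
  rw [ae_iff, e1, withDensity_apply _ hs]
  rw [setLIntegral_congr_fun (g := fun _ => 0) hs]
  · simp
  · intro x hx
    simp only [Set.mem_setOf_eq, not_le] at hx
    exact exponentialPDF_of_neg hx

lemma map_eval (e : Ed) : nu.map (fun w => w e) = expMeasure 1 :=
  Measure.infinitePi_map_eval (fun _ : Ed => expMeasure 1) e

lemma ae_nonneg (e : Ed) : ∀ᵐ w ∂nu, 0 ≤ w e := by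
  have h := ae_nonneg_exp
  rw [← map_eval e] at h
  exact ae_of_ae_map (measurable_pi_apply e).aemeasurable h

lemma ae_pw : ∀ᵐ w ∂nu, pw w = w := by
  have : ∀ᵐ w ∂nu, ∀ e : Ed, 0 ≤ w e := by
    rw [ae_all_iff]; exact ae_nonneg
  filter_upwards [this] with w hw
  funext e
  exact max_eq_left (hw e)

lemma ind_pw : iIndepFun (fun (e : Ed) (w : Ed → ℝ) => pw w e) nu :=
  iIndepFun_infinitePi (P := fun _ => expMeasure 1) (X := fun _ x => max x 0)
    (fun _ => measurable_id.max measurable_const)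

lemma integrable_pw (t : ℝ) (ht : t < 1) (e : Ed) :
    Integrable (fun w : Ed → ℝ => Real.exp (t * pw w e)) nu := by
  have h := integrable_exp t ht
  rw [← map_eval e] at h
  have h2 := h.comp_measurable (measurable_pi_apply e)
  refine h2.congr ?_
  filter_upwards [ae_pw] with w hw
  simp [hw]

lemma mgf_pw (t : ℝ) (ht : t < 1) (e : Ed) :
    mgf (fun w : Ed → ℝ => pw w e) nu t = (1 - t)⁻¹ := by
  rw [← integral_exp t ht, ← map_eval e, integral_map (measurable_pi_apply e).aemeasurable (by fun_prop)]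
  refine integral_congr_ae ?_
  filter_upwards [ae_pw] with w hw
  simp [hw]

/-- the edges of a walk -/
def eds (p : ℕ → ℤ × ℤ) (n : ℕ) : Finset Ed := (range n).image (fun i => s(p i, p (i + 1)))

lemma Wt_eds {p : ℕ → ℤ × ℤ} {n : ℕ} (h : Set.InjOn p (Set.Iic n)) (w : Ed → ℝ) :
    Wt w p n = ∑ e ∈ eds p n, w e := by
  unfold eds Wt
  rw [Finset.sum_image]
  intro i hi j hj hij
  exact edge_inj h (by simpa using hi) (by simpa using hj) hij

lemma card_eds {p : ℕ → ℤ × ℤ} {n : ℕ} (h : Set.InjOn p (Set.Iic n)) : (eds p n).card = n := by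
  unfold eds
  rw [Finset.card_image_of_injOn, Finset.card_range]
  intro i hi j hj hij
  exact edge_inj h (by simpa using hi) (by simpa using hj) hij

lemma int_Wt {p : ℕ → ℤ × ℤ} {n : ℕ} (h : Set.InjOn p (Set.Iic n)) (t : ℝ) (ht : t < 1) :
    Integrable (fun w : Ed → ℝ => Real.exp (t * Wt (pw w) p n)) nu := by
  have := ind_pw.integrable_exp_mul_sum (fun e => measurable_pw e) (s := eds p n)
    (fun e _ => integrable_pw t ht e)
  refine this.congr (Filter.Eventually.of_forall fun w => ?_)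
  simp [Wt_eds h]

lemma mgf_Wt {p : ℕ → ℤ × ℤ} {n : ℕ} (h : Set.InjOn p (Set.Iic n)) (t : ℝ) (ht : t < 1) :
    mgf (fun w : Ed → ℝ => Wt (pw w) p n) nu t = ((1 - t)⁻¹) ^ n := by
  have h1 := ind_pw.mgf_sum (t := t) (fun e => measurable_pw e) (eds p n)
  have h2 : (∑ e ∈ eds p n, fun w : Ed → ℝ => pw w e) = fun w : Ed → ℝ => Wt (pw w) p n := by
    funext w
    simp [Wt_eds h]
  rw [← h2, h1, Finset.prod_congr rfl fun e _ => mgf_pw t ht e, Finset.prod_const, card_eds h]

lemma exp_three_halves : 2 * Real.exp (-(3/2)) ≤ 1 / 2 := by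
  have h1 : (4:ℝ) ≤ Real.exp (3/2) := by
    have h2 := Real.exp_one_gt_d9
    have h3 : Real.exp (3/2) ^ 2 = Real.exp 1 ^ 3 := by
      rw [← Real.exp_nat_mul, ← Real.exp_nat_mul]; norm_num
    have h4 : (16:ℝ) ≤ Real.exp 1 ^ 3 := by
      calc (16:ℝ) ≤ (2.7) ^ 3 := by norm_num
        _ ≤ _ := pow_le_pow_left₀ (by norm_num) (by linarith) 3
    nlinarith [Real.exp_pos (3/2)]
  rw [Real.exp_neg]
  rw [show (2:ℝ) * (Real.exp (3/2))⁻¹ = 2 / Real.exp (3/2) by ring,
    div_le_div_iff₀ (by positivity) (by norm_num)]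
  linarith

/-- a majorant of the passage time -/
lemma exists_major (x y : ℤ × ℤ) : ∃ S : (Ed → ℝ) → ℝ, Measurable S ∧ (∀ w, TT (pw w) x y ≤ S w) ∧
    (∀ (R : ℕ), dd x y ≤ R → ∀ w, TB (pw w) R x y ≤ S w) ∧
    Integrable (fun w => Real.exp (1 / 2 * S w)) nu ∧
    ∫ w, Real.exp (1 / 2 * S w) ∂nu = 2 ^ dd x y := by
  obtain ⟨p, hp, hinj⟩ := exists_geo' x y
  refine ⟨fun w => Wt (pw w) p (dd x y), measurable_Wt _ _, fun w => TT_le (pw_nonneg w) hp, ?_,
    int_Wt hinj _ (by norm_num), ?_⟩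
  · intro R hR w
    exact csInf_le (bddB (pw_nonneg w) R x y)
      ⟨dd x y, p, ⟨hp, fun i hi => (dd_walk hp i hi).trans (hi.trans hR)⟩, rfl⟩
  · have := mgf_Wt hinj (1 / 2) (by norm_num)
    unfold mgf at this
    rw [this]; norm_num

/-- the passage time is at most three times the distance -/
lemma straight {x y : ℤ × ℤ} {k : ℕ} (h : dd x y ≤ k) :
    nu.real {w | 3 * (k:ℝ) ≤ TT (pw w) x y} ≤ (1 / 2) ^ k := by
  obtain ⟨p, hp, hinj⟩ := exists_geo' x y
  have h1 := measure_ge_le_exp_mul_mgf (μ := nu) (X := fun w : Ed → ℝ => Wt (pw w) p (dd x y))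
    (3 * (k:ℝ)) (t := 1 / 2) (by norm_num) (int_Wt hinj _ (by norm_num))
  rw [mgf_Wt hinj _ (by norm_num)] at h1
  refine (measureReal_mono ?_ (measure_ne_top _ _)).trans (h1.trans ?_)
  · intro w hw
    exact le_trans hw (TT_le (pw_nonneg w) hp)
  · have h2 : (((1 - 1 / 2 : ℝ))⁻¹) ^ dd x y ≤ 2 ^ k := by
      norm_num
      exact pow_le_pow_right₀ (by norm_num) h
    have h3 : Real.exp (-(1 / 2) * (3 * (k:ℝ))) = Real.exp (-(3 / 2)) ^ k := by
      rw [← Real.exp_nat_mul]; congr 1; ring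
    calc _ ≤ Real.exp (-(3 / 2)) ^ k * 2 ^ k := by rw [h3]; gcongr
      _ = (2 * Real.exp (-(3/2))) ^ k := by rw [mul_pow]; ring
      _ ≤ _ := pow_le_pow_left₀ (by positivity) exp_three_halves k

/-- the walks of a given length -/
lemma exists_walks (x : ℤ × ℤ) : ∀ R : ℕ, ∃ F : Finset (ℕ → ℤ × ℤ), F.card ≤ 4 ^ R ∧
    ∀ q : ℕ → ℤ × ℤ, q 0 = x → (∀ i < R, Adj (q i) (q (i + 1))) → ∃ p ∈ F, ∀ i ≤ R, q i = p i := by
  classical
  intro R
  induction R with
  | zero =>
    refine ⟨{fun _ => x}, by simp, fun q hq _ => ⟨_, Finset.mem_singleton_self _, fun i hi => ?_⟩⟩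
    rw [Nat.le_zero.1 hi, hq]
  | succ R ih =>
    obtain ⟨F, h1, h2⟩ := ih
    let D : Finset (ℤ × ℤ) := {(1, 0), (-1, 0), (0, 1), (0, -1)}
    refine ⟨(F ×ˢ D).image (fun a => fun i => if i ≤ R then a.1 i else a.1 R + a.2), ?_, ?_⟩
    · refine Finset.card_image_le.trans ?_
      rw [Finset.card_product, pow_succ]
      exact Nat.mul_le_mul h1 (Finset.card_le_four)
    · intro q h0 hq
      obtain ⟨p, hp, hpq⟩ := h2 q h0 fun i hi => hq i (by omega)
      refine ⟨fun i => if i ≤ R then p i else p R + (q (R + 1) - q R), ?_, ?_⟩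
      · refine Finset.mem_image.2 ⟨(p, q (R + 1) - q R), Finset.mem_product.2 ⟨hp, ?_⟩, rfl⟩
        have := hq R (by omega)
        rw [adj_iff] at this
        simp only [D, Finset.mem_insert, Finset.mem_singleton]
        generalize q R = u at this ⊢
        generalize q (R + 1) = v at this ⊢
        obtain ⟨a, b⟩ := u
        obtain ⟨c, d⟩ := v
        simp only [dd] at this
        simp only [Prod.mk_sub_mk, Prod.mk.injEq]
        omega
      · intro i hi
        beta_reduce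
        by_cases h3 : i ≤ R
        · rw [if_pos h3]; exact hpq i h3
        · have : i = R + 1 := by omega
          rw [if_neg h3, ← hpq R le_rfl, this]
          abel

lemma num_bad (R m : ℕ) (h : 66 * m ≤ R) :
    (4:ℝ) ^ R * (Real.exp (22 * (3 * (m:ℝ))) * ((1 - (-22) : ℝ)⁻¹) ^ R) ≤ (1 / 2) ^ m := by
  have h1 : (1 - (-22) : ℝ)⁻¹ = 1 / 23 := by norm_num
  rw [h1]
  have h2 : Real.exp (22 * (3 * (m:ℝ))) = (Real.exp 1) ^ (66 * m) := by
    rw [← Real.exp_nat_mul]; congr 1; push_cast; ring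
  rw [h2]
  calc (4:ℝ) ^ R * (Real.exp 1 ^ (66 * m) * (1 / 23) ^ R)
      = (4 / 23) ^ R * Real.exp 1 ^ (66 * m) := by
        rw [show (4:ℝ) / 23 = 4 * (1 / 23) by norm_num, mul_pow]; ring
    _ ≤ (4 / 23) ^ (66 * m) * Real.exp 1 ^ (66 * m) := by
        refine mul_le_mul_of_nonneg_right ?_ (by positivity)
        exact pow_le_pow_of_le_one (by norm_num) (by norm_num) h
    _ = (4 / 23 * Real.exp 1) ^ (66 * m) := by rw [mul_pow]
    _ ≤ (1 / 2) ^ (66 * m) := by
        refine pow_le_pow_left₀ (by positivity) ?_ _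
        have := Real.exp_one_lt_d9
        linarith
    _ ≤ (1 / 2) ^ m := pow_le_pow_of_le_one (by norm_num) (by norm_num) (by omega)

/-- bad events are rare -/
lemma bad_le (x : ℤ × ℤ) {R m : ℕ} (h : 66 * m ≤ R) :
    nu.real {w | Bad (pw w) x R (3 * (m:ℝ))} ≤ (1 / 2) ^ m := by
  classical
  obtain ⟨F, h1, h2⟩ := exists_walks x R
  have hsub : {w | Bad (pw w) x R (3 * (m:ℝ))} ⊆
      ⋃ p ∈ F, {w | Set.InjOn p (Set.Iic R) ∧ Wt (pw w) p R ≤ 3 * (m:ℝ)} := by
    rintro w ⟨q, h3, h4, h5, h6⟩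
    obtain ⟨p, hp, hpq⟩ := h2 q h3 h4
    simp only [Set.mem_iUnion, Set.mem_setOf_eq, exists_prop]
    refine ⟨p, hp, ?_, ?_⟩
    · intro i hi j hj hij
      exact h5 hi hj (by rw [hpq i hi, hpq j hj, hij])
    · rw [← Wt_congr hpq]; exact h6
  refine (measureReal_mono hsub (measure_ne_top _ _)).trans
    ((measureReal_biUnion_finset_le F _).trans ?_)
  refine le_trans ?_ (num_bad R m h)
  calc _ ≤ ∑ _p ∈ F, (Real.exp (22 * (3 * (m:ℝ))) * ((1 - (-22) : ℝ)⁻¹) ^ R) := by
        refine Finset.sum_le_sum fun p _ => ?_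
        by_cases hinj : Set.InjOn p (Set.Iic R)
        · have h3 := measure_le_le_exp_mul_mgf (μ := nu) (X := fun w : Ed → ℝ => Wt (pw w) p R)
            (3 * (m:ℝ)) (t := -22) (by norm_num) (int_Wt hinj _ (by norm_num))
          rw [mgf_Wt hinj _ (by norm_num), neg_neg] at h3
          refine le_trans (measureReal_mono ?_ (measure_ne_top _ _)) h3
          exact fun w hw => hw.2
        · have : {w : Ed → ℝ | Set.InjOn p (Set.Iic R) ∧ Wt (pw w) p R ≤ 3 * (m:ℝ)} = ∅ := by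
            ext w; simp [hinj]
          rw [this, measureReal_empty]
          positivity
    _ = (F.card : ℝ) * (Real.exp (22 * (3 * (m:ℝ))) * ((1 - (-22) : ℝ)⁻¹) ^ R) := by
        rw [Finset.sum_const, nsmul_eq_mul]
    _ ≤ _ := by
        refine mul_le_mul_of_nonneg_right ?_ (by positivity)
        exact_mod_cast h1

/-- localisation -/
lemma local_le {x y : ℤ × ℤ} {m : ℕ} (h : dd x y ≤ m) :
    nu.real {w | TT (pw w) x y < TB (pw w) (66 * m) x y} ≤ 2 * (1 / 2) ^ m := by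
  have hsub : {w | TT (pw w) x y < TB (pw w) (66 * m) x y} ⊆
      {w | 3 * (m:ℝ) ≤ TT (pw w) x y} ∪ {w | Bad (pw w) x (66 * m + 1) (3 * (m:ℝ))} := by
    intro w hw
    by_contra hcon
    simp only [Set.mem_union, Set.mem_setOf_eq, not_or, not_le] at hcon
    exact absurd (TB_le_TT (pw_nonneg w) hcon.1 hcon.2) (not_le.2 hw)
  refine (measureReal_mono hsub (measure_ne_top _ _)).trans ((measureReal_union_le _ _).trans ?_)
  have h1 := straight h
  have h2 := bad_le x (show 66 * m ≤ 66 * m + 1 by omega)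
  linarith

/-- the passage time is not small -/
lemma low_le {x y : ℤ × ℤ} {m : ℕ} (h : 66 * m ≤ dd x y) :
    nu.real {w | TT (pw w) x y < 3 * (m:ℝ)} ≤ (1 / 2) ^ m := by
  refine (measureReal_mono ?_ (measure_ne_top _ _)).trans (bad_le x h)
  intro w hw
  obtain ⟨n, p, hp, hlt⟩ := exists_lt hw
  obtain ⟨n', p', h1, h2, h3⟩ := exists_saw (pw_nonneg w) x y n p hp
  have h4 := dd_walk h1 n' le_rfl
  rw [h1.2.1] at h4
  refine ⟨p', h1.1, fun i hi => h1.2.2 i (by omega), h3.mono fun a (ha : a ≤ _) => h4.trans' ha, ?_⟩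
  exact (Wt_mono (pw_nonneg w) p' h4).trans (h2.trans hlt.le)

end Q70.Fp
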