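import Pool.Agent.Q70.FpC

/-!
# First passage percolation: the time constant
-/

set_option autoImplicit false

open MeasureTheory ProbabilityTheory Finset Filter
open scoped Topology

namespace Q70.Fp

/-- `μ` is the time constant -/
structure Shape (μ : ℝ × ℝ → ℝ) : Prop where
  hom : ∀ (x : ℝ × ℝ) (c : ℝ), 0 ≤ c → μ (c • x) = c * μ x
  cont : Continuous μ
  lim : ∀ z : ℤ × ℤ, ∀ᵐ w ∂nu, Tendsto (fun n : ℕ => TT (pw w) 0 ((n : ℤ) • z) / (n : ℝ)) atTop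
    (nhds (μ ((z.1 : ℝ), (z.2 : ℝ))))

/-- the time constant at a lattice vector -/
def mz (μ : ℝ × ℝ → ℝ) (z : ℤ × ℤ) : ℝ := μ ((z.1 : ℝ), (z.2 : ℝ))

lemma dd_smul (n : ℕ) (x y : ℤ × ℤ) : dd ((n : ℤ) • x) ((n : ℤ) • y) = n * dd x y := by
  simp only [dd, Prod.smul_fst, Prod.smul_snd, smul_eq_mul, ← mul_sub, Int.natAbs_mul,
    Int.natAbs_natCast, mul_add]

variable {μ : ℝ × ℝ → ℝ}

lemma mz_smul (h : Shape μ) (n : ℕ) (z : ℤ × ℤ) : mz μ ((n : ℤ) • z) = n * mz μ z := by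
  unfold mz
  rw [← h.hom _ _ (Nat.cast_nonneg n)]
  congr 1
  simp [Prod.smul_def]

lemma mz_zero (h : Shape μ) : mz μ 0 = 0 := by
  have := mz_smul h 0 0
  simpa using this

lemma prob_lim (h : Shape μ) (z : ℤ × ℤ) {ε : ℝ} (hε : 0 < ε) :
    Tendsto (fun n : ℕ => nu.real {w | ε ≤ |TT (pw w) 0 ((n : ℤ) • z) / (n : ℝ) - mz μ z|})
      atTop (𝓝 0) := by
  have h1 := tendstoInMeasure_of_tendsto_ae (μ := nu)
    (f := fun (n : ℕ) w => TT (pw w) 0 ((n : ℤ) • z) / (n : ℝ)) (g := fun _ => mz μ z)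
    (fun n => ((measurable_TT 0 ((n : ℤ) • z)).div_const _).aestronglyMeasurable) (h.lim z)
  exact tendstoInMeasure_iff_measureReal_dist.1 h1 ε hε

lemma exists_out (A B C : Set (Ed → ℝ)) (h : nu.real A + nu.real B + nu.real C < 1) :
    ∃ w, w ∉ A ∧ w ∉ B ∧ w ∉ C := by
  by_contra hcon
  push Not at hcon
  have h1 : Set.univ ⊆ A ∪ B ∪ C := fun w _ => by
    by_cases hA : w ∈ A
    · exact Or.inl (Or.inl hA)
    · by_cases hB : w ∈ B
      · exact Or.inl (Or.inr hB)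
      · exact Or.inr (hcon w hA hB)
  have h2 := measureReal_mono h1 (measure_ne_top nu _)
  have h3 := measureReal_union_le (μ := nu) (A ∪ B) C
  have h4 := measureReal_union_le (μ := nu) A B
  rw [probReal_univ] at h2
  linarith

lemma mz_lip (h : Shape μ) (x y : ℤ × ℤ) : mz μ y ≤ mz μ x + 3 * (dd x y : ℝ) := by
  by_cases hd : dd x y = 0
  · rw [dd_eq_zero hd, dd_self]; simp
  refine le_of_forall_pos_le_add fun ε hε => ?_
  have hA := prob_lim h x (half_pos hε)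
  have hB := prob_lim h y (half_pos hε)
  have hC : Tendsto (fun n : ℕ => nu.real {w | 3 * ((n * dd x y : ℕ) : ℝ) ≤
      TT (pw w) ((n : ℤ) • x) ((n : ℤ) • y)}) atTop (𝓝 0) := by
    refine squeeze_zero (fun n => measureReal_nonneg) (fun n => ?_)
      (tendsto_pow_atTop_nhds_zero_of_lt_one (r := (1 / 2 : ℝ)) (by norm_num) (by norm_num))
    refine (straight (by rw [dd_smul])).trans (pow_le_pow_of_le_one (by norm_num) (by norm_num) ?_)
    exact Nat.le_mul_of_pos_right n (Nat.pos_of_ne_zero hd)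
  have hlim := (hA.add hB).add hC
  rw [add_zero, add_zero] at hlim
  obtain ⟨n, hn1, hn2⟩ := ((hlim.eventually (gt_mem_nhds one_pos)).and (eventually_ge_atTop 1)).exists
  obtain ⟨w, h1, h2, h3⟩ := exists_out _ _ _ hn1
  simp only [Set.mem_setOf_eq, not_le] at h1 h2 h3
  rw [abs_lt] at h1 h2
  have hn0 : (0:ℝ) < n := by exact_mod_cast hn2
  have h4 := TT_tri (pw_nonneg w) 0 ((n : ℤ) • x) ((n : ℤ) • y)
  have h5 : TT (pw w) 0 ((n : ℤ) • y) / n ≤ TT (pw w) 0 ((n : ℤ) • x) / n + 3 * (dd x y : ℝ) := by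
    rw [div_le_iff₀ hn0, add_mul, div_mul_cancel₀ _ hn0.ne']
    push_cast at h3
    nlinarith
  linarith [h1.1, h1.2, h2.1, h2.2]

lemma mz_low (h : Shape μ) (z : ℤ × ℤ) : (dd 0 z : ℝ) / 22 ≤ mz μ z := by
  by_cases hd : dd 0 z = 0
  · rw [hd, ← dd_eq_zero hd, mz_zero h]; simp
  refine le_of_forall_pos_le_add fun ε hε => ?_
  have hA := (prob_lim h z hε).comp (tendsto_id.const_mul_atTop' (show 0 < 66 by norm_num))
  have hC : Tendsto (fun n : ℕ => nu.real {w | TT (pw w) 0 (((66 * n : ℕ) : ℤ) • z) <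
      3 * ((n * dd 0 z : ℕ) : ℝ)}) atTop (𝓝 0) := by
    refine squeeze_zero (fun n => measureReal_nonneg) (fun n => ?_)
      (tendsto_pow_atTop_nhds_zero_of_lt_one (r := (1 / 2 : ℝ)) (by norm_num) (by norm_num))
    refine (low_le (m := n * dd 0 z) ?_).trans (pow_le_pow_of_le_one (by norm_num) (by norm_num) ?_)
    · have := dd_smul (66 * n) 0 z
      rw [smul_zero] at this
      rw [this, mul_assoc]
    · exact Nat.le_mul_of_pos_right n (Nat.pos_of_ne_zero hd)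
  have hlim := hA.add hC
  rw [add_zero] at hlim
  obtain ⟨n, hn1, hn2⟩ := ((hlim.eventually (gt_mem_nhds one_pos)).and (eventually_ge_atTop 1)).exists
  obtain ⟨w, h1, h2, -⟩ := exists_out
    {w | ε ≤ |TT (pw w) 0 (((66 * n : ℕ) : ℤ) • z) / ((66 * n : ℕ) : ℝ) - mz μ z|}
    {w | TT (pw w) 0 (((66 * n : ℕ) : ℤ) • z) < 3 * ((n * dd 0 z : ℕ) : ℝ)} ∅
    (by rw [measureReal_empty, add_zero]; exact hn1)
  simp only [Set.mem_setOf_eq, not_le, not_lt] at h1 h2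
  rw [abs_lt] at h1
  have hn0 : (0:ℝ) < ((66 * n : ℕ) : ℝ) := by exact_mod_cast (by omega : 0 < 66 * n)
  have h5 : (dd 0 z : ℝ) / 22 ≤ TT (pw w) 0 (((66 * n : ℕ) : ℤ) • z) / ((66 * n : ℕ) : ℝ) := by
    rw [le_div_iff₀ hn0]
    push_cast at h2 ⊢
    nlinarith
  linarith [h1.1, h1.2]

lemma mz_nonneg (h : Shape μ) (z : ℤ × ℤ) : 0 ≤ mz μ z :=
  le_trans (by positivity) (mz_low h z)

lemma mz_up (h : Shape μ) (z : ℤ × ℤ) : mz μ z ≤ 3 * (dd 0 z : ℝ) := by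
  have := mz_lip h 0 z
  rwa [mz_zero h, zero_add] at this

/-- integer parts -/
noncomputable def fl (n : ℕ) (x : ℝ × ℝ) : ℤ × ℤ := (⌊(n:ℝ) * x.1⌋, ⌊(n:ℝ) * x.2⌋)

lemma floor_lim (a : ℝ) : Tendsto (fun n : ℕ => (n:ℝ)⁻¹ * (⌊(n:ℝ) * a⌋ : ℝ)) atTop (𝓝 a) := by
  have h1 : Tendsto (fun n : ℕ => a - (n:ℝ)⁻¹) atTop (𝓝 a) := by
    simpa using tendsto_const_nhds.sub (tendsto_inv_atTop_nhds_zero_nat (𝕜 := ℝ))
  refine tendsto_of_tendsto_of_tendsto_of_le_of_le' h1 tendsto_const_nhds ?_ ?_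
  · filter_upwards [eventually_ge_atTop 1] with n hn
    have hn0 : (0:ℝ) < n := by exact_mod_cast hn
    have h2 := Int.sub_one_lt_floor ((n:ℝ) * a)
    have h3 : a - (n:ℝ)⁻¹ = (n:ℝ)⁻¹ * ((n:ℝ) * a - 1) := by field_simp
    rw [h3]
    gcongr
  · filter_upwards [eventually_ge_atTop 1] with n hn
    have hn0 : (0:ℝ) < n := by exact_mod_cast hn
    have h2 := Int.floor_le ((n:ℝ) * a)
    rw [inv_mul_le_iff₀ hn0]
    exact h2

lemma fl_lim (h : Shape μ) (x : ℝ × ℝ) :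
    Tendsto (fun n : ℕ => (n:ℝ)⁻¹ * mz μ (fl n x)) atTop (𝓝 (μ x)) := by
  have h1 : Tendsto (fun n : ℕ => ((n:ℝ)⁻¹ * (⌊(n:ℝ) * x.1⌋ : ℝ), (n:ℝ)⁻¹ * (⌊(n:ℝ) * x.2⌋ : ℝ)))
      atTop (𝓝 (x.1, x.2)) := (floor_lim x.1).prodMk_nhds (floor_lim x.2)
  have h2 := (h.cont.tendsto (x.1, x.2)).comp h1
  refine h2.congr fun n => ?_
  simp only [Function.comp, mz, fl]
  rw [← h.hom _ _ (by positivity)]
  rfl

lemma floor_diff (a b : ℝ) : (((⌊b⌋ - ⌊a⌋).natAbs : ℕ) : ℝ) ≤ |b - a| + 1 := by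
  rw [Nat.cast_natAbs, Int.cast_abs, abs_le]
  push_cast
  have h1 := Int.floor_le a
  have h2 := Int.lt_floor_add_one a
  have h3 := Int.floor_le b
  have h4 := Int.lt_floor_add_one b
  constructor
  · linarith [neg_abs_le (b - a)]
  · linarith [le_abs_self (b - a)]

lemma mu_lip (h : Shape μ) (x y : ℝ × ℝ) : μ y ≤ μ x + 3 * (|y.1 - x.1| + |y.2 - x.2|) := by
  have h1 := fl_lim h x
  have h2 := fl_lim h y
  have h3 : Tendsto (fun n : ℕ => (n:ℝ)⁻¹ * mz μ (fl n x) + 3 * (|y.1 - x.1| + |y.2 - x.2|)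
      + 6 * (n:ℝ)⁻¹) atTop (𝓝 (μ x + 3 * (|y.1 - x.1| + |y.2 - x.2|) + 6 * 0)) :=
    (h1.add tendsto_const_nhds).add (tendsto_inv_atTop_nhds_zero_nat.const_mul 6)
  rw [mul_zero, add_zero] at h3
  refine le_of_tendsto_of_tendsto h2 h3 ?_
  filter_upwards [eventually_ge_atTop 1] with n hn
  have hn0 : (0:ℝ) < n := by exact_mod_cast hn
  have h4 := mz_lip h (fl n x) (fl n y)
  have h5 : (dd (fl n x) (fl n y) : ℝ) ≤ n * (|y.1 - x.1| + |y.2 - x.2|) + 2 := by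
    have e1 := floor_diff ((n:ℝ) * x.1) ((n:ℝ) * y.1)
    have e2 := floor_diff ((n:ℝ) * x.2) ((n:ℝ) * y.2)
    rw [← mul_sub, abs_mul, abs_of_pos hn0] at e1 e2
    simp only [dd, fl]
    push_cast at e1 e2 ⊢
    linarith
  rw [inv_mul_le_iff₀ hn0]
  have h6 : (n:ℝ) * ((n:ℝ)⁻¹ * mz μ (fl n x) + 3 * (|y.1 - x.1| + |y.2 - x.2|) + 6 * (n:ℝ)⁻¹)
      = mz μ (fl n x) + 3 * (n * (|y.1 - x.1| + |y.2 - x.2|)) + 6 := by
    field_simp
  rw [h6]
  linarith

lemma integrable_TT (x y : ℤ × ℤ) : Integrable (fun w => TT (pw w) x y) nu := by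
  obtain ⟨S, h1, h2, -, h3, -⟩ := exists_major x y
  refine (h3.const_mul 2).mono' (measurable_TT x y).aestronglyMeasurable
    (Eventually.of_forall fun w => ?_)
  rw [Real.norm_eq_abs, abs_of_nonneg (TT_nonneg (pw_nonneg w) x y)]
  have := Real.add_one_le_exp (1 / 2 * S w)
  linarith [h2 w]

lemma integral_TT_sh (x y : ℤ × ℤ) :
    ∫ w, TT (pw w) x y ∂nu = ∫ w, TT (pw w) 0 (y - x) ∂nu := by
  have hm : Measurable (sh x) := measurable_pi_iff.2 fun e => measurable_pi_apply _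
  conv_rhs => rw [← map_sh x]
  rw [integral_map hm.aemeasurable (measurable_TT _ _).aestronglyMeasurable]
  refine integral_congr_ae (Eventually.of_forall fun w => ?_)
  simp only [TT_sh]
  simp

lemma mean_chain (z : ℤ × ℤ) (n : ℕ) :
    ∫ w, TT (pw w) 0 ((n : ℤ) • z) ∂nu ≤ n * ∫ w, TT (pw w) 0 z ∂nu := by
  have h1 : ∀ w, TT (pw w) 0 ((n : ℤ) • z) ≤
      ∑ i ∈ range n, TT (pw w) ((i : ℤ) • z) (((i + 1 : ℕ) : ℤ) • z) := by
    intro w
    have := TT_chain (pw_nonneg w) (fun i : ℕ => (i : ℤ) • z) n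
    simpa using this
  refine (integral_mono (integrable_TT _ _) (integrable_finset_sum _ fun i _ => integrable_TT _ _) h1).trans ?_
  rw [integral_finset_sum _ fun i _ => integrable_TT _ _]
  refine le_of_eq ?_
  rw [Finset.sum_congr rfl (fun i _ => ?_), Finset.sum_const, Finset.card_range, nsmul_eq_mul]
  rw [integral_TT_sh]
  congr 1
  funext w
  congr 1
  push_cast
  rw [add_smul, one_smul]
  abel

lemma mz_le_mean (h : Shape μ) (z : ℤ × ℤ) : mz μ z ≤ ∫ w, TT (pw w) 0 z ∂nu := by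
  refine le_of_forall_pos_le_add fun ε hε => ?_
  by_cases hneg : mz μ z - ε ≤ 0
  · have : 0 ≤ ∫ w, TT (pw w) 0 z ∂nu := integral_nonneg fun w => TT_nonneg (pw_nonneg w) _ _
    linarith
  push Not at hneg
  have h1 := prob_lim h z hε
  have h2 : Tendsto (fun n : ℕ => (mz μ z - ε) * (1 - nu.real {w | ε ≤ |TT (pw w) 0 ((n : ℤ) • z) / (n : ℝ)
      - mz μ z|})) atTop (𝓝 ((mz μ z - ε) * (1 - 0))) :=
    (tendsto_const_nhds.sub h1).const_mul _
  rw [sub_zero, mul_one] at h2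
  have h3 : mz μ z - ε ≤ ∫ w, TT (pw w) 0 z ∂nu := by
    refine le_of_tendsto h2 ?_
    filter_upwards [eventually_ge_atTop 1] with n hn
    have hn0 : (0:ℝ) < n := by exact_mod_cast hn
    have h4 := mul_meas_ge_le_integral_of_nonneg (μ := nu)
      (f := fun w => TT (pw w) 0 ((n : ℤ) • z) / (n : ℝ))
      (Eventually.of_forall fun w => div_nonneg (TT_nonneg (pw_nonneg w) _ _) hn0.le)
      ((integrable_TT 0 _).div_const _) (mz μ z - ε)
    have h5 : 1 - nu.real {w | ε ≤ |TT (pw w) 0 ((n : ℤ) • z) / (n : ℝ) - mz μ z|} ≤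
        nu.real {w | mz μ z - ε ≤ TT (pw w) 0 ((n : ℤ) • z) / (n : ℝ)} := by
      have h6 : Set.univ ⊆ {w | ε ≤ |TT (pw w) 0 ((n : ℤ) • z) / (n : ℝ) - mz μ z|} ∪
          {w | mz μ z - ε ≤ TT (pw w) 0 ((n : ℤ) • z) / (n : ℝ)} := by
        intro w _
        by_contra hcon
        simp only [Set.mem_union, Set.mem_setOf_eq, not_or, not_le, abs_lt] at hcon
        linarith [hcon.1.1, hcon.2]
      have h7 := measureReal_mono h6 (measure_ne_top nu _)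
      rw [probReal_univ] at h7
      linarith [measureReal_union_le (μ := nu) {w | ε ≤ |TT (pw w) 0 ((n : ℤ) • z) / (n : ℝ) - mz μ z|}
        {w | mz μ z - ε ≤ TT (pw w) 0 ((n : ℤ) • z) / (n : ℝ)}]
    refine (mul_le_mul_of_nonneg_left h5 hneg.le).trans (h4.trans ?_)
    rw [integral_div, div_le_iff₀ hn0, mul_comm]
    exact mean_chain z n
  linarith

end Q70.Fp
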