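import Pool.Agent.Q70.FpD

/-!
# First passage percolation: blocks
-/

set_option autoImplicit false

open MeasureTheory ProbabilityTheory Finset Filter
open scoped Topology

namespace Q70.Fp

lemma exp_le_two {x : ℝ} (h0 : 0 ≤ x) (h1 : x ≤ 1) : Real.exp x ≤ 1 + 2 * x := by
  have h := Real.abs_exp_sub_one_sub_id_le (show |x| ≤ 1 by rw [abs_of_nonneg h0]; exact h1)
  have h2 := (abs_le.1 h).2
  nlinarith

/-- exponential bound for sums of independent bounded variables -/
lemma chernoff {ι : Type*} [DecidableEq ι] (I : Finset ι) (S : ι → Finset Ed)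
    (f : ι → (Ed → ℝ) → ℝ) (hf : ∀ i, Measurable (f i))
    (hd : ∀ i w w', (∀ e ∈ S i, w e = w' e) → f i w = f i w')
    (hdisj : ∀ i ∈ I, ∀ j ∈ I, i ≠ j → Disjoint (S i) (S j))
    (h0 : ∀ i w, 0 ≤ f i w) (h1 : ∀ i w, f i w ≤ 1) {θ : ℝ}
    (hθ : ∀ i ∈ I, ∫ w, f i w ∂nu ≤ θ) (t : ℝ) :
    nu.real {w | t ≤ ∑ i ∈ I, f i w} ≤ Real.exp (-t + 2 * I.card * θ) := by
  have hint : ∀ i, Integrable (f i) nu := fun i =>
    (integrable_const (1:ℝ)).mono' (hf i).aestronglyMeasurable (Eventually.of_forall fun w => by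
      rw [Real.norm_eq_abs, abs_of_nonneg (h0 i w)]; exact h1 i w)
  have hinte : ∀ i, Integrable (fun w => Real.exp (f i w)) nu := fun i =>
    (integrable_const (Real.exp 1)).mono' (hf i).exp.aestronglyMeasurable
      (Eventually.of_forall fun w => by
        rw [Real.norm_eq_abs, abs_of_pos (Real.exp_pos _)]; exact Real.exp_le_exp.2 (h1 i w))
  have e1 : ∫ w, ∏ i ∈ I, Real.exp (f i w) ∂nu = ∏ i ∈ I, ∫ w, Real.exp (f i w) ∂nu :=
    integral_prod_disj I S (fun i w => Real.exp (f i w)) (fun i => (hf i).exp)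
      (fun i w w' h => by rw [hd i w w' h]) hdisj
  have e2 : ∀ i ∈ I, ∫ w, Real.exp (f i w) ∂nu ≤ Real.exp (2 * θ) := by
    intro i hi
    calc ∫ w, Real.exp (f i w) ∂nu ≤ ∫ w, (1 + 2 * f i w) ∂nu :=
          integral_mono (hinte i) ((integrable_const _).add ((hint i).const_mul 2))
            fun w => exp_le_two (h0 i w) (h1 i w)
      _ = 1 + 2 * ∫ w, f i w ∂nu := by
          rw [integral_add (integrable_const _) ((hint i).const_mul 2), integral_const_mul]
          simp
      _ ≤ 2 * θ + 1 := by linarith [hθ i hi]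
      _ ≤ _ := Real.add_one_le_exp _
  have e3 : ∏ i ∈ I, ∫ w, Real.exp (f i w) ∂nu ≤ Real.exp (2 * θ) ^ I.card := by
    rw [← Finset.prod_const]
    exact Finset.prod_le_prod (fun i _ => integral_nonneg fun w => (Real.exp_pos _).le) e2
  have hintp : Integrable (fun w => ∏ i ∈ I, Real.exp (f i w)) nu := by
    refine (integrable_const (Real.exp I.card)).mono'
      (Finset.measurable_fun_prod _ fun i _ => (hf i).exp).aestronglyMeasurable
      (Eventually.of_forall fun w => ?_)
    rw [Real.norm_eq_abs, abs_of_pos (Finset.prod_pos fun i _ => Real.exp_pos _), ← Real.exp_sum]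
    refine Real.exp_le_exp.2 ?_
    calc _ ≤ ∑ _i ∈ I, (1:ℝ) := Finset.sum_le_sum fun i _ => h1 i w
      _ = _ := by simp
  have e4 := mul_meas_ge_le_integral_of_nonneg (μ := nu)
    (Eventually.of_forall fun w => Finset.prod_nonneg fun i _ => (Real.exp_pos (f i w)).le) hintp
    (Real.exp t)
  have e5 : {w | t ≤ ∑ i ∈ I, f i w} = {w | Real.exp t ≤ ∏ i ∈ I, Real.exp (f i w)} := by
    ext w
    simp only [Set.mem_setOf_eq, ← Real.exp_sum, Real.exp_le_exp]
  rw [e5]
  have e6 : Real.exp (-t + 2 * I.card * θ) = Real.exp (-t) * Real.exp (2 * θ) ^ I.card := by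
    rw [Real.exp_add, ← Real.exp_nat_mul]; congr 2; ring
  rw [e6]
  have e7 := e4.trans (e1.le.trans e3)
  have e8 : Real.exp (-t) * Real.exp t = 1 := by rw [← Real.exp_add]; simp
  calc _ = Real.exp (-t) * (Real.exp t * nu.real {w | Real.exp t ≤ ∏ i ∈ I, Real.exp (f i w)}) := by
        rw [← mul_assoc, e8, one_mul]
    _ ≤ _ := mul_le_mul_of_nonneg_left e7 (Real.exp_pos _).le

/-- points on the segment -/
def pt (z : ℤ × ℤ) (N : ℕ) (i : ℕ) : ℤ × ℤ := (((i:ℤ) * z.1) / (N:ℤ), ((i:ℤ) * z.2) / (N:ℤ))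

lemma pt_zero (z : ℤ × ℤ) (N : ℕ) : pt z N 0 = 0 := by
  simp [pt]

lemma pt_last (z : ℤ × ℤ) {N : ℕ} (hN : 1 ≤ N) : pt z N N = z := by
  have : (N:ℤ) ≠ 0 := by positivity
  simp only [pt]
  rw [Int.mul_ediv_cancel_left _ this, Int.mul_ediv_cancel_left _ this]

lemma div_diff {N : ℕ} (hN : 1 ≤ N) (a b : ℤ) :
    N * (b / N - a / N).natAbs ≤ (b - a).natAbs + N ∧ (b - a).natAbs ≤ N * (b / N - a / N).natAbs + N := by
  have hN' : (0:ℤ) < N := by positivity
  have h1 := Int.mul_ediv_add_emod a N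
  have h2 := Int.mul_ediv_add_emod b N
  have h3 := Int.emod_nonneg a hN'.ne'
  have h4 := Int.emod_nonneg b hN'.ne'
  have h5 := Int.emod_lt_of_pos a hN'
  have h6 := Int.emod_lt_of_pos b hN'
  have h7 : N * (b / N - a / N).natAbs = ((N:ℤ) * (b / N) - N * (a / N)).natAbs := by
    rw [← mul_sub, Int.natAbs_mul, Int.natAbs_natCast]
  rw [h7]
  generalize (N:ℤ) * (b / N) = B at *
  generalize (N:ℤ) * (a / N) = A at *
  omega

lemma pt_dd (z : ℤ × ℤ) {N : ℕ} (hN : 1 ≤ N) {i j : ℕ} (hij : i ≤ j) :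
    N * dd (pt z N i) (pt z N j) ≤ (j - i) * dd 0 z + 2 * N ∧
    (j - i) * dd 0 z ≤ N * dd (pt z N i) (pt z N j) + 2 * N := by
  obtain ⟨k, rfl⟩ : ∃ k, j = i + k := ⟨j - i, by omega⟩
  have h1 := div_diff hN ((i:ℤ) * z.1) (((i + k : ℕ):ℤ) * z.1)
  have h2 := div_diff hN ((i:ℤ) * z.2) (((i + k : ℕ):ℤ) * z.2)
  have e1 : (((i + k : ℕ):ℤ) * z.1 - (i:ℤ) * z.1).natAbs = k * z.1.natAbs := by
    rw [← sub_mul, Int.natAbs_mul]; congr 1; push_cast; simp
  have e2 : (((i + k : ℕ):ℤ) * z.2 - (i:ℤ) * z.2).natAbs = k * z.2.natAbs := by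
    rw [← sub_mul, Int.natAbs_mul]; congr 1; push_cast; simp
  rw [e1] at h1
  rw [e2] at h2
  have e3 : i + k - i = k := by omega
  have e4 : dd 0 z = z.1.natAbs + z.2.natAbs := by simp [dd]
  rw [e3, e4]
  simp only [dd, pt, mul_add]
  omega

variable {μ : ℝ × ℝ → ℝ}

lemma pt_mz (h : Shape μ) (z : ℤ × ℤ) {N : ℕ} (hN : 1 ≤ N) (i : ℕ) :
    N * mz μ (pt z N (i + 1) - pt z N i) ≤ mz μ z + 6 * N := by
  rw [← mz_smul h]
  refine (mz_lip h z _).trans ?_
  have h3 : dd z ((N:ℤ) • (pt z N (i + 1) - pt z N i)) ≤ 2 * N := by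
    have hN' : (0:ℤ) < N := by positivity
    simp only [dd, pt, Prod.smul_fst, Prod.smul_snd, Prod.fst_sub, Prod.snd_sub, smul_eq_mul, mul_sub]
    have e1 := Int.mul_ediv_add_emod (((i + 1 : ℕ):ℤ) * z.1) N
    have e2 := Int.mul_ediv_add_emod (((i : ℕ):ℤ) * z.1) N
    have e3 := Int.mul_ediv_add_emod (((i + 1 : ℕ):ℤ) * z.2) N
    have e4 := Int.mul_ediv_add_emod (((i : ℕ):ℤ) * z.2) N
    have g1 := Int.emod_nonneg (((i + 1 : ℕ):ℤ) * z.1) hN'.ne'
    have g2 := Int.emod_nonneg (((i : ℕ):ℤ) * z.1) hN'.ne'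
    have g3 := Int.emod_nonneg (((i + 1 : ℕ):ℤ) * z.2) hN'.ne'
    have g4 := Int.emod_nonneg (((i : ℕ):ℤ) * z.2) hN'.ne'
    have g5 := Int.emod_lt_of_pos (((i + 1 : ℕ):ℤ) * z.1) hN'
    have g6 := Int.emod_lt_of_pos (((i : ℕ):ℤ) * z.1) hN'
    have g7 := Int.emod_lt_of_pos (((i + 1 : ℕ):ℤ) * z.2) hN'
    have g8 := Int.emod_lt_of_pos (((i : ℕ):ℤ) * z.2) hN'
    have f1 : (((i + 1 : ℕ):ℤ) * z.1) = (i:ℤ) * z.1 + z.1 := by push_cast; ring
    have f2 : (((i + 1 : ℕ):ℤ) * z.2) = (i:ℤ) * z.2 + z.2 := by push_cast; ring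
    generalize (N:ℤ) * ((((i + 1 : ℕ):ℤ) * z.1) / N) = A1 at *
    generalize (N:ℤ) * ((((i : ℕ):ℤ) * z.1) / N) = A2 at *
    generalize (N:ℤ) * ((((i + 1 : ℕ):ℤ) * z.2) / N) = A3 at *
    generalize (N:ℤ) * ((((i : ℕ):ℤ) * z.2) / N) = A4 at *
    generalize (((i + 1 : ℕ):ℤ) * z.1) % N = B1 at *
    generalize (((i : ℕ):ℤ) * z.1) % N = B2 at *
    generalize (((i + 1 : ℕ):ℤ) * z.2) % N = B3 at *
    generalize (((i : ℕ):ℤ) * z.2) % N = B4 at *
    generalize (((i + 1 : ℕ):ℤ) * z.1) = C1 at *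
    generalize (((i + 1 : ℕ):ℤ) * z.2) = C2 at *
    generalize (((i : ℕ):ℤ) * z.1) = C3 at *
    generalize (((i : ℕ):ℤ) * z.2) = C4 at *
    omega
  have h4 : (dd z ((N:ℤ) • (pt z N (i + 1) - pt z N i)) : ℝ) ≤ 2 * N := by exact_mod_cast h3
  linarith

/-- one block step at a fixed scale -/
lemma block (h : Shape μ) {z : ℤ × ℤ} {n m N : ℕ} (hn : dd 0 z = n) (hN : 1 ≤ N)
    (h1 : n ≤ N * m) (h2 : N * m ≤ 2 * n) (hm : 1 ≤ m) {B D g1 g2 : ℝ} (hB : 0 < B) (hD : 0 ≤ D)
    (hg1 : ∀ u, dd 0 u ≤ m + 2 → nu.real {w | mz μ u + B < TT (pw w) 0 u} ≤ g1)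
    (hg2 : ∀ u, dd 0 u ≤ m + 2 → nu.real {w | mz μ u + D < TT (pw w) 0 u} ≤ g2) (s : ℝ) :
    nu.real {w | mz μ z + 6 * N + 800 * (2 * N * (D + B * (g2 + 2 * (1 / 2) ^ (m + 2))) + B * s)
      < TT (pw w) 0 z} ≤ N * (g1 + 2 * (1 / 2) ^ (m + 2)) + 800 * Real.exp (-s) := by
  classical
  set R := 66 * (m + 2) with hR
  set x := pt z N with hx
  set η : ℝ := 2 * (1 / 2) ^ (m + 2) with hη
  let Y : ℕ → (Ed → ℝ) → ℝ := fun i w => TB (pw w) R (x i) (x (i + 1)) - mz μ (x (i + 1) - x i)
  let f : ℕ → (Ed → ℝ) → ℝ := fun i w => max 0 (min (Y i w / B) 1)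
  have hdd : ∀ i, dd (x i) (x (i + 1)) ≤ m + 2 := by
    intro i
    have e1 := (pt_dd z hN (Nat.le_succ i)).1
    have e2 : i.succ - i = 1 := by omega
    rw [e2, hn, one_mul] at e1
    have e3 : N * dd (x i) (x (i + 1)) ≤ N * (m + 2) := by
      refine e1.trans ?_
      rw [mul_add]; omega
    exact Nat.le_of_mul_le_mul_left e3 hN
  have hdd0 : ∀ i, dd 0 (x (i + 1) - x i) ≤ m + 2 := by
    intro i
    have e1 := dd_add 0 (x (i + 1) - x i) (x i)
    rw [zero_add, sub_add_cancel] at e1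
    rw [← e1]; exact hdd i
  have hYm : ∀ i, Measurable (Y i) := fun i => (measurable_TB _ _ _).sub_const _
  have hfm : ∀ i, Measurable (f i) := fun i =>
    measurable_const.max (((hYm i).div_const _).min measurable_const)
  have htail : ∀ (i : ℕ) (K g : ℝ), (∀ u, dd 0 u ≤ m + 2 → nu.real {w | mz μ u + K < TT (pw w) 0 u} ≤ g) →
      nu.real {w | K < Y i w} ≤ g + η := by
    intro i K g hg
    have hsub : {w | K < Y i w} ⊆ {w | TT (pw w) (x i) (x (i + 1)) ∈ Set.Ioi (mz μ (x (i + 1) - x i) + K)} ∪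
        {w | TT (pw w) (x i) (x (i + 1)) < TB (pw w) R (x i) (x (i + 1))} := by
      intro w hw
      by_contra hcon
      simp only [Set.mem_union, Set.mem_setOf_eq, not_or, not_lt, Set.mem_Ioi] at hcon
      simp only [Set.mem_setOf_eq, Y] at hw
      linarith [hcon.1, hcon.2]
    refine (measureReal_mono hsub (measure_ne_top _ _)).trans ((measureReal_union_le _ _).trans ?_)
    refine add_le_add ?_ (local_le (hdd i))
    rw [nu_TT_sh _ _ measurableSet_Ioi]
    exact hg _ (hdd0 i)
  have hmean : ∀ i, ∫ w, f i w ∂nu ≤ D / B + (g2 + η) := by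
    intro i
    have hms : MeasurableSet {w | D < Y i w} := measurableSet_lt measurable_const (hYm i)
    have hle : ∀ w, f i w ≤ D / B + Set.indicator {w | D < Y i w} (fun _ => (1:ℝ)) w := by
      intro w
      by_cases hw : D < Y i w
      · rw [Set.indicator_of_mem (show w ∈ {w | D < Y i w} from hw)]
        refine (max_le zero_le_one (min_le_right _ _)).trans ?_
        have : 0 ≤ D / B := by positivity
        linarith
      · rw [Set.indicator_of_notMem (show w ∉ {w | D < Y i w} from hw), add_zero]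
        refine max_le (by positivity) ((min_le_left _ _).trans ?_)
        push Not at hw
        gcongr
    calc ∫ w, f i w ∂nu ≤ ∫ w, (D / B + Set.indicator {w | D < Y i w} (fun _ => (1:ℝ)) w) ∂nu := by
          refine integral_mono ?_ ?_ hle
          · exact (integrable_const (1:ℝ)).mono' (hfm i).aestronglyMeasurable
              (Eventually.of_forall fun w => by
                rw [Real.norm_eq_abs, abs_of_nonneg (le_max_left _ _)]
                exact max_le zero_le_one (min_le_right _ _))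
          · exact (integrable_const _).add ((integrable_const _).indicator hms)
      _ = D / B + nu.real {w | D < Y i w} := by
          rw [integral_add (integrable_const _) ((integrable_const _).indicator hms),
            integral_indicator_const _ hms]
          simp
      _ ≤ _ := by linarith [htail i D g2 hg2]
  have hsum : ∀ (r : ℕ), nu.real {w | 2 * N * (D / B + (g2 + η)) + s ≤
      ∑ i ∈ (range N).filter (fun i => i % 800 = r), f i w} ≤ Real.exp (-s) := by
    intro r
    have hθ0 : 0 ≤ D / B + (g2 + η) :=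
      le_trans (integral_nonneg fun w => le_max_left _ _) (hmean 0)
    refine (chernoff ((range N).filter (fun i => i % 800 = r)) (fun i => be R (x i)) f hfm ?_ ?_
      (fun i w => le_max_left _ _) (fun i w => max_le zero_le_one (min_le_right _ _))
      (fun i _ => hmean i) _).trans ?_
    · intro i w w' hw
      simp only [f, Y]
      rw [TB_dep hw]
    · have key : ∀ i j, i < j → i % 800 = r → j % 800 = r → Disjoint (be R (x i)) (be R (x j)) := by
        intro i j hij hi hj
        refine be_disj ?_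
        have e1 := (pt_dd z hN hij.le).2
        rw [hn] at e1
        have e2 : 800 ≤ j - i := by omega
        have e3 : 800 * n ≤ (j - i) * n := Nat.mul_le_mul_right n e2
        have e4 : N * (2 * R) < N * dd (x i) (x j) := by
          have e5 : N * (2 * R) = 132 * (N * m) + 264 * N := by rw [hR]; ring
          have e6 : N ≤ N * m := Nat.le_mul_of_pos_right N hm
          have e7 : (j - i) * n ≤ N * dd (x i) (x j) + 2 * N := e1
          generalize N * m = u at *
          generalize N * dd (x i) (x j) = v at *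
          generalize (j - i) * n = t at *
          omega
        exact Nat.lt_of_mul_lt_mul_left e4
      intro i hi j hj hij
      simp only [Finset.mem_filter, Finset.mem_range] at hi hj
      rcases lt_or_gt_of_ne hij with h3 | h3
      · exact key i j h3 hi.2 hj.2
      · exact (key j i h3 hj.2 hi.2).symm
    · refine Real.exp_le_exp.2 ?_
      have e1 : (((range N).filter (fun i => i % 800 = r)).card : ℝ) ≤ N := by
        have := Finset.card_filter_le (range N) (fun i => i % 800 = r)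
        rw [Finset.card_range] at this
        exact_mod_cast this
      have e2 : (((range N).filter (fun i => i % 800 = r)).card : ℝ) * (D / B + (g2 + η)) ≤
          N * (D / B + (g2 + η)) := mul_le_mul_of_nonneg_right e1 hθ0
      linarith
  have hsub : {w | mz μ z + 6 * N + 800 * (2 * N * (D + B * (g2 + η)) + B * s) < TT (pw w) 0 z} ⊆
      (⋃ i ∈ range N, {w | B < Y i w}) ∪ (⋃ r ∈ range 800, {w | 2 * N * (D / B + (g2 + η)) + s ≤
      ∑ i ∈ (range N).filter (fun i => i % 800 = r), f i w}) := by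
    intro w hw
    by_contra hcon
    simp only [Set.mem_union, Set.mem_iUnion, Set.mem_setOf_eq, not_or, not_exists, not_lt, not_le,
      Finset.mem_range, exists_prop, not_and] at hcon
    obtain ⟨c1, c2⟩ := hcon
    simp only [Set.mem_setOf_eq] at hw
    have d1 : TT (pw w) 0 z ≤ ∑ i ∈ range N, TT (pw w) (x i) (x (i + 1)) := by
      have := TT_chain (pw_nonneg w) x N
      rwa [hx, pt_zero, pt_last z hN] at this
    have d2 : ∀ i ∈ range N, TT (pw w) (x i) (x (i + 1)) ≤ mz μ (x (i + 1) - x i) + B * f i w := by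
      intro i hi
      have e1 := c1 i (Finset.mem_range.1 hi)
      have e2 : TT (pw w) (x i) (x (i + 1)) ≤ TB (pw w) R (x i) (x (i + 1)) :=
        TT_le_TB (pw_nonneg w) ((hdd i).trans (by rw [hR]; omega))
      have e3 : Y i w ≤ B * f i w := by
        have e4 : Y i w / B ≤ f i w := by
          refine le_trans ?_ (le_max_right _ _)
          rw [min_eq_left ((div_le_one hB).2 e1)]
        rw [div_le_iff₀ hB] at e4
        linarith
      simp only [Y] at e3
      linarith
    have d3 : ∑ i ∈ range N, mz μ (x (i + 1) - x i) ≤ mz μ z + 6 * N := by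
      have hN0 : (0:ℝ) < N := by exact_mod_cast hN
      calc _ ≤ ∑ _i ∈ range N, ((mz μ z + 6 * N) / N) := Finset.sum_le_sum fun i _ => by
            rw [le_div_iff₀ hN0, mul_comm]; exact pt_mz h z hN i
        _ = _ := by rw [Finset.sum_const, Finset.card_range, nsmul_eq_mul]; field_simp
    have d4 : ∑ i ∈ range N, f i w ≤ 800 * (2 * N * (D / B + (g2 + η)) + s) := by
      rw [← Finset.sum_fiberwise_of_maps_to (s := range N) (t := range 800) (g := fun i => i % 800)
        (fun i _ => Finset.mem_range.2 (Nat.mod_lt _ (by norm_num)))]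
      calc _ ≤ ∑ _r ∈ range 800, (2 * N * (D / B + (g2 + η)) + s) :=
            Finset.sum_le_sum fun r hr => (c2 r (Finset.mem_range.1 hr)).le
        _ = _ := by rw [Finset.sum_const, Finset.card_range, nsmul_eq_mul]; norm_num
    have d5 := d1.trans (Finset.sum_le_sum d2)
    rw [Finset.sum_add_distrib, ← Finset.mul_sum] at d5
    have d6 : B * (800 * (2 * N * (D / B + (g2 + η)) + s)) =
        800 * (2 * N * (D + B * (g2 + η)) + B * s) := by
      field_simp
    have d7 := mul_le_mul_of_nonneg_left d4 hB.le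
    rw [d6] at d7
    linarith
  refine (measureReal_mono hsub (measure_ne_top _ _)).trans ((measureReal_union_le _ _).trans ?_)
  refine add_le_add ?_ ?_
  · refine (measureReal_biUnion_finset_le _ _).trans ?_
    calc _ ≤ ∑ _i ∈ range N, (g1 + η) := Finset.sum_le_sum fun i _ => htail i B g1 hg1
      _ = _ := by rw [Finset.sum_const, Finset.card_range, nsmul_eq_mul]
  · refine (measureReal_biUnion_finset_le _ _).trans ?_
    calc _ ≤ ∑ _r ∈ range 800, Real.exp (-s) := Finset.sum_le_sum fun r _ => hsum r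
      _ = _ := by rw [Finset.sum_const, Finset.card_range, nsmul_eq_mul]; norm_num

end Q70.Fp
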