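import Pool.Agent.Q70.FpE

/-!
# First passage percolation: iteration of the block step
-/

set_option autoImplicit false

open MeasureTheory ProbabilityTheory Finset Filter
open scoped Topology

namespace Q70.Fp

lemma exp_poly (q : ℝ) (hq : 0 < q) {c : ℝ} (hc : 0 < c) :
    ∃ C : ℝ, 0 < C ∧ ∀ u : ℝ, 1 ≤ u → Real.exp (-(c * u)) ≤ C * u ^ (-q) := by
  set N := ⌈q⌉₊ with hN
  refine ⟨(Nat.factorial N : ℝ) / c ^ N, by positivity, fun u hu => ?_⟩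
  have hu0 : 0 < u := by linarith
  have h1 := Real.pow_div_factorial_le_exp (c * u) (by positivity) N
  have h2 : u ^ q ≤ u ^ N := by
    rw [← Real.rpow_natCast]
    exact Real.rpow_le_rpow_of_exponent_le hu (Nat.le_ceil q)
  rw [Real.exp_neg, Real.rpow_neg hu0.le]
  rw [div_le_iff₀ (by positivity), mul_pow] at h1
  rw [← div_eq_mul_inv, le_div_iff₀ (by positivity), inv_mul_le_iff₀ (Real.exp_pos _),
    mul_div_assoc', le_div_iff₀ (by positivity)]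
  calc u ^ q * c ^ N ≤ u ^ N * c ^ N := by gcongr
    _ = c ^ N * u ^ N := by ring
    _ ≤ _ := h1

lemma half_poly (q : ℝ) (hq : 0 < q) :
    ∃ C : ℝ, 0 < C ∧ ∀ k : ℕ, (1 / 2 : ℝ) ^ k ≤ C * ((k:ℝ) + 1) ^ (-q) := by
  obtain ⟨C, hC, h⟩ := exp_poly q hq (Real.log_pos one_lt_two)
  refine ⟨2 * C, by positivity, fun k => ?_⟩
  have h1 := h ((k:ℝ) + 1) (by linarith [Nat.cast_nonneg (α := ℝ) k])
  have h2 : Real.exp (-(Real.log 2 * ((k:ℝ) + 1))) = (1 / 2) ^ (k + 1) := by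
    rw [show -(Real.log 2 * ((k:ℝ) + 1)) = ((k + 1 : ℕ) : ℝ) * (-Real.log 2) by push_cast; ring,
      Real.exp_nat_mul, Real.exp_neg, Real.exp_log two_pos]
    norm_num
  rw [h2, pow_succ] at h1
  linarith

lemma pow_small {c a K : ℝ} (h : c < a) : ∀ᶠ n : ℕ in atTop, K * (n:ℝ) ^ c ≤ (n:ℝ) ^ a / 4 := by
  have h1 : Tendsto (fun n : ℕ => (n:ℝ) ^ (a - c)) atTop atTop :=
    (tendsto_rpow_atTop (by linarith)).comp tendsto_natCast_atTop_atTop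
  filter_upwards [h1.eventually_ge_atTop (4 * K), eventually_ge_atTop 1] with n hn hn1
  have hn0 : (0:ℝ) < n := by exact_mod_cast hn1
  have h2 : (n:ℝ) ^ a = (n:ℝ) ^ (a - c) * (n:ℝ) ^ c := by rw [← Real.rpow_add hn0]; congr 1; ring
  rw [h2]
  have h3 : 0 < (n:ℝ) ^ c := by positivity
  nlinarith

/-- polynomial bound for the upper tail at the exponent `a` -/
def Tl (μ : ℝ × ℝ → ℝ) (a δ : ℝ) : Prop := ∃ C : ℝ, 0 < C ∧ ∀ v : ℤ × ℤ, v ≠ 0 →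
  nu.real {w | mz μ v + (dd 0 v : ℝ) ^ a < TT (pw w) 0 v} ≤ C * (dd 0 v : ℝ) ^ (-δ)

/-- rapid decay of the upper tail at the exponent `a` -/
def HH (μ : ℝ × ℝ → ℝ) (a : ℝ) : Prop := ∀ q : ℝ, 0 < q → Tl μ a q

variable {μ : ℝ × ℝ → ℝ}

lemma dd_pos {v : ℤ × ℤ} (h : v ≠ 0) : 1 ≤ dd 0 v := by
  by_contra hcon
  exact h (dd_eq_zero (by omega)).symm

lemma of_ev {P : ℤ × ℤ → ℝ} (hP : ∀ v, P v ≤ 1) {q C : ℝ} (hq : 0 < q) (hC : 0 < C)
    (h : ∀ᶠ n : ℕ in atTop, ∀ z, dd 0 z = n → P z ≤ C * (n:ℝ) ^ (-q)) :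
    ∃ C' : ℝ, 0 < C' ∧ ∀ v, v ≠ 0 → P v ≤ C' * (dd 0 v : ℝ) ^ (-q) := by
  obtain ⟨n0, h0⟩ := eventually_atTop.1 h
  refine ⟨C + ((n0:ℝ) + 1) ^ q, by positivity, fun v hv => ?_⟩
  have h1 := dd_pos hv
  have h1' : (0:ℝ) < dd 0 v := by exact_mod_cast h1
  have h2 : 0 < (dd 0 v : ℝ) ^ (-q) := by positivity
  rw [add_mul]
  by_cases h3 : n0 ≤ dd 0 v
  · refine (h0 _ h3 v rfl).trans ?_
    have : 0 ≤ ((n0:ℝ) + 1) ^ q * (dd 0 v : ℝ) ^ (-q) := by positivity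
    linarith
  · refine (hP v).trans ?_
    have h4 : (dd 0 v : ℝ) ≤ (n0:ℝ) + 1 := by
      have : dd 0 v ≤ n0 + 1 := by omega
      exact_mod_cast this
    have h5 : 1 ≤ ((n0:ℝ) + 1) ^ q * (dd 0 v : ℝ) ^ (-q) := by
      rw [Real.rpow_neg h1'.le, ← div_eq_mul_inv, one_le_div (by positivity)]
      exact Real.rpow_le_rpow h1'.le h4 hq.le
    have h6 : 0 ≤ C * (dd 0 v : ℝ) ^ (-q) := by positivity
    linarith

lemma unif (h : Shape μ) {a δ : ℝ} (ha : 0 < a) (hδ : 0 < δ) (hT : Tl μ a δ) :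
    ∃ C : ℝ, 0 < C ∧ ∀ m : ℕ, 1 ≤ m → ∀ z, dd 0 z ≤ m →
      nu.real {w | mz μ z + (m:ℝ) ^ a < TT (pw w) 0 z} ≤ C * (m:ℝ) ^ (-(δ * min a 1)) := by
  obtain ⟨C, hC, hT⟩ := hT
  obtain ⟨C2, hC2, h2⟩ := half_poly δ hδ
  refine ⟨C * 3 ^ δ + C2 * 3 ^ δ, by positivity, fun m hm z hz => ?_⟩
  have hm1 : (1:ℝ) ≤ m := by exact_mod_cast hm
  have hm0 : (0:ℝ) < m := by linarith
  have hc0 : 0 < min a 1 := lt_min ha one_pos
  set u : ℝ := (m:ℝ) ^ (min a 1) with hu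
  have hu1 : 1 ≤ u := Real.one_le_rpow hm1 hc0.le
  have hua : u ≤ (m:ℝ) ^ a := Real.rpow_le_rpow_of_exponent_le hm1 (min_le_left _ _)
  have e1 : (m:ℝ) ^ (-(δ * min a 1)) = u ^ (-δ) := by
    rw [hu, ← Real.rpow_mul hm0.le]; congr 1; ring
  have e2 : (u / 3) ^ (-δ) = 3 ^ δ * u ^ (-δ) := by
    rw [Real.div_rpow (by positivity) (by norm_num), Real.rpow_neg (by norm_num : (0:ℝ) ≤ 3), div_inv_eq_mul,
      mul_comm]
  rw [e1, add_mul, mul_assoc, mul_assoc, ← e2]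
  have hpos : 0 < (u / 3) ^ (-δ) := by positivity
  by_cases hcase : (dd 0 z : ℝ) ≤ u / 3
  · set k := ⌊u / 3⌋₊ with hk
    have h3 : dd 0 z ≤ k := Nat.le_floor hcase
    have h4 : (k:ℝ) ≤ u / 3 := Nat.floor_le (by positivity)
    have h5 : u / 3 < k + 1 := Nat.lt_floor_add_one _
    have h6 : nu.real {w | mz μ z + (m:ℝ) ^ a < TT (pw w) 0 z} ≤ (1 / 2) ^ k := by
      refine (measureReal_mono ?_ (measure_ne_top _ _)).trans (straight h3)
      intro w hw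
      simp only [Set.mem_setOf_eq] at hw ⊢
      linarith [mz_nonneg h z]
    have h7 := h2 k
    have h8 : ((k:ℝ) + 1) ^ (-δ) ≤ (u / 3) ^ (-δ) :=
      Real.rpow_le_rpow_of_nonpos (by positivity) h5.le (by linarith)
    have h9 : C2 * ((k:ℝ) + 1) ^ (-δ) ≤ C2 * (u / 3) ^ (-δ) := by gcongr
    have h10 : 0 ≤ C * (u / 3) ^ (-δ) := by positivity
    linarith
  · push Not at hcase
    have hz0 : z ≠ 0 := by
      rintro rfl
      rw [dd_self] at hcase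
      simp only [Nat.cast_zero] at hcase
      linarith
    have h3 : nu.real {w | mz μ z + (m:ℝ) ^ a < TT (pw w) 0 z} ≤
        nu.real {w | mz μ z + (dd 0 z : ℝ) ^ a < TT (pw w) 0 z} := by
      refine measureReal_mono ?_ (measure_ne_top _ _)
      intro w hw
      simp only [Set.mem_setOf_eq] at hw ⊢
      have : (dd 0 z : ℝ) ^ a ≤ (m:ℝ) ^ a :=
        Real.rpow_le_rpow (by positivity) (by exact_mod_cast hz) ha.le
      linarith
    have h4 : (dd 0 z : ℝ) ^ (-δ) ≤ (u / 3) ^ (-δ) :=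
      Real.rpow_le_rpow_of_nonpos (by positivity) hcase.le (by linarith)
    have h5 : C * (dd 0 z : ℝ) ^ (-δ) ≤ C * (u / 3) ^ (-δ) := by gcongr
    have h10 : 0 ≤ C2 * (u / 3) ^ (-δ) := by positivity
    linarith [hT z hz0]

lemma HH_mono {a a' : ℝ} (haa : a ≤ a') (hH : HH μ a) : HH μ a' := by
  intro q hq
  obtain ⟨C, hC, h1⟩ := hH q hq
  refine ⟨C, hC, fun v hv => (measureReal_mono ?_ (measure_ne_top _ _)).trans (h1 v hv)⟩
  intro w hw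
  simp only [Set.mem_setOf_eq] at hw ⊢
  have : (dd 0 v : ℝ) ^ a ≤ (dd 0 v : ℝ) ^ a' :=
    Real.rpow_le_rpow_of_exponent_le (by exact_mod_cast dd_pos hv) haa
  linarith

lemma HH_two (h : Shape μ) : HH μ 2 := by
  intro q hq
  obtain ⟨C, hC, h1⟩ := half_poly q hq
  refine of_ev (fun v => measureReal_le_one) hq hC ?_
  filter_upwards [eventually_ge_atTop 3] with n hn z hz
  have hn0 : (3:ℝ) ≤ n := by exact_mod_cast hn
  have h2 : nu.real {w | mz μ z + (dd 0 z : ℝ) ^ (2:ℝ) < TT (pw w) 0 z} ≤ (1 / 2) ^ n := by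
    refine (measureReal_mono ?_ (measure_ne_top _ _)).trans (straight hz.le)
    intro w hw
    simp only [Set.mem_setOf_eq] at hw ⊢
    rw [hz, Real.rpow_two] at hw
    nlinarith [mz_nonneg h z]
  refine h2.trans ((h1 n).trans ?_)
  gcongr C * ?_
  exact Real.rpow_le_rpow_of_nonpos (by positivity) (by linarith) (by linarith)

lemma step (h : Shape μ) {a a' b δ κ : ℝ} (ha : 0 < a) (hb : 0 < b) (hb1 : b ≤ 1) (hδ : 0 < δ)
    (hκ0 : 0 < κ) (hκ1 : κ < 1) (h1 : κ * a < a') (h2 : 1 - κ + κ * b < a')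
    (h3 : 1 - κ + κ * (a - δ * b) < a') (hT : Tl μ b δ) (hH : HH μ a) : HH μ a' := by
  intro q hq
  have hmin : 0 < min a 1 := lt_min ha one_pos
  set q1 : ℝ := (q + 1) / (κ * min a 1) with hq1
  have hq1pos : 0 < q1 := by positivity
  obtain ⟨C1, hC1, hU1⟩ := unif h ha hq1pos (hH q1 hq1pos)
  obtain ⟨C2, hC2, hU2⟩ := unif h hb hδ hT
  obtain ⟨C3, hC3, hP3⟩ := half_poly (δ * b) (by positivity)
  obtain ⟨C4, hC4, hP4⟩ := half_poly ((q + 1) / κ) (by positivity)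
  set ε : ℝ := (a' - κ * a) / 2 with hε
  have hε0 : 0 < ε := by rw [hε]; linarith
  obtain ⟨C5, hC5, hP5⟩ := exp_poly (q / ε) (by positivity) one_pos
  rw [min_eq_left hb1] at hU2
  refine of_ev (fun v => measureReal_le_one) hq
    (show 0 < 2 * (C1 + 2 * C4) + 800 * C5 by positivity) ?_
  filter_upwards [eventually_ge_atTop 1, pow_small (K := 12) (show 1 - κ < a' by nlinarith [mul_pos hκ0 hb]),
    pow_small (K := 3200 * 4 ^ b) h2, pow_small (K := 3200 * 4 ^ a * (C2 + 2 * C3)) h3,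
    pow_small (K := 800 * 4 ^ a) (show κ * a + ε < a' by rw [hε]; linarith)]
    with n hn s1 s2 s3 s4 z hz
  have hn1 : (1:ℝ) ≤ n := by exact_mod_cast hn
  have hn0 : (0:ℝ) < n := by linarith
  set u : ℝ := (n:ℝ) ^ κ with hu
  have hu1 : 1 ≤ u := Real.one_le_rpow hn1 hκ0.le
  have hu0 : 0 < u := by linarith
  have hun : u ≤ n := by
    calc u ≤ (n:ℝ) ^ (1:ℝ) := Real.rpow_le_rpow_of_exponent_le hn1 hκ1.le
      _ = n := Real.rpow_one _
  set m : ℕ := ⌈u⌉₊ with hm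
  have hmu : u ≤ m := Nat.le_ceil u
  have hmu2 : (m:ℝ) < u + 1 := Nat.ceil_lt_add_one hu0.le
  have hm1 : 1 ≤ m := Nat.one_le_iff_ne_zero.2 (by
    intro h0
    rw [h0] at hmu
    simp only [Nat.cast_zero] at hmu
    linarith)
  have hmn : m ≤ n := Nat.ceil_le.2 hun
  set N : ℕ := (n + m - 1) / m with hN
  have hdm := Nat.div_add_mod (n + m - 1) m
  have hml := Nat.mod_lt (n + m - 1) (show 0 < m by omega)
  rw [← hN] at hdm
  have hN1 : n ≤ N * m := by rw [mul_comm]; omega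
  have hN2 : N * m ≤ 2 * n := by rw [mul_comm]; omega
  have hN0 : 1 ≤ N := Nat.one_le_iff_ne_zero.2 (by
    intro h0
    rw [h0, zero_mul] at hN1
    omega)
  have hNr : (N:ℝ) ≤ 2 * (n:ℝ) ^ (1 - κ) := by
    have e1 : (N:ℝ) * m ≤ 2 * n := by exact_mod_cast hN2
    have e2 : (N:ℝ) * u ≤ 2 * n := (mul_le_mul_of_nonneg_left hmu (Nat.cast_nonneg _)).trans e1
    rw [Real.rpow_sub hn0, Real.rpow_one, ← hu, mul_div_assoc', le_div_iff₀ hu0]
    exact e2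
  have hNn : (N:ℝ) ≤ 2 * n := by
    refine hNr.trans ?_
    have : (n:ℝ) ^ (1 - κ) ≤ (n:ℝ) ^ (1:ℝ) := Real.rpow_le_rpow_of_exponent_le hn1 (by linarith)
    rw [Real.rpow_one] at this
    linarith
  set M : ℝ := ((m + 2 : ℕ) : ℝ) with hM
  have hMu : u ≤ M := by rw [hM]; push_cast; linarith
  have hM4 : M ≤ 4 * u := by rw [hM]; push_cast; linarith
  have hM0 : 0 < M := by linarith
  have hB : M ^ a ≤ 4 ^ a * (n:ℝ) ^ (κ * a) := by
    calc M ^ a ≤ (4 * u) ^ a := Real.rpow_le_rpow hM0.le hM4 ha.le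
      _ = _ := by rw [Real.mul_rpow (by norm_num) hu0.le, hu, ← Real.rpow_mul hn0.le]
  have hD : M ^ b ≤ 4 ^ b * (n:ℝ) ^ (κ * b) := by
    calc M ^ b ≤ (4 * u) ^ b := Real.rpow_le_rpow hM0.le hM4 hb.le
      _ = _ := by rw [Real.mul_rpow (by norm_num) hu0.le, hu, ← Real.rpow_mul hn0.le]
  have hneg : ∀ r : ℝ, 0 < r → M ^ (-r) ≤ (n:ℝ) ^ (-(κ * r)) := by
    intro r hr
    refine (Real.rpow_le_rpow_of_nonpos hu0 hMu (by linarith)).trans (le_of_eq ?_)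
    rw [hu, ← Real.rpow_mul hn0.le]; congr 1; ring
  have hneg' : ∀ r : ℝ, 0 < r → (((m + 2 : ℕ) : ℝ) + 1) ^ (-r) ≤ (n:ℝ) ^ (-(κ * r)) := by
    intro r hr
    refine le_trans ?_ (hneg r hr)
    exact Real.rpow_le_rpow_of_nonpos hM0 (by rw [hM]; linarith) (by linarith)
  have hg2 : C2 * M ^ (-(δ * b)) + 2 * (1 / 2) ^ (m + 2) ≤ (C2 + 2 * C3) * (n:ℝ) ^ (-(κ * (δ * b))) := by
    have e1 := hP3 (m + 2)
    have e2 := hneg (δ * b) (by positivity)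
    have e3 := hneg' (δ * b) (by positivity)
    have e4 : C2 * M ^ (-(δ * b)) ≤ C2 * (n:ℝ) ^ (-(κ * (δ * b))) := by gcongr
    have e5 : C3 * (((m + 2 : ℕ) : ℝ) + 1) ^ (-(δ * b)) ≤ C3 * (n:ℝ) ^ (-(κ * (δ * b))) := by gcongr
    linarith
  have hg1 : C1 * M ^ (-(q1 * min a 1)) + 2 * (1 / 2) ^ (m + 2) ≤ (C1 + 2 * C4) * (n:ℝ) ^ (-(q + 1)) := by
    have e0 : κ * (q1 * min a 1) = q + 1 := by rw [hq1]; field_simp
    have e0' : κ * ((q + 1) / κ) = q + 1 := by field_simp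
    have e1 := hP4 (m + 2)
    have e2 := hneg (q1 * min a 1) (by positivity)
    have e3 := hneg' ((q + 1) / κ) (by positivity)
    rw [e0] at e2
    rw [e0'] at e3
    have e4 : C1 * M ^ (-(q1 * min a 1)) ≤ C1 * (n:ℝ) ^ (-(q + 1)) := by gcongr
    have e5 : C4 * (((m + 2 : ℕ) : ℝ) + 1) ^ (-((q + 1) / κ)) ≤ C4 * (n:ℝ) ^ (-(q + 1)) := by gcongr
    linarith
  have hblock := block h hz hN0 hN1 hN2 hm1 (B := M ^ a) (D := M ^ b)
    (g1 := C1 * M ^ (-(q1 * min a 1))) (g2 := C2 * M ^ (-(δ * b)))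
    (by positivity) (by positivity) (fun v hv => hU1 (m + 2) (by omega) v hv)
    (fun v hv => hU2 (m + 2) (by omega) v hv) ((n:ℝ) ^ ε)
  have hfl : 6 * (N:ℝ) + 800 * (2 * N * (M ^ b + M ^ a * (C2 * M ^ (-(δ * b)) + 2 * (1 / 2) ^ (m + 2)))
      + M ^ a * (n:ℝ) ^ ε) ≤ (n:ℝ) ^ a' := by
    have e1 : M ^ a * (C2 * M ^ (-(δ * b)) + 2 * (1 / 2) ^ (m + 2)) ≤
        (4 ^ a * (n:ℝ) ^ (κ * a)) * ((C2 + 2 * C3) * (n:ℝ) ^ (-(κ * (δ * b)))) := by gcongr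
    have e2 : 2 * (N:ℝ) * (M ^ b + M ^ a * (C2 * M ^ (-(δ * b)) + 2 * (1 / 2) ^ (m + 2))) ≤
        2 * (2 * (n:ℝ) ^ (1 - κ)) * (4 ^ b * (n:ℝ) ^ (κ * b) +
          (4 ^ a * (n:ℝ) ^ (κ * a)) * ((C2 + 2 * C3) * (n:ℝ) ^ (-(κ * (δ * b))))) := by gcongr
    have e3 : M ^ a * (n:ℝ) ^ ε ≤ (4 ^ a * (n:ℝ) ^ (κ * a)) * (n:ℝ) ^ ε := by gcongr
    have e4 : (n:ℝ) ^ (1 - κ) * (n:ℝ) ^ (κ * b) = (n:ℝ) ^ (1 - κ + κ * b) := by rw [← Real.rpow_add hn0]
    have e5 : (n:ℝ) ^ (1 - κ) * ((n:ℝ) ^ (κ * a) * (n:ℝ) ^ (-(κ * (δ * b)))) =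
        (n:ℝ) ^ (1 - κ + κ * (a - δ * b)) := by
      rw [← Real.rpow_add hn0, ← Real.rpow_add hn0]; congr 1; ring
    have e6 : (n:ℝ) ^ (κ * a) * (n:ℝ) ^ ε = (n:ℝ) ^ (κ * a + ε) := by rw [← Real.rpow_add hn0]
    have e7 : 2 * (2 * (n:ℝ) ^ (1 - κ)) * (4 ^ b * (n:ℝ) ^ (κ * b) +
          (4 ^ a * (n:ℝ) ^ (κ * a)) * ((C2 + 2 * C3) * (n:ℝ) ^ (-(κ * (δ * b))))) =
          4 * 4 ^ b * ((n:ℝ) ^ (1 - κ) * (n:ℝ) ^ (κ * b)) +
          4 * 4 ^ a * (C2 + 2 * C3) * ((n:ℝ) ^ (1 - κ) * ((n:ℝ) ^ (κ * a) * (n:ℝ) ^ (-(κ * (δ * b))))) := by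
      ring
    have e8 : (4 ^ a * (n:ℝ) ^ (κ * a)) * (n:ℝ) ^ ε = 4 ^ a * ((n:ℝ) ^ (κ * a) * (n:ℝ) ^ ε) := by ring
    rw [e7, e4, e5] at e2
    rw [e8, e6] at e3
    linarith
  have hmono : nu.real {w | mz μ z + (dd 0 z : ℝ) ^ a' < TT (pw w) 0 z} ≤
      N * (C1 * M ^ (-(q1 * min a 1)) + 2 * (1 / 2) ^ (m + 2)) + 800 * Real.exp (-(n:ℝ) ^ ε) := by
    refine (measureReal_mono ?_ (measure_ne_top _ _)).trans hblock
    intro w hw
    simp only [Set.mem_setOf_eq] at hw ⊢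
    rw [hz] at hw
    linarith
  refine hmono.trans ?_
  have e1 : (N:ℝ) * (C1 * M ^ (-(q1 * min a 1)) + 2 * (1 / 2) ^ (m + 2)) ≤
      (2 * n) * ((C1 + 2 * C4) * (n:ℝ) ^ (-(q + 1))) := by gcongr
  have e2 : (n:ℝ) * (n:ℝ) ^ (-(q + 1)) = (n:ℝ) ^ (-q) := by
    rw [← Real.rpow_one_add' hn0.le (by linarith)]; congr 1; ring
  have e3 := hP5 ((n:ℝ) ^ ε) (Real.one_le_rpow hn1 hε0.le)
  rw [one_mul, ← Real.rpow_mul hn0.le, show ε * -(q / ε) = -q by field_simp] at e3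
  have e4 : (2 * (n:ℝ)) * ((C1 + 2 * C4) * (n:ℝ) ^ (-(q + 1))) =
      2 * (C1 + 2 * C4) * ((n:ℝ) * (n:ℝ) ^ (-(q + 1))) := by ring
  rw [e4, e2] at e1
  linarith

lemma iter (h : Shape μ) {b δ : ℝ} (hb : 0 < b) (hb1 : b ≤ 1) (hδ : 0 < δ) (hT : Tl μ b δ)
    {η : ℝ} (hη : 0 < η) : HH μ (b + η) := by
  set e : ℝ := min η (δ * b) with he
  have he0 : 0 < e := lt_min hη (by positivity)
  have he1 : e ≤ η := min_le_left _ _
  have he2 : e ≤ δ * b := min_le_right _ _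
  set κ : ℝ := 1 / (1 + e) with hκ
  set κ' : ℝ := 1 / (1 + e / 2) with hκ'
  have hκ0 : 0 < κ := by positivity
  have hκ1 : κ < 1 := by rw [hκ, div_lt_one (by positivity)]; linarith
  have hκκ' : κ < κ' := by
    rw [hκ, hκ']
    exact one_div_lt_one_div_of_lt (by positivity) (by linarith)
  have hκ'1 : κ' < 1 := by rw [hκ', div_lt_one (by positivity)]; linarith
  have hκ'0 : 0 < κ' := by positivity
  have hid : 1 - κ = κ * e := by rw [hκ]; field_simp; ring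
  have key : ∀ k : ℕ, HH μ (max (2 * κ' ^ k) (b + e)) := by
    intro k
    induction k with
    | zero =>
      refine HH_mono ?_ (HH_two h)
      simp
    | succ k ih =>
      rcases le_total (2 * κ' ^ k) (b + e) with hc | hc
      · rw [max_eq_right hc] at ih
        exact HH_mono (le_max_right _ _) ih
      · rw [max_eq_left hc] at ih
        refine HH_mono (le_max_left _ _) ?_
        have ha : 0 < 2 * κ' ^ k := by positivity
        rw [pow_succ, ← mul_assoc]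
        generalize 2 * κ' ^ k = a at *
        refine step h (b := b) (δ := δ) (κ := κ) ha hb hb1 hδ hκ0 hκ1 ?_ ?_ ?_ hT ih
        · rw [mul_comm a]; exact mul_lt_mul_of_pos_right hκκ' ha
        · rw [hid]
          calc κ * e + κ * b = κ * (b + e) := by ring
            _ ≤ κ * a := by gcongr
            _ < a * κ' := by rw [mul_comm a]; exact mul_lt_mul_of_pos_right hκκ' ha
        · rw [hid]
          calc κ * e + κ * (a - δ * b) = κ * (a + (e - δ * b)) := by ring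
            _ ≤ κ * a := by
              refine mul_le_mul_of_nonneg_left ?_ hκ0.le
              linarith
            _ < a * κ' := by rw [mul_comm a]; exact mul_lt_mul_of_pos_right hκκ' ha
  have hlim : Tendsto (fun k : ℕ => 2 * κ' ^ k) atTop (𝓝 (2 * 0)) :=
    (tendsto_pow_atTop_nhds_zero_of_lt_one hκ'0.le hκ'1).const_mul 2
  rw [mul_zero] at hlim
  obtain ⟨k, hk⟩ := (hlim.eventually (gt_mem_nhds (show 0 < b + e by positivity))).exists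
  have := key k
  rw [max_eq_right hk.le] at this
  exact HH_mono (by linarith) this

/-- a polynomial bound at all larger exponents is a rapid one -/
lemma boost (h : Shape μ) {b : ℝ} (hb : 0 < b) (hb1 : b < 1)
    (hT : ∀ ζ : ℝ, 0 < ζ → ∃ δ : ℝ, 0 < δ ∧ Tl μ (b + ζ) δ) {a : ℝ} (ha : b < a) : HH μ a := by
  set ζ := min ((a - b) / 2) (1 - b) with hζ
  have h0 : 0 < ζ := lt_min (by linarith) (by linarith)
  have h1 : ζ ≤ (a - b) / 2 := min_le_left _ _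
  have h2 : ζ ≤ 1 - b := min_le_right _ _
  obtain ⟨δ, hδ, hT'⟩ := hT ζ h0
  exact HH_mono (by linarith) (iter h (by linarith) (by linarith) hδ hT'
    (show 0 < (a - b) / 2 by linarith))

end Q70.Fp
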