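import Pool.Agent.Q70.FpF

/-!
# First passage percolation: moments and the lower tail
-/

set_option autoImplicit false

open MeasureTheory ProbabilityTheory Finset Filter
open scoped Topology

namespace Q70.Fp

variable {μ : ℝ × ℝ → ℝ}

lemma meas_pos (v : ℤ × ℤ) (c : ℝ) : Measurable (fun w : Ed → ℝ => max (TT (pw w) 0 v - c) 0) :=
  ((measurable_TT 0 v).sub_const c).max measurable_const

/-- all moments of the positive part -/
lemma pos_moment (h : Shape μ) {a : ℝ} (ha : 0 < a) (hH : HH μ a) {p : ℝ} (hp : 0 < p) :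
    ∃ C : ℝ, 0 < C ∧ ∀ v : ℤ × ℤ, v ≠ 0 →
      Integrable (fun w => max (TT (pw w) 0 v - mz μ v) 0 ^ p) nu ∧
      ∫ w, max (TT (pw w) 0 v - mz μ v) 0 ^ p ∂nu ≤ C * (dd 0 v : ℝ) ^ (a * p) := by
  obtain ⟨C1, hC1, h1⟩ := hH p hp
  obtain ⟨C2, hC2, h2⟩ := exp_poly p hp (show (0:ℝ) < 1 / 8 by norm_num)
  refine ⟨1 + 3 ^ p * C1 + C2, by positivity, fun v hv => ?_⟩
  set n := dd 0 v with hn
  have hn1 : (1:ℝ) ≤ n := by exact_mod_cast dd_pos hv
  have hn0 : (0:ℝ) < n := by linarith
  obtain ⟨S, hS1, hS2, -, hS3, hS4⟩ := exists_major 0 v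
  set A : Set (Ed → ℝ) := {w | mz μ v + (n:ℝ) ^ a < TT (pw w) 0 v} with hA
  have hAm : MeasurableSet A := measurableSet_lt measurable_const (measurable_TT 0 v)
  set G : (Ed → ℝ) → ℝ := fun w => (n:ℝ) ^ (a * p) + A.indicator (fun _ => (3 * (n:ℝ)) ^ p) w
    + C2 * Real.exp (-(9 / 8 * (n:ℝ))) * Real.exp (1 / 2 * S w) with hG
  have hle : ∀ w, max (TT (pw w) 0 v - mz μ v) 0 ^ p ≤ G w := by
    intro w
    have t1 : 0 ≤ (n:ℝ) ^ (a * p) := by positivity
    have t2 : 0 ≤ A.indicator (fun _ => (3 * (n:ℝ)) ^ p) w :=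
      Set.indicator_nonneg (fun _ _ => by positivity) w
    have t3 : 0 ≤ C2 * Real.exp (-(9 / 8 * (n:ℝ))) * Real.exp (1 / 2 * S w) := by positivity
    by_cases hw : w ∈ A
    · have hT : mz μ v + (n:ℝ) ^ a < TT (pw w) 0 v := hw
      have hpos : 0 < TT (pw w) 0 v - mz μ v := by
        have : 0 < (n:ℝ) ^ a := by positivity
        linarith
      rw [max_eq_left hpos.le]
      have hm := mz_nonneg h v
      by_cases h3 : TT (pw w) 0 v ≤ 3 * n
      · have e1 : (TT (pw w) 0 v - mz μ v) ^ p ≤ (3 * (n:ℝ)) ^ p :=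
          Real.rpow_le_rpow hpos.le (by linarith) hp.le
        simp only [hG, Set.indicator_of_mem hw]
        linarith
      · push Not at h3
        have hSw : 3 * (n:ℝ) < S w := h3.trans_le (hS2 w)
        have hS1' : 1 ≤ S w := by linarith
        have e1 : (TT (pw w) 0 v - mz μ v) ^ p ≤ (S w) ^ p :=
          Real.rpow_le_rpow hpos.le (by linarith [hS2 w]) hp.le
        have e2 := h2 (S w) hS1'
        have e3 : (S w) ^ p ≤ C2 * Real.exp (1 / 8 * S w) := by
          rw [Real.exp_neg, Real.rpow_neg (by linarith), ← div_eq_mul_inv,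
            le_div_iff₀ (by positivity), inv_mul_le_iff₀ (Real.exp_pos _)] at e2
          linarith
        have e4 : Real.exp (1 / 8 * S w) ≤ Real.exp (-(9 / 8 * (n:ℝ))) * Real.exp (1 / 2 * S w) := by
          rw [← Real.exp_add]
          refine Real.exp_le_exp.2 ?_
          linarith
        have e5 : C2 * Real.exp (1 / 8 * S w) ≤
            C2 * (Real.exp (-(9 / 8 * (n:ℝ))) * Real.exp (1 / 2 * S w)) := by gcongr
        simp only [hG]
        linarith
    · have hT : TT (pw w) 0 v - mz μ v ≤ (n:ℝ) ^ a := by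
        have := not_lt.1 (show ¬ (mz μ v + (n:ℝ) ^ a < TT (pw w) 0 v) from hw)
        linarith
      have e1 : max (TT (pw w) 0 v - mz μ v) 0 ^ p ≤ ((n:ℝ) ^ a) ^ p :=
        Real.rpow_le_rpow (le_max_right _ _) (max_le hT (by positivity)) hp.le
      rw [← Real.rpow_mul hn0.le] at e1
      simp only [hG]
      linarith
  have hGi : Integrable G nu :=
    ((integrable_const _).add ((integrable_const _).indicator hAm)).add (hS3.const_mul _)
  have hint : Integrable (fun w => max (TT (pw w) 0 v - mz μ v) 0 ^ p) nu := by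
    refine hGi.mono' ((meas_pos v _).pow_const p).aestronglyMeasurable
      (Eventually.of_forall fun w => ?_)
    rw [Real.norm_eq_abs, abs_of_nonneg (by positivity)]
    exact hle w
  refine ⟨hint, (integral_mono hint hGi hle).trans ?_⟩
  have e1 : ∫ w, G w ∂nu = (n:ℝ) ^ (a * p) + nu.real A * (3 * (n:ℝ)) ^ p +
      C2 * Real.exp (-(9 / 8 * (n:ℝ))) * 2 ^ n := by
    simp only [hG]
    rw [integral_add, integral_add, integral_const_mul, hS4, integral_indicator_const _ hAm, ← hn]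
    · simp
    · exact integrable_const _
    · exact (integrable_const _).indicator hAm
    · exact (integrable_const _).add ((integrable_const _).indicator hAm)
    · exact hS3.const_mul _
  rw [e1]
  have e2 := h1 v hv
  have e3 : nu.real A * (3 * (n:ℝ)) ^ p ≤ 3 ^ p * C1 := by
    have e4 : (3 * (n:ℝ)) ^ p = 3 ^ p * (n:ℝ) ^ p := Real.mul_rpow (by norm_num) hn0.le
    have e5 : (n:ℝ) ^ (-p) * (n:ℝ) ^ p = 1 := by rw [← Real.rpow_add hn0]; simp
    calc nu.real A * (3 * (n:ℝ)) ^ p ≤ (C1 * (n:ℝ) ^ (-p)) * (3 * (n:ℝ)) ^ p := by gcongr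
      _ = 3 ^ p * C1 * ((n:ℝ) ^ (-p) * (n:ℝ) ^ p) := by rw [e4]; ring
      _ = _ := by rw [e5, mul_one]
  have e6 : C2 * Real.exp (-(9 / 8 * (n:ℝ))) * 2 ^ n ≤ C2 := by
    have e7 : Real.exp (-(9 / 8 * (n:ℝ))) * 2 ^ n = (Real.exp (-(9 / 8)) * 2) ^ n := by
      rw [mul_pow, ← Real.exp_nat_mul]; congr 2; ring
    have e8 : Real.exp (-(9 / 8)) * 2 ≤ 1 := by
      have e9 : (2:ℝ) ≤ Real.exp (9 / 8) := by linarith [Real.add_one_le_exp (9 / 8 : ℝ)]
      rw [Real.exp_neg, inv_mul_le_iff₀ (Real.exp_pos _)]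
      linarith
    have e10 : (Real.exp (-(9 / 8)) * 2) ^ n ≤ 1 := pow_le_one₀ (by positivity) e8
    rw [mul_assoc, e7]
    nlinarith
  have e11 : 1 ≤ (n:ℝ) ^ (a * p) := Real.one_le_rpow hn1 (by positivity)
  have e12 : 0 < 3 ^ p * C1 := by positivity
  nlinarith

/-- the first absolute moment -/
lemma abs_moment (h : Shape μ) {a : ℝ} (ha : 0 < a) (hH : HH μ a) :
    ∃ C : ℝ, 0 < C ∧ ∀ v : ℤ × ℤ, v ≠ 0 →
      ∫ w, |TT (pw w) 0 v - mz μ v| ∂nu ≤ C * (dd 0 v : ℝ) ^ a := by
  obtain ⟨C, hC, h1⟩ := pos_moment h ha hH one_pos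
  refine ⟨2 * C, by positivity, fun v hv => ?_⟩
  obtain ⟨i1, i2⟩ := h1 v hv
  simp only [Real.rpow_one, mul_one] at i1 i2
  have e1 : ∀ w, |TT (pw w) 0 v - mz μ v| = 2 * max (TT (pw w) 0 v - mz μ v) 0 -
      (TT (pw w) 0 v - mz μ v) := by
    intro w
    rcases le_total (TT (pw w) 0 v - mz μ v) 0 with hc | hc
    · rw [abs_of_nonpos hc, max_eq_right hc]; ring
    · rw [abs_of_nonneg hc, max_eq_left hc]; ring
  simp only [e1]
  have e3 : Integrable (fun w => TT (pw w) 0 v - mz μ v) nu :=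
    (integrable_TT 0 v).sub (integrable_const _)
  rw [integral_sub (i1.const_mul 2) e3, integral_const_mul,
    integral_sub (integrable_TT 0 v) (integrable_const _)]
  have e2 := mz_le_mean h v
  simp only [integral_const, probReal_univ, smul_eq_mul, one_mul]
  nlinarith

/-- many independent attempts -/
lemma attempts (h : Shape μ) {v : ℤ × ℤ} (hv : v ≠ 0) {K : ℕ} (hK : 1 ≤ K) {ρ s : ℝ}
    (hs : s ≤ ρ / 4)
    {g : ℝ} (hg : ∀ u, dd 0 u ≤ K * (200 * dd 0 v) → nu.real {w | mz μ u + s < TT (pw w) 0 u} ≤ g)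
    (hlow : nu.real {w | TT (pw w) 0 (((K * 200 : ℕ) : ℤ) • v) ≤
      mz μ (((K * 200 : ℕ) : ℤ) • v) - ρ / 2} ≤ 1 / 8)
    (hsmall : 2 * K * g ≤ 1 / 8) :
    nu.real {w | TT (pw w) 0 v < mz μ v - ρ} ≤ 1 / K + 2 * (1 / 2) ^ dd 0 v := by
  classical
  set n := dd 0 v with hn
  have hn1 : 1 ≤ n := dd_pos hv
  set R := 66 * n with hR
  let x : ℕ → ℤ × ℤ := fun i => (((i * 200 : ℕ) : ℤ)) • v
  let y : ℕ → ℤ × ℤ := fun i => (((i * 200 + 1 : ℕ) : ℤ)) • v
  have hxy : ∀ i, y i - x i = v := by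
    intro i
    simp only [x, y]
    push_cast
    rw [add_smul, one_smul]
    abel
  have hdd : ∀ i, dd (x i) (y i) = n := by
    intro i
    have e1 := dd_add 0 v (x i)
    rw [zero_add] at e1
    have e2 : y i = v + x i := by rw [← hxy i]; abel
    rw [e2, e1]
  let E : ℕ → Set (Ed → ℝ) := fun i => {w | TB (pw w) R (x i) (y i) < mz μ v - ρ}
  have hEm : ∀ i, MeasurableSet (E i) := fun i => measurableSet_lt (measurable_TB _ _ _) measurable_const
  set π : ℝ := nu.real {w | TT (pw w) 0 v < mz μ v - ρ} - 2 * (1 / 2) ^ n with hπ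
  have hE : ∀ i, π ≤ nu.real (E i) := by
    intro i
    have hsub : {w | TT (pw w) (x i) (y i) ∈ Set.Iio (mz μ v - ρ)} ⊆ E i ∪
        {w | TT (pw w) (x i) (y i) < TB (pw w) R (x i) (y i)} := by
      intro w hw
      by_contra hcon
      simp only [E, Set.mem_union, Set.mem_setOf_eq, not_or, not_lt, Set.mem_Iio] at hcon hw
      linarith [hcon.1, hcon.2]
    have e1 := (measureReal_mono hsub (measure_ne_top nu _)).trans (measureReal_union_le _ _)
    rw [nu_TT_sh _ _ measurableSet_Iio, hxy i] at e1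
    have e2 := local_le (hdd i).le
    have e3 : {w : Ed → ℝ | TT (pw w) 0 v ∈ Set.Iio (mz μ v - ρ)} = {w | TT (pw w) 0 v < mz μ v - ρ} := rfl
    rw [e3] at e1
    rw [hπ]
    linarith
  -- the probability that no attempt succeeds
  have hprod : nu.real {w | ∀ i ∈ range K, w ∉ E i} = ∏ i ∈ range K, (1 - nu.real (E i)) := by
    have e1 := integral_prod_disj (range K) (fun i => be R (x i))
      (fun i w => (E i)ᶜ.indicator (fun _ => (1:ℝ)) w)
      (fun i => measurable_const.indicator (hEm i).compl) ?_ ?_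
    · have e2 : ∀ i, ∫ w, (E i)ᶜ.indicator (fun _ => (1:ℝ)) w ∂nu = 1 - nu.real (E i) := by
        intro i
        rw [integral_indicator_const _ (hEm i).compl, probReal_compl_eq_one_sub (hEm i)]
        simp
      simp only [e2] at e1
      rw [← e1]
      have e3 : ∀ w, ∏ i ∈ range K, (E i)ᶜ.indicator (fun _ => (1:ℝ)) w =
          {w | ∀ i ∈ range K, w ∉ E i}.indicator (fun _ => (1:ℝ)) w := by
        intro w
        by_cases hw : ∀ i ∈ range K, w ∉ E i
        · rw [Set.indicator_of_mem (show w ∈ {w | ∀ i ∈ range K, w ∉ E i} from hw)]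
          exact Finset.prod_eq_one fun i hi => Set.indicator_of_mem (show w ∈ (E i)ᶜ from hw i hi) _
        · rw [Set.indicator_of_notMem (show w ∉ {w | ∀ i ∈ range K, w ∉ E i} from hw)]
          push Not at hw
          obtain ⟨i, hi, hwi⟩ := hw
          exact Finset.prod_eq_zero hi (Set.indicator_of_notMem (by simpa using hwi) _)
      simp only [e3]
      have hms : MeasurableSet {w : Ed → ℝ | ∀ i ∈ range K, w ∉ E i} := by
        have : {w : Ed → ℝ | ∀ i ∈ range K, w ∉ E i} = ⋂ i ∈ range K, (E i)ᶜ := by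
          ext w; simp
        rw [this]
        exact Finset.measurableSet_biInter _ fun i _ => (hEm i).compl
      rw [integral_indicator_const _ hms]
      simp
    · intro i w w' hw
      have : w ∈ (E i)ᶜ ↔ w' ∈ (E i)ᶜ := by
        simp only [E, Set.mem_compl_iff, Set.mem_setOf_eq, TB_dep hw]
      by_cases hw1 : w ∈ (E i)ᶜ
      · rw [Set.indicator_of_mem hw1, Set.indicator_of_mem (this.1 hw1)]
      · rw [Set.indicator_of_notMem hw1, Set.indicator_of_notMem (fun h' => hw1 (this.2 h'))]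
    · have key : ∀ i j, i < j → Disjoint (be R (x i)) (be R (x j)) := by
        intro i j hij
        refine be_disj ?_
        have e1 : dd (x i) (x j) = (j - i) * (200 * n) := by
          obtain ⟨k, rfl⟩ : ∃ k, j = i + k := ⟨j - i, by omega⟩
          have e2 := dd_add 0 ((((k * 200 : ℕ) : ℤ)) • v) (x i)
          rw [zero_add] at e2
          have e3 : x (i + k) = (((k * 200 : ℕ) : ℤ)) • v + x i := by
            simp only [x]
            rw [← add_smul]; congr 1; push_cast; ring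
          have e4 := dd_smul (k * 200) 0 v
          rw [smul_zero] at e4
          rw [e3, e2, e4, ← hn]
          have : i + k - i = k := by omega
          rw [this]; ring
        rw [e1, hR]
        have : 1 ≤ j - i := by omega
        calc 2 * (66 * n) < 1 * (200 * n) := by omega
          _ ≤ _ := Nat.mul_le_mul_right _ this
      intro i _ j _ hij
      rcases lt_or_gt_of_ne hij with h3 | h3
      · exact key i j h3
      · exact (key j i h3).symm
  -- success of an attempt makes the long passage time small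
  have hsucc : {w | ∀ i ∈ range K, w ∉ E i}ᶜ ⊆
      {w | TT (pw w) 0 (((K * 200 : ℕ) : ℤ) • v) ≤ mz μ (((K * 200 : ℕ) : ℤ) • v) - ρ / 2} ∪
      (⋃ i ∈ range K, ({w | TT (pw w) 0 (x i) ∈ Set.Ioi (mz μ (x i) + s)} ∪
        {w | TT (pw w) (y i) (x K) ∈ Set.Ioi (mz μ (x K - y i) + s)})) := by
    intro w hw
    by_contra hcon
    simp only [Set.mem_compl_iff, Set.mem_setOf_eq, not_forall, not_not, exists_prop] at hw
    obtain ⟨i, hi, hwi⟩ := hw
    simp only [Set.mem_union, Set.mem_iUnion, Set.mem_setOf_eq, not_or, not_exists, not_le,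
      exists_prop, not_and, Set.mem_Ioi, not_lt] at hcon
    obtain ⟨c1, c2⟩ := hcon
    have c3 := c2 i hi
    have d1 := TT_tri (pw_nonneg w) 0 (x i) (x K)
    have d2 := TT_tri (pw_nonneg w) (x i) (y i) (x K)
    have d3 : TT (pw w) (x i) (y i) ≤ TB (pw w) R (x i) (y i) :=
      TT_le_TB (pw_nonneg w) ((hdd i).le.trans (by rw [hR]; omega))
    have d4 : TB (pw w) R (x i) (y i) < mz μ v - ρ := hwi
    have hiK : i < K := Finset.mem_range.1 hi
    have m1 : mz μ (x i) = ((i * 200 : ℕ) : ℝ) * mz μ v := mz_smul h _ v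
    have m2 : mz μ (x K) = ((K * 200 : ℕ) : ℝ) * mz μ v := mz_smul h _ v
    have m3 : mz μ (x K - y i) = ((K * 200 - (i * 200 + 1) : ℕ) : ℝ) * mz μ v := by
      rw [← mz_smul h _ v]
      congr 1
      simp only [x, y]
      rw [← sub_smul]
      congr 1
      have : i * 200 + 1 ≤ K * 200 := by omega
      push_cast [Nat.cast_sub this]
      ring
    have m4 : ((K * 200 - (i * 200 + 1) : ℕ) : ℝ) = (K * 200 : ℕ) - (i * 200 + 1 : ℕ) := by
      rw [Nat.cast_sub (by omega)]
    rw [m4] at m3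
    have c1' : mz μ (x K) - ρ / 2 < TT (pw w) 0 (x K) := c1
    rw [m2] at c1'
    have c31 := c3.1
    have c32 := c3.2
    rw [m1] at c31
    rw [m3] at c32
    push_cast at c1' c31 c32
    nlinarith
  have hms : MeasurableSet {w : Ed → ℝ | ∀ i ∈ range K, w ∉ E i} := by
    have : {w : Ed → ℝ | ∀ i ∈ range K, w ∉ E i} = ⋂ i ∈ range K, (E i)ᶜ := by
      ext w; simp
    rw [this]
    exact Finset.measurableSet_biInter _ fun i _ => (hEm i).compl
  have hfail : nu.real {w | ∀ i ∈ range K, w ∉ E i}ᶜ ≤ 1 / 4 := by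
    refine (measureReal_mono hsucc (measure_ne_top nu _)).trans ((measureReal_union_le _ _).trans ?_)
    have e1 : nu.real (⋃ i ∈ range K, ({w | TT (pw w) 0 (x i) ∈ Set.Ioi (mz μ (x i) + s)} ∪
        {w | TT (pw w) (y i) (x K) ∈ Set.Ioi (mz μ (x K - y i) + s)})) ≤ 2 * K * g := by
      refine (measureReal_biUnion_finset_le _ _).trans ?_
      calc _ ≤ ∑ _i ∈ range K, (2 * g) := by
            refine Finset.sum_le_sum fun i hi => ?_
            have hiK : i < K := Finset.mem_range.1 hi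
            refine (measureReal_union_le _ _).trans ?_
            rw [nu_TT_sh (y i) (x K) measurableSet_Ioi]
            have f1 : dd 0 (x i) ≤ K * (200 * n) := by
              have := dd_smul (i * 200) 0 v
              rw [smul_zero, ← hn] at this
              simp only [x]
              rw [this]
              calc i * 200 * n = i * (200 * n) := by ring
                _ ≤ _ := Nat.mul_le_mul_right _ hiK.le
            have f2 : dd 0 (x K - y i) ≤ K * (200 * n) := by
              have e5 : x K - y i = ((K * 200 - (i * 200 + 1) : ℕ) : ℤ) • v := by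
                simp only [x, y]
                rw [← sub_smul]
                congr 1
                have : i * 200 + 1 ≤ K * 200 := by omega
                push_cast [Nat.cast_sub this]
                ring
              have := dd_smul (K * 200 - (i * 200 + 1)) 0 v
              rw [smul_zero, ← hn] at this
              rw [e5, this]
              calc (K * 200 - (i * 200 + 1)) * n ≤ (K * 200) * n := Nat.mul_le_mul_right _ (Nat.sub_le _ _)
                _ = _ := by ring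
            have g1 := hg _ f1
            have g2 := hg _ f2
            have g3 : {w : Ed → ℝ | TT (pw w) 0 (x i) ∈ Set.Ioi (mz μ (x i) + s)} =
              {w | mz μ (x i) + s < TT (pw w) 0 (x i)} := rfl
            have g4 : {w : Ed → ℝ | TT (pw w) 0 (x K - y i) ∈ Set.Ioi (mz μ (x K - y i) + s)} =
              {w | mz μ (x K - y i) + s < TT (pw w) 0 (x K - y i)} := rfl
            rw [g3, g4]
            linarith
        _ = _ := by rw [Finset.sum_const, Finset.card_range, nsmul_eq_mul]; ring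
    linarith
  rw [probReal_compl_eq_one_sub hms, hprod] at hfail
  have hKpos : (0:ℝ) < K := by exact_mod_cast hK
  by_cases hπ0 : π ≤ 0
  · have : (0:ℝ) ≤ 1 / K := by positivity
    rw [hπ] at hπ0
    linarith
  · push Not at hπ0
    have hle1 : ∀ i, 0 ≤ 1 - nu.real (E i) := fun i => by linarith [measureReal_le_one (μ := nu) (s := E i)]
    have e1 : ∏ i ∈ range K, (1 - nu.real (E i)) ≤ Real.exp (-(K * π)) := by
      calc _ ≤ ∏ _i ∈ range K, Real.exp (-π) := by
            refine Finset.prod_le_prod (fun i _ => hle1 i) fun i _ => ?_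
            have := Real.add_one_le_exp (-π)
            linarith [hE i]
        _ = _ := by
            rw [Finset.prod_const, Finset.card_range, ← Real.exp_nat_mul]; congr 1; ring
    have e2 : 3 / 4 ≤ Real.exp (-(K * π)) := by linarith
    have e3 : K * π ≤ 1 := by
      by_contra hcon
      push Not at hcon
      have e4 : Real.exp (-(K * π)) < Real.exp (-1) := Real.exp_lt_exp.2 (by linarith)
      have e5 : Real.exp (-1) ≤ 1 / 2 := by
        rw [Real.exp_neg, inv_le_comm₀ (Real.exp_pos _) (by norm_num)]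
        have := Real.add_one_le_exp (1:ℝ)
        linarith
      linarith
    have e6 : π ≤ 1 / K := by
      rw [le_div_iff₀ hKpos]; linarith
    rw [hπ] at e6
    linarith

/-- the lower tail -/
lemma lower_tail (h : Shape μ) {a : ℝ} (ha : 0 < a) (ha1 : a < 1) (hH : HH μ a) :
    ∃ C : ℝ, 0 < C ∧ ∀ v : ℤ × ℤ, v ≠ 0 → ∀ ρ : ℝ, 0 < ρ →
      nu.real {w | TT (pw w) 0 v < mz μ v - ρ} ≤ C * ((dd 0 v : ℝ) * ρ ^ (-(1 / a))) := by
  obtain ⟨C1, hC1, h1⟩ := abs_moment h ha hH
  obtain ⟨C2, hC2, h2⟩ := unif h ha (δ := 2 / a) (by positivity) (hH _ (by positivity))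
  obtain ⟨C3, hC3, h3⟩ := half_poly (1 / a) (by positivity)
  rw [min_eq_left ha1.le, show 2 / a * a = 2 by field_simp] at h2
  set c0 : ℝ := min (1 / 4) (1 / (16 * C1)) with hc0
  have hc0pos : 0 < c0 := lt_min (by norm_num) (by positivity)
  have hc1 : c0 ≤ 1 / 4 := min_le_left _ _
  have hc2 : c0 ≤ 1 / (16 * C1) := min_le_right _ _
  -- constants
  set D : ℝ := max (400 * c0 ^ (-(1 / a))) ((3 * (16 * C2 + 1)) ^ (1 / a)) with hD
  have hD0 : 0 < D := lt_max_of_lt_left (by positivity)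
  refine ⟨D + 2 * C3 * 3 ^ (1 / a), by positivity, fun v hv ρ hρ => ?_⟩
  set n := dd 0 v with hn
  have hn1' : 1 ≤ n := dd_pos hv
  have hn1 : (1:ℝ) ≤ n := by exact_mod_cast hn1'
  have hn0 : (0:ℝ) < n := by linarith
  have hρp : 0 < ρ ^ (-(1 / a)) := by positivity
  have hP1 : nu.real {w | TT (pw w) 0 v < mz μ v - ρ} ≤ 1 := measureReal_le_one
  by_cases hbig : 3 * (n:ℝ) < ρ
  · have : {w : Ed → ℝ | TT (pw w) 0 v < mz μ v - ρ} = ∅ := by
      ext w
      simp only [Set.mem_setOf_eq, Set.mem_empty_iff_false, iff_false, not_lt]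
      have e1 := mz_up h v
      have e2 := TT_nonneg (pw_nonneg w) 0 v
      rw [← hn] at e1
      linarith
    rw [this, measureReal_empty]
    positivity
  push Not at hbig
  have hlocal : 2 * (1 / 2 : ℝ) ^ n ≤ 2 * C3 * 3 ^ (1 / a) * ((n:ℝ) * ρ ^ (-(1 / a))) := by
    have e1 := h3 n
    have e2 : ((n:ℝ) + 1) ^ (-(1 / a)) ≤ (n:ℝ) ^ (-(1 / a)) :=
      Real.rpow_le_rpow_of_nonpos hn0 (by linarith) (by rw [neg_nonpos]; positivity)
    have e3 : (n:ℝ) ^ (-(1 / a)) = 3 ^ (1 / a) * (3 * (n:ℝ)) ^ (-(1 / a)) := by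
      rw [Real.mul_rpow (by norm_num) hn0.le, Real.rpow_neg (by norm_num : (0:ℝ) ≤ 3)]
      field_simp
    have e4 : (3 * (n:ℝ)) ^ (-(1 / a)) ≤ ρ ^ (-(1 / a)) :=
      Real.rpow_le_rpow_of_nonpos hρ hbig (by rw [neg_nonpos]; positivity)
    have e5 : ρ ^ (-(1 / a)) ≤ (n:ℝ) * ρ ^ (-(1 / a)) := by nlinarith
    calc 2 * (1 / 2 : ℝ) ^ n ≤ 2 * (C3 * ((n:ℝ) + 1) ^ (-(1 / a))) := by linarith
      _ ≤ 2 * (C3 * (3 ^ (1 / a) * (3 * (n:ℝ)) ^ (-(1 / a)))) := by rw [← e3]; gcongr
      _ ≤ 2 * (C3 * (3 ^ (1 / a) * ((n:ℝ) * ρ ^ (-(1 / a))))) := by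
          have := e4.trans e5
          gcongr
      _ = _ := by ring
  set L : ℝ := (c0 * ρ) ^ (1 / a) with hL
  have hL0 : 0 < L := by positivity
  set K : ℕ := ⌊L / (200 * n)⌋₊ with hK
  have hLρ : L = c0 ^ (1 / a) * ρ ^ (1 / a) := Real.mul_rpow hc0pos.le hρ.le
  have hinv : ρ ^ (-(1 / a)) = (ρ ^ (1 / a))⁻¹ := Real.rpow_neg hρ.le _
  have hc0inv : c0 ^ (-(1 / a)) = (c0 ^ (1 / a))⁻¹ := Real.rpow_neg hc0pos.le _
  have hLn : 400 * n / L ≤ D * ((n:ℝ) * ρ ^ (-(1 / a))) := by
    have e1 : 400 * n / L = 400 * c0 ^ (-(1 / a)) * ((n:ℝ) * ρ ^ (-(1 / a))) := by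
      rw [hLρ, hinv, hc0inv]; field_simp
    rw [e1]
    gcongr
    exact le_max_left _ _
  have hnn : 0 ≤ 2 * C3 * 3 ^ (1 / a) * ((n:ℝ) * ρ ^ (-(1 / a))) := by positivity
  rw [add_mul]
  by_cases hK0 : K = 0
  · have e1 : L / (200 * n) < 1 := by
      have := Nat.lt_floor_add_one (L / (200 * n))
      rw [← hK, hK0] at this
      simpa using this
    have e2 : 1 ≤ 400 * n / L := by
      rw [div_lt_one (by positivity)] at e1
      rw [le_div_iff₀ hL0]; linarith
    linarith
  have hK1 : 1 ≤ K := Nat.one_le_iff_ne_zero.2 hK0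
  have hKr : (1:ℝ) ≤ K := by exact_mod_cast hK1
  have hKL : (K:ℝ) * (200 * n) ≤ L := by
    have := Nat.floor_le (show 0 ≤ L / (200 * n) by positivity)
    rw [← hK, le_div_iff₀ (by positivity)] at this
    exact this
  have hKL2 : 1 / (K:ℝ) ≤ 400 * n / L := by
    have := Nat.lt_floor_add_one (L / (200 * n))
    rw [← hK, div_lt_iff₀ (by positivity)] at this
    rw [div_le_div_iff₀ (by positivity) hL0]
    nlinarith
  set l : ℕ := K * (200 * n) with hl
  have hlr : (l:ℝ) = K * (200 * n) := by rw [hl]; push_cast; ring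
  have hl1 : 1 ≤ l := by
    rw [hl]; exact Nat.one_le_iff_ne_zero.2 (by positivity)
  have hlr1 : (1:ℝ) ≤ l := by exact_mod_cast hl1
  have hla : (l:ℝ) ^ a ≤ c0 * ρ := by
    calc (l:ℝ) ^ a ≤ L ^ a := Real.rpow_le_rpow (by positivity) (by rw [hlr]; exact hKL) ha.le
      _ = c0 * ρ := by
        rw [hL, ← Real.rpow_mul (by positivity), one_div_mul_cancel ha.ne', Real.rpow_one]
  by_cases hsmall : (l:ℝ) < 16 * C2
  · -- bounded scales
    have e1 : (n:ℝ) ≤ l := by rw [hlr]; nlinarith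
    have e2 : ρ ≤ 3 * (16 * C2 + 1) := by linarith
    have e3 : 1 ≤ (3 * (16 * C2 + 1)) ^ (1 / a) * ρ ^ (-(1 / a)) := by
      rw [hinv, ← div_eq_mul_inv, one_le_div (by positivity)]
      exact Real.rpow_le_rpow hρ.le e2 (by positivity)
    have e4 : (3 * (16 * C2 + 1)) ^ (1 / a) ≤ D := le_max_right _ _
    have e5 : (3 * (16 * C2 + 1)) ^ (1 / a) * ρ ^ (-(1 / a)) ≤ D * ((n:ℝ) * ρ ^ (-(1 / a))) := by
      have : ρ ^ (-(1 / a)) ≤ (n:ℝ) * ρ ^ (-(1 / a)) := by nlinarith
      gcongr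
    linarith
  push Not at hsmall
  have hz0 : (((K * 200 : ℕ) : ℤ) • v) ≠ 0 := by
    intro h0
    have e1 := dd_smul (K * 200) 0 v
    rw [smul_zero, h0, dd_self, ← hn] at e1
    have : 0 < K * 200 * n := by positivity
    omega
  have hddz : dd 0 (((K * 200 : ℕ) : ℤ) • v) = l := by
    have e1 := dd_smul (K * 200) 0 v
    rw [smul_zero, ← hn] at e1
    rw [e1, hl]; ring
  have hatt := attempts h hv hK1 (ρ := ρ) (s := (l:ℝ) ^ a) (by nlinarith)
    (g := C2 * (l:ℝ) ^ (-(2:ℝ))) (fun u hu => h2 l hl1 u hu) ?_ ?_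
  · linarith
  · have e1 := h1 _ hz0
    rw [hddz] at e1
    have e2 := mul_meas_ge_le_integral_of_nonneg (μ := nu)
      (f := fun w => |TT (pw w) 0 (((K * 200 : ℕ) : ℤ) • v) - mz μ (((K * 200 : ℕ) : ℤ) • v)|)
      (Eventually.of_forall fun w => abs_nonneg _)
      (((integrable_TT 0 _).sub (integrable_const _)).abs) (ρ / 2)
    have e3 : nu.real {w | TT (pw w) 0 (((K * 200 : ℕ) : ℤ) • v) ≤
        mz μ (((K * 200 : ℕ) : ℤ) • v) - ρ / 2} ≤ nu.real {w | ρ / 2 ≤
        |TT (pw w) 0 (((K * 200 : ℕ) : ℤ) • v) - mz μ (((K * 200 : ℕ) : ℤ) • v)|} := by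
      refine measureReal_mono ?_ (measure_ne_top _ _)
      intro w hw
      simp only [Set.mem_setOf_eq] at hw ⊢
      rw [le_abs]
      right
      linarith
    have e4 : C1 * (l:ℝ) ^ a ≤ ρ / 16 := by
      calc C1 * (l:ℝ) ^ a ≤ C1 * (c0 * ρ) := by gcongr
        _ ≤ C1 * (1 / (16 * C1) * ρ) := by gcongr
        _ = ρ / 16 := by field_simp
    have e5 : ρ / 2 * nu.real {w | TT (pw w) 0 (((K * 200 : ℕ) : ℤ) • v) ≤
        mz μ (((K * 200 : ℕ) : ℤ) • v) - ρ / 2} ≤ ρ / 16 :=
      (mul_le_mul_of_nonneg_left e3 (by positivity)).trans (e2.trans (e1.trans e4))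
    by_contra hcon
    push Not at hcon
    nlinarith
  · have e1 : (K:ℝ) ≤ l := by rw [hlr]; nlinarith
    have e2 : (l:ℝ) ^ (-(2:ℝ)) = 1 / ((l:ℝ) * l) := by
      rw [Real.rpow_neg (by positivity), Real.rpow_two]; field_simp
    rw [e2]
    have e3 : 2 * (K:ℝ) * (C2 * (1 / ((l:ℝ) * l))) ≤ 2 * (l:ℝ) * (C2 * (1 / ((l:ℝ) * l))) := by gcongr
    refine e3.trans ?_
    have e4 : 2 * (l:ℝ) * (C2 * (1 / ((l:ℝ) * l))) = 2 * C2 / l := by field_simp
    rw [e4, div_le_iff₀ (by positivity)]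
    linarith

end Q70.Fp
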