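import Pool.Agent.Q70.FpG

/-!
# First passage percolation: moments of the passage time and the equivalences on the product space
-/

set_option autoImplicit false

open MeasureTheory ProbabilityTheory Finset Filter
open scoped Topology

namespace Q70.Fp

variable {μ : ℝ × ℝ → ℝ}

/-- moments of the negative part -/
lemma neg_moment (h : Shape μ) {a : ℝ} (ha : 0 < a) (ha1 : a < 1) (hH : HH μ a) {p : ℝ} (hp : 0 < p)
    (hpa : p * a < 1) :
    ∃ C : ℝ, 0 < C ∧ ∀ v : ℤ × ℤ, v ≠ 0 →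
      Integrable (fun w => max (mz μ v - TT (pw w) 0 v) 0 ^ p) nu ∧
      ∫ w, max (mz μ v - TT (pw w) 0 v) 0 ^ p ∂nu ≤ C * (dd 0 v : ℝ) ^ (a * p) := by
  obtain ⟨C1, hC1, h1⟩ := lower_tail h ha ha1 hH
  set r : ℝ := 2 ^ (p - 1 / a) with hr
  have hexp : p - 1 / a < 0 := by
    rw [sub_neg, lt_div_iff₀ ha]; exact hpa
  have hr0 : 0 < r := by positivity
  have hr1 : r < 1 := Real.rpow_lt_one_of_one_lt_of_neg one_lt_two hexp
  refine ⟨1 + 2 ^ p * C1 * (1 - r)⁻¹, by
    have : 0 < (1 - r)⁻¹ := inv_pos.2 (by linarith)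
    positivity, fun v hv => ?_⟩
  set n := dd 0 v with hn
  have hn1 : (1:ℝ) ≤ n := by exact_mod_cast dd_pos hv
  have hn0 : (0:ℝ) < n := by linarith
  set s : ℝ := (n:ℝ) ^ a with hs
  have hs1 : 1 ≤ s := Real.one_le_rpow hn1 ha.le
  have hs0 : 0 < s := by linarith
  let X : (Ed → ℝ) → ℝ := fun w => max (mz μ v - TT (pw w) 0 v) 0
  have hXm : Measurable X := (measurable_const.sub (measurable_TT 0 v)).max measurable_const
  have hX0 : ∀ w, 0 ≤ X w := fun w => le_max_right _ _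
  have hX3 : ∀ w, X w ≤ 3 * n := by
    intro w
    refine max_le ?_ (by positivity)
    have e1 := mz_up h v
    have e2 := TT_nonneg (pw_nonneg w) 0 v
    rw [← hn] at e1
    linarith
  let A : ℕ → Set (Ed → ℝ) := fun k => {w | TT (pw w) 0 v < mz μ v - 2 ^ k * s}
  have hAm : ∀ k, MeasurableSet (A k) := fun k => measurableSet_lt (measurable_TT 0 v) measurable_const
  set M : ℕ := 3 * n with hM
  set G : (Ed → ℝ) → ℝ := fun w => s ^ p + ∑ k ∈ range (M + 1),
    (A k).indicator (fun _ => (2 ^ (k + 1) * s) ^ p) w with hG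
  have hle : ∀ w, X w ^ p ≤ G w := by
    intro w
    have t1 : 0 ≤ s ^ p := by positivity
    have t2 : ∀ k, 0 ≤ (A k).indicator (fun _ => (2 ^ (k + 1) * s) ^ p) w :=
      fun k => Set.indicator_nonneg (fun _ _ => by positivity) w
    by_cases hc : X w ≤ s
    · have : X w ^ p ≤ s ^ p := Real.rpow_le_rpow (hX0 w) hc hp.le
      have t3 := Finset.sum_nonneg fun k (_ : k ∈ range (M + 1)) => t2 k
      simp only [hG]
      linarith
    · push Not at hc
      have hex : ∃ k : ℕ, X w ≤ 2 ^ (k + 1) * s := by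
        refine ⟨M, (hX3 w).trans ?_⟩
        have e1 : (3 * (n:ℝ)) ≤ 2 ^ (M + 1) := by
          have : M < 2 ^ (M + 1) := (Nat.lt_pow_self one_lt_two).trans (Nat.pow_lt_pow_right one_lt_two (Nat.lt_succ_self M))
          have e2 : (M:ℝ) ≤ 2 ^ (M + 1) := by exact_mod_cast this.le
          rw [hM] at e2 ⊢
          push_cast at e2
          exact e2
        nlinarith [show (0:ℝ) < 2 ^ (M + 1) by positivity]
      classical
      set k := Nat.find hex with hk
      have hk1 : X w ≤ 2 ^ (k + 1) * s := Nat.find_spec hex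
      have hk2 : 2 ^ k * s < X w := by
        rcases Nat.eq_zero_or_pos k with h0 | h0
        · rw [h0, pow_zero, one_mul]; exact hc
        · have := Nat.find_min hex (show k - 1 < Nat.find hex by omega)
          rw [not_le, show k - 1 + 1 = k by omega] at this
          exact this
      have hkM : k ≤ M := by
        by_contra hcon
        push Not at hcon
        have e1 : (2:ℝ) ^ M ≤ 2 ^ k := pow_le_pow_right₀ (by norm_num) hcon.le
        have e2 : (M:ℝ) < 2 ^ M := by exact_mod_cast Nat.lt_pow_self one_lt_two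
        have e3 := hX3 w
        have e4 : (M:ℝ) = 3 * n := by rw [hM]; push_cast; ring
        nlinarith [show (0:ℝ) < 2 ^ k by positivity]
      have hwA : w ∈ A k := by
        have e1 : X w = mz μ v - TT (pw w) 0 v := by
          refine max_eq_left ?_
          by_contra hcon
          push Not at hcon
          have : X w = 0 := max_eq_right hcon.le
          linarith
        show TT (pw w) 0 v < mz μ v - 2 ^ k * s
        linarith
      have e1 : X w ^ p ≤ (2 ^ (k + 1) * s) ^ p := Real.rpow_le_rpow (hX0 w) hk1 hp.le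
      have e2 : (A k).indicator (fun _ => (2 ^ (k + 1) * s) ^ p) w ≤ ∑ k ∈ range (M + 1),
          (A k).indicator (fun _ => (2 ^ (k + 1) * s) ^ p) w :=
        Finset.single_le_sum (f := fun k => (A k).indicator (fun _ => (2 ^ (k + 1) * s) ^ p) w)
          (fun k _ => t2 k) (Finset.mem_range.2 (by omega))
      rw [Set.indicator_of_mem hwA] at e2
      simp only [hG]
      linarith
  have hGi : Integrable G nu :=
    (integrable_const _).add (integrable_finset_sum _ fun k _ => (integrable_const _).indicator (hAm k))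
  have hint : Integrable (fun w => X w ^ p) nu := by
    refine hGi.mono' (hXm.pow_const p).aestronglyMeasurable (Eventually.of_forall fun w => ?_)
    rw [Real.norm_eq_abs, abs_of_nonneg (Real.rpow_nonneg (hX0 w) p)]
    exact hle w
  refine ⟨hint, (integral_mono hint hGi hle).trans ?_⟩
  have e1 : ∫ w, G w ∂nu = s ^ p + ∑ k ∈ range (M + 1), nu.real (A k) * (2 ^ (k + 1) * s) ^ p := by
    simp only [hG]
    rw [integral_add (integrable_const _)
      (integrable_finset_sum _ fun k _ => (integrable_const _).indicator (hAm k)),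
      integral_finset_sum _ fun k _ => (integrable_const _).indicator (hAm k)]
    simp only [integral_indicator_const _ (hAm _), integral_const, probReal_univ, smul_eq_mul, one_mul]
  have esp : s ^ p = (n:ℝ) ^ (a * p) := by rw [hs, ← Real.rpow_mul hn0.le]
  rw [e1]
  have e2 : ∀ k ∈ range (M + 1), nu.real (A k) * (2 ^ (k + 1) * s) ^ p ≤ (2 ^ p * C1 * s ^ p) * r ^ k := by
    intro k _
    have f1 := h1 v hv (2 ^ k * s) (by positivity)
    have f2 : (2 ^ (k + 1) * s) ^ p = 2 ^ p * ((2 ^ k : ℝ) ^ p * s ^ p) := by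
      rw [pow_succ, mul_comm ((2:ℝ) ^ k) 2, mul_assoc, Real.mul_rpow (by norm_num) (by positivity),
        Real.mul_rpow (by positivity) hs0.le]
    have f3 : (2 ^ k * s) ^ (-(1 / a)) = (2 ^ k : ℝ) ^ (-(1 / a)) * s ^ (-(1 / a)) :=
      Real.mul_rpow (by positivity) hs0.le
    have f4 : (n:ℝ) * s ^ (-(1 / a)) = 1 := by
      rw [hs, ← Real.rpow_mul hn0.le, show a * -(1 / a) = -1 by field_simp, Real.rpow_neg_one,
        mul_inv_cancel₀ hn0.ne']
    have f5 : (2 ^ k : ℝ) ^ p * (2 ^ k : ℝ) ^ (-(1 / a)) = r ^ k := by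
      rw [← Real.rpow_add (by positivity), hr, ← Real.rpow_natCast (2:ℝ) k, ← Real.rpow_mul (by norm_num),
        ← Real.rpow_natCast ((2:ℝ) ^ (p - 1 / a)) k, ← Real.rpow_mul (by norm_num)]
      congr 1; ring
    calc nu.real (A k) * (2 ^ (k + 1) * s) ^ p
        ≤ (C1 * ((n:ℝ) * (2 ^ k * s) ^ (-(1 / a)))) * (2 ^ (k + 1) * s) ^ p := by gcongr
      _ = 2 ^ p * C1 * s ^ p * ((n:ℝ) * s ^ (-(1 / a))) * ((2 ^ k : ℝ) ^ p * (2 ^ k : ℝ) ^ (-(1 / a))) := by
          rw [f2, f3]; ring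
      _ = _ := by rw [f4, f5, mul_one]
  have e3 : ∑ k ∈ range (M + 1), r ^ k ≤ (1 - r)⁻¹ := by
    have := geom_sum_eq (ne_of_lt hr1) (M + 1)
    rw [this, ← neg_div_neg_eq, neg_sub, neg_sub, div_eq_mul_inv]
    have e4 : 0 < (1 - r)⁻¹ := inv_pos.2 (by linarith)
    have e5 : 0 ≤ r ^ (M + 1) := by positivity
    nlinarith
  calc _ ≤ s ^ p + ∑ k ∈ range (M + 1), (2 ^ p * C1 * s ^ p) * r ^ k :=
        add_le_add le_rfl (Finset.sum_le_sum e2)
    _ = s ^ p + (2 ^ p * C1 * s ^ p) * ∑ k ∈ range (M + 1), r ^ k := by rw [Finset.mul_sum]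
    _ ≤ s ^ p + (2 ^ p * C1 * s ^ p) * (1 - r)⁻¹ := by gcongr
    _ = _ := by rw [esp]; ring

/-- two-sided moments -/
lemma two_moment (h : Shape μ) {a : ℝ} (ha : 0 < a) (ha1 : a < 1) (hH : HH μ a) {p : ℝ} (hp : 0 < p)
    (hpa : p * a < 1) :
    ∃ C : ℝ, 0 < C ∧ ∀ v : ℤ × ℤ, v ≠ 0 →
      Integrable (fun w => |TT (pw w) 0 v - mz μ v| ^ p) nu ∧
      ∫ w, |TT (pw w) 0 v - mz μ v| ^ p ∂nu ≤ C * (dd 0 v : ℝ) ^ (a * p) := by
  obtain ⟨C1, hC1, h1⟩ := pos_moment h ha hH hp
  obtain ⟨C2, hC2, h2⟩ := neg_moment h ha ha1 hH hp hpa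
  refine ⟨C1 + C2, by positivity, fun v hv => ?_⟩
  obtain ⟨i1, j1⟩ := h1 v hv
  obtain ⟨i2, j2⟩ := h2 v hv
  have e1 : ∀ w, |TT (pw w) 0 v - mz μ v| ^ p = max (TT (pw w) 0 v - mz μ v) 0 ^ p +
      max (mz μ v - TT (pw w) 0 v) 0 ^ p := by
    intro w
    rcases le_total (TT (pw w) 0 v - mz μ v) 0 with hc | hc
    · rw [abs_of_nonpos hc, max_eq_right hc, max_eq_left (by linarith), Real.zero_rpow hp.ne', zero_add,
        neg_sub]
    · rw [abs_of_nonneg hc, max_eq_left hc, max_eq_right (by linarith : mz μ v - TT (pw w) 0 v ≤ 0),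
        Real.zero_rpow hp.ne', add_zero]
  simp only [e1]
  refine ⟨i1.add i2, ?_⟩
  rw [integral_add i1 i2, add_mul]
  linarith

/-- Markov: one moment gives polynomial tails -/
lemma tl_of_moment {b p : ℝ} (hp : 0 < p)
    (hM : ∀ ζ : ℝ, 0 < ζ → ∃ C : ℝ, ∀ v : ℤ × ℤ, v ≠ 0 →
      Integrable (fun w => max (TT (pw w) 0 v - mz μ v) 0 ^ p) nu ∧
      ∫ w, max (TT (pw w) 0 v - mz μ v) 0 ^ p ∂nu ≤ C * (dd 0 v : ℝ) ^ (b * p + ζ)) :
    ∀ ζ : ℝ, 0 < ζ → ∃ δ : ℝ, 0 < δ ∧ Tl μ (b + ζ) δ := by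
  intro ζ hζ
  obtain ⟨C, hC⟩ := hM (ζ * p / 2) (by positivity)
  refine ⟨ζ * p / 2, by positivity, max C 1, lt_max_of_lt_right one_pos, fun v hv => ?_⟩
  obtain ⟨i1, j1⟩ := hC v hv
  set n := dd 0 v with hn
  have hn1 : (1:ℝ) ≤ n := by exact_mod_cast dd_pos hv
  have hn0 : (0:ℝ) < n := by linarith
  set s : ℝ := (n:ℝ) ^ (b + ζ) with hs
  have hs0 : 0 < s := by positivity
  have e1 := mul_meas_ge_le_integral_of_nonneg (μ := nu)
    (f := fun w => max (TT (pw w) 0 v - mz μ v) 0 ^ p)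
    (Eventually.of_forall fun w => by positivity) i1 (s ^ p)
  have e2 : nu.real {w | mz μ v + s < TT (pw w) 0 v} ≤
      nu.real {w | s ^ p ≤ max (TT (pw w) 0 v - mz μ v) 0 ^ p} := by
    refine measureReal_mono ?_ (measure_ne_top _ _)
    intro w hw
    simp only [Set.mem_setOf_eq] at hw ⊢
    exact Real.rpow_le_rpow hs0.le (le_max_of_le_left (by linarith)) hp.le
  have e3 : s ^ p * nu.real {w | mz μ v + s < TT (pw w) 0 v} ≤ max C 1 * (n:ℝ) ^ (b * p + ζ * p / 2) := by
    refine (mul_le_mul_of_nonneg_left e2 (by positivity)).trans (e1.trans (j1.trans ?_))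
    gcongr
    exact le_max_left _ _
  have e4 : s ^ p = (n:ℝ) ^ (b * p + ζ * p) := by
    rw [hs, ← Real.rpow_mul hn0.le]; congr 1; ring
  have e5 : (n:ℝ) ^ (b * p + ζ * p / 2) = s ^ p * (n:ℝ) ^ (-(ζ * p / 2)) := by
    rw [e4, ← Real.rpow_add hn0]; congr 1; ring
  rw [e5] at e3
  have hsp : 0 < s ^ p := by positivity
  refine le_of_mul_le_mul_left ?_ hsp
  linarith

lemma memLp_TT (v : ℤ × ℤ) : MemLp (fun w => TT (pw w) 0 v) 2 nu := by
  obtain ⟨S, h1, h2, -, h3, -⟩ := exists_major 0 v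
  rw [memLp_two_iff_integrable_sq (measurable_TT 0 v).aestronglyMeasurable]
  refine (h3.const_mul 8).mono' ((measurable_TT 0 v).pow_const 2).aestronglyMeasurable
    (Eventually.of_forall fun w => ?_)
  rw [Real.norm_eq_abs, abs_of_nonneg (sq_nonneg _)]
  have e1 := TT_nonneg (pw_nonneg w) 0 v
  have e2 := h2 w
  have e3 := Real.quadratic_le_exp_of_nonneg (show 0 ≤ 1 / 2 * S w by linarith)
  nlinarith

end Q70.Fp
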