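import Pool.Agent.Q70.FpI

/-!
# First passage percolation: first and last exits from a finite set
-/

set_option autoImplicit false

open MeasureTheory ProbabilityTheory Finset Filter
open scoped Topology

namespace Q70.Fp

variable {μ : ℝ × ℝ → ℝ}

lemma mz_add (h : Shape μ) (x y : ℤ × ℤ) : mz μ (x + y) ≤ mz μ x + mz μ y := by
  refine le_of_forall_pos_le_add fun ε hε => ?_
  have hε3 : 0 < ε / 3 := by positivity
  have hA := prob_lim h (x + y) hε3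
  have hB := prob_lim h x hε3
  have hC : Tendsto (fun n : ℕ => nu.real {w | ε / 3 ≤
      |TT (pw w) ((n : ℤ) • x) ((n : ℤ) • (x + y)) / (n : ℝ) - mz μ y|}) atTop (𝓝 0) := by
    refine (prob_lim h y hε3).congr fun n => ?_
    have hS : MeasurableSet {t : ℝ | ε / 3 ≤ |t / (n:ℝ) - mz μ y|} :=
      measurableSet_le measurable_const (by fun_prop)
    have h1 := nu_TT_sh ((n : ℤ) • x) ((n : ℤ) • (x + y)) hS
    rw [show (n : ℤ) • (x + y) - (n : ℤ) • x = (n : ℤ) • y by rw [smul_add]; abel] at h1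
    exact h1.symm
  have hlim := (hA.add hB).add hC
  rw [add_zero, add_zero] at hlim
  obtain ⟨n, hn1, hn2⟩ := ((hlim.eventually (gt_mem_nhds one_pos)).and (eventually_ge_atTop 1)).exists
  obtain ⟨w, h1, h2, h3⟩ := exists_out _ _ _ hn1
  simp only [Set.mem_setOf_eq, not_le] at h1 h2 h3
  rw [abs_lt] at h1 h2 h3
  have hn0 : (0:ℝ) < n := by exact_mod_cast hn2
  have h4 := TT_tri (pw_nonneg w) 0 ((n : ℤ) • x) ((n : ℤ) • (x + y))
  have h5 : TT (pw w) 0 ((n : ℤ) • (x + y)) / n ≤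
      TT (pw w) 0 ((n : ℤ) • x) / n + TT (pw w) ((n : ℤ) • x) ((n : ℤ) • (x + y)) / n := by
    rw [← add_div]
    gcongr
  linarith [h1.1, h1.2, h2.1, h2.2, h3.1, h3.2]

/-- independence of functions of complementary sets of edges -/
lemma integral_mul_set {f g : (Ed → ℝ) → ℝ} (S : Set Ed)
    (hf : Measurable f) (hg : Measurable g)
    (hfS : ∀ w w', (∀ e ∈ S, w e = w' e) → f w = f w')
    (hgS : ∀ w w', (∀ e ∈ Sᶜ, w e = w' e) → g w = g w') :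
    ∫ w, f w * g w ∂nu = (∫ w, f w ∂nu) * ∫ w, g w ∂nu := by
  classical
  have hind : iIndepFun (fun (e : Ed) (w : Ed → ℝ) => w e) nu :=
    iIndepFun_infinitePi (P := fun _ => expMeasure 1) (X := fun _ x => x) (fun _ => measurable_id)
  have h1 := indep_iSup_of_disjoint (fun e => (measurable_pi_apply e).comap_le) hind.iIndep
    (disjoint_compl_right : Disjoint S Sᶜ)
  have key : ∀ (U : Set Ed) (k : (Ed → ℝ) → ℝ), Measurable k →
      (∀ w w', (∀ e ∈ U, w e = w' e) → k w = k w') →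
      MeasurableSpace.comap k inferInstance ≤
        ⨆ e ∈ U, MeasurableSpace.comap (fun w : Ed → ℝ => w e) inferInstance := by
    intro U k hk hkU
    have h2 : k = k ∘ (fun (w : Ed → ℝ) (e : Ed) => if e ∈ U then w e else 0) := by
      funext w
      refine hkU _ _ fun e he => ?_
      simp [he]
    rw [h2, ← MeasurableSpace.comap_comp]
    refine (MeasurableSpace.comap_mono hk.comap_le).trans ?_
    rw [← measurable_iff_comap_le]
    refine @measurable_pi_lambda _ _ _ (⨆ e ∈ U,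
      MeasurableSpace.comap (fun w : Ed → ℝ => w e) inferInstance) _ _ fun e => ?_
    by_cases he : e ∈ U
    · simp only [he, if_true]
      rw [measurable_iff_comap_le]
      exact le_iSup₂ (f := fun e (_ : e ∈ U) =>
        MeasurableSpace.comap (fun w : Ed → ℝ => w e) inferInstance) e he
    · simp only [he, if_false]
      exact measurable_const
  have h3 : IndepFun f g nu := by
    rw [IndepFun_iff_Indep]
    exact indep_of_indep_of_le_left (indep_of_indep_of_le_right h1 (key _ g hg hgS)) (key _ f hf hfS)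
  exact h3.integral_mul_eq_mul_integral hf.aestronglyMeasurable hg.aestronglyMeasurable

/-- edges with an end in `D` -/
def Tch (D : Set (ℤ × ℤ)) : Set Ed := {e | ∃ a ∈ D, a ∈ e}

/-- passage time until the first exit -/
noncomputable def TA (w : Ed → ℝ) (D : Set (ℤ × ℤ)) : ℝ :=
  sInf {s : ℝ | ∃ n p, (p 0 = 0 ∧ (∀ i < n, Adj (p i) (p (i + 1))) ∧ (∀ i < n, p i ∈ D) ∧ p n ∉ D) ∧
    s = Wt w p n}

/-- passage time after the last exit -/
noncomputable def TO (w : Ed → ℝ) (D : Set (ℤ × ℤ)) (v : ℤ × ℤ) : ℝ :=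
  sInf {s : ℝ | ∃ n p, ((∃ a ∈ D, Adj a (p 0)) ∧ p n = v ∧ (∀ i < n, Adj (p i) (p (i + 1))) ∧
    ∀ i ≤ n, p i ∉ D) ∧ s = Wt w p n}

lemma measurable_TA (D : Set (ℤ × ℤ)) : Measurable (fun w : Ed → ℝ => TA (pw w) D) := by
  refine measurable_inf (fun n p => p 0 = 0 ∧ (∀ i < n, Adj (p i) (p (i + 1))) ∧ (∀ i < n, p i ∈ D) ∧
    p n ∉ D) ?_
  rintro n p p' h ⟨h1, h2, h3, h4⟩
  refine ⟨by rw [← h 0 (Nat.zero_le _)]; exact h1, fun i hi => ?_, fun i hi => ?_, ?_⟩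
  · rw [← h i (by omega), ← h (i + 1) (by omega)]; exact h2 i hi
  · rw [← h i (by omega)]; exact h3 i hi
  · rw [← h n le_rfl]; exact h4

lemma measurable_TO (D : Set (ℤ × ℤ)) (v : ℤ × ℤ) : Measurable (fun w : Ed → ℝ => TO (pw w) D v) := by
  refine measurable_inf (fun n p => (∃ a ∈ D, Adj a (p 0)) ∧ p n = v ∧
    (∀ i < n, Adj (p i) (p (i + 1))) ∧ ∀ i ≤ n, p i ∉ D) ?_
  rintro n p p' h ⟨⟨a, ha, h1⟩, h2, h3, h4⟩
  refine ⟨⟨a, ha, by rw [← h 0 (Nat.zero_le _)]; exact h1⟩, by rw [← h n le_rfl]; exact h2,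
    fun i hi => ?_, fun i hi => ?_⟩
  · rw [← h i (by omega), ← h (i + 1) (by omega)]; exact h3 i hi
  · rw [← h i hi]; exact h4 i hi

lemma TA_dep {D : Set (ℤ × ℤ)} {w w' : Ed → ℝ} (h : ∀ e ∈ Tch D, w e = w' e) :
    TA (pw w) D = TA (pw w') D := by
  unfold TA
  congr 1
  ext s
  have key : ∀ (n : ℕ) (p : ℕ → ℤ × ℤ), (∀ i < n, p i ∈ D) → Wt (pw w) p n = Wt (pw w') p n := by
    intro n p hp
    refine Finset.sum_congr rfl fun i hi => ?_
    rw [Finset.mem_range] at hi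
    unfold pw
    rw [h _ ⟨p i, hp i hi, Sym2.mem_mk_left _ _⟩]
  constructor
  · rintro ⟨n, p, h1, rfl⟩
    exact ⟨n, p, h1, key n p h1.2.2.1⟩
  · rintro ⟨n, p, h1, rfl⟩
    exact ⟨n, p, h1, (key n p h1.2.2.1).symm⟩

lemma TO_dep {D : Set (ℤ × ℤ)} {v : ℤ × ℤ} {w w' : Ed → ℝ} (h : ∀ e ∈ (Tch D)ᶜ, w e = w' e) :
    TO (pw w) D v = TO (pw w') D v := by
  unfold TO
  congr 1
  ext s
  have key : ∀ (n : ℕ) (p : ℕ → ℤ × ℤ), (∀ i ≤ n, p i ∉ D) → Wt (pw w) p n = Wt (pw w') p n := by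
    intro n p hp
    refine Finset.sum_congr rfl fun i hi => ?_
    rw [Finset.mem_range] at hi
    unfold pw
    rw [h]
    rintro ⟨a, ha, hae⟩
    rw [Sym2.mem_iff] at hae
    rcases hae with rfl | rfl
    · exact hp i (by omega) ha
    · exact hp (i + 1) (by omega) ha
  constructor
  · rintro ⟨n, p, h1, rfl⟩
    exact ⟨n, p, h1, key n p h1.2.2.2⟩
  · rintro ⟨n, p, h1, rfl⟩
    exact ⟨n, p, h1, (key n p h1.2.2.2).symm⟩

/-- the pieces of a walk before the first and after the last exit -/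
lemma split_walk {w : Ed → ℝ} (hw : ∀ e, 0 ≤ w e) {D : Set (ℤ × ℤ)} {v : ℤ × ℤ} (h0 : (0 : ℤ × ℤ) ∈ D)
    (hv : v ∉ D) {n : ℕ} {p : ℕ → ℤ × ℤ} (hp : IsW 0 v n p) :
    ∃ i : ℕ, ∃ j : ℕ, ∃ q : ℕ → ℤ × ℤ,
      (p 0 = 0 ∧ (∀ k < i, Adj (p k) (p (k + 1))) ∧ (∀ k < i, p k ∈ D) ∧ p i ∉ D) ∧
      ((∃ a ∈ D, Adj a (q 0)) ∧ q j = v ∧ (∀ k < j, Adj (q k) (q (k + 1))) ∧ ∀ k ≤ j, q k ∉ D) ∧
      i ≤ n ∧ Wt w p i + Wt w q j ≤ Wt w p n := by
  classical
  obtain ⟨hp0, hpn, hpa⟩ := hp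
  have hex : ∃ i, p i ∉ D := ⟨n, by rw [hpn]; exact hv⟩
  set i := Nat.find hex with hi
  have hi1 : p i ∉ D := Nat.find_spec hex
  have hi2 : ∀ k < i, p k ∈ D := fun k hk => by
    have := Nat.find_min hex hk
    push Not at this
    exact this
  have hin : i ≤ n := Nat.find_min' hex (by rw [hpn]; exact hv)
  have hipos : 0 < i := by
    rcases Nat.eq_zero_or_pos i with h | h
    · exfalso
      apply hi1
      rw [h, hp0]
      exact h0
    · exact h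
  set l := Nat.findGreatest (fun k => p k ∈ D) n with hl
  have hl1 : p l ∈ D := Nat.findGreatest_spec (P := fun k => p k ∈ D) (Nat.zero_le n)
    (by rw [hp0]; exact h0)
  have hln : l ≤ n := Nat.findGreatest_le n
  have hln' : l < n := by
    rcases hln.lt_or_eq with h | h
    · exact h
    · exfalso
      apply hv
      rw [← hpn, ← h]
      exact hl1
  have hl2 : ∀ k, l < k → k ≤ n → p k ∉ D := fun k hk hkn =>
    Nat.findGreatest_is_greatest (P := fun k => p k ∈ D) hk hkn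
  have hil : i ≤ l + 1 := by
    by_contra hcon
    push Not at hcon
    exact hl2 (i - 1) (by omega) (by omega) (hi2 (i - 1) (by omega))
  refine ⟨i, n - (l + 1), fun k => p (l + 1 + k), ⟨hp0, fun k hk => hpa k (by omega), hi2, hi1⟩,
    ⟨⟨p l, hl1, ?_⟩, ?_, fun k hk => ?_, fun k hk => hl2 _ (by omega) (by omega)⟩, hin, ?_⟩
  · simpa using hpa l (by omega)
  · show p (l + 1 + (n - (l + 1))) = v
    rw [← hpn]; congr 1; omega
  · exact hpa (l + 1 + k) (by omega)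
  · have e1 : Wt w p n = Wt w p (l + 1) + Wt w (fun k => p (l + 1 + k)) (n - (l + 1)) := by
      unfold Wt
      rw [show n = (l + 1) + (n - (l + 1)) by omega, Finset.sum_range_add]
      simp only [Nat.add_sub_cancel_left]
      congr 1
    rw [e1]
    have := Wt_mono hw p hil
    linarith

lemma TA_TO {w : Ed → ℝ} (hw : ∀ e, 0 ≤ w e) {D : Set (ℤ × ℤ)} {v : ℤ × ℤ} (h0 : (0 : ℤ × ℤ) ∈ D)
    (hv : v ∉ D) : TA w D + TO w D v ≤ TT w 0 v := by
  refine le_csInf (nonempty w 0 v) ?_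
  rintro s ⟨n, p, hp, rfl⟩
  obtain ⟨i, j, q, h1, h2, -, h3⟩ := split_walk hw h0 hv hp
  refine le_trans (add_le_add ?_ ?_) h3
  · exact csInf_le ⟨0, by rintro s ⟨n, p, -, rfl⟩; exact Wt_nonneg hw p n⟩ ⟨i, p, h1, rfl⟩
  · exact csInf_le ⟨0, by rintro s ⟨n, p, -, rfl⟩; exact Wt_nonneg hw p n⟩ ⟨j, q, h2, rfl⟩

/-- `Y` contains the outer boundary of `D` -/
def Bd (D : Set (ℤ × ℤ)) (Y : Finset (ℤ × ℤ)) : Prop := ∀ a ∈ D, ∀ y, y ∉ D → Adj a y → y ∈ Y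

lemma TA_low {w : Ed → ℝ} (hw : ∀ e, 0 ≤ w e) {D : Set (ℤ × ℤ)} {Y : Finset (ℤ × ℤ)} {v : ℤ × ℤ}
    (h0 : (0 : ℤ × ℤ) ∈ D) (hv : v ∉ D) (hY : Bd D Y) : ∃ y ∈ Y, TT w 0 y ≤ TA w D := by
  have hmem : ∀ (n : ℕ) (p : ℕ → ℤ × ℤ), (p 0 = 0 ∧ (∀ i < n, Adj (p i) (p (i + 1))) ∧
      (∀ i < n, p i ∈ D) ∧ p n ∉ D) → p n ∈ Y := by
    rintro n p ⟨h1, h2, h3, h4⟩
    have hn : 0 < n := by
      rcases Nat.eq_zero_or_pos n with h | h
      · exfalso; apply h4; rw [h, h1]; exact h0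
      · exact h
    refine hY (p (n - 1)) (h3 _ (by omega)) _ h4 ?_
    have := h2 (n - 1) (by omega)
    rwa [show n - 1 + 1 = n by omega] at this
  obtain ⟨p, hp, -⟩ := exists_geo v (dd 0 v) 0 rfl
  obtain ⟨i, j, q, h1, h2, -, h3⟩ := split_walk hw h0 hv hp
  have hYne : Y.Nonempty := ⟨_, hmem i p h1⟩
  obtain ⟨y, hy, hmin⟩ := Finset.exists_min_image Y (fun y => TT w 0 y) hYne
  refine ⟨y, hy, le_csInf ⟨_, i, p, h1, rfl⟩ ?_⟩
  rintro s ⟨n, p, h, rfl⟩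
  exact (hmin _ (hmem n p h)).trans (TT_le hw ⟨h.1, rfl, h.2.1⟩)

lemma TO_low {w : Ed → ℝ} (hw : ∀ e, 0 ≤ w e) {D : Set (ℤ × ℤ)} {Y : Finset (ℤ × ℤ)} {v : ℤ × ℤ}
    (h0 : (0 : ℤ × ℤ) ∈ D) (hv : v ∉ D) (hY : Bd D Y) : ∃ y ∈ Y, TT w y v ≤ TO w D v := by
  have hmem : ∀ (n : ℕ) (p : ℕ → ℤ × ℤ), ((∃ a ∈ D, Adj a (p 0)) ∧ p n = v ∧
      (∀ i < n, Adj (p i) (p (i + 1))) ∧ ∀ i ≤ n, p i ∉ D) → p 0 ∈ Y := by
    rintro n p ⟨⟨a, ha, h1⟩, h2, h3, h4⟩
    exact hY a ha _ (h4 0 (Nat.zero_le _)) h1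
  obtain ⟨p, hp, -⟩ := exists_geo v (dd 0 v) 0 rfl
  obtain ⟨i, j, q, h1, h2, -, h3⟩ := split_walk hw h0 hv hp
  have hYne : Y.Nonempty := ⟨_, hmem j q h2⟩
  obtain ⟨y, hy, hmin⟩ := Finset.exists_min_image Y (fun y => TT w y v) hYne
  refine ⟨y, hy, le_csInf ⟨_, j, q, h2, rfl⟩ ?_⟩
  rintro s ⟨n, p, h, rfl⟩
  exact (hmin _ (hmem n p h)).trans (TT_le hw ⟨rfl, h.2.1, h.2.2.1⟩)

/-- Laplace transform of the passage time -/
noncomputable def ph (θ : ℝ) (z : ℤ × ℤ) : ℝ := ∫ w, Real.exp (-(θ * TT (pw w) 0 z)) ∂nu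

lemma int_ph {θ : ℝ} (hθ : 0 ≤ θ) {f : (Ed → ℝ) → ℝ} (hf : Measurable f) (hf0 : ∀ w, 0 ≤ f w) :
    Integrable (fun w => Real.exp (-(θ * f w))) nu := by
  refine (integrable_const (1:ℝ)).mono' ((hf.const_mul θ).neg.exp).aestronglyMeasurable
    (Eventually.of_forall fun w => ?_)
  rw [Real.norm_eq_abs, Real.abs_exp, Real.exp_le_one_iff]
  have := mul_nonneg hθ (hf0 w)
  linarith

lemma ph_sh (θ : ℝ) (x y : ℤ × ℤ) :
    ∫ w, Real.exp (-(θ * TT (pw w) x y)) ∂nu = ph θ (y - x) := by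
  have hm : Measurable (sh x) := measurable_pi_iff.2 fun e => measurable_pi_apply _
  have hm2 : Measurable (fun w : Ed → ℝ => Real.exp (-(θ * TT (pw w) 0 (y - x)))) :=
    ((measurable_TT _ _).const_mul θ).neg.exp
  unfold ph
  conv_rhs => rw [← map_sh x]
  rw [integral_map hm.aemeasurable hm2.aestronglyMeasurable]
  refine integral_congr_ae (Eventually.of_forall fun w => ?_)
  simp only [TT_sh]
  simp

lemma ph_nonneg (θ : ℝ) (z : ℤ × ℤ) : 0 ≤ ph θ z := integral_nonneg fun w => (Real.exp_pos _).le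

lemma ph_le_one {θ : ℝ} (hθ : 0 ≤ θ) (z : ℤ × ℤ) : ph θ z ≤ 1 := by
  have : ph θ z ≤ ∫ _w, (1:ℝ) ∂nu := by
    refine integral_mono (int_ph hθ (measurable_TT 0 z) fun w => TT_nonneg (pw_nonneg w) _ _)
      (integrable_const _) fun w => ?_
    simp only
    rw [Real.exp_le_one_iff]
    have := mul_nonneg hθ (TT_nonneg (pw_nonneg w) 0 z)
    linarith
  simpa using this

lemma TA_nonneg {w : Ed → ℝ} (hw : ∀ e, 0 ≤ w e) (D : Set (ℤ × ℤ)) : 0 ≤ TA w D :=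
  Real.sInf_nonneg (by rintro s ⟨n, p, -, rfl⟩; exact Wt_nonneg hw p n)

lemma TO_nonneg {w : Ed → ℝ} (hw : ∀ e, 0 ≤ w e) (D : Set (ℤ × ℤ)) (v : ℤ × ℤ) : 0 ≤ TO w D v :=
  Real.sInf_nonneg (by rintro s ⟨n, p, -, rfl⟩; exact Wt_nonneg hw p n)

lemma int_TA {θ : ℝ} (hθ : 0 ≤ θ) {D : Set (ℤ × ℤ)} {Y : Finset (ℤ × ℤ)} {v : ℤ × ℤ}
    (h0 : (0 : ℤ × ℤ) ∈ D) (hv : v ∉ D) (hY : Bd D Y) :
    ∫ w, Real.exp (-(θ * TA (pw w) D)) ∂nu ≤ ∑ y ∈ Y, ph θ y := by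
  have hi : ∀ y, Integrable (fun w => Real.exp (-(θ * TT (pw w) 0 y))) nu := fun y =>
    int_ph hθ (measurable_TT 0 y) fun w => TT_nonneg (pw_nonneg w) _ _
  unfold ph
  rw [← integral_finset_sum _ fun y _ => hi y]
  refine integral_mono (int_ph hθ (measurable_TA D) fun w => TA_nonneg (pw_nonneg w) _)
    (integrable_finset_sum _ fun y _ => hi y) fun w => ?_
  obtain ⟨y, hy, h1⟩ := TA_low (pw_nonneg w) h0 hv hY
  calc Real.exp (-(θ * TA (pw w) D)) ≤ Real.exp (-(θ * TT (pw w) 0 y)) := by gcongr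
    _ ≤ _ := Finset.single_le_sum (f := fun y => Real.exp (-(θ * TT (pw w) 0 y)))
      (fun y _ => (Real.exp_pos _).le) hy

lemma int_TO {θ : ℝ} (hθ : 0 ≤ θ) {D : Set (ℤ × ℤ)} {Y : Finset (ℤ × ℤ)} {v : ℤ × ℤ}
    (h0 : (0 : ℤ × ℤ) ∈ D) (hv : v ∉ D) (hY : Bd D Y) :
    ∫ w, Real.exp (-(θ * TO (pw w) D v)) ∂nu ≤ ∑ y ∈ Y, ph θ (v - y) := by
  have hi : ∀ y, Integrable (fun w => Real.exp (-(θ * TT (pw w) y v))) nu := fun y =>
    int_ph hθ (measurable_TT y v) fun w => TT_nonneg (pw_nonneg w) _ _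
  simp_rw [← ph_sh]
  rw [← integral_finset_sum _ fun y _ => hi y]
  refine integral_mono (int_ph hθ (measurable_TO D v) fun w => TO_nonneg (pw_nonneg w) _ _)
    (integrable_finset_sum _ fun y _ => hi y) fun w => ?_
  obtain ⟨y, hy, h1⟩ := TO_low (pw_nonneg w) h0 hv hY
  calc Real.exp (-(θ * TO (pw w) D v)) ≤ Real.exp (-(θ * TT (pw w) y v)) := by gcongr
    _ ≤ _ := Finset.single_le_sum (f := fun y => Real.exp (-(θ * TT (pw w) y v)))
      (fun y _ => (Real.exp_pos _).le) hy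

/-- first exit -/
lemma ph_exit {θ : ℝ} (hθ : 0 ≤ θ) {D : Set (ℤ × ℤ)} {Y : Finset (ℤ × ℤ)} {v : ℤ × ℤ}
    (h0 : (0 : ℤ × ℤ) ∈ D) (hv : v ∉ D) (hY : Bd D Y) : ph θ v ≤ ∑ y ∈ Y, ph θ y := by
  refine le_trans ?_ (int_TA hθ h0 hv hY)
  refine integral_mono (int_ph hθ (measurable_TT 0 v) fun w => TT_nonneg (pw_nonneg w) _ _)
    (int_ph hθ (measurable_TA D) fun w => TA_nonneg (pw_nonneg w) _) fun w => ?_
  simp only
  have h1 := TA_TO (pw_nonneg w) h0 hv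
  have h2 := TO_nonneg (pw_nonneg w) D v
  gcongr
  linarith

/-- first and last exit -/
lemma ph_step {θ : ℝ} (hθ : 0 ≤ θ) {D : Set (ℤ × ℤ)} {Y : Finset (ℤ × ℤ)} {v : ℤ × ℤ}
    (h0 : (0 : ℤ × ℤ) ∈ D) (hv : v ∉ D) (hY : Bd D Y) :
    ph θ v ≤ (∑ y ∈ Y, ph θ y) * ∑ y ∈ Y, ph θ (v - y) := by
  have hmA : Measurable (fun w => Real.exp (-(θ * TA (pw w) D))) :=
    ((measurable_TA D).const_mul θ).neg.exp
  have hmO : Measurable (fun w => Real.exp (-(θ * TO (pw w) D v))) :=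
    ((measurable_TO D v).const_mul θ).neg.exp
  have h1 := integral_mul_set (Tch D) hmA hmO
    (fun w w' h => by rw [TA_dep h]) (fun w w' h => by rw [TO_dep h])
  have h2 : ph θ v ≤ ∫ w, Real.exp (-(θ * TA (pw w) D)) * Real.exp (-(θ * TO (pw w) D v)) ∂nu := by
    have hint : Integrable (fun w => Real.exp (-(θ * TA (pw w) D)) *
        Real.exp (-(θ * TO (pw w) D v))) nu := by
      have := int_ph hθ ((measurable_TA D).add (measurable_TO D v))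
        (fun w => add_nonneg (TA_nonneg (pw_nonneg w) _) (TO_nonneg (pw_nonneg w) _ _))
      refine this.congr (Eventually.of_forall fun w => ?_)
      simp only [Pi.add_apply]
      rw [← Real.exp_add]
      congr 1
      ring
    refine integral_mono (int_ph hθ (measurable_TT 0 v) fun w => TT_nonneg (pw_nonneg w) _ _)
      hint fun w => ?_
    simp only
    rw [← Real.exp_add, Real.exp_le_exp]
    have := mul_le_mul_of_nonneg_left (TA_TO (pw_nonneg w) h0 hv) hθ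
    linarith
  refine h2.trans ?_
  rw [h1]
  exact mul_le_mul (int_TA hθ h0 hv hY) (int_TO hθ h0 hv hY)
    (integral_nonneg fun w => (Real.exp_pos _).le) (Finset.sum_nonneg fun y _ => ph_nonneg θ y)

end Q70.Fp
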