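import Pool.Agent.Q70.FpJ

/-!
# First passage percolation: Laplace transforms at large scales
-/

set_option autoImplicit false

open MeasureTheory ProbabilityTheory Finset Filter
open scoped Topology

namespace Q70.Fp

variable {μ : ℝ × ℝ → ℝ}

open Classical in
/-- the sites with `u ≤ μ ≤ u + 3` -/
noncomputable def shell (μ : ℝ × ℝ → ℝ) (u : ℝ) : Finset (ℤ × ℤ) :=
  (ball ⌈22 * (u + 3)⌉₊ 0).filter (fun y => u ≤ mz μ y ∧ mz μ y ≤ u + 3)

lemma mem_shell (h : Shape μ) {u : ℝ} {y : ℤ × ℤ} : y ∈ shell μ u ↔ u ≤ mz μ y ∧ mz μ y ≤ u + 3 := by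
  classical
  unfold shell
  rw [Finset.mem_filter, mem_ball]
  constructor
  · exact fun h => h.2
  · intro h1
    refine ⟨?_, h1⟩
    have h2 := mz_low h y
    have h3 : (dd 0 y : ℝ) ≤ 22 * (u + 3) := by linarith [h1.2]
    exact_mod_cast h3.trans (Nat.le_ceil _)

lemma shell_bd (h : Shape μ) (u : ℝ) : Bd {z | mz μ z < u} (shell μ u) := by
  intro a ha y hy hay
  rw [mem_shell h]
  simp only [Set.mem_setOf_eq, not_lt] at ha hy
  refine ⟨hy, ?_⟩
  have h1 := mz_lip h a y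
  rw [adj_iff] at hay
  rw [hay] at h1
  push_cast at h1
  linarith

lemma shell_card {u m : ℝ} (hm : 1 ≤ m) (hu : u ≤ m + 3) :
    ((shell μ u).card : ℝ) ≤ 10 ^ 5 * m ^ 2 := by
  classical
  have h1 : (shell μ u).card ≤ (2 * ⌈22 * (u + 3)⌉₊ + 1) ^ 2 :=
    (Finset.card_filter_le _ _).trans (card_ball _)
  have h2 : (⌈22 * (u + 3)⌉₊ : ℝ) ≤ 155 * m := by
    by_cases h0 : 22 * (u + 3) ≤ 0
    · rw [Nat.ceil_eq_zero.2 h0]
      push_cast
      linarith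
    · have := Nat.ceil_lt_add_one (show 0 ≤ 22 * (u + 3) by linarith)
      linarith
  have h3 : ((shell μ u).card : ℝ) ≤ (2 * (⌈22 * (u + 3)⌉₊ : ℝ) + 1) ^ 2 := by exact_mod_cast h1
  refine h3.trans ?_
  have h4 : 2 * (⌈22 * (u + 3)⌉₊ : ℝ) + 1 ≤ 311 * m := by linarith
  calc (2 * (⌈22 * (u + 3)⌉₊ : ℝ) + 1) ^ 2 ≤ (311 * m) ^ 2 := by gcongr
    _ ≤ _ := by nlinarith [sq_nonneg m]

/-- sites at distance at least `u` for small `u` -/
lemma ph_base (h : Shape μ) {θ m C : ℝ} (hθ : 0 ≤ θ) (hm : 1 ≤ m) (hC : 1 ≤ C)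
    (H : ∀ y, mz μ y ≤ m + 6 → ph θ y ≤ C * Real.exp (-(θ * mz μ y))) {u : ℝ} (hu : u ≤ m + 3)
    {z : ℤ × ℤ} (hz : u ≤ mz μ z) : ph θ z ≤ (10 ^ 5 * m ^ 2) * C * Real.exp (-(θ * u)) := by
  have hN : (1:ℝ) ≤ 10 ^ 5 * m ^ 2 := by nlinarith
  by_cases hu0 : u ≤ 0
  · have h1 : 1 ≤ Real.exp (-(θ * u)) := by
      rw [← Real.exp_zero]
      refine Real.exp_le_exp.2 ?_
      have := mul_nonneg hθ (neg_nonneg.2 hu0)
      linarith
    calc ph θ z ≤ 1 := ph_le_one hθ z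
      _ = 1 * 1 * 1 := by norm_num
      _ ≤ _ := by gcongr
  · push Not at hu0
    have h0 : (0 : ℤ × ℤ) ∈ {z : ℤ × ℤ | mz μ z < u} := by
      show mz μ 0 < u
      rw [mz_zero h]; exact hu0
    have hv : z ∉ {z : ℤ × ℤ | mz μ z < u} := by
      simp only [Set.mem_setOf_eq, not_lt]; exact hz
    calc ph θ z ≤ ∑ y ∈ shell μ u, ph θ y := ph_exit hθ h0 hv (shell_bd h u)
      _ ≤ ∑ _y ∈ shell μ u, C * Real.exp (-(θ * u)) := by
          refine Finset.sum_le_sum fun y hy => ?_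
          rw [mem_shell h] at hy
          refine (H y (by linarith [hy.2])).trans ?_
          have : θ * u ≤ θ * mz μ y := mul_le_mul_of_nonneg_left hy.1 hθ
          gcongr
      _ = (shell μ u).card * (C * Real.exp (-(θ * u))) := by rw [Finset.sum_const, nsmul_eq_mul]
      _ ≤ (10 ^ 5 * m ^ 2) * (C * Real.exp (-(θ * u))) := by
          have := shell_card (μ := μ) hm hu
          gcongr
      _ = _ := by ring

/-- the recursion over the scales -/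
lemma ph_rec (h : Shape μ) {θ m C : ℝ} (hθ : 0 ≤ θ) (hm : 1 ≤ m) (hC : 1 ≤ C)
    (H : ∀ y, mz μ y ≤ m + 6 → ph θ y ≤ C * Real.exp (-(θ * mz μ y))) (k : ℕ) :
    ∀ (u : ℝ) (z : ℤ × ℤ), u ≤ ((k:ℝ) + 1) * (m + 3) → u ≤ mz μ z →
      ph θ z ≤ ((10 ^ 5 * m ^ 2) ^ 2 * C) ^ (k + 1) * Real.exp (-(θ * u) + 3 * θ * k) := by
  have hN : (1:ℝ) ≤ 10 ^ 5 * m ^ 2 := by nlinarith
  have hN0 : (0:ℝ) ≤ 10 ^ 5 * m ^ 2 := by linarith
  have hG : (1:ℝ) ≤ (10 ^ 5 * m ^ 2) ^ 2 * C := by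
    calc (1:ℝ) = 1 ^ 2 * 1 := by norm_num
      _ ≤ _ := by gcongr
  induction k with
  | zero =>
    intro u z hu hz
    refine (ph_base h hθ hm hC H (by simpa using hu) hz).trans ?_
    simp only [zero_add, pow_one, Nat.cast_zero, mul_zero, add_zero]
    have : (10 ^ 5 * m ^ 2) ≤ (10 ^ 5 * m ^ 2) ^ 2 := by nlinarith
    gcongr
  | succ k ih =>
    intro u z hu hz
    by_cases hcase : u ≤ ((k:ℝ) + 1) * (m + 3)
    · refine (ih u z hcase hz).trans ?_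
      have h1 : ((10 ^ 5 * m ^ 2) ^ 2 * C) ^ (k + 1) ≤ ((10 ^ 5 * m ^ 2) ^ 2 * C) ^ (k + 1 + 1) :=
        pow_le_pow_right₀ hG (by omega)
      have h2 : (k:ℝ) ≤ ((k + 1 : ℕ) : ℝ) := by push_cast; linarith
      gcongr
    · push Not at hcase
      have hk0 : (0:ℝ) ≤ k := Nat.cast_nonneg k
      have hum : m + 3 < u := by nlinarith
      have h0 : (0 : ℤ × ℤ) ∈ {z : ℤ × ℤ | mz μ z < m} := by
        show mz μ 0 < m
        rw [mz_zero h]; linarith
      have hv : z ∉ {z : ℤ × ℤ | mz μ z < m} := by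
        simp only [Set.mem_setOf_eq, not_lt]; linarith
      have e1 : ∑ y ∈ shell μ m, ph θ y ≤ (10 ^ 5 * m ^ 2) * (C * Real.exp (-(θ * m))) := by
        calc ∑ y ∈ shell μ m, ph θ y ≤ ∑ _y ∈ shell μ m, C * Real.exp (-(θ * m)) := by
              refine Finset.sum_le_sum fun y hy => ?_
              rw [mem_shell h] at hy
              refine (H y (by linarith [hy.2])).trans ?_
              have : θ * m ≤ θ * mz μ y := mul_le_mul_of_nonneg_left hy.1 hθ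
              gcongr
          _ = (shell μ m).card * (C * Real.exp (-(θ * m))) := by rw [Finset.sum_const, nsmul_eq_mul]
          _ ≤ _ := by
              have := shell_card (μ := μ) hm (show m ≤ m + 3 by linarith)
              gcongr
      have e2 : ∑ y ∈ shell μ m, ph θ (z - y) ≤ (10 ^ 5 * m ^ 2) *
          (((10 ^ 5 * m ^ 2) ^ 2 * C) ^ (k + 1) * Real.exp (-(θ * (u - (m + 3))) + 3 * θ * k)) := by
        calc ∑ y ∈ shell μ m, ph θ (z - y) ≤ ∑ _y ∈ shell μ m,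
              (((10 ^ 5 * m ^ 2) ^ 2 * C) ^ (k + 1) * Real.exp (-(θ * (u - (m + 3))) + 3 * θ * k)) := by
              refine Finset.sum_le_sum fun y hy => ?_
              rw [mem_shell h] at hy
              refine ih _ _ ?_ ?_
              · push_cast at hu
                linarith
              · have := mz_add h (z - y) y
                rw [sub_add_cancel] at this
                linarith [hy.2]
          _ = (shell μ m).card * (((10 ^ 5 * m ^ 2) ^ 2 * C) ^ (k + 1) *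
                Real.exp (-(θ * (u - (m + 3))) + 3 * θ * k)) := by rw [Finset.sum_const, nsmul_eq_mul]
          _ ≤ _ := by
              have := shell_card (μ := μ) hm (show m ≤ m + 3 by linarith)
              gcongr
      calc ph θ z ≤ (∑ y ∈ shell μ m, ph θ y) * ∑ y ∈ shell μ m, ph θ (z - y) :=
            ph_step hθ h0 hv (shell_bd h m)
        _ ≤ ((10 ^ 5 * m ^ 2) * (C * Real.exp (-(θ * m)))) * ((10 ^ 5 * m ^ 2) *
          (((10 ^ 5 * m ^ 2) ^ 2 * C) ^ (k + 1) * Real.exp (-(θ * (u - (m + 3))) + 3 * θ * k))) :=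
            mul_le_mul e1 e2 (Finset.sum_nonneg fun y _ => ph_nonneg θ _) (by positivity)
        _ = ((10 ^ 5 * m ^ 2) ^ 2 * C) ^ (k + 1 + 1) *
            (Real.exp (-(θ * m)) * Real.exp (-(θ * (u - (m + 3))) + 3 * θ * k)) := by ring
        _ = _ := by
            rw [← Real.exp_add]
            congr 2
            push_cast
            ring

/-- the bound for all sites -/
lemma ph_all (h : Shape μ) {θ m C : ℝ} (hθ : 0 ≤ θ) (hθ1 : θ ≤ 1) (hm : 1 ≤ m) (hC : 1 ≤ C)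
    (H : ∀ y, mz μ y ≤ m + 6 → ph θ y ≤ C * Real.exp (-(θ * mz μ y))) (z : ℤ × ℤ) :
    ph θ z ≤ Real.exp (-(θ * mz μ z) +
      (3 + Real.log ((10 ^ 5 * m ^ 2) ^ 2 * C)) * (3 * (dd 0 z : ℝ) / m + 1)) := by
  have hN : (1:ℝ) ≤ 10 ^ 5 * m ^ 2 := by nlinarith
  have hG : (1:ℝ) ≤ (10 ^ 5 * m ^ 2) ^ 2 * C := by
    calc (1:ℝ) = 1 ^ 2 * 1 := by norm_num
      _ ≤ _ := by gcongr
  set G : ℝ := (10 ^ 5 * m ^ 2) ^ 2 * C with hG'
  set k : ℕ := ⌊mz μ z / (m + 3)⌋₊ with hk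
  have hz0 := mz_nonneg h z
  have hm3 : 0 < m + 3 := by linarith
  have h1 : mz μ z ≤ ((k:ℝ) + 1) * (m + 3) := by
    have := Nat.lt_floor_add_one (mz μ z / (m + 3))
    rw [div_lt_iff₀ hm3] at this
    exact this.le
  have h2 : (k:ℝ) ≤ 3 * (dd 0 z : ℝ) / m := by
    have e1 := Nat.floor_le (show 0 ≤ mz μ z / (m + 3) by positivity)
    refine e1.trans ?_
    have := mz_up h z
    have hm0 : 0 < m := by linarith
    calc mz μ z / (m + 3) ≤ mz μ z / m := by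
          gcongr
          linarith
      _ ≤ _ := by gcongr
  refine (ph_rec h hθ hm hC H k _ z h1 le_rfl).trans ?_
  have hG0 : 0 < G := by linarith
  have e3 : G ^ (k + 1) = Real.exp (((k:ℝ) + 1) * Real.log G) := by
    rw [show ((k:ℝ) + 1) * Real.log G = ((k + 1 : ℕ) : ℝ) * Real.log G by push_cast; ring,
      Real.exp_nat_mul, Real.exp_log hG0]
  rw [e3, ← Real.exp_add, Real.exp_le_exp]
  have hlog : 0 ≤ Real.log G := Real.log_nonneg hG
  have e4 : 3 * θ * k ≤ 3 * (3 * (dd 0 z : ℝ) / m + 1) := by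
    have hk0 : (0:ℝ) ≤ k := Nat.cast_nonneg k
    nlinarith
  have e5 : ((k:ℝ) + 1) * Real.log G ≤ (3 * (dd 0 z : ℝ) / m + 1) * Real.log G := by gcongr
  nlinarith

/-- the passage times have bounded exponential moments below, at the scale `|v| ^ β` -/
def EE (μ : ℝ × ℝ → ℝ) (β : ℝ) : Prop := ∃ C : ℝ, 1 ≤ C ∧ ∀ (v : ℤ × ℤ) (θ : ℝ), 0 ≤ θ →
  θ ≤ ((dd 0 v : ℝ) + 1) ^ (-β) → ph θ v ≤ C * Real.exp (-(θ * mz μ v))

lemma EE_mono {β β' : ℝ} (hb : β ≤ β') (hE : EE μ β) : EE μ β' := by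
  obtain ⟨C, hC, h1⟩ := hE
  refine ⟨C, hC, fun v θ h0 h2 => h1 v θ h0 (h2.trans ?_)⟩
  exact Real.rpow_le_rpow_of_exponent_le (by linarith [Nat.cast_nonneg (α := ℝ) (dd 0 v)])
    (by linarith)

lemma EE_one (h : Shape μ) : EE μ 1 := by
  refine ⟨Real.exp 3, by
    rw [← Real.exp_zero]
    exact Real.exp_le_exp.2 (by norm_num), fun v θ h0 h1 => ?_⟩
  rw [← Real.exp_add]
  refine (ph_le_one h0 v).trans ?_
  rw [← Real.exp_zero]
  refine Real.exp_le_exp.2 ?_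
  rw [Real.rpow_neg_one, ← one_div, le_div_iff₀ (by positivity)] at h1
  have := mz_up h v
  have hd : (0:ℝ) ≤ dd 0 v := Nat.cast_nonneg _
  nlinarith

lemma all_scales (h : Shape μ) {β : ℝ} (hβ : 0 ≤ β) (hE : EE μ β) {ε : ℝ} (hε : 0 < ε) :
    ∃ K : ℝ, 0 < K ∧ ∀ m θ : ℝ, 1 ≤ m → 0 ≤ θ → θ ≤ (155 * m) ^ (-β) → ∀ z,
      ph θ z ≤ Real.exp (-(θ * mz μ z) + K * m ^ ε * ((dd 0 z : ℝ) / m + 1)) := by
  obtain ⟨C, hC, hE⟩ := hE
  set A : ℝ := 10 ^ 10 * C with hA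
  have hA1 : 1 ≤ A := by rw [hA]; linarith
  refine ⟨3 * (3 + A ^ (ε / 4) / (ε / 4)), by positivity, fun m θ hm h0 h1 z => ?_⟩
  have hm0 : 0 < m := by linarith
  have hθ1 : θ ≤ 1 := by
    refine h1.trans (Real.rpow_le_one_of_one_le_of_nonpos (by linarith) (by linarith))
  have H : ∀ y, mz μ y ≤ m + 6 → ph θ y ≤ C * Real.exp (-(θ * mz μ y)) := by
    intro y hy
    refine hE y θ h0 (h1.trans ?_)
    have h2 := mz_low h y
    have h3 : (dd 0 y : ℝ) + 1 ≤ 155 * m := by linarith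
    exact Real.rpow_le_rpow_of_nonpos (by positivity) h3 (by linarith)
  refine (ph_all h h0 hθ1 hm hC H z).trans (Real.exp_le_exp.2 ?_)
  have e1 : (10 ^ 5 * m ^ 2) ^ 2 * C = A * m ^ 4 := by rw [hA]; ring
  rw [e1]
  have e2 : Real.log (A * m ^ 4) ≤ A ^ (ε / 4) / (ε / 4) * m ^ ε := by
    refine (Real.log_le_rpow_div (show 0 ≤ A * m ^ 4 by positivity) (show 0 < ε / 4 by positivity)).trans
      (le_of_eq ?_)
    rw [Real.mul_rpow (by positivity) (by positivity), ← Real.rpow_natCast m 4, ← Real.rpow_mul hm0.le]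
    rw [show ((4:ℕ):ℝ) * (ε / 4) = ε by push_cast; ring]
    ring
  have e3 : 1 ≤ m ^ ε := Real.one_le_rpow hm hε.le
  have e4 : 3 + Real.log (A * m ^ 4) ≤ (3 + A ^ (ε / 4) / (ε / 4)) * m ^ ε := by nlinarith
  have hd : (0:ℝ) ≤ dd 0 z := Nat.cast_nonneg _
  have e5 : 3 * (dd 0 z : ℝ) / m + 1 ≤ 3 * ((dd 0 z : ℝ) / m + 1) := by
    have : 3 * (dd 0 z : ℝ) / m = 3 * ((dd 0 z : ℝ) / m) := by ring
    linarith
  have e6 : 0 ≤ 3 * (dd 0 z : ℝ) / m + 1 := by positivity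
  have e7 : (3 + Real.log (A * m ^ 4)) * (3 * (dd 0 z : ℝ) / m + 1) ≤
      ((3 + A ^ (ε / 4) / (ε / 4)) * m ^ ε) * (3 * ((dd 0 z : ℝ) / m + 1)) := by
    refine mul_le_mul e4 e5 e6 (by positivity)
  linarith

end Q70.Fp
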