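import Pool.Agent.Q70.FpK
import Pool.Agent.Q69.FL.E

/-!
# First passage percolation: from stretched exponential bounds to exponential moments
-/

set_option autoImplicit false

open MeasureTheory ProbabilityTheory Finset Filter
open scoped Topology

namespace Q70.Fp

variable {μ : ℝ × ℝ → ℝ}

/-- Chernoff -/
lemma chernoffT {θ X s : ℝ} (hθ : 0 ≤ θ) {v : ℤ × ℤ}
    (h : ph θ v ≤ Real.exp (-(θ * mz μ v) + X)) :
    nu.real {w | TT (pw w) 0 v < mz μ v - s} ≤ Real.exp (-(θ * s) + X) := by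
  have h1 := mul_meas_ge_le_integral_of_nonneg (μ := nu)
    (f := fun w => Real.exp (-(θ * TT (pw w) 0 v)))
    (Eventually.of_forall fun w => (Real.exp_pos _).le)
    (int_ph hθ (measurable_TT 0 v) fun w => TT_nonneg (pw_nonneg w) _ _)
    (Real.exp (-(θ * (mz μ v - s))))
  have h2 : nu.real {w | TT (pw w) 0 v < mz μ v - s} ≤
      nu.real {w | Real.exp (-(θ * (mz μ v - s))) ≤ Real.exp (-(θ * TT (pw w) 0 v))} := by
    refine measureReal_mono ?_ (measure_ne_top _ _)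
    intro w hw
    have hw' : TT (pw w) 0 v < mz μ v - s := hw
    show Real.exp _ ≤ Real.exp _
    refine Real.exp_le_exp.2 ?_
    have := mul_le_mul_of_nonneg_left hw'.le hθ
    linarith
  have h3 : Real.exp (-(θ * (mz μ v - s))) * nu.real {w | TT (pw w) 0 v < mz μ v - s} ≤
      Real.exp (-(θ * mz μ v) + X) :=
    (mul_le_mul_of_nonneg_left h2 (Real.exp_pos _).le).trans (h1.trans h)
  have e : Real.exp (-(θ * s) + X) =
      Real.exp (-(θ * mz μ v) + X) / Real.exp (-(θ * (mz μ v - s))) := by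
    rw [← Real.exp_sub]; congr 1; ring
  rw [e, le_div_iff₀ (Real.exp_pos _), mul_comm]
  exact h3

/-- splitting the exponential moment at two levels -/
lemma three_terms {θ' θ s₁ s₂ : ℝ} (h0 : 0 ≤ θ') (h1 : θ' ≤ θ) (v : ℤ × ℤ) :
    ph θ' v * Real.exp (θ' * mz μ v) ≤ Real.exp (θ' * s₁) +
      Real.exp (θ' * s₂) * nu.real {w | TT (pw w) 0 v < mz μ v - s₁} +
      Real.exp (-((θ - θ') * s₂)) * (ph θ v * Real.exp (θ * mz μ v)) := by
  have hθ : 0 ≤ θ := h0.trans h1
  have i1 := int_ph h0 (measurable_TT 0 v) (fun w => TT_nonneg (pw_nonneg w) 0 v)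
  have i2 := int_ph hθ (measurable_TT 0 v) (fun w => TT_nonneg (pw_nonneg w) 0 v)
  have hS : MeasurableSet {w : Ed → ℝ | TT (pw w) 0 v < mz μ v - s₁} :=
    measurableSet_lt (measurable_TT 0 v) measurable_const
  have e1 : ph θ' v * Real.exp (θ' * mz μ v) =
      ∫ w, Real.exp (-(θ' * TT (pw w) 0 v)) * Real.exp (θ' * mz μ v) ∂nu := by
    unfold ph; rw [integral_mul_const]
  have e2 : Real.exp (θ' * s₁) +
      Real.exp (θ' * s₂) * nu.real {w | TT (pw w) 0 v < mz μ v - s₁} +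
      Real.exp (-((θ - θ') * s₂)) * (ph θ v * Real.exp (θ * mz μ v)) =
      ∫ w, (Real.exp (θ' * s₁) +
        Set.indicator {w | TT (pw w) 0 v < mz μ v - s₁} (fun _ => Real.exp (θ' * s₂)) w +
        Real.exp (-((θ - θ') * s₂)) *
          (Real.exp (-(θ * TT (pw w) 0 v)) * Real.exp (θ * mz μ v))) ∂nu := by
    rw [integral_add, integral_add, integral_const_mul, integral_mul_const,
      integral_indicator_const _ hS]
    · simp only [integral_const, smul_eq_mul, probReal_univ, one_mul, ph]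
      ring
    · exact integrable_const _
    · exact (integrable_const _).indicator hS
    · exact (integrable_const _).add ((integrable_const _).indicator hS)
    · exact (i2.mul_const _).const_mul _
  rw [e1, e2]
  refine integral_mono (i1.mul_const _)
    (((integrable_const _).add ((integrable_const _).indicator hS)).add
      ((i2.mul_const _).const_mul _)) fun w => ?_
  simp only
  set X : ℝ := mz μ v - TT (pw w) 0 v with hX
  have f1 : Real.exp (-(θ' * TT (pw w) 0 v)) * Real.exp (θ' * mz μ v) = Real.exp (θ' * X) := by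
    rw [← Real.exp_add]; congr 1; rw [hX]; ring
  have f2 : Real.exp (-((θ - θ') * s₂)) *
          (Real.exp (-(θ * TT (pw w) 0 v)) * Real.exp (θ * mz μ v)) =
      Real.exp (θ * X - (θ - θ') * s₂) := by
    rw [← Real.exp_add, ← Real.exp_add]; congr 1; rw [hX]; ring
  rw [f1, f2]
  have p1 := Real.exp_pos (θ' * s₁)
  have p2 := Real.exp_pos (θ' * s₂)
  have p3 := Real.exp_pos (θ * X - (θ - θ') * s₂)
  have hind : 0 ≤ Set.indicator {w | TT (pw w) 0 v < mz μ v - s₁} (fun _ => Real.exp (θ' * s₂)) w :=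
    Set.indicator_nonneg (fun _ _ => p2.le) _
  by_cases c1 : X ≤ s₁
  · have : Real.exp (θ' * X) ≤ Real.exp (θ' * s₁) := by gcongr
    linarith
  · push Not at c1
    by_cases c2 : X ≤ s₂
    · have hmem : w ∈ {w | TT (pw w) 0 v < mz μ v - s₁} := by
        show TT (pw w) 0 v < mz μ v - s₁
        linarith
      rw [Set.indicator_of_mem hmem]
      have : Real.exp (θ' * X) ≤ Real.exp (θ' * s₂) := by gcongr
      linarith
    · push Not at c2
      have : Real.exp (θ' * X) ≤ Real.exp (θ * X - (θ - θ') * s₂) := by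
        refine Real.exp_le_exp.2 ?_
        have := mul_le_mul_of_nonneg_left c2.le (sub_nonneg.2 h1)
        linarith
      linarith

/-- an eventual bound suffices -/
lemma EE_of_ev (h : Shape μ) {β C : ℝ} (hβ : 0 ≤ β) (hC : 1 ≤ C)
    (H : ∀ᶠ n : ℕ in atTop, ∀ (v : ℤ × ℤ) (θ : ℝ), dd 0 v = n → 0 ≤ θ → θ ≤ (n:ℝ) ^ (-β) →
      ph θ v * Real.exp (θ * mz μ v) ≤ C) : EE μ β := by
  obtain ⟨n0, h0⟩ := eventually_atTop.1 H
  refine ⟨max C (Real.exp (3 * n0)), le_max_of_le_left hC, fun v θ hθ h1 => ?_⟩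
  have key : ph θ v * Real.exp (θ * mz μ v) ≤ max C (Real.exp (3 * n0)) := by
    by_cases hc : n0 ≤ dd 0 v ∧ 1 ≤ dd 0 v
    · refine (h0 _ hc.1 v θ rfl hθ (h1.trans ?_)).trans (le_max_left _ _)
      have : (0:ℝ) < dd 0 v := by exact_mod_cast hc.2
      exact Real.rpow_le_rpow_of_nonpos this (by linarith) (by linarith)
    · have h2 : (dd 0 v : ℝ) ≤ n0 := by
        have : dd 0 v ≤ n0 := by
          by_contra hcon
          exact hc ⟨by omega, by omega⟩
        exact_mod_cast this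
      have hθ1 : θ ≤ 1 := h1.trans (Real.rpow_le_one_of_one_le_of_nonpos
        (by linarith [Nat.cast_nonneg (α := ℝ) (dd 0 v)]) (by linarith))
      have h3 := mz_up h v
      have h4 := mz_nonneg h v
      calc ph θ v * Real.exp (θ * mz μ v) ≤ 1 * Real.exp (3 * n0) := by
            refine mul_le_mul (ph_le_one hθ v) (Real.exp_le_exp.2 ?_) (Real.exp_pos _).le zero_le_one
            nlinarith
        _ ≤ _ := by rw [one_mul]; exact le_max_right _ _
  have e : ph θ v = ph θ v * Real.exp (θ * mz μ v) * Real.exp (-(θ * mz μ v)) := by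
    rw [mul_assoc, ← Real.exp_add, add_neg_cancel, Real.exp_zero, mul_one]
  rw [e]
  gcongr

/-- one step of the improvement -/
lemma EE_step (h : Shape μ) {a β β' κ c C : ℝ} (ha : 0 < a) (hκ : 0 < κ) (hκ1 : κ ≤ 1) (hc : 0 < c)
    (hC : 0 < C) (hS : ∀ v : ℤ × ℤ, v ≠ 0 →
      nu.real {w | TT (pw w) 0 v < mz μ v - (dd 0 v : ℝ) ^ a} ≤ C * Real.exp (-(c * (dd 0 v : ℝ) ^ κ)))
    (hβ : 0 ≤ β) (hE : EE μ β) (h1 : a ≤ β') (h2 : β * (1 - κ / 2) < β') : EE μ β' := by
  obtain ⟨K, hK, hA⟩ := all_scales h hβ hE (show 0 < κ / 4 by positivity)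
  have hβ' : 0 < β' := lt_of_lt_of_le ha h1
  set x : ℝ := 1 - κ / 2 with hx
  have hx0 : 0 < x := by rw [hx]; linarith
  have hx1 : x < 1 := by rw [hx]; linarith
  refine EE_of_ev h hβ'.le (C := Real.exp 1 + C + 1) (by
    have := Real.exp_pos 1
    linarith) ?_
  have s1 := pow_small (K := 155 ^ β) (show -β' < -(x * β) by linarith)
  have s2 := pow_small (K := 2 * K * (2 / (c * 155 ^ (-β)))) (show 3 * κ / 4 < κ by linarith)
  filter_upwards [s1, s2, eventually_ge_atTop 1] with n e1 e2 hn v θ' hv h0 hθ'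
  have hn1 : (1:ℝ) ≤ n := by exact_mod_cast hn
  have hn0 : (0:ℝ) < n := by linarith
  have hv0 : v ≠ 0 := by
    rintro rfl
    rw [dd_self] at hv
    omega
  set θ : ℝ := (155 * (n:ℝ) ^ x) ^ (-β) with hθ
  have hθe : θ = 155 ^ (-β) * (n:ℝ) ^ (-(x * β)) := by
    rw [hθ, Real.mul_rpow (by norm_num) (by positivity), ← Real.rpow_mul hn0.le]
    congr 2
    ring
  have h155 : (155:ℝ) ^ (-β) * 155 ^ β = 1 := by
    rw [← Real.rpow_add (by norm_num)]; simp
  have h155' : (0:ℝ) < 155 ^ (-β) := by positivity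
  have hθθ : θ' ≤ θ / 2 := by
    refine hθ'.trans ?_
    rw [hθe]
    have : (n:ℝ) ^ (-β') = 155 ^ (-β) * (155 ^ β * (n:ℝ) ^ (-β')) := by
      rw [← mul_assoc, h155, one_mul]
    rw [this]
    have e3 : 155 ^ (-β) * (155 ^ β * (n:ℝ) ^ (-β')) ≤ 155 ^ (-β) * ((n:ℝ) ^ (-(x * β)) / 4) := by
      gcongr
    have e4 : 0 < 155 ^ (-β) * (n:ℝ) ^ (-(x * β)) := by positivity
    linarith
  have hθ0 : 0 < θ := by rw [hθe]; positivity
  have key := three_terms (μ := μ) (s₁ := (n:ℝ) ^ a) (s₂ := c * (n:ℝ) ^ (β' + κ)) h0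
    (show θ' ≤ θ by linarith) v
  refine key.trans ?_
  -- first term
  have t1 : Real.exp (θ' * (n:ℝ) ^ a) ≤ Real.exp 1 := by
    refine Real.exp_le_exp.2 ?_
    calc θ' * (n:ℝ) ^ a ≤ (n:ℝ) ^ (-β') * (n:ℝ) ^ a := by gcongr
      _ = (n:ℝ) ^ (a - β') := by rw [← Real.rpow_add hn0]; congr 1; ring
      _ ≤ 1 := Real.rpow_le_one_of_one_le_of_nonpos hn1 (by linarith)
  -- second term
  have t2 : Real.exp (θ' * (c * (n:ℝ) ^ (β' + κ))) *
      nu.real {w | TT (pw w) 0 v < mz μ v - (n:ℝ) ^ a} ≤ C := by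
    have f1 : θ' * (c * (n:ℝ) ^ (β' + κ)) ≤ c * (n:ℝ) ^ κ := by
      calc θ' * (c * (n:ℝ) ^ (β' + κ)) ≤ (n:ℝ) ^ (-β') * (c * (n:ℝ) ^ (β' + κ)) := by gcongr
        _ = c * ((n:ℝ) ^ (-β') * (n:ℝ) ^ (β' + κ)) := by ring
        _ = _ := by rw [← Real.rpow_add hn0]; congr 2; ring
    have f2 := hS v hv0
    rw [hv] at f2
    calc _ ≤ Real.exp (c * (n:ℝ) ^ κ) * (C * Real.exp (-(c * (n:ℝ) ^ κ))) := by gcongr
      _ = C * (Real.exp (c * (n:ℝ) ^ κ) * Real.exp (-(c * (n:ℝ) ^ κ))) := by ring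
      _ = C := by rw [← Real.exp_add, add_neg_cancel, Real.exp_zero, mul_one]
  -- third term
  have t3 : Real.exp (-((θ - θ') * (c * (n:ℝ) ^ (β' + κ)))) * (ph θ v * Real.exp (θ * mz μ v)) ≤ 1 := by
    have f1 := hA ((n:ℝ) ^ x) θ (Real.one_le_rpow hn1 hx0.le) hθ0.le le_rfl v
    rw [hv] at f1
    have f2 : ph θ v * Real.exp (θ * mz μ v) ≤
        Real.exp (K * ((n:ℝ) ^ x) ^ (κ / 4) * ((n:ℝ) / (n:ℝ) ^ x + 1)) := by
      calc _ ≤ Real.exp (-(θ * mz μ v) + K * ((n:ℝ) ^ x) ^ (κ / 4) * ((n:ℝ) / (n:ℝ) ^ x + 1)) *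
            Real.exp (θ * mz μ v) := by gcongr
        _ = _ := by rw [← Real.exp_add]; congr 1; ring
    calc _ ≤ Real.exp (-((θ - θ') * (c * (n:ℝ) ^ (β' + κ)))) *
          Real.exp (K * ((n:ℝ) ^ x) ^ (κ / 4) * ((n:ℝ) / (n:ℝ) ^ x + 1)) := by gcongr
      _ ≤ 1 := by
        rw [← Real.exp_add]
        refine Real.exp_le_one_iff.2 ?_
        have g1 : (n:ℝ) / (n:ℝ) ^ x = (n:ℝ) ^ (κ / 2) := by
          rw [div_eq_iff (by positivity), ← Real.rpow_add hn0, hx,
            show κ / 2 + (1 - κ / 2) = 1 by ring, Real.rpow_one]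
        have g2 : ((n:ℝ) ^ x) ^ (κ / 4) ≤ (n:ℝ) ^ (κ / 4) := by
          rw [← Real.rpow_mul hn0.le]
          exact Real.rpow_le_rpow_of_exponent_le hn1 (by nlinarith)
        have g3 : (1:ℝ) ≤ (n:ℝ) ^ (κ / 2) := Real.one_le_rpow hn1 (by positivity)
        have g4 : K * ((n:ℝ) ^ x) ^ (κ / 4) * ((n:ℝ) / (n:ℝ) ^ x + 1) ≤
            2 * K * (n:ℝ) ^ (3 * κ / 4) := by
          rw [g1]
          calc K * ((n:ℝ) ^ x) ^ (κ / 4) * ((n:ℝ) ^ (κ / 2) + 1) ≤
                K * (n:ℝ) ^ (κ / 4) * (2 * (n:ℝ) ^ (κ / 2)) := by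
                gcongr
                linarith
            _ = 2 * K * ((n:ℝ) ^ (κ / 4) * (n:ℝ) ^ (κ / 2)) := by ring
            _ = _ := by rw [← Real.rpow_add hn0]; congr 2; ring
        have g5 : c * 155 ^ (-β) / 2 * (n:ℝ) ^ κ ≤ (θ - θ') * (c * (n:ℝ) ^ (β' + κ)) := by
          have k1 : θ / 2 ≤ θ - θ' := by linarith
          calc c * 155 ^ (-β) / 2 * (n:ℝ) ^ κ ≤ c * 155 ^ (-β) / 2 * (n:ℝ) ^ (-(x * β) + (β' + κ)) := by
                have : κ ≤ -(x * β) + (β' + κ) := by linarith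
                have := Real.rpow_le_rpow_of_exponent_le hn1 this
                gcongr
            _ = (θ / 2) * (c * (n:ℝ) ^ (β' + κ)) := by
                rw [hθe, Real.rpow_add hn0]; ring
            _ ≤ _ := by gcongr
        have g6 : 2 * K * (n:ℝ) ^ (3 * κ / 4) ≤ c * 155 ^ (-β) / 2 * (n:ℝ) ^ κ := by
          have k2 : (0:ℝ) < c * 155 ^ (-β) / 2 := by positivity
          have k3 : 2 * K * (n:ℝ) ^ (3 * κ / 4) = c * 155 ^ (-β) / 2 *
              (2 * K * (2 / (c * 155 ^ (-β))) * (n:ℝ) ^ (3 * κ / 4)) := by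
            field_simp
          rw [k3]
          have k4 : 0 < (n:ℝ) ^ κ := by positivity
          have : 2 * K * (2 / (c * 155 ^ (-β))) * (n:ℝ) ^ (3 * κ / 4) ≤ (n:ℝ) ^ κ := by linarith
          exact mul_le_mul_of_nonneg_left this k2.le
        linarith
  linarith

open Q69.FL in
/-- stretched exponential bounds give exponential moments at all scales above `b` -/
lemma EE_all (h : Shape μ) {b : ℝ} (hb : 0 < b) (hS : ∀ a, b < a → Se μ a) {a : ℝ} (ha : b < a) :
    EE μ a := by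
  set a1 : ℝ := (a + b) / 2 with ha1
  have h1 : b < a1 := by rw [ha1]; linarith
  have h2 : a1 < a := by rw [ha1]; linarith
  obtain ⟨κ0, c, C, hκ0, hc, hC, hS1⟩ := hS a1 h1
  set κ : ℝ := min κ0 1 with hκ
  have hκp : 0 < κ := lt_min hκ0 one_pos
  have hκ1 : κ ≤ 1 := min_le_right _ _
  have hS2 : ∀ v : ℤ × ℤ, v ≠ 0 →
      nu.real {w | TT (pw w) 0 v < mz μ v - (dd 0 v : ℝ) ^ a1} ≤
        C * Real.exp (-(c * (dd 0 v : ℝ) ^ κ)) := by
    intro v hv
    refine (hS1 v hv).trans ?_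
    have hn : (1:ℝ) ≤ dd 0 v := by exact_mod_cast dd_pos hv
    have := Real.rpow_le_rpow_of_exponent_le hn (min_le_left κ0 1)
    gcongr
  have hr0 : 0 < 1 - κ / 4 := by linarith
  have hr1 : 1 - κ / 4 < 1 := by linarith
  have key : ∀ k : ℕ, EE μ (max a ((1 - κ / 4) ^ k)) := by
    intro k
    induction k with
    | zero => exact EE_mono (by rw [pow_zero]; exact le_max_right _ _) (EE_one h)
    | succ k ih =>
      have hpk : 0 < (1 - κ / 4) ^ k := by positivity
      have ha0 : 0 < a := by linarith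
      refine EE_step h (by linarith) hκp hκ1 hc hC hS2 (le_max_of_le_left (by linarith)) ih
        (le_max_of_le_left h2.le) ?_
      rcases le_total a ((1 - κ / 4) ^ k) with hh | hh
      · rw [max_eq_right hh]
        refine lt_of_lt_of_le ?_ (le_max_right _ _)
        rw [pow_succ]
        nlinarith
      · rw [max_eq_left hh]
        refine lt_of_lt_of_le ?_ (le_max_left _ _)
        nlinarith
  obtain ⟨k, hk⟩ := exists_pow_lt_of_lt_one (show 0 < a by linarith) hr1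
  have := key k
  rwa [max_eq_left hk.le] at this

end Q70.Fp
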