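import Pool.Agent.Q70.FpL

/-!
# First passage percolation: cumulants and the optimal lower tail
-/

set_option autoImplicit false

open MeasureTheory ProbabilityTheory Finset Filter
open scoped Topology

namespace Q70.Fp

variable {μ : ℝ × ℝ → ℝ}

/-- bound for the exponential moments at all scales -/
def Cum (μ : ℝ × ℝ → ℝ) (b ζ : ℝ) : Prop := ∃ C : ℝ, 0 < C ∧ ∀ v : ℤ × ℤ, v ≠ 0 → ∀ θ : ℝ, 0 < θ →
  θ ≤ 1 → ph θ v ≤ Real.exp (-(θ * mz μ v) +
    C * (dd 0 v : ℝ) ^ ζ * (1 + θ ^ (1 / b) * (dd 0 v : ℝ)))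

/-- the optimal lower tail -/
def Opt (μ : ℝ × ℝ → ℝ) (b ζ : ℝ) : Prop := ∃ C : ℝ, 0 < C ∧ ∀ v : ℤ × ℤ, v ≠ 0 → ∀ s : ℝ, 0 < s →
  nu.real {w | TT (pw w) 0 v < mz μ v - s} ≤
    C * Real.exp (-((s / (dd 0 v : ℝ) ^ (b + ζ)) ^ (1 / (1 - b))))

lemma cum_of_EE (h : Shape μ) {b : ℝ} (hb : 0 < b) (hE : ∀ a, b < a → EE μ a) {ζ : ℝ} (hζ : 0 < ζ) :
    Cum μ b ζ := by
  set δ : ℝ := min (ζ / 2) (1 / (2 * b)) with hδ
  have hδ0 : 0 < δ := lt_min (by positivity) (by positivity)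
  have hδ1 : δ ≤ ζ / 2 := min_le_left _ _
  have hδ2 : δ ≤ 1 / (2 * b) := min_le_right _ _
  have hb2 : 1 / (2 * b) < 1 / b := by
    rw [div_lt_div_iff₀ (by positivity) hb]; linarith
  have hd : 0 < 1 / b - δ := by linarith
  set a : ℝ := 1 / (1 / b - δ) with ha
  have ha0 : 0 < a := by positivity
  have hab : b < a := by
    rw [ha, lt_div_iff₀ hd, mul_sub, mul_one_div_cancel hb.ne']
    nlinarith
  have hainv : 1 / a = 1 / b - δ := by rw [ha, one_div_one_div]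
  obtain ⟨K, hK, hA⟩ := all_scales h ha0.le (hE a hab) (show 0 < a * ζ / 2 by positivity)
  refine ⟨3 + 3 * 155 ^ (a / b) + 155 * K, by positivity, fun v hv θ hθ hθ1 => ?_⟩
  set n : ℝ := (dd 0 v : ℝ) with hn
  have hn1 : (1:ℝ) ≤ n := by rw [hn]; exact_mod_cast dd_pos hv
  have hn0 : 0 < n := by linarith
  have hnζ : 1 ≤ n ^ ζ := Real.one_le_rpow hn1 hζ.le
  have hmz := mz_up h v
  have hmz0 := mz_nonneg h v
  rw [← hn] at hmz
  have hθb : 0 < θ ^ (1 / b) := by positivity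
  have h155 : (0:ℝ) < 155 ^ (a / b) := by positivity
  have hP : 0 ≤ n ^ ζ * (1 + θ ^ (1 / b) * n) := by positivity
  by_cases cA : θ * n ≤ 1
  · refine (ph_le_one hθ.le v).trans (Real.one_le_exp ?_)
    have e1 : θ * mz μ v ≤ 3 := by nlinarith
    have e2 : 3 ≤ 3 * (n ^ ζ * (1 + θ ^ (1 / b) * n)) := by
      have : 1 ≤ n ^ ζ * (1 + θ ^ (1 / b) * n) := by
        have : 0 ≤ θ ^ (1 / b) * n := by positivity
        nlinarith
      linarith
    have e3 : 3 * (n ^ ζ * (1 + θ ^ (1 / b) * n)) ≤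
        (3 + 3 * 155 ^ (a / b) + 155 * K) * (n ^ ζ * (1 + θ ^ (1 / b) * n)) := by
      have : (3:ℝ) ≤ 3 + 3 * 155 ^ (a / b) + 155 * K := by
        have : 0 < 155 * K := by positivity
        linarith
      exact mul_le_mul_of_nonneg_right this hP
    rw [mul_assoc]
    linarith
  push Not at cA
  by_cases cB : 155 ^ (-a) < θ
  · refine (ph_le_one hθ.le v).trans (Real.one_le_exp ?_)
    have e0 : (155 : ℝ) ^ (-(a / b)) ≤ θ ^ (1 / b) := by
      have : (155 : ℝ) ^ (-(a / b)) = ((155:ℝ) ^ (-a)) ^ (1 / b) := by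
        rw [← Real.rpow_mul (by norm_num)]; congr 1; ring
      rw [this]
      exact Real.rpow_le_rpow (by positivity) cB.le (by positivity)
    have e1 : (155:ℝ) ^ (a / b) * 155 ^ (-(a / b)) = 1 := by
      rw [← Real.rpow_add (by norm_num)]; simp
    have e2 : 1 ≤ 155 ^ (a / b) * θ ^ (1 / b) := by
      calc (1:ℝ) = (155:ℝ) ^ (a / b) * 155 ^ (-(a / b)) := e1.symm
        _ ≤ _ := by gcongr
    have e3 : θ * mz μ v ≤ 3 * n := by nlinarith
    have e4 : 3 * n ≤ 3 * 155 ^ (a / b) * (n ^ ζ * (1 + θ ^ (1 / b) * n)) := by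
      calc 3 * n = 3 * (1 * n) := by ring
        _ ≤ 3 * ((155 ^ (a / b) * θ ^ (1 / b)) * n) := by gcongr
        _ = 3 * 155 ^ (a / b) * (1 * (θ ^ (1 / b) * n)) := by ring
        _ ≤ 3 * 155 ^ (a / b) * (n ^ ζ * (1 + θ ^ (1 / b) * n)) := by
            gcongr
            linarith
    have e5 : 3 * 155 ^ (a / b) * (n ^ ζ * (1 + θ ^ (1 / b) * n)) ≤
        (3 + 3 * 155 ^ (a / b) + 155 * K) * (n ^ ζ * (1 + θ ^ (1 / b) * n)) := by
      have : (3:ℝ) * 155 ^ (a / b) ≤ 3 + 3 * 155 ^ (a / b) + 155 * K := by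
        have : 0 < 155 * K := by positivity
        linarith
      exact mul_le_mul_of_nonneg_right this hP
    rw [mul_assoc]
    linarith
  push Not at cB
  set m : ℝ := θ ^ (-(1 / a)) / 155 with hm
  have hθm : 155 ≤ θ ^ (-(1 / a)) := by
    have e1 : (155:ℝ) = ((155:ℝ) ^ (-a)) ^ (-(1 / a)) := by
      rw [← Real.rpow_mul (by norm_num), show -a * -(1 / a) = 1 by field_simp, Real.rpow_one]
    conv_lhs => rw [e1]
    exact Real.rpow_le_rpow_of_nonpos hθ cB (by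
      have : 0 < 1 / a := by positivity
      linarith)
  have hm1 : 1 ≤ m := by rw [hm, le_div_iff₀ (by norm_num)]; linarith
  have hm0 : 0 < m := by linarith
  have hmθ : (155 * m) ^ (-a) = θ := by
    rw [hm, mul_div_cancel₀ _ (by norm_num), ← Real.rpow_mul hθ.le,
      show -(1 / a) * -a = 1 by field_simp, Real.rpow_one]
  have key := hA m θ hm1 hθ.le hmθ.ge v
  rw [← hn] at key
  refine key.trans (Real.exp_le_exp.2 ?_)
  have hinv : 1 / n ≤ θ := by rw [div_le_iff₀ hn0]; exact cA.le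
  have f1 : ∀ e : ℝ, 0 ≤ e → θ ^ (-e) ≤ n ^ e := by
    intro e he
    have : n ^ e = (1 / n) ^ (-e) := by
      rw [one_div, Real.inv_rpow hn0.le, ← Real.rpow_neg hn0.le, neg_neg]
    rw [this]
    exact Real.rpow_le_rpow_of_nonpos (by positivity) hinv (by linarith)
  have f2 : m ^ (a * ζ / 2) ≤ n ^ (ζ / 2) := by
    calc m ^ (a * ζ / 2) ≤ (θ ^ (-(1 / a))) ^ (a * ζ / 2) := by
          refine Real.rpow_le_rpow hm0.le ?_ (by positivity)
          rw [hm]
          have : 0 < θ ^ (-(1 / a)) := by positivity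
          linarith
      _ = θ ^ (-(ζ / 2)) := by
          rw [← Real.rpow_mul hθ.le]; congr 1; field_simp
      _ ≤ _ := f1 _ (by positivity)
  have f3 : n / m ≤ 155 * (n * θ ^ (1 / b) * n ^ (ζ / 2)) := by
    have e1 : n / m = 155 * (n * θ ^ (1 / a)) := by
      rw [hm, Real.rpow_neg hθ.le]
      have : θ ^ (1 / a) ≠ 0 := by positivity
      field_simp
    rw [e1, hainv, Real.rpow_sub hθ, div_eq_mul_inv, ← Real.rpow_neg hθ.le]
    have e2 : θ ^ (-δ) ≤ n ^ (ζ / 2) :=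
      (f1 δ hδ0.le).trans (Real.rpow_le_rpow_of_exponent_le hn1 hδ1)
    have e3 : 0 ≤ n * θ ^ (1 / b) := by positivity
    nlinarith [mul_le_mul_of_nonneg_left e2 e3]
  have hz2 : 1 ≤ n ^ (ζ / 2) := Real.one_le_rpow hn1 (by positivity)
  have f4 : K * m ^ (a * ζ / 2) * (n / m + 1) ≤ 155 * K * (n ^ ζ * (1 + θ ^ (1 / b) * n)) := by
    calc K * m ^ (a * ζ / 2) * (n / m + 1) ≤
          K * n ^ (ζ / 2) * (155 * (n * θ ^ (1 / b) * n ^ (ζ / 2)) + 155 * n ^ (ζ / 2)) := by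
          gcongr
          nlinarith
      _ = 155 * K * ((n ^ (ζ / 2) * n ^ (ζ / 2)) * (1 + θ ^ (1 / b) * n)) := by ring
      _ = _ := by
          rw [← Real.rpow_add hn0, add_halves]
  have f5 : 155 * K * (n ^ ζ * (1 + θ ^ (1 / b) * n)) ≤
      (3 + 3 * 155 ^ (a / b) + 155 * K) * (n ^ ζ * (1 + θ ^ (1 / b) * n)) := by
    have : 155 * K ≤ 3 + 3 * 155 ^ (a / b) + 155 * K := by linarith
    exact mul_le_mul_of_nonneg_right this hP
  rw [mul_assoc (3 + 3 * 155 ^ (a / b) + 155 * K)]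
  linarith

/-- the optimal tail from the cumulants -/
lemma opt_of_cum (h : Shape μ) {b : ℝ} (hb : 0 < b) (hb1 : b < 1) {ζ : ℝ} (hζ : 0 < ζ)
    (hC : Cum μ b (ζ / 2)) : Opt μ b ζ := by
  obtain ⟨C0, hC0, hC⟩ := hC
  set C1 : ℝ := max C0 2 with hC1
  have hC12 : 2 ≤ C1 := le_max_right _ _
  have hC10 : 0 < C1 := by linarith
  have hb' : 0 < 1 - b := by linarith
  set c1 : ℝ := 1 / 2 * (2 * C1) ^ (-(b / (1 - b))) with hc1
  have hc10 : 0 < c1 := by positivity
  set γ : ℝ := (ζ - b * (ζ / 2)) / (1 - b) with hγ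
  have hγ1 : ζ / 2 < γ := by
    rw [hγ, lt_div_iff₀ hb']; nlinarith
  have s1 := pow_small (K := C1 / c1) hγ1
  have s2 := pow_small (K := 1 / c1) (show (0:ℝ) < γ by linarith)
  obtain ⟨n0, h0⟩ := eventually_atTop.1 (s1.and s2)
  refine ⟨Real.exp 1 + Real.exp ((3 * (n0:ℝ)) ^ (1 / (1 - b))) + 1, by positivity,
    fun v hv s hs => ?_⟩
  set n : ℝ := (dd 0 v : ℝ) with hn
  have hn1 : (1:ℝ) ≤ n := by rw [hn]; exact_mod_cast dd_pos hv
  have hn0 : 0 < n := by linarith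
  have hmz := mz_up h v
  rw [← hn] at hmz
  have hnp : 0 < n ^ (b + ζ) := by positivity
  set B : ℝ := (s / n ^ (b + ζ)) ^ (1 / (1 - b)) with hB
  have hB0 : 0 < B := by positivity
  have hexpB := Real.exp_pos (-B)
  have e1 := Real.exp_pos 1
  have e2 := Real.exp_pos ((3 * (n0:ℝ)) ^ (1 / (1 - b)))
  -- a trivial bound when `B` is bounded
  have triv : ∀ M : ℝ, B ≤ M → Real.exp M ≤ Real.exp 1 + Real.exp ((3 * (n0:ℝ)) ^ (1 / (1 - b))) + 1 →
      nu.real {w | TT (pw w) 0 v < mz μ v - s} ≤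
        (Real.exp 1 + Real.exp ((3 * (n0:ℝ)) ^ (1 / (1 - b))) + 1) * Real.exp (-B) := by
    intro M hM hM2
    calc nu.real {w | TT (pw w) 0 v < mz μ v - s} ≤ 1 := measureReal_le_one
      _ = Real.exp B * Real.exp (-B) := by rw [← Real.exp_add, add_neg_cancel, Real.exp_zero]
      _ ≤ _ := by
          gcongr
          exact (Real.exp_le_exp.2 hM).trans hM2
  by_cases c1' : s ≤ n ^ (b + ζ)
  · refine triv 1 ?_ (by linarith)
    exact Real.rpow_le_one (by positivity) (by rw [div_le_one hnp]; exact c1') (by positivity)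
  push Not at c1'
  by_cases c2 : 3 * n < s
  · have : {w : Ed → ℝ | TT (pw w) 0 v < mz μ v - s} = ∅ := by
      ext w
      simp only [Set.mem_setOf_eq, Set.mem_empty_iff_false, iff_false, not_lt]
      have := TT_nonneg (pw_nonneg w) 0 v
      linarith
    rw [this, measureReal_empty]
    positivity
  push Not at c2
  have hn1' : 1 ≤ n ^ (b + ζ) := Real.one_le_rpow hn1 (by linarith)
  by_cases c3 : dd 0 v < n0
  · refine triv ((3 * (n0:ℝ)) ^ (1 / (1 - b))) ?_ (by linarith)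
    refine Real.rpow_le_rpow (by positivity) ?_ (by positivity)
    have : n ≤ n0 := by rw [hn]; exact_mod_cast c3.le
    calc s / n ^ (b + ζ) ≤ s / 1 := by gcongr
      _ ≤ _ := by rw [div_one]; linarith
  push Not at c3
  obtain ⟨g1, g2⟩ := h0 _ c3
  rw [← hn] at g1 g2
  have hB1 : 1 ≤ B := Real.one_le_rpow (by rw [one_le_div hnp]; exact c1'.le) (by positivity)
  set y : ℝ := s / (2 * C1 * n ^ (1 + ζ / 2)) with hy
  have hnn : n ≤ n ^ (1 + ζ / 2) := by
    conv_lhs => rw [← Real.rpow_one n]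
    exact Real.rpow_le_rpow_of_exponent_le hn1 (by linarith)
  have hy0 : 0 < y := by positivity
  have hy1 : y ≤ 1 := by
    rw [hy, div_le_one (by positivity)]
    nlinarith
  set θ : ℝ := y ^ (b / (1 - b)) with hθ
  have hθ0 : 0 < θ := by positivity
  have hθ1 : θ ≤ 1 := Real.rpow_le_one hy0.le hy1 (by positivity)
  have hθb : θ ^ (1 / b) = θ * y := by
    rw [hθ, ← Real.rpow_mul hy0.le, ← Real.rpow_add_one hy0.ne']
    congr 1
    field_simp
    ring
  have k0 := hC v hv θ hθ0 hθ1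
  rw [← hn] at k0
  have k1 : ph θ v ≤ Real.exp (-(θ * mz μ v) + (C1 * n ^ (ζ / 2) + θ * s / 2)) := by
    refine k0.trans (Real.exp_le_exp.2 ?_)
    have e3 : C0 * n ^ (ζ / 2) * (1 + θ ^ (1 / b) * n) ≤ C1 * n ^ (ζ / 2) * (1 + θ ^ (1 / b) * n) := by
      gcongr
      exact le_max_left _ _
    have e4 : C1 * n ^ (ζ / 2) * (1 + θ ^ (1 / b) * n) = C1 * n ^ (ζ / 2) + θ * s / 2 := by
      rw [hθb, hy, Real.rpow_add hn0, Real.rpow_one]
      have : n ^ (ζ / 2) ≠ 0 := by positivity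
      field_simp
    linarith
  have k2 := chernoffT (s := s) hθ0.le k1
  refine k2.trans ?_
  -- the exponent
  have k3 : θ * s / 2 = c1 * (B * n ^ γ) := by
    have e3 : s = (s / n ^ (b + ζ)) * n ^ (b + ζ) := by field_simp
    have e4 : θ * s = s ^ (1 / (1 - b)) * (2 * C1) ^ (-(b / (1 - b))) *
        (n ^ (1 + ζ / 2)) ^ (-(b / (1 - b))) := by
      rw [hθ, hy, Real.div_rpow hs.le (by positivity), Real.mul_rpow (by positivity) (by positivity),
        Real.rpow_neg (by positivity), Real.rpow_neg (by positivity)]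
      have : s ^ (1 / (1 - b)) = s ^ (b / (1 - b)) * s := by
        rw [← Real.rpow_add_one hs.ne']
        congr 1
        field_simp
        ring
      rw [this]
      have f1 : ((2 * C1) ^ (b / (1 - b)) : ℝ) ≠ 0 := by positivity
      have f2 : ((n ^ (1 + ζ / 2)) ^ (b / (1 - b)) : ℝ) ≠ 0 := by positivity
      field_simp
    have e5 : s ^ (1 / (1 - b)) = B * n ^ ((b + ζ) / (1 - b)) := by
      rw [hB, Real.div_rpow hs.le hnp.le, ← Real.rpow_mul hn0.le,
        show (b + ζ) * (1 / (1 - b)) = (b + ζ) / (1 - b) by ring]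
      have : (n ^ ((b + ζ) / (1 - b)) : ℝ) ≠ 0 := by positivity
      field_simp
    have e6 : n ^ ((b + ζ) / (1 - b)) * (n ^ (1 + ζ / 2)) ^ (-(b / (1 - b))) = n ^ γ := by
      rw [← Real.rpow_mul hn0.le, ← Real.rpow_add hn0]
      congr 1
      rw [hγ]
      field_simp
      ring
    rw [e4, e5, hc1, ← e6]
    ring
  have k4 : B ≤ c1 * (B * n ^ γ) - C1 * n ^ (ζ / 2) := by
    rw [Real.rpow_zero, mul_one] at g2
    have f1 : C1 * n ^ (ζ / 2) ≤ c1 * (n ^ γ / 4) := by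
      have : C1 * n ^ (ζ / 2) = c1 * (C1 / c1 * n ^ (ζ / 2)) := by field_simp
      rw [this]
      gcongr
    have f2 : 1 ≤ c1 * (n ^ γ / 4) := by
      have : 1 = c1 * (1 / c1) := by field_simp
      rw [this]
      gcongr
    have f3 : 0 < c1 * n ^ γ := by positivity
    nlinarith
  calc Real.exp (-(θ * s) + (C1 * n ^ (ζ / 2) + θ * s / 2)) ≤ Real.exp (-B) :=
        Real.exp_le_exp.2 (by linarith)
    _ = 1 * Real.exp (-B) := (one_mul _).symm
    _ ≤ _ := by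
        gcongr
        linarith

/-- the optimal tail gives polynomial bounds of all orders -/
lemma ll_of_opt {b : ℝ} (hb1 : b < 1) {ζ : ℝ} (hζ : 0 < ζ) (hO : Opt μ b (ζ / 2)) {q : ℝ}
    (hq : 0 < q) : Q69.FL.Ll μ (b + ζ) q := by
  obtain ⟨C, hC, hO⟩ := hO
  have hb' : 0 < 1 - b := by linarith
  set κ : ℝ := ζ / 2 / (1 - b) with hκ
  have hκ0 : 0 < κ := by positivity
  obtain ⟨C1, hC1, hE⟩ := exp_poly (q / κ) (by positivity) (c := 1) one_pos
  refine ⟨C * C1, by positivity, fun v hv => ?_⟩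
  have hn1 : (1:ℝ) ≤ dd 0 v := by exact_mod_cast dd_pos hv
  have hn0 : (0:ℝ) < dd 0 v := by linarith
  refine (hO v hv _ (by positivity)).trans ?_
  have e1 : ((dd 0 v : ℝ) ^ (b + ζ) / (dd 0 v : ℝ) ^ (b + ζ / 2)) ^ (1 / (1 - b)) =
      (dd 0 v : ℝ) ^ κ := by
    rw [← Real.rpow_sub hn0, ← Real.rpow_mul hn0.le]
    congr 1
    rw [hκ]
    ring
  rw [e1, mul_assoc]
  have e2 := hE _ (Real.one_le_rpow hn1 hκ0.le)
  rw [one_mul, ← Real.rpow_mul hn0.le, show κ * -(q / κ) = -q by field_simp] at e2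
  gcongr

end Q70.Fp
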