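import Pool.Agent.Q70.FpL

/-!
# First passage percolation: stretched exponential bounds for the upper tail
-/

set_option autoImplicit false

open MeasureTheory ProbabilityTheory Finset Filter
open scoped Topology

namespace Q70.Fp

variable {μ : ℝ × ℝ → ℝ}

/-- stretched exponential bound for the upper tail at the exponent `a` -/
def SeU (μ : ℝ × ℝ → ℝ) (a : ℝ) : Prop := ∃ κ c C : ℝ, 0 < κ ∧ 0 < c ∧ 0 < C ∧ ∀ v : ℤ × ℤ, v ≠ 0 →
  nu.real {w | mz μ v + (dd 0 v : ℝ) ^ a < TT (pw w) 0 v} ≤ C * Real.exp (-(c * (dd 0 v : ℝ) ^ κ))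

lemma SeU_mono {a a' : ℝ} (haa : a ≤ a') (hS : SeU μ a) : SeU μ a' := by
  obtain ⟨κ, c, C, hκ, hc, hC, h1⟩ := hS
  refine ⟨κ, c, C, hκ, hc, hC, fun v hv => (measureReal_mono ?_ (measure_ne_top _ _)).trans (h1 v hv)⟩
  intro w hw
  simp only [Set.mem_setOf_eq] at hw ⊢
  have : (dd 0 v : ℝ) ^ a ≤ (dd 0 v : ℝ) ^ a' :=
    Real.rpow_le_rpow_of_exponent_le (by exact_mod_cast dd_pos hv) haa
  linarith

lemma SeU_two (h : Shape μ) : SeU μ 2 := by
  obtain ⟨C, hC, h1⟩ := Q69.FL.of_ev_exp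
    (P := fun v => nu.real {w | mz μ v + (dd 0 v : ℝ) ^ (2:ℝ) < TT (pw w) 0 v})
    (fun v => measureReal_le_one) (κ := 1 / 2) (C := 1) (by norm_num) one_pos (by
      filter_upwards [eventually_ge_atTop 3, Q69.FL.absorb 1 (Real.log_pos one_lt_two)
        (show (0:ℝ) < 1 / 2 by norm_num) (show (1:ℝ) / 2 < 1 by norm_num)] with n hn e1 z hz
      have hn0 : (3:ℝ) ≤ n := by exact_mod_cast hn
      have h2 : nu.real {w | mz μ z + (dd 0 z : ℝ) ^ (2:ℝ) < TT (pw w) 0 z} ≤ (1 / 2) ^ n := by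
        refine (measureReal_mono ?_ (measure_ne_top _ _)).trans (straight hz.le)
        intro w hw
        simp only [Set.mem_setOf_eq] at hw ⊢
        rw [hz, Real.rpow_two] at hw
        nlinarith [mz_nonneg h z]
      refine h2.trans ?_
      rw [Q69.FL.half_exp, one_mul]
      refine le_trans ?_ e1
      rw [Real.rpow_one, one_mul]
      have h4 : (1:ℝ) ≤ (n:ℝ) ^ 4 := one_le_pow₀ (by linarith)
      have h5 := Real.exp_pos (-(Real.log 2 * (n:ℝ)))
      nlinarith)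
  exact ⟨1 / 2, 1, C, by norm_num, one_pos, hC, fun v _ => by rw [one_mul]; exact h1 v⟩

/-- the bound is uniform over the smaller distances -/
lemma unifU (h : Shape μ) {a : ℝ} (ha : 0 < a) (hS : SeU μ a) :
    ∃ κ c C : ℝ, 0 < κ ∧ 0 < c ∧ 0 < C ∧ ∀ m : ℕ, 1 ≤ m → ∀ z, dd 0 z ≤ m →
      nu.real {w | mz μ z + (m:ℝ) ^ a < TT (pw w) 0 z} ≤ C * Real.exp (-(c * (m:ℝ) ^ κ)) := by
  obtain ⟨κ0, c, C, hκ0, hc, hC, hS⟩ := hS
  set κ : ℝ := min κ0 1 with hκ
  have hκp : 0 < κ := lt_min hκ0 one_pos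
  have hκ1 : κ ≤ 1 := min_le_right _ _
  have hS2 : ∀ v : ℤ × ℤ, v ≠ 0 → nu.real {w | mz μ v + (dd 0 v : ℝ) ^ a < TT (pw w) 0 v} ≤
      C * Real.exp (-(c * (dd 0 v : ℝ) ^ κ)) := by
    intro v hv
    refine (hS v hv).trans ?_
    have hn : (1:ℝ) ≤ dd 0 v := by exact_mod_cast dd_pos hv
    have := Real.rpow_le_rpow_of_exponent_le hn (min_le_left κ0 1)
    gcongr
  have hlog : 0 < Real.log 2 := Real.log_pos one_lt_two
  have hmin : 0 < min a 1 := lt_min ha one_pos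
  set c' : ℝ := min (c / 3 ^ κ) (Real.log 2 / 3) with hc'
  have hc'0 : 0 < c' := lt_min (by positivity) (by positivity)
  refine ⟨min a 1 * κ, c', C + 2, by positivity, hc'0, by positivity, fun m hm z hz => ?_⟩
  have hm1 : (1:ℝ) ≤ m := by exact_mod_cast hm
  have hm0 : (0:ℝ) < m := by linarith
  set u : ℝ := (m:ℝ) ^ (min a 1) with hu
  have hu1 : 1 ≤ u := Real.one_le_rpow hm1 hmin.le
  have hu0 : 0 < u := by linarith
  have hua : u ≤ (m:ℝ) ^ a := Real.rpow_le_rpow_of_exponent_le hm1 (min_le_left _ _)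
  have e1 : (m:ℝ) ^ (min a 1 * κ) = u ^ κ := by rw [hu, ← Real.rpow_mul hm0.le]
  rw [e1]
  have hE := Real.exp_pos (-(c' * u ^ κ))
  by_cases hcase : (dd 0 z : ℝ) ≤ u / 3
  · set k := ⌊u / 3⌋₊ with hk
    have h3 : dd 0 z ≤ k := Nat.le_floor hcase
    have h4 : (k:ℝ) ≤ u / 3 := Nat.floor_le (by positivity)
    have h5 : u / 3 < k + 1 := Nat.lt_floor_add_one _
    have h6 : nu.real {w | mz μ z + (m:ℝ) ^ a < TT (pw w) 0 z} ≤ (1 / 2) ^ k := by
      refine (measureReal_mono ?_ (measure_ne_top _ _)).trans (straight h3)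
      intro w hw
      simp only [Set.mem_setOf_eq] at hw ⊢
      linarith [mz_nonneg h z]
    have h7 : ((1:ℝ) / 2) ^ k ≤ 2 * Real.exp (-(c' * u ^ κ)) := by
      have f1 : ((1:ℝ) / 2) ^ k = 2 * Real.exp (-(Real.log 2 * (k + 1))) := by
        have := Q69.FL.half_exp (k + 1)
        push_cast at this
        rw [← this, pow_succ]
        ring
      rw [f1]
      have f2 : u ^ κ ≤ u := by
        calc u ^ κ ≤ u ^ (1:ℝ) := Real.rpow_le_rpow_of_exponent_le hu1 hκ1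
          _ = u := Real.rpow_one u
      have f3 : c' * u ^ κ ≤ Real.log 2 * (k + 1) := by
        calc c' * u ^ κ ≤ (Real.log 2 / 3) * u := by
              have := min_le_right (c / 3 ^ κ) (Real.log 2 / 3)
              gcongr
          _ = Real.log 2 * (u / 3) := by ring
          _ ≤ _ := by gcongr
      gcongr
    have h8 : 0 ≤ C * Real.exp (-(c' * u ^ κ)) := by positivity
    rw [add_mul]
    linarith
  · push Not at hcase
    have hz0 : z ≠ 0 := by
      rintro rfl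
      rw [dd_self] at hcase
      simp only [Nat.cast_zero] at hcase
      linarith
    have h3 : nu.real {w | mz μ z + (m:ℝ) ^ a < TT (pw w) 0 z} ≤
        nu.real {w | mz μ z + (dd 0 z : ℝ) ^ a < TT (pw w) 0 z} := by
      refine measureReal_mono ?_ (measure_ne_top _ _)
      intro w hw
      simp only [Set.mem_setOf_eq] at hw ⊢
      have : (dd 0 z : ℝ) ^ a ≤ (m:ℝ) ^ a :=
        Real.rpow_le_rpow (by positivity) (by exact_mod_cast hz) ha.le
      linarith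
    have h4 : c' * u ^ κ ≤ c * (dd 0 z : ℝ) ^ κ := by
      calc c' * u ^ κ ≤ (c / 3 ^ κ) * u ^ κ := by
            have := min_le_left (c / 3 ^ κ) (Real.log 2 / 3)
            gcongr
        _ = c * (u / 3) ^ κ := by
            rw [Real.div_rpow hu0.le (by norm_num)]
            ring
        _ ≤ _ := by
            have := Real.rpow_le_rpow (by positivity) hcase.le hκp.le
            gcongr
    have h5 : C * Real.exp (-(c * (dd 0 z : ℝ) ^ κ)) ≤ C * Real.exp (-(c' * u ^ κ)) := by gcongr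
    rw [add_mul]
    linarith [hS2 z hz0]

lemma stepU (h : Shape μ) {a a' b x : ℝ} (ha : 0 < a) (hb : 0 < b) (hb1 : b ≤ 1)
    (hx0 : 0 < x) (hx1 : x < 1) (h1 : x * a < a') (h2 : 1 - x + x * b < a')
    (hT : HH μ b) (hS : SeU μ a) : SeU μ a' := by
  set δ : ℝ := (1 + a) / (x * b) with hδ
  have hδ0 : 0 < δ := by positivity
  have hxδ : x * (δ * b) = 1 + a := by rw [hδ]; field_simp
  have h3 : 1 - x + x * (a - δ * b) < a' := by nlinarith
  obtain ⟨κ1, c1, C1, hκ1, hc1, hC1, hU1⟩ := unifU h ha hS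
  obtain ⟨C2, hC2, hU2⟩ := unif h hb hδ0 (hT δ hδ0)
  obtain ⟨C3, hC3, hP3⟩ := half_poly (δ * b) (by positivity)
  set ε : ℝ := (a' - x * a) / 2 with hε
  have hε0 : 0 < ε := by rw [hε]; linarith
  rw [min_eq_left hb1] at hU2
  have hlog : 0 < Real.log 2 := Real.log_pos one_lt_two
  set κ : ℝ := min (min (x * κ1) x) ε / 2 with hκ
  have hmin0 : 0 < min (min (x * κ1) x) ε := lt_min (lt_min (by positivity) hx0) hε0
  have hκ0 : 0 < κ := by positivity
  have k1 : κ < x * κ1 := by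
    have := (min_le_left (min (x * κ1) x) ε).trans (min_le_left _ _)
    linarith
  have k2 : κ < x := by
    have := (min_le_left (min (x * κ1) x) ε).trans (min_le_right _ _)
    linarith
  have k3 : κ < ε := by
    have := min_le_right (min (x * κ1) x) ε
    linarith
  obtain ⟨C', hC', hfin⟩ := Q69.FL.of_ev_exp
    (P := fun v => nu.real {w | mz μ v + (dd 0 v : ℝ) ^ a' < TT (pw w) 0 v})
    (fun v => measureReal_le_one) (κ := κ) (C := 3) hκ0 (by norm_num) (by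
    filter_upwards [eventually_ge_atTop 1, pow_small (K := 12) (show 1 - x < a' by nlinarith [mul_pos hx0 hb]),
      pow_small (K := 3200 * 4 ^ b) h2, pow_small (K := 3200 * 4 ^ a * (C2 + 2 * C3)) h3,
      pow_small (K := 800 * 4 ^ a) (show x * a + ε < a' by rw [hε]; linarith),
      Q69.FL.absorb (2 * C1) hc1 hκ0 k1, Q69.FL.absorb 4 hlog hκ0 k2,
      Q69.FL.absorb 800 one_pos hκ0 k3]
      with n hn s1 s2 s3 s4 q1 q2 q3 z hz
    have hn1 : (1:ℝ) ≤ n := by exact_mod_cast hn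
    have hn0 : (0:ℝ) < n := by linarith
    have hn4 : (n:ℝ) ≤ (n:ℝ) ^ 4 := by
      calc (n:ℝ) = (n:ℝ) ^ 1 := (pow_one _).symm
        _ ≤ _ := pow_le_pow_right₀ hn1 (by norm_num)
    have hn41 : (1:ℝ) ≤ (n:ℝ) ^ 4 := one_le_pow₀ hn1
    set u : ℝ := (n:ℝ) ^ x with hu
    have hu1 : 1 ≤ u := Real.one_le_rpow hn1 hx0.le
    have hu0 : 0 < u := by linarith
    have hun : u ≤ n := by
      calc u ≤ (n:ℝ) ^ (1:ℝ) := Real.rpow_le_rpow_of_exponent_le hn1 hx1.le
        _ = n := Real.rpow_one _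
    set m : ℕ := ⌈u⌉₊ with hm
    have hmu : u ≤ m := Nat.le_ceil u
    have hmu2 : (m:ℝ) < u + 1 := Nat.ceil_lt_add_one hu0.le
    have hm1 : 1 ≤ m := Nat.one_le_iff_ne_zero.2 (by
      intro h0
      rw [h0] at hmu
      simp only [Nat.cast_zero] at hmu
      linarith)
    have hmn : m ≤ n := Nat.ceil_le.2 hun
    set N : ℕ := (n + m - 1) / m with hN
    have hdm := Nat.div_add_mod (n + m - 1) m
    have hml := Nat.mod_lt (n + m - 1) (show 0 < m by omega)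
    rw [← hN] at hdm
    have hN1 : n ≤ N * m := by rw [mul_comm]; omega
    have hN2 : N * m ≤ 2 * n := by rw [mul_comm]; omega
    have hN0 : 1 ≤ N := Nat.one_le_iff_ne_zero.2 (by
      intro h0
      rw [h0, zero_mul] at hN1
      omega)
    have hNr : (N:ℝ) ≤ 2 * (n:ℝ) ^ (1 - x) := by
      have e1 : (N:ℝ) * m ≤ 2 * n := by exact_mod_cast hN2
      have e2 : (N:ℝ) * u ≤ 2 * n := (mul_le_mul_of_nonneg_left hmu (Nat.cast_nonneg _)).trans e1
      rw [Real.rpow_sub hn0, Real.rpow_one, ← hu, mul_div_assoc', le_div_iff₀ hu0]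
      exact e2
    have hNn : (N:ℝ) ≤ 2 * n := by
      refine hNr.trans ?_
      have : (n:ℝ) ^ (1 - x) ≤ (n:ℝ) ^ (1:ℝ) := Real.rpow_le_rpow_of_exponent_le hn1 (by linarith)
      rw [Real.rpow_one] at this
      linarith
    set M : ℝ := ((m + 2 : ℕ) : ℝ) with hM
    have hMu : u ≤ M := by rw [hM]; push_cast; linarith
    have hM4 : M ≤ 4 * u := by rw [hM]; push_cast; linarith
    have hM0 : 0 < M := by linarith
    have hB : M ^ a ≤ 4 ^ a * (n:ℝ) ^ (x * a) := by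
      calc M ^ a ≤ (4 * u) ^ a := Real.rpow_le_rpow hM0.le hM4 ha.le
        _ = _ := by rw [Real.mul_rpow (by norm_num) hu0.le, hu, ← Real.rpow_mul hn0.le]
    have hD : M ^ b ≤ 4 ^ b * (n:ℝ) ^ (x * b) := by
      calc M ^ b ≤ (4 * u) ^ b := Real.rpow_le_rpow hM0.le hM4 hb.le
        _ = _ := by rw [Real.mul_rpow (by norm_num) hu0.le, hu, ← Real.rpow_mul hn0.le]
    have hneg : ∀ r : ℝ, 0 < r → M ^ (-r) ≤ (n:ℝ) ^ (-(x * r)) := by
      intro r hr
      refine (Real.rpow_le_rpow_of_nonpos hu0 hMu (by linarith)).trans (le_of_eq ?_)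
      rw [hu, ← Real.rpow_mul hn0.le]; congr 1; ring
    have hneg' : ∀ r : ℝ, 0 < r → (((m + 2 : ℕ) : ℝ) + 1) ^ (-r) ≤ (n:ℝ) ^ (-(x * r)) := by
      intro r hr
      refine le_trans ?_ (hneg r hr)
      exact Real.rpow_le_rpow_of_nonpos hM0 (by rw [hM]; linarith) (by linarith)
    have hg2 : C2 * M ^ (-(δ * b)) + 2 * (1 / 2) ^ (m + 2) ≤ (C2 + 2 * C3) * (n:ℝ) ^ (-(x * (δ * b))) := by
      have e1 := hP3 (m + 2)
      have e2 := hneg (δ * b) (by positivity)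
      have e3 := hneg' (δ * b) (by positivity)
      have e4 : C2 * M ^ (-(δ * b)) ≤ C2 * (n:ℝ) ^ (-(x * (δ * b))) := by gcongr
      have e5 : C3 * (((m + 2 : ℕ) : ℝ) + 1) ^ (-(δ * b)) ≤ C3 * (n:ℝ) ^ (-(x * (δ * b))) := by gcongr
      linarith
    have hblock := block h hz hN0 hN1 hN2 hm1 (B := M ^ a) (D := M ^ b)
      (g1 := C1 * Real.exp (-(c1 * M ^ κ1))) (g2 := C2 * M ^ (-(δ * b)))
      (by positivity) (by positivity) (fun v hv => hU1 (m + 2) (by omega) v hv)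
      (fun v hv => hU2 (m + 2) (by omega) v hv) ((n:ℝ) ^ ε)
    have hfl : 6 * (N:ℝ) + 800 * (2 * N * (M ^ b + M ^ a * (C2 * M ^ (-(δ * b)) + 2 * (1 / 2) ^ (m + 2)))
        + M ^ a * (n:ℝ) ^ ε) ≤ (n:ℝ) ^ a' := by
      have e1 : M ^ a * (C2 * M ^ (-(δ * b)) + 2 * (1 / 2) ^ (m + 2)) ≤
          (4 ^ a * (n:ℝ) ^ (x * a)) * ((C2 + 2 * C3) * (n:ℝ) ^ (-(x * (δ * b)))) := by gcongr
      have e2 : 2 * (N:ℝ) * (M ^ b + M ^ a * (C2 * M ^ (-(δ * b)) + 2 * (1 / 2) ^ (m + 2))) ≤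
          2 * (2 * (n:ℝ) ^ (1 - x)) * (4 ^ b * (n:ℝ) ^ (x * b) +
            (4 ^ a * (n:ℝ) ^ (x * a)) * ((C2 + 2 * C3) * (n:ℝ) ^ (-(x * (δ * b))))) := by gcongr
      have e3 : M ^ a * (n:ℝ) ^ ε ≤ (4 ^ a * (n:ℝ) ^ (x * a)) * (n:ℝ) ^ ε := by gcongr
      have e4 : (n:ℝ) ^ (1 - x) * (n:ℝ) ^ (x * b) = (n:ℝ) ^ (1 - x + x * b) := by rw [← Real.rpow_add hn0]
      have e5 : (n:ℝ) ^ (1 - x) * ((n:ℝ) ^ (x * a) * (n:ℝ) ^ (-(x * (δ * b)))) =
          (n:ℝ) ^ (1 - x + x * (a - δ * b)) := by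
        rw [← Real.rpow_add hn0, ← Real.rpow_add hn0]; congr 1; ring
      have e6 : (n:ℝ) ^ (x * a) * (n:ℝ) ^ ε = (n:ℝ) ^ (x * a + ε) := by rw [← Real.rpow_add hn0]
      have e7 : 2 * (2 * (n:ℝ) ^ (1 - x)) * (4 ^ b * (n:ℝ) ^ (x * b) +
            (4 ^ a * (n:ℝ) ^ (x * a)) * ((C2 + 2 * C3) * (n:ℝ) ^ (-(x * (δ * b))))) =
            4 * 4 ^ b * ((n:ℝ) ^ (1 - x) * (n:ℝ) ^ (x * b)) +
            4 * 4 ^ a * (C2 + 2 * C3) * ((n:ℝ) ^ (1 - x) * ((n:ℝ) ^ (x * a) * (n:ℝ) ^ (-(x * (δ * b))))) := by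
        ring
      have e8 : (4 ^ a * (n:ℝ) ^ (x * a)) * (n:ℝ) ^ ε = 4 ^ a * ((n:ℝ) ^ (x * a) * (n:ℝ) ^ ε) := by ring
      rw [e7, e4, e5] at e2
      rw [e8, e6] at e3
      linarith
    have hmono : nu.real {w | mz μ z + (dd 0 z : ℝ) ^ a' < TT (pw w) 0 z} ≤
        N * (C1 * Real.exp (-(c1 * M ^ κ1)) + 2 * (1 / 2) ^ (m + 2)) + 800 * Real.exp (-(n:ℝ) ^ ε) := by
      refine (measureReal_mono ?_ (measure_ne_top _ _)).trans hblock
      intro w hw
      simp only [Set.mem_setOf_eq] at hw ⊢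
      rw [hz] at hw
      linarith
    refine hmono.trans ?_
    have r1 : Real.exp (-(c1 * M ^ κ1)) ≤ Real.exp (-(c1 * (n:ℝ) ^ (x * κ1))) := by
      have : (n:ℝ) ^ (x * κ1) ≤ M ^ κ1 := by
        rw [Real.rpow_mul hn0.le, ← hu]
        exact Real.rpow_le_rpow hu0.le hMu hκ1.le
      gcongr
    have r2 : ((1:ℝ) / 2) ^ (m + 2) ≤ Real.exp (-(Real.log 2 * (n:ℝ) ^ x)) := by
      rw [Q69.FL.half_exp, ← hM, ← hu]
      gcongr
    have r3 : (N:ℝ) * (C1 * Real.exp (-(c1 * M ^ κ1)) + 2 * (1 / 2) ^ (m + 2)) ≤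
        (2 * (n:ℝ)) * (C1 * Real.exp (-(c1 * (n:ℝ) ^ (x * κ1))) +
          2 * Real.exp (-(Real.log 2 * (n:ℝ) ^ x))) := by gcongr
    have r4 : (2 * (n:ℝ)) * (C1 * Real.exp (-(c1 * (n:ℝ) ^ (x * κ1)))) ≤
        2 * C1 * (n:ℝ) ^ 4 * Real.exp (-(c1 * (n:ℝ) ^ (x * κ1))) := by
      have := mul_le_mul_of_nonneg_left hn4
        (show 0 ≤ 2 * C1 * Real.exp (-(c1 * (n:ℝ) ^ (x * κ1))) by positivity)
      linarith
    have r5 : (2 * (n:ℝ)) * (2 * Real.exp (-(Real.log 2 * (n:ℝ) ^ x))) ≤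
        4 * (n:ℝ) ^ 4 * Real.exp (-(Real.log 2 * (n:ℝ) ^ x)) := by
      have := mul_le_mul_of_nonneg_left hn4
        (show 0 ≤ 4 * Real.exp (-(Real.log 2 * (n:ℝ) ^ x)) by positivity)
      linarith
    have r6 : 800 * Real.exp (-(n:ℝ) ^ ε) ≤ 800 * (n:ℝ) ^ 4 * Real.exp (-(1 * (n:ℝ) ^ ε)) := by
      rw [one_mul]
      have := mul_le_mul_of_nonneg_left hn41
        (show 0 ≤ 800 * Real.exp (-(n:ℝ) ^ ε) by positivity)
      linarith
    rw [mul_add] at r3
    linarith)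
  exact ⟨κ, 1, C', hκ0, one_pos, hC', fun v _ => by rw [one_mul]; exact hfin v⟩

lemma iterU (h : Shape μ) {b : ℝ} (hb : 0 < b) (hb1 : b ≤ 1) (hT : HH μ b)
    {e : ℝ} (he0 : 0 < e) : SeU μ (b + e) := by
  set κ : ℝ := 1 / (1 + e) with hκ
  set κ' : ℝ := 1 / (1 + e / 2) with hκ'
  have hκ0 : 0 < κ := by positivity
  have hκ1 : κ < 1 := by rw [hκ, div_lt_one (by positivity)]; linarith
  have hκκ' : κ < κ' := by
    rw [hκ, hκ']
    exact one_div_lt_one_div_of_lt (by positivity) (by linarith)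
  have hκ'1 : κ' < 1 := by rw [hκ', div_lt_one (by positivity)]; linarith
  have hκ'0 : 0 < κ' := by positivity
  have hid : 1 - κ = κ * e := by rw [hκ]; field_simp; ring
  have key : ∀ k : ℕ, SeU μ (max (2 * κ' ^ k) (b + e)) := by
    intro k
    induction k with
    | zero =>
      refine SeU_mono ?_ (SeU_two h)
      simp
    | succ k ih =>
      rcases le_total (2 * κ' ^ k) (b + e) with hc | hc
      · rw [max_eq_right hc] at ih
        exact SeU_mono (le_max_right _ _) ih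
      · rw [max_eq_left hc] at ih
        refine SeU_mono (le_max_left _ _) ?_
        have ha : 0 < 2 * κ' ^ k := by positivity
        rw [pow_succ, ← mul_assoc]
        generalize 2 * κ' ^ k = a at *
        refine stepU h (b := b) (x := κ) ha hb hb1 hκ0 hκ1 ?_ ?_ hT ih
        · rw [mul_comm a]; exact mul_lt_mul_of_pos_right hκκ' ha
        · rw [hid]
          calc κ * e + κ * b = κ * (b + e) := by ring
            _ ≤ κ * a := by gcongr
            _ < a * κ' := by rw [mul_comm a]; exact mul_lt_mul_of_pos_right hκκ' ha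
  have hlim : Tendsto (fun k : ℕ => 2 * κ' ^ k) atTop (𝓝 (2 * 0)) :=
    (tendsto_pow_atTop_nhds_zero_of_lt_one hκ'0.le hκ'1).const_mul 2
  rw [mul_zero] at hlim
  obtain ⟨k, hk⟩ := (hlim.eventually (gt_mem_nhds (show 0 < b + e by positivity))).exists
  have := key k
  rwa [max_eq_right hk.le] at this

/-- rapid bounds at all exponents above `b` are stretched exponential bounds -/
lemma boostU (h : Shape μ) {b : ℝ} (hb : 0 < b) (hb1 : b < 1) (hT : ∀ a, b < a → HH μ a) {a : ℝ}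
    (ha : b < a) : SeU μ a := by
  set b' : ℝ := b + min ((a - b) / 2) ((1 - b) / 2) with hb'
  have h0 : 0 < min ((a - b) / 2) ((1 - b) / 2) := lt_min (by linarith) (by linarith)
  have h1 := min_le_left ((a - b) / 2) ((1 - b) / 2)
  have h2 := min_le_right ((a - b) / 2) ((1 - b) / 2)
  have := iterU h (b := b') (by linarith) (by linarith) (hT b' (by linarith))
    (show 0 < a - b' by linarith)
  rwa [add_sub_cancel] at this

end Q70.Fp
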