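import Pool.Agent.Q70.FpO

/-!
# First passage percolation: exponential moments of the upper deviations
-/

set_option autoImplicit false

open MeasureTheory ProbabilityTheory Finset Filter
open scoped Topology

namespace Q70.Fp

variable {μ : ℝ × ℝ → ℝ}

lemma indep_disj {f g : (Ed → ℝ) → ℝ} (S T : Finset Ed) (hST : Disjoint S T)
    (hf : Measurable f) (hg : Measurable g)
    (hfS : ∀ w w', (∀ e ∈ S, w e = w' e) → f w = f w')
    (hgT : ∀ w w', (∀ e ∈ T, w e = w' e) → g w = g w') : IndepFun f g nu := by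
  have hind : iIndepFun (fun (e : Ed) (w : Ed → ℝ) => w e) nu :=
    iIndepFun_infinitePi (P := fun _ => expMeasure 1) (X := fun _ x => x) (fun _ => measurable_id)
  have h1 := hind.indepFun_finset S T hST (fun e => measurable_pi_apply e)
  let ext (U : Finset Ed) : (U → ℝ) → (Ed → ℝ) := fun u e => if h : e ∈ U then u ⟨e, h⟩ else 0
  have hext : ∀ U, Measurable (ext U) := by
    intro U
    refine measurable_pi_iff.2 fun e => ?_
    by_cases h : e ∈ U
    · simp only [ext, h, dif_pos]; exact measurable_pi_apply _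
    · simp only [ext, h, dif_neg, not_false_eq_true]; exact measurable_const
  have h2 := h1.comp (hf.comp (hext S)) (hg.comp (hext T))
  have e1 : (f ∘ ext S) ∘ (fun (a : Ed → ℝ) (i : S) => a i) = f := by
    funext w
    refine hfS _ _ fun e he => ?_
    simp [ext, he]
  have e2 : (g ∘ ext T) ∘ (fun (a : Ed → ℝ) (i : T) => a i) = g := by
    funext w
    refine hgT _ _ fun e he => ?_
    simp [ext, he]
  rwa [e1, e2] at h2

lemma integrable_prod_disj {ι : Type*} [DecidableEq ι] (I : Finset ι) (S : ι → Finset Ed)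
    (f : ι → (Ed → ℝ) → ℝ) (hf : ∀ i, Measurable (f i)) (hi : ∀ i, Integrable (f i) nu)
    (hd : ∀ i w w', (∀ e ∈ S i, w e = w' e) → f i w = f i w')
    (hdisj : ∀ i ∈ I, ∀ j ∈ I, i ≠ j → Disjoint (S i) (S j)) :
    Integrable (fun w => ∏ i ∈ I, f i w) nu := by
  induction I using Finset.induction_on with
  | empty => simp
  | insert j I hj ih =>
    simp only [Finset.prod_insert hj]
    have h1 : IndepFun (f j) (fun w => ∏ i ∈ I, f i w) nu := by
      refine indep_disj (S j) (I.biUnion S) ?_ (hf j) (Finset.measurable_fun_prod _ fun i _ => hf i)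
        (hd j) ?_
      · rw [Finset.disjoint_biUnion_right]
        intro i hi
        exact hdisj j (Finset.mem_insert_self _ _) i (Finset.mem_insert_of_mem hi)
          (fun h => hj (h ▸ hi))
      · intro w w' h
        refine Finset.prod_congr rfl fun i hi => hd i _ _ fun e he => h e ?_
        exact Finset.mem_biUnion.2 ⟨i, hi, he⟩
    exact h1.integrable_mul (hi j)
      (ih fun i hi k hk => hdisj i (Finset.mem_insert_of_mem hi) k (Finset.mem_insert_of_mem hk))

/-- exponential moment of the upper deviation -/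
noncomputable def uq (μ : ℝ × ℝ → ℝ) (θ : ℝ) (v : ℤ × ℤ) : ℝ :=
  ∫ w, Real.exp (θ * (TT (pw w) 0 v - mz μ v)) ∂nu

lemma int_TTexp {θ : ℝ} (hθ : 0 ≤ θ) (hθ1 : θ ≤ 1 / 2) (x y : ℤ × ℤ) (c : ℝ) :
    Integrable (fun w => Real.exp (θ * (TT (pw w) x y - c))) nu := by
  obtain ⟨S, h1, h2, -, h3, -⟩ := exists_major x y
  refine (h3.const_mul (Real.exp (-(θ * c)))).mono'
    (((measurable_TT x y).sub_const c).const_mul θ).exp.aestronglyMeasurable
    (Eventually.of_forall fun w => ?_)
  rw [Real.norm_eq_abs, Real.abs_exp, ← Real.exp_add]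
  refine Real.exp_le_exp.2 ?_
  have e1 := TT_nonneg (pw_nonneg w) x y
  have e2 : θ * TT (pw w) x y ≤ 1 / 2 * S w := mul_le_mul hθ1 (h2 w) e1 (by norm_num)
  linarith

lemma uq_nonneg (θ : ℝ) (v : ℤ × ℤ) : 0 ≤ uq μ θ v := integral_nonneg fun w => (Real.exp_pos _).le

lemma uq_sh (θ : ℝ) (x y : ℤ × ℤ) :
    ∫ w, Real.exp (θ * (TT (pw w) x y - mz μ (y - x))) ∂nu = uq μ θ (y - x) := by
  have hm : Measurable (sh x) := measurable_pi_iff.2 fun e => measurable_pi_apply _
  have hm2 : Measurable (fun w : Ed → ℝ => Real.exp (θ * (TT (pw w) 0 (y - x) - mz μ (y - x)))) :=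
    (((measurable_TT _ _).sub_const _).const_mul θ).exp
  unfold uq
  conv_rhs => rw [← map_sh x]
  rw [integral_map hm.aemeasurable hm2.aestronglyMeasurable]
  refine integral_congr_ae (Eventually.of_forall fun w => ?_)
  simp only [TT_sh]
  simp

lemma uq_small (h : Shape μ) {θ : ℝ} (hθ : 0 ≤ θ) (hθ1 : θ ≤ 1 / 2) (v : ℤ × ℤ) :
    uq μ θ v ≤ Real.exp (2 * θ * dd 0 v) := by
  obtain ⟨p, hp, hinj⟩ := exists_geo' 0 v
  have h1 := mgf_Wt hinj θ (by linarith)
  unfold mgf at h1
  have h2 : uq μ θ v ≤ ((1 - θ)⁻¹) ^ dd 0 v := by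
    rw [← h1]
    refine integral_mono (int_TTexp hθ hθ1 0 v _) (int_Wt hinj θ (by linarith)) fun w => ?_
    simp only
    refine Real.exp_le_exp.2 ?_
    have e1 := TT_le (pw_nonneg w) hp
    have e2 := mz_nonneg h v
    exact mul_le_mul_of_nonneg_left (by linarith) hθ
  refine h2.trans ?_
  have h3 : (1 - θ)⁻¹ ≤ Real.exp (2 * θ) := by
    rw [inv_le_iff_one_le_mul₀ (by linarith)]
    have := Real.add_one_le_exp (2 * θ)
    nlinarith
  calc ((1 - θ)⁻¹) ^ dd 0 v ≤ Real.exp (2 * θ) ^ dd 0 v :=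
        pow_le_pow_left₀ (inv_nonneg.2 (by linarith)) h3 _
    _ = _ := by rw [← Real.exp_nat_mul]; congr 1; ring

/-- the local passage time of a block -/
lemma block_int (h : Shape μ) {τ : ℝ} (h0 : 0 ≤ τ) (h1 : τ ≤ 1 / 4) {x y : ℤ × ℤ} {m : ℕ}
    (hm : dd x y ≤ m) :
    Integrable (fun w => Real.exp (τ * (TB (pw w) (66 * m) x y - mz μ (y - x)))) nu ∧
    ∫ w, Real.exp (τ * (TB (pw w) (66 * m) x y - mz μ (y - x))) ∂nu ≤ uq μ τ (y - x) + 3 / 2 := by
  obtain ⟨S, s1, s2, s3, s4, s5⟩ := exists_major x y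
  have hmz := mz_nonneg h (y - x)
  have hSn : ∀ w, 0 ≤ S w := fun w => (TT_nonneg (pw_nonneg w) x y).trans (s2 w)
  have hTB : ∀ w, TB (pw w) (66 * m) x y ≤ S w := s3 (66 * m) (hm.trans (by omega))
  have hmeas : Measurable (fun w : Ed → ℝ => Real.exp (τ * (TB (pw w) (66 * m) x y - mz μ (y - x)))) :=
    (((measurable_TB _ x y).sub_const _).const_mul τ).exp
  have hle : ∀ w, Real.exp (τ * (TB (pw w) (66 * m) x y - mz μ (y - x))) ≤ Real.exp (1 / 2 * S w) := by
    intro w
    refine Real.exp_le_exp.2 ?_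
    have e1 := hTB w
    have e2 := hSn w
    have e3 : τ * (TB (pw w) (66 * m) x y - mz μ (y - x)) ≤ τ * S w :=
      mul_le_mul_of_nonneg_left (by linarith) h0
    nlinarith
  have hint : Integrable (fun w => Real.exp (τ * (TB (pw w) (66 * m) x y - mz μ (y - x)))) nu := by
    refine s4.mono' hmeas.aestronglyMeasurable (Eventually.of_forall fun w => ?_)
    rw [Real.norm_eq_abs, Real.abs_exp]
    exact hle w
  refine ⟨hint, ?_⟩
  set A : Set (Ed → ℝ) := {w | TT (pw w) x y < TB (pw w) (66 * m) x y} with hA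
  have hAm : MeasurableSet A := measurableSet_lt (measurable_TT x y) (measurable_TB _ x y)
  have hP : nu.real A ≤ 2 * (1 / 2) ^ m := local_le hm
  have i1 := int_TTexp h0 (show τ ≤ 1 / 2 by linarith) x y (mz μ (y - x))
  have hpt : ∀ w, Real.exp (τ * (TB (pw w) (66 * m) x y - mz μ (y - x))) ≤
      Real.exp (τ * (TT (pw w) x y - mz μ (y - x))) +
      (A.indicator (fun _ => (2:ℝ) ^ m / 2) w + (1 / 2) ^ m / 2 * Real.exp (1 / 2 * S w)) := by
    intro w
    have p0 := Real.exp_pos (τ * (TT (pw w) x y - mz μ (y - x)))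
    have p1 := Real.exp_pos (1 / 2 * S w)
    by_cases hw : w ∈ A
    · rw [Set.indicator_of_mem hw]
      have e1 : Real.exp (τ * (TB (pw w) (66 * m) x y - mz μ (y - x))) ≤ Real.exp (1 / 4 * S w) := by
        refine Real.exp_le_exp.2 ?_
        have e2 := hSn w
        have e3 : τ * (TB (pw w) (66 * m) x y - mz μ (y - x)) ≤ τ * S w :=
          mul_le_mul_of_nonneg_left (by linarith [hTB w]) h0
        nlinarith
      set q : ℝ := Real.exp (1 / 4 * S w) with hq
      have e4 : Real.exp (1 / 2 * S w) = q ^ 2 := by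
        rw [hq, ← Real.exp_nat_mul]; congr 1; push_cast; ring
      have e5 : ((1:ℝ) / 2) ^ m * 2 ^ m = 1 := by rw [← mul_pow]; norm_num
      rw [e4]
      have e6 : q ≤ (2:ℝ) ^ m / 2 + (1 / 2) ^ m / 2 * q ^ 2 := by
        have e7 : 0 ≤ ((1:ℝ) / 2) ^ m / 2 * (q - 2 ^ m) ^ 2 := by positivity
        have e8 : ((1:ℝ) / 2) ^ m / 2 * (q - 2 ^ m) ^ 2 =
            (1 / 2) ^ m / 2 * q ^ 2 - ((1 / 2) ^ m * 2 ^ m) * q + ((1 / 2) ^ m * 2 ^ m) * (2 ^ m / 2) := by
          ring
        rw [e8, e5] at e7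
        linarith
      linarith
    · rw [Set.indicator_of_notMem hw]
      have e1 : TB (pw w) (66 * m) x y ≤ TT (pw w) x y := by
        simp only [hA, Set.mem_setOf_eq, not_lt] at hw
        exact hw
      have e2 : Real.exp (τ * (TB (pw w) (66 * m) x y - mz μ (y - x))) ≤
          Real.exp (τ * (TT (pw w) x y - mz μ (y - x))) := by gcongr
      have e3 : 0 ≤ ((1:ℝ) / 2) ^ m / 2 * Real.exp (1 / 2 * S w) := by positivity
      linarith
  have i2 : Integrable (fun w => A.indicator (fun _ => (2:ℝ) ^ m / 2) w +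
      (1 / 2) ^ m / 2 * Real.exp (1 / 2 * S w)) nu :=
    ((integrable_const _).indicator hAm).add (s4.const_mul _)
  calc _ ≤ ∫ w, (Real.exp (τ * (TT (pw w) x y - mz μ (y - x))) +
      (A.indicator (fun _ => (2:ℝ) ^ m / 2) w + (1 / 2) ^ m / 2 * Real.exp (1 / 2 * S w))) ∂nu :=
        integral_mono hint (i1.add i2) hpt
    _ = uq μ τ (y - x) + (nu.real A * ((2:ℝ) ^ m / 2) + (1 / 2) ^ m / 2 * 2 ^ dd x y) := by
        rw [integral_add i1 i2, uq_sh, integral_add ((integrable_const _).indicator hAm)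
          (s4.const_mul _), integral_const_mul, s5, integral_indicator_const _ hAm, smul_eq_mul]
    _ ≤ uq μ τ (y - x) + ((2 * (1 / 2) ^ m) * ((2:ℝ) ^ m / 2) + (1 / 2) ^ m / 2 * 2 ^ m) := by
        have : (2:ℝ) ^ dd x y ≤ 2 ^ m := pow_le_pow_right₀ (by norm_num) hm
        gcongr
    _ = uq μ τ (y - x) + 3 / 2 * ((1 / 2) ^ m * 2 ^ m) := by ring
    _ = _ := by rw [← mul_pow]; norm_num

/-- the exponential moments along a chain of blocks -/
lemma chainU (h : Shape μ) {z : ℤ × ℤ} {n m N : ℕ} (hn : dd 0 z = n) (hN : 1 ≤ N)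
    (h1 : n ≤ N * m) (h2 : N * m ≤ 2 * n) (hm : 1 ≤ m) {τ C : ℝ} (hτ0 : 0 ≤ τ) (hτ1 : τ ≤ 1 / 4)
    (hC : ∀ u, dd 0 u ≤ m + 2 → uq μ τ u ≤ C) :
    uq μ (τ / 800) z ≤ (3 * (C + 3 / 2)) ^ N := by
  classical
  obtain ⟨K, hK⟩ : ∃ K : ℕ, K = 800 := ⟨_, rfl⟩
  set R := 66 * (m + 2) with hR
  set x := pt z N with hx
  have hC0 : 0 ≤ C := (uq_nonneg τ 0).trans (hC 0 (by rw [dd_self]; omega))
  let Y : ℕ → (Ed → ℝ) → ℝ := fun i w => TB (pw w) R (x i) (x (i + 1)) - mz μ (x (i + 1) - x i)
  have hdd : ∀ i, dd (x i) (x (i + 1)) ≤ m + 2 := by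
    intro i
    have e1 := (pt_dd z hN (Nat.le_succ i)).1
    have e2 : i.succ - i = 1 := by omega
    rw [e2, hn, one_mul] at e1
    have e3 : N * dd (x i) (x (i + 1)) ≤ N * (m + 2) := by
      refine e1.trans ?_
      rw [mul_add]; omega
    exact Nat.le_of_mul_le_mul_left e3 hN
  have hdd0 : ∀ i, dd 0 (x (i + 1) - x i) ≤ m + 2 := by
    intro i
    have e1 := dd_add 0 (x (i + 1) - x i) (x i)
    rw [zero_add, sub_add_cancel] at e1
    rw [← e1]; exact hdd i
  have hYm : ∀ i, Measurable (Y i) := fun i => (measurable_TB _ _ _).sub_const _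
  have hb : ∀ i, Integrable (fun w => Real.exp (τ * Y i w)) nu ∧
      ∫ w, Real.exp (τ * Y i w) ∂nu ≤ C + 3 / 2 := by
    intro i
    obtain ⟨b1, b2⟩ := block_int h hτ0 hτ1 (hdd i)
    exact ⟨b1, b2.trans (by linarith [hC _ (hdd0 i)])⟩
  have hdep : ∀ i w w', (∀ e ∈ be R (x i), w e = w' e) → Real.exp (τ * Y i w) = Real.exp (τ * Y i w') := by
    intro i w w' hw
    simp only [Y]
    rw [TB_dep hw]
  have hdisj : ∀ r, ∀ i ∈ (range N).filter (fun i => i % K = r), ∀ j ∈ (range N).filter (fun i => i % K = r),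
      i ≠ j → Disjoint (be R (x i)) (be R (x j)) := by
    intro r
    have key : ∀ i j, i < j → i % K = r → j % K = r → Disjoint (be R (x i)) (be R (x j)) := by
      intro i j hij hi hj
      refine be_disj ?_
      have e1 := (pt_dd z hN hij.le).2
      rw [hn] at e1
      rw [hK] at hi hj
      have e2 : 800 ≤ j - i := by omega
      have e3 : 800 * n ≤ (j - i) * n := Nat.mul_le_mul_right n e2
      have e4 : N * (2 * R) < N * dd (x i) (x j) := by
        have e5 : N * (2 * R) = 132 * (N * m) + 264 * N := by rw [hR]; ring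
        have e6 : N ≤ N * m := Nat.le_mul_of_pos_right N hm
        have e7 : (j - i) * n ≤ N * dd (x i) (x j) + 2 * N := e1
        generalize N * m = u at *
        generalize N * dd (x i) (x j) = v at *
        generalize (j - i) * n = t at *
        omega
      exact Nat.lt_of_mul_lt_mul_left e4
    intro i hi j hj hij
    simp only [Finset.mem_filter, Finset.mem_range] at hi hj
    rcases lt_or_gt_of_ne hij with h3 | h3
    · exact key i j h3 hi.2 hj.2
    · exact (key j i h3 hj.2 hi.2).symm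
  -- the sums over a class
  have hcls : ∀ r, Integrable (fun w => ∏ i ∈ (range N).filter (fun i => i % K = r),
        Real.exp (τ * Y i w)) nu ∧
      ∫ w, ∏ i ∈ (range N).filter (fun i => i % K = r), Real.exp (τ * Y i w) ∂nu ≤
        (C + 3 / 2) ^ N := by
    intro r
    refine ⟨integrable_prod_disj _ (fun i => be R (x i)) (fun i w => Real.exp (τ * Y i w))
      (fun i => ((hYm i).const_mul τ).exp) (fun i => (hb i).1) hdep (hdisj r), ?_⟩
    rw [integral_prod_disj _ (fun i => be R (x i)) (fun i w => Real.exp (τ * Y i w))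
      (fun i => ((hYm i).const_mul τ).exp) hdep (hdisj r)]
    calc _ ≤ ∏ _i ∈ (range N).filter (fun i => i % K = r), (C + 3 / 2) :=
          Finset.prod_le_prod (fun i _ => integral_nonneg fun w => (Real.exp_pos _).le)
            fun i _ => (hb i).2
      _ = (C + 3 / 2) ^ ((range N).filter (fun i => i % K = r)).card := by rw [Finset.prod_const]
      _ ≤ _ := by
          refine pow_le_pow_right₀ (by linarith) ?_
          have := Finset.card_filter_le (range N) (fun i => i % K = r)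
          rwa [Finset.card_range] at this
  have hN0 : (0:ℝ) < N := by exact_mod_cast hN
  have d3 : ∑ i ∈ range N, mz μ (x (i + 1) - x i) ≤ mz μ z + 6 * N := by
    calc _ ≤ ∑ _i ∈ range N, ((mz μ z + 6 * N) / N) := Finset.sum_le_sum fun i _ => by
          rw [le_div_iff₀ hN0, mul_comm]; exact pt_mz h z hN i
      _ = _ := by rw [Finset.sum_const, Finset.card_range, nsmul_eq_mul]; field_simp
  have hpt : ∀ w, Real.exp (τ / 800 * (TT (pw w) 0 z - mz μ z)) ≤ Real.exp N *
      ∑ r ∈ range K, (1 / 800) * ∏ i ∈ (range N).filter (fun i => i % K = r), Real.exp (τ * Y i w) := by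
    intro w
    have d1 : TT (pw w) 0 z ≤ ∑ i ∈ range N, TT (pw w) (x i) (x (i + 1)) := by
      have := TT_chain (pw_nonneg w) x N
      rwa [hx, pt_zero, pt_last z hN] at this
    have d2 : ∀ i ∈ range N, TT (pw w) (x i) (x (i + 1)) ≤ mz μ (x (i + 1) - x i) + Y i w := by
      intro i hi
      have e2 : TT (pw w) (x i) (x (i + 1)) ≤ TB (pw w) R (x i) (x (i + 1)) :=
        TT_le_TB (pw_nonneg w) ((hdd i).trans (by rw [hR]; omega))
      simp only [Y]
      linarith
    have d5 := d1.trans (Finset.sum_le_sum d2)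
    rw [Finset.sum_add_distrib] at d5
    have d6 : ∑ i ∈ range N, Y i w = ∑ r ∈ range K, ∑ i ∈ (range N).filter (fun i => i % K = r), Y i w :=
      (Finset.sum_fiberwise_of_maps_to (s := range N) (t := range K) (g := fun i => i % K)
        (fun i _ => Finset.mem_range.2 (Nat.mod_lt _ (by omega))) _).symm
    have d7 : τ / 800 * (TT (pw w) 0 z - mz μ z) ≤ N + ∑ r ∈ range K, (1 / 800 : ℝ) •
        (τ * ∑ i ∈ (range N).filter (fun i => i % K = r), Y i w) := by
      have e1 : τ / 800 * (TT (pw w) 0 z - mz μ z) ≤ τ / 800 * (6 * N + ∑ i ∈ range N, Y i w) :=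
        mul_le_mul_of_nonneg_left (by linarith) (by positivity)
      have e2 : τ / 800 * (6 * N) ≤ N := by
        have e0 : τ / 800 * 6 ≤ 1 := by linarith
        calc τ / 800 * (6 * N) = (τ / 800 * 6) * N := by ring
          _ ≤ 1 * N := mul_le_mul_of_nonneg_right e0 hN0.le
          _ = N := one_mul _
      have e3 : τ / 800 * ∑ i ∈ range N, Y i w = ∑ r ∈ range K, (1 / 800 : ℝ) •
        (τ * ∑ i ∈ (range N).filter (fun i => i % K = r), Y i w) := by
        rw [d6, Finset.mul_sum]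
        refine Finset.sum_congr rfl fun r _ => ?_
        rw [smul_eq_mul]
        ring
      rw [← e3]
      rw [mul_add] at e1
      linarith
    have d8 := convexOn_exp.map_sum_le (t := range K) (w := fun _ => (1 / 800 : ℝ))
      (p := fun r => τ * ∑ i ∈ (range N).filter (fun i => i % K = r), Y i w)
      (fun i _ => by norm_num) (by rw [Finset.sum_const, Finset.card_range, hK, nsmul_eq_mul]; norm_num)
      (fun i _ => Set.mem_univ _)
    calc _ ≤ Real.exp (N + ∑ r ∈ range K, (1 / 800 : ℝ) •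
        (τ * ∑ i ∈ (range N).filter (fun i => i % K = r), Y i w)) := Real.exp_le_exp.2 d7
      _ = Real.exp N * Real.exp (∑ r ∈ range K, (1 / 800 : ℝ) •
        (τ * ∑ i ∈ (range N).filter (fun i => i % K = r), Y i w)) := Real.exp_add _ _
      _ ≤ Real.exp N * ∑ r ∈ range K, (1 / 800 : ℝ) •
        Real.exp (τ * ∑ i ∈ (range N).filter (fun i => i % K = r), Y i w) :=
          mul_le_mul_of_nonneg_left d8 (Real.exp_pos _).le
      _ = _ := by
          congr 1
          refine Finset.sum_congr rfl fun r _ => ?_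
          rw [smul_eq_mul, Finset.mul_sum, Real.exp_sum]
  have hexp3 : Real.exp (N:ℝ) ≤ 3 ^ N := by
    have e1 : Real.exp (N:ℝ) = Real.exp 1 ^ N := by rw [← Real.exp_nat_mul, mul_one]
    rw [e1]
    exact pow_le_pow_left₀ (Real.exp_pos _).le (by linarith [Real.exp_one_lt_d9]) N
  unfold uq
  calc _ ≤ ∫ w, Real.exp N * ∑ r ∈ range K, (1 / 800) *
        ∏ i ∈ (range N).filter (fun i => i % K = r), Real.exp (τ * Y i w) ∂nu := by
        refine integral_mono (int_TTexp (by positivity) (by linarith) 0 z _) ?_ hpt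
        exact (integrable_finset_sum _ fun r _ => ((hcls r).1.const_mul _)).const_mul _
    _ = Real.exp N * ∑ r ∈ range K, (1 / 800) *
        ∫ w, ∏ i ∈ (range N).filter (fun i => i % K = r), Real.exp (τ * Y i w) ∂nu := by
        rw [integral_const_mul, integral_finset_sum _ fun r _ => ((hcls r).1.const_mul _)]
        simp_rw [integral_const_mul]
    _ ≤ Real.exp N * ∑ _r ∈ range K, (1 / 800) * (C + 3 / 2) ^ N := by
        refine mul_le_mul_of_nonneg_left (Finset.sum_le_sum fun r _ => ?_) (Real.exp_pos _).le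
        exact mul_le_mul_of_nonneg_left (hcls r).2 (by norm_num)
    _ = Real.exp N * (C + 3 / 2) ^ N := by
        rw [Finset.sum_const, Finset.card_range, nsmul_eq_mul, hK]
        push_cast
        ring
    _ ≤ 3 ^ N * (C + 3 / 2) ^ N := by gcongr
    _ = _ := by rw [mul_pow]

end Q70.Fp
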