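import Pool.Agent.Q70.FpP

/-!
# First passage percolation: upper exponential moments at all scales
-/

set_option autoImplicit false

open MeasureTheory ProbabilityTheory Finset Filter
open scoped Topology

namespace Q70.Fp

variable {μ : ℝ × ℝ → ℝ}

/-- exponential moments at the scale `|v| ^ β` -/
def UU (μ : ℝ × ℝ → ℝ) (β : ℝ) : Prop := ∃ C : ℝ, 1 ≤ C ∧ ∀ (v : ℤ × ℤ) (θ : ℝ), 0 ≤ θ →
  θ ≤ ((dd 0 v : ℝ) + 1) ^ (-β) / 4 → uq μ θ v ≤ C

lemma UU_mono {β β' : ℝ} (hb : β ≤ β') (hE : UU μ β) : UU μ β' := by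
  obtain ⟨C, hC, h1⟩ := hE
  refine ⟨C, hC, fun v θ h0 h2 => h1 v θ h0 (h2.trans ?_)⟩
  have := Real.rpow_le_rpow_of_exponent_le (x := (dd 0 v : ℝ) + 1)
    (by linarith [Nat.cast_nonneg (α := ℝ) (dd 0 v)]) (show -β' ≤ -β by linarith)
  linarith

lemma UU_one (h : Shape μ) : UU μ 1 := by
  refine ⟨Real.exp 1, Real.one_le_exp (by norm_num), fun v θ h0 h1 => ?_⟩
  have hd : (0:ℝ) ≤ dd 0 v := Nat.cast_nonneg _
  have hθ1 : θ ≤ 1 / 2 := by
    have := Real.rpow_le_one_of_one_le_of_nonpos (x := (dd 0 v : ℝ) + 1) (z := -1) (by linarith)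
      (by norm_num)
    linarith
  refine (uq_small h h0 hθ1 v).trans (Real.exp_le_exp.2 ?_)
  have h2 : θ * ((dd 0 v : ℝ) + 1) ≤ 1 / 4 := by
    rw [Real.rpow_neg_one] at h1
    calc θ * ((dd 0 v : ℝ) + 1) ≤ ((dd 0 v : ℝ) + 1)⁻¹ / 4 * ((dd 0 v : ℝ) + 1) := by gcongr
      _ = _ := by field_simp
  nlinarith

lemma all_scalesU (h : Shape μ) {β : ℝ} (hβ : 0 ≤ β) (hE : UU μ β) :
    ∃ K : ℝ, 0 < K ∧ ∀ m t : ℝ, 1 ≤ m → 0 ≤ t → t ≤ (5 * m) ^ (-β) / 3200 → ∀ z,
      uq μ t z ≤ Real.exp (K * ((dd 0 z : ℝ) / m + 1)) := by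
  obtain ⟨C, hC, hE⟩ := hE
  have hL1 : 1 ≤ 3 * (C + 3 / 2) := by linarith
  have hL0 : 0 < 3 * (C + 3 / 2) := by linarith
  have hL : 0 ≤ Real.log (3 * (C + 3 / 2)) := Real.log_nonneg hL1
  refine ⟨Real.log (3 * (C + 3 / 2)) + 1, by linarith, fun m t hm h0 h1 z => ?_⟩
  have hm0 : 0 < m := by linarith
  have hpw : (5 * m) ^ (-β) ≤ 1 := Real.rpow_le_one_of_one_le_of_nonpos (by linarith) (by linarith)
  set m' : ℕ := ⌈m⌉₊ with hm'
  have hm1 : m ≤ m' := Nat.le_ceil m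
  have hm2 : (m':ℝ) < m + 1 := Nat.ceil_lt_add_one hm0.le
  have hm3 : 1 ≤ m' := by
    have : (1:ℝ) ≤ m' := by linarith
    exact_mod_cast this
  have hd : (0:ℝ) ≤ (dd 0 z : ℝ) / m := by positivity
  have small : ∀ (u : ℤ × ℤ) (τ : ℝ), dd 0 u ≤ m' + 2 → 0 ≤ τ → τ ≤ (5 * m) ^ (-β) / 4 →
      uq μ τ u ≤ C := by
    intro u τ hu hτ0 hτ1
    refine hE u τ hτ0 (hτ1.trans ?_)
    have e1 : (dd 0 u : ℝ) ≤ m' + 2 := by exact_mod_cast hu
    have := Real.rpow_le_rpow_of_nonpos (show (0:ℝ) < (dd 0 u : ℝ) + 1 by positivity)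
      (show (dd 0 u : ℝ) + 1 ≤ 5 * m by linarith) (show -β ≤ 0 by linarith)
    linarith
  have hpos : (0:ℝ) ≤ (5 * m) ^ (-β) := by positivity
  by_cases hcase : dd 0 z < m'
  · refine (small z t (by omega) h0 (by linarith)).trans ?_
    calc C ≤ 3 * (C + 3 / 2) := by linarith
      _ = Real.exp (Real.log (3 * (C + 3 / 2))) := (Real.exp_log hL0).symm
      _ ≤ _ := Real.exp_le_exp.2 (by nlinarith)
  · push Not at hcase
    set n : ℕ := dd 0 z with hn
    set N : ℕ := (n + m' - 1) / m' with hN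
    have hdm := Nat.div_add_mod (n + m' - 1) m'
    have hml := Nat.mod_lt (n + m' - 1) (show 0 < m' by omega)
    rw [← hN] at hdm
    have hN1 : n ≤ N * m' := by rw [mul_comm]; omega
    have hN2 : N * m' ≤ 2 * n := by rw [mul_comm]; omega
    have hN3 : N * m' ≤ n + m' := by rw [mul_comm]; omega
    have hN0 : 1 ≤ N := Nat.one_le_iff_ne_zero.2 (by
      intro h0
      rw [h0, zero_mul] at hN1
      omega)
    have key := chainU h (n := n) (m := m') (N := N) hn.symm hN0 hN1 hN2 hm3 (τ := 800 * t) (C := C)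
      (by positivity) (by linarith) (fun u hu => small u _ hu (by positivity) (by linarith))
    rw [mul_div_cancel_left₀ _ (by norm_num : (800:ℝ) ≠ 0)] at key
    refine key.trans ?_
    have e1 : (3 * (C + 3 / 2)) ^ N = Real.exp (N * Real.log (3 * (C + 3 / 2))) := by
      rw [Real.exp_nat_mul, Real.exp_log hL0]
    rw [e1]
    refine Real.exp_le_exp.2 ?_
    have e2 : (N:ℝ) ≤ (n:ℝ) / m + 1 := by
      have f1 : (N:ℝ) * m' ≤ n + m' := by exact_mod_cast hN3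
      have f2 : (0:ℝ) < m' := by linarith
      have f3 : (N:ℝ) ≤ (n:ℝ) / m' + 1 := by
        rw [div_add_one f2.ne', le_div_iff₀ f2]
        exact f1
      refine f3.trans ?_
      have : (n:ℝ) / m' ≤ (n:ℝ) / m := by gcongr
      linarith
    nlinarith

/-- splitting an exponential moment at two levels -/
lemma three_gen {X : (Ed → ℝ) → ℝ} (hX : Measurable X) {θ' θ s₁ s₂ : ℝ} (h0 : 0 ≤ θ') (h1 : θ' ≤ θ)
    (i1 : Integrable (fun w => Real.exp (θ' * X w)) nu) (i2 : Integrable (fun w => Real.exp (θ * X w)) nu) :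
    ∫ w, Real.exp (θ' * X w) ∂nu ≤ Real.exp (θ' * s₁) +
      Real.exp (θ' * s₂) * nu.real {w | s₁ < X w} +
      Real.exp (-((θ - θ') * s₂)) * ∫ w, Real.exp (θ * X w) ∂nu := by
  have hS : MeasurableSet {w : Ed → ℝ | s₁ < X w} := measurableSet_lt measurable_const hX
  have e2 : Real.exp (θ' * s₁) + Real.exp (θ' * s₂) * nu.real {w | s₁ < X w} +
      Real.exp (-((θ - θ') * s₂)) * ∫ w, Real.exp (θ * X w) ∂nu =
      ∫ w, (Real.exp (θ' * s₁) +
        Set.indicator {w | s₁ < X w} (fun _ => Real.exp (θ' * s₂)) w +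
        Real.exp (-((θ - θ') * s₂)) * Real.exp (θ * X w)) ∂nu := by
    rw [integral_add, integral_add, integral_const_mul, integral_indicator_const _ hS]
    · simp only [integral_const, smul_eq_mul, probReal_univ, one_mul]
      ring
    · exact integrable_const _
    · exact (integrable_const _).indicator hS
    · exact (integrable_const _).add ((integrable_const _).indicator hS)
    · exact i2.const_mul _
  rw [e2]
  refine integral_mono i1
    (((integrable_const _).add ((integrable_const _).indicator hS)).add (i2.const_mul _)) fun w => ?_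
  simp only
  have f2 : Real.exp (-((θ - θ') * s₂)) * Real.exp (θ * X w) = Real.exp (θ * X w - (θ - θ') * s₂) := by
    rw [← Real.exp_add]; congr 1; ring
  rw [f2]
  have p1 := Real.exp_pos (θ' * s₁)
  have p2 := Real.exp_pos (θ' * s₂)
  have p3 := Real.exp_pos (θ * X w - (θ - θ') * s₂)
  have hind : 0 ≤ Set.indicator {w | s₁ < X w} (fun _ => Real.exp (θ' * s₂)) w :=
    Set.indicator_nonneg (fun _ _ => p2.le) _
  by_cases c1 : X w ≤ s₁
  · have : Real.exp (θ' * X w) ≤ Real.exp (θ' * s₁) := by gcongr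
    linarith
  · push Not at c1
    by_cases c2 : X w ≤ s₂
    · have hmem : w ∈ {w | s₁ < X w} := c1
      rw [Set.indicator_of_mem hmem]
      have : Real.exp (θ' * X w) ≤ Real.exp (θ' * s₂) := by gcongr
      linarith
    · push Not at c2
      have : Real.exp (θ' * X w) ≤ Real.exp (θ * X w - (θ - θ') * s₂) := by
        refine Real.exp_le_exp.2 ?_
        have := mul_le_mul_of_nonneg_left c2.le (sub_nonneg.2 h1)
        linarith
      linarith

lemma UU_of_ev (h : Shape μ) {β C : ℝ} (hβ : 0 ≤ β) (hC : 1 ≤ C)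
    (H : ∀ᶠ n : ℕ in atTop, ∀ (v : ℤ × ℤ) (θ : ℝ), dd 0 v = n → 0 ≤ θ → θ ≤ (n:ℝ) ^ (-β) / 4 →
      uq μ θ v ≤ C) : UU μ β := by
  obtain ⟨n0, h0⟩ := eventually_atTop.1 H
  refine ⟨max C (Real.exp n0), le_max_of_le_left hC, fun v θ hθ h1 => ?_⟩
  have hd : (0:ℝ) ≤ dd 0 v := Nat.cast_nonneg _
  by_cases hc : n0 ≤ dd 0 v ∧ 1 ≤ dd 0 v
  · refine (h0 _ hc.1 v θ rfl hθ (h1.trans ?_)).trans (le_max_left _ _)
    have h2 : (0:ℝ) < dd 0 v := by exact_mod_cast hc.2
    have := Real.rpow_le_rpow_of_nonpos h2 (show (dd 0 v : ℝ) ≤ (dd 0 v : ℝ) + 1 by linarith)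
      (show -β ≤ 0 by linarith)
    linarith
  · have h2 : (dd 0 v : ℝ) ≤ n0 := by
      have : dd 0 v ≤ n0 := by
        by_contra hcon
        exact hc ⟨by omega, by omega⟩
      exact_mod_cast this
    have hθ1 : θ ≤ 1 / 4 := by
      have := Real.rpow_le_one_of_one_le_of_nonpos (x := (dd 0 v : ℝ) + 1) (z := -β) (by linarith)
        (by linarith)
      linarith
    refine (uq_small h hθ (by linarith) v).trans (le_max_of_le_right (Real.exp_le_exp.2 ?_))
    nlinarith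

lemma UU_step (h : Shape μ) {a β β' κ c C : ℝ} (ha : 0 < a) (hκ : 0 < κ) (hκ1 : κ ≤ 1) (hc : 0 < c)
    (hC : 0 < C) (hS : ∀ v : ℤ × ℤ, v ≠ 0 →
      nu.real {w | mz μ v + (dd 0 v : ℝ) ^ a < TT (pw w) 0 v} ≤ C * Real.exp (-(c * (dd 0 v : ℝ) ^ κ)))
    (hβ : 0 ≤ β) (hE : UU μ β) (h1 : a ≤ β') (h2 : β * (1 - κ / 2) < β') : UU μ β' := by
  obtain ⟨K, hK, hA⟩ := all_scalesU h hβ hE
  have hβ' : 0 < β' := lt_of_lt_of_le ha h1
  set x : ℝ := 1 - κ / 2 with hx
  have hx0 : 0 < x := by rw [hx]; linarith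
  have hx1 : x < 1 := by rw [hx]; linarith
  refine UU_of_ev h hβ'.le (C := Real.exp 1 + C + 1) (by
    have := Real.exp_pos 1
    linarith) ?_
  have s1 := pow_small (K := 1600 * 5 ^ β) (show -β' < -(x * β) by linarith)
  have s2 := pow_small (K := 2 * K * (6400 / (c * 5 ^ (-β)))) (show κ / 2 < κ by linarith)
  filter_upwards [s1, s2, eventually_ge_atTop 1] with n e1 e2 hn v θ' hv h0 hθ'
  have hn1 : (1:ℝ) ≤ n := by exact_mod_cast hn
  have hn0 : (0:ℝ) < n := by linarith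
  have hv0 : v ≠ 0 := by
    rintro rfl
    rw [dd_self] at hv
    omega
  set θ : ℝ := (5 * (n:ℝ) ^ x) ^ (-β) / 3200 with hθ
  have hθe : θ = 5 ^ (-β) * (n:ℝ) ^ (-(x * β)) / 3200 := by
    rw [hθ, Real.mul_rpow (by norm_num) (by positivity), ← Real.rpow_mul hn0.le]
    congr 3
    ring
  have h5 : (5:ℝ) ^ (-β) * 5 ^ β = 1 := by
    rw [← Real.rpow_add (by norm_num)]; simp
  have h5' : (0:ℝ) < 5 ^ (-β) := by positivity
  have hθθ : θ' ≤ θ / 2 := by
    refine hθ'.trans ?_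
    rw [hθe]
    have : (n:ℝ) ^ (-β') = 5 ^ (-β) * (1600 * 5 ^ β * (n:ℝ) ^ (-β')) / 1600 := by
      calc (n:ℝ) ^ (-β') = (5 ^ (-β) * 5 ^ β) * (n:ℝ) ^ (-β') := by rw [h5, one_mul]
        _ = _ := by ring
    rw [this]
    have e3 : 5 ^ (-β) * (1600 * 5 ^ β * (n:ℝ) ^ (-β')) ≤ 5 ^ (-β) * ((n:ℝ) ^ (-(x * β)) / 4) := by
      gcongr
    have e4 : 0 < 5 ^ (-β) * (n:ℝ) ^ (-(x * β)) := by positivity
    linarith
  have hθ0 : 0 < θ := by rw [hθe]; positivity
  have hθ2 : θ ≤ 1 / 2 := by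
    have := Real.rpow_le_one_of_one_le_of_nonpos (x := 5 * (n:ℝ) ^ x) (z := -β)
      (by linarith [Real.one_le_rpow hn1 hx0.le]) (by linarith)
    rw [hθ]
    linarith
  have key := three_gen (X := fun w => TT (pw w) 0 v - mz μ v) ((measurable_TT 0 v).sub_const _)
    (s₁ := (n:ℝ) ^ a) (s₂ := c * (n:ℝ) ^ (β' + κ)) h0
    (show θ' ≤ θ by linarith) (int_TTexp h0 (by linarith) 0 v _) (int_TTexp hθ0.le hθ2 0 v _)
  refine key.trans ?_
  -- first term
  have t0 : θ' ≤ (n:ℝ) ^ (-β') := by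
    have : 0 < (n:ℝ) ^ (-β') := by positivity
    linarith
  have t1 : Real.exp (θ' * (n:ℝ) ^ a) ≤ Real.exp 1 := by
    refine Real.exp_le_exp.2 ?_
    calc θ' * (n:ℝ) ^ a ≤ (n:ℝ) ^ (-β') * (n:ℝ) ^ a := by gcongr
      _ = (n:ℝ) ^ (a - β') := by rw [← Real.rpow_add hn0]; congr 1; ring
      _ ≤ 1 := Real.rpow_le_one_of_one_le_of_nonpos hn1 (by linarith)
  -- second term
  have t2 : Real.exp (θ' * (c * (n:ℝ) ^ (β' + κ))) *
      nu.real {w | (n:ℝ) ^ a < TT (pw w) 0 v - mz μ v} ≤ C := by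
    have f1 : θ' * (c * (n:ℝ) ^ (β' + κ)) ≤ c * (n:ℝ) ^ κ := by
      calc θ' * (c * (n:ℝ) ^ (β' + κ)) ≤ (n:ℝ) ^ (-β') * (c * (n:ℝ) ^ (β' + κ)) := by gcongr
        _ = c * ((n:ℝ) ^ (-β') * (n:ℝ) ^ (β' + κ)) := by ring
        _ = _ := by rw [← Real.rpow_add hn0]; congr 2; ring
    have f2 := hS v hv0
    rw [hv] at f2
    have f3 : {w : Ed → ℝ | (n:ℝ) ^ a < TT (pw w) 0 v - mz μ v} =
        {w | mz μ v + (n:ℝ) ^ a < TT (pw w) 0 v} := by
      ext w
      simp only [Set.mem_setOf_eq]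
      constructor <;> intro h <;> linarith
    rw [f3]
    calc _ ≤ Real.exp (c * (n:ℝ) ^ κ) * (C * Real.exp (-(c * (n:ℝ) ^ κ))) := by gcongr
      _ = C * (Real.exp (c * (n:ℝ) ^ κ) * Real.exp (-(c * (n:ℝ) ^ κ))) := by ring
      _ = C := by rw [← Real.exp_add, add_neg_cancel, Real.exp_zero, mul_one]
  -- third term
  have t3 : Real.exp (-((θ - θ') * (c * (n:ℝ) ^ (β' + κ)))) *
      ∫ w, Real.exp (θ * (TT (pw w) 0 v - mz μ v)) ∂nu ≤ 1 := by
    have f1 := hA ((n:ℝ) ^ x) θ (Real.one_le_rpow hn1 hx0.le) hθ0.le le_rfl v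
    rw [hv] at f1
    unfold uq at f1
    calc _ ≤ Real.exp (-((θ - θ') * (c * (n:ℝ) ^ (β' + κ)))) *
          Real.exp (K * ((n:ℝ) / (n:ℝ) ^ x + 1)) := by gcongr
      _ ≤ 1 := by
        rw [← Real.exp_add]
        refine Real.exp_le_one_iff.2 ?_
        have g1 : (n:ℝ) / (n:ℝ) ^ x = (n:ℝ) ^ (κ / 2) := by
          rw [div_eq_iff (by positivity), ← Real.rpow_add hn0, hx,
            show κ / 2 + (1 - κ / 2) = 1 by ring, Real.rpow_one]
        have g3 : (1:ℝ) ≤ (n:ℝ) ^ (κ / 2) := Real.one_le_rpow hn1 (by positivity)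
        have g4 : K * ((n:ℝ) / (n:ℝ) ^ x + 1) ≤ 2 * K * (n:ℝ) ^ (κ / 2) := by
          rw [g1]
          nlinarith
        have g5 : c * 5 ^ (-β) / 6400 * (n:ℝ) ^ κ ≤ (θ - θ') * (c * (n:ℝ) ^ (β' + κ)) := by
          have k1 : θ / 2 ≤ θ - θ' := by linarith
          calc c * 5 ^ (-β) / 6400 * (n:ℝ) ^ κ ≤ c * 5 ^ (-β) / 6400 * (n:ℝ) ^ (-(x * β) + (β' + κ)) := by
                have : κ ≤ -(x * β) + (β' + κ) := by linarith
                have := Real.rpow_le_rpow_of_exponent_le hn1 this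
                gcongr
            _ = (θ / 2) * (c * (n:ℝ) ^ (β' + κ)) := by
                rw [hθe, Real.rpow_add hn0]; ring
            _ ≤ _ := by gcongr
        have g6 : 2 * K * (n:ℝ) ^ (κ / 2) ≤ c * 5 ^ (-β) / 6400 * (n:ℝ) ^ κ := by
          have k2 : (0:ℝ) < c * 5 ^ (-β) / 6400 := by positivity
          have k3 : 2 * K * (n:ℝ) ^ (κ / 2) = c * 5 ^ (-β) / 6400 *
              (2 * K * (6400 / (c * 5 ^ (-β))) * (n:ℝ) ^ (κ / 2)) := by
            field_simp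
          rw [k3]
          have k4 : 0 < (n:ℝ) ^ κ := by positivity
          have : 2 * K * (6400 / (c * 5 ^ (-β))) * (n:ℝ) ^ (κ / 2) ≤ (n:ℝ) ^ κ := by linarith
          exact mul_le_mul_of_nonneg_left this k2.le
        linarith
  linarith

/-- stretched exponential bounds give exponential moments at all scales above `b` -/
lemma UU_all (h : Shape μ) {b : ℝ} (hb : 0 < b) (hS : ∀ a, b < a → SeU μ a) {a : ℝ} (ha : b < a) :
    UU μ a := by
  set a1 : ℝ := (a + b) / 2 with ha1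
  have h1 : b < a1 := by rw [ha1]; linarith
  have h2 : a1 < a := by rw [ha1]; linarith
  obtain ⟨κ0, c, C, hκ0, hc, hC, hS1⟩ := hS a1 h1
  set κ : ℝ := min κ0 1 with hκ
  have hκp : 0 < κ := lt_min hκ0 one_pos
  have hκ1 : κ ≤ 1 := min_le_right _ _
  have hS2 : ∀ v : ℤ × ℤ, v ≠ 0 →
      nu.real {w | mz μ v + (dd 0 v : ℝ) ^ a1 < TT (pw w) 0 v} ≤
        C * Real.exp (-(c * (dd 0 v : ℝ) ^ κ)) := by
    intro v hv
    refine (hS1 v hv).trans ?_
    have hn : (1:ℝ) ≤ dd 0 v := by exact_mod_cast dd_pos hv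
    have := Real.rpow_le_rpow_of_exponent_le hn (min_le_left κ0 1)
    gcongr
  have hr0 : 0 < 1 - κ / 4 := by linarith
  have hr1 : 1 - κ / 4 < 1 := by linarith
  have key : ∀ k : ℕ, UU μ (max a ((1 - κ / 4) ^ k)) := by
    intro k
    induction k with
    | zero => exact UU_mono (by rw [pow_zero]; exact le_max_right _ _) (UU_one h)
    | succ k ih =>
      have hpk : 0 < (1 - κ / 4) ^ k := by positivity
      have ha0 : 0 < a := by linarith
      refine UU_step h (by linarith) hκp hκ1 hc hC hS2 (le_max_of_le_left (by linarith)) ih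
        (le_max_of_le_left h2.le) ?_
      rcases le_total a ((1 - κ / 4) ^ k) with hh | hh
      · rw [max_eq_right hh]
        refine lt_of_lt_of_le ?_ (le_max_right _ _)
        rw [pow_succ]
        nlinarith
      · rw [max_eq_left hh]
        refine lt_of_lt_of_le ?_ (le_max_left _ _)
        nlinarith
  obtain ⟨k, hk⟩ := exists_pow_lt_of_lt_one (show 0 < a by linarith) hr1
  have := key k
  rwa [max_eq_left hk.le] at this

end Q70.Fp
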