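import Pool.Agent.Helper31.GZ.Brouwer

/-!
# The Poincaré–Miranda theorem
-/

set_option autoImplicit false

open Set Filter Topology

namespace Q70.Fs

/-- clamping to `[0, 1]` -/
noncomputable def cl (t : ℝ) : ℝ := max 0 (min 1 t)

theorem cl_mem (t : ℝ) : cl t ∈ Icc (0 : ℝ) 1 :=
  ⟨le_max_left _ _, max_le zero_le_one (min_le_left _ _)⟩

theorem cl_of_mem {t : ℝ} (h : t ∈ Icc (0 : ℝ) 1) : cl t = t := by
  unfold cl
  rw [min_eq_right h.2, max_eq_right h.1]

theorem continuous_cl : Continuous cl := continuous_const.max (continuous_const.min continuous_id)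

/-- The Poincaré–Miranda theorem. -/
theorem miranda (N : ℕ) (F : (Fin N → ℝ) → (Fin N → ℝ)) (hF : Continuous F) (c : Fin N → ℝ)
    (h0 : ∀ x : Fin N → ℝ, (∀ i, x i ∈ Icc (0 : ℝ) 1) → ∀ i, x i = 0 → F x i ≤ c i)
    (h1 : ∀ x : Fin N → ℝ, (∀ i, x i ∈ Icc (0 : ℝ) 1) → ∀ i, x i = 1 → c i ≤ F x i) :
    ∃ x : Fin N → ℝ, (∀ i, x i ∈ Icc (0 : ℝ) 1) ∧ F x = c := by
  set G : (Fin N → ℝ) → (Fin N → ℝ) := fun x i =>
    cl (cl (x i) - (F (fun j => cl (x j)) i - c i)) with hG
  have hGc : Continuous G := by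
    refine continuous_pi fun i => continuous_cl.comp ?_
    refine (continuous_cl.comp (continuous_apply i)).sub (Continuous.sub ?_ continuous_const)
    refine (continuous_apply i).comp (hF.comp ?_)
    exact continuous_pi fun j => continuous_cl.comp (continuous_apply j)
  obtain ⟨x, hx⟩ := Pool.Agent.Helper31.GZ.Brouwer.brouwer G hGc 1 (fun x => by
    rw [pi_norm_le_iff_of_nonneg zero_le_one]
    intro i
    have := cl_mem (cl (x i) - (F (fun j => cl (x j)) i - c i))
    rw [Real.norm_eq_abs, abs_of_nonneg this.1]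
    exact this.2)
  have hxm : ∀ i, x i ∈ Icc (0 : ℝ) 1 := by
    intro i
    rw [← hx]
    exact cl_mem _
  have hcl : (fun j => cl (x j)) = x := funext fun j => cl_of_mem (hxm j)
  refine ⟨x, hxm, funext fun i => ?_⟩
  have hxi : cl (x i - (F x i - c i)) = x i := by
    have h2 := congrFun hx i
    simp only [hG] at h2
    rw [hcl, cl_of_mem (hxm i)] at h2
    exact h2
  by_contra hne
  rcases lt_or_gt_of_ne hne with h | h
  · -- `F x i < c i`
    have h2 : x i = 1 := by
      by_contra h3
      have h4 : x i < 1 := lt_of_le_of_ne (hxm i).2 h3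
      have h5 : x i < cl (x i - (F x i - c i)) := by
        unfold cl
        refine lt_max_of_lt_right (lt_min h4 (by linarith))
      linarith
    linarith [h1 x hxm i h2]
  · have h2 : x i = 0 := by
      by_contra h3
      have h4 : 0 < x i := lt_of_le_of_ne (hxm i).1 (Ne.symm h3)
      have h5 : cl (x i - (F x i - c i)) < x i := by
        unfold cl
        exact max_lt h4 (lt_of_le_of_lt (min_le_right _ _) (by linarith))
      linarith
    linarith [h0 x hxm i h2]

end Q70.Fs
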