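import Mathlib

/-!
# The suspension flow of the shift on `[0, 1]^ℤ`
-/

set_option autoImplicit false

open Set Filter Topology

namespace Q70.Fs

/-- The cover `[0, 1]^ℤ × ℝ` of the suspension. -/
def Cv : Type := (ℤ → unitInterval) × ℝ

instance : TopologicalSpace Cv := inferInstanceAs (TopologicalSpace ((ℤ → unitInterval) × ℝ))
instance : T2Space Cv := inferInstanceAs (T2Space ((ℤ → unitInterval) × ℝ))
instance : LocallyCompactSpace Cv :=
  inferInstanceAs (LocallyCompactSpace ((ℤ → unitInterval) × ℝ))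
instance : SecondCountableTopology Cv :=
  inferInstanceAs (SecondCountableTopology ((ℤ → unitInterval) × ℝ))

/-- The shift of a sequence by `n`. -/
def sft (n : ℤ) (z : ℤ → unitInterval) : ℤ → unitInterval := fun k => z (n + k)

theorem continuous_sft (n : ℤ) : Continuous (sft n) :=
  continuous_pi fun k => continuous_apply (n + k)

/-- The action of `ℤ` on the cover, `n +ᵥ (z, t) = (σⁿ z, t - n)`. -/
instance : AddAction ℤ Cv where
  vadd n p := (sft n p.1, p.2 - n)
  zero_vadd p := by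
    change (sft 0 p.1, p.2 - ((0 : ℤ) : ℝ)) = p
    refine Prod.ext (funext fun k => ?_) ?_
    · simp [sft]
    · simp
  add_vadd m n p := by
    change (sft (m + n) p.1, p.2 - ((m + n : ℤ) : ℝ)) = (sft m (sft n p.1), p.2 - (n : ℝ) - m)
    refine Prod.ext (funext fun k => ?_) ?_
    · have h : m + n + k = n + (m + k) := by ring
      exact congrArg p.1 h
    · change p.2 - ((m + n : ℤ) : ℝ) = p.2 - (n : ℝ) - (m : ℝ)
      push_cast
      ring

/-- points of the cover -/
def mkC (z : ℤ → unitInterval) (t : ℝ) : Cv := (z, t)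

theorem vadd_def (n : ℤ) (z : ℤ → unitInterval) (t : ℝ) :
    n +ᵥ mkC z t = mkC (sft n z) (t - n) := rfl

instance : ContinuousConstVAdd ℤ Cv where
  continuous_const_vadd n := by
    change Continuous fun p : (ℤ → unitInterval) × ℝ => (sft n p.1, p.2 - (n : ℝ))
    exact ((continuous_sft n).comp continuous_fst).prodMk (continuous_snd.sub continuous_const)

instance : ProperlyDiscontinuousVAdd ℤ Cv where
  finite_disjoint_inter_image := by
    intro K L hK hL
    have hK2 : IsCompact (Prod.snd '' (K : Set ((ℤ → unitInterval) × ℝ))) :=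
      hK.image continuous_snd
    have hL2 : IsCompact (Prod.snd '' (L : Set ((ℤ → unitInterval) × ℝ))) :=
      hL.image continuous_snd
    obtain ⟨a, ha⟩ := hK2.isBounded.exists_norm_le
    obtain ⟨b, hb⟩ := hL2.isBounded.exists_norm_le
    refine (Set.finite_Icc (-⌈a + b⌉) ⌈a + b⌉).subset ?_
    intro n hn
    obtain ⟨q, ⟨p, hp, hpq⟩, hq⟩ : ((n +ᵥ ·) '' K ∩ L).Nonempty := hn
    have h1 : |p.2| ≤ a := ha _ ⟨p, hp, rfl⟩
    have h2 : |q.2| ≤ b := hb _ ⟨q, hq, rfl⟩
    have h3 : p.2 - n = q.2 := by rw [← hpq]; rfl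
    have h4 : |(n : ℝ)| ≤ a + b := by
      have : (n : ℝ) = p.2 - q.2 := by linarith
      rw [this]
      exact (abs_sub _ _).trans (add_le_add h1 h2)
    have h5 := Int.le_ceil (a + b)
    rw [abs_le] at h4
    refine ⟨?_, ?_⟩
    · have : (-⌈a + b⌉ : ℝ) ≤ n := by linarith [h4.1]
      exact_mod_cast this
    · have : (n : ℝ) ≤ ⌈a + b⌉ := by linarith [h4.2]
      exact_mod_cast this

/-- The suspension. -/
def Su : Type := Quotient (AddAction.orbitRel ℤ Cv)

instance : TopologicalSpace Su :=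
  inferInstanceAs (TopologicalSpace (Quotient (AddAction.orbitRel ℤ Cv)))
instance : T2Space Su := inferInstanceAs (T2Space (Quotient (AddAction.orbitRel ℤ Cv)))
instance : SecondCountableTopology Su :=
  ContinuousConstVAdd.secondCountableTopology (Γ := ℤ) (T := Cv)

/-- The projection to the suspension. -/
def mk (z : ℤ → unitInterval) (t : ℝ) : Su := Quotient.mk (AddAction.orbitRel ℤ Cv) (mkC z t)

theorem mk_eq_iff {z z' : ℤ → unitInterval} {t t' : ℝ} :
    mk z t = mk z' t' ↔ ∃ n : ℤ, z = sft n z' ∧ t = t' - n := by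
  change (Quotient.mk (AddAction.orbitRel ℤ Cv) (mkC z t) : Quotient (AddAction.orbitRel ℤ Cv)) =
    Quotient.mk (AddAction.orbitRel ℤ Cv) (mkC z' t') ↔ _
  rw [Quotient.eq, AddAction.orbitRel_apply, AddAction.mem_orbit_iff]
  constructor
  · rintro ⟨n, hn⟩
    rw [vadd_def] at hn
    have h1 := Prod.ext_iff.1 hn
    exact ⟨n, h1.1.symm, h1.2.symm⟩
  · rintro ⟨n, h1, h2⟩
    refine ⟨n, ?_⟩
    rw [vadd_def, h1, h2]

theorem mk_add_one (z : ℤ → unitInterval) (t : ℝ) : mk z (t + 1) = mk (sft 1 z) t := by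
  rw [mk_eq_iff]
  refine ⟨-1, ?_, by push_cast; ring⟩
  funext k
  simp [sft]

theorem mk_open : IsOpenQuotientMap fun p : (ℤ → unitInterval) × ℝ => mk p.1 p.2 :=
  AddAction.isOpenQuotientMap_quotientMk (Γ := ℤ) (T := Cv)

instance : CompactSpace Su := by
  have h1 : IsCompact ((univ : Set (ℤ → unitInterval)) ×ˢ Icc (0 : ℝ) 1) :=
    isCompact_univ.prod isCompact_Icc
  have h2 := h1.image mk_open.continuous
  constructor
  convert h2 using 1
  symm
  rw [eq_univ_iff_forall]
  intro q
  obtain ⟨⟨z, t⟩, rfl⟩ := mk_open.surjective q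
  refine ⟨(sft ⌊t⌋ z, t - ⌊t⌋), ⟨mem_univ _, ⟨by linarith [Int.floor_le t], by
    linarith [Int.lt_floor_add_one t]⟩⟩, ?_⟩
  exact mk_eq_iff.2 ⟨⌊t⌋, rfl, rfl⟩

instance : TopologicalSpace.MetrizableSpace Su :=
  TopologicalSpace.metrizableSpace_of_t3_secondCountable Su

/-- The suspension flow. -/
noncomputable def flow : Flow ℝ Su where
  toFun s := Quotient.lift (fun p : Cv => mk p.1 (p.2 + s)) (by
    intro p q h
    change AddAction.orbitRel ℤ Cv p q at h
    rw [AddAction.orbitRel_apply, AddAction.mem_orbit_iff] at h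
    obtain ⟨n, rfl⟩ := h
    refine mk_eq_iff.2 ⟨n, rfl, ?_⟩
    change q.2 - n + s = q.2 + s - n
    ring)
  cont' := by
    have h1 : IsOpenQuotientMap (Prod.map (id : ℝ → ℝ)
        (fun p : (ℤ → unitInterval) × ℝ => mk p.1 p.2)) :=
      IsOpenQuotientMap.id.prodMap mk_open
    rw [h1.isQuotientMap.continuous_iff]
    change Continuous fun q : ℝ × ((ℤ → unitInterval) × ℝ) => mk q.2.1 (q.2.2 + q.1)
    exact mk_open.continuous.comp ((continuous_fst.comp continuous_snd).prodMk
      ((continuous_snd.comp continuous_snd).add continuous_fst))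
  map_add' s t x := by
    obtain ⟨⟨z, r⟩, rfl⟩ := mk_open.surjective x
    change mk z (r + (s + t)) = mk z (r + t + s)
    congr 1
    ring
  map_zero' x := by
    obtain ⟨⟨z, r⟩, rfl⟩ := mk_open.surjective x
    change mk z (r + 0) = mk z r
    rw [add_zero]

theorem flow_mk (s : ℝ) (z : ℤ → unitInterval) (t : ℝ) : flow s (mk z t) = mk z (t + s) := rfl

theorem fixed_point_free (x : Su) : ∃ t : ℝ, flow t x ≠ x := by
  obtain ⟨⟨z, r⟩, rfl⟩ := mk_open.surjective x
  refine ⟨1 / 2, fun h => ?_⟩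
  change flow (1 / 2) (mk z r) = mk z r at h
  rw [flow_mk, mk_eq_iff] at h
  obtain ⟨n, -, h⟩ := h
  have h1 : (2 * n : ℤ) = -1 := by
    have : (2 * (n : ℝ)) = -1 := by linarith
    exact_mod_cast this
  omega

theorem flow_nat (n : ℕ) (z : ℤ → unitInterval) : flow n (mk z 0) = mk (sft n z) 0 := by
  rw [flow_mk, mk_eq_iff]
  refine ⟨-n, ?_, by push_cast; ring⟩
  funext k
  simp [sft]

end Q70.Fs
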