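import Pool.Agent.Q70.FsA
import Pool.Agent.Q70.FsB

/-!
# Every factor separating the two constant sequences has infinite entropy
-/

set_option autoImplicit false

open Set Filter Topology Dynamics UniformSpace
open scoped ENNReal Uniformity

namespace Q70.Fs

/-- the point of the unit interval given by a real number -/
noncomputable def pr (t : ℝ) : unitInterval := projIcc 0 1 zero_le_one t

theorem pr_zero : pr 0 = 0 := projIcc_left zero_le_one
theorem pr_one : pr 1 = 1 := projIcc_right zero_le_one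
theorem continuous_pr : Continuous pr := continuous_projIcc (h := zero_le_one)

/-- a continuous function on `[0, 1]^ℤ` is controlled by finitely many coordinates -/
theorem exists_window {h : (ℤ → unitInterval) → ℝ} (hh : Continuous h) {ε : ℝ} (hε : 0 < ε) :
    ∃ L : ℕ, ∀ z z' : ℤ → unitInterval, (∀ k : ℤ, -(L : ℤ) ≤ k → k ≤ L → z k = z' k) →
      |h z - h z'| < ε := by
  by_contra hno
  push Not at hno
  set C : ℕ → Set ((ℤ → unitInterval) × (ℤ → unitInterval)) := fun L =>
    {p | (∀ k : ℤ, -(L : ℤ) ≤ k → k ≤ L → p.1 k = p.2 k) ∧ ε ≤ |h p.1 - h p.2|} with hC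
  have hcl : ∀ L, IsClosed (C L) := by
    intro L
    have h1 : C L = (⋂ k : ℤ, ⋂ (_ : -(L : ℤ) ≤ k), ⋂ (_ : k ≤ L),
        {p : (ℤ → unitInterval) × (ℤ → unitInterval) | p.1 k = p.2 k}) ∩
        {p | ε ≤ |h p.1 - h p.2|} := by
      ext p
      simp only [hC, Set.mem_ofPred_eq, mem_inter_iff, mem_iInter]
    rw [h1]
    refine IsClosed.inter ?_ ?_
    · refine isClosed_iInter fun k => isClosed_iInter fun _ => isClosed_iInter fun _ => ?_
      exact isClosed_eq ((continuous_apply k).comp continuous_fst)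
        ((continuous_apply k).comp continuous_snd)
    · exact isClosed_le continuous_const
        (((hh.comp continuous_fst).sub (hh.comp continuous_snd)).abs)
  obtain ⟨p, hp⟩ : (⋂ L, C L).Nonempty := by
    refine IsCompact.nonempty_iInter_of_sequence_nonempty_isCompact_isClosed C ?_ ?_
      (hcl 0).isCompact hcl
    · rintro L p ⟨h1, h2⟩
      exact ⟨fun k hk1 hk2 => h1 k (by push_cast; linarith) (by push_cast; linarith), h2⟩
    · intro L
      obtain ⟨z, z', h1, h2⟩ := hno L
      exact ⟨(z, z'), h1, h2⟩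
  have h1 : p.1 = p.2 := by
    funext k
    have h2 := (mem_iInter.1 hp k.natAbs).1
    exact h2 k (by omega) (by omega)
  have h2 := (mem_iInter.1 hp 0).2
  rw [h1, sub_self, abs_zero] at h2
  linarith

open Classical in
/-- the block sequence -/
noncomputable def blk (L N : ℕ) (u : Fin N → ℝ) : ℤ → unitInterval := fun k =>
  if h : 0 ≤ (k + L) / (2 * L + 1) ∧ (k + L) / (2 * L + 1) < N then
    pr (u ⟨((k + L) / (2 * L + 1)).toNat, by omega⟩) else 0

theorem continuous_blk (L N : ℕ) : Continuous (blk L N) := by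
  refine continuous_pi fun k => ?_
  unfold blk
  by_cases h : 0 ≤ (k + L) / (2 * (L : ℤ) + 1) ∧ (k + L) / (2 * (L : ℤ) + 1) < N
  · simp only [h, and_self, dite_true]
    exact continuous_pr.comp (continuous_apply _)
  · simp only [h, dite_false]
    exact continuous_const

theorem blk_center (L N : ℕ) (u : Fin N → ℝ) (j : Fin N) {k : ℤ} (h1 : -(L : ℤ) ≤ k)
    (h2 : k ≤ L) : sft ((j : ℕ) * (2 * L + 1) : ℕ) (blk L N u) k = pr (u j) := by
  have h3 : ((((j : ℕ) * (2 * L + 1) : ℕ) : ℤ) + k + L) / (2 * (L : ℤ) + 1) = j := by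
    push_cast
    have h4 : (j : ℤ) * (2 * L + 1) + k + L = (k + L) + (j : ℤ) * (2 * L + 1) := by ring
    rw [h4, Int.add_mul_ediv_right _ _ (by omega), Int.ediv_eq_zero_of_lt (by omega) (by omega),
      zero_add]
  unfold sft blk
  have hj := j.2
  have h5 : 0 ≤ ((((j : ℕ) * (2 * L + 1) : ℕ) : ℤ) + k + L) / (2 * (L : ℤ) + 1) ∧
      ((((j : ℕ) * (2 * L + 1) : ℕ) : ℤ) + k + L) / (2 * (L : ℤ) + 1) < N := by
    rw [h3]
    omega
  rw [dif_pos h5]
  congr 2
  apply Fin.ext
  simp only [h3, Int.toNat_natCast]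

/-- many separated orbits force infinite entropy -/
theorem entropy_top {Y : Type*} [UniformSpace Y] {T : Y → Y} {M : ℕ} (hM : 0 < M)
    (h : ∀ K : ℕ, 0 < K → ∃ U ∈ 𝓤 Y, ∀ N : ℕ, ∃ y : (Fin N → Fin K) → Y,
      ∀ s s', s ≠ s' → Disjoint (ball (y s) (dynEntourage T U (N * M)))
        (ball (y s') (dynEntourage T U (N * M))) ∧ y s ≠ y s') :
    coverEntropy T univ = ⊤ := by
  classical
  rw [EReal.eq_top_iff_forall_lt]
  intro a
  obtain ⟨K, hK⟩ : ∃ K : ℕ, Real.exp ((a + 1) * M) < K := exists_nat_gt _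
  have hK0 : 0 < K := by
    have : (0 : ℝ) < K := (Real.exp_pos _).trans hK
    exact_mod_cast this
  obtain ⟨U, hU, hy⟩ := h K hK0
  refine lt_of_lt_of_le ?_ (netEntropyEntourage_le_coverEntropy (T := T) (F := univ) hU)
  have h1 : ((a + 1 : ℝ) : EReal) ≤ netEntropyEntourage T univ U := by
    unfold netEntropyEntourage ExpGrowth.expGrowthSup
    refine le_limsup_of_frequently_le ?_
    rw [frequently_atTop]
    intro n0
    refine ⟨(n0 + 1) * M, ?_, ?_⟩
    · nlinarith
    · obtain ⟨y, hy⟩ := hy (n0 + 1)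
      have hinj : Function.Injective y := by
        intro s s' hss
        by_contra hne
        exact (hy s s' hne).2 hss
      have hnet : IsDynNetIn T univ U ((n0 + 1) * M)
          ((Finset.univ.image y : Finset Y) : Set Y) := by
        refine ⟨subset_univ _, ?_⟩
        intro p hp q hq hpq
        rw [Finset.coe_image] at hp hq
        obtain ⟨s, -, rfl⟩ := hp
        obtain ⟨s', -, rfl⟩ := hq
        exact (hy s s' (fun hss => hpq (by rw [hss]))).1
      have hcard := hnet.card_le_netMaxcard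
      rw [Finset.card_image_of_injective _ hinj, Finset.card_univ, Fintype.card_fun,
        Fintype.card_fin, Fintype.card_fin] at hcard
      have h2 : ((Real.exp ((a + 1) * (((n0 + 1) * M : ℕ) : ℝ))).toNNReal : ℝ≥0∞) ≤
          ((netMaxcard T univ U ((n0 + 1) * M) : ℕ∞) : ℝ≥0∞) := by
        have h3 : (((K ^ (n0 + 1) : ℕ) : ℕ∞) : ℝ≥0∞) ≤
            ((netMaxcard T univ U ((n0 + 1) * M) : ℕ∞) : ℝ≥0∞) := by
          exact_mod_cast hcard
        refine le_trans ?_ h3
        have h4 : Real.exp ((a + 1) * (((n0 + 1) * M : ℕ) : ℝ)) ≤ (K : ℝ) ^ (n0 + 1) := by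
          have h5 : (a + 1) * (((n0 + 1) * M : ℕ) : ℝ) = ((n0 + 1 : ℕ) : ℝ) * ((a + 1) * M) := by
            push_cast
            ring
          rw [h5, Real.exp_nat_mul]
          exact pow_le_pow_left₀ (Real.exp_pos _).le hK.le _
        rw [← ENNReal.ofReal]
        refine (ENNReal.ofReal_le_ofReal h4).trans ?_
        rw [ENNReal.ofReal_pow (by positivity), ENNReal.ofReal_natCast]
        push_cast
        exact le_rfl
      rw [EReal.le_div_iff_mul_le (by exact_mod_cast Nat.mul_pos (Nat.succ_pos n0) hM)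
        (EReal.natCast_ne_top _)]
      refine le_trans ?_ (ENNReal.log_le_log h2)
      rw [ENNReal.log_pos_real (by simp [Real.exp_pos]) (by simp)]
      simp only [ENNReal.coe_toReal, Real.coe_toNNReal _ (Real.exp_pos _).le, Real.log_exp]
      rw [EReal.coe_mul]
      rfl
  refine lt_of_lt_of_le ?_ h1
  exact_mod_cast lt_add_one a

/-- The two constant points. -/
noncomputable def w0 : Su := mk (fun _ => 0) 0

/-- The two constant points. -/
noncomputable def w1 : Su := mk (fun _ => 1) 0

/-- Every factor of the suspension flow separating the two constant points has infinite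
entropy. -/
theorem factor_entropy {Y : Type*} [MetricSpace Y] (ψ : Flow ℝ Y) (π : Su → Y)
    (hπ : Continuous π) (heq : ∀ (t : ℝ) (x : Su), π (flow t x) = ψ t (π x))
    (hne : π w0 ≠ π w1) : coverEntropy (ψ 1) univ = ⊤ := by
  set d : ℝ := dist (π w1) (π w0) with hd
  have hd0 : 0 < d := dist_pos.2 hne.symm
  set g : Y → ℝ := fun y => dist y (π w0) / d with hg
  have hgc : Continuous g := (continuous_id.dist continuous_const).div_const d
  have hg0 : g (π w0) = 0 := by simp [hg]
  have hg1 : g (π w1) = 1 := by simp only [hg]; exact div_self hd0.ne'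
  set h : (ℤ → unitInterval) → ℝ := fun z => g (π (mk z 0)) with hh
  have hhc : Continuous h := by
    refine hgc.comp (hπ.comp ?_)
    exact mk_open.continuous.comp (continuous_id.prodMk continuous_const)
  obtain ⟨L, hL⟩ := exists_window hhc (ε := 1 / 4) (by norm_num)
  have hiter : ∀ (n : ℕ) (z : ℤ → unitInterval), (ψ 1)^[n] (π (mk z 0)) = π (mk (sft n z) 0) := by
    intro n z
    rw [← flow_nat, heq]
    generalize π (mk z 0) = y
    induction n with
    | zero => simp
    | succ n ih =>
      rw [Function.iterate_succ_apply', ih, ← ψ.map_add]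
      congr 1
      push_cast
      ring
  refine entropy_top (M := 2 * L + 1) (by omega) fun K hK => ?_
  have hKr : (0 : ℝ) < K := by exact_mod_cast hK
  refine ⟨{p | dist p.1 p.2 < d / (4 * K)}, Metric.dist_mem_uniformity (by positivity),
    fun N => ?_⟩
  -- solving for prescribed values
  set c : (Fin N → Fin K) → Fin N → ℝ := fun s j => 1 / 4 + (s j : ℕ) / (2 * K) with hc
  have hc1 : ∀ s j, 1 / 4 ≤ c s j ∧ c s j ≤ 3 / 4 := by
    intro s j
    have h1 : (0 : ℝ) ≤ (s j : ℕ) / (2 * K) := by positivity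
    have h2 : ((s j : ℕ) : ℝ) / (2 * K) ≤ 1 / 2 := by
      rw [div_le_iff₀ (by positivity)]
      have : ((s j : ℕ) : ℝ) ≤ K := by exact_mod_cast (s j).2.le
      linarith
    simp only [hc]
    constructor <;> linarith
  set F : (Fin N → ℝ) → (Fin N → ℝ) := fun u j =>
    h (sft ((j : ℕ) * (2 * L + 1) : ℕ) (blk L N u)) with hF
  have hFc : Continuous F := continuous_pi fun j =>
    hhc.comp ((continuous_sft _).comp (continuous_blk L N))
  have hFu : ∀ u j, |F u j - h (fun _ => pr (u j))| < 1 / 4 := fun u j =>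
    hL _ _ fun k hk1 hk2 => blk_center L N u j hk1 hk2
  have hsol : ∀ s, ∃ u : Fin N → ℝ, F u = c s := by
    intro s
    obtain ⟨u, -, hu⟩ := miranda N F hFc (c s) (by
      intro u _ j hj
      have h1 := hFu u j
      rw [hj, pr_zero] at h1
      have h2 : h (fun _ => 0) = 0 := hg0
      rw [h2, sub_zero] at h1
      linarith [(abs_lt.1 h1).2, (hc1 s j).1]) (by
      intro u _ j hj
      have h1 := hFu u j
      rw [hj, pr_one] at h1
      have h2 : h (fun _ => 1) = 1 := hg1
      rw [h2] at h1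
      linarith [(abs_lt.1 h1).1, (hc1 s j).2])
    exact ⟨u, hu⟩
  choose u hu using hsol
  have hkey : ∀ s s', s ≠ s' → ∃ j : Fin N, d / (2 * K) ≤
      dist ((ψ 1)^[(j : ℕ) * (2 * L + 1)] (π (mk (blk L N (u s)) 0)))
        ((ψ 1)^[(j : ℕ) * (2 * L + 1)] (π (mk (blk L N (u s')) 0))) := by
    intro s s' hss
    obtain ⟨j, hj⟩ := Function.ne_iff.1 hss
    refine ⟨j, ?_⟩
    rw [hiter, hiter]
    have h1 : F (u s) j = c s j := congrFun (hu s) j
    have h2 : F (u s') j = c s' j := congrFun (hu s') j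
    have h3 : 1 / (2 * (K : ℝ)) ≤ |c s j - c s' j| := by
      simp only [hc]
      have h4 : (1 : ℝ) / 4 + (s j : ℕ) / (2 * K) - (1 / 4 + (s' j : ℕ) / (2 * K)) =
          (((s j : ℕ) : ℝ) - (s' j : ℕ)) / (2 * K) := by ring
      rw [h4, abs_div, abs_of_pos (show (0 : ℝ) < 2 * K by positivity)]
      gcongr
      have h5 : (s j : ℕ) ≠ (s' j : ℕ) := fun h => hj (Fin.ext h)
      have h6 : (1 : ℤ) ≤ |((s j : ℕ) : ℤ) - (s' j : ℕ)| := by
        have : ((s j : ℕ) : ℤ) - (s' j : ℕ) ≠ 0 := by omega
        exact Int.one_le_abs this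
      exact_mod_cast h6
    rw [← h1, ← h2] at h3
    simp only [hF, hh, hg] at h3
    rw [← sub_div, abs_div, abs_of_pos hd0, div_le_div_iff₀ (by positivity) hd0, one_mul] at h3
    rw [div_le_iff₀ (by positivity)]
    exact h3.trans (mul_le_mul_of_nonneg_right (abs_dist_sub_le _ _ _) (by positivity))
  have hjN : ∀ j : Fin N, (j : ℕ) * (2 * L + 1) < N * (2 * L + 1) := fun j =>
    Nat.mul_lt_mul_of_pos_right j.2 (by omega)
  refine ⟨fun s => π (mk (blk L N (u s)) 0), fun s s' hss => ⟨?_, ?_⟩⟩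
  · rw [Set.disjoint_left]
    intro y h1 h2
    obtain ⟨j, hj⟩ := hkey s s' hss
    rw [mem_ball_dynEntourage] at h1 h2
    have h3 := h1 _ (hjN j)
    have h4 := h2 _ (hjN j)
    change dist _ _ < d / (4 * K) at h3 h4
    have h5 := dist_triangle_right ((ψ 1)^[(j : ℕ) * (2 * L + 1)] (π (mk (blk L N (u s)) 0)))
      ((ψ 1)^[(j : ℕ) * (2 * L + 1)] (π (mk (blk L N (u s')) 0)))
      ((ψ 1)^[(j : ℕ) * (2 * L + 1)] y)
    have h6 : d / (2 * K) = d / (4 * K) + d / (4 * K) := by
      field_simp
      ring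
    linarith
  · intro heq'
    obtain ⟨j, hj⟩ := hkey s s' hss
    simp only at heq'
    rw [heq', dist_self] at hj
    have : 0 < d / (2 * K) := by positivity
    linarith

theorem w_ne : w0 ≠ w1 := by
  intro h
  unfold w0 w1 at h
  rw [mk_eq_iff] at h
  obtain ⟨n, h1, -⟩ := h
  have h2 := congrFun h1 0
  simp only [sft] at h2
  exact zero_ne_one h2

end Q70.Fs
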