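import Mathlib

/-!
# Hardy fields, and the Hardy field of rational functions of `√t`
-/

open Filter Topology Polynomial

namespace Q70.Hardy

/-- A subring `H` of the ring of germs at `+∞` of real functions is a Hardy field if it is a
field and is closed under differentiation: every function whose germ is in `H` is differentiable
at all large `t`, and the germ of its derivative is in `H`. -/
def IsHardyField (H : Subring (Germ (atTop : Filter ℝ) ℝ)) : Prop :=
  IsField H ∧ ∀ f : ℝ → ℝ, (f : Germ (atTop : Filter ℝ) ℝ) ∈ H →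
    (∀ᶠ t in atTop, DifferentiableAt ℝ f t) ∧ (deriv f : Germ (atTop : Filter ℝ) ℝ) ∈ H

theorem eventually_sqrt_eval_ne {q : ℝ[X]} (hq : q ≠ 0) :
    ∀ᶠ t : ℝ in atTop, q.eval (Real.sqrt t) ≠ 0 := by
  have h1 : ∀ᶠ x : ℝ in atTop, q.eval x ≠ 0 := q.eventually_atTop_not_isRoot hq
  exact Real.tendsto_sqrt_atTop.eventually h1

/-- The germs of the functions `p(√t) / q(√t)`, `p, q` real polynomials, `q ≠ 0`. -/
def sqrtField : Subring (Germ (atTop : Filter ℝ) ℝ) where
  carrier := {g | ∃ p q : ℝ[X], q ≠ 0 ∧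
    g = ((fun t : ℝ => p.eval (Real.sqrt t) / q.eval (Real.sqrt t) : ℝ → ℝ) :
      Germ (atTop : Filter ℝ) ℝ)}
  mul_mem' := by
    rintro _ _ ⟨p, q, hq, rfl⟩ ⟨p', q', hq', rfl⟩
    refine ⟨p * p', q * q', mul_ne_zero hq hq', ?_⟩
    rw [← Germ.coe_mul]
    congr 1
    funext t
    simp only [Pi.mul_apply, eval_mul]
    rw [div_mul_div_comm]
  add_mem' := by
    rintro _ _ ⟨p, q, hq, rfl⟩ ⟨p', q', hq', rfl⟩
    refine ⟨p * q' + q * p', q * q', mul_ne_zero hq hq', ?_⟩
    rw [← Germ.coe_add, Germ.coe_eq]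
    filter_upwards [eventually_sqrt_eval_ne hq, eventually_sqrt_eval_ne hq'] with t h1 h2
    simp only [Pi.add_apply, eval_mul, eval_add]
    rw [div_add_div _ _ h1 h2]
  one_mem' := ⟨1, 1, one_ne_zero, by simp; rfl⟩
  zero_mem' := ⟨0, 1, one_ne_zero, by simp; rfl⟩
  neg_mem' := by
    rintro _ ⟨p, q, hq, rfl⟩
    refine ⟨-p, q, hq, ?_⟩
    rw [← Germ.coe_neg]
    congr 1
    funext t
    simp only [Pi.neg_apply, eval_neg, neg_div]

theorem mem_sqrtField_iff {g : Germ (atTop : Filter ℝ) ℝ} : g ∈ sqrtField ↔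
    ∃ p q : ℝ[X], q ≠ 0 ∧
    g = ((fun t : ℝ => p.eval (Real.sqrt t) / q.eval (Real.sqrt t) : ℝ → ℝ) :
      Germ (atTop : Filter ℝ) ℝ) := Iff.rfl

theorem isField_sqrtField : IsField sqrtField where
  exists_pair_ne := by
    refine ⟨0, 1, ?_⟩
    intro h
    have h1 : (0 : Germ (atTop : Filter ℝ) ℝ) = 1 := congrArg Subtype.val h
    exact zero_ne_one h1
  mul_comm := mul_comm
  mul_inv_cancel := by
    rintro ⟨g, p, q, hq, rfl⟩ hne
    have hp : p ≠ 0 := by
      rintro rfl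
      apply hne
      apply Subtype.ext
      simp
      rfl
    refine ⟨⟨_, q, p, hp, rfl⟩, ?_⟩
    apply Subtype.ext
    change ((fun t : ℝ => p.eval (Real.sqrt t) / q.eval (Real.sqrt t) : ℝ → ℝ) :
      Germ (atTop : Filter ℝ) ℝ) * ((fun t : ℝ => q.eval (Real.sqrt t) / p.eval (Real.sqrt t) : ℝ → ℝ) :
      Germ (atTop : Filter ℝ) ℝ) = 1
    rw [← Germ.coe_mul]
    have : ((1 : Germ (atTop : Filter ℝ) ℝ)) = ((fun _ => 1 : ℝ → ℝ) : Germ (atTop : Filter ℝ) ℝ) := rfl
    rw [this, Germ.coe_eq]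
    filter_upwards [eventually_sqrt_eval_ne hq, eventually_sqrt_eval_ne hp] with t h1 h2
    simp only [Pi.mul_apply]
    field_simp

theorem hasDerivAt_sqrt_eval (p : ℝ[X]) {t : ℝ} (ht : 0 < t) :
    HasDerivAt (fun t : ℝ => p.eval (Real.sqrt t)) (p.derivative.eval (Real.sqrt t) *
      (1 / (2 * Real.sqrt t))) t :=
  (p.hasDerivAt (Real.sqrt t)).comp t (Real.hasDerivAt_sqrt ht.ne')

theorem isHardyField_sqrtField : IsHardyField sqrtField := by
  refine ⟨isField_sqrtField, ?_⟩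
  rintro f ⟨p, q, hq, hf⟩
  rw [Germ.coe_eq] at hf
  -- the equality holds near all large points
  have hev : ∀ᶠ t : ℝ in atTop, f =ᶠ[𝓝 t]
      (fun t : ℝ => p.eval (Real.sqrt t) / q.eval (Real.sqrt t)) := by
    obtain ⟨a, ha⟩ := eventually_atTop.1 hf
    filter_upwards [eventually_gt_atTop a] with t ht
    filter_upwards [lt_mem_nhds ht] with s hs
    exact ha s hs.le
  have hder : ∀ᶠ t : ℝ in atTop, HasDerivAt f
      (((p.derivative.eval (Real.sqrt t) * (1 / (2 * Real.sqrt t))) * q.eval (Real.sqrt t) -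
        p.eval (Real.sqrt t) * (q.derivative.eval (Real.sqrt t) * (1 / (2 * Real.sqrt t)))) /
        (q.eval (Real.sqrt t)) ^ 2) t := by
    filter_upwards [hev, eventually_gt_atTop (0 : ℝ), eventually_sqrt_eval_ne hq] with t h1 h2 h3
    exact ((hasDerivAt_sqrt_eval p h2).div (hasDerivAt_sqrt_eval q h2) h3).congr_of_eventuallyEq h1
  refine ⟨hder.mono fun t ht => ht.differentiableAt, ?_⟩
  refine ⟨p.derivative * q - p * q.derivative, 2 * X * q ^ 2, ?_, ?_⟩
  · exact mul_ne_zero (mul_ne_zero two_ne_zero X_ne_zero) (pow_ne_zero 2 hq)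
  · rw [Germ.coe_eq]
    filter_upwards [hder, eventually_gt_atTop (0 : ℝ), eventually_sqrt_eval_ne hq] with t h1 h2 h3
    rw [h1.deriv]
    have hs : Real.sqrt t ≠ 0 := (Real.sqrt_pos.2 h2).ne'
    simp only [eval_sub, eval_mul, eval_pow, eval_X, eval_ofNat]
    field_simp

end Q70.Hardy
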