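import Pool.Agent.Q70.HardyField
import Pool.Agent.Q70.BohrThick

/-!
# The functions `t ^ (3/2)` and `α t ^ (3/2) + t`: iterated derivatives and their combinations
-/

open Filter Topology Polynomial

namespace Q70.Hardy

/-- Every element of `S(f₁, …, f_k)`, the set of the combinations
`c₁ f₁^(m₁) + … + c_k f_k^(m_k)` with integers `cᵢ` and natural numbers `mᵢ`, satisfies
`|f(t)| → 0` or `|f(t)| → ∞` as `t → ∞`. -/
def DerivativeCondition {k : ℕ} (f : Fin k → ℝ → ℝ) : Prop :=
  ∀ (c : Fin k → ℤ) (m : Fin k → ℕ),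
    Tendsto (fun t => |∑ i, (c i : ℝ) * deriv^[m i] (f i) t|) atTop (𝓝 0) ∨
    Tendsto (fun t => |∑ i, (c i : ℝ) * deriv^[m i] (f i) t|) atTop atTop

theorem rpow_three_halves {t : ℝ} (ht : 0 ≤ t) : t ^ (3 / 2 : ℝ) = (Real.sqrt t) ^ 3 := by
  rw [Real.sqrt_eq_rpow, ← Real.rpow_natCast, ← Real.rpow_mul ht]
  norm_num

theorem mem_sqrtField_one :
    ((fun t : ℝ => t ^ (3 / 2 : ℝ) : ℝ → ℝ) : Germ (atTop : Filter ℝ) ℝ) ∈ sqrtField := by
  refine ⟨X ^ 3, 1, one_ne_zero, ?_⟩
  rw [Germ.coe_eq]
  filter_upwards [eventually_ge_atTop (0 : ℝ)] with t ht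
  simp [rpow_three_halves ht]

theorem mem_sqrtField_two (α : ℝ) :
    ((fun t : ℝ => α * t ^ (3 / 2 : ℝ) + t : ℝ → ℝ) : Germ (atTop : Filter ℝ) ℝ) ∈
      sqrtField := by
  refine ⟨C α * X ^ 3 + X ^ 2, 1, one_ne_zero, ?_⟩
  rw [Germ.coe_eq]
  filter_upwards [eventually_ge_atTop (0 : ℝ)] with t ht
  simp [rpow_three_halves ht, Real.sq_sqrt ht]

/-- The `n`-th derivative of `t`. -/
noncomputable def lin (n : ℕ) (t : ℝ) : ℝ := deriv^[n] (fun t : ℝ => t) t

theorem lin_zero (t : ℝ) : lin 0 t = t := rfl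

theorem lin_one (t : ℝ) : lin 1 t = 1 := by
  simp [lin]

theorem lin_succ (n : ℕ) : lin (n + 1) = deriv (lin n) := by
  funext t
  simp only [lin, Function.iterate_succ', Function.comp_apply]
  rfl

theorem lin_two_add (n : ℕ) (t : ℝ) : lin (n + 2) t = 0 := by
  have h1 : lin 1 = fun _ => 1 := funext lin_one
  induction n generalizing t with
  | zero => rw [lin_succ, h1]; simp
  | succ n ih =>
    have h : lin (n + 2) = fun _ => 0 := funext ih
    rw [lin_succ, h]; simp

theorem differentiable_lin (n : ℕ) : Differentiable ℝ (lin n) := by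
  match n with
  | 0 => exact differentiable_id
  | 1 =>
    have h1 : lin 1 = fun _ => 1 := funext lin_one
    rw [h1]; exact differentiable_const _
  | (n + 2) =>
    have h : lin (n + 2) = fun _ => 0 := funext (lin_two_add n)
    rw [h]; exact differentiable_const _

theorem iter_deriv_two (α : ℝ) (n : ℕ) : ∀ t : ℝ, 0 < t →
    deriv^[n] (fun t : ℝ => α * t ^ (3 / 2 : ℝ) + t) t =
      α * ((descPochhammer ℝ n).eval (3 / 2 : ℝ) * t ^ ((3 / 2 : ℝ) - n)) + lin n t := by
  induction n with
  | zero => intro t _; simp [lin_zero]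
  | succ n ih =>
    intro t ht
    rw [Function.iterate_succ', Function.comp_apply]
    have hev : deriv^[n] (fun t : ℝ => α * t ^ (3 / 2 : ℝ) + t) =ᶠ[𝓝 t]
        fun t => α * ((descPochhammer ℝ n).eval (3 / 2 : ℝ) * t ^ ((3 / 2 : ℝ) - n)) + lin n t := by
      filter_upwards [lt_mem_nhds ht] with s hs
      exact ih s hs
    rw [hev.deriv_eq]
    have hd : HasDerivAt (fun t : ℝ => t ^ ((3 / 2 : ℝ) - n))
        (((3 / 2 : ℝ) - n) * t ^ ((3 / 2 : ℝ) - n - 1)) t :=
      Real.hasDerivAt_rpow_const (Or.inl ht.ne')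
    have hl : HasDerivAt (lin n) (lin (n + 1) t) t := by
      rw [lin_succ]
      exact (differentiable_lin n t).hasDerivAt
    have h := ((hd.const_mul ((descPochhammer ℝ n).eval (3 / 2 : ℝ))).const_mul α).add hl
    have h' := h.deriv
    refine Eq.trans h' ?_
    rw [descPochhammer_succ_right]
    simp only [eval_mul, eval_sub, eval_X, eval_natCast]
    push_cast
    have e : (3 / 2 : ℝ) - (n + 1) = 3 / 2 - n - 1 := by ring
    rw [e]
    ring

/-- The polynomial in `√t` which is the main part of the `n`-th derivative of `t ^ (3/2)`. -/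
noncomputable def main (n : ℕ) : ℝ[X] :=
  match n with
  | 0 => X ^ 3
  | 1 => C (3 / 2) * X
  | _ => 0

/-- The polynomial in `√t` which is the `n`-th derivative of `t`. -/
noncomputable def linPoly (n : ℕ) : ℝ[X] :=
  match n with
  | 0 => X ^ 2
  | 1 => 1
  | _ => 0

theorem lin_eq_eval (n : ℕ) {t : ℝ} (ht : 0 ≤ t) : lin n t = (linPoly n).eval (Real.sqrt t) := by
  match n with
  | 0 => simp [linPoly, lin_zero, Real.sq_sqrt ht]
  | 1 => simp [linPoly, lin_one]
  | (n + 2) => simp [linPoly, lin_two_add]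

theorem tendsto_main (n : ℕ) : Tendsto (fun t : ℝ =>
    (descPochhammer ℝ n).eval (3 / 2 : ℝ) * t ^ ((3 / 2 : ℝ) - n) -
      (main n).eval (Real.sqrt t)) atTop (𝓝 0) := by
  match n with
  | 0 =>
    refine Tendsto.congr' ?_ tendsto_const_nhds
    filter_upwards [eventually_ge_atTop (0 : ℝ)] with t ht
    have := rpow_three_halves ht
    simp [main, this]
  | 1 =>
    refine Tendsto.congr' ?_ tendsto_const_nhds
    filter_upwards [eventually_ge_atTop (0 : ℝ)] with t ht
    have h1 : t ^ ((3 / 2 : ℝ) - 1) = Real.sqrt t := by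
      rw [Real.sqrt_eq_rpow]; norm_num
    have h2 : (descPochhammer ℝ 1).eval (3 / 2 : ℝ) = 3 / 2 := by
      simp
    simp only [Nat.cast_one, main, eval_mul, eval_C, eval_X, h1, h2, sub_self]
  | (n + 2) =>
    have h : Tendsto (fun t : ℝ => t ^ (-(((n + 2 : ℕ) : ℝ) - 3 / 2))) atTop (𝓝 0) := by
      apply tendsto_rpow_neg_atTop
      push_cast
      have : (0 : ℝ) ≤ n := Nat.cast_nonneg n
      linarith
    have h2 := h.const_mul ((descPochhammer ℝ (n + 2)).eval (3 / 2 : ℝ))
    rw [mul_zero] at h2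
    refine h2.congr ?_
    intro t
    simp only [main, eval_zero, sub_zero]
    congr 2
    ring

/-- Combinations of the main parts are never nonzero constants. -/
theorem combination_main {α : ℝ} (hα : Irrational α) (a b : ℤ) (m n : ℕ) :
    C (a : ℝ) * main m + C (b : ℝ) * (C α * main n + linPoly n) = 0 ∨
    0 < (C (a : ℝ) * main m + C (b : ℝ) * (C α * main n + linPoly n)).degree := by
  have hirr : ∀ a b : ℤ, (a : ℝ) + b * α = 0 → a = 0 ∧ b = 0 := by
    intro a b h
    by_cases hb : b = 0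
    · subst hb
      simp only [Int.cast_zero, zero_mul, add_zero] at h
      exact ⟨by exact_mod_cast h, rfl⟩
    · exfalso
      have h' : ((b : ℝ) * α + a) = 0 := by linarith
      have : Irrational ((b : ℝ) * α + a) := (hα.intCast_mul hb).add_intCast a
      exact this.ne_zero h'
  -- positive degree from a nonzero coefficient
  have hdeg : ∀ (p : ℝ[X]) (k : ℕ), 1 ≤ k → p.coeff k ≠ 0 → 0 < p.degree := by
    intro p k hk hne
    have h1 : (k : WithBot ℕ) ≤ p.degree := le_degree_of_ne_zero hne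
    have h2 : (0 : WithBot ℕ) < (k : WithBot ℕ) := by exact_mod_cast hk
    exact lt_of_lt_of_le h2 h1
  by_cases hab : a = 0 ∧ b = 0
  · left
    obtain ⟨rfl, rfl⟩ := hab
    simp
  match m, n with
  | 0, 0 =>
    right
    refine hdeg _ 3 (by norm_num) ?_
    have : (C (a : ℝ) * main 0 + C (b : ℝ) * (C α * main 0 + linPoly 0)).coeff 3 =
        (a : ℝ) + b * α := by
      simp [main, linPoly, coeff_X_pow]
    rw [this]
    intro h; exact hab (hirr a b h)
  | 0, 1 =>
    by_cases ha : a = 0
    · subst ha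
      right
      refine hdeg _ 1 le_rfl ?_
      have : (C (((0 : ℤ) : ℝ)) * main 0 + C (b : ℝ) * (C α * main 1 + linPoly 1)).coeff 1 =
          (b : ℝ) * (α * (3 / 2)) := by
        simp [main, linPoly, coeff_one]
      rw [this]
      have hb : (b : ℝ) ≠ 0 := by
        intro h; exact hab ⟨rfl, by exact_mod_cast h⟩
      have := hα.ne_zero
      positivity
    · right
      refine hdeg _ 3 (by norm_num) ?_
      have : (C (a : ℝ) * main 0 + C (b : ℝ) * (C α * main 1 + linPoly 1)).coeff 3 = (a : ℝ) := by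
        simp [main, linPoly, coeff_one]
      rw [this]
      exact_mod_cast ha
  | 0, (n + 2) =>
    by_cases ha : a = 0
    · left; subst ha; simp [main, linPoly]
    · right
      refine hdeg _ 3 (by norm_num) ?_
      have : (C (a : ℝ) * main 0 + C (b : ℝ) * (C α * main (n + 2) + linPoly (n + 2))).coeff 3
          = (a : ℝ) := by
        simp [main, linPoly]
      rw [this]
      exact_mod_cast ha
  | 1, 0 =>
    right
    by_cases hb : b = 0
    · subst hb
      refine hdeg _ 1 le_rfl ?_
      have : (C (a : ℝ) * main 1 + C (((0 : ℤ) : ℝ)) * (C α * main 0 + linPoly 0)).coeff 1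
          = (a : ℝ) * (3 / 2) := by
        simp [main, linPoly]
      rw [this]
      have ha : (a : ℝ) ≠ 0 := by
        intro h; exact hab ⟨by exact_mod_cast h, rfl⟩
      positivity
    · refine hdeg _ 3 (by norm_num) ?_
      have : (C (a : ℝ) * main 1 + C (b : ℝ) * (C α * main 0 + linPoly 0)).coeff 3
          = (b : ℝ) * α := by
        simp [main, linPoly, coeff_X_pow]
      rw [this]
      have hb' : (b : ℝ) ≠ 0 := by exact_mod_cast hb
      exact mul_ne_zero hb' hα.ne_zero
  | 1, 1 =>
    right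
    refine hdeg _ 1 le_rfl ?_
    have : (C (a : ℝ) * main 1 + C (b : ℝ) * (C α * main 1 + linPoly 1)).coeff 1
        = (3 / 2) * ((a : ℝ) + b * α) := by
      simp [main, linPoly, coeff_one]
      ring
    rw [this]
    intro h
    exact hab (hirr a b (by linarith))
  | 1, (n + 2) =>
    by_cases ha : a = 0
    · left; subst ha; simp [main, linPoly]
    · right
      refine hdeg _ 1 le_rfl ?_
      have : (C (a : ℝ) * main 1 + C (b : ℝ) * (C α * main (n + 2) + linPoly (n + 2))).coeff 1
          = (a : ℝ) * (3 / 2) := by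
        simp [main, linPoly]
      rw [this]
      have ha' : (a : ℝ) ≠ 0 := by exact_mod_cast ha
      positivity
  | (m + 2), 0 =>
    by_cases hb : b = 0
    · left; subst hb; simp [main]
    · right
      refine hdeg _ 3 (by norm_num) ?_
      have : (C (a : ℝ) * main (m + 2) + C (b : ℝ) * (C α * main 0 + linPoly 0)).coeff 3
          = (b : ℝ) * α := by
        simp [main, linPoly, coeff_X_pow]
      rw [this]
      have hb' : (b : ℝ) ≠ 0 := by exact_mod_cast hb
      exact mul_ne_zero hb' hα.ne_zero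
  | (m + 2), 1 =>
    by_cases hb : b = 0
    · left; subst hb; simp [main]
    · right
      refine hdeg _ 1 le_rfl ?_
      have : (C (a : ℝ) * main (m + 2) + C (b : ℝ) * (C α * main 1 + linPoly 1)).coeff 1
          = (b : ℝ) * (α * (3 / 2)) := by
        simp [main, linPoly, coeff_one]
      rw [this]
      have hb' : (b : ℝ) ≠ 0 := by exact_mod_cast hb
      exact mul_ne_zero hb' (mul_ne_zero hα.ne_zero (by norm_num))
  | (m + 2), (n + 2) => left; simp [main, linPoly]

theorem derivativeCondition {α : ℝ} (hα : Irrational α) :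
    DerivativeCondition ![fun t : ℝ => t ^ (3 / 2 : ℝ), fun t : ℝ => α * t ^ (3 / 2 : ℝ) + t] := by
  intro c m
  simp only [Fin.sum_univ_two, Matrix.cons_val_zero, Matrix.cons_val_one]
  set a := c 0
  set b := c 1
  set P : ℝ[X] := C (a : ℝ) * main (m 0) + C (b : ℝ) * (C α * main (m 1) + linPoly (m 1)) with hP
  have hdiff : Tendsto (fun t : ℝ => ((a : ℝ) * deriv^[m 0] (fun t : ℝ => t ^ (3 / 2 : ℝ)) t +
      (b : ℝ) * deriv^[m 1] (fun t : ℝ => α * t ^ (3 / 2 : ℝ) + t) t) - P.eval (Real.sqrt t))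
      atTop (𝓝 0) := by
    have h1 := (tendsto_main (m 0)).const_mul (a : ℝ)
    have h2 := (tendsto_main (m 1)).const_mul ((b : ℝ) * α)
    have h3 := h1.add h2
    rw [mul_zero, mul_zero, add_zero] at h3
    refine Tendsto.congr' ?_ h3
    filter_upwards [eventually_gt_atTop (0 : ℝ)] with t ht
    rw [iter_deriv_two α (m 1) t ht, Real.iter_deriv_rpow_const, lin_eq_eval (m 1) ht.le, hP]
    simp only [eval_add, eval_mul, eval_C]
    ring
  rcases combination_main hα a b (m 0) (m 1) with h0 | h0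
  · left
    have hP0 : P = 0 := h0
    rw [hP0] at hdiff
    simp only [eval_zero, sub_zero] at hdiff
    have := hdiff.abs
    rwa [abs_zero] at this
  · right
    have h1 : Tendsto (fun t : ℝ => |P.eval (Real.sqrt t)|) atTop atTop :=
      (Polynomial.abs_tendsto_atTop P h0).comp Real.tendsto_sqrt_atTop
    have h2 := hdiff.abs
    rw [abs_zero] at h2
    have h3 : Tendsto (fun t : ℝ => |P.eval (Real.sqrt t)| - |((a : ℝ) *
      deriv^[m 0] (fun t : ℝ => t ^ (3 / 2 : ℝ)) t +
      (b : ℝ) * deriv^[m 1] (fun t : ℝ => α * t ^ (3 / 2 : ℝ) + t) t) -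
        P.eval (Real.sqrt t)|) atTop atTop := by
      have := h1.atTop_add h2.neg
      exact this.congr fun t => by ring
    refine tendsto_atTop_mono ?_ h3
    intro t
    have := abs_sub_abs_le_abs_sub (P.eval (Real.sqrt t)) ((a : ℝ) *
      deriv^[m 0] (fun t : ℝ => t ^ (3 / 2 : ℝ)) t +
      (b : ℝ) * deriv^[m 1] (fun t : ℝ => α * t ^ (3 / 2 : ℝ) + t) t)
    rw [abs_sub_comm (P.eval (Real.sqrt t))] at this
    linarith

end Q70.Hardy
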