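import Mathlib

/-!
# The Heisenberg nilmanifold and its nilflows

Definitions used in the statement, and the measurable coordinates of the nilmanifold.
-/

set_option autoImplicit false
open MeasureTheory Filter Topology Set

namespace Q70.Heis

/-- The Heisenberg group: the triple `(x, y, z)` stands for the upper triangular unipotent
matrix with entries `x` (row 1, column 2), `y` (row 2, column 3) and `z` (row 1, column 3). -/
def H : Type := ℝ × ℝ × ℝ

instance : TopologicalSpace H := inferInstanceAs (TopologicalSpace (ℝ × ℝ × ℝ))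
instance : MeasurableSpace H := inferInstanceAs (MeasurableSpace (ℝ × ℝ × ℝ))
instance : BorelSpace H := inferInstanceAs (BorelSpace (ℝ × ℝ × ℝ))
instance : PolishSpace H := inferInstanceAs (PolishSpace (ℝ × ℝ × ℝ))
instance : LocallyCompactSpace H := inferInstanceAs (LocallyCompactSpace (ℝ × ℝ × ℝ))

/-- The element of the Heisenberg group with given coordinates. -/
def mk (x y z : ℝ) : H := (x, y, z)

theorem ext3 {g h : H} (h1 : g.1 = h.1) (h2 : g.2.1 = h.2.1) (h3 : g.2.2 = h.2.2) : g = h :=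
  Prod.ext h1 (Prod.ext h2 h3)

theorem mk_fst (x y z : ℝ) : (mk x y z).1 = x := rfl
theorem mk_snd (x y z : ℝ) : (mk x y z).2.1 = y := rfl
theorem mk_trd (x y z : ℝ) : (mk x y z).2.2 = z := rfl
theorem mk_eta (g : H) : mk g.1 g.2.1 g.2.2 = g := rfl

/-- The matrix of an element of the Heisenberg group. -/
def toMatrix (g : H) : Matrix (Fin 3) (Fin 3) ℝ :=
  !![1, g.1, g.2.2; 0, 1, g.2.1; 0, 0, 1]

/-- Product of the Heisenberg group (`toMatrix_mul`: it is the product of matrices). -/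
def mul (g h : H) : H := mk (g.1 + h.1) (g.2.1 + h.2.1) (g.2.2 + h.2.2 + g.1 * h.2.1)

instance group : Group H where
  mul := mul
  one := mk 0 0 0
  inv g := mk (-g.1) (-g.2.1) (-g.2.2 + g.1 * g.2.1)
  mul_assoc a b c := by
    change mul (mul a b) c = mul a (mul b c)
    apply ext3 <;> simp only [mul, mk_fst, mk_snd, mk_trd] <;> ring
  one_mul a := by
    change mul (mk 0 0 0) a = a
    apply ext3 <;> simp only [mul, mk_fst, mk_snd, mk_trd] <;> ring
  mul_one a := by
    change mul a (mk 0 0 0) = a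
    apply ext3 <;> simp only [mul, mk_fst, mk_snd, mk_trd] <;> ring
  inv_mul_cancel a := by
    change mul (mk (-a.1) (-a.2.1) (-a.2.2 + a.1 * a.2.1)) a = mk 0 0 0
    apply ext3 <;> simp only [mul, mk_fst, mk_snd, mk_trd] <;> ring

theorem mul_def (g h : H) :
    g * h = mk (g.1 + h.1) (g.2.1 + h.2.1) (g.2.2 + h.2.2 + g.1 * h.2.1) := rfl

theorem toMatrix_mul (g h : H) : toMatrix (g * h) = toMatrix g * toMatrix h := by
  rw [mul_def]
  ext i j
  fin_cases i <;> fin_cases j <;>
    simp [toMatrix, mk, Matrix.mul_apply, Fin.sum_univ_three] <;> ring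

/-- The lattice of integer points. -/
def Γ : Subgroup H where
  carrier := {g | ∃ m n l : ℤ, g = mk m n l}
  one_mem' := ⟨0, 0, 0, by simp only [Int.cast_zero]; rfl⟩
  mul_mem' := by
    rintro _ _ ⟨m, n, l, rfl⟩ ⟨m', n', l', rfl⟩
    refine ⟨m + m', n + n', l + l' + m * n', ?_⟩
    rw [mul_def]
    simp only [mk_fst, mk_snd, mk_trd, Int.cast_add, Int.cast_mul]
  inv_mem' := by
    rintro _ ⟨m, n, l, rfl⟩
    refine ⟨-m, -n, -l + m * n, ?_⟩
    change mk (-(m : ℝ)) (-(n : ℝ)) (-(l : ℝ) + (m : ℝ) * n) = _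
    simp only [Int.cast_add, Int.cast_mul, Int.cast_neg]

/-- The Heisenberg nilmanifold: the space of cosets `Γ g`. -/
def M : Type := Quotient (MulAction.orbitRel Γ H)

/-- The projection `g ↦ Γ g`. -/
def proj (g : H) : M := Quotient.mk (MulAction.orbitRel Γ H) g

/-- The quotient topology. -/
instance : TopologicalSpace M :=
  inferInstanceAs (TopologicalSpace (Quotient (MulAction.orbitRel Γ H)))

/-- The Borel sigma-algebra. -/
instance : MeasurableSpace M := borel M

instance : BorelSpace M := ⟨rfl⟩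

theorem proj_surjective : Function.Surjective proj := Quotient.mk_surjective

theorem continuous_proj : Continuous proj := continuous_quot_mk

theorem proj_eq_iff (g h : H) : proj g = proj h ↔ ∃ γ ∈ Γ, γ * h = g := by
  refine (Quotient.eq (r := MulAction.orbitRel Γ H)).trans ?_
  rw [MulAction.orbitRel_apply, MulAction.mem_orbit_iff]
  constructor
  · rintro ⟨γ, hγ⟩
    exact ⟨γ, γ.2, hγ⟩
  · rintro ⟨γ, hγ, h⟩
    exact ⟨⟨γ, hγ⟩, h⟩

theorem proj_mul_left (γ : H) (hγ : γ ∈ Γ) (g : H) : proj (γ * g) = proj g :=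
  (proj_eq_iff _ _).2 ⟨γ, hγ, rfl⟩

/-! ### The quotient topology is Polish enough -/

theorem continuous_mul_left (γ : H) : Continuous (fun g : H => γ * g) := by
  change Continuous (fun g : ℝ × ℝ × ℝ => ((γ.1 + g.1, γ.2.1 + g.2.1,
    γ.2.2 + g.2.2 + γ.1 * g.2.1) : ℝ × ℝ × ℝ))
  fun_prop

theorem continuous_mul_right (γ : H) : Continuous (fun g : H => g * γ) := by
  change Continuous (fun g : ℝ × ℝ × ℝ => ((g.1 + γ.1, g.2.1 + γ.2.1,
    g.2.2 + γ.2.2 + g.1 * γ.2.1) : ℝ × ℝ × ℝ))
  fun_prop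

instance : ContinuousConstSMul Γ H := ⟨fun γ => continuous_mul_left γ⟩

instance : ProperlyDiscontinuousSMul Γ H where
  finite_disjoint_inter_image := by
    intro K L hK hL
    have hK' : IsCompact (X := ℝ × ℝ × ℝ) K := hK
    have hL' : IsCompact (X := ℝ × ℝ × ℝ) L := hL
    obtain ⟨R, hR⟩ := hK'.isBounded.exists_norm_le
    obtain ⟨S, hS⟩ := hL'.isBounded.exists_norm_le
    let f : ℤ × ℤ × ℤ → H := fun p => mk p.1 p.2.1 p.2.2
    have hfin : (f '' (Icc (-⌈R + S⌉, -⌈R + S⌉, -⌈R + S + (R + S) * R⌉)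
        (⌈R + S⌉, ⌈R + S⌉, ⌈R + S + (R + S) * R⌉))).Finite := (finite_Icc _ _).image _
    refine Finite.of_finite_image (f := fun γ : Γ => (γ : H)) (hfin.subset ?_)
      Subtype.val_injective.injOn
    rintro _ ⟨⟨γ, m, n, l, hγ⟩, hne, rfl⟩
    simp only
    subst hγ
    obtain ⟨_, ⟨k, hk, rfl⟩, hkL⟩ := hne
    have h1 := hR k hk
    have h2 := hS _ hkL
    have e : ((⟨mk m n l, m, n, l, rfl⟩ : Γ) • k : H) = mk (m + k.1) (n + k.2.1)
        (l + k.2.2 + m * k.2.1) := rfl
    simp only at h2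
    rw [e] at h2
    have nrm : ∀ v : ℝ × ℝ × ℝ, ∀ C : ℝ, ‖v‖ ≤ C → (-C ≤ v.1 ∧ v.1 ≤ C) ∧
        (-C ≤ v.2.1 ∧ v.2.1 ≤ C) ∧ (-C ≤ v.2.2 ∧ v.2.2 ≤ C) := by
      intro v C h
      rw [Prod.norm_def, Prod.norm_def] at h
      simpa only [sup_le_iff, Real.norm_eq_abs, abs_le] using h
    replace h1 := nrm _ _ h1
    replace h2 := nrm _ _ h2
    simp only [mk] at h2
    obtain ⟨⟨a1, a2⟩, ⟨b1, b2⟩, c1, c2⟩ := h1
    obtain ⟨⟨d1, d2⟩, ⟨e1, e2⟩, f1, f2⟩ := h2
    have hm : |(m : ℝ)| ≤ R + S := abs_le.2 ⟨by linarith, by linarith⟩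
    have hn : |(n : ℝ)| ≤ R + S := abs_le.2 ⟨by linarith, by linarith⟩
    have hR0 : |k.2.1| ≤ R := abs_le.2 ⟨b1, b2⟩
    have hmk : |(m : ℝ) * k.2.1| ≤ (R + S) * R := by
      rw [abs_mul]
      exact mul_le_mul hm hR0 (abs_nonneg _) (le_trans (abs_nonneg _) hm)
    have hl : |(l : ℝ)| ≤ R + S + (R + S) * R := by
      have := abs_le.1 hmk
      exact abs_le.2 ⟨by linarith, by linarith⟩
    have key : ∀ (i : ℤ) (C : ℝ), |(i : ℝ)| ≤ C → -⌈C⌉ ≤ i ∧ i ≤ ⌈C⌉ := by
      intro i C hi
      have h3 : (|i| : ℤ) ≤ ⌈C⌉ := by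
        have : ((|i| : ℤ) : ℝ) ≤ C := by rw [Int.cast_abs]; exact hi
        exact_mod_cast this.trans (Int.le_ceil C)
      exact abs_le.1 h3
    refine ⟨(m, n, l), ?_, rfl⟩
    obtain ⟨m1, m2⟩ := key m _ hm
    obtain ⟨n1, n2⟩ := key n _ hn
    obtain ⟨l1, l2⟩ := key l _ hl
    exact ⟨⟨m1, n1, l1⟩, ⟨m2, n2, l2⟩⟩

instance : T2Space M :=
  inferInstanceAs (T2Space (Quotient (MulAction.orbitRel Γ H)))

instance : SecondCountableTopology M :=
  ContinuousConstSMul.secondCountableTopology (Γ := Γ) (T := H)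

theorem measurableSet_iff (s : Set M) : MeasurableSet s ↔ MeasurableSet (proj ⁻¹' s) := by
  have h : MeasurableSpace.map proj (inferInstance : MeasurableSpace H) = borel M :=
    continuous_proj.map_eq_borel proj_surjective
  constructor
  · intro hs
    exact continuous_proj.measurable hs
  · intro hs
    change MeasurableSet[borel M] s
    rw [← h]
    exact hs

/-- A function on the nilmanifold is measurable iff its lift to the group is. -/
theorem measurable_iff {Y : Type*} [MeasurableSpace Y] (f : M → Y) :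
    Measurable f ↔ Measurable (fun g => f (proj g)) := by
  constructor
  · intro h
    exact h.comp continuous_proj.measurable
  · intro h s hs
    rw [measurableSet_iff]
    exact h hs

/-! ### The definitions of the problem -/

/-- Lebesgue measure in the coordinates `(x, y, z)`, which is a Haar measure of the group. -/
noncomputable def haar : Measure H := (volume : Measure (ℝ × ℝ × ℝ))

/-- The fundamental domain `[0,1)^3` of the lattice. -/
def cube : Set H := {g | g.1 ∈ Ico (0 : ℝ) 1 ∧ g.2.1 ∈ Ico (0 : ℝ) 1 ∧ g.2.2 ∈ Ico (0 : ℝ) 1}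

/-- The normalised Haar measure of the nilmanifold: the image under `g ↦ Γ g` of Lebesgue
measure on the fundamental domain `[0,1)^3`. -/
noncomputable def μ : Measure M := Measure.map proj (haar.restrict cube)

/-- Exponential map: `expo (a, b, c)` is the exponential of the strictly upper triangular matrix
with entries `a` (row 1, column 2), `b` (row 2, column 3), `c` (row 1, column 3). -/
noncomputable def expo (X : ℝ × ℝ × ℝ) : H := mk X.1 X.2.1 (X.2.2 + X.1 * X.2.1 / 2)

/-- The strictly upper triangular matrix of an element of the Lie algebra. -/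
def lieMatrix (X : ℝ × ℝ × ℝ) : Matrix (Fin 3) (Fin 3) ℝ :=
  !![0, X.1, X.2.2; 0, 0, X.2.1; 0, 0, 0]

/-- `expo` is the exponential map of the matrix group. -/
theorem toMatrix_expo (X : ℝ × ℝ × ℝ) : toMatrix (expo X) = NormedSpace.exp (lieMatrix X) := by
  have h2 : lieMatrix X ^ 2 = !![0, 0, X.1 * X.2.1; 0, 0, 0; 0, 0, 0] := by
    rw [pow_two]
    ext i j
    fin_cases i <;> fin_cases j <;> simp [lieMatrix, Matrix.mul_apply, Fin.sum_univ_three]
  have h3 : lieMatrix X ^ 3 = 0 := by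
    rw [pow_succ, h2]
    ext i j
    fin_cases i <;> fin_cases j <;> simp [lieMatrix, Matrix.mul_apply, Fin.sum_univ_three]
  rw [NormedSpace.exp_eq_tsum ℝ]
  simp only
  rw [tsum_eq_sum (s := Finset.range 3)]
  · simp only [Finset.sum_range_succ, Finset.range_zero, Finset.sum_empty, h2]
    ext i j
    fin_cases i <;> fin_cases j <;>
      simp [lieMatrix, toMatrix, expo, mk, Nat.factorial] <;> ring
  · intro n hn
    have hn' : 3 ≤ n := by simpa using hn
    obtain ⟨m, rfl⟩ := Nat.exists_eq_add_of_le hn'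
    rw [pow_add, h3, zero_mul, smul_zero]

/-- Right translation by `h` on the nilmanifold. -/
def rmul (h : H) : M → M :=
  Quotient.map (fun g => g * h) (by
    intro a b hab
    obtain ⟨γ, hγ⟩ := hab
    refine ⟨γ, ?_⟩
    have h2 : (γ : H) * b = a := hγ
    change (γ : H) * (b * h) = a * h
    rw [← mul_assoc, h2])

theorem rmul_proj (h g : H) : rmul h (proj g) = proj (g * h) := rfl

/-- The nilflow `Γ g ↦ Γ g exp(t X)`. -/
noncomputable def nilflow (X : ℝ × ℝ × ℝ) (t : ℝ) : M → M := rmul (expo (t • X))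

/-- The Lie bracket of the Heisenberg Lie algebra. -/
def bracket (X Y : ℝ × ℝ × ℝ) : ℝ × ℝ × ℝ := (0, 0, X.1 * Y.2.1 - Y.1 * X.2.1)

/-- `bracket` is the commutator of matrices. -/
theorem bracket_eq (X Y : ℝ × ℝ × ℝ) :
    lieMatrix (bracket X Y) = lieMatrix X * lieMatrix Y - lieMatrix Y * lieMatrix X := by
  ext i j
  fin_cases i <;> fin_cases j <;>
    simp [lieMatrix, bracket, Matrix.mul_apply, Fin.sum_univ_three]

/-- The nilflow of `X` is parabolic: `ad X ≠ 0`. -/
def Parabolic (X : ℝ × ℝ × ℝ) : Prop := ∃ Y, bracket X Y ≠ 0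

/-- The Haar measure `μ` is invariant under the flow, and it is the only invariant Borel
probability measure. -/
def UniquelyErgodic (φ : ℝ → M → M) : Prop :=
  (∀ t, Measure.map (φ t) μ = μ) ∧
    ∀ m : Measure M, IsProbabilityMeasure m → (∀ t, Measure.map (φ t) m = m) → m = μ

/-- A function on the nilmanifold is `C^∞` iff its lift to the group is. -/
def Smooth (α : M → ℝ) : Prop :=
  ContDiff ℝ (⊤ : ℕ∞) (fun v : ℝ × ℝ × ℝ => α (proj v))

/-- The probability measure proportional to `α dμ`. -/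
noncomputable def weighted (α : M → ℝ) : Measure M :=
  (∫⁻ p, ENNReal.ofReal (α p) ∂μ)⁻¹ • μ.withDensity (fun p => ENNReal.ofReal (α p))

/-- `ψ` is the time change of the flow `φ` generated by the vector field `X/α`, if `φ` is
generated by `X`: `ψ_t p = φ_T p`, where the time `T` is such that the integral of
`α (φ_s p)` over `s` from `0` to `T` is `t`. -/
def IsTimeChange (φ : ℝ → M → M) (α : M → ℝ) (ψ : ℝ → M → M) : Prop :=
  ∀ (t : ℝ) (p : M), ∃ T : ℝ, (∫ s in (0 : ℝ)..T, α (φ s p)) = t ∧ ψ t p = φ T p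

/-- `α` is measurably cohomologous to a constant over the flow `φ`. -/
def MeasurablyTrivial (φ : ℝ → M → M) (α : M → ℝ) : Prop :=
  ∃ (c : ℝ) (u : M → ℝ), AEMeasurable u μ ∧
    ∀ t : ℝ, ∀ᵐ p ∂μ, u (φ t p) - u p = ∫ s in (0 : ℝ)..t, (α (φ s p) - c)

/-- Mixing of a flow with respect to a probability measure. -/
def Mixing (ψ : ℝ → M → M) (ν : Measure M) : Prop :=
  ∀ A B : Set M, MeasurableSet A → MeasurableSet B →
    Tendsto (fun t : ℝ => ν.real (ψ t '' A ∩ B)) atTop (𝓝 (ν.real A * ν.real B))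

/-- Weak mixing of a flow with respect to a probability measure: the Cesaro means over `[0,t]` of
`|ν(ψ_s A ∩ B) - ν(A) ν(B)|` tend to zero. -/
def WeakMixing (ψ : ℝ → M → M) (ν : Measure M) : Prop :=
  ∀ A B : Set M, MeasurableSet A → MeasurableSet B →
    Tendsto (fun t : ℝ => (∫⁻ s in Icc 0 t,
      ENNReal.ofReal |ν.real (ψ s '' A ∩ B) - ν.real A * ν.real B|) / ENNReal.ofReal t)
      atTop (𝓝 0)

end Q70.Heis
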