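import Pool.Agent.Q70.Heis1

/-!
# Measurable coordinates of the Heisenberg nilmanifold

The nilmanifold is Borel isomorphic to `(T × T) × T` with Haar measure, and right translations are
skew products in these coordinates.
-/

set_option autoImplicit false
open MeasureTheory Filter Topology Set

namespace Q70.Heis

/-- The circle. -/
abbrev T : Type := UnitAddCircle

/-- The representative in `[0,1)` of a point of the circle. -/
noncomputable def rep (u : T) : ℝ := (AddCircle.equivIco (1 : ℝ) 0 u : ℝ)

theorem rep_nonneg (u : T) : 0 ≤ rep u := (AddCircle.equivIco (1 : ℝ) 0 u).2.1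

theorem rep_lt_one (u : T) : rep u < 1 := by
  have h : rep u < 0 + 1 := (AddCircle.equivIco (1 : ℝ) 0 u).2.2
  linarith

theorem coe_rep (u : T) : ((rep u : ℝ) : T) = u :=
  (AddCircle.equivIco (1 : ℝ) 0).symm_apply_apply u

theorem rep_coe (x : ℝ) : rep (x : T) = Int.fract x := by
  have := AddCircle.coe_equivIco_mk_apply (p := (1 : ℝ)) x
  simpa [rep] using this

theorem floor_rep (u : T) : ⌊rep u⌋ = 0 := by
  rw [Int.floor_eq_zero_iff]
  exact ⟨rep_nonneg u, rep_lt_one u⟩

theorem measurable_rep : Measurable rep :=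
  (AddCircle.measurableEquivIco (1 : ℝ) 0).measurable.subtype_val

theorem coe_fract (x : ℝ) : ((Int.fract x : ℝ) : T) = (x : T) := by
  have := coe_rep (x : T)
  rwa [rep_coe] at this

theorem coe_intCast (n : ℤ) : ((n : ℝ) : T) = 0 := by
  have := coe_fract (n : ℝ)
  rw [Int.fract_intCast] at this
  rw [← this]
  simp

/-- The measurable coordinates, as a function on the group. -/
noncomputable def r0 (g : H) : (T × T) × T :=
  (((g.1 : T), (g.2.1 : T)), ((g.2.2 - (⌊g.1⌋ : ℝ) * g.2.1 : ℝ) : T))

theorem r0_mul (γ g : H) (hγ : γ ∈ Γ) : r0 (γ * g) = r0 g := by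
  obtain ⟨m, n, l, rfl⟩ := hγ
  rw [mul_def]
  simp only [r0, mk_fst, mk_snd, mk_trd]
  have e1 : (((m : ℝ) + g.1 : ℝ) : T) = (g.1 : T) := by
    rw [AddCircle.coe_add, coe_intCast, zero_add]
  have e2 : (((n : ℝ) + g.2.1 : ℝ) : T) = (g.2.1 : T) := by
    rw [AddCircle.coe_add, coe_intCast, zero_add]
  have e3 : (((l : ℝ) + g.2.2 + (m : ℝ) * g.2.1 - (⌊(m : ℝ) + g.1⌋ : ℝ) * ((n : ℝ) + g.2.1) : ℝ) : T)
      = ((g.2.2 - (⌊g.1⌋ : ℝ) * g.2.1 : ℝ) : T) := by
    rw [Int.floor_intCast_add]
    have : ((l : ℝ) + g.2.2 + (m : ℝ) * g.2.1 - ((m + ⌊g.1⌋ : ℤ) : ℝ) * ((n : ℝ) + g.2.1) : ℝ) =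
        ((l - (m + ⌊g.1⌋) * n : ℤ) : ℝ) + (g.2.2 - (⌊g.1⌋ : ℝ) * g.2.1) := by
      push_cast; ring
    rw [this, AddCircle.coe_add, coe_intCast, zero_add]
  rw [e1, e2, e3]

/-- The measurable coordinates of the nilmanifold. -/
noncomputable def r : M → (T × T) × T :=
  Quotient.lift r0 (by
    intro a b hab
    obtain ⟨γ, hγ⟩ := hab
    have h2 : (γ : H) * b = a := hγ
    rw [← h2, r0_mul _ _ γ.2])

theorem r_proj (g : H) : r (proj g) = r0 g := rfl

theorem measurable_r0 : Measurable r0 := by
  have h1 : Measurable (fun g : ℝ × ℝ × ℝ => ((g.1 : T), (g.2.1 : T))) :=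
    (AddCircle.measurable_mk'.comp measurable_fst).prodMk
      (AddCircle.measurable_mk'.comp (measurable_fst.comp measurable_snd))
  have h2 : Measurable (fun g : ℝ × ℝ × ℝ => g.2.2 - (⌊g.1⌋ : ℝ) * g.2.1) := by
    have : Measurable (fun g : ℝ × ℝ × ℝ => (⌊g.1⌋ : ℝ)) :=
      (measurable_of_countable (fun n : ℤ => (n : ℝ))).comp (Int.measurable_floor.comp measurable_fst)
    fun_prop
  exact h1.prodMk (AddCircle.measurable_mk'.comp h2)

theorem measurable_r : Measurable r := (measurable_iff r).2 measurable_r0

/-- The inverse of the coordinates. -/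
noncomputable def s (q : (T × T) × T) : M := proj (mk (rep q.1.1) (rep q.1.2) (rep q.2))

theorem measurable_s : Measurable s := by
  refine continuous_proj.measurable.comp ?_
  have : Measurable (fun q : (T × T) × T => (rep q.1.1, rep q.1.2, rep q.2)) :=
    (measurable_rep.comp (measurable_fst.comp measurable_fst)).prodMk
      ((measurable_rep.comp (measurable_snd.comp measurable_fst)).prodMk
        (measurable_rep.comp measurable_snd))
  exact this

theorem r_s (q : (T × T) × T) : r (s q) = q := by
  rw [s, r_proj]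
  simp only [r0, mk_fst, mk_snd, mk_trd, floor_rep, Int.cast_zero, zero_mul, sub_zero, coe_rep]

theorem s_r (p : M) : s (r p) = p := by
  obtain ⟨g, rfl⟩ := proj_surjective p
  rw [r_proj, s]
  simp only [r0, rep_coe]
  symm
  rw [proj_eq_iff]
  refine ⟨mk ⌊g.1⌋ ⌊g.2.1⌋ ((⌊g.2.2 - (⌊g.1⌋ : ℝ) * g.2.1⌋ + ⌊g.1⌋ * ⌊g.2.1⌋ : ℤ) : ℝ),
    ⟨_, _, _, rfl⟩, ?_⟩
  rw [mul_def]
  apply ext3
  · simp only [mk_fst]
    exact Int.floor_add_fract _
  · simp only [mk_snd]
    exact Int.floor_add_fract _
  · simp only [mk_fst, mk_snd, mk_trd, Int.fract]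
    push_cast
    ring

/-- The coordinates as a measurable equivalence. -/
noncomputable def coords : M ≃ᵐ (T × T) × T where
  toFun := r
  invFun := s
  left_inv := s_r
  right_inv := r_s
  measurable_toFun := measurable_r
  measurable_invFun := measurable_s

theorem measurePreserving_coe : MeasurePreserving (fun x : ℝ => (x : T))
    (volume.restrict (Ico 0 1)) volume := by
  have h := AddCircle.measurePreserving_mk (1 : ℝ) 0
  rw [zero_add] at h
  rw [Measure.restrict_congr_set Ico_ae_eq_Ioc]
  exact h

theorem map_r0 : Measure.map (fun g : ℝ × ℝ × ℝ => r0 g)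
    ((volume : Measure (ℝ × ℝ × ℝ)).restrict
      (Ico (0 : ℝ) 1 ×ˢ (Ico (0 : ℝ) 1 ×ˢ Ico (0 : ℝ) 1))) = volume := by
  have h1 : (volume : Measure (ℝ × ℝ × ℝ)).restrict
      (Ico (0 : ℝ) 1 ×ˢ (Ico (0 : ℝ) 1 ×ˢ Ico (0 : ℝ) 1)) =
      (volume.restrict (Ico (0 : ℝ) 1)).prod
        ((volume.restrict (Ico (0 : ℝ) 1)).prod (volume.restrict (Ico (0 : ℝ) 1))) := by
    rw [Measure.prod_restrict, Measure.prod_restrict]
    rfl
  have h2 := (measurePreserving_coe.prod (measurePreserving_coe.prod measurePreserving_coe))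
  have h3 : MeasurePreserving (MeasurableEquiv.prodAssoc (α := T) (β := T) (γ := T)).symm
      ((volume : Measure T).prod ((volume : Measure T).prod (volume : Measure T)))
      (((volume : Measure T).prod (volume : Measure T)).prod (volume : Measure T)) :=
    (measurePreserving_prodAssoc (volume : Measure T) (volume : Measure T)
      (volume : Measure T)).symm
  have h4 := (h3.comp h2).map_eq
  rw [← h1] at h4
  have h5 : (volume : Measure ((T × T) × T)) =
    ((volume : Measure T).prod (volume : Measure T)).prod (volume : Measure T) := rfl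
  rw [h5, ← h4]
  refine Measure.map_congr ?_
  have hms : MeasurableSet (Ico (0 : ℝ) 1 ×ˢ (Ico (0 : ℝ) 1 ×ˢ Ico (0 : ℝ) 1)) :=
    measurableSet_Ico.prod (measurableSet_Ico.prod measurableSet_Ico)
  filter_upwards [ae_restrict_mem hms] with g hg
  have hf : ⌊g.1⌋ = 0 := by
    rw [Int.floor_eq_zero_iff]; exact hg.1
  simp only [r0, hf, Int.cast_zero, zero_mul, sub_zero, Function.comp, Prod.map]
  rfl

/-- The Haar measure of the nilmanifold is the Haar measure of the torus in coordinates. -/
theorem map_r : Measure.map r μ = volume := by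
  unfold μ
  rw [Measure.map_map measurable_r continuous_proj.measurable]
  exact map_r0

theorem measurePreserving_r : MeasurePreserving r μ volume := ⟨measurable_r, map_r⟩

instance : IsProbabilityMeasure (volume : Measure T) := ⟨UnitAddCircle.measure_univ⟩

instance : IsProbabilityMeasure (volume : Measure ((T × T) × T)) := by
  have : IsProbabilityMeasure (((volume : Measure T).prod (volume : Measure T)).prod
    (volume : Measure T)) := inferInstance
  exact this

instance : IsProbabilityMeasure μ := by
  refine ⟨?_⟩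
  have h := congrArg (fun ν => ν univ) map_r
  simp only [Measure.map_apply measurable_r MeasurableSet.univ, preimage_univ, measure_univ] at h
  exact h

/-- Two measures on the nilmanifold with the same image in coordinates are equal. -/
theorem eq_of_map_r {m m' : Measure M} (h : Measure.map r m = Measure.map r m') : m = m' := by
  have h2 := congrArg (Measure.map s) h
  have hid : s ∘ r = id := funext s_r
  rw [Measure.map_map measurable_s measurable_r, Measure.map_map measurable_s measurable_r, hid,
    Measure.map_id, Measure.map_id] at h2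
  exact h2

/-! ### Right translations -/

/-- The fibre component of a right translation. -/
noncomputable def fib (h : H) (q : T × T) : T :=
  ((h.2.2 + rep q.1 * h.2.1 - (⌊rep q.1 + h.1⌋ : ℝ) * (rep q.2 + h.2.1) : ℝ) : T)

theorem measurable_fib (h : H) : Measurable (fib h) := by
  have h1 : Measurable (fun q : T × T => rep q.1) := measurable_rep.comp measurable_fst
  have h2 : Measurable (fun q : T × T => rep q.2) := measurable_rep.comp measurable_snd
  have h3 : Measurable (fun q : T × T => (⌊rep q.1 + h.1⌋ : ℝ)) :=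
    (measurable_of_countable (fun n : ℤ => (n : ℝ))).comp
      (Int.measurable_floor.comp (h1.add_const _))
  exact AddCircle.measurable_mk'.comp (by fun_prop)

theorem r_rmul (h : H) (p : M) :
    r (rmul h p) = (((r p).1.1 + (h.1 : T), (r p).1.2 + (h.2.1 : T)), (r p).2 + fib h (r p).1) := by
  obtain ⟨q, rfl⟩ : ∃ q, p = s q := ⟨r p, (s_r p).symm⟩
  rw [r_s]
  change r (rmul h (proj (mk (rep q.1.1) (rep q.1.2) (rep q.2)))) = _
  rw [rmul_proj, r_proj, mul_def]
  simp only [r0, mk_fst, mk_snd, mk_trd]
  refine Prod.ext (Prod.ext ?_ ?_) ?_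
  · simp only [AddCircle.coe_add, coe_rep]
  · simp only [AddCircle.coe_add, coe_rep]
  · simp only [fib]
    conv_rhs => rw [← coe_rep q.2]
    rw [← AddCircle.coe_add]
    congr 1
    ring

theorem measurable_rmul (h : H) : Measurable (rmul h) := by
  rw [measurable_iff]
  exact (continuous_proj.comp (continuous_mul_right h)).measurable

theorem measurePreserving_skew (a b : T) (f : T × T → T) (hf : Measurable f) :
    MeasurePreserving (fun q : (T × T) × T => ((q.1.1 + a, q.1.2 + b), q.2 + f q.1))
      volume volume := by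
  have h1 : MeasurePreserving (fun q : T × T => (q.1 + a, q.2 + b))
      ((volume : Measure T).prod (volume : Measure T))
      ((volume : Measure T).prod (volume : Measure T)) :=
    (measurePreserving_add_right volume a).prod (measurePreserving_add_right volume b)
  exact h1.skew_product (g := fun q z => z + f q)
    (measurable_snd.add (hf.comp measurable_fst))
    (Eventually.of_forall fun q => (measurePreserving_add_right volume (f q)).map_eq)

/-- Right translations preserve the Haar measure. -/
theorem measurePreserving_rmul (h : H) : MeasurePreserving (rmul h) μ μ := by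
  refine ⟨measurable_rmul h, eq_of_map_r ?_⟩
  rw [Measure.map_map measurable_r (measurable_rmul h)]
  have e : r ∘ rmul h = (fun q : (T × T) × T => ((q.1.1 + (h.1 : T), q.1.2 + (h.2.1 : T)),
      q.2 + fib h q.1)) ∘ r := funext fun p => r_rmul h p
  have hs := measurePreserving_skew (h.1 : T) (h.2.1 : T) (fib h) (measurable_fib h)
  rw [e, ← Measure.map_map hs.measurable measurable_r, map_r, hs.map_eq]

/-! ### The flow property -/

theorem rmul_rmul (g h : H) (p : M) : rmul h (rmul g p) = rmul (g * h) p := by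
  obtain ⟨k, rfl⟩ := proj_surjective p
  rw [rmul_proj, rmul_proj, rmul_proj, mul_assoc]

theorem expo_add (X : ℝ × ℝ × ℝ) (t t' : ℝ) :
    expo (t • X) * expo (t' • X) = expo ((t + t') • X) := by
  rw [mul_def]
  apply ext3
  · simp only [expo, mk_fst, Prod.smul_fst, smul_eq_mul]; ring
  · simp only [expo, mk_snd, Prod.smul_fst, Prod.smul_snd, smul_eq_mul]; ring
  · simp only [expo, mk_fst, mk_snd, mk_trd, Prod.smul_fst, Prod.smul_snd, smul_eq_mul]; ring

theorem nilflow_add (X : ℝ × ℝ × ℝ) (t t' : ℝ) (p : M) :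
    nilflow X t' (nilflow X t p) = nilflow X (t + t') p := by
  unfold nilflow
  rw [rmul_rmul, expo_add]

theorem nilflow_zero (X : ℝ × ℝ × ℝ) (p : M) : nilflow X 0 p = p := by
  obtain ⟨k, rfl⟩ := proj_surjective p
  have : expo ((0 : ℝ) • X) = 1 := by
    apply ext3 <;> simp only [expo, mk_fst, mk_snd, mk_trd, Prod.smul_fst, Prod.smul_snd,
      smul_eq_mul, zero_mul, zero_div, add_zero] <;> rfl
  rw [nilflow, rmul_proj, this, mul_one]

end Q70.Heis
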