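import Pool.Agent.Q70.Heis2

/-!
# Unique ergodicity of the irrational Heisenberg nilflow
-/

set_option autoImplicit false
open MeasureTheory Filter Topology Set

namespace Q70.Heis

/-- Finite measures on a torus with equal Fourier coefficients are equal. -/
theorem torus_ext {d : ℕ} (m m' : Measure (UnitAddTorus (Fin d))) [IsFiniteMeasure m]
    [IsFiniteMeasure m']
    (h : ∀ n : Fin d → ℤ, ∫ x, (UnitAddTorus.mFourier n x : ℂ) ∂m =
      ∫ x, (UnitAddTorus.mFourier n x : ℂ) ∂m') : m = m' := by
  have hint : ∀ (f : C(UnitAddTorus (Fin d), ℂ)) (ν : Measure (UnitAddTorus (Fin d)))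
      [IsFiniteMeasure ν], Integrable (fun x => f x) ν := by
    intro f ν _
    exact (f.continuous.integrable_of_hasCompactSupport (HasCompactSupport.of_compactSpace _))
  let L : ∀ ν : Measure (UnitAddTorus (Fin d)), IsFiniteMeasure ν →
      (C(UnitAddTorus (Fin d), ℂ) →L[ℂ] ℂ) :=
    fun ν hν => LinearMap.mkContinuous
      { toFun := fun f => ∫ x, f x ∂ν
        map_add' := fun f g => by
          have := hν
          simp only [ContinuousMap.add_apply]
          exact integral_add (hint f ν) (hint g ν)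
        map_smul' := fun c f => by
          simp only [ContinuousMap.smul_apply, RingHom.id_apply]
          exact integral_smul c _ } (ν.real univ) (fun f => by
          have := hν
          have := norm_integral_le_of_norm_le_const (μ := ν) (f := fun x => f x) (C := ‖f‖)
            (Eventually.of_forall fun x => f.norm_coe_le_norm x)
          simpa [mul_comm] using this)
  have hL : L m inferInstance = L m' inferInstance := by
    have hdense : Dense ((Submodule.span ℂ (range (UnitAddTorus.mFourier (d := Fin d))) :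
        Submodule ℂ _) : Set C(UnitAddTorus (Fin d), ℂ)) := by
      rw [Submodule.dense_iff_topologicalClosure_eq_top]
      exact UnitAddTorus.span_mFourier_closure_eq_top
    refine ContinuousLinearMap.ext_on hdense ?_
    rintro _ ⟨n, rfl⟩
    exact h n
  have hL' : ∀ f : C(UnitAddTorus (Fin d), ℂ), ∫ x, f x ∂m = ∫ x, f x ∂m' := by
    intro f
    exact congrArg (fun φ : C(UnitAddTorus (Fin d), ℂ) →L[ℂ] ℂ => φ f) hL
  apply ext_of_forall_integral_eq_of_IsFiniteMeasure
  intro f
  let g : C(UnitAddTorus (Fin d), ℂ) := ⟨fun x => ((f x : ℝ) : ℂ), by fun_prop⟩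
  have := hL' g
  have e1 : ∀ ν : Measure (UnitAddTorus (Fin d)), ∫ x, g x ∂ν = ((∫ x, f x ∂ν : ℝ) : ℂ) := by
    intro ν
    exact integral_ofReal
  rw [e1, e1] at this
  exact_mod_cast this

/-- The characters. -/
noncomputable def ch (a b k : ℤ) (q : (T × T) × T) : ℂ :=
  fourier a q.1.1 * fourier b q.1.2 * fourier k q.2

theorem measurable_ch (a b k : ℤ) : Measurable (ch a b k) := by
  have : Continuous (ch a b k) := by
    unfold ch
    have h1 := (fourier a : C(AddCircle (1 : ℝ), ℂ)).continuous
    have h2 := (fourier b : C(AddCircle (1 : ℝ), ℂ)).continuous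
    have h3 := (fourier k : C(AddCircle (1 : ℝ), ℂ)).continuous
    fun_prop
  exact this.measurable

theorem norm_fourier (n : ℤ) (x : T) : ‖(fourier n x : ℂ)‖ = 1 := by
  rw [fourier_apply]; exact Circle.norm_coe _

theorem norm_ch (a b k : ℤ) (q : (T × T) × T) : ‖ch a b k q‖ = 1 := by
  unfold ch
  rw [norm_mul, norm_mul, norm_fourier, norm_fourier, norm_fourier]; norm_num

theorem fourier_add_pt (n : ℤ) (x y : T) :
    (fourier n (x + y) : ℂ) = fourier n x * fourier n y := by
  rw [fourier_apply, fourier_apply, fourier_apply, smul_add, AddCircle.toCircle_add]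
  push_cast
  rfl

theorem prod3_ext (m m' : Measure ((T × T) × T)) [IsFiniteMeasure m] [IsFiniteMeasure m']
    (h : ∀ a b k : ℤ, ∫ x, ch a b k x ∂m = ∫ x, ch a b k x ∂m') : m = m' := by
  let j : (T × T) × T → UnitAddTorus (Fin 3) := fun q => ![q.1.1, q.1.2, q.2]
  have hj : Measurable j := by
    refine measurable_pi_iff.2 ?_
    intro i
    fin_cases i
    · exact measurable_fst.comp measurable_fst
    · exact measurable_snd.comp measurable_fst
    · exact measurable_snd
  let j' : UnitAddTorus (Fin 3) → (T × T) × T := fun g => ((g 0, g 1), g 2)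
  have hj' : Measurable j' :=
    ((measurable_pi_apply 0).prodMk (measurable_pi_apply 1)).prodMk (measurable_pi_apply 2)
  have hmap : Measure.map j m = Measure.map j m' := by
    have := Measure.isFiniteMeasure_map m j
    have := Measure.isFiniteMeasure_map m' j
    apply torus_ext
    intro n
    have key : ∀ ν : Measure ((T × T) × T), ∫ x, (UnitAddTorus.mFourier n x : ℂ) ∂(Measure.map j ν) =
        ∫ x, ch (n 0) (n 1) (n 2) x ∂ν := by
      intro ν
      rw [integral_map hj.aemeasurable
        ((UnitAddTorus.mFourier n).continuous.aestronglyMeasurable)]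
      refine integral_congr_ae (Eventually.of_forall fun q => ?_)
      simp only [UnitAddTorus.mFourier, ContinuousMap.coe_mk, Fin.prod_univ_three, ch, j]
      rfl
    rw [key, key, h]
  have h2 := congrArg (Measure.map j') hmap
  have hid : j' ∘ j = id := rfl
  rw [Measure.map_map hj' hj, Measure.map_map hj' hj, hid, Measure.map_id, Measure.map_id] at h2
  exact h2

theorem prod2_ext (m m' : Measure (T × T)) [IsFiniteMeasure m] [IsFiniteMeasure m']
    (h : ∀ a b : ℤ, ∫ x, ch a b 0 (x, 0) ∂m = ∫ x, ch a b 0 (x, 0) ∂m') : m = m' := by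
  have hj : Measurable (fun q : T × T => (q, (0 : T))) := measurable_prodMk_right
  have hmap : Measure.map (fun q : T × T => (q, (0 : T))) m =
      Measure.map (fun q : T × T => (q, (0 : T))) m' := by
    have := Measure.isFiniteMeasure_map m (fun q : T × T => (q, (0 : T)))
    have := Measure.isFiniteMeasure_map m' (fun q : T × T => (q, (0 : T)))
    apply prod3_ext
    intro a b k
    have key : ∀ ν : Measure (T × T),
        ∫ x, ch a b k x ∂(Measure.map (fun q : T × T => (q, (0 : T))) ν) =
        ∫ x, ch a b 0 (x, 0) ∂ν := by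
      intro ν
      rw [integral_map hj.aemeasurable (measurable_ch a b k).aestronglyMeasurable]
      refine integral_congr_ae (Eventually.of_forall fun q => ?_)
      simp only [ch, fourier_eval_zero]
    rw [key, key, h]
  have h2 := congrArg (Measure.map Prod.fst) hmap
  have hid : (Prod.fst : (T × T) × T → T × T) ∘ (fun q : T × T => (q, (0 : T))) = id := rfl
  rw [Measure.map_map measurable_fst hj, Measure.map_map measurable_fst hj, hid, Measure.map_id,
    Measure.map_id] at h2
  exact h2

/-- The character of the nilmanifold. -/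
noncomputable def chM (a b k : ℤ) (p : M) : ℂ := ch a b k (r p)

theorem measurable_chM (a b k : ℤ) : Measurable (chM a b k) := (measurable_ch a b k).comp measurable_r

theorem norm_chM (a b k : ℤ) (p : M) : ‖chM a b k p‖ = 1 := norm_ch _ _ _ _

theorem integrable_of_bound (m : Measure M) [IsFiniteMeasure m] (f : M → ℂ) (hf : Measurable f)
    (C : ℝ) (h : ∀ p, ‖f p‖ ≤ C) : Integrable f m :=
  Integrable.of_bound hf.aestronglyMeasurable C (Eventually.of_forall h)

/-- The multiplier of a character under a right translation. -/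
noncomputable def mult (a b k : ℤ) (h : H) (q : T × T) : ℂ :=
  fourier a (h.1 : T) * fourier b (h.2.1 : T) * fourier k (fib h q)

theorem chM_rmul (a b k : ℤ) (h : H) (p : M) :
    chM a b k (rmul h p) = chM a b k p * mult a b k h (r p).1 := by
  unfold chM ch mult
  rw [r_rmul]
  simp only [fourier_add_pt]
  ring

theorem measurable_mult (a b k : ℤ) (h : H) : Measurable (mult a b k h) := by
  unfold mult
  exact ((fourier k : C(AddCircle (1 : ℝ), ℂ)).continuous.measurable.comp
    (measurable_fib h)).const_mul _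

theorem norm_mult (a b k : ℤ) (h : H) (q : T × T) : ‖mult a b k h q‖ = 1 := by
  unfold mult
  rw [norm_mul, norm_mul, norm_fourier, norm_fourier, norm_fourier]; norm_num

theorem fourier_real (n : ℤ) (x : ℝ) :
    (fourier n (x : T) : ℂ) = Complex.exp (Complex.I * ((2 * Real.pi * n * x : ℝ) : ℂ)) := by
  have h := fourier_coe_apply (T := (1 : ℝ)) (n := n) (x := x)
  rw [h]
  congr 1
  push_cast
  ring

theorem norm_one_sub_fourier_le (n : ℤ) (x : ℝ) :
    ‖1 - (fourier n (x : T) : ℂ)‖ ≤ 2 * Real.pi * |n * x| := by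
  rw [fourier_real, norm_sub_rev]
  refine Real.norm_exp_I_mul_ofReal_sub_one_le.trans ?_
  rw [Real.norm_eq_abs]
  have : 2 * Real.pi * (n : ℝ) * x = 2 * Real.pi * (n * x) := by ring
  rw [this, abs_mul, abs_of_pos (by positivity : 0 < 2 * Real.pi)]

theorem fourier_half (n : ℤ) (x : ℝ) (h : (n : ℝ) * x = 1 / 2) : (fourier n (x : T) : ℂ) = -1 := by
  rw [fourier_real]
  have : (2 * Real.pi * n * x : ℝ) = Real.pi := by
    have : (2 * Real.pi * n * x : ℝ) = 2 * Real.pi * (n * x) := by ring
    rw [this, h]; ring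
  rw [this, mul_comm, Complex.exp_pi_mul_I]

/-- central translations -/
theorem fib_central (c : ℝ) (q : T × T) : fib (mk 0 0 c) q = (c : T) := by
  unfold fib
  simp only [mk_fst, mk_snd, mk_trd, mul_zero, add_zero, floor_rep, Int.cast_zero, zero_mul,
    sub_zero]

theorem fib_vert (τ : ℝ) (q : T × T) : fib (mk 0 τ 0) q = ((rep q.1 * τ : ℝ) : T) := by
  unfold fib
  simp only [mk_fst, mk_snd, mk_trd, add_zero, floor_rep, Int.cast_zero, zero_mul,
    sub_zero, zero_add]

theorem coe_zero_T : ((0 : ℝ) : T) = 0 := AddCircle.coe_zero _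

theorem mult_central (a b k : ℤ) (c : ℝ) (q : T × T) :
    mult a b k (mk 0 0 c) q = fourier k (c : T) := by
  unfold mult
  rw [fib_central]
  simp only [mk_fst, mk_snd, coe_zero_T, fourier_eval_zero, one_mul]

theorem mult_vert (a b k : ℤ) (τ : ℝ) (q : T × T) :
    mult a b k (mk 0 τ 0) q = fourier b (τ : T) * fourier k ((rep q.1 * τ : ℝ) : T) := by
  unfold mult
  rw [fib_vert]
  simp only [mk_fst, mk_snd, coe_zero_T, fourier_eval_zero, one_mul]

/-- The direction of the flow. -/
def dir (θ : ℝ) : ℝ × ℝ × ℝ := (1, θ, 0)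

theorem expo_dir (θ t : ℝ) : expo (t • dir θ) = mk t (t * θ) (t * (t * θ) / 2) := by
  apply ext3
  · simp only [expo, dir, mk_fst, Prod.smul_fst, smul_eq_mul]; ring
  · simp only [expo, dir, mk_snd, Prod.smul_fst, Prod.smul_snd, smul_eq_mul]
  · simp only [expo, dir, mk_fst, mk_snd, mk_trd, Prod.smul_fst, Prod.smul_snd, smul_eq_mul]; ring

/-- The commutation relation between the flow and vertical translations. -/
theorem commute (θ t τ : ℝ) (p : M) :
    nilflow (dir θ) t (rmul (mk 0 τ 0) p) =
      rmul (mk 0 0 (-(t * τ))) (rmul (mk 0 τ 0) (nilflow (dir θ) t p)) := by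
  unfold nilflow
  rw [rmul_rmul, rmul_rmul, rmul_rmul, expo_dir]
  congr 1
  simp only [mul_def]
  apply ext3 <;> simp only [mk_fst, mk_snd, mk_trd] <;> ring

theorem corr_bound (θ : ℝ) (a b k : ℤ) (hk : k ≠ 0) (t : ℝ) (ht : t ≠ 0) :
    ‖∫ p, chM a b k (nilflow (dir θ) t p) * (starRingEnd ℂ) (chM a b k p) ∂μ‖ ≤
      Real.pi / (2 * |t|) := by
  have hk' : (k : ℝ) ≠ 0 := by exact_mod_cast hk
  set τ : ℝ := 1 / (2 * k * t) with hτ
  have hkτ : (k : ℝ) * τ = 1 / (2 * t) := by rw [hτ]; field_simp
  set G : M → ℂ := fun p => chM a b k (nilflow (dir θ) t p) * (starRingEnd ℂ) (chM a b k p) with hG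
  have hGm : Measurable G := by
    have h1 := (measurable_chM a b k).comp (measurable_rmul (expo (t • dir θ)))
    exact h1.mul (Complex.continuous_conj.measurable.comp (measurable_chM a b k))
  have hGn : ∀ p, ‖G p‖ = 1 := by
    intro p
    rw [hG]; simp only
    rw [norm_mul, RCLike.norm_conj, norm_chM, norm_chM, mul_one]
  set E : M → ℂ := fun p =>
    fourier k (((rep (r (nilflow (dir θ) t p)).1.1 - rep (r p).1.1) * τ : ℝ) : T) with hE
  have hEm : Measurable E := by
    refine (fourier k : C(AddCircle (1 : ℝ), ℂ)).continuous.measurable.comp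
      (AddCircle.measurable_mk'.comp ?_)
    have h1 : Measurable (fun p => rep (r p).1.1) :=
      measurable_rep.comp (measurable_fst.comp (measurable_fst.comp measurable_r))
    exact ((h1.comp (measurable_rmul (expo (t • dir θ)))).sub h1).mul_const _
  have hEn : ∀ p, ‖E p‖ = 1 := fun p => norm_fourier _ _
  have hGy : ∀ p, G (rmul (mk 0 τ 0) p) = - (G p * E p) := by
    intro p
    have e1 : chM a b k (nilflow (dir θ) t (rmul (mk 0 τ 0) p)) =
        - (chM a b k (nilflow (dir θ) t p) * (fourier b (τ : T) *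
          fourier k ((rep (r (nilflow (dir θ) t p)).1.1 * τ : ℝ) : T))) := by
      rw [commute, chM_rmul, chM_rmul, mult_central, mult_vert]
      have : (fourier k ((-(t * τ) : ℝ) : T) : ℂ) = -1 := by
        have h3 : ((-(t * τ) : ℝ) : T) = -((t * τ : ℝ) : T) := AddCircle.coe_neg (1 : ℝ)
        have h4 : (fourier k ((t * τ : ℝ) : T) : ℂ) = -1 := by
          apply fourier_half
          rw [← mul_assoc, mul_comm (k : ℝ) t, mul_assoc, hkτ]
          field_simp
        have h5 : (fourier k (-((t * τ : ℝ) : T)) : ℂ) * fourier k ((t * τ : ℝ) : T) = 1 := by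
          rw [← fourier_add_pt, neg_add_cancel, fourier_eval_zero]
        rw [h3]
        rw [h4] at h5
        linear_combination -h5
      rw [this]
      ring
    have e2 : chM a b k (rmul (mk 0 τ 0) p) = chM a b k p * (fourier b (τ : T) *
          fourier k ((rep (r p).1.1 * τ : ℝ) : T)) := by
      rw [chM_rmul, mult_vert]
    have e3 : (fourier k ((rep (r (nilflow (dir θ) t p)).1.1 * τ : ℝ) : T) : ℂ) *
        (starRingEnd ℂ) (fourier k ((rep (r p).1.1 * τ : ℝ) : T)) = E p := by
      have h6 : (((rep (r (nilflow (dir θ) t p)).1.1 - rep (r p).1.1) * τ : ℝ) : T) +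
          ((rep (r p).1.1 * τ : ℝ) : T) = ((rep (r (nilflow (dir θ) t p)).1.1 * τ : ℝ) : T) := by
        rw [← AddCircle.coe_add]; congr 1; ring
      rw [← h6, fourier_add_pt, mul_assoc, Complex.mul_conj, Complex.normSq_eq_norm_sq,
        norm_fourier]
      simp [hE]
    have e4 : (fourier b (τ : T) : ℂ) * (starRingEnd ℂ) (fourier b (τ : T)) = 1 := by
      rw [Complex.mul_conj, Complex.normSq_eq_norm_sq, norm_fourier]; simp
    rw [hG]; simp only
    rw [e1, e2, map_mul, map_mul]
    calc _ = -((chM a b k (nilflow (dir θ) t p) * (starRingEnd ℂ) (chM a b k p)) *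
          ((fourier b (τ : T) : ℂ) * (starRingEnd ℂ) (fourier b (τ : T))) *
          ((fourier k ((rep (r (nilflow (dir θ) t p)).1.1 * τ : ℝ) : T) : ℂ) *
            (starRingEnd ℂ) (fourier k ((rep (r p).1.1 * τ : ℝ) : T)))) := by ring
      _ = _ := by rw [e3, e4, mul_one]
  have hmp := measurePreserving_rmul (mk 0 τ 0)
  have hint : ∫ p, G p ∂μ = ∫ p, - (G p * E p) ∂μ := by
    calc ∫ p, G p ∂μ = ∫ p, G p ∂(Measure.map (rmul (mk 0 τ 0)) μ) := by rw [hmp.map_eq]
      _ = ∫ p, G (rmul (mk 0 τ 0) p) ∂μ :=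
        integral_map hmp.measurable.aemeasurable hGm.aestronglyMeasurable
      _ = _ := by simp only [hGy]
  have hiG : Integrable G μ := integrable_of_bound μ G hGm 1 fun p => (hGn p).le
  have hiGE : Integrable (fun p => G p * E p) μ :=
    integrable_of_bound μ _ (hGm.mul hEm) 1 fun p => by rw [norm_mul, hGn, hEn, mul_one]
  have h2 : 2 * ∫ p, G p ∂μ = ∫ p, G p * (1 - E p) ∂μ := by
    have : ∫ p, G p * (1 - E p) ∂μ = ∫ p, G p ∂μ - ∫ p, G p * E p ∂μ := by
      rw [← integral_sub hiG hiGE]
      refine integral_congr_ae (Eventually.of_forall fun p => ?_)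
      simp only
      ring
    rw [this, two_mul]
    rw [integral_neg] at hint
    linear_combination hint
  have hbound : ∀ p, ‖G p * (1 - E p)‖ ≤ Real.pi / |t| := by
    intro p
    rw [norm_mul, hGn, one_mul, hE]
    refine (norm_one_sub_fourier_le k _).trans ?_
    have h7 : (k : ℝ) * ((rep (r (nilflow (dir θ) t p)).1.1 - rep (r p).1.1) * τ) =
        (rep (r (nilflow (dir θ) t p)).1.1 - rep (r p).1.1) * (1 / (2 * t)) := by
      rw [← hkτ]; ring
    rw [h7, abs_mul, abs_div, abs_one, abs_mul, abs_two]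
    have h8 : |rep (r (nilflow (dir θ) t p)).1.1 - rep (r p).1.1| ≤ 1 := by
      have a1 := rep_nonneg (r p).1.1
      have a2 := rep_lt_one (r p).1.1
      have a3 := rep_nonneg (r (nilflow (dir θ) t p)).1.1
      have a4 := rep_lt_one (r (nilflow (dir θ) t p)).1.1
      exact abs_le.2 ⟨by linarith, by linarith⟩
    have ht' : 0 < |t| := abs_pos.2 ht
    calc 2 * Real.pi * (|rep (r (nilflow (dir θ) t p)).1.1 - rep (r p).1.1| * (1 / (2 * |t|)))
        ≤ 2 * Real.pi * (1 * (1 / (2 * |t|))) := by gcongr
      _ = Real.pi / |t| := by field_simp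
  have h9 := norm_integral_le_of_norm_le_const (μ := μ) (Eventually.of_forall hbound)
  rw [← h2, norm_mul, probReal_univ, mul_one] at h9
  simp only [Complex.norm_ofNat] at h9
  have ht' : 0 < |t| := abs_pos.2 ht
  rw [show Real.pi / (2 * |t|) = (Real.pi / |t|) / 2 by field_simp]
  linarith

/-! ### Unique ergodicity -/

theorem nilflow_eq (θ t : ℝ) (p : M) :
    nilflow (dir θ) t p = rmul (mk t (t * θ) (t * (t * θ) / 2)) p := by
  unfold nilflow
  rw [expo_dir]

theorem measurable_nilflow (X : ℝ × ℝ × ℝ) (t : ℝ) : Measurable (nilflow X t) :=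
  measurable_rmul _

theorem measurePreserving_nilflow (X : ℝ × ℝ × ℝ) (t : ℝ) :
    MeasurePreserving (nilflow X t) μ μ := measurePreserving_rmul _

/-- The Fourier coefficients of charge zero of an invariant measure. -/
theorem coeff_zero (θ : ℝ) (hθ : Irrational θ) (m : Measure M)
    (hm : ∀ t, Measure.map (nilflow (dir θ) t) m = m) (a b : ℤ) (hab : (a, b) ≠ 0) :
    ∫ p, chM a b 0 p ∂m = 0 := by
  have hne : (a : ℝ) + b * θ ≠ 0 := by
    intro h
    by_cases hb : b = 0
    · subst hb
      simp only [Int.cast_zero, zero_mul, add_zero] at h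
      have : a = 0 := by exact_mod_cast h
      exact hab (by simp [this])
    · have hirr : Irrational ((b : ℝ) * θ) := hθ.intCast_mul hb
      apply hirr
      exact ⟨-a, by push_cast; linarith⟩
  set t : ℝ := 1 / (2 * ((a : ℝ) + b * θ)) with ht
  have h1 : ∀ p, chM a b 0 (nilflow (dir θ) t p) = - chM a b 0 p := by
    intro p
    rw [nilflow_eq, chM_rmul]
    have : mult a b 0 (mk t (t * θ) (t * (t * θ) / 2)) (r p).1 = -1 := by
      unfold mult
      simp only [mk_fst, mk_snd, fourier_zero, mul_one]
      rw [fourier_real, fourier_real, ← Complex.exp_add, ← mul_add]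
      have e : (((2 * Real.pi * a * t : ℝ) : ℂ) + ((2 * Real.pi * b * (t * θ) : ℝ) : ℂ)) =
          ((Real.pi : ℝ) : ℂ) := by
        rw [← Complex.ofReal_add]
        congr 1
        rw [ht]
        field_simp
      rw [e, mul_comm, Complex.exp_pi_mul_I]
    rw [this]; ring
  have h2 : ∫ p, chM a b 0 p ∂m = ∫ p, chM a b 0 (nilflow (dir θ) t p) ∂m := by
    conv_lhs => rw [← hm t]
    exact integral_map (measurable_nilflow _ _).aemeasurable
      (measurable_chM a b 0).aestronglyMeasurable
  simp only [h1, integral_neg] at h2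
  have h3 : (2 : ℂ) * ∫ p, chM a b 0 p ∂m = 0 := by linear_combination h2
  simpa using h3

theorem base_eq (θ : ℝ) (hθ : Irrational θ) (m : Measure M) [IsProbabilityMeasure m]
    (hm : ∀ t, Measure.map (nilflow (dir θ) t) m = m) :
    Measure.map (fun p => (r p).1) m = Measure.map (fun p => (r p).1) μ := by
  have hb : Measurable (fun p : M => (r p).1) := measurable_fst.comp measurable_r
  have := Measure.isFiniteMeasure_map m (fun p : M => (r p).1)
  have := Measure.isFiniteMeasure_map μ (fun p : M => (r p).1)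
  apply prod2_ext
  intro a b
  have key : ∀ ν : Measure M, ∫ x, ch a b 0 (x, 0) ∂(Measure.map (fun p => (r p).1) ν) =
      ∫ p, chM a b 0 p ∂ν := by
    intro ν
    have hm0 : Measurable (fun x : T × T => ch a b 0 (x, 0)) :=
      (measurable_ch a b 0).comp measurable_prodMk_right
    rw [integral_map hb.aemeasurable hm0.aestronglyMeasurable]
    refine integral_congr_ae (Eventually.of_forall fun p => ?_)
    simp only [chM, ch, fourier_zero]
  rw [key, key]
  by_cases hab : (a, b) = 0
  · have ha : a = 0 := congrArg Prod.fst hab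
    have hb : b = 0 := congrArg Prod.snd hab
    subst ha hb
    simp only [chM, ch, fourier_zero, mul_one, integral_const, probReal_univ, one_smul]
  · rw [coeff_zero θ hθ m hm a b hab,
      coeff_zero θ hθ μ (fun t => (measurePreserving_nilflow _ t).map_eq) a b hab]

/-- Correlations of a character along the flow are the same for all invariant measures. -/
theorem corr_eq (θ : ℝ) (hθ : Irrational θ) (m : Measure M) [IsProbabilityMeasure m]
    (hm : ∀ t, Measure.map (nilflow (dir θ) t) m = m) (a b k : ℤ) (t t' : ℝ) :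
    ∫ p, chM a b k (nilflow (dir θ) t p) * (starRingEnd ℂ) (chM a b k (nilflow (dir θ) t' p)) ∂m =
    ∫ p, chM a b k (nilflow (dir θ) t p) *
      (starRingEnd ℂ) (chM a b k (nilflow (dir θ) t' p)) ∂μ := by
  set B : T × T → ℂ := fun q => mult a b k (mk t (t * θ) (t * (t * θ) / 2)) q *
    (starRingEnd ℂ) (mult a b k (mk t' (t' * θ) (t' * (t' * θ) / 2)) q) with hB
  have hBm : Measurable B := (measurable_mult _ _ _ _).mul
    (Complex.continuous_conj.measurable.comp (measurable_mult _ _ _ _))
  have h1 : ∀ p : M, chM a b k (nilflow (dir θ) t p) *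
      (starRingEnd ℂ) (chM a b k (nilflow (dir θ) t' p)) = B (r p).1 := by
    intro p
    rw [nilflow_eq, nilflow_eq, chM_rmul, chM_rmul, map_mul]
    have : chM a b k p * (starRingEnd ℂ) (chM a b k p) = 1 := by
      rw [Complex.mul_conj, Complex.normSq_eq_norm_sq, norm_chM]; simp
    rw [hB]; simp only
    linear_combination (mult a b k (mk t (t * θ) (t * (t * θ) / 2)) (r p).1 *
      (starRingEnd ℂ) (mult a b k (mk t' (t' * θ) (t' * (t' * θ) / 2)) (r p).1)) * this
  simp only [h1]
  have hb : Measurable (fun p : M => (r p).1) := measurable_fst.comp measurable_r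
  rw [← integral_map (φ := fun p : M => (r p).1) hb.aemeasurable hBm.aestronglyMeasurable,
    ← integral_map (φ := fun p : M => (r p).1) hb.aemeasurable hBm.aestronglyMeasurable,
    base_eq θ hθ m hm]

theorem corr_bound2 (θ : ℝ) (hθ : Irrational θ) (m : Measure M) [IsProbabilityMeasure m]
    (hm : ∀ t, Measure.map (nilflow (dir θ) t) m = m) (a b k : ℤ) (hk : k ≠ 0) (t t' : ℝ)
    (htt : t ≠ t') :
    ‖∫ p, chM a b k (nilflow (dir θ) t p) *
      (starRingEnd ℂ) (chM a b k (nilflow (dir θ) t' p)) ∂m‖ ≤ Real.pi / (2 * |t - t'|) := by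
  rw [corr_eq θ hθ m hm]
  have h1 : ∫ p, chM a b k (nilflow (dir θ) t p) *
      (starRingEnd ℂ) (chM a b k (nilflow (dir θ) t' p)) ∂μ =
      ∫ p, chM a b k (nilflow (dir θ) (t - t') p) * (starRingEnd ℂ) (chM a b k p) ∂μ := by
    have hmp := measurePreserving_nilflow (dir θ) t'
    have hGm : Measurable (fun p => chM a b k (nilflow (dir θ) (t - t') p) *
        (starRingEnd ℂ) (chM a b k p)) :=
      ((measurable_chM a b k).comp (measurable_nilflow _ _)).mul
        (Complex.continuous_conj.measurable.comp (measurable_chM a b k))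
    conv_rhs => rw [← hmp.map_eq]
    rw [integral_map hmp.measurable.aemeasurable hGm.aestronglyMeasurable]
    refine integral_congr_ae (Eventually.of_forall fun p => ?_)
    simp only
    rw [nilflow_add, add_sub_cancel]
  rw [h1]
  exact corr_bound θ a b k hk _ (sub_ne_zero.2 htt)

/-- The Fourier coefficients of nonzero charge of an invariant measure. -/
theorem coeff_charge (θ : ℝ) (hθ : Irrational θ) (m : Measure M) [IsProbabilityMeasure m]
    (hm : ∀ t, Measure.map (nilflow (dir θ) t) m = m) (a b k : ℤ) (hk : k ≠ 0) :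
    ∫ p, chM a b k p ∂m = 0 := by
  set c : ℂ := ∫ p, chM a b k p ∂m with hc
  -- the basic inequality
  have basic : ∀ (K : ℕ) (σ : ℝ), 0 < σ →
      (K : ℝ) ^ 2 * ‖c‖ ^ 2 ≤ K + (K : ℝ) ^ 2 * (Real.pi / (2 * σ)) := by
    intro K σ hσ
    set S : M → ℂ := fun p => ∑ i ∈ Finset.range K, chM a b k (nilflow (dir θ) (i * σ) p) with hS
    have hmi : ∀ i : ℕ, Measurable (fun p => chM a b k (nilflow (dir θ) (i * σ) p)) := fun i =>
      (measurable_chM a b k).comp (measurable_nilflow _ _)
    have hii : ∀ i : ℕ, Integrable (fun p => chM a b k (nilflow (dir θ) (i * σ) p)) m := fun i =>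
      integrable_of_bound m _ (hmi i) 1 fun p => (norm_chM _ _ _ _).le
    have hSm : Measurable S := Finset.measurable_sum _ fun i _ => hmi i
    have hSb : ∀ p, ‖S p‖ ≤ K := by
      intro p
      refine (norm_sum_le _ _).trans ?_
      simp [norm_chM]
    have hint1 : ∫ p, S p ∂m = K * c := by
      rw [hS, integral_finsetSum _ fun i _ => hii i]
      have : ∀ i : ℕ, ∫ p, chM a b k (nilflow (dir θ) (i * σ) p) ∂m = c := by
        intro i
        rw [hc]
        conv_rhs => rw [← hm (i * σ)]
        exact (integral_map (measurable_nilflow _ _).aemeasurable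
          (measurable_chM a b k).aestronglyMeasurable).symm
      simp [this]
    have hSi : Integrable (fun p => ‖S p‖ ^ 2) m := by
      refine Integrable.of_bound (hSm.norm.pow_const 2).aestronglyMeasurable ((K : ℝ) ^ 2)
        (Eventually.of_forall fun p => ?_)
      rw [Real.norm_eq_abs, abs_of_nonneg (by positivity)]
      exact pow_le_pow_left₀ (norm_nonneg _) (hSb p) 2
    -- Cauchy-Schwarz
    have hCS : ‖∫ p, S p ∂m‖ ^ 2 ≤ ∫ p, ‖S p‖ ^ 2 ∂m := by
      have h1 : ‖∫ p, S p ∂m‖ ≤ ∫ p, ‖S p‖ ∂m := norm_integral_le_integral_norm _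
      have h2 : (∫ p, ‖S p‖ ∂m) ^ 2 ≤ ∫ p, ‖S p‖ ^ 2 ∂m := by
        have hSn : Integrable (fun p => ‖S p‖) m :=
          (integrable_of_bound m S hSm K hSb).norm
        set e := ∫ p, ‖S p‖ ∂m with he
        have h3 : 0 ≤ ∫ p, (‖S p‖ - e) ^ 2 ∂m := integral_nonneg fun p => sq_nonneg _
        have h4 : ∫ p, (‖S p‖ - e) ^ 2 ∂m = ∫ p, ‖S p‖ ^ 2 ∂m - e ^ 2 := by
          have : ∀ p, (‖S p‖ - e) ^ 2 = ‖S p‖ ^ 2 - 2 * e * ‖S p‖ + e ^ 2 := fun p => by ring
          simp only [this]
          have i1 : Integrable (fun p => 2 * e * ‖S p‖) m := hSn.const_mul _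
          have i2 : Integrable (fun p => ‖S p‖ ^ 2 - 2 * e * ‖S p‖) m := hSi.sub i1
          rw [integral_add i2 (integrable_const _),
            integral_sub hSi i1, integral_const_mul, integral_const,
            probReal_univ, ← he]
          simp only [one_smul]
          ring
        linarith
      exact (pow_le_pow_left₀ (norm_nonneg _) h1 2).trans h2
    -- expand the square
    have hexp : ((∫ p, ‖S p‖ ^ 2 ∂m : ℝ) : ℂ) = ∑ i ∈ Finset.range K, ∑ j ∈ Finset.range K,
        ∫ p, chM a b k (nilflow (dir θ) (i * σ) p) *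
          (starRingEnd ℂ) (chM a b k (nilflow (dir θ) (j * σ) p)) ∂m := by
      have h1 : ∀ p, ((‖S p‖ ^ 2 : ℝ) : ℂ) = ∑ i ∈ Finset.range K, ∑ j ∈ Finset.range K,
          chM a b k (nilflow (dir θ) (i * σ) p) *
          (starRingEnd ℂ) (chM a b k (nilflow (dir θ) (j * σ) p)) := by
        intro p
        rw [← Complex.normSq_eq_norm_sq, ← Complex.mul_conj, hS]
        simp only
        rw [map_sum, Finset.sum_mul_sum]
      refine Eq.trans (integral_ofReal (𝕜 := ℂ) (μ := m) (f := fun p => ‖S p‖ ^ 2)).symm ?_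
      refine Eq.trans (integral_congr_ae (Eventually.of_forall h1)) ?_
      have hij : ∀ i j : ℕ, Integrable (fun p => chM a b k (nilflow (dir θ) (i * σ) p) *
          (starRingEnd ℂ) (chM a b k (nilflow (dir θ) (j * σ) p))) m := by
        intro i j
        refine integrable_of_bound m _
          ((hmi i).mul (Complex.continuous_conj.measurable.comp (hmi j))) 1 fun p => ?_
        rw [norm_mul, RCLike.norm_conj, norm_chM, norm_chM, mul_one]
      rw [integral_finsetSum _ fun i _ => integrable_finsetSum _ fun j _ => hij i j]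
      refine Finset.sum_congr rfl fun i _ => ?_
      rw [integral_finsetSum _ fun j _ => hij i j]
    have hterm : ∀ i j : ℕ, ‖∫ p, chM a b k (nilflow (dir θ) (i * σ) p) *
          (starRingEnd ℂ) (chM a b k (nilflow (dir θ) (j * σ) p)) ∂m‖ ≤
        (if i = j then 1 else 0) + Real.pi / (2 * σ) := by
      intro i j
      by_cases hij : i = j
      · subst hij
        rw [if_pos rfl]
        have h1 : ∀ p, ‖chM a b k (nilflow (dir θ) (i * σ) p) *
          (starRingEnd ℂ) (chM a b k (nilflow (dir θ) (i * σ) p))‖ ≤ 1 := by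
          intro p
          rw [norm_mul, RCLike.norm_conj, norm_chM, mul_one]
        have h2 := norm_integral_le_of_norm_le_const (μ := m) (Eventually.of_forall h1)
        rw [probReal_univ, mul_one] at h2
        have : 0 ≤ Real.pi / (2 * σ) := by positivity
        linarith
      · rw [if_neg hij, zero_add]
        have hne : (i : ℝ) * σ ≠ j * σ := by
          intro h
          have := mul_right_cancel₀ hσ.ne' h
          exact hij (by exact_mod_cast this)
        refine (corr_bound2 θ hθ m hm a b k hk _ _ hne).trans ?_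
        have h1 : σ ≤ |(i : ℝ) * σ - j * σ| := by
          rw [← sub_mul, abs_mul, abs_of_pos hσ]
          have h2 : (1 : ℝ) ≤ |(i : ℝ) - j| := by
            have h3 : (1 : ℤ) ≤ |(i : ℤ) - j| := by
              apply Int.one_le_abs
              omega
            have h4 : ((|(i : ℤ) - j| : ℤ) : ℝ) = |(i : ℝ) - j| := by push_cast; rfl
            rw [← h4]
            exact_mod_cast h3
          nlinarith
        have : 0 < |(i : ℝ) * σ - j * σ| := lt_of_lt_of_le hσ h1
        gcongr
    have hfin : ∫ p, ‖S p‖ ^ 2 ∂m ≤ K + (K : ℝ) ^ 2 * (Real.pi / (2 * σ)) := by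
      have h0 : 0 ≤ ∫ p, ‖S p‖ ^ 2 ∂m := integral_nonneg fun p => by positivity
      have h1 : ∫ p, ‖S p‖ ^ 2 ∂m = ‖((∫ p, ‖S p‖ ^ 2 ∂m : ℝ) : ℂ)‖ := by
        rw [Complex.norm_real, Real.norm_eq_abs, abs_of_nonneg h0]
      rw [h1, hexp]
      refine (norm_sum_le _ _).trans ?_
      refine (Finset.sum_le_sum fun i _ => (norm_sum_le _ _).trans
        (Finset.sum_le_sum fun j _ => hterm i j)).trans ?_
      have h2 : ∑ i ∈ Finset.range K, ∑ j ∈ Finset.range K,
          ((if i = j then (1 : ℝ) else 0) + Real.pi / (2 * σ)) =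
          K + (K : ℝ) ^ 2 * (Real.pi / (2 * σ)) := by
        simp only [Finset.sum_add_distrib, Finset.sum_ite_eq, Finset.sum_const, Finset.card_range,
          nsmul_eq_mul]
        have h3 : ∑ x ∈ Finset.range K, (if x ∈ Finset.range K then (1 : ℝ) else 0) = K := by
          rw [Finset.sum_congr rfl (g := fun _ => (1 : ℝ)) fun x hx => if_pos hx]
          simp
        rw [h3]
        ring
      rw [h2]
    have h5 : ‖∫ p, S p ∂m‖ ^ 2 = (K : ℝ) ^ 2 * ‖c‖ ^ 2 := by
      rw [hint1, norm_mul, Complex.norm_natCast]; ring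
    rw [← h5]
    exact hCS.trans hfin
  -- let σ → ∞
  have h1 : ∀ K : ℕ, (K : ℝ) ^ 2 * ‖c‖ ^ 2 ≤ K := by
    intro K
    have ht : Tendsto (fun σ : ℝ => (K : ℝ) + (K : ℝ) ^ 2 * (Real.pi / (2 * σ))) atTop
        (𝓝 ((K : ℝ) + (K : ℝ) ^ 2 * 0)) := by
      refine tendsto_const_nhds.add (tendsto_const_nhds.mul ?_)
      refine Tendsto.const_div_atTop ?_ _
      exact tendsto_id.const_mul_atTop (by norm_num)
    rw [mul_zero, add_zero] at ht
    refine ge_of_tendsto ht ?_
    filter_upwards [eventually_gt_atTop 0] with σ hσ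
    exact basic K σ hσ
  by_contra hne
  have hpos : 0 < ‖c‖ ^ 2 := by
    have := norm_pos_iff.2 hne
    positivity
  obtain ⟨K, hK⟩ := exists_nat_gt (1 / ‖c‖ ^ 2)
  have hK0 : (0 : ℝ) < K := lt_trans (by positivity) hK
  have h2 := h1 K
  rw [div_lt_iff₀ hpos] at hK
  nlinarith

/-- The nilflow in the direction `(1, θ, 0)` with irrational `θ` is uniquely ergodic. -/
theorem uniquelyErgodic (θ : ℝ) (hθ : Irrational θ) : UniquelyErgodic (nilflow (dir θ)) := by
  refine ⟨fun t => (measurePreserving_nilflow _ t).map_eq, ?_⟩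
  intro m hmP hm
  apply eq_of_map_r
  have := Measure.isFiniteMeasure_map m r
  have := Measure.isFiniteMeasure_map μ r
  apply prod3_ext
  intro a b k
  have key : ∀ ν : Measure M, ∫ x, ch a b k x ∂(Measure.map r ν) = ∫ p, chM a b k p ∂ν := by
    intro ν
    exact integral_map measurable_r.aemeasurable (measurable_ch a b k).aestronglyMeasurable
  rw [key, key]
  have hμ : ∀ t, Measure.map (nilflow (dir θ) t) μ = μ :=
    fun t => (measurePreserving_nilflow _ t).map_eq
  by_cases hk : k = 0
  · subst hk
    by_cases hab : (a, b) = 0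
    · have ha : a = 0 := congrArg Prod.fst hab
      have hb : b = 0 := congrArg Prod.snd hab
      subst ha hb
      simp only [chM, ch, fourier_zero, mul_one, integral_const, probReal_univ, one_smul]
    · rw [coeff_zero θ hθ m hm a b hab, coeff_zero θ hθ μ hμ a b hab]
  · rw [coeff_charge θ hθ m hm a b k hk, coeff_charge θ hθ μ hμ a b k hk]

theorem parabolic_dir (θ : ℝ) : Parabolic (dir θ) := by
  refine ⟨(0, 1, 0), ?_⟩
  simp [bracket, dir]

end Q70.Heis
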