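import Pool.Agent.Q70.Heis3

/-!
# A Liouville slope and the step functions
-/

set_option autoImplicit false
open MeasureTheory Filter Topology Set

namespace Q70.Heis

/-! ### The arithmetic -/

section Numbers

variable (B : ℕ → ℕ → ℕ)

/-- Denominators. -/
def den : ℕ → ℕ
  | 0 => 1
  | k + 1 => den k * B k (den k)

/-- Numerators. -/
def num : ℕ → ℕ
  | 0 => 0
  | k + 1 => num k * B k (den B k) + 1

variable {B}

theorem den_pos (hB : ∀ k q, 2 ≤ B k q) (k : ℕ) : 0 < den B k := by
  induction k with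
  | zero => simp [den]
  | succ k ih => exact Nat.mul_pos ih (by have := hB k (den B k); omega)

theorem exists_slope (hB : ∀ k q, 2 ≤ B k q) :
    ∃ θ : ℝ, ∀ k, 0 ≤ (den B k : ℝ) * θ - num B k ∧ (den B k : ℝ) * θ - num B k ≤ 1 := by
  set a : ℕ → ℝ := fun k => (num B k : ℝ) / den B k with ha
  set c : ℕ → ℝ := fun k => ((num B k : ℝ) + 1) / den B k with hc
  have hpos : ∀ k, (0 : ℝ) < den B k := fun k => by exact_mod_cast den_pos hB k
  have hBr : ∀ k, (2 : ℝ) ≤ B k (den B k) := fun k => by exact_mod_cast hB k (den B k)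
  have ham : Monotone a := by
    apply monotone_nat_of_le_succ
    intro k
    have h1 := hpos k
    have h2 := hBr k
    simp only [ha, num, den]
    push_cast
    rw [div_le_div_iff₀ h1 (by positivity)]
    nlinarith
  have hca : Antitone c := by
    apply antitone_nat_of_succ_le
    intro k
    have h1 := hpos k
    have h2 := hBr k
    simp only [hc, num, den]
    push_cast
    rw [div_le_div_iff₀ (by positivity) h1]
    nlinarith [mul_pos h1 (by linarith : (0 : ℝ) < B k (den B k)), (Nat.cast_nonneg (num B k) : (0 : ℝ) ≤ num B k)]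
  have hac : ∀ j k, a j ≤ c k := by
    intro j k
    have h0 : ∀ i, a i ≤ c i := fun i => by
      simp only [ha, hc]
      have := hpos i
      gcongr
      linarith
    calc a j ≤ a (max j k) := ham (le_max_left _ _)
      _ ≤ c (max j k) := h0 _
      _ ≤ c k := hca (le_max_right _ _)
  have hbdd : BddAbove (range a) := ⟨c 0, by rintro _ ⟨j, rfl⟩; exact hac j 0⟩
  refine ⟨⨆ k, a k, fun k => ?_⟩
  have h1 : a k ≤ ⨆ k, a k := le_ciSup hbdd k
  have h2 : (⨆ k, a k) ≤ c k := ciSup_le fun j => hac j k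
  simp only [ha] at h1
  simp only [hc] at h2
  rw [div_le_iff₀ (hpos k)] at h1
  rw [le_div_iff₀ (hpos k)] at h2
  constructor <;> linarith

end Numbers

/-- The arithmetic input. -/
theorem exists_numbers (D : ℕ → ℝ) (hD : ∀ k, 1 ≤ D k) :
    ∃ (Q P : ℕ → ℕ) (θ : ℝ), Irrational θ ∧ (∀ k, 0 < Q k) ∧ (∀ k, P k ≤ Q k) ∧
      (∀ k, 0 < (Q k : ℝ) * θ - P k) ∧
      (∀ k, ((Q k : ℝ) * θ - P k) * (D k * (1 + 2 * Q k) ^ k) ≤ (1 / 2) ^ (k + 2)) ∧
      (∀ j k, j < k → ((Q k : ℝ) * θ - P k) * D k ≤ (1 / 2) ^ (k + 1) * ((Q j : ℝ) * θ - P j)) := by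
  set B : ℕ → ℕ → ℕ := fun k q => ⌈2 ^ (k + 3) * D k * (1 + 2 * (q : ℝ)) ^ (k + 1)⌉₊ + k + 2 with hBdef
  have hB : ∀ k q, 2 ≤ B k q := fun k q => by simp only [hBdef]; omega
  obtain ⟨θ, hθ⟩ := exists_slope hB
  have hpos : ∀ k, (0 : ℝ) < den B k := fun k => by exact_mod_cast den_pos hB k
  have hBr : ∀ k, (2 : ℝ) ≤ B k (den B k) := fun k => by exact_mod_cast hB k (den B k)
  have hBbig : ∀ k, 2 ^ (k + 3) * D k * (1 + 2 * (den B k : ℝ)) ^ (k + 1) ≤ B k (den B k) := by
    intro k
    simp only [hBdef]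
    push_cast
    have := Nat.le_ceil (2 ^ (k + 3) * D k * (1 + 2 * (den B k : ℝ)) ^ (k + 1))
    have h2 : (0 : ℝ) ≤ k := Nat.cast_nonneg k
    linarith
  have hBk : ∀ k : ℕ, (k : ℝ) < B k (den B k) := by
    intro k
    simp only [hBdef]
    push_cast
    have := Nat.cast_nonneg (α := ℝ) ⌈2 ^ (k + 3) * D k * (1 + 2 * (den B k : ℝ)) ^ (k + 1)⌉₊
    linarith
  set e : ℕ → ℝ := fun k => (den B k : ℝ) * θ - num B k with he
  have hrec : ∀ k, e k * B k (den B k) = 1 + e (k + 1) := by
    intro k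
    simp only [he, num, den]
    push_cast
    ring
  have he0 : ∀ k, 0 ≤ e k := fun k => (hθ k).1
  have he1 : ∀ k, e k ≤ 1 := fun k => (hθ k).2
  have hlow : ∀ k, 1 / (B k (den B k) : ℝ) ≤ e k := by
    intro k
    have h1 := hBr k
    rw [div_le_iff₀ (by linarith), hrec]
    have := he0 (k + 1)
    linarith
  have hupp : ∀ k, e k ≤ 2 / (B k (den B k) : ℝ) := by
    intro k
    have h1 := hBr k
    rw [le_div_iff₀ (by linarith), hrec]
    have := he1 (k + 1)
    linarith
  have hepos : ∀ k, 0 < e k := by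
    intro k
    have h1 := hBr k
    have h2 := hlow k
    have : 0 < 1 / (B k (den B k) : ℝ) := by positivity
    linarith
  have hbase : ∀ k, e k * (D k * (1 + 2 * (den B k : ℝ)) ^ (k + 1)) ≤ (1 / 2) ^ (k + 2) := by
    intro k
    have h1 := hBr k
    have h2 := hBbig k
    have h3 := hupp k
    have hX : 0 ≤ D k * (1 + 2 * (den B k : ℝ)) ^ (k + 1) := by
      have := hD k
      positivity
    calc e k * (D k * (1 + 2 * (den B k : ℝ)) ^ (k + 1))
        ≤ 2 / (B k (den B k) : ℝ) * (D k * (1 + 2 * (den B k : ℝ)) ^ (k + 1)) := by gcongr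
      _ ≤ (1 / 2) ^ (k + 2) := by
          rw [div_mul_eq_mul_div, div_le_iff₀ (by linarith)]
          have h4 : (1 / 2 : ℝ) ^ (k + 2) * (2 ^ (k + 3) * D k * (1 + 2 * (den B k : ℝ)) ^ (k + 1)) ≤
              (1 / 2) ^ (k + 2) * B k (den B k) := by gcongr
          have h5 : (1 / 2 : ℝ) ^ (k + 2) * 2 ^ (k + 3) = 2 := by
            rw [pow_succ (2 : ℝ) (k + 2), ← mul_assoc, ← mul_pow]
            norm_num
          calc 2 * (D k * (1 + 2 * (den B k : ℝ)) ^ (k + 1))
              = (1 / 2 : ℝ) ^ (k + 2) * 2 ^ (k + 3) * (D k * (1 + 2 * (den B k : ℝ)) ^ (k + 1)) := by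
                rw [h5]
            _ = (1 / 2 : ℝ) ^ (k + 2) * (2 ^ (k + 3) * D k * (1 + 2 * (den B k : ℝ)) ^ (k + 1)) := by
                ring
            _ ≤ _ := h4
  have hmono : ∀ j k, j < k → B j (den B j) ≤ den B k := by
    intro j k hjk
    induction k with
    | zero => omega
    | succ k ih =>
      have h1 := hB k (den B k)
      have h0 := den_pos hB k
      rcases Nat.lt_succ_iff_lt_or_eq.1 hjk with h | h
      · calc B j (den B j) ≤ den B k := ih h
          _ ≤ den B k * B k (den B k) := Nat.le_mul_of_pos_right _ (by omega)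
          _ = den B (k + 1) := rfl
      · subst h
        calc B j (den B j) ≤ den B j * B j (den B j) := Nat.le_mul_of_pos_left _ h0
          _ = den B (j + 1) := rfl
  refine ⟨den B, num B, θ, ?_, den_pos hB, ?_, hepos, ?_, ?_⟩
  · -- irrationality
    rintro ⟨x, hx⟩
    set v : ℕ := x.den with hv
    have hv0 : 0 < v := x.den_pos
    have hxv : (v : ℝ) * θ = (x.num : ℝ) := by
      have : (x : ℝ) = (x.num : ℝ) / (x.den : ℝ) := by exact_mod_cast (Rat.num_div_den x).symm
      rw [← hx, this, ← hv]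
      have : (v : ℝ) ≠ 0 := by exact_mod_cast hv0.ne'
      field_simp
    set k : ℕ := 2 * v with hk
    have h1 : (v : ℝ) * e k = ((den B k * x.num - v * num B k : ℤ) : ℝ) := by
      simp only [he]
      push_cast
      rw [← hxv]; ring
    have h2 : 0 < (v : ℝ) * e k := by
      have := hepos k
      positivity
    have h3 : (v : ℝ) * e k < 1 := by
      have h4 := hupp k
      have h5 := hBk k
      have h6 : (v : ℝ) * e k ≤ v * (2 / (B k (den B k) : ℝ)) := by gcongr
      have h7 : (v : ℝ) * (2 / (B k (den B k) : ℝ)) < 1 := by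
        have h8 := hBr k
        rw [← mul_div_assoc, div_lt_one (by linarith)]
        have : (k : ℝ) = 2 * v := by rw [hk]; push_cast; ring
        linarith
      linarith
    rw [h1] at h2 h3
    have h9 : (0 : ℤ) < (den B k * x.num - v * num B k : ℤ) := by exact_mod_cast h2
    have h10 : (den B k * x.num - v * num B k : ℤ) < 1 := by exact_mod_cast h3
    omega
  · intro k
    have h1 := he0 k
    have h2 : θ ≤ 1 := by
      have := (hθ 0).2
      simp only [den, num] at this
      push_cast at this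
      linarith
    have h3 : (num B k : ℝ) ≤ den B k := by
      simp only [he] at h1
      have := hpos k
      nlinarith
    exact_mod_cast h3
  · intro k
    have h1 := hbase k
    have h2 := hepos k
    have h3 := hD k
    have h4 := hpos k
    refine le_trans ?_ h1
    change e k * _ ≤ _
    have h5 : (1 + 2 * (den B k : ℝ)) ^ k ≤ (1 + 2 * (den B k : ℝ)) ^ (k + 1) :=
      pow_le_pow_right₀ (by linarith) (Nat.le_succ k)
    gcongr
  · intro j k hjk
    have h1 := hbase k
    have h2 := hepos k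
    have h3 := hD k
    have h4 := hpos k
    change e k * D k ≤ _ * e j
    have h5 : (den B k : ℝ) * 2 ≤ (1 + 2 * (den B k : ℝ)) ^ (k + 1) := by
      calc (den B k : ℝ) * 2 ≤ (1 + 2 * (den B k : ℝ)) ^ 1 := by rw [pow_one]; linarith
        _ ≤ _ := pow_le_pow_right₀ (by linarith) (by omega)
    have h6 : e k * (D k * ((den B k : ℝ) * 2)) ≤ (1 / 2) ^ (k + 2) := by
      refine le_trans ?_ h1
      gcongr
    have h7 : 1 / (den B k : ℝ) ≤ e j := by
      refine le_trans ?_ (hlow j)
      have h8 : (B j (den B j) : ℝ) ≤ den B k := by exact_mod_cast hmono j k hjk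
      have h9 := hBr j
      exact one_div_le_one_div_of_le (by linarith) h8
    have h10 : e k * D k ≤ (1 / 2) ^ (k + 1) * (1 / (den B k : ℝ)) := by
      rw [mul_one_div, le_div_iff₀ h4]
      have : (1 / 2 : ℝ) ^ (k + 2) = (1 / 2) ^ (k + 1) * (1 / 2) := pow_succ _ _
      rw [this] at h6
      have hX : (0 : ℝ) ≤ (1 / 2) ^ (k + 1) := by positivity
      linarith
    refine h10.trans ?_
    gcongr

/-! ### The step functions -/

/-- The sine function on the circle. -/
noncomputable def sn (u : T) : ℝ := (fourier 1 u : ℂ).im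

theorem sn_coe (x : ℝ) : sn (x : T) = Real.sin (2 * Real.pi * x) := by
  unfold sn
  rw [fourier_real]
  have : Complex.I * ((2 * Real.pi * ((1 : ℤ) : ℝ) * x : ℝ) : ℂ) =
      ((2 * Real.pi * x : ℝ) : ℂ) * Complex.I := by
    push_cast; ring
  rw [this, Complex.exp_ofReal_mul_I_im]

theorem continuous_sn : Continuous sn :=
  Complex.continuous_im.comp (fourier 1 : C(AddCircle (1 : ℝ), ℂ)).continuous

theorem sn_half (u : T) : sn (u + ((1 / 2 : ℝ) : T)) = - sn u := by
  unfold sn
  rw [fourier_add_pt, fourier_half 1 (1 / 2) (by norm_num)]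
  simp

/-- The step function `4^k` times a smooth approximation of the indicator function of a half
circle. -/
noncomputable def stepc (a : ℝ) (k : ℕ) (u : T) : ℝ :=
  4 ^ k * Real.smoothTransition (1 / 2 + a * sn u)

/-- The lift of the step function to the line. -/
noncomputable def step (a : ℝ) (k : ℕ) (w : ℝ) : ℝ :=
  4 ^ k * Real.smoothTransition (1 / 2 + a * Real.sin (2 * Real.pi * w))

theorem stepc_coe (a : ℝ) (k : ℕ) (w : ℝ) : stepc a k (w : T) = step a k w := by
  unfold stepc step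
  rw [sn_coe]

theorem contDiff_step (a : ℝ) (k : ℕ) (n : ℕ∞) : ContDiff ℝ n (step a k) := by
  unfold step
  have h1 : ContDiff ℝ n (fun w : ℝ => 1 / 2 + a * Real.sin (2 * Real.pi * w)) := by fun_prop
  have h2 := (Real.smoothTransition.contDiff (n := n)).comp h1
  exact contDiff_const.mul h2

theorem step_periodic (a : ℝ) (k : ℕ) : Function.Periodic (step a k) 1 := by
  intro w
  rw [← stepc_coe, ← stepc_coe, AddCircle.coe_add]
  congr 1
  have : ((1 : ℝ) : T) = 0 := AddCircle.coe_period 1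
  rw [this, add_zero]

/-- The derivative of the step function. -/
noncomputable def dstep (a : ℝ) (k : ℕ) : ℝ → ℝ := deriv (step a k)

theorem contDiff_dstep (a : ℝ) (k : ℕ) : ContDiff ℝ (⊤ : ℕ∞) (dstep a k) := by
  have h : ContDiff ℝ ((⊤ : ℕ∞) : WithTop ℕ∞) (step a k) := contDiff_step a k ⊤
  exact ((contDiff_infty_iff_deriv (f := step a k)).1 h).2

theorem dstep_periodic (a : ℝ) (k : ℕ) : Function.Periodic (dstep a k) 1 := by
  intro w
  unfold dstep
  have h : (fun x => step a k (x + 1)) = step a k := funext (step_periodic a k)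
  have h2 := deriv_comp_add_const (step a k) (1 : ℝ) w
  rw [h] at h2
  exact h2.symm

theorem hasDerivAt_step (a : ℝ) (k : ℕ) (w : ℝ) : HasDerivAt (step a k) (dstep a k w) w := by
  have h : ContDiff ℝ ((⊤ : ℕ∞) : WithTop ℕ∞) (step a k) := contDiff_step a k ⊤
  exact ((h.differentiable (by simp)) w).hasDerivAt

/-- All derivatives of a smooth periodic function are bounded. -/
theorem exists_bound (f : ℝ → ℝ) (hf : ContDiff ℝ (⊤ : ℕ∞) f) (hp : Function.Periodic f 1)
    (n : ℕ) : ∃ C : ℝ, 1 ≤ C ∧ ∀ m ≤ n, ∀ w, ‖iteratedFDeriv ℝ m f w‖ ≤ C := by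
  have h1 : ∀ m : ℕ, ∃ C : ℝ, ∀ w, ‖iteratedFDeriv ℝ m f w‖ ≤ C := by
    intro m
    have hper : Function.Periodic (iteratedFDeriv ℝ m f) 1 := by
      intro w
      have h := iteratedFDeriv_comp_add_right (𝕜 := ℝ) (f := f) m 1 w
      rw [← h]
      congr 1
      exact funext hp
    have hcont : Continuous (iteratedFDeriv ℝ m f) :=
      ContDiff.continuous_iteratedFDeriv (n := ((⊤ : ℕ∞) : WithTop ℕ∞)) (by exact_mod_cast le_top) hf
    obtain ⟨C, hC⟩ := (hper.isBounded_of_continuous one_ne_zero hcont).exists_norm_le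
    exact ⟨C, fun w => hC _ ⟨w, rfl⟩⟩
  choose C hC using h1
  refine ⟨1 + ∑ m ∈ Finset.range (n + 1), |C m|, ?_, ?_⟩
  · have : 0 ≤ ∑ m ∈ Finset.range (n + 1), |C m| := Finset.sum_nonneg fun i _ => abs_nonneg _
    linarith
  · intro m hm w
    have h2 : |C m| ≤ ∑ m ∈ Finset.range (n + 1), |C m| :=
      Finset.single_le_sum (f := fun m => |C m|) (fun i _ => abs_nonneg _)
        (Finset.mem_range.2 (by omega))
    have h3 := hC m w
    have h4 := le_abs_self (C m)
    linarith

end Q70.Heis
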