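import Pool.Agent.Q70.Heis4

/-!
# The time change and its eigenfunction
-/

set_option autoImplicit false
open MeasureTheory Filter Topology Set

namespace Q70.Heis

instance nullSingletonT : NullSingletonClass (volume : Measure T) where
  measure_singleton := by
    intro x
    rw [← Metric.closedBall_zero, AddCircle.volume_closedBall]
    simp

theorem volume_sn_zero : volume {u : T | sn u = 0} = 0 := by
  have hsub : {u : T | sn u = 0} ⊆ {((0 : ℝ) : T), ((1 / 2 : ℝ) : T)} := by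
    intro u hu
    have h1 : sn ((rep u : ℝ) : T) = 0 := by rw [coe_rep]; exact hu
    rw [sn_coe, Real.sin_eq_zero_iff] at h1
    obtain ⟨n, hn⟩ := h1
    have h2 : (n : ℝ) = 2 * rep u := by
      have h3 : (n : ℝ) * Real.pi = (2 * rep u) * Real.pi := by rw [hn]; ring
      exact mul_right_cancel₀ Real.pi_ne_zero h3
    have h4 := rep_nonneg u
    have h5 := rep_lt_one u
    have h6 : (0 : ℝ) ≤ n := by linarith
    have h7 : (n : ℝ) < 2 := by linarith
    have h6' : (0 : ℤ) ≤ n := by exact_mod_cast h6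
    have h7' : n < 2 := by exact_mod_cast h7
    have h8 : n = 0 ∨ n = 1 := by omega
    rcases h8 with h8 | h8
    · left
      rw [h8] at h2
      rw [← coe_rep u]
      congr 1
      push_cast at h2
      linarith
    · right
      rw [h8] at h2
      rw [mem_singleton_iff, ← coe_rep u]
      congr 1
      push_cast at h2
      linarith
  exact measure_mono_null hsub ((Set.toFinite _).measure_zero _)

theorem exists_amp (ε : ENNReal) (hε : 0 < ε) :
    ∃ a : ℝ, 0 < a ∧ volume {u : T | |a * sn u| < 1 / 2} ≤ ε := by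
  have hm : ∀ n : ℕ, NullMeasurableSet {u : T | |((n : ℝ) + 1) * sn u| < 1 / 2} volume := by
    intro n
    have : Continuous fun u : T => |((n : ℝ) + 1) * sn u| := by
      have := continuous_sn
      fun_prop
    exact (isOpen_lt this continuous_const).measurableSet.nullMeasurableSet
  have hanti : Antitone (fun n : ℕ => {u : T | |((n : ℝ) + 1) * sn u| < 1 / 2}) := by
    intro n n' hnn u hu
    simp only [mem_ofPred_eq] at hu ⊢
    refine lt_of_le_of_lt ?_ hu
    rw [abs_mul, abs_mul]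
    have h1 : (n : ℝ) ≤ n' := by exact_mod_cast hnn
    have h2 : (0 : ℝ) ≤ n := Nat.cast_nonneg n
    rw [abs_of_pos (show (0 : ℝ) < (n : ℝ) + 1 by linarith),
      abs_of_pos (show (0 : ℝ) < (n' : ℝ) + 1 by linarith)]
    gcongr
  have ht := tendsto_measure_iInter_atTop hm hanti ⟨0, measure_ne_top _ _⟩
  have hinter : volume (⋂ n : ℕ, {u : T | |((n : ℝ) + 1) * sn u| < 1 / 2}) = 0 := by
    refine measure_mono_null ?_ volume_sn_zero
    intro u hu
    simp only [mem_iInter, mem_ofPred_eq] at hu ⊢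
    by_contra hne
    have h1 : 0 < |sn u| := abs_pos.2 hne
    obtain ⟨n, hn⟩ := exists_nat_gt (1 / |sn u|)
    have h2 := hu n
    rw [abs_mul, abs_of_pos (by positivity)] at h2
    rw [div_lt_iff₀ h1] at hn
    nlinarith
  rw [hinter] at ht
  have h3 := (ht.eventually (ge_mem_nhds hε)).exists
  obtain ⟨n, hn⟩ := h3
  exact ⟨(n : ℝ) + 1, by positivity, hn⟩

/-- All the data of the construction. -/
structure Data where
  A : ℕ → ℝ
  hA : ∀ k, volume {u : T | |A k * sn u| < 1 / 2} ≤ ENNReal.ofReal ((1 / 2) ^ (k + 1))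
  D : ℕ → ℝ
  hD1 : ∀ k, 1 ≤ D k
  hD : ∀ k, ∀ m ≤ k, ∀ w, ‖iteratedFDeriv ℝ m (dstep (A k) k) w‖ ≤ D k
  Q : ℕ → ℕ
  P : ℕ → ℕ
  θ : ℝ
  irr : Irrational θ
  hQ : ∀ k, 0 < Q k
  hP : ∀ k, P k ≤ Q k
  hpos : ∀ k, 0 < (Q k : ℝ) * θ - P k
  h1 : ∀ k, ((Q k : ℝ) * θ - P k) * (D k * (1 + 2 * Q k) ^ k) ≤ (1 / 2) ^ (k + 2)
  h2 : ∀ j k, j < k →
    ((Q k : ℝ) * θ - P k) * D k ≤ (1 / 2) ^ (k + 1) * ((Q j : ℝ) * θ - P j)

theorem exists_data : Nonempty Data := by
  have hA : ∀ k : ℕ, ∃ a : ℝ, volume {u : T | |a * sn u| < 1 / 2} ≤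
      ENNReal.ofReal ((1 / 2) ^ (k + 1)) := by
    intro k
    obtain ⟨a, -, ha⟩ := exists_amp (ENNReal.ofReal ((1 / 2) ^ (k + 1)))
      (ENNReal.ofReal_pos.2 (by positivity))
    exact ⟨a, ha⟩
  choose A hA using hA
  have hD : ∀ k : ℕ, ∃ C : ℝ, 1 ≤ C ∧ ∀ m ≤ k, ∀ w,
      ‖iteratedFDeriv ℝ m (dstep (A k) k) w‖ ≤ C :=
    fun k => exists_bound _ (contDiff_dstep (A k) k) (dstep_periodic (A k) k) k
  choose D hD1 hD using hD
  obtain ⟨Q, P, θ, h1, h2, h3, h4, h5, h6⟩ := exists_numbers D hD1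
  exact ⟨⟨A, hA, D, hD1, hD, Q, P, θ, h1, h2, h3, h4, h5, h6⟩⟩

variable (d : Data)

namespace Data

/-- The small numbers `Q_k θ - P_k`. -/
noncomputable def e (k : ℕ) : ℝ := (d.Q k : ℝ) * d.θ - d.P k

theorem e_pos (k : ℕ) : 0 < d.e k := d.hpos k

theorem D_pos (k : ℕ) : 0 < d.D k := lt_of_lt_of_le one_pos (d.hD1 k)

theorem norm_dstep_le (k : ℕ) (w : ℝ) : |dstep (d.A k) k w| ≤ d.D k := by
  have h := d.hD k 0 (Nat.zero_le k) w
  rwa [norm_iteratedFDeriv_zero, Real.norm_eq_abs] at h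

theorem eD_le (k : ℕ) : d.e k * d.D k ≤ (1 / 2) ^ (k + 2) := by
  refine le_trans ?_ (d.h1 k)
  have h1 := d.e_pos k
  have h2 := d.D_pos k
  have h3 : (1 : ℝ) ≤ (1 + 2 * (d.Q k : ℝ)) ^ k := one_le_pow₀ (by
    have : (0 : ℝ) ≤ d.Q k := Nat.cast_nonneg _
    linarith)
  calc d.e k * d.D k = d.e k * (d.D k * 1) := by ring
    _ ≤ d.e k * (d.D k * (1 + 2 * (d.Q k : ℝ)) ^ k) := by gcongr

theorem term_le (k : ℕ) (w : ℝ) : |d.e k * dstep (d.A k) k w| ≤ (1 / 2) ^ (k + 2) := by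
  rw [abs_mul, abs_of_pos (d.e_pos k)]
  refine le_trans ?_ (d.eD_le k)
  have := d.e_pos k
  have := d.norm_dstep_le k w
  gcongr

theorem summable_geo : Summable (fun k : ℕ => (1 / 2 : ℝ) ^ (k + 2)) := by
  have := (summable_geometric_of_lt_one (r := (1 / 2 : ℝ)) (by norm_num) (by norm_num)).mul_right
    ((1 / 2 : ℝ) ^ 2)
  simpa only [pow_add] using this

theorem tsum_geo : ∑' k : ℕ, (1 / 2 : ℝ) ^ (k + 2) = 1 / 2 := by
  simp only [pow_add]
  rw [tsum_mul_right, tsum_geometric_of_lt_one (by norm_num) (by norm_num)]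
  norm_num

/-- The frequency map of the base torus. -/
noncomputable def w (k : ℕ) (q : T × T) : T := (d.Q k : ℤ) • q.2 - (d.P k : ℤ) • q.1

theorem zsmul_coe (n : ℤ) (x : ℝ) : n • (x : T) = ((n * x : ℝ) : T) := by
  rw [← AddCircle.coe_zsmul, zsmul_eq_mul]

theorem w_coe (k : ℕ) (x y : ℝ) :
    d.w k ((x : T), (y : T)) = ((d.Q k * y - d.P k * x : ℝ) : T) := by
  unfold w
  simp only
  rw [zsmul_coe, zsmul_coe, ← AddCircle.coe_sub]
  push_cast
  rfl

theorem continuous_w (k : ℕ) : Continuous (d.w k) := by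
  unfold w
  fun_prop

/-- The projection of the nilmanifold to the base torus. -/
noncomputable def base (p : M) : T × T := (r p).1

theorem measurable_base : Measurable base := measurable_fst.comp measurable_r

theorem base_proj (g : H) : base (proj g) = ((g.1 : T), (g.2.1 : T)) := rfl

theorem base_flow (t : ℝ) (p : M) :
    base (nilflow (dir d.θ) t p) = ((base p).1 + (t : T), (base p).2 + ((t * d.θ : ℝ) : T)) := by
  unfold base
  rw [nilflow_eq, r_rmul]
  rfl

theorem w_flow (k : ℕ) (t : ℝ) (p : M) :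
    d.w k (base (nilflow (dir d.θ) t p)) = d.w k (base p) + ((t * d.e k : ℝ) : T) := by
  rw [base_flow]
  unfold w
  simp only [smul_add]
  rw [zsmul_coe, zsmul_coe]
  have : ((t * d.e k : ℝ) : T) = ((((d.Q k : ℤ) : ℝ) * (t * d.θ) : ℝ) : T) -
      ((((d.P k : ℤ) : ℝ) * t : ℝ) : T) := by
    rw [← AddCircle.coe_sub]
    congr 1
    unfold e
    push_cast
    ring
  rw [this]
  abel

/-- The real lift of the frequency. -/
noncomputable def ρ (k : ℕ) (p : M) : ℝ := rep (d.w k (base p))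

theorem w_flow' (k : ℕ) (t : ℝ) (p : M) :
    d.w k (base (nilflow (dir d.θ) t p)) = ((d.ρ k p + t * d.e k : ℝ) : T) := by
  rw [w_flow, AddCircle.coe_add, ρ, coe_rep]

/-- The step function on the nilmanifold. -/
noncomputable def v (k : ℕ) (p : M) : ℝ := stepc (d.A k) k (d.w k (base p))

theorem v_flow (k : ℕ) (t : ℝ) (p : M) :
    d.v k (nilflow (dir d.θ) t p) = step (d.A k) k (d.ρ k p + t * d.e k) := by
  unfold v
  rw [w_flow', stepc_coe]

theorem dstep_rep (k : ℕ) (x : ℝ) : dstep (d.A k) k (rep (x : T)) = dstep (d.A k) k x := by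
  rw [rep_coe, Int.fract]
  have := (dstep_periodic (d.A k) k).sub_int_mul_eq ⌊x⌋ (x := x)
  rwa [mul_one] at this

/-- The function of the time change. -/
noncomputable def α (p : M) : ℝ :=
  1 + ∑' k, d.e k * dstep (d.A k) k (rep (d.w k (base p)))

theorem α_proj (g : ℝ × ℝ × ℝ) : d.α (proj g) =
    1 + ∑' k, d.e k * dstep (d.A k) k (d.Q k * g.2.1 - d.P k * g.1) := by
  unfold α
  congr 1
  refine tsum_congr fun k => ?_
  have : base (proj g) = ((g.1 : T), (g.2.1 : T)) := rfl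
  rw [this, w_coe, dstep_rep]

theorem abs_tsum_le (w' : ℕ → ℝ) : |∑' k, d.e k * dstep (d.A k) k (w' k)| ≤ 1 / 2 := by
  have h := tsum_of_norm_bounded (f := fun k => d.e k * dstep (d.A k) k (w' k))
    (summable_geo.hasSum) fun k => d.term_le k (w' k)
  rwa [tsum_geo] at h

theorem α_lower (p : M) : 1 / 2 ≤ d.α p := by
  unfold α
  have := abs_le.1 (d.abs_tsum_le fun k => rep (d.w k (base p)))
  linarith [this.1]

theorem α_upper (p : M) : d.α p ≤ 3 / 2 := by
  unfold α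
  have := abs_le.1 (d.abs_tsum_le fun k => rep (d.w k (base p)))
  linarith [this.2]

theorem α_flow (t : ℝ) (p : M) : d.α (nilflow (dir d.θ) t p) =
    1 + ∑' k, d.e k * dstep (d.A k) k (d.ρ k p + t * d.e k) := by
  unfold α
  congr 1
  refine tsum_congr fun k => ?_
  rw [w_flow', dstep_rep]

/-- The linear form of the frequency. -/
noncomputable def lin (k : ℕ) : (ℝ × ℝ × ℝ) →L[ℝ] ℝ :=
  (d.Q k : ℝ) • ((ContinuousLinearMap.fst ℝ ℝ ℝ).comp (ContinuousLinearMap.snd ℝ ℝ (ℝ × ℝ))) -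
    (d.P k : ℝ) • (ContinuousLinearMap.fst ℝ ℝ (ℝ × ℝ))

theorem lin_apply (k : ℕ) (g : ℝ × ℝ × ℝ) : d.lin k g = d.Q k * g.2.1 - d.P k * g.1 := by
  simp [lin]

theorem norm_lin_le (k : ℕ) : ‖d.lin k‖ ≤ 1 + 2 * d.Q k := by
  refine ContinuousLinearMap.opNorm_le_bound _ (by positivity) fun g => ?_
  rw [lin_apply]
  have h1 : ‖g.1‖ ≤ ‖g‖ := norm_fst_le g
  have h2 : ‖g.2.1‖ ≤ ‖g‖ := (norm_fst_le g.2).trans (norm_snd_le g)
  have h3 : (d.P k : ℝ) ≤ d.Q k := by exact_mod_cast d.hP k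
  have h4 : (0 : ℝ) ≤ d.P k := Nat.cast_nonneg _
  have h5 : (0 : ℝ) ≤ d.Q k := Nat.cast_nonneg _
  calc ‖(d.Q k : ℝ) * g.2.1 - d.P k * g.1‖ ≤ ‖(d.Q k : ℝ) * g.2.1‖ + ‖(d.P k : ℝ) * g.1‖ :=
        norm_sub_le _ _
    _ = d.Q k * ‖g.2.1‖ + d.P k * ‖g.1‖ := by
        rw [norm_mul, norm_mul, Real.norm_of_nonneg h5, Real.norm_of_nonneg h4]
    _ ≤ d.Q k * ‖g‖ + d.Q k * ‖g‖ := by gcongr
    _ ≤ (1 + 2 * d.Q k) * ‖g‖ := by
        have := norm_nonneg g
        nlinarith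

theorem smooth_α : Smooth d.α := by
  unfold Smooth
  have e1 : (fun g : ℝ × ℝ × ℝ => d.α (proj g)) = fun g : ℝ × ℝ × ℝ =>
      1 + ∑' k, (fun w => d.e k • dstep (d.A k) k w) (d.lin k g) := by
    funext g
    rw [α_proj]
    simp only [lin_apply, smul_eq_mul]
  rw [e1]
  refine contDiff_const.add ?_
  refine contDiff_tsum_of_eventually (v := fun _ k => (1 / 2 : ℝ) ^ (k + 2)) ?_ ?_ ?_
  · intro k
    exact ((contDiff_dstep (d.A k) k).const_smul (d.e k)).comp (d.lin k).contDiff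
  · intro _ _
    exact summable_geo
  · intro n _
    rw [Nat.cofinite_eq_atTop]
    filter_upwards [eventually_ge_atTop n] with k hk g
    have hs : ContDiff ℝ (⊤ : ℕ∞) (fun w => d.e k • dstep (d.A k) k w) :=
      (contDiff_dstep (d.A k) k).const_smul (d.e k)
    have h1 := (d.lin k).iteratedFDeriv_comp_right (f := fun w => d.e k • dstep (d.A k) k w) hs g
      (i := n) (by exact_mod_cast le_top)
    have h2 : (fun g => (fun w => d.e k • dstep (d.A k) k w) (d.lin k g)) =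
        (fun w => d.e k • dstep (d.A k) k w) ∘ (d.lin k) := rfl
    rw [h2, h1]
    refine (ContinuousMultilinearMap.norm_compContinuousLinearMap_le _ _).trans ?_
    rw [Finset.prod_const, Finset.card_univ, Fintype.card_fin]
    have h3 : iteratedFDeriv ℝ n (fun w => d.e k • dstep (d.A k) k w) (d.lin k g) =
        d.e k • iteratedFDeriv ℝ n (dstep (d.A k) k) (d.lin k g) := by
      have hc : ContDiffAt ℝ n (dstep (d.A k) k) (d.lin k g) :=
        ((contDiff_dstep (d.A k) k).of_le (by exact_mod_cast le_top)).contDiffAt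
      exact iteratedFDeriv_const_smul_apply (a := d.e k) hc
    rw [h3, norm_smul, Real.norm_of_nonneg (d.e_pos k).le]
    have h4 := d.hD k n hk (d.lin k g)
    have h5 := d.norm_lin_le k
    have h6 : ‖d.lin k‖ ^ n ≤ (1 + 2 * (d.Q k : ℝ)) ^ k := by
      calc ‖d.lin k‖ ^ n ≤ (1 + 2 * (d.Q k : ℝ)) ^ n := pow_le_pow_left₀ (norm_nonneg _) h5 n
        _ ≤ (1 + 2 * (d.Q k : ℝ)) ^ k := pow_le_pow_right₀ (by
            have : (0 : ℝ) ≤ d.Q k := Nat.cast_nonneg _
            linarith) hk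
    have h7 := d.e_pos k
    have h8 := d.D_pos k
    calc d.e k * ‖iteratedFDeriv ℝ n (dstep (d.A k) k) (d.lin k g)‖ * ‖d.lin k‖ ^ n
        ≤ d.e k * d.D k * (1 + 2 * (d.Q k : ℝ)) ^ k := by gcongr
      _ = d.e k * (d.D k * (1 + 2 * (d.Q k : ℝ)) ^ k) := by ring
      _ ≤ _ := d.h1 k

end Data

end Q70.Heis
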