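import Pool.Agent.Q70.Heis5

/-!
# The cocycle, the eigenfunction
-/

set_option autoImplicit false
open MeasureTheory Filter Topology Set

namespace Q70.Heis

variable (d : Data)

namespace Data

/-- The flow. -/
noncomputable def φ (t : ℝ) (p : M) : M := nilflow (dir d.θ) t p

theorem φ_add (t t' : ℝ) (p : M) : d.φ t' (d.φ t p) = d.φ (t + t') p := nilflow_add _ _ _ _

theorem φ_zero (p : M) : d.φ 0 p = p := nilflow_zero _ _

/-- The increments of the step functions along the flow. -/
noncomputable def Δ (t : ℝ) (p : M) (k : ℕ) : ℝ :=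
  step (d.A k) k (d.ρ k p + t * d.e k) - step (d.A k) k (d.ρ k p)

theorem v_eq (k : ℕ) (p : M) : d.v k p = step (d.A k) k (d.ρ k p) := by
  unfold v ρ
  rw [← stepc_coe, coe_rep]

theorem v_φ (k : ℕ) (t : ℝ) (p : M) : d.v k (d.φ t p) = d.v k p + d.Δ t p k := by
  unfold φ
  rw [v_flow, v_eq]
  unfold Δ
  ring

theorem continuous_term (k : ℕ) (p : M) :
    Continuous (fun s : ℝ => d.e k * dstep (d.A k) k (d.ρ k p + s * d.e k)) := by
  have h := (contDiff_dstep (d.A k) k).continuous
  fun_prop

theorem integral_term (k : ℕ) (t : ℝ) (p : M) :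
    ∫ s in (0 : ℝ)..t, d.e k * dstep (d.A k) k (d.ρ k p + s * d.e k) = d.Δ t p k := by
  have h : ∀ s ∈ uIcc (0 : ℝ) t, HasDerivAt (fun s => step (d.A k) k (d.ρ k p + s * d.e k))
      (d.e k * dstep (d.A k) k (d.ρ k p + s * d.e k)) s := by
    intro s _
    have h1 : HasDerivAt (fun s : ℝ => d.ρ k p + s * d.e k) (d.e k) s := by
      have := ((hasDerivAt_id s).mul_const (d.e k)).const_add (d.ρ k p)
      simpa using this
    have h2 := (hasDerivAt_step (d.A k) k (d.ρ k p + s * d.e k)).comp s h1
    rw [mul_comm]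
    exact h2
  rw [intervalIntegral.integral_eq_sub_of_hasDerivAt h
    ((d.continuous_term k p).intervalIntegrable _ _)]
  simp only [zero_mul, add_zero]
  rfl

theorem abs_Δ_le (t : ℝ) (p : M) (k : ℕ) : |d.Δ t p k| ≤ d.e k * d.D k * |t| := by
  rw [← integral_term, ← Real.norm_eq_abs]
  have h := intervalIntegral.norm_integral_le_of_norm_le_const (a := (0 : ℝ)) (b := t)
    (f := fun s => d.e k * dstep (d.A k) k (d.ρ k p + s * d.e k)) (C := d.e k * d.D k) (by
      intro s _
      rw [Real.norm_eq_abs, abs_mul, abs_of_pos (d.e_pos k)]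
      have := d.e_pos k
      have := d.norm_dstep_le k (d.ρ k p + s * d.e k)
      gcongr)
  rwa [sub_zero] at h

theorem summable_Δ (t : ℝ) (p : M) : Summable (d.Δ t p) := by
  refine Summable.of_norm_bounded (g := fun k => (1 / 2 : ℝ) ^ (k + 2) * |t|)
    (summable_geo.mul_right _) fun k => ?_
  rw [Real.norm_eq_abs]
  refine (d.abs_Δ_le t p k).trans ?_
  have := d.eD_le k
  gcongr

/-- The cocycle of the time change. -/
noncomputable def F (p : M) (t : ℝ) : ℝ := ∫ s in (0 : ℝ)..t, d.α (d.φ s p)

theorem continuous_α_φ (p : M) : Continuous (fun s => d.α (d.φ s p)) := by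
  have h : (fun s => d.α (d.φ s p)) =
      fun s => 1 + ∑' k, d.e k * dstep (d.A k) k (d.ρ k p + s * d.e k) :=
    funext fun s => d.α_flow s p
  rw [h]
  refine continuous_const.add (continuous_tsum (fun k => d.continuous_term k p) summable_geo ?_)
  intro k s
  exact d.term_le k _

theorem F_eq (p : M) (t : ℝ) : d.F p t = t + ∑' k, d.Δ t p k := by
  unfold F
  have h : (fun s => d.α (d.φ s p)) =
      fun s => 1 + ∑' k, d.e k * dstep (d.A k) k (d.ρ k p + s * d.e k) :=
    funext fun s => d.α_flow s p
  simp only [funext_iff] at h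
  simp only [h]
  have hc : Continuous (fun s => ∑' k, d.e k * dstep (d.A k) k (d.ρ k p + s * d.e k)) :=
    continuous_tsum (fun k => d.continuous_term k p) summable_geo fun k s => d.term_le k _
  rw [intervalIntegral.integral_add (by simp) (hc.intervalIntegrable _ _)]
  have h2 : ∫ s in (0 : ℝ)..t, (1 : ℝ) = t := by simp
  rw [h2]
  congr 1
  let f : ℕ → C(ℝ, ℝ) := fun k => ⟨_, d.continuous_term k p⟩
  have hs := intervalIntegral.hasSum_intervalIntegral_of_summable_norm (a := (0 : ℝ)) (b := t) (f := f)
    (by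
      refine Summable.of_nonneg_of_le (fun k => norm_nonneg _) (fun k => ?_) summable_geo
      rw [ContinuousMap.norm_le _ (by positivity)]
      intro x
      exact d.term_le k _)
  have h3 := hs.tsum_eq
  simp only [f, ContinuousMap.coe_mk] at h3
  rw [← h3]
  exact tsum_congr fun k => d.integral_term k t p

theorem F_zero (p : M) : d.F p 0 = 0 := by
  unfold F; simp

theorem continuous_F (p : M) : Continuous (d.F p) :=
  intervalIntegral.continuous_primitive
    (fun a b => (d.continuous_α_φ p).intervalIntegrable a b) 0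

theorem F_lower (p : M) (t : ℝ) (ht : 0 ≤ t) : t / 2 ≤ d.F p t := by
  unfold F
  have h := intervalIntegral.integral_mono_on (μ := volume) (f := fun _ => (1 / 2 : ℝ))
    (g := fun s => d.α (d.φ s p)) ht (continuous_const.intervalIntegrable _ _)
    ((d.continuous_α_φ p).intervalIntegrable _ _) fun s _ => d.α_lower _
  simp only [intervalIntegral.integral_const, sub_zero, smul_eq_mul] at h
  linarith

theorem F_upper_neg (p : M) (t : ℝ) (ht : t ≤ 0) : d.F p t ≤ t / 2 := by
  unfold F
  rw [intervalIntegral.integral_symm]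
  have h := intervalIntegral.integral_mono_on (μ := volume) (f := fun _ => (1 / 2 : ℝ))
    (g := fun s => d.α (d.φ s p)) ht (continuous_const.intervalIntegrable _ _)
    ((d.continuous_α_φ p).intervalIntegrable _ _) fun s _ => d.α_lower _
  simp only [intervalIntegral.integral_const, smul_eq_mul] at h
  linarith

theorem F_surj (p : M) (τ : ℝ) : ∃ t, d.F p t = τ := by
  have h1 := d.F_lower p (2 * |τ|) (by positivity)
  have h2 := d.F_upper_neg p (-(2 * |τ|)) (by have := abs_nonneg τ; linarith)
  have h3 := le_abs_self τ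
  have h4 := neg_abs_le τ
  have := mem_range_of_exists_le_of_exists_ge (d.continuous_F p) (c := τ)
    ⟨-(2 * |τ|), by linarith⟩ ⟨2 * |τ|, by linarith⟩
  exact this

/-! ### The good set and the eigenfunction -/

/-- The good set. -/
def E : Set M := {p | ∑' k, ‖((d.v k p : ℝ) : T)‖ₑ ≠ ⊤}

theorem measurable_v (k : ℕ) : Measurable (d.v k) := by
  unfold v
  have h1 : Continuous (stepc (d.A k) k) := by
    unfold stepc
    have := continuous_sn
    have := Real.smoothTransition.continuous
    fun_prop
  exact (h1.comp (d.continuous_w k)).measurable.comp measurable_base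

theorem measurableSet_E : MeasurableSet d.E := by
  have h : Measurable (fun p => ∑' k, ‖((d.v k p : ℝ) : T)‖ₑ) :=
    Measurable.tsum fun k => (AddCircle.measurable_mk'.comp (d.measurable_v k)).enorm
  exact (h (measurableSet_singleton ⊤)).compl

theorem mem_E_iff (p : M) : p ∈ d.E ↔ Summable (fun k => ‖((d.v k p : ℝ) : T)‖) := by
  have h : (∑' k, ‖((d.v k p : ℝ) : T)‖ₑ ≠ ⊤) ↔ Summable (fun k => ‖((d.v k p : ℝ) : T)‖₊) := by
    exact ENNReal.tsum_coe_ne_top_iff_summable
  have h2 : Summable (fun k => ‖((d.v k p : ℝ) : T)‖₊) ↔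
      Summable (fun k => ‖((d.v k p : ℝ) : T)‖) := by
    rw [← NNReal.summable_coe]
    rfl
  exact h.trans h2

theorem norm_coe_le (x : ℝ) : ‖(x : T)‖ ≤ |x| := by
  have := QuotientAddGroup.norm_mk_le_norm (S := AddSubgroup.zmultiples (1 : ℝ)) (m := x)
  rwa [Real.norm_eq_abs] at this

theorem summable_coe_Δ (t : ℝ) (p : M) : Summable (fun k => ‖((d.Δ t p k : ℝ) : T)‖) := by
  refine Summable.of_nonneg_of_le (fun k => norm_nonneg _) (fun k => norm_coe_le _) ?_
  exact (d.summable_Δ t p).abs

/-- The eigenfunction, additively written. -/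
noncomputable def f (p : M) : T := (base p).1 + ∑' k, ((d.v k p : ℝ) : T)

theorem φ_mem_E {p : M} (hp : p ∈ d.E) (t : ℝ) : d.φ t p ∈ d.E := by
  rw [mem_E_iff] at hp ⊢
  refine Summable.of_nonneg_of_le (fun k => norm_nonneg _) (fun k => ?_)
    (hp.add (d.summable_coe_Δ t p))
  rw [v_φ, AddCircle.coe_add]
  exact norm_add_le _ _

theorem f_φ {p : M} (hp : p ∈ d.E) (t : ℝ) : d.f (d.φ t p) = d.f p + ((d.F p t : ℝ) : T) := by
  rw [mem_E_iff] at hp
  have h1 : Summable (fun k => ((d.v k p : ℝ) : T)) := Summable.of_norm hp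
  have h2 : Summable (fun k => ((d.Δ t p k : ℝ) : T)) := Summable.of_norm (d.summable_coe_Δ t p)
  have h3 : (base (d.φ t p)).1 = (base p).1 + (t : T) := by
    unfold φ
    rw [base_flow]
  have h4 : ∑' k, ((d.v k (d.φ t p) : ℝ) : T) =
      ∑' k, ((d.v k p : ℝ) : T) + ∑' k, ((d.Δ t p k : ℝ) : T) := by
    rw [← h1.tsum_add h2]
    refine tsum_congr fun k => ?_
    rw [v_φ, AddCircle.coe_add]
  have h5 : ∑' k, ((d.Δ t p k : ℝ) : T) = ((∑' k, d.Δ t p k : ℝ) : T) := by
    have hs := (d.summable_Δ t p).hasSum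
    have hm := hs.map (QuotientAddGroup.mk' (AddSubgroup.zmultiples (1 : ℝ)))
      (AddCircle.continuous_mk' (1 : ℝ))
    exact hm.tsum_eq
  unfold f
  rw [h3, h4, h5, F_eq, AddCircle.coe_add]
  abel

/-! ### The good set has full measure -/

theorem measurePreserving_base : MeasurePreserving base μ (volume : Measure (T × T)) := by
  have h : MeasurePreserving (Prod.fst : (T × T) × T → T × T) volume volume :=
    measurePreserving_fst
  exact h.comp measurePreserving_r

theorem measurePreserving_w (k : ℕ) : MeasurePreserving (d.w k) volume volume := by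
  have hQ : (d.Q k : ℤ) ≠ 0 := by
    have := d.hQ k
    omega
  have h1 : MeasurePreserving (fun q : T × T => (q.1, (d.Q k : ℤ) • q.2 - (d.P k : ℤ) • q.1))
      ((volume : Measure T).prod (volume : Measure T))
      ((volume : Measure T).prod (volume : Measure T)) := by
    refine (MeasurePreserving.id (volume : Measure T)).skew_product
      (g := fun x y => (d.Q k : ℤ) • y - (d.P k : ℤ) • x) ?_ ?_
    · have : Continuous (fun q : T × T => (d.Q k : ℤ) • q.2 - (d.P k : ℤ) • q.1) := by fun_prop
      exact this.measurable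
    · refine Eventually.of_forall fun x => ?_
      exact ((measurePreserving_sub_right volume ((d.P k : ℤ) • x)).comp
        (MeasureTheory.Measure.measurePreserving_zsmul volume hQ)).map_eq
  have h2 : MeasurePreserving (Prod.snd : T × T → T)
      ((volume : Measure T).prod (volume : Measure T)) volume := measurePreserving_snd
  exact h2.comp h1

theorem measurePreserving_w_base (k : ℕ) :
    MeasurePreserving (fun p => d.w k (base p)) μ volume :=
  (d.measurePreserving_w k).comp measurePreserving_base

theorem v_of_pos {k : ℕ} {p : M} (h : 1 / 2 ≤ d.A k * sn (d.w k (base p))) : d.v k p = 4 ^ k := by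
  unfold v stepc
  rw [Real.smoothTransition.one_of_one_le (by linarith), mul_one]

theorem v_of_neg {k : ℕ} {p : M} (h : d.A k * sn (d.w k (base p)) ≤ -(1 / 2)) : d.v k p = 0 := by
  unfold v stepc
  rw [Real.smoothTransition.zero_of_nonpos (by linarith), mul_zero]

theorem coe_pow4 (k : ℕ) : (((4 : ℝ) ^ k : ℝ) : T) = 0 := by
  have := coe_intCast (4 ^ k)
  push_cast at this
  exact this

theorem measure_bad (k : ℕ) : μ {p | |d.A k * sn (d.w k (base p))| < 1 / 2} ≤
    ENNReal.ofReal ((1 / 2) ^ (k + 1)) := by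
  have hms : MeasurableSet {u : T | |d.A k * sn u| < 1 / 2} := by
    have : Continuous fun u : T => |d.A k * sn u| := by
      have := continuous_sn
      fun_prop
    exact (isOpen_lt this continuous_const).measurableSet
  have h := (d.measurePreserving_w_base k).measure_preimage hms.nullMeasurableSet
  have h2 : μ {p | |d.A k * sn (d.w k (base p))| < 1 / 2} =
      volume {u : T | |d.A k * sn u| < 1 / 2} := h
  rw [h2]
  exact d.hA k

theorem ae_mem_E : ∀ᵐ p ∂μ, p ∈ d.E := by
  have hsum : ∑' k, μ {p | |d.A k * sn (d.w k (base p))| < 1 / 2} ≠ ⊤ := by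
    refine ne_top_of_le_ne_top ?_ (ENNReal.tsum_le_tsum d.measure_bad)
    have hs : Summable (fun k : ℕ => (1 / 2 : ℝ) ^ (k + 1)) := by
      have := (summable_geometric_of_lt_one (r := (1 / 2 : ℝ)) (by norm_num)
        (by norm_num)).mul_right ((1 / 2 : ℝ) ^ 1)
      simpa only [pow_add] using this
    exact hs.tsum_ofReal_ne_top
  filter_upwards [ae_eventually_notMem hsum] with p hp
  rw [mem_E_iff]
  obtain ⟨N, hN⟩ := eventually_atTop.1 hp
  refine summable_of_ne_finset_zero (s := Finset.range N) fun k hk => ?_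
  have hk' : N ≤ k := by
    simpa using hk
  have h1 := hN k hk'
  simp only [not_lt] at h1
  rcases le_abs.1 h1 with h2 | h2
  · rw [d.v_of_pos h2, coe_pow4, norm_zero]
  · rw [d.v_of_neg (by linarith), AddCircle.coe_zero, norm_zero]

end Data

end Q70.Heis
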