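import Pool.Agent.Q70.Heis6

/-!
# Absence of weak mixing, and measurable non-triviality
-/

set_option autoImplicit false
open MeasureTheory Filter Topology Set

namespace Q70.Heis

variable (d : Data)

namespace Data

/-- The sets of good points whose eigenfunction lies in an arc. -/
def arc (a b : ℝ) : Set M := {p | p ∈ d.E ∧ rep (d.f p) ∈ Ioo a b}

theorem measurable_fE : Measurable (d.E.indicator d.f) := by
  refine measurable_of_tendsto_metrizable (f := fun (n : ℕ) =>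
    d.E.indicator (fun p => (base p).1 + ∑ k ∈ Finset.range n, ((d.v k p : ℝ) : T))) ?_ ?_
  · intro n
    refine Measurable.indicator ?_ d.measurableSet_E
    refine (measurable_fst.comp measurable_base).add (Finset.measurable_sum _ fun k _ => ?_)
    exact AddCircle.measurable_mk'.comp (d.measurable_v k)
  · rw [tendsto_pi_nhds]
    intro p
    by_cases hp : p ∈ d.E
    · simp only [indicator_of_mem hp]
      have h1 : Summable (fun k => ((d.v k p : ℝ) : T)) := Summable.of_norm ((d.mem_E_iff p).1 hp)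
      exact tendsto_const_nhds.add h1.hasSum.tendsto_sum_nat
    · simp only [indicator_of_notMem hp]
      exact tendsto_const_nhds

theorem measurableSet_arc (a b : ℝ) : MeasurableSet (d.arc a b) := by
  have h : d.arc a b = d.E ∩ (d.E.indicator d.f) ⁻¹' (rep ⁻¹' (Ioo a b)) := by
    ext p
    constructor
    · rintro ⟨h1, h2⟩
      refine ⟨h1, ?_⟩
      simp only [mem_preimage, indicator_of_mem h1]
      exact h2
    · rintro ⟨h1, h2⟩
      refine ⟨h1, ?_⟩
      simp only [mem_preimage, indicator_of_mem h1] at h2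
      exact h2
  rw [h]
  exact d.measurableSet_E.inter (d.measurable_fE (measurable_rep measurableSet_Ioo))

theorem rep_eq_of_mem {x : ℝ} {n : ℤ} (h : x ∈ Ico (n : ℝ) (n + 1)) : rep (x : T) = x - n := by
  rw [rep_coe, Int.fract]
  congr 1
  have : ⌊x⌋ = n := Int.floor_eq_iff.2 ⟨h.1, h.2⟩
  rw [this]

theorem measurePreserving_φ (t : ℝ) : MeasurePreserving (d.φ t) μ μ :=
  measurePreserving_nilflow _ _

theorem measure_arc_ne_zero {a b : ℝ} (ha : 0 ≤ a) (hab : a < b) (hb : b ≤ 1) :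
    μ (d.arc a b) ≠ 0 := by
  intro h0
  have h1 : ∀ q : ℚ, ∀ᵐ p ∂μ, d.φ q p ∉ d.arc a b := by
    intro q
    have h2 := (d.measurePreserving_φ q).measure_preimage
      (d.measurableSet_arc a b).nullMeasurableSet
    rw [h0] at h2
    rw [ae_iff]
    simp only [not_not]
    exact h2
  have h3 : ∀ᵐ p ∂μ, p ∈ d.E ∧ ∀ q : ℚ, d.φ q p ∉ d.arc a b := by
    filter_upwards [d.ae_mem_E, ae_all_iff.2 h1] with p hp1 hp2
    exact ⟨hp1, hp2⟩
  obtain ⟨p, hpE, hp⟩ := h3.exists
  obtain ⟨t, ht⟩ := d.F_surj p (1 + (a + b) / 2 - rep (d.f p))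
  have hopen : IsOpen ((d.F p) ⁻¹' (Ioo (1 + a - rep (d.f p)) (1 + b - rep (d.f p)))) :=
    isOpen_Ioo.preimage (d.continuous_F p)
  have hne : ((d.F p) ⁻¹' (Ioo (1 + a - rep (d.f p)) (1 + b - rep (d.f p)))).Nonempty := by
    refine ⟨t, ?_⟩
    rw [mem_preimage, ht]
    constructor <;> linarith
  obtain ⟨q, hx⟩ := (Rat.denseRange_cast (𝕜 := ℝ)).exists_mem_open hopen hne
  refine hp q ⟨d.φ_mem_E hpE q, ?_⟩
  rw [d.f_φ hpE]
  have h4 : d.f p + ((d.F p q : ℝ) : T) = ((rep (d.f p) + d.F p q : ℝ) : T) := by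
    rw [AddCircle.coe_add, coe_rep]
  have h5 := hx.1
  have h6 := hx.2
  rw [h4, rep_eq_of_mem (n := 1) (by constructor <;> push_cast <;> linarith)]
  push_cast
  constructor <;> linarith

theorem f_timeChange {ψ : ℝ → M → M} (hψ : IsTimeChange (nilflow (dir d.θ)) d.α ψ) {p : M}
    (hp : p ∈ d.E) (s : ℝ) : ψ s p ∈ d.E ∧ d.f (ψ s p) = d.f p + (s : T) := by
  obtain ⟨t, ht, hp2⟩ := hψ s p
  have h1 : ψ s p = d.φ t p := hp2
  have h2 : d.F p t = s := ht
  rw [h1]
  exact ⟨d.φ_mem_E hp t, by rw [d.f_φ hp, h2]⟩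

theorem disjoint_arcs {ψ : ℝ → M → M} (hψ : IsTimeChange (nilflow (dir d.θ)) d.α ψ) (n : ℕ)
    (s : ℝ) (h1 : (n : ℝ) ≤ s) (h2 : s ≤ n + 1 / 4) :
    ψ s '' (d.arc 0 (1 / 2)) ∩ d.arc (3 / 4) 1 = ∅ := by
  rw [eq_empty_iff_forall_notMem]
  rintro _ ⟨⟨p, ⟨hpE, hp⟩, rfl⟩, hq⟩
  obtain ⟨-, h3⟩ := d.f_timeChange hψ hpE s
  have h4 := hq.2
  rw [h3] at h4
  have h5 : d.f p + (s : T) = ((rep (d.f p) + s : ℝ) : T) := by
    rw [AddCircle.coe_add, coe_rep]
  rw [h5, rep_eq_of_mem (n := n) (by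
    constructor
    · push_cast; linarith [hp.1]
    · push_cast; linarith [hp.2])] at h4
  push_cast at h4
  linarith [h4.1, hp.2]

theorem exists_timeChange : ∃ ψ, IsTimeChange (nilflow (dir d.θ)) d.α ψ := by
  choose τ hτ using fun (t : ℝ) (p : M) => d.F_surj p t
  exact ⟨fun t p => nilflow (dir d.θ) (τ t p) p, fun t p => ⟨τ t p, hτ t p, rfl⟩⟩

theorem measurable_α : Measurable d.α := by
  rw [measurable_iff]
  exact (smooth_α d).continuous.measurable

/-- The weighted measure gives positive finite mass to sets of positive Haar measure. -/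
theorem weighted_pos {S : Set M} (hS : MeasurableSet S) (h : μ S ≠ 0) :
    0 < (weighted d.α).real S := by
  have hm : Measurable (fun p => ENNReal.ofReal (d.α p)) := d.measurable_α.ennreal_ofReal
  have hc1 : ∫⁻ p, ENNReal.ofReal (d.α p) ∂μ ≤ ENNReal.ofReal (3 / 2) := by
    calc ∫⁻ p, ENNReal.ofReal (d.α p) ∂μ ≤ ∫⁻ _, ENNReal.ofReal (3 / 2) ∂μ :=
          lintegral_mono fun p => ENNReal.ofReal_le_ofReal (d.α_upper p)
      _ = ENNReal.ofReal (3 / 2) := by simp
  have hc2 : ENNReal.ofReal (1 / 2) ≤ ∫⁻ p, ENNReal.ofReal (d.α p) ∂μ := by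
    calc ENNReal.ofReal (1 / 2) = ∫⁻ _, ENNReal.ofReal (1 / 2) ∂μ := by simp
      _ ≤ ∫⁻ p, ENNReal.ofReal (d.α p) ∂μ :=
          lintegral_mono fun p => ENNReal.ofReal_le_ofReal (d.α_lower p)
  have hc0 : (∫⁻ p, ENNReal.ofReal (d.α p) ∂μ)⁻¹ ≠ 0 :=
    ENNReal.inv_ne_zero.2 (ne_top_of_le_ne_top ENNReal.ofReal_ne_top hc1)
  have hcT : (∫⁻ p, ENNReal.ofReal (d.α p) ∂μ)⁻¹ ≠ ⊤ := by
    refine ENNReal.inv_ne_top.2 fun h0 => ?_
    rw [h0] at hc2
    have : (0 : ENNReal) < ENNReal.ofReal (1 / 2) := ENNReal.ofReal_pos.2 (by norm_num)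
    exact absurd hc2 (not_le.2 this)
  have hS1 : ∫⁻ p in S, ENNReal.ofReal (d.α p) ∂μ ≠ 0 := by
    intro h0
    have h1 : ENNReal.ofReal (1 / 2) * μ S ≤ ∫⁻ p in S, ENNReal.ofReal (d.α p) ∂μ := by
      rw [← setLIntegral_const]
      exact lintegral_mono fun p => ENNReal.ofReal_le_ofReal (d.α_lower p)
    rw [h0] at h1
    have h2 : ENNReal.ofReal (1 / 2) * μ S = 0 := le_antisymm h1 zero_le
    rcases mul_eq_zero.1 h2 with h3 | h3
    · rw [ENNReal.ofReal_eq_zero] at h3; norm_num at h3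
    · exact h h3
  have hS2 : ∫⁻ p in S, ENNReal.ofReal (d.α p) ∂μ ≠ ⊤ :=
    ne_top_of_le_ne_top ENNReal.ofReal_ne_top ((setLIntegral_le_lintegral _ _).trans hc1)
  unfold weighted
  rw [measureReal_def, Measure.smul_apply, withDensity_apply _ hS, smul_eq_mul]
  exact ENNReal.toReal_pos (mul_ne_zero hc0 hS1) (ENNReal.mul_ne_top hcT hS2)

theorem not_mixing {ψ : ℝ → M → M} (hψ : IsTimeChange (nilflow (dir d.θ)) d.α ψ) :
    ¬ Mixing ψ (weighted d.α) := by
  intro h
  have hA := d.measurableSet_arc 0 (1 / 2)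
  have hB := d.measurableSet_arc (3 / 4) 1
  have h1 := h _ _ hA hB
  have h2 := h1.comp tendsto_natCast_atTop_atTop
  have h3 : ((fun t : ℝ => (weighted d.α).real (ψ t '' (d.arc 0 (1 / 2)) ∩ d.arc (3 / 4) 1)) ∘
      (fun n : ℕ => (n : ℝ))) = fun _ => 0 := by
    funext n
    simp only [Function.comp]
    rw [d.disjoint_arcs hψ n n le_rfl (by linarith)]
    simp
  rw [h3] at h2
  have h4 := tendsto_nhds_unique h2 tendsto_const_nhds
  have h5 := d.weighted_pos hA (d.measure_arc_ne_zero (by norm_num) (by norm_num) (by norm_num))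
  have h6 := d.weighted_pos hB (d.measure_arc_ne_zero (by norm_num) (by norm_num) le_rfl)
  have := mul_pos h5 h6
  linarith

theorem not_weakMixing {ψ : ℝ → M → M} (hψ : IsTimeChange (nilflow (dir d.θ)) d.α ψ) :
    ¬ WeakMixing ψ (weighted d.α) := by
  intro h
  have hA := d.measurableSet_arc 0 (1 / 2)
  have hB := d.measurableSet_arc (3 / 4) 1
  have h1 := h _ _ hA hB
  have h5 := d.weighted_pos hA (d.measure_arc_ne_zero (by norm_num) (by norm_num) (by norm_num))
  have h6 := d.weighted_pos hB (d.measure_arc_ne_zero (by norm_num) (by norm_num) le_rfl)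
  set c : ℝ := (weighted d.α).real (d.arc 0 (1 / 2)) * (weighted d.α).real (d.arc (3 / 4) 1)
    with hc
  have hcpos : 0 < c := mul_pos h5 h6
  set g : ℝ → ENNReal := fun s =>
    ENNReal.ofReal |(weighted d.α).real (ψ s '' (d.arc 0 (1 / 2)) ∩ d.arc (3 / 4) 1) - c| with hg
  have hgc : ∀ (n : ℕ) (s : ℝ), s ∈ Ico (n : ℝ) (n + 1 / 4) → g s = ENNReal.ofReal c := by
    intro n s hs
    simp only [hg]
    rw [d.disjoint_arcs hψ n s hs.1 hs.2.le]
    simp [abs_of_pos hcpos]
  have hint : ∀ n : ℕ, (n : ENNReal) * (ENNReal.ofReal c * ENNReal.ofReal (1 / 4)) ≤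
      ∫⁻ s in Icc (0 : ℝ) n, g s := by
    intro n
    have hsub : (⋃ j ∈ Finset.range n, Ico (j : ℝ) (j + 1 / 4)) ⊆ Icc (0 : ℝ) n := by
      intro s hs
      simp only [mem_iUnion, Finset.mem_range] at hs
      obtain ⟨j, hj, hs⟩ := hs
      have h7 : (j : ℝ) + 1 ≤ n := by exact_mod_cast hj
      have h8 : (0 : ℝ) ≤ j := Nat.cast_nonneg j
      exact ⟨by linarith [hs.1], by linarith [hs.2]⟩
    refine le_trans ?_ (lintegral_mono_set hsub)
    rw [lintegral_biUnion_finset]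
    · have h9 : ∀ j ∈ Finset.range n, ∫⁻ s in Ico (j : ℝ) (j + 1 / 4), g s =
          ENNReal.ofReal c * ENNReal.ofReal (1 / 4) := by
        intro j _
        rw [setLIntegral_congr_fun measurableSet_Ico (g := fun _ => ENNReal.ofReal c)
          (fun s hs => hgc j s hs), setLIntegral_const, Real.volume_Ico]
        congr 2
        ring
      rw [Finset.sum_congr rfl h9]
      simp
    · intro i _ j _ hij
      rw [Function.onFun, Set.disjoint_left]
      intro s hi hj
      have h10 : (i : ℝ) < j + 1 := by linarith [hi.1, hj.2]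
      have h11 : (j : ℝ) < i + 1 := by linarith [hj.1, hi.2]
      have h12 : i < j + 1 := by exact_mod_cast h10
      have h13 : j < i + 1 := by exact_mod_cast h11
      exact hij (by omega)
    · intro j _
      exact measurableSet_Ico
  have h2 := h1.comp tendsto_natCast_atTop_atTop
  have hpos : (0 : ENNReal) < ENNReal.ofReal c * ENNReal.ofReal (1 / 4) :=
    ENNReal.mul_pos (ENNReal.ofReal_pos.2 hcpos).ne' (ENNReal.ofReal_pos.2 (by norm_num)).ne'
  have h3 := h2.eventually (gt_mem_nhds hpos)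
  obtain ⟨n, hn, hn1⟩ := (h3.and (eventually_ge_atTop 1)).exists
  simp only [Function.comp] at hn
  have h14 := hint n
  have h15 : (n : ENNReal) ≠ 0 := by
    have : n ≠ 0 := by omega
    exact_mod_cast this
  rw [ENNReal.ofReal_natCast] at hn
  have h16 : ENNReal.ofReal c * ENNReal.ofReal (1 / 4) ≤ (∫⁻ s in Icc (0 : ℝ) n, g s) / n := by
    rw [ENNReal.le_div_iff_mul_le (Or.inl h15) (Or.inl (ENNReal.natCast_ne_top n)), mul_comm]
    exact h14
  exact absurd hn (not_lt.2 h16)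

end Data

end Q70.Heis
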