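import Pool.Agent.Q70.Heis7

/-!
# Measurable non-triviality of the time change
-/

set_option autoImplicit false
open MeasureTheory Filter Topology Set

namespace Q70.Heis

variable (d : Data)

namespace Data

theorem step_mem (a : ℝ) (k : ℕ) (w : ℝ) : 0 ≤ step a k w ∧ step a k w ≤ 4 ^ k := by
  unfold step
  have h1 := Real.smoothTransition.nonneg (1 / 2 + a * Real.sin (2 * Real.pi * w))
  have h2 := Real.smoothTransition.le_one (1 / 2 + a * Real.sin (2 * Real.pi * w))
  constructor
  · positivity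
  · calc (4 : ℝ) ^ k * _ ≤ 4 ^ k * 1 := by gcongr
      _ = 4 ^ k := mul_one _

theorem abs_Δ_le' (t : ℝ) (p : M) (k : ℕ) : |d.Δ t p k| ≤ 4 ^ k := by
  unfold Δ
  have h1 := step_mem (d.A k) k (d.ρ k p + t * d.e k)
  have h2 := step_mem (d.A k) k (d.ρ k p)
  exact abs_le.2 ⟨by linarith [h1.1, h2.2], by linarith [h1.2, h2.1]⟩

/-- The time at which the step function of index `j` is reversed. -/
noncomputable def tm (j : ℕ) : ℝ := 1 / (2 * d.e j)

theorem tm_mul (j : ℕ) : d.tm j * d.e j = 1 / 2 := by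
  have := d.e_pos j
  unfold tm
  field_simp

theorem tm_pos (j : ℕ) : 0 < d.tm j := by
  have := d.e_pos j
  unfold tm
  positivity

theorem geom4 (j : ℕ) : ∑ k ∈ Finset.range j, (4 : ℝ) ^ k = (4 ^ j - 1) / 3 := by
  induction j with
  | zero => simp
  | succ j ih => rw [Finset.sum_range_succ, ih, pow_succ]; ring

theorem sum_Δ_estimate (j : ℕ) (p : M) :
    |∑' k, d.Δ (d.tm j) p k - d.Δ (d.tm j) p j| ≤ 4 ^ j / 3 + 1 / 6 := by
  have h1 := (d.summable_Δ (d.tm j) p).sum_add_tsum_nat_add (j + 1)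
  rw [Finset.sum_range_succ] at h1
  have h2 : |∑ k ∈ Finset.range j, d.Δ (d.tm j) p k| ≤ (4 ^ j - 1) / 3 := by
    rw [← geom4]
    exact (Finset.abs_sum_le_sum_abs _ _).trans (Finset.sum_le_sum fun k _ => d.abs_Δ_le' _ _ _)
  have h3 : |∑' k, d.Δ (d.tm j) p (k + (j + 1))| ≤ 1 / 2 := by
    have h := tsum_of_norm_bounded (f := fun k => d.Δ (d.tm j) p (k + (j + 1)))
      (summable_geo.hasSum) fun k => ?_
    · rwa [tsum_geo] at h
    · rw [Real.norm_eq_abs]
      refine (d.abs_Δ_le _ _ _).trans ?_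
      have h4 := d.h2 j (k + (j + 1)) (by omega)
      have h5 := d.tm_pos j
      rw [abs_of_pos h5]
      calc d.e (k + (j + 1)) * d.D (k + (j + 1)) * d.tm j
          ≤ (1 / 2) ^ (k + (j + 1) + 1) * d.e j * d.tm j := by
            have : d.e (k + (j + 1)) * d.D (k + (j + 1)) ≤ (1 / 2) ^ (k + (j + 1) + 1) * d.e j := h4
            gcongr
        _ = (1 / 2) ^ (k + (j + 1) + 1) * (d.tm j * d.e j) := by ring
        _ = (1 / 2) ^ (k + (j + 1) + 1) * (1 / 2) := by rw [tm_mul]
        _ ≤ (1 / 2) ^ (k + (j + 1) + 1) * 1 := by gcongr; norm_num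
        _ = (1 / 2) ^ (k + 2) * (1 / 2) ^ j := by rw [mul_one, ← pow_add]; congr 1; ring
        _ ≤ (1 / 2) ^ (k + 2) * 1 := by
            have : (1 / 2 : ℝ) ^ j ≤ 1 := pow_le_one₀ (by norm_num) (by norm_num)
            gcongr
        _ = (1 / 2) ^ (k + 2) := mul_one _
  have h6 : ∑' k, d.Δ (d.tm j) p k - d.Δ (d.tm j) p j =
      ∑ k ∈ Finset.range j, d.Δ (d.tm j) p k + ∑' k, d.Δ (d.tm j) p (k + (j + 1)) := by
    linarith
  rw [h6]
  have h7 := abs_add_le (∑ k ∈ Finset.range j, d.Δ (d.tm j) p k)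
    (∑' k, d.Δ (d.tm j) p (k + (j + 1)))
  linarith

/-- Points where the step function of index `j` is high. -/
def hi (j : ℕ) : Set M := {p | 1 / 2 ≤ d.A j * sn (d.w j (base p))}

/-- Points where the step function of index `j` is low. -/
def lo (j : ℕ) : Set M := {p | d.A j * sn (d.w j (base p)) ≤ -(1 / 2)}

theorem sn_flow (j : ℕ) (p : M) :
    sn (d.w j (base (d.φ (d.tm j) p))) = - sn (d.w j (base p)) := by
  unfold φ
  rw [w_flow, tm_mul, sn_half]

theorem Δ_hi {j : ℕ} {p : M} (hp : p ∈ d.hi j) : d.Δ (d.tm j) p j = -4 ^ j := by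
  have h1 := d.v_φ j (d.tm j) p
  have h2 : d.v j p = 4 ^ j := d.v_of_pos hp
  have h3 : d.v j (d.φ (d.tm j) p) = 0 := by
    apply d.v_of_neg
    rw [sn_flow]
    have : 1 / 2 ≤ d.A j * sn (d.w j (base p)) := hp
    linarith
  rw [h2, h3] at h1
  linarith

theorem Δ_lo {j : ℕ} {p : M} (hp : p ∈ d.lo j) : d.Δ (d.tm j) p j = 4 ^ j := by
  have h1 := d.v_φ j (d.tm j) p
  have h2 : d.v j p = 0 := d.v_of_neg hp
  have h3 : d.v j (d.φ (d.tm j) p) = 4 ^ j := by
    apply d.v_of_pos
    rw [sn_flow]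
    have : d.A j * sn (d.w j (base p)) ≤ -(1 / 2) := hp
    linarith
  rw [h2, h3] at h1
  linarith

theorem measure_pos_set (j : ℕ) :
    1 / 4 ≤ (volume : Measure T).real {u | 1 / 2 ≤ d.A j * sn u} ∧
    1 / 4 ≤ (volume : Measure T).real {u | d.A j * sn u ≤ -(1 / 2)} := by
  have hcont : Continuous fun u : T => d.A j * sn u := by
    have := continuous_sn
    fun_prop
  have hm : MeasurableSet {u : T | 1 / 2 ≤ d.A j * sn u} :=
    (isClosed_le continuous_const hcont).measurableSet
  have h1 : (volume : Measure T).real {u | d.A j * sn u ≤ -(1 / 2)} =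
      (volume : Measure T).real {u | 1 / 2 ≤ d.A j * sn u} := by
    have h2 := (measurePreserving_add_right (volume : Measure T)
      ((1 / 2 : ℝ) : T)).measureReal_preimage hm.nullMeasurableSet
    rw [← h2]
    congr 1
    ext u
    simp only [mem_preimage, mem_ofPred_eq]
    rw [sn_half]
    constructor <;> intro h <;> linarith
  have h3 : (volume : Measure T).real {u | |d.A j * sn u| < 1 / 2} ≤ 1 / 2 := by
    have h4 := d.hA j
    have h5 : (volume : Measure T).real {u | |d.A j * sn u| < 1 / 2} ≤ (1 / 2) ^ (j + 1) :=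
      ENNReal.toReal_le_of_le_ofReal (by positivity) h4
    refine h5.trans ?_
    calc (1 / 2 : ℝ) ^ (j + 1) ≤ (1 / 2) ^ 1 :=
          pow_le_pow_of_le_one (by norm_num) (by norm_num) (by omega)
      _ = 1 / 2 := pow_one _
  have h6 : (1 : ℝ) ≤ (volume : Measure T).real {u | 1 / 2 ≤ d.A j * sn u} +
      (volume : Measure T).real {u | d.A j * sn u ≤ -(1 / 2)} +
      (volume : Measure T).real {u | |d.A j * sn u| < 1 / 2} := by
    have h7 : (univ : Set T) ⊆ ({u | 1 / 2 ≤ d.A j * sn u} ∪ {u | d.A j * sn u ≤ -(1 / 2)}) ∪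
        {u | |d.A j * sn u| < 1 / 2} := by
      intro u _
      by_cases h : |d.A j * sn u| < 1 / 2
      · exact Or.inr h
      · left
        rcases le_abs.1 (not_lt.1 h) with h' | h'
        · exact Or.inl h'
        · right
          change d.A j * sn u ≤ -(1 / 2)
          linarith
    have h8 := measureReal_mono (μ := (volume : Measure T)) h7
    rw [probReal_univ] at h8
    refine h8.trans ((measureReal_union_le _ _).trans ?_)
    gcongr
    exact measureReal_union_le _ _
  constructor <;> linarith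

theorem measure_hi (j : ℕ) : 1 / 4 ≤ μ.real (d.hi j) := by
  have hcont : Continuous fun u : T => d.A j * sn u := by
    have := continuous_sn
    fun_prop
  have hm : MeasurableSet {u : T | 1 / 2 ≤ d.A j * sn u} :=
    (isClosed_le continuous_const hcont).measurableSet
  have h := (d.measurePreserving_w_base j).measureReal_preimage hm.nullMeasurableSet
  have h2 : μ.real (d.hi j) = (volume : Measure T).real {u | 1 / 2 ≤ d.A j * sn u} := h
  rw [h2]
  exact (d.measure_pos_set j).1

theorem measure_lo (j : ℕ) : 1 / 4 ≤ μ.real (d.lo j) := by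
  have hcont : Continuous fun u : T => d.A j * sn u := by
    have := continuous_sn
    fun_prop
  have hm : MeasurableSet {u : T | d.A j * sn u ≤ -(1 / 2)} :=
    (isClosed_le hcont continuous_const).measurableSet
  have h := (d.measurePreserving_w_base j).measureReal_preimage hm.nullMeasurableSet
  have h2 : μ.real (d.lo j) = (volume : Measure T).real {u | d.A j * sn u ≤ -(1 / 2)} := h
  rw [h2]
  exact (d.measure_pos_set j).2

theorem exists_bound_level (u : M → ℝ) (hu : Measurable u) :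
    ∃ K : ℕ, μ.real {p | (K : ℝ) < |u p|} ≤ 1 / 16 := by
  have hm : ∀ n : ℕ, NullMeasurableSet {p : M | (n : ℝ) < |u p|} μ := fun n =>
    (measurableSet_lt measurable_const hu.abs).nullMeasurableSet
  have hanti : Antitone (fun n : ℕ => {p : M | (n : ℝ) < |u p|}) := by
    intro n n' hnn p hp
    have h1 : (n : ℝ) ≤ n' := by exact_mod_cast hnn
    exact lt_of_le_of_lt h1 hp
  have ht := tendsto_measure_iInter_atTop hm hanti ⟨0, measure_ne_top _ _⟩
  have hinter : (⋂ n : ℕ, {p : M | (n : ℝ) < |u p|}) = ∅ := by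
    rw [eq_empty_iff_forall_notMem]
    intro p hp
    rw [mem_iInter] at hp
    obtain ⟨n, hn⟩ := exists_nat_gt |u p|
    have h2 : (n : ℝ) < |u p| := hp n
    linarith
  rw [hinter, measure_empty] at ht
  have h3 : (0 : ENNReal) < ENNReal.ofReal (1 / 16) := ENNReal.ofReal_pos.2 (by norm_num)
  obtain ⟨n, hn⟩ := (ht.eventually (ge_mem_nhds h3)).exists
  exact ⟨n, ENNReal.toReal_le_of_le_ofReal (by norm_num) hn⟩

theorem nontrivial_α : ¬ MeasurablyTrivial (nilflow (dir d.θ)) d.α := by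
  rintro ⟨c, u, hu, heq⟩
  obtain ⟨u', hu', hae⟩ := hu
  obtain ⟨K, hK⟩ := exists_bound_level u' hu'
  set j : ℕ := 4 * K with hj
  set t : ℝ := d.tm j with ht
  have hmp := d.measurePreserving_φ t
  -- the cocycle equation at time `t`
  have h1 : ∀ᵐ p ∂μ, u' (d.φ t p) - u' p = d.F p t - c * t := by
    have h2 : ∀ᵐ p ∂μ, u (d.φ t p) = u' (d.φ t p) := hmp.quasiMeasurePreserving.ae hae
    filter_upwards [hae, h2, heq t] with p hp1 hp2 hp3
    have h3 : ∫ s in (0 : ℝ)..t, (d.α (nilflow (dir d.θ) s p) - c) = d.F p t - c * t := by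
      have hc := d.continuous_α_φ p
      have h4 := intervalIntegral.integral_sub (μ := volume) (a := 0) (b := t)
        (hc.intervalIntegrable 0 t) (continuous_const.intervalIntegrable (u := fun _ => c) 0 t)
      have h5 : ∫ s in (0 : ℝ)..t, c = c * t := by
        simp [mul_comm]
      rw [h5] at h4
      exact h4
    rw [h3] at hp3
    have h6 : u (nilflow (dir d.θ) t p) = u' (d.φ t p) := hp2
    rw [h6, hp1] at hp3
    exact hp3
  -- the bad set is small
  set Bad : Set M := {p | (K : ℝ) < |u' p|} ∪ (d.φ t) ⁻¹' {p | (K : ℝ) < |u' p|} ∪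
    {p | ¬ (u' (d.φ t p) - u' p = d.F p t - c * t)} with hBad
  have hBadm : μ.real Bad ≤ 1 / 8 := by
    have hmm : MeasurableSet {p | (K : ℝ) < |u' p|} := measurableSet_lt measurable_const hu'.abs
    have h7 := hmp.measureReal_preimage hmm.nullMeasurableSet
    have h8 : μ.real {p | ¬ (u' (d.φ t p) - u' p = d.F p t - c * t)} = 0 := by
      rw [measureReal_def, ae_iff.1 h1, ENNReal.toReal_zero]
    calc μ.real Bad ≤ μ.real ({p | (K : ℝ) < |u' p|} ∪ (d.φ t) ⁻¹' {p | (K : ℝ) < |u' p|}) +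
          μ.real {p | ¬ (u' (d.φ t p) - u' p = d.F p t - c * t)} := measureReal_union_le _ _
      _ ≤ μ.real {p | (K : ℝ) < |u' p|} + μ.real ((d.φ t) ⁻¹' {p | (K : ℝ) < |u' p|}) + 0 := by
          rw [h8]
          have := measureReal_union_le (μ := μ) {p | (K : ℝ) < |u' p|}
            ((d.φ t) ⁻¹' {p | (K : ℝ) < |u' p|})
          linarith
      _ ≤ 1 / 8 := by rw [h7]; linarith
  have hex : ∀ S : Set M, 1 / 4 ≤ μ.real S → ∃ p ∈ S, p ∉ Bad := by
    intro S hS
    by_contra hcon
    push Not at hcon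
    have h9 : S ⊆ Bad := hcon
    have h10 := measureReal_mono (μ := μ) h9
    linarith
  have hgood : ∀ p, p ∉ Bad → |d.F p t - c * t| ≤ 2 * K := by
    intro p hp
    simp only [hBad, mem_union, mem_preimage, mem_ofPred_eq, not_or, not_lt, not_not] at hp
    obtain ⟨⟨h11, h12⟩, h13⟩ := hp
    rw [← h13]
    have h14 := abs_sub (u' (d.φ t p)) (u' p)
    linarith
  obtain ⟨p, hp, hpB⟩ := hex _ (d.measure_hi j)
  obtain ⟨q, hq, hqB⟩ := hex _ (d.measure_lo j)
  have h15 := hgood p hpB
  have h16 := hgood q hqB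
  have h17 := d.sum_Δ_estimate j p
  have h18 := d.sum_Δ_estimate j q
  rw [d.Δ_hi hp] at h17
  rw [d.Δ_lo hq] at h18
  rw [F_eq] at h15 h16
  rw [abs_le] at h15 h16 h17 h18
  have h19 : (4 * K : ℝ) < 4 ^ j := by
    have h20 : 4 * K < 4 ^ (4 * K) := Nat.lt_pow_self (by norm_num)
    rw [hj]
    exact_mod_cast h20
  have h21 : (1 : ℝ) ≤ 4 ^ j := one_le_pow₀ (by norm_num)
  linarith [h15.1, h15.2, h16.1, h16.2, h17.1, h17.2, h18.1, h18.2]

end Data

end Q70.Heis
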