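import Mathlib

set_option autoImplicit false
open MeasureTheory Filter Topology Set

namespace Q70

/-- finite measures on the circle with equal Fourier coefficients are equal -/
theorem circle_ext (m m' : Measure (AddCircle (1:ℝ))) [IsFiniteMeasure m] [IsFiniteMeasure m']
    (h : ∀ n : ℤ, ∫ x, (fourier n x : ℂ) ∂m = ∫ x, (fourier n x : ℂ) ∂m') : m = m' := by
  haveI : Fact ((0:ℝ) < 1) := ⟨zero_lt_one⟩
  -- equality for all complex continuous functions
  have hint : ∀ (f : C(AddCircle (1:ℝ), ℂ)) (ν : Measure (AddCircle (1:ℝ))) [IsFiniteMeasure ν],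
      Integrable (fun x => f x) ν := by
    intro f ν _
    exact (f.continuous.integrable_of_hasCompactSupport (HasCompactSupport.of_compactSpace _))
  let L : ∀ ν : Measure (AddCircle (1:ℝ)), IsFiniteMeasure ν → (C(AddCircle (1:ℝ), ℂ) →L[ℂ] ℂ) :=
    fun ν hν => LinearMap.mkContinuous
      { toFun := fun f => ∫ x, f x ∂ν
        map_add' := fun f g => by
          haveI := hν
          simp only [ContinuousMap.add_apply]
          exact integral_add (hint f ν) (hint g ν)
        map_smul' := fun c f => by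
          simp only [ContinuousMap.smul_apply, RingHom.id_apply]
          exact integral_smul c _ } (ν.real univ) (fun f => by
          haveI := hν
          have := norm_integral_le_of_norm_le_const (μ := ν) (f := fun x => f x) (C := ‖f‖)
            (Eventually.of_forall fun x => f.norm_coe_le_norm x)
          simpa [mul_comm] using this)
  have hL : L m inferInstance = L m' inferInstance := by
    have hdense : Dense ((Submodule.span ℂ (range (@fourier 1)) : Submodule ℂ _) :
        Set C(AddCircle (1:ℝ), ℂ)) := by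
      rw [Submodule.dense_iff_topologicalClosure_eq_top]
      exact span_fourier_closure_eq_top
    refine ContinuousLinearMap.ext_on hdense ?_
    rintro _ ⟨n, rfl⟩
    exact h n
  have hL' : ∀ f : C(AddCircle (1:ℝ), ℂ), ∫ x, f x ∂m = ∫ x, f x ∂m' := by
    intro f
    exact congrArg (fun φ : C(AddCircle (1:ℝ), ℂ) →L[ℂ] ℂ => φ f) hL
  apply ext_of_forall_integral_eq_of_IsFiniteMeasure
  intro f
  let g : C(AddCircle (1:ℝ), ℂ) := ⟨fun x => ((f x : ℝ) : ℂ), by fun_prop⟩
  have := hL' g
  have e1 : ∀ ν : Measure (AddCircle (1:ℝ)), ∫ x, g x ∂ν = ((∫ x, f x ∂ν : ℝ) : ℂ) := by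
    intro ν
    exact integral_ofReal
  rw [e1, e1] at this
  exact_mod_cast this

/-- finite measures on `[0,1)` with equal Fourier coefficients are equal -/
theorem ico_ext (ν ν' : Measure ℝ) [IsFiniteMeasure ν] [IsFiniteMeasure ν']
    (h0 : ν (Ico 0 1)ᶜ = 0) (h0' : ν' (Ico 0 1)ᶜ = 0)
    (h : ∀ n : ℤ, ∫ x, Complex.exp (2 * Real.pi * Complex.I * n * x) ∂ν =
      ∫ x, Complex.exp (2 * Real.pi * Complex.I * n * x) ∂ν') : ν = ν' := by
  haveI : Fact ((0:ℝ) < 1) := ⟨zero_lt_one⟩
  have hc : Measurable (fun x : ℝ => (x : AddCircle (1:ℝ))) := AddCircle.measurable_mk'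
  have hmap : Measure.map (fun x : ℝ => (x : AddCircle (1:ℝ))) ν =
      Measure.map (fun x : ℝ => (x : AddCircle (1:ℝ))) ν' := by
    apply circle_ext
    intro n
    rw [integral_map hc.aemeasurable (by
        exact ((fourier n).continuous.aestronglyMeasurable)),
      integral_map hc.aemeasurable (by
        exact ((fourier n).continuous.aestronglyMeasurable))]
    simp only [fourier_coe_apply]
    simpa using h n
  -- left inverse
  let g : AddCircle (1:ℝ) → ℝ := fun y => ((AddCircle.measurableEquivIco (1:ℝ) 0 y : _) : ℝ)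
  have hg : Measurable g := measurable_subtype_coe.comp (AddCircle.measurableEquivIco (1:ℝ) 0).measurable
  have hgx : ∀ x ∈ Ico (0:ℝ) 1, g (x : AddCircle (1:ℝ)) = x := by
    intro x hx
    have : x ∈ Ico (0:ℝ) (0 + 1) := by simpa using hx
    change ((AddCircle.equivIco (1:ℝ) 0 (x : AddCircle (1:ℝ)) : _) : ℝ) = x
    rw [AddCircle.equivIco_coe_eq this]
  have key : ∀ (ρ : Measure ℝ), ρ (Ico 0 1)ᶜ = 0 →
      Measure.map g (Measure.map (fun x : ℝ => (x : AddCircle (1:ℝ))) ρ) = ρ := by
    intro ρ hρ
    rw [Measure.map_map hg hc]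
    have : (g ∘ fun x : ℝ => (x : AddCircle (1:ℝ))) =ᵐ[ρ] id := by
      have h1 : ∀ᵐ x ∂ρ, x ∈ Ico (0:ℝ) 1 := by
        rw [ae_iff]
        exact hρ
      filter_upwards [h1] with x hx
      exact hgx x hx
    rw [Measure.map_congr this, Measure.map_id]
  rw [← key ν h0, ← key ν' h0', hmap]

end Q70
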