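import Pool.Agent.Q70.IetFourier

set_option autoImplicit false
open MeasureTheory Filter Topology Set

namespace Q70

/-- the shape of the exchange of four intervals of lengths `α, 1-α, α, 1-α` -/
structure IsSwap (α : ℝ) (F : ℝ → ℝ) : Prop where
  meas : Measurable F
  f0 : ∀ x ∈ Ico (0:ℝ) α, F x = x + α
  f1 : ∀ x ∈ Ico α 1, F x = x + 1
  f2 : ∀ x ∈ Ico (1:ℝ) (1 + α), F x = x + -1
  f3 : ∀ x ∈ Ico (1 + α) 2, F x = x + (α - 1)

variable {α : ℝ} {F : ℝ → ℝ} {μ : Measure ℝ}

theorem preimage_shift_restrict (hμ : μ (Ico (0:ℝ) 2)ᶜ = 0) (hF : IsSwap α F) (hα0 : 0 < α)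
    (hα1 : α < 1 / 2) (hinv : Measure.map F μ = μ) :
    (∀ C : Set ℝ, MeasurableSet C → C ⊆ Ico α (2 * α) → μ C = μ ((fun x => x + α) ⁻¹' C)) ∧
    (∀ C : Set ℝ, MeasurableSet C → C ⊆ Ico (1 + α) 2 → μ C = μ ((fun x => x + 1) ⁻¹' C)) ∧
    (∀ C : Set ℝ, MeasurableSet C → C ⊆ Ico 0 α → μ C = μ ((fun x => x + -1) ⁻¹' C)) ∧
    (∀ C : Set ℝ, MeasurableSet C → C ⊆ Ico (2 * α) (1 + α) →
      μ C = μ ((fun x => x + (α - 1)) ⁻¹' C)) := by
  have key : ∀ (C D : Set ℝ), MeasurableSet C → (∀ x ∈ Ico (0:ℝ) 2, F x ∈ C ↔ x ∈ D) → μ C = μ D := by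
    intro C D hC h
    have h1 : μ C = μ (F ⁻¹' C) := by
      conv_lhs => rw [← hinv]
      exact Measure.map_apply hF.meas hC
    rw [h1]
    apply measure_congr
    have h2 : ∀ᵐ x ∂μ, x ∈ Ico (0:ℝ) 2 := by rw [ae_iff]; exact hμ
    filter_upwards [h2] with x hx
    exact propext (h x hx)
  refine ⟨?_, ?_, ?_, ?_⟩ <;> intro C hC hCs <;> apply key C _ hC <;> intro x hx <;>
    simp only [mem_preimage]
  all_goals
    rcases lt_or_ge x α with h1 | h1
    · rw [hF.f0 x ⟨hx.1, h1⟩]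
      all_goals
        constructor <;> intro h <;> exfalso <;> have hh := hCs h <;>
          obtain ⟨h3, h4⟩ := hh <;> have := hx.1 <;> linarith
    · rcases lt_or_ge x 1 with h2 | h2
      · rw [hF.f1 x ⟨h1, h2⟩]
        all_goals
          constructor <;> intro h <;> exfalso <;> have hh := hCs h <;>
            obtain ⟨h3, h4⟩ := hh <;> have := hx.1 <;> linarith
      · rcases lt_or_ge x (1 + α) with h3 | h3
        · rw [hF.f2 x ⟨h2, h3⟩]
          all_goals
            constructor <;> intro h <;> exfalso <;> have hh := hCs h <;>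
              obtain ⟨h5, h4⟩ := hh <;> have := hx.1 <;> linarith
        · rw [hF.f3 x ⟨h3, hx.2⟩]
          all_goals
            constructor <;> intro h <;> exfalso <;> have hh := hCs h <;>
              obtain ⟨h5, h4⟩ := hh <;> have := hx.2 <;> linarith

/-- the rotation by `α` on `[0,1)` -/
noncomputable def rot (α : ℝ) (x : ℝ) : ℝ := if x < 1 - α then x + α else x + α - 1

theorem rot_measurable (α : ℝ) : Measurable (rot α) := by
  unfold rot
  exact Measurable.ite measurableSet_Iio (by fun_prop) (by fun_prop)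

/-- the restriction to `[0,1)` is rotation invariant -/
theorem restrict_rot (hμ : μ (Ico (0:ℝ) 2)ᶜ = 0) (hF : IsSwap α F) (hα0 : 0 < α)
    (hα1 : α < 1 / 2) (hinv : Measure.map F μ = μ) :
    Measure.map (rot α) (μ.restrict (Ico 0 1)) = μ.restrict (Ico 0 1) := by
  obtain ⟨p0, p1, p2, p3⟩ := preimage_shift_restrict hμ hF hα0 hα1 hinv
  ext A hA
  rw [Measure.map_apply (rot_measurable α) hA,
    Measure.restrict_apply ((rot_measurable α) hA), Measure.restrict_apply hA]
  have m1 : MeasurableSet (A ∩ Ico 0 α) := hA.inter measurableSet_Ico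
  have m2 : MeasurableSet (A ∩ Ico α (2 * α)) := hA.inter measurableSet_Ico
  have m3 : MeasurableSet (A ∩ Ico (2 * α) 1) := hA.inter measurableSet_Ico
  have e0 : A ∩ Ico 0 1 = (A ∩ Ico 0 α) ∪ ((A ∩ Ico α (2 * α)) ∪ (A ∩ Ico (2 * α) 1)) := by
    rw [← inter_union_distrib_left, ← inter_union_distrib_left,
      Ico_union_Ico_eq_Ico (by linarith) (by linarith),
      Ico_union_Ico_eq_Ico (by linarith) (by linarith)]
  have d1 : Disjoint (A ∩ Ico α (2 * α)) (A ∩ Ico (2 * α) 1) := by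
    apply Disjoint.mono inter_subset_right inter_subset_right
    rw [Set.disjoint_left]; intro x hx hy; linarith [hx.2, hy.1]
  have d2 : Disjoint (A ∩ Ico 0 α) ((A ∩ Ico α (2 * α)) ∪ (A ∩ Ico (2 * α) 1)) := by
    rw [Set.disjoint_left]; rintro x ⟨_, hx⟩ (⟨_, hy⟩ | ⟨_, hy⟩)
    · linarith [hx.2, hy.1]
    · linarith [hx.2, hy.1]
  rw [e0, measure_union d2 (m2.union m3), measure_union d1 m3]
  -- rewrite pieces
  have q2 : μ (A ∩ Ico α (2 * α)) = μ ((fun x => x + α) ⁻¹' (A ∩ Ico α (2 * α))) :=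
    p0 _ m2 inter_subset_right
  have q3 : μ (A ∩ Ico (2 * α) 1) = μ ((fun x => x + α) ⁻¹' (A ∩ Ico (2 * α) 1)) := by
    rw [p3 _ m3 (fun x hx => ⟨hx.2.1, by linarith [hx.2.2]⟩)]
    have mm3 : MeasurableSet ((fun x : ℝ => x + (α - 1)) ⁻¹' (A ∩ Ico (2 * α) 1)) :=
      (measurable_id.add_const _) m3
    rw [p1 _ mm3 ?_]
    · rw [← preimage_comp]
      congr 1
      ext x
      simp only [mem_preimage, Function.comp_apply]
      rw [show x + 1 + (α - 1) = x + α by ring]
    · intro x hx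
      have := hx.2
      simp only [mem_Ico] at this ⊢
      constructor <;> linarith [this.1, this.2]
  have q1 : μ (A ∩ Ico 0 α) = μ ((fun x => x + (α - 1)) ⁻¹' (A ∩ Ico 0 α)) := by
    rw [p2 _ m1 inter_subset_right]
    have mm1 : MeasurableSet ((fun x : ℝ => x + -1) ⁻¹' (A ∩ Ico 0 α)) :=
      (measurable_id.add_const _) m1
    have s1 : (fun x : ℝ => x + -1) ⁻¹' (A ∩ Ico 0 α) ⊆ Ico 1 (1 + α) := by
      intro x hx
      have := hx.2
      simp only [mem_Ico] at this ⊢
      constructor <;> linarith [this.1, this.2]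
    rw [p3 _ mm1 (fun x hx => ⟨by linarith [(s1 hx).1], (s1 hx).2⟩)]
    have mm2 : MeasurableSet ((fun x : ℝ => x + (α - 1)) ⁻¹'
      ((fun x : ℝ => x + -1) ⁻¹' (A ∩ Ico 0 α))) := (measurable_id.add_const _) mm1
    rw [p1 _ mm2 ?_]
    · rw [← preimage_comp, ← preimage_comp]
      congr 1
      ext x
      simp only [mem_preimage, Function.comp_apply]
      rw [show x + 1 + (α - 1) + -1 = x + (α - 1) by ring]
    · intro x hx
      have := s1 hx
      simp only [mem_Ico] at this ⊢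
      constructor <;> linarith [this.1, this.2]
  rw [q1, q2, q3]
  have mm1 : MeasurableSet ((fun x : ℝ => x + (α - 1)) ⁻¹' (A ∩ Ico 0 α)) :=
    (measurable_id.add_const _) m1
  have mm2 : MeasurableSet ((fun x : ℝ => x + α) ⁻¹' (A ∩ Ico α (2 * α))) :=
    (measurable_id.add_const _) m2
  have mm3 : MeasurableSet ((fun x : ℝ => x + α) ⁻¹' (A ∩ Ico (2 * α) 1)) :=
    (measurable_id.add_const _) m3
  rw [← measure_union ?_ mm3, ← measure_union ?_ (mm2.union mm3)]
  · congr 1
    ext x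
    simp only [mem_inter_iff, mem_preimage, mem_Ico, mem_union, rot]
    constructor
    · rintro ⟨h1, h2, h3⟩
      split_ifs at h1 with h4
      · right
        rcases lt_or_ge x α with h5 | h5
        · left; exact ⟨h1, by linarith, by linarith⟩
        · right; exact ⟨h1, by linarith, by linarith⟩
      · left
        refine ⟨?_, by linarith, by linarith⟩
        rw [show x + (α - 1) = x + α - 1 by ring]; exact h1
    · rintro (⟨h1, h2, h3⟩ | ⟨h1, h2, h3⟩ | ⟨h1, h2, h3⟩)
      · refine ⟨?_, by linarith, by linarith⟩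
        rw [if_neg (by linarith)]
        rw [show x + (α - 1) = x + α - 1 by ring] at h1; exact h1
      · refine ⟨?_, by linarith, by linarith⟩
        rw [if_pos (by linarith)]; exact h1
      · refine ⟨?_, by linarith, by linarith⟩
        rw [if_pos (by linarith)]; exact h1
  · rw [Set.disjoint_left]
    rintro x ⟨_, hx⟩ (⟨_, hy⟩ | ⟨_, hy⟩)
    · simp only [mem_Ico] at hx hy; linarith [hx.1, hx.2, hy.1, hy.2]
    · simp only [mem_Ico] at hx hy; linarith [hx.1, hx.2, hy.1, hy.2]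
  · rw [Set.disjoint_left]
    rintro x ⟨_, hx⟩ ⟨_, hy⟩
    simp only [mem_Ico] at hx hy; linarith [hx.1, hx.2, hy.1, hy.2]

end Q70
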