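import Pool.Agent.Q70.IetUE

set_option autoImplicit false
open MeasureTheory Filter Topology Set

namespace Q70

variable {α : ℝ} {F : ℝ → ℝ} {μ : Measure ℝ}

/-- the Fourier modes -/
noncomputable def ee (n : ℤ) (x : ℝ) : ℂ := Complex.exp (2 * Real.pi * Complex.I * n * x)

theorem ee_add (n : ℤ) (x y : ℝ) : ee n (x + y) = ee n x * ee n y := by
  unfold ee
  rw [← Complex.exp_add]
  congr 1
  push_cast
  ring

theorem ee_int (n m : ℤ) : ee n m = 1 := by
  unfold ee
  rw [Complex.exp_eq_one_iff]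
  exact ⟨n * m, by push_cast; ring⟩

theorem ee_rot (n : ℤ) (α x : ℝ) : ee n (rot α x) = ee n α * ee n x := by
  unfold rot
  split_ifs
  · rw [ee_add, mul_comm]
  · rw [show x + α - 1 = x + α + ((-1 : ℤ) : ℝ) by push_cast; ring, ee_add, ee_int, ee_add, mul_one,
      mul_comm]

theorem ee_measurable (n : ℤ) : Measurable (ee n) := by
  unfold ee
  fun_prop

theorem ee_ne_one (hα : Irrational α) {n : ℤ} (hn : n ≠ 0) : ee n α ≠ 1 := by
  intro h
  unfold ee at h
  rw [Complex.exp_eq_one_iff] at h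
  obtain ⟨m, hm⟩ := h
  have hpi : (2 * Real.pi * Complex.I : ℂ) ≠ 0 := by
    simp [Real.pi_ne_zero]
  have h2 : ((n:ℂ) * α) = m := by
    apply mul_left_cancel₀ hpi
    linear_combination hm
  have h3 : (n:ℝ) * α = m := by exact_mod_cast h2
  apply hα
  refine ⟨(m:ℚ) / n, ?_⟩
  have hn' : (n:ℝ) ≠ 0 := by exact_mod_cast hn
  push_cast
  field_simp
  linarith

/-- Fourier coefficients of a rotation invariant finite measure vanish -/
theorem fourier_zero (hα : Irrational α) (ν : Measure ℝ) 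
    (hν : Measure.map (rot α) ν = ν) {n : ℤ} (hn : n ≠ 0) : ∫ x, ee n x ∂ν = 0 := by
  have h1 : ∫ x, ee n x ∂ν = ee n α * ∫ x, ee n x ∂ν := by
    conv_lhs => rw [← hν]
    rw [integral_map (rot_measurable α).aemeasurable (ee_measurable n).aestronglyMeasurable]
    simp_rw [ee_rot]
    rw [integral_const_mul]
  have h2 : (ee n α - 1) * ∫ x, ee n x ∂ν = 0 := by
    rw [sub_mul, one_mul, ← h1, sub_self]
  rcases mul_eq_zero.1 h2 with h | h
  · exact absurd (sub_eq_zero.1 h) (ee_ne_one hα hn)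
  · exact h

/-- Lebesgue measure on `[0,1)` is rotation invariant -/
theorem leb_rot (hα0 : 0 < α) (hα1 : α < 1) :
    Measure.map (rot α) ((volume : Measure ℝ).restrict (Ico 0 1)) =
      (volume : Measure ℝ).restrict (Ico 0 1) := by
  ext A hA
  rw [Measure.map_apply (rot_measurable α) hA,
    Measure.restrict_apply ((rot_measurable α) hA), Measure.restrict_apply hA]
  have m1 : MeasurableSet (A ∩ Ico 0 α) := hA.inter measurableSet_Ico
  have m2 : MeasurableSet (A ∩ Ico α 1) := hA.inter measurableSet_Ico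
  have e0 : A ∩ Ico 0 1 = (A ∩ Ico 0 α) ∪ (A ∩ Ico α 1) := by
    rw [← inter_union_distrib_left, Ico_union_Ico_eq_Ico (by linarith) (by linarith)]
  have d1 : Disjoint (A ∩ Ico 0 α) (A ∩ Ico α 1) := by
    apply Disjoint.mono inter_subset_right inter_subset_right
    rw [Set.disjoint_left]; intro x hx hy; linarith [hx.2, hy.1]
  rw [e0, measure_union d1 m2]
  have mm1 : MeasurableSet ((fun x : ℝ => x + (α - 1)) ⁻¹' (A ∩ Ico 0 α)) :=
    (measurable_id.add_const _) m1
  have mm2 : MeasurableSet ((fun x : ℝ => x + α) ⁻¹' (A ∩ Ico α 1)) :=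
    (measurable_id.add_const _) m2
  rw [← measure_preimage_add_right volume (α - 1) (A ∩ Ico 0 α),
    ← measure_preimage_add_right volume α (A ∩ Ico α 1), ← measure_union ?_ mm2]
  · congr 1
    ext x
    simp only [mem_inter_iff, mem_preimage, mem_Ico, mem_union, rot]
    constructor
    · rintro ⟨h1, h2, h3⟩
      split_ifs at h1 with h4
      · right; exact ⟨h1, by linarith, by linarith⟩
      · left
        refine ⟨?_, by linarith, by linarith⟩
        rw [show x + (α - 1) = x + α - 1 by ring]; exact h1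
    · rintro (⟨h1, h2, h3⟩ | ⟨h1, h2, h3⟩)
      · refine ⟨?_, by linarith, by linarith⟩
        rw [if_neg (by linarith)]
        rw [show x + (α - 1) = x + α - 1 by ring] at h1; exact h1
      · refine ⟨?_, by linarith, by linarith⟩
        rw [if_pos (by linarith)]; exact h1
  · rw [Set.disjoint_left]
    rintro x ⟨_, hx⟩ ⟨_, hy⟩
    simp only [mem_Ico] at hx hy; linarith [hx.1, hx.2, hy.1, hy.2]

/-- a finite rotation invariant measure on `[0,1)` is a multiple of Lebesgue measure -/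
theorem rot_unique (hα : Irrational α) (hα0 : 0 < α) (hα1 : α < 1) (ν : Measure ℝ)
    [IsFiniteMeasure ν] (h0 : ν (Ico 0 1)ᶜ = 0) (hν : Measure.map (rot α) ν = ν) :
    ν = ν univ • (volume : Measure ℝ).restrict (Ico 0 1) := by
  haveI : IsFiniteMeasure (ν univ • (volume : Measure ℝ).restrict (Ico 0 1)) :=
    Measure.smul_finite _ (measure_ne_top ν univ)
  apply ico_ext _ _ h0
  · rw [Measure.smul_apply, Measure.restrict_apply measurableSet_Ico.compl]
    simp
  · intro n
    by_cases hn : n = 0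
    · subst hn
      simp [Measure.real]
    · have e1 := fourier_zero hα ν hν hn
      have e2 := fourier_zero hα _ (leb_rot hα0 hα1) hn
      unfold ee at e1 e2
      rw [e1, integral_smul_measure, e2, smul_zero]

theorem meas_shift (c : ℝ) : Measurable (fun x : ℝ => x + c) := measurable_id.add_const c

/-- uniqueness -/
theorem swap_unique [IsFiniteMeasure μ] (hα : Irrational α) (hμ : μ (Ico (0:ℝ) 2)ᶜ = 0)
    (hF : IsSwap α F) (hα0 : 0 < α) (hα1 : α < 1 / 2) (hinv : Measure.map F μ = μ) :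
    μ = μ (Ico 0 1) • (volume : Measure ℝ).restrict (Ico 0 2) := by
  obtain ⟨p0, p1, p2, p3⟩ := preimage_shift_restrict hμ hF hα0 hα1 hinv
  have hr := restrict_rot hμ hF hα0 hα1 hinv
  have h1 := rot_unique hα hα0 (by linarith) (μ.restrict (Ico 0 1))
    (by rw [Measure.restrict_apply measurableSet_Ico.compl]; simp) hr
  rw [Measure.restrict_apply_univ] at h1
  have h2 : ∀ A : Set ℝ, MeasurableSet A → A ⊆ Ico 0 1 → μ A = μ (Ico 0 1) * volume A := by
    intro A hA hAs
    have := congrArg (fun m : Measure ℝ => m A) h1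
    simp only [Measure.smul_apply, Measure.restrict_apply hA, inter_eq_self_of_subset_left hAs,
      smul_eq_mul] at this
    exact this
  have h3 : ∀ A : Set ℝ, MeasurableSet A → A ⊆ Ico (1 + α) 2 → μ A = μ (Ico 0 1) * volume A := by
    intro A hA hAs
    rw [p1 A hA hAs, h2 _ (meas_shift 1 hA), measure_preimage_add_right]
    intro x hx
    have := hAs hx
    simp only [mem_Ico] at this ⊢
    constructor <;> linarith [this.1, this.2]
  have h4 : ∀ A : Set ℝ, MeasurableSet A → A ⊆ Ico 1 (1 + α) → μ A = μ (Ico 0 1) * volume A := by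
    intro A hA hAs
    rw [p3 A hA (fun x hx => ⟨by linarith [(hAs hx).1], (hAs hx).2⟩),
      h3 _ (meas_shift (α - 1) hA), measure_preimage_add_right]
    intro x hx
    have := hAs hx
    simp only [mem_Ico] at this ⊢
    constructor <;> linarith [this.1, this.2]
  ext A hA
  rw [Measure.smul_apply, Measure.restrict_apply hA, smul_eq_mul]
  have e1 : μ A = μ (A ∩ Ico 0 2) := by
    apply measure_congr
    have h2 : ∀ᵐ x ∂μ, x ∈ Ico (0:ℝ) 2 := by rw [ae_iff]; exact hμ
    filter_upwards [h2] with x hx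
    exact propext ⟨fun h => ⟨h, hx⟩, fun h => h.1⟩
  have e2 : A ∩ Ico 0 2 = (A ∩ Ico 0 1) ∪ ((A ∩ Ico 1 (1 + α)) ∪ (A ∩ Ico (1 + α) 2)) := by
    rw [← inter_union_distrib_left, ← inter_union_distrib_left,
      Ico_union_Ico_eq_Ico (by linarith) (by linarith),
      Ico_union_Ico_eq_Ico (by linarith) (by linarith)]
  have m1 : MeasurableSet (A ∩ Ico 0 1) := hA.inter measurableSet_Ico
  have m2 : MeasurableSet (A ∩ Ico 1 (1 + α)) := hA.inter measurableSet_Ico
  have m3 : MeasurableSet (A ∩ Ico (1 + α) 2) := hA.inter measurableSet_Ico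
  have d1 : Disjoint (A ∩ Ico 1 (1 + α)) (A ∩ Ico (1 + α) 2) := by
    apply Disjoint.mono inter_subset_right inter_subset_right
    rw [Set.disjoint_left]; intro x hx hy; linarith [hx.2, hy.1]
  have d2 : Disjoint (A ∩ Ico 0 1) ((A ∩ Ico 1 (1 + α)) ∪ (A ∩ Ico (1 + α) 2)) := by
    rw [Set.disjoint_left]; rintro x ⟨_, hx⟩ (⟨_, hy⟩ | ⟨_, hy⟩)
    · linarith [hx.2, hy.1]
    · linarith [hx.2, hy.1]
  rw [e1, e2, measure_union d2 (m2.union m3), measure_union d1 m3, measure_union d2 (m2.union m3),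
    measure_union d1 m3, h2 _ m1 inter_subset_right, h3 _ m3 inter_subset_right,
    h4 _ m2 inter_subset_right, mul_add, mul_add]

/-- existence -/
theorem swap_leb (hF : IsSwap α F) (hα0 : 0 < α) (hα1 : α < 1 / 2) :
    Measure.map F ((volume : Measure ℝ).restrict (Ico 0 2)) =
      (volume : Measure ℝ).restrict (Ico 0 2) := by
  ext A hA
  rw [Measure.map_apply hF.meas hA, Measure.restrict_apply (hF.meas hA), Measure.restrict_apply hA]
  have m1 : MeasurableSet (A ∩ Ico 0 α) := hA.inter measurableSet_Ico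
  have m2 : MeasurableSet (A ∩ Ico α (2 * α)) := hA.inter measurableSet_Ico
  have m3 : MeasurableSet (A ∩ Ico (2 * α) (1 + α)) := hA.inter measurableSet_Ico
  have m4 : MeasurableSet (A ∩ Ico (1 + α) 2) := hA.inter measurableSet_Ico
  have e0 : A ∩ Ico 0 2 = (A ∩ Ico 0 α) ∪ ((A ∩ Ico α (2 * α)) ∪ ((A ∩ Ico (2 * α) (1 + α)) ∪
      (A ∩ Ico (1 + α) 2))) := by
    rw [← inter_union_distrib_left, ← inter_union_distrib_left, ← inter_union_distrib_left,
      Ico_union_Ico_eq_Ico (by linarith) (by linarith),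
      Ico_union_Ico_eq_Ico (by linarith) (by linarith),
      Ico_union_Ico_eq_Ico (by linarith) (by linarith)]
  have d3 : Disjoint (A ∩ Ico (2 * α) (1 + α)) (A ∩ Ico (1 + α) 2) := by
    apply Disjoint.mono inter_subset_right inter_subset_right
    rw [Set.disjoint_left]; intro x hx hy; linarith [hx.2, hy.1]
  have d2 : Disjoint (A ∩ Ico α (2 * α)) ((A ∩ Ico (2 * α) (1 + α)) ∪ (A ∩ Ico (1 + α) 2)) := by
    rw [Set.disjoint_left]; rintro x ⟨_, hx⟩ (⟨_, hy⟩ | ⟨_, hy⟩) <;> linarith [hx.2, hy.1]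
  have d1 : Disjoint (A ∩ Ico 0 α) ((A ∩ Ico α (2 * α)) ∪ ((A ∩ Ico (2 * α) (1 + α)) ∪
      (A ∩ Ico (1 + α) 2))) := by
    rw [Set.disjoint_left]
    rintro x ⟨_, hx⟩ (⟨_, hy⟩ | ⟨_, hy⟩ | ⟨_, hy⟩) <;> linarith [hx.2, hy.1]
  rw [e0, measure_union d1 (m2.union (m3.union m4)), measure_union d2 (m3.union m4),
    measure_union d3 m4]
  have mm1 : MeasurableSet ((fun x : ℝ => x + -1) ⁻¹' (A ∩ Ico 0 α)) :=
    (measurable_id.add_const _) m1
  have mm2 : MeasurableSet ((fun x : ℝ => x + α) ⁻¹' (A ∩ Ico α (2 * α))) :=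
    (measurable_id.add_const _) m2
  have mm3 : MeasurableSet ((fun x : ℝ => x + (α - 1)) ⁻¹' (A ∩ Ico (2 * α) (1 + α))) :=
    (measurable_id.add_const _) m3
  have mm4 : MeasurableSet ((fun x : ℝ => x + 1) ⁻¹' (A ∩ Ico (1 + α) 2)) :=
    (measurable_id.add_const _) m4
  rw [← measure_preimage_add_right volume (-1) (A ∩ Ico 0 α),
    ← measure_preimage_add_right volume α (A ∩ Ico α (2 * α)),
    ← measure_preimage_add_right volume (α - 1) (A ∩ Ico (2 * α) (1 + α)),
    ← measure_preimage_add_right volume 1 (A ∩ Ico (1 + α) 2),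
    ← measure_union ?_ mm4, ← measure_union ?_ (mm3.union mm4),
    ← measure_union ?_ (mm2.union (mm3.union mm4))]
  · congr 1
    ext x
    simp only [mem_inter_iff, mem_preimage, mem_Ico, mem_union]
    constructor
    · rintro ⟨h1, h2, h3⟩
      rcases lt_or_ge x α with g1 | g1
      · rw [hF.f0 x ⟨h2, g1⟩] at h1
        right; left; exact ⟨h1, by linarith, by linarith⟩
      · rcases lt_or_ge x 1 with g2 | g2
        · rw [hF.f1 x ⟨g1, g2⟩] at h1
          right; right; right; exact ⟨h1, by linarith, by linarith⟩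
        · rcases lt_or_ge x (1 + α) with g3 | g3
          · rw [hF.f2 x ⟨g2, g3⟩] at h1
            left; exact ⟨h1, by linarith, by linarith⟩
          · rw [hF.f3 x ⟨g3, h3⟩] at h1
            right; right; left; exact ⟨h1, by linarith, by linarith⟩
    · rintro (⟨h1, h2, h3⟩ | ⟨h1, h2, h3⟩ | ⟨h1, h2, h3⟩ | ⟨h1, h2, h3⟩)
      · refine ⟨?_, by linarith, by linarith⟩
        rw [hF.f2 x ⟨by linarith, by linarith⟩]; exact h1
      · refine ⟨?_, by linarith, by linarith⟩
        rw [hF.f0 x ⟨by linarith, by linarith⟩]; exact h1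
      · refine ⟨?_, by linarith, by linarith⟩
        rw [hF.f3 x ⟨by linarith, by linarith⟩]; exact h1
      · refine ⟨?_, by linarith, by linarith⟩
        rw [hF.f1 x ⟨by linarith, by linarith⟩]; exact h1
  all_goals
    rw [Set.disjoint_left]
  · rintro x ⟨_, hx⟩ (⟨_, hy⟩ | ⟨_, hy⟩ | ⟨_, hy⟩) <;> simp only [mem_Ico] at hx hy <;>
      linarith [hx.1, hx.2, hy.1, hy.2]
  · rintro x ⟨_, hx⟩ (⟨_, hy⟩ | ⟨_, hy⟩) <;> simp only [mem_Ico] at hx hy <;>
      linarith [hx.1, hx.2, hy.1, hy.2]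
  · rintro x ⟨_, hx⟩ ⟨_, hy⟩
    simp only [mem_Ico] at hx hy; linarith [hx.1, hx.2, hy.1, hy.2]

end Q70
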