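import Mathlib

/-!
# Alternating matrix products: the five dimensional system

Vectors are `(I; α₁, β₁; α₂, β₂)`.  The second player writes a word in the letters `x` (`false`)
and `#` (`true`); the first player answers with `stay` (`false`) or `check` (`true`), which only
matters at a letter `#`.
-/

namespace Q70.Ki

open Matrix

noncomputable section

/-- The action of a pair of letters on vectors. -/
def st (b a : Bool) (v : Fin 5 → ℝ) : Fin 5 → ℝ :=
  if b then
    (if a then ![0, v 0 + 2 * v 3 - v 4, v 0 + 2 * v 3 - v 4, v 1, v 2]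
     else ![(v 0 + 2 * v 3 - v 4) / 2, 0, 0, v 1, v 2])
  else ![v 0, 2 * v 1, v 2, v 3, 2 * v 4]

/-- The matrix of the letter `x`. -/
def X : Matrix (Fin 5) (Fin 5) ℝ :=
  !![1, 0, 0, 0, 0; 0, 2, 0, 0, 0; 0, 0, 1, 0, 0; 0, 0, 0, 1, 0; 0, 0, 0, 0, 2]

/-- The matrix of the letter `#` answered by `stay` (`a = false`) or `check` (`a = true`). -/
def H (a : Bool) : Matrix (Fin 5) (Fin 5) ℝ :=
  if a then
    !![0, 0, 0, 0, 0; 1, 0, 0, 2, -1; 1, 0, 0, 2, -1; 0, 1, 0, 0, 0; 0, 0, 1, 0, 0]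
  else
    !![1/2, 0, 0, 1, -1/2; 0, 0, 0, 0, 0; 0, 0, 0, 0, 0; 0, 1, 0, 0, 0; 0, 0, 1, 0, 0]

/-- The matrices of the first family. -/
def MA (a : Bool) : Matrix (Fin 5) (Fin 10) ℝ :=
  (Matrix.fromCols X (H a)).submatrix id (finSumFinEquiv (m := 5) (n := 5)).symm

/-- The matrices of the second family. -/
def MB (b : Bool) : Matrix (Fin 10) (Fin 5) ℝ :=
  (if b then Matrix.fromRows (0 : Matrix (Fin 5) (Fin 5) ℝ) (1 : Matrix (Fin 5) (Fin 5) ℝ)
   else Matrix.fromRows (1 : Matrix (Fin 5) (Fin 5) ℝ) (0 : Matrix (Fin 5) (Fin 5) ℝ)).submatrix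
    (finSumFinEquiv (m := 5) (n := 5)).symm id

lemma mul_eq (a b : Bool) : MA a * MB b = if b then H a else X := by
  unfold MA MB
  rw [Matrix.submatrix_mul_equiv]
  cases b
  · simp [Matrix.fromCols_mul_fromRows]
  · simp [Matrix.fromCols_mul_fromRows]

lemma mulVec_eq (a b : Bool) (v : Fin 5 → ℝ) : (MA a * MB b) *ᵥ v = st b a v := by
  rw [mul_eq]
  cases b
  · ext i
    fin_cases i <;> simp [st, X, Matrix.mulVec, dotProduct, Fin.sum_univ_succ]
  · cases a
    · ext i
      fin_cases i <;> simp [st, H, Matrix.mulVec, dotProduct, Fin.sum_univ_succ]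
      ring
    · ext i
      fin_cases i <;> simp [st, H, Matrix.mulVec, dotProduct, Fin.sum_univ_succ] <;> ring

/-- The orbit of a vector. -/
def orb (a b : ℕ → Bool) (v : Fin 5 → ℝ) : ℕ → Fin 5 → ℝ
  | 0 => v
  | n + 1 => st (b n) (a n) (orb a b v n)

/-- The product `A_n B_n ⋯ A_1 B_1` (indices shifted by one). -/
def P {N M : ℕ} (A : ℕ → Matrix (Fin N) (Fin M) ℝ) (B : ℕ → Matrix (Fin M) (Fin N) ℝ) :
    ℕ → Matrix (Fin N) (Fin N) ℝ
  | 0 => 1
  | n + 1 => A n * B n * P A B n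

lemma P_mulVec (a b : ℕ → Bool) (v : Fin 5 → ℝ) (n : ℕ) :
    P (fun n => MA (a n)) (fun n => MB (b n)) n *ᵥ v = orb a b v n := by
  induction n with
  | zero => simp [P, orb]
  | succ n ih =>
    simp only [P, orb]
    rw [← Matrix.mulVec_mulVec, ih, mulVec_eq]

/-! ### The first player can always keep the norm at least one -/

/-- The vectors the first player can reach after `n` letters from `(1;0,0;0,0)`. -/
inductive R (b : ℕ → Bool) : ℕ → (Fin 5 → ℝ) → Prop
  | zero : R b 0 ![1, 0, 0, 0, 0]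
  | step (n : ℕ) (v : Fin 5 → ℝ) (a : Bool) : R b n v → R b (n + 1) (st (b n) a v)

lemma orb_congr {a a' b : ℕ → Bool} {v : Fin 5 → ℝ} {n : ℕ} (h : ∀ i < n, a i = a' i) :
    orb a b v n = orb a' b v n := by
  induction n with
  | zero => rfl
  | succ n ih =>
    simp only [orb]
    rw [ih (fun i hi => h i (by omega)), h n (by omega)]

lemma R.exists_orb {b : ℕ → Bool} {n : ℕ} {v : Fin 5 → ℝ} (h : R b n v) :
    ∃ a : ℕ → Bool, orb a b ![1, 0, 0, 0, 0] n = v := by
  induction h with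
  | zero => exact ⟨fun _ => false, rfl⟩
  | step n v a _ ih =>
    obtain ⟨a₀, h₀⟩ := ih
    refine ⟨Function.update a₀ n a, ?_⟩
    simp only [orb]
    rw [Function.update_self, orb_congr (a' := a₀), h₀]
    intro i hi
    rw [Function.update_of_ne (by omega)]

/-- The invariant. -/
def Inv (b : ℕ → Bool) (n : ℕ) : Prop :=
  R b n ![1, 0, 0, 0, 0] ∨
  (∃ (S : ℝ) (p : ℕ), 1 ≤ |S| ∧ R b n ![0, 2 ^ p * S, S, 0, 0] ∧ R b n ![S / 2, 0, 0, 0, 0]) ∨
  (∃ (t : ℝ) (q p : ℕ), 1 ≤ 2 ^ q * |t| ∧ R b n ![0, 0, 0, 2 ^ q * t, 2 ^ p * t] ∧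
    R b n ![0, 2 ^ p * (t / 2), t / 2, 0, 0] ∧ R b n ![t / 4, 0, 0, 0, 0])

lemma R.next {b : ℕ → Bool} {n : ℕ} {v w : Fin 5 → ℝ} (h : R b n v) (a : Bool)
    (hw : st (b n) a v = w) : R b (n + 1) w := by
  rw [← hw]; exact R.step n v a h

lemma inv_all (b : ℕ → Bool) (n : ℕ) : Inv b n := by
  induction n with
  | zero => exact Or.inl R.zero
  | succ n ih =>
    rcases hb : b n with _ | _
    · -- the letter `x`
      rcases ih with h | ⟨S, p, hS, h1, h2⟩ | ⟨t, q, p, ht, h1, h2, h3⟩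
      · left
        refine h.next false ?_
        rw [hb]; ext i; fin_cases i <;> simp [st]
      · right; left
        refine ⟨S, p + 1, hS, h1.next false ?_, h2.next false ?_⟩
        · rw [hb]; ext i; fin_cases i <;> simp [st, pow_succ]; ring
        · rw [hb]; ext i; fin_cases i <;> simp [st]
      · right; right
        refine ⟨t, q, p + 1, ht, h1.next false ?_, h2.next false ?_, h3.next false ?_⟩
        · rw [hb]; ext i; fin_cases i <;> simp [st, pow_succ]; ring
        · rw [hb]; ext i; fin_cases i <;> simp [st, pow_succ]; ring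
        · rw [hb]; ext i; fin_cases i <;> simp [st]
    · -- the letter `#`
      rcases ih with h | ⟨S, p, hS, h1, h2⟩ | ⟨t, q, p, ht, h1, h2, h3⟩
      · right; left
        refine ⟨1, 0, by simp, h.next true ?_, h.next false ?_⟩
        · rw [hb]; ext i; fin_cases i <;> simp [st]
        · rw [hb]; ext i; fin_cases i <;> simp [st]
      · right; right
        refine ⟨S, p, 0, ?_, h1.next false ?_, h2.next true ?_, h2.next false ?_⟩
        · have : (1 : ℝ) ≤ 2 ^ p := one_le_pow₀ (by norm_num)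
          nlinarith [abs_nonneg S]
        · rw [hb]; ext i; fin_cases i <;> simp [st]
        · rw [hb]; ext i; fin_cases i <;> simp [st]
        · rw [hb]; ext i; fin_cases i <;> simp [st]; ring
      · by_cases hpq : q + 1 ≤ p
        · right; right
          refine ⟨t / 2, p, 0, ?_, h2.next false ?_, h3.next true ?_, h3.next false ?_⟩
          · have h5 : (2 : ℝ) ^ (q + 1) ≤ 2 ^ p := pow_le_pow_right₀ (by norm_num) hpq
            rw [abs_div, abs_of_pos (by norm_num : (0 : ℝ) < 2)]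
            rw [pow_succ] at h5
            nlinarith [abs_nonneg t]
          · rw [hb]; ext i; fin_cases i <;> simp [st]
          · rw [hb]; ext i; fin_cases i <;> simp [st] <;> ring
          · rw [hb]; ext i; fin_cases i <;> simp [st]; ring
        · right; left
          have hpq' : p ≤ q := by omega
          refine ⟨(2 * 2 ^ q - 2 ^ p) * t, 0, ?_, h1.next true ?_, h1.next false ?_⟩
          · have h5 : (2 : ℝ) ^ p ≤ 2 ^ q := pow_le_pow_right₀ (by norm_num) hpq'
            have h6 : (0 : ℝ) < 2 ^ q := by positivity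
            rw [abs_mul, abs_of_nonneg (by linarith : (0 : ℝ) ≤ 2 * 2 ^ q - 2 ^ p)]
            nlinarith [abs_nonneg t]
          · rw [hb]; ext i; fin_cases i <;> simp [st] <;> ring
          · rw [hb]; ext i; fin_cases i <;> simp [st]; ring

lemma exists_large (b : ℕ → Bool) (n : ℕ) :
    ∃ a : ℕ → Bool, ∃ i, 1 ≤ |orb a b ![1, 0, 0, 0, 0] n i| := by
  rcases inv_all b n with h | ⟨S, p, hS, h1, -⟩ | ⟨t, q, p, ht, h1, -, -⟩
  · obtain ⟨a, ha⟩ := h.exists_orb
    exact ⟨a, 0, by rw [ha]; simp⟩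
  · obtain ⟨a, ha⟩ := h1.exists_orb
    exact ⟨a, 2, by rw [ha]; simpa using hS⟩
  · obtain ⟨a, ha⟩ := h1.exists_orb
    refine ⟨a, 3, ?_⟩
    rw [ha]
    have : |(![0, 0, 0, 2 ^ q * t, 2 ^ p * t] : Fin 5 → ℝ) 3| = 2 ^ q * |t| := by
      have h3 : (![0, 0, 0, 2 ^ q * t, 2 ^ p * t] : Fin 5 → ℝ) 3 = 2 ^ q * t := rfl
      rw [h3, abs_mul, abs_of_pos (by positivity)]
    rw [this]; exact ht

end

end Q70.Ki
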