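import Pool.Agent.Q70.KiA

/-!
# The word `# x # xx # xxx # …` stabilizes every path
-/

namespace Q70.Ki

open Matrix Filter Topology

noncomputable section

/-- Block number and number of letters `x` since the last `#`. -/
def ke : ℕ → ℕ × ℕ
  | 0 => (0, 0)
  | n + 1 => if (ke n).2 = (ke n).1 then ((ke n).1 + 1, 0) else ((ke n).1, (ke n).2 + 1)

/-- The word `# x # xx # xxx # …`. -/
def bb (n : ℕ) : Bool := decide ((ke n).2 = (ke n).1)

lemma ke_le (n : ℕ) : (ke n).2 ≤ (ke n).1 := by
  induction n with
  | zero => simp [ke]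
  | succ n ih =>
    simp only [ke]
    split_ifs with h
    · simp
    · simp; omega

lemma ke_step_hash {n : ℕ} (h : bb n = true) : ke (n + 1) = ((ke n).1 + 1, 0) := by
  have : (ke n).2 = (ke n).1 := by simpa [bb] using h
  simp only [ke]; rw [if_pos this]

lemma ke_step_x {n : ℕ} (h : bb n = false) : ke (n + 1) = ((ke n).1, (ke n).2 + 1) := by
  have : ¬ (ke n).2 = (ke n).1 := by simpa [bb] using h
  simp only [ke]; rw [if_neg this]

lemma exists_hash (d : ℕ) : ∀ n, (ke n).1 - (ke n).2 = d → ∃ m ≥ n, bb m = true := by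
  induction d with
  | zero =>
    intro n hn
    refine ⟨n, le_refl _, ?_⟩
    have := ke_le n
    simp [bb]; omega
  | succ d ih =>
    intro n hn
    have hb : bb n = false := by simp [bb]; omega
    have h1 := ke_step_x hb
    obtain ⟨m, hm, hm2⟩ := ih (n + 1) (by rw [h1]; simp; omega)
    exact ⟨m, by omega, hm2⟩

lemma exists_hash' (n : ℕ) : ∃ m ≥ n, bb m = true := exists_hash _ n rfl

lemma ke_mono : Monotone fun n => (ke n).1 := by
  apply monotone_nat_of_le_succ
  intro n
  rcases hb : bb n with _ | _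
  · simp only [ke_step_x hb]; exact le_refl _
  · simp only [ke_step_hash hb]; omega

lemma ke_unbounded (K : ℕ) : ∃ n, K ≤ (ke n).1 := by
  induction K with
  | zero => exact ⟨0, by omega⟩
  | succ K ih =>
    obtain ⟨n, hn⟩ := ih
    obtain ⟨m, hm, hb⟩ := exists_hash' n
    refine ⟨m + 1, ?_⟩
    rw [ke_step_hash hb]
    have := ke_mono hm
    simp only at this ⊢
    omega

lemma ke_tendsto : Tendsto (fun n => (ke n).1) atTop atTop :=
  tendsto_atTop_atTop_of_monotone ke_mono ke_unbounded

lemma st_x (a : Bool) (v : Fin 5 → ℝ) : st false a v = ![v 0, 2 * v 1, v 2, v 3, 2 * v 4] := by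
  simp [st]

lemma st_stay (v : Fin 5 → ℝ) :
    st true false v = ![(v 0 + 2 * v 3 - v 4) / 2, 0, 0, v 1, v 2] := by simp [st]

lemma st_check (v : Fin 5 → ℝ) :
    st true true v = ![0, v 0 + 2 * v 3 - v 4, v 0 + 2 * v 3 - v 4, v 1, v 2] := by simp [st]

/-- The shape of the vector after the first `#`. -/
lemma shape1 (a : ℕ → Bool) (v : Fin 5 → ℝ) (n : ℕ) (hn : 1 ≤ n) :
    orb a bb v n 1 = 2 ^ (ke n).2 * orb a bb v n 2 := by
  induction n, hn using Nat.le_induction with
  | base =>
    have hb : bb 0 = true := by simp [bb, ke]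
    have h1 := ke_step_hash hb
    simp only [orb, h1, hb]
    cases a 0 <;> simp [st]
  | succ n hn ih =>
    simp only [orb]
    rcases hb : bb n with _ | _
    · rw [ke_step_x hb, st_x]
      simp only [Matrix.cons_val_one, Matrix.cons_val_zero, Matrix.cons_val]
      rw [ih, pow_succ]; ring
    · rw [ke_step_hash hb]
      cases a n <;> simp [st]

lemma ke3 : ke 3 = (2, 0) := by simp [ke]

/-- The shape of the vector after the second `#`. -/
lemma shape2 (a : ℕ → Bool) (v : Fin 5 → ℝ) (n : ℕ) (hn : 3 ≤ n) :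
    2 ^ (ke n).2 * (2 * orb a bb v n 3) = 2 ^ (ke n).1 * orb a bb v n 4 := by
  induction n, hn using Nat.le_induction with
  | base =>
    have hb : bb 2 = true := by simp [bb, ke]
    have h2 := shape1 a v 2 (by norm_num)
    have h3 : ke 2 = (1, 1) := by simp [ke]
    rw [h3] at h2
    rw [ke3]
    have : orb a bb v 3 = st (bb 2) (a 2) (orb a bb v 2) := rfl
    rw [this, hb]
    cases a 2
    · rw [st_stay]; simp only [Matrix.cons_val]; rw [h2]; ring
    · rw [st_check]; simp only [Matrix.cons_val]; rw [h2]; ring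
  | succ n hn ih =>
    have h1 := shape1 a v n (by omega)
    simp only [orb]
    rcases hb : bb n with _ | _
    · rw [ke_step_x hb, st_x]
      simp only [Matrix.cons_val]
      rw [pow_succ]; linear_combination 2 * ih
    · have he : (ke n).2 = (ke n).1 := by simpa [bb] using hb
      rw [ke_step_hash hb]
      rw [he] at h1
      cases a n
      · rw [st_stay]; simp only [Matrix.cons_val]; rw [h1]; ring
      · rw [st_check]; simp only [Matrix.cons_val]; rw [h1]; ring

/-- At a letter `#` the scalar which is read off is the idle coordinate. -/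
lemma scalar (a : ℕ → Bool) (v : Fin 5 → ℝ) (n : ℕ) (hn : 3 ≤ n) (hb : bb n = true) :
    orb a bb v n 0 + 2 * orb a bb v n 3 - orb a bb v n 4 = orb a bb v n 0 := by
  have h := shape2 a v n hn
  have he : (ke n).2 = (ke n).1 := by simpa [bb] using hb
  rw [he] at h
  have := mul_left_cancel₀ (by positivity) h
  linarith

section

variable (a : ℕ → Bool) (v : Fin 5 → ℝ)

lemma I_x {n : ℕ} (hb : bb n = false) : orb a bb v (n + 1) 0 = orb a bb v n 0 := by
  simp only [orb]; rw [hb, st_x]; simp

lemma I_hash {n : ℕ} (hn : 3 ≤ n) (hb : bb n = true) :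
    orb a bb v (n + 1) 0 = if a n then 0 else orb a bb v n 0 / 2 := by
  have h := scalar a v n hn hb
  simp only [orb]; rw [hb]
  cases ha : a n
  · rw [st_stay]; simp only [Matrix.cons_val_zero]; rw [h]; simp
  · rw [st_check]; simp

lemma t_x {n : ℕ} (hb : bb n = false) : orb a bb v (n + 1) 2 = orb a bb v n 2 := by
  simp only [orb]; rw [hb, st_x]; simp

lemma t_hash {n : ℕ} (hn : 3 ≤ n) (hb : bb n = true) :
    orb a bb v (n + 1) 2 = if a n then orb a bb v n 0 else 0 := by
  have h := scalar a v n hn hb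
  simp only [orb]; rw [hb]
  cases ha : a n
  · rw [st_stay]; simp
  · rw [st_check]; simp only [Matrix.cons_val]; rw [h]; simp

lemma u_x {n : ℕ} (hb : bb n = false) : orb a bb v (n + 1) 4 = 2 * orb a bb v n 4 := by
  simp only [orb]; rw [hb, st_x]; simp

lemma u_hash {n : ℕ} (hb : bb n = true) :
    orb a bb v (n + 1) 4 = orb a bb v n 2 := by
  simp only [orb]; rw [hb]
  cases ha : a n
  · rw [st_stay]; simp
  · rw [st_check]; simp

/-- The coordinate `β₁` vanishes eventually. -/
lemma t_eventually : ∃ n₁ ≥ 3, ∀ n ≥ n₁, orb a bb v n 2 = 0 := by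
  by_cases hA : ∃ m ≥ 3, bb m = true ∧ a m = true
  · obtain ⟨m, hm, hb, ha⟩ := hA
    have hI : ∀ n ≥ m + 1, orb a bb v n 0 = 0 := by
      intro n hn
      induction n, hn using Nat.le_induction with
      | base => rw [I_hash a v hm hb, ha]; simp
      | succ n hn ih =>
        rcases hb' : bb n with _ | _
        · rw [I_x a v hb', ih]
        · rw [I_hash a v (by omega) hb', ih]; simp
    obtain ⟨m', hm', hb'⟩ := exists_hash' (m + 1)
    refine ⟨m' + 1, by omega, ?_⟩
    intro n hn
    induction n, hn using Nat.le_induction with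
    | base => rw [t_hash a v (by omega) hb', hI m' hm']; simp
    | succ n hn ih =>
      rcases hb' : bb n with _ | _
      · rw [t_x a v hb', ih]
      · rw [t_hash a v (by omega) hb', hI n (by omega)]; simp
  · push Not at hA
    obtain ⟨m, hm, hb⟩ := exists_hash' 3
    refine ⟨m + 1, by omega, ?_⟩
    intro n hn
    induction n, hn using Nat.le_induction with
    | base =>
      rw [t_hash a v hm hb]
      have := hA m hm hb
      simp [this]
    | succ n hn ih =>
      rcases hb' : bb n with _ | _
      · rw [t_x a v hb', ih]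
      · rw [t_hash a v (by omega) hb']
        have := hA n (by omega) hb'
        simp [this]

/-- The coordinate `β₂` vanishes eventually. -/
lemma u_eventually : ∃ n₂ ≥ 3, ∀ n ≥ n₂, orb a bb v n 2 = 0 ∧ orb a bb v n 4 = 0 := by
  obtain ⟨n₁, hn₁, h⟩ := t_eventually a v
  obtain ⟨m, hm, hb⟩ := exists_hash' n₁
  refine ⟨m + 1, by omega, ?_⟩
  intro n hn
  refine ⟨h n (by omega), ?_⟩
  induction n, hn using Nat.le_induction with
  | base => rw [u_hash a v hb, h m hm]
  | succ n hn ih =>
    rcases hb' : bb n with _ | _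
    · rw [u_x a v hb', ih]; simp
    · rw [u_hash a v hb', h n (by omega)]

lemma I_bound (n : ℕ) (hn : 3 ≤ n) :
    |orb a bb v n 0| * 2 ^ (ke n).1 ≤ |orb a bb v 3 0| * 4 := by
  induction n, hn using Nat.le_induction with
  | base => rw [ke3]; norm_num
  | succ n hn ih =>
    rcases hb : bb n with _ | _
    · rw [I_x a v hb, ke_step_x hb]; exact ih
    · rw [I_hash a v hn hb, ke_step_hash hb]
      cases ha : a n
      · simp only [Bool.false_eq_true, if_false]
        rw [abs_div, abs_of_pos (by norm_num : (0 : ℝ) < 2), pow_succ]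
        calc |orb a bb v n 0| / 2 * (2 ^ (ke n).1 * 2)
            = |orb a bb v n 0| * 2 ^ (ke n).1 := by ring
          _ ≤ _ := ih
      · simp

lemma I_tendsto : Tendsto (fun n => orb a bb v n 0) atTop (𝓝 0) := by
  have h1 : Tendsto (fun n => (|orb a bb v 3 0| * 4) * (1 / 2 : ℝ) ^ (ke n).1) atTop (𝓝 0) := by
    have := (tendsto_pow_atTop_nhds_zero_of_lt_one (by norm_num : (0 : ℝ) ≤ 1 / 2)
      (by norm_num : (1 / 2 : ℝ) < 1)).comp ke_tendsto
    simpa using this.const_mul (|orb a bb v 3 0| * 4)
  apply squeeze_zero_norm' _ h1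
  filter_upwards [eventually_ge_atTop 3] with n hn
  have h := I_bound a v n hn
  rw [Real.norm_eq_abs, one_div, inv_pow, ← div_eq_mul_inv, le_div_iff₀ (by positivity)]
  exact h

/-- Every path is stabilized. -/
theorem orb_tendsto : Tendsto (fun n => orb a bb v n) atTop (𝓝 0) := by
  obtain ⟨n₂, hn₂, h⟩ := u_eventually a v
  rw [tendsto_pi_nhds]
  intro i
  have hz : ∀ n ≥ n₂, orb a bb v n 1 = 0 ∧ orb a bb v n 2 = 0 ∧ orb a bb v n 3 = 0 ∧
      orb a bb v n 4 = 0 := by
    intro n hn
    obtain ⟨h1, h2⟩ := h n hn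
    have h3 := shape1 a v n (by omega)
    have h4 := shape2 a v n (by omega)
    rw [h1, mul_zero] at h3
    rw [h2, mul_zero] at h4
    refine ⟨h3, h1, ?_, h2⟩
    have : (2 : ℝ) ^ (ke n).2 ≠ 0 := by positivity
    have h5 := (mul_eq_zero.1 h4).resolve_left this
    linarith
  fin_cases i
  · exact I_tendsto a v
  · refine tendsto_const_nhds.congr' ?_
    filter_upwards [eventually_ge_atTop n₂] with n hn
    exact (hz n hn).1.symm
  · refine tendsto_const_nhds.congr' ?_
    filter_upwards [eventually_ge_atTop n₂] with n hn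
    exact (hz n hn).2.1.symm
  · refine tendsto_const_nhds.congr' ?_
    filter_upwards [eventually_ge_atTop n₂] with n hn
    exact (hz n hn).2.2.1.symm
  · refine tendsto_const_nhds.congr' ?_
    filter_upwards [eventually_ge_atTop n₂] with n hn
    exact (hz n hn).2.2.2.symm

end

end

end Q70.Ki
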