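import Pool.Agent.Q70.KiB

/-!
# Arbitrary norms on finite dimensional spaces
-/

namespace Q70.Ki

open Matrix Filter Topology

lemma seminorm_continuous {E : Type*} [NormedAddCommGroup E] [NormedSpace ℝ E]
    [FiniteDimensional ℝ E] (ν : Seminorm ℝ E) : Continuous ν := by
  rw [← continuousOn_univ]
  exact ν.convexOn.continuousOn isOpen_univ

lemma seminorm_lower {E : Type*} [NormedAddCommGroup E] [NormedSpace ℝ E]
    [FiniteDimensional ℝ E] (ν : Seminorm ℝ E) (hν : ∀ x, ν x = 0 → x = 0) :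
    ∃ c : ℝ, 0 < c ∧ ∀ x, c * ‖x‖ ≤ ν x := by
  haveI : ProperSpace E := FiniteDimensional.proper ℝ E
  by_cases hne : (Metric.sphere (0 : E) 1).Nonempty
  · obtain ⟨x₀, hx₀, hmin⟩ := (isCompact_sphere (0 : E) 1).exists_isMinOn hne
      (seminorm_continuous ν).continuousOn
    have hx₀' : ‖x₀‖ = 1 := by simpa using hx₀
    have hpos : 0 < ν x₀ := by
      rcases (apply_nonneg ν x₀).lt_or_eq with h | h
      · exact h
      · have := hν x₀ h.symm
        rw [this] at hx₀'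
        simp at hx₀'
    refine ⟨ν x₀, hpos, fun x => ?_⟩
    by_cases hx : x = 0
    · simp [hx]
    · have hx' : 0 < ‖x‖ := norm_pos_iff.2 hx
      have h1 : ‖x‖⁻¹ • x ∈ Metric.sphere (0 : E) 1 := by
        simp [norm_smul, hx'.ne']
      have h2 : ν x₀ ≤ ν (‖x‖⁻¹ • x) := hmin h1
      rw [map_smul_eq_mul, norm_inv, norm_norm] at h2
      calc ν x₀ * ‖x‖ ≤ (‖x‖⁻¹ * ν x) * ‖x‖ := by gcongr
        _ = ν x := by field_simp
  · refine ⟨1, one_pos, fun x => ?_⟩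
    by_cases hx : x = 0
    · simp [hx]
    · exfalso
      apply hne
      refine ⟨‖x‖⁻¹ • x, ?_⟩
      simp [norm_smul, hx]

lemma mat_continuous {N : ℕ} (ν : Seminorm ℝ (Matrix (Fin N) (Fin N) ℝ)) : Continuous ν :=
  seminorm_continuous (E := Fin N → Fin N → ℝ) ν

lemma fun_lower {N : ℕ} (ν : Seminorm ℝ (Fin N → Fin N → ℝ))
    (hν : ∀ x, ν x = 0 → x = 0) :
    ∃ c : ℝ, 0 < c ∧ ∀ (X : Fin N → Fin N → ℝ) (i j : Fin N), c * |X i j| ≤ ν X := by
  obtain ⟨c, hc, h⟩ := seminorm_lower ν hν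
  refine ⟨c, hc, fun X i j => le_trans ?_ (h X)⟩
  have h1 : ‖X i j‖ ≤ ‖X‖ := (norm_le_pi_norm (X i) j).trans (norm_le_pi_norm X i)
  rw [← Real.norm_eq_abs]
  gcongr

lemma mat_lower {N : ℕ} (ν : Seminorm ℝ (Matrix (Fin N) (Fin N) ℝ))
    (hν : ∀ x, ν x = 0 → x = 0) :
    ∃ c : ℝ, 0 < c ∧ ∀ (X : Matrix (Fin N) (Fin N) ℝ) (i j : Fin N), c * |X i j| ≤ ν X :=
  fun_lower (N := N) ν hν

end Q70.Ki
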