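import Mathlib

/-!
# A metrizable Choquet simplex over the Cantor space: definitions and compactness
-/

set_option autoImplicit false

open MeasureTheory Set Filter Topology TopologicalSpace
open scoped ENNReal

namespace Q70.Lu

/-! ### The definitions of the problem -/

section defs

variable {E : Type*} [AddCommGroup E] [Module ℝ E] [TopologicalSpace E] [MeasurableSpace E]

/-- `ξ` is a Borel probability measure concentrated on the extreme points of `K`, with barycentre
`x`. -/
structure Represents (K : Set E) (ξ : Measure E) (x : E) : Prop where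
  prob : IsProbabilityMeasure ξ
  conc : ξ (K.extremePoints ℝ)ᶜ = 0
  bary : ∀ l : E →L[ℝ] ℝ, ∫ y, l y ∂ξ = l x

/-- A metrizable Choquet simplex. -/
structure IsMetrizableChoquetSimplex (K : Set E) : Prop where
  compact : IsCompact K
  convex : Convex ℝ K
  metrizable : MetrizableSpace K
  simplex : ∀ x ∈ K, ∃! ξ : Measure E, Represents K ξ x

/-- Upper semicontinuity of an extended real valued function. -/
def USC {Y : Type*} [TopologicalSpace Y] (g : Y → EReal) : Prop := ∀ t : ℝ, IsOpen {y | g y < t}

/-- Young class LU: pointwise limits of nondecreasing sequences of u.s.c. functions. -/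
def LU {Y : Type*} [TopologicalSpace Y] (g : Y → EReal) : Prop :=
  ∃ h : ℕ → Y → EReal, (∀ n, USC (h n)) ∧ (∀ y, Monotone fun n => h n y) ∧
    ∀ y, Tendsto (fun n => h n y) atTop (𝓝 (g y))

/-- The additive extension: the value at `x` is `∑ e ∈ t, f e` if `x` is a convex combination with
positive coefficients of the finite set `t` of extreme points, and `⊤` if there is no such `t`
(in a simplex there is at most one such `t`; in general the infimum over all `t` is taken). -/
noncomputable def addExt (K : Set E) (f : K.extremePoints ℝ → ℕ∞) (x : K) : ℕ∞ :=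
  ⨅ (t : Finset (K.extremePoints ℝ)) (_ : ∃ p : K.extremePoints ℝ → ℝ, (∀ e ∈ t, 0 < p e) ∧
    ∑ e ∈ t, p e = 1 ∧ ∑ e ∈ t, p e • (e : E) = x), ∑ e ∈ t, f e

end defs

/-- `ℕ ∪ {∞}` inside the extended reals. -/
noncomputable def toE (n : ℕ∞) : EReal := ((n : ℝ≥0∞) : EReal)

/-! ### The simplex -/

/-- The Cantor space. -/
abbrev Q : Type := ℕ → Bool

/-- The eventually `false` sequences. -/
def D : Set Q := {q | ∀ᶠ n in atTop, q n = false}

instance : Countable (Clopens Q) := Clopens.countable_iff_secondCountable.2 inferInstance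

theorem D_countable : D.Countable := by
  have : D ⊆ ⋃ n : ℕ, Set.range fun s : Fin n → Bool =>
      (fun k => if h : k < n then s ⟨k, h⟩ else false : Q) := by
    intro q hq
    obtain ⟨N, hN⟩ := eventually_atTop.1 (hq : ∀ᶠ n in atTop, q n = false)
    refine mem_iUnion.2 ⟨N, fun k => q k, ?_⟩
    funext k
    by_cases h : k < N
    · simp [h]
    · simp only [h, dite_false]
      exact (hN k (not_lt.1 h)).symm
  exact (countable_iUnion fun n => countable_range _).mono this

instance : Countable D := D_countable.to_subtype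

theorem D_dense : Dense D := by
  intro q
  rw [mem_closure_iff_seq_limit]
  refine ⟨fun n k => if k < n then q k else false, ?_, ?_⟩
  · intro n
    change ∀ᶠ k in atTop, (if k < n then q k else false) = false
    filter_upwards [eventually_ge_atTop n] with k hk
    simp [not_lt.2 hk]
  · rw [tendsto_pi_nhds]
    intro k
    refine tendsto_const_nhds.congr' ?_
    filter_upwards [eventually_gt_atTop k] with n hn
    simp [hn]

/-- no isolated points -/
theorem not_open_singleton (q : Q) : ¬ IsOpen ({q} : Set Q) := by
  intro h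
  have h1 : Tendsto (fun n : ℕ => Function.update q n (!q n)) atTop (𝓝 q) := by
    rw [tendsto_pi_nhds]
    intro k
    refine tendsto_const_nhds.congr' ?_
    filter_upwards [eventually_gt_atTop k] with n hn
    rw [Function.update_of_ne hn.ne]
  have h2 := h1.eventually (h.mem_nhds rfl)
  obtain ⟨n, hn⟩ := h2.exists
  have h3 := congrFun (mem_singleton_iff.1 hn) n
  simp at h3

/-- The ambient space. -/
abbrev E : Type := (Clopens Q → ℝ) × (D → ℝ)

/-- The simplex. -/
def K : Set E := {x | ∃ m : Measure Q, IsProbabilityMeasure m ∧ (∀ C, x.1 C = m.real (C : Set Q)) ∧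
  ∀ d : D, |x.2 d| ≤ m.real {(d : Q)}}

theorem outer (m : Measure Q) [IsProbabilityMeasure m] (q : Q) {r : ℝ}
    (h : ∀ C : Clopens Q, q ∈ C → r ≤ m.real (C : Set Q)) : r ≤ m.real {q} := by
  by_contra hlt
  push Not at hlt
  have h1 : m {q} < ENNReal.ofReal r := by
    rw [← ENNReal.ofReal_toReal (measure_ne_top m {q})]
    exact (ENNReal.ofReal_lt_ofReal_iff_of_nonneg ENNReal.toReal_nonneg).2 hlt
  obtain ⟨U, hqU, hU, hmU⟩ := Set.exists_isOpen_lt_of_lt _ _ h1
  obtain ⟨V, hV, hqV, hVU⟩ := isTopologicalBasis_isClopen.mem_nhds_iff.1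
    (hU.mem_nhds (hqU rfl))
  have h2 := h ⟨V, hV⟩ hqV
  have h3 : m.real V ≤ m.real U := measureReal_mono hVU
  have h4 : m.real U < r := by
    have h5 : 0 ≤ r := by
      by_contra hr
      push Not at hr
      rw [ENNReal.ofReal_of_nonpos hr.le] at hmU
      exact not_lt_bot hmU
    rw [Measure.real]
    exact (ENNReal.lt_ofReal_iff_toReal_lt (measure_ne_top m U)).1 hmU
  have h6 : r ≤ m.real V := h2
  linarith

theorem real_clopen_continuous (C : Clopens Q) :
    Continuous fun m : ProbabilityMeasure Q => (m : Measure Q).real (C : Set Q) := by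
  classical
  let f : C(Q, ℝ) := ⟨(C : Set Q).indicator 1, (continuous_indicator (by
    intro a ha
    rw [C.isClopen.frontier_eq] at ha
    exact absurd ha (notMem_empty a)) continuousOn_const)⟩
  have h1 := ProbabilityMeasure.continuous_integral_continuousMap (X := Q) f
  refine h1.congr fun m => ?_
  change ∫ x, (C : Set Q).indicator 1 x ∂(m : Measure Q) = _
  rw [integral_indicator_one C.isClopen.2.measurableSet]

theorem K_compact : IsCompact K := by
  let A : Set (ProbabilityMeasure Q × (D → ℝ)) :=
    (univ ×ˢ (univ.pi fun _ => Icc (-1 : ℝ) 1)) ∩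
    ⋂ d : D, ⋂ C : Clopens Q, ⋂ _ : (d : Q) ∈ C,
      {p | |p.2 d| ≤ (p.1 : Measure Q).real (C : Set Q)}
  have hA : IsCompact A := by
    refine IsCompact.inter_right (isCompact_univ.prod (isCompact_univ_pi fun _ => isCompact_Icc)) ?_
    refine isClosed_iInter fun d => isClosed_iInter fun C => isClosed_iInter fun _ => ?_
    refine isClosed_le ?_ ?_
    · fun_prop
    · exact (real_clopen_continuous C).comp continuous_fst
  let Ψ : ProbabilityMeasure Q × (D → ℝ) → E := fun p =>
    (fun C => (p.1 : Measure Q).real (C : Set Q), p.2)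
  have hΨ : Continuous Ψ := by
    refine Continuous.prodMk ?_ continuous_snd
    exact continuous_pi fun C => (real_clopen_continuous C).comp continuous_fst
  have hK : K = Ψ '' A := by
    ext x
    constructor
    · rintro ⟨m, hm, h1, h2⟩
      refine ⟨(⟨m, hm⟩, x.2), ⟨⟨mem_univ _, ?_⟩, ?_⟩, ?_⟩
      · intro d _
        have h3 := (h2 d).trans measureReal_le_one
        exact abs_le.1 h3
      · simp only [mem_iInter]
        intro d C hdC
        refine (h2 d).trans ?_
        exact measureReal_mono (singleton_subset_iff.2 hdC)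
      · refine Prod.ext ?_ rfl
        funext C
        exact (h1 C).symm
    · rintro ⟨⟨m, a⟩, ⟨_, h2⟩, rfl⟩
      refine ⟨m, inferInstance, fun C => rfl, fun d => ?_⟩
      simp only [mem_iInter] at h2
      exact outer _ _ fun C hC => h2 d C hC
  rw [hK]
  exact hA.image hΨ

theorem K_convex : Convex ℝ K := by
  rintro x ⟨m, hm, h1, h2⟩ y ⟨n, hn, h3, h4⟩ a b ha hb hab
  refine ⟨ENNReal.ofReal a • m + ENNReal.ofReal b • n, ?_, ?_, ?_⟩
  · constructor
    simp only [Measure.coe_add, Measure.coe_smul, Pi.add_apply, Pi.smul_apply, measure_univ,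
      smul_eq_mul, mul_one]
    rw [← ENNReal.ofReal_add ha hb, hab]
    simp
  · intro C
    simp only [Prod.fst_add, Prod.smul_fst, Pi.add_apply, Pi.smul_apply, smul_eq_mul, h1 C, h3 C]
    simp only [Measure.real, Measure.coe_add, Measure.coe_smul, Pi.add_apply, Pi.smul_apply,
      smul_eq_mul]
    rw [ENNReal.toReal_add (by finiteness) (by finiteness), ENNReal.toReal_mul, ENNReal.toReal_mul,
      ENNReal.toReal_ofReal ha, ENNReal.toReal_ofReal hb]
  · intro d
    simp only [Prod.snd_add, Prod.smul_snd, Pi.add_apply, Pi.smul_apply, smul_eq_mul]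
    have h5 : (ENNReal.ofReal a • m + ENNReal.ofReal b • n).real {(d : Q)}
        = a * m.real {(d : Q)} + b * n.real {(d : Q)} := by
      simp only [Measure.real, Measure.coe_add, Measure.coe_smul, Pi.add_apply, Pi.smul_apply,
        smul_eq_mul]
      rw [ENNReal.toReal_add (by finiteness) (by finiteness), ENNReal.toReal_mul,
        ENNReal.toReal_mul, ENNReal.toReal_ofReal ha, ENNReal.toReal_ofReal hb]
    rw [h5]
    calc |a * x.2 d + b * y.2 d| ≤ |a * x.2 d| + |b * y.2 d| := abs_add_le _ _
      _ = a * |x.2 d| + b * |y.2 d| := by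
          rw [abs_mul, abs_mul, abs_of_nonneg ha, abs_of_nonneg hb]
      _ ≤ _ := add_le_add (mul_le_mul_of_nonneg_left (h2 d) ha)
          (mul_le_mul_of_nonneg_left (h4 d) hb)

end Q70.Lu
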