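import Pool.Agent.Q70.LuA

/-!
# The extreme points of the simplex
-/

set_option autoImplicit false

open MeasureTheory Set Filter Topology TopologicalSpace
open scoped ENNReal

namespace Q70.Lu

/-- evaluation at a point -/
noncomputable def ev (q : Q) : Clopens Q → ℝ := fun C => (C : Set Q).indicator 1 q

/-- the point `(δ_q, 0)` -/
noncomputable def base (q : Q) : E := (ev q, 0)

open Classical in
/-- the point `(δ_d, s u_d)` -/
noncomputable def up (d : D) (s : ℝ) : E := (ev d, Pi.single d s)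

theorem ev_dirac (q : Q) (C : Clopens Q) : ev q C = (Measure.dirac q).real (C : Set Q) := by
  unfold ev
  rw [Measure.real, Measure.dirac_apply' _ C.isClopen.2.measurableSet]
  by_cases h : q ∈ (C : Set Q)
  · simp [h]
  · simp [h]

theorem ev_mem {q : Q} {C : Clopens Q} (h : q ∈ C) : ev q C = 1 := by
  have h' : q ∈ (C : Set Q) := h
  simp [ev, h']

theorem ev_notMem {q : Q} {C : Clopens Q} (h : q ∉ C) : ev q C = 0 := by
  have h' : q ∉ (C : Set Q) := h
  simp [ev, h']

theorem base_mem (q : Q) : base q ∈ K := by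
  refine ⟨Measure.dirac q, inferInstance, fun C => ev_dirac q C, fun d => ?_⟩
  simp only [base, Pi.zero_apply, abs_zero]
  exact measureReal_nonneg

theorem up_mem (d : D) {s : ℝ} (hs : |s| ≤ 1) : up d s ∈ K := by
  classical
  refine ⟨Measure.dirac (d : Q), inferInstance, fun C => ev_dirac d C, fun d' => ?_⟩
  simp only [up]
  by_cases h : d' = d
  · subst h
    have : (Measure.dirac (d' : Q)).real {(d' : Q)} = 1 := by
      simp [Measure.real]
    rw [this]
    simpa using hs
  · have : (Pi.single d s : D → ℝ) d' = 0 := Pi.single_eq_of_ne h _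
    simp only [this, abs_zero]
    exact measureReal_nonneg

/-- clopen sets separate the points -/
theorem exists_clopen_sep {q q' : Q} (h : q ≠ q') : ∃ C : Clopens Q, q ∈ C ∧ q' ∉ C := by
  obtain ⟨V, hV, hqV, hVU⟩ := isTopologicalBasis_isClopen.mem_nhds_iff.1
    ((isOpen_compl_singleton (x := q')).mem_nhds (by simpa using h : q ∈ ({q'} : Set Q)ᶜ))
  refine ⟨⟨V, hV⟩, hqV, fun h' => ?_⟩
  exact (hVU h') rfl

/-- a point of `K` over `ev q` -/
theorem coord_bound {x : E} (hx : x ∈ K) {q : Q} (hq : x.1 = ev q) (d : D) :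
    (q ≠ d → x.2 d = 0) ∧ |x.2 d| ≤ 1 := by
  obtain ⟨m, hm, h1, h2⟩ := hx
  constructor
  · intro hne
    obtain ⟨C, hC, hqC⟩ := exists_clopen_sep hne.symm
    have h3 := (h2 d).trans (measureReal_mono (singleton_subset_iff.2 hC : {(d : Q)} ⊆ (C : Set Q)))
    rw [← h1 C, hq, ev_notMem hqC] at h3
    exact abs_nonpos_iff.1 h3
  · exact (h2 d).trans measureReal_le_one

theorem K_bound {x : E} (hx : x ∈ K) (C : Clopens Q) : 0 ≤ x.1 C ∧ x.1 C ≤ 1 := by
  obtain ⟨m, hm, h1, h2⟩ := hx
  rw [h1 C]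
  exact ⟨measureReal_nonneg, measureReal_le_one⟩

/-- both parts of a convex decomposition of a point over `ev q` are over `ev q`. -/
theorem ev_extreme {x y : E} (hx : x ∈ K) (hy : y ∈ K) {a b : ℝ} (ha : 0 < a) (hb : 0 < b)
    (hab : a + b = 1) {q : Q} (h : (a • x + b • y).1 = ev q) : x.1 = ev q ∧ y.1 = ev q := by
  have key : ∀ C, x.1 C = ev q C ∧ y.1 C = ev q C := by
    intro C
    have h1 := congrFun h C
    simp only [Prod.fst_add, Prod.smul_fst, Pi.add_apply, Pi.smul_apply, smul_eq_mul] at h1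
    obtain ⟨hx0, hx1⟩ := K_bound hx C
    obtain ⟨hy0, hy1⟩ := K_bound hy C
    by_cases hq : q ∈ C
    · rw [ev_mem hq] at h1 ⊢
      constructor <;> nlinarith
    · rw [ev_notMem hq] at h1 ⊢
      constructor <;> nlinarith
  exact ⟨funext fun C => (key C).1, funext fun C => (key C).2⟩

theorem base_extreme {q : Q} (hq : q ∉ D) : base q ∈ K.extremePoints ℝ := by
  rw [mem_extremePoints]
  refine ⟨base_mem q, ?_⟩
  rintro x hx y hy ⟨a, b, ha, hb, hab, hxy⟩
  obtain ⟨h1, h2⟩ := ev_extreme hx hy ha hb hab (q := q) (by rw [hxy]; rfl)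
  constructor
  · refine Prod.ext h1 (funext fun d => ?_)
    exact (coord_bound hx h1 d).1 (fun h => hq (h ▸ d.2))
  · refine Prod.ext h2 (funext fun d => ?_)
    exact (coord_bound hy h2 d).1 (fun h => hq (h ▸ d.2))

theorem up_extreme (d : D) {s : ℝ} (hs : |s| = 1) : up d s ∈ K.extremePoints ℝ := by
  classical
  rw [mem_extremePoints]
  refine ⟨up_mem d hs.le, ?_⟩
  rintro x hx y hy ⟨a, b, ha, hb, hab, hxy⟩
  obtain ⟨h1, h2⟩ := ev_extreme hx hy ha hb hab (q := (d : Q)) (by rw [hxy]; rfl)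
  have h3 := congrFun (congrArg Prod.snd hxy) d
  simp only [Prod.snd_add, Prod.smul_snd, Pi.add_apply, Pi.smul_apply, smul_eq_mul, up,
    Pi.single_eq_same] at h3
  have hx1 := abs_le.1 (coord_bound hx h1 d).2
  have hy1 := abs_le.1 (coord_bound hy h2 d).2
  have hxs : x.2 d = s ∧ y.2 d = s := by
    rcases eq_or_eq_neg_of_abs_eq hs with h | h
    · rw [h] at h3 ⊢
      constructor <;> nlinarith [hx1.1, hx1.2, hy1.1, hy1.2]
    · rw [h] at h3 ⊢
      constructor <;> nlinarith [hx1.1, hx1.2, hy1.1, hy1.2]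
  constructor
  · refine Prod.ext h1 (funext fun d' => ?_)
    by_cases h : d' = d
    · subst h; simpa [up] using hxs.1
    · simp only [up]
      rw [Pi.single_eq_of_ne h]
      exact (coord_bound hx h1 d').1 (fun h' => h (Subtype.ext h'.symm))
  · refine Prod.ext h2 (funext fun d' => ?_)
    by_cases h : d' = d
    · subst h; simpa [up] using hxs.2
    · simp only [up]
      rw [Pi.single_eq_of_ne h]
      exact (coord_bound hy h2 d').1 (fun h' => h (Subtype.ext h'.symm))

/-- splitting a point of `K` along a clopen set -/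
theorem split_mem {x : E} {m : Measure Q} [IsProbabilityMeasure m]
    (h1 : ∀ C : Clopens Q, x.1 C = m.real (C : Set Q)) (h2 : ∀ d : D, |x.2 d| ≤ m.real {(d : Q)})
    (B : Clopens Q) (hB : 0 < x.1 B) :
    ((fun C => (x.1 B)⁻¹ * x.1 (C ⊓ B), fun d => (x.1 B)⁻¹ * ((B : Set Q).indicator 1 (d : Q) * x.2 d))
      : E) ∈ K := by
  have hBm : MeasurableSet (B : Set Q) := B.isClopen.2.measurableSet
  have hmB : m (B : Set Q) ≠ 0 := by
    intro h
    rw [h1 B, Measure.real, h] at hB
    simp at hB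
  refine ⟨(m (B : Set Q))⁻¹ • m.restrict (B : Set Q), ?_, ?_, ?_⟩
  · constructor
    rw [Measure.smul_apply, Measure.restrict_apply MeasurableSet.univ, univ_inter, smul_eq_mul,
      ENNReal.inv_mul_cancel hmB (measure_ne_top _ _)]
  · intro C
    simp only [Measure.real, Measure.smul_apply, smul_eq_mul]
    rw [Measure.restrict_apply C.isClopen.2.measurableSet, ENNReal.toReal_mul, ENNReal.toReal_inv,
      h1 B, h1 (C ⊓ B)]
    rfl
  · intro d
    simp only
    rw [abs_mul, abs_inv, abs_of_pos hB]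
    simp only [Measure.real, Measure.smul_apply, smul_eq_mul]
    rw [Measure.restrict_apply (measurableSet_singleton _), ENNReal.toReal_mul, ENNReal.toReal_inv,
      h1 B]
    refine mul_le_mul_of_nonneg_left ?_ (inv_nonneg.2 measureReal_nonneg)
    by_cases hd : (d : Q) ∈ (B : Set Q)
    · have : ({(d : Q)} ∩ (B : Set Q) : Set Q) = {(d : Q)} := by
        rw [inter_eq_left]; simpa using hd
      rw [this, indicator_of_mem hd, Pi.one_apply, one_mul]
      exact h2 d
    · rw [indicator_of_notMem hd]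
      simp

theorem extreme_zero_one {x : E} (hx : x ∈ K.extremePoints ℝ) (B : Clopens Q) :
    x.1 B = 0 ∨ x.1 B = 1 := by
  by_contra hne
  push Not at hne
  obtain ⟨m, hm, h1, h2⟩ := hx.1
  have hB0 : 0 < x.1 B := lt_of_le_of_ne (K_bound hx.1 B).1 (Ne.symm hne.1)
  have hB1 : x.1 B < 1 := lt_of_le_of_ne (K_bound hx.1 B).2 hne.2
  have hc : x.1 Bᶜ = 1 - x.1 B := by
    rw [h1 B, h1 Bᶜ]
    exact probReal_compl_eq_one_sub B.isClopen.2.measurableSet
  have hBc : 0 < x.1 Bᶜ := by rw [hc]; linarith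
  have hy := split_mem h1 h2 B hB0
  have hz := split_mem h1 h2 Bᶜ hBc
  have hxyz : x.1 B • ((fun C => (x.1 B)⁻¹ * x.1 (C ⊓ B),
      fun d => (x.1 B)⁻¹ * ((B : Set Q).indicator 1 (d : Q) * x.2 d)) : E) +
      x.1 Bᶜ • ((fun C => (x.1 Bᶜ)⁻¹ * x.1 (C ⊓ Bᶜ),
      fun d => (x.1 Bᶜ)⁻¹ * (((Bᶜ : Clopens Q) : Set Q).indicator 1 (d : Q) * x.2 d)) : E) = x := by
    refine Prod.ext (funext fun C => ?_) (funext fun d => ?_)
    · simp only [Prod.fst_add, Prod.smul_fst, Pi.add_apply, Pi.smul_apply, smul_eq_mul]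
      rw [mul_inv_cancel_left₀ hB0.ne', mul_inv_cancel_left₀ hBc.ne', h1, h1, h1]
      have h5 := measureReal_inter_add_diff (μ := m) (s := (C : Set Q))
        (B.isClopen.2.measurableSet : MeasurableSet (B : Set Q))
      rw [← h5]
      rfl
    · simp only [Prod.snd_add, Prod.smul_snd, Pi.add_apply, Pi.smul_apply, smul_eq_mul]
      rw [mul_inv_cancel_left₀ hB0.ne', mul_inv_cancel_left₀ hBc.ne', Clopens.coe_compl]
      by_cases hd : (d : Q) ∈ (B : Set Q)
      · rw [indicator_of_mem hd, indicator_of_notMem (by simpa using hd)]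
        simp
      · rw [indicator_of_notMem hd, indicator_of_mem (by simpa using hd)]
        simp
  have h6 := (mem_extremePoints.1 hx).2 _ hy _ hz
    ⟨x.1 B, x.1 Bᶜ, hB0, hBc, by rw [hc]; ring, hxyz⟩
  have h7 := congrFun (congrArg Prod.fst h6.1) B
  simp only [inf_idem] at h7
  rw [inv_mul_cancel₀ hB0.ne'] at h7
  exact hne.2 h7.symm

/-- An extreme point lies over a point of `Q`. -/
theorem extreme_ev {x : E} (hx : x ∈ K.extremePoints ℝ) : ∃ q : Q, x.1 = ev q := by
  obtain ⟨m, hm, h1, h2⟩ := hx.1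
  -- the intersection of all clopen sets of measure one
  have hne : (⋂ C : {C : Clopens Q // x.1 C = 1}, ((C : Clopens Q) : Set Q)).Nonempty := by
    have : Nonempty {C : Clopens Q // x.1 C = 1} := ⟨⟨⊤, by rw [h1]; simp⟩⟩
    refine IsCompact.nonempty_iInter_of_directed_nonempty_isCompact_isClosed _ ?_ ?_ ?_ ?_
    · rintro ⟨C, hC⟩ ⟨C', hC'⟩
      have h3 : x.1 (C ⊓ C') = 1 := by
        rw [h1] at hC hC' ⊢
        have h4 : m (C : Set Q) = 1 := by
          rw [Measure.real] at hC
          exact (ENNReal.toReal_eq_one_iff _).1 hC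
        have h5 : m (C' : Set Q) = 1 := by
          rw [Measure.real] at hC'
          exact (ENNReal.toReal_eq_one_iff _).1 hC'
        have h6 : ∀ᵐ q ∂m, q ∈ (C : Set Q) :=
          (mem_ae_iff_prob_eq_one C.isClopen.2.measurableSet).2 h4
        have h7 : ∀ᵐ q ∂m, q ∈ (C' : Set Q) :=
          (mem_ae_iff_prob_eq_one C'.isClopen.2.measurableSet).2 h5
        have h8 : m ((C ⊓ C' : Clopens Q) : Set Q) = 1 := by
          rw [← mem_ae_iff_prob_eq_one (C ⊓ C').isClopen.2.measurableSet]
          filter_upwards [h6, h7] with q h9 h10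
          exact ⟨h9, h10⟩
        rw [Measure.real, h8]
        simp
      refine ⟨⟨C ⊓ C', h3⟩, ?_, ?_⟩
      · exact fun q hq => hq.1
      · exact fun q hq => hq.2
    · rintro ⟨C, hC⟩
      rw [nonempty_iff_ne_empty]
      intro h
      rw [h1] at hC
      simp only at h
      rw [h] at hC
      simp at hC
    · rintro ⟨C, hC⟩
      exact C.isClopen.1.isCompact
    · rintro ⟨C, hC⟩
      exact C.isClopen.1
  obtain ⟨q, hq⟩ := hne
  rw [mem_iInter] at hq
  refine ⟨q, funext fun C => ?_⟩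
  rcases extreme_zero_one hx C with h | h
  · rw [h]
    have hc : x.1 Cᶜ = 1 := by
      rw [h1 Cᶜ]
      have h3 := probReal_compl_eq_one_sub (μ := m) (C.isClopen.2.measurableSet :
        MeasurableSet (C : Set Q))
      rw [← h1 C, h] at h3
      simpa using h3
    have h4 := hq ⟨Cᶜ, hc⟩
    rw [ev_notMem]
    simpa using h4
  · rw [h]
    have h4 := hq ⟨C, h⟩
    rw [ev_mem]
    exact h4

theorem extreme_cases {x : E} (hx : x ∈ K.extremePoints ℝ) :
    (∃ q, q ∉ D ∧ x = base q) ∨ ∃ d : D, x = up d 1 ∨ x = up d (-1) := by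
  classical
  obtain ⟨q, hq⟩ := extreme_ev hx
  by_cases hD : q ∈ D
  · right
    refine ⟨⟨q, hD⟩, ?_⟩
    set d : D := ⟨q, hD⟩ with hd
    have hx2 : ∀ s, x.2 d = s → x = up d s := by
      intro s hs
      refine Prod.ext hq (funext fun d' => ?_)
      by_cases h : d' = d
      · subst h; simpa [up] using hs
      · simp only [up]
        rw [Pi.single_eq_of_ne h]
        exact (coord_bound hx.1 hq d').1 (fun h' => h (Subtype.ext h'.symm))
    set s := x.2 d with hs
    have hxs := hx2 s rfl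
    have hs1 : |s| ≤ 1 := (coord_bound hx.1 hq d).2
    have hs1' := abs_le.1 hs1
    by_contra hne
    push Not at hne
    have hsne : s ≠ 1 := fun h => hne.1 (hx2 1 h)
    have hsne' : s ≠ -1 := fun h => hne.2 (hx2 (-1) h)
    have hs2 : -1 < s := lt_of_le_of_ne hs1'.1 (Ne.symm hsne')
    have hs3 : s < 1 := lt_of_le_of_ne hs1'.2 hsne
    have h1 := (mem_extremePoints.1 hx).2 (up d 1) (up_mem d (by simp)) (up d (-1))
      (up_mem d (by simp)) ⟨(1 + s) / 2, (1 - s) / 2, by linarith, by linarith, by ring, ?_⟩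
    · exact hne.1 h1.1.symm
    · rw [hxs]
      refine Prod.ext (funext fun C => ?_) (funext fun d' => ?_)
      · simp only [up, Prod.fst_add, Prod.smul_fst, Pi.add_apply, Pi.smul_apply, smul_eq_mul]
        ring
      · simp only [up, Prod.snd_add, Prod.smul_snd, Pi.add_apply, Pi.smul_apply, smul_eq_mul]
        by_cases h : d' = d
        · subst h
          simp only [Pi.single_eq_same]
          ring
        · rw [Pi.single_eq_of_ne h, Pi.single_eq_of_ne h, Pi.single_eq_of_ne h]
          ring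
  · left
    refine ⟨q, hD, Prod.ext hq (funext fun d => ?_)⟩
    exact (coord_bound hx.1 hq d).1 (fun h => hD (h ▸ d.2))

end Q70.Lu
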