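import Pool.Agent.Q70.LuB

/-!
# Continuous linear functionals on `E` and the representing measure
-/

set_option autoImplicit false

open MeasureTheory Set Filter Topology TopologicalSpace
open scoped ENNReal

namespace Q70.Lu

/-- A continuous linear functional on `ℝ^ι` only depends on finitely many coordinates. -/
theorem finite_dual {ι : Type} [DecidableEq ι] (l : (ι → ℝ) →L[ℝ] ℝ) :
    ∃ T : Finset ι, ∀ x : ι → ℝ, l x = ∑ i ∈ T, x i * l (Pi.single i 1) := by
  have hs : ∀ x : ι → ℝ, HasSum (fun i => x i * l (Pi.single i 1)) (l x) := by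
    intro x
    have h1 : HasSum (fun i => (Pi.single i (x i) : ι → ℝ)) x := by
      rw [Pi.hasSum]
      intro j
      have h2 : ∀ i, i ≠ j → (Pi.single i (x i) : ι → ℝ) j = 0 := fun i hi =>
        Pi.single_eq_of_ne hi.symm _
      have h3 := hasSum_single j h2
      simpa using h3
    have h2 := h1.mapL l
    refine h2.congr_fun ?_ |> fun h => h
    intro i
    have h3 : (Pi.single i (x i) : ι → ℝ) = x i • (Pi.single i 1 : ι → ℝ) := by
      rw [← Pi.single_smul]
      simp
    rw [h3, map_smul, smul_eq_mul]
  have hfin : {i | l (Pi.single i 1) ≠ 0}.Finite := by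
    have h1 := (hs (fun i => (l (Pi.single i 1))⁻¹)).summable.tendsto_cofinite_zero
    have h2 := h1.eventually (Iio_mem_nhds (show (0 : ℝ) < 1 by norm_num))
    rw [eventually_cofinite] at h2
    refine h2.subset ?_
    intro i hi
    rw [Set.mem_ofPred_eq] at hi ⊢
    rw [inv_mul_cancel₀ hi]
    simp
  refine ⟨hfin.toFinset, fun x => ?_⟩
  refine (hs x).unique ?_
  refine hasSum_sum_of_ne_finset_zero ?_
  intro i hi
  have : l (Pi.single i 1) = 0 := by
    by_contra h
    exact hi (hfin.mem_toFinset.2 h)
  rw [this, mul_zero]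

/-- the decomposition of a functional on `E` -/
theorem finite_dual_E (l : E →L[ℝ] ℝ) : ∃ (S : Finset (Clopens Q)) (T : Finset D)
    (u : Clopens Q → ℝ) (v : D → ℝ), ∀ x : E, l x = ∑ C ∈ S, x.1 C * u C + ∑ d ∈ T, x.2 d * v d := by
  classical
  obtain ⟨S, hS⟩ := finite_dual (l.comp (ContinuousLinearMap.inl ℝ (Clopens Q → ℝ) (D → ℝ)))
  obtain ⟨T, hT⟩ := finite_dual (l.comp (ContinuousLinearMap.inr ℝ (Clopens Q → ℝ) (D → ℝ)))
  refine ⟨S, T, fun C => (l.comp (ContinuousLinearMap.inl ℝ (Clopens Q → ℝ) (D → ℝ)))
    (Pi.single C 1), fun d => (l.comp (ContinuousLinearMap.inr ℝ (Clopens Q → ℝ) (D → ℝ)))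
    (Pi.single d 1), fun x => ?_⟩
  rw [← hS x.1, ← hT x.2]
  simp only [ContinuousLinearMap.comp_apply, ContinuousLinearMap.inl_apply,
    ContinuousLinearMap.inr_apply]
  rw [← map_add]
  congr 1
  simp

theorem continuous_ev : Continuous ev := by
  refine continuous_pi fun C => ?_
  refine continuous_indicator ?_ continuousOn_const
  intro a ha
  rw [C.isClopen.frontier_eq] at ha
  exact absurd ha (notMem_empty a)

theorem continuous_base : Continuous base := continuous_ev.prodMk continuous_const

theorem base_injective : Function.Injective base := by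
  intro q q' h
  by_contra hne
  obtain ⟨C, hC, hC'⟩ := exists_clopen_sep hne
  have h1 := congrFun (congrArg Prod.fst h) C
  simp only [base] at h1
  rw [ev_mem hC, ev_notMem hC'] at h1
  exact one_ne_zero h1

theorem base_closedEmbedding : IsClosedEmbedding base :=
  continuous_base.isClosedEmbedding base_injective

theorem D_measurable : MeasurableSet D := D_countable.measurableSet

/-- coordinates are measurable -/
theorem measurable_coord1 (C : Clopens Q) : Measurable fun x : E => x.1 C := by fun_prop

theorem measurable_coord2 (d : D) : Measurable fun x : E => x.2 d := by fun_prop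

theorem ext_measurable : MeasurableSet (K.extremePoints ℝ) := by
  have h : K.extremePoints ℝ = (base '' Dᶜ) ∪ (⋃ d : D, {up d 1, up d (-1)}) := by
    ext x
    constructor
    · intro hx
      rcases extreme_cases hx with ⟨q, hq, rfl⟩ | ⟨d, h⟩
      · exact Or.inl ⟨q, hq, rfl⟩
      · exact Or.inr (mem_iUnion.2 ⟨d, by simpa using h⟩)
    · rintro (⟨q, hq, rfl⟩ | h)
      · exact base_extreme hq
      · obtain ⟨d, hd⟩ := mem_iUnion.1 h
        rcases hd with rfl | hd
        · exact up_extreme d (by simp)
        · rw [mem_singleton_iff] at hd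
          rw [hd]
          exact up_extreme d (by simp)
  rw [h]
  refine MeasurableSet.union ?_ ?_
  · exact base_closedEmbedding.measurableEmbedding.measurableSet_image.2 D_measurable.compl
  · refine MeasurableSet.iUnion fun d => ?_
    exact ((finite_singleton _).insert _).measurableSet

/-- The representing measure. -/
noncomputable def rep (m : Measure Q) (a : D → ℝ) : Measure E :=
  (m.restrict Dᶜ).map base +
    Measure.sum fun d : D => (ENNReal.ofReal ((m.real {(d : Q)} + a d) / 2) • Measure.dirac (up d 1) +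
      ENNReal.ofReal ((m.real {(d : Q)} - a d) / 2) • Measure.dirac (up d (-1)))

theorem measure_D_sum (m : Measure Q) (B : Set Q) :
    m (B ∩ D) = ∑' d : D, m (B ∩ {(d : Q)}) := by
  have h : B ∩ D = ⋃ d : D, B ∩ {(d : Q)} := by
    ext q; simp
  rw [h]
  refine measure_iUnion ?_ ?_
  · intro d d' hd
    refine Set.disjoint_left.2 ?_
    rintro q ⟨_, h1⟩ ⟨_, h2⟩
    exact hd (Subtype.ext ((mem_singleton_iff.1 h1).symm.trans (mem_singleton_iff.1 h2)))
  · intro d
    exact ((finite_singleton (d : Q)).inter_of_right B).measurableSet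

theorem ofReal_split {r a : ℝ} (h : |a| ≤ r) :
    ENNReal.ofReal ((r + a) / 2) + ENNReal.ofReal ((r - a) / 2) = ENNReal.ofReal r := by
  have h1 := abs_le.1 h
  rw [← ENNReal.ofReal_add (by linarith) (by linarith)]
  congr 1
  ring

theorem rep_prob {m : Measure Q} [IsProbabilityMeasure m] {a : D → ℝ}
    (h : ∀ d : D, |a d| ≤ m.real {(d : Q)}) : IsProbabilityMeasure (rep m a) := by
  constructor
  unfold rep
  rw [Measure.add_apply, Measure.map_apply base_closedEmbedding.continuous.measurable
    MeasurableSet.univ, preimage_univ, Measure.restrict_apply MeasurableSet.univ, univ_inter,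
    Measure.sum_apply _ MeasurableSet.univ]
  have h1 : ∀ d : D, (ENNReal.ofReal ((m.real {(d : Q)} + a d) / 2) • Measure.dirac (up d 1) +
      ENNReal.ofReal ((m.real {(d : Q)} - a d) / 2) • Measure.dirac (up d (-1))) univ
      = m (univ ∩ {(d : Q)}) := by
    intro d
    rw [Measure.add_apply, Measure.smul_apply, Measure.smul_apply, measure_univ, measure_univ,
      smul_eq_mul, smul_eq_mul, mul_one, mul_one, ofReal_split (h d), univ_inter]
    exact ofReal_measureReal
  simp_rw [h1]
  rw [← measure_D_sum, univ_inter, add_comm, measure_add_measure_compl D_measurable]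
  exact measure_univ

theorem rep_conc (m : Measure Q) (a : D → ℝ) : rep m a (K.extremePoints ℝ)ᶜ = 0 := by
  unfold rep
  rw [Measure.add_apply, Measure.map_apply base_closedEmbedding.continuous.measurable
    ext_measurable.compl, Measure.sum_apply _ ext_measurable.compl]
  have h1 : m.restrict Dᶜ (base ⁻¹' (K.extremePoints ℝ)ᶜ) = 0 := by
    rw [Measure.restrict_apply (base_closedEmbedding.continuous.measurable ext_measurable.compl)]
    have : base ⁻¹' (K.extremePoints ℝ)ᶜ ∩ Dᶜ = ∅ := by
      ext q
      simp only [mem_inter_iff, mem_preimage, mem_compl_iff, mem_empty_iff_false, iff_false]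
      rintro ⟨h2, h3⟩
      exact h2 (base_extreme h3)
    rw [this, measure_empty]
  rw [h1, zero_add]
  rw [ENNReal.tsum_eq_zero]
  intro d
  rw [Measure.add_apply, Measure.smul_apply, Measure.smul_apply,
    Measure.dirac_apply' _ ext_measurable.compl, Measure.dirac_apply' _ ext_measurable.compl]
  rw [indicator_of_notMem, indicator_of_notMem]
  · simp
  · simpa using up_extreme d (s := -1) (by simp)
  · simpa using up_extreme d (s := 1) (by simp)

theorem coord_int (ξ : Measure E) [IsProbabilityMeasure ξ] (hc : ξ (K.extremePoints ℝ)ᶜ = 0) :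
    (∀ C, Integrable (fun x : E => x.1 C) ξ) ∧ ∀ d, Integrable (fun x : E => x.2 d) ξ := by
  have hK : ∀ᵐ x ∂ξ, x ∈ K := by
    have : ∀ᵐ x ∂ξ, x ∈ K.extremePoints ℝ := by
      rw [ae_iff]; exact hc
    filter_upwards [this] with x hx
    exact hx.1
  constructor
  · intro C
    refine Integrable.of_bound (measurable_coord1 C).aestronglyMeasurable 1 ?_
    filter_upwards [hK] with x hx
    rw [Real.norm_eq_abs, abs_of_nonneg (K_bound hx C).1]
    exact (K_bound hx C).2
  · intro d
    refine Integrable.of_bound (measurable_coord2 d).aestronglyMeasurable 1 ?_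
    filter_upwards [hK] with x hx
    obtain ⟨m, hm, h1, h2⟩ := hx
    exact (h2 d).trans measureReal_le_one

/-- the barycentre is determined by the coordinates. -/
theorem bary_of_coord {ξ : Measure E} [IsProbabilityMeasure ξ] (hc : ξ (K.extremePoints ℝ)ᶜ = 0)
    {x : E} (h1 : ∀ C, ∫ y, y.1 C ∂ξ = x.1 C) (h2 : ∀ d, ∫ y, y.2 d ∂ξ = x.2 d)
    (l : E →L[ℝ] ℝ) : ∫ y, l y ∂ξ = l x := by
  obtain ⟨S, T, u, v, hl⟩ := finite_dual_E l
  obtain ⟨hi1, hi2⟩ := coord_int ξ hc
  simp_rw [hl]
  rw [integral_add, integral_finsetSum, integral_finsetSum]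
  · congr 1
    · refine Finset.sum_congr rfl fun C _ => ?_
      rw [integral_mul_const, h1]
    · refine Finset.sum_congr rfl fun d _ => ?_
      rw [integral_mul_const, h2]
  · exact fun d _ => (hi2 d).mul_const _
  · exact fun C _ => (hi1 C).mul_const _
  · exact integrable_finsetSum _ fun C _ => (hi1 C).mul_const _
  · exact integrable_finsetSum _ fun d _ => (hi2 d).mul_const _

end Q70.Lu
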