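import Pool.Agent.Q70.LuC

/-!
# Existence and uniqueness of the representing measure
-/

set_option autoImplicit false

open MeasureTheory Set Filter Topology TopologicalSpace
open scoped ENNReal

namespace Q70.Lu

theorem up_fst (d : D) (s : ℝ) : (up d s).1 = ev d := rfl

theorem up_snd_same (d : D) (s : ℝ) : (up d s).2 d = s := by
  classical
  simp only [up]
  exact Pi.single_eq_same _ _

theorem up_snd_ne {d d' : D} (h : d' ≠ d) (s : ℝ) : (up d s).2 d' = 0 := by
  classical
  simp only [up]
  exact Pi.single_eq_of_ne h _

theorem integral_ev (m : Measure Q) [IsProbabilityMeasure m] (C : Clopens Q) (B : Set Q) :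
    ∫ q in B, ev q C ∂m = m.real ((C : Set Q) ∩ B) := by
  change ∫ q in B, (C : Set Q).indicator 1 q ∂m = _
  rw [integral_indicator_one C.isClopen.2.measurableSet]
  simp [Measure.real, Measure.restrict_apply C.isClopen.2.measurableSet]

theorem rep_coord1 {m : Measure Q} [IsProbabilityMeasure m] {a : D → ℝ}
    (h : ∀ d : D, |a d| ≤ m.real {(d : Q)}) (C : Clopens Q) :
    ∫ y, y.1 C ∂(rep m a) = m.real (C : Set Q) := by
  have := rep_prob h
  have hi := (coord_int (rep m a) (rep_conc m a)).1 C
  unfold rep at hi ⊢
  rw [integral_add_measure (integrable_add_measure.1 hi).1 (integrable_add_measure.1 hi).2,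
    integral_sum_measure (integrable_add_measure.1 hi).2,
    integral_map continuous_base.measurable.aemeasurable (measurable_coord1 C).aestronglyMeasurable]
  have h1 : ∫ q, (base q).1 C ∂(m.restrict Dᶜ) = m.real ((C : Set Q) ∩ Dᶜ) := integral_ev m C Dᶜ
  have h2 : ∀ d : D, ∫ y : E, y.1 C ∂(ENNReal.ofReal ((m.real {(d : Q)} + a d) / 2) •
      Measure.dirac (up d 1) + ENNReal.ofReal ((m.real {(d : Q)} - a d) / 2) •
      Measure.dirac (up d (-1))) = m.real ((C : Set Q) ∩ {(d : Q)}) := by
    intro d
    have h3 := abs_le.1 (h d)
    rw [integral_add_measure, integral_smul_measure, integral_smul_measure, integral_dirac,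
      integral_dirac, up_fst, up_fst, ENNReal.toReal_ofReal (by linarith),
      ENNReal.toReal_ofReal (by linarith)]
    · by_cases hd : (d : Q) ∈ C
      · rw [ev_mem hd]
        have h4 : ((C : Set Q) ∩ {(d : Q)}) = {(d : Q)} := by
          rw [inter_eq_right]; simpa using hd
        rw [h4]
        simp only [smul_eq_mul]
        ring
      · rw [ev_notMem hd]
        have h4 : ((C : Set Q) ∩ {(d : Q)}) = ∅ := by
          ext q
          simp only [mem_inter_iff, mem_singleton_iff, mem_empty_iff_false, iff_false, not_and]
          rintro h5 rfl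
          exact hd h5
        rw [h4]
        simp
    · exact (integrable_dirac (by simp)).smul_measure ENNReal.ofReal_ne_top
    · exact (integrable_dirac (by simp)).smul_measure ENNReal.ofReal_ne_top
  simp_rw [h1, h2]
  have h5 : ∑' d : D, m.real ((C : Set Q) ∩ {(d : Q)}) = m.real ((C : Set Q) ∩ D) := by
    simp only [Measure.real]
    rw [measure_D_sum, ENNReal.tsum_toReal_eq (fun d => measure_ne_top _ _)]
  rw [h5, add_comm]
  have h6 := measureReal_inter_add_diff (μ := m) (s := (C : Set Q)) D_measurable
  rw [diff_eq] at h6
  exact h6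

open Classical in
theorem rep_coord2 {m : Measure Q} [IsProbabilityMeasure m] {a : D → ℝ}
    (h : ∀ d : D, |a d| ≤ m.real {(d : Q)}) (d₀ : D) :
    ∫ y, y.2 d₀ ∂(rep m a) = a d₀ := by
  have := rep_prob h
  have hi := (coord_int (rep m a) (rep_conc m a)).2 d₀
  unfold rep at hi ⊢
  rw [integral_add_measure (integrable_add_measure.1 hi).1 (integrable_add_measure.1 hi).2,
    integral_sum_measure (integrable_add_measure.1 hi).2,
    integral_map continuous_base.measurable.aemeasurable
      (measurable_coord2 d₀).aestronglyMeasurable]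
  have h1 : ∫ q, (base q).2 d₀ ∂(m.restrict Dᶜ) = 0 := by
    simp [base]
  have h2 : ∀ d : D, ∫ y : E, y.2 d₀ ∂(ENNReal.ofReal ((m.real {(d : Q)} + a d) / 2) •
      Measure.dirac (up d 1) + ENNReal.ofReal ((m.real {(d : Q)} - a d) / 2) •
      Measure.dirac (up d (-1))) = if d = d₀ then a d₀ else 0 := by
    intro d
    have h3 := abs_le.1 (h d)
    rw [integral_add_measure, integral_smul_measure, integral_smul_measure, integral_dirac,
      integral_dirac, ENNReal.toReal_ofReal (by linarith),
      ENNReal.toReal_ofReal (by linarith)]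
    · split_ifs with hd
      · subst hd
        rw [up_snd_same, up_snd_same]
        simp only [smul_eq_mul]
        ring
      · rw [up_snd_ne (Ne.symm hd), up_snd_ne (Ne.symm hd)]
        simp
    · exact (integrable_dirac (by simp)).smul_measure ENNReal.ofReal_ne_top
    · exact (integrable_dirac (by simp)).smul_measure ENNReal.ofReal_ne_top
  simp_rw [h1, h2]
  rw [tsum_ite_eq, zero_add]

/-- clopen coordinate sets -/
def cl (n : ℕ) : Clopens Q := ⟨{q | q n = true}, by
  have : IsClopen ({true} : Set Bool) := isClopen_discrete _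
  exact this.preimage (continuous_apply n)⟩

open Classical in
/-- a measurable left inverse of `ev` -/
noncomputable def sg (y : E) : Q := fun n => decide ((1 / 2 : ℝ) < y.1 (cl n))

theorem sg_measurable : Measurable sg := by
  classical
  refine measurable_pi_iff.2 fun n => ?_
  have h1 : MeasurableSet {y : E | (1 / 2 : ℝ) < y.1 (cl n)} :=
    measurableSet_lt measurable_const (measurable_coord1 _)
  refine measurable_to_bool ?_
  have : (fun y : E => sg y n) ⁻¹' {true} = {y : E | (1 / 2 : ℝ) < y.1 (cl n)} := by
    ext y
    simp [sg]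
  rw [this]
  exact h1

theorem sg_ev {y : E} {q : Q} (h : y.1 = ev q) : sg y = q := by
  classical
  funext n
  unfold sg
  rw [h]
  by_cases hq : q n = true
  · have : q ∈ cl n := hq
    rw [ev_mem this, hq]
    norm_num
  · have : q ∉ cl n := hq
    rw [ev_notMem this]
    simp only [Bool.not_eq_true] at hq
    rw [hq]
    norm_num

theorem meas_ext_clopen {m n : Measure Q} [IsProbabilityMeasure m] [IsProbabilityMeasure n]
    (h : ∀ C : Clopens Q, m.real (C : Set Q) = n.real (C : Set Q)) : m = n := by
  refine ext_of_generate_finite {s : Set Q | IsClopen s} ?_ ?_ ?_ (by simp)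
  · rw [BorelSpace.measurable_eq (α := Q)]
    exact isTopologicalBasis_isClopen.borel_eq_generateFrom
  · intro s hs t ht _
    exact IsClopen.inter hs ht
  · intro s hs
    have := h ⟨s, hs⟩
    exact (ENNReal.toReal_eq_toReal_iff' (measure_ne_top _ _) (measure_ne_top _ _)).1 this

theorem unique_rep {m : Measure Q} [IsProbabilityMeasure m] {x : E}
    (h1 : ∀ C : Clopens Q, x.1 C = m.real (C : Set Q)) (h2 : ∀ d : D, |x.2 d| ≤ m.real {(d : Q)})
    {ξ : Measure E} (hξ : Represents K ξ x) : ξ = rep m x.2 := by
  classical
  have hp := hξ.prob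
  have hae : ∀ᵐ y ∂ξ, y ∈ K.extremePoints ℝ := by
    rw [ae_iff]; exact hξ.conc
  have hae' : ∀ᵐ y ∂ξ, (∃ q, q ∉ D ∧ y = base q) ∨ ∃ d : D, y = up d 1 ∨ y = up d (-1) := by
    filter_upwards [hae] with y hy
    exact extreme_cases hy
  obtain ⟨hi1, hi2⟩ := coord_int ξ hξ.conc
  have hb1 : ∀ C, ∫ y, y.1 C ∂ξ = x.1 C := fun C =>
    hξ.bary ((ContinuousLinearMap.proj C).comp (ContinuousLinearMap.fst ℝ _ _))
  have hb2 : ∀ d, ∫ y, y.2 d ∂ξ = x.2 d := fun d =>
    hξ.bary ((ContinuousLinearMap.proj d).comp (ContinuousLinearMap.snd ℝ _ _))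
  -- the image of `ξ` on `Q` is `m`
  have hpm : IsProbabilityMeasure (ξ.map sg) :=
    Measure.isProbabilityMeasure_map sg_measurable.aemeasurable
  have hmap : ξ.map sg = m := by
    refine meas_ext_clopen fun C => ?_
    rw [Measure.real, Measure.map_apply sg_measurable C.isClopen.2.measurableSet, ← h1 C, ← hb1 C]
    have hm : MeasurableSet (sg ⁻¹' (C : Set Q)) := sg_measurable C.isClopen.2.measurableSet
    rw [← Measure.real, ← integral_indicator_one hm]
    refine integral_congr_ae ?_
    filter_upwards [hae] with y hy
    obtain ⟨q, hq⟩ := extreme_ev hy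
    rw [hq]
    by_cases hqC : q ∈ C
    · rw [ev_mem hqC, indicator_of_mem]
      · rfl
      · rw [mem_preimage, sg_ev hq]; exact hqC
    · rw [ev_notMem hqC, indicator_of_notMem]
      rw [mem_preimage, sg_ev hq]; exact hqC
  have hmapB : ∀ B : Set Q, MeasurableSet B → ξ (sg ⁻¹' B) = m B := by
    intro B hB
    rw [← hmap, Measure.map_apply sg_measurable hB]
  -- the atoms
  have hne : ∀ d : D, up d 1 ≠ up d (-1) := by
    intro d h
    have := congrFun (congrArg Prod.snd h) d
    rw [up_snd_same, up_snd_same] at this
    norm_num at this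
  have hsum : ∀ d : D, ξ.real {up d 1} + ξ.real {up d (-1)} = m.real {(d : Q)} := by
    intro d
    have h3 : ξ (sg ⁻¹' {(d : Q)}) = ξ ({up d 1} ∪ {up d (-1)}) := by
      refine measure_congr ?_
      filter_upwards [hae'] with y hy
      refine propext ⟨fun h => ?_, fun h => ?_⟩
      · have h' : sg y = d := h
        rcases hy with ⟨q, hq, rfl⟩ | ⟨d', hd'⟩
        · exfalso
          rw [sg_ev (q := q) rfl] at h'
          exact hq (h' ▸ d.2)
        · have h4 : sg y = d' := by
            rcases hd' with rfl | rfl
            · exact sg_ev rfl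
            · exact sg_ev rfl
          have h5 : d' = d := Subtype.ext (h4.symm.trans h')
          subst h5
          rcases hd' with rfl | rfl
          · exact Or.inl rfl
          · exact Or.inr rfl
      · rcases h with h | h
        · have h' : y = up d 1 := h
          change sg y = d
          rw [h']; exact sg_ev rfl
        · have h' : y = up d (-1) := h
          change sg y = d
          rw [h']; exact sg_ev rfl
    have h6 := hmapB {(d : Q)} (measurableSet_singleton _)
    rw [h3, measure_union _ (measurableSet_singleton _)] at h6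
    · have h7 := congrArg ENNReal.toReal h6
      rw [ENNReal.toReal_add (measure_ne_top _ _) (measure_ne_top _ _)] at h7
      exact h7
    · simpa using hne d
  have hdiff : ∀ d : D, ξ.real {up d 1} - ξ.real {up d (-1)} = x.2 d := by
    intro d
    rw [← hb2 d, ← integral_indicator_one (measurableSet_singleton (up d 1)),
      ← integral_indicator_one (measurableSet_singleton (up d (-1))), ← integral_sub]
    · refine integral_congr_ae ?_
      filter_upwards [hae'] with y hy
      rcases hy with ⟨q, hq, rfl⟩ | ⟨d', hd'⟩
      · have h3 : ∀ s, base q ≠ up d s := by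
          intro s h
          have h4 : ev q = ev d := congrArg Prod.fst h
          have h5 : base q = base d := Prod.ext h4 rfl
          exact hq (base_injective h5 ▸ d.2)
        rw [indicator_of_notMem (by simpa using h3 1), indicator_of_notMem (by simpa using h3 (-1))]
        simp [base]
      · by_cases h : d' = d
        · subst h
          rcases hd' with rfl | rfl
          · rw [indicator_of_mem (mem_singleton _), indicator_of_notMem (by simpa using hne d'),
              up_snd_same]
            simp
          · rw [indicator_of_mem (mem_singleton _),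
              indicator_of_notMem (by simpa using (hne d').symm), up_snd_same]
            simp
        · have h3 : ∀ s t, up d' s ≠ up d t := by
            intro s t h4
            have h4' : ev d' = ev d := congrArg Prod.fst h4
            have h5 : base d' = base d := Prod.ext h4' rfl
            exact h (Subtype.ext (base_injective h5))
          rcases hd' with rfl | rfl
          · rw [indicator_of_notMem (by simpa using h3 1 1),
              indicator_of_notMem (by simpa using h3 1 (-1)), up_snd_ne (Ne.symm h)]
            simp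
          · rw [indicator_of_notMem (by simpa using h3 (-1) 1),
              indicator_of_notMem (by simpa using h3 (-1) (-1)), up_snd_ne (Ne.symm h)]
            simp
    · exact (integrable_const (1 : ℝ)).indicator (measurableSet_singleton _)
    · exact (integrable_const (1 : ℝ)).indicator (measurableSet_singleton _)
  have hat1 : ∀ d : D, ξ {up d 1} = ENNReal.ofReal ((m.real {(d : Q)} + x.2 d) / 2) := by
    intro d
    have h3 := hsum d
    have h4 := hdiff d
    have h5 : ξ.real {up d 1} = (m.real {(d : Q)} + x.2 d) / 2 := by linarith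
    rw [← h5]
    rw [ofReal_measureReal]
  have hat2 : ∀ d : D, ξ {up d (-1)} = ENNReal.ofReal ((m.real {(d : Q)} - x.2 d) / 2) := by
    intro d
    have h3 := hsum d
    have h4 := hdiff d
    have h5 : ξ.real {up d (-1)} = (m.real {(d : Q)} - x.2 d) / 2 := by linarith
    rw [← h5]
    rw [ofReal_measureReal]
  -- conclusion
  ext B hB
  have hDm := D_measurable
  have hbm : Measurable base := continuous_base.measurable
  unfold rep
  rw [Measure.add_apply, Measure.map_apply hbm hB, Measure.restrict_apply (hbm hB),
    Measure.sum_apply _ hB]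
  have hs1 : ξ (B ∩ sg ⁻¹' Dᶜ) = m (base ⁻¹' B ∩ Dᶜ) := by
    rw [← hmapB _ ((hbm hB).inter hDm.compl)]
    refine measure_congr ?_
    filter_upwards [hae'] with y hy
    refine propext ⟨fun h => ?_, fun h => ?_⟩
    · obtain ⟨h3, h4⟩ := h
      have h4' : sg y ∉ D := h4
      rcases hy with ⟨q, hq, rfl⟩ | ⟨d', hd'⟩
      · change sg (base q) ∈ base ⁻¹' B ∩ Dᶜ
        rw [sg_ev (q := q) rfl]
        exact ⟨h3, hq⟩
      · exfalso
        have h5 : sg y = d' := by
          rcases hd' with rfl | rfl
          · exact sg_ev rfl
          · exact sg_ev rfl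
        exact h4' (h5 ▸ d'.2)
    · have h' : sg y ∈ base ⁻¹' B ∩ Dᶜ := h
      obtain ⟨h3, h4⟩ := h'
      rcases hy with ⟨q, hq, rfl⟩ | ⟨d', hd'⟩
      · rw [sg_ev (q := q) rfl] at h3
        refine ⟨h3, ?_⟩
        change sg (base q) ∈ Dᶜ
        rw [sg_ev (q := q) rfl]
        exact hq
      · exfalso
        have h5 : sg y = d' := by
          rcases hd' with rfl | rfl
          · exact sg_ev rfl
          · exact sg_ev rfl
        exact h4 (h5 ▸ d'.2)
  have hs2 : ξ (B ∩ sg ⁻¹' D) = ∑' d : D, ξ (B ∩ sg ⁻¹' {(d : Q)}) := by
    have h : B ∩ sg ⁻¹' D = ⋃ d : D, B ∩ sg ⁻¹' {(d : Q)} := by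
      ext y; simp
    rw [h]
    refine measure_iUnion ?_ ?_
    · intro d d' hd
      refine Set.disjoint_left.2 ?_
      rintro q ⟨_, h1⟩ ⟨_, h2⟩
      exact hd (Subtype.ext ((mem_singleton_iff.1 h1).symm.trans (mem_singleton_iff.1 h2)))
    · intro d
      exact hB.inter (sg_measurable (measurableSet_singleton _))
  have hs3 : ∀ d : D, ξ (B ∩ sg ⁻¹' {(d : Q)}) =
      (ENNReal.ofReal ((m.real {(d : Q)} + x.2 d) / 2) • Measure.dirac (up d 1) +
      ENNReal.ofReal ((m.real {(d : Q)} - x.2 d) / 2) • Measure.dirac (up d (-1))) B := by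
    intro d
    rw [Measure.add_apply, Measure.smul_apply, Measure.smul_apply, Measure.dirac_apply' _ hB,
      Measure.dirac_apply' _ hB, ← hat1 d, ← hat2 d]
    have h3 : ξ (B ∩ sg ⁻¹' {(d : Q)}) = ξ (B ∩ ({up d 1} ∪ {up d (-1)})) := by
      refine measure_congr ?_
      filter_upwards [hae'] with y hy
      refine propext ⟨fun h => ?_, fun h => ?_⟩
      · obtain ⟨h0, h'⟩ := h
        have h' : sg y = d := h'
        refine ⟨h0, ?_⟩
        rcases hy with ⟨q, hq, rfl⟩ | ⟨d', hd'⟩
        · exfalso
          rw [sg_ev (q := q) rfl] at h'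
          exact hq (h' ▸ d.2)
        · have h4 : sg y = d' := by
            rcases hd' with rfl | rfl
            · exact sg_ev rfl
            · exact sg_ev rfl
          have h5 : d' = d := Subtype.ext (h4.symm.trans h')
          subst h5
          rcases hd' with rfl | rfl
          · exact Or.inl rfl
          · exact Or.inr rfl
      · obtain ⟨h0, h⟩ := h
        refine ⟨h0, ?_⟩
        rcases h with h | h
        · have h' : y = up d 1 := h
          change sg y = d
          rw [h']; exact sg_ev rfl
        · have h' : y = up d (-1) := h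
          change sg y = d
          rw [h']; exact sg_ev rfl
    rw [h3, inter_union_distrib_left, measure_union]
    · have h4 : ∀ z : E, ξ (B ∩ {z}) = ξ {z} * B.indicator 1 z := by
        intro z
        by_cases hz : z ∈ B
        · rw [indicator_of_mem hz, inter_eq_right.2 (by simpa using hz)]
          simp
        · rw [indicator_of_notMem hz]
          have : B ∩ {z} = ∅ := by
            ext w
            simp only [mem_inter_iff, mem_singleton_iff, mem_empty_iff_false, iff_false, not_and]
            rintro h5 rfl
            exact hz h5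
          rw [this]
          simp
      rw [h4, h4]
      simp [smul_eq_mul]
    · refine Set.disjoint_left.2 ?_
      rintro y ⟨_, h5⟩ ⟨_, h6⟩
      exact hne d ((mem_singleton_iff.1 h5).symm.trans (mem_singleton_iff.1 h6))
    · exact hB.inter (measurableSet_singleton _)
  rw [← hs1]
  simp_rw [← hs3]
  rw [← hs2, preimage_compl, add_comm, ← diff_eq]
  exact (measure_inter_add_diff B (sg_measurable hDm)).symm

theorem simplex : IsMetrizableChoquetSimplex K := by
  refine ⟨K_compact, K_convex, inferInstance, ?_⟩
  intro x hx
  obtain ⟨m, hm, h1, h2⟩ := hx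
  have hp := rep_prob h2
  refine ⟨rep m x.2, ⟨hp, rep_conc m x.2, ?_⟩, ?_⟩
  · refine bary_of_coord (rep_conc m x.2) ?_ (rep_coord2 h2)
    intro C
    rw [rep_coord1 h2, h1]
  · intro ξ hξ
    exact unique_rep h1 h2 hξ

end Q70.Lu
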