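import Mathlib

/-!
# Graph matchbox manifolds: the transversal space, orbits and levels
-/

set_option autoImplicit false

open Set Filter Topology

namespace Q70.Mb

/-- The (undirected) Cayley graph of the free group on `n` generators: `g` and `g * aᵢ` are
joined. -/
def cay (n : ℕ) : SimpleGraph (FreeGroup (Fin n)) :=
  SimpleGraph.fromRel fun g h => ∃ i, h = g * FreeGroup.of i

/-- The space `X` of infinite connected induced subtrees of the Cayley graph containing `e`, given
by the indicator functions of their vertex sets, with the topology of pointwise convergence (which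
is the topology for which two trees are close if their balls about `e` of large radius
coincide). -/
def XS (n : ℕ) : Set (FreeGroup (Fin n) → Bool) :=
  {T | T 1 = true ∧ {g | T g = true}.Infinite ∧ ((cay n).induce {g | T g = true}).Connected}

/-- The tree `g⁻¹ T`. -/
def reroot {n : ℕ} (g : FreeGroup (Fin n)) (T : FreeGroup (Fin n) → Bool) :
    FreeGroup (Fin n) → Bool := fun h => T (g * h)

/-- The trace on `X` of the leaf through `T`: all the trees `g⁻¹ T`, where `g` is a vertex of
`T`. -/
def Orb {n : ℕ} (T : XS n) : Set (XS n) := {T' | ∃ g, T.1 g = true ∧ T'.1 = reroot g T.1}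

/-- The level of (the trace on `X` of) a closed saturated set. -/
def IsLevel {n : ℕ} (k : ℕ) (M : Set (XS n)) : Prop :=
  match k with
  | 0 => (∃ T, M = Orb T ∧ M.Finite) ∨ (M.Nonempty ∧ ∀ T ∈ M, closure (Orb T) = M)
  | k + 1 => closure {T | T ∈ M ∧ closure (Orb T) ≠ M} ≠ M ∧
      (∀ T ∈ M, closure (Orb T) ≠ M → ∃ j, ∃ _ : j ≤ k, IsLevel j (closure (Orb T))) ∧
      ∃ T ∈ M, closure (Orb T) ≠ M ∧ IsLevel k (closure (Orb T))
termination_by k

variable {n : ℕ}

theorem reroot_one (T : FreeGroup (Fin n) → Bool) : reroot 1 T = T := by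
  funext h
  simp [reroot]

theorem reroot_mul (g h : FreeGroup (Fin n)) (T : FreeGroup (Fin n) → Bool) :
    reroot (g * h) T = reroot h (reroot g T) := by
  funext k
  simp [reroot, mul_assoc]

theorem cay_adj (g h k : FreeGroup (Fin n)) : (cay n).Adj (g * h) (g * k) ↔ (cay n).Adj h k := by
  unfold cay
  rw [SimpleGraph.fromRel_adj, SimpleGraph.fromRel_adj]
  simp only [mul_assoc, mul_right_inj, ne_eq]

theorem reroot_mem {T : FreeGroup (Fin n) → Bool} (hT : T ∈ XS n) {g : FreeGroup (Fin n)}
    (hg : T g = true) : reroot g T ∈ XS n := by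
  refine ⟨by simpa [reroot] using hg, ?_, ?_⟩
  · have h1 : {h | reroot g T h = true} = (fun h => g * h) ⁻¹' {h | T h = true} := rfl
    rw [h1]
    exact hT.2.1.preimage (by
      intro h _
      exact ⟨g⁻¹ * h, by simp⟩)
  · have e : (cay n).induce {h | reroot g T h = true} ≃g (cay n).induce {h | T h = true} :=
      { toEquiv := Equiv.subtypeEquiv (Equiv.mulLeft g) (fun h => Iff.rfl)
        map_rel_iff' := by
          intro h k
          exact cay_adj g h.1 k.1 }
    exact e.connected_iff.2 hT.2.2

theorem Orb_self (T : XS n) : T ∈ Orb T := ⟨1, T.2.1, by rw [reroot_one]⟩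

theorem Orb_eq {T T' : XS n} (h : T' ∈ Orb T) : Orb T' = Orb T := by
  obtain ⟨g, hg, h1⟩ := h
  ext S
  constructor
  · rintro ⟨h, hh, h2⟩
    refine ⟨g * h, ?_, ?_⟩
    · rw [h1] at hh
      exact hh
    · rw [h2, h1, reroot_mul]
  · rintro ⟨h, hh, h2⟩
    refine ⟨g⁻¹ * h, ?_, ?_⟩
    · rw [h1]
      simpa [reroot] using hh
    · rw [h2, h1, ← reroot_mul]
      simp

theorem level_zero_dense {M : Set (XS n)} (h : IsLevel 0 M) : ∀ T ∈ M, closure (Orb T) = M := by
  rw [IsLevel] at h
  rcases h with ⟨T, hM, hfin⟩ | ⟨-, h⟩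
  · intro T' hT'
    rw [hM] at hT'
    rw [Orb_eq hT', ← hM]
    exact hfin.isClosed.closure_eq
  · exact h

/-- the level is unique -/
theorem level_unique : ∀ (j k : ℕ) (M : Set (XS n)), IsLevel j M → IsLevel k M → j = k := by
  intro j
  induction j using Nat.strong_induction_on with
  | _ j ih =>
    intro k M hj hk
    rcases j with _ | j
    · rcases k with _ | k
      · rfl
      · exfalso
        rw [IsLevel] at hk
        obtain ⟨-, -, T, hT, hne, -⟩ := hk
        exact hne (level_zero_dense hj T hT)
    · rcases k with _ | k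
      · exfalso
        rw [IsLevel] at hj
        obtain ⟨-, -, T, hT, hne, -⟩ := hj
        exact hne (level_zero_dense hk T hT)
      · rw [IsLevel] at hj hk
        obtain ⟨-, hj2, T, hT, hne, hTj⟩ := hj
        obtain ⟨-, hk2, T', hT', hne', hTk⟩ := hk
        -- `j ≤ k` from `T`, `k ≤ j` from `T'`
        obtain ⟨i, hi, h1⟩ := hk2 T hT hne
        have h2 := ih j (by omega) i _ hTj h1
        obtain ⟨i', hi', h1'⟩ := hj2 T' hT' hne'
        have h2' := ih i' (by omega) k _ h1' hTk
        omega

end Q70.Mb
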