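import Pool.Agent.Q70.MbA

/-!
# Decorated lines
-/

set_option autoImplicit false

open Set Filter Topology

namespace Q70.Mb

/-- the free group on two generators -/
abbrev F2 : Type := FreeGroup (Fin 2)

/-- the first generator -/
def ga : F2 := FreeGroup.of 0

/-- the second generator -/
def gb : F2 := FreeGroup.of 1

/-- exponent sum of the first generator -/
def ea : F2 →* Multiplicative ℤ :=
  FreeGroup.lift fun i => if i = 0 then Multiplicative.ofAdd 1 else 1

/-- exponent sum of the second generator -/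
def eb : F2 →* Multiplicative ℤ :=
  FreeGroup.lift fun i => if i = 1 then Multiplicative.ofAdd 1 else 1

theorem ea_ga : ea ga = Multiplicative.ofAdd 1 := by simp [ea, ga]
theorem ea_gb : ea gb = 1 := by simp [ea, gb]
theorem eb_ga : eb ga = 1 := by simp [eb, ga]
theorem eb_gb : eb gb = Multiplicative.ofAdd 1 := by simp [eb, gb]

theorem ofAdd_zpow (m : ℤ) : (Multiplicative.ofAdd (1 : ℤ)) ^ m = Multiplicative.ofAdd m := by
  rw [← ofAdd_zsmul]
  simp

theorem pow_inj {m k : ℤ} (h : ga ^ m = ga ^ k) : m = k := by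
  have h1 := congrArg ea h
  rw [map_zpow, map_zpow, ea_ga, ofAdd_zpow, ofAdd_zpow] at h1
  exact Multiplicative.ofAdd.injective h1

theorem pow_gb_inj {m k : ℤ} (h : ga ^ m * gb = ga ^ k * gb) : m = k :=
  pow_inj (mul_right_cancel h)

theorem pow_ne_pow_gb (m k : ℤ) : ga ^ m ≠ ga ^ k * gb := by
  intro h
  have h1 := congrArg eb h
  rw [map_zpow, map_mul, map_zpow, eb_ga, eb_gb, one_zpow, one_zpow, one_mul] at h1
  have h2 := Multiplicative.ofAdd.injective (a₁ := 0) h1
  exact absurd h2 (by norm_num)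

theorem gb_ga_ne : gb * ga ≠ ga * gb := by decide

open Classical in
/-- The decorated line: the vertices are `a ^ m` for all `m`, and `a ^ m * b` for `x m = 1`. -/
noncomputable def tr (x : ℤ → Bool) : F2 → Bool :=
  fun g => decide (∃ m : ℤ, g = ga ^ m ∨ (g = ga ^ m * gb ∧ x m = true))

theorem tr_iff (x : ℤ → Bool) (g : F2) :
    tr x g = true ↔ ∃ m : ℤ, g = ga ^ m ∨ (g = ga ^ m * gb ∧ x m = true) := by
  classical
  unfold tr
  rw [decide_eq_true_iff]

theorem tr_pow (x : ℤ → Bool) (m : ℤ) : tr x (ga ^ m) = true := (tr_iff _ _).2 ⟨m, Or.inl rfl⟩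

theorem tr_pow_gb (x : ℤ → Bool) (m : ℤ) : tr x (ga ^ m * gb) = x m := by
  rw [Bool.eq_iff_iff, tr_iff]
  constructor
  · rintro ⟨k, h | ⟨h, h1⟩⟩
    · exact absurd h.symm (pow_ne_pow_gb k m)
    · rw [pow_gb_inj h]
      exact h1
  · intro h
    exact ⟨m, Or.inr ⟨rfl, h⟩⟩

theorem tr_other (x : ℤ → Bool) {g : F2} (h1 : ¬ ∃ m : ℤ, g = ga ^ m)
    (h2 : ¬ ∃ m : ℤ, g = ga ^ m * gb) : tr x g = false := by
  rw [← Bool.not_eq_true, tr_iff]
  rintro ⟨m, h | ⟨h, -⟩⟩
  · exact h1 ⟨m, h⟩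
  · exact h2 ⟨m, h⟩

theorem tr_inj {x y : ℤ → Bool} (h : tr x = tr y) : x = y := by
  funext m
  rw [← tr_pow_gb x m, h, tr_pow_gb]

theorem tr_ne_reroot (x y : ℤ → Bool) : tr x ≠ reroot gb (tr y) := by
  intro h
  have h1 := congrFun h ga
  have h2 : tr x ga = true := by simpa using tr_pow x 1
  rw [h2] at h1
  have h3 : tr y (gb * ga) = true := h1.symm
  rw [tr_iff] at h3
  obtain ⟨m, h | ⟨h, -⟩⟩ := h3
  · have h4 := congrArg eb h
    rw [map_mul, map_zpow, eb_ga, eb_gb, one_zpow, mul_one] at h4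
    exact absurd (Multiplicative.ofAdd.injective (a₂ := 0) h4) (by norm_num)
  · have h4 := congrArg ea h
    rw [map_mul, map_mul, map_zpow, ea_ga, ea_gb, ofAdd_zpow, mul_one, one_mul] at h4
    have h5 : (1 : ℤ) = m := Multiplicative.ofAdd.injective h4
    rw [← h5, zpow_one] at h
    exact gb_ga_ne h

theorem reroot_inj {x y : F2 → Bool} {g : F2} (h : reroot g x = reroot g y) : x = y := by
  have h1 := congrArg (reroot g⁻¹) h
  rwa [← reroot_mul, ← reroot_mul, mul_inv_cancel, reroot_one, reroot_one] at h1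

/-- decorated lines belong to `X` -/
theorem tr_mem (x : ℤ → Bool) : tr x ∈ XS 2 := by
  refine ⟨by simpa using tr_pow x 0, ?_, ?_⟩
  · refine Set.infinite_of_injective_forall_mem (f := fun m : ℤ => ga ^ m)
      (fun m k h => pow_inj h) fun m => tr_pow x m
  · have hadj1 : ∀ m : ℤ, (cay 2).Adj (ga ^ m) (ga ^ (m + 1)) := by
      intro m
      unfold cay
      rw [SimpleGraph.fromRel_adj]
      refine ⟨fun h => ?_, Or.inl ⟨0, ?_⟩⟩
      · have := pow_inj h
        omega
      · rw [zpow_add, zpow_one]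
        rfl
    have hadj2 : ∀ m : ℤ, (cay 2).Adj (ga ^ m) (ga ^ m * gb) := by
      intro m
      unfold cay
      rw [SimpleGraph.fromRel_adj]
      exact ⟨pow_ne_pow_gb m m, Or.inl ⟨1, rfl⟩⟩
    set G := (cay 2).induce {g | tr x g = true} with hG
    have hline : ∀ m : ℤ, G.Reachable ⟨ga ^ (0 : ℤ), tr_pow x 0⟩ ⟨ga ^ m, tr_pow x m⟩ := by
      intro m
      induction m using Int.induction_on with
      | zero => exact SimpleGraph.Reachable.refl _
      | succ m ih =>
        refine ih.trans (SimpleGraph.Adj.reachable ?_)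
        exact hadj1 m
      | pred m ih =>
        refine ih.trans (SimpleGraph.Adj.reachable ?_)
        have h1 := hadj1 (-(m : ℤ) - 1)
        rw [sub_add_cancel] at h1
        exact h1.symm
    rw [SimpleGraph.connected_iff_exists_forall_reachable]
    refine ⟨⟨ga ^ (0 : ℤ), tr_pow x 0⟩, ?_⟩
    rintro ⟨g, hg⟩
    obtain ⟨m, h | ⟨h, h1⟩⟩ := (tr_iff _ _).1 hg
    · subst h
      exact hline m
    · subst h
      refine (hline m).trans (SimpleGraph.Adj.reachable ?_)
      exact hadj2 m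

/-- the shift -/
def shf (m : ℤ) (x : ℤ → Bool) : ℤ → Bool := fun k => x (m + k)

theorem shf_zero (x : ℤ → Bool) : shf 0 x = x := by
  funext k
  simp [shf]

theorem shf_shf (m k : ℤ) (x : ℤ → Bool) : shf m (shf k x) = shf (k + m) x := by
  funext j
  simp [shf, add_assoc]

theorem reroot_pow (m : ℤ) (x : ℤ → Bool) : reroot (ga ^ m) (tr x) = tr (shf m x) := by
  funext g
  rw [Bool.eq_iff_iff]
  change tr x (ga ^ m * g) = true ↔ _
  rw [tr_iff, tr_iff]
  constructor
  · rintro ⟨k, h | ⟨h, h1⟩⟩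
    · refine ⟨k - m, Or.inl ?_⟩
      have h2 : g = ga ^ (-m) * (ga ^ m * g) := by rw [← mul_assoc, ← zpow_add]; simp
      rw [h2, h, ← zpow_add]
      congr 1
      ring
    · refine ⟨k - m, Or.inr ⟨?_, ?_⟩⟩
      · have h2 : g = ga ^ (-m) * (ga ^ m * g) := by rw [← mul_assoc, ← zpow_add]; simp
        rw [h2, h, ← mul_assoc, ← zpow_add]
        congr 2
        ring
      · simpa [shf] using h1
  · rintro ⟨k, h | ⟨h, h1⟩⟩
    · exact ⟨m + k, Or.inl (by rw [h, zpow_add])⟩
    · exact ⟨m + k, Or.inr ⟨by rw [h, zpow_add, mul_assoc], h1⟩⟩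

/-- the tree of `x` as a point of `X` -/
noncomputable def TR (x : ℤ → Bool) : XS 2 := ⟨tr x, tr_mem x⟩

/-- the orbit of a sequence -/
def orb (x : ℤ → Bool) : Set (ℤ → Bool) := Set.range fun m => shf m x

theorem Orb_TR (x : ℤ → Bool) : Orb (TR x) =
    {T | ∃ y ∈ orb x, T.1 = tr y ∨ (T.1 = reroot gb (tr y) ∧ y 0 = true)} := by
  ext T
  constructor
  · rintro ⟨g, hg, h1⟩
    obtain ⟨m, h | ⟨h, h2⟩⟩ := (tr_iff _ _).1 hg
    · refine ⟨shf m x, ⟨m, rfl⟩, Or.inl ?_⟩
      rw [h1, h]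
      exact reroot_pow m x
    · refine ⟨shf m x, ⟨m, rfl⟩, Or.inr ⟨?_, ?_⟩⟩
      · rw [h1, h, reroot_mul]
        change reroot gb (reroot (ga ^ m) (tr x)) = _
        rw [reroot_pow]
      · simpa [shf] using h2
  · rintro ⟨y, ⟨m, rfl⟩, h | ⟨h, h2⟩⟩
    · refine ⟨ga ^ m, tr_pow x m, ?_⟩
      rw [h]
      exact (reroot_pow m x).symm
    · refine ⟨ga ^ m * gb, ?_, ?_⟩
      · change tr x _ = true
        rw [tr_pow_gb]
        simpa [shf] using h2
      · rw [h, reroot_mul]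
        change _ = reroot gb (reroot (ga ^ m) (tr x))
        rw [reroot_pow]

/-- the saturated set of a set of sequences -/
def Psi (K : Set (ℤ → Bool)) : Set (XS 2) :=
  {T | ∃ y ∈ K, T.1 = tr y ∨ (T.1 = reroot gb (tr y) ∧ y 0 = true)}

theorem continuous_tr : Continuous tr := by
  refine continuous_pi fun g => ?_
  by_cases h1 : ∃ m : ℤ, g = ga ^ m
  · obtain ⟨m, rfl⟩ := h1
    simp_rw [tr_pow]
    exact continuous_const
  · by_cases h2 : ∃ m : ℤ, g = ga ^ m * gb
    · obtain ⟨m, rfl⟩ := h2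
      simp_rw [tr_pow_gb]
      exact continuous_apply m
    · simp_rw [tr_other _ h1 h2]
      exact continuous_const

theorem continuous_reroot (g : F2) : Continuous (reroot g) :=
  continuous_pi fun h => continuous_apply (g * h)

theorem isClosed_Psi {K : Set (ℤ → Bool)} (hK : IsClosed K) : IsClosed (Psi K) := by
  have h1 : Psi K = Subtype.val ⁻¹' (tr '' K ∪ (fun y => reroot gb (tr y)) ''
      (K ∩ {y | y 0 = true})) := by
    ext T
    simp only [Psi, Set.mem_ofPred_eq, mem_preimage, mem_union, mem_image, mem_inter_iff]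
    constructor
    · rintro ⟨y, hy, h | ⟨h, h2⟩⟩
      · exact Or.inl ⟨y, hy, h.symm⟩
      · exact Or.inr ⟨y, ⟨hy, h2⟩, h.symm⟩
    · rintro (⟨y, hy, h⟩ | ⟨y, ⟨hy, h2⟩, h⟩)
      · exact ⟨y, hy, Or.inl h.symm⟩
      · exact ⟨y, hy, Or.inr ⟨h.symm, h2⟩⟩
  rw [h1]
  refine IsClosed.preimage continuous_subtype_val (IsClosed.union ?_ ?_)
  · exact (hK.isCompact.image continuous_tr).isClosed
  · have h2 : IsClosed {y : ℤ → Bool | y 0 = true} :=
      (isClosed_discrete ({true} : Set Bool)).preimage (continuous_apply (A := fun _ : ℤ => Bool) 0)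
    exact ((hK.inter h2).isCompact.image ((continuous_reroot gb).comp continuous_tr)).isClosed

/-- the closure of the orbit of a decorated line -/
theorem closure_Orb_TR (x : ℤ → Bool) : closure (Orb (TR x)) = Psi (closure (orb x)) := by
  apply Subset.antisymm
  · refine closure_minimal ?_ (isClosed_Psi isClosed_closure)
    rw [Orb_TR]
    rintro T ⟨y, hy, h⟩
    exact ⟨y, subset_closure hy, h⟩
  · rintro T ⟨y, hy, h | ⟨h, h2⟩⟩
    · rw [closure_subtype, h]
      refine map_mem_closure continuous_tr hy ?_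
      intro z hz
      refine ⟨TR z, ?_, rfl⟩
      rw [Orb_TR]
      exact ⟨z, hz, Or.inl rfl⟩
    · rw [closure_subtype, h]
      have hopen : IsOpen {y : ℤ → Bool | y 0 = true} :=
        (isOpen_discrete ({true} : Set Bool)).preimage (continuous_apply (A := fun _ : ℤ => Bool) 0)
      have h3 : y ∈ closure ({y : ℤ → Bool | y 0 = true} ∩ orb x) :=
        hopen.inter_closure ⟨h2, hy⟩
      refine map_mem_closure (f := fun y => reroot gb (tr y))
        ((continuous_reroot gb).comp continuous_tr) h3 ?_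
      rintro z ⟨hz0, hz⟩
      have hm : reroot gb (tr z) ∈ XS 2 := reroot_mem (tr_mem z) (by
        have := tr_pow_gb z 0
        rw [zpow_zero, one_mul] at this
        rw [this]
        exact hz0)
      refine ⟨⟨reroot gb (tr z), hm⟩, ?_, rfl⟩
      rw [Orb_TR]
      exact ⟨z, hz, Or.inr ⟨rfl, hz0⟩⟩

theorem closure_Orb_mem {T : XS 2} {y : ℤ → Bool}
    (h : T.1 = tr y ∨ (T.1 = reroot gb (tr y) ∧ y 0 = true)) :
    closure (Orb T) = Psi (closure (orb y)) := by
  have h1 : T ∈ Orb (TR y) := by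
    rw [Orb_TR]
    exact ⟨y, ⟨0, shf_zero y⟩, h⟩
  rw [Orb_eq h1, closure_Orb_TR]

theorem Psi_sub {K K' : Set (ℤ → Bool)} (h : Psi K ⊆ Psi K') : K ⊆ K' := by
  intro y hy
  obtain ⟨z, hz, h1 | ⟨h1, -⟩⟩ := h (⟨y, hy, Or.inl rfl⟩ : TR y ∈ Psi K)
  · rwa [tr_inj h1]
  · exact absurd h1 (tr_ne_reroot y z)

theorem Psi_inj {K K' : Set (ℤ → Bool)} (h : Psi K = Psi K') : K = K' :=
  Subset.antisymm (Psi_sub h.le) (Psi_sub h.ge)

theorem Psi_mono {K K' : Set (ℤ → Bool)} (h : K ⊆ K') : Psi K ⊆ Psi K' := by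
  rintro T ⟨y, hy, h1⟩
  exact ⟨y, h hy, h1⟩

end Q70.Mb
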