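import Pool.Agent.Q70.MbB

/-!
# The hierarchical sequences
-/

set_option autoImplicit false

open Set Filter Topology

namespace Q70.Mb

/-! ### Closures of orbits of two-sided sequences -/

theorem mem_closure_iff_finset {A : Set (ℤ → Bool)} {y : ℤ → Bool} :
    y ∈ closure A ↔ ∀ F : Finset ℤ, ∃ z ∈ A, ∀ m ∈ F, z m = y m := by
  rw [mem_closure_iff]
  constructor
  · intro h F
    have hopen : IsOpen {z : ℤ → Bool | ∀ m ∈ F, z m = y m} := by
      have : {z : ℤ → Bool | ∀ m ∈ F, z m = y m} = ⋂ m ∈ F, {z : ℤ → Bool | z m = y m} := by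
        ext z; simp
      rw [this]
      refine isOpen_biInter_finset fun m _ => ?_
      exact (isOpen_discrete ({y m} : Set Bool)).preimage
        (continuous_apply (A := fun _ : ℤ => Bool) m)
    obtain ⟨z, hz1, hz2⟩ := h _ hopen (fun m _ => rfl)
    exact ⟨z, hz2, hz1⟩
  · intro h O hO hy
    rw [isOpen_pi_iff] at hO
    obtain ⟨F, u, hu, hsub⟩ := hO y hy
    obtain ⟨z, hz, hzF⟩ := h F
    refine ⟨z, hsub ?_, hz⟩
    intro m hm
    rw [hzF m hm]
    exact (hu m hm).2

/-- agreement on a window -/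
def Ag (R : ℕ) (x y : ℤ → Bool) : Prop := ∀ m : ℤ, m.natAbs ≤ R → x m = y m

theorem mem_closure_iff_Ag {A : Set (ℤ → Bool)} {y : ℤ → Bool} :
    y ∈ closure A ↔ ∀ R : ℕ, ∃ z ∈ A, Ag R z y := by
  rw [mem_closure_iff_finset]
  constructor
  · intro h R
    obtain ⟨z, hz, h1⟩ := h (Finset.Icc (-(R : ℤ)) R)
    refine ⟨z, hz, fun m hm => h1 m ?_⟩
    rw [Finset.mem_Icc]
    omega
  · intro h F
    obtain ⟨z, hz, h1⟩ := h (F.sup Int.natAbs)
    refine ⟨z, hz, fun m hm => h1 m ?_⟩
    have h2 : Int.natAbs m ≤ F.sup Int.natAbs := Finset.le_sup (f := Int.natAbs) hm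
    omega

/-- the limit set at infinity -/
def Lam (x : ℤ → Bool) : Set (ℤ → Bool) := {y | ∀ R : ℕ, ∃ t : ℤ, R ≤ t.natAbs ∧ Ag R (shf t x) y}

theorem orb_self (x : ℤ → Bool) : x ∈ orb x := ⟨0, shf_zero x⟩

theorem orb_shf {x : ℤ → Bool} (t : ℤ) : orb (shf t x) = orb x := by
  ext y
  constructor
  · rintro ⟨m, rfl⟩
    exact ⟨t + m, (shf_shf m t x).symm⟩
  · rintro ⟨m, rfl⟩
    refine ⟨m - t, ?_⟩
    change shf (m - t) (shf t x) = shf m x
    rw [shf_shf]
    congr 1
    ring

theorem Lam_sub (x : ℤ → Bool) : Lam x ⊆ closure (orb x) := by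
  intro y hy
  rw [mem_closure_iff_Ag]
  intro R
  obtain ⟨t, -, h⟩ := hy R
  exact ⟨shf t x, ⟨t, rfl⟩, h⟩

theorem closure_orb (x : ℤ → Bool) : closure (orb x) = orb x ∪ Lam x := by
  apply Subset.antisymm
  · intro y hy
    by_contra hno
    rw [mem_union, not_or] at hno
    obtain ⟨h1, h2⟩ := hno
    have h3 : ∃ R : ℕ, ∀ t : ℤ, R ≤ t.natAbs → ¬ Ag R (shf t x) y := by
      by_contra hno
      push Not at hno
      exact h2 fun R => hno R
    obtain ⟨R, hR⟩ := h3
    have h4 : ∀ t : ℤ, ∃ m : ℤ, shf t x m ≠ y m := by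
      intro t
      by_contra hno
      push Not at hno
      exact h1 ⟨t, funext hno⟩
    choose m hm using h4
    rw [mem_closure_iff_Ag] at hy
    obtain ⟨z, ⟨t, rfl⟩, hz⟩ := hy (R + (Finset.Icc (-(R : ℤ)) R).sup fun t => Int.natAbs (m t))
    by_cases ht : R ≤ t.natAbs
    · refine hR t ht fun k hk => hz k ?_
      omega
    · push Not at ht
      refine hm t (hz (m t) ?_)
      have h5 : t ∈ Finset.Icc (-(R : ℤ)) R := by
        rw [Finset.mem_Icc]
        omega
      have h6 := Finset.le_sup (f := fun t => Int.natAbs (m t)) h5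
      omega
  · exact union_subset subset_closure (Lam_sub x)

theorem closure_orb_mono {x y : ℤ → Bool} (h : y ∈ closure (orb x)) :
    closure (orb y) ⊆ closure (orb x) := by
  refine closure_minimal ?_ isClosed_closure
  rintro z ⟨t, rfl⟩
  have hc : Continuous (shf t) := continuous_pi fun k => continuous_apply (t + k)
  refine map_mem_closure hc h ?_
  rintro w ⟨m, rfl⟩
  exact ⟨m + t, (shf_shf t m x).symm⟩

theorem Lam_shf (x : ℤ → Bool) (t : ℤ) : Lam (shf t x) ⊆ Lam x := by
  intro y hy R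
  obtain ⟨s, hs, h⟩ := hy (R + Int.natAbs t)
  refine ⟨t + s, ?_, ?_⟩
  · omega
  · rw [shf_shf] at h
    intro m hm
    refine h m ?_
    omega

/-! ### The sets `S_k` -/

/-- `Pk k m` : `m` is a sum of `k - 1` distinct powers of two (never for `k = 0`). -/
def Pk : ℕ → ℕ → Prop
  | 0, _ => False
  | 1, m => m = 0
  | k + 2, m => ∃ n t, t < 2 ^ n ∧ Pk (k + 1) t ∧ m = 2 ^ n + t

open Classical in
/-- the sequence of level `k` -/
noncomputable def sq (k : ℕ) : ℤ → Bool := fun m => decide (0 ≤ m ∧ Pk k m.toNat)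

theorem sq_iff (k : ℕ) (m : ℤ) : sq k m = true ↔ 0 ≤ m ∧ Pk k m.toNat := by
  classical
  unfold sq
  rw [decide_eq_true_iff]

theorem Pk_step {k n t : ℕ} (ht : t < 2 ^ n) : Pk (k + 2) (2 ^ n + t) ↔ Pk (k + 1) t := by
  constructor
  · rintro ⟨n', t', h1, h2, h3⟩
    have hn : n = n' := by
      rcases lt_trichotomy n n' with h | h | h
      · have h4 : 2 ^ (n + 1) ≤ 2 ^ n' := Nat.pow_le_pow_right (by norm_num) h
        rw [pow_succ] at h4
        omega
      · exact h
      · have h4 : 2 ^ (n' + 1) ≤ 2 ^ n := Nat.pow_le_pow_right (by norm_num) h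
        rw [pow_succ] at h4
        omega
    subst hn
    have : t = t' := by omega
    rwa [this]
  · intro h
    exact ⟨n, t, ht, h, rfl⟩

theorem Pk_sub (k : ℕ) : ∀ (n r : ℕ), 0 < r → r < 2 ^ n → ¬ Pk (k + 1) (2 ^ (n + k) - r) := by
  induction k with
  | zero =>
    intro n r hr hrn h
    change 2 ^ (n + 0) - r = 0 at h
    rw [add_zero] at h
    omega
  | succ k ih =>
    intro n r hr hrn h
    have h1 : 2 ^ n ≤ 2 ^ (n + k) := Nat.pow_le_pow_right (by norm_num) (by omega)
    have h2 : 2 ^ (n + (k + 1)) = 2 * 2 ^ (n + k) := by ring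
    have h3 : 2 ^ (n + (k + 1)) - r = 2 ^ (n + k) + (2 ^ (n + k) - r) := by omega
    rw [h3, Pk_step (by omega)] at h
    exact ih n r hr hrn h

/-- comparison of consecutive levels near the powers of two -/
theorem sq_near {k n R : ℕ} (hn : R + k + 1 ≤ n) {z : ℤ} (h1 : -(R : ℤ) ≤ z)
    (h2 : z < 2 ^ n) : sq (k + 2) (2 ^ n + z) = sq (k + 1) z := by
  have hRn : (R : ℕ) < 2 ^ (n - k - 1) :=
    lt_of_lt_of_le Nat.lt_two_pow_self (Nat.pow_le_pow_right (by norm_num) (by omega))
  have hle : 2 ^ (n - k - 1) ≤ 2 ^ n := Nat.pow_le_pow_right (by norm_num) (by omega)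
  rw [Bool.eq_iff_iff, sq_iff, sq_iff]
  rcases lt_or_ge z 0 with hz | hz
  · constructor
    · rintro ⟨h3, h4⟩
      exfalso
      have h5 : ((2 : ℤ) ^ n + z).toNat = 2 ^ (n - k - 1 + (k + 1)) - z.natAbs := by
        have h6 : n - k - 1 + (k + 1) = n := by omega
        rw [h6]
        have h7 : ((2 ^ n : ℕ) : ℤ) = (2 : ℤ) ^ n := by push_cast; rfl
        rw [← h7] at h3 ⊢
        omega
      rw [h5] at h4
      exact Pk_sub (k + 1) (n - k - 1) z.natAbs (by omega) (by omega) h4
    · rintro ⟨h3, -⟩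
      omega
  · obtain ⟨t, rfl⟩ := Int.eq_ofNat_of_zero_le hz
    have ht : t < 2 ^ n := by exact_mod_cast h2
    have h5 : ((2 : ℤ) ^ n + (t : ℤ)).toNat = 2 ^ n + t := by
      have : (2 : ℤ) ^ n + (t : ℤ) = ((2 ^ n + t : ℕ) : ℤ) := by push_cast; ring
      rw [this, Int.toNat_natCast]
    rw [h5, Int.toNat_natCast, Pk_step ht]
    constructor
    · rintro ⟨-, h⟩
      exact ⟨hz, h⟩
    · rintro ⟨-, h⟩
      exact ⟨by positivity, h⟩

theorem sq_zero : sq 0 = fun _ => false := by
  funext m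
  rw [← Bool.not_eq_true, sq_iff]
  rintro ⟨-, h⟩
  exact h

theorem orb_zero : orb (fun _ => false) = {fun _ => false} := by
  ext y
  constructor
  · rintro ⟨m, rfl⟩
    rfl
  · rintro rfl
    exact ⟨0, rfl⟩

theorem zero_mem (k : ℕ) : (fun _ => false) ∈ closure (orb (sq k)) := by
  rw [mem_closure_iff_Ag]
  intro R
  refine ⟨shf (-(R : ℤ) - 1) (sq k), ⟨_, rfl⟩, fun m hm => ?_⟩
  change sq k (-(R : ℤ) - 1 + m) = false
  rw [← Bool.not_eq_true, sq_iff]
  rintro ⟨h, -⟩
  omega

theorem mem_Lam (k : ℕ) : sq (k + 1) ∈ Lam (sq (k + 2)) := by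
  intro R
  refine ⟨2 ^ (R + k + 1), ?_, ?_⟩
  · have h1 : (R : ℕ) < 2 ^ (R + k + 1) :=
      lt_of_lt_of_le Nat.lt_two_pow_self (Nat.pow_le_pow_right (by norm_num) (by omega))
    have h2 : (R : ℤ) < 2 ^ (R + k + 1) := by exact_mod_cast h1
    omega
  · intro m hm
    have h1 : (R : ℕ) < 2 ^ (R + k + 1) :=
      lt_of_lt_of_le Nat.lt_two_pow_self (Nat.pow_le_pow_right (by norm_num) (by omega))
    have h2 : (R : ℤ) < 2 ^ (R + k + 1) := by exact_mod_cast h1
    exact sq_near (k := k) (n := R + k + 1) (R := R) le_rfl (by omega) (by omega)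

theorem Lam_succ (k : ℕ) : Lam (sq (k + 1)) ⊆ closure (orb (sq k)) := by
  intro y hy
  by_cases hy0 : ∀ m, y m = false
  · have : y = fun _ => false := funext hy0
    rw [this]
    exact zero_mem k
  push Not at hy0
  obtain ⟨m0, hm0⟩ := hy0
  have hm0 : y m0 = true := by simpa using hm0
  rcases k with _ | k
  · -- `k = 0`
    exfalso
    obtain ⟨t, ht, h⟩ := hy (2 * Int.natAbs m0 + 1)
    have h1 := h m0 (by omega)
    rw [hm0] at h1
    change sq 1 (t + m0) = true at h1
    rw [sq_iff] at h1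
    have h2 : (t + m0).toNat = 0 := h1.2
    omega
  · rw [mem_closure_iff_Ag]
    intro R
    set R1 : ℕ := R + Int.natAbs m0 with hR1
    obtain ⟨t, ht, h⟩ := hy (2 ^ (R1 + k + 2) + R1)
    have hp : 0 < 2 ^ (R1 + k + 2) := by positivity
    have h1 := h m0 (by omega)
    rw [hm0] at h1
    change sq (k + 2) (t + m0) = true at h1
    rw [sq_iff] at h1
    obtain ⟨hu0, n, t', ht', hPt, hu⟩ := h1
    have hun : (t + m0) = 2 ^ n + (t' : ℤ) := by
      have h2 := Int.toNat_of_nonneg hu0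
      rw [← h2, hu]
      push_cast
      ring
    have hun' : 2 ^ (R1 + k + 2) ≤ 2 ^ n + t' := by
      have h2 : ((2 ^ n + t' : ℕ) : ℤ) = t + m0 := by
        rw [hun]
        push_cast
        ring
      omega
    have hn : R1 + k + 2 ≤ n := by
      by_contra hlt
      push Not at hlt
      have h3 : 2 ^ (n + 1) ≤ 2 ^ (R1 + k + 2) := Nat.pow_le_pow_right (by norm_num) hlt
      rw [pow_succ] at h3
      omega
    refine ⟨shf ((t' : ℤ) - m0) (sq (k + 1)), ⟨_, rfl⟩, fun m hm => ?_⟩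
    have h4 := h m (by omega)
    rw [← h4]
    change sq (k + 1) ((t' : ℤ) - m0 + m) = sq (k + 2) (t + m)
    have h5 : t + m = 2 ^ n + ((t' : ℤ) - m0 + m) := by linarith
    rw [h5]
    symm
    refine sq_near (R := R1) (by omega) (by omega) ?_
    -- the upper bound
    by_contra hge
    push Not at hge
    have h6 : (2 : ℤ) ^ n ≤ t' + R1 := by
      have : (t' : ℤ) - m0 + m ≤ t' + R1 := by omega
      linarith
    have h7 : 2 ^ n ≤ t' + R1 := by exact_mod_cast h6
    have h8 : t' = 2 ^ (n - k + k) - (2 ^ n - t') := by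
      have : n - k + k = n := by omega
      rw [this]
      omega
    rw [h8] at hPt
    have h9 : R1 < 2 ^ (n - k) :=
      lt_of_lt_of_le Nat.lt_two_pow_self (Nat.pow_le_pow_right (by norm_num) (by omega))
    exact Pk_sub k (n - k) (2 ^ n - t') (by omega) (by omega) hPt

theorem closure_mono_succ (k : ℕ) : closure (orb (sq k)) ⊆ closure (orb (sq (k + 1))) := by
  rcases k with _ | k
  · rw [sq_zero, orb_zero, closure_singleton]
    rw [singleton_subset_iff]
    exact zero_mem 1
  · exact closure_orb_mono (Lam_sub _ (mem_Lam k))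

theorem closure_succ (k : ℕ) : closure (orb (sq (k + 1))) =
    orb (sq (k + 1)) ∪ closure (orb (sq k)) := by
  apply Subset.antisymm
  · rw [closure_orb]
    exact union_subset_union_right _ (Lam_succ k)
  · exact union_subset subset_closure (closure_mono_succ k)

theorem mem_closure_sq {k : ℕ} {y : ℤ → Bool} (hy : y ∈ closure (orb (sq k))) :
    ∃ j ≤ k, y ∈ orb (sq j) := by
  induction k with
  | zero =>
    rw [sq_zero, orb_zero, closure_singleton, mem_singleton_iff] at hy
    refine ⟨0, le_rfl, ?_⟩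
    rw [hy, sq_zero]
    exact orb_self _
  | succ k ih =>
    rw [closure_succ] at hy
    rcases hy with hy | hy
    · exact ⟨k + 1, le_rfl, hy⟩
    · obtain ⟨j, hj, h⟩ := ih hy
      exact ⟨j, by omega, h⟩

theorem closure_mono {j k : ℕ} (h : j ≤ k) : closure (orb (sq j)) ⊆ closure (orb (sq k)) := by
  induction k with
  | zero =>
    have : j = 0 := by omega
    rw [this]
  | succ k ih =>
    rcases Nat.lt_or_ge k j with h1 | h1
    · have : j = k + 1 := by omega
      rw [this]
    · exact (ih h1).trans (closure_mono_succ k)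

/-- the levels are different -/
theorem sq_not_mem (k : ℕ) : sq (k + 1) ∉ closure (orb (sq k)) := by
  induction k with
  | zero =>
    rw [sq_zero, orb_zero, closure_singleton, mem_singleton_iff]
    intro h
    have h1 := congrFun h 0
    have h2 : sq 1 0 = true := (sq_iff _ _).2 ⟨le_rfl, rfl⟩
    rw [h2] at h1
    exact absurd h1 (by decide)
  | succ k ih =>
    intro h
    rw [closure_succ] at h
    rcases h with ⟨t, ht⟩ | h
    · have h1 := mem_Lam k
      rw [← ht] at h1
      exact ih (Lam_succ k (Lam_shf _ t h1))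
    · have h1 : sq (k + 1) ∈ closure (orb (sq (k + 2))) := Lam_sub _ (mem_Lam k)
      exact ih (closure_orb_mono h h1)

end Q70.Mb
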