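import Pool.Agent.Q70.MbC

/-!
# Levels of the decorated lines
-/

set_option autoImplicit false

open Set Filter Topology

namespace Q70.Mb

theorem Psi_level (k : ℕ) : IsLevel k (Psi (closure (orb (sq k)))) := by
  induction k using Nat.strong_induction_on with
  | _ k ih =>
    rcases k with _ | k
    · rw [IsLevel]
      right
      refine ⟨⟨TR (sq 0), sq 0, subset_closure (orb_self _), Or.inl rfl⟩, ?_⟩
      rintro T ⟨y, hy, h⟩
      rw [closure_Orb_mem h]
      have h1 : y = sq 0 := by
        rw [sq_zero, orb_zero, closure_singleton, mem_singleton_iff] at hy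
        rw [hy, sq_zero]
      rw [h1]
    · rw [IsLevel]
      -- the non-dense leaves
      have hnd : ∀ T : XS 2, T ∈ Psi (closure (orb (sq (k + 1)))) →
          closure (Orb T) ≠ Psi (closure (orb (sq (k + 1)))) →
          ∃ y ∈ closure (orb (sq k)), T.1 = tr y ∨ (T.1 = reroot gb (tr y) ∧ y 0 = true) := by
        rintro T ⟨y, hy, h⟩ hne
        refine ⟨y, ?_, h⟩
        rw [closure_succ] at hy
        rcases hy with ⟨t, ht⟩ | hy
        · exfalso
          apply hne
          have ht' : shf t (sq (k + 1)) = y := ht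
          rw [closure_Orb_mem h, ← ht', orb_shf]
        · exact hy
      have hpsi : Psi (closure (orb (sq k))) ≠ Psi (closure (orb (sq (k + 1)))) := by
        intro h
        have h1 := Psi_inj h
        have h2 : sq (k + 1) ∈ closure (orb (sq k)) := by
          rw [h1]
          exact subset_closure (orb_self _)
        exact sq_not_mem k h2
      have hne : ∀ T : XS 2, T ∈ Psi (closure (orb (sq k))) →
          closure (Orb T) ≠ Psi (closure (orb (sq (k + 1)))) := by
        rintro T ⟨y, hy, h⟩ h1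
        rw [closure_Orb_mem h] at h1
        have h2 := Psi_inj h1
        have h3 : sq (k + 1) ∈ closure (orb y) := by
          rw [h2]
          exact subset_closure (orb_self _)
        exact sq_not_mem k (closure_orb_mono hy h3)
      have hset : {T : XS 2 | T ∈ Psi (closure (orb (sq (k + 1)))) ∧
          closure (Orb T) ≠ Psi (closure (orb (sq (k + 1))))} = Psi (closure (orb (sq k))) := by
        ext T
        constructor
        · rintro ⟨h1, h2⟩
          exact hnd T h1 h2
        · intro h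
          exact ⟨Psi_mono (closure_mono_succ k) h, hne T h⟩
      refine ⟨?_, ?_, ?_⟩
      · rw [hset, (isClosed_Psi isClosed_closure).closure_eq]
        exact hpsi
      · intro T hT hTne
        obtain ⟨y, hy, h⟩ := hnd T hT hTne
        obtain ⟨j, hj, t, ht⟩ := mem_closure_sq hy
        refine ⟨j, hj, ?_⟩
        have ht' : shf t (sq j) = y := ht
        rw [closure_Orb_mem h, ← ht', orb_shf]
        exact ih j (by omega)
      · refine ⟨TR (sq k), ⟨sq k, ?_, Or.inl rfl⟩, ?_, ?_⟩
        · exact closure_mono_succ k (subset_closure (orb_self _))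
        · exact hne _ ⟨sq k, subset_closure (orb_self _), Or.inl rfl⟩
        · rw [closure_Orb_TR]
          exact ih k (by omega)

/-! ### The sequence of infinite level -/

open Classical in
/-- the window `[2 ^ n, 2 ^ (n + 1))` is empty for odd `n` and shows the sequence of level
`(n / 2).unpair.1` for even `n` -/
noncomputable def xs : ℤ → Bool := fun m => decide (1 ≤ m ∧ Nat.log 2 m.toNat % 2 = 0 ∧
  sq (Nat.log 2 m.toNat / 2).unpair.1 (m - 2 ^ Nat.log 2 m.toNat) = true)

theorem xs_window {n : ℕ} {m : ℤ} (h0 : 0 ≤ m) (h1 : m < 2 ^ n) :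
    xs (2 ^ n + m) = true ↔ n % 2 = 0 ∧ sq (n / 2).unpair.1 m = true := by
  classical
  obtain ⟨t, rfl⟩ := Int.eq_ofNat_of_zero_le h0
  have ht : t < 2 ^ n := by exact_mod_cast h1
  have h2 : ((2 : ℤ) ^ n + (t : ℤ)).toNat = 2 ^ n + t := by
    have : (2 : ℤ) ^ n + (t : ℤ) = ((2 ^ n + t : ℕ) : ℤ) := by push_cast; ring
    rw [this, Int.toNat_natCast]
  have h3 : Nat.log 2 (2 ^ n + t) = n :=
    Nat.log_eq_of_pow_le_of_lt_pow (by omega) (by rw [pow_succ]; omega)
  unfold xs
  rw [decide_eq_true_iff, h2, h3]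
  have h4 : (2 : ℤ) ^ n + (t : ℤ) - 2 ^ n = t := by ring
  rw [h4]
  constructor
  · rintro ⟨-, h⟩
    exact h
  · intro h
    refine ⟨?_, h⟩
    have : (1 : ℤ) ≤ 2 ^ n := one_le_pow₀ (by norm_num)
    omega

theorem sq_mem_xs (k : ℕ) : sq k ∈ closure (orb xs) := by
  rw [mem_closure_iff_Ag]
  intro R
  set j : ℕ := Nat.pair k (R + 1) with hj
  have hjR : R + 1 ≤ j := Nat.right_le_pair k (R + 1)
  refine ⟨shf (2 ^ (2 * j)) xs, ⟨_, rfl⟩, fun m hm => ?_⟩
  change xs (2 ^ (2 * j) + m) = sq k m
  have hR1 : R < 2 ^ (2 * j - 1) :=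
    lt_of_lt_of_le Nat.lt_two_pow_self (Nat.pow_le_pow_right (by norm_num) (by omega))
  have hpow : 2 ^ (2 * j) = 2 * 2 ^ (2 * j - 1) := by
    rw [← pow_succ']
    congr 1
    omega
  have hpowZ : (2 : ℤ) ^ (2 * j) = 2 * 2 ^ (2 * j - 1) := by exact_mod_cast hpow
  have hR1Z : (R : ℤ) < 2 ^ (2 * j - 1) := by exact_mod_cast hR1
  rcases lt_or_ge m 0 with h | h
  · have h1 : sq k m = false := by
      rw [← Bool.not_eq_true, sq_iff]
      rintro ⟨h2, -⟩
      omega
    rw [h1, ← Bool.not_eq_true]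
    have h2 : (2 : ℤ) ^ (2 * j) + m = 2 ^ (2 * j - 1) + (2 ^ (2 * j - 1) + m) := by
      rw [hpowZ]; ring
    rw [h2, xs_window (by omega) (by omega)]
    rintro ⟨h3, -⟩
    omega
  · rw [Bool.eq_iff_iff, xs_window h (by omega)]
    have h1 : (2 * j / 2).unpair.1 = k := by
      rw [Nat.mul_div_cancel_left j (by norm_num), hj, Nat.unpair_pair]
    rw [h1]
    constructor
    · rintro ⟨-, h2⟩
      exact h2
    · intro h2
      exact ⟨by omega, h2⟩

theorem sub_xs (k : ℕ) : TR (sq k) ∈ closure (Orb (TR xs)) := by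
  rw [closure_Orb_TR]
  exact ⟨sq k, sq_mem_xs k, Or.inl rfl⟩

theorem ne_xs (k : ℕ) : closure (Orb (TR (sq k))) ≠ closure (Orb (TR xs)) := by
  intro h
  rw [closure_Orb_TR, closure_Orb_TR] at h
  have h1 := Psi_inj h
  have h2 := sq_mem_xs (k + 1)
  rw [← h1] at h2
  exact sq_not_mem k h2

theorem level_sq (k : ℕ) : IsLevel k (closure (Orb (TR (sq k)))) := by
  rw [closure_Orb_TR]
  exact Psi_level k

theorem not_level_xs (k : ℕ) : ¬ IsLevel k (closure (Orb (TR xs))) := by
  intro h
  rcases k with _ | k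
  · exact ne_xs 0 (level_zero_dense h _ (sub_xs 0))
  · rw [IsLevel] at h
    obtain ⟨j, hj, h1⟩ := h.2.1 _ (sub_xs (k + 1)) (ne_xs (k + 1))
    have := level_unique j (k + 1) _ h1 (level_sq (k + 1))
    omega

end Q70.Mb
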