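import Mathlib

/-!
# Moral auctions: definitions and the structure of 1-moral mechanisms
-/

set_option autoImplicit false

open Finset Function

namespace Q70.Mo

/-- The profiles: one grid point for each of the `n` players.  The grid is `{0, ε, 2 ε, …, 1}` with
`ε = 1 / K`; the element `x` of `Fin (K + 1)` stands for the grid point `x ε`. -/
abbrev Prof (n K : ℕ) : Type := Fin n → Fin (K + 1)

/-- The real number `x ε = x / K`. -/
noncomputable def val {K : ℕ} (x : Fin (K + 1)) : ℝ := ((x : ℕ) : ℝ) / (K : ℝ)

/-- A (deterministic, direct) mechanism: `alloc b` is the player who gets the item (`none`: no sale)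
and `pay b i` is the payment of player `i`, for the bid profile `b`, with individual rationality
(`ir`) and no positive transfers (`npt`). -/
structure Mech (n K : ℕ) where
  /-- who gets the item -/
  alloc : Prof n K → Option (Fin n)
  /-- the payments -/
  pay : Prof n K → Fin n → ℝ
  ir : ∀ b i, pay b i ≤ if alloc b = some i then val (b i) else 0
  npt : ∀ b i, 0 ≤ pay b i

variable {n K : ℕ}

/-- The profit of player `i` with true value `x` when the bid profile is `b`. -/
noncomputable def Mech.profit (M : Mech n K) (i : Fin n) (b : Prof n K) (x : Fin (K + 1)) : ℝ :=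
  (if M.alloc b = some i then val x else 0) - M.pay b i

/-- The gain of player `i` from the bid `x`, if the true profile is `v` and the others bid their
values. -/
noncomputable def Mech.gain (M : Mech n K) (v : Prof n K) (i : Fin n) (x : Fin (K + 1)) : ℝ :=
  M.profit i (update v i x) (v i) - M.profit i v (v i)

/-- The mechanism is `α`-moral: a positive gain of a player is at most `α` times the sum of the losses
of the other players. -/
def Mech.IsMoral (M : Mech n K) (α : ℝ) : Prop :=
  ∀ (v : Prof n K) (i : Fin n) (x : Fin (K + 1)), 0 < M.gain v i x →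
    M.gain v i x ≤
      α * ∑ j ∈ univ.erase i, (M.profit j v (v j) - M.profit j (update v i x) (v j))

/-- The probability of the profile `v`, if the values are independent and `F i x` is the probability
that the value of player `i` is `x ε`. -/
def prob (F : Fin n → Fin (K + 1) → ℝ) (v : Prof n K) : ℝ := ∏ i, F i (v i)

/-- The expected revenue under truthful reporting. -/
noncomputable def rev (F : Fin n → Fin (K + 1) → ℝ) (M : Mech n K) : ℝ :=
  ∑ v : Prof n K, prob F v * ∑ i, M.pay v i

/-- The supremum `R_α` of the revenues of the `α`-moral mechanisms. -/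
noncomputable def R (F : Fin n → Fin (K + 1) → ℝ) (α : ℝ) : ℝ :=
  sSup {r : ℝ | ∃ M : Mech n K, M.IsMoral α ∧ r = rev F M}

theorem val_nonneg (x : Fin (K + 1)) : 0 ≤ val x := by unfold val; positivity

theorem val_le_one (x : Fin (K + 1)) : val x ≤ 1 := by
  unfold val
  apply div_le_one_of_le₀ _ (Nat.cast_nonneg K)
  exact_mod_cast Nat.lt_succ_iff.1 x.2

theorem val_mono {x y : Fin (K + 1)} (h : x ≤ y) : val x ≤ val y := by
  unfold val
  apply div_le_div_of_nonneg_right _ (Nat.cast_nonneg K)
  exact_mod_cast h

theorem pay_eq_zero (M : Mech n K) {b : Prof n K} {i : Fin n} (h : M.alloc b ≠ some i) :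
    M.pay b i = 0 := by
  have h1 := M.ir b i
  rw [if_neg h] at h1
  exact le_antisymm h1 (M.npt b i)

theorem profit_eq_zero (M : Mech n K) {b : Prof n K} {i : Fin n} (h : M.alloc b ≠ some i)
    (x : Fin (K + 1)) : M.profit i b x = 0 := by
  unfold Mech.profit
  rw [if_neg h, pay_eq_zero M h, sub_zero]

theorem profit_eq (M : Mech n K) {b : Prof n K} {i : Fin n} (h : M.alloc b = some i)
    (x : Fin (K + 1)) : M.profit i b x = val x - M.pay b i := by
  unfold Mech.profit
  rw [if_pos h]

theorem profit_nonneg (M : Mech n K) (b : Prof n K) (i : Fin n) : 0 ≤ M.profit i b (b i) := by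
  have h1 := M.ir b i
  unfold Mech.profit
  linarith

theorem IsMoral.mono {M : Mech n K} {α β : ℝ} (h : M.IsMoral α) (h0 : 0 ≤ α) (hαβ : α ≤ β) :
    M.IsMoral β := by
  intro v i x hg
  have h1 := h v i x hg
  refine h1.trans (mul_le_mul_of_nonneg_right hαβ ?_)
  by_contra hne
  push Not at hne
  have : α * ∑ j ∈ univ.erase i, (M.profit j v (v j) - M.profit j (update v i x) (v j)) ≤ 0 :=
    mul_nonpos_of_nonneg_of_nonpos h0 hne.le
  linarith

/-- the payment of the winner does not depend on his bid -/
theorem pay_eq {M : Mech n K} (h : M.IsMoral 1) {v : Prof n K} {i : Fin n} {x : Fin (K + 1)}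
    (h1 : M.alloc v = some i) (h2 : M.alloc (update v i x) = some i) :
    M.pay v i ≤ M.pay (update v i x) i := by
  by_contra hne
  push Not at hne
  have hg : M.gain v i x = M.pay v i - M.pay (update v i x) i := by
    unfold Mech.gain
    rw [profit_eq M h1, profit_eq M h2]
    ring
  have h3 := h v i x (by rw [hg]; linarith)
  rw [Finset.sum_eq_zero] at h3
  · rw [hg] at h3
    linarith
  · intro j hj
    rw [profit_eq_zero M, profit_eq_zero M, sub_zero]
    · rw [h2]
      intro e
      exact (Finset.mem_erase.1 hj).1 (Option.some.inj e).symm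
    · rw [h1]
      intro e
      exact (Finset.mem_erase.1 hj).1 (Option.some.inj e).symm

open Classical in
/-- the price offered to player `i`: his payment if he gets the item for some bid, and `2` if he never
gets the item -/
noncomputable def price (M : Mech n K) (v : Prof n K) (i : Fin n) : ℝ :=
  if h : ∃ x, M.alloc (update v i x) = some i then M.pay (update v i h.choose) i else 2

theorem price_update (M : Mech n K) (v : Prof n K) (i : Fin n) (y : Fin (K + 1)) :
    price M (update v i y) i = price M v i := by
  unfold price
  simp only [update_idem]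

theorem price_nonneg (M : Mech n K) (v : Prof n K) (i : Fin n) : 0 ≤ price M v i := by
  unfold price
  split_ifs
  · exact M.npt _ _
  · norm_num

/-- the winner pays his price -/
theorem pay_eq_price {M : Mech n K} (h : M.IsMoral 1) {v : Prof n K} {i : Fin n}
    (h1 : M.alloc v = some i) : M.pay v i = price M v i := by
  have hex : ∃ x, M.alloc (update v i x) = some i := ⟨v i, by rw [update_eq_self]; exact h1⟩
  unfold price
  rw [dif_pos hex]
  have h2 := hex.choose_spec
  apply le_antisymm (pay_eq h h1 h2)
  have h3 : M.alloc (update (update v i hex.choose) i (v i)) = some i := by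
    rw [update_idem, update_eq_self]
    exact h1
  have h4 := pay_eq h h2 h3
  rwa [update_idem, update_eq_self] at h4

/-- a player who would like to buy at his price gives the winner a profit at least as large -/
theorem winner_profit {M : Mech n K} (h : M.IsMoral 1) {v : Prof n K} {i w : Fin n}
    (hw : M.alloc v = some w) (hi : price M v i ≤ val (v i)) :
    val (v i) - price M v i ≤ val (v w) - price M v w := by
  by_cases hiw : i = w
  · rw [hiw]
  have hw0 : 0 ≤ val (v w) - price M v w := by
    have h1 := profit_nonneg M v w
    rw [profit_eq M hw, pay_eq_price h hw] at h1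
    exact h1
  by_cases h0 : val (v i) - price M v i ≤ 0
  · exact h0.trans hw0
  push Not at h0
  have hex : ∃ x, M.alloc (update v i x) = some i := by
    by_contra hne
    have h2 : price M v i = 2 := by
      unfold price
      rw [dif_neg hne]
    have := val_le_one (v i)
    linarith
  obtain ⟨x, hx⟩ := hex
  have hp : M.pay (update v i x) i = price M v i := by
    rw [pay_eq_price h hx, price_update]
  have hiv : M.alloc v ≠ some i := by
    rw [hw]
    intro e
    exact hiw (Option.some.inj e).symm
  have hg : M.gain v i x = val (v i) - price M v i := by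
    unfold Mech.gain
    rw [profit_eq M hx, profit_eq_zero M hiv, hp, sub_zero]
  have h3 := h v i x (by rw [hg]; exact h0)
  rw [hg, one_mul] at h3
  refine h3.trans (le_of_eq ?_)
  rw [Finset.sum_eq_single w]
  · rw [profit_eq M hw, profit_eq_zero M, pay_eq_price h hw, sub_zero]
    rw [hx]
    intro e
    exact hiw (Option.some.inj e)
  · intro j hj hjw
    rw [profit_eq_zero M, profit_eq_zero M, sub_zero]
    · rw [hx]
      intro e
      exact (Finset.mem_erase.1 hj).1 (Option.some.inj e).symm
    · rw [hw]
      intro e
      exact hjw (Option.some.inj e).symm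
  · intro hwm
    exact absurd (Finset.mem_erase.2 ⟨fun e => hiw e.symm, Finset.mem_univ w⟩) hwm

/-! ### Resampling one coordinate -/

theorem prob_update (F : Fin n → Fin (K + 1) → ℝ) (v : Prof n K) (i : Fin n) (x : Fin (K + 1)) :
    prob F v * F i x = prob F (update v i x) * F i (v i) := by
  unfold prob
  rw [← Finset.mul_prod_erase univ (fun j => F j (v j)) (Finset.mem_univ i),
    ← Finset.mul_prod_erase univ (fun j => F j (update v i x j)) (Finset.mem_univ i)]
  have h1 : ∏ j ∈ univ.erase i, F j (update v i x j) = ∏ j ∈ univ.erase i, F j (v j) := by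
    apply Finset.prod_congr rfl
    intro j hj
    rw [update_of_ne (Finset.mem_erase.1 hj).1]
  rw [h1]
  simp only [update_self]
  ring

/-- the exchange of a coordinate and of an independent copy -/
def swapE (i : Fin n) : (Prof n K × Fin (K + 1)) ≃ (Prof n K × Fin (K + 1)) where
  toFun z := (update z.1 i z.2, z.1 i)
  invFun z := (update z.1 i z.2, z.1 i)
  left_inv z := by
    ext1
    · simp
    · simp
  right_inv z := by
    ext1
    · simp
    · simp

theorem resample (F : Fin n → Fin (K + 1) → ℝ) (hsum : ∀ i, ∑ x, F i x = 1) (i : Fin n)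
    (g : Prof n K → ℝ) :
    ∑ v, prob F v * g v = ∑ v, prob F v * ∑ x, F i x * g (update v i x) := by
  have h1 : ∑ v, prob F v * ∑ x, F i x * g (update v i x) =
      ∑ z : Prof n K × Fin (K + 1), prob F (swapE i z).1 * F i (swapE i z).2 * g (swapE i z).1 := by
    rw [Fintype.sum_prod_type]
    apply Finset.sum_congr rfl
    intro v _
    rw [Finset.mul_sum]
    apply Finset.sum_congr rfl
    intro x _
    show prob F v * (F i x * g (update v i x)) =
      prob F (update v i x) * F i (v i) * g (update v i x)
    rw [← prob_update]
    ring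
  rw [h1, Equiv.sum_comp (swapE i) (fun z => prob F z.1 * F i z.2 * g z.1),
    Fintype.sum_prod_type]
  apply Finset.sum_congr rfl
  intro v _
  have h2 : ∀ x, prob F v * F i x * g v = F i x * (prob F v * g v) := fun x => by ring
  simp only [h2]
  rw [← Finset.sum_mul, hsum i, one_mul]

theorem prob_nonneg {F : Fin n → Fin (K + 1) → ℝ} (hF : ∀ i x, 0 < F i x) (v : Prof n K) :
    0 ≤ prob F v := Finset.prod_nonneg fun i _ => (hF i (v i)).le

theorem sum_nonpos_of_lines {F : Fin n → Fin (K + 1) → ℝ} (hF : ∀ i x, 0 < F i x)
    (hsum : ∀ i, ∑ x, F i x = 1) (i : Fin n) (g : Prof n K → ℝ)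
    (h : ∀ v, ∑ x, F i x * g (update v i x) ≤ 0) : ∑ v, prob F v * g v ≤ 0 := by
  rw [resample F hsum i g]
  exact Finset.sum_nonpos fun v _ => mul_nonpos_of_nonneg_of_nonpos (prob_nonneg hF v) (h v)

end Q70.Mo
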