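import Mathlib

/-!
# Isotonic regression and ironed virtual values
-/

set_option autoImplicit false

open Finset

namespace Q70.Mo

section iso

variable {m : ℕ}

/-- the weighted quadratic deviation -/
def Q (f φ ψ : Fin m → ℝ) : ℝ := ∑ x, f x * (ψ x - φ x) ^ 2

theorem exists_min (f φ : Fin m → ℝ) (hf : ∀ x, 0 < f x) :
    ∃ ψ : Fin m → ℝ, Monotone ψ ∧ ∀ η : Fin m → ℝ, Monotone η → Q f φ ψ ≤ Q f φ η := by
  let s : Set (EuclideanSpace ℝ (Fin m)) := {u | Monotone fun x => u x / √(f x)}
  have hs0 : ∀ x, 0 < √(f x) := fun x => Real.sqrt_pos.2 (hf x)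
  have hcl : IsClosed s := by
    have : s = ⋂ (x : Fin m) (y : Fin m) (_ : x ≤ y),
        {u : EuclideanSpace ℝ (Fin m) | u x / √(f x) ≤ u y / √(f y)} := by
      ext u
      simp only [s, Monotone, Set.mem_setOf_eq, Set.mem_iInter]
    rw [this]
    refine isClosed_iInter fun x => isClosed_iInter fun y => isClosed_iInter fun _ => ?_
    exact isClosed_le (by fun_prop) (by fun_prop)
  have hne : s.Nonempty := ⟨0, by
    intro x y _
    simp⟩
  obtain ⟨y, hy, hd⟩ := hcl.exists_infDist_eq_dist hne (WithLp.toLp 2 fun x => √(f x) * φ x)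
  refine ⟨fun x => y x / √(f x), hy, fun η hη => ?_⟩
  have hmem : (WithLp.toLp 2 fun x => √(f x) * η x : EuclideanSpace ℝ (Fin m)) ∈ s := by
    intro a b hab
    have := hη hab
    simp only
    rw [mul_div_cancel_left₀ _ (hs0 a).ne', mul_div_cancel_left₀ _ (hs0 b).ne']
    exact this
  have h1 : dist (WithLp.toLp 2 fun x => √(f x) * φ x) y ≤
      dist (WithLp.toLp 2 fun x => √(f x) * φ x)
        (WithLp.toLp 2 fun x => √(f x) * η x : EuclideanSpace ℝ (Fin m)) := by
    rw [← hd]
    exact Metric.infDist_le_dist_of_mem hmem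
  rw [EuclideanSpace.dist_eq, EuclideanSpace.dist_eq] at h1
  have h2 := (Real.sqrt_le_sqrt_iff (Finset.sum_nonneg fun i _ => sq_nonneg _)).1 h1
  have h3 : ∀ (a b c : ℝ), 0 < a → (√a * b - √a * c) ^ 2 = a * (c - b) ^ 2 := by
    intro a b c ha
    have := Real.sq_sqrt ha.le
    calc (√a * b - √a * c) ^ 2 = √a ^ 2 * (c - b) ^ 2 := by ring
      _ = _ := by rw [this]
  unfold Q
  refine le_trans (le_of_eq ?_) (h2.trans (le_of_eq ?_))
  · apply Finset.sum_congr rfl
    intro x _
    rw [Real.dist_eq, sq_abs]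
    show f x * (y x / √(f x) - φ x) ^ 2 = (√(f x) * φ x - y x) ^ 2
    have h4 := h3 (f x) (φ x) (y x / √(f x)) (hf x)
    rw [← h4, mul_div_cancel₀ _ (hs0 x).ne']
  · apply Finset.sum_congr rfl
    intro x _
    rw [Real.dist_eq, sq_abs]
    exact h3 (f x) (φ x) (η x) (hf x)

theorem Q_add (f φ ψ : Fin m → ℝ) (z : Fin m) (t : ℝ) :
    Q f φ (fun x => ψ x + if z ≤ x then t else 0) =
      Q f φ ψ + (2 * t * ∑ x ∈ univ.filter (z ≤ ·), f x * (ψ x - φ x) +
        t ^ 2 * ∑ x ∈ univ.filter (z ≤ ·), f x) := by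
  unfold Q
  rw [Finset.sum_filter, Finset.sum_filter, Finset.mul_sum, Finset.mul_sum,
    ← Finset.sum_add_distrib, ← Finset.sum_add_distrib]
  apply Finset.sum_congr rfl
  intro x _
  by_cases h : z ≤ x
  · simp only [if_pos h]
    ring
  · simp only [if_neg h]
    ring

theorem nonneg_of_small {a b δ : ℝ} (hδ : 0 < δ) (hb : 0 ≤ b)
    (h : ∀ t, 0 < t → t ≤ δ → 0 ≤ 2 * t * a + t ^ 2 * b) : 0 ≤ a := by
  by_contra hne
  push Not at hne
  have hb1 : 0 < b + 1 := by linarith
  have ht : 0 < min δ (-a / (b + 1)) := lt_min hδ (div_pos (by linarith) hb1)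
  have h1 := h _ ht (min_le_left _ _)
  have h2 : min δ (-a / (b + 1)) * (b + 1) ≤ -a := by
    have := min_le_right δ (-a / (b + 1))
    calc min δ (-a / (b + 1)) * (b + 1) ≤ -a / (b + 1) * (b + 1) :=
          mul_le_mul_of_nonneg_right this hb1.le
      _ = -a := div_mul_cancel₀ _ hb1.ne'
  set t := min δ (-a / (b + 1)) with htd
  have h3 : 0 ≤ t * (2 * a + t * b) := by nlinarith
  have h4 : 0 ≤ 2 * a + t * b := nonneg_of_mul_nonneg_right h3 ht
  nlinarith

/-- **Isotonic regression.** -/
theorem exists_iso (f φ : Fin m → ℝ) (hf : ∀ x, 0 < f x) :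
    ∃ ψ : Fin m → ℝ, Monotone ψ ∧
      (∀ z, ∑ x ∈ univ.filter (z ≤ ·), f x * φ x ≤ ∑ x ∈ univ.filter (z ≤ ·), f x * ψ x) ∧
      (∀ z, (∀ y, y < z → ψ y < ψ z) →
        ∑ x ∈ univ.filter (z ≤ ·), f x * ψ x = ∑ x ∈ univ.filter (z ≤ ·), f x * φ x) ∧
      (∀ u : Fin m → ℝ, Monotone u → (∀ x, φ x ≤ u x) → ∀ x, ψ x ≤ u x) := by
  obtain ⟨ψ, hψ, hmin⟩ := exists_min f φ hf
  have hS : ∀ z : Fin m, 0 ≤ ∑ x ∈ univ.filter (z ≤ ·), f x :=
    fun z => Finset.sum_nonneg fun x _ => (hf x).le
  have hge : ∀ z : Fin m, 0 ≤ ∑ x ∈ univ.filter (z ≤ ·), f x * (ψ x - φ x) := by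
    intro z
    apply nonneg_of_small one_pos (hS z)
    intro t ht _
    have h1 := hmin (fun x => ψ x + if z ≤ x then t else 0) (by
      intro a b hab
      have := hψ hab
      by_cases h1 : z ≤ a
      · simp only [if_pos h1, if_pos (h1.trans hab)]
        linarith
      · by_cases h2 : z ≤ b
        · simp only [if_neg h1, if_pos h2]
          linarith
        · simp only [if_neg h1, if_neg h2]
          linarith)
    rw [Q_add] at h1
    linarith
  have hsub : ∀ z : Fin m, ∑ x ∈ univ.filter (z ≤ ·), f x * (ψ x - φ x) =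
      ∑ x ∈ univ.filter (z ≤ ·), f x * ψ x - ∑ x ∈ univ.filter (z ≤ ·), f x * φ x := by
    intro z
    rw [← Finset.sum_sub_distrib]
    exact Finset.sum_congr rfl fun x _ => by ring
  refine ⟨ψ, hψ, ?_, ?_, ?_⟩
  · intro z
    have := hge z
    rw [hsub] at this
    linarith
  · intro z hz
    -- the size of the jump
    obtain ⟨δ, hδ, hδ2⟩ : ∃ δ : ℝ, 0 < δ ∧ ∀ y, y < z → ψ y + δ ≤ ψ z := by
      by_cases hne : (univ.filter (fun y => y < z)).Nonempty
      · obtain ⟨y, hy, hmax⟩ := Finset.exists_max_image _ ψ hne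
        refine ⟨ψ z - ψ y, by linarith [hz y (by simpa using hy)], fun y' hy' => ?_⟩
        have := hmax y' (by simpa using hy')
        linarith
      · refine ⟨1, one_pos, fun y hy => absurd ⟨y, by simpa using hy⟩ hne⟩
    have hle : 0 ≤ -∑ x ∈ univ.filter (z ≤ ·), f x * (ψ x - φ x) := by
      apply nonneg_of_small hδ (hS z)
      intro t ht htδ
      have h1 := hmin (fun x => ψ x + if z ≤ x then -t else 0) (by
        intro a b hab
        have := hψ hab
        by_cases h1 : z ≤ a
        · simp only [if_pos h1, if_pos (h1.trans hab)]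
          linarith
        · by_cases h2 : z ≤ b
          · simp only [if_neg h1, if_pos h2]
            have h3 := hδ2 a (not_le.1 h1)
            have h4 := hψ h2
            linarith
          · simp only [if_neg h1, if_neg h2]
            linarith)
      rw [Q_add] at h1
      nlinarith
    have := hge z
    rw [hsub] at this hle
    linarith
  · intro u hu hφu x
    by_contra hne
    push Not at hne
    have h1 := hmin (fun y => min (ψ y) (u y)) (hψ.min hu)
    have h2 : Q f φ (fun y => min (ψ y) (u y)) < Q f φ ψ := by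
      unfold Q
      apply Finset.sum_lt_sum
      · intro y _
        apply mul_le_mul_of_nonneg_left _ (hf y).le
        simp only
        rcases le_total (ψ y) (u y) with h | h
        · rw [min_eq_left h]
        · rw [min_eq_right h]
          have := hφu y
          nlinarith
      · refine ⟨x, Finset.mem_univ x, ?_⟩
        apply mul_lt_mul_of_pos_left _ (hf x)
        simp only
        rw [min_eq_right hne.le]
        have := hφu x
        nlinarith
    linarith

end iso

end Q70.Mo
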