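import Pool.Agent.Q70.MoA
import Pool.Agent.Q70.MoB

/-!
# Ironed virtual values
-/

set_option autoImplicit false

open Finset Function

namespace Q70.Mo

variable {n K : ℕ}

/-- the virtual value, in the form in which the sums telescope -/
noncomputable def vv (f : Fin (K + 1) → ℝ) (x : Fin (K + 1)) : ℝ :=
  (val x * ∑ y ∈ univ.filter (x ≤ ·), f y - (val x + 1 / K) * ∑ y ∈ univ.filter (x < ·), f y) / f x

theorem filter_le_eq (x : Fin (K + 1)) :
    univ.filter (x ≤ ·) = insert x (univ.filter (x < ·)) := by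
  ext y
  simp only [Finset.mem_filter, Finset.mem_univ, true_and, Finset.mem_insert]
  rw [le_iff_eq_or_lt, eq_comm]

theorem sum_filter_le (g : Fin (K + 1) → ℝ) (x : Fin (K + 1)) :
    ∑ y ∈ univ.filter (x ≤ ·), g y = g x + ∑ y ∈ univ.filter (x < ·), g y := by
  rw [filter_le_eq, Finset.sum_insert (by simp)]

theorem vv_tail {f : Fin (K + 1) → ℝ} (hf : ∀ x, 0 < f x) (z : Fin (K + 1)) :
    ∑ x ∈ univ.filter (z ≤ ·), f x * vv f x = val z * ∑ x ∈ univ.filter (z ≤ ·), f x := by
  have hmul : ∀ x, f x * vv f x = val x * ∑ y ∈ univ.filter (x ≤ ·), f y -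
      (val x + 1 / K) * ∑ y ∈ univ.filter (x < ·), f y := fun x => by
    unfold vv
    rw [mul_div_cancel₀ _ (hf x).ne']
  induction z using Fin.reverseInduction with
  | last =>
    have h0 : univ.filter (Fin.last K < ·) = (∅ : Finset (Fin (K + 1))) := by
      apply Finset.filter_false_of_mem
      intro x _
      exact not_lt.2 (Fin.le_last x)
    rw [sum_filter_le, hmul, h0]
    simp
  | cast i ih =>
    have h0 : univ.filter (i.castSucc < ·) = univ.filter (i.succ ≤ ·) := by
      apply Finset.filter_congr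
      intro x _
      exact Fin.castSucc_lt_iff_succ_le
    rw [sum_filter_le, hmul, h0, ih]
    have hv : val i.succ = val i.castSucc + 1 / K := by
      unfold val
      simp only [Fin.val_succ, Fin.val_castSucc]
      push_cast
      ring
    rw [hv]
    ring

theorem vv_le {f : Fin (K + 1) → ℝ} (hf : ∀ x, 0 < f x) (x : Fin (K + 1)) : vv f x ≤ val x := by
  unfold vv
  rw [div_le_iff₀ (hf x), sum_filter_le]
  have h1 : 0 ≤ ∑ y ∈ univ.filter (x < ·), f y := Finset.sum_nonneg fun y _ => (hf y).le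
  have h2 : (0 : ℝ) ≤ 1 / K := by positivity
  nlinarith [mul_nonneg h2 h1]

/-- the properties of the ironed virtual values `φ` of the distribution `f` -/
structure IsIroned (f φ : Fin (K + 1) → ℝ) : Prop where
  mono : Monotone φ
  le_val : ∀ x, φ x ≤ val x
  tail : ∀ z, val z * ∑ x ∈ univ.filter (z ≤ ·), f x ≤ ∑ x ∈ univ.filter (z ≤ ·), f x * φ x
  jump : ∀ z, (∀ y, y < z → φ y < φ z) →
    ∑ x ∈ univ.filter (z ≤ ·), f x * φ x = val z * ∑ x ∈ univ.filter (z ≤ ·), f x

theorem exists_ironed {f : Fin (K + 1) → ℝ} (hf : ∀ x, 0 < f x) : ∃ φ, IsIroned f φ := by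
  obtain ⟨ψ, h1, h2, h3, h4⟩ := exists_iso f (vv f) hf
  refine ⟨ψ, h1, h4 val (fun x y h => val_mono h) (vv_le hf), fun z => ?_, fun z hz => ?_⟩
  · have := h2 z
    rwa [vv_tail hf] at this
  · rw [h3 z hz, vv_tail hf]

/-- the sum over an upper set -/
theorem IsIroned.upper {f φ : Fin (K + 1) → ℝ} (hf : ∀ x, 0 < f x) (h : IsIroned f φ)
    {S : Finset (Fin (K + 1))} (hS : ∀ x ∈ S, ∀ y, x ≤ y → y ∈ S) {t : ℝ}
    (ht : ∀ x ∈ S, t ≤ val x) : t * ∑ x ∈ S, f x ≤ ∑ x ∈ S, f x * φ x := by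
  by_cases hne : S.Nonempty
  · have hz := S.min'_mem hne
    have hSe : S = univ.filter (S.min' hne ≤ ·) := by
      ext x
      simp only [Finset.mem_filter, Finset.mem_univ, true_and]
      exact ⟨fun hx => S.min'_le x hx, fun hx => hS _ hz x hx⟩
    have h1 := h.tail (S.min' hne)
    rw [← hSe] at h1
    refine le_trans (mul_le_mul_of_nonneg_right (ht _ hz) ?_) h1
    exact Finset.sum_nonneg fun x _ => (hf x).le
  · rw [Finset.not_nonempty_iff_eq_empty] at hne
    rw [hne]
    simp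

end Q70.Mo
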