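import Pool.Agent.Q70.MoC

/-!
# The upper bound for the revenue of a 1-moral mechanism
-/

set_option autoImplicit false

open Finset Function

namespace Q70.Mo

variable {n K : ℕ}

/-- `i` is the first of the players with the largest number `φ i (v i)` -/
def Top (φ : Fin n → Fin (K + 1) → ℝ) (v : Prof n K) (i : Fin n) : Prop :=
  ∀ j, j ≠ i → φ j (v j) < φ i (v i) ∨ (φ j (v j) = φ i (v i) ∧ i < j)

theorem exists_top (hn : 0 < n) (φ : Fin n → Fin (K + 1) → ℝ) (v : Prof n K) :
    ∃ i, Top φ v i := by
  have hne : (univ : Finset (Fin n)).Nonempty := ⟨⟨0, hn⟩, Finset.mem_univ _⟩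
  obtain ⟨i₀, _, h₀⟩ := Finset.exists_max_image univ (fun j => φ j (v j)) hne
  obtain ⟨i, hi, hmin⟩ := Finset.exists_min_image
    (univ.filter (fun j => φ j (v j) = φ i₀ (v i₀))) (fun j => j) ⟨i₀, by simp⟩
  have hie : φ i (v i) = φ i₀ (v i₀) := (Finset.mem_filter.1 hi).2
  refine ⟨i, fun j hj => ?_⟩
  rcases (h₀ j (Finset.mem_univ j)).lt_or_eq with h | h
  · left
    rw [hie]
    exact h
  · right
    refine ⟨by rw [hie]; exact h, lt_of_le_of_ne (hmin j ?_) (Ne.symm hj)⟩
    simpa using h

theorem Top.le {φ : Fin n → Fin (K + 1) → ℝ} {v : Prof n K} {i : Fin n} (h : Top φ v i)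
    (j : Fin n) : φ j (v j) ≤ φ i (v i) := by
  by_cases hj : j = i
  · rw [hj]
  · rcases h j hj with h1 | h1
    · exact h1.le
    · exact h1.1.le

/-- the top player is the same whenever it is not the player whose value changes -/
theorem Top.eq {φ : Fin n → Fin (K + 1) → ℝ} {v : Prof n K} {i j l : Fin n}
    {x y : Fin (K + 1)} (h1 : Top φ (update v i x) j) (h2 : Top φ (update v i y) l) (hj : j ≠ i)
    (hl : l ≠ i) : j = l := by
  by_contra hne
  have h3 := h1 l (Ne.symm hne)
  have h4 := h2 j hne
  rw [update_of_ne hj, update_of_ne hl] at h3 h4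
  rcases h3 with h3 | ⟨h3, h3'⟩
  · rcases h4 with h4 | ⟨h4, h4'⟩
    · exact absurd h3 (not_lt.2 h4.le)
    · rw [h4] at h3
      exact lt_irrefl _ h3
  · rcases h4 with h4 | ⟨h4, h4'⟩
    · rw [h3] at h4
      exact lt_irrefl _ h4
    · exact absurd h3' (not_lt.2 h4'.le)

/-- the largest positive part of the `φ j (v j)` -/
noncomputable def piv (φ : Fin n → Fin (K + 1) → ℝ) (v : Prof n K) : ℝ :=
  univ.fold max 0 (fun j => φ j (v j))

/-- the largest positive part of the `φ j (v j)`, `j ≠ i` -/
noncomputable def oth (φ : Fin n → Fin (K + 1) → ℝ) (v : Prof n K) (i : Fin n) : ℝ :=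
  (univ.erase i).fold max 0 (fun j => φ j (v j))

section facts

variable (φ : Fin n → Fin (K + 1) → ℝ) (v : Prof n K)

theorem piv_nonneg : 0 ≤ piv φ v := (Finset.le_fold_max (0 : ℝ)).2 (Or.inl le_rfl)

theorem oth_nonneg (i : Fin n) : 0 ≤ oth φ v i := (Finset.le_fold_max (0 : ℝ)).2 (Or.inl le_rfl)

theorem le_piv (i : Fin n) : φ i (v i) ≤ piv φ v :=
  (Finset.le_fold_max _).2 (Or.inr ⟨i, Finset.mem_univ i, le_rfl⟩)

theorem le_oth {i j : Fin n} (h : j ≠ i) : φ j (v j) ≤ oth φ v i :=
  (Finset.le_fold_max _).2 (Or.inr ⟨j, Finset.mem_erase.2 ⟨h, Finset.mem_univ j⟩, le_rfl⟩)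

theorem oth_le_piv (i : Fin n) : oth φ v i ≤ piv φ v :=
  (Finset.fold_max_le _).2 ⟨piv_nonneg φ v, fun j _ => le_piv φ v j⟩

theorem oth_update (i : Fin n) (x : Fin (K + 1)) : oth φ (update v i x) i = oth φ v i := by
  unfold oth
  apply Finset.fold_congr
  intro j hj
  rw [update_of_ne (Finset.mem_erase.1 hj).1]

theorem piv_top {i : Fin n} (h : Top φ v i) : piv φ v = max 0 (φ i (v i)) := by
  apply le_antisymm
  · exact (Finset.fold_max_le _).2 ⟨le_max_left _ _, fun j _ => (h.le j).trans (le_max_right _ _)⟩
  · exact max_le (piv_nonneg φ v) (le_piv φ v i)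

end facts

/-- the certificate -/
noncomputable def alpha (φ : Fin n → Fin (K + 1) → ℝ) (v : Prof n K) (J i : Fin n) (p : ℝ) : ℝ :=
  if i = J then max p (oth φ v i) - piv φ v
  else max (p - piv φ v) (max (min (p - oth φ v J) (val (v i) - val (v J))) 0)

/-- the share of player `i` in the certificate, if his price is `p` -/
noncomputable def share (φ : Fin n → Fin (K + 1) → ℝ) (v : Prof n K) (J i : Fin n) (p : ℝ) : ℝ :=
  if p ≤ val (v i) then alpha φ v J i p else 0

theorem share_nonneg (φ : Fin n → Fin (K + 1) → ℝ) (v : Prof n K) {J i : Fin n} (h : i ≠ J)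
    (p : ℝ) : 0 ≤ share φ v J i p := by
  unfold share alpha
  rw [if_neg h]
  split_ifs
  · exact (le_max_right _ _).trans (le_max_right _ _)
  · exact le_rfl

/-- the inequality in a cell, no sale -/
theorem cell_none (φ : Fin n → Fin (K + 1) → ℝ) (v : Prof n K) (J : Fin n) (P : Fin n → ℝ) :
    0 ≤ piv φ v + ∑ i, share φ v J i (P i) := by
  rw [← Finset.add_sum_erase _ _ (Finset.mem_univ J)]
  have h1 : 0 ≤ ∑ i ∈ univ.erase J, share φ v J i (P i) :=
    Finset.sum_nonneg fun i hi => share_nonneg φ v (Finset.mem_erase.1 hi).1 _
  have h2 : 0 ≤ piv φ v + share φ v J J (P J) := by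
    unfold share alpha
    rw [if_pos rfl]
    split_ifs
    · have := oth_nonneg φ v J
      have := le_max_right (P J) (oth φ v J)
      linarith
    · have := piv_nonneg φ v
      linarith
  linarith

/-- the inequality in a cell, the item goes to `w` -/
theorem cell_some (φ : Fin n → Fin (K + 1) → ℝ) (v : Prof n K) (J w : Fin n) (P : Fin n → ℝ)
    (hw : P w ≤ val (v w))
    (hmax : ∀ i, P i ≤ val (v i) → val (v i) - P i ≤ val (v w) - P w) :
    P w ≤ piv φ v + ∑ i, share φ v J i (P i) := by
  rw [← Finset.add_sum_erase _ _ (Finset.mem_univ J)]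
  by_cases hwJ : w = J
  · have h1 : 0 ≤ ∑ i ∈ univ.erase J, share φ v J i (P i) :=
      Finset.sum_nonneg fun i hi => share_nonneg φ v (Finset.mem_erase.1 hi).1 _
    subst hwJ
    have h2 : share φ v w w (P w) = max (P w) (oth φ v w) - piv φ v := by
      unfold share alpha
      rw [if_pos hw, if_pos rfl]
    rw [h2]
    have := le_max_left (P w) (oth φ v w)
    linarith
  · have h1 : share φ v J w (P w) ≤ ∑ i ∈ univ.erase J, share φ v J i (P i) :=
      Finset.single_le_sum (f := fun i => share φ v J i (P i))
        (fun i hi => share_nonneg φ v (Finset.mem_erase.1 hi).1 _)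
        (Finset.mem_erase.2 ⟨hwJ, Finset.mem_univ w⟩)
    have h2 : share φ v J w (P w) =
        max (P w - piv φ v) (max (min (P w - oth φ v J) (val (v w) - val (v J))) 0) := by
      unfold share alpha
      rw [if_pos hw, if_neg hwJ]
    rw [h2] at h1
    by_cases hJ : P J ≤ val (v J)
    · have h3 : share φ v J J (P J) = max (P J) (oth φ v J) - piv φ v := by
        unfold share alpha
        rw [if_pos hJ, if_pos rfl]
      rw [h3]
      have h4 := hmax J hJ
      have h5 := le_max_left (P J) (oth φ v J)
      have h6 := le_max_right (P J) (oth φ v J)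
      have h7 : min (P w - oth φ v J) (val (v w) - val (v J)) ≤
          ∑ i ∈ univ.erase J, share φ v J i (P i) :=
        ((le_max_left _ _).trans (le_max_right _ _)).trans h1
      rcases le_total (P w - oth φ v J) (val (v w) - val (v J)) with h8 | h8
      · rw [min_eq_left h8] at h7
        linarith
      · rw [min_eq_right h8] at h7
        linarith
    · have h3 : share φ v J J (P J) = 0 := by
        unfold share
        rw [if_neg hJ]
      rw [h3]
      have h7 : P w - piv φ v ≤ ∑ i ∈ univ.erase J, share φ v J i (P i) :=
        (le_max_left _ _).trans h1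
      linarith

/-- the inequality on a line -/
theorem line {φ : Fin n → Fin (K + 1) → ℝ} {f : Fin (K + 1) → ℝ} (hf : ∀ x, 0 < f x)
    (i : Fin n) (hφ : IsIroned f (φ i)) (hle : ∀ j x, φ j x ≤ val x) (v : Prof n K) (p : ℝ)
    (J : Fin (K + 1) → Fin n) (hJ : ∀ x, Top φ (update v i x) (J x)) :
    ∑ x, f x * share φ (update v i x) (J x) i p ≤ 0 := by
  have hc : ∀ x, oth φ (update v i x) i = oth φ v i := oth_update φ v i
  have hcπ : ∀ x, oth φ v i ≤ piv φ (update v i x) := fun x => by
    rw [← hc x]
    exact oth_le_piv φ _ i
  have hπ : ∀ x, φ i x ≤ piv φ (update v i x) := fun x => by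
    have := le_piv φ (update v i x) i
    rwa [update_self] at this
  have hJle : ∀ x, J x ≠ i → φ i x ≤ oth φ v i := fun x hx => by
    have h1 := (hJ x).le i
    rw [update_self] at h1
    have h2 := le_oth φ (update v i x) hx
    rw [hc x] at h2
    exact h1.trans h2
  have hcJ : ∀ x, J x ≠ i → φ i x ≤ oth φ (update v i x) (J x) := fun x hx => by
    have := le_oth φ (update v i x) (Ne.symm hx)
    rwa [update_self] at this
  by_cases hp : oth φ v i < p
  · -- a price above the virtual values of the others
    have h1 : ∀ x ∈ (univ : Finset (Fin (K + 1))), f x * share φ (update v i x) (J x) i p ≤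
        if p ≤ val x then f x * (p - φ i x) else 0 := by
      intro x _
      unfold share
      rw [update_self]
      by_cases hpx : p ≤ val x
      · rw [if_pos hpx, if_pos hpx]
        apply mul_le_mul_of_nonneg_left _ (hf x).le
        unfold alpha
        by_cases hi : i = J x
        · rw [if_pos hi, hc x, max_eq_left hp.le]
          linarith [hπ x]
        · rw [if_neg hi]
          have h2 := hJle x (Ne.symm hi)
          have h3 := hcJ x (Ne.symm hi)
          refine max_le ?_ (max_le ?_ ?_)
          · linarith [hπ x]
          · refine (min_le_left _ _).trans ?_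
            linarith
          · linarith
      · rw [if_neg hpx, if_neg hpx, mul_zero]
    refine (Finset.sum_le_sum h1).trans ?_
    rw [← Finset.sum_filter]
    have h2 := hφ.upper hf (S := univ.filter (fun x => p ≤ val x))
      (fun x hx y hxy => by
        simp only [Finset.mem_filter, Finset.mem_univ, true_and] at hx ⊢
        exact hx.trans (val_mono hxy))
      (t := p) (fun x hx => (Finset.mem_filter.1 hx).2)
    have h3 : ∑ x ∈ univ.filter (fun x => p ≤ val x), f x * (p - φ i x) =
        p * ∑ x ∈ univ.filter (fun x => p ≤ val x), f x -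
        ∑ x ∈ univ.filter (fun x => p ≤ val x), f x * φ i x := by
      rw [Finset.mul_sum, ← Finset.sum_sub_distrib]
      exact Finset.sum_congr rfl fun x _ => by ring
    rw [h3]
    linarith
  · push Not at hp
    by_cases hall : ∀ x, J x = i
    · apply Finset.sum_nonpos
      intro x _
      apply mul_nonpos_of_nonneg_of_nonpos (hf x).le
      unfold share alpha
      rw [if_pos (hall x).symm, hc x, max_eq_right hp]
      split_ifs
      · linarith [hcπ x]
      · exact le_rfl
    · push Not at hall
      obtain ⟨x₀, hx₀⟩ := hall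
      -- the other possible top player
      have hJx : ∀ x, J x ≠ i → J x = J x₀ := fun x hx => (hJ x).eq (hJ x₀) hx hx₀
      have hcy : oth φ v i ≤ val (v (J x₀)) := by
        rw [← hc x₀]
        refine (oth_le_piv φ _ i).trans ?_
        rw [piv_top φ _ (hJ x₀), update_of_ne hx₀]
        exact max_le (val_nonneg _) (hle _ _)
      have h1 : ∀ x ∈ (univ : Finset (Fin (K + 1))), f x * share φ (update v i x) (J x) i p ≤
          if v (J x₀) < x then f x * (oth φ v i - φ i x) else 0 := by
        intro x _
        unfold share
        rw [update_self]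
        by_cases hxy : v (J x₀) < x
        · have hpx : p ≤ val x := hp.trans (hcy.trans (val_mono hxy.le))
          rw [if_pos hpx, if_pos hxy]
          apply mul_le_mul_of_nonneg_left _ (hf x).le
          unfold alpha
          by_cases hi : i = J x
          · rw [if_pos hi, hc x, max_eq_right hp]
            linarith [hπ x]
          · rw [if_neg hi]
            have h2 := hJle x (Ne.symm hi)
            have h3 := hcJ x (Ne.symm hi)
            have h4 := hcπ x
            refine max_le ?_ (max_le ?_ ?_)
            · linarith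
            · refine (min_le_left _ _).trans ?_
              linarith
            · linarith
        · rw [if_neg hxy]
          apply mul_nonpos_of_nonneg_of_nonpos (hf x).le
          split_ifs with hpx
          · unfold alpha
            by_cases hi : i = J x
            · rw [if_pos hi, hc x, max_eq_right hp]
              linarith [hcπ x]
            · rw [if_neg hi]
              have h4 := hcπ x
              refine max_le ?_ (max_le ?_ le_rfl)
              · linarith
              · refine (min_le_right _ _).trans ?_
                rw [update_self, hJx x (Ne.symm hi), update_of_ne hx₀]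
                have := val_mono (not_lt.1 hxy)
                linarith
          · exact le_rfl
      refine (Finset.sum_le_sum h1).trans ?_
      rw [← Finset.sum_filter]
      have h2 := hφ.upper hf (S := univ.filter (fun x => v (J x₀) < x))
        (fun x hx y hxy => by
          simp only [Finset.mem_filter, Finset.mem_univ, true_and] at hx ⊢
          exact hx.trans_le hxy)
        (t := oth φ v i) (fun x hx => hcy.trans (val_mono (Finset.mem_filter.1 hx).2.le))
      have h3 : ∑ x ∈ univ.filter (fun x => v (J x₀) < x), f x * (oth φ v i - φ i x) =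
          oth φ v i * ∑ x ∈ univ.filter (fun x => v (J x₀) < x), f x -
          ∑ x ∈ univ.filter (fun x => v (J x₀) < x), f x * φ i x := by
        rw [Finset.mul_sum, ← Finset.sum_sub_distrib]
        exact Finset.sum_congr rfl fun x _ => by ring
      rw [h3]
      linarith

/-- **The upper bound.** -/
theorem rev_le {F φ : Fin n → Fin (K + 1) → ℝ} (hn : 0 < n) (hF : ∀ i x, 0 < F i x)
    (hsum : ∀ i, ∑ x, F i x = 1) (hφ : ∀ i, IsIroned (F i) (φ i)) {M : Mech n K}
    (hM : M.IsMoral 1) : rev F M ≤ ∑ v, prob F v * piv φ v := by
  classical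
  choose J hJ using fun v : Prof n K => exists_top hn φ v
  have h1 : ∀ v, ∑ i, M.pay v i ≤ piv φ v + ∑ i, share φ v (J v) i (price M v i) := by
    intro v
    cases hw : M.alloc v with
    | none =>
      rw [Finset.sum_eq_zero]
      · exact cell_none φ v (J v) _
      · intro i _
        apply pay_eq_zero
        rw [hw]
        simp
    | some w =>
      rw [Finset.sum_eq_single w]
      · rw [pay_eq_price hM hw]
        apply cell_some
        · have h2 := profit_nonneg M v w
          rw [profit_eq M hw, pay_eq_price hM hw] at h2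
          linarith
        · intro i hi
          exact winner_profit hM hw hi
      · intro j _ hj
        apply pay_eq_zero
        rw [hw]
        intro e
        exact hj (Option.some.inj e).symm
      · intro h
        exact absurd (Finset.mem_univ w) h
  have h2 : ∀ i, ∑ v, prob F v * share φ v (J v) i (price M v i) ≤ 0 := by
    intro i
    apply sum_nonpos_of_lines hF hsum i
    intro v
    have h3 := line (hF i) i (hφ i) (fun j => (hφ j).le_val) v (price M v i)
      (fun x => J (update v i x)) (fun x => hJ (update v i x))
    simpa only [price_update] using h3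
  have h3 : rev F M ≤ ∑ v, prob F v * (piv φ v + ∑ i, share φ v (J v) i (price M v i)) :=
    Finset.sum_le_sum fun v _ => mul_le_mul_of_nonneg_left (h1 v) (prob_nonneg hF v)
  have h4 : ∑ v, prob F v * (piv φ v + ∑ i, share φ v (J v) i (price M v i)) =
      ∑ v, prob F v * piv φ v + ∑ i, ∑ v, prob F v * share φ v (J v) i (price M v i) := by
    rw [Finset.sum_comm (s := (univ : Finset (Fin n))), ← Finset.sum_add_distrib]
    apply Finset.sum_congr rfl
    intro v _
    rw [mul_add, Finset.mul_sum]
  have h5 : ∑ i, ∑ v, prob F v * share φ v (J v) i (price M v i) ≤ 0 :=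
    Finset.sum_nonpos fun i _ => h2 i
  linarith

end Q70.Mo
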