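import Pool.Agent.Q70.MoD

/-!
# The truthful mechanism given by the ironed virtual values
-/

set_option autoImplicit false

open Finset Function

namespace Q70.Mo

variable {n K : ℕ}

/-- the winner of the optimal auction -/
def Wins (φ : Fin n → Fin (K + 1) → ℝ) (v : Prof n K) (i : Fin n) : Prop :=
  Top φ v i ∧ 0 < φ i (v i)

theorem Wins.unique {φ : Fin n → Fin (K + 1) → ℝ} {v : Prof n K} {i j : Fin n}
    (h1 : Wins φ v i) (h2 : Wins φ v j) : i = j := by
  by_contra hne
  rcases h1.1 j (Ne.symm hne) with h3 | ⟨h3, h3'⟩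
  · exact absurd h3 (not_lt.2 (h2.1.le i))
  · rcases h2.1 i hne with h4 | ⟨h4, h4'⟩
    · rw [h3] at h4
      exact lt_irrefl _ h4
    · exact absurd h3' (not_lt.2 h4'.le)

theorem Wins.up {φ : Fin n → Fin (K + 1) → ℝ} {v : Prof n K} {i : Fin n} {x y : Fin (K + 1)}
    (h : Wins φ (update v i x) i) (hxy : φ i x ≤ φ i y) : Wins φ (update v i y) i := by
  refine ⟨fun j hj => ?_, ?_⟩
  · have h1 := h.1 j hj
    rw [update_self, update_of_ne hj] at h1 ⊢
    rcases h1 with h1 | ⟨h1, h2⟩
    · exact Or.inl (h1.trans_le hxy)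
    · rcases hxy.lt_or_eq with h3 | h3
      · exact Or.inl (by rw [h1]; exact h3)
      · exact Or.inr ⟨by rw [h1, h3], h2⟩
  · have h1 := h.2
    rw [update_self] at h1 ⊢
    exact h1.trans_le hxy

open Classical in
/-- the allocation -/
noncomputable def optAlloc (φ : Fin n → Fin (K + 1) → ℝ) (v : Prof n K) : Option (Fin n) :=
  if h : ∃ i, Wins φ v i then some h.choose else none

theorem optAlloc_iff {φ : Fin n → Fin (K + 1) → ℝ} {v : Prof n K} {i : Fin n} :
    optAlloc φ v = some i ↔ Wins φ v i := by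
  unfold optAlloc
  constructor
  · intro h
    split_ifs at h with h1
    have := h1.choose_spec
    rw [Option.some.inj h] at this
    exact this
  · intro h
    have h1 : ∃ i, Wins φ v i := ⟨i, h⟩
    rw [dif_pos h1]
    exact congrArg some (h1.choose_spec.unique h)

open Classical in
/-- the winning bids of player `i` -/
noncomputable def winSet (φ : Fin n → Fin (K + 1) → ℝ) (v : Prof n K) (i : Fin n) :
    Finset (Fin (K + 1)) := univ.filter (fun x => Wins φ (update v i x) i)

theorem mem_winSet {φ : Fin n → Fin (K + 1) → ℝ} {v : Prof n K} {i : Fin n} {x : Fin (K + 1)} :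
    x ∈ winSet φ v i ↔ Wins φ (update v i x) i := by
  unfold winSet
  simp

theorem winSet_update (φ : Fin n → Fin (K + 1) → ℝ) (v : Prof n K) (i : Fin n)
    (y : Fin (K + 1)) : winSet φ (update v i y) i = winSet φ v i := by
  ext x
  rw [mem_winSet, mem_winSet, update_idem]

/-- the threshold -/
noncomputable def thr (φ : Fin n → Fin (K + 1) → ℝ) (v : Prof n K) (i : Fin n) : Fin (K + 1) :=
  if h : (winSet φ v i).Nonempty then (winSet φ v i).min' h else 0

theorem thr_update (φ : Fin n → Fin (K + 1) → ℝ) (v : Prof n K) (i : Fin n)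
    (y : Fin (K + 1)) : thr φ (update v i y) i = thr φ v i := by
  unfold thr
  simp only [winSet_update]

theorem self_mem_winSet {φ : Fin n → Fin (K + 1) → ℝ} {v : Prof n K} {i : Fin n}
    (h : Wins φ v i) : v i ∈ winSet φ v i := by
  rw [mem_winSet, update_eq_self]
  exact h

theorem thr_le {φ : Fin n → Fin (K + 1) → ℝ} {v : Prof n K} {i : Fin n} {x : Fin (K + 1)}
    (h : x ∈ winSet φ v i) : thr φ v i ≤ x := by
  unfold thr
  rw [dif_pos ⟨x, h⟩]
  exact Finset.min'_le _ _ h

theorem thr_mem {φ : Fin n → Fin (K + 1) → ℝ} {v : Prof n K} {i : Fin n}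
    (h : (winSet φ v i).Nonempty) : thr φ v i ∈ winSet φ v i := by
  unfold thr
  rw [dif_pos h]
  exact Finset.min'_mem _ _

open Classical in
/-- The optimal auction: the item goes to the first player with the largest ironed virtual value, if
it is positive, for the smallest winning bid. -/
noncomputable def optMech (φ : Fin n → Fin (K + 1) → ℝ) : Mech n K where
  alloc v := optAlloc φ v
  pay v i := if Wins φ v i then val (thr φ v i) else 0
  ir v i := by
    by_cases h : Wins φ v i
    · rw [if_pos h, if_pos (optAlloc_iff.2 h)]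
      exact val_mono (thr_le (self_mem_winSet h))
    · rw [if_neg h, if_neg (fun h1 => h (optAlloc_iff.1 h1))]
  npt v i := by
    split_ifs
    · exact val_nonneg _
    · exact le_rfl

theorem optMech_alloc (φ : Fin n → Fin (K + 1) → ℝ) (v : Prof n K) (i : Fin n) :
    (optMech φ).alloc v = some i ↔ Wins φ v i := optAlloc_iff

open Classical in
theorem optMech_pay (φ : Fin n → Fin (K + 1) → ℝ) (v : Prof n K) (i : Fin n) :
    (optMech φ).pay v i = if Wins φ v i then val (thr φ v i) else 0 := by
  unfold optMech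
  simp only

open Classical in
theorem optMech_profit (φ : Fin n → Fin (K + 1) → ℝ) (v : Prof n K) (i : Fin n)
    (x : Fin (K + 1)) :
    (optMech φ).profit i v x = if Wins φ v i then val x - val (thr φ v i) else 0 := by
  unfold Mech.profit
  rw [optMech_pay]
  by_cases h : Wins φ v i
  · rw [if_pos h, if_pos h, if_pos ((optMech_alloc φ v i).2 h)]
  · rw [if_neg h, if_neg h, if_neg (fun h1 => h ((optMech_alloc φ v i).1 h1)), sub_zero]

/-- the optimal auction is truthful -/
theorem optMech_truthful {φ : Fin n → Fin (K + 1) → ℝ} (hφ : ∀ i, Monotone (φ i)) :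
    (optMech φ).IsMoral 0 := by
  classical
  intro v i x hg
  exfalso
  have hle : (optMech φ).gain v i x ≤ 0 := by
    unfold Mech.gain
    rw [optMech_profit, optMech_profit, thr_update]
    by_cases h : Wins φ v i
    · rw [if_pos h]
      have h1 := val_mono (thr_le (self_mem_winSet h))
      split_ifs
      · linarith
      · linarith
    · rw [if_neg h]
      split_ifs with h1
      · have h2 : v i < thr φ v i := by
          by_contra hne
          push Not at hne
          have h3 : (winSet φ v i).Nonempty := ⟨x, mem_winSet.2 h1⟩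
          have h4 := (mem_winSet.1 (thr_mem h3)).up (hφ i hne)
          rw [update_eq_self] at h4
          exact h h4
        have := val_mono h2.le
        linarith
      · simp
  linarith

open Classical in
theorem piv_eq_sum (hn : 0 < n) (φ : Fin n → Fin (K + 1) → ℝ) (v : Prof n K) :
    piv φ v = ∑ i, if Wins φ v i then φ i (v i) else 0 := by
  obtain ⟨J, hJ⟩ := exists_top hn φ v
  rw [piv_top φ v hJ]
  by_cases h : 0 < φ J (v J)
  · rw [max_eq_right h.le, Finset.sum_eq_single J]
    · rw [if_pos ⟨hJ, h⟩]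
    · intro j _ hj
      rw [if_neg]
      intro h1
      exact hj (h1.unique ⟨hJ, h⟩)
    · intro h1
      exact absurd (Finset.mem_univ J) h1
  · rw [max_eq_left (not_lt.1 h), Finset.sum_eq_zero]
    intro j _
    rw [if_neg]
    intro h1
    exact h (h1.2.trans_le (hJ.le j))

open Classical in
/-- the revenue on a line -/
theorem line_eq {φ : Fin n → Fin (K + 1) → ℝ} {f : Fin (K + 1) → ℝ} (i : Fin n)
    (hφ : IsIroned f (φ i)) (v : Prof n K) :
    ∑ x, f x * ((optMech φ).pay (update v i x) i -
      (if Wins φ (update v i x) i then φ i (update v i x i) else 0)) = 0 := by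
  have h1 : ∀ x ∈ (univ : Finset (Fin (K + 1))), f x * ((optMech φ).pay (update v i x) i -
      (if Wins φ (update v i x) i then φ i (update v i x i) else 0)) =
      if x ∈ winSet φ v i then f x * (val (thr φ v i) - φ i x) else 0 := by
    intro x _
    rw [optMech_pay, thr_update, update_self]
    by_cases h : Wins φ (update v i x) i
    · rw [if_pos h, if_pos h, if_pos (mem_winSet.2 h)]
    · rw [if_neg h, if_neg h, if_neg (fun h1 => h (mem_winSet.1 h1)), sub_zero, mul_zero]
  rw [Finset.sum_congr rfl h1, ← Finset.sum_filter, Finset.filter_mem_eq_inter,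
    Finset.univ_inter]
  by_cases hne : (winSet φ v i).Nonempty
  · have hS : winSet φ v i = univ.filter (thr φ v i ≤ ·) := by
      ext x
      rw [Finset.mem_filter]
      refine ⟨fun hx => ⟨Finset.mem_univ x, thr_le hx⟩, fun hx => ?_⟩
      exact mem_winSet.2 ((mem_winSet.1 (thr_mem hne)).up (hφ.mono hx.2))
    have hj := hφ.jump (thr φ v i) (by
      intro y hy
      refine lt_of_le_of_ne (hφ.mono hy.le) (fun he => ?_)
      have h2 : y ∈ winSet φ v i := mem_winSet.2 ((mem_winSet.1 (thr_mem hne)).up he.ge)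
      exact absurd (thr_le h2) (not_le.2 hy))
    rw [← hS] at hj
    have h3 : ∑ x ∈ winSet φ v i, f x * (val (thr φ v i) - φ i x) =
        val (thr φ v i) * ∑ x ∈ winSet φ v i, f x - ∑ x ∈ winSet φ v i, f x * φ i x := by
      rw [Finset.mul_sum, ← Finset.sum_sub_distrib]
      exact Finset.sum_congr rfl fun x _ => by ring
    rw [h3, hj, sub_self]
  · rw [Finset.not_nonempty_iff_eq_empty] at hne
    rw [hne, Finset.sum_empty]

/-- **The revenue of the optimal auction.** -/
theorem rev_optMech {F φ : Fin n → Fin (K + 1) → ℝ} (hn : 0 < n)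
    (hsum : ∀ i, ∑ x, F i x = 1) (hφ : ∀ i, IsIroned (F i) (φ i)) :
    rev F (optMech φ) = ∑ v, prob F v * piv φ v := by
  classical
  have h1 : ∀ i, ∑ v, prob F v * ((optMech φ).pay v i -
      (if Wins φ v i then φ i (v i) else 0)) = 0 := by
    intro i
    rw [resample F hsum i]
    apply Finset.sum_eq_zero
    intro v _
    rw [line_eq i (hφ i) v, mul_zero]
  have h2 : rev F (optMech φ) - ∑ v, prob F v * piv φ v =
      ∑ i, ∑ v, prob F v * ((optMech φ).pay v i - (if Wins φ v i then φ i (v i) else 0)) := by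
    unfold rev
    rw [Finset.sum_comm (s := (univ : Finset (Fin n))), ← Finset.sum_sub_distrib]
    apply Finset.sum_congr rfl
    intro v _
    rw [piv_eq_sum hn, ← Finset.mul_sum, Finset.sum_sub_distrib, mul_sub]
  rw [Finset.sum_eq_zero (fun i _ => h1 i)] at h2
  linarith

/-- **No moral mechanism has a larger revenue than the optimal truthful one.** -/
theorem exists_truthful {F : Fin n → Fin (K + 1) → ℝ} (hF : ∀ i x, 0 < F i x)
    (hsum : ∀ i, ∑ x, F i x = 1) :
    ∃ M₀ : Mech n K, M₀.IsMoral 0 ∧ ∀ M : Mech n K, ∀ α : ℝ, 0 ≤ α → α ≤ 1 → M.IsMoral α →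
      rev F M ≤ rev F M₀ := by
  choose φ hφ using fun i => exists_ironed (hF i)
  refine ⟨optMech φ, optMech_truthful fun i => (hφ i).mono, ?_⟩
  intro M α h0 h1 hM
  rcases Nat.eq_zero_or_pos n with hn | hn
  · subst hn
    unfold rev
    simp
  · rw [rev_optMech hn hsum hφ]
    exact rev_le hn hF hsum hφ (IsMoral.mono hM h0 h1)

theorem R_eq {F : Fin n → Fin (K + 1) → ℝ} (hF : ∀ i x, 0 < F i x)
    (hsum : ∀ i, ∑ x, F i x = 1) {α : ℝ} (h0 : 0 ≤ α) (h1 : α ≤ 1) : R F α = R F 0 := by
  obtain ⟨M₀, hM₀, hmax⟩ := exists_truthful hF hsum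
  have h2 : ∀ β : ℝ, 0 ≤ β → β ≤ 1 → R F β = rev F M₀ := by
    intro β hβ0 hβ1
    apply IsGreatest.csSup_eq
    refine ⟨⟨M₀, IsMoral.mono hM₀ le_rfl hβ0, rfl⟩, ?_⟩
    rintro r ⟨M, hM, rfl⟩
    exact hmax M β hβ0 hβ1 hM
  rw [h2 α h0 h1, h2 0 le_rfl zero_le_one]

end Q70.Mo
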