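import Mathlib
import Pool.Agent.Helper472.Lat_Chars

/-!
# Multipliers commuting with an isometric representation of a compact abelian group
-/

open MeasureTheory Filter Topology

set_option linter.unusedSectionVars false
set_option linter.deprecated false

namespace Q70.MultAlg

universe u v

section Chars

variable {G : Type u} [CommGroup G] [TopologicalSpace G] [IsTopologicalGroup G]

/-- a character as a continuous complex function -/
noncomputable def cc (χ : ContinuousMonoidHom G Circle) : C(G, ℂ) :=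
  ⟨fun g => ((χ g : Circle) : ℂ), by
    have := χ.continuous_toFun
    fun_prop⟩

@[simp] lemma cc_apply (χ : ContinuousMonoidHom G Circle) (g : G) : cc χ g = ((χ g : Circle) : ℂ) :=
  rfl

lemma cc_mul (χ ψ : ContinuousMonoidHom G Circle) : cc χ * cc ψ = cc (χ * ψ) := by
  ext g
  simp [cc]

lemma cc_one : cc (1 : ContinuousMonoidHom G Circle) = 1 := by
  ext g
  simp [cc]

lemma cc_star (χ : ContinuousMonoidHom G Circle) : star (cc χ) = cc χ⁻¹ := by
  ext g
  have h : (χ⁻¹) g = (χ g)⁻¹ := rfl
  rw [cc_apply, h, Circle.coe_inv_eq_conj]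
  rfl

variable (G) in
/-- the star subalgebra of trigonometric polynomials -/
noncomputable def trigAlg [CompactSpace G] : StarSubalgebra ℂ C(G, ℂ) where
  toSubalgebra := Algebra.adjoin ℂ (Set.range (cc (G := G)))
  star_mem' := by
    intro a ha
    induction ha using Algebra.adjoin_induction with
    | mem x hx =>
      obtain ⟨χ, rfl⟩ := hx
      rw [cc_star]
      exact Algebra.subset_adjoin ⟨_, rfl⟩
    | algebraMap r =>
      rw [← algebraMap_star_comm]
      exact Subalgebra.algebraMap_mem _ _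
    | add x y _ _ hx hy =>
      rw [star_add]; exact Subalgebra.add_mem _ hx hy
    | mul x y _ _ hx hy =>
      rw [star_mul]; exact Subalgebra.mul_mem _ hy hx

lemma trigAlg_dense [CompactSpace G] [T2Space G] :
    (trigAlg G).topologicalClosure = ⊤ := by
  apply ContinuousMap.starSubalgebra_topologicalClosure_eq_top_of_separatesPoints
  intro x y hxy
  have h1 : x * y⁻¹ ≠ 1 := by
    intro h
    exact hxy (mul_inv_eq_one.1 h)
  obtain ⟨χ, hχ⟩ := Pool.LatH472.chars (x * y⁻¹) h1
  refine ⟨cc χ, ⟨cc χ, ?_, rfl⟩, ?_⟩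
  · exact Algebra.subset_adjoin ⟨_, rfl⟩
  · intro h
    apply hχ
    rw [map_mul, map_inv]
    have : χ x = χ y := Subtype.ext h
    rw [this, mul_inv_cancel]

/-- trigonometric polynomials form the span of the characters -/
lemma mem_trigAlg_span [CompactSpace G] {q : C(G, ℂ)} (hq : q ∈ trigAlg G) :
    q ∈ Submodule.span ℂ (Set.range (cc (G := G))) := by
  have h : q ∈ Subalgebra.toSubmodule (Algebra.adjoin ℂ (Set.range (cc (G := G)))) := hq
  rw [Algebra.adjoin_eq_span] at h
  refine Submodule.span_mono ?_ h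
  have : (Submonoid.closure (Set.range (cc (G := G))) : Set C(G, ℂ))
      ⊆ (({ carrier := Set.range (cc (G := G)),
            mul_mem' := by
              rintro _ _ ⟨χ, rfl⟩ ⟨ψ, rfl⟩
              exact ⟨χ * ψ, (cc_mul χ ψ).symm⟩
            one_mem' := ⟨1, cc_one⟩ } : Submonoid C(G, ℂ)) : Set C(G, ℂ)) := by
    rw [SetLike.coe_subset_coe, Submonoid.closure_le]
    exact subset_rfl
  exact this

/-- approximation of continuous functions by trigonometric polynomials -/
lemma exists_trig [CompactSpace G] [T2Space G] (k : C(G, ℂ)) {ε : ℝ} (hε : 0 < ε) :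
    ∃ q ∈ Submodule.span ℂ (Set.range (cc (G := G))), ‖q - k‖ < ε := by
  have h : k ∈ (trigAlg G).topologicalClosure := by rw [trigAlg_dense]; trivial
  rw [← SetLike.mem_coe, StarSubalgebra.topologicalClosure_coe] at h
  obtain ⟨q, hq, hd⟩ := Metric.mem_closure_iff.1 h ε hε
  exact ⟨q, mem_trigAlg_span hq, by rw [← dist_eq_norm, dist_comm]; exact hd⟩

variable [MeasurableSpace G] [BorelSpace G] (μ : Measure G)

lemma integral_char [μ.IsMulLeftInvariant] {χ : ContinuousMonoidHom G Circle} (hχ : χ ≠ 1) :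
    ∫ g, cc χ g ∂μ = 0 := by
  obtain ⟨h, hh⟩ : ∃ h, χ h ≠ 1 := by
    by_contra hcon
    push Not at hcon
    exact hχ (ContinuousMonoidHom.ext hcon)
  have h1 : ∫ g, cc χ (h * g) ∂μ = ∫ g, cc χ g ∂μ := integral_mul_left_eq_self _ h
  have h2 : ∫ g, cc χ (h * g) ∂μ = ((χ h : Circle) : ℂ) * ∫ g, cc χ g ∂μ := by
    rw [← integral_const_mul]
    congr 1
    ext g
    simp [cc]
  rw [h2] at h1
  have h3 : (((χ h : Circle) : ℂ) - 1) * ∫ g, cc χ g ∂μ = 0 := by
    rw [sub_mul, one_mul, h1, sub_self]
  rcases mul_eq_zero.1 h3 with h4 | h4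
  · exfalso
    apply hh
    apply Subtype.ext
    simpa using sub_eq_zero.1 h4
  · exact h4

end Chars

section Abs

variable {G : Type u} [CommGroup G] [TopologicalSpace G] [IsTopologicalGroup G] [CompactSpace G]
  [T2Space G] [MeasurableSpace G] [BorelSpace G] (μ : Measure G) [IsProbabilityMeasure μ]
  [μ.IsHaarMeasure]
variable {X : Type v} [NormedAddCommGroup X] [NormedSpace ℂ X] [CompleteSpace X]

/-- an isometric strongly continuous representation of `G` -/
structure Rep (U : G → X →L[ℂ] X) : Prop where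
  isom : ∀ g f, ‖U g f‖ = ‖f‖
  one : U 1 = 1
  mul : ∀ g h, U (g * h) = U g * U h
  cont : ∀ f, Continuous fun g => U g f

variable {U : G → X →L[ℂ] X} (hU : Rep U)
include hU

omit [T2Space G] in
lemma conv_integrable (φ : C(G, ℂ)) (f : X) : Integrable (fun g => φ g • U g f) μ :=
  (φ.continuous.smul (hU.cont f)).integrable_of_hasCompactSupport
    (HasCompactSupport.of_compactSpace _)

omit [T2Space G] in
lemma norm_integrable (φ : C(G, ℂ)) : Integrable (fun g => ‖φ g‖) μ :=
  (φ.continuous.norm).integrable_of_hasCompactSupport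
    (HasCompactSupport.of_compactSpace _)

/-- the convolution operator `f ↦ ∫ φ(g) U_g f dg` -/
noncomputable def conv (φ : C(G, ℂ)) : X →L[ℂ] X :=
  LinearMap.mkContinuous
    { toFun := fun f => ∫ g, φ g • U g f ∂μ
      map_add' := by
        intro f g
        rw [← integral_add (conv_integrable μ hU φ f) (conv_integrable μ hU φ g)]
        simp only [map_add, smul_add]
      map_smul' := by
        intro c f
        simp only [map_smul, RingHom.id_apply]
        rw [← integral_smul]
        congr 1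
        funext x
        rw [smul_comm] }
    (∫ g, ‖φ g‖ ∂μ) (by
      intro f
      simp only [LinearMap.coe_mk, AddHom.coe_mk]
      refine (norm_integral_le_integral_norm _).trans ?_
      rw [← integral_mul_const]
      apply le_of_eq
      congr 1
      funext g
      rw [norm_smul, hU.isom])

lemma conv_apply (φ : C(G, ℂ)) (f : X) : conv μ hU φ f = ∫ g, φ g • U g f ∂μ := rfl

lemma conv_norm (φ : C(G, ℂ)) : ‖conv μ hU φ‖ ≤ ∫ g, ‖φ g‖ ∂μ :=
  LinearMap.mkContinuous_norm_le _ (integral_nonneg fun _ => norm_nonneg _) _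

lemma conv_add (φ ψ : C(G, ℂ)) : conv μ hU (φ + ψ) = conv μ hU φ + conv μ hU ψ := by
  ext f
  rw [ContinuousLinearMap.add_apply, conv_apply, conv_apply, conv_apply,
    ← integral_add (conv_integrable μ hU φ f) (conv_integrable μ hU ψ f)]
  congr 1
  funext g
  rw [ContinuousMap.add_apply, add_smul]

lemma conv_smul (c : ℂ) (φ : C(G, ℂ)) : conv μ hU (c • φ) = c • conv μ hU φ := by
  ext f
  rw [ContinuousLinearMap.smul_apply, conv_apply, conv_apply, ← integral_smul]
  congr 1
  funext g
  rw [ContinuousMap.smul_apply, smul_assoc]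

lemma conv_comm {T : X →L[ℂ] X} (hT : ∀ g, T * U g = U g * T) (φ : C(G, ℂ)) :
    T * conv μ hU φ = conv μ hU φ * T := by
  ext f
  rw [ContinuousLinearMap.mul_apply, ContinuousLinearMap.mul_apply, conv_apply, conv_apply,
    ← ContinuousLinearMap.integral_comp_comm T (conv_integrable μ hU φ f)]
  congr 1
  funext g
  rw [map_smul]
  congr 1
  have := hT g
  calc T (U g f) = (T * U g) f := rfl
    _ = (U g * T) f := by rw [this]
    _ = U g (T f) := rfl

lemma U_comm (g h : G) : U g * U h = U h * U g := by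
  rw [← hU.mul, ← hU.mul, mul_comm]

/-- the approximate identity -/
lemma approx (f : X) {ε : ℝ} (hε : 0 < ε) :
    ∃ q ∈ Submodule.span ℂ (Set.range (cc (G := G))), ‖conv μ hU q f - f‖ ≤ ε ∧
      ∫ g, ‖q g‖ ∂μ ≤ 1 + ε := by
  classical
  obtain ⟨δ, hδ, hδ1, hδ2⟩ : ∃ δ : ℝ, 0 < δ ∧ δ * ‖f‖ ≤ ε / 2 ∧ δ ≤ ε := by
    refine ⟨min ε (ε / 2 / (‖f‖ + 1)), ?_, ?_, min_le_left _ _⟩
    · apply lt_min hε; positivity
    · calc min ε (ε / 2 / (‖f‖ + 1)) * ‖f‖ ≤ ε / 2 / (‖f‖ + 1) * ‖f‖ :=
          mul_le_mul_of_nonneg_right (min_le_right _ _) (norm_nonneg _)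
        _ ≤ ε / 2 / (‖f‖ + 1) * (‖f‖ + 1) := by
          apply mul_le_mul_of_nonneg_left _ (by positivity); linarith
        _ = ε / 2 := by field_simp
  -- the neighbourhood
  have hcont := hU.cont f
  have hN : {g : G | ‖U g f - f‖ < ε / 2} ∈ 𝓝 (1 : G) := by
    apply IsOpen.mem_nhds
    · exact isOpen_lt ((hcont.sub continuous_const).norm) continuous_const
    · simp [hU.one, hε]
  obtain ⟨N, hNsub, hNo, hN1⟩ := mem_nhds_iff.1 hN
  obtain ⟨k0, hk0, hk1, hk01⟩ := exists_continuous_zero_one_of_isClosed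
    (s := Nᶜ) (t := {(1 : G)}) hNo.isClosed_compl isClosed_singleton
    (by rw [Set.disjoint_singleton_right]; exact fun h => h hN1)
  have hint : Integrable (fun g => k0 g) μ :=
    k0.continuous.integrable_of_hasCompactSupport (HasCompactSupport.of_compactSpace _)
  have hpos : 0 < ∫ g, k0 g ∂μ := by
    apply k0.continuous.integral_pos_of_hasCompactSupport_nonneg_nonzero
      (HasCompactSupport.of_compactSpace _) (x := 1)
    · intro g; exact (hk01 g).1
    · rw [hk1 rfl]; simp
  set I : ℝ := ∫ g, k0 g ∂μ with hI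
  let k : C(G, ℂ) := ⟨fun g => ((k0 g / I : ℝ) : ℂ), by
    have := k0.continuous
    fun_prop⟩
  have hk : ∀ g, k g = ((k0 g / I : ℝ) : ℂ) := fun g => rfl
  have hknorm : ∀ g, ‖k g‖ = k0 g / I := by
    intro g
    rw [hk, Complex.norm_real, Real.norm_of_nonneg (div_nonneg (hk01 g).1 hpos.le)]
  have hkint : ∫ g, ‖k g‖ ∂μ = 1 := by
    simp_rw [hknorm]
    rw [integral_div, ← hI, div_self hpos.ne']
  have hkint2 : ∫ g, k g ∂μ = 1 := by
    simp_rw [hk]
    rw [integral_complex_ofReal, integral_div, ← hI, div_self hpos.ne']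
    simp
  have hkc : ‖conv μ hU k f - f‖ ≤ ε / 2 := by
    have e : conv μ hU k f - f = ∫ g, k g • (U g f - f) ∂μ := by
      have e1 : f = ∫ g, k g • f ∂μ := by
        rw [integral_smul_const, hkint2, one_smul]
      conv_lhs => rw [conv_apply]; arg 2; rw [e1]
      rw [← integral_sub (conv_integrable μ hU k f)]
      · congr 1
        funext g
        rw [smul_sub]
      · exact (k.continuous.smul continuous_const).integrable_of_hasCompactSupport
          (HasCompactSupport.of_compactSpace _)
    rw [e]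
    calc ‖∫ g, k g • (U g f - f) ∂μ‖ ≤ ∫ g, ‖k g • (U g f - f)‖ ∂μ :=
          norm_integral_le_integral_norm _
      _ ≤ ∫ g, ‖k g‖ * (ε / 2) ∂μ := by
          apply integral_mono
          · exact ((k.continuous.smul (hcont.sub continuous_const)).norm).integrable_of_hasCompactSupport
              (HasCompactSupport.of_compactSpace _)
          · exact (norm_integrable μ hU k).mul_const _
          · intro g
            simp only
            rw [norm_smul]
            by_cases hg : g ∈ N
            · exact mul_le_mul_of_nonneg_left (hNsub hg).le (norm_nonneg _)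
            · rw [hknorm, hk0 (show g ∈ Nᶜ from hg)]
              simp
      _ = ε / 2 := by rw [integral_mul_const, hkint, one_mul]
  obtain ⟨q, hq, hqk⟩ := exists_trig k hδ
  refine ⟨q, hq, ?_, ?_⟩
  · have e : conv μ hU q = conv μ hU k + conv μ hU (q - k) := by
      rw [← conv_add]; congr 1; abel
    have hn : ‖conv μ hU (q - k)‖ ≤ δ := by
      refine (conv_norm μ hU _).trans ?_
      calc ∫ g, ‖(q - k) g‖ ∂μ ≤ ∫ _g, δ ∂μ := by
            apply integral_mono (norm_integrable μ hU _) (integrable_const _)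
            intro g
            exact ((q - k).norm_coe_le_norm g).trans hqk.le
        _ = δ := by simp
    rw [e, ContinuousLinearMap.add_apply]
    calc ‖conv μ hU k f + conv μ hU (q - k) f - f‖
        = ‖(conv μ hU k f - f) + conv μ hU (q - k) f‖ := by congr 1; abel
      _ ≤ ‖conv μ hU k f - f‖ + ‖conv μ hU (q - k) f‖ := norm_add_le _ _
      _ ≤ ε / 2 + δ * ‖f‖ := by
          apply add_le_add hkc
          exact (ContinuousLinearMap.le_opNorm _ _).trans
            (mul_le_mul_of_nonneg_right hn (norm_nonneg _))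
      _ ≤ ε := by linarith
  · calc ∫ g, ‖q g‖ ∂μ ≤ ∫ g, (‖k g‖ + δ) ∂μ := by
          apply integral_mono (norm_integrable μ hU _)
            ((norm_integrable μ hU _).add (integrable_const _))
          intro g
          have h1 : ‖(q - k) g‖ ≤ δ := ((q - k).norm_coe_le_norm g).trans hqk.le
          have h2 : q g = k g + (q - k) g := by simp
          change ‖q g‖ ≤ ‖k g‖ + δ
          rw [h2]
          refine (norm_add_le _ _).trans ?_
          exact add_le_add le_rfl h1
      _ = 1 + δ := by
          rw [integral_add (norm_integrable μ hU _) (integrable_const _), hkint]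
          simp
      _ ≤ 1 + ε := by linarith

/-- the projection on an isotypic component -/
noncomputable def P (χ : ContinuousMonoidHom G Circle) : X →L[ℂ] X := conv μ hU (cc χ⁻¹)

lemma P_self {χ : ContinuousMonoidHom G Circle} {e : X}
    (he : ∀ g, U g e = ((χ g : Circle) : ℂ) • e) : P μ hU χ e = e := by
  unfold P
  rw [conv_apply]
  have : ∀ g, cc χ⁻¹ g • U g e = e := by
    intro g
    rw [he, smul_smul]
    have : cc χ⁻¹ g * ((χ g : Circle) : ℂ) = 1 := by
      rw [← cc_apply χ, ← ContinuousMap.mul_apply, cc_mul, inv_mul_cancel, cc_one]; rfl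
    rw [this, one_smul]
  simp_rw [this]
  simp

lemma P_other {χ ψ : ContinuousMonoidHom G Circle} (h : ψ ≠ χ) {e : X}
    (he : ∀ g, U g e = ((ψ g : Circle) : ℂ) • e) : P μ hU χ e = 0 := by
  unfold P
  rw [conv_apply]
  have : ∀ g, cc χ⁻¹ g • U g e = cc (χ⁻¹ * ψ) g • e := by
    intro g
    rw [he, smul_smul, ← cc_mul, ContinuousMap.mul_apply, cc_apply ψ]
  simp_rw [this]
  rw [integral_smul_const, integral_char μ, zero_smul]
  intro hcon
  apply h
  rw [inv_mul_eq_one] at hcon
  exact hcon.symm

variable {E : ContinuousMonoidHom G Circle → X}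
  (hE : ∀ χ g, U g (E χ) = ((χ g : Circle) : ℂ) • E χ)
  (hdense : Dense (Submodule.span ℂ (Set.range E) : Set X))
include hE hdense

lemma P_range (χ : ContinuousMonoidHom G Circle) (x : X) :
    P μ hU χ x ∈ Submodule.span ℂ {E χ} := by
  have hcl : IsClosed ((Submodule.span ℂ {E χ} : Submodule ℂ X) : Set X) :=
    Submodule.closed_of_finiteDimensional _
  have hcl2 : IsClosed {x : X | P μ hU χ x ∈ Submodule.span ℂ {E χ}} :=
    hcl.preimage (P μ hU χ).continuous
  have hsub : (Submodule.span ℂ (Set.range E) : Set X)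
      ⊆ {x : X | P μ hU χ x ∈ Submodule.span ℂ {E χ}} := by
    intro x hx
    have hx' : x ∈ Submodule.span ℂ (Set.range E) := hx
    change P μ hU χ x ∈ Submodule.span ℂ {E χ}
    induction hx' using Submodule.span_induction with
    | mem y hy =>
      obtain ⟨ψ, rfl⟩ := hy
      by_cases h : ψ = χ
      · subst h
        rw [P_self μ hU (hE ψ)]
        exact Submodule.mem_span_singleton_self _
      · rw [P_other μ hU h (hE ψ)]
        exact Submodule.zero_mem _
    | zero => rw [map_zero]; exact Submodule.zero_mem _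
    | add y z hy hz h1 h2 => rw [map_add]; exact Submodule.add_mem _ (h1 hy) (h2 hz)
    | smul c y hy h1 => rw [map_smul]; exact Submodule.smul_mem _ _ (h1 hy)
  exact hcl2.closure_subset_iff.2 hsub (hdense x)

/-- a commuting operator is diagonal -/
lemma diag {T : X →L[ℂ] X} (hT : ∀ g, T * U g = U g * T) (χ : ContinuousMonoidHom G Circle) :
    ∃ t : ℂ, T (E χ) = t • E χ ∧ T * P μ hU χ = t • P μ hU χ := by
  have h1 : T (E χ) = P μ hU χ (T (E χ)) := by
    have := conv_comm μ hU hT (cc χ⁻¹)
    calc T (E χ) = T (P μ hU χ (E χ)) := by rw [P_self μ hU (hE χ)]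
      _ = (T * P μ hU χ) (E χ) := rfl
      _ = (P μ hU χ * T) (E χ) := by unfold P; rw [this]
      _ = P μ hU χ (T (E χ)) := rfl
  have h2 : T (E χ) ∈ Submodule.span ℂ {E χ} := by
    rw [h1]; exact P_range μ hU hE hdense χ _
  obtain ⟨t, ht⟩ := Submodule.mem_span_singleton.1 h2
  refine ⟨t, ht.symm, ?_⟩
  ext x
  obtain ⟨a, ha⟩ := Submodule.mem_span_singleton.1 (P_range μ hU hE hdense χ x)
  rw [ContinuousLinearMap.mul_apply, ContinuousLinearMap.smul_apply, ← ha, map_smul, ← ht,
    smul_comm]

include μ in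
/-- the main inequality: an element of the commutant which is bounded below on the commutant is
bounded below -/
lemma bounded_below {T : X →L[ℂ] X} (hT : ∀ g, T * U g = U g * T) {c : ℝ} (hc : 0 < c)
    (hE0 : ∀ χ, E χ ≠ 0)
    (hbd : ∀ S : X →L[ℂ] X, (∀ g, S * U g = U g * S) → c * ‖S‖ ≤ ‖T * S‖) (f : X) :
    c * ‖f‖ ≤ ‖T f‖ := by
  -- every convolution operator with a trigonometric polynomial is divisible by `T`
  have hdiv : ∀ q ∈ Submodule.span ℂ (Set.range (cc (G := G))),
      ∃ S : X →L[ℂ] X, (∀ g, S * U g = U g * S) ∧ T * S = conv μ hU q := by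
    intro q hq
    induction hq using Submodule.span_induction with
    | mem y hy =>
      obtain ⟨ψ, rfl⟩ := hy
      obtain ⟨t, ht1, ht2⟩ := diag μ hU hE hdense hT ψ⁻¹
      have ht0 : t ≠ 0 := by
        intro h0
        rw [h0, zero_smul] at ht2
        have h3 := hbd (P μ hU ψ⁻¹) (fun g => (conv_comm μ hU (fun h => U_comm hU g h) _).symm)
        rw [ht2, norm_zero] at h3
        have h4 : ‖P μ hU ψ⁻¹‖ = 0 := by
          have := norm_nonneg (P μ hU ψ⁻¹)
          nlinarith
        have h5 : P μ hU ψ⁻¹ = 0 := norm_eq_zero.1 h4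
        have h6 := P_self μ hU (hE ψ⁻¹)
        rw [h5] at h6
        exact hE0 _ h6.symm
      refine ⟨t⁻¹ • P μ hU ψ⁻¹, ?_, ?_⟩
      · intro g
        rw [smul_mul_assoc, mul_smul_comm]
        congr 1
        exact (conv_comm μ hU (fun h => U_comm hU g h) _).symm
      · rw [mul_smul_comm, ht2, smul_smul, inv_mul_cancel₀ ht0, one_smul]
        unfold P
        rw [inv_inv]
    | zero =>
      refine ⟨0, fun g => by simp, ?_⟩
      have := conv_smul μ hU 0 (0 : C(G, ℂ))
      rw [zero_smul, zero_smul] at this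
      rw [this, mul_zero]
    | add y z _ _ h1 h2 =>
      obtain ⟨S1, hS1, hT1⟩ := h1
      obtain ⟨S2, hS2, hT2⟩ := h2
      refine ⟨S1 + S2, fun g => by rw [add_mul, mul_add, hS1, hS2], ?_⟩
      rw [mul_add, hT1, hT2, conv_add]
    | smul a y _ h1 =>
      obtain ⟨S1, hS1, hT1⟩ := h1
      refine ⟨a • S1, fun g => by rw [smul_mul_assoc, mul_smul_comm, hS1], ?_⟩
      rw [mul_smul_comm, hT1, conv_smul]
  -- the estimate
  by_contra hcon
  push Not at hcon
  set η : ℝ := c * ‖f‖ - ‖T f‖ with hη
  have hη0 : 0 < η := by linarith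
  obtain ⟨ε, hε, hε1⟩ : ∃ ε : ℝ, 0 < ε ∧ ε * (‖T f‖ + c) < η := by
    refine ⟨η / 2 / (‖T f‖ + c), by positivity, ?_⟩
    rw [div_mul_cancel₀]
    · linarith
    · positivity
  obtain ⟨q, hq, hq1, hq2⟩ := approx μ hU f hε
  obtain ⟨S, hS, hTS⟩ := hdiv q hq
  -- `S` commutes with `T`
  have hcomm : T * S = S * T := by
    -- both are diagonal on the dense span
    have : ∀ x ∈ Submodule.span ℂ (Set.range E), (T * S) x = (S * T) x := by
      intro x hx
      induction hx using Submodule.span_induction with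
      | mem y hy =>
        obtain ⟨ψ, rfl⟩ := hy
        obtain ⟨t, ht1, -⟩ := diag μ hU hE hdense hT ψ
        obtain ⟨s, hs1, -⟩ := diag μ hU hE hdense hS ψ
        rw [ContinuousLinearMap.mul_apply, ContinuousLinearMap.mul_apply, hs1, ht1, map_smul,
          map_smul, hs1, ht1, smul_comm]
      | zero => simp
      | add y z _ _ h1 h2 => rw [map_add, map_add, h1, h2]
      | smul a y _ h1 => rw [map_smul, map_smul, h1]
    ext x
    exact congrFun (Continuous.ext_on hdense (T * S).continuous (S * T).continuous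
      (fun x hx => this x hx)) x
  have h1 : c * ‖S‖ ≤ 1 + ε := (hbd S hS).trans (by rw [hTS]; exact (conv_norm μ hU q).trans hq2)
  have h2 : ‖conv μ hU q f‖ ≤ ‖S‖ * ‖T f‖ := by
    rw [← hTS, hcomm]
    exact S.le_opNorm _
  have h3 : ‖f‖ ≤ ‖conv μ hU q f‖ + ε := by
    have := norm_sub_norm_le f (conv μ hU q f)
    rw [norm_sub_rev] at this
    linarith
  have h4 : c * ‖f‖ ≤ (1 + ε) * ‖T f‖ + c * ε := by
    calc c * ‖f‖ ≤ c * (‖S‖ * ‖T f‖ + ε) := by
          apply mul_le_mul_of_nonneg_left _ hc.le; linarith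
      _ = (c * ‖S‖) * ‖T f‖ + c * ε := by ring
      _ ≤ (1 + ε) * ‖T f‖ + c * ε := by
          gcongr
  nlinarith

include μ in
/-- an element of the commutant which is bounded below on the commutant is invertible in the
commutant -/
lemma invertible {T : X →L[ℂ] X} (hT : ∀ g, T * U g = U g * T) {c : ℝ} (hc : 0 < c)
    (hE0 : ∀ χ, E χ ≠ 0)
    (hbd : ∀ S : X →L[ℂ] X, (∀ g, S * U g = U g * S) → c * ‖S‖ ≤ ‖T * S‖) :
    ∃ R : X →L[ℂ] X, (∀ g, R * U g = U g * R) ∧ T * R = 1 ∧ R * T = 1 := by
  have hbb := bounded_below μ hU hE hdense hT hc hE0 hbd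
  have hanti : AntilipschitzWith (Real.toNNReal c⁻¹) T := by
    apply T.antilipschitz_of_bound
    intro x
    have := hbb x
    rw [Real.coe_toNNReal _ (by positivity)]
    rw [inv_mul_eq_div, le_div_iff₀ hc, mul_comm]
    exact this
  have hker : T.ker = ⊥ := by
    rw [LinearMap.ker_eq_bot]
    exact hanti.injective
  have hclosed : IsClosed (Set.range T) := hanti.isClosed_range T.uniformContinuous
  have hrange : T.range = ⊤ := by
    rw [Submodule.eq_top_iff']
    intro x
    have hsub : (Submodule.span ℂ (Set.range E) : Set X) ⊆ Set.range T := by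
      have : Submodule.span ℂ (Set.range E) ≤ T.range := by
        rw [Submodule.span_le]
        rintro _ ⟨χ, rfl⟩
        obtain ⟨t, ht1, -⟩ := diag μ hU hE hdense hT χ
        have ht0 : t ≠ 0 := by
          intro h0
          rw [h0, zero_smul] at ht1
          have := hbb (E χ)
          rw [ht1, norm_zero] at this
          have h2 : ‖E χ‖ = 0 := by
            have := norm_nonneg (E χ)
            nlinarith
          exact hE0 χ (norm_eq_zero.1 h2)
        refine ⟨t⁻¹ • E χ, ?_⟩
        change T (t⁻¹ • E χ) = E χ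
        rw [map_smul, ht1, smul_smul, inv_mul_cancel₀ ht0, one_smul]
      intro y hy
      exact this hy
    exact hclosed.closure_subset_iff.2 hsub (hdense x)
  let e := ContinuousLinearEquiv.ofBijective T hker hrange
  have he : ∀ x, e x = T x := fun x => rfl
  have hTR : T * (e.symm : X →L[ℂ] X) = 1 := by
    ext x
    change T (e.symm x) = x
    rw [← he, e.apply_symm_apply]
  have hRT : (e.symm : X →L[ℂ] X) * T = 1 := by
    ext x
    change e.symm (T x) = x
    rw [← he, e.symm_apply_apply]
  refine ⟨e.symm, ?_, hTR, hRT⟩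
  intro g
  calc (e.symm : X →L[ℂ] X) * U g = (e.symm : X →L[ℂ] X) * U g * (T * (e.symm : X →L[ℂ] X)) := by
        rw [hTR, mul_one]
    _ = (e.symm : X →L[ℂ] X) * (U g * T) * (e.symm : X →L[ℂ] X) := by
        simp only [mul_assoc]
    _ = (e.symm : X →L[ℂ] X) * (T * U g) * (e.symm : X →L[ℂ] X) := by rw [hT]
    _ = ((e.symm : X →L[ℂ] X) * T) * U g * (e.symm : X →L[ℂ] X) := by
        simp only [mul_assoc]
    _ = U g * (e.symm : X →L[ℂ] X) := by rw [hRT, one_mul]

end Abs

end Q70.MultAlg
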