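import Pool.Agent.Q130.NX.Fin3

set_option autoImplicit false

/-! N bodies grouped in singles and pairs: `σ i` is the partner of `i` (or `i` itself). -/

namespace Q70.Nb

open Pool.Agent.Y516.NW

variable {N : ℕ}

/-- `j` is in another group than `i` -/
def Ext (σ : Fin N → Fin N) (i j : Fin N) : Prop := i ≠ j ∧ j ≠ σ i

theorem Ext.symm {σ : Fin N → Fin N} (hσ : ∀ i, σ (σ i) = i) {i j : Fin N} (h : Ext σ i j) : Ext σ j i := by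
  refine ⟨h.1.symm, fun hh => h.2 ?_⟩
  rw [hh, hσ]

theorem Ext.left {σ : Fin N → Fin N} (hσ : ∀ i, σ (σ i) = i) {i j : Fin N} (h : Ext σ i j) : Ext σ (σ i) j := by
  refine ⟨fun hh => h.2 hh.symm, fun hh => h.1 ?_⟩
  rw [hh, hσ]

theorem Ext.right {σ : Fin N → Fin N} (hσ : ∀ i, σ (σ i) = i) {i j : Fin N} (h : Ext σ i j) : Ext σ i (σ j) :=
  (h.symm hσ |>.left hσ).symm hσ

/-- centres of mass of the groups -/
noncomputable def cs (m : Fin N → ℝ) (σ : Fin N → Fin N) (u : Cfg N) (i : Fin N) : E3 :=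
  (m i + m (σ i))⁻¹ • (m i • u i + m (σ i) • u (σ i))

theorem cs_hasDerivAt (m : Fin N → ℝ) (σ : Fin N → Fin N) (u : ℝ → Cfg N) (u' : Cfg N) (t : ℝ)
    (h : ∀ i, HasDerivAt (fun s => u s i) (u' i) t) (i : Fin N) :
    HasDerivAt (fun s => cs m σ (u s) i) (cs m σ u' i) t :=
  (((h i).const_smul (m i)).add ((h (σ i)).const_smul (m (σ i)))).const_smul ((m i + m (σ i))⁻¹)

theorem cs_smul (m : Fin N → ℝ) (σ : Fin N → Fin N) (c : ℝ) (u : Cfg N) (i : Fin N) :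
    cs m σ (fun k => c • u k) i = c • cs m σ u i := by
  unfold cs
  rw [smul_comm (m i) c, smul_comm (m (σ i)) c, ← smul_add, smul_comm]

theorem cs_sigma (m : Fin N → ℝ) (σ : Fin N → Fin N) (hσ : ∀ i, σ (σ i) = i) (u : Cfg N) (i : Fin N) :
    cs m σ u (σ i) = cs m σ u i := by
  unfold cs
  rw [hσ, add_comm (m (σ i)), add_comm (m (σ i) • u (σ i))]

theorem cs_near (m : Fin N → ℝ) (hm : ∀ i, 0 < m i) (σ : Fin N → Fin N) (q : Cfg N) (i : Fin N) :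
    ‖q i - cs m σ q i‖ ≤ ‖q i - q (σ i)‖ := by
  unfold cs
  have hs : 0 < m i + m (σ i) := add_pos (hm i) (hm _)
  have : q i - (m i + m (σ i))⁻¹ • (m i • q i + m (σ i) • q (σ i))
      = ((m i + m (σ i))⁻¹ * m (σ i)) • (q i - q (σ i)) := by
    have h1 : q i = ((m i + m (σ i))⁻¹ * (m i + m (σ i))) • q i := by
      rw [inv_mul_cancel₀ hs.ne', one_smul]
    nth_rewrite 1 [h1]
    module
  rw [this, norm_smul, Real.norm_of_nonneg (mul_nonneg (inv_nonneg.mpr hs.le) (hm _).le)]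
  refine mul_le_of_le_one_left (norm_nonneg _) ?_
  rw [inv_mul_le_iff₀ hs, mul_one]
  linarith [hm i]

theorem filter_not (σ : Fin N → Fin N) (i : Fin N) [DecidablePred (Ext σ i)] :
    Finset.univ.filter (fun j => ¬ Ext σ i j) = {i, σ i} := by
  ext j
  simp only [Finset.mem_filter, Finset.mem_univ, true_and, Finset.mem_insert, Finset.mem_singleton,
    Ext, ne_eq, not_and, not_not]
  constructor
  · intro h
    by_cases hij : i = j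
    · exact Or.inl hij.symm
    · exact Or.inr (h hij)
  · rintro (rfl | rfl) h
    · exact absurd rfl h
    · rfl

open Classical in
/-- the acceleration due to the other groups -/
noncomputable def ac (m : Fin N → ℝ) (σ : Fin N → Fin N) (q : Cfg N) (i k : Fin N) : E3 :=
  ∑ j ∈ Finset.univ.filter (fun j => Ext σ i j), (m j / ‖q j - q k‖ ^ 3) • (q j - q k)

open Classical in
theorem acc_split (m : Fin N → ℝ) (σ : Fin N → Fin N) (q : Cfg N) (i k l : Fin N)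
    (h : (k = i ∧ l = σ i) ∨ (k = σ i ∧ l = i)) :
    acc m q k = ac m σ q i k + (m l / ‖q l - q k‖ ^ 3) • (q l - q k) := by
  unfold acc ac
  rw [← Finset.sum_filter_add_sum_filter_not Finset.univ (fun j => Ext σ i j)]
  congr 1
  rw [filter_not]
  by_cases hi : i = σ i
  · rw [← hi]
    simp only [Finset.mem_singleton, Finset.insert_eq_of_mem, Finset.sum_singleton]
    rw [← hi] at h
    obtain ⟨rfl, rfl⟩ : k = i ∧ l = i := by tauto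
    rfl
  · rw [Finset.sum_pair hi]
    rcases h with ⟨rfl, rfl⟩ | ⟨rfl, rfl⟩
    · rw [sub_self, smul_zero, zero_add]
    · rw [sub_self, smul_zero, add_zero]

open Classical in
theorem cs_acc (m : Fin N → ℝ) (σ : Fin N → Fin N) (q : Cfg N) (i : Fin N) :
    cs m σ (acc m q) i = (m i + m (σ i))⁻¹ • (m i • ac m σ q i i + m (σ i) • ac m σ q i (σ i)) := by
  unfold cs
  rw [acc_split m σ q i i (σ i) (Or.inl ⟨rfl, rfl⟩), acc_split m σ q i (σ i) i (Or.inr ⟨rfl, rfl⟩)]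
  congr 1
  have h1 : q i - q (σ i) = -(q (σ i) - q i) := (neg_sub _ _).symm
  rw [h1, norm_neg, smul_add, smul_add, smul_smul, smul_neg, smul_neg, smul_smul]
  have h2 : m i * (m (σ i) / ‖q (σ i) - q i‖ ^ 3) = m (σ i) * (m i / ‖q (σ i) - q i‖ ^ 3) := by ring
  rw [h2]
  abel

open Classical in
theorem ac_le (m : Fin N → ℝ) (hm : ∀ i, 0 < m i) (σ : Fin N → Fin N) (q : Cfg N) (i k : Fin N) (D : Fin N → ℝ)
    (hD : ∀ j, Ext σ i j → 0 < D j ∧ D j ≤ ‖q j - q k‖) :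
    ‖ac m σ q i k‖ ≤ ∑ j ∈ Finset.univ.filter (fun j => Ext σ i j), m j / D j ^ 2 := by
  unfold ac
  refine norm_sum_le_of_le _ fun j hj => ?_
  obtain ⟨h1, h2⟩ := hD j (Finset.mem_filter.mp hj).2
  have h3 : 0 < ‖q j - q k‖ := h1.trans_le h2
  rw [norm_smul, Real.norm_of_nonneg (by have := hm j; positivity)]
  have h4 : m j / ‖q j - q k‖ ^ 3 * ‖q j - q k‖ = m j / ‖q j - q k‖ ^ 2 := by field_simp
  rw [h4]
  have := hm j
  gcongr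

open Classical in
theorem cs_acc_le (m : Fin N → ℝ) (hm : ∀ i, 0 < m i) (σ : Fin N → Fin N) (q : Cfg N) (i : Fin N) (D : Fin N → ℝ)
    (hD : ∀ j, Ext σ i j → 0 < D j ∧ D j ≤ ‖q j - q i‖ ∧ D j ≤ ‖q j - q (σ i)‖) :
    ‖cs m σ (acc m q) i‖ ≤ ∑ j ∈ Finset.univ.filter (fun j => Ext σ i j), m j / D j ^ 2 := by
  rw [cs_acc]
  have hs : 0 < m i + m (σ i) := add_pos (hm i) (hm _)
  have h1 := ac_le m hm σ q i i D (fun j hj => ⟨(hD j hj).1, (hD j hj).2.1⟩)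
  have h2 := ac_le m hm σ q i (σ i) D (fun j hj => ⟨(hD j hj).1, (hD j hj).2.2⟩)
  set S := ∑ j ∈ Finset.univ.filter (fun j => Ext σ i j), m j / D j ^ 2
  rw [norm_smul, Real.norm_of_nonneg (inv_nonneg.mpr hs.le), inv_mul_le_iff₀ hs]
  refine (norm_add_le _ _).trans ?_
  rw [norm_smul, norm_smul, Real.norm_of_nonneg (hm i).le, Real.norm_of_nonneg (hm _).le, add_mul]
  exact add_le_add (mul_le_mul_of_nonneg_left h1 (hm i).le) (mul_le_mul_of_nonneg_left h2 (hm _).le)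

theorem gdiff (x y : E3) (D : ℝ) (hD : 0 < D) (hx : D ≤ ‖x‖) (hy : D ≤ ‖y‖) :
    ‖(1 / ‖x‖ ^ 3) • x - (1 / ‖y‖ ^ 3) • y‖ ≤ 4 * ‖x - y‖ / D ^ 3 := by
  have hx0 : 0 < ‖x‖ := hD.trans_le hx
  have hy0 : 0 < ‖y‖ := hD.trans_le hy
  have e : (1 / ‖x‖ ^ 3) • x - (1 / ‖y‖ ^ 3) • y
      = (1 / ‖x‖ ^ 3) • (x - y) + (1 / ‖x‖ ^ 3 - 1 / ‖y‖ ^ 3) • y := by module
  rw [e]
  refine (norm_add_le _ _).trans ?_
  rw [norm_smul, norm_smul, Real.norm_of_nonneg (by positivity), Real.norm_eq_abs]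
  have hxy : |‖y‖ - ‖x‖| ≤ ‖x - y‖ := by
    rw [norm_sub_rev]; exact abs_norm_sub_norm_le y x
  have e2 : 1 / ‖x‖ ^ 3 - 1 / ‖y‖ ^ 3
      = (‖y‖ - ‖x‖) * (‖y‖ ^ 2 + ‖y‖ * ‖x‖ + ‖x‖ ^ 2) / (‖x‖ ^ 3 * ‖y‖ ^ 3) := by
    field_simp; ring
  have h1 : 1 / ‖x‖ ^ 3 * ‖x - y‖ ≤ ‖x - y‖ / D ^ 3 := by
    rw [div_mul_eq_mul_div, one_mul]; gcongr
  have h2 : |1 / ‖x‖ ^ 3 - 1 / ‖y‖ ^ 3| * ‖y‖
      ≤ ‖x - y‖ * (1 / (‖x‖ ^ 3) + 1 / (‖x‖ ^ 2 * ‖y‖) + 1 / (‖x‖ * ‖y‖ ^ 2)) := by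
    rw [e2, abs_div, abs_mul, abs_of_pos (show 0 < ‖y‖ ^ 2 + ‖y‖ * ‖x‖ + ‖x‖ ^ 2 by positivity),
      abs_of_pos (show 0 < ‖x‖ ^ 3 * ‖y‖ ^ 3 by positivity)]
    have e3 : |‖y‖ - ‖x‖| * (‖y‖ ^ 2 + ‖y‖ * ‖x‖ + ‖x‖ ^ 2) / (‖x‖ ^ 3 * ‖y‖ ^ 3) * ‖y‖
        = |‖y‖ - ‖x‖| * (1 / (‖x‖ ^ 3) + 1 / (‖x‖ ^ 2 * ‖y‖) + 1 / (‖x‖ * ‖y‖ ^ 2)) := by
      field_simp
    rw [e3]
    exact mul_le_mul_of_nonneg_right hxy (by positivity)
  have h3 : 1 / ‖x‖ ^ 3 + 1 / (‖x‖ ^ 2 * ‖y‖) + 1 / (‖x‖ * ‖y‖ ^ 2) ≤ 3 / D ^ 3 := by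
    have a1 : 1 / ‖x‖ ^ 3 ≤ 1 / D ^ 3 := by gcongr
    have a2 : 1 / (‖x‖ ^ 2 * ‖y‖) ≤ 1 / D ^ 3 := by
      refine one_div_le_one_div_of_le (by positivity) ?_
      calc D ^ 3 = D ^ 2 * D := by ring
        _ ≤ ‖x‖ ^ 2 * ‖y‖ := by gcongr
    have a3 : 1 / (‖x‖ * ‖y‖ ^ 2) ≤ 1 / D ^ 3 := by
      refine one_div_le_one_div_of_le (by positivity) ?_
      calc D ^ 3 = D * D ^ 2 := by ring
        _ ≤ ‖x‖ * ‖y‖ ^ 2 := by gcongr
    have a4 : (3:ℝ) / D ^ 3 = 1 / D ^ 3 + 1 / D ^ 3 + 1 / D ^ 3 := by ring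
    rw [a4]; linarith
  have h4 : ‖x - y‖ * (1 / ‖x‖ ^ 3 + 1 / (‖x‖ ^ 2 * ‖y‖) + 1 / (‖x‖ * ‖y‖ ^ 2)) ≤ ‖x - y‖ * (3 / D ^ 3) :=
    mul_le_mul_of_nonneg_left h3 (norm_nonneg _)
  have h5 : 4 * ‖x - y‖ / D ^ 3 = ‖x - y‖ / D ^ 3 + ‖x - y‖ * (3 / D ^ 3) := by ring
  rw [h5]
  linarith

open Classical in
/-- the tidal acceleration -/
theorem tidal (m : Fin N → ℝ) (hm : ∀ i, 0 < m i) (σ : Fin N → Fin N) (q : Cfg N) (i : Fin N) (D : Fin N → ℝ)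
    (hD : ∀ j, Ext σ i j → 0 < D j ∧ D j ≤ ‖q j - q i‖ ∧ D j ≤ ‖q j - q (σ i)‖) :
    ‖acc m q i - acc m q (σ i) + ((m i + m (σ i)) / ‖q i - q (σ i)‖ ^ 3) • (q i - q (σ i))‖
      ≤ ∑ j ∈ Finset.univ.filter (fun j => Ext σ i j), m j * (4 * ‖q i - q (σ i)‖ / D j ^ 3) := by
  have e : acc m q i - acc m q (σ i) + ((m i + m (σ i)) / ‖q i - q (σ i)‖ ^ 3) • (q i - q (σ i))
      = ∑ j ∈ Finset.univ.filter (fun j => Ext σ i j),
        m j • ((1 / ‖q j - q i‖ ^ 3) • (q j - q i) - (1 / ‖q j - q (σ i)‖ ^ 3) • (q j - q (σ i))) := by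
    rw [acc_split m σ q i i (σ i) (Or.inl ⟨rfl, rfl⟩), acc_split m σ q i (σ i) i (Or.inr ⟨rfl, rfl⟩)]
    have h1 : q (σ i) - q i = -(q i - q (σ i)) := (neg_sub _ _).symm
    have h3 : ac m σ q i i - ac m σ q i (σ i) = ∑ j ∈ Finset.univ.filter (fun j => Ext σ i j),
        m j • ((1 / ‖q j - q i‖ ^ 3) • (q j - q i) - (1 / ‖q j - q (σ i)‖ ^ 3) • (q j - q (σ i))) := by
      unfold ac
      rw [← Finset.sum_sub_distrib]
      refine Finset.sum_congr rfl fun j _ => ?_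
      rw [smul_sub (m j), smul_smul, smul_smul, mul_one_div, mul_one_div]
    rw [← h3, h1, norm_neg]
    module
  rw [e]
  refine norm_sum_le_of_le _ fun j hj => ?_
  obtain ⟨h1, h2, h3⟩ := hD j (Finset.mem_filter.mp hj).2
  rw [norm_smul, Real.norm_of_nonneg (hm j).le]
  refine mul_le_mul_of_nonneg_left ?_ (hm j).le
  refine (gdiff _ _ (D j) h1 h2 h3).trans (le_of_eq ?_)
  have h4 : q j - q i - (q j - q (σ i)) = -(q i - q (σ i)) := by abel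
  rw [h4, norm_neg]

end Q70.Nb
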