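import Pool.Agent.Q70.NbA

set_option autoImplicit false

/-! Free relative motion, internal energy of a pair, one step of the bootstrap. -/

namespace Q70.Nb

open MeasureTheory Set Pool.Agent.Y516.NW

variable {N : ℕ}

/-- the half line `X + s V`, `s ≥ 0`, keeps away from the origin: receding with speed at least `w`, or passing
at distance at least `d` from the origin and with speed at least `w` in the direction orthogonal to `X` -/
def GG (w d : ℝ) (X V : E3) : Prop :=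
  (w ^ 2 * ‖X‖ ^ 2 ≤ gr X V ∧ d ^ 2 * ‖V‖ ^ 2 ≤ gr X V) ∨ (0 ≤ inner ℝ X V ∧ w ≤ ‖V‖)

/-- open version of `GG` -/
def OGG (w d : ℝ) (X V : E3) : Prop :=
  (w ^ 2 * ‖X‖ ^ 2 < gr X V ∧ d ^ 2 * ‖V‖ ^ 2 < gr X V) ∨ (0 < inner ℝ X V ∧ w < ‖V‖)

theorem OGG.gg {w d : ℝ} {X V : E3} (h : OGG w d X V) : GG w d X V :=
  h.imp (fun h => ⟨h.1.le, h.2.le⟩) (fun h => ⟨h.1.le, h.2.le⟩)

theorem GG.fg {w d : ℝ} {X V : E3} (h : GG w d X V) : Pool.Agent.Q130.NX.FG w X V :=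
  h.imp (fun h => h.1) (fun h => h)

theorem GG.ogg {w d : ℝ} {X V : E3} (hw : 0 < w) (hd : 0 < d) (hX : d ≤ ‖X‖) (h : GG w d X V) :
    OGG (w / 2) (d / 2) X V := by
  have hX0 : 0 < ‖X‖ := hd.trans_le hX
  have hV : w ≤ ‖V‖ := h.fg.norm_le hX0
  have hV0 : 0 < ‖V‖ := hw.trans_le hV
  have h4 : 0 < w ^ 2 * ‖X‖ ^ 2 := by positivity
  have h5 : 0 < d ^ 2 * ‖V‖ ^ 2 := by positivity
  rcases h with ⟨h1, h2⟩ | ⟨h1, h2⟩
  · left
    exact ⟨by nlinarith, by nlinarith⟩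
  · rcases h1.eq_or_lt with h0 | h0
    · left
      have e : gr X V = ‖X‖ ^ 2 * ‖V‖ ^ 2 := by
        unfold gr
        rw [← h0]; ring
      rw [e]
      have h6 : w ^ 2 * ‖X‖ ^ 2 ≤ ‖X‖ ^ 2 * ‖V‖ ^ 2 := by
        rw [mul_comm]; gcongr
      have h7 : d ^ 2 * ‖V‖ ^ 2 ≤ ‖X‖ ^ 2 * ‖V‖ ^ 2 := by gcongr
      exact ⟨by nlinarith, by nlinarith⟩
    · right
      exact ⟨h0, by linarith⟩

theorem gr_le (X V : E3) (s : ℝ) : gr X V ≤ ‖V‖ ^ 2 * ‖X + s • V‖ ^ 2 := by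
  rw [norm_add_sq_real, inner_smul_right, norm_smul, mul_pow, Real.norm_eq_abs, sq_abs]
  unfold gr
  nlinarith [sq_nonneg (inner ℝ X V + s * ‖V‖ ^ 2)]

/-- the free motion keeps away from the origin -/
theorem gg_of {w d : ℝ} {X V : E3} (hw : 0 < w) (hd : 0 < d)
    (h : ∀ s : ℝ, 0 ≤ s → d ≤ ‖X + s • V‖ ∧ w * ‖X‖ ≤ ‖V‖ * ‖X + s • V‖) : GG w d X V := by
  have h0 := h 0 le_rfl
  rw [zero_smul, add_zero] at h0
  have hX0 : 0 < ‖X‖ := hd.trans_le h0.1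
  have hV : w ≤ ‖V‖ := le_of_mul_le_mul_right h0.2 hX0
  have hV0 : 0 < ‖V‖ := hw.trans_le hV
  by_cases hin : 0 ≤ inner ℝ X V
  · exact Or.inr ⟨hin, hV⟩
  · push Not at hin
    left
    obtain ⟨s, hs⟩ : ∃ s : ℝ, s = -inner ℝ X V / ‖V‖ ^ 2 := ⟨_, rfl⟩
    have hs0 : 0 ≤ s := by
      rw [hs]; exact div_nonneg (by linarith) (by positivity)
    obtain ⟨e1, e2⟩ := h s hs0
    have e3 : ‖V‖ ^ 2 * ‖X + s • V‖ ^ 2 = gr X V := by
      rw [norm_add_sq_real, inner_smul_right, norm_smul, mul_pow, Real.norm_eq_abs, sq_abs, hs]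
      unfold gr
      field_simp
      ring
    rw [← e3]
    constructor
    · rw [← mul_pow, ← mul_pow]
      gcongr
    · rw [mul_comm]
      gcongr

/-- lower bound of the lower bound of the distance -/
theorem FF_d {w d : ℝ} {X V : E3} (hd : 0 < d) (hX : d ≤ ‖X‖) (hV : 0 < ‖V‖) (h : GG w d X V) (s : ℝ)
    (hs : 0 ≤ s) : d ≤ Pool.Agent.Q130.NX.FF w X V s := by
  unfold Pool.Agent.Q130.NX.FF
  split_ifs with hg
  · rcases h with ⟨_, h2⟩ | ⟨h1, _⟩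
    · have h3 := h2.trans (gr_le X V s)
      have h4 : d ^ 2 ≤ ‖X + s • V‖ ^ 2 := by
        rw [mul_comm] at h3
        exact le_of_mul_le_mul_left h3 (by positivity)
      exact le_of_sq_le_sq h4 (norm_nonneg _)
    · refine hX.trans (le_of_sq_le_sq ?_ (norm_nonneg _))
      rw [norm_add_sq_real, inner_smul_right]
      have := mul_nonneg hs h1
      nlinarith [sq_nonneg ‖s • V‖]
  · refine hX.trans (Real.le_sqrt_of_sq_le ?_)
    nlinarith [mul_nonneg (sq_nonneg s) (sq_nonneg ‖V‖)]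

theorem FF_cont (w : ℝ) (X V : E3) : Continuous (Pool.Agent.Q130.NX.FF w X V) := by
  unfold Pool.Agent.Q130.NX.FF
  by_cases hg : w ^ 2 * ‖X‖ ^ 2 ≤ gr X V
  · simp only [hg, if_true]
    fun_prop
  · simp only [hg, if_false]
    fun_prop

/-- specific internal energy of the pair of `i` -/
noncomputable def hh (m : Fin N → ℝ) (σ : Fin N → Fin N) (q v : Cfg N) (i : Fin N) : ℝ :=
  ‖v i - v (σ i)‖ ^ 2 / 2 - (m i + m (σ i)) / ‖q i - q (σ i)‖

theorem hh_size (m : Fin N → ℝ) (σ : Fin N → Fin N) (q v : Cfg N) (i : Fin N) (w M : ℝ)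
    (hw : 0 < w) (hM : m i + m (σ i) ≤ M) (hne : q i ≠ q (σ i))
    (h : hh m σ q v i ≤ -(w ^ 2 / 2)) :
    ‖q i - q (σ i)‖ * w ^ 2 ≤ 2 * M ∧ ‖v i - v (σ i)‖ * ‖q i - q (σ i)‖ ≤ 2 * M / w := by
  have hr : 0 < ‖q i - q (σ i)‖ := norm_pos_iff.mpr (sub_ne_zero.mpr hne)
  unfold hh at h
  set r := ‖q i - q (σ i)‖
  set u := ‖v i - v (σ i)‖
  have hu : 0 ≤ u := norm_nonneg _
  have h1 : (u ^ 2 / 2 + w ^ 2 / 2) * r ≤ m i + m (σ i) := by
    rw [← le_div_iff₀ hr]; linarith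
  have h2 : 0 ≤ u ^ 2 * r := by positivity
  have h3 : 0 ≤ w ^ 2 * r := by positivity
  have h4 : r * w ^ 2 ≤ 2 * M := by linarith
  refine ⟨h4, ?_⟩
  have hM0 : 0 ≤ M := by nlinarith
  refine le_of_sq_le_sq ?_ (by positivity)
  have h5 : u ^ 2 * r ≤ 2 * M := by linarith
  rw [div_pow, le_div_iff₀ (by positivity)]
  calc (u * r) ^ 2 * w ^ 2 = (u ^ 2 * r) * (r * w ^ 2) := by ring
    _ ≤ (2 * M) * (2 * M) := by gcongr
    _ = _ := by ring

theorem hh_deriv (m : Fin N → ℝ) (σ : Fin N → Fin N) (q v : ℝ → Cfg N) (c : ℝ) (A : Cfg N) (t : ℝ)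
    (i : Fin N) (hq : ∀ i, HasDerivAt (fun s => q s i) (c • v t i) t)
    (hv : ∀ i, HasDerivAt (fun s => v s i) (c • A i) t) (hne : q t i ≠ q t (σ i)) :
    HasDerivAt (fun s => hh m σ (q s) (v s) i)
      (c * inner ℝ (v t i - v t (σ i))
        (A i - A (σ i) + ((m i + m (σ i)) / ‖q t i - q t (σ i)‖ ^ 3) • (q t i - q t (σ i)))) t := by
  have hr : 0 < ‖q t i - q t (σ i)‖ := norm_pos_iff.mpr (sub_ne_zero.mpr hne)
  have h1 : HasDerivAt (fun s => ‖v s i - v s (σ i)‖ ^ 2)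
      (2 * inner ℝ (v t i - v t (σ i)) (c • A i - c • A (σ i))) t := ((hv i).sub (hv (σ i))).norm_sq
  have h2 : HasDerivAt (fun s => ‖q s i - q s (σ i)‖ ^ 2)
      (2 * inner ℝ (q t i - q t (σ i)) (c • v t i - c • v t (σ i))) t :=
    ((hq i).sub (hq (σ i))).norm_sq
  have h3 := h2.sqrt (by positivity)
  simp only [Real.sqrt_sq (norm_nonneg _)] at h3
  have h4 := (h1.div_const 2).sub ((h3.inv hr.ne').const_mul (m i + m (σ i)))
  have h5 : (fun s => hh m σ (q s) (v s) i) = fun s => ‖v s i - v s (σ i)‖ ^ 2 / 2 -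
      (m i + m (σ i)) * ‖q s i - q s (σ i)‖⁻¹ := by
    funext s
    unfold hh
    rw [div_eq_mul_inv (m i + m (σ i))]
  rw [h5]
  refine h4.congr_deriv ?_
  rw [← smul_sub, ← smul_sub, inner_smul_right, inner_smul_right, inner_add_right, inner_smul_right,
    real_inner_comm (q t i - q t (σ i)) (v t i - v t (σ i))]
  field_simp
  try ring

end Q70.Nb
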