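import Pool.Agent.Q70.NbB

set_option autoImplicit false

/-! One step of the bootstrap. -/

namespace Q70.Nb

open MeasureTheory Set Pool.Agent.Y516.NW

variable {N : ℕ}

theorem pair_le (m : Fin N → ℝ) (hm : ∀ i, 0 < m i) (M : ℝ) (hM : ∑ i, m i ≤ M) (i j : Fin N)
    (hij : i ≠ j) : m i + m j ≤ M := by
  refine le_trans ?_ hM
  rw [← Finset.sum_pair hij]
  exact Finset.sum_le_sum_of_subset_of_nonneg (Finset.subset_univ _) (fun k _ _ => (hm k).le)

open Classical in
theorem step (m : Fin N → ℝ) (M : ℝ) (hm : ∀ i, 0 < m i) (hM : ∑ i, m i ≤ M) (hMpos : 0 < M)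
    (σ : Fin N → Fin N) (hσ : ∀ i, σ (σ i) = i) (q v : ℝ → Cfg N) (c τ : ℝ → ℝ) (E : ℝ)
    (hmot : Mot m E q v c τ)
    (w δ d k : ℝ) (hw : 0 < w) (hd0 : 0 < d) (hk : 0 < k) (hdδ : d ≤ δ)
    (hC : 1000 * M ≤ w ^ 2 * δ) (hCk : 1000 * M ≤ k ^ 2 * d)
    (X V : Fin N → Fin N → E3)
    (hXdef : ∀ i j, X i j = cs m σ (q 0) i - cs m σ (q 0) j)
    (hVdef : ∀ i j, V i j = cs m σ (v 0) i - cs m σ (v 0) j)
    (hX : ∀ i j, Ext σ i j → δ ≤ ‖X i j‖)
    (F : E3 → E3 → ℝ → ℝ)
    (hF : ∀ i j, Ext σ i j → ∀ s : ℝ, 0 ≤ s → F (X i j) (V i j) s ≤ ‖X i j + s • V i j‖)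
    (hFd : ∀ i j, Ext σ i j → ∀ s : ℝ, 0 ≤ s → d ≤ F (X i j) (V i j) s)
    (hFw : ∀ i j, Ext σ i j → ∀ s : ℝ, 0 ≤ s → s * w ≤ F (X i j) (V i j) s)
    (Θ : Fin N → Fin N → ℝ → ℝ)
    (hΘ : ∀ i j, Ext σ i j → ∀ s, HasDerivAt (Θ i j) (1 / F (X i j) (V i j) s ^ 2) s)
    (hΘ' : ∀ i j, Ext σ i j → ∀ s, 0 ≤ s → Θ i j s - Θ i j 0 ≤ Real.pi / (w * ‖X i j‖))
    (hh0 : ∀ i, i ≠ σ i → hh m σ (q 0) (v 0) i ≤ - k ^ 2)
    (T : ℝ) (hT : 0 ≤ T)
    (hB1 : ∀ t, 0 ≤ t → t ≤ T → ∀ i j, Ext σ i j →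
      ‖(cs m σ (q t) i - cs m σ (q t) j) - X i j - τ t • V i j‖ ≤ F (X i j) (V i j) (τ t) / 2)
    (hB2 : ∀ t, 0 ≤ t → t ≤ T → ∀ i, i ≠ σ i → hh m σ (q t) (v t) i ≤ - (k ^ 2 / 2)) :
    (∀ t, 0 ≤ t → t ≤ T → ∀ i j, Ext σ i j →
      ‖(cs m σ (v t) i - cs m σ (v t) j) - V i j‖ ≤ w / 8) ∧
    (∀ i j, Ext σ i j →
      ‖(cs m σ (q T) i - cs m σ (q T) j) - X i j - τ T • V i j‖ < F (X i j) (V i j) (τ T) / 2) ∧
    (∀ i, i ≠ σ i → hh m σ (q T) (v T) i < - (k ^ 2 / 2)) := by
  have hδ : 0 < δ := hd0.trans_le hdδ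
  have hpi : Real.pi < 3.15 := Real.pi_lt_d2
  have hpi0 := Real.pi_pos
  have hXpos : ∀ i j, Ext σ i j → 0 < ‖X i j‖ := fun i j h => hδ.trans_le (hX i j h)
  have hLpos : ∀ i j, Ext σ i j → ∀ s : ℝ, 0 ≤ s → 0 < F (X i j) (V i j) s := fun i j h s hs =>
    hd0.trans_le (hFd i j h s hs)
  -- sizes
  have hS : ∀ t, 0 ≤ t → t ≤ T → ∀ i, ‖q t i - q t (σ i)‖ ≤ d / 16 ∧
      ‖v t i - v t (σ i)‖ * ‖q t i - q t (σ i)‖ ≤ 2 * M / k := by
    intro t h0 h1 i
    by_cases hi : i = σ i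
    · rw [← hi, sub_self, norm_zero, mul_zero]
      exact ⟨by positivity, by positivity⟩
    · obtain ⟨e1, e2⟩ := hh_size m σ (q t) (v t) i k M hk (pair_le m hm M hM i (σ i) hi)
        (hmot.ne t i (σ i) hi) (hB2 t h0 h1 i hi)
      refine ⟨?_, e2⟩
      have hk2 : 0 < k ^ 2 := by positivity
      by_contra hcon
      push Not at hcon
      have h3 : d / 16 * k ^ 2 < ‖q t i - q t (σ i)‖ * k ^ 2 := mul_lt_mul_of_pos_right hcon hk2
      nlinarith
  -- distances
  have hA : ∀ t, 0 ≤ t → t ≤ T → ∀ i j, Ext σ i j →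
      F (X i j) (V i j) (τ t) / 4 ≤ ‖q t i - q t j‖ := by
    intro t h0 h1 i j hP
    have e1 := hB1 t h0 h1 i j hP
    have e2 := (hS t h0 h1 i).1
    have e2' := (hS t h0 h1 j).1
    have e3 := cs_near m hm σ (q t) i
    have e4 := cs_near m hm σ (q t) j
    have e7 := hF i j hP (τ t) (hmot.nonneg h0)
    have e8 := hFd i j hP (τ t) (hmot.nonneg h0)
    set A := cs m σ (q t) i
    set B := cs m σ (q t) j
    have e5 : ‖X i j + τ t • V i j‖ ≤ ‖(A - B) - X i j - τ t • V i j‖ + ‖A - B‖ := by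
      have : X i j + τ t • V i j = -((A - B) - X i j - τ t • V i j) + (A - B) := by abel
      calc ‖X i j + τ t • V i j‖ = ‖-((A - B) - X i j - τ t • V i j) + (A - B)‖ := by
            rw [← this]
        _ ≤ ‖-((A - B) - X i j - τ t • V i j)‖ + ‖A - B‖ := norm_add_le _ _
        _ = _ := by rw [norm_neg]
    have e6 : ‖A - B‖ ≤ ‖q t i - A‖ + ‖q t i - q t j‖ + ‖q t j - B‖ := by
      have : A - B = -(q t i - A) + (q t i - q t j) + (q t j - B) := by abel
      calc ‖A - B‖ = ‖-(q t i - A) + (q t i - q t j) + (q t j - B)‖ := by rw [← this]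
        _ ≤ ‖-(q t i - A) + (q t i - q t j)‖ + ‖q t j - B‖ := norm_add_le _ _
        _ ≤ ‖-(q t i - A)‖ + ‖q t i - q t j‖ + ‖q t j - B‖ := by
            gcongr; exact norm_add_le _ _
        _ = _ := by rw [norm_neg]
    linarith
  have hD : ∀ t, 0 ≤ t → t ≤ T → ∀ i j, Ext σ i j → 0 < F (X i j) (V i j) (τ t) / 4 ∧
      F (X i j) (V i j) (τ t) / 4 ≤ ‖q t j - q t i‖ ∧
      F (X i j) (V i j) (τ t) / 4 ≤ ‖q t j - q t (σ i)‖ := by
    intro t h0 h1 i j hP
    have f1 := hLpos i j hP (τ t) (hmot.nonneg h0)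
    refine ⟨by positivity, ?_, ?_⟩
    · rw [norm_sub_rev]
      exact hA t h0 h1 i j hP
    · rw [norm_sub_rev]
      have := hA t h0 h1 (σ i) j (hP.left hσ)
      have e1 : X (σ i) j = X i j := by rw [hXdef, hXdef, cs_sigma m σ hσ]
      have e2 : V (σ i) j = V i j := by rw [hVdef, hVdef, cs_sigma m σ hσ]
      rwa [e1, e2] at this
  -- accelerations
  have hAc : ∀ t, 0 ≤ t → t ≤ T → ∀ k, ‖cs m σ (acc m (q t)) k‖ ≤
      ∑ j ∈ Finset.univ.filter (fun j => Ext σ k j), 16 * m j / F (X k j) (V k j) (τ t) ^ 2 := by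
    intro t h0 h1 k
    refine (cs_acc_le m hm σ (q t) k (fun j => F (X k j) (V k j) (τ t) / 4)
      (fun j hj => hD t h0 h1 k j hj)).trans (le_of_eq ?_)
    refine Finset.sum_congr rfl fun j hj => ?_
    have f1 := hLpos k j (Finset.mem_filter.mp hj).2 (τ t) (hmot.nonneg h0)
    field_simp
    norm_num
  -- sums of the integrals
  set Bk : Fin N → ℝ → ℝ := fun k t =>
    ∑ j ∈ Finset.univ.filter (fun j => Ext σ k j), 16 * m j * (Θ k j (τ t) - Θ k j 0) with hBk
  have hBkd : ∀ k t, HasDerivAt (Bk k)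
      (∑ j ∈ Finset.univ.filter (fun j => Ext σ k j),
        16 * m j * (1 / F (X k j) (V k j) (τ t) ^ 2 * c t)) t := by
    intro k t
    refine HasDerivAt.fun_sum fun j hj => ?_
    have hP : Ext σ k j := (Finset.mem_filter.mp hj).2
    exact (((hΘ k j hP (τ t)).comp t (hmot.τd t)).sub_const _).const_mul _
  have hBkle0 : ∀ k t, 0 ≤ t → Bk k t ≤ 16 * M * (Real.pi / (w * δ)) := by
    intro k t ht0
    have h1 : Bk k t ≤ ∑ j ∈ Finset.univ.filter (fun j => Ext σ k j),
        16 * m j * (Real.pi / (w * δ)) := by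
      refine Finset.sum_le_sum fun j hj => ?_
      have hP : Ext σ k j := (Finset.mem_filter.mp hj).2
      refine mul_le_mul_of_nonneg_left ((hΘ' k j hP (τ t) (hmot.nonneg ht0)).trans ?_)
        (by have := hm j; positivity)
      gcongr
      exact hX k j hP
    refine h1.trans ?_
    rw [← Finset.sum_mul, ← Finset.mul_sum]
    gcongr
    exact (Finset.sum_le_sum_of_subset_of_nonneg (Finset.filter_subset _ _)
      (fun j _ _ => (hm j).le)).trans hM
  have hBkle : ∀ k t, 0 ≤ t → Bk k t ≤ w / 16 := by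
    intro k t ht0
    refine (hBkle0 k t ht0).trans ?_
    rw [mul_div_assoc', div_le_div_iff₀ (by positivity) (by norm_num)]
    have : 16 * M * Real.pi * 16 ≤ 1000 * M := by nlinarith
    nlinarith
  -- velocities
  have hvel : ∀ k t, 0 ≤ t → t ≤ T → ‖cs m σ (v t) k - cs m σ (v 0) k‖ ≤ Bk k t := by
    intro k
    have hd : ∀ t, HasDerivAt (fun s => cs m σ (v s) k - cs m σ (v 0) k)
        (c t • cs m σ (acc m (q t)) k) t := by
      intro t
      have := cs_hasDerivAt m σ v (fun i => c t • acc m (q t) i) t (hmot.vd t) k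
      rw [cs_smul] at this
      exact this.sub_const _
    have := image_norm_le_of_norm_deriv_right_le_deriv_boundary (a := 0) (b := T)
      (f := fun s => cs m σ (v s) k - cs m σ (v 0) k)
      (f' := fun t => c t • cs m σ (acc m (q t)) k)
      (fun t _ => (hd t).continuousAt.continuousWithinAt)
      (fun t _ => (hd t).hasDerivWithinAt)
      (B := Bk k)
      (B' := fun t => ∑ j ∈ Finset.univ.filter (fun j => Ext σ k j),
        16 * m j * (1 / F (X k j) (V k j) (τ t) ^ 2 * c t))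
      (by simp [hBk, hmot.τ0]) (fun t => hBkd k t)
      (by
        intro t ht
        rw [norm_smul, Real.norm_of_nonneg (hmot.cpos t).le]
        refine (mul_le_mul_of_nonneg_left (hAc t ht.1 ht.2.le k) (hmot.cpos t).le).trans
          (le_of_eq ?_)
        rw [Finset.mul_sum]
        refine Finset.sum_congr rfl fun j _ => ?_
        ring)
    intro t h0 h1
    exact this ⟨h0, h1⟩
  have hrel : ∀ t, 0 ≤ t → t ≤ T → ∀ i j, Ext σ i j →
      ‖(cs m σ (v t) i - cs m σ (v t) j) - V i j‖ ≤ w / 8 := by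
    intro t h0 h1 i j _
    have e1 := (hvel i t h0 h1).trans (hBkle i t h0)
    have e2 := (hvel j t h0 h1).trans (hBkle j t h0)
    have : (cs m σ (v t) i - cs m σ (v t) j) - V i j =
        (cs m σ (v t) i - cs m σ (v 0) i) - (cs m σ (v t) j - cs m σ (v 0) j) := by
      rw [hVdef]; abel
    rw [this]
    refine (norm_sub_le _ _).trans ?_
    linarith
  refine ⟨hrel, ?_, ?_⟩
  · -- positions
    intro i j hP
    have hd : ∀ t, HasDerivAt
        (fun s => (cs m σ (q s) i - cs m σ (q s) j) - X i j - τ s • V i j)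
        (c t • ((cs m σ (v t) i - cs m σ (v t) j) - V i j)) t := by
      intro t
      have e1 := cs_hasDerivAt m σ q (fun i => c t • v t i) t (hmot.qd t) i
      have e2 := cs_hasDerivAt m σ q (fun i => c t • v t i) t (hmot.qd t) j
      rw [cs_smul] at e1 e2
      have e3 := ((e1.sub e2).sub_const (X i j)).sub ((hmot.τd t).smul_const (V i j))
      refine e3.congr_deriv ?_
      rw [smul_sub, smul_sub]
    have := image_norm_le_of_norm_deriv_right_le_deriv_boundary (a := 0) (b := T)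
      (f := fun s => (cs m σ (q s) i - cs m σ (q s) j) - X i j - τ s • V i j)
      (f' := fun t => c t • ((cs m σ (v t) i - cs m σ (v t) j) - V i j))
      (fun t _ => (hd t).continuousAt.continuousWithinAt)
      (fun t _ => (hd t).hasDerivWithinAt)
      (B := fun t => w / 8 * τ t) (B' := fun t => w / 8 * c t)
      (by simp [hmot.τ0, hXdef]) (fun t => (hmot.τd t).const_mul _)
      (by
        intro t ht
        rw [norm_smul, Real.norm_of_nonneg (hmot.cpos t).le, mul_comm]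
        exact mul_le_mul_of_nonneg_right (hrel t ht.1 ht.2.le i j hP) (hmot.cpos t).le)
    have h1 := this (right_mem_Icc.mpr hT)
    have h2 := hFw i j hP (τ T) (hmot.nonneg hT)
    have h3 := hLpos i j hP (τ T) (hmot.nonneg hT)
    have h1' : ‖cs m σ (q T) i - cs m σ (q T) j - X i j - τ T • V i j‖ ≤ w / 8 * τ T := h1
    nlinarith
  · -- energies
    intro i hi
    have hd : ∀ t, HasDerivAt (fun s => hh m σ (q s) (v s) i)
        (c t * inner ℝ (v t i - v t (σ i))
          (acc m (q t) i - acc m (q t) (σ i) +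
            ((m i + m (σ i)) / ‖q t i - q t (σ i)‖ ^ 3) • (q t i - q t (σ i)))) t := fun t =>
      hh_deriv m σ q v (c t) (acc m (q t)) t i (hmot.qd t) (hmot.vd t) (hmot.ne t i (σ i) hi)
    have hbd : ∀ t, 0 ≤ t → t ≤ T → c t * inner ℝ (v t i - v t (σ i))
          (acc m (q t) i - acc m (q t) (σ i) +
            ((m i + m (σ i)) / ‖q t i - q t (σ i)‖ ^ 3) • (q t i - q t (σ i))) ≤
        (32 * M / (k * d)) * ∑ j ∈ Finset.univ.filter (fun j => Ext σ i j),
          16 * m j * (1 / F (X i j) (V i j) (τ t) ^ 2 * c t) := by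
      intro t h0 h1
      have hc := (hmot.cpos t).le
      have t1 := tidal m hm σ (q t) i (fun j => F (X i j) (V i j) (τ t) / 4)
        (fun j hj => hD t h0 h1 i j hj)
      have t2 := (hS t h0 h1 i).2
      obtain ⟨W, hW⟩ : ∃ W : E3, W = acc m (q t) i - acc m (q t) (σ i) +
            ((m i + m (σ i)) / ‖q t i - q t (σ i)‖ ^ 3) • (q t i - q t (σ i)) := ⟨_, rfl⟩
      rw [← hW] at t1 ⊢
      have t3 : inner ℝ (v t i - v t (σ i)) W ≤ ‖v t i - v t (σ i)‖ * ‖W‖ := real_inner_le_norm _ _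
      set u := ‖v t i - v t (σ i)‖ with hu
      set r := ‖q t i - q t (σ i)‖ with hr
      have hu0 : 0 ≤ u := norm_nonneg _
      have hr0 : 0 ≤ r := norm_nonneg _
      have t4 : u * ‖W‖ ≤ ∑ j ∈ Finset.univ.filter (fun j => Ext σ i j),
          (32 * M / (k * d)) * (16 * m j * (1 / F (X i j) (V i j) (τ t) ^ 2)) := by
        refine (mul_le_mul_of_nonneg_left t1 hu0).trans ?_
        rw [Finset.mul_sum]
        refine Finset.sum_le_sum fun j hj => ?_
        have hP : Ext σ i j := (Finset.mem_filter.mp hj).2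
        have f1 := hLpos i j hP (τ t) (hmot.nonneg h0)
        have f2 := hFd i j hP (τ t) (hmot.nonneg h0)
        set L := F (X i j) (V i j) (τ t)
        have hmj := hm j
        have g1 : u * (m j * (4 * r / (L / 4) ^ 3)) = (u * r) * (m j * 256 / L ^ 2 * (1 / L)) := by
          field_simp
          ring
        rw [g1]
        have g2 : 1 / L ≤ 1 / d := by
          rw [div_le_div_iff₀ f1 hd0]; linarith
        calc (u * r) * (m j * 256 / L ^ 2 * (1 / L)) ≤ (2 * M / k) * (m j * 256 / L ^ 2 * (1 / d)) := by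
              gcongr
          _ = _ := by field_simp; norm_num
      calc c t * inner ℝ (v t i - v t (σ i)) W ≤ c t * (u * ‖W‖) := by gcongr
        _ ≤ c t * ∑ j ∈ Finset.univ.filter (fun j => Ext σ i j),
          (32 * M / (k * d)) * (16 * m j * (1 / F (X i j) (V i j) (τ t) ^ 2)) := by gcongr
        _ = _ := by
          rw [Finset.mul_sum, Finset.mul_sum]
          refine Finset.sum_congr rfl fun j _ => ?_
          ring
    have hg : ∀ t, HasDerivAt (fun s => (32 * M / (k * d)) * Bk i s - hh m σ (q s) (v s) i)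
        ((32 * M / (k * d)) * (∑ j ∈ Finset.univ.filter (fun j => Ext σ i j),
          16 * m j * (1 / F (X i j) (V i j) (τ t) ^ 2 * c t)) -
          c t * inner ℝ (v t i - v t (σ i))
          (acc m (q t) i - acc m (q t) (σ i) +
            ((m i + m (σ i)) / ‖q t i - q t (σ i)‖ ^ 3) • (q t i - q t (σ i)))) t := fun t =>
      ((hBkd i t).const_mul _).sub (hd t)
    have hmono : MonotoneOn (fun s => (32 * M / (k * d)) * Bk i s - hh m σ (q s) (v s) i)
        (Icc 0 T) := by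
      refine monotoneOn_of_deriv_nonneg (convex_Icc 0 T)
        (fun s _ => (hg s).continuousAt.continuousWithinAt)
        (fun s _ => (hg s).differentiableAt.differentiableWithinAt) ?_
      intro s hs
      rw [interior_Icc] at hs
      rw [(hg s).deriv]
      have := hbd s hs.1.le hs.2.le
      linarith
    have h1 := hmono (left_mem_Icc.mpr hT) (right_mem_Icc.mpr hT) hT
    have h2 : Bk i 0 = 0 := by simp [hBk, hmot.τ0]
    simp only [h2, mul_zero, zero_sub] at h1
    have h3 := hh0 i hi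
    have h4 := hBkle0 i T hT
    have h5 : (32 * M / (k * d)) * Bk i T ≤ (32 * M / (k * d)) * (16 * M * (Real.pi / (w * δ))) := by
      gcongr
    have h6 : (32 * M / (k * d)) * (16 * M * (Real.pi / (w * δ))) < k ^ 2 / 2 := by
      have e1 : (32 * M / (k * d)) * (16 * M * (Real.pi / (w * δ))) =
          (512 * M ^ 2 * Real.pi) / (k * d * (w * δ)) := by
        field_simp
        norm_num
      rw [e1, div_lt_iff₀ (by positivity)]
      have e2 : ((1000 * M) ^ 2) ^ 2 ≤ (k ^ 3 * d * w * δ) ^ 2 := by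
        calc ((1000 * M) ^ 2) ^ 2 = (1000 * M) ^ 2 * ((1000 * M) * (1000 * M)) := by ring
          _ ≤ (k ^ 2 * d) ^ 2 * ((k ^ 2 * d) * (w ^ 2 * δ)) := by gcongr
          _ ≤ (k ^ 2 * d) ^ 2 * ((k ^ 2 * δ) * (w ^ 2 * δ)) := by gcongr
          _ = _ := by ring
      have e4 : (1000 * M) ^ 2 ≤ k ^ 3 * d * w * δ := le_of_sq_le_sq e2 (by positivity)
      have e3 : 0 < M ^ 2 := by positivity
      have e5 : k ^ 2 / 2 * (k * d * (w * δ)) = (k ^ 3 * d * w * δ) / 2 := by ring
      rw [e5]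
      nlinarith
    linarith

end Q70.Nb
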