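import Pool.Agent.Q70.NbC

set_option autoImplicit false

/-! Points at which singles and bound pairs move apart fast are wandering. -/

namespace Q70.Nb

open MeasureTheory Set Pool.Agent.Y516.NW

variable {N : ℕ}

theorem curve (m : Fin N → ℝ) (M : ℝ) (hm : ∀ i, 0 < m i) (hM : ∑ i, m i ≤ M) (hMpos : 0 < M)
    (σ : Fin N → Fin N) (hσ : ∀ i, σ (σ i) = i) (q v : ℝ → Cfg N) (c τ : ℝ → ℝ) (E : ℝ)
    (hmot : Mot m E q v c τ)
    (w δ d k : ℝ) (hw : 0 < w) (hd0 : 0 < d) (hk : 0 < k) (hdδ : d ≤ δ)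
    (hC : 1000 * M ≤ w ^ 2 * δ) (hCk : 1000 * M ≤ k ^ 2 * d)
    (hX : ∀ i j, Ext σ i j → δ ≤ ‖cs m σ (q 0) i - cs m σ (q 0) j‖)
    (hG : ∀ i j, Ext σ i j →
      GG w d (cs m σ (q 0) i - cs m σ (q 0) j) (cs m σ (v 0) i - cs m σ (v 0) j))
    (hh0 : ∀ i, i ≠ σ i → hh m σ (q 0) (v 0) i ≤ - k ^ 2) :
    ∀ t, 0 ≤ t → ∀ i j, Ext σ i j →
      ‖(cs m σ (v t) i - cs m σ (v t) j) - (cs m σ (v 0) i - cs m σ (v 0) j)‖ ≤ w / 8 := by
  have hδ : 0 < δ := hd0.trans_le hdδ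
  set X : Fin N → Fin N → E3 := fun i j => cs m σ (q 0) i - cs m σ (q 0) j with hXdef
  set V : Fin N → Fin N → E3 := fun i j => cs m σ (v 0) i - cs m σ (v 0) j with hVdef
  have hne : ∀ i j, Ext σ i j → X i j ≠ 0 := fun i j h =>
    norm_pos_iff.mp (hδ.trans_le (hX i j h))
  have hVpos : ∀ i j, Ext σ i j → 0 < ‖V i j‖ := fun i j h =>
    hw.trans_le ((hG i j h).fg.norm_le (hδ.trans_le (hX i j h)))
  have hl := fun i j h => Pool.Agent.Q130.NX.line2 (X i j) (V i j) w hw (hne i j h) (hG i j h).fg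
  have hT : ∀ i j, ∃ Θ : ℝ → ℝ, Ext σ i j →
      (∀ s, HasDerivAt Θ (1 / Pool.Agent.Q130.NX.FF w (X i j) (V i j) s ^ 2) s) ∧
      ∀ s, 0 ≤ s → Θ s - Θ 0 ≤ Real.pi / (w * ‖X i j‖) := by
    intro i j
    by_cases h : Ext σ i j
    · obtain ⟨Θ, h1, h2⟩ := (hl i j h).2.2.2
      exact ⟨Θ, fun _ => ⟨h1, h2⟩⟩
    · exact ⟨fun _ => 0, fun h' => absurd h' h⟩
  choose Θ hΘ using hT
  have hFd : ∀ i j, Ext σ i j → ∀ s : ℝ, 0 ≤ s →
      d ≤ Pool.Agent.Q130.NX.FF w (X i j) (V i j) s := fun i j h s hs =>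
    FF_d hd0 (hdδ.trans (hX i j h)) (hVpos i j h) (hG i j h) s hs
  have hstep := fun (T : ℝ) (hT : 0 ≤ T) => step m M hm hM hMpos σ hσ q v c τ E hmot w δ d k hw hd0
    hk hdδ hC hCk X V (fun _ _ => rfl) (fun _ _ => rfl) hX (Pool.Agent.Q130.NX.FF w)
    (fun i j h => (hl i j h).1) hFd (fun i j h => (hl i j h).2.2.1) Θ
    (fun i j h => (hΘ i j h).1) (fun i j h => (hΘ i j h).2) hh0 T hT
  have hτc : Continuous τ := continuous_iff_continuousAt.mpr fun t => (hmot.τd t).continuousAt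
  have hcs : ∀ i, Continuous fun t => cs m σ (q t) i := fun i =>
    continuous_iff_continuousAt.mpr fun t =>
      (cs_hasDerivAt m σ q (fun i => c t • v t i) t (hmot.qd t) i).continuousAt
  have hhc : ∀ i, i ≠ σ i → Continuous fun t => hh m σ (q t) (v t) i := fun i hi =>
    continuous_iff_continuousAt.mpr fun t =>
      (hh_deriv m σ q v (c t) (acc m (q t)) t i (hmot.qd t) (hmot.vd t)
        (hmot.ne t i (σ i) hi)).continuousAt
  let ι := {p : Fin N × Fin N // Ext σ p.1 p.2} ⊕ {i : Fin N // i ≠ σ i}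
  let g : ι → ℝ → ℝ := fun α t => match α with
    | Sum.inl p => Pool.Agent.Q130.NX.FF w (X p.1.1 p.1.2) (V p.1.1 p.1.2) (τ t) / 2
        - ‖(cs m σ (q t) p.1.1 - cs m σ (q t) p.1.2) - X p.1.1 p.1.2 - τ t • V p.1.1 p.1.2‖
    | Sum.inr i => -(k ^ 2 / 2) - hh m σ (q t) (v t) i.1
  have hg := Pool.Agent.Y275.NW.boot ι g
    (by
      rintro (⟨⟨i, j⟩, hP⟩ | ⟨i, hi⟩)
      · exact (((FF_cont w (X i j) (V i j)).comp hτc).div_const 2).sub
          ((((hcs i).sub (hcs j)).sub continuous_const).sub (hτc.smul continuous_const)).norm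
      · exact continuous_const.sub (hhc i hi))
    (by
      rintro (⟨⟨i, j⟩, hP⟩ | ⟨i, hi⟩)
      · have h1 := hX i j hP
        have h2 : cs m σ (q 0) i - cs m σ (q 0) j - X i j = 0 := by simp [X]
        have h3 : 0 < Pool.Agent.Q130.NX.FF w (X i j) (V i j) (τ 0) :=
          hd0.trans_le (hFd i j hP (τ 0) hmot.τ0.ge)
        show 0 < Pool.Agent.Q130.NX.FF w (X i j) (V i j) (τ 0) / 2
          - ‖(cs m σ (q 0) i - cs m σ (q 0) j) - X i j - τ 0 • V i j‖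
        rw [h2, hmot.τ0, zero_smul, sub_zero, norm_zero, sub_zero]
        rw [hmot.τ0] at h3
        positivity
      · have := hh0 i hi
        show 0 < -(k ^ 2 / 2) - hh m σ (q 0) (v 0) i
        have h2 : 0 < k ^ 2 := by positivity
        linarith)
    (by
      intro T hT0 hall
      obtain ⟨_, h2, h3⟩ := hstep T hT0
        (fun t h0 h1 i j hP => by
          have := hall t h0 h1 (Sum.inl ⟨(i, j), hP⟩)
          change 0 ≤ Pool.Agent.Q130.NX.FF w (X i j) (V i j) (τ t) / 2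
            - ‖(cs m σ (q t) i - cs m σ (q t) j) - X i j - τ t • V i j‖ at this
          linarith)
        (fun t h0 h1 i hi => by
          have := hall t h0 h1 (Sum.inr ⟨i, hi⟩)
          change 0 ≤ -(k ^ 2 / 2) - hh m σ (q t) (v t) i at this
          linarith)
      rintro (⟨⟨i, j⟩, hP⟩ | ⟨i, hi⟩)
      · have := h2 i j hP
        show 0 < Pool.Agent.Q130.NX.FF w (X i j) (V i j) (τ T) / 2
          - ‖(cs m σ (q T) i - cs m σ (q T) j) - X i j - τ T • V i j‖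
        linarith
      · have := h3 i hi
        show 0 < -(k ^ 2 / 2) - hh m σ (q T) (v T) i
        linarith)
  intro t ht i j hP
  exact (hstep t ht
    (fun s h0 h1 i j hP => by
      have := hg s h0 (Sum.inl ⟨(i, j), hP⟩)
      change 0 < Pool.Agent.Q130.NX.FF w (X i j) (V i j) (τ s) / 2
            - ‖(cs m σ (q s) i - cs m σ (q s) j) - X i j - τ s • V i j‖ at this
      linarith)
    (fun s h0 h1 i hi => by
      have := hg s h0 (Sum.inr ⟨i, hi⟩)
      change 0 < -(k ^ 2 / 2) - hh m σ (q s) (v s) i at this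
      linarith)).1 t ht le_rfl i j hP

theorem cs_cont1 (m : Fin N → ℝ) (σ : Fin N → Fin N) (i : Fin N) :
    Continuous fun x : Cfg N × Cfg N => cs m σ x.1 i := by
  unfold cs
  exact (((((continuous_apply i).comp continuous_fst).const_smul (m i)).add
      (((continuous_apply (σ i)).comp continuous_fst).const_smul (m (σ i)))).const_smul
        ((m i + m (σ i))⁻¹))

theorem vel_cont (m : Fin N → ℝ) (k : Fin N) : Continuous fun x : Cfg N × Cfg N => vel m x k :=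
  (((continuous_apply k).comp continuous_snd).const_smul ((m k)⁻¹))

theorem cs_cont2 (m : Fin N → ℝ) (σ : Fin N → Fin N) (i : Fin N) :
    Continuous fun x : Cfg N × Cfg N => cs m σ (vel m x) i := by
  unfold cs
  exact ((((vel_cont m i).const_smul (m i)).add
    ((vel_cont m (σ i)).const_smul (m (σ i)))).const_smul ((m i + m (σ i))⁻¹))

theorem wander (m : Fin N → ℝ) (M : ℝ) (hm : ∀ i, 0 < m i) (hM : ∑ i, m i ≤ M) (hMpos : 0 < M)
    (σ : Fin N → Fin N) (hσ : ∀ i, σ (σ i) = i) (E : ℝ) (ψ : Cfg N × Cfg N → ℝ)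
    (φ : ℝ → Cfg N × Cfg N → Cfg N × Cfg N) (hφ : IsFl m E ψ φ) (x : Cfg N × Cfg N)
    (hx : x ∈ Surf m E) (i₀ j₀ : Fin N) (hP₀ : Ext σ i₀ j₀)
    (w δ d k : ℝ) (hw : 0 < w) (hd0 : 0 < d) (hk : 0 < k) (hdδ : d ≤ δ)
    (hC : 8000 * M ≤ w ^ 2 * δ) (hCk : 8000 * M ≤ k ^ 2 * d)
    (hX : ∀ i j, Ext σ i j → δ ≤ ‖cs m σ x.1 i - cs m σ x.1 j‖)
    (hG : ∀ i j, Ext σ i j →
      GG w d (cs m σ x.1 i - cs m σ x.1 j) (cs m σ (vel m x) i - cs m σ (vel m x) j))
    (hh0 : ∀ i, i ≠ σ i → hh m σ x.1 (vel m x) i ≤ - k ^ 2) :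
    ¬ NonW (Surf m E) φ x := by
  have hδ : 0 < δ := hd0.trans_le hdδ
  set V0 : E3 := cs m σ (vel m x) i₀ - cs m σ (vel m x) j₀ with hV0
  have hV0w : w ≤ ‖V0‖ := (hG i₀ j₀ hP₀).fg.norm_le (hδ.trans_le (hX i₀ j₀ hP₀))
  let U1 : Set (Cfg N × Cfg N) := {y | (∀ p : Fin N × Fin N, Ext σ p.1 p.2 →
      δ / 2 < ‖cs m σ y.1 p.1 - cs m σ y.1 p.2‖ ∧
      OGG (w / 2) (d / 2) (cs m σ y.1 p.1 - cs m σ y.1 p.2)
        (cs m σ (vel m y) p.1 - cs m σ (vel m y) p.2))}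
  let U2 : Set (Cfg N × Cfg N) := {y | ∀ i, i ≠ σ i →
    (‖vel m y i - vel m y (σ i)‖ ^ 2 / 2 + (k / 2) ^ 2) * ‖y.1 i - y.1 (σ i)‖ < m i + m (σ i)}
  let U3 : Set (Cfg N × Cfg N) :=
    {y | ‖(cs m σ (vel m y) i₀ - cs m σ (vel m y) j₀) - V0‖ < w / 16}
  have hU1 : IsOpen U1 := by
    have : U1 = ⋂ p : Fin N × Fin N, {y | Ext σ p.1 p.2 →
      δ / 2 < ‖cs m σ y.1 p.1 - cs m σ y.1 p.2‖ ∧
      OGG (w / 2) (d / 2) (cs m σ y.1 p.1 - cs m σ y.1 p.2)
        (cs m σ (vel m y) p.1 - cs m σ (vel m y) p.2)} := by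
      ext y; simp only [U1, mem_iInter]; rfl
    rw [this]
    refine isOpen_iInter_of_finite fun p => ?_
    by_cases hP : Ext σ p.1 p.2
    · have hPt : Ext σ p.1 p.2 = True := eq_true hP
      rw [hPt]
      simp only [true_imp_iff]
      have c1 := (cs_cont1 m σ p.1).sub (cs_cont1 m σ p.2)
      have c2 := (cs_cont2 m σ p.1).sub (cs_cont2 m σ p.2)
      have c3 : Continuous fun y : Cfg N × Cfg N => (inner ℝ (cs m σ y.1 p.1 - cs m σ y.1 p.2)
          (cs m σ (vel m y) p.1 - cs m σ (vel m y) p.2) : ℝ) := c1.inner c2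
      have c4 : Continuous fun y : Cfg N × Cfg N => gr (cs m σ y.1 p.1 - cs m σ y.1 p.2)
          (cs m σ (vel m y) p.1 - cs m σ (vel m y) p.2) := by
        unfold gr
        exact ((c1.norm.pow 2).mul (c2.norm.pow 2)).sub (c3.pow 2)
      exact (isOpen_lt continuous_const c1.norm).inter (IsOpen.union
        ((isOpen_lt (continuous_const.mul (c1.norm.pow 2)) c4).inter
          (isOpen_lt (continuous_const.mul (c2.norm.pow 2)) c4))
        ((isOpen_lt continuous_const c3).inter (isOpen_lt continuous_const c2.norm)))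
    · have hPt : Ext σ p.1 p.2 = False := eq_false hP
      rw [hPt]
      simp only [false_imp_iff]
      exact isOpen_univ
  have hU2 : IsOpen U2 := by
    have : U2 = ⋂ i : Fin N, {y | i ≠ σ i →
        (‖vel m y i - vel m y (σ i)‖ ^ 2 / 2 + (k / 2) ^ 2) * ‖y.1 i - y.1 (σ i)‖
          < m i + m (σ i)} := by
      ext y; simp only [U2, mem_iInter]; rfl
    rw [this]
    refine isOpen_iInter_of_finite fun i => ?_
    by_cases hP : i ≠ σ i
    · have hPt : (i ≠ σ i) = True := eq_true hP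
      rw [hPt]
      simp only [true_imp_iff]
      refine isOpen_lt (Continuous.mul ((((((vel_cont m i).sub
        (vel_cont m (σ i))).norm).pow 2).div_const 2).add continuous_const) ?_) continuous_const
      exact (((continuous_apply i).comp continuous_fst).sub
        ((continuous_apply (σ i)).comp continuous_fst)).norm
    · have hPt : (i ≠ σ i) = False := eq_false hP
      rw [hPt]
      simp only [false_imp_iff]
      exact isOpen_univ
  have hU3 : IsOpen U3 := isOpen_lt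
    ((((cs_cont2 m σ i₀).sub (cs_cont2 m σ j₀)).sub continuous_const).norm) continuous_const
  have hxU1 : x ∈ U1 := by
    rintro ⟨i, j⟩ hP
    have h1 := hX i j hP
    exact ⟨by dsimp only; linarith, (hG i j hP).ogg hw hd0 (hdδ.trans h1)⟩
  have hk2 : 0 < k ^ 2 := by positivity
  have hxU2 : x ∈ U2 := by
    intro i hi
    have h1 := hh0 i hi
    have hr : 0 < ‖x.1 i - x.1 (σ i)‖ :=
      norm_pos_iff.mpr (sub_ne_zero.mpr (hx.1 i (σ i) hi))
    unfold hh at h1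
    have h2 : ‖vel m x i - vel m x (σ i)‖ ^ 2 / 2 + (k / 2) ^ 2
        < (m i + m (σ i)) / ‖x.1 i - x.1 (σ i)‖ := by nlinarith
    exact (lt_div_iff₀ hr).mp h2
  have hxU3 : x ∈ U3 := by
    show ‖(cs m σ (vel m x) i₀ - cs m σ (vel m x) j₀) - V0‖ < w / 16
    rw [← hV0, sub_self, norm_zero]; positivity
  obtain ⟨V1, hV1o, hxV1, s1, hs1, η, hη, hloc⟩ := Pool.Agent.Y275.NW.loc (Cfg N × Cfg N) (Free N)
    (Surf m E) (Z m ψ) ψ φ free_open (surf_free m E) (Z_cont m ψ hφ.cont) hφ.cont hφ.pos hφ.flow x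
    (surf_free m E hx)
  let G : Cfg N × Cfg N → ℝ := fun y => inner ℝ V0 (cs m σ y.1 i₀ - cs m σ y.1 j₀)
  have hGc : Continuous G :=
    continuous_const.inner ((cs_cont1 m σ i₀).sub (cs_cont1 m σ j₀))
  have hgrow : ∀ y ∈ (U1 ∩ U2 ∩ U3) ∩ V1 ∩ Surf m E, ∀ t ≥ s1,
      w ^ 2 / 2 * η ≤ G (φ t y) - G y := by
    rintro y ⟨⟨⟨⟨hy1, hy2⟩, hy3⟩, hyV⟩, hyS⟩ t ht
    obtain ⟨τ, hmot⟩ := mot_of_flow m hm E ψ φ hφ y hyS
    have hη' := hloc y ⟨hyV, hyS⟩ τ hmot.τ0 hmot.τd t ht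
    have h0 : φ 0 y = y := (hφ.flow y hyS).1
    have hcur := curve m M hm hM hMpos σ hσ _ _ _ τ E hmot
      (w / 2) (δ / 2) (d / 2) (k / 2) (by positivity) (by positivity) (by positivity) (by linarith)
      (by nlinarith) (by nlinarith)
      (fun i j hP => by rw [h0]; exact (hy1 (i, j) hP).1.le)
      (fun i j hP => by rw [h0]; exact (hy1 (i, j) hP).2.gg)
      (by
        intro i hi
        rw [h0]
        have h1 : (‖vel m y i - vel m y (σ i)‖ ^ 2 / 2 + (k / 2) ^ 2) * ‖y.1 i - y.1 (σ i)‖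
          < m i + m (σ i) := hy2 i hi
        have hr : 0 < ‖y.1 i - y.1 (σ i)‖ :=
          norm_pos_iff.mpr (sub_ne_zero.mpr (hyS.1 i (σ i) hi))
        rw [← lt_div_iff₀ hr] at h1
        unfold hh
        linarith)
    have hder : ∀ s, HasDerivAt (fun s => G (φ s y) - w ^ 2 / 2 * τ s)
        (inner ℝ V0 (ψ (φ s y) • (cs m σ (vel m (φ s y)) i₀ - cs m σ (vel m (φ s y)) j₀))
          - w ^ 2 / 2 * ψ (φ s y)) s := by
      intro s
      have e1 := cs_hasDerivAt m σ _ (fun i => ψ (φ s y) • vel m (φ s y) i) s (hmot.qd s) i₀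
      have e2 := cs_hasDerivAt m σ _ (fun i => ψ (φ s y) • vel m (φ s y) i) s (hmot.qd s) j₀
      rw [cs_smul] at e1 e2
      have e3 := (e1.sub e2)
      rw [← smul_sub] at e3
      have e4 : HasDerivAt (fun s => inner ℝ V0 (cs m σ (φ s y).1 i₀ - cs m σ (φ s y).1 j₀))
          (inner ℝ V0 (ψ (φ s y) • (cs m σ (vel m (φ s y)) i₀
            - cs m σ (vel m (φ s y)) j₀))) s :=
        ((innerSL ℝ V0).hasFDerivAt.comp_hasDerivAt s e3)
      exact e4.sub ((hmot.τd s).const_mul _)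
    have hmono : MonotoneOn (fun s => G (φ s y) - w ^ 2 / 2 * τ s) (Ici 0) := by
      refine monotoneOn_of_deriv_nonneg (convex_Ici 0)
        (fun s _ => (hder s).continuousAt.continuousWithinAt)
        (fun s _ => (hder s).differentiableAt.differentiableWithinAt) ?_
      intro s hs
      rw [interior_Ici] at hs
      rw [(hder s).deriv, inner_smul_right]
      have hc := hmot.cpos s
      have e1 := hcur s (le_of_lt hs) i₀ j₀ hP₀
      rw [h0] at e1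
      have e2 : ‖(cs m σ (vel m y) i₀ - cs m σ (vel m y) j₀) - V0‖ < w / 16 := hy3
      set A := cs m σ (vel m (φ s y)) i₀ - cs m σ (vel m (φ s y)) j₀
      set B := cs m σ (vel m y) i₀ - cs m σ (vel m y) j₀
      have e3 : ‖A - V0‖ ≤ w / 8 := by
        have : A - V0 = (A - B) + (B - V0) := by abel
        rw [this]
        refine (norm_add_le _ _).trans ?_
        linarith
      have e4 : inner ℝ V0 A = ‖V0‖ ^ 2 + inner ℝ V0 (A - V0) := by
        rw [inner_sub_right V0 A V0, real_inner_self_eq_norm_sq]; ring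
      have e5 : -(‖V0‖ * (w / 8)) ≤ inner ℝ V0 (A - V0) := by
        have h1 := abs_real_inner_le_norm V0 (A - V0)
        have h2 : ‖V0‖ * ‖A - V0‖ ≤ ‖V0‖ * (w / 8) := by gcongr
        have h3 := neg_abs_le (inner ℝ V0 (A - V0))
        linarith
      have e6 : w ^ 2 / 2 ≤ inner ℝ V0 A := by
        rw [e4]
        nlinarith
      nlinarith
    have h1 := hmono (show (0:ℝ) ∈ Ici 0 from mem_Ici.mpr le_rfl)
      (show t ∈ Ici (0:ℝ) from mem_Ici.mpr (by linarith)) (by linarith)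
    simp only [h0, hmot.τ0, mul_zero, sub_zero] at h1
    have h2 : w ^ 2 / 2 * η ≤ w ^ 2 / 2 * τ t := by gcongr
    linarith
  intro hNW
  let κ := w ^ 2 / 2 * η
  have hκ : 0 < κ := by positivity
  let U4 : Set (Cfg N × Cfg N) := {y | |G y - G x| < κ / 2}
  have hU4 : IsOpen U4 := isOpen_lt ((hGc.sub continuous_const).abs) continuous_const
  have hxU4 : x ∈ U4 := by
    show |G x - G x| < κ / 2
    rw [sub_self, abs_zero]; positivity
  obtain ⟨t, ht, y, ⟨hyV, hyS⟩, hφy⟩ := hNW ((U1 ∩ U2 ∩ U3) ∩ V1 ∩ U4)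
    ((((hU1.inter hU2).inter hU3).inter hV1o).inter hU4)
    ⟨⟨⟨⟨hxU1, hxU2⟩, hxU3⟩, hxV1⟩, hxU4⟩ s1
  have h1 := hgrow y ⟨hyV.1, hyS⟩ t ht.le
  have h2 : |G y - G x| < κ / 2 := hyV.2
  have h3 : |G (φ t y) - G x| < κ / 2 := hφy.2
  rw [abs_lt] at h2 h3
  have h4 : κ = w ^ 2 / 2 * η := rfl
  linarith [h2.1, h2.2, h3.1, h3.2]

/-- the free motion of the groups in one direction of time -/
theorem wander2 (m : Fin N → ℝ) (hm : ∀ i, 0 < m i)
    (σ : Fin N → Fin N) (hσ : ∀ i, σ (σ i) = i) (E : ℝ) (ψ : Cfg N × Cfg N → ℝ)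
    (hψ : ContDiffOn ℝ 1 ψ (Free N))
    (φ : ℝ → Cfg N × Cfg N → Cfg N × Cfg N) (hφ : IsFl m E ψ φ) (x : Cfg N × Cfg N)
    (hx : x ∈ Surf m E) (i₀ j₀ : Fin N) (hP₀ : Ext σ i₀ j₀)
    (w d : ℝ) (hw : 0 < w) (hd0 : 0 < d)
    (hh0 : ∀ i, i ≠ σ i → hh m σ x.1 (vel m x) i ≤ - (8000 * ∑ i, m i) / d)
    (hX : ∀ i j, Ext σ i j → 8000 * ∑ i, m i ≤ w ^ 2 * ‖cs m σ x.1 i - cs m σ x.1 j‖)
    (ε : ℝ) (hε : ε = 1 ∨ ε = -1)
    (hG : ∀ i j, Ext σ i j → ∀ s : ℝ, 0 ≤ s →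
      d ≤ ‖(cs m σ x.1 i - cs m σ x.1 j) + (ε * s) • (cs m σ (vel m x) i - cs m σ (vel m x) j)‖ ∧
      w * ‖cs m σ x.1 i - cs m σ x.1 j‖ ≤ ‖cs m σ (vel m x) i - cs m σ (vel m x) j‖ *
        ‖(cs m σ x.1 i - cs m σ x.1 j) + (ε * s) • (cs m σ (vel m x) i - cs m σ (vel m x) j)‖) :
    ¬ NonW (Surf m E) φ x := by
  obtain ⟨M, hM⟩ : ∃ M : ℝ, M = ∑ i, m i := ⟨_, rfl⟩
  rw [← hM] at hh0 hX
  have hMpos : 0 < M := by
    rw [hM]; exact Finset.sum_pos (fun i _ => hm i) ⟨i₀, Finset.mem_univ _⟩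
  obtain ⟨k, hk⟩ : ∃ k : ℝ, k = Real.sqrt (8000 * M / d) := ⟨_, rfl⟩
  have hkpos : 0 < k := by rw [hk]; exact Real.sqrt_pos.mpr (by positivity)
  have hk2 : k ^ 2 = 8000 * M / d := by rw [hk]; exact Real.sq_sqrt (by positivity)
  obtain ⟨δ, hδ⟩ : ∃ δ : ℝ, δ = max (8000 * M / w ^ 2) d := ⟨_, rfl⟩
  have hdδ : d ≤ δ := by rw [hδ]; exact le_max_right _ _
  have hC : 8000 * M ≤ w ^ 2 * δ := by
    have h1 : 8000 * M / w ^ 2 ≤ δ := by rw [hδ]; exact le_max_left _ _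
    rw [div_le_iff₀ (by positivity)] at h1
    linarith
  have hCk : 8000 * M ≤ k ^ 2 * d := by
    rw [hk2, div_mul_cancel₀ _ hd0.ne']
  have hXδ : ∀ i j, Ext σ i j → δ ≤ ‖cs m σ x.1 i - cs m σ x.1 j‖ := by
    intro i j hP
    rw [hδ]
    refine max_le ?_ ?_
    · rw [div_le_iff₀ (by positivity)]
      have := hX i j hP
      linarith
    · have := (hG i j hP 0 le_rfl).1
      rwa [mul_zero, zero_smul, add_zero] at this
  have hh1 : ∀ i, i ≠ σ i → hh m σ x.1 (vel m x) i ≤ - k ^ 2 := by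
    intro i hi
    have := hh0 i hi
    rw [hk2]
    rwa [neg_div] at this
  rcases hε with rfl | rfl
  · refine wander m M hm hM.ge hMpos σ hσ E ψ φ hφ x hx i₀ j₀ hP₀ w δ d k hw hd0 hkpos hdδ hC hCk
      hXδ (fun i j hP => gg_of hw hd0 fun s hs => ?_) hh1
    have := hG i j hP s hs
    rwa [one_mul] at this
  · intro hN
    have h1 := Pool.Agent.Q130.NX.nonW_rev m E ψ hψ φ hφ x hN
    have hvel : vel m (Pool.Agent.Q130.NX.fl x) = fun k => (-1 : ℝ) • vel m x k := by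
      funext k
      simp only [vel, Pool.Agent.Q130.NX.fl, Pi.neg_apply, smul_neg, neg_smul, one_smul]
    refine wander m M hm hM.ge hMpos σ hσ E _ _ (Pool.Agent.Q130.NX.rev m E ψ φ hφ)
      (Pool.Agent.Q130.NX.fl x) (Pool.Agent.Q130.NX.fl_surf hx)
      i₀ j₀ hP₀ w δ d k hw hd0 hkpos hdδ hC hCk hXδ (fun i j hP => ?_) ?_ h1
    · rw [hvel, cs_smul, cs_smul, ← smul_sub]
      refine gg_of hw hd0 fun s hs => ?_
      have h2 := hG i j hP s hs
      rw [smul_smul, mul_neg_one, norm_smul, norm_neg, norm_one, one_mul]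
      rwa [neg_one_mul] at h2
    · intro i hi
      have h2 := hh1 i hi
      unfold hh at h2 ⊢
      rw [hvel]
      simp only [← smul_sub]
      rw [norm_smul, norm_neg, norm_one, one_mul]
      exact h2

end Q70.Nb
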