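import Mathlib

/-!
# Circle valued functions on the lower central series of a topological group

Auxiliary file for `MP_33f427_an` (dense orbits along `R_e`-sequences in minimal nilsystems).
-/

set_option autoImplicit false
set_option linter.unusedSectionVars false

namespace Q70.Nil

open Topology Filter Set
open scoped commutatorElement

section circle

set_option backward.isDefEq.respectTransparency false

theorem dist_circle (z w : Circle) : dist z w = ‖(z : ℂ) - (w : ℂ)‖ := by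
  rw [← dist_eq_norm]
  rfl

theorem continuous_coe : Continuous fun z : Circle => (z : ℂ) := continuous_subtype_val

/-- the circle has no small subgroups -/
theorem circle_growth (z : Circle) (h : dist z 1 < 1) : (3 / 2 : ℝ) * dist z 1 ≤ dist (z ^ 2) 1 := by
  have h1 : dist (z ^ 2) 1 = dist z 1 * ‖(z : ℂ) + 1‖ := by
    rw [dist_circle, dist_circle, ← norm_mul, Circle.coe_pow, Circle.coe_one]
    congr 1
    ring
  have h2 : ‖(z : ℂ) - 1‖ < 1 := by
    rw [dist_circle, Circle.coe_one] at h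
    exact h
  have h3 : ‖(z : ℂ) + 1‖ ^ 2 + ‖(z : ℂ) - 1‖ ^ 2 = 4 := by
    have := parallelogram_law_with_norm ℝ (z : ℂ) 1
    rw [Circle.norm_coe, norm_one] at this
    nlinarith
  have h4 : (3 / 2 : ℝ) ≤ ‖(z : ℂ) + 1‖ := by
    nlinarith [norm_nonneg ((z : ℂ) + 1), norm_nonneg ((z : ℂ) - 1)]
  rw [h1]
  nlinarith [dist_nonneg (x := z) (y := 1)]

theorem circle_no_small (z : Circle) (h : ∀ n : ℕ, dist (z ^ n) 1 < 1) : z = 1 := by
  by_contra hne
  have hpos : 0 < dist z 1 := dist_pos.2 hne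
  have hk : ∀ k : ℕ, (3 / 2 : ℝ) ^ k * dist z 1 ≤ dist (z ^ (2 ^ k)) 1 := by
    intro k
    induction k with
    | zero => simp
    | succ k ih =>
      have := circle_growth (z ^ (2 ^ k)) (h _)
      rw [← pow_mul, ← pow_succ] at this
      refine le_trans ?_ this
      rw [pow_succ]
      nlinarith
  obtain ⟨k, hk'⟩ := pow_unbounded_of_one_lt (1 / dist z 1) (by norm_num : (1 : ℝ) < 3 / 2)
  have h1 := hk k
  have h2 : 1 < (3 / 2 : ℝ) ^ k * dist z 1 := by
    rwa [div_lt_iff₀ hpos] at hk'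
  linarith [h (2 ^ k)]

/-- a path in the circle from `1` to another point contains an `n`-th root of `-1` for large `n` -/
theorem circle_path (τ : unitInterval → Circle) (hτ : Continuous τ) (s t : unitInterval)
    (hs : τ s = 1) (ht : τ t ≠ 1) :
    ∀ᶠ n : ℕ in atTop, ∃ u : unitInterval, min s t ≤ u ∧ u ≤ max s t ∧ ((τ u) ^ n : Circle) = Circle.exp Real.pi := by
  have hre : ((τ t : Circle) : ℂ).re < 1 := by
    have h1 : ((τ t : Circle) : ℂ).re ≤ 1 := by
      calc ((τ t : Circle) : ℂ).re ≤ ‖((τ t : Circle) : ℂ)‖ := Complex.re_le_norm _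
        _ = 1 := Circle.norm_coe _
    refine lt_of_le_of_ne h1 fun h2 => ht ?_
    have h3 : Complex.normSq ((τ t : Circle) : ℂ) = 1 := Circle.normSq_coe _
    rw [Complex.normSq_apply, h2] at h3
    have h4 : ((τ t : Circle) : ℂ).im = 0 := by nlinarith
    apply Circle.ext
    apply Complex.ext
    · rw [h2]; simp
    · rw [h4]; simp
  have hcos : Tendsto (fun n : ℕ => Real.cos (Real.pi / n)) atTop (𝓝 1) := by
    have : Tendsto (fun n : ℕ => Real.pi / (n : ℝ)) atTop (𝓝 0) :=
      tendsto_const_div_atTop_nhds_zero_nat _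
    have h2 := (Real.continuous_cos.tendsto 0).comp this
    rw [Real.cos_zero] at h2
    exact h2
  filter_upwards [(tendsto_order.1 hcos).1 _ hre, eventually_ge_atTop 1] with n hn hn1
  have hc : Continuous fun u => ((τ u : Circle) : ℂ).re :=
    Complex.continuous_re.comp (continuous_coe.comp hτ)
  have hival : Real.cos (Real.pi / n) ∈ uIcc (((τ s : Circle) : ℂ).re) (((τ t : Circle) : ℂ).re) := by
    rw [hs, mem_uIcc]
    right
    exact ⟨hn.le, by simpa using Real.cos_le_one _⟩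
  obtain ⟨u, hu, hu2⟩ := intermediate_value_uIcc hc.continuousOn hival
  refine ⟨u, hu.1, hu.2, ?_⟩
  simp only at hu2
  have hn0 : (0 : ℝ) < n := by exact_mod_cast hn1
  have hsin : ((τ u : Circle) : ℂ).im = Real.sin (Real.pi / n) ∨
      ((τ u : Circle) : ℂ).im = - Real.sin (Real.pi / n) := by
    have h3 : Complex.normSq ((τ u : Circle) : ℂ) = 1 := Circle.normSq_coe _
    rw [Complex.normSq_apply, hu2] at h3
    have h5 := Real.sin_sq_add_cos_sq (Real.pi / n)
    rw [← sq_eq_sq_iff_eq_or_eq_neg]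
    nlinarith
  have hpi : ((n : ℝ) * (Real.pi / n)) = Real.pi := by field_simp
  rcases hsin with h | h
  · have h6 : τ u = Circle.exp (Real.pi / n) := by
      apply Circle.ext
      apply Complex.ext
      · rw [hu2, Circle.coe_exp, Complex.exp_ofReal_mul_I_re]
      · rw [h, Circle.coe_exp, Complex.exp_ofReal_mul_I_im]
    rw [h6, ← Circle.exp_nsmul]
    simp [hpi]
  · have h6 : τ u = (Circle.exp (Real.pi / n))⁻¹ := by
      rw [← Circle.exp_neg]
      apply Circle.ext
      apply Complex.ext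
      · rw [hu2, Circle.coe_exp, Complex.exp_ofReal_mul_I_re, Real.cos_neg]
      · rw [h, Circle.coe_exp, Complex.exp_ofReal_mul_I_im, Real.sin_neg]
    rw [h6, inv_pow, ← Circle.exp_nsmul]
    have h7 : n • (Real.pi / n) = Real.pi := by simp [hpi]
    rw [h7]
    rw [inv_eq_iff_mul_eq_one, ← Circle.exp_add, ← two_mul]
    exact Circle.exp_two_pi

end circle

section alg

variable (G : Type*) [Group G]

/-- the lower central series -/
abbrev L (n : ℕ) : Subgroup G := (⊤ : Subgroup G).lowerCentralSeries n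

variable {G}

theorem comm_mem {n : ℕ} {h : G} (hh : h ∈ L G n) (g : G) : ⁅h, g⁆ ∈ L G (n + 1) :=
  Subgroup.commutator_mem_commutator hh (Subgroup.mem_top g)

theorem comm_mem' {n : ℕ} {h : G} (hh : h ∈ L G n) (g : G) : ⁅g, h⁆ ∈ L G (n + 1) := by
  rw [← commutatorElement_inv]
  exact inv_mem (comm_mem hh g)

theorem L_succ_le (n : ℕ) : L G (n + 1) ≤ L G n :=
  Subgroup.lowerCentralSeries_antitone _ (Nat.le_succ n)

theorem L_zero_mem (g : G) : g ∈ L G 0 := Subgroup.mem_top g

theorem L_conj {n : ℕ} {h : G} (hh : h ∈ L G n) (g : G) : g * h * g⁻¹ ∈ L G n := by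
  have h1 : g * h * g⁻¹ = ⁅g, h⁆ * h := by
    rw [commutatorElement_def]; group
  rw [h1]
  exact mul_mem (L_succ_le n (comm_mem' hh g)) hh

/-- `f` is a homomorphism on the `m`-th term of the lower central series, trivial on the next one -/
structure Hm (m : ℕ) (f : G → Circle) : Prop where
  mul : ∀ x ∈ L G m, ∀ y ∈ L G m, f (x * y) = f x * f y
  triv : ∀ x ∈ L G (m + 1), f x = 1

variable {m : ℕ} {f : G → Circle}

theorem Hm.one (hf : Hm m f) : f 1 = 1 := hf.triv 1 (one_mem _)

theorem Hm.inv (hf : Hm m f) {x : G} (hx : x ∈ L G m) : f x⁻¹ = (f x)⁻¹ := by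
  have h := hf.mul x hx x⁻¹ (inv_mem hx)
  rw [mul_inv_cancel, hf.one] at h
  exact (inv_eq_of_mul_eq_one_right h.symm).symm

theorem Hm.pow (hf : Hm m f) {x : G} (hx : x ∈ L G m) (n : ℕ) : f (x ^ n) = f x ^ n := by
  induction n with
  | zero => rw [pow_zero, pow_zero, hf.one]
  | succ n ih => rw [pow_succ, pow_succ, hf.mul _ (pow_mem hx n) _ hx, ih]

theorem comm_mul_left (h h' c : G) : ⁅h * h', c⁆ = ⁅h, ⁅h', c⁆⁆ * ⁅h', c⁆ * ⁅h, c⁆ := by
  simp only [commutatorElement_def]; group

theorem comm_mul_right (w c c' : G) : ⁅w, c * c'⁆ = ⁅w, c⁆ * ⁅c, ⁅w, c'⁆⁆ * ⁅w, c'⁆ := by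
  simp only [commutatorElement_def]; group

theorem Hm.comm_left (hf : Hm (m + 1) f) (c : G) : Hm m (fun h : G => f ⁅h, c⁆) where
  mul x hx y hy := by
    have h1 := comm_mem hx c
    have h2 := comm_mem hy c
    have h3 : ⁅x, ⁅y, c⁆⁆ ∈ L G (m + 2) := comm_mem' h2 x
    rw [comm_mul_left, hf.mul _ (mul_mem (L_succ_le _ h3) h2) _ h1,
      hf.mul _ (L_succ_le _ h3) _ h2, hf.triv _ h3, one_mul, mul_comm]
  triv x hx := hf.triv _ (comm_mem hx c)

theorem Hm.comm_right (hf : Hm (m + 1) f) {w : G} (hw : w ∈ L G m) (c c' : G) :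
    f ⁅w, c * c'⁆ = f ⁅w, c⁆ * f ⁅w, c'⁆ := by
  have h1 := comm_mem hw c
  have h2 := comm_mem hw c'
  have h3 : ⁅c, ⁅w, c'⁆⁆ ∈ L G (m + 2) := comm_mem' h2 c
  rw [comm_mul_right, hf.mul _ (mul_mem h1 (L_succ_le _ h3)) _ h2, hf.mul _ h1 _ (L_succ_le _ h3),
    hf.triv _ h3, mul_one]

theorem Hm.eq_one (hf : Hm (m + 1) f) (h : ∀ x ∈ L G m, ∀ c, f ⁅x, c⁆ = 1) :
    ∀ x ∈ L G (m + 1), f x = 1 := by
  have hle : L G (m + 1) ≤ Subgroup.closure {x | ∃ p ∈ L G m, ∃ q ∈ (⊤ : Subgroup G), ⁅p, q⁆ = x} :=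
    le_refl _
  intro x hx
  have hx' := hle hx
  have : x ∈ L G (m + 1) ∧ f x = 1 := by
    induction hx' using Subgroup.closure_induction with
    | mem y hy =>
      obtain ⟨p, hp, q, -, rfl⟩ := hy
      exact ⟨comm_mem hp q, h p hp q⟩
    | one => exact ⟨one_mem _, hf.one⟩
    | mul y z _ _ hy hz =>
      have hy' := hy (by assumption)
      have hz' := hz (by assumption)
      exact ⟨mul_mem hy'.1 hz'.1, by rw [hf.mul _ hy'.1 _ hz'.1, hy'.2, hz'.2, one_mul]⟩
    | inv y _ hy =>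
      have hy' := hy (by assumption)
      exact ⟨inv_mem hy'.1, by rw [hf.inv hy'.1, hy'.2, inv_one]⟩
  exact this.2

/-- a function on `G` with values in the circle which is a homomorphism -/
theorem zpow_of_mul {φ : G → Circle} (h : ∀ x y, φ (x * y) = φ x * φ y) (a : G) (k : ℤ)
    (ha : φ a = 1) : φ (a ^ k) = 1 := by
  let φ' : G →* Circle := MonoidHom.mk' φ h
  have : φ' (a ^ k) = φ' a ^ k := map_zpow φ' a k
  change φ (a ^ k) = φ a ^ k at this
  rw [this, ha, one_zpow]

end alg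

section top

variable {G : Type*} [Group G] [TopologicalSpace G] [IsTopologicalGroup G]

/-- functions `F (h, g)`, `h ∈ L_m`, multiplicative in both variables, continuous, with `F (h, a) = 1` -/
structure Fam (a : G) (m : ℕ) (F : G → G → Circle) : Prop where
  left : ∀ g, Hm m (fun h => F h g)
  right : ∀ h ∈ L G m, ∀ g g', F h (g * g') = F h g * F h g'
  cont : ContinuousOn (fun q : G × G => F q.1 q.2) ((L G m : Set G) ×ˢ univ)
  at_a : ∀ h ∈ L G m, F h a = 1

/-- `D_m`, the closure of `L_m Γ` -/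
def D (Γ : Subgroup G) (m : ℕ) : Subgroup G := (L G m ⊔ Γ).topologicalClosure

theorem D_closed (Γ : Subgroup G) (m : ℕ) : IsClosed (D Γ m : Set G) :=
  Subgroup.isClosed_topologicalClosure _

theorem L_le_D (Γ : Subgroup G) (m : ℕ) : L G m ≤ D Γ m :=
  le_sup_left.trans (Subgroup.le_topologicalClosure _)

theorem Γ_le_D (Γ : Subgroup G) (m : ℕ) : Γ ≤ D Γ m :=
  le_sup_right.trans (Subgroup.le_topologicalClosure _)

theorem D_antitone (Γ : Subgroup G) (m : ℕ) : D Γ (m + 1) ≤ D Γ m :=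
  Subgroup.topologicalClosure_mono (sup_le_sup_right (L_succ_le m) Γ)

theorem D_le (Γ : Subgroup G) (m : ℕ) {H : Subgroup G} (hH : IsClosed (H : Set G)) (h1 : L G m ≤ H)
    (h2 : Γ ≤ H) : D Γ m ≤ H :=
  Subgroup.topologicalClosure_minimal _ (sup_le h1 h2) hH

/-- a continuous homomorphism to the circle is trivial on `D_1` if it is trivial on `Γ` -/
theorem triv_on_D1 (Γ : Subgroup G) {φ : G → Circle} (h : ∀ x y, φ (x * y) = φ x * φ y)
    (hc : Continuous φ) (hΓ : ∀ γ ∈ Γ, φ γ = 1) : ∀ d ∈ D Γ 1, φ d = 1 := by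
  let φ' : G →* Circle := MonoidHom.mk' φ h
  have h1 : D Γ 1 ≤ φ'.ker := by
    refine D_le Γ 1 ?_ ?_ ?_
    · have : (φ'.ker : Set G) = φ ⁻¹' {1} := by
        ext x
        simp only [SetLike.mem_coe, MonoidHom.mem_ker, mem_preimage, mem_singleton_iff]
        rfl
      rw [this]
      exact isClosed_singleton.preimage hc
    · have h2 : L G 1 = commutator G := Subgroup.top_lowerCentralSeries_one
      rw [h2]
      exact Abelianization.commutator_subset_ker φ'
    · intro γ hγ
      exact hΓ γ hγ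
  intro d hd
  exact h1 hd

theorem mul_of_Hm0 {φ : G → Circle} (h : Hm 0 φ) (x y : G) : φ (x * y) = φ x * φ y :=
  h.mul x (L_zero_mem x) y (L_zero_mem y)

theorem Fam.cont_uncurry {a : G} {F : G → G → Circle} (hF : Fam a 0 F) :
    Continuous (fun q : G × G => F q.1 q.2) := by
  have h := hF.cont
  have h2 : ((L G 0 : Subgroup G) : Set G) ×ˢ (univ : Set G) = univ := by
    simp [L]
  rw [h2] at h
  exact continuousOn_univ.1 h

/-- `g` can be joined to `1` by a path in `G` -/
def JoinedOne (g : G) : Prop := ∃ γ : unitInterval → G, Continuous γ ∧ γ 0 = 1 ∧ γ 1 = g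

theorem fam_zero {a : G} {Γ : Subgroup G} [CompactSpace (G ⧸ D Γ 1)]
    (hG : ∀ g : G, ∃ n : G, ∃ k : ℤ, JoinedOne n ∧ g = n * a ^ k)
    {F : G → G → Circle} (hF : Fam a 0 F) (hΓ : ∀ γ ∈ Γ, ∀ g, F γ g = 1) (h g : G) : F h g = 1 := by
  have hc := hF.cont_uncurry
  have hD : ∀ g, ∀ d ∈ D Γ 1, F d g = 1 := fun g =>
    triv_on_D1 Γ (mul_of_Hm0 (hF.left g)) (hc.comp (by fun_prop : Continuous fun x : G => (x, g)))
      (fun γ hγ => hΓ γ hγ g)
  have key : ∀ n, JoinedOne n → ∀ h, F h n = 1 := by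
    rintro n ⟨γ, hγ, hγ0, hγ1⟩
    set T : Set unitInterval := {t | ∀ h, F h (γ t) = 1} with hT
    have hclosed : IsClosed T := by
      have : T = ⋂ h, {t | F h (γ t) = 1} := by
        ext t; simp [hT]
      rw [this]
      refine isClosed_iInter fun h => isClosed_eq ?_ continuous_const
      exact hc.comp (by fun_prop : Continuous fun t => (h, γ t))
    have hopen : IsOpen T := by
      rw [isOpen_iff_mem_nhds]
      intro t₀ ht₀
      have hev : ∀ᶠ t in 𝓝 t₀, ∀ ξ ∈ (univ : Set (G ⧸ D Γ 1)),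
          ∀ h : G, (QuotientGroup.mk h : G ⧸ D Γ 1) = ξ → dist (F h (γ t)) 1 < 1 := by
        refine isCompact_univ.eventually_forall_of_forall_eventually
          (P := fun t (ξ : G ⧸ D Γ 1) => ∀ h : G, (QuotientGroup.mk h : G ⧸ D Γ 1) = ξ →
            dist (F h (γ t)) 1 < 1) ?_
        intro ξ _
        obtain ⟨h₀, rfl⟩ := QuotientGroup.mk_surjective ξ
        have hcont : Continuous fun q : unitInterval × G => F q.2 (γ q.1) :=
          hc.comp (by fun_prop : Continuous fun q : unitInterval × G => (q.2, γ q.1))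
        have hmem : {q : unitInterval × G | dist (F q.2 (γ q.1)) 1 < 1} ∈ 𝓝 (t₀, h₀) := by
          refine (isOpen_lt (hcont.dist continuous_const) continuous_const).mem_nhds ?_
          change dist (F h₀ (γ t₀)) 1 < 1
          rw [ht₀ h₀, dist_self]
          exact one_pos
        rw [nhds_prod_eq] at hmem
        obtain ⟨A, hA, B, hB, hAB⟩ := mem_prod_iff.1 hmem
        rw [nhds_prod_eq]
        have hB' : (QuotientGroup.mk '' B : Set (G ⧸ D Γ 1)) ∈ 𝓝 (QuotientGroup.mk h₀) :=
          QuotientGroup.isOpenMap_coe.image_mem_nhds hB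
        filter_upwards [prod_mem_prod hA hB'] with q hq h hh
        obtain ⟨hq1, b, hb, hbq⟩ := hq
        have h5 : b⁻¹ * h ∈ D Γ 1 := by
          rw [← QuotientGroup.eq, hbq, hh]
        have h6 : F h (γ q.1) = F b (γ q.1) := by
          have h7 := mul_of_Hm0 (hF.left (γ q.1)) b (b⁻¹ * h)
          rw [mul_inv_cancel_left, hD _ _ h5, mul_one] at h7
          exact h7
        rw [h6]
        exact hAB (mk_mem_prod hq1 hb)
      filter_upwards [hev] with t ht h
      refine circle_no_small _ fun n => ?_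
      have h8 : F h (γ t) ^ n = F (h ^ n) (γ t) := ((hF.left (γ t)).pow (L_zero_mem h) n).symm
      rw [h8]
      exact ht _ (mem_univ _) (h ^ n) rfl
    have h0 : (0 : unitInterval) ∈ T := by
      intro h
      rw [hγ0]
      have h9 := hF.right h (L_zero_mem h) 1 1
      rw [mul_one] at h9
      exact left_eq_mul.1 h9
    have huniv : T = univ := by
      rcases isClopen_iff.1 ⟨hclosed, hopen⟩ with h10 | h10
      · rw [h10] at h0
        exact absurd h0 (notMem_empty _)
      · exact h10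
    intro h
    have h11 : (1 : unitInterval) ∈ T := huniv ▸ mem_univ _
    rw [← hγ1]
    exact h11 h
  obtain ⟨n, k, hn, rfl⟩ := hG g
  rw [hF.right h (L_zero_mem h), key n hn h, one_mul]
  exact zpow_of_mul (hF.right h (L_zero_mem h)) a k (hF.at_a h (L_zero_mem h))

/-- iterated commutators of elements of `Γ` -/
def SS (Γ : Subgroup G) : ℕ → Set G
  | 0 => Γ
  | m + 1 => {x | ∃ w ∈ SS Γ m, ∃ γ ∈ Γ, x = ⁅w, γ⁆}

theorem SS_subset (Γ : Subgroup G) (m : ℕ) : ∀ w ∈ SS Γ m, w ∈ L G m ∧ w ∈ Γ := by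
  induction m with
  | zero => exact fun w hw => ⟨L_zero_mem w, hw⟩
  | succ m ih =>
    rintro _ ⟨w, hw, γ, hγ, rfl⟩
    obtain ⟨h1, h2⟩ := ih w hw
    refine ⟨comm_mem h1 γ, ?_⟩
    rw [commutatorElement_def]
    exact mul_mem (mul_mem (mul_mem h2 hγ) (inv_mem h2)) (inv_mem hγ)

theorem fam_main {a : G} {Γ : Subgroup G} [CompactSpace (G ⧸ D Γ 1)]
    (hG : ∀ g : G, ∃ n : G, ∃ k : ℤ, JoinedOne n ∧ g = n * a ^ k) (m : ℕ) :
    ∀ F : G → G → Circle, Fam a m F → (∀ w ∈ SS Γ m, ∀ g, F w g = 1) →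
      ∀ h ∈ L G m, ∀ g, F h g = 1 := by
  induction m with
  | zero => exact fun F hF hΓ h _ g => fam_zero hG hF (fun γ hγ g => hΓ γ hγ g) h g
  | succ m ih =>
    intro F hF hΓ
    have hE : ∀ w ∈ SS Γ m, ∀ c g, F ⁅w, c⁆ g = 1 := by
      intro w hw c g
      have hwL := (SS_subset Γ m w hw).1
      have hfam : Fam a 0 (fun c g => F ⁅w, c⁆ g) := by
        refine ⟨fun g => ⟨fun x _ y _ => (hF.left g).comm_right hwL x y, ?_⟩,
          fun c _ g g' => hF.right _ (comm_mem hwL c) g g', ?_,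
          fun c _ => hF.at_a _ (comm_mem hwL c)⟩
        · intro x hx
          let φ' : G →* Circle := MonoidHom.mk' (fun c => F ⁅w, c⁆ g)
            (fun x y => (hF.left g).comm_right hwL x y)
          have h2 : L G 1 = commutator G := Subgroup.top_lowerCentralSeries_one
          have hx' : x ∈ commutator G := h2 ▸ hx
          exact Abelianization.commutator_subset_ker φ' hx'
        · have h3 : ContinuousOn (fun q : G × G => (⁅w, q.1⁆, q.2)) ((L G 0 : Set G) ×ˢ univ) := by
            simp only [commutatorElement_def]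
            fun_prop
          exact hF.cont.comp h3 fun q _ => ⟨comm_mem hwL q.1, mem_univ _⟩
      exact fam_zero hG hfam (fun γ hγ g => hΓ _ ⟨w, hw, γ, hγ, rfl⟩ g) c g
    have hstep : ∀ c, ∀ h ∈ L G m, ∀ g, F ⁅h, c⁆ g = 1 := by
      intro c
      refine ih (fun h g => F ⁅h, c⁆ g) ⟨fun g => (hF.left g).comm_left c,
        fun h hh g g' => hF.right _ (comm_mem hh c) g g', ?_,
        fun h hh => hF.at_a _ (comm_mem hh c)⟩ (fun w hw g => hE w hw c g)
      have h3 : ContinuousOn (fun q : G × G => (⁅q.1, c⁆, q.2)) ((L G m : Set G) ×ˢ univ) := by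
        simp only [commutatorElement_def]
        fun_prop
      exact hF.cont.comp h3 fun q hq => ⟨comm_mem hq.1 c, mem_univ _⟩
    intro h hh g
    exact (hF.left g).eq_one (fun x hx c => hstep c x hx g) h hh

/-- triviality along paths -/
theorem path_main {a : G}
    (hG : ∀ g : G, ∃ n : G, ∃ k : ℤ, JoinedOne n ∧ g = n * a ^ k) (m : ℕ) :
    ∀ f : G → Circle, Hm m f →
      (∀ γ : unitInterval → G, Continuous γ → γ 0 = 1 → (∀ t, γ t ∈ L G m) → ∀ t, f (γ t) = 1) →
      (m = 0 → f a = 1) → ∀ h ∈ L G m, f h = 1 := by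
  induction m with
  | zero =>
    intro f hf hp ha h _
    obtain ⟨n, k, ⟨γ, hγ, hγ0, hγ1⟩, rfl⟩ := hG h
    rw [mul_of_Hm0 hf, zpow_of_mul (mul_of_Hm0 hf) a k (ha rfl), mul_one, ← hγ1]
    exact hp γ hγ hγ0 (fun t => L_zero_mem _) 1
  | succ m ih =>
    intro f hf hp _
    refine hf.eq_one fun x hx c => ?_
    refine ih (fun h => f ⁅h, c⁆) (hf.comm_left c) ?_ ?_ x hx
    · intro γ hγ hγ0 hγL t
      refine hp (fun t => ⁅γ t, c⁆) ?_ ?_ (fun t => comm_mem (hγL t) c) t
      · simp only [commutatorElement_def]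
        fun_prop
      · rw [hγ0, commutatorElement_one_left]
    · rintro rfl
      obtain ⟨n, k, ⟨γ, hγ, hγ0, hγ1⟩, rfl⟩ := hG c
      rw [hf.comm_right (L_zero_mem a)]
      have h1 : f ⁅a, a ^ k⁆ = 1 := by
        have : ⁅a, a ^ k⁆ = 1 := by
          rw [commutatorElement_eq_one_iff_commute]
          exact Commute.self_zpow a k
        rw [this, hf.one]
      have h2 : f ⁅a, n⁆ = 1 := by
        have := hp (fun t => ⁅a, γ t⁆) (by simp only [commutatorElement_def]; fun_prop)
          (by rw [hγ0, commutatorElement_one_right]) (fun t => comm_mem (L_zero_mem a) _) 1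
        rwa [hγ1] at this
      rw [h1, h2, one_mul]

end top

end Q70.Nil
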