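import Mathlib

/-!
# Minimal systems, orbits along a set of integers, `R_e`-sequences

Definitions for `MP_33f427_an`.
-/

set_option autoImplicit false

namespace Q70.Nil

universe u

/-- Minimality of `T : X → X`: for every `x` the set `{T ^ n x : n = 1, 2, 3, ...}` is dense. -/
def IsMinimalMap {X : Type*} [TopologicalSpace X] (T : X → X) : Prop :=
  ∀ x, Dense {y | ∃ n : ℕ, 1 ≤ n ∧ T^[n] x = y}

/-- The orbit `{T ^ n x : n ∈ A}` of `x` along `A` is dense. -/
def DenseAlong {X : Type*} [TopologicalSpace X] (A : Set ℕ) (T : X → X) (x : X) : Prop :=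
  Dense {y | ∃ n ∈ A, T^[n] x = y}

/-- `A` is an `R_e`-sequence: every minimal equicontinuous system `(X, T)` (`X` a non-empty compact
metric space, `T` a continuous surjection, the family of the iterates of `T` equicontinuous)
contains a point whose orbit along `A` is dense. -/
def IsReSequence (A : Set ℕ) : Prop :=
  ∀ (X : Type u) [MetricSpace X] [CompactSpace X] [Nonempty X] (T : X → X), Continuous T →
    Function.Surjective T → IsMinimalMap T → Equicontinuous (fun n : ℕ => T^[n]) →
      ∃ x, DenseAlong A T x

end Q70.Nil
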