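import Pool.Agent.Q70.NilStep
import Pool.Agent.Q70.NilDefs

/-!
# Dense orbits along `R_e`-sequences in minimal nilsystems: assembly

Auxiliary file for `MP_33f427_an`.
-/

set_option autoImplicit false
set_option linter.unusedSectionVars false

namespace Q70.Nil

open Topology Filter Set
open scoped commutatorElement

universe u

section groups

theorem iterate_mul {Z : Type*} [CommGroup Z] (α : Z) (n : ℕ) (z : Z) :
    (fun z => α * z)^[n] z = α ^ n * z := by
  induction n generalizing z with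
  | zero => simp
  | succ n ih => rw [Function.iterate_succ_apply, ih, pow_succ, mul_assoc]

/-- an `R_e`-sequence meets all residue classes -/
theorem IsReSequence.residue {A : Set ℕ} (hA : IsReSequence.{u} A) (K : ℕ) (hK : 0 < K) (r : ℕ) :
    ∃ n ∈ A, n ≡ r [MOD K] := by
  have : NeZero K := ⟨hK.ne'⟩
  let X := ULift.{u} (ZMod K)
  let tX : TopologicalSpace X := ⊥
  have hd : DiscreteTopology X := ⟨rfl⟩
  let mX : MetricSpace X := TopologicalSpace.metrizableSpaceMetric X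
  have hfin : Finite X := inferInstanceAs (Finite (ULift.{u} (ZMod K)))
  let T : X → X := fun x => ⟨x.down + 1⟩
  have hT : ∀ (n : ℕ) (x : X), T^[n] x = ⟨x.down + n⟩ := by
    intro n
    induction n with
    | zero =>
      intro x
      apply ULift.ext
      simp
    | succ n ih =>
      intro x
      rw [Function.iterate_succ_apply, ih]
      simp only [T]
      congr 1
      push_cast
      ring
  obtain ⟨x, hx⟩ := hA X T continuous_of_discreteTopology (fun x => ⟨⟨x.down - 1⟩, by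
      apply ULift.ext
      simp [T]⟩)
    (by
      intro x
      have : {y | ∃ n : ℕ, 1 ≤ n ∧ T^[n] x = y} = univ := by
        rw [eq_univ_iff_forall]
        intro y
        refine ⟨(y.down - x.down).val + K, by omega, ?_⟩
        rw [hT]
        apply ULift.ext
        push_cast
        simp
      rw [this]
      exact dense_univ)
    (by
      intro x
      rw [Metric.equicontinuousAt_iff_right]
      intro ε hε
      rw [nhds_discrete]
      simp [hε])
  have h1 := hx (⟨x.down + r⟩ : X)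
  rw [closure_discrete] at h1
  obtain ⟨n, hn, hnr⟩ := h1
  refine ⟨n, hn, ?_⟩
  rw [hT] at hnr
  have h2 : x.down + (n : ZMod K) = x.down + r := congrArg ULift.down hnr
  have h3 : (n : ZMod K) = r := add_left_cancel h2
  exact (ZMod.natCast_eq_natCast_iff _ _ _).1 h3

variable {Z : Type u} [CommGroup Z] [TopologicalSpace Z] [IsTopologicalGroup Z] [CompactSpace Z]
  [T2Space Z] [SecondCountableTopology Z]

theorem IsReSequence.dense {A : Set ℕ} (hA : IsReSequence.{u} A) (α : Z)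
    (hα : Dense {z : Z | ∃ n : ℕ, 1 ≤ n ∧ α ^ n = z}) : Dense {z : Z | ∃ n ∈ A, α ^ n = z} := by
  have hmet : TopologicalSpace.MetrizableSpace Z :=
    TopologicalSpace.metrizableSpace_of_t3_secondCountable Z
  let mZ : MetricSpace Z := TopologicalSpace.metrizableSpaceMetric Z
  have hc : Continuous fun z : Z => α * z := by fun_prop
  have hcomap : ∀ (S : Set ℕ) (x : Z), {z : Z | ∃ n ∈ S, (fun z => α * z)^[n] x = z} =
      (fun z => z * x⁻¹) ⁻¹' {z : Z | ∃ n ∈ S, α ^ n = z} := by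
    intro S x
    ext z
    simp only [mem_ofPred_eq, mem_preimage, iterate_mul]
    constructor
    · rintro ⟨n, hn, rfl⟩
      exact ⟨n, hn, by rw [mul_inv_cancel_right]⟩
    · rintro ⟨n, hn, h⟩
      exact ⟨n, hn, by rw [h, inv_mul_cancel_right]⟩
  have hdense : ∀ (S : Set ℕ) (x : Z), Dense {z : Z | ∃ n ∈ S, (fun z => α * z)^[n] x = z} ↔
      Dense {z : Z | ∃ n ∈ S, α ^ n = z} := by
    intro S x
    rw [hcomap]
    have hsurj : Function.Surjective fun z : Z => z * x⁻¹ := (Homeomorph.mulRight x⁻¹).surjective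
    constructor
    · intro h
      have h2 := hsurj.denseRange.dense_image (by fun_prop) h
      rwa [image_preimage_eq _ hsurj] at h2
    · exact fun h => h.preimage (Homeomorph.mulRight x⁻¹).isOpenMap
  obtain ⟨x, hx⟩ := hA Z (fun z => α * z) hc (fun z => ⟨α⁻¹ * z, by simp⟩)
    (by
      intro x
      have h := (hdense {n | 1 ≤ n} x).2 hα
      exact h)
    (by
      intro x
      rw [Metric.equicontinuousAt_iff_right]
      intro ε hε
      have hu : UniformContinuous fun q : Z × Z => q.1 * q.2 :=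
        CompactSpace.uniformContinuous_of_continuous continuous_mul
      obtain ⟨δ, hδ, hδ2⟩ := Metric.uniformContinuous_iff.1 hu ε hε
      filter_upwards [Metric.ball_mem_nhds x hδ] with y hy n
      rw [iterate_mul, iterate_mul]
      refine hδ2 (a := (α ^ n, x)) (b := (α ^ n, y)) ?_
      rw [Prod.dist_eq, dist_self, max_eq_right dist_nonneg, dist_comm]
      exact hy)
  exact (hdense A x).1 hx

/-- an `R_e`-sequence hits every open set at arbitrarily large times -/
theorem IsReSequence.large {A : Set ℕ} (hA : IsReSequence.{u} A) (α : Z)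
    (hα : Dense {z : Z | ∃ n : ℕ, 1 ≤ n ∧ α ^ n = z}) {O : Set Z} (hO : IsOpen O)
    (hne : O.Nonempty) (N : ℕ) : ∃ n ∈ A, N ≤ n ∧ α ^ n ∈ O := by
  by_contra hcon
  push Not at hcon
  set S : Set Z := (fun n => α ^ n) '' Iio N with hS
  have hSf : S.Finite := (finite_Iio N).image _
  have h1 : O ⊆ S := by
    intro z hz
    by_contra hzS
    obtain ⟨y, ⟨hyO, hyS⟩, n, hn, rfl⟩ := (hA.dense α hα).inter_open_nonempty (O \ S)
      (hO.sdiff hSf.isClosed) ⟨z, hz, hzS⟩
    rcases le_or_gt N n with h | h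
    · exact hcon n hn h hyO
    · exact hyS ⟨n, h, rfl⟩
  obtain ⟨o, ho⟩ := hne
  have hopen : IsOpen ({o} : Set Z) := by
    have : ({o} : Set Z) = O \ (S \ {o}) := by
      ext z
      simp only [mem_singleton_iff, Set.mem_sdiff]
      constructor
      · rintro rfl
        exact ⟨ho, fun h => h.2 rfl⟩
      · rintro ⟨h2, h3⟩
        by_contra h4
        exact h3 ⟨h1 h2, h4⟩
    rw [this]
    exact hO.sdiff (hSf.subset sdiff_subset).isClosed
  have hd : DiscreteTopology Z := by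
    refine discreteTopology_of_isOpen_singleton_one ?_
    have : ({1} : Set Z) = (fun z => z * o) ⁻¹' {o} := by
      ext z; simp
    rw [this]
    exact hopen.preimage (by fun_prop)
  have hfin : Finite Z := finite_of_compact_of_discrete
  set k := orderOf α with hk
  have hk0 : 0 < k := orderOf_pos α
  obtain ⟨y, hy, r, hr, rfl⟩ := hα.inter_open_nonempty {o} hopen ⟨o, rfl⟩
  obtain ⟨n, hn, hnr⟩ := hA.residue (k * (r + N + 1)) (by positivity) (r + k * N)
  have hlt : r + k * N < k * (r + N + 1) := by nlinarith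
  have hmod : n % (k * (r + N + 1)) = r + k * N := by
    rw [hnr, Nat.mod_eq_of_lt hlt]
  have hge : r + k * N ≤ n := hmod ▸ Nat.mod_le _ _
  have hN : N ≤ n := by nlinarith
  apply hcon n hn hN
  have hmodk : n ≡ r [MOD k] := by
    have h5 : n ≡ r + k * N [MOD k] := hnr.of_mul_right _
    have h6 : r + k * N ≡ r [MOD k] := by
      simp [Nat.ModEq]
    exact h5.trans h6
  have h7 : α ^ n = α ^ r := (pow_eq_pow_iff_modEq).2 hmodk
  rw [h7]
  have h8 : α ^ r = o := hy
  rw [h8]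
  exact ho

end groups

section assembly

variable {G : Type u} [Group G] [TopologicalSpace G] [IsTopologicalGroup G]
variable {X : Type*} [TopologicalSpace X] [CompactSpace X] [SecondCountableTopology X]

theorem main_open {A : Set ℕ} (hA : IsReSequence.{u} A) (hnil : Group.IsNilpotent G)
    (Γ : Subgroup G) (hΓ : IsClosed (Γ : Set G)) {a : G}
    (hG : ∀ g : G, ∃ n : G, ∃ k : ℤ, JoinedOne n ∧ g = n * a ^ k)
    (q : G → X) (hqc : Continuous q) (hqo : IsOpenMap q) (hqs : Function.Surjective q)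
    (hq : ∀ x y, q x = q y ↔ x⁻¹ * y ∈ Γ)
    (hmin : Dense {ξ | ∃ n : ℕ, 1 ≤ n ∧ q (a ^ n) = ξ})
    {U V : Set X} (hU : IsOpen U) (hUne : U.Nonempty) (hV : IsOpen V) (hVne : V.Nonempty) :
    ∃ n ∈ A, ∃ g, q g ∈ U ∧ q (a ^ n * g) ∈ V := by
  -- compactness of the quotients
  have hr : ∀ (m : ℕ) (g : G), (QuotientGroup.mk (Function.surjInv hqs (q g)) : G ⧸ D Γ m) =
      QuotientGroup.mk g := by
    intro m g
    refine QuotientGroup.eq.2 (Γ_le_D Γ m ?_)
    rw [← hq]
    exact Function.surjInv_eq hqs (q g)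
  have hquot : IsQuotientMap q := hqo.isQuotientMap hqc hqs
  have hrc : ∀ m : ℕ, Continuous fun ξ : X =>
      (QuotientGroup.mk (Function.surjInv hqs ξ) : G ⧸ D Γ m) := by
    intro m
    rw [hquot.continuous_iff]
    have : ((fun ξ : X => (QuotientGroup.mk (Function.surjInv hqs ξ) : G ⧸ D Γ m)) ∘ q) =
        QuotientGroup.mk := funext fun g => hr m g
    rw [this]
    exact QuotientGroup.continuous_mk
  have hrs : ∀ m : ℕ, Function.Surjective fun ξ : X =>
      (QuotientGroup.mk (Function.surjInv hqs ξ) : G ⧸ D Γ m) := by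
    intro m z
    obtain ⟨g, rfl⟩ := QuotientGroup.mk_surjective z
    exact ⟨q g, hr m g⟩
  have hcpt : ∀ m, CompactSpace (G ⧸ D Γ m) := by
    intro m
    rw [← isCompact_univ_iff, ← (hrs m).range_eq]
    exact isCompact_range (hrc m)
  -- the group `G / D_1`
  have hnormal : (D Γ 1).Normal := by
    refine ⟨fun d hd g => ?_⟩
    have h1 : g * d * g⁻¹ = ⁅g, d⁆ * d := by
      rw [commutatorElement_def]; group
    rw [h1]
    exact mul_mem (L_le_D Γ 1 (comm_mem' (L_zero_mem d) g)) hd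
  let instCG : CommGroup (G ⧸ D Γ 1) :=
    { (inferInstance : Group (G ⧸ D Γ 1)) with
      mul_comm := by
        intro x y
        obtain ⟨x, rfl⟩ := QuotientGroup.mk_surjective x
        obtain ⟨y, rfl⟩ := QuotientGroup.mk_surjective y
        refine QuotientGroup.eq.2 ?_
        have h1 : (x * y)⁻¹ * (y * x) = ⁅y⁻¹, x⁻¹⁆ := by
          rw [commutatorElement_def]
          group
        rw [h1]
        exact L_le_D Γ 1 (comm_mem (L_zero_mem _) _) }
  have hTG : IsTopologicalGroup (G ⧸ D Γ 1) := inferInstance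
  have hcl : IsClosed (D Γ 1 : Set G) := D_closed Γ 1
  have hT3 : T3Space (G ⧸ D Γ 1) := inferInstance
  have hcpt1 := hcpt 1
  have hopenr : IsOpenMap fun ξ : X =>
      (QuotientGroup.mk (Function.surjInv hqs ξ) : G ⧸ D Γ 1) := by
    intro W hW
    have : (fun ξ : X => (QuotientGroup.mk (Function.surjInv hqs ξ) : G ⧸ D Γ 1)) '' W =
        QuotientGroup.mk '' (q ⁻¹' W) := by
      ext z
      constructor
      · rintro ⟨ξ, hξ, rfl⟩
        refine ⟨Function.surjInv hqs ξ, ?_, rfl⟩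
        rw [mem_preimage, Function.surjInv_eq hqs ξ]
        exact hξ
      · rintro ⟨g, hg, rfl⟩
        exact ⟨q g, hg, hr 1 g⟩
    rw [this]
    exact QuotientGroup.isOpenMap_coe _ (hW.preimage hqc)
  have h2c : SecondCountableTopology (G ⧸ D Γ 1) :=
    (hopenr.isQuotientMap (hrc 1) (hrs 1)).secondCountableTopology hopenr
  let π : G →* G ⧸ D Γ 1 := QuotientGroup.mk' (D Γ 1)
  have hdense : Dense {z : G ⧸ D Γ 1 | ∃ n : ℕ, 1 ≤ n ∧ (π a) ^ n = z} := by
    have h1 := (hrs 1).denseRange.dense_image (hrc 1) hmin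
    refine h1.mono ?_
    rintro _ ⟨ξ, ⟨n, hn, rfl⟩, rfl⟩
    refine ⟨n, hn, ?_⟩
    rw [← map_pow]
    exact (hr 1 (a ^ n)).symm
  have hmin' : ∀ V : Set G, IsOpen V → V.Nonempty → ∃ n : ℕ, ∃ v ∈ V, (a ^ n)⁻¹ * v ∈ D Γ 1 := by
    intro V hV hVne
    have h1 : IsOpen (QuotientGroup.mk '' V : Set (G ⧸ D Γ 1)) := QuotientGroup.isOpenMap_coe _ hV
    obtain ⟨z, ⟨v, hv, hvz⟩, n, -, hnz⟩ := hdense.inter_open_nonempty _ h1 (hVne.image _)
    refine ⟨n, v, hv, QuotientGroup.eq.1 ?_⟩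
    rw [hvz, ← hnz, ← map_pow]
    rfl
  -- the ultrafilter
  obtain ⟨ξ, hξ⟩ := hUne
  obtain ⟨x, rfl⟩ := hqs ξ
  obtain ⟨η, hη⟩ := hVne
  obtain ⟨y, rfl⟩ := hqs η
  set 𝓖 : Filter ℕ := comap (fun n : ℕ => π a ^ n * π x) (𝓝 (π y)) ⊓ (atTop ⊓ 𝓟 A) with h𝓖
  have hne : 𝓖.NeBot := by
    rw [h𝓖, inf_neBot_iff]
    intro s hs s' hs'
    obtain ⟨O, hO, hOs⟩ := mem_comap.1 hs
    rw [mem_inf_principal, mem_atTop_sets] at hs'
    obtain ⟨N, hN⟩ := hs'
    obtain ⟨O', hO'O, hO', hyO'⟩ := mem_nhds_iff.1 hO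
    have hO2 : IsOpen ((fun z => z * π x) ⁻¹' O') := hO'.preimage (by fun_prop)
    obtain ⟨n, hnA, hnN, hnO⟩ := hA.large (π a) hdense hO2
      ⟨π y * (π x)⁻¹, by rw [mem_preimage, inv_mul_cancel_right]; exact hyO'⟩ N
    exact ⟨n, hOs (hO'O hnO), hN n hnN hnA⟩
  let p : Ultrafilter ℕ := Ultrafilter.of 𝓖
  have hp𝓖 : (p : Filter ℕ) ≤ 𝓖 := Ultrafilter.of_le 𝓖
  have hp : (p : Filter ℕ) ≤ atTop := hp𝓖.trans (inf_le_right.trans inf_le_left)
  have hpA : ∀ᶠ n in (p : Filter ℕ), n ∈ A :=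
    hp𝓖 (mem_inf_of_right (mem_inf_of_right (mem_principal_self _)))
  have hpy : Tendsto (fun n : ℕ => π a ^ n * π x) p (𝓝 (π y)) :=
    tendsto_comap.mono_left (hp𝓖.trans inf_le_left)
  have hQ1 : Q p a (D Γ 1) x y := by
    intro U' hU' V' hV'
    have h1 : (QuotientGroup.mk '' V' : Set (G ⧸ D Γ 1)) ∈ 𝓝 (QuotientGroup.mk y) :=
      QuotientGroup.isOpenMap_coe.image_mem_nhds hV'
    filter_upwards [hpy h1] with n hn
    obtain ⟨v, hv, hvn⟩ := hn
    have h9 : π (a ^ n * x) = π a ^ n * π x := by rw [map_mul, map_pow]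
    exact ⟨x, mem_of_mem_nhds hU', v, hv, QuotientGroup.eq.1 (h9.trans hvn.symm)⟩
  obtain ⟨c, hc⟩ := Subgroup.nilpotent_iff_lowerCentralSeries.1 hnil
  have hQc := Q_all hcpt hp hG hmin' hQ1 c
  have hL : L G (c + 1) = ⊥ := le_bot_iff.1 ((L_succ_le c).trans hc.le)
  have hDΓ : D Γ (c + 1) = Γ := by
    apply le_antisymm
    · exact D_le Γ (c + 1) hΓ (hL.le.trans bot_le) le_rfl
    · exact Γ_le_D Γ (c + 1)
  rw [hDΓ] at hQc
  obtain ⟨n, ⟨u, hu, v, hv, huv⟩, hnA⟩ := ((hQc _ ((hU.preimage hqc).mem_nhds hξ) _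
    ((hV.preimage hqc).mem_nhds hη)).and hpA).exists
  refine ⟨n, hnA, u, hu, ?_⟩
  have : q (a ^ n * u) = q v := (hq _ _).2 huv
  rw [this]
  exact hv

end assembly

section baire

theorem exists_denseAlong {X : Type*} [TopologicalSpace X] [CompactSpace X] [T2Space X]
    [SecondCountableTopology X] [Nonempty X] (A : Set ℕ) (T : X → X) (hT : Continuous T)
    (h : ∀ U V : Set X, IsOpen U → U.Nonempty → IsOpen V → V.Nonempty →
      ∃ n ∈ A, ∃ x ∈ U, T^[n] x ∈ V) : ∃ x, DenseAlong A T x := by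
  let B := TopologicalSpace.countableBasis X
  have hB := TopologicalSpace.isBasis_countableBasis X
  have hBc : B.Countable := TopologicalSpace.countable_countableBasis X
  have hopen : ∀ V ∈ B, IsOpen (⋃ n ∈ A, T^[n] ⁻¹' V) := fun V hV =>
    isOpen_biUnion fun n _ => (hB.isOpen hV).preimage (hT.iterate n)
  have hdense : ∀ V ∈ B, Dense (⋃ n ∈ A, T^[n] ⁻¹' V) := by
    intro V hV
    rw [dense_iff_inter_open]
    intro U hU hUne
    obtain ⟨n, hn, x, hx, hxV⟩ := h U V hU hUne (hB.isOpen hV)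
      (nonempty_iff_ne_empty.2 fun h0 => TopologicalSpace.empty_notMem_countableBasis X (h0 ▸ hV))
    exact ⟨x, hx, mem_biUnion hn hxV⟩
  obtain ⟨x, hx⟩ := (dense_biInter_of_isOpen hopen hBc hdense).nonempty
  refine ⟨x, ?_⟩
  unfold DenseAlong
  rw [dense_iff_inter_open]
  intro W hW hWne
  obtain ⟨w, hw⟩ := hWne
  obtain ⟨V, hV, hwV, hVW⟩ := hB.exists_subset_of_mem_open hw hW
  have h1 := mem_iInter₂.1 hx V hV
  obtain ⟨n, hn, hnV⟩ := mem_iUnion₂.1 h1
  exact ⟨T^[n] x, hVW hnV, n, hn, rfl⟩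

end baire

section reduction

variable {G : Type u} [Group G] [TopologicalSpace G] [IsTopologicalGroup G]

theorem JoinedOne.mul {g h : G} (hg : JoinedOne g) (hh : JoinedOne h) : JoinedOne (g * h) := by
  obtain ⟨γ, hγ, hγ0, hγ1⟩ := hg
  obtain ⟨δ, hδ, hδ0, hδ1⟩ := hh
  exact ⟨fun t => γ t * δ t, hγ.mul hδ, by simp [hγ0, hδ0], by simp [hγ1, hδ1]⟩

theorem JoinedOne.inv {g : G} (hg : JoinedOne g) : JoinedOne g⁻¹ := by
  obtain ⟨γ, hγ, hγ0, hγ1⟩ := hg
  exact ⟨fun t => (γ t)⁻¹, hγ.inv, by simp [hγ0], by simp [hγ1]⟩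

theorem JoinedOne.conj {g : G} (hg : JoinedOne g) (h : G) : JoinedOne (h * g * h⁻¹) := by
  obtain ⟨γ, hγ, hγ0, hγ1⟩ := hg
  exact ⟨fun t => h * γ t * h⁻¹, by fun_prop, by simp [hγ0], by simp [hγ1]⟩

theorem joinedOne_one : JoinedOne (1 : G) := ⟨fun _ => 1, continuous_const, rfl, rfl⟩

/-- the path component of `1` -/
def NN (G : Type u) [Group G] [TopologicalSpace G] [IsTopologicalGroup G] : Subgroup G where
  carrier := {g | JoinedOne g}
  mul_mem' := fun ha hb => JoinedOne.mul ha hb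
  one_mem' := joinedOne_one
  inv_mem' := fun ha => JoinedOne.inv ha

instance : (NN G).Normal := ⟨fun _ hn g => JoinedOne.conj hn g⟩

theorem joinedOne_path {γ : unitInterval → G} (hγ : Continuous γ) (h0 : γ 0 = 1)
    (s : unitInterval) : JoinedOne (γ s) :=
  ⟨fun t => γ (s * t), by fun_prop, by simp [h0], by simp⟩

theorem NN_isOpen [LocallyPathConnectedSpace G] : IsOpen (NN G : Set G) := by
  have : (NN G : Set G) = pathComponent 1 := by
    ext g
    constructor
    · rintro ⟨γ, hγ, hγ0, hγ1⟩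
      exact ⟨⟨⟨γ, hγ⟩, hγ0, hγ1⟩⟩
    · rintro ⟨γ⟩
      exact ⟨γ, γ.continuous, γ.source, γ.target⟩
  rw [this]
  exact IsOpen.pathComponent 1

/-- the open subgroup generated by the path component of `1` and `a` -/
def GG (a : G) : Subgroup G := NN G ⊔ Subgroup.zpowers a

theorem mem_GG (a : G) {g : G} : g ∈ GG a ↔ ∃ n ∈ NN G, ∃ k : ℤ, g = n * a ^ k := by
  rw [← SetLike.mem_coe, GG, Subgroup.normal_mul, Set.mem_mul]
  constructor
  · rintro ⟨n, hn, z, hz, rfl⟩
    obtain ⟨k, rfl⟩ := Subgroup.mem_zpowers_iff.1 hz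
    exact ⟨n, hn, k, rfl⟩
  · rintro ⟨n, hn, k, rfl⟩
    exact ⟨n, hn, a ^ k, Subgroup.mem_zpowers_iff.2 ⟨k, rfl⟩, rfl⟩

theorem GG_isOpen [LocallyPathConnectedSpace G] (a : G) : IsOpen (GG a : Set G) :=
  Subgroup.isOpen_mono (le_sup_left : NN G ≤ GG a) NN_isOpen

theorem iterate_smul {X : Type*} [MulAction G X] (a : G) (n : ℕ) (x : X) :
    (fun x => a • x)^[n] x = a ^ n • x := by
  induction n generalizing x with
  | zero => simp
  | succ n ih => rw [Function.iterate_succ_apply, ih, pow_succ, mul_smul]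

/-- **Main theorem.** -/
theorem main {A : Set ℕ} (hA : IsReSequence.{u} A) (hnil : Group.IsNilpotent G)
    [LocallyPathConnectedSpace G] (Γ : Subgroup G) (hΓ : IsClosed (Γ : Set G))
    [CompactSpace (G ⧸ Γ)] [T2Space (G ⧸ Γ)] [SecondCountableTopology (G ⧸ Γ)] (a : G)
    (hmin : IsMinimalMap fun x : G ⧸ Γ => a • x) :
    ∃ y, DenseAlong A (fun x : G ⧸ Γ => a • x) y := by
  have hTc : Continuous fun x : G ⧸ Γ => a • x := continuous_const_smul a
  have hne : Nonempty (G ⧸ Γ) := ⟨QuotientGroup.mk 1⟩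
  refine exists_denseAlong A _ hTc fun U V hU hUne hV hVne => ?_
  -- the subgroup `G' = ⟨G⁰, a⟩`
  let G' : Subgroup G := GG a
  have haG' : a ∈ G' := (mem_GG a).2 ⟨1, one_mem _, 1, by simp⟩
  have hNG' : NN G ≤ G' := le_sup_left
  let a' : G' := ⟨a, haG'⟩
  let q : G' → G ⧸ Γ := fun g => QuotientGroup.mk (g : G)
  have hqc : Continuous q := QuotientGroup.continuous_mk.comp continuous_subtype_val
  have hqo : IsOpenMap q :=
    QuotientGroup.isOpenMap_coe.comp (GG_isOpen a).isOpenMap_subtype_val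
  have hqs : Function.Surjective q := by
    intro ξ
    obtain ⟨h, rfl⟩ := QuotientGroup.mk_surjective ξ
    have hO : IsOpen ((fun g : G => (QuotientGroup.mk (g * h) : G ⧸ Γ)) '' (G' : Set G)) := by
      have : (fun g : G => (QuotientGroup.mk (g * h) : G ⧸ Γ)) '' (G' : Set G) =
          QuotientGroup.mk '' ((fun g : G => g * h) '' (G' : Set G)) := by
        rw [image_image]
      rw [this]
      exact QuotientGroup.isOpenMap_coe _ (isOpenMap_mul_right h _ (GG_isOpen a))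
    obtain ⟨y, ⟨g, hg, hgy⟩, n, -, hn⟩ := (hmin (QuotientGroup.mk 1)).inter_open_nonempty _ hO
      ⟨_, 1, one_mem _, rfl⟩
    rw [iterate_smul] at hn
    have h1 : (QuotientGroup.mk (a ^ n) : G ⧸ Γ) = QuotientGroup.mk (g * h) := by
      rw [← hgy] at hn
      simpa using hn
    refine ⟨⟨g⁻¹ * a ^ n, mul_mem (inv_mem hg) (pow_mem haG' n)⟩, ?_⟩
    have h2 := QuotientGroup.eq.1 h1
    refine QuotientGroup.eq.2 ?_
    have h3 : (g⁻¹ * a ^ n)⁻¹ * h = (a ^ n)⁻¹ * (g * h) := by group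
    rw [h3]
    exact h2
  have hq : ∀ x y, q x = q y ↔ x⁻¹ * y ∈ Γ.subgroupOf G' := by
    intro x y
    rw [Subgroup.mem_subgroupOf]
    exact QuotientGroup.eq
  have hΓ' : IsClosed ((Γ.subgroupOf G' : Subgroup G') : Set G') :=
    hΓ.preimage continuous_subtype_val
  have hG' : ∀ g : G', ∃ n : G', ∃ k : ℤ, JoinedOne n ∧ g = n * a' ^ k := by
    rintro ⟨g, hg⟩
    obtain ⟨n, ⟨γ, hγ, hγ0, hγ1⟩, k, rfl⟩ := (mem_GG a).1 hg
    have hmem : ∀ t, γ t ∈ G' := fun t => hNG' (joinedOne_path hγ hγ0 t)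
    refine ⟨⟨n, hγ1 ▸ hmem 1⟩, k, ⟨fun t => ⟨γ t, hmem t⟩, by fun_prop, ?_, ?_⟩, ?_⟩
    · exact Subtype.ext hγ0
    · exact Subtype.ext hγ1
    · apply Subtype.ext
      push_cast
      rfl
  have hmin' : Dense {ξ | ∃ n : ℕ, 1 ≤ n ∧ q (a' ^ n) = ξ} := by
    refine (hmin (QuotientGroup.mk 1)).mono ?_
    rintro ξ ⟨n, hn, rfl⟩
    refine ⟨n, hn, ?_⟩
    rw [iterate_smul]
    simp [q, a']
  have hnil' : Group.IsNilpotent G' := inferInstance
  obtain ⟨n, hn, g, hg, hgV⟩ := main_open hA hnil' (Γ.subgroupOf G') hΓ' hG' q hqc hqo hqs hq hmin'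
    hU hUne hV hVne
  refine ⟨n, hn, q g, hg, ?_⟩
  rw [iterate_smul]
  have : q (a' ^ n * g) = a ^ n • q g := by
    simp [q, a']
  rwa [← this]

end reduction

end Q70.Nil
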