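import Pool.Agent.Q70.NilAlg
import Pool.Agent.Helper472.Lat_Chars

/-!
# The relation `Q` along an ultrafilter and the induction step

Auxiliary file for `MP_33f427_an` (dense orbits along `R_e`-sequences in minimal nilsystems).
-/

set_option autoImplicit false
set_option linter.unusedSectionVars false

namespace Q70.Nil

open Topology Filter Set
open scoped commutatorElement

section normal

variable {G : Type*} [Group G] [TopologicalSpace G] [IsTopologicalGroup G]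

theorem comm_D (Γ : Subgroup G) (m : ℕ) {x y : G} (hx : x ∈ D Γ m) (hy : y ∈ D Γ m) :
    ⁅x, y⁆ ∈ D Γ (m + 1) := by
  have hcoe : ((D Γ m : Subgroup G) : Set G) = closure ((L G m ⊔ Γ : Subgroup G) : Set G) :=
    Subgroup.topologicalClosure_coe
  have hL : L G (m + 1) ≤ D Γ (m + 1) := L_le_D Γ (m + 1)
  have hΓ : Γ ≤ D Γ (m + 1) := Γ_le_D Γ (m + 1)
  have h1 : ∀ x ∈ (L G m ⊔ Γ : Subgroup G), ∀ y ∈ (L G m ⊔ Γ : Subgroup G),
      ⁅x, y⁆ ∈ D Γ (m + 1) := by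
    intro x hx y hy
    rw [← SetLike.mem_coe, Subgroup.normal_mul] at hx hy
    obtain ⟨z, hz, γ, hγ, rfl⟩ := hx
    obtain ⟨w, hw, δ, hδ, rfl⟩ := hy
    simp only
    rw [comm_mul_left]
    refine mul_mem (mul_mem (hL (comm_mem hz _)) ?_) (hL (comm_mem hz _))
    rw [comm_mul_right]
    refine mul_mem (mul_mem (hL (comm_mem' hw _)) (hL (comm_mem hw _))) (hΓ ?_)
    rw [commutatorElement_def]
    exact mul_mem (mul_mem (mul_mem hγ hδ) (inv_mem hγ)) (inv_mem hδ)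
  have h2 : ∀ x ∈ D Γ m, ∀ y ∈ (L G m ⊔ Γ : Subgroup G), ⁅x, y⁆ ∈ D Γ (m + 1) := by
    intro x hx y hy
    have hc : Continuous fun x : G => ⁅x, y⁆ := by
      simp only [commutatorElement_def]; fun_prop
    have hcl : IsClosed {x : G | ⁅x, y⁆ ∈ D Γ (m + 1)} := (D_closed Γ (m + 1)).preimage hc
    rw [← SetLike.mem_coe, hcoe] at hx
    exact closure_minimal (fun x hx => h1 x hx y hy) hcl hx
  have hc : Continuous fun y : G => ⁅x, y⁆ := by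
    simp only [commutatorElement_def]; fun_prop
  have hcl : IsClosed {y : G | ⁅x, y⁆ ∈ D Γ (m + 1)} := (D_closed Γ (m + 1)).preimage hc
  rw [← SetLike.mem_coe, hcoe] at hy
  exact closure_minimal (fun y hy => h2 x hx y hy) hcl hy

theorem conj_D (Γ : Subgroup G) (m : ℕ) {k d : G} (hk : k ∈ D Γ m) (hd : d ∈ D Γ (m + 1)) :
    k * d * k⁻¹ ∈ D Γ (m + 1) := by
  have h1 : k * d * k⁻¹ = ⁅k, d⁆ * d := by
    rw [commutatorElement_def]; group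
  rw [h1]
  exact mul_mem (comm_D Γ m hk (D_antitone Γ m hd)) hd

end normal

section rel

variable {G : Type*} [Group G] [TopologicalSpace G] [IsTopologicalGroup G]

/-- `y` is a limit of points `a ^ n u` with `u` close to `x`, along the ultrafilter `p`, modulo `Δ` -/
def Q (p : Ultrafilter ℕ) (a : G) (Δ : Subgroup G) (x y : G) : Prop :=
  ∀ U ∈ 𝓝 x, ∀ V ∈ 𝓝 y, ∀ᶠ n in (p : Filter ℕ), ∃ u ∈ U, ∃ v ∈ V, (a ^ n * u)⁻¹ * v ∈ Δ

variable {p : Ultrafilter ℕ} {a : G}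

theorem Q_translate {Δ : Subgroup G} {x y e : G} (he : ∀ d ∈ Δ, e * d * e⁻¹ ∈ Δ)
    (h : Q p a Δ (x * e) y) : Q p a Δ x (y * e⁻¹) := by
  intro U hU V hV
  have hU' : {u : G | u * e⁻¹ ∈ U} ∈ 𝓝 (x * e) := by
    have hc : Continuous fun u : G => u * e⁻¹ := by fun_prop
    exact hc.continuousAt.preimage_mem_nhds (by rwa [mul_inv_cancel_right])
  have hV' : {v : G | v * e⁻¹ ∈ V} ∈ 𝓝 y := by
    have hc : Continuous fun u : G => u * e⁻¹ := by fun_prop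
    exact hc.continuousAt.preimage_mem_nhds hV
  filter_upwards [h _ hU' _ hV'] with n hn
  obtain ⟨u, hu, v, hv, huv⟩ := hn
  refine ⟨u * e⁻¹, hu, v * e⁻¹, hv, ?_⟩
  have h1 : (a ^ n * (u * e⁻¹))⁻¹ * (v * e⁻¹) = e * ((a ^ n * u)⁻¹ * v) * e⁻¹ := by group
  rw [h1]
  exact he _ huv

theorem Q_lift {Δ Δ' : Subgroup G} (hle : Δ' ≤ Δ) (hΔ : IsClosed (Δ : Set G))
    [CompactSpace (G ⧸ Δ')] {x y : G} (h : Q p a Δ x y) : ∃ e ∈ Δ, Q p a Δ' (x * e) y := by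
  set 𝓕 : Filter (ℕ × G × G) := ((p : Filter ℕ) ×ˢ (𝓝 x ×ˢ 𝓝 y)) ⊓
    𝓟 {q | (a ^ q.1 * q.2.1)⁻¹ * q.2.2 ∈ Δ} with hF
  have hne : 𝓕.NeBot := by
    rw [hF, inf_principal_neBot_iff]
    intro S hS
    obtain ⟨B, hB, W, hW, hBW⟩ := mem_prod_iff.1 hS
    obtain ⟨U, hU, V, hV, hUV⟩ := mem_prod_iff.1 hW
    obtain ⟨n, ⟨u, hu, v, hv, huv⟩, hnB⟩ := ((h U hU V hV).and hB).exists
    exact ⟨(n, u, v), hBW ⟨hnB, hUV ⟨hu, hv⟩⟩, huv⟩
  let Φ : Ultrafilter (ℕ × G × G) := Ultrafilter.of 𝓕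
  have hΦ : (Φ : Filter (ℕ × G × G)) ≤ 𝓕 := Ultrafilter.of_le 𝓕
  have hΦp : Tendsto (fun q : ℕ × G × G => q.1) Φ p :=
    (tendsto_fst.mono_left inf_le_left).mono_left hΦ
  have hΦx : Tendsto (fun q : ℕ × G × G => q.2.1) Φ (𝓝 x) :=
    ((tendsto_fst.comp tendsto_snd).mono_left inf_le_left).mono_left hΦ
  have hΦy : Tendsto (fun q : ℕ × G × G => q.2.2) Φ (𝓝 y) :=
    ((tendsto_snd.comp tendsto_snd).mono_left inf_le_left).mono_left hΦ
  have hΦr : ∀ᶠ q in (Φ : Filter (ℕ × G × G)), (a ^ q.1 * q.2.1)⁻¹ * q.2.2 ∈ Δ :=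
    hΦ (mem_inf_of_right (mem_principal_self _))
  -- `u' = a ^ (-n) v`
  obtain ⟨ξ, -, hξ⟩ := isCompact_univ.ultrafilter_le_nhds
    (Φ.map fun q => (QuotientGroup.mk ((a ^ q.1)⁻¹ * q.2.2) : G ⧸ Δ')) (by simp)
  obtain ⟨s, rfl⟩ := QuotientGroup.mk_surjective ξ
  have hs : ∀ S ∈ 𝓝 s, ∀ᶠ q in (Φ : Filter (ℕ × G × G)),
      ∃ s' ∈ S, s'⁻¹ * ((a ^ q.1)⁻¹ * q.2.2) ∈ Δ' := by
    intro S hS
    have h1 : (QuotientGroup.mk '' S : Set (G ⧸ Δ')) ∈ 𝓝 (QuotientGroup.mk s) :=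
      QuotientGroup.isOpenMap_coe.image_mem_nhds hS
    have h2 : ∀ᶠ q in (Φ : Filter (ℕ × G × G)),
        (QuotientGroup.mk ((a ^ q.1)⁻¹ * q.2.2) : G ⧸ Δ') ∈ QuotientGroup.mk '' S := hξ h1
    filter_upwards [h2] with q hq
    obtain ⟨s', hs', hq'⟩ := hq
    exact ⟨s', hs', QuotientGroup.eq.1 hq'⟩
  have hes : x⁻¹ * s ∈ Δ := by
    by_contra hcon
    have hopen : IsOpen {q : G × G | q.1⁻¹ * q.2 ∈ (Δ : Set G)ᶜ} :=
      hΔ.isOpen_compl.preimage (by fun_prop)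
    have hmem : {q : G × G | q.1⁻¹ * q.2 ∈ (Δ : Set G)ᶜ} ∈ 𝓝 (x, s) := hopen.mem_nhds hcon
    rw [nhds_prod_eq] at hmem
    obtain ⟨X', hX', S, hS, hXS⟩ := mem_prod_iff.1 hmem
    have hx1 : ∀ᶠ q in (Φ : Filter (ℕ × G × G)), q.2.1 ∈ X' := hΦx hX'
    obtain ⟨q, ⟨hq1, ⟨s', hs', hq2⟩⟩, hq3⟩ := ((hx1.and (hs S hS)).and hΦr).exists
    have h3 : q.2.1⁻¹ * s' ∈ (Δ : Set G)ᶜ := hXS (mk_mem_prod hq1 hs')
    apply h3
    have h4 : q.2.1⁻¹ * s' = ((a ^ q.1 * q.2.1)⁻¹ * q.2.2) * (s'⁻¹ * ((a ^ q.1)⁻¹ * q.2.2))⁻¹ := by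
      group
    rw [SetLike.mem_coe, h4]
    exact mul_mem hq3 (inv_mem (hle hq2))
  refine ⟨x⁻¹ * s, hes, ?_⟩
  rw [mul_inv_cancel_left]
  intro S hS V hV
  have h5 : ∀ᶠ q in (Φ : Filter (ℕ × G × G)), ∃ u ∈ S, ∃ v ∈ V, (a ^ q.1 * u)⁻¹ * v ∈ Δ' := by
    filter_upwards [hs S hS, hΦy hV] with q hq hq2
    obtain ⟨s', hs', hq1⟩ := hq
    refine ⟨s', hs', q.2.2, hq2, ?_⟩
    have : (a ^ q.1 * s')⁻¹ * q.2.2 = s'⁻¹ * ((a ^ q.1)⁻¹ * q.2.2) := by group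
    rw [this]
    exact hq1
  have h6 : (Φ.map fun q => q.1 : Filter ℕ) = p := by
    have h7 : ((Φ.map fun q => q.1 : Ultrafilter ℕ) : Filter ℕ) ≤ p := hΦp
    exact congrArg _ (Ultrafilter.coe_le_coe.1 h7)
  rw [← h6]
  exact h5

/-- the group of right translations preserving `Q` -/
def R (p : Ultrafilter ℕ) (a : G) (Δ : Subgroup G) : Subgroup G where
  carrier := {k | (∀ x y, Q p a Δ x y → Q p a Δ x (y * k)) ∧
    (∀ x y, Q p a Δ x y → Q p a Δ x (y * k⁻¹))}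
  mul_mem' {k l} hk hl := by
    refine ⟨fun x y h => ?_, fun x y h => ?_⟩
    · rw [← mul_assoc]
      exact hl.1 _ _ (hk.1 _ _ h)
    · rw [mul_inv_rev, ← mul_assoc]
      exact hk.2 _ _ (hl.2 _ _ h)
  one_mem' := by
    refine ⟨fun x y h => ?_, fun x y h => ?_⟩
    · rwa [mul_one]
    · rwa [inv_one, mul_one]
  inv_mem' {k} hk := by
    refine ⟨hk.2, fun x y h => ?_⟩
    rw [inv_inv]
    exact hk.1 _ _ h

theorem isClosed_Q (Δ : Subgroup G) (x : G) : IsClosed {y | Q p a Δ x y} := by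
  rw [isClosed_iff_clusterPt]
  intro y hy U hU V hV
  obtain ⟨W, hWV, hW, hyW⟩ := mem_nhds_iff.1 hV
  rw [clusterPt_principal_iff] at hy
  obtain ⟨z, hz1, hz2⟩ := hy W (hW.mem_nhds hyW)
  filter_upwards [hz2 U hU W (hW.mem_nhds hz1)] with n hn
  obtain ⟨u, hu, v, hv, huv⟩ := hn
  exact ⟨u, hu, v, hWV hv, huv⟩

theorem isClosed_R (Δ : Subgroup G) : IsClosed (R p a Δ : Set G) := by
  have h : (R p a Δ : Set G) = (⋂ x, ⋂ y, ⋂ (_ : Q p a Δ x y), {k | Q p a Δ x (y * k)}) ∩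
      (⋂ x, ⋂ y, ⋂ (_ : Q p a Δ x y), {k | Q p a Δ x (y * k⁻¹)}) := by
    ext k
    simp only [mem_inter_iff, mem_iInter]
    rfl
  rw [h]
  refine IsClosed.inter ?_ ?_
  · refine isClosed_iInter fun x => isClosed_iInter fun y => isClosed_iInter fun _ => ?_
    exact (isClosed_Q Δ x).preimage (by fun_prop : Continuous fun k : G => y * k)
  · refine isClosed_iInter fun x => isClosed_iInter fun y => isClosed_iInter fun _ => ?_
    exact (isClosed_Q Δ x).preimage (by fun_prop : Continuous fun k : G => y * k⁻¹)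

theorem le_R (Δ : Subgroup G) : Δ ≤ R p a Δ := by
  have key : ∀ k ∈ Δ, ∀ x y, Q p a Δ x y → Q p a Δ x (y * k) := by
    intro k hk x y h U hU V hV
    have hV' : {v : G | v * k ∈ V} ∈ 𝓝 y := by
      have hc : Continuous fun u : G => u * k := by fun_prop
      exact hc.continuousAt.preimage_mem_nhds hV
    filter_upwards [h _ hU _ hV'] with n hn
    obtain ⟨u, hu, v, hv, huv⟩ := hn
    refine ⟨u, hu, v * k, hv, ?_⟩
    rw [← mul_assoc]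
    exact mul_mem huv hk
  exact fun k hk => ⟨key k hk, key k⁻¹ (inv_mem hk)⟩

theorem grp_aux {H : Type*} [Group H] (A B C U V : H) (hcen : ∀ g, C * g = g * C)
    (hbase : A * B = C * (B * A)) (n : ℕ) :
    (A ^ n * (B * U))⁻¹ * (B * V * C ^ n) = (A ^ n * U)⁻¹ * V := by
  have hck : ∀ (k : ℕ) (g : H), C ^ k * g = g * C ^ k := fun k g =>
    (Commute.pow_left (show Commute C g from hcen g) k : Commute _ _)
  have hpow : ∀ k : ℕ, A ^ k * B = C ^ k * (B * A ^ k) := by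
    intro k
    induction k with
    | zero => simp
    | succ k ih =>
      calc A ^ (k + 1) * B = A * (A ^ k * B) := by rw [pow_succ', mul_assoc]
        _ = A * (C ^ k * (B * A ^ k)) := by rw [ih]
        _ = (A * C ^ k) * (B * A ^ k) := by rw [mul_assoc]
        _ = (C ^ k * A) * (B * A ^ k) := by rw [hck]
        _ = C ^ k * ((A * B) * A ^ k) := by simp only [mul_assoc]
        _ = C ^ k * ((C * (B * A)) * A ^ k) := by rw [hbase]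
        _ = C ^ (k + 1) * (B * A ^ (k + 1)) := by
          rw [pow_succ C, pow_succ' A]; simp only [mul_assoc]
  rw [← hck n (B * V), ← mul_assoc (A ^ n), hpow n]
  group

/-- perturbing the initial point by `h ∈ L_m` multiplies the end point by `⁅a, h⁆ ^ n` -/
theorem pert_mem (Γ : Subgroup G) {m : ℕ} {h u v : G} (hh : h ∈ L G m) (n : ℕ)
    (huv : (a ^ n * u)⁻¹ * v ∈ D Γ (m + 2)) :
    (a ^ n * (h * u))⁻¹ * (h * v * ⁅a, h⁆ ^ n) ∈ D Γ (m + 2) := by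
  set c := ⁅a, h⁆ with hc
  have hcL : c ∈ L G (m + 1) := comm_mem' hh a
  let π : G →* G ⧸ L G (m + 2) := QuotientGroup.mk' (L G (m + 2))
  have hcen : ∀ g : G ⧸ L G (m + 2), π c * g = g * π c := by
    intro g
    obtain ⟨g, rfl⟩ := QuotientGroup.mk_surjective g
    have h1 : ⁅c, g⁆ ∈ L G (m + 2) := comm_mem hcL g
    have h2 : π ⁅c, g⁆ = 1 := (QuotientGroup.eq_one_iff _).2 h1
    rw [map_commutatorElement, commutatorElement_eq_one_iff_mul_comm] at h2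
    exact h2
  have hbase : π a * π h = π c * (π h * π a) := by
    rw [hc, commutatorElement_def]
    simp only [map_mul, map_inv]
    group
  have h3 := grp_aux (π a) (π h) (π c) (π u) (π v) hcen hbase n
  have h4 : π ((a ^ n * (h * u))⁻¹ * (h * v * c ^ n)) = π ((a ^ n * u)⁻¹ * v) := by
    simpa only [map_mul, map_inv, map_pow] using h3
  have h5 : ((a ^ n * u)⁻¹ * v)⁻¹ * ((a ^ n * (h * u))⁻¹ * (h * v * c ^ n)) ∈ L G (m + 2) :=
    QuotientGroup.eq.1 h4.symm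
  have h6 := mul_mem huv (L_le_D Γ (m + 2) h5)
  rwa [mul_inv_cancel_left] at h6

/-- `⁅a, h⁻¹⁆ ^ n` is `⁅a, h⁆ ^ (-n)` modulo `L_{m+2}` -/
theorem comm_inv_pow {m : ℕ} {h : G} (hh : h ∈ L G m) (n : ℕ) :
    ⁅a, h⁆ ^ n * ⁅a, h⁻¹⁆ ^ n ∈ L G (m + 2) := by
  let π : G →* G ⧸ L G (m + 2) := QuotientGroup.mk' (L G (m + 2))
  have hcL : ⁅a, h⁆ ∈ L G (m + 1) := comm_mem' hh a
  have hcen : ∀ g : G, π ⁅a, h⁆ * π g = π g * π ⁅a, h⁆ := by
    intro g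
    have h1 : ⁅⁅a, h⁆, g⁆ ∈ L G (m + 2) := comm_mem hcL g
    have h2 : π ⁅⁅a, h⁆, g⁆ = 1 := (QuotientGroup.eq_one_iff _).2 h1
    rw [map_commutatorElement, commutatorElement_eq_one_iff_mul_comm] at h2
    exact h2
  have h3 : π ⁅a, h⁆ * π ⁅a, h⁻¹⁆ = 1 := by
    have h4 : ⁅a, h⁻¹⁆ = h⁻¹ * ⁅a, h⁆⁻¹ * h := by
      simp only [commutatorElement_def]; group
    rw [h4, map_mul, map_mul, map_inv π ⁅a, h⁆]
    have h5 := hcen h
    have h6 := hcen h⁻¹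
    have h7 : π ⁅a, h⁆ * (π h⁻¹ * (π ⁅a, h⁆)⁻¹ * π h) =
        (π ⁅a, h⁆ * π h⁻¹) * (π ⁅a, h⁆)⁻¹ * π h := by group
    rw [h7, h6, mul_inv_cancel_right, ← map_mul, inv_mul_cancel, map_one]
  have h8 : π (⁅a, h⁆ ^ n * ⁅a, h⁻¹⁆ ^ n) = 1 := by
    rw [map_mul, map_pow, map_pow, ← (show Commute (π ⁅a, h⁆) (π ⁅a, h⁻¹⁆) from
      hcen _).mul_pow, h3, one_pow]
  exact (QuotientGroup.eq_one_iff _).1 h8

/-- `k` is a limit of the `⁅a, h⁆ ^ n` with `h ∈ L_m` close to `1`, along `p`, modulo `D_{m+2}` -/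
def PP (p : Ultrafilter ℕ) (a : G) (Γ : Subgroup G) (m : ℕ) (k : G) : Prop :=
  ∀ O ∈ 𝓝 (1 : G), ∀ W ∈ 𝓝 k, ∀ᶠ n in (p : Filter ℕ), ∃ h ∈ O, h ∈ L G m ∧
    ∃ w ∈ W, w⁻¹ * ⁅a, h⁆ ^ n ∈ D Γ (m + 2)

theorem PP.mul {Γ : Subgroup G} {m : ℕ} {k : G} (hk : PP p a Γ m k) {x y : G}
    (h : Q p a (D Γ (m + 2)) x y) : Q p a (D Γ (m + 2)) x (y * k) := by
  intro U hU V hV
  have hc1 : Continuous fun q : G × G => q.1 * q.2 := by fun_prop
  have hm1 : (fun q : G × G => q.1 * q.2) ⁻¹' U ∈ 𝓝 ((1 : G), x) :=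
    hc1.continuousAt.preimage_mem_nhds (by rwa [one_mul])
  rw [nhds_prod_eq] at hm1
  obtain ⟨O₁, hO₁, U', hU', hOU⟩ := mem_prod_iff.1 hm1
  have hc2 : Continuous fun q : G × G × G => q.1 * q.2.1 * q.2.2 := by fun_prop
  have hm2 : (fun q : G × G × G => q.1 * q.2.1 * q.2.2) ⁻¹' V ∈ 𝓝 ((1 : G), y, k) :=
    hc2.continuousAt.preimage_mem_nhds (by rwa [one_mul])
  rw [nhds_prod_eq, nhds_prod_eq] at hm2
  obtain ⟨O₂, hO₂, V₂, hV₂, hOV⟩ := mem_prod_iff.1 hm2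
  obtain ⟨V', hV', W, hW, hVW⟩ := mem_prod_iff.1 hV₂
  filter_upwards [h U' hU' V' hV', hk (O₁ ∩ O₂) (inter_mem hO₁ hO₂) W hW] with n hn1 hn2
  obtain ⟨u, hu, v, hv, huv⟩ := hn1
  obtain ⟨g, ⟨hg1, hg2⟩, hgL, w, hw, hwg⟩ := hn2
  refine ⟨g * u, hOU (mk_mem_prod hg1 hu), g * v * w, hOV (mk_mem_prod hg2
    (hVW (mk_mem_prod hv hw))), ?_⟩
  have h1 := pert_mem Γ hgL n huv
  have h2 : (a ^ n * (g * u))⁻¹ * (g * v * w) =
      ((a ^ n * (g * u))⁻¹ * (g * v * ⁅a, g⁆ ^ n)) * (w⁻¹ * ⁅a, g⁆ ^ n)⁻¹ := by group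
  rw [h2]
  exact mul_mem h1 (inv_mem hwg)

theorem PP.inv {Γ : Subgroup G} {m : ℕ} {k : G} (hk : PP p a Γ m k) : PP p a Γ m k⁻¹ := by
  intro O hO W hW
  have hO' : {h : G | h⁻¹ ∈ O} ∈ 𝓝 (1 : G) := by
    have hc : Continuous fun u : G => u⁻¹ := by fun_prop
    exact hc.continuousAt.preimage_mem_nhds (by rwa [inv_one])
  have hW' : {w : G | w⁻¹ ∈ W} ∈ 𝓝 k := by
    have hc : Continuous fun u : G => u⁻¹ := by fun_prop
    exact hc.continuousAt.preimage_mem_nhds hW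
  filter_upwards [hk _ hO' _ hW'] with n hn
  obtain ⟨h, hh, hhL, w, hw, hwh⟩ := hn
  refine ⟨h⁻¹, hh, inv_mem hhL, w⁻¹, hw, ?_⟩
  have hcL : ⁅a, h⁆ ^ n ∈ D Γ (m + 1) := L_le_D Γ (m + 1) (pow_mem (comm_mem' hhL a) n)
  have hwD : w ∈ D Γ (m + 1) := by
    have h1 : w = ⁅a, h⁆ ^ n * (w⁻¹ * ⁅a, h⁆ ^ n)⁻¹ := by group
    rw [h1]
    exact mul_mem hcL (inv_mem (D_antitone Γ (m + 1) hwh))
  have h2 : w⁻¹⁻¹ * ⁅a, h⁻¹⁆ ^ n = (w * (w⁻¹ * ⁅a, h⁆ ^ n) * w⁻¹)⁻¹ *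
      (⁅a, h⁆ ^ n * ⁅a, h⁻¹⁆ ^ n) := by group
  rw [h2]
  exact mul_mem (inv_mem (conj_D Γ (m + 1) hwD hwh)) (L_le_D Γ (m + 2) (comm_inv_pow hhL n))

theorem PP.mem_R {Γ : Subgroup G} {m : ℕ} {k : G} (hk : PP p a Γ m k) :
    k ∈ R p a (D Γ (m + 2)) :=
  ⟨fun _ _ h => hk.mul h, fun _ _ h => hk.inv.mul h⟩

end rel

section core

variable {G : Type*} [Group G] [TopologicalSpace G] [IsTopologicalGroup G]
variable {p : Ultrafilter ℕ} {a : G} {Γ : Subgroup G} {m : ℕ} {F : G → Circle}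

/-- a continuous circle valued homomorphism on `D_{m+1}`, trivial on `R` -/
structure Ch (p : Ultrafilter ℕ) (a : G) (Γ : Subgroup G) (m : ℕ) (F : G → Circle) : Prop where
  mul : ∀ x ∈ D Γ (m + 1), ∀ y ∈ D Γ (m + 1), F (x * y) = F x * F y
  cont : ContinuousOn F (D Γ (m + 1) : Set G)
  triv : ∀ x ∈ D Γ (m + 1), x ∈ R p a (D Γ (m + 2)) → F x = 1

theorem Ch.hm (hF : Ch p a Γ m F) : Hm (m + 1) F :=
  ⟨fun x hx y hy => hF.mul x (L_le_D Γ _ hx) y (L_le_D Γ _ hy),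
    fun x hx => hF.triv x (L_le_D Γ _ (L_succ_le _ hx)) (le_R _ (L_le_D Γ _ hx))⟩

theorem Ch.no_roots (hF : Ch p a Γ m F) [CompactSpace (G ⧸ D Γ (m + 2))]
    (hp : (p : Filter ℕ) ≤ atTop)
    (hroot : ∀ V ∈ 𝓝 (1 : G), ∀ᶠ n : ℕ in atTop, ∃ h ∈ V, h ∈ L G m ∧
      (F ⁅h, a⁆) ^ n = Circle.exp Real.pi) : False := by
  set 𝓕 : Filter (ℕ × G) := ((p : Filter ℕ) ×ˢ 𝓝 (1 : G)) ⊓
    𝓟 {q | q.2 ∈ L G m ∧ (F ⁅q.2, a⁆) ^ q.1 = Circle.exp Real.pi} with hFF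
  have hne : 𝓕.NeBot := by
    rw [hFF, inf_principal_neBot_iff]
    intro S hS
    obtain ⟨B, hB, V, hV, hBV⟩ := mem_prod_iff.1 hS
    have h1 : ∀ᶠ n in (p : Filter ℕ), ∃ h ∈ V, h ∈ L G m ∧ (F ⁅h, a⁆) ^ n = Circle.exp Real.pi :=
      hp (hroot V hV)
    obtain ⟨n, ⟨h, hh, hhL, hhF⟩, hnB⟩ := (h1.and hB).exists
    exact ⟨(n, h), hBV ⟨hnB, hh⟩, hhL, hhF⟩
  let Φ : Ultrafilter (ℕ × G) := Ultrafilter.of 𝓕
  have hΦ : (Φ : Filter (ℕ × G)) ≤ 𝓕 := Ultrafilter.of_le 𝓕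
  have hΦp : Tendsto (fun q : ℕ × G => q.1) Φ p :=
    (tendsto_fst.mono_left inf_le_left).mono_left hΦ
  have hΦ1 : Tendsto (fun q : ℕ × G => q.2) Φ (𝓝 1) :=
    (tendsto_snd.mono_left inf_le_left).mono_left hΦ
  have hΦr : ∀ᶠ q in (Φ : Filter (ℕ × G)), q.2 ∈ L G m ∧
      (F ⁅q.2, a⁆) ^ q.1 = Circle.exp Real.pi :=
    hΦ (mem_inf_of_right (mem_principal_self _))
  obtain ⟨ξ, -, hξ⟩ := isCompact_univ.ultrafilter_le_nhds
    (Φ.map fun q => (QuotientGroup.mk (⁅a, q.2⁆ ^ q.1) : G ⧸ D Γ (m + 2))) (by simp)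
  obtain ⟨k, rfl⟩ := QuotientGroup.mk_surjective ξ
  have hk : ∀ W ∈ 𝓝 k, ∀ᶠ q in (Φ : Filter (ℕ × G)),
      ∃ w ∈ W, w⁻¹ * ⁅a, q.2⁆ ^ q.1 ∈ D Γ (m + 2) := by
    intro W hW
    have h1 : (QuotientGroup.mk '' W : Set (G ⧸ D Γ (m + 2))) ∈ 𝓝 (QuotientGroup.mk k) :=
      QuotientGroup.isOpenMap_coe.image_mem_nhds hW
    have h2 : ∀ᶠ q in (Φ : Filter (ℕ × G)),
        (QuotientGroup.mk (⁅a, q.2⁆ ^ q.1) : G ⧸ D Γ (m + 2)) ∈ QuotientGroup.mk '' W := hξ h1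
    filter_upwards [h2] with q hq
    obtain ⟨w, hw, hq'⟩ := hq
    exact ⟨w, hw, QuotientGroup.eq.1 hq'⟩
  have hcD : ∀ q : ℕ × G, q.2 ∈ L G m → ⁅a, q.2⁆ ^ q.1 ∈ D Γ (m + 1) := fun q hq =>
    L_le_D Γ (m + 1) (pow_mem (comm_mem' hq a) q.1)
  have hwD : ∀ q : ℕ × G, q.2 ∈ L G m → ∀ w, w⁻¹ * ⁅a, q.2⁆ ^ q.1 ∈ D Γ (m + 2) →
      w ∈ D Γ (m + 1) := by
    intro q hq w hw
    have h1 : w = ⁅a, q.2⁆ ^ q.1 * (w⁻¹ * ⁅a, q.2⁆ ^ q.1)⁻¹ := by group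
    rw [h1]
    exact mul_mem (hcD q hq) (inv_mem (D_antitone Γ (m + 1) hw))
  have hkD : k ∈ D Γ (m + 1) := by
    by_contra hcon
    obtain ⟨q, ⟨w, hw, hwq⟩, hq2⟩ :=
      ((hk _ ((D_closed Γ (m + 1)).isOpen_compl.mem_nhds hcon)).and hΦr).exists
    exact hw (hwD q hq2.1 w hwq)
  have hkP : PP p a Γ m k := by
    intro O hO W hW
    have h1 : ∀ᶠ q in (Φ : Filter (ℕ × G)), q.2 ∈ O := hΦ1 hO
    have h5 : ∀ᶠ q in (Φ : Filter (ℕ × G)), ∃ h ∈ O, h ∈ L G m ∧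
        ∃ w ∈ W, w⁻¹ * ⁅a, h⁆ ^ q.1 ∈ D Γ (m + 2) := by
      filter_upwards [h1, hk W hW, hΦr] with q hq1 hq2 hq3
      exact ⟨q.2, hq1, hq3.1, hq2⟩
    have h6 : (Φ.map fun q => q.1 : Filter ℕ) = p := by
      have h7 : ((Φ.map fun q => q.1 : Ultrafilter ℕ) : Filter ℕ) ≤ p := hΦp
      exact congrArg _ (Ultrafilter.coe_le_coe.1 h7)
    rw [← h6]
    exact h5
  have hF1 : F k = 1 := hF.triv k hkD hkP.mem_R
  have hFk : F k = (Circle.exp Real.pi)⁻¹ := by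
    by_contra hcon
    have hO : ({(Circle.exp Real.pi)⁻¹} : Set Circle)ᶜ ∈ 𝓝 (F k) :=
      isOpen_compl_singleton.mem_nhds hcon
    have h1 : F ⁻¹' ({(Circle.exp Real.pi)⁻¹} : Set Circle)ᶜ ∈ 𝓝[(D Γ (m + 1) : Set G)] k :=
      hF.cont k hkD hO
    obtain ⟨W, hW, hWF⟩ := mem_nhdsWithin_iff_exists_mem_nhds_inter.1 h1
    obtain ⟨q, ⟨w, hw, hwq⟩, hqL, hqF⟩ := ((hk W hW).and hΦr).exists
    have hwD' := hwD q hqL w hwq
    have h2 : F w ≠ (Circle.exp Real.pi)⁻¹ := hWF ⟨hw, hwD'⟩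
    apply h2
    have h3 : F (⁅a, q.2⁆ ^ q.1) = F w := by
      have h4 := hF.mul w hwD' _ (D_antitone Γ (m + 1) hwq)
      rw [mul_inv_cancel_left, hF.triv _ (D_antitone Γ (m + 1) hwq) (le_R _ hwq), mul_one] at h4
      exact h4
    rw [← h3, hF.hm.pow (comm_mem' hqL a), ← commutatorElement_inv, hF.hm.inv (comm_mem hqL a),
      inv_pow, hqF]
  rw [hF1] at hFk
  have h9 : Circle.exp Real.pi = 1 := by
    rw [eq_comm, inv_eq_one] at hFk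
    exact hFk
  have h10 := congrArg (fun z : Circle => (z : ℂ)) h9
  simp at h10
  norm_num [Complex.ext_iff] at h10

theorem Ch.comm_cont (hF : Ch p a Γ m F) :
    ContinuousOn (fun q : G × G => F ⁅q.1, q.2⁆) ((L G m : Set G) ×ˢ univ) := by
  have h3 : ContinuousOn (fun q : G × G => ⁅q.1, q.2⁆) ((L G m : Set G) ×ˢ univ) := by
    simp only [commutatorElement_def]
    fun_prop
  exact hF.cont.comp h3 fun q hq => L_le_D Γ _ (comm_mem hq.1 q.2)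

/-- triviality along paths of `h ↦ F ⁅h, a⁆` -/
theorem Ch.path_triv (hF : Ch p a Γ m F) [CompactSpace (G ⧸ D Γ (m + 2))]
    (hp : (p : Filter ℕ) ≤ atTop) (γ : unitInterval → G) (hγ : Continuous γ) (hγ0 : γ 0 = 1)
    (hγL : ∀ t, γ t ∈ L G m) : ∀ t, F ⁅γ t, a⁆ = 1 := by
  by_contra hcon
  push Not at hcon
  obtain ⟨t₁, ht₁⟩ := hcon
  have hHm : Hm m (fun h : G => F ⁅h, a⁆) := hF.hm.comm_left a
  have hθ : ∀ δ : unitInterval → G, Continuous δ → (∀ t, δ t ∈ L G m) →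
      Continuous fun t => F ⁅δ t, a⁆ := by
    intro δ hδ hδL
    have h1 : ContinuousOn (fun t : unitInterval => (δ t, a)) univ := by fun_prop
    have h2 := hF.comm_cont.comp h1 fun t _ => ⟨hδL t, mem_univ _⟩
    exact continuousOn_univ.1 h2
  set T : Set unitInterval := {t | F ⁅γ t, a⁆ = 1} with hT
  have hTc : IsClosed T := isClosed_eq (hθ γ hγ hγL) continuous_const
  have hT0 : (0 : unitInterval) ∈ T := by
    change F ⁅γ 0, a⁆ = 1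
    rw [hγ0, commutatorElement_one_left, hF.hm.one]
  have hfr : (frontier T).Nonempty := by
    rw [nonempty_frontier_iff]
    exact ⟨⟨0, hT0⟩, fun h => ht₁ (by
      have : t₁ ∈ T := h ▸ mem_univ _
      exact this)⟩
  obtain ⟨s, hs⟩ := hfr
  have hsT : s ∈ T := hTc.frontier_subset hs
  have hsT' : s ∈ closure Tᶜ := by
    rw [frontier_eq_closure_inter_closure] at hs
    exact hs.2
  refine hF.no_roots hp fun V hV => ?_
  set δ : unitInterval → G := fun u => (γ s)⁻¹ * γ u with hδ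
  have hδc : Continuous δ := by fun_prop
  have hδL : ∀ u, δ u ∈ L G m := fun u => mul_mem (inv_mem (hγL s)) (hγL u)
  have hV' : δ ⁻¹' V ∈ 𝓝 s := hδc.continuousAt.preimage_mem_nhds (by
    rw [hδ]; simpa using hV)
  obtain ⟨ε, hε, hball⟩ := Metric.mem_nhds_iff.1 hV'
  obtain ⟨t, ht, hts⟩ := Metric.mem_closure_iff.1 hsT' ε hε
  have hval : ∀ u, F ⁅δ u, a⁆ = F ⁅γ u, a⁆ := by
    intro u
    have h1 := hHm.mul _ (inv_mem (hγL s)) _ (hγL u)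
    rw [hHm.inv (hγL s)] at h1
    have h2 : F ⁅γ s, a⁆ = 1 := hsT
    rw [h2, inv_one, one_mul] at h1
    exact h1
  have hroot := circle_path (fun u => F ⁅δ u, a⁆) (hθ δ hδc hδL) s t
    (by rw [hval]; exact hsT) (by rw [hval]; exact ht)
  filter_upwards [hroot] with n hn
  obtain ⟨u, hu1, hu2, hu3⟩ := hn
  refine ⟨δ u, ?_, hδL u, hu3⟩
  refine hball ?_
  rw [Metric.mem_ball]
  refine lt_of_le_of_lt ?_ hts
  rw [Subtype.dist_eq, Subtype.dist_eq, Real.dist_eq, Real.dist_eq]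
  have h3 : min (s : ℝ) t ≤ u := by
    rcases min_cases s t with ⟨h, -⟩ | ⟨h, -⟩
    · rw [h] at hu1; exact (min_le_left _ _).trans hu1
    · rw [h] at hu1; exact (min_le_right _ _).trans hu1
  have h4 : (u : ℝ) ≤ max (s : ℝ) t := by
    rcases max_cases s t with ⟨h, -⟩ | ⟨h, -⟩
    · rw [h] at hu2; exact le_trans hu2 (le_max_left _ _)
    · rw [h] at hu2; exact le_trans hu2 (le_max_right _ _)
  rcases le_total (s : ℝ) t with h | h
  · rw [min_eq_left h] at h3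
    rw [max_eq_right h] at h4
    rw [abs_of_nonneg (by linarith), abs_of_nonpos (by linarith)]
    linarith
  · rw [min_eq_right h] at h3
    rw [max_eq_left h] at h4
    rw [abs_of_nonpos (by linarith), abs_of_nonneg (by linarith)]
    linarith

/-- a continuous homomorphism to the circle which is trivial on `Γ` and at `a` is trivial -/
theorem hom_triv (hmin : ∀ V : Set G, IsOpen V → V.Nonempty → ∃ n : ℕ, ∃ v ∈ V, (a ^ n)⁻¹ * v ∈ D Γ 1)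
    {φ : G → Circle} (h : ∀ x y, φ (x * y) = φ x * φ y)
    (hc : Continuous φ) (hΓ : ∀ γ ∈ Γ, φ γ = 1) (ha : φ a = 1) (g : G) : φ g = 1 := by
  by_contra hcon
  have hopen : IsOpen {g | φ g ≠ 1} := isOpen_ne_fun hc continuous_const
  obtain ⟨n, v, hv, hnv⟩ := hmin _ hopen ⟨g, hcon⟩
  apply hv
  have h1 := triv_on_D1 Γ h hc hΓ _ hnv
  have h2 : φ (a ^ n * ((a ^ n)⁻¹ * v)) = φ v := by rw [mul_inv_cancel_left]
  rw [h, h1, mul_one] at h2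
  rw [← h2]
  have h3 := zpow_of_mul h a (n : ℤ) ha
  rwa [zpow_natCast] at h3

theorem Ch.trivial (hF : Ch p a Γ m F) [CompactSpace (G ⧸ D Γ (m + 2))]
    [CompactSpace (G ⧸ D Γ 1)] (hp : (p : Filter ℕ) ≤ atTop)
    (hG : ∀ g : G, ∃ n : G, ∃ k : ℤ, JoinedOne n ∧ g = n * a ^ k)
    (hmin : ∀ V : Set G, IsOpen V → V.Nonempty → ∃ n : ℕ, ∃ v ∈ V, (a ^ n)⁻¹ * v ∈ D Γ 1) :
    ∀ x ∈ D Γ (m + 1), F x = 1 := by
  have hθ : ∀ h ∈ L G m, F ⁅h, a⁆ = 1 := by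
    refine path_main hG m (fun h => F ⁅h, a⁆) (hF.hm.comm_left a) ?_ ?_
    · exact fun γ hγ hγ0 hγL => hF.path_triv hp γ hγ hγ0 hγL
    · intro _
      simp only [commutatorElement_self]
      exact hF.hm.one
  have hfam : Fam a m (fun h g => F ⁅h, g⁆) :=
    ⟨fun g => hF.hm.comm_left g, fun h hh g g' => hF.hm.comm_right hh g g', hF.comm_cont, hθ⟩
  have hSS : ∀ w ∈ SS Γ m, ∀ g, F ⁅w, g⁆ = 1 := by
    intro w hw
    obtain ⟨hwL, hwΓ⟩ := SS_subset Γ m w hw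
    refine hom_triv hmin (fun x y => hF.hm.comm_right hwL x y) ?_ ?_ (hθ w hwL)
    · have h1 : ContinuousOn (fun g : G => (w, g)) univ := by fun_prop
      exact continuousOn_univ.1 (hF.comm_cont.comp h1 fun t _ => ⟨hwL, mem_univ _⟩)
    · intro γ hγ
      refine hF.triv _ (L_le_D Γ _ (comm_mem hwL γ)) (le_R _ (Γ_le_D Γ _ ?_))
      rw [commutatorElement_def]
      exact mul_mem (mul_mem (mul_mem hwΓ hγ) (inv_mem hwΓ)) (inv_mem hγ)
  have hall := fam_main hG m _ hfam hSS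
  have hL : ∀ x ∈ L G (m + 1), F x = 1 := hF.hm.eq_one hall
  let H : Subgroup G :=
    { carrier := {x | x ∈ D Γ (m + 1) ∧ F x = 1}
      mul_mem' := by
        rintro x y ⟨hx, hx'⟩ ⟨hy, hy'⟩
        exact ⟨mul_mem hx hy, by rw [hF.mul x hx y hy, hx', hy', one_mul]⟩
      one_mem' := ⟨one_mem _, hF.hm.one⟩
      inv_mem' := by
        rintro x ⟨hx, hx'⟩
        refine ⟨inv_mem hx, ?_⟩
        have h := hF.mul x hx x⁻¹ (inv_mem hx)
        rw [mul_inv_cancel, hF.hm.one, hx', one_mul] at h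
        exact h.symm }
  have hHc : IsClosed (H : Set G) := by
    have : (H : Set G) = (D Γ (m + 1) : Set G) ∩ F ⁻¹' {1} := rfl
    rw [this]
    exact hF.cont.preimage_isClosed_of_isClosed (D_closed Γ _) isClosed_singleton
  have hle : D Γ (m + 1) ≤ H := by
    refine D_le Γ (m + 1) hHc (fun x hx => ⟨L_le_D Γ _ hx, hL x hx⟩) (fun x hx => ?_)
    exact ⟨Γ_le_D Γ _ hx, hF.triv x (Γ_le_D Γ _ hx) (le_R _ (Γ_le_D Γ _ hx))⟩
  exact fun x hx => (hle hx).2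

theorem D_le_R [CompactSpace (G ⧸ D Γ (m + 2))]
    [CompactSpace (G ⧸ D Γ 1)] (hp : (p : Filter ℕ) ≤ atTop)
    (hG : ∀ g : G, ∃ n : G, ∃ k : ℤ, JoinedOne n ∧ g = n * a ^ k)
    (hmin : ∀ V : Set G, IsOpen V → V.Nonempty → ∃ n : ℕ, ∃ v ∈ V, (a ^ n)⁻¹ * v ∈ D Γ 1) :
    D Γ (m + 1) ≤ R p a (D Γ (m + 2)) := by
  by_contra hcon
  obtain ⟨g, hgK, hgS⟩ := Set.not_subset.1 hcon
  let K : Subgroup G := D Γ (m + 1)
  let S' : Subgroup K := (R p a (D Γ (m + 2))).subgroupOf K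
  have hcomm : ∀ x ∈ K, ∀ y ∈ K, ⁅x, y⁆ ∈ R p a (D Γ (m + 2)) := fun x hx y hy =>
    le_R _ (comm_D Γ (m + 1) hx hy)
  have hnormal : S'.Normal := by
    refine ⟨fun k hk g => ?_⟩
    rw [Subgroup.mem_subgroupOf] at hk ⊢
    have h1 : ((g * k * g⁻¹ : K) : G) = ⁅(g : G), (k : G)⁆ * k := by
      rw [commutatorElement_def]
      push_cast
      group
    rw [h1]
    exact mul_mem (hcomm g g.2 k k.2) hk
  have hclosed : IsClosed (S' : Set K) := (isClosed_R _).preimage continuous_subtype_val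
  let instCG : CommGroup (K ⧸ S') :=
    { (inferInstance : Group (K ⧸ S')) with
      mul_comm := by
        intro x y
        obtain ⟨x, rfl⟩ := QuotientGroup.mk_surjective x
        obtain ⟨y, rfl⟩ := QuotientGroup.mk_surjective y
        refine QuotientGroup.eq.2 ?_
        rw [Subgroup.mem_subgroupOf]
        have h1 : (((x * y)⁻¹ * (y * x) : K) : G) = ⁅(y : G)⁻¹, (x : G)⁻¹⁆ := by
          rw [commutatorElement_def]
          push_cast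
          group
        rw [h1]
        exact hcomm _ (inv_mem y.2) _ (inv_mem x.2) }
  have hTG : IsTopologicalGroup (K ⧸ S') := inferInstance
  have hT3 : T3Space (K ⧸ S') := inferInstance
  have hmk : ∀ (x w : K), (w : G)⁻¹ * x ∈ D Γ (m + 2) →
      (QuotientGroup.mk x : K ⧸ S') = QuotientGroup.mk w := by
    intro x w hxw
    refine (QuotientGroup.eq.2 ?_).symm
    rw [Subgroup.mem_subgroupOf]
    push_cast
    exact le_R _ hxw
  have hcpt : CompactSpace (K ⧸ S') := by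
    refine ⟨isCompact_iff_ultrafilter_le_nhds.2 fun 𝒰 _ => ?_⟩
    have hsurj : Function.Surjective (QuotientGroup.mk : K → K ⧸ S') := QuotientGroup.mk_surjective
    have hne : (comap (QuotientGroup.mk : K → K ⧸ S') (𝒰 : Filter (K ⧸ S'))).NeBot :=
      𝒰.neBot.comap_of_surj hsurj
    let 𝒱 : Ultrafilter K := Ultrafilter.of (comap (QuotientGroup.mk : K → K ⧸ S') 𝒰)
    have h𝒱 : (𝒱 : Filter K) ≤ comap (QuotientGroup.mk : K → K ⧸ S') 𝒰 := Ultrafilter.of_le _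
    have h𝒱𝒰 : (𝒱.map (QuotientGroup.mk : K → K ⧸ S')) = 𝒰 :=
      Ultrafilter.coe_le_coe.1 (map_le_iff_le_comap.2 h𝒱)
    obtain ⟨ξ, -, hξ⟩ := isCompact_univ.ultrafilter_le_nhds
      (𝒱.map fun x : K => (QuotientGroup.mk (x : G) : G ⧸ D Γ (m + 2))) (by simp)
    obtain ⟨y, rfl⟩ := QuotientGroup.mk_surjective ξ
    have hy : ∀ W ∈ 𝓝 y, ∀ᶠ x : K in (𝒱 : Filter K), ∃ w ∈ W, w⁻¹ * (x : G) ∈ D Γ (m + 2) := by
      intro W hW
      have h1 : (QuotientGroup.mk '' W : Set (G ⧸ D Γ (m + 2))) ∈ 𝓝 (QuotientGroup.mk y) :=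
        QuotientGroup.isOpenMap_coe.image_mem_nhds hW
      have h2 : ∀ᶠ x : K in (𝒱 : Filter K),
          (QuotientGroup.mk (x : G) : G ⧸ D Γ (m + 2)) ∈ QuotientGroup.mk '' W := hξ h1
      filter_upwards [h2] with q hq
      obtain ⟨w, hw, hq'⟩ := hq
      exact ⟨w, hw, QuotientGroup.eq.1 hq'⟩
    have hwK : ∀ (x : K) (w : G), w⁻¹ * (x : G) ∈ D Γ (m + 2) → w ∈ K := by
      intro x w hw
      have h1 : w = x * (w⁻¹ * x)⁻¹ := by group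
      rw [h1]
      exact mul_mem x.2 (inv_mem (D_antitone Γ (m + 1) hw))
    have hyK : y ∈ K := by
      by_contra hcon
      obtain ⟨x, w, hw, hwx⟩ := (hy _ ((D_closed Γ (m + 1)).isOpen_compl.mem_nhds hcon)).exists
      exact hw (hwK x w hwx)
    refine ⟨QuotientGroup.mk ⟨y, hyK⟩, mem_univ _, ?_⟩
    intro O hO
    rw [← h𝒱𝒰]
    have h1 : (QuotientGroup.mk : K → K ⧸ S') ⁻¹' O ∈ 𝓝 (⟨y, hyK⟩ : K) :=
      QuotientGroup.continuous_mk.continuousAt.preimage_mem_nhds hO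
    rw [nhds_subtype_eq_comap, mem_comap] at h1
    obtain ⟨W, hW, hWO⟩ := h1
    change ∀ᶠ x : K in (𝒱 : Filter K), (QuotientGroup.mk x : K ⧸ S') ∈ O
    filter_upwards [hy W hW] with x hx
    obtain ⟨w, hw, hwx⟩ := hx
    have h2 : (QuotientGroup.mk (⟨w, hwK x w hwx⟩ : K) : K ⧸ S') ∈ O :=
      hWO (show ((⟨w, hwK x w hwx⟩ : K) : G) ∈ W from hw)
    rwa [hmk x ⟨w, hwK x w hwx⟩ hwx]
  obtain ⟨χ, hχ⟩ := Pool.LatH472.chars (QuotientGroup.mk (⟨g, hgK⟩ : K) : K ⧸ S') (by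
    intro h
    have h1 : (⟨g, hgK⟩ : K) ∈ S' := (QuotientGroup.eq_one_iff _).1 h
    exact hgS (Subgroup.mem_subgroupOf.1 h1))
  classical
  let F : G → Circle := fun x => if h : x ∈ K then χ (QuotientGroup.mk ⟨x, h⟩) else 1
  have hFK : ∀ (x : G) (h : x ∈ K), F x = χ (QuotientGroup.mk ⟨x, h⟩) := fun x h => dif_pos h
  have hF : Ch p a Γ m F := by
    refine ⟨fun x hx y hy => ?_, ?_, fun x hx hxR => ?_⟩
    · rw [hFK x hx, hFK y hy, hFK (x * y) (mul_mem hx hy), ← map_mul]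
      rfl
    · rw [continuousOn_iff_continuous_domRestrict]
      have h1 : (Set.domRestrict (D Γ (m + 1) : Set G) F) =
          fun x : K => χ (QuotientGroup.mk x) := by
        ext x
        exact congrArg _ (hFK x.1 x.2)
      rw [h1]
      exact χ.continuous.comp QuotientGroup.continuous_mk
    · rw [hFK x hx]
      have h1 : (QuotientGroup.mk (⟨x, hx⟩ : K) : K ⧸ S') = 1 :=
        (QuotientGroup.eq_one_iff _).2 (Subgroup.mem_subgroupOf.2 hxR)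
      rw [h1]
      exact map_one χ
  have h1 := hF.trivial hp hG hmin g hgK
  rw [hFK g hgK] at h1
  exact hχ h1

/-- **The induction step**: from `G / D_{m+1}` to `G / D_{m+2}` -/
theorem Q_step [CompactSpace (G ⧸ D Γ (m + 2))]
    [CompactSpace (G ⧸ D Γ 1)] (hp : (p : Filter ℕ) ≤ atTop)
    (hG : ∀ g : G, ∃ n : G, ∃ k : ℤ, JoinedOne n ∧ g = n * a ^ k)
    (hmin : ∀ V : Set G, IsOpen V → V.Nonempty → ∃ n : ℕ, ∃ v ∈ V, (a ^ n)⁻¹ * v ∈ D Γ 1)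
    {x y : G} (h : Q p a (D Γ (m + 1)) x y) : Q p a (D Γ (m + 2)) x y := by
  obtain ⟨e, he, h1⟩ := Q_lift (D_antitone Γ (m + 1)) (D_closed Γ (m + 1)) h
  have h2 := Q_translate (fun d hd => conj_D Γ (m + 1) he hd) h1
  have h3 := (D_le_R hp hG hmin he).1 _ _ h2
  rwa [inv_mul_cancel_right] at h3

/-- **The relation `Q` on `G / D_{m+1}` is the preimage of the one on `G / D_1`.** -/
theorem Q_all (hcpt : ∀ m, CompactSpace (G ⧸ D Γ m)) (hp : (p : Filter ℕ) ≤ atTop)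
    (hG : ∀ g : G, ∃ n : G, ∃ k : ℤ, JoinedOne n ∧ g = n * a ^ k)
    (hmin : ∀ V : Set G, IsOpen V → V.Nonempty → ∃ n : ℕ, ∃ v ∈ V, (a ^ n)⁻¹ * v ∈ D Γ 1)
    {x y : G} (h : Q p a (D Γ 1) x y) (m : ℕ) : Q p a (D Γ (m + 1)) x y := by
  have := hcpt 1
  induction m with
  | zero => exact h
  | succ m ih =>
    have := hcpt (m + 2)
    exact Q_step hp hG hmin ih

end core

end Q70.Nil
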