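import Mathlib

/-! # Products with zeros close to the integers

For a sequence `y` with `y i` between `max i 1` and `i + 2` the partial products
`∏_{i<n} (1 - u²/(y i)²)` converge, the limit has polynomial growth on the real axis and vanishes
only at the points `± y i`. -/

set_option autoImplicit false

open Filter Topology Finset

namespace Q70.Osc

/-- `y i` is within distance one of `i + 1` -/
def Near (y : ℕ → ℝ) : Prop := ∀ i, 1 ≤ y i ∧ (i : ℝ) ≤ y i ∧ y i ≤ i + 2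

/-- partial products -/
noncomputable def Q (y : ℕ → ℝ) (n : ℕ) (u : ℝ) : ℝ := ∏ i ∈ range n, (1 - u ^ 2 / y i ^ 2)

lemma Q_succ (y : ℕ → ℝ) (n : ℕ) (u : ℝ) : Q y (n + 1) u = Q y n u * (1 - u ^ 2 / y n ^ 2) := by
  unfold Q; rw [prod_range_succ]

lemma Q_zero (y : ℕ → ℝ) (u : ℝ) : Q y 0 u = 1 := by
  unfold Q; simp

lemma Q_neg (y : ℕ → ℝ) (n : ℕ) (u : ℝ) : Q y n (-u) = Q y n u := by
  unfold Q; simp

lemma Q_meas (y : ℕ → ℝ) (n : ℕ) : Measurable (Q y n) := by
  unfold Q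
  fun_prop

/-- the integers -/
noncomputable def yI (i : ℕ) : ℝ := i + 1

lemma near_yI : Near yI := fun i => by
  unfold yI
  have : (0 : ℝ) ≤ i := Nat.cast_nonneg i
  exact ⟨by linarith, by linarith, by linarith⟩

/-- the first `I` zeros from `y`, the others are integers -/
noncomputable def hyb (y : ℕ → ℝ) (I : ℕ) (i : ℕ) : ℝ := if i < I then y i else yI i

lemma near_hyb {y : ℕ → ℝ} (hy : Near y) (I : ℕ) : Near (hyb y I) := fun i => by
  unfold hyb
  split_ifs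
  · exact hy i
  · exact near_yI i

variable {y : ℕ → ℝ}

lemma fac_mem (hy : Near y) {u : ℝ} {i : ℕ} (h : |u| ≤ i) :
    0 ≤ 1 - u ^ 2 / y i ^ 2 ∧ 1 - u ^ 2 / y i ^ 2 ≤ 1 := by
  obtain ⟨h1, h2, _⟩ := hy i
  have h3 : u ^ 2 ≤ y i ^ 2 := by
    rw [← sq_abs u]
    exact pow_le_pow_left₀ (abs_nonneg _) (h.trans h2) 2
  have h4 : 0 < y i ^ 2 := by positivity
  constructor
  · rw [sub_nonneg, div_le_one h4]
    exact h3
  · have : 0 ≤ u ^ 2 / y i ^ 2 := by positivity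
    linarith

lemma abs_Q_anti (hy : Near y) {u : ℝ} {m : ℕ} (h : |u| ≤ m) {n n' : ℕ} (hn : m ≤ n)
    (hnn : n ≤ n') : |Q y n' u| ≤ |Q y n u| := by
  induction n', hnn using Nat.le_induction with
  | base => exact le_rfl
  | succ k hk ih =>
    rw [Q_succ, abs_mul]
    have h1 := fac_mem hy (u := u) (i := k) (h.trans (by exact_mod_cast hn.trans hk))
    rw [abs_of_nonneg h1.1]
    calc |Q y k u| * (1 - u ^ 2 / y k ^ 2) ≤ |Q y k u| * 1 :=
          mul_le_mul_of_nonneg_left h1.2 (abs_nonneg _)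
      _ ≤ _ := by rw [mul_one]; exact ih

/-- tail products -/
noncomputable def Tl (y : ℕ → ℝ) (m n : ℕ) (u : ℝ) : ℝ := ∏ i ∈ Ico m n, (1 - u ^ 2 / y i ^ 2)

lemma Q_split (y : ℕ → ℝ) {m n : ℕ} (h : m ≤ n) (u : ℝ) : Q y n u = Q y m u * Tl y m n u := by
  unfold Q Tl
  rw [prod_range_mul_prod_Ico _ h]

lemma Tl_mem (hy : Near y) {u : ℝ} {m : ℕ} (h : |u| ≤ m) (n : ℕ) :
    0 ≤ Tl y m n u ∧ Tl y m n u ≤ 1 := by
  unfold Tl
  constructor
  · refine prod_nonneg fun i hi => (fac_mem hy (h.trans ?_)).1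
    exact_mod_cast (mem_Ico.1 hi).1
  · refine prod_le_one (fun i hi => (fac_mem hy (h.trans ?_)).1) fun i hi =>
      (fac_mem hy (h.trans ?_)).2
    · exact_mod_cast (mem_Ico.1 hi).1
    · exact_mod_cast (mem_Ico.1 hi).1

lemma Tl_succ (y : ℕ → ℝ) {m n : ℕ} (h : m ≤ n) (u : ℝ) :
    Tl y m (n + 1) u = Tl y m n u * (1 - u ^ 2 / y n ^ 2) := by
  unfold Tl
  rw [prod_Ico_succ_top h]

/-- lower bound for tails -/
lemma Tl_lower (hy : Near y) {u : ℝ} {m : ℕ} (h : |u| ≤ m) (hm : 2 ≤ m) {n : ℕ} (hn : m ≤ n) :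
    1 - u ^ 2 * (1 / (m - 1) - 1 / (n - 1)) ≤ Tl y m n u := by
  induction n, hn using Nat.le_induction with
  | base => simp [Tl]
  | succ k hk ih =>
    rw [Tl_succ y hk]
    have hk2 : (2 : ℝ) ≤ k := by exact_mod_cast hm.trans hk
    obtain ⟨h1, h2, _⟩ := hy k
    have hT := Tl_mem hy h k
    have h3 : u ^ 2 / y k ^ 2 ≤ u ^ 2 * (1 / (k - 1) - 1 / ((k + 1 : ℕ) - 1)) := by
      rw [div_eq_mul_one_div]
      refine mul_le_mul_of_nonneg_left ?_ (sq_nonneg _)
      have h4 : 1 / y k ^ 2 ≤ 1 / (k : ℝ) ^ 2 :=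
        one_div_le_one_div_of_le (by positivity) (pow_le_pow_left₀ (by positivity) h2 2)
      refine h4.trans ?_
      push_cast
      rw [add_sub_cancel_right, div_sub_div _ _ (by linarith) (by linarith),
        div_le_div_iff₀ (by positivity) (by nlinarith)]
      nlinarith
    have h5 : 0 ≤ u ^ 2 / y k ^ 2 := by positivity
    have h6 : Tl y m k u * (1 - u ^ 2 / y k ^ 2) ≥ Tl y m k u - u ^ 2 / y k ^ 2 := by
      have : Tl y m k u * (u ^ 2 / y k ^ 2) ≤ 1 * (u ^ 2 / y k ^ 2) :=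
        mul_le_mul_of_nonneg_right hT.2 h5
      linarith
    have h7 : u ^ 2 * (1 / ((m : ℝ) - 1) - 1 / ((k + 1 : ℕ) - 1)) =
        u ^ 2 * (1 / ((m : ℝ) - 1) - 1 / (k - 1)) + u ^ 2 * (1 / ((k : ℝ) - 1) -
          1 / ((k + 1 : ℕ) - 1)) := by ring
    rw [h7]
    linarith

/-- convergence -/
lemma exists_lim (hy : Near y) (u : ℝ) : ∃ L, Tendsto (fun n => Q y n u) atTop (𝓝 L) := by
  obtain ⟨m, hm⟩ := exists_nat_ge |u|
  have h1 : ∃ t, Tendsto (fun n => Tl y m n u) atTop (𝓝 t) := by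
    have hanti : AntitoneOn (fun n => Tl y m n u) (Set.Ici m) := by
      intro a ha b hb hab
      have ha' : m ≤ a := ha
      induction b, hab using Nat.le_induction with
      | base => exact le_rfl
      | succ k hk ih =>
        have hmk : m ≤ k := ha'.trans hk
        refine le_trans ?_ (ih hmk)
        show Tl y m (k + 1) u ≤ Tl y m k u
        rw [Tl_succ y hmk]
        have h1 := fac_mem hy (u := u) (i := k) (hm.trans (by exact_mod_cast hmk))
        have h2 := (Tl_mem hy hm k).1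
        calc Tl y m k u * (1 - u ^ 2 / y k ^ 2) ≤ Tl y m k u * 1 :=
              mul_le_mul_of_nonneg_left h1.2 h2
          _ = _ := mul_one _
    have hA : Antitone (fun n => Tl y m (n + m) u) := by
      intro a b hab
      exact hanti (Set.mem_Ici.2 (Nat.le_add_left _ _)) (Set.mem_Ici.2 (Nat.le_add_left _ _))
        (by omega)
    have hb : BddBelow (Set.range fun n => Tl y m (n + m) u) :=
      ⟨0, by rintro _ ⟨n, rfl⟩; exact (Tl_mem hy hm _).1⟩
    refine ⟨_, (tendsto_add_atTop_iff_nat m).1 (tendsto_atTop_ciInf hA hb)⟩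
  obtain ⟨t, ht⟩ := h1
  refine ⟨Q y m u * t, ?_⟩
  refine (ht.const_mul (Q y m u)).congr' ?_
  filter_upwards [eventually_ge_atTop m] with n hn
  rw [Q_split y hn]

/-- the limit -/
noncomputable def F (y : ℕ → ℝ) (u : ℝ) : ℝ := limUnder atTop fun n => Q y n u

lemma tendsto_F (hy : Near y) (u : ℝ) : Tendsto (fun n => Q y n u) atTop (𝓝 (F y u)) :=
  tendsto_nhds_limUnder (exists_lim hy u)

lemma F_neg (hy : Near y) (u : ℝ) : F y (-u) = F y u := by
  refine tendsto_nhds_unique (tendsto_F hy (-u)) ?_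
  simp_rw [Q_neg]
  exact tendsto_F hy u

lemma F_meas (hy : Near y) : Measurable (F y) :=
  measurable_of_tendsto_metrizable (fun n => Q_meas y n) (tendsto_pi_nhds.2 fun u => tendsto_F hy u)

/-- zeros -/
lemma F_ne_zero (hy : Near y) {u : ℝ} (hu : ∀ i, |u| ≠ y i) : F y u ≠ 0 := by
  obtain ⟨m, hm⟩ := exists_nat_ge (|u| + 2 * u ^ 2 + 2)
  have hu2 : (0 : ℝ) ≤ u ^ 2 := sq_nonneg u
  have hmu : |u| ≤ m := by linarith
  have hm2 : 2 ≤ m := by
    have : (2 : ℝ) ≤ m := by linarith [abs_nonneg u]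
    exact_mod_cast this
  have hQ : Q y m u ≠ 0 := by
    unfold Q
    rw [prod_ne_zero_iff]
    intro i _ h0
    have h1 : 0 < y i := lt_of_lt_of_le one_pos (hy i).1
    have h2 : u ^ 2 = y i ^ 2 := by
      have h3 : u ^ 2 / y i ^ 2 = 1 := by linarith
      rwa [div_eq_one_iff_eq (by positivity)] at h3
    refine hu i ?_
    rw [← sq_abs u] at h2
    exact (pow_left_inj₀ (abs_nonneg u) h1.le two_ne_zero).1 h2
  have h1 : |Q y m u| / 2 ≤ |F y u| := by
    refine ge_of_tendsto (tendsto_F hy u).abs ?_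
    filter_upwards [eventually_ge_atTop m] with n hn
    rw [Q_split y hn, abs_mul]
    have h2 := Tl_lower hy hmu hm2 hn
    have hm1 : (1 : ℝ) ≤ (m : ℝ) - 1 := by
      have : (2 : ℝ) ≤ m := by exact_mod_cast hm2
      linarith
    have hn1 : (1 : ℝ) ≤ (n : ℝ) - 1 := by
      have : (m : ℝ) ≤ n := by exact_mod_cast hn
      linarith
    have h3 : u ^ 2 * (1 / ((m : ℝ) - 1) - 1 / (n - 1)) ≤ 1 / 2 := by
      have h4 : 0 ≤ 1 / ((n : ℝ) - 1) := by positivity
      have h5 : u ^ 2 * (1 / ((m : ℝ) - 1) - 1 / (n - 1)) ≤ u ^ 2 * (1 / ((m : ℝ) - 1)) :=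
        mul_le_mul_of_nonneg_left (by linarith) hu2
      refine h5.trans ?_
      rw [mul_one_div, div_le_iff₀ (by linarith)]
      linarith [abs_nonneg u]
    have h6 : (1 : ℝ) / 2 ≤ |Tl y m n u| := by
      rw [abs_of_nonneg (Tl_mem hy hmu n).1]
      linarith
    calc |Q y m u| / 2 = |Q y m u| * (1 / 2) := by ring
      _ ≤ _ := mul_le_mul_of_nonneg_left h6 (abs_nonneg _)
  intro h0
  rw [h0, abs_zero] at h1
  have := abs_pos.2 hQ
  linarith

end Q70.Osc
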