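import Pool.Agent.Q70.OscA

/-! # Polynomial bound for the products -/

set_option autoImplicit false

open Filter Topology Finset

namespace Q70.Osc

variable {y : ℕ → ℝ}

lemma tendsto_sin (u : ℝ) :
    Tendsto (fun n => Real.pi * u * Q yI n u) atTop (𝓝 (Real.sin (Real.pi * u))) := by
  have h := Real.tendsto_euler_sin_prod u
  exact h

lemma fac_le (hy : Near y) (u : ℝ) (i : ℕ) : |1 - u ^ 2 / y i ^ 2| ≤ 1 + u ^ 2 := by
  obtain ⟨h1, _, _⟩ := hy i
  have h2 : 0 ≤ u ^ 2 / y i ^ 2 := by positivity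
  have h3 : u ^ 2 / y i ^ 2 ≤ u ^ 2 := div_le_self (sq_nonneg _) (one_le_pow₀ h1)
  rw [abs_le]
  constructor <;> linarith [sq_nonneg u]

/-- the left part -/
lemma left (hy : Near y) {u : ℝ} (m : ℕ) (h : m = 0 ∨ (m : ℝ) + 2 ≤ u) :
    |Q y (m + 1) u| ≤ (1 + u ^ 2) * |Q yI m u| := by
  induction m with
  | zero =>
    rw [Q_succ, Q_zero, Q_zero, one_mul, abs_one, mul_one]
    exact fac_le hy u 0
  | succ m ih =>
    have h1 : ((m + 1 : ℕ) : ℝ) + 2 ≤ u := by
      rcases h with h | h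
      · omega
      · exact h
    push_cast at h1
    have ih' := ih (Or.inr (by linarith))
    rw [Q_succ, Q_succ yI, abs_mul, abs_mul, ← mul_assoc]
    refine mul_le_mul ih' ?_ (abs_nonneg _) (by positivity)
    obtain ⟨h2, h3, h4⟩ := hy (m + 1)
    push_cast at h3 h4
    have hm : (0 : ℝ) ≤ m := Nat.cast_nonneg m
    have e : yI m = m + 1 := rfl
    rw [e]
    have h5 : u ^ 2 / y (m + 1) ^ 2 ≤ u ^ 2 / ((m : ℝ) + 1) ^ 2 :=
      div_le_div_of_nonneg_left (sq_nonneg _) (by positivity)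
        (pow_le_pow_left₀ (by positivity) h3 2)
    have h6 : 1 ≤ u ^ 2 / y (m + 1) ^ 2 := by
      rw [le_div_iff₀ (by positivity), one_mul]
      exact pow_le_pow_left₀ (by linarith) (by linarith) 2
    rw [abs_of_nonpos (by linarith), abs_of_nonpos (by linarith)]
    linarith

/-- the right part -/
lemma right (hy : Near y) {u : ℝ} (hu : 0 ≤ u) {m : ℕ} (h : u ≤ m) {n : ℕ} (hn : m ≤ n) :
    |Q y n u| * |Q yI (m + 1) u| ≤ |Q y m u| * |Q yI (n + 1) u| := by
  induction n, hn using Nat.le_induction with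
  | base => exact le_rfl
  | succ k hk ih =>
    rw [Q_succ y k, Q_succ yI (k + 1), abs_mul, abs_mul]
    have hku : u ≤ k := h.trans (by exact_mod_cast hk)
    have h1 := fac_mem hy (u := u) (i := k) (by rwa [abs_of_nonneg hu])
    have e : yI (k + 1) = k + 2 := by unfold yI; push_cast; ring
    obtain ⟨h2, h3, h4⟩ := hy k
    have hk0 : (0 : ℝ) ≤ k := Nat.cast_nonneg k
    have h5 : u ^ 2 / ((k : ℝ) + 2) ^ 2 ≤ u ^ 2 / y k ^ 2 :=
      div_le_div_of_nonneg_left (sq_nonneg _) (by positivity)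
        (pow_le_pow_left₀ (by positivity) h4 2)
    rw [e, abs_of_nonneg h1.1, abs_of_nonneg (a := 1 - u ^ 2 / ((k : ℝ) + 2) ^ 2) (by linarith [h1.1])]
    calc |Q y k u| * (1 - u ^ 2 / y k ^ 2) * |Q yI (m + 1) u| =
        |Q y k u| * |Q yI (m + 1) u| * (1 - u ^ 2 / y k ^ 2) := by ring
      _ ≤ |Q y m u| * |Q yI (k + 1) u| * (1 - u ^ 2 / ((k : ℝ) + 2) ^ 2) :=
          mul_le_mul ih (by linarith) h1.1 (by positivity)
      _ = _ := by ring

lemma sin_near (u : ℝ) (j : ℕ) : |Real.sin (Real.pi * u)| ≤ Real.pi * |u - j| := by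
  have h1 : |Real.sin (Real.pi * u)| = |Real.sin (Real.pi * u - j * Real.pi)| := by
    rw [Real.sin_sub_nat_mul_pi, abs_mul, abs_pow, abs_neg, abs_one, one_pow, one_mul]
  rw [h1]
  have h2 : |Real.sin (Real.pi * u - j * Real.pi)| ≤ |Real.pi * u - j * Real.pi| :=
    Real.abs_sin_le_abs
  refine h2.trans (le_of_eq ?_)
  have e : Real.pi * u - j * Real.pi = Real.pi * (u - j) := by ring
  rw [e, abs_mul, abs_of_pos Real.pi_pos]

lemma fac_lower {u : ℝ} (hu : 0 ≤ u) {j : ℕ} (hj : (j : ℝ) + 1 ≤ u + 2) :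
    |u - (j + 1)| / (u + 2) ≤ |1 - u ^ 2 / yI j ^ 2| := by
  have e : yI j = j + 1 := rfl
  have hj0 : (0 : ℝ) < (j : ℝ) + 1 := by positivity
  rw [e]
  have h1 : 1 - u ^ 2 / ((j : ℝ) + 1) ^ 2 = -((u - (j + 1)) * ((u + (j + 1)) / ((j : ℝ) + 1) ^ 2)) := by
    field_simp
    ring
  rw [h1, abs_neg, abs_mul, div_eq_mul_one_div]
  refine mul_le_mul_of_nonneg_left ?_ (abs_nonneg _)
  rw [abs_of_nonneg (by positivity), div_le_div_iff₀ (by linarith) (by positivity)]
  nlinarith

lemma F_bound_pos (hy : Near y) {u : ℝ} (hu : 0 ≤ u) (hi : ∀ k : ℕ, u ≠ k) :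
    |F y u| ≤ (1 + u ^ 2) ^ 3 * (u + 2) ^ 4 := by
  have hpi := Real.pi_pos
  rcases lt_or_ge u 2 with h2 | h2
  · have h3 : |F y u| ≤ (1 + u ^ 2) ^ 2 := by
      refine le_of_tendsto (tendsto_F hy u).abs ?_
      filter_upwards [eventually_ge_atTop 2] with n hn
      refine (abs_Q_anti hy (m := 2) (by rw [abs_of_nonneg hu]; push_cast; linarith) le_rfl
        hn).trans ?_
      rw [Q_succ, Q_succ, Q_zero, one_mul, abs_mul]
      calc |1 - u ^ 2 / y 0 ^ 2| * |1 - u ^ 2 / y (0 + 1) ^ 2| ≤ (1 + u ^ 2) * (1 + u ^ 2) :=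
            mul_le_mul (fac_le hy u 0) (fac_le hy u 1) (abs_nonneg _) (by positivity)
        _ = _ := by ring
    refine h3.trans ?_
    have h4 : (1 : ℝ) ≤ 1 + u ^ 2 := by linarith [sq_nonneg u]
    have h5 : (1 + u ^ 2) ^ 2 ≤ (1 + u ^ 2) ^ 3 := pow_le_pow_right₀ h4 (by norm_num)
    have h6 : (1 : ℝ) ≤ (u + 2) ^ 4 := one_le_pow₀ (by linarith)
    calc (1 + u ^ 2) ^ 2 ≤ (1 + u ^ 2) ^ 3 * 1 := by rw [mul_one]; exact h5
      _ ≤ _ := mul_le_mul_of_nonneg_left h6 (by positivity)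
  · obtain ⟨p, hp⟩ : ∃ p, p = ⌊u⌋₊ := ⟨_, rfl⟩
    have hp1 : (p : ℝ) ≤ u := by rw [hp]; exact Nat.floor_le hu
    have hp2 : u < p + 1 := by rw [hp]; exact Nat.lt_floor_add_one u
    have hp3 : 2 ≤ p := by
      rw [hp]
      exact Nat.le_floor (by exact_mod_cast h2)
    have hpl : (p : ℝ) < u := lt_of_le_of_ne hp1 (Ne.symm (hi p))
    obtain ⟨q, rfl⟩ := Nat.exists_eq_add_of_le hp3
    have hq0 : (0 : ℝ) ≤ q := Nat.cast_nonneg q
    push_cast at hp1 hp2 hpl
    set t : ℝ := u - (2 + q) with ht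
    have ht0 : 0 < t := by rw [ht]; linarith
    have ht1 : t < 1 := by rw [ht]; linarith
    -- the factors at the four integers near `u`
    have f1 := fac_lower hu (j := q) (by linarith)
    have f2 := fac_lower hu (j := q + 1) (by push_cast; linarith)
    have f3 := fac_lower hu (j := q + 2) (by push_cast; linarith)
    have f4 := fac_lower hu (j := q + 3) (by push_cast; linarith)
    push_cast at f1 f2 f3 f4
    rw [abs_of_nonneg (by linarith : (0:ℝ) ≤ u - (q + 1))] at f1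
    rw [abs_of_nonneg (by linarith : (0:ℝ) ≤ u - (q + 1 + 1))] at f2
    rw [abs_of_nonpos (by linarith : u - ((q : ℝ) + 2 + 1) ≤ 0)] at f3
    rw [abs_of_nonpos (by linarith : u - ((q : ℝ) + 3 + 1) ≤ 0)] at f4
    have hu2 : 0 < u + 2 := by linarith
    have g1 : 1 / (u + 2) ≤ |1 - u ^ 2 / yI q ^ 2| := by
      refine le_trans ?_ f1
      gcongr
      linarith
    have g2 : t / (u + 2) ≤ |1 - u ^ 2 / yI (q + 1) ^ 2| := by
      refine le_trans ?_ f2
      gcongr
      linarith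
    have g3 : (1 - t) / (u + 2) ≤ |1 - u ^ 2 / yI (q + 2) ^ 2| := by
      refine le_trans ?_ f3
      gcongr
      linarith
    have g4 : 1 / (u + 2) ≤ |1 - u ^ 2 / yI (q + 3) ^ 2| := by
      refine le_trans ?_ f4
      gcongr
      linarith
    have ht1' : 0 < 1 - t := by linarith
    have hprod : t * (1 - t) / (u + 2) ^ 4 ≤ |1 - u ^ 2 / yI q ^ 2| * |1 - u ^ 2 / yI (q + 1) ^ 2| *
        |1 - u ^ 2 / yI (q + 2) ^ 2| * |1 - u ^ 2 / yI (q + 3) ^ 2| := by
      have e : t * (1 - t) / (u + 2) ^ 4 = 1 / (u + 2) * (t / (u + 2)) * ((1 - t) / (u + 2)) *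
          (1 / (u + 2)) := by
        field_simp
      rw [e]
      gcongr
    -- `Q yI q u ≠ 0`
    have hR : 0 < |Q yI q u| := by
      rw [abs_pos]
      unfold Q
      rw [prod_ne_zero_iff]
      intro i hi' h0
      have h1 : u ^ 2 / yI i ^ 2 = 1 := by linarith
      have hyi : yI i = i + 1 := rfl
      rw [div_eq_one_iff_eq (by rw [hyi]; positivity)] at h1
      have h3 : u = yI i := (pow_left_inj₀ hu (by rw [hyi]; positivity) two_ne_zero).1 h1
      refine hi (i + 1) ?_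
      rw [h3, hyi]
      push_cast
      ring
    have hmain : ∀ n, q + 3 ≤ n → |Q y n u| * (t * (1 - t) / (u + 2) ^ 4) * (Real.pi * u) ≤
        (1 + u ^ 2) ^ 3 * |Real.pi * u * Q yI (n + 1) u| := by
      intro n hn
      have r1 := right hy hu (m := q + 3) (by push_cast; linarith) hn
      have l1 := left hy (u := u) q (Or.inr (by linarith))
      have l2 : |Q y (q + 3) u| ≤ (1 + u ^ 2) ^ 3 * |Q yI q u| := by
        rw [Q_succ, Q_succ, abs_mul, abs_mul]
        calc |Q y (q + 1) u| * |1 - u ^ 2 / y (q + 1) ^ 2| * |1 - u ^ 2 / y (q + 2) ^ 2| ≤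
            ((1 + u ^ 2) * |Q yI q u|) * (1 + u ^ 2) * (1 + u ^ 2) := by
              refine mul_le_mul (mul_le_mul l1 (fac_le hy u _) (abs_nonneg _) (by positivity))
                (fac_le hy u _) (abs_nonneg _) (by positivity)
          _ = _ := by ring
      have e4 : |Q yI (q + 3 + 1) u| = |Q yI q u| * (|1 - u ^ 2 / yI q ^ 2| *
          |1 - u ^ 2 / yI (q + 1) ^ 2| * |1 - u ^ 2 / yI (q + 2) ^ 2| *
          |1 - u ^ 2 / yI (q + 3) ^ 2|) := by
        rw [Q_succ, Q_succ, Q_succ, Q_succ, abs_mul, abs_mul, abs_mul, abs_mul]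
        ring
      rw [e4] at r1
      have r2 : |Q y n u| * (|1 - u ^ 2 / yI q ^ 2| * |1 - u ^ 2 / yI (q + 1) ^ 2| *
          |1 - u ^ 2 / yI (q + 2) ^ 2| * |1 - u ^ 2 / yI (q + 3) ^ 2|) ≤
          (1 + u ^ 2) ^ 3 * |Q yI (n + 1) u| := by
        refine le_of_mul_le_mul_right ?_ hR
        calc _ = |Q y n u| * (|Q yI q u| * (|1 - u ^ 2 / yI q ^ 2| *
              |1 - u ^ 2 / yI (q + 1) ^ 2| * |1 - u ^ 2 / yI (q + 2) ^ 2| *
              |1 - u ^ 2 / yI (q + 3) ^ 2|)) := by ring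
          _ ≤ _ := r1
          _ ≤ ((1 + u ^ 2) ^ 3 * |Q yI q u|) * |Q yI (n + 1) u| :=
            mul_le_mul_of_nonneg_right l2 (abs_nonneg _)
          _ = _ := by ring
      have r3 := mul_le_mul_of_nonneg_left hprod (abs_nonneg (Q y n u))
      have r4 := r3.trans r2
      rw [abs_mul, abs_of_nonneg (by positivity : 0 ≤ Real.pi * u)]
      calc |Q y n u| * (t * (1 - t) / (u + 2) ^ 4) * (Real.pi * u) ≤
          ((1 + u ^ 2) ^ 3 * |Q yI (n + 1) u|) * (Real.pi * u) :=
            mul_le_mul_of_nonneg_right r4 (by positivity)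
        _ = _ := by ring
    have hlim : |F y u| * (t * (1 - t) / (u + 2) ^ 4) * (Real.pi * u) ≤
        (1 + u ^ 2) ^ 3 * |Real.sin (Real.pi * u)| := by
      have a1 : Tendsto (fun n => |Q y n u| * (t * (1 - t) / (u + 2) ^ 4) * (Real.pi * u)) atTop
          (𝓝 (|F y u| * (t * (1 - t) / (u + 2) ^ 4) * (Real.pi * u))) :=
        ((tendsto_F hy u).abs.mul_const _).mul_const _
      have a2 : Tendsto (fun n : ℕ => (1 + u ^ 2) ^ 3 * |Real.pi * u * Q yI (n + 1) u|) atTop
          (𝓝 ((1 + u ^ 2) ^ 3 * |Real.sin (Real.pi * u)|)) :=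
        (((tendsto_add_atTop_iff_nat 1).2 (tendsto_sin u)).abs).const_mul _
      refine le_of_tendsto_of_tendsto a1 a2 ?_
      filter_upwards [eventually_ge_atTop (q + 3)] with n hn using hmain n hn
    have hsin : |Real.sin (Real.pi * u)| ≤ 2 * Real.pi * (t * (1 - t)) := by
      rcases le_total t (1 / 2) with h | h
      · have s1 := sin_near u (q + 2)
        push_cast at s1
        have e : u - ((q : ℝ) + 2) = t := by rw [ht]; ring
        rw [e, abs_of_pos ht0] at s1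
        have : 0 ≤ Real.pi * t * (1 - 2 * t) := mul_nonneg (by positivity) (by linarith)
        nlinarith
      · have s1 := sin_near u (q + 3)
        push_cast at s1
        have e : u - ((q : ℝ) + 3) = -(1 - t) := by rw [ht]; ring
        rw [e, abs_neg, abs_of_pos ht1'] at s1
        have : 0 ≤ Real.pi * (1 - t) * (2 * t - 1) := mul_nonneg (by positivity) (by linarith)
        nlinarith
    have htt : 0 < t * (1 - t) := mul_pos ht0 ht1'
    have h5 : |F y u| * (t * (1 - t) / (u + 2) ^ 4) * (Real.pi * u) ≤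
        (1 + u ^ 2) ^ 3 * (2 * Real.pi * (t * (1 - t))) :=
      hlim.trans (mul_le_mul_of_nonneg_left hsin (by positivity))
    have h6 : |F y u| * u ≤ (1 + u ^ 2) ^ 3 * 2 * (u + 2) ^ 4 := by
      have e : |F y u| * (t * (1 - t) / (u + 2) ^ 4) * (Real.pi * u) =
          (|F y u| * u) * ((t * (1 - t) * Real.pi) / (u + 2) ^ 4) := by ring
      have e2 : (1 + u ^ 2) ^ 3 * (2 * Real.pi * (t * (1 - t))) =
          ((1 + u ^ 2) ^ 3 * 2 * (u + 2) ^ 4) * ((t * (1 - t) * Real.pi) / (u + 2) ^ 4) := by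
        field_simp
      rw [e, e2] at h5
      exact le_of_mul_le_mul_right h5 (by positivity)
    have h7 : |F y u| * 2 ≤ |F y u| * u := mul_le_mul_of_nonneg_left h2 (abs_nonneg _)
    nlinarith

lemma F_bound (hy : Near y) {u : ℝ} (hi : ∀ k : ℕ, |u| ≠ k) :
    |F y u| ≤ 25 * (1 + u ^ 2) ^ 5 := by
  have h1 : F y u = F y |u| := by
    rcases abs_cases u with ⟨h, _⟩ | ⟨h, _⟩
    · rw [h]
    · rw [h, F_neg hy]
  rw [h1]
  refine (F_bound_pos hy (abs_nonneg u) hi).trans ?_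
  rw [sq_abs]
  have h2 : (|u| + 2) ^ 2 ≤ 5 * (1 + u ^ 2) := by
    have := sq_abs u
    nlinarith [sq_nonneg (2 * |u| - 1), abs_nonneg u]
  have h3 : (|u| + 2) ^ 4 ≤ (5 * (1 + u ^ 2)) ^ 2 := by
    have : (|u| + 2) ^ 4 = ((|u| + 2) ^ 2) ^ 2 := by ring
    rw [this]
    exact pow_le_pow_left₀ (by positivity) h2 2
  calc (1 + u ^ 2) ^ 3 * (|u| + 2) ^ 4 ≤ (1 + u ^ 2) ^ 3 * (5 * (1 + u ^ 2)) ^ 2 :=
        mul_le_mul_of_nonneg_left h3 (by positivity)
    _ = _ := by ring

/-! ### hybrids -/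

lemma Q_hyb (y : ℕ → ℝ) (I : ℕ) (u : ℝ) : Q (hyb y I) I u = Q y I u := by
  unfold Q
  refine prod_congr rfl fun i hi => ?_
  unfold hyb
  rw [if_pos (mem_range.1 hi)]

lemma Tl_hyb (y : ℕ → ℝ) (I n : ℕ) (u : ℝ) : Tl (hyb y I) I n u = Tl yI I n u := by
  unfold Tl
  refine prod_congr rfl fun i hi => ?_
  unfold hyb
  rw [if_neg (not_lt.2 (mem_Ico.1 hi).1)]

/-- the value of the hybrid -/
lemma F_hyb (hy : Near y) (I : ℕ) (u : ℝ) :
    Q yI I u * F (hyb y I) u = Q y I u * Real.sinc (Real.pi * u) := by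
  have h1 := (tendsto_F (near_hyb hy I) u).const_mul (Q yI I u)
  refine tendsto_nhds_unique h1 ?_
  have h2 : Tendsto (fun n => Q yI n u) atTop (𝓝 (Real.sinc (Real.pi * u))) := by
    by_cases hu : u = 0
    · have e : ∀ n, Q yI n u = 1 := by
        intro n
        unfold Q
        rw [hu]
        simp
      simp_rw [e]
      rw [hu, mul_zero, Real.sinc_zero]
      exact tendsto_const_nhds
    · have hpu : Real.pi * u ≠ 0 := mul_ne_zero Real.pi_pos.ne' hu
      have h3 := (tendsto_sin u).div_const (Real.pi * u)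
      rw [Real.sinc_of_ne_zero hpu]
      exact h3.congr fun n => mul_div_cancel_left₀ _ hpu
  have h3 := h2.const_mul (Q y I u)
  refine h3.congr' ?_
  filter_upwards [eventually_ge_atTop I] with n hn
  rw [Q_split (hyb y I) hn, Q_hyb, Tl_hyb, Q_split yI hn]
  ring

/-- the hybrids converge -/
lemma F_hyb_lim (hy : Near y) (u : ℝ) :
    Tendsto (fun I => F (hyb y I) u) atTop (𝓝 (F y u)) := by
  -- `F (hyb y I) u = Q y I u * t_I` with `t_I → 1`
  obtain ⟨m, hm⟩ := exists_nat_ge (|u| + 2)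
  have hI : ∀ I, m ≤ I → ∃ t, F (hyb y I) u = Q y I u * t ∧ 1 - u ^ 2 * (1 / (I - 1)) ≤ t ∧
      t ≤ 1 := by
    intro I hI
    have hIr : (m : ℝ) ≤ I := by exact_mod_cast hI
    have hIu : |u| ≤ I := by linarith
    have hI2 : 2 ≤ I := by
      have : (2 : ℝ) ≤ I := by linarith [abs_nonneg u]
      exact_mod_cast this
    have hI1 : (1 : ℝ) ≤ (I : ℝ) - 1 := by
      have : (2 : ℝ) ≤ I := by exact_mod_cast hI2
      linarith
    have hlt : ∀ i, I ≤ i → yI i = hyb y I i := fun i hi => by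
      unfold hyb; rw [if_neg (not_lt.2 hi)]
    -- limit of the tails
    have hT : ∃ t, Tendsto (fun n => Tl yI I n u) atTop (𝓝 t) := by
      have hanti : AntitoneOn (fun n => Tl yI I n u) (Set.Ici I) := by
        intro a ha b hb hab
        have ha' : I ≤ a := ha
        induction b, hab using Nat.le_induction with
        | base => exact le_rfl
        | succ k hk ih =>
          have hmk : I ≤ k := ha'.trans hk
          refine le_trans ?_ (ih hmk)
          show Tl yI I (k + 1) u ≤ Tl yI I k u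
          rw [Tl_succ yI hmk]
          have h1 := fac_mem near_yI (u := u) (i := k) (hIu.trans (by exact_mod_cast hmk))
          have h2 := (Tl_mem near_yI hIu k).1
          calc Tl yI I k u * (1 - u ^ 2 / yI k ^ 2) ≤ Tl yI I k u * 1 :=
                mul_le_mul_of_nonneg_left h1.2 h2
            _ = _ := mul_one _
      have hA : Antitone (fun n => Tl yI I (n + I) u) := by
        intro a b hab
        exact hanti (Set.mem_Ici.2 (Nat.le_add_left _ _)) (Set.mem_Ici.2 (Nat.le_add_left _ _))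
          (by omega)
      have hb : BddBelow (Set.range fun n => Tl yI I (n + I) u) :=
        ⟨0, by rintro _ ⟨n, rfl⟩; exact (Tl_mem near_yI hIu _).1⟩
      exact ⟨_, (tendsto_add_atTop_iff_nat I).1 (tendsto_atTop_ciInf hA hb)⟩
    obtain ⟨t, ht⟩ := hT
    refine ⟨t, ?_, ?_, ?_⟩
    · refine tendsto_nhds_unique (tendsto_F (near_hyb hy I) u) ?_
      refine (ht.const_mul (Q y I u)).congr' ?_
      filter_upwards [eventually_ge_atTop I] with n hn
      rw [Q_split (hyb y I) hn, Q_hyb, Tl_hyb]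
    · refine ge_of_tendsto ht ?_
      filter_upwards [eventually_ge_atTop I] with n hn
      refine le_trans ?_ (Tl_lower near_yI hIu hI2 hn)
      have hn1 : (0 : ℝ) ≤ (n : ℝ) - 1 := by
        have : (I : ℝ) ≤ n := by exact_mod_cast hn
        linarith
      have h4 : 0 ≤ 1 / ((n : ℝ) - 1) := by positivity
      have h5 : u ^ 2 * (1 / ((I : ℝ) - 1) - 1 / (n - 1)) ≤ u ^ 2 * (1 / ((I : ℝ) - 1)) :=
        mul_le_mul_of_nonneg_left (by linarith) (sq_nonneg _)
      linarith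
    · refine le_of_tendsto ht (Eventually.of_forall fun n => (Tl_mem near_yI hIu n).2)
  choose! t ht1 ht2 ht3 using hI
  have hlim : Tendsto t atTop (𝓝 1) := by
    have h1 : Tendsto (fun I : ℕ => 1 - u ^ 2 * (1 / ((I : ℝ) - 1))) atTop (𝓝 (1 - u ^ 2 * 0)) := by
      refine Tendsto.const_sub _ (Tendsto.const_mul _ ?_)
      simp only [one_div]
      refine tendsto_inv_atTop_zero.comp ?_
      exact tendsto_atTop_add_const_right _ _ tendsto_natCast_atTop_atTop
    rw [mul_zero, sub_zero] at h1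
    refine tendsto_of_tendsto_of_tendsto_of_le_of_le' h1 tendsto_const_nhds ?_ ?_
    · filter_upwards [eventually_ge_atTop m] with I hI using ht2 I hI
    · filter_upwards [eventually_ge_atTop m] with I hI using ht3 I hI
  have h2 := (tendsto_F hy u).mul hlim
  rw [mul_one] at h2
  refine h2.congr' ?_
  filter_upwards [eventually_ge_atTop m] with I hI
  rw [ht1 I hI]

end Q70.Osc
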