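import Pool.Agent.Q70.OscB

/-! # Products with a prescribed sign pattern

Let `ν` be a nondecreasing integer valued function with `ν (u + 1) ≤ ν u + 1` and `ν 1 = ν 0`.  There
is a sequence `y` close to the integers whose products have the sign `(-1)^(ν u - ν 0)`: the jumps
of `ν` are simple zeros and all other zeros are double. -/

set_option autoImplicit false

open Filter Topology Finset

namespace Q70.Osc

section

variable (ν : ℝ → ℕ)

/-- the point where `ν` leaves the value `ν i`, at most `i + 1` -/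
noncomputable def pt (i : ℕ) : ℝ := sSup {x : ℝ | (i : ℝ) ≤ x ∧ x ≤ i + 1 ∧ ν x = ν i}

lemma pt_bdd (i : ℕ) : BddAbove {x : ℝ | (i : ℝ) ≤ x ∧ x ≤ i + 1 ∧ ν x = ν i} :=
  ⟨i + 1, fun x hx => hx.2.1⟩

lemma pt_ge (i : ℕ) : (i : ℝ) ≤ pt ν i :=
  le_csSup (pt_bdd ν i) ⟨le_rfl, by linarith, rfl⟩

lemma pt_le (i : ℕ) : pt ν i ≤ i + 1 :=
  csSup_le ⟨i, le_rfl, by linarith, rfl⟩ fun x hx => hx.2.1

lemma pt_eq {i : ℕ} (h : ν (i + 1) = ν i) : pt ν i = i + 1 :=
  le_antisymm (pt_le ν i) (le_csSup (pt_bdd ν i) ⟨by linarith, le_rfl, h⟩)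

variable {ν}

lemma before (hm : Monotone ν) {i : ℕ} {u : ℝ} (h1 : (i : ℝ) ≤ u) (h2 : u < pt ν i) :
    ν u = ν i := by
  obtain ⟨x, hx, hux⟩ := exists_lt_of_lt_csSup ⟨(i : ℝ), by
    exact ⟨le_rfl, by linarith, rfl⟩⟩ h2
  exact le_antisymm ((hm hux.le).trans hx.2.2.le) (hm h1)

lemma after {i : ℕ} {u : ℝ} (h1 : u ≤ i + 1) (h2 : pt ν i < u) : ν u ≠ ν i := by
  intro h
  have : u ≤ pt ν i := le_csSup (pt_bdd ν i) ⟨(pt_ge ν i).trans h2.le, h1, h⟩
  linarith

/-- the product of the factors of the jumps -/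
noncomputable def A (ν : ℝ → ℕ) (n : ℕ) (u : ℝ) : ℝ :=
  ∏ i ∈ range n, if ν (i + 1) = ν i then 1 else 1 - u ^ 2 / pt ν i ^ 2

lemma A_succ (n : ℕ) (u : ℝ) : A ν (n + 1) u =
    A ν n u * if ν (n + 1) = ν n then 1 else 1 - u ^ 2 / pt ν n ^ 2 := by
  unfold A; rw [prod_range_succ]

/-- the carry -/
def cy (ν : ℝ → ℕ) (i : ℕ) : ℕ := (i + ν i + ν 0) % 2

/-- the zeros -/
noncomputable def zz (ν : ℝ → ℕ) (i : ℕ) : ℝ := pt ν (i + cy ν (i + 1))

lemma pt_one_le (h0 : ν 1 = ν 0) (i : ℕ) : 1 ≤ pt ν i := by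
  rcases Nat.eq_zero_or_pos i with rfl | h
  · have := pt_eq ν (i := 0) (by push_cast; rw [zero_add]; exact h0)
    rw [this]
    simp
  · refine le_trans ?_ (pt_ge ν i)
    exact_mod_cast h

lemma cy_lt (i : ℕ) : cy ν i < 2 := Nat.mod_lt _ (by norm_num)

lemma near_zz (h0 : ν 1 = ν 0) : Near (zz ν) := by
  intro i
  refine ⟨pt_one_le h0 _, ?_, ?_⟩
  · refine le_trans ?_ (pt_ge ν _)
    push_cast
    have : (0 : ℝ) ≤ cy ν (i + 1) := Nat.cast_nonneg _
    linarith
  · refine (pt_le ν _).trans ?_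
    have h := cy_lt (ν := ν) (i + 1)
    have h2 : ((cy ν (i + 1) : ℕ) : ℝ) ≤ 1 := by
      have : cy ν (i + 1) ≤ 1 := by omega
      exact_mod_cast this
    push_cast
    linarith

lemma struct (hm : Monotone ν) (hs : ∀ u, ν (u + 1) ≤ ν u + 1) (u : ℝ) (n : ℕ) :
    ∃ w, 0 ≤ w ∧ Q (zz ν) n u = A ν n u * w * (1 - u ^ 2 / pt ν n ^ 2) ^ cy ν n := by
  induction n with
  | zero =>
    refine ⟨1, zero_le_one, ?_⟩
    have : cy ν 0 = 0 := by
      unfold cy
      simp
      omega
    rw [this, Q_zero]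
    simp [A]
  | succ n ih =>
    obtain ⟨w, hw, e⟩ := ih
    rw [Q_succ, e, A_succ]
    have hle := hs n
    have hge : ν n ≤ ν (n + 1) := hm (by linarith)
    have hz : zz ν n = pt ν (n + cy ν (n + 1)) := rfl
    have hc1 : cy ν (n + 1) = (n + 1 + ν (n + 1) + ν 0) % 2 := by
      unfold cy; push_cast; rfl
    have hc0 : cy ν n = (n + ν n + ν 0) % 2 := rfl
    by_cases hj : ν (n + 1) = ν n
    · rw [if_pos hj]
      rcases Nat.mod_two_eq_zero_or_one (n + ν n + ν 0) with h | h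
      · have c0 : cy ν n = 0 := by rw [hc0]; exact h
        have c1 : cy ν (n + 1) = 1 := by rw [hc1, hj]; omega
        refine ⟨w, hw, ?_⟩
        rw [hz, c0, c1]
        simp
      · have c0 : cy ν n = 1 := by rw [hc0]; exact h
        have c1 : cy ν (n + 1) = 0 := by rw [hc1, hj]; omega
        refine ⟨w * (1 - u ^ 2 / pt ν n ^ 2) ^ 2, by positivity, ?_⟩
        rw [hz, c0, c1]
        simp only [add_zero, pow_one, pow_zero, mul_one]
        ring
    · have hj1 : ν (n + 1) = ν n + 1 := by omega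
      rw [if_neg hj]
      rcases Nat.mod_two_eq_zero_or_one (n + ν n + ν 0) with h | h
      · have c0 : cy ν n = 0 := by rw [hc0]; exact h
        have c1 : cy ν (n + 1) = 0 := by rw [hc1, hj1]; omega
        refine ⟨w, hw, ?_⟩
        rw [hz, c0, c1]
        simp only [add_zero, pow_zero, mul_one]
        ring
      · have c0 : cy ν n = 1 := by rw [hc0]; exact h
        have c1 : cy ν (n + 1) = 1 := by rw [hc1, hj1]; omega
        refine ⟨w, hw, ?_⟩
        rw [hz, c0, c1]
        simp only [pow_one]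
        ring

/-- signs before the point `u` -/
lemma A_before (h0 : ν 1 = ν 0) (hm : Monotone ν) (hs : ∀ u, ν (u + 1) ≤ ν u + 1) {u : ℝ} (n : ℕ)
    (h : (n : ℝ) ≤ u) : 0 ≤ (-1 : ℝ) ^ (ν n + ν 0) * A ν n u := by
  induction n with
  | zero =>
    unfold A
    simp only [range_zero, prod_empty, mul_one, Nat.cast_zero, ← two_mul]
    rw [pow_mul]
    simp
  | succ n ih =>
    push_cast at h
    have ih' := ih (by linarith)
    have hle := hs n
    have hge : ν n ≤ ν (n + 1) := hm (by linarith)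
    rw [A_succ]
    by_cases hj : ν (n + 1) = ν n
    · rw [if_pos hj, mul_one]
      have : ν ((n + 1 : ℕ) : ℝ) = ν n := by push_cast; exact hj
      rw [this]
      exact ih'
    · rw [if_neg hj]
      have : ν ((n + 1 : ℕ) : ℝ) = ν n + 1 := by push_cast; omega
      rw [this]
      have h1 : 1 - u ^ 2 / pt ν n ^ 2 ≤ 0 := by
        have hp := pt_one_le h0 n
        have hp2 := pt_le ν n
        rw [sub_nonpos, one_le_div (by positivity)]
        exact pow_le_pow_left₀ (by linarith) (by linarith) 2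
      have h2 : (-1 : ℝ) ^ (ν n + 1 + ν 0) = -(-1 : ℝ) ^ (ν n + ν 0) := by
        rw [show ν n + 1 + ν 0 = (ν n + ν 0) + 1 by ring, pow_succ]
        ring
      rw [h2]
      have h3 : -(-1 : ℝ) ^ (ν n + ν 0) * (A ν n u * (1 - u ^ 2 / pt ν n ^ 2)) =
          ((-1 : ℝ) ^ (ν n + ν 0) * A ν n u) * -(1 - u ^ 2 / pt ν n ^ 2) := by ring
      rw [h3]
      exact mul_nonneg ih' (by linarith)

lemma A_sign (h0 : ν 1 = ν 0) (hm : Monotone ν) (hs : ∀ u, ν (u + 1) ≤ ν u + 1) {u : ℝ}
    (hu : 0 ≤ u) (n : ℕ) (h : u ≤ n) : 0 ≤ (-1 : ℝ) ^ (ν u + ν 0) * A ν n u := by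
  induction n with
  | zero =>
    have : u = 0 := le_antisymm (by simpa using h) hu
    rw [this]
    have := A_before h0 hm hs (u := 0) 0 (by simp)
    simpa using this
  | succ n ih =>
    rw [A_succ]
    rcases le_or_gt u n with h1 | h1
    · have h2 := ih h1
      have h3 : (0 : ℝ) ≤ if ν (n + 1) = ν n then 1 else 1 - u ^ 2 / pt ν n ^ 2 := by
        split_ifs
        · exact zero_le_one
        · have hp := pt_one_le h0 n
          have hp2 := pt_ge ν n
          rw [sub_nonneg, div_le_one (by positivity)]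
          exact pow_le_pow_left₀ hu (by linarith) 2
      rw [← mul_assoc]
      exact mul_nonneg h2 h3
    · push_cast at h
      have h2 := A_before h0 hm hs (u := u) n h1.le
      have hle := hs n
      have hge : ν n ≤ ν (n + 1) := hm (by linarith)
      have hp := pt_one_le h0 n
      by_cases hj : ν (n + 1) = ν n
      · rw [if_pos hj, mul_one]
        have h3 : ν u = ν n := le_antisymm ((hm h).trans hj.le) (hm h1.le)
        rw [h3]
        exact h2
      · rw [if_neg hj]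
        rcases lt_trichotomy u (pt ν n) with h3 | h3 | h3
        · rw [before hm h1.le h3, ← mul_assoc]
          refine mul_nonneg h2 ?_
          rw [sub_nonneg, div_le_one (by positivity)]
          exact pow_le_pow_left₀ hu h3.le 2
        · rw [h3, div_self (by positivity)]
          simp
        · have h4 := after h h3
          have h5 : ν u = ν n + 1 := by
            have h6 := hm h1.le
            have h7 := hm h
            omega
          have h6 : 1 - u ^ 2 / pt ν n ^ 2 ≤ 0 := by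
            rw [sub_nonpos, one_le_div (by positivity)]
            exact pow_le_pow_left₀ (by linarith) h3.le 2
          rw [h5]
          have h7 : (-1 : ℝ) ^ (ν n + 1 + ν 0) = -(-1 : ℝ) ^ (ν n + ν 0) := by
            rw [show ν n + 1 + ν 0 = (ν n + ν 0) + 1 by ring, pow_succ]
            ring
          rw [h7]
          have h8 : -(-1 : ℝ) ^ (ν n + ν 0) * (A ν n u * (1 - u ^ 2 / pt ν n ^ 2)) =
              ((-1 : ℝ) ^ (ν n + ν 0) * A ν n u) * -(1 - u ^ 2 / pt ν n ^ 2) := by ring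
          rw [h8]
          exact mul_nonneg h2 (by linarith)

/-- the sign of the partial products -/
lemma Q_sign (h0 : ν 1 = ν 0) (hm : Monotone ν) (hs : ∀ u, ν (u + 1) ≤ ν u + 1) {u : ℝ}
    (hu : 0 ≤ u) {n : ℕ} (h : u ≤ n) : 0 ≤ (-1 : ℝ) ^ (ν u + ν 0) * Q (zz ν) n u := by
  obtain ⟨w, hw, e⟩ := struct hm hs u n
  have h1 := A_sign h0 hm hs hu n h
  have hp := pt_one_le h0 n
  have hp2 := pt_ge ν n
  have h2 : 0 ≤ (1 - u ^ 2 / pt ν n ^ 2) ^ cy ν n := by
    refine pow_nonneg ?_ _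
    rw [sub_nonneg, div_le_one (by positivity)]
    exact pow_le_pow_left₀ hu (by linarith) 2
  rw [e]
  have e2 : (-1 : ℝ) ^ (ν u + ν 0) * (A ν n u * w * (1 - u ^ 2 / pt ν n ^ 2) ^ cy ν n) =
      (-1 : ℝ) ^ (ν u + ν 0) * A ν n u * w * (1 - u ^ 2 / pt ν n ^ 2) ^ cy ν n := by ring
  rw [e2]
  exact mul_nonneg (mul_nonneg h1 hw) h2

/-- the sign of the limit -/
lemma F_sign (h0 : ν 1 = ν 0) (hm : Monotone ν) (hs : ∀ u, ν (u + 1) ≤ ν u + 1) {u : ℝ}
    (hu : 0 ≤ u) : 0 ≤ (-1 : ℝ) ^ (ν u + ν 0) * F (zz ν) u := by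
  refine ge_of_tendsto ((tendsto_F (near_zz h0) u).const_mul _) ?_
  obtain ⟨m, hm'⟩ := exists_nat_ge u
  filter_upwards [eventually_ge_atTop m] with n hn
  exact Q_sign h0 hm hs hu (hm'.trans (by exact_mod_cast hn))

end

/-- Hermite's identity -/
lemma sum_floor {N : ℕ} (hN : 0 < N) (n : ℕ) : ∑ j ∈ range N, (n + j) / N = n := by
  induction n with
  | zero =>
    refine sum_eq_zero fun j hj => ?_
    rw [zero_add]
    exact Nat.div_eq_of_lt (mem_range.1 hj)
  | succ n ih =>
    have h1 : ∑ j ∈ range (N + 1), (n + j) / N = (∑ j ∈ range N, (n + j) / N) + (n + N) / N :=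
      sum_range_succ _ _
    have h2 : ∑ j ∈ range (N + 1), (n + j) / N = (∑ j ∈ range N, (n + (j + 1)) / N) + (n + 0) / N :=
      sum_range_succ' _ _
    have h3 : (n + N) / N = n / N + 1 := Nat.add_div_right n hN
    have h4 : ∑ j ∈ range N, (n + 1 + j) / N = ∑ j ∈ range N, (n + (j + 1)) / N :=
      sum_congr rfl fun j _ => by rw [show n + 1 + j = n + (j + 1) by ring]
    rw [add_zero] at h2
    rw [h4]
    omega

end Q70.Osc
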