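import Pool.Agent.Y744.PCR.Test

/-! # Operations on band-limited functions

Multiplication by polynomials in `x²`, by `sinc`, by another band-limited function, and division by
`1 - x²/a²` at a zero `a`. -/

set_option autoImplicit false

open MeasureTheory Filter Topology Real
open scoped ContDiff

namespace Q70.Osc

open Pool.Agent.Y744

variable {κ : ℝ} {K : ℝ → ℝ}

lemma TK_smul (h : TK κ K) (c : ℝ) : TK κ (fun α => c * K α) where
  smooth := contDiff_const.mul h.smooth
  even := fun x => by rw [h.even]
  supp := fun x hx => by rw [h.supp x hx, mul_zero]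

lemma ct_smul (K : ℝ → ℝ) (c x : ℝ) : ct (fun α => c * K α) x = c * ct K x := by
  unfold ct
  rw [← integral_const_mul]
  refine integral_congr_ae (Eventually.of_forall fun α => ?_)
  show c * K α * _ = _
  ring

/-- multiplication by `1 - c x²` -/
lemma mulPoly (h : TK κ K) (c : ℝ) : ∃ K', TK κ K' ∧ ∀ x, ct K' x = (1 - c * x ^ 2) * ct K x := by
  refine ⟨fun α => K α + (-c) * TK.D K α, h.add (TK_smul h.D_TK (-c)), fun x => ?_⟩
  rw [h.ct_add (TK_smul h.D_TK (-c)), ct_smul, ← h.sq_mul_ct]
  ring

/-- primitive of a smooth function -/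
lemma prim_deriv {f : ℝ → ℝ} (hf : Continuous f) (x : ℝ) :
    HasDerivAt (fun x => ∫ t in (0:ℝ)..x, f t) (f x) x :=
  intervalIntegral.integral_hasDerivAt_right (hf.intervalIntegrable _ _)
    (hf.stronglyMeasurableAtFilter _ _) hf.continuousAt

lemma prim_smooth {f : ℝ → ℝ} (hf : ContDiff ℝ ∞ f) :
    ContDiff ℝ ∞ (fun x => ∫ t in (0:ℝ)..x, f t) := by
  rw [contDiff_infty_iff_deriv]
  have hd : deriv (fun x => ∫ t in (0:ℝ)..x, f t) = f :=
    funext fun x => (prim_deriv hf.continuous x).deriv
  refine ⟨fun x => (prim_deriv hf.continuous x).differentiableAt, ?_⟩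
  rw [hd]
  exact hf

lemma prim_odd {f : ℝ → ℝ} (hf : ∀ x, f (-x) = f x) (x : ℝ) :
    ∫ t in (0:ℝ)..(-x), f t = -∫ t in (0:ℝ)..x, f t := by
  have h1 : ∫ t in (0:ℝ)..x, f (-t) = ∫ t in (-x)..(-0), f t := by
    rw [intervalIntegral.integral_comp_neg]
  have h2 : ∫ t in (0:ℝ)..x, f (-t) = ∫ t in (0:ℝ)..x, f t :=
    intervalIntegral.integral_congr fun t _ => hf t
  rw [h2, neg_zero] at h1
  rw [h1, intervalIntegral.integral_symm]

lemma prim_even {f : ℝ → ℝ} (hf : ∀ x, f (-x) = -f x) (x : ℝ) :
    ∫ t in (0:ℝ)..(-x), f t = ∫ t in (0:ℝ)..x, f t := by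
  have h1 : ∫ t in (0:ℝ)..x, f (-t) = ∫ t in (-x)..(-0), f t := by
    rw [intervalIntegral.integral_comp_neg]
  have h2 : ∫ t in (0:ℝ)..x, f (-t) = ∫ t in (0:ℝ)..x, -f t :=
    intervalIntegral.integral_congr fun t _ => hf t
  rw [h2, neg_zero, intervalIntegral.integral_neg] at h1
  rw [intervalIntegral.integral_symm, ← h1, neg_neg]

/-- multiplication by `sinc (2π b x)` -/
lemma mulSinc (h : TK κ K) (hκ : 0 ≤ κ) {b : ℝ} (hb : 0 < b) :
    ∃ K', TK (κ + b) K' ∧ ∀ x, ct K' x = Real.sinc (2 * π * b * x) * ct K x := by
  set P : ℝ → ℝ := fun x => ∫ t in (0:ℝ)..x, K t with hP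
  have hPs : ContDiff ℝ ∞ P := prim_smooth h.smooth
  have hPd : ∀ x, HasDerivAt P (K x) x := fun x => prim_deriv h.cont x
  have hPo : ∀ x, P (-x) = -P x := fun x => prim_odd h.even x
  set K' : ℝ → ℝ := fun α => (P (α + b) - P (α - b)) / (2 * b) with hK'
  have hTK : TK (κ + b) K' := by
    refine ⟨?_, fun x => ?_, fun x hx => ?_⟩
    · simp only [hK']
      fun_prop
    · simp only [hK']
      have e1 : P (-x + b) = -P (x - b) := by rw [← hPo]; congr 1; ring
      have e2 : P (-x - b) = -P (x + b) := by rw [← hPo]; congr 1; ring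
      rw [e1, e2]
      ring
    · simp only [hK']
      have e : P (x + b) - P (x - b) = ∫ t in (x - b)..(x + b), K t := by
        simp only [hP]
        rw [intervalIntegral.integral_interval_sub_left (h.cont.intervalIntegrable _ _)
          (h.cont.intervalIntegrable _ _)]
      rw [e]
      have hz : ∫ t in (x - b)..(x + b), K t = ∫ t in (x - b)..(x + b), (0 : ℝ) := by
        refine intervalIntegral.integral_congr fun t ht => ?_
        rw [Set.uIcc_of_le (by linarith)] at ht
        refine h.supp t ?_
        have h1 : |x - t| ≤ b := abs_le.2 ⟨by linarith [ht.2], by linarith [ht.1]⟩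
        have h2 := abs_sub_abs_le_abs_sub x t
        linarith
      rw [hz, intervalIntegral.integral_zero, zero_div]
  refine ⟨K', hTK, ?_⟩
  have hKd : ∀ α, HasDerivAt K' ((K (α + b) - K (α - b)) / (2 * b)) α := by
    intro α
    have h1 : HasDerivAt (fun α => P (α + b)) (K (α + b)) α := (hPd _).comp_add_const α b
    have h2 : HasDerivAt (fun α => P (α - b)) (K (α - b)) α := (hPd _).comp_sub_const α b
    exact (h1.sub h2).div_const _
  -- the identity away from zero
  have key : ∀ x, x ≠ 0 → ct K' x = Real.sinc (2 * π * b * x) * ct K x := by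
    intro x hx
    have hpi := Real.pi_pos
    set c : ℝ := 2 * π * x with hc
    have hc0 : c ≠ 0 := by rw [hc]; positivity
    have hk : Continuous K := h.cont
    have iadd : ∀ (f : ℝ → ℝ) (s : ℝ), Continuous f → Integrable fun α => K (α + s) * f α := by
      intro f s hf
      have h1 := (h.mul_int (f := fun α => f (α - s)) (by fun_prop)).comp_add_right s
      refine h1.congr (Eventually.of_forall fun α => ?_)
      show K (α + s) * f (α + s - s) = K (α + s) * f α
      rw [add_sub_cancel_right]
    have e1 : ∫ α, K' α * (c * Real.cos (c * α)) =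
        -∫ α, (K (α + b) - K (α - b)) / (2 * b) * Real.sin (c * α) := by
      refine integral_mul_deriv_eq_deriv_mul_of_integrable (u := K')
        (v := fun α => Real.sin (c * α)) (fun α _ => hKd α) (fun α _ => ?_)
        (hTK.mul_int (by fun_prop)) ?_ (hTK.mul_int (by fun_prop))
      · have := ((hasDerivAt_id α).const_mul c).sin
        simp only [id, mul_one] at this
        rw [mul_comm c]
        exact this
      · have h1 := ((iadd (fun α => Real.sin (c * α)) b (by fun_prop)).sub
          (iadd (fun α => Real.sin (c * α)) (-b) (by fun_prop))).div_const (2 * b)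
        refine h1.congr (Eventually.of_forall fun α => ?_)
        show (K (α + b) * Real.sin (c * α) - K (α + -b) * Real.sin (c * α)) / (2 * b) =
          (K (α + b) - K (α - b)) / (2 * b) * Real.sin (c * α)
        rw [← sub_eq_add_neg]
        ring
    have e2 : ∀ s : ℝ, ∫ α, K (α + s) * Real.sin (c * α) = -(Real.sin (c * s) * ct K x) := by
      intro s
      have h1 := integral_add_right_eq_self (μ := volume) (fun α => K α * Real.sin (c * (α - s))) s
      have h2 : ∫ α, K (α + s) * Real.sin (c * α) = ∫ α, K (α + s) * Real.sin (c * (α + s - s)) := by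
        refine integral_congr_ae (Eventually.of_forall fun α => ?_)
        show K (α + s) * Real.sin (c * α) = K (α + s) * Real.sin (c * (α + s - s))
        rw [add_sub_cancel_right]
      rw [h2, h1]
      have h3 : ∫ α, K α * Real.sin (c * (α - s)) = Real.cos (c * s) * (∫ α, K α * Real.sin (c * α)) -
          Real.sin (c * s) * ∫ α, K α * Real.cos (c * α) := by
        rw [← integral_const_mul, ← integral_const_mul, ← integral_sub
          ((h.mul_int (by fun_prop)).const_mul _) ((h.mul_int (by fun_prop)).const_mul _)]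
        refine integral_congr_ae (Eventually.of_forall fun α => ?_)
        show K α * Real.sin (c * (α - s)) = Real.cos (c * s) * (K α * Real.sin (c * α)) -
          Real.sin (c * s) * (K α * Real.cos (c * α))
        rw [mul_sub, Real.sin_sub]
        ring
      rw [h3, h.sin_zero]
      unfold ct
      ring
    have e3 : ∫ α, (K (α + b) - K (α - b)) / (2 * b) * Real.sin (c * α) =
        -(Real.sin (c * b) / b * ct K x) := by
      have h1 : ∫ α, (K (α + b) - K (α - b)) / (2 * b) * Real.sin (c * α) =
          ((∫ α, K (α + b) * Real.sin (c * α)) - ∫ α, K (α + -b) * Real.sin (c * α)) / (2 * b) := by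
        rw [← integral_sub (iadd (fun α => Real.sin (c * α)) b (by fun_prop))
          (iadd (fun α => Real.sin (c * α)) (-b) (by fun_prop)), ← integral_div]
        refine integral_congr_ae (Eventually.of_forall fun α => ?_)
        show (K (α + b) - K (α - b)) / (2 * b) * Real.sin (c * α) =
          (K (α + b) * Real.sin (c * α) - K (α + -b) * Real.sin (c * α)) / (2 * b)
        rw [← sub_eq_add_neg]
        ring
      rw [h1, e2, e2, mul_neg, Real.sin_neg]
      field_simp
      ring
    have e4 : c * ct K' x = Real.sin (c * b) / b * ct K x := by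
      have h4 : c * ct K' x = ∫ α, K' α * (c * Real.cos (c * α)) := by
        unfold ct
        rw [← integral_const_mul]
        refine integral_congr_ae (Eventually.of_forall fun α => ?_)
        show c * (K' α * Real.cos (c * α)) = _
        ring
      rw [h4, e1, e3, neg_neg]
    have e5 : Real.sinc (2 * π * b * x) = Real.sin (c * b) / (c * b) := by
      have : 2 * π * b * x = c * b := by rw [hc]; ring
      rw [this, Real.sinc_of_ne_zero (mul_ne_zero hc0 hb.ne')]
    rw [e5]
    have h6 : ct K' x = Real.sin (c * b) / b * ct K x / c := by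
      rw [← e4, mul_div_cancel_left₀ _ hc0]
    rw [h6]
    field_simp
  have hcont : Continuous fun x : ℝ => Real.sinc (2 * π * b * x) * ct K x :=
    (Real.continuous_sinc.comp (by fun_prop)).mul h.ct_cont
  have hdense : Dense ({0}ᶜ : Set ℝ) := dense_compl_singleton 0
  have := Continuous.ext_on hdense hTK.ct_cont hcont (fun x hx => key x hx)
  exact fun x => congrFun this x

/-- division by `1 - x²/a²` -/
lemma divi (h : TK κ K) (hκ : 0 ≤ κ) {a : ℝ} (ha : 0 < a) (h0 : ct K a = 0) :
    ∃ K', TK κ K' ∧ ∀ x, (1 - x ^ 2 / a ^ 2) * ct K' x = ct K x := by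
  have hpi := Real.pi_pos
  set om : ℝ := 2 * π * a with hom
  have hom0 : 0 < om := by rw [hom]; positivity
  have hKc := h.cont
  set A : ℝ → ℝ := fun x => ∫ t in (0:ℝ)..x, Real.cos (om * t) * K t with hA
  set B : ℝ → ℝ := fun x => ∫ t in (0:ℝ)..x, Real.sin (om * t) * K t with hB
  have hcs : ContDiff ℝ ∞ fun t : ℝ => Real.cos (om * t) * K t := by
    have := h.smooth
    fun_prop
  have hss : ContDiff ℝ ∞ fun t : ℝ => Real.sin (om * t) * K t := by
    have := h.smooth
    fun_prop
  have hAs : ContDiff ℝ ∞ A := prim_smooth hcs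
  have hBs : ContDiff ℝ ∞ B := prim_smooth hss
  have hAd : ∀ x, HasDerivAt A (Real.cos (om * x) * K x) x := fun x => prim_deriv hcs.continuous x
  have hBd : ∀ x, HasDerivAt B (Real.sin (om * x) * K x) x := fun x => prim_deriv hss.continuous x
  have hAo : ∀ x, A (-x) = -A x := fun x => prim_odd (fun t => by
    rw [h.even, mul_neg, Real.cos_neg]) x
  have hBe : ∀ x, B (-x) = B x := fun x => prim_even (fun t => by
    rw [h.even, mul_neg, Real.sin_neg]
    ring) x
  -- constancy beyond the support
  have hconst : ∀ (f : ℝ → ℝ), Continuous f → ∀ x, κ < x →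
      ∫ t in (0:ℝ)..x, f t * K t = ∫ t in (0:ℝ)..(κ + 1), f t * K t := by
    intro f hf x hx
    have hfc : Continuous fun t => f t * K t := hf.mul hKc
    have h1 := intervalIntegral.integral_interval_sub_left (a := 0) (b := x) (c := κ + 1)
      (hfc.intervalIntegrable (μ := volume) _ _) (hfc.intervalIntegrable _ _)
    have h2 : ∫ t in (κ + 1)..x, f t * K t = ∫ t in (κ + 1)..x, (0 : ℝ) := by
      refine intervalIntegral.integral_congr fun t ht => ?_
      have h3 : κ < t := by
        have := ht.1
        have h4 : κ < min (κ + 1) x := lt_min (by linarith) hx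
        exact h4.trans_le this
      show f t * K t = 0
      rw [h.supp t (h3.trans_le (le_abs_self t)), mul_zero]
    rw [h2, intervalIntegral.integral_zero] at h1
    linarith
  set S : ℝ := B (κ + 1) with hS
  have hA1 : ∀ x, κ < x → A x = 0 := by
    intro x hx
    have h1 : A x = A (κ + 1) := hconst _ (by fun_prop) x hx
    -- the total integral is twice `A (κ + 1)`
    have hint : Integrable fun t => Real.cos (om * t) * K t := by
      refine (h.mul_int (f := fun t => Real.cos (om * t)) (by fun_prop)).congr
        (Eventually.of_forall fun t => mul_comm _ _)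
    have h2 : ∫ t, Real.cos (om * t) * K t = ∫ t in (-(κ + 1))..(κ + 1), Real.cos (om * t) * K t := by
      rw [intervalIntegral.integral_of_le (by linarith), ← integral_indicator measurableSet_Ioc]
      refine integral_congr_ae ?_
      have hne : ∀ᵐ t : ℝ, t ≠ -(κ + 1) := by
        rw [ae_iff]
        simp
      filter_upwards [hne] with t ht
      by_cases hm : t ∈ Set.Ioc (-(κ + 1)) (κ + 1)
      · rw [Set.indicator_of_mem hm]
      · rw [Set.indicator_of_notMem hm]
        have : κ < |t| := by
          by_contra hcon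
          push Not at hcon
          rw [abs_le] at hcon
          exact hm ⟨by linarith [hcon.1], by linarith [hcon.2]⟩
        rw [h.supp t this, mul_zero]
    have h3 : ∫ t in (-(κ + 1))..(κ + 1), Real.cos (om * t) * K t = A (κ + 1) - A (-(κ + 1)) := by
      simp only [hA]
      rw [intervalIntegral.integral_interval_sub_left
        (hcs.continuous.intervalIntegrable (μ := volume) _ _) (hcs.continuous.intervalIntegrable _ _)]
    have h4 : ∫ t, Real.cos (om * t) * K t = 0 := by
      rw [← h0]
      unfold ct
      refine integral_congr_ae (Eventually.of_forall fun t => ?_)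
      show Real.cos (om * t) * K t = K t * Real.cos (2 * π * a * t)
      rw [hom]
      ring
    rw [h2, h3, hAo] at h4
    rw [h1]
    linarith
  have hB1 : ∀ x, κ < x → B x = S := fun x hx => hconst _ (by fun_prop) x hx
  set K' : ℝ → ℝ := fun α => om * (Real.sin (om * α) * A α - Real.cos (om * α) * (B α - S)) with hK'
  have hev : ∀ x, K' (-x) = K' x := by
    intro x
    simp only [hK']
    have e : om * -x = -(om * x) := by ring
    rw [hAo, hBe, e, Real.sin_neg, Real.cos_neg]
    ring
  have hTK : TK κ K' := by
    refine ⟨?_, hev, fun x hx => ?_⟩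
    · simp only [hK']
      fun_prop
    · have h1 : ∀ x, κ < x → K' x = 0 := by
        intro x hx
        simp only [hK']
        rw [hA1 x hx, hB1 x hx]
        ring
      rcases abs_cases x with ⟨h2, _⟩ | ⟨h2, _⟩
      · rw [h2] at hx
        exact h1 x hx
      · rw [h2] at hx
        rw [← hev]
        exact h1 _ hx
  refine ⟨K', hTK, fun x => ?_⟩
  -- the differential equation
  have hsd : ∀ α : ℝ, HasDerivAt (fun α => Real.sin (om * α)) (om * Real.cos (om * α)) α := by
    intro α
    have := ((hasDerivAt_id α).const_mul om).sin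
    simp only [id, mul_one] at this
    rw [mul_comm om]
    exact this
  have hcd : ∀ α : ℝ, HasDerivAt (fun α => Real.cos (om * α)) (-(om * Real.sin (om * α))) α := by
    intro α
    have := ((hasDerivAt_id α).const_mul om).cos
    simp only [id, mul_one] at this
    refine this.congr_deriv ?_
    ring
  have hd1 : ∀ α, HasDerivAt K' (om ^ 2 * (Real.cos (om * α) * A α + Real.sin (om * α) * (B α - S)))
      α := by
    intro α
    have h1 := (((hsd α).mul (hAd α)).sub ((hcd α).mul ((hBd α).sub_const S))).const_mul om
    refine h1.congr_deriv ?_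
    ring
  have hd2 : ∀ α, HasDerivAt (fun α => om ^ 2 * (Real.cos (om * α) * A α +
      Real.sin (om * α) * (B α - S))) (om ^ 2 * (K α - K' α)) α := by
    intro α
    have h1 := (((hcd α).mul (hAd α)).add ((hsd α).mul ((hBd α).sub_const S))).const_mul (om ^ 2)
    refine h1.congr_deriv ?_
    simp only [hK']
    have := Real.sin_sq_add_cos_sq (om * α)
    have e : om ^ 2 * (-(om * Real.sin (om * α)) * A α + Real.cos (om * α) * (Real.cos (om * α) * K α) +
        (om * Real.cos (om * α) * (B α - S) + Real.sin (om * α) * (Real.sin (om * α) * K α))) =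
        om ^ 2 * ((Real.sin (om * α) ^ 2 + Real.cos (om * α) ^ 2) * K α -
          om * (Real.sin (om * α) * A α - Real.cos (om * α) * (B α - S))) := by ring
    rw [e, this, one_mul]
  have hdd : ∀ α, deriv (deriv K') α = om ^ 2 * (K α - K' α) := by
    intro α
    have e : deriv K' = fun α => om ^ 2 * (Real.cos (om * α) * A α + Real.sin (om * α) * (B α - S)) :=
      funext fun α => (hd1 α).deriv
    rw [e]
    exact (hd2 α).deriv
  have hfin : K = fun α => K' α + (-(1 / a ^ 2)) * TK.D K' α := by
    funext α
    unfold TK.D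
    rw [hdd]
    have hw : om ^ 2 = 4 * π ^ 2 * a ^ 2 := by rw [hom]; ring
    rw [hw]
    field_simp
    ring
  have h1 : ct K x = ct (fun α => K' α + (-(1 / a ^ 2)) * TK.D K' α) x := by rw [← hfin]
  have e2 := ct_smul (TK.D K') (-(1 / a ^ 2)) x
  rw [h1, hTK.ct_add (TK_smul hTK.D_TK _), e2, ← hTK.sq_mul_ct]
  ring

/-- products -/
lemma mulCt {κ₁ κ₂ : ℝ} {F G : ℝ → ℝ} (hf : TK κ₁ F) (hg : TK κ₂ G) :
    ∃ K', TK (κ₁ + κ₂) K' ∧ ∀ x, ct K' x = ct F x * ct G x := by
  set C : ℝ → ℝ := convolution F G (ContinuousLinearMap.mul ℝ ℝ) volume with hC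
  have hCt : TK (κ₁ + κ₂) C := by
    refine ⟨?_, fun x => ?_, fun x hx => ?_⟩
    · exact HasCompactSupport.contDiff_convolution_right _ hg.hcs
        (hf.cont.locallyIntegrable) hg.smooth
    · rw [hC]
      unfold convolution
      rw [← integral_neg_eq_self]
      refine integral_congr_ae (Eventually.of_forall fun t => ?_)
      show F (-t) * G (-x - -t) = F t * G (x - t)
      rw [hf.even, ← hg.even (-x - -t)]
      congr 2
      ring
    · rw [hC]
      unfold convolution
      rw [integral_eq_zero_of_ae]
      refine Eventually.of_forall fun t => ?_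
      show F t * G (x - t) = 0
      by_cases h1 : κ₁ < |t|
      · rw [hf.supp t h1, zero_mul]
      · rw [hg.supp (x - t), mul_zero]
        have := abs_sub_abs_le_abs_sub x t
        linarith
  refine ⟨C, hCt, fun x => ?_⟩
  set c : ℝ := 2 * π * x with hc
  set A : ℝ → ℝ := fun α => F α * Real.cos (c * α) with hA
  set B : ℝ → ℝ := fun α => F α * Real.sin (c * α) with hB
  set A' : ℝ → ℝ := fun α => G α * Real.cos (c * α) with hA'
  set B' : ℝ → ℝ := fun α => G α * Real.sin (c * α) with hB'
  have iA : Integrable A := hf.mul_int (by fun_prop)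
  have iB : Integrable B := hf.mul_int (by fun_prop)
  have iA' : Integrable A' := hg.mul_int (by fun_prop)
  have iB' : Integrable B' := hg.mul_int (by fun_prop)
  have hAc : HasCompactSupport A := hf.hcs.mul_right
  have hBc : HasCompactSupport B := hf.hcs.mul_right
  have cA : Continuous A := hf.cont.mul (by fun_prop)
  have cB : Continuous B := hf.cont.mul (by fun_prop)
  have cA' : Continuous A' := hg.cont.mul (by fun_prop)
  have cB' : Continuous B' := hg.cont.mul (by fun_prop)
  have e1 : ∀ α, C α * Real.cos (c * α) = convolution A A' (ContinuousLinearMap.mul ℝ ℝ) volume α -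
      convolution B B' (ContinuousLinearMap.mul ℝ ℝ) volume α := by
    intro α
    rw [hC]
    unfold convolution
    have i1 : Integrable fun t => A t * A' (α - t) :=
      (cA.mul (by fun_prop)).integrable_of_hasCompactSupport hAc.mul_right
    have i2 : Integrable fun t => B t * B' (α - t) :=
      (cB.mul (by fun_prop)).integrable_of_hasCompactSupport hBc.mul_right
    show (∫ t, F t * G (α - t)) * Real.cos (c * α) = (∫ t, A t * A' (α - t)) -
      ∫ t, B t * B' (α - t)
    rw [← integral_sub i1 i2, ← integral_mul_const]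
    refine integral_congr_ae (Eventually.of_forall fun t => ?_)
    show F t * G (α - t) * Real.cos (c * α) = F t * Real.cos (c * t) *
      (G (α - t) * Real.cos (c * (α - t))) - F t * Real.sin (c * t) *
      (G (α - t) * Real.sin (c * (α - t)))
    have : c * α = c * t + c * (α - t) := by ring
    rw [this, Real.cos_add]
    ring
  have e2 : ct C x = (∫ α, convolution A A' (ContinuousLinearMap.mul ℝ ℝ) volume α) -
      ∫ α, convolution B B' (ContinuousLinearMap.mul ℝ ℝ) volume α := by
    rw [← integral_sub (iA.integrable_convolution _ iA') (iB.integrable_convolution _ iB')]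
    unfold ct
    exact integral_congr_ae (Eventually.of_forall fun α => e1 α)
  rw [e2, integral_convolution _ iA iA', integral_convolution _ iB iB']
  have e3 : ∫ α, B α = 0 := hf.sin_zero c
  rw [e3]
  show (∫ α, A α) * (∫ α, A' α) - 0 * (∫ α, B' α) = ct F x * ct G x
  have e4 : ∫ α, A α = ct F x := rfl
  have e5 : ∫ α, A' α = ct G x := rfl
  rw [e4, e5]
  ring

end Q70.Osc
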