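import Pool.Agent.Q70.OscC
import Pool.Agent.Q70.OscD
import Pool.Agent.Y744.PCR.HighPass2

/-! # A Sturm–Hurwitz theorem

An even function of polynomial growth with a spectral gap `(-κ, κ)` whose sign changes have upper
uniform density `< 2 κ` (up to an exponentially small error) vanishes. -/

set_option autoImplicit false

open MeasureTheory Filter Topology Real

namespace Q70.Osc

open Pool.Agent.Y744

variable {κ L : ℝ} {K : ℝ → ℝ}

lemma hyb_base (h : TK κ K) (hκ : 0 ≤ κ) (hL : 0 < L) (I : ℕ) :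
    ∃ K', TK (κ + 1 / (2 * L)) K' ∧ ∀ x, Q yI I (x / L) * ct K' x =
      Real.sinc (π * (x / L)) * ct K x := by
  have hpi := Real.pi_pos
  induction I with
  | zero =>
    obtain ⟨K', h1, h2⟩ := mulSinc h hκ (b := 1 / (2 * L)) (by positivity)
    refine ⟨K', h1, fun x => ?_⟩
    rw [Q_zero, one_mul, h2]
    congr 2
    field_simp
  | succ I ih =>
    obtain ⟨K1, h1, h2⟩ := ih
    set a : ℝ := (I + 1) * L with ha
    have ha0 : 0 < a := by positivity
    have haL : a / L = I + 1 := by rw [ha]; field_simp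
    have h3 : ct K1 a = 0 := by
      have h4 := h2 a
      rw [haL] at h4
      have h5 : Real.sinc (π * ((I : ℝ) + 1)) = 0 := by
        rw [Real.sinc_of_ne_zero (by positivity)]
        have : Real.sin (π * ((I : ℝ) + 1)) = 0 := by
          have := Real.sin_nat_mul_pi (I + 1)
          push_cast at this
          rw [mul_comm]
          exact this
        rw [this, zero_div]
      rw [h5, zero_mul] at h4
      have h6 : Q yI I ((I : ℝ) + 1) ≠ 0 := by
        unfold Q
        rw [Finset.prod_ne_zero_iff]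
        intro i hi h0
        have hi' : i < I := Finset.mem_range.1 hi
        have e : yI i = i + 1 := rfl
        have hi0 : (0 : ℝ) ≤ i := Nat.cast_nonneg i
        have h7 : ((I : ℝ) + 1) ^ 2 / yI i ^ 2 = 1 := by linarith
        rw [e, div_eq_one_iff_eq (by positivity)] at h7
        have h8 : (I : ℝ) + 1 = i + 1 := (pow_left_inj₀ (by positivity) (by positivity)
          two_ne_zero).1 h7
        have h9 : (I : ℝ) = i := by linarith
        have : I = i := by exact_mod_cast h9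
        omega
      exact (mul_eq_zero.1 h4).resolve_left h6
    obtain ⟨K2, h4, h5⟩ := divi h1 (by positivity) ha0 h3
    refine ⟨K2, h4, fun x => ?_⟩
    rw [← h2, Q_succ, ← h5]
    have e : (x / L) ^ 2 / yI I ^ 2 = x ^ 2 / a ^ 2 := by
      have : yI I = I + 1 := rfl
      rw [this, ha]
      field_simp
    rw [e]
    ring

lemma poly_mul (h : TK κ K) {y : ℕ → ℝ} (n : ℕ) :
    ∃ K', TK κ K' ∧ ∀ x, ct K' x = Q y n (x / L) * ct K x := by
  induction n with
  | zero => exact ⟨K, h, fun x => by rw [Q_zero, one_mul]⟩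
  | succ n ih =>
    obtain ⟨K1, h1, h2⟩ := ih
    obtain ⟨K2, h3, h4⟩ := mulPoly h1 (1 / (L ^ 2 * y n ^ 2))
    refine ⟨K2, h3, fun x => ?_⟩
    rw [h4, h2, Q_succ]
    have e : (x / L) ^ 2 / y n ^ 2 = 1 / (L ^ 2 * y n ^ 2) * x ^ 2 := by
      rw [div_pow, div_div, div_eq_mul_one_div]
      ring
    rw [e]
    ring

lemma fam (hL : 0 < L) (y : ℕ → ℕ → ℝ) (N I : ℕ) (h : TK κ K) (hκ : 0 ≤ κ) :
    ∃ K', TK (κ + N / (2 * L)) K' ∧ ∀ x, Q yI I (x / L) ^ N * ct K' x =
      (∏ j ∈ Finset.range N, Q (y j) I (x / L)) * Real.sinc (π * (x / L)) ^ N * ct K x := by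
  induction N with
  | zero => exact ⟨K, by simpa using h, fun x => by simp⟩
  | succ N ih =>
    obtain ⟨K1, h1, h2⟩ := ih
    obtain ⟨K2, h3, h4⟩ := hyb_base h1 (by positivity) hL I
    obtain ⟨K3, h5, h6⟩ := poly_mul (L := L) h3 (y := y N) I
    refine ⟨K3, ?_, fun x => ?_⟩
    · have e : κ + (N + 1 : ℕ) / (2 * L) = κ + N / (2 * L) + 1 / (2 * L) := by
        push_cast
        ring
      rw [e]
      exact h5
    · rw [h6, Finset.prod_range_succ, pow_succ]
      calc Q yI I (x / L) ^ N * Q yI I (x / L) * (Q (y N) I (x / L) * ct K2 x) =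
          Q (y N) I (x / L) * Q yI I (x / L) ^ N * (Q yI I (x / L) * ct K2 x) := by ring
        _ = Q (y N) I (x / L) * Real.sinc (π * (x / L)) * (Q yI I (x / L) ^ N * ct K1 x) := by
            rw [h4]; ring
        _ = _ := by rw [h2]; ring

lemma yI_ne {u : ℝ} (hu : ∀ k : ℕ, |u| ≠ k) (I : ℕ) : Q yI I u ≠ 0 := by
  unfold Q
  rw [Finset.prod_ne_zero_iff]
  intro i _ h0
  have e : yI i = i + 1 := rfl
  have hi0 : (0 : ℝ) ≤ i := Nat.cast_nonneg i
  have h7 : u ^ 2 / yI i ^ 2 = 1 := by linarith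
  rw [e, div_eq_one_iff_eq (by positivity), ← sq_abs] at h7
  have h8 : |u| = i + 1 := (pow_left_inj₀ (abs_nonneg _) (by positivity) two_ne_zero).1 h7
  exact hu (i + 1) (by rw [h8]; push_cast; ring)

/-- the product over the family -/
noncomputable def GG (y : ℕ → ℕ → ℝ) (N : ℕ) (u : ℝ) : ℝ := ∏ j ∈ Finset.range N, F (y j) u

lemma fam_val {y : ℕ → ℕ → ℝ} (hy : ∀ j, Near (y j)) (N I : ℕ) {x : ℝ} {k k' : ℝ}
    (hx : ∀ k : ℕ, |x / L| ≠ k)
    (h : Q yI I (x / L) ^ N * k' =
      (∏ j ∈ Finset.range N, Q (y j) I (x / L)) * Real.sinc (π * (x / L)) ^ N * k) :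
    k' = GG (fun j => hyb (y j) I) N (x / L) * k := by
  have hne := pow_ne_zero N (yI_ne hx I)
  refine mul_left_cancel₀ hne ?_
  rw [h]
  unfold GG
  have e : Q yI I (x / L) ^ N * ∏ j ∈ Finset.range N, F (hyb (y j) I) (x / L) =
      (∏ j ∈ Finset.range N, Q (y j) I (x / L)) * Real.sinc (π * (x / L)) ^ N := by
    have h1 : Q yI I (x / L) ^ N = ∏ j ∈ Finset.range N, Q yI I (x / L) := by
      rw [Finset.prod_const, Finset.card_range]
    have h2 : Real.sinc (π * (x / L)) ^ N = ∏ j ∈ Finset.range N, Real.sinc (π * (x / L)) := by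
      rw [Finset.prod_const, Finset.card_range]
    rw [h1, h2, ← Finset.prod_mul_distrib, ← Finset.prod_mul_distrib]
    exact Finset.prod_congr rfl fun j _ => F_hyb (hy j) I _
  rw [← mul_assoc, e]

lemma GG_bound {y : ℕ → ℕ → ℝ} (hy : ∀ j, Near (y j)) (N : ℕ) {u : ℝ}
    (hu : ∀ k : ℕ, |u| ≠ k) : |GG y N u| ≤ (25 * (1 + u ^ 2) ^ 5) ^ N := by
  unfold GG
  rw [Finset.abs_prod]
  refine (Finset.prod_le_prod (fun j _ => abs_nonneg _) fun j _ => F_bound (hy j) hu).trans ?_
  rw [Finset.prod_const, Finset.card_range]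

lemma GG_meas {y : ℕ → ℕ → ℝ} (hy : ∀ j, Near (y j)) (N : ℕ) : Measurable (GG y N) := by
  unfold GG
  exact Finset.measurable_prod _ fun j _ => F_meas (hy j)

lemma GG_neg {y : ℕ → ℕ → ℝ} (hy : ∀ j, Near (y j)) (N : ℕ) (u : ℝ) : GG y N (-u) = GG y N u := by
  unfold GG
  exact Finset.prod_congr rfl fun j _ => F_neg (hy j) u

lemma GG_lim {y : ℕ → ℕ → ℝ} (hy : ∀ j, Near (y j)) (N : ℕ) (u : ℝ) :
    Tendsto (fun I => GG (fun j => hyb (y j) I) N u) atTop (𝓝 (GG y N u)) := by
  unfold GG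
  exact tendsto_finsetProd _ fun j _ => F_hyb_lim (hy j) u

/-- almost every point is good -/
lemma ae_good (hL : 0 < L) (y : ℕ → ℕ → ℝ) : ∀ᵐ x : ℝ, (∀ k : ℕ, |x / L| ≠ k) ∧
    ∀ j i : ℕ, |x / L| ≠ y j i := by
  have h1 : ∀ c : ℝ, ∀ᵐ x : ℝ, |x / L| ≠ c := by
    intro c
    have hsub : {x : ℝ | ¬ |x / L| ≠ c} ⊆ {c * L, -(c * L)} := by
      intro x hx
      have hx' : |x / L| = c := not_not.1 hx
      rcases abs_cases (x / L) with ⟨h, _⟩ | ⟨h, _⟩
      · left
        rw [h] at hx'
        rw [← hx']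
        field_simp
      · right
        rw [h] at hx'
        show x = -(c * L)
        rw [← hx']
        field_simp
    refine measure_mono_null hsub ?_
    exact Set.Finite.measure_zero (by simp) _
  rw [eventually_and]
  exact ⟨ae_all_iff.2 fun k => h1 k, ae_all_iff.2 fun j => ae_all_iff.2 fun i => h1 _⟩

/-- one step: the product of `H` with a band-limited function of the same signs vanishes -/
lemma core {N : ℕ} {y : ℕ → ℕ → ℝ} {κ' s C c B : ℝ} {H W : ℝ → ℝ} (hL : 1 ≤ L)
    (hy : ∀ j, Near (y j)) (hκ' : 0 < κ') (hW : TK κ' W) (hκe : 2 * κ' + N / (2 * L) ≤ κ)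
    (hm : Measurable H) (he : ∀ x, H (-x) = H x) (hB : ∀ x, |H x| ≤ B * (1 + x ^ 2))
    (hs : |s| = 1) (hC : 0 ≤ C) (hc : 0 < c)
    (hl : ∀ᵐ x, -(C * Real.exp (-(c * |x|))) ≤ s * H x * (GG y N (x / L) * ct W x))
    (hz : ∀ K, TK κ K → ∫ x, H x * ct K x = 0) :
    ∀ᵐ x, H x * (GG y N (x / L) * ct W x) = 0 := by
  have hL0 : 0 < L := by linarith
  have hB0 : 0 ≤ B := by
    have := (abs_nonneg _).trans (hB 0)
    simpa using this
  obtain ⟨D, hD0, hD⟩ := hW.decay (5 * N)
  set Cg : ℝ := 25 ^ N * D with hCg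
  have hCg0 : 0 ≤ Cg := by positivity
  have hxL : ∀ x : ℝ, (x / L) ^ 2 ≤ x ^ 2 := by
    intro x
    rw [div_pow]
    exact div_le_self (sq_nonneg _) (one_le_pow₀ hL)
  have hpb : ∀ x : ℝ, (25 * (1 + (x / L) ^ 2) ^ 5) ^ N ≤ 25 ^ N * (1 + x ^ 2) ^ (5 * N) := by
    intro x
    rw [mul_pow, ← pow_mul]
    refine mul_le_mul_of_nonneg_left ?_ (by positivity)
    exact pow_le_pow_left₀ (by positivity) (by linarith [hxL x]) _
  set g : ℝ → ℝ := fun x => GG y N (x / L) * ct W x with hg
  have hgm : Measurable g := ((GG_meas hy N).comp (by fun_prop)).mul hW.ct_cont.measurable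
  have hgb : ∀ᵐ x, |g x| ≤ Cg := by
    filter_upwards [ae_good hL0 y] with x hx
    simp only [hg]
    rw [abs_mul]
    have h1 := (GG_bound hy N hx.1).trans (hpb x)
    have hp : 0 < (1 + x ^ 2) ^ (5 * N) := by positivity
    calc |GG y N (x / L)| * |ct W x| ≤ (25 ^ N * (1 + x ^ 2) ^ (5 * N)) *
          (D / (1 + x ^ 2) ^ (5 * N)) := mul_le_mul h1 (hD x) (abs_nonneg _) (by positivity)
      _ = Cg := by
        rw [hCg]
        field_simp
  set g1 : ℝ → ℝ := fun x => if |g x| ≤ Cg then g x else 0 with hg1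
  have hg1m : Measurable g1 :=
    Measurable.ite (measurableSet_le hgm.abs measurable_const) hgm measurable_const
  have hg1b : ∀ x, |g1 x| ≤ Cg := by
    intro x
    simp only [hg1]
    split_ifs with h
    · exact h
    · rw [abs_zero]
      exact hCg0
  have hgg : ∀ᵐ x, g1 x = g x := by
    filter_upwards [hgb] with x hx
    simp only [hg1]
    rw [if_pos hx]
  have hge : ∀ x, g (-x) = g x := by
    intro x
    simp only [hg]
    rw [neg_div, GG_neg hy, TK.ct_neg]
  have hg1e : ∀ x, g1 (-x) = g1 x := by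
    intro x
    simp only [hg1]
    rw [hge]
  set H' : ℝ → ℝ := fun x => s * H x * g1 x with hH'
  have hfin : ∀ᵐ x, H' x = 0 := by
    refine high_pass (B := B * Cg) hκ' ((measurable_const.mul hm).mul hg1m) (fun x => ?_)
      (fun x => ?_) hC hc ?_ fun K hK => ?_
    · simp only [hH']
      rw [he, hg1e]
    · simp only [hH']
      rw [abs_mul, abs_mul, hs, one_mul]
      calc |H x| * |g1 x| ≤ (B * (1 + x ^ 2)) * Cg :=
            mul_le_mul (hB x) (hg1b x) (abs_nonneg _) (by positivity)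
        _ = _ := by ring
    · filter_upwards [hl, hgg] with x h1 h2
      simp only [hH']
      rw [h2]
      exact h1
    · -- the integrals
      obtain ⟨K0, hK0, eK0⟩ := mulCt hW hK
      have hK0' : TK (2 * κ') K0 := by
        rw [two_mul]
        exact hK0
      choose KI hKI eKI using fun I => fam hL0 y N I hK0' (by positivity : 0 ≤ 2 * κ')
      obtain ⟨D0, hD00, hD0'⟩ := hK0.decay (5 * N + 2)
      have hlim : Tendsto (fun I => ∫ x, H x * ct (KI I) x) atTop
          (𝓝 (∫ x, H x * (GG y N (x / L) * ct K0 x))) := by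
        refine tendsto_integral_of_dominated_convergence
          (fun x => B * (25 ^ N * D0) * (1 + x ^ 2)⁻¹) ?_ ?_ ?_ ?_
        · exact fun I => (hm.mul (hKI I).ct_cont.measurable).aestronglyMeasurable
        · exact integrable_inv_one_add_sq.const_mul _
        · intro I
          filter_upwards [ae_good hL0 y] with x hx
          rw [fam_val hy N I hx.1 (eKI I x), Real.norm_eq_abs, abs_mul, abs_mul]
          have h1 := (GG_bound (fun j => near_hyb (hy j) I) N hx.1).trans (hpb x)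
          calc |H x| * (|GG (fun j => hyb (y j) I) N (x / L)| * |ct K0 x|) ≤
              (B * (1 + x ^ 2)) * ((25 ^ N * (1 + x ^ 2) ^ (5 * N)) *
                (D0 / (1 + x ^ 2) ^ (5 * N + 2))) := by
                refine mul_le_mul (hB x) (mul_le_mul h1 (hD0' x) (abs_nonneg _) (by positivity))
                  (by positivity) (by positivity)
            _ = B * (25 ^ N * D0) * (1 + x ^ 2)⁻¹ := by
                field_simp
                ring
        · filter_upwards [ae_good hL0 y] with x hx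
          have h1 : ∀ I, ct (KI I) x = GG (fun j => hyb (y j) I) N (x / L) * ct K0 x :=
            fun I => fam_val hy N I hx.1 (eKI I x)
          simp_rw [h1]
          exact ((GG_lim hy N (x / L)).mul_const _).const_mul _
      have hzero : ∀ I, ∫ x, H x * ct (KI I) x = 0 := fun I => hz _ ((hKI I).mono hκe)
      simp_rw [hzero] at hlim
      have h0 := tendsto_nhds_unique hlim tendsto_const_nhds
      have e : ∫ x, H' x * ct K x = s * ∫ x, H x * (GG y N (x / L) * ct K0 x) := by
        rw [← integral_const_mul]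
        refine integral_congr_ae ?_
        filter_upwards [hgg] with x hx
        simp only [hH']
        rw [hx, eK0]
        ring
      rw [e, h0, mul_zero]
  have hs0 : s ≠ 0 := by
    intro h
    rw [h, abs_zero] at hs
    exact zero_ne_one hs
  filter_upwards [hfin, hgg] with x h1 h2
  simp only [hH'] at h1
  rw [h2, mul_assoc] at h1
  exact (mul_eq_zero.1 h1).resolve_left hs0

/-- the counting functions of the family -/
lemma family {n : ℝ → ℕ} {N : ℕ} (hL : 0 < L) (hN : 0 < N) (hn : Monotone n)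
    (h0 : n L = n 0) (hs : ∀ x, n (x + L) ≤ n x + N) :
    ∃ y : ℕ → ℕ → ℝ, (∀ j, Near (y j)) ∧ ∀ x, 0 ≤ x →
      0 ≤ (-1 : ℝ) ^ (n x + n 0) * GG y N (x / L) := by
  set ν : ℕ → ℝ → ℕ := fun j u => (n (u * L) + j) / N with hν
  have hm : ∀ j, Monotone (ν j) := by
    intro j u v huv
    simp only [hν]
    exact Nat.div_le_div_right (Nat.add_le_add_right (hn (mul_le_mul_of_nonneg_right huv hL.le)) j)
  have hst : ∀ j u, ν j (u + 1) ≤ ν j u + 1 := by
    intro j u
    simp only [hν]
    rw [← Nat.add_div_right _ hN]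
    refine Nat.div_le_div_right ?_
    have := hs (u * L)
    rw [show (u + 1) * L = u * L + L by ring]
    omega
  have h01 : ∀ j, ν j 1 = ν j 0 := by
    intro j
    simp only [hν]
    rw [one_mul, zero_mul, h0]
  refine ⟨fun j => zz (ν j), fun j => near_zz (h01 j), fun x hx => ?_⟩
  have hxL : 0 ≤ x / L := by positivity
  have h1 : ∀ j, 0 ≤ (-1 : ℝ) ^ (ν j (x / L) + ν j 0) * F (zz (ν j)) (x / L) :=
    fun j => F_sign (h01 j) (hm j) (hst j) hxL
  have h2 : 0 ≤ ∏ j ∈ Finset.range N, ((-1 : ℝ) ^ (ν j (x / L) + ν j 0) * F (zz (ν j)) (x / L)) :=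
    Finset.prod_nonneg fun j _ => h1 j
  rw [Finset.prod_mul_distrib, Finset.prod_pow_eq_pow_sum, Finset.sum_add_distrib] at h2
  have h3 : ∑ j ∈ Finset.range N, ν j (x / L) = n x := by
    simp only [hν]
    rw [sum_floor hN, div_mul_cancel₀ _ hL.ne']
  have h4 : ∑ j ∈ Finset.range N, ν j 0 = n 0 := by
    simp only [hν]
    rw [sum_floor hN, zero_mul]
  rw [h3, h4] at h2
  exact h2

lemma sturm0 {ρ M C c B : ℝ} {H : ℝ → ℝ} {n : ℝ → ℕ} (hκ : 0 < κ) (hρ : ρ < 2 * κ)
    (hρ0 : 0 ≤ ρ) (hM0 : 0 ≤ M)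
    (hm : Measurable H) (he : ∀ x, H (-x) = H x) (hB : ∀ x, |H x| ≤ B * (1 + x ^ 2))
    (hn : Monotone n) (hd : ∀ x y, x ≤ y → (n y : ℝ) ≤ n x + ρ * (y - x) + M)
    (hC : 0 ≤ C) (hc : 0 < c)
    (hl : ∀ᵐ x, -(C * Real.exp (-(c * |x|))) ≤ (-1) ^ n |x| * H x)
    (hz : ∀ K, TK κ K → ∫ x, H x * ct K x = 0) : ∀ᵐ x, H x = 0 := by
  have hB0 : 0 ≤ B := by
    have := (abs_nonneg _).trans (hB 0)
    simpa using this
  -- the length
  obtain ⟨L, hL1, hLM⟩ : ∃ L : ℝ, 1 ≤ L ∧ M + 2 ≤ (2 * κ - ρ) * L := by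
    have h1 : 0 < 2 * κ - ρ := by linarith
    refine ⟨max 1 ((M + 2) / (2 * κ - ρ)), le_max_left _ _, ?_⟩
    have h3 : (M + 2) / (2 * κ - ρ) ≤ max 1 ((M + 2) / (2 * κ - ρ)) := le_max_right _ _
    rw [div_le_iff₀ h1] at h3
    linarith
  have hL0 : 0 < L := by linarith
  have hρL : 0 ≤ ρ * L := by positivity
  set N : ℕ := ⌈ρ * L + M⌉₊ + 1 with hN
  have hN1 : 0 < N := Nat.succ_pos _
  have hNr : (N : ℝ) < ρ * L + M + 2 := by
    rw [hN]
    push_cast
    have := Nat.ceil_lt_add_one (a := ρ * L + M) (by positivity)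
    linarith
  have hNl : ρ * L + M ≤ N := by
    rw [hN]
    push_cast
    have := Nat.le_ceil (ρ * L + M)
    linarith
  have hN2 : (N : ℝ) / (2 * L) < κ := by
    rw [div_lt_iff₀ (by positivity)]
    nlinarith
  -- normalisation near the origin
  set n' : ℝ → ℕ := fun x => n (max x L) with hn'
  have hn'm : Monotone n' := fun x y hxy => hn (max_le_max_right L hxy)
  have hn's : ∀ x, n' (x + L) ≤ n' x + N := by
    intro x
    simp only [hn']
    have h1 : max (x + L) L ≤ max x L + L := by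
      refine max_le ?_ ?_
      · linarith [le_max_left x L]
      · linarith [le_max_right x L]
    have h2 : max x L ≤ max (x + L) L := max_le_max_right L (by linarith)
    have h3 := hd _ _ h2
    have h4 : (n (max (x + L) L) : ℝ) ≤ n (max x L) + N := by
      have : ρ * (max (x + L) L - max x L) ≤ ρ * L := mul_le_mul_of_nonneg_left (by linarith) hρ0
      linarith
    exact_mod_cast h4
  have hn'0 : n' L = n' 0 := by
    simp only [hn']
    rw [max_self, max_eq_right hL0.le]
  obtain ⟨y, hy, hsgn⟩ := family hL0 hN1 hn'm hn'0 hn's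
  have hn'v : ∀ x, L ≤ x → n' x = n x := fun x hx => by simp only [hn']; rw [max_eq_left hx]
  set κ' : ℝ := (κ - N / (2 * L)) / 2 with hκ'
  have hκ'0 : 0 < κ' := by rw [hκ']; linarith
  have hκe : 2 * κ' + N / (2 * L) ≤ κ := by rw [hκ']; linarith
  obtain ⟨W, hW, hW0, hW1, hW2⟩ := exists_pos hκ'0
  set s : ℝ := (-1) ^ n' 0 with hs
  have hs1 : |s| = 1 := by rw [hs, abs_pow, abs_neg, abs_one, one_pow]
  -- one step for every dilation
  have step : ∀ k : ℕ, ∀ᵐ x, H x * (GG y N (x / L) * ct W (1 / ((k : ℝ) + 1) * x)) = 0 := by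
    intro k
    have hε : (0 : ℝ) < 1 / ((k : ℝ) + 1) := by positivity
    have hε1 : 1 / ((k : ℝ) + 1) ≤ 1 := by
      rw [div_le_one (by positivity)]
      have : (0 : ℝ) ≤ k := Nat.cast_nonneg k
      linarith
    set ε : ℝ := 1 / ((k : ℝ) + 1) with hεd
    have hWk : TK κ' (fun α => ε⁻¹ * W (ε⁻¹ * α)) := (hW.dil hε).mono (by nlinarith)
    have hv : ∀ x, ct (fun α => ε⁻¹ * W (ε⁻¹ * α)) x = ct W (ε * x) := fun x => TK.ct_dil W hε x
    obtain ⟨D, hD0, hD⟩ := hWk.decay (5 * N)
    -- bound for the multiplier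
    set Cg : ℝ := 25 ^ N * D with hCg
    have hCg0 : 0 ≤ Cg := by positivity
    have hgb : ∀ᵐ x, |GG y N (x / L) * ct W (ε * x)| ≤ Cg := by
      filter_upwards [ae_good hL0 y] with x hx
      rw [abs_mul, ← hv]
      have h1 : (25 * (1 + (x / L) ^ 2) ^ 5) ^ N ≤ 25 ^ N * (1 + x ^ 2) ^ (5 * N) := by
        rw [mul_pow, ← pow_mul]
        refine mul_le_mul_of_nonneg_left ?_ (by positivity)
        refine pow_le_pow_left₀ (by positivity) ?_ _
        have : (x / L) ^ 2 ≤ x ^ 2 := by
          rw [div_pow]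
          exact div_le_self (sq_nonneg _) (one_le_pow₀ hL1)
        linarith
      have h2 := (GG_bound hy N hx.1).trans h1
      calc |GG y N (x / L)| * |ct (fun α => ε⁻¹ * W (ε⁻¹ * α)) x| ≤
            (25 ^ N * (1 + x ^ 2) ^ (5 * N)) * (D / (1 + x ^ 2) ^ (5 * N)) :=
            mul_le_mul h2 (hD x) (abs_nonneg _) (by positivity)
        _ = Cg := by
          rw [hCg]
          field_simp
    set C' : ℝ := C * Cg + B * (1 + L ^ 2) * Cg * Real.exp (c * L) with hC'
    have hC'0 : 0 ≤ C' := by rw [hC']; positivity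
    have key := core (C := C') (c := c) (s := s) hL1 hy hκ'0 hWk hκe hm he hB hs1 hC'0 hc ?_ hz
    · filter_upwards [key] with x hx
      rw [← hv]
      exact hx
    · filter_upwards [hl, hgb] with x h1 h2
      rw [hv]
      set g : ℝ := GG y N (x / L) * ct W (ε * x) with hg
      have hexp := Real.exp_pos (-(c * |x|))
      rcases le_or_gt L |x| with h3 | h3
      · -- the sign
        have h4 : 0 ≤ (-1 : ℝ) ^ (n |x| + n' 0) * g := by
          have h5 := hsgn |x| (abs_nonneg x)
          rw [hn'v _ h3] at h5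
          have h6 : GG y N (|x| / L) = GG y N (x / L) := by
            rcases abs_cases x with ⟨h, _⟩ | ⟨h, _⟩
            · rw [h]
            · rw [h, neg_div, GG_neg hy]
          rw [h6] at h5
          rw [hg, ← mul_assoc]
          exact mul_nonneg h5 (hW0 _)
        have h5 : s * H x * g = ((-1 : ℝ) ^ n |x| * H x) * ((-1 : ℝ) ^ (n |x| + n' 0) * g) := by
          have h6 : ((-1 : ℝ) ^ n |x|) * (-1) ^ n |x| = 1 := by
            rw [← mul_pow]
            simp
          rw [pow_add, ← hs]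
          calc s * H x * g = (((-1 : ℝ) ^ n |x|) * (-1) ^ n |x|) * (s * H x * g) := by
                rw [h6, one_mul]
            _ = _ := by ring
        have h6 : (-1 : ℝ) ^ (n |x| + n' 0) * g ≤ Cg := by
          refine (le_abs_self _).trans ?_
          rw [abs_mul, abs_pow, abs_neg, abs_one, one_pow, one_mul]
          exact h2
        rw [h5]
        have h7 : -(C * Real.exp (-(c * |x|))) * ((-1 : ℝ) ^ (n |x| + n' 0) * g) ≤
            ((-1 : ℝ) ^ n |x| * H x) * ((-1 : ℝ) ^ (n |x| + n' 0) * g) :=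
          mul_le_mul_of_nonneg_right h1 h4
        refine le_trans ?_ h7
        have h8 : C * Real.exp (-(c * |x|)) * ((-1 : ℝ) ^ (n |x| + n' 0) * g) ≤
            C * Real.exp (-(c * |x|)) * Cg := mul_le_mul_of_nonneg_left h6 (by positivity)
        have h9 : 0 ≤ B * (1 + L ^ 2) * Cg * Real.exp (c * L) * Real.exp (-(c * |x|)) := by
          positivity
        rw [hC']
        nlinarith
      · have h4 : |s * H x * g| ≤ B * (1 + L ^ 2) * Cg := by
          rw [abs_mul, abs_mul, hs1, one_mul]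
          have h5 : |H x| ≤ B * (1 + L ^ 2) := by
            refine (hB x).trans (mul_le_mul_of_nonneg_left ?_ hB0)
            rw [← sq_abs x]
            have := pow_le_pow_left₀ (abs_nonneg x) h3.le 2
            linarith
          exact mul_le_mul h5 h2 (abs_nonneg _) (by positivity)
        have h5 : 1 ≤ Real.exp (c * L) * Real.exp (-(c * |x|)) := by
          rw [← Real.exp_add]
          refine Real.one_le_exp ?_
          nlinarith
        have h6 : B * (1 + L ^ 2) * Cg * 1 ≤ B * (1 + L ^ 2) * Cg * (Real.exp (c * L) *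
            Real.exp (-(c * |x|))) := mul_le_mul_of_nonneg_left h5 (by positivity)
        have h7 : 0 ≤ C * Cg * Real.exp (-(c * |x|)) := by positivity
        have h8 := (abs_le.1 h4).1
        rw [hC']
        nlinarith
  filter_upwards [ae_all_iff.2 step, ae_good hL0 y] with x hx hgood
  have hG : GG y N (x / L) ≠ 0 := by
    unfold GG
    rw [Finset.prod_ne_zero_iff]
    exact fun j _ => F_ne_zero (hy j) (hgood.2 j)
  have h1 : ∀ k : ℕ, H x * ct W (1 / ((k : ℝ) + 1) * x) = 0 := by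
    intro k
    have h2 := hx k
    have h3 : GG y N (x / L) * (H x * ct W (1 / ((k : ℝ) + 1) * x)) = 0 := by
      rw [← h2]
      ring
    exact (mul_eq_zero.1 h3).resolve_left hG
  have h2 : Tendsto (fun k : ℕ => H x * ct W (1 / ((k : ℝ) + 1) * x)) atTop
      (𝓝 (H x * ct W (0 * x))) := by
    refine Tendsto.const_mul _ ?_
    refine (hW.ct_cont.tendsto _).comp ?_
    exact tendsto_one_div_add_atTop_nhds_zero_nat.mul_const x
  simp_rw [h1] at h2
  have h3 := tendsto_nhds_unique h2 tendsto_const_nhds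
  rw [zero_mul] at h3
  exact (mul_eq_zero.1 h3).resolve_right hW1.ne'

/-- **Sturm–Hurwitz theorem.** -/
theorem sturm {ρ M C c B : ℝ} {H : ℝ → ℝ} {n : ℝ → ℕ} (hκ : 0 < κ) (hρ : ρ < 2 * κ)
    (hm : Measurable H) (he : ∀ x, H (-x) = H x) (hB : ∀ x, |H x| ≤ B * (1 + x ^ 2))
    (hn : Monotone n) (hd : ∀ x y, x ≤ y → (n y : ℝ) ≤ n x + ρ * (y - x) + M)
    (hC : 0 ≤ C) (hc : 0 < c)
    (hl : ∀ᵐ x, -(C * Real.exp (-(c * |x|))) ≤ (-1) ^ n |x| * H x)
    (hz : ∀ K, TK κ K → ∫ x, H x * ct K x = 0) : ∀ᵐ x, H x = 0 := by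
  refine sturm0 (ρ := max ρ 0) (M := max M 0) hκ (max_lt hρ (by linarith)) (le_max_right _ _)
    (le_max_right _ _) hm he hB hn (fun x y hxy => ?_) hC hc hl hz
  refine (hd x y hxy).trans ?_
  have h1 : ρ * (y - x) ≤ max ρ 0 * (y - x) :=
    mul_le_mul_of_nonneg_right (le_max_left _ _) (by linarith)
  linarith [le_max_left M 0]

end Q70.Osc
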