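import Pool.Agent.Q70.OscE
import Pool.Agent.Q241.HF.Abs

/-! # Rigidity from few oscillations -/

set_option autoImplicit false

open MeasureTheory Filter Topology Real

namespace Q70.Osc

open Pool.Agent.Y744 Q241.HF

/-! ### alternations of a function -/

section Alt

variable {E b : ℝ → ℝ} {ρ M : ℝ}

/-- `m` alternations of `E` with amplitude more than `b` at positive points up to `x`, beginning
with a positive value -/
def Ch (E b : ℝ → ℝ) (x : ℝ) (m : ℕ) : Prop :=
  ∃ β : ℕ → ℝ, 0 < β 0 ∧ (∀ i, i + 1 < m → β i < β (i + 1)) ∧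
    ∀ i, i < m → β i ≤ x ∧ b (β i) < (-1) ^ i * E (β i)

/-- few alternations -/
def FewE (E b : ℝ → ℝ) (ρ M : ℝ) : Prop :=
  ∀ (m : ℕ) (β : ℕ → ℝ) (s : ℝ), s = 1 ∨ s = -1 → 0 < β 0 → (∀ i, i < m → β i < β (i + 1)) →
    ρ * (β m - β 0) + M < m → ∃ i, i ≤ m ∧ s * (-1) ^ i * E (β i) ≤ b (β i)

lemma chain_mono {β : ℕ → ℝ} {m : ℕ} (h : ∀ i, i + 1 < m → β i < β (i + 1)) {i j : ℕ}
    (hij : i ≤ j) (hj : j < m) : β i ≤ β j := by
  induction j, hij using Nat.le_induction with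
  | base => exact le_rfl
  | succ k hk ih => exact (ih (by omega)).trans (h k hj).le

lemma few_len (hF : FewE E b ρ M) {β : ℕ → ℝ} {q m : ℕ} (hqm : q < m) (h0 : 0 < β q)
    (h1 : ∀ i, q ≤ i → i + 1 < m → β i < β (i + 1))
    (h2 : ∀ i, q ≤ i → i < m → b (β i) < (-1) ^ i * E (β i)) :
    (m : ℝ) ≤ q + 1 + ρ * (β (m - 1) - β q) + M := by
  by_contra hcon
  push Not at hcon
  obtain ⟨r, rfl⟩ := Nat.exists_eq_add_of_lt hqm
  have hs : ((-1 : ℝ)) ^ q = 1 ∨ (-1 : ℝ) ^ q = -1 := neg_one_pow_eq_or ℝ q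
  have e1 : q + r + 1 - 1 = q + r := by omega
  rw [e1] at hcon
  push_cast at hcon
  obtain ⟨i, hi, hle⟩ := hF r (fun i => β (q + i)) ((-1) ^ q) hs (by simpa using h0)
    (fun i hi => by
      have := h1 (q + i) (by omega) (by omega)
      rwa [add_assoc] at this) (by
      show ρ * (β (q + r) - β (q + 0)) + M < r
      rw [add_zero]
      linarith)
  have h3 := h2 (q + i) (by omega) (by omega)
  rw [pow_add] at h3
  have hle' : (-1 : ℝ) ^ q * (-1) ^ i * E (β (q + i)) ≤ b (β (q + i)) := hle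
  linarith

/-- the maximal number of alternations -/
noncomputable def cnt (E b : ℝ → ℝ) (x : ℝ) : ℕ := sSup {m | Ch E b x m}

lemma ch_zero (x : ℝ) : Ch E b x 0 := ⟨fun _ => 1, one_pos, fun i hi => by omega,
  fun i hi => by omega⟩

lemma ch_bdd (hρ : 0 ≤ ρ) (hM : 0 ≤ M) (hF : FewE E b ρ M) (x : ℝ) :
    BddAbove {m | Ch E b x m} := by
  obtain ⟨B, hB⟩ := exists_nat_ge (1 + ρ * |x| + M)
  refine ⟨B, fun m hm => ?_⟩
  obtain ⟨β, h0, h1, h2⟩ := hm
  rcases Nat.eq_zero_or_pos m with rfl | hpos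
  · exact Nat.zero_le _
  have h3 := few_len hF (q := 0) hpos h0 (fun i _ hi => h1 i hi) (fun i _ hi => (h2 i hi).2)
  have h4 := (h2 (m - 1) (by omega)).1
  have h5 : ρ * (β (m - 1) - β 0) ≤ ρ * |x| :=
    mul_le_mul_of_nonneg_left (by linarith [le_abs_self x]) hρ
  push_cast at h3
  have h6 : (m : ℝ) ≤ B := by linarith
  exact_mod_cast h6

lemma cnt_ch (hρ : 0 ≤ ρ) (hM : 0 ≤ M) (hF : FewE E b ρ M) (x : ℝ) : Ch E b x (cnt E b x) :=
  Nat.sSup_mem ⟨0, ch_zero x⟩ (ch_bdd hρ hM hF x)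

lemma le_cnt (hρ : 0 ≤ ρ) (hM : 0 ≤ M) (hF : FewE E b ρ M) {x : ℝ} {m : ℕ} (h : Ch E b x m) :
    m ≤ cnt E b x := le_csSup (ch_bdd hρ hM hF x) h

lemma cnt_mono (hρ : 0 ≤ ρ) (hM : 0 ≤ M) (hF : FewE E b ρ M) : Monotone (cnt E b) := by
  intro x y hxy
  obtain ⟨β, h0, h1, h2⟩ := cnt_ch hρ hM hF x
  exact le_cnt hρ hM hF ⟨β, h0, h1, fun i hi => ⟨(h2 i hi).1.trans hxy, (h2 i hi).2⟩⟩

lemma cnt_dens (hρ : 0 ≤ ρ) (hM : 0 ≤ M) (hF : FewE E b ρ M) {x y : ℝ} (hxy : x ≤ y) :
    (cnt E b y : ℝ) ≤ cnt E b x + ρ * (y - x) + (M + 1) := by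
  classical
  obtain ⟨β, h0, h1, h2⟩ := cnt_ch hρ hM hF y
  set m := cnt E b y with hm
  have hpos : 0 ≤ ρ * (y - x) := mul_nonneg hρ (by linarith)
  by_cases hall : ∀ i, i < m → β i ≤ x
  · have h3 : m ≤ cnt E b x := le_cnt hρ hM hF ⟨β, h0, h1, fun i hi => ⟨hall i hi, (h2 i hi).2⟩⟩
    have h4 : (m : ℝ) ≤ cnt E b x := by exact_mod_cast h3
    linarith
  · push Not at hall
    obtain ⟨q, hq, hmin⟩ : ∃ q, (q < m ∧ x < β q) ∧ ∀ j, j < q → ¬ (j < m ∧ x < β j) :=
      ⟨Nat.find hall, Nat.find_spec hall, fun j hj => Nat.find_min hall hj⟩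
    have h3 : q ≤ cnt E b x := by
      refine le_cnt hρ hM hF ⟨β, h0, fun i hi => h1 i (by omega), fun i hi => ⟨?_, (h2 i (by
        omega)).2⟩⟩
      by_contra hc
      push Not at hc
      exact hmin i hi ⟨by omega, hc⟩
    have hβq : 0 < β q := h0.trans_le (chain_mono h1 (Nat.zero_le _) hq.1)
    have h4 := few_len hF hq.1 hβq (fun i _ hi => h1 i hi) (fun i _ hi => (h2 i hi).2)
    have h5 := (h2 (m - 1) (by omega)).1
    have h6 : ρ * (β (m - 1) - β q) ≤ ρ * (y - x) :=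
      mul_le_mul_of_nonneg_left (by linarith [hq.2]) hρ
    have h7 : (q : ℝ) ≤ cnt E b x := by exact_mod_cast h3
    linarith

lemma cnt_sign (hρ : 0 ≤ ρ) (hM : 0 ≤ M) (hF : FewE E b ρ M) (hb : ∀ x, 0 ≤ b x) {x : ℝ}
    (hx : 0 < x) : (-1) ^ cnt E b x * E x ≤ b x := by
  by_contra hcon
  push Not at hcon
  obtain ⟨β, h0, h1, h2⟩ := cnt_ch hρ hM hF x
  set m := cnt E b x with hm
  have hext : Ch E b x (m + 1) := by
    rcases Nat.eq_zero_or_pos m with h | hpos
    · refine ⟨fun _ => x, hx, fun i hi => by omega, fun i hi => ⟨le_rfl, ?_⟩⟩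
      have : i = m := by omega
      rw [this]
      exact hcon
    · have hlast := h2 (m - 1) (by omega)
      have hne : β (m - 1) ≠ x := by
        intro h
        rw [h] at hlast
        have h3 : (-1 : ℝ) ^ m = -(-1) ^ (m - 1) := by
          obtain ⟨k, hk⟩ : ∃ k, m = k + 1 := ⟨m - 1, by omega⟩
          rw [hk, pow_succ, Nat.add_sub_cancel]
          ring
        rw [h3] at hcon
        have := hb x
        linarith [hlast.2]
      have hlt : β (m - 1) < x := lt_of_le_of_ne hlast.1 hne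
      refine ⟨fun i => if i < m then β i else x, ?_, fun i hi => ?_, fun i hi => ?_⟩
      · show 0 < if 0 < m then β 0 else x
        rw [if_pos hpos]
        exact h0
      · show (if i < m then β i else x) < if i + 1 < m then β (i + 1) else x
        rw [if_pos (by omega : i < m)]
        by_cases h3 : i + 1 < m
        · rw [if_pos h3]
          exact h1 i h3
        · rw [if_neg h3]
          have : i = m - 1 := by omega
          rw [this]
          exact hlt
      · show (if i < m then β i else x) ≤ x ∧ b (if i < m then β i else x) <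
          (-1) ^ i * E (if i < m then β i else x)
        by_cases h3 : i < m
        · rw [if_pos h3]
          exact h2 i h3
        · rw [if_neg h3]
          have : i = m := by omega
          rw [this]
          exact ⟨le_rfl, hcon⟩
  have := le_cnt hρ hM hF hext
  omega

lemma few_weak {ρ' M' : ℝ} (h1 : ρ ≤ ρ') (h2 : M ≤ M') (hF : FewE E b ρ M) :
    FewE E b ρ' M' := by
  intro m β s hs h0 hinc hlt
  refine hF m β s hs h0 hinc (lt_of_le_of_lt ?_ hlt)
  have h3 : β 0 ≤ β m := chain_mono (m := m + 1) (fun i hi => hinc i (by omega)) (Nat.zero_le _)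
    (by omega)
  have := mul_le_mul_of_nonneg_right h1 (sub_nonneg.2 h3)
  linarith

end Alt

variable {A' : ℝ → ℝ} {C0 κ : ℝ}

lemma zeroO (hκ : 0 < κ) (hA' : Monotone A')
    (hneg : ∀ y, y < 0 → A' y = 0) (hb : ∀ y, |A' y| ≤ C0 * (1 + |y|))
    (hm : ∀ K, TK κ K → ∀ h, 0 < h →
      ∫ y, A' y * (ct K (y + h) - ct K (y - h)) = ∫ y, AG y * (ct K (y + h) - ct K (y - h)))
    {C c ρ M : ℝ} (hC : 0 ≤ C) (hc : 0 < c) (hρ : ρ < 2 * κ)
    (hF : FewE (fun y => A' y - AG y) (fun y => C * Real.exp (-(c * y))) ρ M) :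
    ∀ᵐ x, dE A' x = 0 := by
  have hC0 : 0 ≤ C0 := by
    have := (abs_nonneg _).trans (hb 0)
    simpa using this
  have hb2 : ∀ y, |A' y| ≤ (2 * C0) * (1 + y ^ 2) := by
    intro y
    refine (hb y).trans ?_
    have h1 : 1 + |y| ≤ 2 * (1 + y ^ 2) := by
      have := sq_abs y
      nlinarith [sq_nonneg (|y| - 1), abs_nonneg y]
    nlinarith
  have hEm := dE_meas hA'
  have hEb := dE_lin hb
  set H : ℝ → ℝ := fun y => -(y * dE A' y) with hH
  have hHm : Measurable H := (measurable_id.mul hEm).neg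
  have hHe : ∀ y, H (-y) = H y := by
    intro y
    simp only [hH]
    rw [dE_odd]
    ring
  set B : ℝ := 2 * (2 * C0 + 4) with hB
  have hHb : ∀ y, |H y| ≤ B * (1 + y ^ 2) := by
    intro y
    simp only [hH]
    rw [abs_neg, abs_mul]
    have h1 : |y| * (1 + |y|) ≤ 2 * (1 + y ^ 2) := by
      have := sq_abs y
      nlinarith [sq_nonneg (|y| - 1), abs_nonneg y]
    calc |y| * |dE A' y| ≤ |y| * ((2 * C0 + 4) * (1 + |y|)) :=
          mul_le_mul_of_nonneg_left (hEb y) (abs_nonneg _)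
      _ = (2 * C0 + 4) * (|y| * (1 + |y|)) := by ring
      _ ≤ (2 * C0 + 4) * (2 * (1 + y ^ 2)) := mul_le_mul_of_nonneg_left h1 (by positivity)
      _ = B * (1 + y ^ 2) := by rw [hB]; ring
  have hF' := few_weak (le_max_left ρ 0) (le_max_left M 0) hF
  have hρ0 : 0 ≤ max ρ 0 := le_max_right _ _
  have hM0 : 0 ≤ max M 0 := le_max_right _ _
  have hbn : ∀ y : ℝ, 0 ≤ C * Real.exp (-(c * y)) := fun y => by positivity
  have hz : ∀ K, TK κ K → ∫ y, H y * ct K y = 0 := by
    intro K hK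
    have h1 := mul_annih hK hEm (dE_bound hb2) fun L hL h hh => annih' hL hA' hb2 h (hm L hL h hh)
    have h2 : ∫ y, H y * ct K y = -∫ y, (y * dE A' y) * ct K y := by
      rw [← integral_neg]
      refine integral_congr_ae (Eventually.of_forall fun y => ?_)
      show -(y * dE A' y) * ct K y = _
      ring
    rw [h2, h1, neg_zero]
  have hne : ∀ᵐ x : ℝ, x ≠ 0 := by
    rw [ae_iff]
    simp
  have hfin := sturm (n := cnt (fun y => A' y - AG y) (fun y => C * Real.exp (-(c * y))))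
    (ρ := max ρ 0) (M := max M 0 + 1) (C := 2 * C / c) (c := c / 2) hκ
    (max_lt hρ (by linarith)) hHm hHe hHb (cnt_mono hρ0 hM0 hF')
    (fun x y hxy => cnt_dens hρ0 hM0 hF' hxy) (by positivity) (by positivity) ?_ hz
  · filter_upwards [hfin, hne] with y hy hy0
    have h1 : y * dE A' y = 0 := by
      have : -(y * dE A' y) = 0 := hy
      linarith
    exact (mul_eq_zero.1 h1).resolve_left hy0
  · filter_upwards [hne] with y hy
    have hy0 : 0 < |y| := abs_pos.2 hy
    have h1 := cnt_sign hρ0 hM0 hF' hbn hy0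
    have h2 : H y = -(|y| * (A' |y| - AG |y|)) := by
      have h3 : H y = H |y| := by
        rcases abs_cases y with ⟨h, _⟩ | ⟨h, _⟩
        · rw [h]
        · rw [h, hHe]
      rw [h3]
      simp only [hH]
      rw [dE_pos hneg hy0]
    rw [h2]
    have h3 : |y| * (C * Real.exp (-(c * |y|))) ≤ 2 * C / c * Real.exp (-(c / 2 * |y|)) := by
      have e1 : Real.exp (-(c * |y|)) = Real.exp (-(c / 2 * |y|)) * Real.exp (-(c / 2 * |y|)) := by
        rw [← Real.exp_add]
        congr 1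
        ring
      have e2 : |y| * Real.exp (-(c / 2 * |y|)) ≤ 2 / c := by
        have h4 := Real.add_one_le_exp (c / 2 * |y|)
        rw [Real.exp_neg, ← div_eq_mul_inv, div_le_div_iff₀ (Real.exp_pos _) hc]
        nlinarith
      rw [e1]
      have h5 : 0 ≤ C * Real.exp (-(c / 2 * |y|)) := by positivity
      have h6 := mul_le_mul_of_nonneg_right e2 h5
      calc |y| * (C * (Real.exp (-(c / 2 * |y|)) * Real.exp (-(c / 2 * |y|)))) =
          |y| * Real.exp (-(c / 2 * |y|)) * (C * Real.exp (-(c / 2 * |y|))) := by ring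
        _ ≤ 2 / c * (C * Real.exp (-(c / 2 * |y|))) := h6
        _ = _ := by ring
    have h4 := mul_le_mul_of_nonneg_left h1 hy0.le
    have h5 : (-1 : ℝ) ^ cnt (fun y => A' y - AG y) (fun y => C * Real.exp (-(c * y))) |y| *
        -(|y| * (A' |y| - AG |y|)) = -(|y| * ((-1 : ℝ) ^ cnt (fun y => A' y - AG y)
          (fun y => C * Real.exp (-(c * y))) |y| * (A' |y| - AG |y|))) := by ring
    rw [h5]
    linarith

/-- few oscillations of the discrepancy along a filter -/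
def FewT (l : Filter ℝ) (D : ℝ → ℝ → ℝ) (ρ M C c : ℝ) : Prop :=
  ∀ (m : ℕ) (β : ℕ → ℝ) (s : ℝ), s = 1 ∨ s = -1 → 0 < β 0 → (∀ i, i < m → β i < β (i + 1)) →
    ρ * (β m - β 0) + M < m → ∀ ε : ℝ, 0 < ε → ∀ᶠ T in l, ∃ i, i ≤ m ∧
      s * (-1) ^ i * D T (β i) < C * Real.exp (-(c * β i)) + ε

theorem rigidO {A : ℝ → ℝ → ℝ} {T0 C0 κ : ℝ} (hκ : 0 < κ) (hmono : ∀ T, T0 ≤ T → Monotone (A T))
    (hneg : ∀ T y, y < 0 → A T y = 0) (hb : ∀ T, T0 ≤ T → ∀ y, |A T y| ≤ C0 * (1 + |y|))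
    (hdiag : ∀ ε, 0 < ε → ∀ᶠ T in atTop, 1 - ε ≤ A T 0)
    (hmont : ∀ K, TK κ K → ∀ h, 0 < h →
      Tendsto (fun T => ∫ y, A T y * (ct K (y + h) - ct K (y - h))) atTop
        (𝓝 (∫ y, AG y * (ct K (y + h) - ct K (y - h)))))
    {l : Filter ℝ} (hl : l ≤ atTop) {C c ρ M : ℝ}
    (hC : 0 ≤ C) (hc : 0 < c) (hρ : ρ < 2 * κ)
    (hyp : FewT l (fun T a => A T a - (1 + 2 * gp a)) ρ M C c) :
    ∀ x, Tendsto (fun T => A T x) l (𝓝 (AG x)) := by
  intro x
  rw [tendsto_iff_ultrafilter]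
  intro g hg
  have hgt : (g : Filter ℝ) ≤ atTop := hg.trans hl
  have hT : ∀ᶠ T in (g : Filter ℝ), T0 ≤ T := hgt (eventually_ge_atTop _)
  have hC0 : 0 ≤ C0 := by
    have := (abs_nonneg _).trans (hb T0 le_rfl 0)
    simpa using this
  have hb2 : ∀ T, T0 ≤ T → ∀ y, |A T y| ≤ (2 * C0) * (1 + y ^ 2) := by
    intro T hT y
    refine (hb T hT y).trans ?_
    have h1 : 1 + |y| ≤ 2 * (1 + y ^ 2) := by
      have := sq_abs y
      nlinarith [sq_nonneg (|y| - 1), abs_nonneg y]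
    nlinarith
  have hex : ∀ y, ∃ L, Tendsto (fun T => A T y) (g : Filter ℝ) (𝓝 L) := by
    intro y
    have h1 : ((g.map fun T => A T y : Ultrafilter ℝ) : Filter ℝ) ≤
        𝓟 (Set.Icc (-(C0 * (1 + |y|))) (C0 * (1 + |y|))) := by
      rw [le_principal_iff]
      have h2 : ∀ᶠ T in (g : Filter ℝ), A T y ∈
          Set.Icc (-(C0 * (1 + |y|))) (C0 * (1 + |y|)) := by
        filter_upwards [hT] with T hT1
        exact abs_le.1 (hb T hT1 y)
      exact h2
    obtain ⟨L, _, hL⟩ := isCompact_Icc.ultrafilter_le_nhds _ h1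
    exact ⟨L, hL⟩
  choose A' hlim using hex
  have hA' : Monotone A' := by
    intro a b hab
    refine le_of_tendsto_of_tendsto (hlim a) (hlim b) ?_
    filter_upwards [hT] with T hT1 using hmono T hT1 hab
  have hneg' : ∀ y, y < 0 → A' y = 0 := by
    intro y hy
    refine tendsto_nhds_unique (hlim y) ?_
    have : (fun T => A T y) = fun _ => 0 := funext fun T => hneg T y hy
    rw [this]
    exact tendsto_const_nhds
  have hb' : ∀ y, |A' y| ≤ C0 * (1 + |y|) := by
    intro y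
    refine le_of_tendsto (hlim y).abs ?_
    filter_upwards [hT] with T hT1 using hb T hT1 y
  have h0 : 1 ≤ A' 0 := by
    refine le_of_forall_pos_le_add fun ε hε => ?_
    have h1 : ∀ᶠ T in (g : Filter ℝ), 1 - ε ≤ A T 0 := hgt (hdiag ε hε)
    have := ge_of_tendsto (hlim 0) h1
    linarith
  have hm : ∀ K, TK κ K → ∀ h, 0 < h →
      ∫ y, A' y * (ct K (y + h) - ct K (y - h)) = ∫ y, AG y * (ct K (y + h) - ct K (y - h)) := by
    intro K hK h hh
    obtain ⟨D, hD⟩ := test_decay hK h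
    refine lim_int hmono hb2 ?_ hD (hmont K hK h hh) hgt hA' hlim
    exact (hK.ct_cont.measurable.comp (by fun_prop)).sub (hK.ct_cont.measurable.comp (by fun_prop))
  have hfew : FewE (fun y => A' y - AG y) (fun y => C * Real.exp (-(c * y))) ρ M := by
    intro m β s hs hβ0 hinc hlt
    by_contra hcon
    push Not at hcon
    have hβpos : ∀ i, i ≤ m → 0 < β i := fun i hi =>
      hβ0.trans_le (chain_mono (m := m + 1) (fun j hj => hinc j (by omega)) (Nat.zero_le _)
        (by omega))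
    -- a margin
    obtain ⟨ε, hε, hmar⟩ : ∃ ε : ℝ, 0 < ε ∧ ∀ i, i ≤ m →
        C * Real.exp (-(c * β i)) + 2 * ε ≤ s * (-1) ^ i * (A' (β i) - AG (β i)) := by
      have h1 : ∀ i, i ≤ m → 0 < s * (-1) ^ i * (A' (β i) - AG (β i)) -
          C * Real.exp (-(c * β i)) := fun i hi => sub_pos.2 (hcon i hi)
      obtain ⟨j, hj, hmin⟩ := Finset.exists_min_image (Finset.range (m + 1))
        (fun i => s * (-1) ^ i * (A' (β i) - AG (β i)) - C * Real.exp (-(c * β i)))
        ⟨0, Finset.mem_range.2 (by omega)⟩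
      refine ⟨(s * (-1) ^ j * (A' (β j) - AG (β j)) - C * Real.exp (-(c * β j))) / 2,
        half_pos (h1 j (by have := Finset.mem_range.1 hj; omega)), fun i hi => ?_⟩
      have h2 := hmin i (Finset.mem_range.2 (by omega))
      have h3 : s * (-1) ^ j * (A' (β j) - AG (β j)) - C * Real.exp (-(c * β j)) ≤
        s * (-1) ^ i * (A' (β i) - AG (β i)) - C * Real.exp (-(c * β i)) := h2
      linarith
    have hev : ∀ᶠ T in (g : Filter ℝ), ∀ i ∈ Finset.range (m + 1),
        C * Real.exp (-(c * β i)) + ε ≤ s * (-1) ^ i * (A T (β i) - (1 + 2 * gp (β i))) := by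
      rw [Filter.eventually_all_finset]
      intro i hi
      have hi' : i ≤ m := by have := Finset.mem_range.1 hi; omega
      have h1 : Tendsto (fun T => s * (-1) ^ i * (A T (β i) - (1 + 2 * gp (β i)))) (g : Filter ℝ)
          (𝓝 (s * (-1) ^ i * (A' (β i) - AG (β i)))) := by
        have e : AG (β i) = 1 + 2 * gp (β i) := by
          unfold AG
          rw [if_neg (not_lt.2 (hβpos i hi').le)]
        rw [e]
        exact ((hlim (β i)).sub_const _).const_mul _
      have h2 := hmar i hi'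
      exact ((tendsto_order.1 h1).1 _ (by linarith :
        C * Real.exp (-(c * β i)) + ε < s * (-1) ^ i * (A' (β i) - AG (β i)))).mono
        fun T hT => hT.le
    obtain ⟨T, hT1, i, hi, hT2⟩ := (hev.and (hg (hyp m β s hs hβ0 hinc hlt ε hε))).exists
    have := hT1 i (Finset.mem_range.2 (by omega))
    linarith
  have hz := zeroO hκ hA' hneg' hb' hm hC hc hρ hfew
  have hb2' : ∀ y, |A' y| ≤ (2 * C0) * (1 + y ^ 2) := by
    intro y
    refine (hb' y).trans ?_
    have h1 : 1 + |y| ≤ 2 * (1 + y ^ 2) := by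
      have := sq_abs y
      nlinarith [sq_nonneg (|y| - 1), abs_nonneg y]
    nlinarith
  have per : ∀ ℓ : ℝ, ∀ᵐ x, dE A' (x + ℓ) = dE A' x := by
    intro ℓ
    have h2 := (measurePreserving_add_right (volume : Measure ℝ) ℓ).quasiMeasurePreserving.ae hz
    filter_upwards [hz, h2] with x hx1 hx2
    rw [hx1]
    exact hx2
  have hirr : Irrational (Real.sqrt 2 / 1) := by
    rw [div_one]
    exact irrational_sqrt_two
  have := limit_eq hA' hneg' hb2' h0 hirr (per _) (per _) x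
  rw [← this]
  exact hlim x

end Q70.Osc
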