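import Pool.Agent.Q70.OscF
import Pool.Agent.Q241.HF.Lin
import Pool.Agent.Y744.PCR.Glue

/-! # Few oscillations imply the pair correlation conjecture -/

set_option autoImplicit false

open MeasureTheory Filter Topology Real

namespace Q70.Osc

open Pool.Agent.Y744 Q241.HF

theorem osc_Aa (RH : RiemannHypothesis) {l : Filter ℝ} (hl : l ≤ atTop) {C c ρ M : ℝ}
    (hC : 0 ≤ C) (hc : 0 < c) (hρ : ρ < 2)
    (hyp : FewT l (fun T a => Aa T a - (1 + 2 * gp a)) ρ M C c) :
    ∀ x, Tendsto (fun T => Aa T x) l (𝓝 (AG x)) := by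
  obtain ⟨C0, T0, hT0, hb⟩ := Aa_linU
  set κ : ℝ := (max ρ 0 / 2 + 1) / 2 with hκ
  have hm0 : 0 ≤ max ρ 0 := le_max_right _ _
  have hm1 : ρ ≤ max ρ 0 := le_max_left _ _
  have hm2 : max ρ 0 < 2 := max_lt hρ (by norm_num)
  have hκ0 : 0 < κ := by rw [hκ]; positivity
  have hκ1 : κ < 1 := by rw [hκ]; linarith
  have hκρ : ρ < 2 * κ := by rw [hκ]; linarith
  refine rigidO (κ := κ) hκ0 (T0 := T0) (fun T hT => Aa_mono (by linarith))
    (fun T y hy => Aa_neg T y hy) hb (fun ε hε => Aa_diag hε) (fun K hK h hh => ?_)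
    hl hC hc hκρ hyp
  have h1 := (mont_lim RH (NTf_fav hK hκ0 hκ1 hh)).neg
  rw [AG_mont hK hκ1 hh]
  refine h1.congr fun T => ?_
  rw [Aa_int hK hh]
  rw [div_eq_inv_mul]

/-- the discrepancy -/
noncomputable def Disc (T β : ℝ) : ℝ := (G.N T (-β) β : ℝ) / G.X T - G.P (-β) β

lemma Disc_eq {T β : ℝ} (hT : 10 ≤ T) (hβ : 0 < β) : Disc T β = Aa T β - (1 + 2 * gp β) := by
  have hX := Xf_pos (V := T) (by linarith)
  unfold Disc
  rw [G.N_eq (by linarith), G.X_eq, G.P_eq]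
  have h1 : pr (-β) β = 1 + 2 * gp β := by
    unfold pr
    rw [gp_odd, Set.indicator_of_mem (show (0 : ℝ) ∈ Set.Icc (-β) β from ⟨by linarith, hβ.le⟩)]
    ring
  rw [h1]
  congr 1
  unfold Aa
  have e : Set.Icc (-β) β = {x : ℝ | |x| ≤ β} := by
    ext x
    rw [Set.mem_Icc]
    exact abs_le.symm
  rw [e]
  field_simp

lemma all_windows {l : Filter ℝ} (hl : l ≤ atTop)
    (h : ∀ x, Tendsto (fun T => Aa T x) l (𝓝 (AG x))) : G.Montgomery l := by
  rw [G.Mont_iff hl]
  exact fun α β hαβ => Nr_all hl h hαβ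

lemma Disc_lim {l : Filter ℝ} (hl : l ≤ atTop) (h : G.Montgomery l) {β : ℝ} (hβ : 0 < β) :
    Tendsto (fun T => Disc T β) l (𝓝 0) := by
  rw [G.Mont_iff hl] at h
  have h1 := (h (-β) β (by linarith)).sub_const (pr (-β) β)
  rw [sub_self] at h1
  refine h1.congr' ?_
  filter_upwards [hl (eventually_gt_atTop 1)] with T hT
  unfold Disc Nr
  rw [G.N_eq hT, G.X_eq, G.P_eq]

/-- few oscillations -/
def Few (l : Filter ℝ) (ρ M C c : ℝ) : Prop :=
  ∀ (m : ℕ) (β : ℕ → ℝ) (s : ℝ), (s = 1 ∨ s = -1) → 0 < β 0 → (∀ i, i < m → β i < β (i + 1)) →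
    ρ * (β m - β 0) + M < m → ∀ ε : ℝ, 0 < ε → ∀ᶠ T in l, ∃ i, i ≤ m ∧
      s * (-1) ^ i * Disc T (β i) < C * Real.exp (-(c * β i)) + ε

lemma Few_T {l : Filter ℝ} (hl : l ≤ atTop) {ρ M C c : ℝ} (h : Few l ρ M C c) :
    FewT l (fun T a => Aa T a - (1 + 2 * gp a)) ρ M (max C 0) c := by
  intro m β s hs h0 hinc hlt ε hε
  have hpos : ∀ i, i ≤ m → 0 < β i := fun i hi =>
    h0.trans_le (chain_mono (m := m + 1) (fun j hj => hinc j (by omega)) (Nat.zero_le _) (by omega))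
  filter_upwards [h m β s hs h0 hinc hlt ε hε, hl (eventually_ge_atTop 10)] with T h1 h2
  obtain ⟨i, hi, h3⟩ := h1
  refine ⟨i, hi, ?_⟩
  rw [Disc_eq h2 (hpos i hi)] at h3
  have h4 : C * Real.exp (-(c * β i)) ≤ max C 0 * Real.exp (-(c * β i)) :=
    mul_le_mul_of_nonneg_right (le_max_left _ _) (Real.exp_pos _).le
  show s * (-1) ^ i * (Aa T (β i) - (1 + 2 * gp (β i))) < _
  linarith

theorem main (RH : RiemannHypothesis) {l : Filter ℝ} (hl : l ≤ atTop) :
    (G.Montgomery l ↔ ∃ ρ M C c : ℝ, ρ < 2 ∧ 0 < c ∧ Few l ρ M C c) ∧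
    ∀ (n : ℝ → ℕ) (ρ M : ℝ), Monotone n → ρ < 2 →
      (∀ x y, 0 < x → x ≤ y → (n y : ℝ) ≤ n x + ρ * (y - x) + M) →
      (G.Montgomery l ↔ ∃ C c : ℝ, 0 < c ∧ ∀ β : ℝ, 0 < β → ∀ ε : ℝ, 0 < ε → ∀ᶠ T in l,
        (-1) ^ n β * Disc T β ≤ C * Real.exp (-(c * β)) + ε) := by
  have hback : (∃ ρ M C c : ℝ, ρ < 2 ∧ 0 < c ∧ Few l ρ M C c) → G.Montgomery l := by
    rintro ⟨ρ, M, C, c, hρ, hc, hF⟩
    exact all_windows hl (osc_Aa RH hl (le_max_right _ _) hc hρ (Few_T hl hF))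
  refine ⟨⟨fun h => ⟨0, 0, 0, 1, by norm_num, one_pos, ?_⟩, hback⟩,
    fun n ρ M hn hρ hd => ⟨fun h => ⟨0, 1, one_pos, fun β hβ ε hε => ?_⟩, ?_⟩⟩
  · intro m β s hs h0 hinc _ ε hε
    have h1 := (Disc_lim hl h h0).const_mul s
    rw [mul_zero] at h1
    filter_upwards [(tendsto_order.1 h1).2 ε hε] with T hT
    refine ⟨0, Nat.zero_le _, ?_⟩
    rw [pow_zero, mul_one, zero_mul, zero_add]
    exact hT
  · have h1 := (Disc_lim hl h hβ).const_mul ((-1) ^ n β)
    rw [mul_zero] at h1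
    filter_upwards [(tendsto_order.1 h1).2 ε hε] with T hT
    rw [zero_mul, zero_add]
    exact hT.le
  · rintro ⟨C, c, hc, hyp⟩
    refine hback ⟨ρ, M, max C 0, c, hρ, hc, ?_⟩
    intro m β s hs h0 hinc hlt ε hε
    have hpos : ∀ i, i ≤ m → 0 < β i := fun i hi =>
      h0.trans_le (chain_mono (m := m + 1) (fun j hj => hinc j (by omega)) (Nat.zero_le _)
        (by omega))
    have hev : ∀ᶠ T in l, ∀ i ∈ Finset.range (m + 1),
        (-1) ^ n (β i) * Disc T (β i) ≤ C * Real.exp (-(c * β i)) + ε / 2 := by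
      rw [Filter.eventually_all_finset]
      intro i hi
      have hi' : i ≤ m := by have := Finset.mem_range.1 hi; omega
      exact hyp (β i) (hpos i hi') (ε / 2) (by positivity)
    filter_upwards [hev] with T hT
    by_contra hcon
    push Not at hcon
    -- the parities alternate
    have hs1 : s * s = 1 := by rcases hs with rfl | rfl <;> norm_num
    have hpar : ∀ i, i ≤ m → (-1 : ℝ) ^ n (β i) = -(s * (-1) ^ i) := by
      intro i hi
      have h1 := hT i (Finset.mem_range.2 (by omega))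
      have h2 := hcon i hi
      have h3 : C * Real.exp (-(c * β i)) ≤ max C 0 * Real.exp (-(c * β i)) :=
        mul_le_mul_of_nonneg_right (le_max_left _ _) (Real.exp_pos _).le
      have h4 : (-1 : ℝ) ^ n (β i) = 1 ∨ (-1 : ℝ) ^ n (β i) = -1 := neg_one_pow_eq_or ℝ _
      have h5 : s * (-1 : ℝ) ^ i = 1 ∨ s * (-1 : ℝ) ^ i = -1 := by
        rcases neg_one_pow_eq_or ℝ i with h | h <;> rcases hs with h' | h' <;> rw [h, h'] <;>
          norm_num
      rcases h4 with h4 | h4 <;> rcases h5 with h5 | h5 <;> rw [h4] at h1 <;> rw [h5] at h2 <;>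
        rw [h4, h5]
      · linarith
      · norm_num
      · linarith
    have hstep : ∀ i, i < m → n (β i) + 1 ≤ n (β (i + 1)) := by
      intro i hi
      have h1 := hn (hinc i hi).le
      rcases h1.eq_or_lt with h2 | h2
      · exfalso
        have h3 := hpar i hi.le
        have h4 := hpar (i + 1) hi
        rw [← h2, h3, pow_succ] at h4
        have h5 : s * (-1 : ℝ) ^ i = 0 := by linarith
        have h6 : (-1 : ℝ) ^ i ≠ 0 := pow_ne_zero _ (by norm_num)
        rcases mul_eq_zero.1 h5 with h7 | h7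
        · rw [h7] at hs1
          norm_num at hs1
        · exact h6 h7
      · exact h2
    have hsum : ∀ i, i ≤ m → n (β 0) + i ≤ n (β i) := by
      intro i
      induction i with
      | zero => intro _; simp
      | succ i ih =>
        intro hi
        have h1 := ih (by omega)
        have h2 := hstep i (by omega)
        omega
    have h1 := hsum m le_rfl
    have h2 : β 0 ≤ β m := chain_mono (m := m + 1) (fun j hj => hinc j (by omega))
      (Nat.zero_le _) (by omega)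
    have h3 := hd (β 0) (β m) h0 h2
    have h4 : (n (β 0) : ℝ) + m ≤ n (β m) := by exact_mod_cast h1
    linarith

end Q70.Osc
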