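import Pool.Agent.Q70.OscD

/-! # One-signed on an interval implies exponentially small in the middle

A bounded even function with a spectral gap which is (almost) one-signed on `(a, (1 + c₀) a)` has
exponentially small mass in the middle of this interval. -/

set_option autoImplicit false

open MeasureTheory Filter Topology Real

namespace Q70.Osc

open Pool.Agent.Y744

variable {κ : ℝ} {K : ℝ → ℝ}

/-- powers -/
lemma powTK (h : TK κ K) (q : ℕ) : ∃ K', TK ((q + 1 : ℕ) * κ) K' ∧ ∀ x, ct K' x = ct K x ^ (q + 1) := by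
  induction q with
  | zero => exact ⟨K, by simpa using h, fun x => by simp⟩
  | succ q ih =>
    obtain ⟨K1, h1, h2⟩ := ih
    obtain ⟨K2, h3, h4⟩ := mulCt h1 h
    refine ⟨K2, ?_, fun x => ?_⟩
    · have e : ((q + 1 + 1 : ℕ) : ℝ) * κ = (q + 1 : ℕ) * κ + κ := by push_cast; ring
      rw [e]
      exact h3
    · rw [h4, h2, pow_succ _ (q + 1)]

/-- translations -/
lemma transTK (h : TK κ K) (m : ℝ) : ∃ K', TK κ K' ∧ ∀ x, ct K' x = ct K (x - m) + ct K (x + m) := by
  refine ⟨fun α => 2 * Real.cos (2 * π * m * α) * K α, ⟨?_, fun x => ?_, fun x hx => ?_⟩,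
    fun x => ?_⟩
  · have := h.smooth
    fun_prop
  · rw [h.even]
    congr 2
    rw [mul_neg, Real.cos_neg]
  · rw [h.supp x hx, mul_zero]
  · unfold ct
    rw [← integral_add (h.mul_int (by fun_prop)) (h.mul_int (by fun_prop))]
    refine integral_congr_ae (Eventually.of_forall fun α => ?_)
    show 2 * Real.cos (2 * π * m * α) * K α * Real.cos (2 * π * x * α) =
      K α * Real.cos (2 * π * (x - m) * α) + K α * Real.cos (2 * π * (x + m) * α)
    have e1 : 2 * π * (x - m) * α = 2 * π * x * α - 2 * π * m * α := by ring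
    have e2 : 2 * π * (x + m) * α = 2 * π * x * α + 2 * π * m * α := by ring
    rw [e1, e2, Real.cos_sub, Real.cos_add]
    ring

/-- a normalised nonnegative test function -/
lemma exists_phi (hκ : 0 < κ) : ∃ (P : ℝ → ℝ) (D : ℝ), TK κ P ∧ (∀ x, 0 ≤ ct P x) ∧
    (∀ x, ct P x ≤ 1) ∧ ct P 0 = 1 ∧ 0 ≤ D ∧ ∀ x, ct P x ≤ D / (1 + x ^ 2) := by
  obtain ⟨P0, h1, h2, h3, h4⟩ := exists_pos hκ
  have hT := TK_smul h1 (ct P0 0)⁻¹
  obtain ⟨D, hD0, hD⟩ := hT.decay 1
  refine ⟨_, D, hT, fun x => ?_, fun x => ?_, ?_, hD0, fun x => ?_⟩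
  · rw [ct_smul]
    exact mul_nonneg (inv_nonneg.2 h3.le) (h2 x)
  · rw [ct_smul, inv_mul_le_iff₀ h3, mul_one]
    exact h4 x
  · rw [ct_smul, inv_mul_cancel₀ h3.ne']
  · have := hD x
    rw [pow_one] at this
    exact (le_abs_self _).trans this

section mid

variable {g : ℝ → ℝ} {Bg : ℝ}

/-- the basic inequality -/
lemma mid_core {P : ℝ → ℝ} {D : ℝ} (hκ : 0 < κ) (hP : TK κ P) (hP0 : ∀ x, 0 ≤ ct P x)
    (hP1 : ∀ x, ct P x ≤ 1) (hD0 : 0 ≤ D) (hPD : ∀ x, ct P x ≤ D / (1 + x ^ 2))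
    (hgm : Measurable g) (hge : ∀ x, g (-x) = g x) (hgb : ∀ x, |g x| ≤ Bg)
    (hz : ∀ K, TK κ K → ∫ x, g x * ct K x = 0)
    {U u : ℝ} (hU : ∀ x, U ≤ |x| → ct P x ≤ 1 / 2) (hu : ∀ x, |x| ≤ u → 3 / 4 ≤ ct P x)
    {m ℓ d e s : ℝ} (hℓ : 0 < ℓ) (hℓm : ℓ ≤ m) (he : 0 ≤ e) (hs : |s| = 1)
    (hl : ∀ᵐ x, |x - m| < ℓ → -e ≤ s * g x) (q : ℕ)
    (hq1 : U * (q + 1) ≤ ℓ) (hq2 : d ≤ u * (q + 1)) :
    (3 / 4) ^ (q + 1) * ∫ x in Set.Ioo (m - d) (m + d), |g x| ≤
      (q + 1) * (4 * π * D) * (e + Bg * (1 / 2) ^ q) := by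
  have hBg0 : 0 ≤ Bg := (abs_nonneg _).trans (hgb 0)
  have hπ := Real.pi_pos
  have hq0 : (0 : ℝ) < (q : ℝ) + 1 := by positivity
  have hqi : 0 < ((q : ℝ) + 1)⁻¹ := by positivity
  -- the kernel
  have hT1 := hP.dil hqi
  obtain ⟨K1, hK1, eK1⟩ := powTK hT1 q
  have hK1' : TK κ K1 := by
    refine hK1.mono (le_of_eq ?_)
    push_cast
    rw [← mul_assoc, mul_inv_cancel₀ hq0.ne', one_mul]
  have eK1' : ∀ x, ct K1 x = ct P (((q : ℝ) + 1)⁻¹ * x) ^ (q + 1) := fun x => by
    rw [eK1, TK.ct_dil P hqi]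
  obtain ⟨K2, hK2, eK2⟩ := transTK hK1' m
  set φ : ℝ → ℝ := fun x => ct P (((q : ℝ) + 1)⁻¹ * x) with hφ
  have hφ0 : ∀ x, 0 ≤ φ x := fun x => hP0 _
  have hφ1 : ∀ x, φ x ≤ 1 := fun x => hP1 _
  have hφc : Continuous φ := hP.ct_cont.comp (by fun_prop)
  have hφi : Integrable φ := by
    have h1 := (integrable_inv_one_add_sq.const_mul D).comp_mul_left' hqi.ne'
    refine h1.mono' hφc.aestronglyMeasurable (Eventually.of_forall fun x => ?_)
    rw [Real.norm_eq_abs, abs_of_nonneg (hφ0 x)]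
    show ct P (((q : ℝ) + 1)⁻¹ * x) ≤ D * (1 + (((q : ℝ) + 1)⁻¹ * x) ^ 2)⁻¹
    rw [← div_eq_mul_inv]
    exact hPD _
  have hφint : ∫ x, φ x ≤ (q + 1) * (π * D) := by
    have h1 := (integrable_inv_one_add_sq.const_mul D).comp_mul_left' hqi.ne'
    have h2 : ∫ x, φ x ≤ ∫ x, D * (1 + (((q : ℝ) + 1)⁻¹ * x) ^ 2)⁻¹ := by
      refine integral_mono hφi h1 fun x => ?_
      show ct P (((q : ℝ) + 1)⁻¹ * x) ≤ D * (1 + (((q : ℝ) + 1)⁻¹ * x) ^ 2)⁻¹
      rw [← div_eq_mul_inv]
      exact hPD _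
    refine h2.trans (le_of_eq ?_)
    have h3 := Measure.integral_comp_mul_left (fun x : ℝ => D * (1 + x ^ 2)⁻¹) ((q : ℝ) + 1)⁻¹
    simp only [inv_inv, smul_eq_mul] at h3
    rw [h3, integral_const_mul, integral_univ_inv_one_add_sq, abs_of_pos hq0]
    ring
  set W : ℝ → ℝ := fun x => ct K2 x with hW
  have hWe : ∀ x, W x = φ (x - m) ^ (q + 1) + φ (x + m) ^ (q + 1) := fun x => by
    simp only [hW, hφ]
    rw [eK2, eK1', eK1']
  have hW0 : ∀ x, 0 ≤ W x := fun x => by
    rw [hWe]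
    have := hφ0 (x - m)
    have := hφ0 (x + m)
    positivity
  have hWle : ∀ x, W x ≤ φ (x - m) + φ (x + m) := fun x => by
    rw [hWe]
    exact add_le_add (pow_le_of_le_one (hφ0 _) (hφ1 _) (by omega))
      (pow_le_of_le_one (hφ0 _) (hφ1 _) (by omega))
  have hφ2i : Integrable fun x => φ (x - m) + φ (x + m) :=
    (hφi.comp_sub_right m).add (hφi.comp_add_right m)
  have hφ2int : ∫ x, (φ (x - m) + φ (x + m)) ≤ 2 * ((q + 1) * (π * D)) := by
    rw [integral_add (hφi.comp_sub_right m) (hφi.comp_add_right m),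
      integral_sub_right_eq_self φ, integral_add_right_eq_self φ]
    linarith
  have hWc : Continuous W := hK2.ct_cont
  have hWi : Integrable W := by
    refine hφ2i.mono' hWc.aestronglyMeasurable (Eventually.of_forall fun x => ?_)
    rw [Real.norm_eq_abs, abs_of_nonneg (hW0 x)]
    exact hWle x
  have hgWi : Integrable fun x => g x * W x := by
    refine (hWi.const_mul Bg).mono' (hgm.mul hWc.measurable).aestronglyMeasurable
      (Eventually.of_forall fun x => ?_)
    rw [Real.norm_eq_abs, abs_mul, abs_of_nonneg (hW0 x)]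
    exact mul_le_mul_of_nonneg_right (hgb x) (hW0 x)
  have hagWi : Integrable fun x => |g x| * W x := by
    refine (hWi.const_mul Bg).mono' (hgm.abs.mul hWc.measurable).aestronglyMeasurable
      (Eventually.of_forall fun x => ?_)
    rw [Real.norm_eq_abs, abs_mul, abs_abs, abs_of_nonneg (hW0 x)]
    exact mul_le_mul_of_nonneg_right (hgb x) (hW0 x)
  -- reflection of the hypothesis
  have hl' : ∀ᵐ x, |x + m| < ℓ → -e ≤ s * g x := by
    have h1 := (Measure.measurePreserving_neg (volume : Measure ℝ)).quasiMeasurePreserving.ae hl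
    filter_upwards [h1] with x hx h2
    have h3 : |-x - m| < ℓ := by
      rw [show -x - m = -(x + m) by ring, abs_neg]
      exact h2
    have h4 : -e ≤ s * g (-x) := hx h3
    rwa [hge] at h4
  -- the pointwise inequality
  have hpt : ∀ᵐ x, |g x| * W x ≤ s * (g x * W x) + 2 * e * W x +
      2 * Bg * (1 / 2) ^ q * (φ (x - m) + φ (x + m)) := by
    filter_upwards [hl, hl'] with x h1 h2
    have hsum : 0 ≤ φ (x - m) + φ (x + m) := add_nonneg (hφ0 _) (hφ0 _)
    have habs : |s * g x| = |g x| := by rw [abs_mul, hs, one_mul]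
    have hcase1 : -e ≤ s * g x → |g x| * W x ≤ s * (g x * W x) + 2 * e * W x +
        2 * Bg * (1 / 2) ^ q * (φ (x - m) + φ (x + m)) := by
      intro h
      have h3 : |g x| ≤ s * g x + 2 * e := by
        rw [← habs, abs_le]
        constructor <;> linarith
      have h4 := mul_le_mul_of_nonneg_right h3 (hW0 x)
      have h5 : 0 ≤ 2 * Bg * (1 / 2) ^ q * (φ (x - m) + φ (x + m)) := by positivity
      nlinarith
    by_cases c1 : |x - m| < ℓ
    · exact hcase1 (h1 c1)
    by_cases c2 : |x + m| < ℓ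
    · exact hcase1 (h2 c2)
    push Not at c1 c2
    -- far away
    have hfar : ∀ y : ℝ, ℓ ≤ |y| → φ y ^ (q + 1) ≤ (1 / 2) ^ q * φ y := by
      intro y hy
      have h3 : φ y ≤ 1 / 2 := by
        refine hU _ ?_
        rw [abs_mul, abs_of_pos hqi, inv_mul_eq_div, le_div_iff₀ hq0]
        linarith
      rw [pow_succ]
      exact mul_le_mul_of_nonneg_right (pow_le_pow_left₀ (hφ0 y) h3 q) (hφ0 y)
    have h3 : W x ≤ (1 / 2) ^ q * (φ (x - m) + φ (x + m)) := by
      rw [hWe, mul_add]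
      exact add_le_add (hfar _ c1) (hfar _ c2)
    have h4 : |g x| * W x ≤ s * (g x * W x) + 2 * (|g x| * W x) := by
      have h5 := neg_abs_le (s * g x)
      rw [habs] at h5
      have h6 := mul_le_mul_of_nonneg_right h5 (hW0 x)
      nlinarith
    have h5 : |g x| * W x ≤ Bg * ((1 / 2) ^ q * (φ (x - m) + φ (x + m))) :=
      mul_le_mul (hgb x) h3 (hW0 x) hBg0
    have h6 : 0 ≤ 2 * e * W x := mul_nonneg (by positivity) (hW0 x)
    nlinarith
  have hint : ∫ x, |g x| * W x ≤ (q + 1) * (4 * π * D) * (e + Bg * (1 / 2) ^ q) := by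
    have i1 : Integrable fun x => s * (g x * W x) := hgWi.const_mul s
    have i2 : Integrable fun x => 2 * e * W x := hWi.const_mul _
    have i3 : Integrable fun x => 2 * Bg * (1 / 2) ^ q * (φ (x - m) + φ (x + m)) :=
      hφ2i.const_mul _
    have h1 := integral_mono_ae hagWi ((i1.add i2).add i3) hpt
    have e1 : ∫ x, (((fun x => s * (g x * W x)) + fun x => 2 * e * W x) +
        fun x => 2 * Bg * (1 / 2) ^ q * (φ (x - m) + φ (x + m))) x =
        s * (∫ x, g x * W x) + 2 * e * (∫ x, W x) +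
          2 * Bg * (1 / 2) ^ q * ∫ x, (φ (x - m) + φ (x + m)) := by
      rw [integral_add' (i1.add i2) i3, integral_add' i1 i2, integral_const_mul,
        integral_const_mul, integral_const_mul]
    have h2 : ∫ x, g x * W x = 0 := hz K2 hK2
    have h3 : ∫ x, W x ≤ 2 * ((q + 1) * (π * D)) :=
      (integral_mono hWi hφ2i hWle).trans hφ2int
    have h4 : (0 : ℝ) ≤ 2 * Bg * (1 / 2) ^ q := by positivity
    have h5 := mul_le_mul_of_nonneg_left hφ2int h4
    have h6 := mul_le_mul_of_nonneg_left h3 (show 0 ≤ 2 * e by positivity)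
    refine h1.trans ?_
    rw [e1, h2, mul_zero, zero_add]
    nlinarith
  -- lower bound
  have hlow : (3 / 4) ^ (q + 1) * ∫ x in Set.Ioo (m - d) (m + d), |g x| ≤ ∫ x, |g x| * W x := by
    rw [← integral_const_mul]
    have h1 : ∫ x in Set.Ioo (m - d) (m + d), (3 / 4) ^ (q + 1) * |g x| ≤
        ∫ x in Set.Ioo (m - d) (m + d), |g x| * W x := by
      refine setIntegral_mono_on ?_ hagWi.integrableOn measurableSet_Ioo fun x hx => ?_
      · refine Measure.integrableOn_of_bounded (M := (3 / 4) ^ (q + 1) * Bg) (by simp)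
          (measurable_const.mul hgm.abs).aestronglyMeasurable (Eventually.of_forall fun x => ?_)
        rw [Real.norm_eq_abs, abs_mul, abs_abs, abs_of_pos (by positivity)]
        exact mul_le_mul_of_nonneg_left (hgb x) (by positivity)
      · have h2 : 3 / 4 ≤ φ (x - m) := by
          refine hu _ ?_
          rw [abs_mul, abs_of_pos hqi, inv_mul_eq_div, div_le_iff₀ hq0]
          have : |x - m| ≤ d := abs_le.2 ⟨by linarith [hx.1], by linarith [hx.2]⟩
          linarith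
        have h3 : (3 / 4) ^ (q + 1) ≤ W x := by
          rw [hWe]
          have h4 := pow_le_pow_left₀ (by norm_num : (0:ℝ) ≤ 3 / 4) h2 (q + 1)
          have h5 : 0 ≤ φ (x + m) ^ (q + 1) := pow_nonneg (hφ0 _) _
          linarith
        rw [mul_comm]
        exact mul_le_mul_of_nonneg_left h3 (abs_nonneg _)
    exact h1.trans (setIntegral_le_integral hagWi
      (Eventually.of_forall fun x => mul_nonneg (abs_nonneg _) (hW0 x)))
  exact hlow.trans hint

/-- **exponential smallness in the middle** -/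
theorem mid_small (hκ : 0 < κ) (hgm : Measurable g) (hge : ∀ x, g (-x) = g x)
    (hgb : ∀ x, |g x| ≤ Bg) (hz : ∀ K, TK κ K → ∫ x, g x * ct K x = 0) {c0 C c : ℝ}
    (hc0 : 0 < c0) (hC : 0 ≤ C) (hc : 0 < c) :
    ∃ C4 c4 η a0 : ℝ, 0 ≤ C4 ∧ 0 < c4 ∧ 0 < η ∧ η < c0 / 2 ∧ 0 < a0 ∧ ∀ a s : ℝ, a0 ≤ a →
      |s| = 1 → (∀ᵐ x, a < x → x < (1 + c0) * a → -(C * Real.exp (-(c * x))) ≤ s * g x) →
      ∫ x in Set.Ioo ((1 + c0 / 2) * a - η * a) ((1 + c0 / 2) * a + η * a), |g x| ≤
        C4 * Real.exp (-(c4 * a)) := by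
  obtain ⟨P, D, hP, hP0, hP1, hP00, hD0, hPD⟩ := exists_phi hκ
  have hBg0 : 0 ≤ Bg := (abs_nonneg _).trans (hgb 0)
  have hπ := Real.pi_pos
  set U : ℝ := 1 + 2 * D + c0 / c with hUd
  have hcc : 0 < c0 / c := by positivity
  have hU1 : 1 ≤ U := by rw [hUd]; linarith
  have hU0 : 0 < U := by linarith
  have hU : ∀ x, U ≤ |x| → ct P x ≤ 1 / 2 := by
    intro x hx
    refine (hPD x).trans ?_
    rw [div_le_iff₀ (by positivity)]
    have h1 : U ^ 2 ≤ x ^ 2 := by
      rw [← sq_abs x]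
      exact pow_le_pow_left₀ hU0.le hx 2
    nlinarith
  obtain ⟨u, hu0, hu1, hu⟩ : ∃ u : ℝ, 0 < u ∧ u ≤ 1 ∧ ∀ x, |x| ≤ u → 3 / 4 ≤ ct P x := by
    have h1 : ∀ᶠ x in 𝓝 (0 : ℝ), 3 / 4 < ct P x :=
      hP.ct_cont.continuousAt.eventually_const_lt (by rw [hP00]; norm_num)
    obtain ⟨δ, hδ, h2⟩ := Metric.eventually_nhds_iff.1 h1
    refine ⟨min (δ / 2) 1, lt_min (by positivity) one_pos, min_le_right _ _, fun x hx => ?_⟩
    refine (h2 ?_).le
    rw [Real.dist_eq, sub_zero]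
    have := min_le_left (δ / 2) 1
    linarith
  set η : ℝ := u * c0 / (4 * U) with hη
  refine ⟨4 * π * D * (6 * C + 12 * Bg), min (c / 4) (c0 / (24 * U)), η, 4 * U / c0, by positivity,
    lt_min (by positivity) (by positivity), by positivity, ?_, by positivity, ?_⟩
  · rw [hη, div_lt_div_iff₀ (by positivity) (by norm_num)]
    nlinarith
  intro a s ha hs hl
  have ha0 : 0 < a := lt_of_lt_of_le (by positivity) ha
  set ℓ : ℝ := c0 * a / 2 with hℓ
  have hℓ0 : 0 < ℓ := by rw [hℓ]; positivity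
  have hℓU : 2 ≤ ℓ / U := by
    rw [le_div_iff₀ hU0, hℓ]
    rw [div_le_iff₀ hc0] at ha
    linarith
  obtain ⟨n, hn⟩ : ∃ n, n = ⌊ℓ / U⌋₊ := ⟨_, rfl⟩
  have hn1 : (n : ℝ) ≤ ℓ / U := by rw [hn]; exact Nat.floor_le (by positivity)
  have hn2 : ℓ / U < n + 1 := by rw [hn]; exact Nat.lt_floor_add_one _
  have hn3 : ℓ / (2 * U) ≤ n := by
    have : ℓ / (2 * U) = ℓ / U / 2 := by field_simp
    rw [this]
    linarith
  have hnpos : 1 ≤ n := by
    have : (1 : ℝ) < n := by linarith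
    exact_mod_cast this.le
  obtain ⟨q, rfl⟩ := Nat.exists_eq_add_of_le' hnpos
  have hq0 : (0 : ℝ) < ((q + 1 : ℕ) : ℝ) := by positivity
  have key := mid_core hκ hP hP0 hP1 hD0 hPD hgm hge hgb hz hU hu (m := (1 + c0 / 2) * a)
    (ℓ := ℓ) (d := η * a) (e := C * Real.exp (-(c * a))) (s := s) hℓ0 (by
      rw [hℓ]
      nlinarith) (by positivity) hs ?_ q ?_ ?_
  · -- conclusion
    have hc1 : (4 / 3 : ℝ) ^ (q + 1) ≤ Real.exp ((q + 1 : ℕ) / 3) := by
      have h1 : (4 / 3 : ℝ) ≤ Real.exp (1 / 3) := by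
        have := Real.add_one_le_exp (1 / 3)
        linarith
      have h2 := pow_le_pow_left₀ (by norm_num) h1 (q + 1)
      rwa [← Real.exp_nat_mul, mul_one_div] at h2
    have hc2 : (2 / 3 : ℝ) ^ (q + 1) ≤ Real.exp (-((q + 1 : ℕ) / 3)) := by
      have h1 : (2 / 3 : ℝ) ≤ Real.exp (-(1 / 3)) := by
        have := Real.add_one_le_exp (-(1 / 3))
        linarith
      have h2 := pow_le_pow_left₀ (by norm_num) h1 (q + 1)
      rw [← Real.exp_nat_mul] at h2
      refine h2.trans (le_of_eq ?_)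
      congr 1
      ring
    have hc3 : ((q + 1 : ℕ) : ℝ) ≤ 6 * Real.exp ((q + 1 : ℕ) / 6) := by
      have := Real.add_one_le_exp (((q + 1 : ℕ) : ℝ) / 6)
      linarith
    have hce : Real.exp (-(c * a)) = Real.exp (-(c * a / 4)) * Real.exp (-(3 * (c * a) / 4)) := by
      rw [← Real.exp_add]
      congr 1
      ring
    set I := ∫ x in Set.Ioo ((1 + c0 / 2) * a - η * a) ((1 + c0 / 2) * a + η * a), |g x| with hI
    have hI1 : I ≤ (4 / 3) ^ (q + 1) * ((q + 1) * (4 * π * D) * (C * Real.exp (-(c * a)) +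
        Bg * (1 / 2) ^ q)) := by
      have h1 : (4 / 3 : ℝ) ^ (q + 1) * (3 / 4) ^ (q + 1) = 1 := by
        rw [← mul_pow]
        norm_num
      calc I = (4 / 3 : ℝ) ^ (q + 1) * (3 / 4) ^ (q + 1) * I := by rw [h1, one_mul]
        _ = (4 / 3 : ℝ) ^ (q + 1) * ((3 / 4) ^ (q + 1) * I) := by ring
        _ ≤ _ := mul_le_mul_of_nonneg_left key (by positivity)
    have hm1 : ((q + 1 : ℕ) : ℝ) ≤ c * a / 2 := by
      refine hn1.trans ?_
      rw [div_le_iff₀ hU0, hℓ, hUd]
      have h1 : c * a / 2 * (1 + 2 * D + c0 / c) = c * a / 2 * (1 + 2 * D) + c0 * a / 2 := by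
        field_simp
      rw [h1]
      have : 0 ≤ c * a / 2 * (1 + 2 * D) := by positivity
      linarith
    -- first term
    have ht1 : (4 / 3 : ℝ) ^ (q + 1) * ((q + 1 : ℕ) * Real.exp (-(c * a))) ≤
        6 * Real.exp (-(c / 4 * a)) := by
      calc (4 / 3 : ℝ) ^ (q + 1) * ((q + 1 : ℕ) * Real.exp (-(c * a))) ≤
          Real.exp ((q + 1 : ℕ) / 3) * ((6 * Real.exp ((q + 1 : ℕ) / 6)) * Real.exp (-(c * a))) := by
            gcongr
        _ = 6 * Real.exp ((q + 1 : ℕ) / 3 + (q + 1 : ℕ) / 6 - c * a) := by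
            rw [Real.exp_sub, Real.exp_add, Real.exp_neg]
            ring
        _ ≤ 6 * Real.exp (-(c / 4 * a)) := by
            have h2 : ((q + 1 : ℕ) : ℝ) / 3 + (q + 1 : ℕ) / 6 - c * a ≤ -(c / 4 * a) := by
              have : 0 < c * a := by positivity
              linarith
            have h3 := Real.exp_le_exp.2 h2
            linarith
    have ht2 : (4 / 3 : ℝ) ^ (q + 1) * ((q + 1 : ℕ) * (1 / 2) ^ q) ≤
        12 * Real.exp (-(c0 / (24 * U) * a)) := by
      have e1 : (4 / 3 : ℝ) ^ (q + 1) * ((q + 1 : ℕ) * (1 / 2) ^ q) =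
          2 * ((2 / 3) ^ (q + 1) * (q + 1 : ℕ)) := by
        have h1 : (1 / 2 : ℝ) ^ q = 2 * (1 / 2) ^ (q + 1) := by rw [pow_succ]; ring
        have h2 : (2 / 3 : ℝ) ^ (q + 1) = (4 / 3) ^ (q + 1) * (1 / 2) ^ (q + 1) := by
          rw [← mul_pow]
          norm_num
        rw [h1, h2]
        ring
      rw [e1]
      calc 2 * ((2 / 3 : ℝ) ^ (q + 1) * (q + 1 : ℕ)) ≤
          2 * (Real.exp (-((q + 1 : ℕ) / 3)) * (6 * Real.exp ((q + 1 : ℕ) / 6))) := by
            gcongr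
        _ = 12 * Real.exp (-((q + 1 : ℕ) / 3) + (q + 1 : ℕ) / 6) := by
            rw [Real.exp_add]
            ring
        _ ≤ 12 * Real.exp (-(c0 / (24 * U) * a)) := by
            have h2 : c0 / (24 * U) * a = ℓ / (2 * U) / 6 := by
              rw [hℓ]
              field_simp
              ring
            have h3 : -(((q + 1 : ℕ) : ℝ) / 3) + (q + 1 : ℕ) / 6 ≤ -(c0 / (24 * U) * a) := by
              rw [h2]
              linarith
            have h4 := Real.exp_le_exp.2 h3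
            linarith
    set c4 := min (c / 4) (c0 / (24 * U)) with hc4
    have he1 : Real.exp (-(c / 4 * a)) ≤ Real.exp (-(c4 * a)) := by
      apply Real.exp_le_exp.2
      have := mul_le_mul_of_nonneg_right (min_le_left (c / 4) (c0 / (24 * U))) ha0.le
      linarith
    have he2 : Real.exp (-(c0 / (24 * U) * a)) ≤ Real.exp (-(c4 * a)) := by
      apply Real.exp_le_exp.2
      have := mul_le_mul_of_nonneg_right (min_le_right (c / 4) (c0 / (24 * U))) ha0.le
      linarith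
    refine hI1.trans ?_
    have e3 : (4 / 3 : ℝ) ^ (q + 1) * ((q + 1) * (4 * π * D) * (C * Real.exp (-(c * a)) +
        Bg * (1 / 2) ^ q)) = 4 * π * D * (C * ((4 / 3 : ℝ) ^ (q + 1) * ((q + 1 : ℕ) *
          Real.exp (-(c * a)))) + Bg * ((4 / 3 : ℝ) ^ (q + 1) * ((q + 1 : ℕ) * (1 / 2) ^ q))) := by
      push_cast
      ring
    rw [e3, mul_assoc (4 * π * D)]
    refine mul_le_mul_of_nonneg_left ?_ (by positivity)
    have h7 := mul_le_mul_of_nonneg_left (ht1.trans (mul_le_mul_of_nonneg_left he1 (by norm_num :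
      (0:ℝ) ≤ 6))) hC
    have h8 := mul_le_mul_of_nonneg_left (ht2.trans (mul_le_mul_of_nonneg_left he2 (by norm_num :
      (0:ℝ) ≤ 12))) hBg0
    linarith
  · filter_upwards [hl] with x h1 h2
    rw [abs_lt] at h2
    have h3 : a < x := by
      have := h2.1
      rw [hℓ] at this
      nlinarith
    have h4 : x < (1 + c0) * a := by
      have := h2.2
      rw [hℓ] at this
      nlinarith
    have h5 := h1 h3 h4
    have h6 : Real.exp (-(c * x)) ≤ Real.exp (-(c * a)) := by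
      apply Real.exp_le_exp.2
      nlinarith
    have h7 := mul_le_mul_of_nonneg_left h6 hC
    linarith
  · rw [le_div_iff₀ hU0] at hn1
    push_cast at hn1
    linarith
  · have h1 : η * a = u * (ℓ / (2 * U)) := by
      rw [hη, hℓ]
      field_simp
      ring
    rw [h1]
    push_cast at hn3
    exact mul_le_mul_of_nonneg_left hn3 hu0.le

end mid

end Q70.Osc
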