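import Pool.Agent.Q97.BG.Gap

/-! # Beurling's gap theorem with exponentially small mass

A square integrable function with a spectral gap around the origin whose mass in the middle
intervals of a long system is exponentially small vanishes.  (For functions which vanish on the
intervals: `Pool/Agent/Q97/BG`.) -/

set_option autoImplicit false

open MeasureTheory Filter Topology Complex Set FourierTransform

namespace Q70.Osc

open Q97.BG

noncomputable section

/-- the maximum principle in a disc -/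
theorem discF {f : ℂ → ℂ} {S N m r : ℝ} (hS : 0 ≤ S) (hN0 : 0 ≤ N) (hr : 0 < r)
    (hd : ∀ z ∈ Metric.closedBall (m : ℂ) r, DifferentiableAt ℂ f z)
    (hb : ∀ z ∈ Metric.closedBall (m : ℂ) r, z.im ≠ 0 →
      ‖f z‖ ≤ N * Real.exp (-(S * |z.im|)) / |z.im|)
    {z : ℂ} (hz : ‖z - m‖ ≤ r / 4) :
    ‖f z‖ ≤ 3 * N / r * Real.exp (-(S * r / 4)) := by
  set W : ℂ → ℂ := fun z => f z * ((z - m) ^ 2 - (r : ℂ) ^ 2) *
    cexp ((S / 2 : ℝ) * (r - (z - m) ^ 2 / r)) with hW
  have hdiff : ∀ z ∈ Metric.closedBall (m : ℂ) r, DifferentiableAt ℂ W z := by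
    intro z hz
    have h1 := hd z hz
    have h2 : DifferentiableAt ℂ (fun z : ℂ => (z - m) ^ 2 - (r : ℂ) ^ 2) z := by fun_prop
    have h3 : DifferentiableAt ℂ (fun z : ℂ => cexp ((S / 2 : ℝ) * (r - (z - m) ^ 2 / r))) z := by
      fun_prop
    exact (h1.mul h2).mul h3
  have hdc : DiffContOnCl ℂ W (Metric.ball (m : ℂ) r) := by
    apply DifferentiableOn.diffContOnCl
    rw [closure_ball _ hr.ne']
    exact fun z hz => (hdiff z hz).differentiableWithinAt
  have hbd : ∀ z ∈ frontier (Metric.ball (m : ℂ) r), ‖W z‖ ≤ 2 * r * N := by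
    intro z hz
    have hzcb : z ∈ Metric.closedBall (m : ℂ) r := by
      rw [frontier_ball _ hr.ne'] at hz
      exact Metric.sphere_subset_closedBall hz
    rw [frontier_ball _ hr.ne', mem_sphere_iff_norm] at hz
    set w := z - m with hw
    have hwim : w.im = z.im := by simp [hw]
    simp only [hW]
    rw [← hw, norm_mul, norm_mul, sq_norm hr.le hz, exp_norm]
    have h1 : w.re ^ 2 + w.im ^ 2 = r ^ 2 := by
      rw [← hz, ← Complex.normSq_eq_norm_sq, Complex.normSq_apply]
      ring
    by_cases hy : z.im = 0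
    · rw [hwim, hy]
      simp
      positivity
    · have hyp : 0 < |z.im| := abs_pos.mpr hy
      have h2 := hb z hzcb hy
      have h3 : r - (w.re ^ 2 - w.im ^ 2) / r = 2 * w.im ^ 2 / r := by
        field_simp
        linarith
      have h4 : |w.im| ≤ r := by
        rw [← hz]
        exact Complex.abs_im_le_norm w
      have h5 : Real.exp (S / 2 * (r - (w.re ^ 2 - w.im ^ 2) / r)) ≤ Real.exp (S * |z.im|) := by
        rw [h3]
        apply Real.exp_le_exp.2
        have h6 : S / 2 * (2 * w.im ^ 2 / r) = S * (|w.im| * (|w.im| / r)) := by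
          rw [← sq_abs]
          ring
        rw [h6, ← hwim]
        apply mul_le_mul_of_nonneg_left _ hS
        apply mul_le_of_le_one_right (abs_nonneg _)
        rw [div_le_one hr]
        exact h4
      rw [hwim]
      calc ‖f z‖ * (2 * r * |z.im|) * Real.exp (S / 2 * (r - (w.re ^ 2 - z.im ^ 2) / r))
          ≤ (N * Real.exp (-(S * |z.im|)) / |z.im|) * (2 * r * |z.im|) *
              Real.exp (S * |z.im|) := by
            rw [hwim] at h5
            gcongr
        _ = 2 * r * N * (Real.exp (-(S * |z.im|)) * Real.exp (S * |z.im|)) := by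
            field_simp
        _ = 2 * r * N := by
            rw [← Real.exp_add, neg_add_cancel, Real.exp_zero, mul_one]
  have hzc : z ∈ closure (Metric.ball (m : ℂ) r) := by
    rw [closure_ball _ hr.ne', Metric.mem_closedBall, dist_eq_norm]
    linarith
  have hfin := Complex.norm_le_of_forall_mem_frontier_norm_le Metric.isBounded_ball hdc hbd hzc
  simp only [hW] at hfin
  rw [norm_mul, norm_mul, exp_norm] at hfin
  set w := z - m with hw
  have hw2 : ‖w ^ 2‖ ≤ r ^ 2 / 16 := by
    rw [norm_pow]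
    have := pow_le_pow_left₀ (norm_nonneg _) hz 2
    nlinarith
  have h1 : 15 / 16 * r ^ 2 ≤ ‖w ^ 2 - (r : ℂ) ^ 2‖ := by
    have h2 := norm_sub_norm_le ((r : ℂ) ^ 2) (w ^ 2)
    rw [norm_sub_rev, norm_pow, Complex.norm_real, Real.norm_of_nonneg hr.le] at h2
    linarith
  have h3 : Real.exp (S * r / 4) ≤ Real.exp (S / 2 * (r - (w.re ^ 2 - w.im ^ 2) / r)) := by
    apply Real.exp_le_exp.2
    have h4 : w.re ^ 2 - w.im ^ 2 ≤ r ^ 2 / 16 := by
      have h5 : w.re ^ 2 ≤ ‖w‖ ^ 2 := by
        rw [← Complex.normSq_eq_norm_sq, Complex.normSq_apply]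
        nlinarith [mul_self_nonneg w.im]
      rw [norm_pow] at hw2
      nlinarith [sq_nonneg w.im]
    have h5 : (w.re ^ 2 - w.im ^ 2) / r ≤ r / 16 := by
      rw [div_le_iff₀ hr]
      nlinarith
    nlinarith
  have hc0 := norm_nonneg (f z)
  have h6 : ‖f z‖ * (15 / 16 * r ^ 2) * Real.exp (S * r / 4) ≤ 2 * r * N := by
    refine le_trans ?_ hfin
    gcongr
  rw [Real.exp_neg, ← div_eq_mul_inv, div_div, le_div_iff₀ (by positivity)]
  have hE := Real.exp_pos (S * r / 4)
  have h7 : ‖f z‖ * (r * Real.exp (S * r / 4)) * (15 / 16 * r) ≤ 2 * N * r := by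
    nlinarith
  have h8 : ‖f z‖ * (r * Real.exp (S * r / 4)) * (15 / 16) ≤ 2 * N := by
    have h9 : (‖f z‖ * (r * Real.exp (S * r / 4)) * (15 / 16)) * r ≤ (2 * N) * r := by
      nlinarith
    exact le_of_mul_le_mul_right h9 hr
  nlinarith

variable {g : ℝ → ℂ} {S lam : ℝ} {m r b : ℕ → ℝ}

lemma CT_le {h : ℝ → ℂ} (hh : Integrable h) {z : ℂ} (hz : z.im ≠ 0) :
    ‖CT h z‖ ≤ (∫ t, ‖h t‖) / |z.im| := by
  have hy : 0 < |z.im| := abs_pos.mpr hz
  unfold CT
  refine (norm_integral_le_integral_norm _).trans ?_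
  rw [← integral_div]
  refine integral_mono_of_nonneg (Eventually.of_forall fun t => norm_nonneg _)
    (hh.norm.div_const _) (Eventually.of_forall fun t => ?_)
  show ‖h t / ((t : ℂ) - z)‖ ≤ ‖h t‖ / |z.im|
  rw [norm_div]
  exact div_le_div_of_nonneg_left (norm_nonneg _) hy (im_le_norm t z)

lemma CT_add {h1 h2 : ℝ → ℂ} (i1 : Integrable h1) (i2 : Integrable h2) {z : ℂ} (hz : z.im ≠ 0) :
    CT (fun t => h1 t + h2 t) z = CT h1 z + CT h2 z := by
  have hy : 0 < |z.im| := abs_pos.mpr hz
  have hint : ∀ {h : ℝ → ℂ}, Integrable h → Integrable fun t => h t / ((t : ℂ) - z) := by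
    intro h hh
    refine (hh.norm.div_const |z.im|).mono' (aesm_div hh) (Eventually.of_forall fun t => ?_)
    rw [norm_div]
    exact div_le_div_of_nonneg_left (norm_nonneg _) hy (im_le_norm t z)
  unfold CT
  rw [← integral_add (hint i1) (hint i2)]
  refine integral_congr_ae (Eventually.of_forall fun t => ?_)
  show (h1 t + h2 t) / ((t : ℂ) - z) = _
  rw [add_div]

/-- the Cauchy transform vanishes -/
theorem CT_zeroS (hg : Integrable g) (hS : 0 < S) (h0 : ∀ s : ℝ, |s| ≤ S → ft g s = 0)
    (hlam : 0 < lam) (hr4 : ∀ n, lam ≤ r n) (hmb : ∀ n, |m n| + r n ≤ b n)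
    {C4 c4 : ℝ} (hC4 : 0 ≤ C4) (hc4 : 0 < c4)
    (hdisj : ∀ n k, n ≠ k → ∀ x : ℝ, |x - m n| < r n / 8 → |x - m k| < r k / 8 → False)
    (hmass : ∀ n, ∫ t in Metric.ball (m n) (2 * r n), ‖g t‖ ≤ C4 * Real.exp (-(c4 * r n)))
    (hdiv : ¬ Summable (fun n => (r n / b n) ^ 2)) {z : ℂ} (hz : 0 < z.im) :
    CT g z = 0 := by
  set N := ∫ t, ‖g t‖ with hN
  have hN0 : 0 ≤ N := integral_nonneg fun t => norm_nonneg _
  set η : ℝ := min (lam / 8) (z.im / 2) with hη
  have hη0 : 0 < η := lt_min (by positivity) (by positivity)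
  have hη1 : η ≤ lam / 8 := min_le_left _ _
  have hη2 : η ≤ z.im / 2 := min_le_right _ _
  set H : ℂ → ℂ := fun w => CT g (w + η * I) with hH
  have hr0 : ∀ n, 0 < r n := fun n => by linarith [hr4 n]
  set S' : ℝ := min S c4 with hS'
  have hS'0 : 0 < S' := lt_min hS hc4
  have hS'1 : S' ≤ S := min_le_left _ _
  have hS'2 : S' ≤ c4 := min_le_right _ _
  set B : ℝ := 3 * (N + C4) / lam + C4 / η + N / η with hB
  have hB0 : 0 ≤ B := by rw [hB]; positivity
  have hd : ∀ w : ℂ, 0 ≤ w.im → DifferentiableAt ℂ H w := by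
    intro w hw
    have h1 : DifferentiableAt ℂ (CT g) (w + η * I) := by
      refine CT_diff hg (d := η) hη0 (Eventually.of_forall fun t ht => ?_)
      exfalso
      have h2 := im_le_norm t (w + η * I)
      have h3 : (w + η * I).im = w.im + η := by simp
      rw [h3, abs_of_nonneg (by linarith)] at h2
      linarith
    exact DifferentiableAt.comp (g := CT g) (f := fun w : ℂ => w + η * I) w h1 (by fun_prop)
  have hbd : ∀ w : ℂ, 0 ≤ w.im → ‖H w‖ ≤ B := by
    intro w hw
    have h3 : (w + η * I).im = w.im + η := by simp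
    have hpos : 0 < w.im + η := by linarith
    have h1 := CT_le hg (z := w + η * I) (by rw [h3]; exact hpos.ne')
    rw [h3, abs_of_pos hpos] at h1
    refine h1.trans ?_
    have h4 : N / (w.im + η) ≤ N / η := div_le_div_of_nonneg_left hN0 hη0 (by linarith)
    refine h4.trans ?_
    rw [hB]
    have : 0 ≤ 3 * (N + C4) / lam + C4 / η := by positivity
    linarith
  have hsmall : ∀ n, ∀ x : ℝ, |x - m n| < r n / 8 → ‖H x‖ ≤ B * Real.exp (-(S' / 4 * r n)) := by
    intro n x hx
    have hrn := hr0 n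
    -- splitting
    set Bn : Set ℝ := Metric.ball (m n) (2 * r n) with hBn
    have hBm : MeasurableSet Bn := Metric.isOpen_ball.measurableSet
    set g1 : ℝ → ℂ := Bnᶜ.indicator g with hg1
    set g2 : ℝ → ℂ := Bn.indicator g with hg2
    have i1 : Integrable g1 := hg.indicator hBm.compl
    have i2 : Integrable g2 := hg.indicator hBm
    have hsplit : g = fun t => g1 t + g2 t := by
      funext t
      simp only [hg1, hg2]
      by_cases ht : t ∈ Bn
      · rw [indicator_of_notMem (by simpa using ht), indicator_of_mem ht, zero_add]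
      · rw [indicator_of_mem (by simpa using ht), indicator_of_notMem ht, add_zero]
    have hm2 : ∫ t, ‖g2 t‖ ≤ C4 * Real.exp (-(c4 * r n)) := by
      refine le_trans (le_of_eq ?_) (hmass n)
      rw [← integral_indicator hBm]
      refine integral_congr_ae (Eventually.of_forall fun t => ?_)
      simp only [hg2]
      exact norm_indicator_eq_indicator_norm g t
    have hCT : ∀ z : ℂ, z.im ≠ 0 → CT g z = CT g1 z + CT g2 z := by
      intro z hz
      rw [← CT_add i1 i2 hz, ← hsplit]
    have hm20 : 0 ≤ ∫ t, ‖g2 t‖ := integral_nonneg fun t => norm_nonneg _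
    -- the first part
    have hz1 : ∀ z ∈ Metric.closedBall ((m n : ℝ) : ℂ) (r n), DifferentiableAt ℂ (CT g1) z := by
      intro z hz
      rw [Metric.mem_closedBall, dist_eq_norm] at hz
      refine CT_diff i1 (d := r n) hrn (Eventually.of_forall fun t ht => ?_)
      have h2 : ‖(t : ℂ) - m n‖ ≤ ‖(t : ℂ) - z‖ + ‖z - m n‖ := by
        have := norm_add_le ((t : ℂ) - z) (z - m n)
        rwa [sub_add_sub_cancel] at this
      rw [← Complex.ofReal_sub, Complex.norm_real, Real.norm_eq_abs] at h2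
      have h3 : t ∈ Bn := by
        rw [hBn, Metric.mem_ball, Real.dist_eq]
        linarith
      simp only [hg1]
      rw [indicator_of_notMem (by simpa using h3)]
    have hz2 : ∀ z ∈ Metric.closedBall ((m n : ℝ) : ℂ) (r n), z.im ≠ 0 →
        ‖CT g1 z‖ ≤ (N + C4) * Real.exp (-(S' * |z.im|)) / |z.im| := by
      intro z hz hzi
      rw [Metric.mem_closedBall, dist_eq_norm] at hz
      have hy : 0 < |z.im| := abs_pos.mpr hzi
      have hyr : |z.im| ≤ r n := by
        have h1 := Complex.abs_im_le_norm (z - m n)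
        simp at h1
        exact h1.trans hz
      have e1 : CT g1 z = CT g z - CT g2 z := by rw [hCT z hzi]; ring
      rw [e1]
      refine (norm_sub_le _ _).trans ?_
      have h1 := CT_decay hg hS.le h0 hzi
      have h2 := CT_le i2 hzi
      have h3 : (∫ t, ‖g t‖) * Real.exp (-(S * |z.im|)) / |z.im| ≤
          N * Real.exp (-(S' * |z.im|)) / |z.im| := by
        gcongr
      have h4 : (∫ t, ‖g2 t‖) / |z.im| ≤ C4 * Real.exp (-(S' * |z.im|)) / |z.im| := by
        refine div_le_div_of_nonneg_right (hm2.trans ?_) hy.le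
        refine mul_le_mul_of_nonneg_left (Real.exp_le_exp.2 ?_) hC4
        have : S' * |z.im| ≤ c4 * r n := mul_le_mul hS'2 hyr (abs_nonneg _) hc4.le
        linarith
      have e2 : (N + C4) * Real.exp (-(S' * |z.im|)) / |z.im| =
          N * Real.exp (-(S' * |z.im|)) / |z.im| + C4 * Real.exp (-(S' * |z.im|)) / |z.im| := by
        ring
      rw [e2]
      linarith
    have hxim : ((x : ℂ) + η * I).im = η := by simp
    have hdisc := discF (f := CT g1) hS'0.le (by positivity : 0 ≤ N + C4) hrn hz1 hz2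
      (z := (x : ℂ) + η * I) (by
        have e : (x : ℂ) + η * I - m n = ((x - m n : ℝ) : ℂ) + η * I := by push_cast; ring
        rw [e]
        refine (norm_add_le _ _).trans ?_
        rw [norm_mul, Complex.norm_I, mul_one, Complex.norm_real, Complex.norm_real,
          Real.norm_eq_abs, Real.norm_of_nonneg hη0.le]
        linarith [hr4 n])
    have hc2 := CT_le i2 (z := (x : ℂ) + η * I) (by rw [hxim]; exact hη0.ne')
    rw [hxim, abs_of_pos hη0] at hc2
    show ‖CT g ((x : ℂ) + η * I)‖ ≤ _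
    rw [hCT _ (by rw [hxim]; exact hη0.ne')]
    refine (norm_add_le _ _).trans ?_
    have hE := Real.exp_pos (-(S' / 4 * r n))
    have h5 : ‖CT g1 ((x : ℂ) + η * I)‖ ≤ 3 * (N + C4) / lam * Real.exp (-(S' / 4 * r n)) := by
      refine hdisc.trans ?_
      have e3 : S' * r n / 4 = S' / 4 * r n := by ring
      rw [e3]
      refine mul_le_mul_of_nonneg_right ?_ hE.le
      exact div_le_div_of_nonneg_left (by positivity) hlam (hr4 n)
    have h6 : ‖CT g2 ((x : ℂ) + η * I)‖ ≤ C4 / η * Real.exp (-(S' / 4 * r n)) := by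
      refine hc2.trans ?_
      rw [div_mul_eq_mul_div]
      refine div_le_div_of_nonneg_right (hm2.trans ?_) hη0.le
      refine mul_le_mul_of_nonneg_left (Real.exp_le_exp.2 ?_) hC4
      have : S' / 4 * r n ≤ c4 * r n := mul_le_mul_of_nonneg_right (by linarith) hrn.le
      linarith
    have h7 : 0 ≤ N / η * Real.exp (-(S' / 4 * r n)) := by positivity
    rw [hB]
    nlinarith
  have hb1 : ∀ n, lam ≤ b n := fun n => by
    have := hmb n
    have := abs_nonneg (m n)
    have := hr4 n
    linarith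
  have hfin := vanish (H := H) hd hB0 (show 0 < S' / 4 by positivity) hbd hr0 hmb hlam hb1
    hdisj hsmall hdiv (z := z - η * I) (by simp; linarith)
  simp only [hH, sub_add_cancel] at hfin
  exact hfin

/-- **Gap theorem** for real square integrable functions with exponentially small mass. -/
theorem gap_realS {g : ℝ → ℝ} (hg : Integrable g) (hg2 : MemLp (fun t => (g t : ℂ)) 2)
    (hS : 0 < S) (h0 : ∀ s : ℝ, |s| ≤ S → ft (fun t => (g t : ℂ)) s = 0)
    (hlam : 0 < lam) (hr4 : ∀ n, lam ≤ r n) (hmb : ∀ n, |m n| + r n ≤ b n)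
    {C4 c4 : ℝ} (hC4 : 0 ≤ C4) (hc4 : 0 < c4)
    (hdisj : ∀ n k, n ≠ k → ∀ x : ℝ, |x - m n| < r n / 8 → |x - m k| < r k / 8 → False)
    (hmass : ∀ n, ∫ t in Metric.ball (m n) (2 * r n), |g t| ≤ C4 * Real.exp (-(c4 * r n)))
    (hdiv : ¬ Summable (fun n => (r n / b n) ^ 2)) : ∀ᵐ t, g t = 0 := by
  set G : ℝ → ℂ := fun t => (g t : ℂ) with hG
  have hGi : Integrable G := hg.ofReal
  have hC : ∀ z : ℂ, 0 < z.im → CT G z = 0 := fun z hz =>
    CT_zeroS hGi hS h0 hlam hr4 hmb hC4 hc4 hdisj (fun n => by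
      refine le_trans (le_of_eq ?_) (hmass n)
      refine integral_congr_ae (Eventually.of_forall fun t => ?_)
      show ‖(g t : ℂ)‖ = |g t|
      rw [Complex.norm_real, Real.norm_eq_abs]) hdiv hz
  have hpos : ∀ s : ℝ, 0 < s → ft G s = 0 := fun s hs => ft_zero hGi hS h0 hC hs
  have hneg : ∀ s : ℝ, ft G (-s) = (starRingEnd ℂ) (ft G s) := by
    intro s
    unfold ft
    rw [← integral_conj]
    refine integral_congr_ae (Eventually.of_forall fun t => ?_)
    simp only [hG, map_mul, Complex.conj_ofReal, ← Complex.exp_conj, map_neg, Complex.conj_I]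
    push_cast
    congr 2
    ring
  have hall : ∀ s : ℝ, ft G s = 0 := by
    intro s
    rcases lt_trichotomy s 0 with h | h | h
    · have h1 := hneg (-s)
      rw [neg_neg, hpos (-s) (by linarith), map_zero] at h1
      exact h1
    · exact h0 s (by rw [h, abs_zero]; exact hS.le)
    · exact hpos s h
  have hF : 𝓕 G = 0 := by
    funext ξ
    rw [Real.fourier_eq']
    have h1 := hall (2 * Real.pi * ξ)
    rw [Pi.zero_apply, ← h1]
    unfold ft
    refine integral_congr_ae (Eventually.of_forall fun t => ?_)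
    simp only [smul_eq_mul, RCLike.inner_apply, conj_trivial]
    rw [mul_comm]
    congr 2
    push_cast
    ring
  have hP := (Pool.Agent.Helper625.Planch.plancherel G hGi hg2).2
  rw [hF] at hP
  have h2 : ∫ t, ‖G t‖ ^ 2 = 0 := by
    rw [← hP]
    simp
  have h3 := (integral_eq_zero_iff_of_nonneg (fun t => by positivity)
    ((memLp_two_iff_integrable_sq_norm hg2.aestronglyMeasurable).mp hg2)).mp h2
  filter_upwards [h3] with t ht
  have h4 : ‖G t‖ ^ 2 = 0 := ht
  have h5 : G t = 0 := norm_eq_zero.mp (pow_eq_zero_iff two_ne_zero |>.mp h4)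
  exact Complex.ofReal_eq_zero.mp h5

end

end Q70.Osc
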