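import Pool.Agent.Q70.OscE
import Pool.Agent.Q70.OscH
import Pool.Agent.Q70.OscI

/-! # A local Sturm–Hurwitz theorem

An even function of polynomial growth with a spectral gap `(-κ, κ)` whose sign changes in the
intervals `(r k, (1 + c₀) r k)` of a sparse sequence have upper density `< 2 κ` vanishes. -/

set_option autoImplicit false

open MeasureTheory Filter Topology Real

namespace Q70.Osc

open Pool.Agent.Y744

variable {κ L : ℝ}

/-- the product with a band-limited multiplier, made integrable -/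
lemma core2 {N : ℕ} {y : ℕ → ℕ → ℝ} {κ' s B : ℝ} {H W : ℝ → ℝ} (hL : 1 ≤ L)
    (hy : ∀ j, Near (y j)) (hκ' : 0 < κ') (hW : TK κ' W) (hκe : 2 * κ' + N / (2 * L) ≤ κ)
    (hm : Measurable H) (he : ∀ x, H (-x) = H x) (hB : ∀ x, |H x| ≤ B * (1 + x ^ 2))
    (hs : |s| = 1) (hz : ∀ K, TK κ K → ∫ x, H x * ct K x = 0) :
    ∃ (g : ℝ → ℝ) (B' Cg : ℝ), Measurable g ∧ (∀ x, g (-x) = g x) ∧
      (∀ x, |g x| ≤ B' * (1 + x ^ 2)⁻¹) ∧
      (∀ᵐ x, g x = s * H x * (GG y N (x / L) * ct W x)) ∧ 0 ≤ Cg ∧
      (∀ᵐ x, |GG y N (x / L) * ct W x| ≤ Cg) ∧ ∀ K, TK κ' K → ∫ x, g x * ct K x = 0 := by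
  have hL0 : 0 < L := by linarith
  have hB0 : 0 ≤ B := by
    have := (abs_nonneg _).trans (hB 0)
    simpa using this
  obtain ⟨D, hD0, hD⟩ := hW.decay (5 * N + 2)
  set Cg : ℝ := 25 ^ N * D with hCg
  have hCg0 : 0 ≤ Cg := by positivity
  have hxL : ∀ x : ℝ, (x / L) ^ 2 ≤ x ^ 2 := by
    intro x
    rw [div_pow]
    exact div_le_self (sq_nonneg _) (one_le_pow₀ hL)
  have hpb : ∀ x : ℝ, (25 * (1 + (x / L) ^ 2) ^ 5) ^ N ≤ 25 ^ N * (1 + x ^ 2) ^ (5 * N) := by
    intro x
    rw [mul_pow, ← pow_mul]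
    refine mul_le_mul_of_nonneg_left ?_ (by positivity)
    exact pow_le_pow_left₀ (by positivity) (by linarith [hxL x]) _
  set g : ℝ → ℝ := fun x => GG y N (x / L) * ct W x with hg
  have hgm : Measurable g := ((GG_meas hy N).comp (by fun_prop)).mul hW.ct_cont.measurable
  have hgb : ∀ᵐ x, |g x| ≤ Cg / (1 + x ^ 2) ^ 2 := by
    filter_upwards [ae_good hL0 y] with x hx
    simp only [hg]
    rw [abs_mul]
    have h1 := (GG_bound hy N hx.1).trans (hpb x)
    have hp : 0 < (1 + x ^ 2) ^ (5 * N) := by positivity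
    calc |GG y N (x / L)| * |ct W x| ≤ (25 ^ N * (1 + x ^ 2) ^ (5 * N)) *
          (D / (1 + x ^ 2) ^ (5 * N + 2)) := mul_le_mul h1 (hD x) (abs_nonneg _) (by positivity)
      _ = Cg / (1 + x ^ 2) ^ 2 := by
        rw [hCg]
        field_simp
        ring
  have hgb1 : ∀ᵐ x, |g x| ≤ Cg := by
    filter_upwards [hgb] with x hx
    refine hx.trans (div_le_self hCg0 (one_le_pow₀ ?_))
    linarith [sq_nonneg x]
  set g1 : ℝ → ℝ := fun x => if |g x| ≤ Cg / (1 + x ^ 2) ^ 2 then g x else 0 with hg1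
  have hg1m : Measurable g1 :=
    Measurable.ite (measurableSet_le hgm.abs (by fun_prop)) hgm measurable_const
  have hg1b : ∀ x, |g1 x| ≤ Cg / (1 + x ^ 2) ^ 2 := by
    intro x
    simp only [hg1]
    split_ifs with h
    · exact h
    · rw [abs_zero]
      positivity
  have hgg : ∀ᵐ x, g1 x = g x := by
    filter_upwards [hgb] with x hx
    simp only [hg1]
    rw [if_pos hx]
  have hge : ∀ x, g (-x) = g x := by
    intro x
    simp only [hg]
    rw [neg_div, GG_neg hy, TK.ct_neg]
  have hg1e : ∀ x, g1 (-x) = g1 x := by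
    intro x
    simp only [hg1]
    rw [hge, neg_sq]
  refine ⟨fun x => s * H x * g1 x, B * Cg, Cg, (measurable_const.mul hm).mul hg1m, fun x => ?_,
    fun x => ?_, ?_, hCg0, hgb1, fun K hK => ?_⟩
  · show s * H (-x) * g1 (-x) = s * H x * g1 x
    rw [he, hg1e]
  · show |s * H x * g1 x| ≤ _
    rw [abs_mul, abs_mul, hs, one_mul]
    calc |H x| * |g1 x| ≤ (B * (1 + x ^ 2)) * (Cg / (1 + x ^ 2) ^ 2) :=
          mul_le_mul (hB x) (hg1b x) (abs_nonneg _) (by positivity)
      _ = _ := by field_simp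
  · filter_upwards [hgg] with x h2
    rw [h2]
  · obtain ⟨K0, hK0, eK0⟩ := mulCt hW hK
    have hK0' : TK (2 * κ') K0 := by
      rw [two_mul]
      exact hK0
    choose KI hKI eKI using fun I => fam hL0 y N I hK0' (by positivity : 0 ≤ 2 * κ')
    obtain ⟨D0, hD00, hD0'⟩ := hK0.decay (5 * N + 2)
    have hlim : Tendsto (fun I => ∫ x, H x * ct (KI I) x) atTop
        (𝓝 (∫ x, H x * (GG y N (x / L) * ct K0 x))) := by
      refine tendsto_integral_of_dominated_convergence
        (fun x => B * (25 ^ N * D0) * (1 + x ^ 2)⁻¹) ?_ ?_ ?_ ?_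
      · exact fun I => (hm.mul (hKI I).ct_cont.measurable).aestronglyMeasurable
      · exact integrable_inv_one_add_sq.const_mul _
      · intro I
        filter_upwards [ae_good hL0 y] with x hx
        rw [fam_val hy N I hx.1 (eKI I x), Real.norm_eq_abs, abs_mul, abs_mul]
        have h1 := (GG_bound (fun j => near_hyb (hy j) I) N hx.1).trans (hpb x)
        calc |H x| * (|GG (fun j => hyb (y j) I) N (x / L)| * |ct K0 x|) ≤
            (B * (1 + x ^ 2)) * ((25 ^ N * (1 + x ^ 2) ^ (5 * N)) *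
              (D0 / (1 + x ^ 2) ^ (5 * N + 2))) := by
              refine mul_le_mul (hB x) (mul_le_mul h1 (hD0' x) (abs_nonneg _) (by positivity))
                (by positivity) (by positivity)
          _ = B * (25 ^ N * D0) * (1 + x ^ 2)⁻¹ := by
              field_simp
              ring
      · filter_upwards [ae_good hL0 y] with x hx
        have h1 : ∀ I, ct (KI I) x = GG (fun j => hyb (y j) I) N (x / L) * ct K0 x :=
          fun I => fam_val hy N I hx.1 (eKI I x)
        simp_rw [h1]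
        exact ((GG_lim hy N (x / L)).mul_const _).const_mul _
    have hzero : ∀ I, ∫ x, H x * ct (KI I) x = 0 := fun I => hz _ ((hKI I).mono hκe)
    simp_rw [hzero] at hlim
    have h0 := tendsto_nhds_unique hlim tendsto_const_nhds
    have e : ∫ x, s * H x * g1 x * ct K x = s * ∫ x, H x * (GG y N (x / L) * ct K0 x) := by
      rw [← integral_const_mul]
      refine integral_congr_ae ?_
      filter_upwards [hgg] with x hx
      rw [hx, eK0]
      simp only [hg]
      ring
    rw [e, h0, mul_zero]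

section

variable {g : ℝ → ℝ} {B : ℝ}

/-- vanishing of the Fourier transform -/
lemma ft_gap (hκ : 0 < κ) (hgm : Measurable g) (hge : ∀ x, g (-x) = g x) (hgi : Integrable g)
    (hz : ∀ K, TK κ K → ∫ x, g x * ct K x = 0) {s : ℝ} (hs : |s| ≤ π * κ) :
    Q97.BG.ft (fun t => (g t : ℂ)) s = 0 := by
  set σ : ℝ := s / (2 * π) with hσ
  have hπ := Real.pi_pos
  have hσκ : |σ| ≤ κ / 2 := by
    rw [hσ, abs_div, abs_of_pos (by positivity : (0 : ℝ) < 2 * π),
      div_le_div_iff₀ (by positivity) (by norm_num)]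
    linarith
  obtain ⟨P, D, hP, hP0, hP1, hP00, hD0, hPD⟩ := exists_phi hκ
  -- the cosine part
  have hc : ∫ t, g t * Real.cos (s * t) = 0 := by
    have hlim : Tendsto (fun k : ℕ => ∫ t, g t * (Real.cos (s * t) *
        ct P (1 / ((k : ℝ) + 2) * t))) atTop (𝓝 (∫ t, g t * (Real.cos (s * t) * ct P (0 * t)))) := by
      refine tendsto_integral_of_dominated_convergence (fun t => |g t|) ?_ hgi.abs ?_ ?_
      · intro k
        exact (hgm.mul ((by fun_prop : Continuous fun t : ℝ => Real.cos (s * t)).measurable.mul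
          (hP.ct_cont.measurable.comp (by fun_prop)))).aestronglyMeasurable
      · intro k
        refine Eventually.of_forall fun t => ?_
        rw [Real.norm_eq_abs, abs_mul, abs_mul]
        have h1 := Real.abs_cos_le_one (s * t)
        have h2 : |ct P (1 / ((k : ℝ) + 2) * t)| ≤ 1 := by
          rw [abs_of_nonneg (hP0 _)]
          exact hP1 _
        have h3 : |Real.cos (s * t)| * |ct P (1 / ((k : ℝ) + 2) * t)| ≤ 1 :=
          mul_le_one₀ h1 (abs_nonneg _) h2
        exact mul_le_of_le_one_right (abs_nonneg _) h3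
      · refine Eventually.of_forall fun t => ?_
        refine Tendsto.const_mul _ (Tendsto.const_mul _ ?_)
        refine (hP.ct_cont.tendsto _).comp ?_
        refine Tendsto.mul_const t ?_
        have h1 := tendsto_const_div_atTop_nhds_zero_nat (1 : ℝ)
        have h2 := (tendsto_add_atTop_iff_nat 2).2 h1
        refine h2.congr fun k => ?_
        push_cast
        rfl
    have hzero : ∀ k : ℕ, ∫ t, g t * (Real.cos (s * t) * ct P (1 / ((k : ℝ) + 2) * t)) = 0 := by
      intro k
      have hε : (0 : ℝ) < 1 / ((k : ℝ) + 2) := by positivity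
      have hε1 : 1 / ((k : ℝ) + 2) ≤ 1 / 2 := by
        apply one_div_le_one_div_of_le (by norm_num)
        have : (0 : ℝ) ≤ k := Nat.cast_nonneg k
        linarith
      have hT := (hP.dil hε).modul σ
      have h1 := hz _ (hT.mono (show 1 / ((k : ℝ) + 2) * κ + |σ| ≤ κ by nlinarith))
      rw [← h1]
      refine integral_congr_ae (Eventually.of_forall fun t => ?_)
      beta_reduce
      rw [(hP.dil hε).ct_modul, TK.ct_dil P hε]
      have e : 2 * π * σ * t = s * t := by
        rw [hσ]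
        field_simp
      rw [e]
    simp_rw [hzero] at hlim
    have h0 := tendsto_nhds_unique hlim tendsto_const_nhds
    rw [← h0]
    refine integral_congr_ae (Eventually.of_forall fun t => ?_)
    show g t * Real.cos (s * t) = g t * (Real.cos (s * t) * ct P (0 * t))
    rw [zero_mul, hP00, mul_one]
  have hs0 : ∫ t, g t * Real.sin (s * t) = 0 := by
    have h1 : ∫ t, g t * Real.sin (s * t) = ∫ t, g (-t) * Real.sin (s * (-t)) :=
      (integral_neg_eq_self (fun t => g t * Real.sin (s * t)) volume).symm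
    have h2 : ∫ t, g (-t) * Real.sin (s * (-t)) = -∫ t, g t * Real.sin (s * t) := by
      rw [← integral_neg]
      refine integral_congr_ae (Eventually.of_forall fun t => ?_)
      simp only
      rw [hge, mul_neg, Real.sin_neg]
      ring
    linarith
  have i1 : Integrable (fun t => g t * Real.cos (s * t)) :=
    hgi.norm.mono' (hgm.mul (by fun_prop)).aestronglyMeasurable
      (Eventually.of_forall fun t => by
        rw [norm_mul]
        exact mul_le_of_le_one_right (norm_nonneg _) (Real.abs_cos_le_one _))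
  have i2 : Integrable (fun t => g t * Real.sin (s * t)) :=
    hgi.norm.mono' (hgm.mul (by fun_prop)).aestronglyMeasurable
      (Eventually.of_forall fun t => by
        rw [norm_mul]
        exact mul_le_of_le_one_right (norm_nonneg _) (Real.abs_sin_le_one _))
  unfold Q97.BG.ft
  have e1 : ∀ t : ℝ, (g t : ℂ) * Complex.exp (-(s * t * Complex.I)) =
      ((g t * Real.cos (s * t) : ℝ) : ℂ) - ((g t * Real.sin (s * t) : ℝ) : ℂ) * Complex.I := by
    intro t
    have : -((s : ℂ) * t * Complex.I) = ((-(s * t) : ℝ) : ℂ) * Complex.I := by push_cast; ring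
    rw [this, Complex.exp_mul_I, ← Complex.ofReal_cos, ← Complex.ofReal_sin, Real.cos_neg,
      Real.sin_neg]
    push_cast
    ring
  have j1 : ∫ t : ℝ, ((g t * Real.cos (s * t) : ℝ) : ℂ) = 0 := by
    have := integral_ofReal (μ := (volume : Measure ℝ)) (𝕜 := ℂ)
      (f := fun t : ℝ => g t * Real.cos (s * t))
    rw [hc] at this
    simpa using this
  have j2 : ∫ t : ℝ, ((g t * Real.sin (s * t) : ℝ) : ℂ) = 0 := by
    have := integral_ofReal (μ := (volume : Measure ℝ)) (𝕜 := ℂ)
      (f := fun t : ℝ => g t * Real.sin (s * t))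
    rw [hs0] at this
    simpa using this
  rw [integral_congr_ae (Eventually.of_forall e1), integral_sub i1.ofReal
    (i2.ofReal.mul_const _), integral_mul_const, j1, j2, zero_mul, sub_zero]

lemma grow {r : ℕ → ℝ} {c0 : ℝ} (hc0 : 0 < c0) (hr0 : ∀ n, 0 < r n)
    (hr : ∀ n, (1 + c0) * r n < r (n + 1)) : Tendsto r atTop atTop := by
  have h1 : ∀ n, (1 + c0) ^ n * r 0 ≤ r n := by
    intro n
    induction n with
    | zero => simp
    | succ n ih =>
      rw [pow_succ]
      calc (1 + c0) ^ n * (1 + c0) * r 0 = (1 + c0) * ((1 + c0) ^ n * r 0) := by ring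
        _ ≤ (1 + c0) * r n := mul_le_mul_of_nonneg_left ih (by linarith)
        _ ≤ _ := (hr n).le
  refine tendsto_atTop_mono h1 ?_
  exact Tendsto.atTop_mul_const (hr0 0) (tendsto_pow_atTop_atTop_of_one_lt (by linarith))

lemma r_lt {r : ℕ → ℝ} {c0 : ℝ} (hc0 : 0 < c0) (hr0 : ∀ n, 0 < r n)
    (hr : ∀ n, (1 + c0) * r n < r (n + 1)) {j k : ℕ} (h : j < k) : (1 + c0) * r j < r k := by
  induction k with
  | zero => omega
  | succ k ih =>
    rcases Nat.lt_succ_iff_lt_or_eq.1 h with h1 | h1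
    · have h2 := ih h1
      have h3 := hr k
      have h4 := hr0 k
      nlinarith
    · rw [h1]
      exact hr k

/-- **a function with a spectral gap which is one-signed on a sparse sequence of intervals, up to
an exponentially small error, vanishes** -/
theorem one_sided_gap (hκ : 0 < κ) (hgm : Measurable g) (hge : ∀ x, g (-x) = g x)
    (hgb : ∀ x, |g x| ≤ B * (1 + x ^ 2)⁻¹) (hz : ∀ K, TK κ K → ∫ x, g x * ct K x = 0)
    {c0 C c : ℝ} (hc0 : 0 < c0) (hC : 0 ≤ C) (hc : 0 < c) {r : ℕ → ℝ} (hr0 : ∀ n, 0 < r n)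
    (hr : ∀ n, (1 + c0) * r n < r (n + 1))
    (hl : ∀ n, ∀ᵐ x, r n < x → x < (1 + c0) * r n → -(C * Real.exp (-(c * x))) ≤ g x) :
    ∀ᵐ x, g x = 0 := by
  have hB0 : 0 ≤ B := by
    have := (abs_nonneg _).trans (hgb 0)
    simpa using this
  have hgi : Integrable g := (integrable_inv_one_add_sq.const_mul B).mono'
    hgm.aestronglyMeasurable (Eventually.of_forall fun t => by
      rw [Real.norm_eq_abs]
      exact hgb t)
  have hg2 : MemLp (fun t => (g t : ℂ)) 2 := by
    rw [memLp_two_iff_integrable_sq_norm hgm.complex_ofReal.aestronglyMeasurable]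
    refine (integrable_inv_one_add_sq.const_mul (B ^ 2)).mono'
      (hgm.complex_ofReal.norm.pow_const 2).aestronglyMeasurable (Eventually.of_forall fun t => ?_)
    rw [Real.norm_of_nonneg (by positivity), Complex.norm_real, Real.norm_eq_abs]
    have h1 := pow_le_pow_left₀ (abs_nonneg _) (hgb t) 2
    refine h1.trans ?_
    rw [mul_pow]
    apply mul_le_mul_of_nonneg_left _ (by positivity)
    have h2 : (1 + t ^ 2)⁻¹ ≤ 1 := inv_le_one_of_one_le₀ (by nlinarith [sq_nonneg t])
    have h3 : 0 ≤ (1 + t ^ 2)⁻¹ := by positivity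
    nlinarith
  have hgB : ∀ x, |g x| ≤ B := fun x => (hgb x).trans (by
    have h2 : (1 + x ^ 2)⁻¹ ≤ 1 := inv_le_one_of_one_le₀ (by nlinarith [sq_nonneg x])
    exact mul_le_of_le_one_right hB0 h2)
  obtain ⟨C4, c4, η, a0, hC4, hc4, hη0, hη1, ha0, hmid⟩ :=
    mid_small hκ hgm hge hgB hz hc0 hC hc
  obtain ⟨n0, hn0⟩ := ((grow hc0 hr0 hr).eventually_ge_atTop (max a0 1)).exists_forall_of_atTop
  set a : ℕ → ℝ := fun n => r (n + n0) with ha
  have haa : ∀ n, a0 ≤ a n := fun n => (le_max_left _ _).trans (hn0 _ (Nat.le_add_left _ _))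
  have ha1 : ∀ n, 1 ≤ a n := fun n => (le_max_right _ _).trans (hn0 _ (Nat.le_add_left _ _))
  have hapos : ∀ n, 0 < a n := fun n => hr0 _
  have hlt : ∀ {n k : ℕ}, n < k → (1 + c0) * a n < a k := fun {n k} h =>
    r_lt hc0 hr0 hr (show n + n0 < k + n0 by omega)
  refine gap_realS (lam := η / 2) (r := fun n => η * a n / 2)
    (m := fun n => (1 + c0 / 2) * a n) (b := fun n => (1 + c0) * a n) (C4 := C4)
    (c4 := 2 * c4 / η) hgi hg2 (by positivity : 0 < π * κ)
    (fun s hs => ft_gap hκ hgm hge hgi hz hs) (by positivity) (fun n => ?_) (fun n => ?_) hC4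
    (by positivity) (fun n k hnk x h1 h2 => ?_) (fun n => ?_) ?_
  · have := ha1 n
    nlinarith
  · have := hapos n
    rw [abs_of_nonneg (by positivity)]
    nlinarith
  · have hin : ∀ n, |x - (1 + c0 / 2) * a n| < η * a n / 2 / 8 → a n < x ∧ x < (1 + c0) * a n := by
      intro n h
      rw [abs_lt] at h
      have h3 := hapos n
      have h4 : η * a n ≤ c0 / 2 * a n := mul_le_mul_of_nonneg_right hη1.le h3.le
      have h5 : 0 < c0 * a n := by positivity
      constructor <;> nlinarith [h.1, h.2]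
    have e1 := hin n h1
    have e2 := hin k h2
    rcases lt_or_gt_of_ne hnk with h | h
    · linarith [hlt h, e1.2, e2.1]
    · linarith [hlt h, e2.2, e1.1]
  · have h1 := hmid (a n) 1 (haa n) abs_one (by
      filter_upwards [hl (n + n0)] with x hx h2 h3
      rw [one_mul]
      exact hx h2 h3)
    have e1 : Metric.ball ((1 + c0 / 2) * a n) (2 * (η * a n / 2)) =
        Set.Ioo ((1 + c0 / 2) * a n - η * a n) ((1 + c0 / 2) * a n + η * a n) := by
      rw [Real.ball_eq_Ioo]
      congr 1 <;> ring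
    have e2 : 2 * c4 / η * (η * a n / 2) = c4 * a n := by field_simp
    rw [e1, e2]
    exact h1
  · have e : (fun n => (η * a n / 2 / ((1 + c0) * a n)) ^ 2) = fun _ : ℕ =>
        (η / (2 * (1 + c0))) ^ 2 := by
      funext n
      have := (hapos n).ne'
      field_simp
    rw [e, summable_const_iff]
    positivity

end

/-- **Local Sturm–Hurwitz theorem.** -/
theorem sturmL {ρ M C c B c0 : ℝ} {H : ℝ → ℝ} {n : ℝ → ℕ} (hκ : 0 < κ) (hρ : ρ < 2 * κ)
    (hρ0 : 0 ≤ ρ) (hM0 : 0 ≤ M)
    (hm : Measurable H) (he : ∀ x, H (-x) = H x) (hB : ∀ x, |H x| ≤ B * (1 + x ^ 2))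
    (hn : Monotone n) (hd : ∀ x y, x ≤ y → (n y : ℝ) ≤ n x + ρ * (y - x) + M)
    (hC : 0 ≤ C) (hc : 0 < c) (hc0 : 0 < c0) {r : ℕ → ℝ} (hr0 : ∀ k, 0 < r k)
    (hr : ∀ k, (1 + c0) * r k < r (k + 1))
    (hl : ∀ k, ∀ᵐ x, r k < x → x < (1 + c0) * r k →
      -(C * Real.exp (-(c * x))) ≤ (-1) ^ n x * H x)
    (hz : ∀ K, TK κ K → ∫ x, H x * ct K x = 0) : ∀ᵐ x, H x = 0 := by
  have hB0 : 0 ≤ B := by
    have := (abs_nonneg _).trans (hB 0)
    simpa using this
  -- the length
  obtain ⟨L, hL1, hLM⟩ : ∃ L : ℝ, 1 ≤ L ∧ M + 2 ≤ (2 * κ - ρ) * L := by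
    have h1 : 0 < 2 * κ - ρ := by linarith
    refine ⟨max 1 ((M + 2) / (2 * κ - ρ)), le_max_left _ _, ?_⟩
    have h3 : (M + 2) / (2 * κ - ρ) ≤ max 1 ((M + 2) / (2 * κ - ρ)) := le_max_right _ _
    rw [div_le_iff₀ h1] at h3
    linarith
  have hL0 : 0 < L := by linarith
  have hρL : 0 ≤ ρ * L := by positivity
  set N : ℕ := ⌈ρ * L + M⌉₊ + 1 with hN
  have hN1 : 0 < N := Nat.succ_pos _
  have hNr : (N : ℝ) < ρ * L + M + 2 := by
    rw [hN]
    push_cast
    have := Nat.ceil_lt_add_one (a := ρ * L + M) (by positivity)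
    linarith
  have hNl : ρ * L + M ≤ N := by
    rw [hN]
    push_cast
    have := Nat.le_ceil (ρ * L + M)
    linarith
  have hN2 : (N : ℝ) / (2 * L) < κ := by
    rw [div_lt_iff₀ (by positivity)]
    nlinarith
  -- normalisation near the origin
  set n' : ℝ → ℕ := fun x => n (max x L) with hn'
  have hn'm : Monotone n' := fun x y hxy => hn (max_le_max_right L hxy)
  have hn's : ∀ x, n' (x + L) ≤ n' x + N := by
    intro x
    simp only [hn']
    have h1 : max (x + L) L ≤ max x L + L := by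
      refine max_le ?_ ?_
      · linarith [le_max_left x L]
      · linarith [le_max_right x L]
    have h2 : max x L ≤ max (x + L) L := max_le_max_right L (by linarith)
    have h3 := hd _ _ h2
    have h4 : (n (max (x + L) L) : ℝ) ≤ n (max x L) + N := by
      have : ρ * (max (x + L) L - max x L) ≤ ρ * L := mul_le_mul_of_nonneg_left (by linarith) hρ0
      linarith
    exact_mod_cast h4
  have hn'0 : n' L = n' 0 := by
    simp only [hn']
    rw [max_self, max_eq_right hL0.le]
  obtain ⟨y, hy, hsgn⟩ := family hL0 hN1 hn'm hn'0 hn's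
  have hn'v : ∀ x, L ≤ x → n' x = n x := fun x hx => by simp only [hn']; rw [max_eq_left hx]
  set κ' : ℝ := (κ - N / (2 * L)) / 2 with hκ'
  have hκ'0 : 0 < κ' := by rw [hκ']; linarith
  have hκe : 2 * κ' + N / (2 * L) ≤ κ := by rw [hκ']; linarith
  obtain ⟨W, hW, hW0, hW1, hW2⟩ := exists_pos hκ'0
  set s : ℝ := (-1) ^ n' 0 with hs
  have hs1 : |s| = 1 := by rw [hs, abs_pow, abs_neg, abs_one, one_pow]
  have hs0 : s ≠ 0 := by
    intro h
    rw [h, abs_zero] at hs1
    exact zero_ne_one hs1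
  -- the intervals beyond `L`
  obtain ⟨k0, hk0⟩ := ((grow hc0 hr0 hr).eventually_ge_atTop L).exists_forall_of_atTop
  -- one step for every dilation
  have step : ∀ k : ℕ, ∀ᵐ x, H x * (GG y N (x / L) * ct W (1 / ((k : ℝ) + 1) * x)) = 0 := by
    intro k
    have hε : (0 : ℝ) < 1 / ((k : ℝ) + 1) := by positivity
    have hε1 : 1 / ((k : ℝ) + 1) ≤ 1 := by
      rw [div_le_one (by positivity)]
      have : (0 : ℝ) ≤ k := Nat.cast_nonneg k
      linarith
    set ε : ℝ := 1 / ((k : ℝ) + 1) with hεd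
    have hWk : TK κ' (fun α => ε⁻¹ * W (ε⁻¹ * α)) := (hW.dil hε).mono (by nlinarith)
    have hv : ∀ x, ct (fun α => ε⁻¹ * W (ε⁻¹ * α)) x = ct W (ε * x) := fun x => TK.ct_dil W hε x
    obtain ⟨g, B', Cg, hgm, hge, hgb, hgv, hCg0, hCg, hgz⟩ :=
      core2 hL1 hy hκ'0 hWk hκe hm he hB hs1 hz
    have hfin := one_sided_gap (C := C * Cg) (c := c) (r := fun j => r (j + k0)) hκ'0 hgm hge hgb
      hgz hc0 (by positivity) hc (fun j => hr0 _) (fun j => by
        have := hr (j + k0)
        show (1 + c0) * r (j + k0) < r (j + 1 + k0)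
        rw [show j + 1 + k0 = j + k0 + 1 by ring]
        exact this) ?_
    · filter_upwards [hfin, hgv] with x h1 h2
      rw [h1, hv] at h2
      have h3 : s * (H x * (GG y N (x / L) * ct W (ε * x))) = 0 := by
        rw [← mul_assoc]
        exact h2.symm
      exact (mul_eq_zero.1 h3).resolve_left hs0
    · intro j
      filter_upwards [hgv, hCg, hl (j + k0)] with x h1 h2 h3 h4 h5
      have hxL : L ≤ x := (hk0 _ (Nat.le_add_left _ _)).trans h4.le
      have hx0 : 0 ≤ x := hL0.le.trans hxL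
      have h6 := h3 h4 h5
      rw [h1]
      rw [hv] at h2 ⊢
      set G : ℝ := GG y N (x / L) * ct W (ε * x) with hG
      have h7 : 0 ≤ (-1 : ℝ) ^ (n x + n' 0) * G := by
        have h8 := hsgn x hx0
        rw [hn'v _ hxL] at h8
        rw [hG, ← mul_assoc]
        exact mul_nonneg h8 (hW0 _)
      have h8 : s * H x * G = ((-1 : ℝ) ^ n x * H x) * ((-1 : ℝ) ^ (n x + n' 0) * G) := by
        have h9 : ((-1 : ℝ) ^ n x) * (-1) ^ n x = 1 := by
          rw [← mul_pow]
          simp
        rw [pow_add, ← hs]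
        calc s * H x * G = (((-1 : ℝ) ^ n x) * (-1) ^ n x) * (s * H x * G) := by
              rw [h9, one_mul]
          _ = _ := by ring
      have h9 : (-1 : ℝ) ^ (n x + n' 0) * G ≤ Cg := by
        refine (le_abs_self _).trans ?_
        rw [abs_mul, abs_pow, abs_neg, abs_one, one_pow, one_mul]
        exact h2
      rw [h8]
      have h10 := mul_le_mul_of_nonneg_right h6 h7
      refine le_trans ?_ h10
      have hexp := Real.exp_pos (-(c * x))
      have h11 : C * Real.exp (-(c * x)) * ((-1 : ℝ) ^ (n x + n' 0) * G) ≤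
          C * Real.exp (-(c * x)) * Cg := mul_le_mul_of_nonneg_left h9 (by positivity)
      nlinarith
  filter_upwards [ae_all_iff.2 step, ae_good hL0 y] with x hx hgood
  have hG : GG y N (x / L) ≠ 0 := by
    unfold GG
    rw [Finset.prod_ne_zero_iff]
    exact fun j _ => F_ne_zero (hy j) (hgood.2 j)
  have h1 : ∀ k : ℕ, H x * ct W (1 / ((k : ℝ) + 1) * x) = 0 := by
    intro k
    have h2 := hx k
    have h3 : GG y N (x / L) * (H x * ct W (1 / ((k : ℝ) + 1) * x)) = 0 := by
      rw [← h2]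
      ring
    exact (mul_eq_zero.1 h3).resolve_left hG
  have h2 : Tendsto (fun k : ℕ => H x * ct W (1 / ((k : ℝ) + 1) * x)) atTop
      (𝓝 (H x * ct W (0 * x))) := by
    refine Tendsto.const_mul _ ?_
    refine (hW.ct_cont.tendsto _).comp ?_
    exact tendsto_one_div_add_atTop_nhds_zero_nat.mul_const x
  simp_rw [h1] at h2
  have h3 := tendsto_nhds_unique h2 tendsto_const_nhds
  rw [zero_mul] at h3
  exact (mul_eq_zero.1 h3).resolve_right hW1.ne'

end Q70.Osc
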