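import Pool.Agent.Q70.OscJ
import Pool.Agent.Q70.OscG

/-! # Few oscillations on a sparse sequence of intervals -/

set_option autoImplicit false

open MeasureTheory Filter Topology Real

namespace Q70.Osc

open Pool.Agent.Y744 Q241.HF

section Glue

variable {E b : ℝ → ℝ} {ρ M c0 : ℝ}

/-- few alternations in the interval `(r, (1 + c₀) r)` -/
def LocE (E b : ℝ → ℝ) (ρ M c0 r : ℝ) : Prop :=
  ∀ (m : ℕ) (β : ℕ → ℝ) (s : ℝ), s = 1 ∨ s = -1 → r < β 0 → β m < (1 + c0) * r →
    (∀ i, i < m → β i < β (i + 1)) → ρ * (β m - β 0) + M < m →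
    ∃ i, i ≤ m ∧ s * (-1) ^ i * E (β i) ≤ b (β i)

/-- the union of the intervals -/
def UU (c0 : ℝ) (r : ℕ → ℝ) : Set ℝ := ⋃ k, Set.Ioo (r k) ((1 + c0) * r k)

lemma few_glue (hM : 0 ≤ M) (hb : ∀ x, 0 ≤ b x) (hρ : 0 < ρ) (hc0 : 0 < c0) {r : ℕ → ℝ}
    (hr0 : ∀ k, 0 < r k) (hgap : ∀ k, (1 + c0) * r k + (M + 1) / ρ ≤ r (k + 1))
    (hloc : ∀ k, LocE E b ρ M c0 (r k)) : FewE ((UU c0 r).indicator E) b ρ M := by
  classical
  have hg0 : 0 < (M + 1) / ρ := by positivity
  have hmono : Monotone r := monotone_nat_of_le_succ fun k => by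
    have h1 := hgap k
    have h2 := hr0 k
    nlinarith
  have key : ∀ (m : ℕ) (β : ℕ → ℝ) (s : ℝ), s = 1 ∨ s = -1 → (∀ i, i < m → β i < β (i + 1)) →
      (∀ i, i ≤ m → b (β i) < s * (-1) ^ i * (UU c0 r).indicator E (β i)) →
      (m : ℝ) ≤ ρ * (β m - β 0) + M := by
    intro m
    induction m using Nat.strong_induction_on with
    | _ m ih =>
      intro β s hs hinc hamp
      have hU : ∀ i, i ≤ m → β i ∈ UU c0 r := by
        intro i hi
        by_contra hne
        have h1 := hamp i hi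
        rw [Set.indicator_of_notMem hne, mul_zero] at h1
        linarith [hb (β i)]
      have hval : ∀ i, i ≤ m → b (β i) < s * (-1) ^ i * E (β i) := by
        intro i hi
        have h1 := hamp i hi
        rwa [Set.indicator_of_mem (hU i hi)] at h1
      have hle : ∀ i j, i ≤ j → j ≤ m → β i ≤ β j := fun i j hij hj =>
        chain_mono (m := m + 1) (fun k hk => hinc k (by omega)) hij (by omega)
      obtain ⟨k, hk⟩ := Set.mem_iUnion.1 (hU m le_rfl)
      have hex : ∃ i, β i ∈ Set.Ioo (r k) ((1 + c0) * r k) := ⟨m, hk⟩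
      obtain ⟨i0, hi0, hmin⟩ : ∃ i0, β i0 ∈ Set.Ioo (r k) ((1 + c0) * r k) ∧
          ∀ j, j < i0 → ¬ β j ∈ Set.Ioo (r k) ((1 + c0) * r k) :=
        ⟨Nat.find hex, Nat.find_spec hex, fun j hj => Nat.find_min hex hj⟩
      have hi0m : i0 ≤ m := by
        by_contra hc
        push Not at hc
        exact hmin m hc hk
      obtain ⟨q, rfl⟩ := Nat.exists_eq_add_of_le hi0m
      -- the last interval
      have hlast : (q : ℝ) ≤ ρ * (β (i0 + q) - β i0) + M := by
        by_contra hcon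
        push Not at hcon
        have hs' : s * (-1) ^ i0 = 1 ∨ s * (-1) ^ i0 = -1 := by
          rcases neg_one_pow_eq_or ℝ i0 with h | h <;> rcases hs with h' | h' <;> rw [h, h'] <;>
            norm_num
        obtain ⟨i, hi, h1⟩ := hloc k q (fun i => β (i0 + i)) (s * (-1) ^ i0) hs'
          (by simpa using hi0.1) hk.2 (fun i hi => by
            have := hinc (i0 + i) (by omega)
            rwa [add_assoc] at this) (by simpa using hcon)
        have h2 := hval (i0 + i) (by omega)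
        rw [pow_add, ← mul_assoc] at h2
        have h3 : s * (-1) ^ i0 * (-1) ^ i * E (β (i0 + i)) ≤ b (β (i0 + i)) := h1
        linarith
      rcases Nat.eq_zero_or_pos i0 with h0 | hpos
      · subst h0
        rw [zero_add] at hlast ⊢
        exact hlast
      · obtain ⟨p, rfl⟩ : ∃ p, i0 = p + 1 := ⟨i0 - 1, by omega⟩
        have hprev := ih p (by omega) β s hs (fun i hi => hinc i (by omega))
          (fun i hi => hamp i (by omega))
        -- the gap
        have h1 := hmin p (Nat.lt_succ_self p)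
        have h2 : β p < β (p + 1) := hinc p (by omega)
        have h3 : β p ≤ r k := by
          by_contra hc
          push Not at hc
          exact h1 ⟨hc, h2.trans hi0.2⟩
        obtain ⟨j, hj⟩ := Set.mem_iUnion.1 (hU p (by omega))
        have hjk : j < k := by
          by_contra hc
          push Not at hc
          have := hmono hc
          linarith [hj.1]
        have h4 : r (j + 1) ≤ r k := hmono hjk
        have h5 := hgap j
        have h6 : (M + 1) / ρ ≤ β (p + 1) - β p := by linarith [hj.2, hi0.1]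
        have h7 : M + 1 ≤ ρ * (β (p + 1) - β p) := by
          rw [div_le_iff₀ hρ] at h6
          linarith
        push_cast
        nlinarith
  intro m β s hs h0 hinc hlt
  by_contra hcon
  push Not at hcon
  have := key m β s hs hinc fun i hi => hcon i hi
  linarith

end Glue

variable {A' : ℝ → ℝ} {C0 κ : ℝ}

lemma zeroL (hκ : 0 < κ) (hA' : Monotone A')
    (hneg : ∀ y, y < 0 → A' y = 0) (hb : ∀ y, |A' y| ≤ C0 * (1 + |y|))
    (hm : ∀ K, TK κ K → ∀ h, 0 < h →
      ∫ y, A' y * (ct K (y + h) - ct K (y - h)) = ∫ y, AG y * (ct K (y + h) - ct K (y - h)))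
    {C c ρ M c0 : ℝ} (hC : 0 ≤ C) (hc : 0 < c) (hρ0 : 0 < ρ) (hM0 : 0 ≤ M) (hρ : ρ < 2 * κ)
    (hc0 : 0 < c0) {r : ℕ → ℝ} (hr0 : ∀ k, 0 < r k)
    (hgap : ∀ k, (1 + c0) * r k + (M + 1) / ρ ≤ r (k + 1))
    (hF : ∀ k, LocE (fun y => A' y - AG y) (fun y => C * Real.exp (-(c * y))) ρ M c0 (r k)) :
    ∀ᵐ x, dE A' x = 0 := by
  have hC0 : 0 ≤ C0 := by
    have := (abs_nonneg _).trans (hb 0)
    simpa using this
  have hb2 : ∀ y, |A' y| ≤ (2 * C0) * (1 + y ^ 2) := by
    intro y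
    refine (hb y).trans ?_
    have h1 : 1 + |y| ≤ 2 * (1 + y ^ 2) := by
      have := sq_abs y
      nlinarith [sq_nonneg (|y| - 1), abs_nonneg y]
    nlinarith
  have hEm := dE_meas hA'
  have hEb := dE_lin hb
  set H : ℝ → ℝ := fun y => -(y * dE A' y) with hH
  have hHm : Measurable H := (measurable_id.mul hEm).neg
  have hHe : ∀ y, H (-y) = H y := by
    intro y
    simp only [hH]
    rw [dE_odd]
    ring
  set B : ℝ := 2 * (2 * C0 + 4) with hB
  have hHb : ∀ y, |H y| ≤ B * (1 + y ^ 2) := by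
    intro y
    simp only [hH]
    rw [abs_neg, abs_mul]
    have h1 : |y| * (1 + |y|) ≤ 2 * (1 + y ^ 2) := by
      have := sq_abs y
      nlinarith [sq_nonneg (|y| - 1), abs_nonneg y]
    calc |y| * |dE A' y| ≤ |y| * ((2 * C0 + 4) * (1 + |y|)) :=
          mul_le_mul_of_nonneg_left (hEb y) (abs_nonneg _)
      _ = (2 * C0 + 4) * (|y| * (1 + |y|)) := by ring
      _ ≤ (2 * C0 + 4) * (2 * (1 + y ^ 2)) := mul_le_mul_of_nonneg_left h1 (by positivity)
      _ = B * (1 + y ^ 2) := by rw [hB]; ring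
  have hbn : ∀ y : ℝ, 0 ≤ C * Real.exp (-(c * y)) := fun y => by positivity
  set b : ℝ → ℝ := fun y => C * Real.exp (-(c * y)) with hbdef
  set E1 : ℝ → ℝ := (UU c0 r).indicator fun y => A' y - AG y with hE1
  have hF' : FewE E1 b ρ M := few_glue hM0 hbn hρ0 hc0 hr0 hgap hF
  have hz : ∀ K, TK κ K → ∫ y, H y * ct K y = 0 := by
    intro K hK
    have h1 := mul_annih hK hEm (dE_bound hb2) fun L hL h hh => annih' hL hA' hb2 h (hm L hL h hh)
    have h2 : ∫ y, H y * ct K y = -∫ y, (y * dE A' y) * ct K y := by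
      rw [← integral_neg]
      refine integral_congr_ae (Eventually.of_forall fun y => ?_)
      show -(y * dE A' y) * ct K y = _
      ring
    rw [h2, h1, neg_zero]
  have hne : ∀ᵐ x : ℝ, x ≠ 0 := by
    rw [ae_iff]
    simp
  have hg0 : 0 < (M + 1) / ρ := by positivity
  have hfin := sturmL (n := cnt E1 b) (ρ := ρ) (M := M + 1) (C := 2 * C / c) (c := c / 2)
    (c0 := c0) (r := r) hκ hρ hρ0.le (by positivity) hHm hHe hHb (cnt_mono hρ0.le hM0 hF')
    (fun x y hxy => cnt_dens hρ0.le hM0 hF' hxy) (by positivity) (by positivity) hc0 hr0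
    (fun k => by linarith [hgap k]) ?_ hz
  · filter_upwards [hfin, hne] with y hy hy0
    have h1 : y * dE A' y = 0 := by
      have : -(y * dE A' y) = 0 := hy
      linarith
    exact (mul_eq_zero.1 h1).resolve_left hy0
  · intro k
    refine Eventually.of_forall fun y hy1 hy2 => ?_
    have hy0 : 0 < y := (hr0 k).trans hy1
    have h1 := cnt_sign hρ0.le hM0 hF' hbn hy0
    have hmem : y ∈ UU c0 r := Set.mem_iUnion.2 ⟨k, hy1, hy2⟩
    have h1' : (-1) ^ cnt E1 b y * (A' y - AG y) ≤ b y := by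
      have : E1 y = A' y - AG y := by rw [hE1, Set.indicator_of_mem hmem]
      rwa [this] at h1
    have h2 : H y = -(y * (A' y - AG y)) := by
      simp only [hH]
      rw [dE_pos hneg hy0]
    rw [h2]
    have h3 : y * (C * Real.exp (-(c * y))) ≤ 2 * C / c * Real.exp (-(c / 2 * y)) := by
      have e1 : Real.exp (-(c * y)) = Real.exp (-(c / 2 * y)) * Real.exp (-(c / 2 * y)) := by
        rw [← Real.exp_add]
        congr 1
        ring
      have e2 : y * Real.exp (-(c / 2 * y)) ≤ 2 / c := by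
        have h4 := Real.add_one_le_exp (c / 2 * y)
        rw [Real.exp_neg, ← div_eq_mul_inv, div_le_div_iff₀ (Real.exp_pos _) hc]
        nlinarith
      rw [e1]
      have h5 : 0 ≤ C * Real.exp (-(c / 2 * y)) := by positivity
      have h6 := mul_le_mul_of_nonneg_right e2 h5
      calc y * (C * (Real.exp (-(c / 2 * y)) * Real.exp (-(c / 2 * y)))) =
          y * Real.exp (-(c / 2 * y)) * (C * Real.exp (-(c / 2 * y))) := by ring
        _ ≤ 2 / c * (C * Real.exp (-(c / 2 * y))) := h6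
        _ = _ := by ring
    have h4 := mul_le_mul_of_nonneg_left h1' hy0.le
    have h5 : (-1 : ℝ) ^ cnt E1 b y * -(y * (A' y - AG y)) =
        -(y * ((-1 : ℝ) ^ cnt E1 b y * (A' y - AG y))) := by ring
    rw [h5]
    have h6 : y * b y = y * (C * Real.exp (-(c * y))) := rfl
    linarith

/-- few oscillations of the discrepancy along a filter, in the intervals of a system -/
def FewTL (l : Filter ℝ) (D : ℝ → ℝ → ℝ) (R : Set ℝ) (c0 ρ M C c : ℝ) : Prop :=
  ∀ r ∈ R, ∀ (m : ℕ) (β : ℕ → ℝ) (s : ℝ), s = 1 ∨ s = -1 → r < β 0 → β m < (1 + c0) * r →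
    (∀ i, i < m → β i < β (i + 1)) →
    ρ * (β m - β 0) + M < m → ∀ ε : ℝ, 0 < ε → ∀ᶠ T in l, ∃ i, i ≤ m ∧
      s * (-1) ^ i * D T (β i) < C * Real.exp (-(c * β i)) + ε

lemma exists_sparse {R : Set ℝ} (hR : ¬ BddAbove R) {c0 : ℝ} (hc0 : 0 < c0) (g0 : ℝ) :
    ∃ r : ℕ → ℝ, (∀ k, r k ∈ R) ∧ (∀ k, 0 < r k) ∧ ∀ k, (1 + c0) * r k + g0 ≤ r (k + 1) := by
  have hex : ∀ x : ℝ, ∃ r ∈ R, x < r := by
    intro x
    by_contra hcon
    push Not at hcon
    exact hR ⟨x, hcon⟩
  choose f hfR hf using hex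
  let r : ℕ → ℝ := fun n => Nat.rec (f 1) (fun _ x => f (max ((1 + c0) * x + g0) 1)) n
  have h0 : r 0 = f 1 := rfl
  have hs : ∀ n, r (n + 1) = f (max ((1 + c0) * r n + g0) 1) := fun n => rfl
  refine ⟨r, fun n => ?_, fun n => ?_, fun n => ?_⟩
  · cases n with
    | zero => rw [h0]; exact hfR 1
    | succ n => rw [hs]; exact hfR _
  · cases n with
    | zero => rw [h0]; linarith [hf 1]
    | succ n =>
      rw [hs]
      have := hf (max ((1 + c0) * r n + g0) 1)
      linarith [le_max_right ((1 + c0) * r n + g0) 1]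
  · rw [hs]
    have := hf (max ((1 + c0) * r n + g0) 1)
    linarith [le_max_left ((1 + c0) * r n + g0) 1]

theorem rigidL {A : ℝ → ℝ → ℝ} {T0 C0 κ : ℝ} (hκ : 0 < κ) (hmono : ∀ T, T0 ≤ T → Monotone (A T))
    (hneg : ∀ T y, y < 0 → A T y = 0) (hb : ∀ T, T0 ≤ T → ∀ y, |A T y| ≤ C0 * (1 + |y|))
    (hdiag : ∀ ε, 0 < ε → ∀ᶠ T in atTop, 1 - ε ≤ A T 0)
    (hmont : ∀ K, TK κ K → ∀ h, 0 < h →
      Tendsto (fun T => ∫ y, A T y * (ct K (y + h) - ct K (y - h))) atTop
        (𝓝 (∫ y, AG y * (ct K (y + h) - ct K (y - h)))))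
    {l : Filter ℝ} (hl : l ≤ atTop) {C c ρ M c0 : ℝ} {R : Set ℝ} (hR : ¬ BddAbove R)
    (hc0 : 0 < c0) (hC : 0 ≤ C) (hc : 0 < c) (hρ0 : 0 < ρ) (hM0 : 0 ≤ M) (hρ : ρ < 2 * κ)
    (hyp : FewTL l (fun T a => A T a - (1 + 2 * gp a)) R c0 ρ M C c) :
    ∀ x, Tendsto (fun T => A T x) l (𝓝 (AG x)) := by
  intro x
  rw [tendsto_iff_ultrafilter]
  intro g hg
  have hgt : (g : Filter ℝ) ≤ atTop := hg.trans hl
  have hT : ∀ᶠ T in (g : Filter ℝ), T0 ≤ T := hgt (eventually_ge_atTop _)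
  have hC0 : 0 ≤ C0 := by
    have := (abs_nonneg _).trans (hb T0 le_rfl 0)
    simpa using this
  have hb2 : ∀ T, T0 ≤ T → ∀ y, |A T y| ≤ (2 * C0) * (1 + y ^ 2) := by
    intro T hT y
    refine (hb T hT y).trans ?_
    have h1 : 1 + |y| ≤ 2 * (1 + y ^ 2) := by
      have := sq_abs y
      nlinarith [sq_nonneg (|y| - 1), abs_nonneg y]
    nlinarith
  have hex : ∀ y, ∃ L, Tendsto (fun T => A T y) (g : Filter ℝ) (𝓝 L) := by
    intro y
    have h1 : ((g.map fun T => A T y : Ultrafilter ℝ) : Filter ℝ) ≤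
        𝓟 (Set.Icc (-(C0 * (1 + |y|))) (C0 * (1 + |y|))) := by
      rw [le_principal_iff]
      have h2 : ∀ᶠ T in (g : Filter ℝ), A T y ∈
          Set.Icc (-(C0 * (1 + |y|))) (C0 * (1 + |y|)) := by
        filter_upwards [hT] with T hT1
        exact abs_le.1 (hb T hT1 y)
      exact h2
    obtain ⟨L, _, hL⟩ := isCompact_Icc.ultrafilter_le_nhds _ h1
    exact ⟨L, hL⟩
  choose A' hlim using hex
  have hA' : Monotone A' := by
    intro a b hab
    refine le_of_tendsto_of_tendsto (hlim a) (hlim b) ?_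
    filter_upwards [hT] with T hT1 using hmono T hT1 hab
  have hneg' : ∀ y, y < 0 → A' y = 0 := by
    intro y hy
    refine tendsto_nhds_unique (hlim y) ?_
    have : (fun T => A T y) = fun _ => 0 := funext fun T => hneg T y hy
    rw [this]
    exact tendsto_const_nhds
  have hb' : ∀ y, |A' y| ≤ C0 * (1 + |y|) := by
    intro y
    refine le_of_tendsto (hlim y).abs ?_
    filter_upwards [hT] with T hT1 using hb T hT1 y
  have h0 : 1 ≤ A' 0 := by
    refine le_of_forall_pos_le_add fun ε hε => ?_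
    have h1 : ∀ᶠ T in (g : Filter ℝ), 1 - ε ≤ A T 0 := hgt (hdiag ε hε)
    have := ge_of_tendsto (hlim 0) h1
    linarith
  have hm : ∀ K, TK κ K → ∀ h, 0 < h →
      ∫ y, A' y * (ct K (y + h) - ct K (y - h)) = ∫ y, AG y * (ct K (y + h) - ct K (y - h)) := by
    intro K hK h hh
    obtain ⟨D, hD⟩ := test_decay hK h
    refine lim_int hmono hb2 ?_ hD (hmont K hK h hh) hgt hA' hlim
    exact (hK.ct_cont.measurable.comp (by fun_prop)).sub (hK.ct_cont.measurable.comp (by fun_prop))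
  obtain ⟨r, hrR, hr0, hgap⟩ := exists_sparse hR hc0 ((M + 1) / ρ)
  have hfew : ∀ k, LocE (fun y => A' y - AG y) (fun y => C * Real.exp (-(c * y))) ρ M c0
      (r k) := by
    intro k m β s hs hβ0 hβm hinc hlt
    by_contra hcon
    push Not at hcon
    have hβpos : ∀ i, i ≤ m → 0 < β i := fun i hi =>
      ((hr0 k).trans hβ0).trans_le (chain_mono (m := m + 1) (fun j hj => hinc j (by omega))
        (Nat.zero_le _) (by omega))
    -- a margin
    obtain ⟨ε, hε, hmar⟩ : ∃ ε : ℝ, 0 < ε ∧ ∀ i, i ≤ m →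
        C * Real.exp (-(c * β i)) + 2 * ε ≤ s * (-1) ^ i * (A' (β i) - AG (β i)) := by
      have h1 : ∀ i, i ≤ m → 0 < s * (-1) ^ i * (A' (β i) - AG (β i)) -
          C * Real.exp (-(c * β i)) := fun i hi => sub_pos.2 (hcon i hi)
      obtain ⟨j, hj, hmin⟩ := Finset.exists_min_image (Finset.range (m + 1))
        (fun i => s * (-1) ^ i * (A' (β i) - AG (β i)) - C * Real.exp (-(c * β i)))
        ⟨0, Finset.mem_range.2 (by omega)⟩
      refine ⟨(s * (-1) ^ j * (A' (β j) - AG (β j)) - C * Real.exp (-(c * β j))) / 2,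
        half_pos (h1 j (by have := Finset.mem_range.1 hj; omega)), fun i hi => ?_⟩
      have h2 := hmin i (Finset.mem_range.2 (by omega))
      have h3 : s * (-1) ^ j * (A' (β j) - AG (β j)) - C * Real.exp (-(c * β j)) ≤
        s * (-1) ^ i * (A' (β i) - AG (β i)) - C * Real.exp (-(c * β i)) := h2
      linarith
    have hev : ∀ᶠ T in (g : Filter ℝ), ∀ i ∈ Finset.range (m + 1),
        C * Real.exp (-(c * β i)) + ε ≤ s * (-1) ^ i * (A T (β i) - (1 + 2 * gp (β i))) := by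
      rw [Filter.eventually_all_finset]
      intro i hi
      have hi' : i ≤ m := by have := Finset.mem_range.1 hi; omega
      have h1 : Tendsto (fun T => s * (-1) ^ i * (A T (β i) - (1 + 2 * gp (β i)))) (g : Filter ℝ)
          (𝓝 (s * (-1) ^ i * (A' (β i) - AG (β i)))) := by
        have e : AG (β i) = 1 + 2 * gp (β i) := by
          unfold AG
          rw [if_neg (not_lt.2 (hβpos i hi').le)]
        rw [e]
        exact ((hlim (β i)).sub_const _).const_mul _
      have h2 := hmar i hi'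
      exact ((tendsto_order.1 h1).1 _ (by linarith :
        C * Real.exp (-(c * β i)) + ε < s * (-1) ^ i * (A' (β i) - AG (β i)))).mono
        fun T hT => hT.le
    obtain ⟨T, hT1, i, hi, hT2⟩ :=
      (hev.and (hg (hyp (r k) (hrR k) m β s hs hβ0 hβm hinc hlt ε hε))).exists
    have := hT1 i (Finset.mem_range.2 (by omega))
    linarith
  have hz := zeroL hκ hA' hneg' hb' hm hC hc hρ0 hM0 hρ hc0 hr0 hgap hfew
  have hb2' : ∀ y, |A' y| ≤ (2 * C0) * (1 + y ^ 2) := by
    intro y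
    refine (hb' y).trans ?_
    have h1 : 1 + |y| ≤ 2 * (1 + y ^ 2) := by
      have := sq_abs y
      nlinarith [sq_nonneg (|y| - 1), abs_nonneg y]
    nlinarith
  have per : ∀ ℓ : ℝ, ∀ᵐ x, dE A' (x + ℓ) = dE A' x := by
    intro ℓ
    have h2 := (measurePreserving_add_right (volume : Measure ℝ) ℓ).quasiMeasurePreserving.ae hz
    filter_upwards [hz, h2] with x hx1 hx2
    rw [hx1]
    exact hx2
  have hirr : Irrational (Real.sqrt 2 / 1) := by
    rw [div_one]
    exact irrational_sqrt_two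
  have := limit_eq hA' hneg' hb2' h0 hirr (per _) (per _) x
  rw [← this]
  exact hlim x

theorem osc_AaL (RH : RiemannHypothesis) {l : Filter ℝ} (hl : l ≤ atTop) {C c ρ M c0 : ℝ}
    {R : Set ℝ} (hR : ¬ BddAbove R) (hc0 : 0 < c0) (hC : 0 ≤ C) (hc : 0 < c) (hρ : ρ < 2)
    (hyp : FewTL l (fun T a => Aa T a - (1 + 2 * gp a)) R c0 ρ M C c) :
    ∀ x, Tendsto (fun T => Aa T x) l (𝓝 (AG x)) := by
  obtain ⟨C0, T0, hT0, hb⟩ := Aa_linU
  set ρ' : ℝ := max ρ 1 with hρ'
  have hm0 : 0 < ρ' := lt_max_of_lt_right one_pos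
  have hm1 : ρ ≤ ρ' := le_max_left _ _
  have hm2 : ρ' < 2 := max_lt hρ (by norm_num)
  set κ : ℝ := (ρ' / 2 + 1) / 2 with hκ
  have hκ0 : 0 < κ := by rw [hκ]; positivity
  have hκ1 : κ < 1 := by rw [hκ]; linarith
  have hκρ : ρ' < 2 * κ := by rw [hκ]; linarith
  have hyp' : FewTL l (fun T a => Aa T a - (1 + 2 * gp a)) R c0 ρ' (max M 0) C c := by
    intro r hr m β s hs h0 h1 hinc hlt
    refine hyp r hr m β s hs h0 h1 hinc (lt_of_le_of_lt ?_ hlt)
    have h3 : β 0 ≤ β m := chain_mono (m := m + 1) (fun i hi => hinc i (by omega)) (Nat.zero_le _)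
      (by omega)
    have := mul_le_mul_of_nonneg_right hm1 (sub_nonneg.2 h3)
    linarith [le_max_left M 0]
  refine rigidL (κ := κ) hκ0 (T0 := T0) (fun T hT => Aa_mono (by linarith))
    (fun T y hy => Aa_neg T y hy) hb (fun ε hε => Aa_diag hε) (fun K hK h hh => ?_)
    hl hR hc0 hC hc hm0 (le_max_right _ _) hκρ hyp'
  have h1 := (mont_lim RH (NTf_fav hK hκ0 hκ1 hh)).neg
  rw [AG_mont hK hκ1 hh]
  refine h1.congr fun T => ?_
  rw [Aa_int hK hh]
  rw [div_eq_inv_mul]

/-- few oscillations in the intervals `(r, (1 + c₀) r)`, `r ∈ R` -/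
def FewL (l : Filter ℝ) (R : Set ℝ) (c0 ρ M C c : ℝ) : Prop :=
  ∀ r ∈ R, ∀ (m : ℕ) (β : ℕ → ℝ) (s : ℝ), (s = 1 ∨ s = -1) → r < β 0 → β m < (1 + c0) * r →
    (∀ i, i < m → β i < β (i + 1)) →
    ρ * (β m - β 0) + M < m → ∀ ε : ℝ, 0 < ε → ∀ᶠ T in l, ∃ i, i ≤ m ∧
      s * (-1) ^ i * Disc T (β i) < C * Real.exp (-(c * β i)) + ε

lemma FewL_T {l : Filter ℝ} (hl : l ≤ atTop) {R : Set ℝ} (hR0 : ∀ r ∈ R, 0 < r)
    {c0 ρ M C c : ℝ} (h : FewL l R c0 ρ M C c) :
    FewTL l (fun T a => Aa T a - (1 + 2 * gp a)) R c0 ρ M (max C 0) c := by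
  intro r hr m β s hs h0 hm hinc hlt ε hε
  have hpos : ∀ i, i ≤ m → 0 < β i := fun i hi =>
    ((hR0 r hr).trans h0).trans_le (chain_mono (m := m + 1) (fun j hj => hinc j (by omega))
      (Nat.zero_le _) (by omega))
  filter_upwards [h r hr m β s hs h0 hm hinc hlt ε hε, hl (eventually_ge_atTop 10)] with T h1 h2
  obtain ⟨i, hi, h3⟩ := h1
  refine ⟨i, hi, ?_⟩
  rw [Disc_eq h2 (hpos i hi)] at h3
  have h4 : C * Real.exp (-(c * β i)) ≤ max C 0 * Real.exp (-(c * β i)) :=
    mul_le_mul_of_nonneg_right (le_max_left _ _) (Real.exp_pos _).le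
  show s * (-1) ^ i * (Aa T (β i) - (1 + 2 * gp (β i))) < _
  linarith

theorem mainL (RH : RiemannHypothesis) {l : Filter ℝ} (hl : l ≤ atTop) {R : Set ℝ}
    (hR : ¬ BddAbove R) {c0 : ℝ} (hc0 : 0 < c0) :
    (G.Montgomery l ↔ ∃ ρ M C c : ℝ, ρ < 2 ∧ 0 < c ∧ FewL l (R ∩ Set.Ioi 0) c0 ρ M C c) ∧
    ∀ (n : ℝ → ℕ) (ρ M : ℝ), Monotone n → ρ < 2 →
      (∀ x y, 0 < x → x ≤ y → (n y : ℝ) ≤ n x + ρ * (y - x) + M) →
      (G.Montgomery l ↔ ∃ C c : ℝ, 0 < c ∧ ∀ r ∈ R, 0 < r → ∀ β : ℝ, r < β → β < (1 + c0) * r →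
        ∀ ε : ℝ, 0 < ε → ∀ᶠ T in l, (-1) ^ n β * Disc T β ≤ C * Real.exp (-(c * β)) + ε) := by
  have hR' : ¬ BddAbove (R ∩ Set.Ioi 0) := by
    rintro ⟨x, hx⟩
    refine hR ⟨max x 0, fun y hy => ?_⟩
    rcases le_or_gt y 0 with h | h
    · exact h.trans (le_max_right _ _)
    · exact (hx ⟨hy, h⟩).trans (le_max_left _ _)
  have hback : (∃ ρ M C c : ℝ, ρ < 2 ∧ 0 < c ∧ FewL l (R ∩ Set.Ioi 0) c0 ρ M C c) →
      G.Montgomery l := by
    rintro ⟨ρ, M, C, c, hρ, hc, hF⟩
    exact all_windows hl (osc_AaL RH hl hR' hc0 (le_max_right _ _) hc hρ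
      (FewL_T hl (fun r hr => hr.2) hF))
  refine ⟨⟨fun h => ⟨0, 0, 0, 1, by norm_num, one_pos, ?_⟩, hback⟩,
    fun n ρ M hn hρ hd => ⟨fun h => ⟨0, 1, one_pos, fun r _ hr0 β hβ _ ε hε => ?_⟩, ?_⟩⟩
  · intro r hr m β s hs h0 _ hinc _ ε hε
    have hr0 : 0 < r := hr.2
    have h1 := (Disc_lim hl h (hr0.trans h0)).const_mul s
    rw [mul_zero] at h1
    filter_upwards [(tendsto_order.1 h1).2 ε hε] with T hT
    refine ⟨0, Nat.zero_le _, ?_⟩
    rw [pow_zero, mul_one, zero_mul, zero_add]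
    exact hT
  · have h1 := (Disc_lim hl h (hr0.trans hβ)).const_mul ((-1) ^ n β)
    rw [mul_zero] at h1
    filter_upwards [(tendsto_order.1 h1).2 ε hε] with T hT
    rw [zero_mul, zero_add]
    exact hT.le
  · rintro ⟨C, c, hc, hyp⟩
    refine hback ⟨ρ, M, max C 0, c, hρ, hc, ?_⟩
    intro r hr m β s hs h0 hβm hinc hlt ε hε
    have hr0 : 0 < r := hr.2
    have hle : ∀ i j, i ≤ j → j ≤ m → β i ≤ β j := fun i j hij hj =>
      chain_mono (m := m + 1) (fun k hk => hinc k (by omega)) hij (by omega)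
    have hlo : ∀ i, i ≤ m → r < β i := fun i hi => h0.trans_le (hle 0 i (Nat.zero_le _) hi)
    have hhi : ∀ i, i ≤ m → β i < (1 + c0) * r := fun i hi => (hle i m hi le_rfl).trans_lt hβm
    have hpos : ∀ i, i ≤ m → 0 < β i := fun i hi => hr0.trans (hlo i hi)
    have hev : ∀ᶠ T in l, ∀ i ∈ Finset.range (m + 1),
        (-1) ^ n (β i) * Disc T (β i) ≤ C * Real.exp (-(c * β i)) + ε / 2 := by
      rw [Filter.eventually_all_finset]
      intro i hi
      have hi' : i ≤ m := by have := Finset.mem_range.1 hi; omega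
      exact hyp r hr.1 hr0 (β i) (hlo i hi') (hhi i hi') (ε / 2) (by positivity)
    filter_upwards [hev] with T hT
    by_contra hcon
    push Not at hcon
    -- the parities alternate
    have hs1 : s * s = 1 := by rcases hs with rfl | rfl <;> norm_num
    have hpar : ∀ i, i ≤ m → (-1 : ℝ) ^ n (β i) = -(s * (-1) ^ i) := by
      intro i hi
      have h1 := hT i (Finset.mem_range.2 (by omega))
      have h2 := hcon i hi
      have h3 : C * Real.exp (-(c * β i)) ≤ max C 0 * Real.exp (-(c * β i)) :=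
        mul_le_mul_of_nonneg_right (le_max_left _ _) (Real.exp_pos _).le
      have h4 : (-1 : ℝ) ^ n (β i) = 1 ∨ (-1 : ℝ) ^ n (β i) = -1 := neg_one_pow_eq_or ℝ _
      have h5 : s * (-1 : ℝ) ^ i = 1 ∨ s * (-1 : ℝ) ^ i = -1 := by
        rcases neg_one_pow_eq_or ℝ i with h | h <;> rcases hs with h' | h' <;> rw [h, h'] <;>
          norm_num
      rcases h4 with h4 | h4 <;> rcases h5 with h5 | h5 <;> rw [h4] at h1 <;> rw [h5] at h2 <;>
        rw [h4, h5]
      · linarith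
      · norm_num
      · linarith
    have hstep : ∀ i, i < m → n (β i) + 1 ≤ n (β (i + 1)) := by
      intro i hi
      have h1 := hn (hinc i hi).le
      rcases h1.eq_or_lt with h2 | h2
      · exfalso
        have h3 := hpar i hi.le
        have h4 := hpar (i + 1) hi
        rw [← h2, h3, pow_succ] at h4
        have h5 : s * (-1 : ℝ) ^ i = 0 := by linarith
        have h6 : (-1 : ℝ) ^ i ≠ 0 := pow_ne_zero _ (by norm_num)
        rcases mul_eq_zero.1 h5 with h7 | h7
        · rw [h7] at hs1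
          norm_num at hs1
        · exact h6 h7
      · exact h2
    have hsum : ∀ i, i ≤ m → n (β 0) + i ≤ n (β i) := by
      intro i
      induction i with
      | zero => intro _; simp
      | succ i ih =>
        intro hi
        have h1 := ih (by omega)
        have h2 := hstep i (by omega)
        omega
    have h1 := hsum m le_rfl
    have h2 : β 0 ≤ β m := hle 0 m (Nat.zero_le _) le_rfl
    have h3 := hd (β 0) (β m) (hpos 0 (Nat.zero_le _)) h2
    have h4 : (n (β 0) : ℝ) + m ≤ n (β m) := by exact_mod_cast h1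
    linarith

end Q70.Osc
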