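import Mathlib

set_option autoImplicit false
open MeasureTheory Filter Topology

namespace Q70

open scoped InnerProductSpace

/-- Cross terms with an almost invariant vector are uniformly small. -/
theorem cross_abstract {H : Type*} [NormedAddCommGroup H] [InnerProductSpace ℝ H] [CompleteSpace H]
    (U : H →L[ℝ] H) (hU : ∀ x, ‖U x‖ = ‖x‖) (v : H)
    (hv : ∀ x, U x = x → ⟪v, x⟫_ℝ = 0) (η : ℝ) (hη : 0 < η) :
    ∃ ε > 0, ∀ w : H, ‖w‖ ≤ 1 → ‖U w - w‖ ≤ ε →
      ∀ n : ℕ, |⟪(U ^ n) w, v⟫_ℝ| ≤ η ∧ |⟪(U ^ n) v, w⟫_ℝ| ≤ η := by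
  classical
  set A : H →L[ℝ] H := U - 1 with hA
  have hAapp : ∀ x, A x = U x - x := by intro x; simp [hA]
  -- iterates are isometric
  have hUn : ∀ (n : ℕ) x, ‖(U ^ n) x‖ = ‖x‖ := by
    intro n
    induction n with
    | zero => intro x; simp
    | succ n ih =>
      intro x
      rw [pow_succ]
      change ‖(U ^ n) (U x)‖ = ‖x‖
      rw [ih, hU]
  have hinner : ∀ x y, ⟪U x, U y⟫_ℝ = ⟪x, y⟫_ℝ := by
    have hl : ∀ x y, ⟪(LinearIsometry.mk U.toLinearMap hU) x,
      (LinearIsometry.mk U.toLinearMap hU) y⟫_ℝ = ⟪x, y⟫_ℝ :=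
      fun x y => LinearIsometry.inner_map_map _ x y
    exact hl
  have hUadj : ∀ x, (ContinuousLinearMap.adjoint U) (U x) = x := by
    intro x
    refine ext_inner_right ℝ fun y => ?_
    rw [ContinuousLinearMap.adjoint_inner_left, hinner]
  have hadjnorm : ∀ x, ‖(ContinuousLinearMap.adjoint U) x‖ ≤ ‖x‖ := by
    intro x
    have h1 : ‖ContinuousLinearMap.adjoint U‖ = ‖U‖ :=
      (ContinuousLinearMap.adjoint : (H →L[ℝ] H) ≃ₗᵢ⋆[ℝ] _).norm_map U
    have h2 : ‖U‖ ≤ 1 := ContinuousLinearMap.opNorm_le_bound _ zero_le_one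
      (fun x => by rw [hU, one_mul])
    calc ‖(ContinuousLinearMap.adjoint U) x‖ ≤ ‖ContinuousLinearMap.adjoint U‖ * ‖x‖ :=
          ContinuousLinearMap.le_opNorm _ _
      _ ≤ 1 * ‖x‖ := by rw [h1]; gcongr
      _ = ‖x‖ := one_mul _
  have hAadj : ∀ x, (ContinuousLinearMap.adjoint A) x = (ContinuousLinearMap.adjoint U) x - x := by
    intro x
    refine ext_inner_right ℝ fun y => ?_
    rw [ContinuousLinearMap.adjoint_inner_left, hAapp, inner_sub_left, inner_sub_right,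
      ContinuousLinearMap.adjoint_inner_left]
  have hAadjnorm : ∀ x, ‖(ContinuousLinearMap.adjoint A) x‖ ≤ ‖A x‖ := by
    intro x
    have : (ContinuousLinearMap.adjoint A) x = (ContinuousLinearMap.adjoint U) (x - U x) := by
      rw [hAadj, map_sub, hUadj]
    rw [this]
    refine (hadjnorm _).trans ?_
    rw [hAapp, norm_sub_rev]
  -- kernels
  have hker1 : v ∈ (LinearMap.ker A.toLinearMap)ᗮ := by
    rw [Submodule.mem_orthogonal]
    intro u hu
    have : U u = u := by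
      have h := LinearMap.mem_ker.1 hu
      have h' : A u = 0 := h
      rw [hAapp] at h'
      exact sub_eq_zero.1 h'
    rw [real_inner_comm]
    exact hv u this
  have hker2 : v ∈ (LinearMap.ker (ContinuousLinearMap.adjoint A).toLinearMap)ᗮ := by
    rw [Submodule.mem_orthogonal]
    intro u hu
    have h' : (ContinuousLinearMap.adjoint A) u = 0 := LinearMap.mem_ker.1 hu
    rw [hAadj] at h'
    have h2 : (ContinuousLinearMap.adjoint U) u = u := sub_eq_zero.1 h'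
    have h3 : ⟪U u, u⟫_ℝ = ⟪u, u⟫_ℝ := by
      rw [← ContinuousLinearMap.adjoint_inner_right, h2]
    have h4 : ‖U u - u‖ ^ 2 = 0 := by
      rw [norm_sub_sq_real, hU, h3, real_inner_self_eq_norm_sq]; ring
    have h5 : U u = u := by
      have : ‖U u - u‖ = 0 := by simpa using h4
      exact sub_eq_zero.1 (norm_eq_zero.1 this)
    rw [real_inner_comm]
    exact hv u h5
  have hc1 : v ∈ ((ContinuousLinearMap.adjoint A).range).topologicalClosure := by
    rw [← ContinuousLinearMap.orthogonal_ker]; exact hker1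
  have hc2 : v ∈ (A.range).topologicalClosure := by
    have := ContinuousLinearMap.orthogonal_ker (ContinuousLinearMap.adjoint A)
    rw [ContinuousLinearMap.adjoint_adjoint] at this
    rw [← this]; exact hker2
  have hη2 : (0:ℝ) < η / 2 := by positivity
  obtain ⟨_, ⟨y1, rfl⟩, hy1⟩ := Metric.mem_closure_iff.1 hc1 (η / 2) hη2
  obtain ⟨_, ⟨y2, rfl⟩, hy2⟩ := Metric.mem_closure_iff.1 hc2 (η / 2) hη2
  have hy1' : ‖v - (ContinuousLinearMap.adjoint A) y1‖ ≤ η / 2 := by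
    rw [dist_eq_norm] at hy1; exact hy1.le
  have hy2' : ‖v - A y2‖ ≤ η / 2 := by
    rw [dist_eq_norm] at hy2; exact hy2.le
  have hpos : (0:ℝ) < ‖y1‖ + ‖y2‖ + 1 := by positivity
  refine ⟨η / (2 * (‖y1‖ + ‖y2‖ + 1)), by positivity, ?_⟩
  intro w hw1 hw2 n
  have hcomm : ∀ (n : ℕ) x, A ((U ^ n) x) = (U ^ n) (A x) := by
    intro n x
    rw [hAapp, hAapp, map_sub]
    congr 1
    have e1 : U ((U ^ n) x) = (U ^ (n + 1)) x := by rw [pow_succ']; rfl
    have e2 : (U ^ n) (U x) = (U ^ (n + 1)) x := by rw [pow_succ]; rfl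
    rw [e1, e2]
  have hAw : ‖A w‖ ≤ η / (2 * (‖y1‖ + ‖y2‖ + 1)) := by rw [hAapp]; exact hw2
  constructor
  · have e1 : ⟪(U ^ n) w, v⟫_ℝ = ⟪(U ^ n) (A w), y1⟫_ℝ
        + ⟪(U ^ n) w, v - (ContinuousLinearMap.adjoint A) y1⟫_ℝ := by
      rw [inner_sub_right, ContinuousLinearMap.adjoint_inner_right, hcomm]; ring
    rw [e1]
    have b1 : |⟪(U ^ n) (A w), y1⟫_ℝ| ≤ η / 2 := by
      refine (abs_real_inner_le_norm _ _).trans ?_
      rw [hUn]
      calc ‖A w‖ * ‖y1‖ ≤ (η / (2 * (‖y1‖ + ‖y2‖ + 1))) * (‖y1‖ + ‖y2‖ + 1) := by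
            gcongr; linarith [norm_nonneg y2]
        _ = η / 2 := by field_simp
    have b2 : |⟪(U ^ n) w, v - (ContinuousLinearMap.adjoint A) y1⟫_ℝ| ≤ η / 2 := by
      refine (abs_real_inner_le_norm _ _).trans ?_
      rw [hUn]
      calc ‖w‖ * ‖v - (ContinuousLinearMap.adjoint A) y1‖ ≤ 1 * (η / 2) := by gcongr
        _ = η / 2 := one_mul _
    calc _ ≤ _ := abs_add_le _ _
      _ ≤ η / 2 + η / 2 := add_le_add b1 b2
      _ = η := by ring
  · have e1 : ⟪(U ^ n) v, w⟫_ℝ = ⟪(U ^ n) y2, (ContinuousLinearMap.adjoint A) w⟫_ℝ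
        + ⟪(U ^ n) (v - A y2), w⟫_ℝ := by
      rw [ContinuousLinearMap.adjoint_inner_right, hcomm, map_sub, inner_sub_left]; ring
    rw [e1]
    have b1 : |⟪(U ^ n) y2, (ContinuousLinearMap.adjoint A) w⟫_ℝ| ≤ η / 2 := by
      refine (abs_real_inner_le_norm _ _).trans ?_
      rw [hUn]
      calc ‖y2‖ * ‖(ContinuousLinearMap.adjoint A) w‖
          ≤ (‖y1‖ + ‖y2‖ + 1) * (η / (2 * (‖y1‖ + ‖y2‖ + 1))) := by
            gcongr
            · linarith [norm_nonneg y1]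
            · exact (hAadjnorm w).trans hAw
        _ = η / 2 := by field_simp
    have b2 : |⟪(U ^ n) (v - A y2), w⟫_ℝ| ≤ η / 2 := by
      refine (abs_real_inner_le_norm _ _).trans ?_
      rw [hUn]
      calc ‖v - A y2‖ * ‖w‖ ≤ (η / 2) * 1 := by gcongr
        _ = η / 2 := mul_one _
    calc _ ≤ _ := abs_add_le _ _
      _ ≤ η / 2 + η / 2 := add_le_add b1 b2
      _ = η := by ring

end Q70
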