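import Pool.Agent.Q70.OverRec1

set_option autoImplicit false
open MeasureTheory Filter Topology Set

namespace Q70

variable {X : Type*} [MeasurableSpace X] {μ : Measure X} [IsProbabilityMeasure μ] {T : X → X}

/-- mixing for sets, real version -/
def MixR (μ : Measure X) (T : X → X) : Prop :=
  ∀ A B : Set X, MeasurableSet A → MeasurableSet B →
    Tendsto (fun n : ℕ => μ.real (A ∩ T^[n] ⁻¹' B)) atTop (𝓝 (μ.real A * μ.real B))

/-- small sets of positive measure -/
theorem exists_small (hmix : MixR μ T) (hT : Measurable T)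
    (hA : ∃ A : Set X, MeasurableSet A ∧ 0 < μ.real A ∧ μ.real A < 1) (β : ℝ) (hβ : 0 < β) :
    ∃ B : Set X, MeasurableSet B ∧ 0 < μ.real B ∧ μ.real B ≤ β := by
  obtain ⟨A, hAm, hA0, hA1⟩ := hA
  set a := μ.real A with ha
  set t := (1 + a) / 2 with ht
  have ht0 : 0 < t := by positivity
  have ht1 : t < 1 := by rw [ht]; linarith
  have hat : a < t := by rw [ht]; linarith
  have key : ∀ k : ℕ, ∃ B : Set X, MeasurableSet B ∧ 0 < μ.real B ∧ μ.real B ≤ t ^ k := by
    intro k
    induction k with
    | zero => exact ⟨univ, MeasurableSet.univ, by simp, by simp⟩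
    | succ k ih =>
      obtain ⟨B, hBm, hB0, hB1⟩ := ih
      have h := hmix B A hBm hAm
      have h1 : 0 < μ.real B * μ.real A := mul_pos hB0 hA0
      have h2 : μ.real B * μ.real A < t * μ.real B := by rw [mul_comm]; gcongr
      have h3 := (h.eventually (lt_mem_nhds h1)).and (h.eventually (gt_mem_nhds h2))
      obtain ⟨n, hn1, hn2⟩ := h3.exists
      refine ⟨B ∩ T^[n] ⁻¹' A, hBm.inter ((hT.iterate n) hAm), hn1, ?_⟩
      calc _ ≤ t * μ.real B := hn2.le
        _ ≤ t * t ^ k := by gcongr
        _ = t ^ (k + 1) := by ring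
  obtain ⟨k, hk⟩ := exists_pow_lt_of_lt_one hβ ht1
  obtain ⟨B, h1, h2, h3⟩ := key k
  exact ⟨B, h1, h2, h3.trans hk.le⟩

/-- almost invariant sets of measure about one half -/
theorem exists_almost_inv (hmix : MixR μ T) (hT : MeasurePreserving T μ μ)
    (hA : ∃ A : Set X, MeasurableSet A ∧ 0 < μ.real A ∧ μ.real A < 1) (β : ℝ) (hβ : 0 < β) :
    ∃ W : Set X, MeasurableSet W ∧ μ.real W ≤ 1 / 2 + β ∧ 1 / 2 ≤ μ.real W ∧
      μ.real (W \ T ⁻¹' W) ≤ β ∧ μ.real (T ⁻¹' W \ W) ≤ β := by
  obtain ⟨B, hBm, hB0, hBβ⟩ := exists_small hmix hT.measurable hA β hβ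
  -- W M = union of first M preimages
  set W : ℕ → Set X := fun M => ⋃ m ∈ Finset.range M, T^[m] ⁻¹' B with hW
  have hWm : ∀ M, MeasurableSet (W M) := fun M =>
    Finset.measurableSet_biUnion _ fun m _ => (hT.measurable.iterate m) hBm
  have hWmono : Monotone W := by
    intro a b hab
    apply Set.biUnion_subset_biUnion_left
    intro m hm
    simp only [Finset.coe_range, Set.mem_Iio] at hm ⊢
    exact lt_of_lt_of_le hm hab
  have hWsucc : ∀ M, W (M + 1) = B ∪ T ⁻¹' (W M) := by
    intro M
    ext x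
    simp only [hW, mem_iUnion, Finset.mem_range, mem_preimage, mem_union, exists_prop]
    constructor
    · rintro ⟨m, hm, hx⟩
      rcases m with _ | m
      · left; simpa using hx
      · right; exact ⟨m, by omega, by rwa [Function.iterate_succ_apply] at hx⟩
    · rintro (hx | ⟨m, hm, hx⟩)
      · exact ⟨0, by omega, by simpa using hx⟩
      · exact ⟨m + 1, by omega, by rwa [Function.iterate_succ_apply]⟩
  have hWsucc' : ∀ M, W (M + 1) = W M ∪ T^[M] ⁻¹' B := by
    intro M
    ext x
    simp only [hW, mem_iUnion, Finset.mem_range, mem_preimage, mem_union, exists_prop]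
    constructor
    · rintro ⟨m, hm, hx⟩
      rcases Nat.lt_succ_iff_lt_or_eq.1 hm with h | h
      · left; exact ⟨m, h, hx⟩
      · right; rw [← h]; exact hx
    · rintro (⟨m, hm, hx⟩ | hx)
      · exact ⟨m, by omega, hx⟩
      · exact ⟨M, by omega, hx⟩
  have hpre : ∀ M, μ.real (T^[M] ⁻¹' B) = μ.real B := fun M =>
    (hT.iterate M).measureReal_preimage hBm.nullMeasurableSet
  -- limit
  set V : Set X := ⋃ M, W M with hV
  have hVm : MeasurableSet V := MeasurableSet.iUnion hWm
  have hVtend : Tendsto (fun M => μ.real (W M)) atTop (𝓝 (μ.real V)) := by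
    have := tendsto_measure_iUnion_atTop (μ := μ) hWmono
    exact (ENNReal.tendsto_toReal (measure_ne_top μ _)).comp this
  have hVinv : ∀ n, T^[n] ⁻¹' V ⊆ V := by
    intro n x hx
    simp only [hV, hW, mem_iUnion, Finset.mem_range, mem_preimage, exists_prop] at hx ⊢
    obtain ⟨M, m, hm, hx⟩ := hx
    refine ⟨m + n + 1, m + n, by omega, ?_⟩
    rwa [Function.iterate_add_apply]
  have hV1 : μ.real V = μ.real V * μ.real V := by
    have h := hmix V V hVm hVm
    have h' : (fun n : ℕ => μ.real (V ∩ T^[n] ⁻¹' V)) = fun _ => μ.real V := by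
      ext n
      rw [inter_eq_self_of_subset_right (hVinv n)]
      exact (hT.iterate n).measureReal_preimage hVm.nullMeasurableSet
    rw [h'] at h
    exact tendsto_nhds_unique tendsto_const_nhds h
  have hVpos : 0 < μ.real V := by
    refine lt_of_lt_of_le hB0 (measureReal_mono ?_)
    intro x hx
    simp only [hV, hW, mem_iUnion, Finset.mem_range, mem_preimage, exists_prop]
    exact ⟨1, 0, by omega, by simpa using hx⟩
  have hVone : μ.real V = 1 := by
    have : μ.real V * (μ.real V - 1) = 0 := by linarith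
    rcases mul_eq_zero.1 this with h | h
    · linarith
    · linarith
  rw [hVone] at hVtend
  have hex : ∃ M, 1 / 2 ≤ μ.real (W M) := by
    have := hVtend.eventually (lt_mem_nhds (show (1:ℝ) / 2 < 1 by norm_num))
    obtain ⟨M, hM⟩ := this.exists
    exact ⟨M, hM.le⟩
  classical
  set M := Nat.find hex with hM
  have hM1 : 1 / 2 ≤ μ.real (W M) := Nat.find_spec hex
  have hM0 : M ≠ 0 := by
    intro h
    rw [h] at hM1
    have : W 0 = ∅ := by simp [hW]
    rw [this] at hM1
    simp at hM1
    linarith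
  obtain ⟨M', hM'⟩ := Nat.exists_eq_succ_of_ne_zero hM0
  have hM2 : μ.real (W M') < 1 / 2 := by
    have := Nat.find_min hex (m := M') (by rw [← hM]; omega)
    linarith [not_le.1 this]
  have hM'' : M = M' + 1 := hM'
  refine ⟨W M, hWm M, ?_, hM1, ?_, ?_⟩
  · rw [hM'', hWsucc']
    calc _ ≤ μ.real (W M') + μ.real (T^[M'] ⁻¹' B) := measureReal_union_le _ _
      _ ≤ 1 / 2 + β := by rw [hpre]; linarith
  · -- W \ T⁻¹ W ⊆ B
    have : W M \ T ⁻¹' (W M) ⊆ B := by
      intro x hx
      have h1 : x ∈ B ∪ T ⁻¹' (W M) := by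
        rw [← hWsucc]
        exact hWmono (Nat.le_succ M) hx.1
      rcases h1 with h | h
      · exact h
      · exact absurd h hx.2
    exact (measureReal_mono this).trans hBβ
  · have : T ⁻¹' (W M) \ W M ⊆ T^[M] ⁻¹' B := by
      intro x hx
      have h1 : x ∈ W M ∪ T^[M] ⁻¹' B := by
        rw [← hWsucc', hWsucc]
        exact Or.inr hx.1
      rcases h1 with h | h
      · exact absurd h hx.2
      · exact h
    exact (measureReal_mono this).trans (by rw [hpre]; exact hBβ)

/-- mixing implies ergodic -/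
theorem ergodic_of_mix (hmix : MixR μ T) (hT : MeasurePreserving T μ μ) : Ergodic T μ := by
  refine ⟨hT, ⟨?_⟩⟩
  intro s hs hinv
  have hinvn : ∀ n, T^[n] ⁻¹' s = s := by
    intro n
    induction n with
    | zero => simp
    | succ n ih => rw [Function.iterate_succ', Set.preimage_comp, hinv, ih]
  have h := hmix s s hs hs
  have h' : (fun n : ℕ => μ.real (s ∩ T^[n] ⁻¹' s)) = fun _ => μ.real s := by
    ext n; rw [hinvn, inter_self]
  rw [h'] at h
  have h2 := tendsto_nhds_unique (tendsto_const_nhds) h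
  have : μ.real s * (μ.real s - 1) = 0 := by linarith
  rw [Filter.eventuallyConst_set']
  rcases mul_eq_zero.1 this with h | h
  · left
    have : μ s = 0 := (measureReal_eq_zero_iff).1 h
    exact ae_eq_empty.2 this
  · right
    have h3 : μ.real s = 1 := by linarith
    have : μ s = 1 := by
      rw [Measure.real] at h3
      rw [← ENNReal.ofReal_toReal (measure_ne_top μ s), h3, ENNReal.ofReal_one]
    rw [ae_eq_univ]
    rw [prob_compl_eq_zero_iff hs]; exact this

end Q70
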