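import Pool.Agent.Q70.OverRec2

set_option autoImplicit false
open MeasureTheory Filter Topology Set

namespace Q70

open scoped InnerProductSpace

variable {X : Type*} [MeasurableSpace X] {μ : Measure X} [IsProbabilityMeasure μ] {T : X → X}

theorem simple_int (f : SimpleFunc X ℝ) : Integrable f μ :=
  SimpleFunc.integrable_of_isFiniteMeasure f

theorem simple_mul_comp_int (f g : SimpleFunc X ℝ) (hT : Measurable T) (n : ℕ) :
    Integrable (fun x => f x * g (T^[n] x)) μ := by
  have h := simple_int (μ := μ) (f * g.comp (T^[n]) (hT.iterate n))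
  exact h

/-- mixing for simple functions -/
theorem mix_simple (hmix : MixR μ T) (hT : MeasurePreserving T μ μ) (f g : SimpleFunc X ℝ) :
    Tendsto (fun n : ℕ => ∫ x, f x * g (T^[n] x) ∂μ) atTop (𝓝 ((∫ x, f x ∂μ) * ∫ x, g x ∂μ)) := by
  induction f using SimpleFunc.induction with
  | const c hs =>
    rename_i A
    induction g using SimpleFunc.induction with
    | const d ht =>
      rename_i B
      have h := (hmix A B hs ht).const_mul (c * d)
      have e1 : ∀ n : ℕ, ∫ x, (SimpleFunc.piecewise A hs (SimpleFunc.const X c)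
          (SimpleFunc.const X 0)) x * (SimpleFunc.piecewise B ht (SimpleFunc.const X d)
          (SimpleFunc.const X 0)) (T^[n] x) ∂μ = c * d * μ.real (A ∩ T^[n] ⁻¹' B) := by
        intro n
        have : (fun x => (SimpleFunc.piecewise A hs (SimpleFunc.const X c)
          (SimpleFunc.const X 0)) x * (SimpleFunc.piecewise B ht (SimpleFunc.const X d)
          (SimpleFunc.const X 0)) (T^[n] x)) = (A ∩ T^[n] ⁻¹' B).indicator (fun _ => c * d) := by
          ext x
          by_cases h1 : x ∈ A <;> by_cases h2 : T^[n] x ∈ B <;>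
            simp [Set.indicator, h1, h2]
        rw [this, integral_indicator_const _ (hs.inter ((hT.measurable.iterate n) ht))]
        simp [mul_comm]
      have e2 : ∫ x, (SimpleFunc.piecewise A hs (SimpleFunc.const X c)
          (SimpleFunc.const X 0)) x ∂μ = c * μ.real A := by
        have : (fun x => (SimpleFunc.piecewise A hs (SimpleFunc.const X c)
          (SimpleFunc.const X 0)) x) = A.indicator (fun _ => c) := by
          ext x
          by_cases h1 : x ∈ A <;> simp [h1]
        rw [this, integral_indicator_const _ hs]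
        simp [mul_comm]
      have e3 : ∫ x, (SimpleFunc.piecewise B ht (SimpleFunc.const X d)
          (SimpleFunc.const X 0)) x ∂μ = d * μ.real B := by
        have : (fun x => (SimpleFunc.piecewise B ht (SimpleFunc.const X d)
          (SimpleFunc.const X 0)) x) = B.indicator (fun _ => d) := by
          ext x
          by_cases h1 : x ∈ B <;> simp [h1]
        rw [this, integral_indicator_const _ ht]
        simp [mul_comm]
      simp_rw [e1]
      rw [e2, e3]
      convert h using 2
      ring
    | add hdisj ih1 ih2 =>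
      rename_i g1 g2
      have h := ih1.add ih2
      have e1 : ∀ n : ℕ, ∫ x, (SimpleFunc.piecewise A hs (SimpleFunc.const X c)
          (SimpleFunc.const X 0)) x * (g1 + g2) (T^[n] x) ∂μ =
          (∫ x, (SimpleFunc.piecewise A hs (SimpleFunc.const X c)
          (SimpleFunc.const X 0)) x * g1 (T^[n] x) ∂μ) +
          ∫ x, (SimpleFunc.piecewise A hs (SimpleFunc.const X c)
          (SimpleFunc.const X 0)) x * g2 (T^[n] x) ∂μ := by
        intro n
        rw [← integral_add (simple_mul_comp_int _ _ hT.measurable n)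
          (simple_mul_comp_int _ _ hT.measurable n)]
        congr 1
        ext x
        simp [mul_add]
      have e2 : ∫ x, (g1 + g2) x ∂μ = (∫ x, g1 x ∂μ) + ∫ x, g2 x ∂μ := by
        rw [← integral_add (simple_int _) (simple_int _)]
        rfl
      simp_rw [e1]
      rw [e2, mul_add]
      exact h
  | add hdisj ih1 ih2 =>
    rename_i f1 f2
    have h := ih1.add ih2
    have e1 : ∀ n : ℕ, ∫ x, (f1 + f2) x * g (T^[n] x) ∂μ =
        (∫ x, f1 x * g (T^[n] x) ∂μ) + ∫ x, f2 x * g (T^[n] x) ∂μ := by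
      intro n
      rw [← integral_add (simple_mul_comp_int _ _ hT.measurable n)
        (simple_mul_comp_int _ _ hT.measurable n)]
      congr 1
      ext x
      simp [add_mul]
    have e2 : ∫ x, (f1 + f2) x ∂μ = (∫ x, f1 x ∂μ) + ∫ x, f2 x ∂μ := by
      rw [← integral_add (simple_int _) (simple_int _)]
      rfl
    simp_rw [e1]
    rw [e2, add_mul]
    exact h

theorem simple_memLp (f : SimpleFunc X ℝ) : MemLp f 2 μ := SimpleFunc.memLp_of_isFiniteMeasure f 2 μ

/-- the class in `L²` of a simple function -/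
noncomputable def cl (μ : Measure X) [IsProbabilityMeasure μ] (f : SimpleFunc X ℝ) : Lp ℝ 2 μ :=
  (simple_memLp f).toLp f

/-- Koopman operator -/
noncomputable def koop (hT : MeasurePreserving T μ μ) : Lp ℝ 2 μ →L[ℝ] Lp ℝ 2 μ :=
  (Lp.compMeasurePreservingₗᵢ ℝ T hT).toContinuousLinearMap

theorem koop_norm (hT : MeasurePreserving T μ μ) (x : Lp ℝ 2 μ) : ‖koop hT x‖ = ‖x‖ :=
  (Lp.compMeasurePreservingₗᵢ ℝ T hT).norm_map x

theorem koop_cl (hT : MeasurePreserving T μ μ) (f : SimpleFunc X ℝ) :
    koop hT (cl μ f) = cl μ (f.comp T hT.measurable) := rfl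

theorem koop_pow_cl (hT : MeasurePreserving T μ μ) (n : ℕ) (f : SimpleFunc X ℝ) :
    (koop hT ^ n) (cl μ f) = cl μ (f.comp (T^[n]) (hT.measurable.iterate n)) := by
  induction n generalizing f with
  | zero =>
    simp
    congr 1
  | succ n ih =>
    rw [pow_succ]
    change (koop hT ^ n) (koop hT (cl μ f)) = _
    rw [koop_cl, ih]
    congr 1
    ext x
    simp only [SimpleFunc.coe_comp, Function.comp_apply, Function.iterate_succ']

theorem inner_cl (f g : SimpleFunc X ℝ) : ⟪cl μ f, cl μ g⟫_ℝ = ∫ x, f x * g x ∂μ := by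
  rw [L2.inner_def]
  apply integral_congr_ae
  filter_upwards [(simple_memLp (μ := μ) f).coeFn_toLp, (simple_memLp (μ := μ) g).coeFn_toLp]
    with x h1 h2
  simp only [cl, h1, h2]
  simp [mul_comm]

theorem inner_koop (hT : MeasurePreserving T μ μ) (n : ℕ) (f g : SimpleFunc X ℝ) :
    ⟪(koop hT ^ n) (cl μ g), cl μ f⟫_ℝ = ∫ x, f x * g (T^[n] x) ∂μ := by
  rw [koop_pow_cl, inner_cl]
  apply integral_congr_ae
  filter_upwards with x
  simp [mul_comm]

/-- cross terms, function version -/
theorem cross_fun (hmix : MixR μ T) (hT : MeasurePreserving T μ μ) (s : SimpleFunc X ℝ)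
    (hs : ∫ x, s x ∂μ = 0) (η : ℝ) (hη : 0 < η) :
    ∃ ε > 0, ∀ u : SimpleFunc X ℝ, ‖cl μ u‖ ≤ 1 → ‖koop hT (cl μ u) - cl μ u‖ ≤ ε →
      ∀ n : ℕ, |∫ x, s x * u (T^[n] x) ∂μ| ≤ η ∧ |∫ x, u x * s (T^[n] x) ∂μ| ≤ η := by
  have herg := ergodic_of_mix hmix hT
  have hv : ∀ x : Lp ℝ 2 μ, koop hT x = x → ⟪cl μ s, x⟫_ℝ = 0 := by
    intro x hx
    have h1 : (x : X → ℝ) ∘ T =ᵐ[μ] x := by
      have := Lp.coeFn_compMeasurePreserving x hT
      have h2 : Lp.compMeasurePreserving T hT x = x := hx
      rw [h2] at this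
      exact this.symm
    obtain ⟨c, hc⟩ := herg.ae_eq_const_of_ae_eq_comp_ae (Lp.aestronglyMeasurable x) h1
    rw [L2.inner_def]
    have : ∫ a, ⟪(cl μ s) a, x a⟫_ℝ ∂μ = ∫ a, s a * c ∂μ := by
      apply integral_congr_ae
      filter_upwards [(simple_memLp (μ := μ) s).coeFn_toLp, hc] with a h1 h2
      simp only [cl, h1, h2]
      simp [mul_comm]
    rw [this, integral_mul_const, hs, zero_mul]
  obtain ⟨ε, hε, h⟩ := cross_abstract (koop hT) (koop_norm hT) (cl μ s) hv η hη
  refine ⟨ε, hε, ?_⟩
  intro u hu1 hu2 n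
  have := h (cl μ u) hu1 hu2 n
  rw [inner_koop, inner_koop] at this
  exact this

end Q70
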