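import Pool.Agent.Q70.OverRec3

set_option autoImplicit false
open MeasureTheory Filter Topology Set

namespace Q70

open scoped InnerProductSpace

variable {X : Type*} [MeasurableSpace X] {μ : Measure X} [IsProbabilityMeasure μ] {T : X → X}

/-- autocorrelation -/
noncomputable def acor (μ : Measure X) (T : X → X) (s : SimpleFunc X ℝ) (n : ℕ) : ℝ :=
  ∫ x, s x * s (T^[n] x) ∂μ

/-- centered indicator -/
noncomputable def cind (μ : Measure X) {W : Set X} (hW : MeasurableSet W) : SimpleFunc X ℝ :=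
  SimpleFunc.piecewise W hW (SimpleFunc.const X (1 - μ.real W)) (SimpleFunc.const X (-μ.real W))

omit [IsProbabilityMeasure μ] in
theorem cind_apply {W : Set X} (hW : MeasurableSet W) (x : X) :
    cind μ hW x = W.indicator (fun _ => (1:ℝ)) x - μ.real W := by
  by_cases h : x ∈ W
  · simp [cind, h]
  · simp [cind, h]

theorem cind_integral {W : Set X} (hW : MeasurableSet W) : ∫ x, cind μ hW x ∂μ = 0 := by
  simp_rw [cind_apply]
  rw [integral_sub ((integrable_const 1).indicator hW) (integrable_const _),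
    integral_indicator_const _ hW]
  simp

theorem cind_acor (hT : MeasurePreserving T μ μ) {W : Set X} (hW : MeasurableSet W) (n : ℕ) :
    acor μ T (cind μ hW) n = μ.real (W ∩ T^[n] ⁻¹' W) - μ.real W ^ 2 := by
  unfold acor
  have hW' : MeasurableSet (T^[n] ⁻¹' W) := (hT.measurable.iterate n) hW
  have e : ∀ x, cind μ hW x * cind μ hW (T^[n] x) =
      (W ∩ T^[n] ⁻¹' W).indicator (fun _ => (1:ℝ)) x
        - μ.real W * W.indicator (fun _ => (1:ℝ)) x
        - μ.real W * (T^[n] ⁻¹' W).indicator (fun _ => (1:ℝ)) x + μ.real W ^ 2 := by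
    intro x
    rw [cind_apply, cind_apply]
    by_cases h1 : x ∈ W <;> by_cases h2 : T^[n] x ∈ W <;>
      simp [Set.indicator, h1, h2] <;> ring
  simp_rw [e]
  have i1 : Integrable ((W ∩ T^[n] ⁻¹' W).indicator (fun _ => (1:ℝ))) μ :=
    (integrable_const 1).indicator (hW.inter hW')
  have i2 : Integrable (fun x => μ.real W * W.indicator (fun _ => (1:ℝ)) x) μ :=
    ((integrable_const 1).indicator hW).const_mul _
  have i3 : Integrable (fun x => μ.real W * (T^[n] ⁻¹' W).indicator (fun _ => (1:ℝ)) x) μ :=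
    ((integrable_const 1).indicator hW').const_mul _
  have i4 : Integrable (fun x => (W ∩ T^[n] ⁻¹' W).indicator (fun _ => (1:ℝ)) x
        - μ.real W * W.indicator (fun _ => (1:ℝ)) x) μ := i1.sub i2
  have i5 : Integrable (fun x => (W ∩ T^[n] ⁻¹' W).indicator (fun _ => (1:ℝ)) x
        - μ.real W * W.indicator (fun _ => (1:ℝ)) x
        - μ.real W * (T^[n] ⁻¹' W).indicator (fun _ => (1:ℝ)) x) μ := i4.sub i3
  rw [integral_add i5 (integrable_const _),
    integral_sub i4 i3, integral_sub i1 i2, integral_const_mul, integral_const_mul,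
    integral_indicator_const _ (hW.inter hW'), integral_indicator_const _ hW,
    integral_indicator_const _ hW', (hT.iterate n).measureReal_preimage hW.nullMeasurableSet]
  simp
  ring

theorem koop_pow_sub_le (hT : MeasurePreserving T μ μ) (x : Lp ℝ 2 μ) (n : ℕ) :
    ‖(koop hT ^ n) x - x‖ ≤ n * ‖koop hT x - x‖ := by
  induction n with
  | zero => simp
  | succ n ih =>
    have hn : ∀ (n : ℕ) (y : Lp ℝ 2 μ), ‖(koop hT ^ n) y‖ = ‖y‖ := by
      intro n
      induction n with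
      | zero => intro y; simp
      | succ n ih =>
        intro y
        rw [pow_succ]
        change ‖(koop hT ^ n) (koop hT y)‖ = ‖y‖
        rw [ih, koop_norm]
    have e : (koop hT ^ (n + 1)) x - x = (koop hT ^ n) (koop hT x - x) + ((koop hT ^ n) x - x) := by
      rw [pow_succ, map_sub]
      change (koop hT ^ n) (koop hT x) - x = _
      abel
    rw [e]
    calc _ ≤ ‖(koop hT ^ n) (koop hT x - x)‖ + ‖(koop hT ^ n) x - x‖ := norm_add_le _ _
      _ ≤ ‖koop hT x - x‖ + n * ‖koop hT x - x‖ := by rw [hn]; gcongr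
      _ = _ := by push_cast; ring

theorem step (hmix : MixR μ T) (hT : MeasurePreserving T μ μ)
    (hA : ∃ A : Set X, MeasurableSet A ∧ 0 < μ.real A ∧ μ.real A < 1) (s : SimpleFunc X ℝ)
    (hs : ∫ x, s x ∂μ = 0) (N : ℕ) (η : ℝ) (hη : 0 < η) :
    ∃ u : SimpleFunc X ℝ, (∀ x, |u x| ≤ 1) ∧ (∫ x, u x ∂μ = 0) ∧
      (∀ n, -(1 / 4) ≤ acor μ T u n) ∧ (∀ n ≤ N, 1 / 5 ≤ acor μ T u n) ∧
      ∀ n : ℕ, |∫ x, s x * u (T^[n] x) ∂μ| ≤ η ∧ |∫ x, u x * s (T^[n] x) ∂μ| ≤ η := by
  obtain ⟨ε₁, hε₁, hcross⟩ := cross_fun hmix hT s hs η hη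
  set ε := min ε₁ (1 / (100 * ((N:ℝ) + 1))) with hε
  have hεpos : 0 < ε := lt_min hε₁ (by positivity)
  have hε2 : ε ≤ 1 / (100 * ((N:ℝ) + 1)) := min_le_right _ _
  have hN : (N:ℝ) * ε ≤ 1 / 100 := by
    calc (N:ℝ) * ε ≤ (N + 1) * (1 / (100 * ((N:ℝ) + 1))) := by gcongr; linarith
      _ = 1 / 100 := by field_simp
  have hε3 : ε ≤ 1 / 100 := by
    refine hε2.trans ?_
    apply one_div_le_one_div_of_le (by norm_num)
    have : (0:ℝ) ≤ N := Nat.cast_nonneg N
    linarith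
  obtain ⟨W, hW, hW1, hW2, hW3, hW4⟩ := exists_almost_inv hmix hT hA (ε ^ 2 / 2) (by positivity)
  set a := μ.real W with ha
  have hβ : ε ^ 2 / 2 ≤ 1 / 20000 := by
    have : ε ^ 2 ≤ (1 / 100) ^ 2 := by gcongr
    linarith
  set u := cind μ hW with hu
  have hac : ∀ n, acor μ T u n = μ.real (W ∩ T^[n] ⁻¹' W) - a ^ 2 := fun n => cind_acor hT hW n
  have hinn : ∀ n, ⟪(koop hT ^ n) (cl μ u), cl μ u⟫_ℝ = acor μ T u n := fun n => inner_koop hT n u u
  have hnorm : ‖cl μ u‖ ^ 2 = a * (1 - a) := by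
    have := hinn 0
    rw [hac] at this
    simp only [pow_zero, Function.iterate_zero, preimage_id, inter_self] at this
    rw [← real_inner_self_eq_norm_sq]
    change ⟪(1 : Lp ℝ 2 μ →L[ℝ] Lp ℝ 2 μ) (cl μ u), cl μ u⟫_ℝ = _
    rw [this]; ring
  have hnorm1 : ‖cl μ u‖ ^ 2 ≤ 1 / 4 := by
    rw [hnorm]; nlinarith [sq_nonneg (a - 1 / 2)]
  have hnorm2 : 249 / 1000 ≤ ‖cl μ u‖ ^ 2 := by
    rw [hnorm]
    nlinarith
  have hnorm3 : ‖cl μ u‖ ≤ 1 / 2 := by
    apply abs_le_of_sq_le_sq' _ (by norm_num) |>.2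
    linarith
  have hdiff : ‖koop hT (cl μ u) - cl μ u‖ ^ 2 ≤ ε ^ 2 := by
    rw [norm_sub_sq_real, koop_norm]
    have h1 : ⟪koop hT (cl μ u), cl μ u⟫_ℝ = acor μ T u 1 := by
      rw [← hinn 1, pow_one]
    rw [h1, hac, hnorm]
    simp only [Function.iterate_one]
    have h2 : μ.real (W ∩ T ⁻¹' W) = a - μ.real (W \ T ⁻¹' W) := by
      have := measureReal_inter_add_sdiff (μ := μ) (s := W) (hT.measurable hW)
      linarith
    rw [h2]
    nlinarith
  have hdiff' : ‖koop hT (cl μ u) - cl μ u‖ ≤ ε :=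
    (abs_le_of_sq_le_sq' hdiff hεpos.le).2
  refine ⟨u, ?_, cind_integral hW, ?_, ?_, ?_⟩
  · intro x
    rw [hu, cind_apply]
    have ha0 : 0 ≤ a := measureReal_nonneg
    have ha1 : a ≤ 1 := measureReal_le_one
    by_cases h : x ∈ W
    · simp only [h, indicator_of_mem]
      rw [abs_le]; constructor <;> linarith
    · simp only [h, not_false_eq_true, indicator_of_notMem]
      rw [abs_le]; constructor <;> linarith
  · intro n
    rw [hac]
    have : 0 ≤ μ.real (W ∩ T^[n] ⁻¹' W) := measureReal_nonneg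
    have hn : ∀ y : Lp ℝ 2 μ, ‖(koop hT ^ n) y‖ = ‖y‖ := by
      induction n with
      | zero => intro y; simp
      | succ n ih =>
        intro y
        rw [pow_succ]
        change ‖(koop hT ^ n) (koop hT y)‖ = ‖y‖
        rw [ih measureReal_nonneg, koop_norm]
    have h1 := abs_real_inner_le_norm ((koop hT ^ n) (cl μ u)) (cl μ u)
    rw [hn, hinn, hac] at h1
    have h2 := (abs_le.1 h1).1
    nlinarith
  · intro n hn
    rw [← hinn]
    have h1 : ⟪(koop hT ^ n) (cl μ u), cl μ u⟫_ℝ = ‖cl μ u‖ ^ 2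
        + ⟪(koop hT ^ n) (cl μ u) - cl μ u, cl μ u⟫_ℝ := by
      rw [inner_sub_left, real_inner_self_eq_norm_sq]; ring
    rw [h1]
    have h2 := abs_real_inner_le_norm ((koop hT ^ n) (cl μ u) - cl μ u) (cl μ u)
    have h3 : ‖(koop hT ^ n) (cl μ u) - cl μ u‖ ≤ 1 / 100 := by
      refine (koop_pow_sub_le hT _ n).trans ?_
      calc (n:ℝ) * ‖koop hT (cl μ u) - cl μ u‖ ≤ N * ε := by gcongr
        _ ≤ _ := hN
    have h4 : ‖(koop hT ^ n) (cl μ u) - cl μ u‖ * ‖cl μ u‖ ≤ 1 / 100 * (1 / 2) := by gcongr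
    have h5 := (abs_le.1 h2).1
    linarith
  · exact hcross u (hnorm3.trans (by norm_num)) (hdiff'.trans (min_le_left _ _))

end Q70
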