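import Pool.Agent.Q70.OverRec4

set_option autoImplicit false
open MeasureTheory Filter Topology Set

namespace Q70

variable {X : Type*} [MeasurableSpace X] {μ : Measure X} [IsProbabilityMeasure μ] {T : X → X}

/-- dependent choice of a sequence along a relation with an invariant -/
theorem exists_seq_rel {α : Type*} (Inv : ℕ → α → Prop) (Rel : ℕ → α → α → Prop) (a₀ : α)
    (h0 : Inv 0 a₀) (hstep : ∀ k a, Inv k a → ∃ b, Inv (k + 1) b ∧ Rel k a b) :
    ∃ F : ℕ → α, F 0 = a₀ ∧ (∀ k, Inv k (F k)) ∧ ∀ k, Rel k (F k) (F (k + 1)) := by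
  classical
  let next : ∀ k : ℕ, {a // Inv k a} → {a // Inv (k + 1) a} := fun k a =>
    ⟨Classical.choose (hstep k a.1 a.2), (Classical.choose_spec (hstep k a.1 a.2)).1⟩
  let G : ∀ k : ℕ, {a // Inv k a} := fun k => Nat.rec ⟨a₀, h0⟩ (fun k a => next k a) k
  refine ⟨fun k => (G k).1, rfl, fun k => (G k).2, fun k => ?_⟩
  exact (Classical.choose_spec (hstep k (G k).1 (G k).2)).2

theorem acor_add_smul (hT : MeasurePreserving T μ μ) (s u : SimpleFunc X ℝ) (c : ℝ) (n : ℕ) :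
    acor μ T (s + c • u) n = acor μ T s n + c * (∫ x, s x * u (T^[n] x) ∂μ)
      + c * (∫ x, u x * s (T^[n] x) ∂μ) + c ^ 2 * acor μ T u n := by
  unfold acor
  have e : ∀ x, (s + c • u) x * (s + c • u) (T^[n] x) =
      s x * s (T^[n] x) + c * (s x * u (T^[n] x)) + c * (u x * s (T^[n] x))
        + c ^ 2 * (u x * u (T^[n] x)) := by
    intro x
    simp only [SimpleFunc.coe_add, SimpleFunc.coe_smul, Pi.add_apply, Pi.smul_apply, smul_eq_mul]
    ring
  simp_rw [e]
  have i1 : Integrable (fun x => s x * s (T^[n] x)) μ := simple_mul_comp_int s s hT.measurable n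
  have i2 : Integrable (fun x => c * (s x * u (T^[n] x))) μ :=
    (simple_mul_comp_int s u hT.measurable n).const_mul _
  have i3 : Integrable (fun x => c * (u x * s (T^[n] x))) μ :=
    (simple_mul_comp_int u s hT.measurable n).const_mul _
  have i4 : Integrable (fun x => c ^ 2 * (u x * u (T^[n] x))) μ :=
    (simple_mul_comp_int u u hT.measurable n).const_mul _
  have i12 : Integrable (fun x => s x * s (T^[n] x) + c * (s x * u (T^[n] x))) μ := i1.add i2
  have i123 : Integrable (fun x => s x * s (T^[n] x) + c * (s x * u (T^[n] x))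
    + c * (u x * s (T^[n] x))) μ := i12.add i3
  rw [integral_add i123 i4, integral_add i12 i3, integral_add i1 i2, integral_const_mul,
    integral_const_mul, integral_const_mul]

/-- the inductive construction -/
theorem exists_seq (hmix : MixR μ T) (hT : MeasurePreserving T μ μ)
    (hA : ∃ A : Set X, MeasurableSet A ∧ 0 < μ.real A ∧ μ.real A < 1) :
    ∃ (u : ℕ → SimpleFunc X ℝ) (s : ℕ → SimpleFunc X ℝ) (N : ℕ → ℕ),
      (∀ k x, |u k x| ≤ 1) ∧ s 0 = 0 ∧ N 0 = 0 ∧ StrictMono N ∧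
      (∀ k, s (k + 1) = s k + ((9:ℝ) / 10) ^ k • u k) ∧ (∀ k, ∫ x, s k x ∂μ = 0) ∧
      (∀ k, ∀ n ≥ N k, -(1 / 100 * ((81:ℝ) / 100) ^ k) ≤ acor μ T (s k) n) ∧
      (∀ k n, acor μ T (s k) n - 27 / 100 * ((81:ℝ) / 100) ^ k ≤ acor μ T (s (k + 1)) n) ∧
      (∀ k, ∀ n ≤ N k, acor μ T (s k) n + 18 / 100 * ((81:ℝ) / 100) ^ k
        ≤ acor μ T (s (k + 1)) n) := by
  let Inv : ℕ → SimpleFunc X ℝ × ℕ → Prop := fun k p =>
    (∫ x, p.1 x ∂μ = 0) ∧ ∀ n ≥ p.2, |acor μ T p.1 n| ≤ 1 / 100 * ((81:ℝ) / 100) ^ k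
  let Rel : ℕ → SimpleFunc X ℝ × ℕ → SimpleFunc X ℝ × ℕ → Prop := fun k p q =>
    p.2 < q.2 ∧ ∃ u : SimpleFunc X ℝ, (∀ x, |u x| ≤ 1) ∧ q.1 = p.1 + ((9:ℝ) / 10) ^ k • u ∧
      (∀ n, acor μ T p.1 n - 27 / 100 * ((81:ℝ) / 100) ^ k ≤ acor μ T q.1 n) ∧
      (∀ n ≤ p.2, acor μ T p.1 n + 18 / 100 * ((81:ℝ) / 100) ^ k ≤ acor μ T q.1 n)
  have h0 : Inv 0 (0, 0) := by
    refine ⟨by simp, fun n _ => ?_⟩
    simp [acor]
  have hpow : ∀ k : ℕ, (((9:ℝ) / 10) ^ k) ^ 2 = (81 / 100) ^ k := by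
    intro k
    rw [← pow_mul, mul_comm, pow_mul]; norm_num
  have hstep : ∀ k a, Inv k a → ∃ b, Inv (k + 1) b ∧ Rel k a b := by
    rintro k ⟨s, N⟩ ⟨hs, hsN⟩
    obtain ⟨u, hu1, hu2, hu3, hu4, hu5⟩ := step hmix hT hA s hs N (1 / 100 * (9 / 10) ^ k)
      (by positivity)
    set c : ℝ := (9 / 10) ^ k with hc
    have hc0 : 0 < c := by positivity
    set s' : SimpleFunc X ℝ := s + c • u with hs'
    have hs'0 : ∫ x, s' x ∂μ = 0 := by
      have : ∫ x, s' x ∂μ = (∫ x, s x ∂μ) + c * ∫ x, u x ∂μ := by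
        rw [← integral_const_mul, ← integral_add (simple_int _) ((simple_int _).const_mul _)]
        rfl
      rw [this, hs, hu2]; ring
    have hmixs := mix_simple hmix hT s' s'
    rw [hs'0, zero_mul] at hmixs
    have hpos : (0:ℝ) < 1 / 100 * (81 / 100) ^ (k + 1) := by positivity
    have hev := (Metric.tendsto_atTop.1 hmixs) _ hpos
    obtain ⟨N', hN'⟩ := hev
    have hcross : ∀ n, |c * (∫ x, s x * u (T^[n] x) ∂μ)| ≤ 1 / 100 * (81 / 100) ^ k ∧
        |c * (∫ x, u x * s (T^[n] x) ∂μ)| ≤ 1 / 100 * (81 / 100) ^ k := by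
      intro n
      obtain ⟨h1, h2⟩ := hu5 n
      constructor
      · rw [abs_mul, abs_of_pos hc0]
        calc c * |∫ x, s x * u (T^[n] x) ∂μ| ≤ c * (1 / 100 * c) := by gcongr
          _ = 1 / 100 * (81 / 100) ^ k := by rw [← hpow k]; ring
      · rw [abs_mul, abs_of_pos hc0]
        calc c * |∫ x, u x * s (T^[n] x) ∂μ| ≤ c * (1 / 100 * c) := by gcongr
          _ = 1 / 100 * (81 / 100) ^ k := by rw [← hpow k]; ring
    refine ⟨(s', max N' (N + 1)), ⟨hs'0, ?_⟩, ?_, u, hu1, rfl, ?_, ?_⟩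
    · intro n hn
      have := hN' n (le_trans (le_max_left _ _) hn)
      rw [Real.dist_eq, sub_zero] at this
      exact this.le
    · exact lt_of_lt_of_le (Nat.lt_succ_self N) (le_max_right _ _)
    · intro n
      simp only
      rw [hs', acor_add_smul hT, hpow k]
      obtain ⟨h1, h2⟩ := hcross n
      have h3 : (81 / 100 : ℝ) ^ k * (-(1 / 4)) ≤ (81 / 100 : ℝ) ^ k * acor μ T u n := by
        have := hu3 n
        gcongr
      have h1' := (abs_le.1 h1).1
      have h2' := (abs_le.1 h2).1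
      linarith
    · intro n hn
      simp only at hn ⊢
      rw [hs', acor_add_smul hT, hpow k]
      obtain ⟨h1, h2⟩ := hcross n
      have h3 : (81 / 100 : ℝ) ^ k * (1 / 5) ≤ (81 / 100 : ℝ) ^ k * acor μ T u n := by
        have := hu4 n hn
        gcongr
      have h1' := (abs_le.1 h1).1
      have h2' := (abs_le.1 h2).1
      linarith
  obtain ⟨F, hF0, hFI, hFR⟩ := exists_seq_rel Inv Rel (0, 0) h0 hstep
  choose hlt u hu1 hu2 hu3 hu4 using hFR
  refine ⟨u, fun k => (F k).1, fun k => (F k).2, hu1, ?_, ?_, strictMono_nat_of_lt_succ hlt, hu2,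
    fun k => (hFI k).1, ?_, hu3, hu4⟩
  · simp only [hF0]
  · simp only [hF0]
  · intro k n hn
    exact (abs_le.1 ((hFI k).2 n hn)).1

/-- lower bound for the limiting autocorrelations -/
theorem exists_lower {a : ℕ → ℕ → ℝ} {N : ℕ → ℕ} (hN0 : N 0 = 0) (hN : StrictMono N)
    (h1 : ∀ k, ∀ n ≥ N k, -(1 / 100 * ((81:ℝ) / 100) ^ k) ≤ a k n)
    (h2 : ∀ k n, a k n - 27 / 100 * ((81:ℝ) / 100) ^ k ≤ a (k + 1) n)
    (h3 : ∀ k, ∀ n ≤ N k, a k n + 18 / 100 * ((81:ℝ) / 100) ^ k ≤ a (k + 1) n) (n : ℕ) :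
    ∃ δ > 0, ∃ K, ∀ k ≥ K, δ ≤ a k n := by
  -- find k with N k ≤ n < N (k+1)
  have hex : ∃ k, n < N k := ⟨n + 1, lt_of_lt_of_le (Nat.lt_succ_self n) hN.le_apply⟩
  classical
  have hk0 : Nat.find hex ≠ 0 := by
    intro h
    have := Nat.find_spec hex
    rw [h, hN0] at this
    omega
  obtain ⟨k, hk⟩ := Nat.exists_eq_succ_of_ne_zero hk0
  have hk1 : n < N (k + 1) := by
    have := Nat.find_spec hex
    rwa [hk] at this
  have hk2 : N k ≤ n := by
    have := Nat.find_min hex (m := k) (by omega)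
    omega
  set q : ℝ := 81 / 100 with hq
  have hind : ∀ m : ℕ, q ^ k * (-(28 / 100) + 18 / 100 * q / (1 - q) * (1 - q ^ m))
      ≤ a (k + 1 + m) n := by
    intro m
    induction m with
    | zero =>
      have e1 := h1 k n hk2
      have e2 := h2 k n
      simp only [pow_zero, sub_self, mul_zero, add_zero]
      linarith
    | succ m ih =>
      have hle : n ≤ N (k + 1 + m) := hk1.le.trans (hN.monotone (by omega))
      have e3 := h3 (k + 1 + m) n hle
      have e4 : q ^ k * (-(28 / 100) + 18 / 100 * q / (1 - q) * (1 - q ^ (m + 1)))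
          = q ^ k * (-(28 / 100) + 18 / 100 * q / (1 - q) * (1 - q ^ m))
            + 18 / 100 * q ^ (k + 1 + m) := by
        have : (1:ℝ) - q ≠ 0 := by rw [hq]; norm_num
        field_simp
        ring
      rw [e4, ← add_assoc]
      linarith
  have hq0 : 0 < q := by rw [hq]; norm_num
  have hq1 : q < 1 := by rw [hq]; norm_num
  obtain ⟨m₀, hm₀⟩ := exists_pow_lt_of_lt_one (show (0:ℝ) < 1 / 10 by norm_num) hq1
  refine ⟨q ^ k * (1 / 10), by positivity, k + 1 + m₀, ?_⟩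
  intro j hj
  obtain ⟨m, rfl⟩ := Nat.exists_eq_add_of_le hj
  have e := hind (m₀ + m)
  rw [← add_assoc] at e
  refine le_trans ?_ e
  have hpm : q ^ (m₀ + m) ≤ 1 / 10 := by
    calc q ^ (m₀ + m) ≤ q ^ m₀ := pow_le_pow_of_le_one hq0.le hq1.le (by omega)
      _ ≤ 1 / 10 := hm₀.le
  have : (1:ℝ) / 10 ≤ -(28 / 100) + 18 / 100 * q / (1 - q) * (1 - q ^ (m₀ + m)) := by
    have hc : 18 / 100 * q / (1 - q) = 729 / 950 := by rw [hq]; norm_num
    rw [hc]
    linarith
  gcongr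

/-- Every nontrivial mixing system has a bounded strictly over-recurrent function. -/
theorem exists_overRec (hmix : MixR μ T) (hT : MeasurePreserving T μ μ)
    (hA : ∃ A : Set X, MeasurableSet A ∧ 0 < μ.real A ∧ μ.real A < 1) :
    ∃ f : X → ℝ, Measurable f ∧ (∀ x, |f x| ≤ 10) ∧ ∫ x, f x ∂μ = 0 ∧
      ∀ n : ℕ, 0 < ∫ x, f x * f (T^[n] x) ∂μ := by
  obtain ⟨u, s, N, hu1, hs0, hN0, hN, hs, hsint, h1, h2, h3⟩ := exists_seq hmix hT hA
  have hgeo : Summable (fun k : ℕ => ((9:ℝ) / 10) ^ k) :=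
    summable_geometric_of_lt_one (by norm_num) (by norm_num)
  have hgeo' : ∑' k : ℕ, ((9:ℝ) / 10) ^ k = 10 := by
    rw [tsum_geometric_of_lt_one (by norm_num) (by norm_num)]; norm_num
  set f : X → ℝ := fun x => ∑' k : ℕ, ((9:ℝ) / 10) ^ k * u k x with hf
  have hbd : ∀ x k, ‖((9:ℝ) / 10) ^ k * u k x‖ ≤ ((9:ℝ) / 10) ^ k := by
    intro x k
    rw [norm_mul, Real.norm_of_nonneg (by positivity : (0:ℝ) ≤ (9 / 10) ^ k), Real.norm_eq_abs]
    calc ((9:ℝ) / 10) ^ k * |u k x| ≤ (9 / 10) ^ k * 1 := by gcongr; exact hu1 k x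
      _ = _ := mul_one _
  have hsum : ∀ x, Summable (fun k : ℕ => ((9:ℝ) / 10) ^ k * u k x) := fun x =>
    Summable.of_norm_bounded hgeo (hbd x)
  have hsx : ∀ k x, s k x = ∑ j ∈ Finset.range k, ((9:ℝ) / 10) ^ j * u j x := by
    intro k x
    induction k with
    | zero => simp [hs0]
    | succ k ih =>
      rw [hs k, Finset.sum_range_succ, ← ih]
      simp
  have hlim : ∀ x, Tendsto (fun k => s k x) atTop (𝓝 (f x)) := by
    intro x
    simp_rw [hsx]
    exact (hsum x).hasSum.tendsto_sum_nat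
  have hsbd : ∀ k x, |s k x| ≤ 10 := by
    intro k x
    rw [hsx]
    calc |∑ j ∈ Finset.range k, ((9:ℝ) / 10) ^ j * u j x|
        ≤ ∑ j ∈ Finset.range k, |((9:ℝ) / 10) ^ j * u j x| := Finset.abs_sum_le_sum_abs _ _
      _ ≤ ∑ j ∈ Finset.range k, ((9:ℝ) / 10) ^ j := Finset.sum_le_sum fun j _ => hbd x j
      _ ≤ ∑' j : ℕ, ((9:ℝ) / 10) ^ j := hgeo.sum_le_tsum _ (fun j _ => by positivity)
      _ = 10 := hgeo'
  have hfm : Measurable f := measurable_of_tendsto_metrizable (fun k => (s k).measurable)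
    (tendsto_pi_nhds.2 hlim)
  have hfbd : ∀ x, |f x| ≤ 10 := fun x =>
    le_of_tendsto ((hlim x).abs) (Eventually.of_forall fun k => hsbd k x)
  have hint0 : ∫ x, f x ∂μ = 0 := by
    have := tendsto_integral_of_dominated_convergence (μ := μ) (F := fun k x => s k x) (f := f)
      (fun _ => (10:ℝ)) (fun k => (s k).measurable.aestronglyMeasurable) (integrable_const _)
      (fun k => Eventually.of_forall fun x => by rw [Real.norm_eq_abs]; exact hsbd k x)
      (Eventually.of_forall hlim)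
    simp_rw [hsint] at this
    exact (tendsto_nhds_unique tendsto_const_nhds this).symm
  refine ⟨f, hfm, hfbd, hint0, ?_⟩
  intro n
  obtain ⟨δ, hδ, K, hK⟩ := exists_lower hN0 hN h1 h2 h3 n
  have hconv : Tendsto (fun k => acor μ T (s k) n) atTop (𝓝 (∫ x, f x * f (T^[n] x) ∂μ)) := by
    unfold acor
    refine tendsto_integral_of_dominated_convergence (μ := μ)
      (fun _ => (100:ℝ)) (fun k => ?_) (integrable_const _) (fun k => ?_) ?_
    · exact ((s k).measurable.mul ((s k).measurable.comp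
        (hT.measurable.iterate n))).aestronglyMeasurable
    · refine Eventually.of_forall fun x => ?_
      rw [norm_mul, Real.norm_eq_abs, Real.norm_eq_abs]
      calc |s k x| * |s k (T^[n] x)| ≤ 10 * 10 := by gcongr <;> exact hsbd _ _
        _ = 100 := by norm_num
    · exact Eventually.of_forall fun x => (hlim x).mul (hlim _)
  exact lt_of_lt_of_le hδ (ge_of_tendsto hconv (eventually_atTop.2 ⟨K, hK⟩))

end Q70
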