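import Mathlib

set_option autoImplicit false

namespace Q70.Pa

open Filter Topology Set

/-- `c₀(ℕ × ℕ)` -/
abbrev X : Type := ZeroAtInftyContinuousMap (ℕ × ℕ) ℂ

def mk (f : ℕ × ℕ → ℂ) (hf : Tendsto f cofinite (𝓝 0)) : X where
  toFun := f
  continuous_toFun := continuous_of_discreteTopology
  zero_at_infty' := by rw [cocompact_eq_cofinite]; exact hf

@[simp] lemma mk_apply (f : ℕ × ℕ → ℂ) (hf : Tendsto f cofinite (𝓝 0)) (q : ℕ × ℕ) :
    mk f hf q = f q := rfl

lemma tz (x : X) : Tendsto (fun q => x q) cofinite (𝓝 0) := by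
  have := x.zero_at_infty'
  rw [cocompact_eq_cofinite] at this
  exact this

lemma apply_le (x : X) (q : ℕ × ℕ) : ‖x q‖ ≤ ‖x‖ := by
  rw [← ZeroAtInftyContinuousMap.norm_toBCF_eq_norm]
  exact x.toBCF.norm_coe_le_norm q

lemma norm_le' (x : X) (C : ℝ) (hC : 0 ≤ C) (h : ∀ q, ‖x q‖ ≤ C) : ‖x‖ ≤ C := by
  rw [← ZeroAtInftyContinuousMap.norm_toBCF_eq_norm]
  exact (BoundedContinuousFunction.norm_le hC).2 h

lemma tf {f : ℕ × ℕ → ℂ} (hf : (Function.support f).Finite) : Tendsto f cofinite (𝓝 0) := by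
  refine tendsto_const_nhds.congr' ?_
  have : ∀ᶠ q in cofinite, q ∉ Function.support f := hf.compl_mem_cofinite
  filter_upwards [this] with q hq
  exact (Function.notMem_support.1 hq).symm

/-- evaluation functional -/
noncomputable def ev (q : ℕ × ℕ) : X →L[ℂ] ℂ :=
  LinearMap.mkContinuous
    { toFun := fun x => x q
      map_add' := fun x y => rfl
      map_smul' := fun c x => rfl } 1 (fun x => by
        rw [one_mul]; exact apply_le x q)

@[simp] lemma ev_apply (q : ℕ × ℕ) (x : X) : ev q x = x q := rfl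

lemma ev_norm (q : ℕ × ℕ) : ‖ev q‖ ≤ 1 := LinearMap.mkContinuous_norm_le _ zero_le_one _

/-- basis vectors -/
noncomputable def e (q : ℕ × ℕ) : X :=
  mk (fun q' => if q' = q then 1 else 0) (tf ((finite_singleton q).subset (by
    intro q' hq'
    by_contra hne
    exact hq' (if_neg hne))))

lemma e_apply (q q' : ℕ × ℕ) : e q q' = if q' = q then 1 else 0 := rfl

/-- The parameters. -/
structure Par where
  h : ℕ → ℕ
  p : ℕ → ℕ
  D : ℕ → ℝ
  κ : ℕ → ℝ
  u : ℕ → (ℕ × ℕ →₀ ℂ)
  hh : ∀ n, 1 ≤ h n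
  hp : ∀ n, p n = 2 * (n + 1) * h n
  D1 : ∀ n, 1 ≤ D n
  κ0 : ∀ n, 0 < κ n
  κ1 : κ 0 ≤ 1 / 4
  κs : ∀ n, κ (n + 1) * (p n * 2 ^ (n + 2) * D n) ≤ κ n
  hb : ∀ n, 5 * (p n * 2 ^ (n + 1) * D n) ≤ κ n * 2 ^ h n
  us : ∀ n q, q ∈ (u n).support → q.1 < n
  uD : ∀ n, ∑ q ∈ (u n).support, ‖u n q‖ * (2 ^ h q.1 + 2 ^ q.1 * (2 * D q.1)) ≤ D n
  dense : ∀ z : ℕ × ℕ →₀ ℂ, ∀ ε : ℝ, 0 < ε → ∀ N : ℕ, ∃ n ≥ N,
    (u n).support ⊆ z.support ∧ ∀ q, ‖u n q - z q‖ < ε

variable (P : Par)

lemma Par.p2 (n : ℕ) : 2 * P.h n ≤ P.p n := by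
  rw [P.hp]
  nlinarith [P.hh n, Nat.zero_le n]

lemma Par.ppos (n : ℕ) : 2 ≤ P.p n := by
  have := P.p2 n
  have := P.hh n
  omega

lemma Par.pn (n : ℕ) : 2 * (n + 1) ≤ P.p n := by
  rw [P.hp]
  nlinarith [P.hh n, Nat.zero_le n]

/-- weights -/
def om (n i : ℕ) : ℝ := if i < P.p n then 2 ^ (min i (P.h n)) else 1

lemma om_pos (n i : ℕ) : 0 < om P n i := by
  unfold om; split_ifs <;> positivity

lemma om_ge (n i : ℕ) : 1 ≤ om P n i := by
  unfold om; split_ifs
  · exact one_le_pow₀ (by norm_num)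
  · exact le_refl 1

lemma om_le (n i : ℕ) : om P n i ≤ 2 ^ P.h n := by
  unfold om; split_ifs
  · exact pow_le_pow_right₀ (by norm_num) (min_le_right _ _)
  · exact one_le_pow₀ (by norm_num)

lemma om_zero (n : ℕ) : om P n 0 = 1 := by
  unfold om
  have := P.ppos n
  rw [if_pos (by omega)]; simp

lemma om_tail (n i : ℕ) (hi : P.p n ≤ i) : om P n i = 1 := by
  unfold om; rw [if_neg (by omega)]

lemma om_mid (n i : ℕ) (hi : P.h n ≤ i) (hi' : i < P.p n) : om P n i = 2 ^ P.h n := by
  unfold om; rw [if_pos hi', min_eq_right hi]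

lemma om_last (n : ℕ) : om P n (P.p n - 1) = 2 ^ P.h n := by
  have h1 := P.p2 n
  have h2 := P.hh n
  exact om_mid P n _ (by omega) (by omega)

lemma om_ratio (n i : ℕ) : om P n (i + 1) / om P n i ≤ 2 := by
  rw [div_le_iff₀ (om_pos P n i)]
  by_cases h1 : i + 1 < P.p n
  · unfold om
    rw [if_pos h1, if_pos (by omega)]
    have : min (i + 1) (P.h n) ≤ min i (P.h n) + 1 := by omega
    calc (2 : ℝ) ^ (min (i + 1) (P.h n)) ≤ 2 ^ (min i (P.h n) + 1) :=
          pow_le_pow_right₀ (by norm_num) this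
      _ = 2 * 2 ^ (min i (P.h n)) := by rw [pow_succ]; ring
  · rw [om_tail P n (i + 1) (by omega)]
    have := om_ge P n i
    linarith

/-- the index map of the level operator -/
def ph : ℕ × ℕ → ℕ × ℕ
  | (n, 0) => (n, P.p n - 1)
  | (n, i + 1) => (n, i)

/-- the coefficients of the level operator -/
noncomputable def co : ℕ × ℕ → ℝ
  | (n, 0) => (2 ^ P.h n)⁻¹
  | (n, i + 1) => om P n (i + 1) / om P n i

lemma co_nonneg (q : ℕ × ℕ) : 0 ≤ co P q := by
  obtain ⟨n, i⟩ := q
  cases i with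
  | zero => simp only [co]; positivity
  | succ i => exact div_nonneg (om_pos P n _).le (om_pos P n _).le

lemma co_le (q : ℕ × ℕ) : co P q ≤ 2 := by
  obtain ⟨n, i⟩ := q
  cases i with
  | zero =>
    simp only [co]
    have : (1 : ℝ) ≤ 2 ^ P.h n := one_le_pow₀ (by norm_num)
    calc ((2 : ℝ) ^ P.h n)⁻¹ ≤ 1 := inv_le_one_of_one_le₀ this
      _ ≤ 2 := by norm_num
  | succ i => exact om_ratio P n i

lemma ph_tendsto : Tendsto (ph P) cofinite cofinite := by
  apply Tendsto.cofinite_of_finite_preimage_singleton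
  intro b
  obtain ⟨n, i⟩ := b
  apply Set.Finite.subset (s := {(n, 0), (n, i + 1)})
  · exact (Set.finite_singleton _).insert _
  · rintro ⟨n', i'⟩ h
    cases i' with
    | zero =>
      simp only [ph, mem_preimage, mem_singleton_iff, Prod.mk.injEq] at h
      left; rw [h.1]
    | succ i' =>
      simp only [ph, mem_preimage, mem_singleton_iff, Prod.mk.injEq] at h
      right; rw [h.1, h.2]; rfl

lemma T0_tendsto (x : X) : Tendsto (fun q => (co P q : ℂ) * x (ph P q)) cofinite (𝓝 0) := by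
  have h1 : Tendsto (fun q => 2 * ‖x (ph P q)‖) cofinite (𝓝 0) := by
    have := ((tz x).comp (ph_tendsto P)).norm.const_mul 2
    simpa using this
  refine squeeze_zero_norm (fun q => ?_) h1
  rw [norm_mul, Complex.norm_real, Real.norm_of_nonneg (co_nonneg P q)]
  exact mul_le_mul_of_nonneg_right (co_le P q) (norm_nonneg _)

/-- the level operator -/
noncomputable def T0 : X →L[ℂ] X :=
  LinearMap.mkContinuous
    { toFun := fun x => mk _ (T0_tendsto P x)
      map_add' := fun x y => by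
        ext q
        simp only [mk_apply, ZeroAtInftyContinuousMap.add_apply]; ring
      map_smul' := fun c x => by
        ext q
        simp only [mk_apply, ZeroAtInftyContinuousMap.smul_apply, smul_eq_mul, RingHom.id_apply]
        ring } 2 (fun x => by
    apply norm_le' _ _ (by positivity)
    intro q
    change ‖(co P q : ℂ) * x (ph P q)‖ ≤ _
    rw [norm_mul, Complex.norm_real, Real.norm_of_nonneg (co_nonneg P q)]
    exact mul_le_mul (co_le P q) (apply_le x _) (norm_nonneg _) (by norm_num))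

lemma T0_apply (x : X) (q : ℕ × ℕ) : T0 P x q = (co P q : ℂ) * x (ph P q) := rfl

lemma T0_zero (x : X) (n : ℕ) : T0 P x (n, 0) = ((2 : ℂ) ^ P.h n)⁻¹ * x (n, P.p n - 1) := by
  rw [T0_apply]; simp [co, ph]

lemma T0_succ (x : X) (n i : ℕ) :
    T0 P x (n, i + 1) = ((om P n (i + 1) / om P n i : ℝ) : ℂ) * x (n, i) := rfl

/-- `lev n m` -/
noncomputable def levf (n m : ℕ) : ℕ × ℕ → ℂ := fun q =>
  if q.1 = n ∧ q.2 ≤ m ∧ q.2 ≡ m [MOD P.p n] then (om P n q.2 : ℂ) else 0

lemma levf_supp (n m : ℕ) : (Function.support (levf P n m)).Finite := by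
  apply ((Set.finite_singleton n).prod (Set.finite_Iic m)).subset
  intro q hq
  rw [Function.mem_support] at hq
  unfold levf at hq
  split_ifs at hq with h
  · exact ⟨h.1, h.2.1⟩
  · exact absurd rfl hq

noncomputable def lev (n m : ℕ) : X := mk (levf P n m) (tf (levf_supp P n m))

lemma lev_apply (n m : ℕ) (q : ℕ × ℕ) : lev P n m q =
    if q.1 = n ∧ q.2 ≤ m ∧ q.2 ≡ m [MOD P.p n] then (om P n q.2 : ℂ) else 0 := rfl

lemma lev_norm (n m : ℕ) : ‖lev P n m‖ ≤ 2 ^ P.h n := by
  apply norm_le' _ _ (by positivity)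
  intro q
  rw [lev_apply]
  split_ifs
  · rw [Complex.norm_real, Real.norm_of_nonneg (om_pos P n _).le]
    exact om_le P n _
  · simp

lemma lev_small (n s : ℕ) (hs : s < P.p n) : lev P n s = (om P n s : ℂ) • e (n, s) := by
  ext q
  rw [lev_apply, ZeroAtInftyContinuousMap.smul_apply, e_apply]
  by_cases h : q = (n, s)
  · subst h
    simp [Nat.ModEq.refl]
  · rw [if_neg h, if_neg]
    · simp
    · rintro ⟨h1, h2, h3⟩
      apply h
      have : q.2 = s := by
        have := Nat.ModEq.eq_of_lt_of_lt h3 (by omega) hs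
        exact this
      exact Prod.ext h1 this

lemma T0_lev (n m : ℕ) : T0 P (lev P n m) = lev P n (m + 1) := by
  ext q
  obtain ⟨n', i⟩ := q
  have hp := P.ppos n
  cases i with
  | zero =>
    rw [T0_zero, lev_apply, lev_apply]
    simp only
    by_cases hn : n' = n
    · subst hn
      by_cases h : (m + 1) % P.p n' = 0
      · have h1 : P.p n' - 1 ≤ m := by
          have : P.p n' ≤ m + 1 := Nat.le_of_dvd (by omega) (Nat.dvd_of_mod_eq_zero h)
          omega
        have h2 : P.p n' - 1 ≡ m [MOD P.p n'] := by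
          apply Nat.ModEq.add_right_cancel' 1
          have : P.p n' - 1 + 1 = P.p n' := by omega
          rw [this]
          unfold Nat.ModEq
          rw [Nat.mod_self, h]
        rw [if_pos ⟨rfl, h1, h2⟩, if_pos ⟨rfl, by omega, by
          unfold Nat.ModEq; rw [h]; simp⟩, om_last, om_zero]
        push_cast
        field_simp
      · rw [if_neg, if_neg]
        · simp
        · rintro ⟨-, -, h3⟩
          apply h
          unfold Nat.ModEq at h3
          rw [← h3]; simp
        · rintro ⟨-, h2, h3⟩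
          apply h
          have := Nat.ModEq.add_right 1 h3
          have e1 : P.p n' - 1 + 1 = P.p n' := by omega
          rw [e1] at this
          unfold Nat.ModEq at this
          rw [← this, Nat.mod_self]
    · rw [if_neg (fun h => hn h.1), if_neg (fun h => hn h.1)]; simp
  | succ i =>
    rw [T0_succ, lev_apply, lev_apply]
    simp only
    by_cases hn : n' = n
    · subst hn
      have hne : (om P n' i : ℂ) ≠ 0 := by exact_mod_cast (om_pos P n' i).ne'
      by_cases h : i ≤ m ∧ i ≡ m [MOD P.p n']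
      · rw [if_pos ⟨rfl, h⟩, if_pos ⟨rfl, by omega, h.2.add_right 1⟩]
        push_cast
        field_simp
      · rw [if_neg (fun h' => h h'.2), if_neg]
        · simp
        · rintro ⟨-, h2, h3⟩
          exact h ⟨by omega, Nat.ModEq.add_right_cancel' 1 h3⟩
    · rw [if_neg (fun h => hn h.1), if_neg (fun h => hn h.1)]; simp

lemma T0_tail (n i : ℕ) (hi : P.p n ≤ i) : T0 P (e (n, i)) = e (n, i + 1) := by
  ext q
  obtain ⟨n', j⟩ := q
  have hp := P.ppos n
  cases j with
  | zero =>
    rw [T0_zero, e_apply, e_apply, if_neg, if_neg]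
    · simp
    · simp
    · intro h
      rw [Prod.mk.injEq] at h
      obtain ⟨h1, h2⟩ := h
      subst h1
      omega
  | succ j =>
    rw [T0_succ, e_apply, e_apply]
    by_cases h : n' = n ∧ j = i
    · obtain ⟨rfl, rfl⟩ := h
      rw [if_pos rfl, if_pos rfl, om_tail P _ _ hi, om_tail P _ _ (by omega)]
      simp
    · rw [if_neg (fun h' => h (by rw [Prod.mk.injEq] at h'; exact h')),
        if_neg (fun h' => h (by rw [Prod.mk.injEq] at h'; exact ⟨h'.1, by omega⟩))]
      simp

/-- the formula for `T0^m` on blocks -/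
lemma T0_pow (x : X) (n s : ℕ) (hs : s < P.p n) : ∀ m i : ℕ, i ≤ m + s → i ≡ m + s [MOD P.p n] →
    ((T0 P) ^ m) x (n, i) = (om P n i : ℂ) * (x (n, s) / (om P n s : ℂ)) := by
  intro m
  induction m with
  | zero =>
    intro i h1 h2
    rw [zero_add] at h1 h2
    have : i = s := Nat.ModEq.eq_of_lt_of_lt h2 (by omega) hs
    subst this
    have hne : (om P n i : ℂ) ≠ 0 := by exact_mod_cast (om_pos P n i).ne'
    rw [pow_zero]
    change x (n, i) = _
    field_simp
  | succ m ih =>
    intro i h1 h2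
    have hp := P.ppos n
    rw [pow_succ']
    change T0 P (((T0 P) ^ m) x) (n, i) = _
    cases i with
    | zero =>
      rw [T0_zero]
      have h0 : (m + 1 + s) % P.p n = 0 := by
        unfold Nat.ModEq at h2; rw [← h2]; simp
      have h3 : P.p n ≤ m + 1 + s := Nat.le_of_dvd (by omega) (Nat.dvd_of_mod_eq_zero h0)
      rw [ih (P.p n - 1) (by omega), om_last, om_zero]
      · push_cast
        field_simp
      · apply Nat.ModEq.add_right_cancel' 1
        have e1 : P.p n - 1 + 1 = P.p n := by omega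
        rw [e1]
        unfold Nat.ModEq
        rw [Nat.mod_self, show m + s + 1 = m + 1 + s by ring, h0]
    | succ i =>
      rw [T0_succ, ih i (by omega)]
      · have hne : (om P n i : ℂ) ≠ 0 := by exact_mod_cast (om_pos P n i).ne'
        push_cast
        field_simp
      · apply Nat.ModEq.add_right_cancel' 1
        rw [show m + s + 1 = m + 1 + s by ring]
        exact h2

end Q70.Pa
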