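import Pool.Agent.Q70.PaA

set_option autoImplicit false

namespace Q70.Pa

open Filter Topology Set

variable (P : Par)

/-- orbit of a hat vector, given the orbit of the lower part -/
noncomputable def Of (k i m : ℕ) (Uk : ℕ → X) : X :=
  if P.p k ≤ i then e (k, i + m)
  else (om P k i : ℂ)⁻¹ • (lev P k (m + i) + (2 : ℂ) ^ k • Uk ((m + i) % P.p k))

noncomputable def U : ℕ → ℕ → X
  | n => fun m => ∑ q ∈ (P.u n).support.attach, P.u n q.1 • Of P q.1.1 q.1.2 m (U q.1.1)
termination_by n => n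
decreasing_by exact P.us n q.1 q.2

lemma U_eq (n m : ℕ) :
    U P n m = ∑ q ∈ (P.u n).support, P.u n q • Of P q.1 q.2 m (U P q.1) := by
  rw [U]
  exact Finset.sum_attach (P.u n).support (fun q => P.u n q • Of P q.1 q.2 m (U P q.1))

lemma e_norm (q : ℕ × ℕ) : ‖e q‖ ≤ 1 := by
  apply norm_le' _ _ zero_le_one
  intro q'
  rw [e_apply]; split_ifs <;> simp

lemma U_norm : ∀ n m : ℕ, ‖U P n m‖ ≤ P.D n := by
  intro n
  induction n using Nat.strong_induction_on with
  | _ n ih =>
    intro m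
    rw [U_eq]
    refine le_trans (norm_sum_le _ _) (le_trans (Finset.sum_le_sum fun q hq => ?_) (P.uD n))
    rw [norm_smul]
    apply mul_le_mul_of_nonneg_left _ (norm_nonneg _)
    have hD := P.D1 q.1
    unfold Of
    split_ifs with h
    · refine le_trans (e_norm _) ?_
      have : (1 : ℝ) ≤ 2 ^ P.h q.1 := one_le_pow₀ (by norm_num)
      have : (0 : ℝ) ≤ 2 ^ q.1 * (2 * P.D q.1) := by positivity
      linarith
    · rw [norm_smul, norm_inv, Complex.norm_real, Real.norm_of_nonneg (om_pos P _ _).le]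
      have h1 : (om P q.1 q.2)⁻¹ ≤ 1 := inv_le_one_of_one_le₀ (om_ge P _ _)
      have h2 : ‖lev P q.1 (m + q.2) + (2 : ℂ) ^ q.1 • U P q.1 ((m + q.2) % P.p q.1)‖ ≤
          2 ^ P.h q.1 + 2 ^ q.1 * (2 * P.D q.1) := by
        refine le_trans (norm_add_le _ _) (add_le_add (lev_norm P _ _) ?_)
        rw [norm_smul, norm_pow]
        have := ih q.1 (P.us n q hq) ((m + q.2) % P.p q.1)
        have h3 : ‖(2 : ℂ)‖ = 2 := by simp
        rw [h3]
        apply mul_le_mul_of_nonneg_left _ (by positivity)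
        linarith
      calc (om P q.1 q.2)⁻¹ * ‖lev P q.1 (m + q.2) + (2 : ℂ) ^ q.1 • U P q.1 ((m + q.2) % P.p q.1)‖
          ≤ 1 * ‖lev P q.1 (m + q.2) + (2 : ℂ) ^ q.1 • U P q.1 ((m + q.2) % P.p q.1)‖ :=
            mul_le_mul_of_nonneg_right h1 (norm_nonneg _)
        _ ≤ _ := by rw [one_mul]; exact h2

lemma Xsum_apply {ι : Type*} (s : Finset ι) (f : ι → X) (q : ℕ × ℕ) :
    (∑ i ∈ s, f i) q = ∑ i ∈ s, f i q := by
  exact map_sum (ev q) f s

lemma U_supp : ∀ n m : ℕ, ∀ q : ℕ × ℕ, n ≤ q.1 → U P n m q = 0 := by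
  intro n
  induction n using Nat.strong_induction_on with
  | _ n ih =>
    intro m q hq
    rw [U_eq, Xsum_apply]
    apply Finset.sum_eq_zero
    intro r hr
    have hr' := P.us n r hr
    rw [ZeroAtInftyContinuousMap.smul_apply]
    unfold Of
    split_ifs with h
    · rw [e_apply, if_neg, smul_zero]
      rintro rfl
      simp at hq; omega
    · rw [ZeroAtInftyContinuousMap.smul_apply, ZeroAtInftyContinuousMap.add_apply,
        ZeroAtInftyContinuousMap.smul_apply, ih r.1 hr' _ q (by omega), lev_apply, if_neg]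
      · simp
      · rintro ⟨h1, -⟩; omega

/-- the returning vectors -/
noncomputable def qv (n : ℕ) : X := ((2 : ℂ) ^ n * ((2 : ℂ) ^ P.h n)⁻¹) • (U P n 0 - U P n (P.p n))

lemma two_norm_pow (n : ℕ) : ‖(2 : ℂ) ^ n‖ = 2 ^ n := by rw [norm_pow]; simp

/-- `b n = p 2^(n+1) D / 2^h` -/
noncomputable def b (n : ℕ) : ℝ := P.p n * 2 ^ (n + 1) * P.D n / 2 ^ P.h n

lemma b_nonneg (n : ℕ) : 0 ≤ b P n := by
  have := P.D1 n
  unfold b; positivity

lemma b_le (n : ℕ) : 5 * b P n ≤ P.κ n := by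
  unfold b
  rw [← mul_div_assoc, div_le_iff₀ (by positivity)]
  exact P.hb n

lemma qv_norm (n : ℕ) : ‖qv P n‖ ≤ P.κ n := by
  have hD := P.D1 n
  have hp : (1 : ℝ) ≤ P.p n := by have := P.ppos n; exact_mod_cast (by omega : 1 ≤ P.p n)
  have h1 : ‖qv P n‖ ≤ b P n := by
    unfold qv b
    rw [norm_smul, norm_mul, norm_inv, two_norm_pow, two_norm_pow]
    have h2 : ‖U P n 0 - U P n (P.p n)‖ ≤ 2 * P.D n := by
      refine le_trans (norm_sub_le _ _) ?_
      have := U_norm P n 0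
      have := U_norm P n (P.p n)
      linarith
    calc (2 : ℝ) ^ n * (2 ^ P.h n)⁻¹ * ‖U P n 0 - U P n (P.p n)‖
        ≤ 2 ^ n * (2 ^ P.h n)⁻¹ * (2 * P.D n) := mul_le_mul_of_nonneg_left h2 (by positivity)
      _ = 1 * (2 ^ (n + 1) * P.D n / 2 ^ P.h n) := by rw [pow_succ]; field_simp
      _ ≤ P.p n * (2 ^ (n + 1) * P.D n / 2 ^ P.h n) := mul_le_mul_of_nonneg_right hp (by positivity)
      _ = _ := by ring
  have := b_le P n
  have := b_nonneg P n
  linarith

lemma κ_step (n : ℕ) : P.κ (n + 1) ≤ P.κ n / 2 := by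
  have h1 := P.κs n
  have hD := P.D1 n
  have hp : (2 : ℝ) ≤ P.p n := by exact_mod_cast P.ppos n
  have h2 : (1 : ℝ) ≤ 2 ^ (n + 2) := one_le_pow₀ (by norm_num)
  have h3 : (2 : ℝ) ≤ P.p n * 2 ^ (n + 2) * P.D n := by
    calc (2 : ℝ) = 2 * 1 * 1 := by norm_num
      _ ≤ P.p n * 2 ^ (n + 2) * P.D n := by
          apply mul_le_mul _ hD (by norm_num) (by positivity)
          exact mul_le_mul hp h2 (by norm_num) (by positivity)
  have h4 : P.κ (n + 1) * 2 ≤ P.κ n :=
    le_trans (mul_le_mul_of_nonneg_left h3 (P.κ0 (n + 1)).le) h1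
  linarith

lemma κ_geom (n j : ℕ) : P.κ (n + j) ≤ P.κ n * (1 / 2) ^ j := by
  induction j with
  | zero => simp
  | succ j ih =>
    have := κ_step P (n + j)
    rw [pow_succ, show n + (j + 1) = n + j + 1 by ring]
    linarith

lemma κ_summable : Summable P.κ := by
  refine Summable.of_nonneg_of_le (fun n => (P.κ0 n).le) (fun n => ?_)
    ((summable_geometric_of_lt_one (by norm_num) (by norm_num : (1 : ℝ) / 2 < 1)).mul_left (P.κ 0))
  have := κ_geom P 0 n
  rwa [zero_add] at this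

noncomputable def Nn (n : ℕ) : X →L[ℂ] X := (ev (n, P.p n - 1)).smulRight (qv P n)

lemma Nn_norm (n : ℕ) : ‖Nn P n‖ ≤ P.κ n := by
  unfold Nn
  rw [ContinuousLinearMap.norm_smulRight_apply]
  calc ‖ev (n, P.p n - 1)‖ * ‖qv P n‖ ≤ 1 * ‖qv P n‖ :=
        mul_le_mul_of_nonneg_right (ev_norm _) (norm_nonneg _)
    _ ≤ _ := by rw [one_mul]; exact qv_norm P n

lemma Nn_summable : Summable (Nn P) := by
  haveI : CompleteSpace (X →L[ℂ] X) := inferInstance
  exact Summable.of_norm_bounded (E := X →L[ℂ] X) (f := Nn P) (κ_summable P) (Nn_norm P)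

/-- The operator. -/
noncomputable def T : X →L[ℂ] X := T0 P + ∑' n, Nn P n

lemma Nn_apply (n : ℕ) (x : X) : Nn P n x = x (n, P.p n - 1) • qv P n := rfl

lemma N_hasSum (x : X) : HasSum (fun n => x (n, P.p n - 1) • qv P n) ((∑' n, Nn P n) x) := by
  have h := (Nn_summable P).hasSum
  have := h.mapL (ContinuousLinearMap.apply ℂ X x)
  exact this

lemma T_apply (x : X) : T P x = T0 P x + (∑' n, Nn P n) x := rfl

lemma T_tail (n i : ℕ) (hi : P.p n ≤ i) : T P (e (n, i)) = e (n, i + 1) := by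
  rw [T_apply, T0_tail P n i hi]
  have h := N_hasSum P (e (n, i))
  have h0 : (fun n' => e (n, i) (n', P.p n' - 1) • qv P n') = fun _ => (0 : X) := by
    funext n'
    rw [e_apply, if_neg, zero_smul]
    intro h'
    rw [Prod.mk.injEq] at h'
    obtain ⟨h1, h2⟩ := h'
    subst h1
    have := P.ppos n'
    omega
  rw [h0] at h
  rw [h.unique hasSum_zero, add_zero]

lemma T_lev (n m : ℕ) : T P (lev P n m) = lev P n (m + 1) +
    (if m % P.p n = P.p n - 1 then (2 : ℂ) ^ n else 0) • (U P n 0 - U P n (P.p n)) := by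
  rw [T_apply, T0_lev]
  have h := N_hasSum P (lev P n m)
  have h1 : HasSum (fun n' => lev P n m (n', P.p n' - 1) • qv P n')
      (lev P n m (n, P.p n - 1) • qv P n) := by
    apply hasSum_single
    intro n' hn'
    rw [lev_apply, if_neg, zero_smul]
    rintro ⟨h1, -⟩
    exact hn' h1
  rw [h.unique h1]
  congr 1
  rw [lev_apply]
  simp only [true_and]
  have hp := P.ppos n
  have key : (P.p n - 1 ≤ m ∧ P.p n - 1 ≡ m [MOD P.p n]) ↔ m % P.p n = P.p n - 1 := by
    constructor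
    · rintro ⟨-, h2⟩
      unfold Nat.ModEq at h2
      rw [← h2]
      exact Nat.mod_eq_of_lt (by omega)
    · intro h2
      refine ⟨?_, ?_⟩
      · rw [← h2]; exact Nat.mod_le _ _
      · unfold Nat.ModEq
        rw [h2]; exact Nat.mod_eq_of_lt (by omega)
  by_cases h2 : m % P.p n = P.p n - 1
  · rw [if_pos (key.2 h2), if_pos h2, om_last]
    unfold qv
    rw [smul_smul]
    congr 1
    push_cast
    field_simp
  · rw [if_neg (fun h' => h2 (key.1 h')), if_neg h2]; simp

/-- hat vector orbit -/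
noncomputable def E (n m : ℕ) : X := lev P n m + (2 : ℂ) ^ n • U P n (m % P.p n)

lemma T_E (n : ℕ) (hU : ∀ m, T P (U P n m) = U P n (m + 1)) (m : ℕ) :
    T P (E P n m) = E P n (m + 1) := by
  unfold E
  rw [map_add, map_smul, hU, T_lev]
  have hp := P.ppos n
  by_cases h : m % P.p n = P.p n - 1
  · rw [if_pos h]
    have h1 : m % P.p n + 1 = P.p n := by omega
    have h2 : (m + 1) % P.p n = 0 := by
      rw [Nat.add_mod, h, Nat.mod_eq_of_lt (by omega : 1 < P.p n),
        show P.p n - 1 + 1 = P.p n by omega, Nat.mod_self]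
    rw [h1, h2]
    module
  · rw [if_neg h]
    have h1 : (m + 1) % P.p n = m % P.p n + 1 := by
      rw [Nat.add_mod, Nat.mod_eq_of_lt (by omega : 1 < P.p n)]
      apply Nat.mod_eq_of_lt
      have := Nat.mod_lt m (by omega : 0 < P.p n)
      omega
    rw [h1, zero_smul, add_zero]

lemma Of_eq (k i m : ℕ) (hi : i < P.p k) :
    Of P k i m (U P k) = (om P k i : ℂ)⁻¹ • E P k (m + i) := by
  unfold Of E
  rw [if_neg (by omega)]

lemma Of_tail (k i m : ℕ) (hi : P.p k ≤ i) : Of P k i m (U P k) = e (k, i + m) := by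
  unfold Of
  rw [if_pos hi]

lemma T_Of (k : ℕ) (hU : ∀ m, T P (U P k m) = U P k (m + 1)) (i m : ℕ) :
    T P (Of P k i m (U P k)) = Of P k i (m + 1) (U P k) := by
  by_cases h : P.p k ≤ i
  · rw [Of_tail P k i m h, Of_tail P k i (m + 1) h, T_tail P k (i + m) (by omega)]
    rfl
  · rw [Of_eq P k i m (by omega), Of_eq P k i (m + 1) (by omega), map_smul, T_E P k hU]
    rw [show m + i + 1 = m + 1 + i by ring]

lemma T_U : ∀ n m : ℕ, T P (U P n m) = U P n (m + 1) := by
  intro n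
  induction n using Nat.strong_induction_on with
  | _ n ih =>
    intro m
    rw [U_eq, U_eq, map_sum]
    apply Finset.sum_congr rfl
    intro q hq
    rw [map_smul, T_Of P q.1 (ih q.1 (P.us n q hq))]

lemma Tpow_U (n m j : ℕ) : (T P ^ j) (U P n m) = U P n (m + j) := by
  induction j with
  | zero => rfl
  | succ j ih =>
    rw [pow_succ']
    change T P ((T P ^ j) (U P n m)) = _
    rw [ih, T_U]; rfl

lemma Tpow_E (n m j : ℕ) : (T P ^ j) (E P n m) = E P n (m + j) := by
  induction j with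
  | zero => rfl
  | succ j ih =>
    rw [pow_succ']
    change T P ((T P ^ j) (E P n m)) = _
    rw [ih, T_E P n (T_U P n)]; rfl

end Q70.Pa
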