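import Pool.Agent.Q70.PaB

set_option autoImplicit false

namespace Q70.Pa

open Filter Topology Set

variable (P : Par)

/-- the contribution of level `n` to the lower levels at time `m` -/
noncomputable def Ga (n m : ℕ) (x : X) : X :=
  ∑ s ∈ Finset.range (P.p n), ((x (n, s) / (om P n s : ℂ)) * (2 : ℂ) ^ n) •
    (U P n ((m + s) % P.p n) - U P n (m + s))

lemma Ga_zero (n : ℕ) (x : X) : Ga P n 0 x = 0 := by
  unfold Ga
  apply Finset.sum_eq_zero
  intro s hs
  rw [Finset.mem_range] at hs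
  rw [zero_add, Nat.mod_eq_of_lt hs, sub_self, smul_zero]

lemma Ga_step (n m : ℕ) (x : X) :
    ((T0 P) ^ m) x (n, P.p n - 1) • qv P n + T P (Ga P n m x) = Ga P n (m + 1) x := by
  have hp := P.ppos n
  set p := P.p n with hpdef
  set s₀ := ((m + 1) * (p - 1)) % p with hs₀
  have hs₀lt : s₀ < p := Nat.mod_lt _ (by omega)
  have hs₀mod : m + s₀ ≡ p - 1 [MOD p] := by
    have h1 : m + s₀ ≡ m + (m + 1) * (p - 1) [MOD p] :=
      Nat.ModEq.add_left m (Nat.mod_modEq _ _)
    refine h1.trans ?_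
    obtain ⟨k, hk⟩ : ∃ k, p = k + 1 := ⟨p - 1, by omega⟩
    rw [hk, Nat.add_sub_cancel]
    have : m + (m + 1) * k = k + (k + 1) * m := by ring
    rw [this]
    unfold Nat.ModEq
    rw [Nat.add_mul_mod_self_left]
  have hle : p - 1 ≤ m + s₀ := by
    have h1 : (m + s₀) % p = p - 1 := by
      unfold Nat.ModEq at hs₀mod
      rw [hs₀mod]; exact Nat.mod_eq_of_lt (by omega)
    rw [← h1]; exact Nat.mod_le _ _
  have hT0 : ((T0 P) ^ m) x (n, p - 1) = (2 : ℂ) ^ P.h n * (x (n, s₀) / (om P n s₀ : ℂ)) := by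
    rw [T0_pow P x n s₀ hs₀lt m (p - 1) hle hs₀mod.symm, hpdef, om_last]
    push_cast; rfl
  have hT : T P (Ga P n m x) = ∑ s ∈ Finset.range p,
      ((x (n, s) / (om P n s : ℂ)) * (2 : ℂ) ^ n) •
        (U P n ((m + s) % p + 1) - U P n (m + s + 1)) := by
    unfold Ga
    rw [map_sum]
    apply Finset.sum_congr rfl
    intro s _
    rw [map_smul, map_sub, T_U, T_U]
  have hdiff : Ga P n (m + 1) x - T P (Ga P n m x) = ∑ s ∈ Finset.range p,
      ((x (n, s) / (om P n s : ℂ)) * (2 : ℂ) ^ n) •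
        (U P n ((m + 1 + s) % p) - U P n ((m + s) % p + 1)) := by
    rw [hT]
    unfold Ga
    rw [← Finset.sum_sub_distrib]
    apply Finset.sum_congr rfl
    intro s _
    rw [show m + 1 + s = m + s + 1 by ring]
    module
  have hsingle : ∑ s ∈ Finset.range p,
      ((x (n, s) / (om P n s : ℂ)) * (2 : ℂ) ^ n) •
        (U P n ((m + 1 + s) % p) - U P n ((m + s) % p + 1)) =
      ((x (n, s₀) / (om P n s₀ : ℂ)) * (2 : ℂ) ^ n) • (U P n 0 - U P n p) := by
    rw [Finset.sum_eq_single s₀]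
    · have h1 : (m + s₀) % p = p - 1 := by
        unfold Nat.ModEq at hs₀mod
        rw [hs₀mod]; exact Nat.mod_eq_of_lt (by omega)
      have h2 : (m + 1 + s₀) % p = 0 := by
        rw [show m + 1 + s₀ = m + s₀ + 1 by ring, Nat.add_mod, h1,
          Nat.mod_eq_of_lt (by omega : 1 < p), show p - 1 + 1 = p by omega, Nat.mod_self]
      rw [h1, h2, show p - 1 + 1 = p by omega]
    · intro s hs hne
      rw [Finset.mem_range] at hs
      have h1 : (m + s) % p ≠ p - 1 := by
        intro h1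
        apply hne
        have h2 : m + s ≡ m + s₀ [MOD p] := by
          refine Nat.ModEq.trans ?_ hs₀mod.symm
          unfold Nat.ModEq
          rw [h1]; exact (Nat.mod_eq_of_lt (by omega)).symm
        exact Nat.ModEq.eq_of_lt_of_lt (Nat.ModEq.add_left_cancel' m h2) hs hs₀lt
      have h3 : (m + 1 + s) % p = (m + s) % p + 1 := by
        rw [show m + 1 + s = m + s + 1 by ring, Nat.add_mod,
          Nat.mod_eq_of_lt (by omega : 1 < p)]
        apply Nat.mod_eq_of_lt
        have := Nat.mod_lt (m + s) (by omega : 0 < p)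
        omega
      rw [h3, sub_self, smul_zero]
    · intro h
      exact absurd (Finset.mem_range.2 hs₀lt) h
  have hq : ((T0 P) ^ m) x (n, p - 1) • qv P n =
      ((x (n, s₀) / (om P n s₀ : ℂ)) * (2 : ℂ) ^ n) • (U P n 0 - U P n p) := by
    rw [hT0]
    unfold qv
    rw [smul_smul, ← hpdef]
    congr 1
    have h2 : ((2 : ℂ) ^ P.h n) ≠ 0 := pow_ne_zero _ (by norm_num)
    field_simp
  rw [hq, ← hsingle, ← hdiff]
  abel

lemma Ga_hasSum (x : X) : ∀ m : ℕ,
    HasSum (fun n => Ga P n m x) ((T P ^ m) x - (T0 P ^ m) x) := by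
  intro m
  induction m with
  | zero =>
    have h1 : (fun n => Ga P n 0 x) = fun _ => 0 := by funext n; exact Ga_zero P n x
    rw [h1, pow_zero, pow_zero, sub_self]
    exact hasSum_zero
  | succ m ih =>
    have h1 := ih.mapL (T P)
    have h2 := N_hasSum P ((T0 P ^ m) x)
    have h3 := h2.add h1
    have h4 : (fun n => ((T0 P) ^ m) x (n, P.p n - 1) • qv P n + T P (Ga P n m x)) =
        fun n => Ga P n (m + 1) x := by
      funext n; exact Ga_step P n m x
    rw [h4] at h3
    convert h3 using 1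
    rw [map_sub, T_apply P ((T0 P ^ m) x), pow_succ', pow_succ']
    change T P ((T P ^ m) x) - T0 P ((T0 P ^ m) x) = _
    abel

lemma Ga_norm (n m : ℕ) (x : X) (B : ℝ) (hB : 0 ≤ B)
    (h : ∀ s < P.p n, (m + s) % P.p n ≠ m + s → ‖x (n, s)‖ ≤ B * om P n s) :
    ‖Ga P n m x‖ ≤ P.p n * B * 2 ^ (n + 1) * P.D n := by
  have hD := P.D1 n
  unfold Ga
  refine le_trans (norm_sum_le _ _) ?_
  have : ∀ s ∈ Finset.range (P.p n), ‖((x (n, s) / (om P n s : ℂ)) * (2 : ℂ) ^ n) •
      (U P n ((m + s) % P.p n) - U P n (m + s))‖ ≤ B * 2 ^ (n + 1) * P.D n := by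
    intro s hs
    rw [Finset.mem_range] at hs
    by_cases hm : (m + s) % P.p n = m + s
    · rw [hm, sub_self, smul_zero, norm_zero]
      positivity
    · rw [norm_smul, norm_mul, norm_div, Complex.norm_real,
        Real.norm_of_nonneg (om_pos P n s).le, two_norm_pow]
      have h1 : ‖x (n, s)‖ / om P n s ≤ B := by
        rw [div_le_iff₀ (om_pos P n s)]
        exact h s hs hm
      have h2 : ‖U P n ((m + s) % P.p n) - U P n (m + s)‖ ≤ 2 * P.D n := by
        refine le_trans (norm_sub_le _ _) ?_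
        have := U_norm P n ((m + s) % P.p n)
        have := U_norm P n (m + s)
        linarith
      calc ‖x (n, s)‖ / om P n s * 2 ^ n * ‖U P n ((m + s) % P.p n) - U P n (m + s)‖
          ≤ B * 2 ^ n * (2 * P.D n) := by
            apply mul_le_mul _ h2 (norm_nonneg _) (by positivity)
            exact mul_le_mul_of_nonneg_right h1 (by positivity)
        _ = _ := by ring
  calc ∑ s ∈ Finset.range (P.p n), _ ≤ ∑ s ∈ Finset.range (P.p n), B * 2 ^ (n + 1) * P.D n :=
        Finset.sum_le_sum this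
    _ = _ := by rw [Finset.sum_const, Finset.card_range, nsmul_eq_mul]; ring

/-- before the first return the contribution is small -/
lemma Ga_early (n m : ℕ) (x : X) (hx : ‖x‖ ≤ 5) (hm : m + P.h n ≤ P.p n) :
    ‖Ga P n m x‖ ≤ P.κ n := by
  have h1 := Ga_norm P n m x (5 / 2 ^ P.h n) (by positivity) (by
    intro s hs hne
    have h2 : P.p n ≤ m + s := by
      by_contra h2
      exact hne (Nat.mod_eq_of_lt (by omega))
    rw [om_mid P n s (by omega) hs, div_mul_cancel₀ _ (by positivity)]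
    exact le_trans (apply_le x _) hx)
  refine le_trans h1 ?_
  have := b_le P n
  unfold b at this
  refine le_trans (le_of_eq ?_) this
  field_simp

/-- if all amplitudes are small, the contribution is always small -/
lemma Ga_good (n m : ℕ) (x : X) (hx : ‖x‖ ≤ 5)
    (h : ∀ s < P.h n, ‖x (n, s)‖ ≤ 5 / 2 ^ P.h n * om P n s) :
    ‖Ga P n m x‖ ≤ P.κ n := by
  have h1 := Ga_norm P n m x (5 / 2 ^ P.h n) (by positivity) (by
    intro s hs hne
    by_cases hs' : s < P.h n
    · exact h s hs'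
    · rw [om_mid P n s (by omega) hs, div_mul_cancel₀ _ (by positivity)]
      exact le_trans (apply_le x _) hx)
  refine le_trans h1 ?_
  have := b_le P n
  unfold b at this
  refine le_trans (le_of_eq ?_) this
  field_simp

lemma Ga_supp (n m : ℕ) (x : X) (q : ℕ × ℕ) (hq : n ≤ q.1) : Ga P n m x q = 0 := by
  unfold Ga
  rw [Xsum_apply]
  apply Finset.sum_eq_zero
  intro s _
  rw [ZeroAtInftyContinuousMap.smul_apply, ZeroAtInftyContinuousMap.sub_apply,
    U_supp P n _ q hq, U_supp P n _ q hq, sub_zero, smul_zero]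

lemma coord_bound (n m : ℕ) (x : X) (h : ∀ n', n < n' → ‖Ga P n' m x‖ ≤ P.κ n') (i : ℕ) :
    ‖(T P ^ m) x (n, i) - (T0 P ^ m) x (n, i)‖ ≤ 2 * P.κ (n + 1) := by
  have h1 := (Ga_hasSum P x m).mapL (ev (n, i))
  have h1' : HasSum (fun n' => Ga P n' m x (n, i))
      ((T P ^ m) x (n, i) - (T0 P ^ m) x (n, i)) := h1
  let g : ℕ → ℝ := fun n' => if n' ≤ n then 0 else P.κ (n + 1) * (1 / 2) ^ (n' - (n + 1))
  have hg : HasSum g (2 * P.κ (n + 1)) := by
    have h2 : HasSum (fun j => g (j + (n + 1))) (2 * P.κ (n + 1)) := by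
      have h3 : (fun j => g (j + (n + 1))) = fun j => P.κ (n + 1) * (1 / 2) ^ j := by
        funext j
        simp only [g]
        rw [if_neg (by omega), show j + (n + 1) - (n + 1) = j by omega]
      rw [h3]
      have h4 := (hasSum_geometric_of_lt_one (by norm_num : (0 : ℝ) ≤ 1 / 2)
        (by norm_num)).mul_left (P.κ (n + 1))
      rw [show ((1 : ℝ) - 1 / 2)⁻¹ = 2 by norm_num, mul_comm] at h4
      exact h4
    have h5 := (hasSum_nat_add_iff (n + 1)).1 h2
    have h6 : ∑ i ∈ Finset.range (n + 1), g i = 0 := by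
      apply Finset.sum_eq_zero
      intro i hi
      rw [Finset.mem_range] at hi
      simp only [g]
      rw [if_pos (by omega)]
    rw [h6, add_zero] at h5
    exact h5
  refine h1'.norm_le_of_bounded hg (fun n' => ?_)
  simp only [g]
  by_cases hn : n' ≤ n
  · rw [if_pos hn, Ga_supp P n' m x (n, i) hn, norm_zero]
  · rw [if_neg hn]
    refine le_trans (apply_le _ _) (le_trans (h n' (by omega)) ?_)
    have := κ_geom P (n + 1) (n' - (n + 1))
    rwa [show n + 1 + (n' - (n + 1)) = n' by omega] at this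

lemma κ_le (n : ℕ) : P.κ n ≤ 1 / 4 := by
  have h1 := κ_geom P 0 n
  rw [zero_add] at h1
  have h2 : ((1 : ℝ) / 2) ^ n ≤ 1 := pow_le_one₀ (by norm_num) (by norm_num)
  have h3 := P.κ0 0
  have h4 := P.κ1
  nlinarith

end Q70.Pa
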