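import Pool.Agent.Q70.PaC

set_option autoImplicit false

namespace Q70.Pa

open Filter Topology Set

/-- Upper density of a set of positive integers. -/
noncomputable def upperDensity (A : Set ℕ) : ℝ :=
  limsup (fun N : ℕ => ((A ∩ Icc 1 N).ncard : ℝ) / N) atTop

lemma ncard_le (A : Set ℕ) (N : ℕ) : (A ∩ Icc 1 N).ncard ≤ N := by
  calc (A ∩ Icc 1 N).ncard ≤ (Icc 1 N).ncard :=
        Set.ncard_le_ncard inter_subset_right (finite_Icc _ _)
    _ = N := by rw [← Finset.coe_Icc, Set.ncard_coe_finset, Nat.card_Icc]; omega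

lemma ratio_le (A : Set ℕ) (N : ℕ) : ((A ∩ Icc 1 N).ncard : ℝ) / N ≤ 1 := by
  rcases Nat.eq_zero_or_pos N with h | h
  · simp [h]
  · rw [div_le_one (by exact_mod_cast h)]
    exact_mod_cast ncard_le A N

lemma bdd1 (A : Set ℕ) : IsBoundedUnder (· ≤ ·) atTop
    (fun N : ℕ => ((A ∩ Icc 1 N).ncard : ℝ) / N) := isBoundedUnder_of ⟨1, ratio_le A⟩

lemma bdd2 (A : Set ℕ) : IsCoboundedUnder (· ≤ ·) atTop
    (fun N : ℕ => ((A ∩ Icc 1 N).ncard : ℝ) / N) :=
  (isBoundedUnder_of ⟨0, fun N => by positivity⟩ :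
    IsBoundedUnder (· ≥ ·) atTop (fun N : ℕ => ((A ∩ Icc 1 N).ncard : ℝ) / N)).isCoboundedUnder_le

lemma pos_density {A : Set ℕ} (h : 0 < upperDensity A) :
    ∃ δ : ℝ, 0 < δ ∧ ∀ L : ℕ, ∃ N : ℕ, L ≤ N ∧ δ * N < ((A ∩ Icc 1 N).ncard : ℝ) := by
  refine ⟨upperDensity A / 2, by positivity, fun L => ?_⟩
  have hf : ∃ᶠ N : ℕ in atTop, upperDensity A / 2 < ((A ∩ Icc 1 N).ncard : ℝ) / N :=
    frequently_lt_of_lt_limsup (bdd2 A) (by
      show upperDensity A / 2 < upperDensity A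
      linarith)
  obtain ⟨N, hN1, hN2⟩ := (hf.and_eventually (eventually_ge_atTop (max L 1))).exists
  have hL : L ≤ N := le_trans (le_max_left _ _) hN2
  have h1 : 1 ≤ N := le_trans (le_max_right _ _) hN2
  refine ⟨N, hL, ?_⟩
  rw [lt_div_iff₀ (by exact_mod_cast h1)] at hN1
  exact hN1

lemma density_pos_of {A : Set ℕ} {δ : ℝ} (hδ : 0 < δ)
    (h : ∀ L : ℕ, ∃ N : ℕ, L ≤ N ∧ δ ≤ ((A ∩ Icc 1 N).ncard : ℝ) / N) : 0 < upperDensity A := by
  have hf : ∃ᶠ N : ℕ in atTop, δ ≤ ((A ∩ Icc 1 N).ncard : ℝ) / N := by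
    rw [frequently_atTop]
    intro L
    obtain ⟨N, h1, h2⟩ := h L
    exact ⟨N, h1, h2⟩
  exact lt_of_lt_of_le hδ (le_limsup_of_frequently_le hf (bdd1 A))

lemma unbounded_of_pos {A : Set ℕ} (h : 0 < upperDensity A) (M : ℕ) : ∃ m ∈ A, M ≤ m := by
  by_contra hne
  push Not at hne
  obtain ⟨δ, hδ, h1⟩ := pos_density h
  obtain ⟨L, hL⟩ := exists_nat_gt ((M : ℝ) / δ)
  obtain ⟨N, hN1, hN2⟩ := h1 L
  have h2 : (A ∩ Icc 1 N).ncard ≤ M := by
    calc (A ∩ Icc 1 N).ncard ≤ (Finset.range M : Set ℕ).ncard := by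
          apply Set.ncard_le_ncard _ (Finset.finite_toSet _)
          intro m hm
          rw [Finset.coe_range]
          exact hne m hm.1
      _ = M := by rw [Set.ncard_coe_finset, Finset.card_range]
  have h3 : ((A ∩ Icc 1 N).ncard : ℝ) ≤ M := by exact_mod_cast h2
  rw [div_lt_iff₀ hδ] at hL
  have h4 : (L : ℝ) ≤ N := by exact_mod_cast hN1
  nlinarith

lemma count_res (p h s M : ℕ) (hp : 0 < p) (hs : s < p) :
    ((Finset.range M).filter (fun m => (m + s) % p < h)).card ≤ (M / p + 2) * h := by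
  calc ((Finset.range M).filter (fun m => (m + s) % p < h)).card
      ≤ ((Finset.range (M / p + 2)) ×ˢ (Finset.range h)).card := by
        apply Finset.card_le_card_of_injOn (fun m => ((m + s) / p, (m + s) % p))
        · intro m hm
          rw [Finset.mem_coe, Finset.mem_filter, Finset.mem_range] at hm
          rw [Finset.mem_coe, Finset.mem_product, Finset.mem_range, Finset.mem_range]
          refine ⟨?_, hm.2⟩
          have h1 : (m + s) / p ≤ (M + p) / p := Nat.div_le_div_right (by omega)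
          rw [Nat.add_div_right M hp] at h1
          change (m + s) / p < _
          omega
        · intro m _ m' _ heq
          simp only [Prod.mk.injEq] at heq
          have h1 := Nat.div_add_mod (m + s) p
          have h2 := Nat.div_add_mod (m' + s) p
          rw [heq.1, heq.2, h2] at h1
          omega
    _ = _ := by rw [Finset.card_product, Finset.card_range, Finset.card_range]

variable (P : Par)

/-- level `n` has a large amplitude near its start -/
def Bad (x : X) (n : ℕ) : Prop := ∃ s < P.h n, 5 / 2 ^ P.h n * om P n s < ‖x (n, s)‖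

lemma good_of_not_bad {x : X} (hx : ‖x‖ ≤ 3) {n : ℕ} (h : ¬ Bad P x n) (m : ℕ) :
    ‖Ga P n m x‖ ≤ P.κ n := by
  apply Ga_good P n m x (by linarith)
  intro s hs
  by_contra hlt
  exact h ⟨s, hs, not_le.1 hlt⟩

lemma bad_key {x : X} (hx : ‖x‖ ≤ 3) {n M : ℕ} {s : ℕ} (hs : s < P.h n)
    (hs' : 5 / 2 ^ P.h n * om P n s < ‖x (n, s)‖)
    (hM : ∀ n', n < n' → Bad P x n' → M + P.h n' ≤ P.p n')
    {m : ℕ} (hm : m < M) (hret : ‖(T P ^ m) x - x‖ < 1) : (m + s) % P.p n < P.h n := by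
  by_contra hge
  push Not at hge
  have hp := P.ppos n
  have hp2 := P.p2 n
  have h1 := coord_bound P n m x (fun n' hn' => by
    by_cases hb : Bad P x n'
    · have := hM n' hn' hb
      exact Ga_early P n' m x (by linarith) (by omega)
    · exact good_of_not_bad P hx hb m) ((m + s) % P.p n)
  have h2 := κ_le P (n + 1)
  rw [T0_pow P x n s (by omega) m _ (Nat.mod_le _ _) (Nat.mod_modEq _ _),
    om_mid P n _ hge (Nat.mod_lt _ (by omega))] at h1
  have h3 : ‖(((2 ^ P.h n : ℝ) : ℂ)) * (x (n, s) / (om P n s : ℂ))‖ > 5 := by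
    rw [norm_mul, norm_div, Complex.norm_real, Complex.norm_real, Real.norm_of_nonneg
      (om_pos P n s).le, Real.norm_of_nonneg (by positivity)]
    have h4 : 5 / 2 ^ P.h n < ‖x (n, s)‖ / om P n s := by
      rw [lt_div_iff₀ (om_pos P n s)]; exact hs'
    rw [div_lt_iff₀ (by positivity)] at h4
    rw [mul_comm]; exact h4
  have h5 : ‖(T P ^ m) x‖ ≤ 4 := by
    calc ‖(T P ^ m) x‖ = ‖((T P ^ m) x - x) + x‖ := by rw [sub_add_cancel]
      _ ≤ ‖(T P ^ m) x - x‖ + ‖x‖ := norm_add_le _ _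
      _ ≤ 4 := by linarith
  have h6 := apply_le ((T P ^ m) x) (n, (m + s) % P.p n)
  have h7 := norm_sub_norm_le ((((2 ^ P.h n : ℝ) : ℂ)) * (x (n, s) / (om P n s : ℂ)))
    ((T P ^ m) x (n, (m + s) % P.p n))
  rw [norm_sub_rev] at h7
  linarith

lemma eventually_good {x : X} (hx : ‖x‖ ≤ 3)
    (hd : 0 < upperDensity {m | ‖(T P ^ m) x - x‖ < 1}) :
    ∃ n₀, ∀ n ≥ n₀, ¬ Bad P x n := by
  obtain ⟨δ, hδ, hN⟩ := pos_density hd
  obtain ⟨n₀, hn₀⟩ := exists_nat_gt (10 / δ)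
  refine ⟨n₀, fun nb hnb hbad => ?_⟩
  obtain ⟨N, hN1, hN2⟩ := hN (P.p nb + 1)
  set M := N + 1 with hMdef
  -- the maximal bad level with `p - h < M`
  let S : Set ℕ := {n | Bad P x n ∧ n₀ ≤ n ∧ P.p n < M + P.h n}
  have hSfin : S.Finite := by
    apply (Set.finite_Iic M).subset
    intro n hn
    have h1 := hn.2.2
    have h2 := P.p2 n
    have h3 : P.h n * (n + 1) ≤ M + P.h n := by
      have := P.hp n
      have h4 : P.p n = 2 * (P.h n * (n + 1)) := by rw [this]; ring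
      have : 0 ≤ P.h n * (n + 1) := Nat.zero_le _
      omega
    have h5 : P.h n * n ≤ M := by
      have : P.h n * (n + 1) = P.h n * n + P.h n := by ring
      omega
    have h6 := P.hh n
    rw [mem_Iic]
    nlinarith
  have hSne : nb ∈ S := ⟨hbad, hnb, by omega⟩
  obtain ⟨n, hnS, hmax⟩ := hSfin.exists_maximal ⟨nb, hSne⟩
  obtain ⟨⟨s, hs, hs'⟩, hn0, hpn⟩ := hnS
  have hM' : ∀ n', n < n' → Bad P x n' → M + P.h n' ≤ P.p n' := by
    intro n' hn' hb
    by_contra hlt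
    push Not at hlt
    have : n' ∈ S := ⟨hb, by omega, hlt⟩
    have := hmax this hn'.le
    omega
  have hp := P.ppos n
  have hp2 := P.p2 n
  have hcount : ({m | ‖(T P ^ m) x - x‖ < 1} ∩ Icc 1 N).ncard ≤ (M / P.p n + 2) * P.h n := by
    refine le_trans ?_ (count_res (P.p n) (P.h n) s M (by omega) (by omega))
    rw [← Set.ncard_coe_finset]
    apply Set.ncard_le_ncard _ (Finset.finite_toSet _)
    intro m hm
    rw [Finset.coe_filter, mem_setOf_eq, Finset.mem_range]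
    have hmM : m < M := by have := hm.2.2; omega
    exact ⟨hmM, bad_key P hx hs hs' hM' hmM hm.1⟩
  have hc' : (({m | ‖(T P ^ m) x - x‖ < 1} ∩ Icc 1 N).ncard : ℝ) ≤ (M / P.p n + 2) * P.h n := by
    calc (({m | ‖(T P ^ m) x - x‖ < 1} ∩ Icc 1 N).ncard : ℝ)
        ≤ (((M / P.p n + 2) * P.h n : ℕ) : ℝ) := by exact_mod_cast hcount
      _ = ((M / P.p n : ℕ) + 2) * P.h n := by push_cast; ring
      _ ≤ _ := by
          apply mul_le_mul_of_nonneg_right _ (Nat.cast_nonneg _)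
          have := @Nat.cast_div_le ℝ _ _ _ M (P.p n)
          linarith
  -- numeric contradiction
  have hh1 : (1 : ℝ) ≤ P.h n := by exact_mod_cast P.hh n
  have hpR : (P.p n : ℝ) = 2 * (n + 1) * P.h n := by rw [P.hp n]; push_cast; ring
  have hMR : (M : ℝ) = N + 1 := by rw [hMdef]; push_cast; ring
  have hN1' : (1 : ℝ) ≤ N := by
    have : 1 ≤ N := by omega
    exact_mod_cast this
  have hpn' : (P.p n : ℝ) < M + P.h n := by exact_mod_cast hpn
  have hn0' : (n₀ : ℝ) ≤ n := by exact_mod_cast hn0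
  have hnn : (0 : ℝ) ≤ n := Nat.cast_nonneg _
  have e1 : (M : ℝ) / P.p n * P.h n = M / (2 * (n + 1)) := by
    rw [hpR]; field_simp
  have e2 : (n + 1 : ℝ) * P.h n ≤ M := by nlinarith
  have e3 : (P.h n : ℝ) ≤ M / (n + 1) := by
    rw [le_div_iff₀ (by positivity)]; linarith
  have e4 : (M : ℝ) / (2 * (n + 1)) = (M / (n + 1)) / 2 := by field_simp
  have e5 : (({m | ‖(T P ^ m) x - x‖ < 1} ∩ Icc 1 N).ncard : ℝ) ≤ 5 / 2 * (M / (n + 1)) := by
    calc _ ≤ ((M : ℝ) / P.p n + 2) * P.h n := hc'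
      _ = M / P.p n * P.h n + 2 * P.h n := by ring
      _ ≤ _ := by rw [e1, e4]; linarith
  have e6 : δ * N < 5 / 2 * (M / (n + 1)) := lt_of_lt_of_le hN2 e5
  have e7 : (M : ℝ) ≤ 2 * N := by linarith
  have e8 : (M : ℝ) / (n + 1) ≤ 2 * N / (n + 1) := div_le_div_of_nonneg_right e7 (by positivity)
  have e9 : δ * N < 5 * N / (n + 1) := by
    calc δ * N < 5 / 2 * (M / (n + 1)) := e6
      _ ≤ 5 / 2 * (2 * N / (n + 1)) := by linarith
      _ = _ := by ring
  rw [lt_div_iff₀ (by positivity)] at e9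
  rw [div_lt_iff₀ hδ] at hn₀
  have e10 : (10 : ℝ) < n * δ := by nlinarith
  nlinarith

lemma desc {x : X} (hrec : ∀ ε : ℝ, 0 < ε → ∀ M : ℕ, ∃ m, M ≤ m ∧ ‖(T P ^ m) x - x‖ < ε) (n : ℕ)
    (h : ∀ n', n < n' → ∀ m, ‖Ga P n' m x‖ ≤ P.κ n') :
    (∀ s < P.p n, ‖x (n, s)‖ ≤ 2 * P.κ (n + 1) * om P n s) ∧ ∀ m, ‖Ga P n m x‖ ≤ P.κ n := by
  have hA : ∀ s < P.p n, ‖x (n, s)‖ ≤ 2 * P.κ (n + 1) * om P n s := by
    intro s hs
    rw [← div_le_iff₀ (om_pos P n s)]
    apply le_of_forall_pos_le_add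
    intro ε hε
    have ht : Tendsto (fun i : ℕ => x (n, i)) atTop (𝓝 0) := by
      have hinj : Function.Injective (fun i : ℕ => (n, i)) := by
        intro i j hij
        simpa using hij
      have := (tz x).comp hinj.tendsto_cofinite
      rwa [Nat.cofinite_eq_atTop] at this
    rw [Metric.tendsto_atTop] at ht
    obtain ⟨I₀, hI₀⟩ := ht (ε / 2) (by positivity)
    obtain ⟨m, hm, hm'⟩ := hrec (ε / 2) (by positivity) (I₀ + P.p n + P.p n)
    have hp := P.ppos n
    set K := I₀ + P.p n with hK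
    set i := K + (m + s - K) % P.p n with hi
    have hmod : (m + s - K) % P.p n < P.p n := Nat.mod_lt _ (by omega)
    have hile : i ≤ m + s := by
      have : (m + s - K) % P.p n ≤ m + s - K := Nat.mod_le _ _
      omega
    have himod : i ≡ m + s [MOD P.p n] := by
      have h1 : K + (m + s - K) % P.p n ≡ K + (m + s - K) [MOD P.p n] :=
        Nat.ModEq.add_left K (Nat.mod_modEq _ _)
      rw [show K + (m + s - K) = m + s by omega] at h1
      exact h1
    have h1 := coord_bound P n m x (fun n' hn' => h n' hn' m) i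
    rw [T0_pow P x n s hs m i hile himod, om_tail P n i (by omega)] at h1
    have h2 := hI₀ i (by omega)
    rw [dist_zero_right] at h2
    have h3 := apply_le ((T P ^ m) x - x) (n, i)
    rw [ZeroAtInftyContinuousMap.sub_apply] at h3
    have h4 : ‖x (n, s)‖ / om P n s = ‖((1 : ℝ) : ℂ) * (x (n, s) / (om P n s : ℂ))‖ := by
      rw [norm_mul, norm_div, Complex.norm_real, Complex.norm_real, Real.norm_of_nonneg
        (om_pos P n s).le]
      simp
    rw [h4]
    have h5 := norm_sub_norm_le (((1 : ℝ) : ℂ) * (x (n, s) / (om P n s : ℂ)))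
      ((T P ^ m) x (n, i))
    rw [norm_sub_rev] at h5
    have h6 := norm_sub_norm_le ((T P ^ m) x (n, i)) (x (n, i))
    linarith
  refine ⟨hA, fun m => ?_⟩
  have h1 := Ga_norm P n m x (2 * P.κ (n + 1)) (by have := P.κ0 (n + 1); positivity)
    (fun s hs _ => hA s hs)
  refine le_trans h1 (le_trans (le_of_eq ?_) (P.κs n))
  rw [pow_succ, pow_succ]; ring

theorem no_ufrec {x : X} (hx : ‖x - (2 : ℂ) • e (0, 0)‖ < 1)
    (hu : ∀ ε : ℝ, 0 < ε → 0 < upperDensity {m | ‖(T P ^ m) x - x‖ < ε}) : False := by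
  have he : ‖(2 : ℂ) • e (0, 0)‖ ≤ 2 := by
    rw [norm_smul]
    have := e_norm (0, 0)
    have h2 : ‖(2 : ℂ)‖ = 2 := by simp
    rw [h2]; linarith
  have hx3 : ‖x‖ ≤ 3 := by
    calc ‖x‖ = ‖(x - (2 : ℂ) • e (0, 0)) + (2 : ℂ) • e (0, 0)‖ := by rw [sub_add_cancel]
      _ ≤ _ := norm_add_le _ _
      _ ≤ 3 := by linarith
  have hx0 : 1 < ‖x (0, 0)‖ := by
    have h1 := apply_le (x - (2 : ℂ) • e (0, 0)) (0, 0)
    rw [ZeroAtInftyContinuousMap.sub_apply, ZeroAtInftyContinuousMap.smul_apply, e_apply,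
      if_pos rfl] at h1
    have h2 := norm_sub_norm_le ((2 : ℂ) • (1 : ℂ)) (x (0, 0))
    rw [norm_sub_rev] at h2
    have h3 : ‖(2 : ℂ) • (1 : ℂ)‖ = 2 := by simp
    rw [h3] at h2
    linarith
  have hrec : ∀ ε : ℝ, 0 < ε → ∀ M : ℕ, ∃ m, M ≤ m ∧ ‖(T P ^ m) x - x‖ < ε := by
    intro ε hε M
    obtain ⟨m, hm, hM⟩ := unbounded_of_pos (hu ε hε) M
    exact ⟨m, hM, hm⟩
  obtain ⟨n₀, hn₀⟩ := eventually_good P hx3 (hu 1 one_pos)
  have hall : ∀ k n, n₀ ≤ n + k → ∀ m, ‖Ga P n m x‖ ≤ P.κ n := by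
    intro k
    induction k with
    | zero =>
      intro n hn m
      exact good_of_not_bad P hx3 (hn₀ n (by omega)) m
    | succ k ih =>
      intro n hn
      exact (desc P hrec n (fun n' hn' => ih n' (by omega))).2
  have h0 := (desc P hrec 0 (fun n' _ => hall n₀ n' (by omega))).1 0 (by have := P.ppos 0; omega)
  rw [om_zero, mul_one] at h0
  have := κ_le P (0 + 1)
  linarith

end Q70.Pa
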