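import Pool.Agent.Q70.PaD

set_option autoImplicit false

namespace Q70.Pa

open Filter Topology Set

variable (P : Par)

/-- finitely supported vectors of levels `< n` -/
noncomputable def Sp (n : ℕ) : Submodule ℂ X := Submodule.span ℂ (e '' {q | q.1 < n})

lemma Sp_mono {n m : ℕ} (h : n ≤ m) : Sp n ≤ Sp m := by
  apply Submodule.span_mono
  apply Set.image_mono
  intro q hq
  exact lt_of_lt_of_le hq h

lemma e_mem {q : ℕ × ℕ} {n : ℕ} (h : q.1 < n) : e q ∈ Sp n :=
  Submodule.subset_span ⟨q, h, rfl⟩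

lemma lev_mem (k m : ℕ) : lev P k m ∈ Sp (k + 1) := by
  have : lev P k m = ∑ j ∈ Finset.range (m + 1), (lev P k m (k, j)) • e (k, j) := by
    ext q
    rw [Xsum_apply]
    simp only [ZeroAtInftyContinuousMap.smul_apply, e_apply, smul_eq_mul, mul_ite, mul_one,
      mul_zero]
    by_cases hq : q.1 = k ∧ q.2 ≤ m
    · obtain ⟨h1, h2⟩ := hq
      rw [Finset.sum_eq_single q.2]
      · rw [if_pos (Prod.ext h1 rfl : q = (k, q.2))]
        rw [show (k, q.2) = q from Prod.ext h1.symm rfl]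
      · intro j _ hj
        rw [if_neg]
        intro h
        exact hj (by rw [h])
      · intro h
        exact absurd (Finset.mem_range.2 (by omega)) h
    · rw [Finset.sum_eq_zero]
      · rw [lev_apply, if_neg]
        rintro ⟨h1, h2, -⟩
        exact hq ⟨h1, h2⟩
      · intro j hj
        rw [if_neg]
        rintro rfl
        rw [Finset.mem_range] at hj
        exact hq ⟨rfl, by simp; omega⟩
  rw [this]
  apply Submodule.sum_mem
  intro j _
  exact Submodule.smul_mem _ _ (e_mem (by simp))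

lemma U_mem : ∀ n m : ℕ, U P n m ∈ Sp n := by
  intro n
  induction n using Nat.strong_induction_on with
  | _ n ih =>
    intro m
    rw [U_eq]
    apply Submodule.sum_mem
    intro q hq
    have hq' := P.us n q hq
    apply Submodule.smul_mem
    unfold Of
    split_ifs
    · exact e_mem hq'
    · apply Submodule.smul_mem
      apply Submodule.add_mem
      · exact Sp_mono (by omega) (lev_mem P q.1 _)
      · exact Submodule.smul_mem _ _ (Sp_mono hq'.le (ih q.1 hq' _))

/-- hat vectors -/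
noncomputable def eh (q : ℕ × ℕ) : X := Of P q.1 q.2 0 (U P q.1)

lemma e_mem_span : ∀ k i : ℕ, e (k, i) ∈ Submodule.span ℂ (range (eh P)) := by
  intro k
  induction k using Nat.strong_induction_on with
  | _ k ih =>
    have hS : Sp k ≤ Submodule.span ℂ (range (eh P)) := by
      unfold Sp
      rw [Submodule.span_le]
      rintro _ ⟨q, hq, rfl⟩
      exact ih q.1 hq q.2
    intro i
    by_cases hi : P.p k ≤ i
    · have : eh P (k, i) = e (k, i) := by
        unfold eh
        rw [Of_tail P k i 0 hi]; rfl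
      rw [← this]
      exact Submodule.subset_span ⟨_, rfl⟩
    · have h1 : eh P (k, i) = (om P k i : ℂ)⁻¹ • ((om P k i : ℂ) • e (k, i) +
          (2 : ℂ) ^ k • U P k i) := by
        unfold eh
        rw [Of_eq P k i 0 (by omega)]
        unfold E
        rw [zero_add, Nat.mod_eq_of_lt (by omega), lev_small P k i (by omega)]
      have hne : (om P k i : ℂ) ≠ 0 := by exact_mod_cast (om_pos P k i).ne'
      have h2 : e (k, i) = eh P (k, i) - ((om P k i : ℂ)⁻¹ * (2 : ℂ) ^ k) • U P k i := by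
        rw [h1]
        ext r
        simp only [ZeroAtInftyContinuousMap.sub_apply, ZeroAtInftyContinuousMap.smul_apply,
          ZeroAtInftyContinuousMap.add_apply, smul_eq_mul]
        field_simp
        ring
      rw [h2]
      apply Submodule.sub_mem
      · exact Submodule.subset_span ⟨_, rfl⟩
      · exact Submodule.smul_mem _ _ (hS (U_mem P k i))

lemma fin_dense (y : X) (ε : ℝ) (hε : 0 < ε) :
    ∃ g ∈ Submodule.span ℂ (range (eh P)), ‖g - y‖ < ε := by
  have ht := tz y
  rw [Metric.tendsto_nhds] at ht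
  have hfin : {q | ¬ dist (y q) 0 < ε / 2}.Finite := ht (ε / 2) (by positivity)
  refine ⟨∑ q ∈ hfin.toFinset, y q • e q, ?_, ?_⟩
  · apply Submodule.sum_mem
    intro q _
    exact Submodule.smul_mem _ _ (e_mem_span P q.1 q.2)
  · refine lt_of_le_of_lt (norm_le' _ (ε / 2) (by positivity) (fun q => ?_)) (by linarith)
    rw [ZeroAtInftyContinuousMap.sub_apply, Xsum_apply]
    simp only [ZeroAtInftyContinuousMap.smul_apply, e_apply, smul_eq_mul, mul_ite, mul_one,
      mul_zero]
    rw [Finset.sum_ite_eq]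
    split_ifs with h
    · rw [sub_self, norm_zero]; positivity
    · rw [Set.Finite.mem_toFinset, mem_setOf_eq, not_not, dist_zero_right] at h
      rw [zero_sub, norm_neg]; exact h.le

lemma U_dense (y : X) (ρ : ℝ) (hρ : 0 < ρ) (N : ℕ) : ∃ n ≥ N, ‖U P n 0 - y‖ < ρ := by
  obtain ⟨g, hg, hgy⟩ := fin_dense P y (ρ / 2) (by positivity)
  rw [Finsupp.mem_span_range_iff_exists_finsupp] at hg
  obtain ⟨z, hz⟩ := hg
  set C : ℝ := ∑ q ∈ z.support, ‖eh P q‖ with hC
  have hC0 : 0 ≤ C := Finset.sum_nonneg (fun q _ => norm_nonneg _)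
  obtain ⟨n, hn, hsupp, happ⟩ := P.dense z (ρ / (2 * (C + 1))) (by positivity) N
  refine ⟨n, hn, ?_⟩
  have h1 : U P n 0 = ∑ q ∈ z.support, P.u n q • eh P q := by
    rw [U_eq]
    apply Finset.sum_subset hsupp
    intro q _ hq
    rw [Finsupp.notMem_support_iff] at hq
    rw [hq, zero_smul]
  have h2 : g = ∑ q ∈ z.support, z q • eh P q := by rw [← hz]; rfl
  have h3 : U P n 0 - g = ∑ q ∈ z.support, (P.u n q - z q) • eh P q := by
    rw [h1, h2, ← Finset.sum_sub_distrib]
    apply Finset.sum_congr rfl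
    intro q _
    module
  have h4 : ‖U P n 0 - g‖ ≤ ρ / (2 * (C + 1)) * C := by
    rw [h3, hC, Finset.mul_sum]
    refine le_trans (norm_sum_le _ _) (Finset.sum_le_sum fun q _ => ?_)
    rw [norm_smul]
    exact mul_le_mul_of_nonneg_right (happ q).le (norm_nonneg _)
  have h5 : ρ / (2 * (C + 1)) * C ≤ ρ / 2 := by
    rw [div_mul_eq_mul_div, div_le_div_iff₀ (by positivity) (by positivity)]
    nlinarith
  calc ‖U P n 0 - y‖ = ‖(U P n 0 - g) + (g - y)‖ := by rw [sub_add_sub_cancel]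
    _ ≤ ‖U P n 0 - g‖ + ‖g - y‖ := norm_add_le _ _
    _ < ρ := by linarith

lemma lev_norm_one (n m : ℕ) (hm : P.p n ∣ m) : ‖lev P n m‖ ≤ 1 := by
  apply norm_le' _ _ zero_le_one
  intro q
  rw [lev_apply]
  split_ifs with h
  · rw [Complex.norm_real, Real.norm_of_nonneg (om_pos P n _).le]
    have h1 : P.p n ∣ q.2 := (h.2.2.dvd_iff (dvd_refl _)).2 hm
    rcases Nat.eq_zero_or_pos q.2 with h0 | h0
    · rw [h0, om_zero]
    · rw [om_tail P n _ (Nat.le_of_dvd h0 h1)]
  · simp

lemma mult_density (p : ℕ) (hp : 0 < p) (A : Set ℕ) (hA : ∀ m, p ∣ m → m ∈ A) :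
    0 < upperDensity A := by
  apply density_pos_of (δ := 1 / p) (by positivity)
  intro L
  refine ⟨(L + 1) * p, by nlinarith, ?_⟩
  have h1 : (L + 1) ≤ (A ∩ Icc 1 ((L + 1) * p)).ncard := by
    calc L + 1 = ((Finset.range (L + 1)).image (fun j => (j + 1) * p)).card := by
          rw [Finset.card_image_of_injective, Finset.card_range]
          intro i j hij
          have : (i + 1) * p = (j + 1) * p := hij
          have := Nat.eq_of_mul_eq_mul_right hp this
          omega
      _ = (((Finset.range (L + 1)).image (fun j => (j + 1) * p) : Finset ℕ) : Set ℕ).ncard := by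
          rw [Set.ncard_coe_finset]
      _ ≤ _ := by
          apply Set.ncard_le_ncard _ ((finite_Icc _ _).inter_of_right _)
          intro m hm
          rw [Finset.mem_coe, Finset.mem_image] at hm
          obtain ⟨j, hj, rfl⟩ := hm
          rw [Finset.mem_range] at hj
          refine ⟨hA _ (Dvd.intro_left _ rfl), ?_, ?_⟩
          · nlinarith
          · exact Nat.mul_le_mul_right _ (by omega)
  have h2 : ((L + 1 : ℕ) : ℝ) ≤ ((A ∩ Icc 1 ((L + 1) * p)).ncard : ℝ) := by exact_mod_cast h1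
  have hpR : (0 : ℝ) < p := by exact_mod_cast hp
  push_cast at h2 ⊢
  rw [div_le_div_iff₀ hpR (by positivity)]
  nlinarith

theorem propA (V : Set X) (hV : IsOpen V) (hne : V.Nonempty) :
    ∃ x : X, 0 < upperDensity {m | (T P ^ m) x ∈ V} := by
  obtain ⟨y, hy⟩ := hne
  rw [Metric.isOpen_iff] at hV
  obtain ⟨ρ, hρ, hball⟩ := hV y hy
  obtain ⟨N, hN⟩ := exists_pow_lt_of_lt_one (by positivity : (0 : ℝ) < ρ / 2)
    (by norm_num : (1 / 2 : ℝ) < 1)
  obtain ⟨n, hn, hU⟩ := U_dense P y (ρ / 2) (by positivity) N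
  refine ⟨((2 : ℂ) ^ n)⁻¹ • E P n 0, ?_⟩
  apply mult_density (P.p n) (by have := P.ppos n; omega)
  intro m hm
  rw [mem_setOf_eq]
  apply hball
  rw [Metric.mem_ball, dist_eq_norm, map_smul, Tpow_E, zero_add]
  unfold E
  have h0 : m % P.p n = 0 := Nat.mod_eq_zero_of_dvd hm
  have h2 : ((2 : ℂ) ^ n) ≠ 0 := pow_ne_zero _ (by norm_num)
  have h7 : ((2 : ℂ) ^ n)⁻¹ • (lev P n m + (2 : ℂ) ^ n • U P n 0) =
      ((2 : ℂ) ^ n)⁻¹ • lev P n m + U P n 0 := by
    ext r
    simp only [ZeroAtInftyContinuousMap.smul_apply,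
      ZeroAtInftyContinuousMap.add_apply, smul_eq_mul]
    field_simp
  rw [h0, h7]
  have h3 : ‖((2 : ℂ) ^ n)⁻¹ • lev P n m‖ < ρ / 2 := by
    rw [norm_smul, norm_inv, two_norm_pow]
    have h4 : ((2 : ℝ) ^ n)⁻¹ ≤ (1 / 2) ^ N := by
      rw [one_div, inv_pow]
      apply inv_anti₀ (by positivity)
      exact pow_le_pow_right₀ (by norm_num) hn
    have h5 := lev_norm_one P n m hm
    have h6 : (0 : ℝ) ≤ ((2 : ℝ) ^ n)⁻¹ := by positivity
    calc ((2 : ℝ) ^ n)⁻¹ * ‖lev P n m‖ ≤ ((2 : ℝ) ^ n)⁻¹ * 1 := mul_le_mul_of_nonneg_left h5 h6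
      _ ≤ (1 / 2) ^ N := by rw [mul_one]; exact h4
      _ < ρ / 2 := hN
  calc ‖((2 : ℂ) ^ n)⁻¹ • lev P n m + U P n 0 - y‖
      = ‖((2 : ℂ) ^ n)⁻¹ • lev P n m + (U P n 0 - y)‖ := by rw [add_sub_assoc]
    _ ≤ ‖((2 : ℂ) ^ n)⁻¹ • lev P n m‖ + ‖U P n 0 - y‖ := norm_add_le _ _
    _ < ρ := by linarith

end Q70.Pa
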