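import Pool.Agent.Q70.PaE

set_option autoImplicit false

namespace Q70.Pa

open Filter Topology Set

/-- coefficient coding -/
noncomputable def cc : ℕ → ℂ
  | 0 => 0
  | k + 1 => TopologicalSpace.denseSeq ℂ k

lemma cc_dense (w : ℂ) (ε : ℝ) (hε : 0 < ε) : ∃ k, ‖cc k - w‖ < ε := by
  have h := TopologicalSpace.denseRange_denseSeq ℂ
  obtain ⟨k, hk⟩ := h.exists_dist_lt w hε
  refine ⟨k + 1, ?_⟩
  rw [dist_comm, dist_eq_norm] at hk
  exact hk

lemma exists_u : ∃ u : ℕ → (ℕ × ℕ →₀ ℂ), (∀ n q, q ∈ (u n).support → q.1 < n) ∧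
    (∀ n, ∑ q ∈ (u n).support, ‖u n q‖ ≤ n) ∧
    (∀ z : ℕ × ℕ →₀ ℂ, ∀ ε : ℝ, 0 < ε → ∀ N : ℕ, ∃ n ≥ N,
      (u n).support ⊆ z.support ∧ ∀ q, ‖u n q - z q‖ < ε) := by
  classical
  obtain ⟨f, hf⟩ := exists_surjective_nat (ℕ × ℕ →₀ ℕ)
  let g : ℕ → (ℕ × ℕ →₀ ℂ) := fun n => (f n.unpair.1).mapRange cc rfl
  let C : ℕ → Prop := fun n =>
    (∀ q ∈ (g n).support, q.1 < n) ∧ ∑ q ∈ (g n).support, ‖g n q‖ ≤ n
  refine ⟨fun n => if C n then g n else 0, ?_, ?_, ?_⟩
  · intro n q hq
    by_cases h : C n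
    · simp only [if_pos h] at hq
      exact h.1 q hq
    · simp only [if_neg h] at hq
      simp at hq
  · intro n
    by_cases h : C n
    · simp only [if_pos h]
      exact h.2
    · simp only [if_neg h]
      simp
  · intro z ε hε N
    choose r hr using fun q => cc_dense (z q) ε hε
    let z' : ℕ × ℕ →₀ ℕ := Finsupp.onFinset z.support (fun q => if q ∈ z.support then r q else 0)
      (by
        intro q hq
        by_contra h
        exact hq (if_neg h))
    obtain ⟨a, ha⟩ := hf z'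
    set w : ℕ × ℕ →₀ ℂ := z'.mapRange cc rfl with hw
    obtain ⟨L, hL⟩ : ∃ L : ℕ, (∀ q ∈ w.support, q.1 < L) := by
      refine ⟨w.support.sup (fun q => q.1) + 1, fun q hq => ?_⟩
      have := Finset.le_sup (f := fun q : ℕ × ℕ => q.1) hq
      exact Nat.lt_succ_of_le this
    obtain ⟨K, hK⟩ := exists_nat_ge (∑ q ∈ w.support, ‖w q‖)
    set b := max N (max L K) with hb
    set n := Nat.pair a b with hn
    have hbn : b ≤ n := Nat.right_le_pair a b
    have hg : g n = w := by
      simp only [g]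
      rw [hn, Nat.unpair_pair]
      simp only
      rw [ha]
    have hC : C n := by
      refine ⟨?_, ?_⟩
      · rw [hg]
        intro q hq
        have := hL q hq
        have : L ≤ b := le_trans (le_max_left _ _) (le_max_right _ _)
        omega
      · rw [hg]
        have h1 : K ≤ n := le_trans (le_trans (le_max_right _ _) (le_max_right _ _)) hbn
        have h2 : (K : ℝ) ≤ n := by exact_mod_cast h1
        linarith
    refine ⟨n, le_trans (le_max_left _ _) hbn, ?_, ?_⟩
    · simp only [if_pos hC]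
      rw [hg, hw]
      intro q hq
      rw [Finsupp.mem_support_iff, Finsupp.mapRange_apply, Finsupp.onFinset_apply] at hq
      by_contra h
      rw [if_neg h] at hq
      exact hq rfl
    · intro q
      simp only [if_pos hC]
      rw [hg, hw, Finsupp.mapRange_apply, Finsupp.onFinset_apply]
      split_ifs with h
      · exact hr q
      · rw [Finsupp.notMem_support_iff] at h
        rw [h]
        simpa [cc] using hε

lemma pow16 (n : ℕ) : n + 1 ≤ 16 ^ n := by
  induction n with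
  | zero => simp
  | succ n ih => rw [pow_succ]; omega

lemma two_pow_ge (n : ℕ) : (n : ℝ) + 1 ≤ 2 ^ n := by
  have : n + 1 ≤ 2 ^ n := Nat.lt_two_pow_self
  exact_mod_cast this

theorem exists_par : Nonempty Par := by
  obtain ⟨u, hu1, hu2, hu3⟩ := exists_u
  have key : ∀ n : ℕ, ((2 * (n + 1) * 16 ^ (n + 1) : ℕ) : ℝ) ≤ 2 ^ (5 * n + 5) := by
    intro n
    push_cast
    have h1 := two_pow_ge n
    have h2 : (16 : ℝ) ^ (n + 1) = 2 ^ (4 * n + 4) := by
      rw [show (16 : ℝ) = 2 ^ 4 by norm_num, ← pow_mul, mul_add, mul_one]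
    rw [h2]
    calc (2 : ℝ) * (n + 1) * 2 ^ (4 * n + 4) ≤ 2 * 2 ^ n * 2 ^ (4 * n + 4) := by
          apply mul_le_mul_of_nonneg_right _ (by positivity)
          linarith
      _ = 2 ^ (5 * n + 5) := by ring
  refine ⟨{ h := fun n => 16 ^ (n + 1)
            p := fun n => 2 * (n + 1) * 16 ^ (n + 1)
            D := fun n => 2 ^ (16 ^ n + 2 * n)
            κ := fun n => ((2 : ℝ) ^ (4 * 16 ^ n))⁻¹
            u := u
            hh := fun n => Nat.one_le_pow _ _ (by norm_num)
            hp := fun n => rfl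
            D1 := fun n => one_le_pow₀ (by norm_num)
            κ0 := fun n => by positivity
            κ1 := by norm_num
            κs := ?_
            hb := ?_
            us := hu1
            uD := ?_
            dense := hu3 }⟩
  · intro n
    have h1 := key n
    have h16 := pow16 n
    have h2 : ((2 * (n + 1) * 16 ^ (n + 1) : ℕ) : ℝ) * 2 ^ (n + 2) * 2 ^ (16 ^ n + 2 * n) ≤
        2 ^ (8 * n + 7 + 16 ^ n) := by
      calc ((2 * (n + 1) * 16 ^ (n + 1) : ℕ) : ℝ) * 2 ^ (n + 2) * 2 ^ (16 ^ n + 2 * n)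
          ≤ 2 ^ (5 * n + 5) * 2 ^ (n + 2) * 2 ^ (16 ^ n + 2 * n) := by
            apply mul_le_mul_of_nonneg_right _ (by positivity)
            exact mul_le_mul_of_nonneg_right h1 (by positivity)
        _ = _ := by ring
    rw [inv_mul_le_iff₀ (by positivity)]
    refine le_trans h2 ?_
    rw [← div_eq_mul_inv, le_div_iff₀ (by positivity), ← pow_add]
    apply pow_le_pow_right₀ (by norm_num)
    rw [pow_succ]
    omega
  · intro n
    have h1 := key n
    have h16 := pow16 n
    have h2 : 5 * (((2 * (n + 1) * 16 ^ (n + 1) : ℕ) : ℝ) * 2 ^ (n + 1) * 2 ^ (16 ^ n + 2 * n)) ≤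
        2 ^ (8 * n + 9 + 16 ^ n) := by
      calc 5 * (((2 * (n + 1) * 16 ^ (n + 1) : ℕ) : ℝ) * 2 ^ (n + 1) * 2 ^ (16 ^ n + 2 * n))
          ≤ 2 ^ 3 * (2 ^ (5 * n + 5) * 2 ^ (n + 1) * 2 ^ (16 ^ n + 2 * n)) := by
            apply mul_le_mul (by norm_num) _ (by positivity) (by positivity)
            apply mul_le_mul_of_nonneg_right _ (by positivity)
            exact mul_le_mul_of_nonneg_right h1 (by positivity)
        _ = _ := by ring
    refine le_trans h2 ?_
    rw [inv_mul_eq_div, le_div_iff₀ (by positivity), ← pow_add]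
    apply pow_le_pow_right₀ (by norm_num)
    rw [pow_succ]
    omega
  · intro n
    have hterm : ∀ q ∈ (u n).support, ‖u n q‖ * ((2 : ℝ) ^ 16 ^ (q.1 + 1) +
        2 ^ q.1 * (2 * 2 ^ (16 ^ q.1 + 2 * q.1))) ≤ ‖u n q‖ * 2 ^ (16 ^ n + 1) := by
      intro q hq
      apply mul_le_mul_of_nonneg_left _ (norm_nonneg _)
      have hlt := hu1 n q hq
      have h1 : 16 ^ (q.1 + 1) ≤ 16 ^ n := Nat.pow_le_pow_right (by norm_num) hlt
      have h2 : (2 : ℝ) ^ 16 ^ (q.1 + 1) ≤ 2 ^ 16 ^ n := pow_le_pow_right₀ (by norm_num) h1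
      have h3 : (2 : ℝ) ^ q.1 * (2 * 2 ^ (16 ^ q.1 + 2 * q.1)) ≤ 2 ^ 16 ^ n := by
        have : (2 : ℝ) ^ q.1 * (2 * 2 ^ (16 ^ q.1 + 2 * q.1)) = 2 ^ (16 ^ q.1 + 3 * q.1 + 1) := by
          ring
        rw [this]
        apply pow_le_pow_right₀ (by norm_num)
        have h16 := pow16 q.1
        rw [pow_succ] at h1
        omega
      have h4 : (2 : ℝ) ^ (16 ^ n + 1) = 2 ^ 16 ^ n * 2 := pow_succ _ _
      rw [h4]
      linarith
    refine le_trans (Finset.sum_le_sum hterm) ?_
    rw [← Finset.sum_mul]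
    rcases Nat.eq_zero_or_pos n with h0 | h0
    · subst h0
      have : ∑ q ∈ (u 0).support, ‖u 0 q‖ ≤ 0 := by simpa using hu2 0
      have h' : ∑ q ∈ (u 0).support, ‖u 0 q‖ * 1 ≤ 0 := by simpa using this
      have h3 : (∑ q ∈ (u 0).support, ‖u 0 q‖) * (2 : ℝ) ^ (16 ^ 0 + 1) ≤ 0 :=
        mul_nonpos_of_nonpos_of_nonneg this (by positivity)
      refine le_trans h3 (by positivity)
    · calc (∑ q ∈ (u n).support, ‖u n q‖) * (2 : ℝ) ^ (16 ^ n + 1)
          ≤ (n : ℝ) * 2 ^ (16 ^ n + 1) := mul_le_mul_of_nonneg_right (hu2 n) (by positivity)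
        _ ≤ 2 ^ n * 2 ^ (16 ^ n + 1) := by
            apply mul_le_mul_of_nonneg_right _ (by positivity)
            have := two_pow_ge n
            linarith
        _ = 2 ^ (16 ^ n + n + 1) := by ring
        _ ≤ _ := by
            apply pow_le_pow_right₀ (by norm_num)
            omega

end Q70.Pa
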