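import Mathlib
import Pool.Agent.Q70.Milman

/-!
# Affine flows and proximally irreducible affine extensions

Definitions for `MP_d4114f_an` and the proof that proximally irreducible affine extensions compose.
-/

set_option autoImplicit false
set_option linter.unusedSectionVars false

namespace Q70.ProxIrr

open Topology Filter Set

section defs

variable {G E F : Type*}

/-- `f` is affine on the set `s`. -/
def AffineOn [AddCommGroup E] [Module ℝ E] [AddCommGroup F] [Module ℝ F] (f : E → F) (s : Set E) :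
    Prop :=
  ∀ x ∈ s, ∀ y ∈ s, ∀ a b : ℝ, 0 ≤ a → 0 ≤ b → a + b = 1 → f (a • x + b • y) = a • f x + b • f y

/-- An affine `G`-flow: a compact convex subset `carrier` of the real topological vector space `E`
with a (jointly) continuous action of `G` on `carrier` by affine maps. The action is written as a
function `act : G → E → E`, of which only the values on `carrier` matter. -/
structure AffineFlow (G E : Type*) [Group G] [TopologicalSpace G] [AddCommGroup E] [Module ℝ E]
    [TopologicalSpace E] where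
  carrier : Set E
  compact : IsCompact carrier
  convex : Convex ℝ carrier
  act : G → E → E
  mapsTo : ∀ g, MapsTo (act g) carrier carrier
  act_one : ∀ x ∈ carrier, act 1 x = x
  act_mul : ∀ g h, ∀ x ∈ carrier, act (g * h) x = act g (act h x)
  continuousOn : ContinuousOn (fun p : G × E => act p.1 p.2) (univ ×ˢ carrier)
  affine : ∀ g, AffineOn (act g) carrier

variable [Group G] [TopologicalSpace G]
variable [AddCommGroup E] [Module ℝ E] [TopologicalSpace E]
variable [AddCommGroup F] [Module ℝ F] [TopologicalSpace F]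

/-- `C` is an affine subflow of `K`: a compact convex `G`-invariant subset. -/
structure IsSubflow (K : AffineFlow G E) (C : Set E) : Prop where
  subset : C ⊆ K.carrier
  compact : IsCompact C
  convex : Convex ℝ C
  mapsTo : ∀ g, MapsTo (K.act g) C C

/-- The closure of the set of extreme points of `K`. -/
def closedExt (K : AffineFlow G E) : Set E := closure (K.carrier.extremePoints ℝ)

/-- `φ` is an affine extension `L → K`: a continuous affine equivariant surjection. Only the values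
of `φ : F → E` on `L` matter. -/
structure IsAffineExtension (L : AffineFlow G F) (K : AffineFlow G E) (φ : F → E) : Prop where
  continuousOn : ContinuousOn φ L.carrier
  image_eq : φ '' L.carrier = K.carrier
  affine : AffineOn φ L.carrier
  equivariant : ∀ g, ∀ x ∈ L.carrier, φ (L.act g x) = K.act g (φ x)

/-- Proximal irreducibility of `φ : L → K`: every affine subflow `C` of `L` which meets, for every
`y` in the closure of `ext K`, the convex hull of the points over `y` of the closure of `ext L`, is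
all of `L`. -/
def IsProxIrred (L : AffineFlow G F) (K : AffineFlow G E) (φ : F → E) : Prop :=
  ∀ C, IsSubflow L C →
    (∀ y ∈ closedExt K, (C ∩ convexHull ℝ (closedExt L ∩ φ ⁻¹' {y})).Nonempty) → C = L.carrier

end defs

section affine

variable {E F : Type*} [AddCommGroup E] [Module ℝ E] [AddCommGroup F] [Module ℝ F]

theorem AffineOn.map_sum {f : E → F} {s : Set E} (hf : AffineOn f s) (hs : Convex ℝ s)
    {ι : Type*} [Fintype ι] (t : ι → ℝ) (ht : ∀ i, 0 ≤ t i) (ht1 : ∑ i, t i = 1) (p : ι → E)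
    (hp : ∀ i, p i ∈ s) : f (∑ i, t i • p i) = ∑ i, t i • f (p i) := by
  have hconv : Convex ℝ {z : E × F | z.1 ∈ s ∧ z.2 = f z.1} := by
    rintro ⟨x, u⟩ ⟨hx, hu⟩ ⟨y, v⟩ ⟨hy, hv⟩ a b ha hb hab
    simp only at hx hu hy hv
    subst hu hv
    refine ⟨hs hx hy ha hb hab, ?_⟩
    simpa using (hf x hx y hy a b ha hb hab).symm
  have := hconv.sum_mem (t := Finset.univ) (w := t) (z := fun i => (p i, f (p i)))
    (fun i _ => ht i) ht1 (fun i _ => ⟨hp i, rfl⟩)
  obtain ⟨-, h2⟩ := this
  simp only [Prod.snd_sum, Prod.fst_sum, Prod.smul_mk] at h2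
  exact h2.symm

theorem AffineOn.comp {H : Type*} [AddCommGroup H] [Module ℝ H] {f : E → F} {g : H → E} {s : Set E}
    {t : Set H} (hf : AffineOn f s) (hg : AffineOn g t) (hgt : MapsTo g t s) :
    AffineOn (f ∘ g) t := by
  intro x hx y hy a b ha hb hab
  simp only [Function.comp]
  rw [hg x hx y hy a b ha hb hab, hf _ (hgt hx) _ (hgt hy) a b ha hb hab]

theorem AffineOn.convex_preimage {f : E → F} {s : Set E} (hf : AffineOn f s) (hs : Convex ℝ s)
    {C : Set F} (hC : Convex ℝ C) : Convex ℝ (s ∩ f ⁻¹' C) := by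
  rintro x ⟨hx, hfx⟩ y ⟨hy, hfy⟩ a b ha hb hab
  refine ⟨hs hx hy ha hb hab, ?_⟩
  rw [mem_preimage, hf x hx y hy a b ha hb hab]
  exact hC hfx hfy ha hb hab

/-- an extreme point which is a convex combination is equal to all terms of positive weight -/
theorem eq_of_extreme_sum {A : Set E} (hA : Convex ℝ A) {z : E} (hz : z ∈ A.extremePoints ℝ)
    {ι : Type*} [Fintype ι] (t : ι → ℝ) (ht : ∀ i, 0 ≤ t i) (ht1 : ∑ i, t i = 1) (q : ι → E)
    (hq : ∀ i, q i ∈ A) (hsum : ∑ i, t i • q i = z) (i : ι) (hi : 0 < t i) : q i = z := by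
  classical
  have hsplit : t i + ∑ j ∈ Finset.univ.erase i, t j = 1 := by
    rw [Finset.add_sum_erase _ _ (Finset.mem_univ i), ht1]
  have hsplit2 : t i • q i + ∑ j ∈ Finset.univ.erase i, t j • q j = z := by
    rw [Finset.add_sum_erase (f := fun j => t j • q j) _ (Finset.mem_univ i), hsum]
  set s := ∑ j ∈ Finset.univ.erase i, t j with hs
  have hs0 : 0 ≤ s := Finset.sum_nonneg fun j _ => ht j
  rcases hs0.eq_or_lt with h0 | h0
  · have hz0 : ∀ j ∈ Finset.univ.erase i, t j = 0 :=
      (Finset.sum_eq_zero_iff_of_nonneg fun j _ => ht j).1 h0.symm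
    have h3 : ∑ j ∈ Finset.univ.erase i, t j • q j = 0 :=
      Finset.sum_eq_zero fun j hj => by rw [hz0 j hj, zero_smul]
    have h1 : t i = 1 := by linarith
    rw [h3, add_zero, h1, one_smul] at hsplit2
    exact hsplit2
  · set w := ∑ j ∈ Finset.univ.erase i, (t j / s) • q j with hw
    have hwA : w ∈ A := by
      refine hA.sum_mem (fun j _ => div_nonneg (ht j) hs0) ?_ (fun j _ => hq j)
      rw [← Finset.sum_div]
      exact div_self h0.ne'
    have hsw : s • w = ∑ j ∈ Finset.univ.erase i, t j • q j := by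
      rw [hw, Finset.smul_sum]
      refine Finset.sum_congr rfl fun j _ => ?_
      rw [smul_smul, mul_div_cancel₀ _ h0.ne']
    have hseg : z ∈ openSegment ℝ (q i) w := ⟨t i, s, hi, h0, hsplit, by rw [hsw, hsplit2]⟩
    exact hz.2 (hq i) hwA hseg

end affine

section flows

variable {G E : Type*} [Group G] [TopologicalSpace G]
variable [AddCommGroup E] [Module ℝ E] [TopologicalSpace E]

theorem AffineFlow.cont (K : AffineFlow G E) (g : G) : ContinuousOn (K.act g) K.carrier := by
  have h : ContinuousOn (fun x : E => (g, x)) K.carrier := by fun_prop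
  exact K.continuousOn.comp h fun x hx => ⟨mem_univ _, hx⟩

theorem AffineFlow.act_inv_act (K : AffineFlow G E) (g : G) {x : E} (hx : x ∈ K.carrier) :
    K.act g⁻¹ (K.act g x) = x := by
  rw [← K.act_mul _ _ _ hx, inv_mul_cancel, K.act_one _ hx]

theorem AffineFlow.act_act_inv (K : AffineFlow G E) (g : G) {x : E} (hx : x ∈ K.carrier) :
    K.act g (K.act g⁻¹ x) = x := by
  rw [← K.act_mul _ _ _ hx, mul_inv_cancel, K.act_one _ hx]

theorem AffineFlow.ext_mapsTo (K : AffineFlow G E) (g : G) :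
    MapsTo (K.act g) (K.carrier.extremePoints ℝ) (K.carrier.extremePoints ℝ) := by
  intro x hx
  refine ⟨K.mapsTo g hx.1, ?_⟩
  rintro u hu v hv ⟨a, b, ha, hb, hab, he⟩
  have h1 := K.affine g⁻¹ u hu v hv a b ha.le hb.le hab
  rw [he, K.act_inv_act g hx.1] at h1
  have h2 : x ∈ openSegment ℝ (K.act g⁻¹ u) (K.act g⁻¹ v) := ⟨a, b, ha, hb, hab, h1.symm⟩
  have h3 := hx.2 (K.mapsTo _ hu) (K.mapsTo _ hv) h2
  rw [← h3, K.act_act_inv g hu]

theorem AffineFlow.closure_mapsTo [T2Space E] (K : AffineFlow G E) (g : G) {S : Set E}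
    (hS : S ⊆ K.carrier) (h : MapsTo (K.act g) S S) :
    MapsTo (K.act g) (closure S) (closure S) :=
  h.closure_of_continuousOn ((K.cont g).mono (closure_minimal hS K.compact.isClosed))

theorem AffineFlow.ext_subset (K : AffineFlow G E) : K.carrier.extremePoints ℝ ⊆ K.carrier :=
  extremePoints_subset

theorem AffineFlow.closedExt_subset [T2Space E] (K : AffineFlow G E) : closedExt K ⊆ K.carrier :=
  closure_minimal K.ext_subset K.compact.isClosed

theorem AffineFlow.closedExt_compact [T2Space E] (K : AffineFlow G E) : IsCompact (closedExt K) :=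
  K.compact.of_isClosed_subset isClosed_closure K.closedExt_subset

theorem AffineFlow.closedExt_mapsTo [T2Space E] (K : AffineFlow G E) (g : G) :
    MapsTo (K.act g) (closedExt K) (closedExt K) :=
  K.closure_mapsTo g K.ext_subset (K.ext_mapsTo g)

/-- the closed convex hull of an invariant set is a subflow -/
theorem AffineFlow.isSubflow_hull [T2Space E] [IsTopologicalAddGroup E] [ContinuousSMul ℝ E]
    (K : AffineFlow G E) {S : Set E}
    (hS : S ⊆ K.carrier) (h : ∀ g, MapsTo (K.act g) S S) :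
    IsSubflow K (closure (convexHull ℝ S)) := by
  have hsub : closure (convexHull ℝ S) ⊆ K.carrier :=
    closure_minimal (convexHull_min hS K.convex) K.compact.isClosed
  refine ⟨hsub, K.compact.of_isClosed_subset isClosed_closure hsub,
    (convex_convexHull ℝ S).closure, fun g => ?_⟩
  refine K.closure_mapsTo g (convexHull_min hS K.convex) ?_
  have h1 : convexHull ℝ S ⊆ K.carrier ∩ K.act g ⁻¹' (convexHull ℝ S) := by
    refine convexHull_min (fun x hx => ⟨hS hx, subset_convexHull ℝ S (h g hx)⟩) ?_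
    exact (K.affine g).convex_preimage K.convex (convex_convexHull ℝ S)
  exact fun x hx => (h1 hx).2

end flows

section ext

variable {G E F : Type*} [Group G] [TopologicalSpace G]
variable [AddCommGroup E] [Module ℝ E] [TopologicalSpace E] [T2Space E]
variable [AddCommGroup F] [Module ℝ F] [TopologicalSpace F] [T2Space F]
  [IsTopologicalAddGroup F] [ContinuousSMul ℝ F] [LocallyConvexSpace ℝ F]
variable {L : AffineFlow G F} {K : AffineFlow G E} {φ : F → E}

theorem IsAffineExtension.mapsTo (h : IsAffineExtension L K φ) : MapsTo φ L.carrier K.carrier := by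
  intro x hx
  rw [← h.image_eq]
  exact mem_image_of_mem φ hx

/-- every point of the closure of `ext K` is the image of a point of the closure of `ext L` -/
theorem IsAffineExtension.closedExt_subset (h : IsAffineExtension L K φ) :
    closedExt K ⊆ φ '' closedExt L := by
  have hc : IsCompact (φ '' closedExt L) :=
    L.closedExt_compact.image_of_continuousOn (h.continuousOn.mono L.closedExt_subset)
  refine closure_minimal ?_ hc.isClosed
  intro y hy
  have hyK : y ∈ K.carrier := hy.1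
  have hfc : IsClosed (L.carrier ∩ φ ⁻¹' {y}) :=
    h.continuousOn.preimage_isClosed_of_isClosed L.compact.isClosed isClosed_singleton
  have hfcc : IsCompact (L.carrier ∩ φ ⁻¹' {y}) :=
    L.compact.of_isClosed_subset hfc inter_subset_left
  have hne : (L.carrier ∩ φ ⁻¹' {y}).Nonempty := by
    rw [← h.image_eq] at hyK
    obtain ⟨x, hx, hxy⟩ := hyK
    exact ⟨x, hx, hxy⟩
  obtain ⟨x, hx⟩ := hfcc.extremePoints_nonempty hne
  refine ⟨x, subset_closure ⟨hx.1.1, ?_⟩, hx.1.2⟩
  rintro u hu v hv ⟨a, b, ha, hb, hab, he⟩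
  have h1 := h.affine u hu v hv a b ha.le hb.le hab
  rw [he, hx.1.2] at h1
  have hu' : φ u = y := hy.2 (h.mapsTo hu) (h.mapsTo hv) ⟨a, b, ha, hb, hab, h1.symm⟩
  have hv' : φ v = y := by
    refine hy.2 (h.mapsTo hv) (h.mapsTo hu) ?_
    rw [openSegment_symm]
    exact ⟨a, b, ha, hb, hab, h1.symm⟩
  exact hx.2 ⟨hu, hu'⟩ ⟨hv, hv'⟩ ⟨a, b, ha, hb, hab, he⟩

/-- Proximal irreducibility together with Milman's theorem. -/
theorem IsProxIrred.ext_subset (hpi : IsProxIrred L K φ) {A : Set F} (hA : IsCompact A)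
    (hAL : A ⊆ L.carrier) (hinv : ∀ g, MapsTo (L.act g) A A)
    (hy : ∀ y ∈ closedExt K,
      (closure (convexHull ℝ A) ∩ convexHull ℝ (closedExt L ∩ φ ⁻¹' {y})).Nonempty) :
    L.carrier.extremePoints ℝ ⊆ A := by
  have h := hpi _ (L.isSubflow_hull hAL hinv) hy
  exact Q70.Milman.milman L.compact L.convex hA hAL h.symm.subset

theorem IsProxIrred.closedExt_subset (hpi : IsProxIrred L K φ) {A : Set F} (hA : IsCompact A)
    (hAL : A ⊆ L.carrier) (hinv : ∀ g, MapsTo (L.act g) A A)
    (hy : ∀ y ∈ closedExt K,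
      (closure (convexHull ℝ A) ∩ convexHull ℝ (closedExt L ∩ φ ⁻¹' {y})).Nonempty) :
    closedExt L ⊆ A :=
  closure_minimal (hpi.ext_subset hA hAL hinv hy) hA.isClosed

/-- `φ` maps the closure of `ext L` to the closure of `ext K` -/
theorem IsProxIrred.mapsTo (h : IsAffineExtension L K φ) (hpi : IsProxIrred L K φ) :
    MapsTo φ (closedExt L) (closedExt K) := by
  have hcl : IsClosed (closedExt L ∩ φ ⁻¹' closedExt K) :=
    (h.continuousOn.mono L.closedExt_subset).preimage_isClosed_of_isClosed isClosed_closure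
      isClosed_closure
  have hsub : closedExt L ∩ φ ⁻¹' closedExt K ⊆ L.carrier :=
    inter_subset_left.trans L.closedExt_subset
  have h1 : closedExt L ⊆ closedExt L ∩ φ ⁻¹' closedExt K := by
    refine hpi.closedExt_subset (L.compact.of_isClosed_subset hcl hsub) hsub ?_ ?_
    · rintro g x ⟨hx1, hx2⟩
      refine ⟨L.closedExt_mapsTo g hx1, ?_⟩
      rw [mem_preimage, h.equivariant g x (L.closedExt_subset hx1)]
      exact K.closedExt_mapsTo g hx2
    · intro y hy
      obtain ⟨x, hx, hxy⟩ := h.closedExt_subset hy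
      refine ⟨x, subset_closure (subset_convexHull ℝ _ ⟨hx, ?_⟩), subset_convexHull ℝ _ ⟨hx, hxy⟩⟩
      rw [mem_preimage, hxy]
      exact hy
  exact fun x hx => (h1 hx).2

/-- points of the closure of `ext L` over an open set are limits of extreme points over it -/
theorem closedExt_inter_subset (L : AffineFlow G F) {f : F → E} (hf : ContinuousOn f L.carrier)
    {W : Set E} (hW : IsOpen W) :
    closedExt L ∩ f ⁻¹' W ⊆ closure (L.carrier.extremePoints ℝ ∩ f ⁻¹' W) := by
  rintro z ⟨hz, hzW⟩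
  rw [mem_closure_iff_nhds]
  intro N hN
  have h1 : f ⁻¹' W ∈ 𝓝[L.carrier] z :=
    (hf z (L.closedExt_subset hz)).preimage_mem_nhdsWithin (hW.mem_nhds hzW)
  rw [mem_nhdsWithin_iff_exists_mem_nhds_inter] at h1
  obtain ⟨U, hU, hUL⟩ := h1
  obtain ⟨x, ⟨hxN, hxU⟩, hx⟩ := mem_closure_iff_nhds.1 hz _ (inter_mem hN hU)
  exact ⟨x, hxN, hx, hUL ⟨hxU, L.ext_subset hx⟩⟩

end ext

section baire

variable {E : Type*} [TopologicalSpace E]

/-- the relative interior of `Y ∩ S` in `S` -/
def relInt (S Y : Set E) : Set E := {y | y ∈ S ∧ ∃ U, IsOpen U ∧ y ∈ U ∧ U ∩ S ⊆ Y}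

theorem relInt_eq (S Y : Set E) : relInt S Y = S ∩ interior (Y ∪ Sᶜ) := by
  ext y
  constructor
  · rintro ⟨hy, U, hU, hyU, hUS⟩
    refine ⟨hy, mem_interior.2 ⟨U, fun z hz => ?_, hU, hyU⟩⟩
    by_cases hzS : z ∈ S
    · exact Or.inl (hUS ⟨hz, hzS⟩)
    · exact Or.inr hzS
  · rintro ⟨hy, hy2⟩
    refine ⟨hy, interior (Y ∪ Sᶜ), isOpen_interior, hy2, ?_⟩
    rintro z ⟨hz, hzS⟩
    rcases interior_subset hz with h | h
    · exact h
    · exact absurd hzS h

theorem relInt_subset (S Y : Set E) : relInt S Y ⊆ Y := by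
  rintro y ⟨hy, U, -, hyU, hUS⟩
  exact hUS ⟨hyU, hy⟩

/-- Baire's theorem in a compact set -/
theorem baire_relInt [T2Space E] {S : Set E} (hS : IsCompact S) (Y : ℕ → Set E)
    (hY : ∀ k, IsClosed (Y k)) (hSY : S ⊆ ⋃ k, Y k) : S ⊆ closure (⋃ k, relInt S (Y k)) := by
  have : CompactSpace S := isCompact_iff_compactSpace.1 hS
  have hd : Dense (⋃ k, interior ((Subtype.val : S → E) ⁻¹' (Y k))) := by
    refine dense_iUnion_interior_of_closed (fun k => (hY k).preimage continuous_subtype_val) ?_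
    rw [eq_univ_iff_forall]
    rintro ⟨x, hx⟩
    obtain ⟨k, hk⟩ := mem_iUnion.1 (hSY hx)
    exact mem_iUnion.2 ⟨k, hk⟩
  intro x hx
  rw [mem_closure_iff]
  intro U hU hxU
  obtain ⟨⟨y, hyS⟩, hyU, hy⟩ := hd.inter_open_nonempty _ (hU.preimage continuous_subtype_val)
    ⟨⟨x, hx⟩, hxU⟩
  obtain ⟨k, hk⟩ := mem_iUnion.1 hy
  refine ⟨y, hyU, mem_iUnion.2 ⟨k, hyS, ?_⟩⟩
  obtain ⟨V, hVsub, hV, hyV⟩ := mem_interior.1 hk
  obtain ⟨V', hV', rfl⟩ := isOpen_induced_iff.1 hV
  refine ⟨V', hV', hyV, ?_⟩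
  rintro z ⟨hz, hzS⟩
  exact hVsub (show (⟨z, hzS⟩ : S) ∈ Subtype.val ⁻¹' V' from hz)

end baire

section main

variable {G E F H : Type*} [Group G] [TopologicalSpace G]
variable [AddCommGroup E] [Module ℝ E] [TopologicalSpace E] [T2Space E]
variable [AddCommGroup F] [Module ℝ F] [TopologicalSpace F] [T2Space F]
  [IsTopologicalAddGroup F] [ContinuousSMul ℝ F] [LocallyConvexSpace ℝ F]
variable [AddCommGroup H] [Module ℝ H] [TopologicalSpace H] [T2Space H]
  [IsTopologicalAddGroup H] [ContinuousSMul ℝ H] [LocallyConvexSpace ℝ H]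

theorem relInt_mapsTo (K : AffineFlow G E) {S Y : Set E} (hSK : S ⊆ K.carrier)
    (hS : ∀ g, MapsTo (K.act g) S S) (hY : ∀ g, MapsTo (K.act g) Y Y) (g : G) :
    MapsTo (K.act g) (relInt S Y) (relInt S Y) := by
  rintro y ⟨hy, U, hU, hyU, hUS⟩
  have hc : ContinuousOn (K.act g⁻¹) S := (K.cont g⁻¹).mono hSK
  obtain ⟨U', hU', hUU'⟩ := (continuousOn_iff'.1 hc) U hU
  refine ⟨hS g hy, U', hU', ?_, ?_⟩
  · have : K.act g y ∈ K.act g⁻¹ ⁻¹' U ∩ S := by
      refine ⟨?_, hS g hy⟩
      rw [mem_preimage, K.act_inv_act g (hSK hy)]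
      exact hyU
    rw [hUU'] at this
    exact this.1
  · intro z hz
    rw [← hUU'] at hz
    have h3 := hY g (hUS ⟨hz.1, hS _ hz.2⟩)
    rwa [K.act_act_inv g (hSK hz.2)] at h3

theorem IsAffineExtension.comp {K : AffineFlow G E} {L : AffineFlow G F} {P : AffineFlow G H}
    {φ : F → E} {ψ : H → F} (h1 : IsAffineExtension L K φ) (h2 : IsAffineExtension P L ψ) :
    IsAffineExtension P K (φ ∘ ψ) where
  continuousOn := h1.continuousOn.comp h2.continuousOn h2.mapsTo
  image_eq := by rw [image_comp, h2.image_eq, h1.image_eq]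
  affine := h1.affine.comp h2.affine h2.mapsTo
  equivariant g x hx := by
    simp only [Function.comp]
    rw [h2.equivariant g x hx, h1.equivariant g _ (h2.mapsTo hx)]

/-- convex combinations in `C` of `k + 1` points of the closure of `ext P` with the same image -/
def TT (P : AffineFlow G H) (f : H → E) (C : Set H) (k : ℕ) :
    Set ((Fin (k + 1) → ℝ) × (Fin (k + 1) → closedExt P)) :=
  {q | q.1 ∈ stdSimplex ℝ (Fin (k + 1)) ∧ (∀ i, f (q.2 i) = f (q.2 0)) ∧
    ∑ i, q.1 i • (q.2 i : H) ∈ C}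

theorem TT_compact {P : AffineFlow G H} {f : H → E} {C : Set H} (hf : ContinuousOn f P.carrier)
    (hC : IsClosed C) (k : ℕ) : IsCompact (TT P f C k) := by
  have : CompactSpace (closedExt P) := isCompact_iff_compactSpace.1 P.closedExt_compact
  have hf' : Continuous (fun x : closedExt P => f x) :=
    continuousOn_iff_continuous_domRestrict.1 (hf.mono P.closedExt_subset)
  have hcpt : IsCompact (stdSimplex ℝ (Fin (k + 1)) ×ˢ
      (univ : Set (Fin (k + 1) → closedExt P))) := (isCompact_stdSimplex ℝ _).prod isCompact_univ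
  have hcl : IsClosed {q : (Fin (k + 1) → ℝ) × (Fin (k + 1) → closedExt P) |
      (∀ i, f (q.2 i) = f (q.2 0)) ∧ ∑ i, q.1 i • (q.2 i : H) ∈ C} := by
    refine IsClosed.inter ?_ ?_
    · have : {q : (Fin (k + 1) → ℝ) × (Fin (k + 1) → closedExt P) |
          ∀ i, f (q.2 i) = f (q.2 0)} = ⋂ i, {q | f (q.2 i) = f (q.2 0)} := by
        ext q; simp
      change IsClosed {q : (Fin (k + 1) → ℝ) × (Fin (k + 1) → closedExt P) |
          ∀ i, f (q.2 i) = f (q.2 0)}
      rw [this]
      refine isClosed_iInter fun i => isClosed_eq ?_ ?_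
      · exact hf'.comp (by fun_prop : Continuous fun q : (Fin (k + 1) → ℝ) ×
          (Fin (k + 1) → closedExt P) => q.2 i)
      · exact hf'.comp (by fun_prop : Continuous fun q : (Fin (k + 1) → ℝ) ×
          (Fin (k + 1) → closedExt P) => q.2 0)
    · exact hC.preimage (by fun_prop : Continuous fun q : (Fin (k + 1) → ℝ) ×
          (Fin (k + 1) → closedExt P) => ∑ i, q.1 i • (q.2 i : H))
  have : TT P f C k = (stdSimplex ℝ (Fin (k + 1)) ×ˢ (univ : Set (Fin (k + 1) → closedExt P))) ∩
      {q : (Fin (k + 1) → ℝ) × (Fin (k + 1) → closedExt P) |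
      (∀ i, f (q.2 i) = f (q.2 0)) ∧ ∑ i, q.1 i • (q.2 i : H) ∈ C} := by
    ext q
    constructor
    · rintro ⟨h1, h2⟩
      exact ⟨⟨h1, mem_univ _⟩, h2⟩
    · rintro ⟨⟨h1, -⟩, h2⟩
      exact ⟨h1, h2⟩
  rw [this]
  exact hcpt.inter_right hcl

/-- the action on `TT` -/
def TTact (P : AffineFlow G H) {k : ℕ} (g : G)
    (q : (Fin (k + 1) → ℝ) × (Fin (k + 1) → closedExt P)) :
    (Fin (k + 1) → ℝ) × (Fin (k + 1) → closedExt P) :=
  (q.1, fun i => ⟨P.act g (q.2 i), P.closedExt_mapsTo g (q.2 i).2⟩)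

theorem TT_sum (P : AffineFlow G H) {k : ℕ} (g : G)
    {q : (Fin (k + 1) → ℝ) × (Fin (k + 1) → closedExt P)}
    (hq : q.1 ∈ stdSimplex ℝ (Fin (k + 1))) :
    P.act g (∑ i, q.1 i • (q.2 i : H)) = ∑ i, (TTact P g q).1 i • ((TTact P g q).2 i : H) :=
  (P.affine g).map_sum P.convex q.1 hq.1 hq.2 _ fun i => P.closedExt_subset (q.2 i).2

theorem TT_mapsTo {P : AffineFlow G H} {K : AffineFlow G E} {f : H → E} {C : Set H}
    (hf : ∀ g, ∀ x ∈ P.carrier, f (P.act g x) = K.act g (f x))
    (hC : ∀ g, MapsTo (P.act g) C C) (k : ℕ) (g : G) :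
    MapsTo (TTact P g) (TT P f C k) (TT P f C k) := by
  rintro q ⟨hq1, hq2, hq3⟩
  refine ⟨hq1, fun i => ?_, ?_⟩
  · simp only [TTact]
    rw [hf g _ (P.closedExt_subset (q.2 i).2), hf g _ (P.closedExt_subset (q.2 0).2), hq2 i]
  · rw [← TT_sum P g hq1]
    exact hC g hq3

/-- the points `y` for which there is such a convex combination of `k + 1` points over `y` -/
def YY (P : AffineFlow G H) (f : H → E) (C : Set H) (k : ℕ) : Set E :=
  (fun q : (Fin (k + 1) → ℝ) × (Fin (k + 1) → closedExt P) => f (q.2 0)) '' TT P f C k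

theorem YY_closed {P : AffineFlow G H} {f : H → E} {C : Set H} (hf : ContinuousOn f P.carrier)
    (hC : IsClosed C) (k : ℕ) : IsClosed (YY P f C k) := by
  have hf' : Continuous (fun x : closedExt P => f x) :=
    continuousOn_iff_continuous_domRestrict.1 (hf.mono P.closedExt_subset)
  have h : Continuous fun q : (Fin (k + 1) → ℝ) × (Fin (k + 1) → closedExt P) =>
      f (q.2 0) := hf'.comp (by fun_prop : Continuous fun q : (Fin (k + 1) → ℝ) ×
          (Fin (k + 1) → closedExt P) => q.2 0)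
  exact ((TT_compact hf hC k).image h).isClosed

theorem YY_mapsTo {P : AffineFlow G H} {K : AffineFlow G E} {f : H → E} {C : Set H}
    (hf : ∀ g, ∀ x ∈ P.carrier, f (P.act g x) = K.act g (f x))
    (hC : ∀ g, MapsTo (P.act g) C C) (k : ℕ) (g : G) :
    MapsTo (K.act g) (YY P f C k) (YY P f C k) := by
  rintro _ ⟨q, hq, rfl⟩
  refine ⟨TTact P g q, TT_mapsTo hf hC k g hq, ?_⟩
  simp only [TTact]
  rw [hf g _ (P.closedExt_subset (q.2 0).2)]

theorem subset_iUnion_YY {P : AffineFlow G H} {K : AffineFlow G E} {f : H → E} {C : Set H}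
    (hC : ∀ y ∈ closedExt K, (C ∩ convexHull ℝ (closedExt P ∩ f ⁻¹' {y})).Nonempty) :
    closedExt K ⊆ ⋃ k, YY P f C k := by
  intro y hy
  obtain ⟨c, hcC, hc⟩ := hC y hy
  rw [convexHull_eq] at hc
  obtain ⟨ι, t, w, z, hw0, hw1, hz, hcz⟩ := hc
  have hne : t.Nonempty := by
    rw [Finset.nonempty_iff_ne_empty]
    rintro rfl
    simp at hw1
  obtain ⟨k, hk⟩ : ∃ k, t.card = k + 1 := ⟨t.card - 1, by have := hne.card_pos; omega⟩
  let e : Fin (k + 1) ≃ t := (finCongr hk.symm).trans t.equivFin.symm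
  refine mem_iUnion.2 ⟨k, (fun i => w (e i), fun i => ⟨z (e i), (hz _ (e i).2).1⟩), ?_, ?_⟩
  · refine ⟨⟨fun i => hw0 _ (e i).2, ?_⟩, fun i => ?_, ?_⟩
    · rw [← hw1, ← Finset.sum_coe_sort t]
      exact e.sum_comp fun i : t => w i
    · exact ((hz _ (e i).2).2 : f _ = y).trans ((hz _ (e 0).2).2 : f _ = y).symm
    · have h1 : ∑ i, w (e i) • z (e i) = c := by
        rw [← hcz, Finset.centerMass_eq_of_sum_1 _ _ hw1, ← Finset.sum_coe_sort t]
        exact e.sum_comp fun i : t => w i • z i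
      exact h1 ▸ hcC
  · exact (hz _ (e 0).2).2

/-- over the relative interior of `Y_k` every point `z` of the closure of `ext L` has such a convex
combination of `k + 1` points over `z` -/
theorem step3 {K : AffineFlow G E} {L : AffineFlow G F} {P : AffineFlow G H} {φ : F → E} {ψ : H → F}
    (h1 : IsAffineExtension L K φ) (p1 : IsProxIrred L K φ) (h2 : IsAffineExtension P L ψ)
    (p2 : IsProxIrred P L ψ) {C : Set H} (hC : IsSubflow P C) (k : ℕ) {z : F}
    (hz : z ∈ closedExt L) (hzW : φ z ∈ relInt (closedExt K) (YY P (φ ∘ ψ) C k)) :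
    ∃ q ∈ TT P (φ ∘ ψ) C k, ∀ i, ψ (q.2 i) = z := by
  have hcomp := h1.comp h2
  have hψ : MapsTo ψ (closedExt P) (closedExt L) := p2.mapsTo h2
  have hφ : MapsTo φ (closedExt L) (closedExt K) := p1.mapsTo h1
  have hTc : IsCompact (TT P (φ ∘ ψ) C k) := TT_compact hcomp.continuousOn hC.compact.isClosed k
  set W : Set E := interior (YY P (φ ∘ ψ) C k ∪ (closedExt K)ᶜ) with hW
  have hrel : relInt (closedExt K) (YY P (φ ∘ ψ) C k) = closedExt K ∩ W := relInt_eq _ _
  have hrelinv : ∀ g, MapsTo (K.act g) (relInt (closedExt K) (YY P (φ ∘ ψ) C k))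
      (relInt (closedExt K) (YY P (φ ∘ ψ) C k)) :=
    relInt_mapsTo K K.closedExt_subset (fun g => K.closedExt_mapsTo g)
      (YY_mapsTo hcomp.equivariant hC.mapsTo k)
  -- the first piece
  set A1 : Set F := (fun q : (Fin (k + 1) → ℝ) × (Fin (k + 1) → closedExt P) =>
    ψ (∑ i, q.1 i • (q.2 i : H))) '' TT P (φ ∘ ψ) C k with hA1
  have hA1c : IsCompact A1 := by
    refine hTc.image_of_continuousOn ?_
    have hsum : Continuous fun q : (Fin (k + 1) → ℝ) × (Fin (k + 1) → closedExt P) =>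
        ∑ i, q.1 i • (q.2 i : H) := by fun_prop
    exact h2.continuousOn.comp hsum.continuousOn fun q hq => hC.subset hq.2.2
  set A2 : Set F := closedExt L ∩ φ ⁻¹' (closedExt K \ W) with hA2
  have hA2c : IsCompact A2 := by
    have hcl : IsClosed (closedExt L ∩ φ ⁻¹' (closedExt K \ W)) :=
      (h1.continuousOn.mono L.closedExt_subset).preimage_isClosed_of_isClosed isClosed_closure
        (isClosed_closure.sdiff isOpen_interior)
    exact L.closedExt_compact.of_isClosed_subset hcl inter_subset_left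
  have hA1L : A1 ⊆ L.carrier := by
    rintro _ ⟨q, hq, rfl⟩
    exact h2.mapsTo (hC.subset hq.2.2)
  have hA2L : A2 ⊆ L.carrier := inter_subset_left.trans L.closedExt_subset
  have hinv : ∀ g, MapsTo (L.act g) (A1 ∪ A2) (A1 ∪ A2) := by
    rintro g x (⟨q, hq, rfl⟩ | ⟨hx1, hx2, hx3⟩)
    · refine Or.inl ⟨TTact P g q, TT_mapsTo hcomp.equivariant hC.mapsTo k g hq, ?_⟩
      simp only
      rw [← TT_sum P g hq.1, h2.equivariant g _ (hC.subset hq.2.2)]
    · refine Or.inr ⟨L.closedExt_mapsTo g hx1, ?_⟩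
      rw [mem_preimage, h1.equivariant g x (L.closedExt_subset hx1)]
      refine ⟨K.closedExt_mapsTo g hx2, fun hcon => hx3 ?_⟩
      have h3 : K.act g (φ x) ∈ relInt (closedExt K) (YY P (φ ∘ ψ) C k) := by
        rw [hrel]
        exact ⟨K.closedExt_mapsTo g hx2, hcon⟩
      have h4 := hrelinv g⁻¹ h3
      rw [K.act_inv_act g (K.closedExt_subset hx2), hrel] at h4
      exact h4.2
  have hext : L.carrier.extremePoints ℝ ⊆ A1 ∪ A2 := by
    refine p1.ext_subset (hA1c.union hA2c) (union_subset hA1L hA2L) hinv ?_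
    intro y hy
    by_cases hyW : y ∈ W
    · have hyr : y ∈ relInt (closedExt K) (YY P (φ ∘ ψ) C k) := by
        rw [hrel]
        exact ⟨hy, hyW⟩
      obtain ⟨q, hq, hqy⟩ := relInt_subset _ _ hyr
      refine ⟨ψ (∑ i, q.1 i • (q.2 i : H)),
        subset_closure (subset_convexHull ℝ _ (Or.inl ⟨q, hq, rfl⟩)), ?_⟩
      rw [h2.affine.map_sum P.convex q.1 hq.1.1 hq.1.2 _ fun i => P.closedExt_subset (q.2 i).2]
      refine (convex_convexHull ℝ _).sum_mem (fun i _ => hq.1.1 i) hq.1.2 fun i _ =>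
        subset_convexHull ℝ _ ⟨hψ (q.2 i).2, ?_⟩
      change φ (ψ (q.2 i)) = y
      rw [← hqy]
      exact hq.2.1 i
    · obtain ⟨x, hx, hxy⟩ := h1.closedExt_subset hy
      refine ⟨x, subset_closure (subset_convexHull ℝ _ (Or.inr ⟨hx, ?_⟩)),
        subset_convexHull ℝ _ ⟨hx, hxy⟩⟩
      rw [mem_preimage, hxy]
      exact ⟨hy, hyW⟩
  -- the set of good points is closed
  set B : Set F := (fun q : (Fin (k + 1) → ℝ) × (Fin (k + 1) → closedExt P) =>
    ψ (q.2 0)) '' {q | q ∈ TT P (φ ∘ ψ) C k ∧ ∀ i, ψ (q.2 i) = ψ (q.2 0)} with hB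
  have hψc : Continuous (fun x : closedExt P => ψ x) :=
    continuousOn_iff_continuous_domRestrict.1 (h2.continuousOn.mono P.closedExt_subset)
  have hψi : ∀ i, Continuous (fun q : (Fin (k + 1) → ℝ) × (Fin (k + 1) → closedExt P) =>
      ψ (q.2 i)) := fun i => hψc.comp (by fun_prop : Continuous fun q : (Fin (k + 1) → ℝ) ×
          (Fin (k + 1) → closedExt P) => q.2 i)
  have hBc : IsCompact B := by
    refine IsCompact.image ?_ (hψi 0)
    have : {q | q ∈ TT P (φ ∘ ψ) C k ∧ ∀ i, ψ (q.2 i) = ψ (q.2 0)} =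
        TT P (φ ∘ ψ) C k ∩ ⋂ i, {q | ψ (q.2 i) = ψ (q.2 0)} := by
      ext q; simp
    rw [this]
    exact hTc.inter_right (isClosed_iInter fun i => isClosed_eq (hψi i) (hψi 0))
  have hextB : L.carrier.extremePoints ℝ ∩ φ ⁻¹' W ⊆ B := by
    rintro x ⟨hx, hxW⟩
    rcases hext hx with ⟨q, hq, hqx⟩ | ⟨-, -, hx3⟩
    · simp only at hqx
      rw [h2.affine.map_sum P.convex q.1 hq.1.1 hq.1.2 _
        fun i => P.closedExt_subset (q.2 i).2] at hqx
      have hpos : ∀ i, 0 < q.1 i → ψ (q.2 i) = x := fun i hi =>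
        eq_of_extreme_sum L.convex hx q.1 hq.1.1 hq.1.2 _
          (fun j => h2.mapsTo (P.closedExt_subset (q.2 j).2)) hqx i hi
      obtain ⟨i0, hi0⟩ : ∃ i, 0 < q.1 i := by
        by_contra hcon
        push Not at hcon
        have : ∑ i, q.1 i ≤ 0 := Finset.sum_nonpos fun i _ => hcon i
        rw [hq.1.2] at this
        linarith
      classical
      refine ⟨(q.1, fun i => if q.1 i = 0 then q.2 i0 else q.2 i), ⟨⟨hq.1, ?_, ?_⟩, ?_⟩, ?_⟩
      · intro i
        have key : ∀ j, (φ ∘ ψ) ((if q.1 j = 0 then q.2 i0 else q.2 j : closedExt P) : H) =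
            (φ ∘ ψ) (q.2 0) := by
          intro j
          split_ifs
          · exact hq.2.1 i0
          · exact hq.2.1 j
        exact (key i).trans (key 0).symm
      · have : ∑ i, q.1 i • ((if q.1 i = 0 then q.2 i0 else q.2 i : closedExt P) : H) =
            ∑ i, q.1 i • (q.2 i : H) := by
          refine Finset.sum_congr rfl fun i _ => ?_
          split_ifs with h0
          · rw [h0, zero_smul, zero_smul]
          · rfl
        simp only
        rw [this]
        exact hq.2.2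
      · intro i
        have key : ∀ j, ψ ((if q.1 j = 0 then q.2 i0 else q.2 j : closedExt P) : H) = x := by
          intro j
          split_ifs with h0
          · exact hpos i0 hi0
          · exact hpos j (lt_of_le_of_ne (hq.1.1 j) (Ne.symm h0))
        exact (key i).trans (key 0).symm
      · simp only
        split_ifs with h0
        · exact hpos i0 hi0
        · exact hpos 0 (lt_of_le_of_ne (hq.1.1 0) (Ne.symm h0))
    · exact absurd hxW hx3
  have hzB : z ∈ B := by
    rw [hrel] at hzW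
    have h5 := closedExt_inter_subset L h1.continuousOn isOpen_interior ⟨hz, hzW.2⟩
    exact closure_minimal hextB hBc.isClosed h5
  obtain ⟨q, ⟨hq, hq2⟩, hqz⟩ := hzB
  exact ⟨q, hq, fun i => (hq2 i).trans hqz⟩

/-- **Proximally irreducible affine extensions compose.** -/
theorem IsProxIrred.comp {K : AffineFlow G E} {L : AffineFlow G F} {P : AffineFlow G H} {φ : F → E}
    {ψ : H → F} (h1 : IsAffineExtension L K φ) (p1 : IsProxIrred L K φ)
    (h2 : IsAffineExtension P L ψ) (p2 : IsProxIrred P L ψ) : IsProxIrred P K (φ ∘ ψ) := by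
  intro C hC hCy
  have hcomp := h1.comp h2
  have hψ : MapsTo ψ (closedExt P) (closedExt L) := p2.mapsTo h2
  have hφ : MapsTo φ (closedExt L) (closedExt K) := p1.mapsTo h1
  have hcov : closedExt K ⊆ ⋃ k, YY P (φ ∘ ψ) C k := subset_iUnion_YY hCy
  have hbaire := baire_relInt K.closedExt_compact _
    (fun k => YY_closed hcomp.continuousOn hC.compact.isClosed k) hcov
  have hrelinv : ∀ k g, MapsTo (K.act g) (relInt (closedExt K) (YY P (φ ∘ ψ) C k))
      (relInt (closedExt K) (YY P (φ ∘ ψ) C k)) := fun k =>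
    relInt_mapsTo K K.closedExt_subset (fun g => K.closedExt_mapsTo g)
      (YY_mapsTo hcomp.equivariant hC.mapsTo k)
  set W : Set E := ⋃ k, interior (YY P (φ ∘ ψ) C k ∪ (closedExt K)ᶜ) with hW
  have hWo : IsOpen W := isOpen_iUnion fun k => isOpen_interior
  have hrelW : ⋃ k, relInt (closedExt K) (YY P (φ ∘ ψ) C k) = closedExt K ∩ W := by
    rw [hW, inter_iUnion]
    exact iUnion_congr fun k => relInt_eq _ _
  rw [hrelW] at hbaire
  have hWinv : ∀ g, MapsTo (K.act g) (closedExt K ∩ W) (closedExt K ∩ W) := by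
    intro g x hx
    rw [← hrelW] at hx ⊢
    obtain ⟨k, hk⟩ := mem_iUnion.1 hx
    exact mem_iUnion.2 ⟨k, hrelinv k g hk⟩
  -- step 4
  have hstep4 : P.carrier.extremePoints ℝ ∩ (φ ∘ ψ) ⁻¹' W ⊆ C := by
    set A2 : Set H := closedExt P ∩ (φ ∘ ψ) ⁻¹' (closedExt K \ W) with hA2
    have hA2c : IsCompact A2 := by
      have hcl : IsClosed (closedExt P ∩ (φ ∘ ψ) ⁻¹' (closedExt K \ W)) :=
        (hcomp.continuousOn.mono P.closedExt_subset).preimage_isClosed_of_isClosed isClosed_closure
          (isClosed_closure.sdiff hWo)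
      exact P.closedExt_compact.of_isClosed_subset hcl inter_subset_left
    have hA2P : A2 ⊆ P.carrier := inter_subset_left.trans P.closedExt_subset
    have hext : P.carrier.extremePoints ℝ ⊆ C ∪ A2 := by
      refine p2.ext_subset (hC.compact.union hA2c) (union_subset hC.subset hA2P) ?_ ?_
      · rintro g x (hx | ⟨hx1, hx2, hx3⟩)
        · exact Or.inl (hC.mapsTo g hx)
        · refine Or.inr ⟨P.closedExt_mapsTo g hx1, ?_⟩
          rw [mem_preimage, hcomp.equivariant g x (P.closedExt_subset hx1)]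
          refine ⟨K.closedExt_mapsTo g hx2, fun hcon => hx3 ?_⟩
          have h4 := hWinv g⁻¹ ⟨K.closedExt_mapsTo g hx2, hcon⟩
          rw [K.act_inv_act g (K.closedExt_subset hx2)] at h4
          exact h4.2
      · intro z hz
        by_cases hzW : φ z ∈ W
        · have hzr : φ z ∈ ⋃ k, relInt (closedExt K) (YY P (φ ∘ ψ) C k) := by
            rw [hrelW]
            exact ⟨hφ hz, hzW⟩
          obtain ⟨k, hk⟩ := mem_iUnion.1 hzr
          obtain ⟨q, hq, hqz⟩ := step3 h1 p1 h2 p2 hC k hz hk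
          refine ⟨∑ i, q.1 i • (q.2 i : H),
            subset_closure (subset_convexHull ℝ _ (Or.inl hq.2.2)), ?_⟩
          exact (convex_convexHull ℝ _).sum_mem (fun i _ => hq.1.1 i) hq.1.2 fun i _ =>
            subset_convexHull ℝ _ ⟨(q.2 i).2, hqz i⟩
        · obtain ⟨x, hx, hxz⟩ := h2.closedExt_subset hz
          refine ⟨x, subset_closure (subset_convexHull ℝ _ (Or.inr ⟨hx, ?_⟩)),
            subset_convexHull ℝ _ ⟨hx, hxz⟩⟩
          change φ (ψ x) ∈ closedExt K \ W
          rw [hxz]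
          exact ⟨hφ hz, hzW⟩
    rintro x ⟨hx, hxW⟩
    rcases hext hx with h | h
    · exact h
    · exact absurd hxW h.2.2
  have hstep4' : closedExt P ∩ (φ ∘ ψ) ⁻¹' W ⊆ C :=
    (closedExt_inter_subset P hcomp.continuousOn hWo).trans
      (closure_minimal hstep4 hC.compact.isClosed)
  -- step 5
  have hDLsub : closedExt L ∩ φ ⁻¹' W ⊆ L.carrier := inter_subset_left.trans L.closedExt_subset
  have hDL : closedExt L ⊆ closure (closedExt L ∩ φ ⁻¹' W) := by
    have hsub : closure (closedExt L ∩ φ ⁻¹' W) ⊆ closedExt L :=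
      closure_minimal inter_subset_left isClosed_closure
    have hcpt : IsCompact (closure (closedExt L ∩ φ ⁻¹' W)) :=
      L.closedExt_compact.of_isClosed_subset isClosed_closure hsub
    refine p1.closedExt_subset hcpt (hsub.trans L.closedExt_subset) (fun g => ?_) ?_
    · refine L.closure_mapsTo g hDLsub ?_
      rintro x ⟨hx1, hx2⟩
      refine ⟨L.closedExt_mapsTo g hx1, ?_⟩
      rw [mem_preimage, h1.equivariant g x (L.closedExt_subset hx1)]
      exact (hWinv g ⟨hφ hx1, hx2⟩).2
    · intro y hy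
      have himc : IsClosed (φ '' closure (closedExt L ∩ φ ⁻¹' W)) :=
        (hcpt.image_of_continuousOn
          (h1.continuousOn.mono (hsub.trans L.closedExt_subset))).isClosed
      have h6 : closedExt K ∩ W ⊆ φ '' closure (closedExt L ∩ φ ⁻¹' W) := by
        rintro y' ⟨hy', hyW'⟩
        obtain ⟨x, hx, rfl⟩ := h1.closedExt_subset hy'
        exact ⟨x, subset_closure ⟨hx, hyW'⟩, rfl⟩
      obtain ⟨x, hx, hxy⟩ := closure_minimal h6 himc (hbaire hy)
      exact ⟨x, subset_closure (subset_convexHull ℝ _ hx), subset_convexHull ℝ _ ⟨hsub hx, hxy⟩⟩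
  have hDPsub : closedExt P ∩ (φ ∘ ψ) ⁻¹' W ⊆ P.carrier :=
    inter_subset_left.trans P.closedExt_subset
  have hsubP : closure (closedExt P ∩ (φ ∘ ψ) ⁻¹' W) ⊆ closedExt P :=
    closure_minimal inter_subset_left isClosed_closure
  have hcptP : IsCompact (closure (closedExt P ∩ (φ ∘ ψ) ⁻¹' W)) :=
    P.closedExt_compact.of_isClosed_subset isClosed_closure hsubP
  have hfinal := p2 _ (P.isSubflow_hull (hsubP.trans P.closedExt_subset) (fun g => ?_)) ?_
  · refine hC.subset.antisymm ?_
    rw [← hfinal]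
    exact closure_minimal (convexHull_min (closure_minimal hstep4' hC.compact.isClosed) hC.convex)
      hC.compact.isClosed
  · refine P.closure_mapsTo g hDPsub ?_
    rintro x ⟨hx1, hx2⟩
    refine ⟨P.closedExt_mapsTo g hx1, ?_⟩
    rw [mem_preimage, hcomp.equivariant g x (P.closedExt_subset hx1)]
    exact (hWinv g ⟨hφ (hψ hx1), hx2⟩).2
  · intro z hz
    have himc : IsClosed (ψ '' closure (closedExt P ∩ (φ ∘ ψ) ⁻¹' W)) :=
      (hcptP.image_of_continuousOn
        (h2.continuousOn.mono (hsubP.trans P.closedExt_subset))).isClosed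
    have h6 : closedExt L ∩ φ ⁻¹' W ⊆ ψ '' closure (closedExt P ∩ (φ ∘ ψ) ⁻¹' W) := by
      rintro y' ⟨hy', hyW'⟩
      obtain ⟨x, hx, rfl⟩ := h2.closedExt_subset hy'
      exact ⟨x, subset_closure ⟨hx, hyW'⟩, rfl⟩
    obtain ⟨x, hx, hxy⟩ := closure_minimal h6 himc (hDL hz)
    exact ⟨x, subset_closure (subset_convexHull ℝ _ hx), subset_convexHull ℝ _ ⟨hsubP hx, hxy⟩⟩

end main

end Q70.ProxIrr
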