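import Mathlib

/-!
# Quasi-disjointness of `G` systems: definitions and almost periodic functions
-/

set_option autoImplicit false

open MeasureTheory Set Filter Topology
open scoped ENNReal

namespace Q70.QDisj

universe u v

section defs

variable (G : Type v) [Group G]
variable {X : Type u} [TopologicalSpace X] [MeasurableSpace X] [BorelSpace X]
  [MulAction G X] [ContinuousConstSMul G X]
variable {Y : Type u} [TopologicalSpace Y] [MeasurableSpace Y] [BorelSpace Y]
  [MulAction G Y] [ContinuousConstSMul G Y]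

/-- The Koopman operator `f ↦ f ∘ T^g` on `L²(X, μ)` (complex valued functions). -/
noncomputable def koopman (μ : Measure X) [SMulInvariantMeasure G X μ] (g : G) (f : Lp ℂ 2 μ) :
    Lp ℂ 2 μ :=
  Lp.compMeasurePreserving (fun x : X => g • x) (measurePreserving_smul g μ) f

/-- The closed subspace of `L²(X, μ)` spanned by the functions `f` whose orbit
`{f ∘ T^g : g ∈ G}` has compact closure. -/
noncomputable def kroneckerSpace (μ : Measure X) [SMulInvariantMeasure G X μ] :
    Submodule ℂ (Lp ℂ 2 μ) :=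
  (Submodule.span ℂ
    {f : Lp ℂ 2 μ | IsCompact (closure (Set.range fun g : G => koopman G μ g f))}).topologicalClosure

/-- The Borel sets of the Kronecker factor: those whose indicator function lies in the Kronecker
subspace. -/
def KroneckerSet (μ : Measure X) [IsFiniteMeasure μ] [SMulInvariantMeasure G X μ] (A : Set X) :
    Prop :=
  ∃ hA : MeasurableSet A, indicatorConstLp 2 hA (measure_ne_top μ A) (1 : ℂ) ∈ kroneckerSpace G μ

/-- A joining of `(X, μ)` and `(Y, ν)`. -/
structure IsJoining (μ : Measure X) (ν : Measure Y) (lam : Measure (X × Y)) : Prop where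
  fst : lam.map Prod.fst = μ
  snd : lam.map Prod.snd = ν
  inv : ∀ g : G, lam.map (fun p : X × Y => (g • p.1, g • p.2)) = lam

/-- `(X, μ)` and `(Y, ν)` are quasi-disjoint: the product is the only joining which projects to the
product measure on the product of the Kronecker factors. -/
def QuasiDisjoint (μ : Measure X) [IsFiniteMeasure μ] [SMulInvariantMeasure G X μ]
    (ν : Measure Y) [IsFiniteMeasure ν] [SMulInvariantMeasure G Y ν] : Prop :=
  ∀ lam : Measure (X × Y), IsJoining G μ ν lam →
    (∀ A B, KroneckerSet G μ A → KroneckerSet G ν B → lam (A ×ˢ B) = μ A * ν B) →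
    lam = μ.prod ν

/-- Every invariant Borel set has measure `0` or `1`. -/
def ErgodicSystem (ν : Measure Y) : Prop :=
  ∀ B : Set Y, MeasurableSet B → (∀ g : G, (fun y : Y => g • y) ⁻¹' B = B) → ν B = 0 ∨ ν B = 1

end defs

/-! ### The Kronecker space consists of almost periodic functions -/

section ap

variable {G : Type v} [Group G]
variable {X : Type u} [TopologicalSpace X] [MeasurableSpace X] [BorelSpace X]
  [MulAction G X] [ContinuousConstSMul G X]
variable (μ : Measure X) [IsFiniteMeasure μ] [SMulInvariantMeasure G X μ]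

variable (G) in
/-- Almost periodic functions. -/
def AP : Set (Lp ℂ 2 μ) := {f | IsCompact (closure (Set.range fun g : G => koopman G μ g f))}

omit [IsFiniteMeasure μ] in
theorem koopman_isometry (g : G) : Isometry (koopman G μ g) :=
  Lp.isometry_compMeasurePreserving _

omit [IsFiniteMeasure μ] in
theorem AP_closed {f : Lp ℂ 2 μ} (hf : f ∈ closure (AP G μ)) : f ∈ AP G μ := by
  unfold AP
  rw [Set.mem_ofPred_eq]
  refine TotallyBounded.isCompact_of_isClosed ?_ isClosed_closure
  apply TotallyBounded.closure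
  rw [Metric.totallyBounded_iff]
  intro ε hε
  obtain ⟨h, hh, hfh⟩ := Metric.mem_closure_iff.1 hf (ε / 2) (by positivity)
  have hh' : IsCompact (closure (Set.range fun g : G => koopman G μ g h)) := hh
  have htb := hh'.totallyBounded.subset subset_closure
  obtain ⟨t, htf, ht⟩ := Metric.totallyBounded_iff.1 htb (ε / 2) (by positivity)
  refine ⟨t, htf, ?_⟩
  rintro _ ⟨g, rfl⟩
  have h1 := ht ⟨g, rfl⟩
  simp only [mem_iUnion, Metric.mem_ball] at h1 ⊢
  obtain ⟨y, hy, hd⟩ := h1
  refine ⟨y, hy, ?_⟩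
  calc dist (koopman G μ g f) y ≤ dist (koopman G μ g f) (koopman G μ g h)
        + dist (koopman G μ g h) y := dist_triangle _ _ _
    _ < ε / 2 + ε / 2 := by
        rw [(koopman_isometry μ g).dist_eq]
        exact add_lt_add hfh hd
    _ = ε := by ring

omit [IsFiniteMeasure μ] in
theorem AP_of_map {Y : Type u} [TopologicalSpace Y] [MeasurableSpace Y] [BorelSpace Y]
    [MulAction G Y] [ContinuousConstSMul G Y] (ν : Measure Y) [SMulInvariantMeasure G Y ν]
    (P : Lp ℂ 2 μ → Lp ℂ 2 ν) (hP : Continuous P)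
    (hPe : ∀ (g : G) f, P (koopman G μ g f) = koopman G ν g (P f)) {f : Lp ℂ 2 μ}
    (hf : f ∈ AP G μ) : P f ∈ AP G ν := by
  unfold AP at hf ⊢
  rw [Set.mem_ofPred_eq] at hf ⊢
  have h1 : IsCompact (P '' closure (Set.range fun g : G => koopman G μ g f)) := hf.image hP
  refine h1.of_isClosed_subset isClosed_closure ?_
  refine closure_minimal ?_ h1.isClosed
  rintro _ ⟨g, rfl⟩
  exact ⟨koopman G μ g f, subset_closure ⟨g, rfl⟩, hPe g f⟩

omit [IsFiniteMeasure μ] in
theorem AP_add {f h : Lp ℂ 2 μ} (hf : f ∈ AP G μ) (hh : h ∈ AP G μ) : f + h ∈ AP G μ := by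
  unfold AP at hf hh ⊢
  rw [Set.mem_ofPred_eq] at hf hh ⊢
  have h1 := hf.add hh
  refine h1.of_isClosed_subset isClosed_closure ?_
  refine closure_minimal ?_ h1.isClosed
  rintro _ ⟨g, rfl⟩
  refine ⟨koopman G μ g f, subset_closure ⟨g, rfl⟩, koopman G μ g h, subset_closure ⟨g, rfl⟩, ?_⟩
  simp only [koopman, map_add]

omit [IsFiniteMeasure μ] in
theorem koopman_smul (g : G) (c : ℂ) (f : Lp ℂ 2 μ) :
    koopman G μ g (c • f) = c • koopman G μ g f :=
  (Lp.compMeasurePreservingₗ ℂ (fun x : X => g • x) (measurePreserving_smul g μ)).map_smul c f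

omit [IsFiniteMeasure μ] in
theorem AP_smul (c : ℂ) {f : Lp ℂ 2 μ} (hf : f ∈ AP G μ) : c • f ∈ AP G μ :=
  AP_of_map μ μ (fun f => c • f) (continuous_const_smul c) (fun g f => (koopman_smul μ g c f).symm)
    hf

omit [IsFiniteMeasure μ] in
theorem AP_zero : (0 : Lp ℂ 2 μ) ∈ AP G μ := by
  unfold AP
  rw [Set.mem_ofPred_eq]
  have : (Set.range fun g : G => koopman G μ g (0 : Lp ℂ 2 μ)) = {0} := by
    ext x
    simp [koopman]
  rw [this, closure_singleton]
  exact isCompact_singleton

omit [IsFiniteMeasure μ] in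
theorem mem_kroneckerSpace {f : Lp ℂ 2 μ} : f ∈ kroneckerSpace G μ ↔ f ∈ AP G μ := by
  constructor
  · intro hf
    apply AP_closed
    unfold kroneckerSpace at hf
    have h1 : (Submodule.span ℂ (AP G μ) : Set (Lp ℂ 2 μ)) ⊆ AP G μ := by
      intro x hx
      have hx' : x ∈ Submodule.span ℂ (AP G μ) := hx
      induction hx' using Submodule.span_induction with
      | mem x h => exact h
      | zero => exact AP_zero μ
      | add x y hx' hy' h1 h2 => exact AP_add μ (h1 hx') (h2 hy')
      | smul a x hx' h => exact AP_smul μ a (h hx')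
    have h2 : f ∈ closure (Submodule.span ℂ (AP G μ) : Set (Lp ℂ 2 μ)) := hf
    exact closure_mono h1 h2
  · intro hf
    exact Submodule.le_topologicalClosure _ (Submodule.subset_span hf)

theorem tendsto_two {α : Type*} [MeasurableSpace α] (ν : Measure α) [IsFiniteMeasure ν]
    {f : ℕ → α → ℂ} {h : α → ℂ}
    (hm : ∀ n, Measurable (f n)) (hhm : Measurable h) (hb : ∀ n x, ‖f n x - h x‖ ≤ 2)
    (ht : ∀ x, Tendsto (fun n => f n x) atTop (𝓝 (h x))) :
    Tendsto (fun n => eLpNorm (fun x => f n x - h x) 2 ν) atTop (𝓝 0) := by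
  have h2 : ∀ n, eLpNorm (fun x => f n x - h x) 2 ν
      = (∫⁻ x, ‖f n x - h x‖ₑ ^ (2 : ℝ) ∂ν) ^ (1 / (2 : ℝ)) := by
    intro n
    rw [eLpNorm_eq_lintegral_rpow_enorm_toReal (by norm_num) (by norm_num)]
    simp
  simp_rw [h2]
  have h3 : Tendsto (fun n => ∫⁻ x, ‖f n x - h x‖ₑ ^ (2 : ℝ) ∂ν) atTop (𝓝 0) := by
    have h4 : (0 : ℝ≥0∞) = ∫⁻ _, 0 ∂ν := by simp
    rw [h4]
    refine tendsto_lintegral_of_dominated_convergence (fun _ => (2 : ℝ≥0∞) ^ (2 : ℝ)) ?_ ?_ ?_ ?_
    · intro n
      exact ((hm n).sub hhm).enorm.pow_const _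
    · intro n
      refine ae_of_all _ fun x => ?_
      refine ENNReal.rpow_le_rpow ?_ (by norm_num)
      rw [← ofReal_norm]
      calc ENNReal.ofReal ‖f n x - h x‖ ≤ ENNReal.ofReal 2 := ENNReal.ofReal_le_ofReal (hb n x)
        _ = 2 := by norm_num
    · rw [lintegral_const]
      exact ENNReal.mul_ne_top (by norm_num) (measure_ne_top _ _)
    · refine ae_of_all _ fun x => ?_
      have h5 : Tendsto (fun n => f n x - h x) atTop (𝓝 0) := by
        simpa using (ht x).sub_const (h x)
      have h6 := (ENNReal.continuous_rpow_const (y := 2)).tendsto _ |>.comp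
        ((continuous_enorm.tendsto _).comp h5)
      simpa [Function.comp_def] using h6
  have h7 := (ENNReal.continuous_rpow_const (y := 1 / 2)).tendsto _ |>.comp h3
  simpa [Function.comp_def] using h7

/-- cut-off functions -/
noncomputable def cut (c : ℝ) (n : ℕ) (z : ℂ) : ℂ := ((max 0 (min 1 ((n : ℝ) * (z.re - c))) : ℝ) : ℂ)

theorem cut_zero {c : ℝ} (hc : 0 ≤ c) (n : ℕ) : cut c n 0 = 0 := by
  unfold cut
  have h1 : (n : ℝ) * ((0 : ℂ).re - c) ≤ 0 := by
    simp only [Complex.zero_re, zero_sub]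
    have := Nat.cast_nonneg (α := ℝ) n
    nlinarith
  have h2 : min 1 ((n : ℝ) * ((0 : ℂ).re - c)) ≤ 0 := (min_le_right _ _).trans h1
  rw [max_eq_left h2]
  simp

theorem cut_lipschitz (c : ℝ) (n : ℕ) : LipschitzWith (n : NNReal) (cut c n) := by
  apply LipschitzWith.of_dist_le_mul
  intro x y
  unfold cut
  rw [Complex.dist_eq, ← Complex.ofReal_sub, Complex.norm_real, Real.norm_eq_abs]
  have h1 : |max 0 (min 1 ((n : ℝ) * (x.re - c))) - max 0 (min 1 ((n : ℝ) * (y.re - c)))|
      ≤ |min 1 ((n : ℝ) * (x.re - c)) - min 1 ((n : ℝ) * (y.re - c))| := by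
    have := abs_max_sub_max_le_max 0 (min 1 ((n : ℝ) * (x.re - c))) 0 (min 1 ((n : ℝ) * (y.re - c)))
    simpa using this
  have h2 : |min 1 ((n : ℝ) * (x.re - c)) - min 1 ((n : ℝ) * (y.re - c))|
      ≤ |(n : ℝ) * (x.re - c) - (n : ℝ) * (y.re - c)| := by
    have := abs_min_sub_min_le_max 1 ((n : ℝ) * (x.re - c)) 1 ((n : ℝ) * (y.re - c))
    rwa [sub_self, abs_zero, max_eq_right (abs_nonneg _)] at this
  have h3 : |(n : ℝ) * (x.re - c) - (n : ℝ) * (y.re - c)| ≤ n * dist x y := by
    have h4 : (n : ℝ) * (x.re - c) - (n : ℝ) * (y.re - c) = n * (x - y).re := by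
      simp; ring
    rw [h4, abs_mul, Nat.abs_cast, Complex.dist_eq]
    exact mul_le_mul_of_nonneg_left (Complex.abs_re_le_norm _) (Nat.cast_nonneg _)
  simpa using h1.trans (h2.trans h3)

theorem cut_bound (c : ℝ) (n : ℕ) (z : ℂ) : ‖cut c n z‖ ≤ 1 := by
  unfold cut
  rw [Complex.norm_real, Real.norm_eq_abs, abs_le]
  constructor
  · exact le_trans (by norm_num) (le_max_left _ _)
  · exact max_le (by norm_num) (min_le_left _ _)

theorem cut_tendsto (c t : ℝ) : Tendsto (fun n => cut c n (t : ℂ)) atTop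
    (𝓝 (if c < t then (1 : ℂ) else 0)) := by
  unfold cut
  split_ifs with h
  · obtain ⟨N, hN⟩ := exists_nat_gt (1 / (t - c))
    refine tendsto_const_nhds.congr' ?_
    filter_upwards [eventually_ge_atTop N] with n hn
    have h1 : 1 ≤ (n : ℝ) * ((t : ℂ).re - c) := by
      rw [Complex.ofReal_re]
      have h2 : (0 : ℝ) < t - c := by linarith
      have h3 : 1 / (t - c) ≤ n := hN.le.trans (by exact_mod_cast hn)
      rwa [div_le_iff₀ h2] at h3
    rw [min_eq_left h1]
    simp
  · refine tendsto_const_nhds.congr' ?_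
    filter_upwards with n
    have h1 : (n : ℝ) * ((t : ℂ).re - c) ≤ 0 := by
      rw [Complex.ofReal_re]
      have := Nat.cast_nonneg (α := ℝ) n
      nlinarith
    rw [max_eq_left ((min_le_right _ _).trans h1)]
    simp

omit [TopologicalSpace X] [BorelSpace X] in
theorem memLp_real {k : X → ℝ} (hk : Measurable k) (hb : ∀ x, |k x| ≤ 1) :
    MemLp (fun x => (k x : ℂ)) 2 μ := by
  refine MemLp.of_bound (Complex.measurable_ofReal.comp hk).aestronglyMeasurable 1 ?_
  refine ae_of_all _ fun x => ?_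
  rw [Complex.norm_real]
  exact hb x

/-- level sets of an almost periodic function are in the Kronecker factor. -/
theorem kroneckerSet_level {k : X → ℝ} (hk : Measurable k) (hb : ∀ x, |k x| ≤ 1)
    (hu : (memLp_real μ hk hb).toLp _ ∈ AP G μ) {c : ℝ} (hc : 0 ≤ c) :
    KroneckerSet G μ {x | c < k x} := by
  have hm : MeasurableSet {x | c < k x} := measurableSet_lt measurable_const hk
  refine ⟨hm, ?_⟩
  rw [mem_kroneckerSpace]
  apply AP_closed
  set u := (memLp_real μ hk hb).toLp _ with hu'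
  have hmem : ∀ n : ℕ, (cut_lipschitz c n).compLp (cut_zero hc n) u ∈ AP G μ := by
    intro n
    refine AP_of_map μ μ _ ((cut_lipschitz c n).continuous_compLp (cut_zero hc n)) ?_ hu
    intro g f
    rcases f with ⟨⟨_⟩, _⟩
    rfl
  refine mem_closure_of_tendsto (b := atTop) ?_ (Eventually.of_forall hmem)
  rw [Lp.tendsto_Lp_iff_tendsto_eLpNorm']
  have h1 : ∀ n : ℕ, eLpNorm (((cut_lipschitz c n).compLp (cut_zero hc n) u : X → ℂ) -
      (indicatorConstLp 2 hm (measure_ne_top μ _) (1 : ℂ) : X → ℂ)) 2 μ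
      = eLpNorm (fun x => cut c n (k x : ℂ) - (if c < k x then (1 : ℂ) else 0)) 2 μ := by
    intro n
    apply eLpNorm_congr_ae
    filter_upwards [(cut_lipschitz c n).coeFn_compLp (cut_zero hc n) u,
      (memLp_real μ hk hb).coeFn_toLp, indicatorConstLp_coeFn (p := 2) (hs := hm)
      (hμs := measure_ne_top μ _) (c := (1 : ℂ))] with x h1 h2 h3
    rw [Pi.sub_apply, h1, h3, Function.comp_apply, h2]
    by_cases h : c < k x
    · simp [Set.indicator, h]
    · simp [Set.indicator, h]
  simp_rw [h1]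
  refine tendsto_two μ ?_ ?_ ?_ ?_
  · intro n
    exact (cut_lipschitz c n).continuous.measurable.comp (Complex.measurable_ofReal.comp hk)
  · exact Measurable.ite hm measurable_const measurable_const
  · intro n x
    refine (norm_sub_le _ _).trans ?_
    have h2 := cut_bound c n (k x : ℂ)
    have h3 : ‖(if c < k x then (1 : ℂ) else 0)‖ ≤ 1 := by split_ifs <;> simp
    linarith
  · intro x
    exact cut_tendsto c (k x)

end ap

end Q70.QDisj
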