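import Pool.Agent.Q70.QDisjA

/-!
# Quasi-disjointness: the Markov operator of a joining
-/

set_option autoImplicit false
set_option linter.unusedSectionVars false

open MeasureTheory Set Filter Topology ProbabilityTheory
open scoped ENNReal InnerProductSpace

namespace Q70.QDisj

universe u v

variable {G : Type v} [Group G]
variable {X : Type u} [TopologicalSpace X] [MeasurableSpace X] [BorelSpace X]
  [MulAction G X] [ContinuousConstSMul G X]
variable {Y : Type u} [TopologicalSpace Y] [MeasurableSpace Y] [BorelSpace Y]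
  [MulAction G Y] [ContinuousConstSMul G Y]

variable {μ : Measure X} {ν : Measure Y} {lam : Measure (X × Y)}

theorem mp_fst (h : IsJoining G μ ν lam) : MeasurePreserving Prod.fst lam μ :=
  ⟨measurable_fst, h.fst⟩

theorem mp_snd (h : IsJoining G μ ν lam) : MeasurePreserving Prod.snd lam ν :=
  ⟨measurable_snd, h.snd⟩

theorem measurable_diag (g : G) : Measurable (fun p : X × Y => (g • p.1, g • p.2)) := by
  have h1 : Measurable (fun x : X => g • x) := (continuous_const_smul g).measurable
  have h2 : Measurable (fun x : Y => g • x) := (continuous_const_smul g).measurable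
  exact (h1.comp measurable_fst).prodMk (h2.comp measurable_snd)

theorem mp_diag (h : IsJoining G μ ν lam) (g : G) :
    MeasurePreserving (fun p : X × Y => (g • p.1, g • p.2)) lam lam :=
  ⟨measurable_diag g, h.inv g⟩

/-- The embedding of `L²(μ)` in `L²(lam)`. -/
noncomputable def iX (h : IsJoining G μ ν lam) : Lp ℂ 2 μ →ₗᵢ[ℂ] Lp ℂ 2 lam :=
  Lp.compMeasurePreservingₗᵢ ℂ Prod.fst (mp_fst h)

/-- The embedding of `L²(ν)` in `L²(lam)`. -/
noncomputable def iY (h : IsJoining G μ ν lam) : Lp ℂ 2 ν →ₗᵢ[ℂ] Lp ℂ 2 lam :=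
  Lp.compMeasurePreservingₗᵢ ℂ Prod.snd (mp_snd h)

/-- The diagonal Koopman operator. -/
noncomputable def W (h : IsJoining G μ ν lam) (g : G) : Lp ℂ 2 lam →ₗᵢ[ℂ] Lp ℂ 2 lam :=
  Lp.compMeasurePreservingₗᵢ ℂ (fun p : X × Y => (g • p.1, g • p.2)) (mp_diag h g)

theorem iX_koopman [SMulInvariantMeasure G X μ] (h : IsJoining G μ ν lam) (g : G) (f : Lp ℂ 2 μ) :
    iX h (koopman G μ g f) = W h g (iX h f) := by
  rcases f with ⟨⟨_⟩, _⟩
  rfl

theorem iY_koopman [SMulInvariantMeasure G Y ν] (h : IsJoining G μ ν lam) (g : G) (f : Lp ℂ 2 ν) :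
    iY h (koopman G ν g f) = W h g (iY h f) := by
  rcases f with ⟨⟨_⟩, _⟩
  rfl

theorem koopman_inv_self [SMulInvariantMeasure G Y ν] (g : G) (f : Lp ℂ 2 ν) :
    koopman G ν g (koopman G ν g⁻¹ f) = f := by
  unfold koopman
  rw [← Lp.compMeasurePreserving_comp_apply]
  have h1 : ((fun x : Y => g⁻¹ • x) ∘ fun x => g • x) = id := by
    funext x; simp
  conv_rhs => rw [← Lp.compMeasurePreserving_id_apply f]
  congr 2

/-- The Koopman operator as a linear isometry -/
noncomputable def koopLi [SMulInvariantMeasure G Y ν] (g : G) : Lp ℂ 2 ν →ₗᵢ[ℂ] Lp ℂ 2 ν :=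
  Lp.compMeasurePreservingₗᵢ ℂ (fun x : Y => g • x) (measurePreserving_smul g ν)

theorem koopLi_apply [SMulInvariantMeasure G Y ν] (g : G) (f : Lp ℂ 2 ν) :
    koopLi g f = koopman G ν g f := rfl

/-- The Markov operator of a joining. -/
noncomputable def P (h : IsJoining G μ ν lam) : Lp ℂ 2 μ →L[ℂ] Lp ℂ 2 ν :=
  (ContinuousLinearMap.adjoint (iY h).toContinuousLinearMap).comp (iX h).toContinuousLinearMap

theorem inner_P (h : IsJoining G μ ν lam) (f : Lp ℂ 2 μ) (k : Lp ℂ 2 ν) :
    ⟪k, P h f⟫_ℂ = ⟪iY h k, iX h f⟫_ℂ := by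
  unfold P
  rw [ContinuousLinearMap.comp_apply, ContinuousLinearMap.adjoint_inner_right]
  rfl

theorem P_koopman [SMulInvariantMeasure G X μ] [SMulInvariantMeasure G Y ν]
    (h : IsJoining G μ ν lam) (g : G) (f : Lp ℂ 2 μ) :
    P h (koopman G μ g f) = koopman G ν g (P h f) := by
  refine ext_inner_left ℂ fun k => ?_
  rw [← koopman_inv_self g k]
  set k' := koopman G ν g⁻¹ k
  rw [inner_P, iX_koopman, iY_koopman, LinearIsometry.inner_map_map, ← koopLi_apply g k',
    ← koopLi_apply g (P h f), LinearIsometry.inner_map_map, inner_P]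

/-- The disintegration of a joining over the second coordinate: kernel from `Y` to `X`. -/
theorem exists_kernel [CompactSpace X] [TopologicalSpace.MetrizableSpace X]
    [IsProbabilityMeasure μ] [IsProbabilityMeasure ν]
    (h : IsJoining G μ ν lam) :
    ∃ κ : Kernel Y X, IsMarkovKernel κ ∧
      ∀ A B, MeasurableSet A → MeasurableSet B → lam (A ×ˢ B) = ∫⁻ y in B, κ y A ∂ν := by
  let := TopologicalSpace.metrizableSpaceMetric X
  have : IsProbabilityMeasure lam := by
    constructor
    have h1 : lam (Prod.fst ⁻¹' univ) = 1 := by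
      rw [← Measure.map_apply measurable_fst MeasurableSet.univ, h.fst]
      exact measure_univ
    simpa using h1
  have : Nonempty X := by
    by_contra hne
    rw [not_nonempty_iff] at hne
    have h1 : μ univ = 1 := measure_univ
    rw [univ_eq_empty_iff.2 hne, measure_empty] at h1
    exact zero_ne_one h1
  have hsw : (lam.map Prod.swap).fst = ν := by
    rw [Measure.fst, Measure.map_map measurable_fst measurable_swap, ← h.snd]
    rfl
  have : IsProbabilityMeasure (lam.map Prod.swap) :=
    Measure.isProbabilityMeasure_map measurable_swap.aemeasurable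
  refine ⟨(lam.map Prod.swap).condKernel, inferInstance, ?_⟩
  intro A B hA hB
  have h1 : (lam.map Prod.swap).fst ⊗ₘ (lam.map Prod.swap).condKernel = lam.map Prod.swap :=
    Measure.disintegrate _ _
  have h2 : lam (A ×ˢ B) = lam.map Prod.swap (B ×ˢ A) := by
    rw [Measure.map_apply measurable_swap (hB.prod hA), preimage_swap_prod]
  rw [h2]
  conv_lhs => rw [← h1]
  rw [Measure.compProd_apply_prod hB hA, hsw]

variable [IsProbabilityMeasure μ] [IsProbabilityMeasure ν]

theorem joining_prob (h : IsJoining G μ ν lam) : IsProbabilityMeasure lam := by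
  constructor
  have h1 : lam (Prod.fst ⁻¹' univ) = 1 := by
    rw [← Measure.map_apply measurable_fst MeasurableSet.univ, h.fst]
    exact measure_univ
  simpa using h1

theorem kernel_abs (κ : Kernel Y X) [IsMarkovKernel κ] (A : Set X) (y : Y) :
    |(κ y).real A| ≤ 1 := by
  rw [abs_of_nonneg measureReal_nonneg]
  exact measureReal_le_one

theorem kernel_meas (κ : Kernel Y X) {A : Set X} (hA : MeasurableSet A) :
    Measurable fun y => (κ y).real A :=
  (κ.measurable_coe hA).ennreal_toReal

theorem P_indicator (h : IsJoining G μ ν lam) (κ : Kernel Y X) [IsMarkovKernel κ]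
    (hκ : ∀ A B, MeasurableSet A → MeasurableSet B → lam (A ×ˢ B) = ∫⁻ y in B, κ y A ∂ν)
    {A : Set X} (hA : MeasurableSet A) :
    P h (indicatorConstLp 2 hA (measure_ne_top μ A) (1 : ℂ)) =
      (memLp_real ν (kernel_meas κ hA) (kernel_abs κ A)).toLp _ := by
  have := joining_prob h
  have hset : ∀ B (hB : MeasurableSet B),
      ⟪indicatorConstLp 2 hB (measure_ne_top ν B) (1 : ℂ),
        P h (indicatorConstLp 2 hA (measure_ne_top μ A) (1 : ℂ))⟫_ℂ =
      ⟪indicatorConstLp 2 hB (measure_ne_top ν B) (1 : ℂ),
        (memLp_real ν (kernel_meas κ hA) (kernel_abs κ A)).toLp _⟫_ℂ := by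
    intro B hB
    rw [inner_P]
    have h1 : iY h (indicatorConstLp 2 hB (measure_ne_top ν B) (1 : ℂ)) =
        indicatorConstLp 2 (hB.preimage measurable_snd) (measure_ne_top lam _) (1 : ℂ) := rfl
    have h2 : iX h (indicatorConstLp 2 hA (measure_ne_top μ A) (1 : ℂ)) =
        indicatorConstLp 2 (hA.preimage measurable_fst) (measure_ne_top lam _) (1 : ℂ) := rfl
    rw [h1, h2, L2.inner_indicatorConstLp_one_indicatorConstLp_one, L2.inner_indicatorConstLp_one]
    have h3 : (Prod.snd ⁻¹' B ∩ Prod.fst ⁻¹' A : Set (X × Y)) = A ×ˢ B := by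
      ext p; simp [and_comm]
    rw [h3]
    have h4 : ∫ x in B, (memLp_real ν (kernel_meas κ hA) (kernel_abs κ A)).toLp _ x ∂ν
        = ∫ y in B, (((κ y).real A : ℝ) : ℂ) ∂ν := by
      apply setIntegral_congr_ae hB
      filter_upwards [(memLp_real ν (kernel_meas κ hA) (kernel_abs κ A)).coeFn_toLp] with y hy _
      exact hy
    have h5 : ∫ y in B, (κ y).real A ∂ν = lam.real (A ×ˢ B) := by
      simp only [Measure.real]
      rw [hκ A B hA hB, integral_toReal]
      · exact (κ.measurable_coe hA).aemeasurable
      · exact ae_of_all _ fun y => measure_lt_top _ _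
    rw [h4, ← h5]
    exact (integral_ofReal (𝕜 := ℂ)).symm
  have hint : ∀ B (_ : MeasurableSet B), ∫ y in B, P h (indicatorConstLp 2 hA (measure_ne_top μ A) (1 : ℂ)) y ∂ν
      = ∫ y in B, (memLp_real ν (kernel_meas κ hA) (kernel_abs κ A)).toLp _ y ∂ν := by
    intro B hB
    have := hset B hB
    rwa [L2.inner_indicatorConstLp_one, L2.inner_indicatorConstLp_one] at this
  apply Lp.ext
  refine ae_eq_of_forall_setIntegral_eq_of_sigmaFinite ?_ ?_ ?_
  · intro B hB _
    exact ((Lp.memLp _).integrable (by norm_num)).integrableOn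
  · intro B hB _
    exact ((Lp.memLp _).integrable (by norm_num)).integrableOn
  · intro B hB _
    exact hint B hB

variable [SMulInvariantMeasure G X μ] [SMulInvariantMeasure G Y ν]

/-- **Key lemma**: a joining which is the product on the Kronecker factors makes the Kronecker
factor of the first system independent of the whole second system. -/
theorem key [CompactSpace X] [TopologicalSpace.MetrizableSpace X] (h : IsJoining G μ ν lam)
    (hk : ∀ A B, KroneckerSet G μ A → KroneckerSet G ν B → lam (A ×ˢ B) = μ A * ν B)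
    {A : Set X} (hA : KroneckerSet G μ A) {B : Set Y} (hB : MeasurableSet B) :
    lam (A ×ˢ B) = μ A * ν B := by
  have := joining_prob h
  obtain ⟨κ, hκM, hκ⟩ := exists_kernel h
  obtain ⟨hAm, hAK⟩ := id hA
  rw [mem_kroneckerSpace] at hAK
  have hu : (memLp_real ν (kernel_meas κ hAm) (kernel_abs κ A)).toLp _ ∈ AP G ν := by
    rw [← P_indicator h κ hκ hAm]
    exact AP_of_map μ ν (P h) (P h).continuous (P_koopman h) hAK
  set k : Y → ℝ := fun y => (κ y).real A with hkdef
  set c : ℝ := μ.real A with hc
  have hc0 : 0 ≤ c := measureReal_nonneg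
  have hlev := kroneckerSet_level ν (kernel_meas κ hAm) (kernel_abs κ A) hu hc0
  have hkm : Measurable k := kernel_meas κ hAm
  have hint : Integrable k ν := by
    refine Integrable.of_bound hkm.aestronglyMeasurable 1 (ae_of_all _ fun y => ?_)
    exact kernel_abs κ A y
  have hset : ∀ C, MeasurableSet C → ∫ y in C, k y ∂ν = lam.real (A ×ˢ C) := by
    intro C hC
    rw [Measure.real, hκ A C hAm hC, ← integral_toReal]
    · rfl
    · exact (κ.measurable_coe hAm).aemeasurable
    · exact ae_of_all _ fun y => measure_lt_top _ _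
  have h1 : lam (A ×ˢ {y | c < k y}) = μ A * ν {y | c < k y} := hk A _ hA hlev
  have hmC : MeasurableSet {y | c < k y} := measurableSet_lt measurable_const hkm
  have h2 : ∫ y in {y | c < k y}, (k y - c) ∂ν = 0 := by
    rw [integral_sub hint.integrableOn (integrable_const _).integrableOn, hset _ hmC]
    rw [Measure.real, h1, ENNReal.toReal_mul, setIntegral_const]
    simp only [smul_eq_mul, hc, Measure.real]
    ring
  have h3 : ν {y | c < k y} = 0 := by
    by_contra hne
    have h4 : 0 < ∫ y in {y | c < k y}, (k y - c) ∂ν := by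
      rw [setIntegral_pos_iff_support_of_nonneg_ae]
      · have : (Function.support (fun y => k y - c) ∩ {y | c < k y}) = {y | c < k y} := by
          apply inter_eq_right.2
          intro y hy
          rw [Set.mem_ofPred_eq] at hy
          rw [Function.mem_support]
          exact (sub_pos.2 hy).ne'
        rw [this]
        exact pos_iff_ne_zero.2 hne
      · rw [EventuallyLE, ae_restrict_iff' hmC]
        refine ae_of_all _ fun y hy => ?_
        rw [Set.mem_ofPred_eq] at hy
        simp only [Pi.zero_apply]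
        linarith
      · exact (hint.sub (integrable_const _)).integrableOn
    linarith
  have h5 : ∫ y, (c - k y) ∂ν = 0 := by
    rw [integral_sub (integrable_const _) hint, ← setIntegral_univ (f := k), hset _ MeasurableSet.univ,
      integral_const]
    have : lam.real (A ×ˢ (univ : Set Y)) = c := by
      rw [hc, Measure.real, Measure.real, ← h.fst, Measure.map_apply measurable_fst hAm]
      congr 2
      ext p; simp
    rw [this]
    simp
  have h6 : (fun y => c - k y) =ᵐ[ν] 0 := by
    have hI : Integrable (fun y => c - k y) ν := (integrable_const _).sub hint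
    refine (integral_eq_zero_iff_of_nonneg_ae ?_ hI).1 h5
    · have : ∀ᵐ y ∂ν, ¬ (c < k y) := by
        rw [ae_iff]
        simpa using h3
      filter_upwards [this] with y hy
      simp only [Pi.zero_apply]
      linarith
  have h7 : lam.real (A ×ˢ B) = c * ν.real B := by
    rw [← hset B hB]
    have : ∫ y in B, k y ∂ν = ∫ y in B, c ∂ν := by
      apply setIntegral_congr_ae hB
      filter_upwards [h6] with y hy _
      simp only [Pi.zero_apply] at hy
      linarith
    rw [this, setIntegral_const, smul_eq_mul, mul_comm]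
  rw [← ENNReal.toReal_eq_toReal_iff' (measure_ne_top _ _) (ENNReal.mul_ne_top (measure_ne_top _ _)
    (measure_ne_top _ _)), ENNReal.toReal_mul]
  exact h7

end Q70.QDisj
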