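import Pool.Agent.Q70.QDisjB

/-!
# Quasi-disjointness from itself implies quasi-disjointness from every system
-/

set_option autoImplicit false
set_option linter.unusedSectionVars false

open MeasureTheory Set Filter Topology ProbabilityTheory
open scoped ENNReal InnerProductSpace

namespace Q70.QDisj

universe u v

variable {G : Type v} [Group G]
variable {X : Type u} [TopologicalSpace X] [MeasurableSpace X] [BorelSpace X]
  [MulAction G X] [ContinuousConstSMul G X] [CompactSpace X] [TopologicalSpace.MetrizableSpace X]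
variable {Y : Type u} [TopologicalSpace Y] [MeasurableSpace Y] [BorelSpace Y]
  [MulAction G Y] [ContinuousConstSMul G Y]

variable {μ : Measure X} {ν : Measure Y} {lam : Measure (X × Y)}
variable [IsProbabilityMeasure μ] [IsProbabilityMeasure ν]
variable [SMulInvariantMeasure G X μ] [SMulInvariantMeasure G Y ν]

theorem measurable_smul' (g : G) : Measurable (fun y : Y => g • y) :=
  (continuous_const_smul g).measurable

theorem kernel_ae_eq {f h : Y → ℝ≥0∞} (hf : Measurable f) (hh : Measurable h)
    (hfin : ∫⁻ y, f y ∂ν ≠ ∞)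
    (hs : ∀ B, MeasurableSet B → ∫⁻ y in B, f y ∂ν = ∫⁻ y in B, h y ∂ν) : f =ᵐ[ν] h := by
  refine ae_eq_of_forall_setLIntegral_eq_of_sigmaFinite hf hh ?_
  intro s hs' _
  exact hs s hs'

theorem kernel_equivariant (hj : IsJoining G μ ν lam) (κ : Kernel Y X) [IsMarkovKernel κ]
    (hκ : ∀ A B, MeasurableSet A → MeasurableSet B → lam (A ×ˢ B) = ∫⁻ y in B, κ y A ∂ν)
    (g : G) {A : Set X} (hA : MeasurableSet A) :
    (fun y => κ (g • y) A) =ᵐ[ν] fun y => κ y ((fun x => g • x) ⁻¹' A) := by
  have hA' : MeasurableSet ((fun x : X => g • x) ⁻¹' A) := hA.preimage (measurable_smul' g)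
  refine kernel_ae_eq ((κ.measurable_coe hA).comp (measurable_smul' g)) (κ.measurable_coe hA')
    ?_ ?_
  · refine ne_of_lt (lt_of_le_of_lt (lintegral_mono (g := fun _ => 1) fun y => prob_le_one) ?_)
    simp
  · intro B hB
    rw [← hκ _ B hA' hB]
    have hB' : MeasurableSet ((fun y : Y => g⁻¹ • y) ⁻¹' B) := hB.preimage (measurable_smul' g⁻¹)
    have hBB : (fun y : Y => g • y) ⁻¹' ((fun y : Y => g⁻¹ • y) ⁻¹' B) = B := by
      ext y; simp
    have h1 : ∫⁻ y in B, κ (g • y) A ∂ν = ∫⁻ y in ((fun y : Y => g⁻¹ • y) ⁻¹' B), κ y A ∂ν := by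
      conv_lhs => rw [← hBB]
      exact (measurePreserving_smul g ν).setLIntegral_comp_preimage hB' (κ.measurable_coe hA)
    rw [h1, ← hκ A _ hA hB']
    have h2 := hj.inv g
    have h3 : lam.map (fun p : X × Y => (g • p.1, g • p.2)) (A ×ˢ ((fun y : Y => g⁻¹ • y) ⁻¹' B))
        = lam (((fun x : X => g • x) ⁻¹' A) ×ˢ B) := by
      rw [Measure.map_apply (measurable_diag g) (hA.prod hB')]
      congr 1
      ext p
      simp
    rw [← h3, h2]

theorem joining_fst_apply (hj : IsJoining G μ ν lam) {A : Set X} (hA : MeasurableSet A) :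
    lam (A ×ˢ univ) = μ A := by
  rw [← hj.fst, Measure.map_apply measurable_fst hA]
  congr 1
  ext p; simp

theorem joining_snd_apply (hj : IsJoining G μ ν lam) {B : Set Y} (hB : MeasurableSet B) :
    lam (univ ×ˢ B) = ν B := by
  rw [← hj.snd, Measure.map_apply measurable_snd hB]
  congr 1
  ext p; simp

/-- The relatively independent self-joining. -/
noncomputable def relInd (ν : Measure Y) (κ : Kernel Y X) : Measure (X × X) := ν.bind (κ ×ₖ κ)

theorem relInd_apply (κ : Kernel Y X) [IsMarkovKernel κ] {A B : Set X} (hA : MeasurableSet A)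
    (hB : MeasurableSet B) : relInd ν κ (A ×ˢ B) = ∫⁻ y, κ y A * κ y B ∂ν := by
  unfold relInd
  rw [Measure.bind_apply (hA.prod hB) (Kernel.aemeasurable _)]
  refine lintegral_congr fun y => ?_
  rw [Kernel.prod_apply, Measure.prod_prod]

theorem relInd_prob (κ : Kernel Y X) [IsMarkovKernel κ] : IsProbabilityMeasure (relInd ν κ) := by
  constructor
  have := relInd_apply (ν := ν) κ MeasurableSet.univ MeasurableSet.univ
  rw [univ_prod_univ] at this
  rw [this]
  simp

theorem relInd_joining (hj : IsJoining G μ ν lam) (κ : Kernel Y X) [IsMarkovKernel κ]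
    (hκ : ∀ A B, MeasurableSet A → MeasurableSet B → lam (A ×ˢ B) = ∫⁻ y in B, κ y A ∂ν) :
    IsJoining G μ μ (relInd ν κ) := by
  have := relInd_prob (ν := ν) κ
  have hone : ∀ A, MeasurableSet A → ∫⁻ y, κ y A ∂ν = μ A := by
    intro A hA
    rw [← joining_fst_apply hj hA, hκ A univ hA MeasurableSet.univ, Measure.restrict_univ]
  refine ⟨?_, ?_, ?_⟩
  · ext A hA
    rw [Measure.map_apply measurable_fst hA]
    have h1 : (Prod.fst ⁻¹' A : Set (X × X)) = A ×ˢ univ := by ext p; simp
    rw [h1, relInd_apply κ hA MeasurableSet.univ]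
    simp only [measure_univ, mul_one]
    exact hone A hA
  · ext A hA
    rw [Measure.map_apply measurable_snd hA]
    have h1 : (Prod.snd ⁻¹' A : Set (X × X)) = univ ×ˢ A := by ext p; simp
    rw [h1, relInd_apply κ MeasurableSet.univ hA]
    simp only [measure_univ, one_mul]
    exact hone A hA
  · intro g
    have : IsProbabilityMeasure ((relInd ν κ).map (fun p : X × X => (g • p.1, g • p.2))) :=
      Measure.isProbabilityMeasure_map (measurable_diag g).aemeasurable
    refine Measure.ext_prod fun {A B} hA hB => ?_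
    rw [Measure.map_apply (measurable_diag g) (hA.prod hB)]
    have h1 : ((fun p : X × X => (g • p.1, g • p.2)) ⁻¹' A ×ˢ B)
        = ((fun x : X => g • x) ⁻¹' A) ×ˢ ((fun x : X => g • x) ⁻¹' B) := by
      ext p; simp
    rw [h1, relInd_apply κ (hA.preimage (measurable_smul' g)) (hB.preimage (measurable_smul' g)),
      relInd_apply κ hA hB]
    have h2 : ∫⁻ y, κ y ((fun x => g • x) ⁻¹' A) * κ y ((fun x => g • x) ⁻¹' B) ∂ν
        = ∫⁻ y, κ (g • y) A * κ (g • y) B ∂ν := by
      refine lintegral_congr_ae ?_
      filter_upwards [kernel_equivariant hj κ hκ g hA, kernel_equivariant hj κ hκ g hB]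
        with y h3 h4
      rw [h3, h4]
    rw [h2]
    exact (measurePreserving_smul g ν).lintegral_comp
      ((κ.measurable_coe hA).mul (κ.measurable_coe hB))

theorem self_to_all (hself : QuasiDisjoint G μ μ) : QuasiDisjoint G μ ν := by
  intro lam hj hk
  have := joining_prob hj
  obtain ⟨κ, hκM, hκ⟩ := exists_kernel hj
  have hj' := relInd_joining hj κ hκ
  have hprob := relInd_prob (ν := ν) κ
  have hconst : ∀ A, KroneckerSet G μ A → (fun y => κ y A) =ᵐ[ν] fun _ => μ A := by
    intro A hA
    refine kernel_ae_eq (κ.measurable_coe hA.1) measurable_const ?_ ?_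
    · refine ne_of_lt (lt_of_le_of_lt (lintegral_mono (g := fun _ => 1) fun y => prob_le_one) ?_)
      simp
    · intro B hB
      rw [← hκ A B hA.1 hB, key hj hk hA hB]
      simp
  have hprod : relInd ν κ = μ.prod μ := by
    refine hself _ hj' ?_
    intro A B hA hB
    rw [relInd_apply κ hA.1 hB.1]
    have h1 : ∫⁻ y, κ y A * κ y B ∂ν = ∫⁻ _, μ A * μ B ∂ν := by
      refine lintegral_congr_ae ?_
      filter_upwards [hconst A hA, hconst B hB] with y h1 h2
      rw [h1, h2]
    rw [h1]
    simp
  have hae : ∀ A, MeasurableSet A → ∀ᵐ y ∂ν, (κ y).real A = μ.real A := by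
    intro A hA
    set k : Y → ℝ := fun y => (κ y).real A with hkdef
    have hkm : Measurable k := kernel_meas κ hA
    have hint : Integrable k ν := by
      refine Integrable.of_bound hkm.aestronglyMeasurable 1 (ae_of_all _ fun y => ?_)
      exact kernel_abs κ A y
    have hint2 : Integrable (fun y => k y * k y) ν := by
      refine Integrable.of_bound (hkm.mul hkm).aestronglyMeasurable 1 (ae_of_all _ fun y => ?_)
      rw [norm_mul]
      exact mul_le_one₀ (kernel_abs κ A y) (norm_nonneg _) (kernel_abs κ A y)
    have h1 : ∫ y, k y ∂ν = μ.real A := by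
      simp only [hkdef, Measure.real]
      rw [integral_toReal (κ.measurable_coe hA).aemeasurable (ae_of_all _ fun y => measure_lt_top _ _),
        ← joining_fst_apply hj hA, hκ A univ hA MeasurableSet.univ, Measure.restrict_univ]
    have h2 : ∫ y, k y * k y ∂ν = μ.real A * μ.real A := by
      have h3 := relInd_apply (ν := ν) κ hA hA
      rw [hprod, Measure.prod_prod] at h3
      simp only [hkdef, Measure.real]
      simp_rw [← ENNReal.toReal_mul]
      have hmm : Measurable fun y => κ y A * κ y A := (κ.measurable_coe hA).mul (κ.measurable_coe hA)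
      rw [integral_toReal hmm.aemeasurable
        (ae_of_all _ fun y => ENNReal.mul_lt_top (measure_lt_top _ _) (measure_lt_top _ _)), ← h3]
    have h4 : ∫ y, (k y - μ.real A) * (k y - μ.real A) ∂ν = 0 := by
      have h5 : ∀ y, (k y - μ.real A) * (k y - μ.real A)
          = k y * k y - (2 * μ.real A) * k y + μ.real A * μ.real A := by
        intro y; ring
      simp_rw [h5]
      have hI1 : Integrable (fun y => k y * k y - (2 * μ.real A) * k y) ν :=
        hint2.sub (hint.const_mul _)
      rw [integral_add hI1 (integrable_const _),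
        integral_sub hint2 (hint.const_mul _), integral_const_mul, h1, h2]
      simp
      ring
    have hI : Integrable (fun y => (k y - μ.real A) * (k y - μ.real A)) ν := by
      have h5 : ∀ y, (k y - μ.real A) * (k y - μ.real A)
          = k y * k y - (2 * μ.real A) * k y + μ.real A * μ.real A := by
        intro y; ring
      simp_rw [h5]
      exact (hint2.sub (hint.const_mul _)).add (integrable_const _)
    have h6 := (integral_eq_zero_iff_of_nonneg_ae (ae_of_all _ fun y => mul_self_nonneg _) hI).1 h4
    filter_upwards [h6] with y hy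
    have := mul_self_eq_zero.1 hy
    linarith
  refine Measure.ext_prod fun {A B} hA hB => ?_
  rw [hκ A B hA hB, Measure.prod_prod]
  have h1 : ∫⁻ y in B, κ y A ∂ν = ∫⁻ _ in B, μ A ∂ν := by
    refine lintegral_congr_ae ?_
    refine ae_restrict_of_ae ?_
    filter_upwards [hae A hA] with y hy
    simp only [Measure.real] at hy
    exact (ENNReal.toReal_eq_toReal_iff' (measure_ne_top _ _) (measure_ne_top _ _)).1 hy
  rw [h1]
  simp

end Q70.QDisj
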