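import Pool.Agent.Q70.QDisjC

/-!
# Quasi-disjointness from all ergodic systems implies quasi-disjointness from itself
-/

set_option autoImplicit false
set_option linter.unusedSectionVars false

open MeasureTheory Set Filter Topology ProbabilityTheory
open scoped ENNReal InnerProductSpace

namespace Q70.QDisj

universe u v

variable {G : Type v} [Group G]
variable {X : Type u} [TopologicalSpace X] [CompactSpace X] [TopologicalSpace.MetrizableSpace X]
  [MeasurableSpace X] [BorelSpace X] [MulAction G X] [ContinuousConstSMul G X]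
variable {μ : Measure X} [IsProbabilityMeasure μ] [SMulInvariantMeasure G X μ]

variable (G μ) in
/-- The joinings of `(X, μ)` with measures on `X` making the Kronecker factor of `(X, μ)`
independent of the second coordinate. -/
def good : Set (ProbabilityMeasure (X × X)) :=
  {lam | (∀ g : G, (lam : Measure (X × X)).map (fun p : X × X => (g • p.1, g • p.2)) = lam) ∧
    (lam : Measure (X × X)).map Prod.fst = μ ∧
    ∀ A, KroneckerSet G μ A → ∀ B, MeasurableSet B →
      (lam : Measure (X × X)) (A ×ˢ B) = μ A * (lam : Measure (X × X)) (univ ×ˢ B)}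

/-- tensor product of continuous functions -/
def tens (f h : C(X, ℝ)) : C(X × X, ℝ) := ⟨fun p => f p.1 * h p.2, by fun_prop⟩

theorem cont_int (φ : C(X × X, ℝ)) :
    Continuous fun lam : ProbabilityMeasure (X × X) => ∫ p, φ p ∂(lam : Measure (X × X)) :=
  ProbabilityMeasure.continuous_integral_boundedContinuousFunction
    (BoundedContinuousFunction.mkOfCompact φ)

theorem int_cont {Z : Type*} [TopologicalSpace Z] [CompactSpace Z] [MeasurableSpace Z]
    [OpensMeasurableSpace Z] (m : Measure Z) [IsFiniteMeasure m] (φ : C(Z, ℝ)) :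
    Integrable (fun p => φ p) m :=
  (BoundedContinuousFunction.mkOfCompact φ).integrable m

theorem meas_ext {Z : Type*} [TopologicalSpace Z] [CompactSpace Z]
    [TopologicalSpace.MetrizableSpace Z] [MeasurableSpace Z]
    [BorelSpace Z] (m n : Measure Z) [IsFiniteMeasure m] [IsFiniteMeasure n]
    (h : ∀ φ : C(Z, ℝ), ∫ p, φ p ∂m = ∫ p, φ p ∂n) : m = n := by
  refine ext_of_forall_integral_eq_of_IsFiniteMeasure fun f => ?_
  exact h f.toContinuousMap

/-- The marginal condition and the invariance, in terms of continuous functions. -/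
theorem inv_iff (lam : ProbabilityMeasure (X × X)) (g : G) :
    (lam : Measure (X × X)).map (fun p : X × X => (g • p.1, g • p.2)) = lam ↔
      ∀ φ : C(X × X, ℝ), ∫ p, φ ((g • p.1, g • p.2) : X × X) ∂(lam : Measure (X × X)) =
        ∫ p, φ p ∂(lam : Measure (X × X)) := by
  have hm : AEMeasurable (fun p : X × X => (g • p.1, g • p.2)) (lam : Measure (X × X)) :=
    (measurable_diag g).aemeasurable
  constructor
  · intro h φ
    conv_rhs => rw [← h]
    rw [integral_map hm]
    exact φ.continuous.aestronglyMeasurable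
  · intro h
    have : IsProbabilityMeasure ((lam : Measure (X × X)).map
      (fun p : X × X => (g • p.1, g • p.2))) := Measure.isProbabilityMeasure_map hm
    refine meas_ext _ _ fun φ => ?_
    rw [integral_map hm, h φ]
    exact φ.continuous.aestronglyMeasurable

theorem marg_iff (lam : ProbabilityMeasure (X × X)) :
    (lam : Measure (X × X)).map Prod.fst = μ ↔
      ∀ f : C(X, ℝ), ∫ p, f p.1 ∂(lam : Measure (X × X)) = ∫ x, f x ∂μ := by
  have hm : AEMeasurable (Prod.fst : X × X → X) (lam : Measure (X × X)) :=
    measurable_fst.aemeasurable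
  constructor
  · intro h f
    rw [← h, integral_map hm]
    exact f.continuous.aestronglyMeasurable
  · intro h
    have : IsProbabilityMeasure ((lam : Measure (X × X)).map Prod.fst) :=
      Measure.isProbabilityMeasure_map hm
    refine meas_ext _ _ fun φ => ?_
    rw [integral_map hm, h φ]
    exact φ.continuous.aestronglyMeasurable

/-- The error made by replacing an indicator function by a continuous function. -/
noncomputable def err (μ : Measure X) (A : Set X) (f : C(X, ℝ)) : ℝ := ∫ x, ‖A.indicator 1 x - f x‖ ∂μ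

theorem err_approx {A : Set X} (hA : MeasurableSet A) {ε : ℝ} (hε : 0 < ε) :
    ∃ f : C(X, ℝ), err μ A f ≤ ε := by
  have hi : Integrable (A.indicator (1 : X → ℝ)) μ := (integrable_const (1 : ℝ)).indicator hA
  obtain ⟨f, hf, _⟩ := hi.exists_boundedContinuous_integral_sub_le hε
  exact ⟨f.toContinuousMap, hf⟩

theorem fst_int (lam : ProbabilityMeasure (X × X)) (hm : (lam : Measure (X × X)).map Prod.fst = μ)
    {k : X → ℝ} (hk : Measurable k) :
    ∫ p, k p.1 ∂(lam : Measure (X × X)) = ∫ x, k x ∂μ := by
  conv_rhs => rw [← hm]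
  rw [integral_map measurable_fst.aemeasurable hk.aestronglyMeasurable]

/-- the difference between integrating the indicator and the continuous function. -/
theorem err_bound (lam : ProbabilityMeasure (X × X))
    (hm : (lam : Measure (X × X)).map Prod.fst = μ) {A : Set X} (hA : MeasurableSet A)
    (f h : C(X, ℝ)) :
    |∫ p in (Prod.fst ⁻¹' A : Set (X × X)), h p.2 ∂(lam : Measure (X × X)) -
      ∫ p, tens f h p ∂(lam : Measure (X × X))| ≤ ‖h‖ * err μ A f := by
  set L : Measure (X × X) := (lam : Measure (X × X)) with hL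
  have hAm : MeasurableSet (Prod.fst ⁻¹' A : Set (X × X)) := hA.preimage measurable_fst
  have hcont : Continuous fun p : X × X => h p.2 := by fun_prop
  have hi1 : Integrable (fun p : X × X => h p.2) L :=
    int_cont L ⟨fun p : X × X => h p.2, hcont⟩
  rw [← integral_indicator hAm, ← integral_sub (hi1.indicator hAm) (int_cont L _)]
  have hi2 : Integrable (fun x => A.indicator (1 : X → ℝ) x - f x) μ :=
    ((integrable_const (1 : ℝ)).indicator hA).sub (int_cont μ f)
  have hmeas : Measurable (fun x => A.indicator (1 : X → ℝ) x - f x) :=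
    (measurable_const.indicator hA).sub f.continuous.measurable
  have hi3 : Integrable (fun p : X × X => ‖A.indicator (1 : X → ℝ) p.1 - f p.1‖) L := by
    have h4 : Integrable (fun x => ‖A.indicator (1 : X → ℝ) x - f x‖) (L.map Prod.fst) := by
      rw [hm]; exact hi2.norm
    exact (integrable_map_measure hmeas.norm.aestronglyMeasurable
      measurable_fst.aemeasurable).1 h4
  calc |∫ p, ((Prod.fst ⁻¹' A).indicator (fun p : X × X => h p.2) p - tens f h p) ∂L|
      ≤ ∫ p, ‖(Prod.fst ⁻¹' A).indicator (fun p : X × X => h p.2) p - tens f h p‖ ∂L := by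
        rw [← Real.norm_eq_abs]
        exact norm_integral_le_integral_norm _
    _ ≤ ∫ p, ‖h‖ * ‖A.indicator (1 : X → ℝ) p.1 - f p.1‖ ∂L := by
        refine integral_mono ((hi1.indicator hAm).sub (int_cont L _)).norm (hi3.const_mul _) ?_
        intro p
        have h5 : (Prod.fst ⁻¹' A).indicator (fun p : X × X => h p.2) p - tens f h p
            = h p.2 * (A.indicator (1 : X → ℝ) p.1 - f p.1) := by
          by_cases hp : p.1 ∈ A
          · have hp' : p ∈ (Prod.fst ⁻¹' A : Set (X × X)) := hp
            rw [indicator_of_mem hp', indicator_of_mem hp]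
            simp only [tens, ContinuousMap.coe_mk, Pi.one_apply]
            ring
          · have hp' : p ∉ (Prod.fst ⁻¹' A : Set (X × X)) := hp
            rw [indicator_of_notMem hp', indicator_of_notMem hp]
            simp only [tens, ContinuousMap.coe_mk]
            ring
        simp only
        rw [h5, norm_mul]
        exact mul_le_mul_of_nonneg_right (h.norm_coe_le_norm _) (norm_nonneg _)
    _ = ‖h‖ * err μ A f := by
        rw [integral_const_mul]
        congr 1
        exact fst_int lam hm hmeas.norm

/-- the condition on Kronecker sets -/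
theorem cond_iff (lam : ProbabilityMeasure (X × X))
    (hm : (lam : Measure (X × X)).map Prod.fst = μ) {A : Set X} (hA : MeasurableSet A) :
    (∀ B, MeasurableSet B →
      (lam : Measure (X × X)) (A ×ˢ B) = μ A * (lam : Measure (X × X)) (univ ×ˢ B)) ↔
    ∀ f h : C(X, ℝ), |∫ p, tens f h p ∂(lam : Measure (X × X)) -
      μ.real A * ∫ p, tens 1 h p ∂(lam : Measure (X × X))| ≤ ‖h‖ * err μ A f := by
  set L : Measure (X × X) := (lam : Measure (X × X)) with hL
  have hAm : MeasurableSet (Prod.fst ⁻¹' A : Set (X × X)) := hA.preimage measurable_fst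
  have h1 : (∀ B, MeasurableSet B → L (A ×ˢ B) = μ A * L (univ ×ˢ B)) ↔
      (L.restrict (Prod.fst ⁻¹' A)).map Prod.snd = (μ A) • L.map Prod.snd := by
    have key : ∀ B, MeasurableSet B → ((L.restrict (Prod.fst ⁻¹' A)).map Prod.snd B = L (A ×ˢ B)) ∧
        (((μ A) • L.map Prod.snd) B = μ A * L (univ ×ˢ B)) := by
      intro B hB
      constructor
      · rw [Measure.map_apply measurable_snd hB, Measure.restrict_apply (hB.preimage measurable_snd)]
        congr 1
        ext p; simp [and_comm]
      · rw [Measure.smul_apply, Measure.map_apply measurable_snd hB, smul_eq_mul]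
        congr 2
        ext p; simp
    constructor
    · intro h
      ext B hB
      rw [(key B hB).1, (key B hB).2, h B hB]
    · intro h B hB
      rw [← (key B hB).1, ← (key B hB).2, h]
  have hfin : IsFiniteMeasure ((μ A) • L.map Prod.snd) := by
    have : IsFiniteMeasure (L.map Prod.snd) := Measure.isFiniteMeasure_map L Prod.snd
    exact Measure.smul_finite _ (measure_ne_top _ _)
  have hfin' : IsFiniteMeasure ((L.restrict (Prod.fst ⁻¹' A)).map Prod.snd) :=
    Measure.isFiniteMeasure_map _ _
  have h2 : (L.restrict (Prod.fst ⁻¹' A)).map Prod.snd = (μ A) • L.map Prod.snd ↔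
      ∀ h : C(X, ℝ), ∫ p in (Prod.fst ⁻¹' A : Set (X × X)), h p.2 ∂L
        = μ.real A * ∫ p, tens 1 h p ∂L := by
    have key : ∀ h : C(X, ℝ), (∫ x, h x ∂((L.restrict (Prod.fst ⁻¹' A)).map Prod.snd) =
        ∫ p in (Prod.fst ⁻¹' A : Set (X × X)), h p.2 ∂L) ∧
        (∫ x, h x ∂((μ A) • L.map Prod.snd) = μ.real A * ∫ p, tens 1 h p ∂L) := by
      intro h
      constructor
      · rw [integral_map measurable_snd.aemeasurable h.continuous.aestronglyMeasurable]
      · rw [integral_smul_measure,
          integral_map measurable_snd.aemeasurable h.continuous.aestronglyMeasurable]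
        simp [tens, Measure.real]
    constructor
    · intro he h
      rw [← (key h).1, ← (key h).2, he]
    · intro he
      refine meas_ext _ _ fun h => ?_
      rw [(key h).1, (key h).2, he h]
  rw [h1, h2]
  constructor
  · intro he f h
    rw [← he h, abs_sub_comm]
    exact err_bound lam hm hA f h
  · intro he h
    by_contra hne
    have hpos : 0 < |∫ p in (Prod.fst ⁻¹' A : Set (X × X)), h p.2 ∂L
        - μ.real A * ∫ p, tens 1 h p ∂L| := abs_pos.2 (sub_ne_zero.2 hne)
    set δ := |∫ p in (Prod.fst ⁻¹' A : Set (X × X)), h p.2 ∂L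
        - μ.real A * ∫ p, tens 1 h p ∂L| with hδ
    have hh : 0 < ‖h‖ + 1 := by positivity
    obtain ⟨f, hf⟩ := err_approx (μ := μ) hA (ε := δ / (4 * (‖h‖ + 1))) (by positivity)
    have h3 := err_bound lam hm hA f h
    have h4 := he f h
    have h5 : δ ≤ ‖h‖ * err μ A f + ‖h‖ * err μ A f := by
      rw [hδ]
      refine (abs_sub_le _ (∫ p, tens f h p ∂L) _).trans ?_
      exact add_le_add h3 h4
    have h6 : ‖h‖ * err μ A f ≤ ‖h‖ * (δ / (4 * (‖h‖ + 1))) :=
      mul_le_mul_of_nonneg_left hf (norm_nonneg _)
    have h7 : ‖h‖ * (δ / (4 * (‖h‖ + 1))) ≤ δ / 4 := by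
      rw [← mul_div_assoc, div_le_div_iff₀ (by positivity) (by norm_num)]
      nlinarith [norm_nonneg h]
    linarith

theorem good_closed : IsClosed (good G μ) := by
  have h1 : good G μ = (⋂ g : G, ⋂ φ : C(X × X, ℝ), {lam : ProbabilityMeasure (X × X) |
      ∫ p, φ ((g • p.1, g • p.2) : X × X) ∂(lam : Measure (X × X)) =
        ∫ p, φ p ∂(lam : Measure (X × X))}) ∩
      (⋂ f : C(X, ℝ), {lam : ProbabilityMeasure (X × X) |
        ∫ p, f p.1 ∂(lam : Measure (X × X)) = ∫ x, f x ∂μ}) ∩
      (⋂ A : {A : Set X // KroneckerSet G μ A}, ⋂ f : C(X, ℝ), ⋂ h : C(X, ℝ),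
        {lam : ProbabilityMeasure (X × X) | |∫ p, tens f h p ∂(lam : Measure (X × X)) -
      μ.real A.1 * ∫ p, tens 1 h p ∂(lam : Measure (X × X))| ≤ ‖h‖ * err μ A.1 f}) := by
    ext lam
    simp only [good, mem_inter_iff, mem_iInter, Set.mem_ofPred_eq]
    constructor
    · rintro ⟨ha, hb, hc⟩
      refine ⟨⟨fun g φ => (inv_iff lam g).1 (ha g) φ, (marg_iff lam).1 hb⟩, ?_⟩
      rintro ⟨A, hA⟩ f h
      exact (cond_iff lam hb hA.1).1 (hc A hA) f h
    · rintro ⟨⟨ha, hb⟩, hc⟩
      have hb' := (marg_iff lam).2 hb
      refine ⟨fun g => (inv_iff lam g).2 (ha g), hb', ?_⟩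
      intro A hA
      exact (cond_iff lam hb' hA.1).2 (fun f h => hc ⟨A, hA⟩ f h)
  rw [h1]
  refine IsClosed.inter (IsClosed.inter ?_ ?_) ?_
  · refine isClosed_iInter fun g => isClosed_iInter fun φ => isClosed_eq ?_ (cont_int φ)
    have hc : Continuous fun p : X × X => ((g • p.1, g • p.2) : X × X) :=
      (continuous_fst.const_smul g).prodMk (continuous_snd.const_smul g)
    exact cont_int ⟨fun p => φ ((g • p.1, g • p.2) : X × X), φ.continuous.comp hc⟩
  · refine isClosed_iInter fun f => isClosed_eq ?_ continuous_const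
    exact cont_int ⟨fun p => f p.1, by fun_prop⟩
  · refine isClosed_iInter fun A => isClosed_iInter fun f => isClosed_iInter fun h =>
      isClosed_le ?_ continuous_const
    exact ((cont_int _).sub ((cont_int _).const_mul _)).abs

end Q70.QDisj
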