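import Pool.Agent.Q70.QDisjD

/-!
# Extreme points and the Krein-Milman theorem
-/

set_option autoImplicit false
set_option linter.unusedSectionVars false

open MeasureTheory Set Filter Topology ProbabilityTheory
open scoped ENNReal InnerProductSpace

namespace Q70.QDisj

universe u v

variable {G : Type v} [Group G]
variable {X : Type u} [TopologicalSpace X] [CompactSpace X] [TopologicalSpace.MetrizableSpace X]
  [MeasurableSpace X] [BorelSpace X] [MulAction G X] [ContinuousConstSMul G X]
variable {μ : Measure X} [IsProbabilityMeasure μ] [SMulInvariantMeasure G X μ]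

/-- the functional of integration against a measure -/
noncomputable def fnl (lam : Measure (X × X)) : C(X × X, ℝ) → ℝ := fun φ => ∫ p, φ p ∂lam

variable (G μ) in
/-- The compact convex set. -/
def goodF : Set (C(X × X, ℝ) → ℝ) :=
  (fun lam : ProbabilityMeasure (X × X) => fnl (lam : Measure (X × X))) '' good G μ

theorem goodF_compact : IsCompact (goodF G μ) := by
  refine (good_closed.isCompact).image ?_
  exact continuous_pi fun φ => cont_int φ

theorem mix_prob (a b : ℝ) (ha : 0 ≤ a) (hb : 0 ≤ b) (hab : a + b = 1) (m n : Measure (X × X))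
    [IsProbabilityMeasure m] [IsProbabilityMeasure n] :
    IsProbabilityMeasure (ENNReal.ofReal a • m + ENNReal.ofReal b • n) := by
  constructor
  simp only [Measure.coe_add, Measure.coe_smul, Pi.add_apply, Pi.smul_apply, measure_univ,
    smul_eq_mul, mul_one]
  rw [← ENNReal.ofReal_add ha hb, hab]
  simp

theorem goodF_convex : Convex ℝ (goodF G μ) := by
  rintro _ ⟨m, hm, rfl⟩ _ ⟨n, hn, rfl⟩ a b ha hb hab
  have hp := mix_prob a b ha hb hab (m : Measure (X × X)) (n : Measure (X × X))
  refine ⟨⟨_, hp⟩, ?_, ?_⟩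
  · refine ⟨?_, ?_, ?_⟩
    · intro g
      simp only [ProbabilityMeasure.coe_mk]
      rw [Measure.map_add _ _ (measurable_diag g), Measure.map_smul, Measure.map_smul, hm.1 g,
        hn.1 g]
    · simp only [ProbabilityMeasure.coe_mk]
      rw [Measure.map_add _ _ measurable_fst, Measure.map_smul, Measure.map_smul, hm.2.1, hn.2.1,
        ← add_smul, ← ENNReal.ofReal_add ha hb, hab]
      simp
    · intro A hA B hB
      simp only [ProbabilityMeasure.coe_mk, Measure.coe_add, Measure.coe_smul, Pi.add_apply,
        Pi.smul_apply, smul_eq_mul]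
      rw [hm.2.2 A hA B hB, hn.2.2 A hA B hB]
      ring
  · funext φ
    simp only [fnl, ProbabilityMeasure.coe_mk, Pi.add_apply, Pi.smul_apply, smul_eq_mul]
    rw [integral_add_measure, integral_smul_measure, integral_smul_measure,
      ENNReal.toReal_ofReal ha, ENNReal.toReal_ofReal hb]
    · simp
    · exact (int_cont _ φ).smul_measure ENNReal.ofReal_ne_top
    · exact (int_cont _ φ).smul_measure ENNReal.ofReal_ne_top

theorem snd_inv {lam : Measure (X × X)}
    (h : ∀ g : G, lam.map (fun p : X × X => (g • p.1, g • p.2)) = lam) :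
    SMulInvariantMeasure G X (lam.map Prod.snd) := by
  constructor
  intro g s hs
  have hs' : MeasurableSet ((fun x : X => g • x) ⁻¹' s) := hs.preimage (measurable_smul' g)
  rw [Measure.map_apply measurable_snd hs', Measure.map_apply measurable_snd hs]
  conv_rhs => rw [← h g]
  rw [Measure.map_apply (measurable_diag g) (hs.preimage measurable_snd)]
  rfl

theorem invariant_kronecker {ν : Measure X} [IsFiniteMeasure ν] [SMulInvariantMeasure G X ν]
    {B : Set X} (hB : MeasurableSet B)
    (hi : ∀ g : G, (fun y : X => g • y) ⁻¹' B = B) : KroneckerSet G ν B := by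
  refine ⟨hB, ?_⟩
  rw [mem_kroneckerSpace]
  unfold AP
  rw [Set.mem_ofPred_eq]
  have h1 : (Set.range fun g : G => koopman G ν g (indicatorConstLp 2 hB (measure_ne_top ν B) (1 : ℂ)))
      ⊆ {indicatorConstLp 2 hB (measure_ne_top ν B) (1 : ℂ)} := by
    rintro _ ⟨g, rfl⟩
    rw [mem_singleton_iff]
    change Lp.compMeasurePreserving (fun x : X => g • x) (measurePreserving_smul g ν)
      (indicatorConstLp 2 hB (measure_ne_top ν B) (1 : ℂ)) = _
    rw [Lp.indicatorConstLp_compMeasurePreserving]
    congr 1
    exact hi g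
  exact isCompact_singleton.of_isClosed_subset isClosed_closure
    (closure_minimal h1 isClosed_singleton)

theorem swap_joining {ν : Measure X} {lam : Measure (X × X)} (h : IsJoining G μ ν lam) :
    IsJoining G ν μ (lam.map Prod.swap) := by
  refine ⟨?_, ?_, ?_⟩
  · rw [Measure.map_map measurable_fst measurable_swap]
    exact h.snd
  · rw [Measure.map_map measurable_snd measurable_swap]
    exact h.fst
  · intro g
    rw [Measure.map_map (measurable_diag g) measurable_swap]
    conv_rhs => rw [← h.inv g]
    rw [Measure.map_map measurable_swap (measurable_diag g)]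
    rfl

/-- conditioning a good measure on an invariant set of the second coordinate gives a good
measure. -/
theorem cond_good {lam : ProbabilityMeasure (X × X)} (hl : lam ∈ good G μ) {B : Set X}
    (hB : MeasurableSet B) (hi : ∀ g : G, (fun y : X => g • y) ⁻¹' B = B)
    (h0 : (lam : Measure (X × X)) (univ ×ˢ B) ≠ 0) :
    ∃ m : ProbabilityMeasure (X × X), m ∈ good G μ ∧
      ∀ φ : C(X × X, ℝ), (lam : Measure (X × X)).real (univ ×ˢ B) * ∫ p, φ p ∂(m : Measure (X × X))
        = ∫ p in (univ ×ˢ B), φ p ∂(lam : Measure (X × X)) := by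
  set L : Measure (X × X) := (lam : Measure (X × X)) with hL
  obtain ⟨h1, h2, h3⟩ := hl
  have hinv : SMulInvariantMeasure G X (L.map Prod.snd) := snd_inv h1
  have hpr : IsProbabilityMeasure (L.map Prod.snd) :=
    Measure.isProbabilityMeasure_map measurable_snd.aemeasurable
  have hj : IsJoining G μ (L.map Prod.snd) L := ⟨h2, rfl, h1⟩
  have hBm : MeasurableSet (univ ×ˢ B : Set (X × X)) := MeasurableSet.univ.prod hB
  set ν := L.map Prod.snd with hν
  have hνB : ∀ C, MeasurableSet C → ν C = L (univ ×ˢ C) := fun C hC =>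
    (joining_snd_apply hj hC).symm
  -- independence of `B` from the whole first coordinate
  have hind : ∀ A, MeasurableSet A → L (A ×ˢ B) = μ A * L (univ ×ˢ B) := by
    intro A hA
    have h4 := key (swap_joining hj) (A := B) (B := A) ?_ (invariant_kronecker hB hi) hA
    · rw [Measure.map_apply measurable_swap (hB.prod hA), preimage_swap_prod, hνB B hB] at h4
      rw [h4, mul_comm]
    · intro C D hC hD
      rw [Measure.map_apply measurable_swap (hC.1.prod hD.1), preimage_swap_prod, hνB C hC.1,
        h3 D hD C hC.1, mul_comm]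
  have hfin : L (univ ×ˢ B) ≠ ∞ := measure_ne_top _ _
  set c := L (univ ×ˢ B) with hc
  set m : Measure (X × X) := c⁻¹ • L.restrict (univ ×ˢ B) with hm
  have happ : ∀ A C, MeasurableSet A → MeasurableSet C → m (A ×ˢ C) = c⁻¹ * L (A ×ˢ (C ∩ B)) := by
    intro A C hA hC
    rw [hm, Measure.smul_apply, Measure.restrict_apply (hA.prod hC), smul_eq_mul]
    congr 2
    ext p; simp [and_assoc]
  have hprob : IsProbabilityMeasure m := by
    constructor
    have := happ univ univ MeasurableSet.univ MeasurableSet.univ
    rw [univ_prod_univ, univ_inter] at this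
    rw [this]
    exact ENNReal.inv_mul_cancel h0 hfin
  refine ⟨⟨m, hprob⟩, ⟨?_, ?_, ?_⟩, ?_⟩
  · intro g
    simp only [ProbabilityMeasure.coe_mk]
    have : IsProbabilityMeasure (m.map (fun p : X × X => (g • p.1, g • p.2))) :=
      Measure.isProbabilityMeasure_map (measurable_diag g).aemeasurable
    refine Measure.ext_prod fun {A C} hA hC => ?_
    rw [Measure.map_apply (measurable_diag g) (hA.prod hC)]
    have h5 : ((fun p : X × X => (g • p.1, g • p.2)) ⁻¹' A ×ˢ C)
        = ((fun x : X => g • x) ⁻¹' A) ×ˢ ((fun x : X => g • x) ⁻¹' C) := by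
      ext p; simp
    rw [h5, happ _ _ (hA.preimage (measurable_smul' g)) (hC.preimage (measurable_smul' g)),
      happ _ _ hA hC]
    congr 1
    conv_rhs => rw [← hj.inv g]
    rw [Measure.map_apply (measurable_diag g) (hA.prod (hC.inter hB))]
    congr 1
    ext p
    have hpB : p.2 ∈ B ↔ g • p.2 ∈ B := by
      conv_lhs => rw [← hi g]
      rfl
    simp only [mem_prod, mem_preimage, mem_inter_iff, hpB]
  · simp only [ProbabilityMeasure.coe_mk]
    ext A hA
    rw [Measure.map_apply measurable_fst hA]
    have h5 : (Prod.fst ⁻¹' A : Set (X × X)) = A ×ˢ univ := by ext p; simp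
    rw [h5, happ A univ hA MeasurableSet.univ, univ_inter, hind A hA, mul_comm (μ A), ← mul_assoc,
      ENNReal.inv_mul_cancel h0 hfin, one_mul]
  · intro A hA C hC
    simp only [ProbabilityMeasure.coe_mk]
    rw [happ A C hA.1 hC, happ univ C MeasurableSet.univ hC, h3 A hA (C ∩ B) (hC.inter hB)]
    ring
  · intro φ
    simp only [ProbabilityMeasure.coe_mk]
    rw [hm, integral_smul_measure, ENNReal.toReal_inv, smul_eq_mul, ← mul_assoc, Measure.real,
      ← hc, mul_inv_cancel₀, one_mul]
    exact (ENNReal.toReal_ne_zero).2 ⟨h0, hfin⟩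

theorem extreme_ergodic {lam : ProbabilityMeasure (X × X)} (hl : lam ∈ good G μ)
    (hext : fnl (lam : Measure (X × X)) ∈ (goodF G μ).extremePoints ℝ) :
    ErgodicSystem G ((lam : Measure (X × X)).map Prod.snd) := by
  intro B hB hi
  by_contra hne
  push Not at hne
  obtain ⟨hn0, hn1⟩ := hne
  set L : Measure (X × X) := (lam : Measure (X × X)) with hL
  have hpr : IsProbabilityMeasure (L.map Prod.snd) :=
    Measure.isProbabilityMeasure_map measurable_snd.aemeasurable
  have hνB : ∀ C, MeasurableSet C → L.map Prod.snd C = L (univ ×ˢ C) := by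
    intro C hC
    rw [Measure.map_apply measurable_snd hC]
    congr 1
    ext p; simp
  have hiC : ∀ g : G, (fun y : X => g • y) ⁻¹' Bᶜ = Bᶜ := by
    intro g
    rw [preimage_compl, hi g]
  have hBc : L.map Prod.snd Bᶜ ≠ 0 := by
    intro h
    exact hn1 ((prob_compl_eq_zero_iff hB).1 h)
  obtain ⟨m, hm, hmφ⟩ := cond_good hl hB hi (by rw [← hL, ← hνB B hB]; exact hn0)
  obtain ⟨n, hn, hnφ⟩ := cond_good hl hB.compl hiC (by rw [← hL, ← hνB _ hB.compl]; exact hBc)
  rw [← hL] at hmφ hnφ
  set a := L.real (univ ×ˢ B) with ha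
  set b := L.real (univ ×ˢ Bᶜ) with hb
  have hapos : 0 < a := by
    rw [ha, Measure.real, ← hνB B hB]
    exact ENNReal.toReal_pos hn0 (measure_ne_top _ _)
  have hbpos : 0 < b := by
    rw [hb, Measure.real, ← hνB _ hB.compl]
    exact ENNReal.toReal_pos hBc (measure_ne_top _ _)
  have hcompl : (univ ×ˢ Bᶜ : Set (X × X)) = (univ ×ˢ B)ᶜ := by
    ext p; simp
  have hab : a + b = 1 := by
    rw [ha, hb, hcompl]
    exact probReal_add_probReal_compl (MeasurableSet.univ.prod hB)
  have hsplit : a • fnl (m : Measure (X × X)) + b • fnl (n : Measure (X × X)) = fnl L := by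
    funext φ
    simp only [Pi.add_apply, Pi.smul_apply, smul_eq_mul, fnl]
    rw [hmφ φ, hnφ φ, hcompl]
    exact integral_add_compl (MeasurableSet.univ.prod hB) (int_cont L φ)
  have heq : fnl (m : Measure (X × X)) = fnl L := by
    have h1 := (mem_extremePoints.1 hext).2 (fnl (m : Measure (X × X))) ⟨m, hm, rfl⟩
      (fnl (n : Measure (X × X))) ⟨n, hn, rfl⟩ ⟨a, b, hapos, hbpos, hab, hsplit⟩
    exact h1.1
  have hmL : (m : Measure (X × X)) = L := by
    refine meas_ext _ _ fun φ => ?_
    exact congrFun heq φ
  -- so conditioning on `B` does not change the measure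
  have hres : ∀ φ : C(X × X, ℝ), ∫ p, φ p ∂(ENNReal.ofReal a • L) =
      ∫ p, φ p ∂(L.restrict (univ ×ˢ B)) := by
    intro φ
    rw [← hmφ φ, integral_smul_measure, ENNReal.toReal_ofReal hapos.le, hmL, smul_eq_mul]
  have hfin : IsFiniteMeasure (ENNReal.ofReal a • L) := Measure.smul_finite _ ENNReal.ofReal_ne_top
  have hmeq := meas_ext _ _ hres
  have h2 := congrArg (fun m : Measure (X × X) => m (univ ×ˢ Bᶜ)) hmeq
  simp only [Measure.smul_apply, smul_eq_mul] at h2
  rw [Measure.restrict_apply (MeasurableSet.univ.prod hB.compl)] at h2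
  have h3 : (univ ×ˢ Bᶜ ∩ univ ×ˢ B : Set (X × X)) = ∅ := by
    ext p; simp
  rw [h3, measure_empty] at h2
  rcases mul_eq_zero.1 h2 with h4 | h4
  · rw [ENNReal.ofReal_eq_zero] at h4
    linarith
  · rw [← hνB _ hB.compl] at h4
    exact hBc h4

/-- the set of functionals which are tensor products with `μ` -/
def prodF (μ : Measure X) : Set (C(X × X, ℝ) → ℝ) :=
  {F | ∀ f h : C(X, ℝ), F (tens f h) = (∫ x, f x ∂μ) * F (tens 1 h)}

theorem prodF_closed : IsClosed (prodF μ) := by
  have : prodF μ = ⋂ f : C(X, ℝ), ⋂ h : C(X, ℝ), {F : C(X × X, ℝ) → ℝ |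
      F (tens f h) = (∫ x, f x ∂μ) * F (tens 1 h)} := by
    ext F; simp [prodF]
  rw [this]
  refine isClosed_iInter fun f => isClosed_iInter fun h => isClosed_eq (continuous_apply _) ?_
  exact continuous_const.mul (continuous_apply _)

theorem prodF_convex : Convex ℝ (prodF μ) := by
  intro F hF F' hF' a b _ _ _ f h
  simp only [Pi.add_apply, Pi.smul_apply, smul_eq_mul]
  rw [hF f h, hF' f h]
  ring

theorem ergodic_to_self
    (herg : ∀ ν : Measure X, [IsProbabilityMeasure ν] → [SMulInvariantMeasure G X ν] →
      ErgodicSystem G ν → QuasiDisjoint G μ ν) : QuasiDisjoint G μ μ := by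
  intro lam hj hk
  have hprob := joining_prob hj
  set l : ProbabilityMeasure (X × X) := ⟨lam, hprob⟩ with hl
  have hlgood : l ∈ good G μ := by
    refine ⟨hj.inv, hj.fst, ?_⟩
    intro A hA B hB
    have h1 := key hj hk hA hB
    have h2 := joining_snd_apply hj hB
    simp only [hl, ProbabilityMeasure.coe_mk]
    rw [h1, h2]
  have hsub : (goodF G μ).extremePoints ℝ ⊆ prodF μ := by
    intro F hF
    obtain ⟨m, hm, rfl⟩ := hF.1
    have herg' := extreme_ergodic hm hF
    set M : Measure (X × X) := (m : Measure (X × X)) with hM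
    have hpr : IsProbabilityMeasure (M.map Prod.snd) :=
      Measure.isProbabilityMeasure_map measurable_snd.aemeasurable
    have hinv : SMulInvariantMeasure G X (M.map Prod.snd) := snd_inv hm.1
    have hj' : IsJoining G μ (M.map Prod.snd) M := ⟨hm.2.1, rfl, hm.1⟩
    have hprod : M = μ.prod (M.map Prod.snd) := by
      refine herg (M.map Prod.snd) herg' M hj' ?_
      intro A B hA hB
      rw [← joining_snd_apply hj' hB.1]
      exact hm.2.2 A hA B hB.1
    intro f h
    simp only [fnl]
    rw [← hM, hprod]
    simp only [tens, ContinuousMap.coe_mk, ContinuousMap.one_apply]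
    rw [integral_prod_mul (fun x => f x) (fun y => h y),
      integral_prod_mul (fun _ => (1 : ℝ)) (fun y => h y)]
    simp
  have hKM := closure_convexHull_extremePoints (goodF_compact (G := G) (μ := μ)) goodF_convex
  have hall : goodF G μ ⊆ prodF μ := by
    rw [← hKM]
    exact closure_minimal (convexHull_min hsub prodF_convex) prodF_closed
  have hlF : fnl lam ∈ prodF μ := hall ⟨l, hlgood, rfl⟩
  refine Measure.ext_of_integral_mul_boundedContinuousFunction fun f h => ?_
  have h1 := hlF f.toContinuousMap h.toContinuousMap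
  simp only [fnl, tens, ContinuousMap.coe_mk, ContinuousMap.one_apply, one_mul] at h1
  rw [integral_prod_mul (fun x => f x) (fun y => h y)]
  have h2 : ∫ p, h p.2 ∂lam = ∫ x, h x ∂μ := by
    conv_rhs => rw [← hj.snd]
    rw [integral_map measurable_snd.aemeasurable h.continuous.aestronglyMeasurable]
  rw [← h2]
  exact h1

end Q70.QDisj
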