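import Pool.Agent.Q70.UeA

/-!
# Average shadowing, almost specification and the measure center: definitions;
the almost specification property passes to closed invariant sets containing the measure center
-/

set_option autoImplicit false

open MeasureTheory Set Filter Topology
open scoped ENNReal NNReal

namespace Q70.Sh

/-- The measure center of `f`: the complement of the union of all open sets which are null for all
`f`-invariant Borel probability measures. -/
def measureCenter {X : Type*} [TopologicalSpace X] [MeasurableSpace X] (f : X → X) : Set X :=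
  (⋃₀ {U : Set X | IsOpen U ∧ ∀ μ : Measure X, IsProbabilityMeasure μ →
    MeasurePreserving f μ μ → μ U = 0})ᶜ

/-- `x` is a `δ`-average-pseudo-orbit of `f`. -/
def AvgPseudo {X : Type*} [Dist X] (f : X → X) (δ : ℝ) (x : ℕ → X) : Prop :=
  ∃ N : ℕ, ∀ n ≥ N, ∀ k : ℕ,
    (∑ i ∈ Finset.range n, dist (f (x (i + k))) (x (i + k + 1))) / n < δ

/-- The average shadowing property. -/
def ASP {X : Type*} [Dist X] (f : X → X) : Prop :=
  ∀ ε > 0, ∃ δ > 0, ∀ x : ℕ → X, AvgPseudo f δ x →
    ∃ y : X, limsup (fun n : ℕ => (∑ i ∈ Finset.range n, dist (f^[i] y) (x i)) / n) atTop < ε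

/-- The asymptotic average shadowing property. -/
def AASP {X : Type*} [Dist X] (f : X → X) : Prop :=
  ∀ x : ℕ → X,
    Tendsto (fun n : ℕ => (∑ i ∈ Finset.range n, dist (f (x i)) (x (i + 1))) / n) atTop (𝓝 0) →
    ∃ y : X,
      Tendsto (fun n : ℕ => (∑ i ∈ Finset.range n, dist (f^[i] y) (x i)) / n) atTop (𝓝 0)

/-- `g` is a mistake function with parameter `ε₀`, extended by `g n ε = g n ε₀` for `ε > ε₀`. -/
structure Mistake (g : ℕ → ℝ → ℕ) (ε₀ : ℝ) : Prop where
  pos : 0 < ε₀
  mono : ∀ ε, 0 < ε → ε ≤ ε₀ → ∀ n, 1 ≤ n → g n ε ≤ g (n + 1) ε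
  small : ∀ ε, 0 < ε → ε ≤ ε₀ → Tendsto (fun n : ℕ => (g n ε : ℝ) / n) atTop (𝓝 0)
  ext : ∀ ε, ε₀ < ε → ∀ n, g n ε = g n ε₀

/-- The almost specification property. -/
def AlmostSpec {X : Type*} [Dist X] (f : X → X) : Prop :=
  ∃ (g : ℕ → ℝ → ℕ) (ε₀ : ℝ) (k : ℝ → ℕ), Mistake g ε₀ ∧
    (∀ ε > 0, ∀ n ≥ k ε, g n ε < n) ∧
    ∀ (m : ℕ) (ε : ℕ → ℝ) (x : ℕ → X) (n : ℕ → ℕ), 1 ≤ m →
      (∀ j < m, 0 < ε j ∧ k (ε j) ≤ n j) →
      ∃ z : X, ∀ j < m, ∃ Λ ⊆ Finset.range (n j), n j - g (n j) (ε j) ≤ Λ.card ∧
        ∀ i ∈ Λ, dist (f^[i] (x j)) (f^[i] (f^[∑ a ∈ Finset.range j, n a] z)) < ε j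

section inv

variable {Y : Type*} [TopologicalSpace Y] [CompactSpace Y] [TopologicalSpace.MetrizableSpace Y]
  [MeasurableSpace Y] [BorelSpace Y]

open Q70.Ue

/-- A closed set visited with positive lower frequency is charged by an invariant measure. -/
theorem exists_inv {R : Y → Y} (hR : Continuous R) (y : Y) {E : Set Y} (hE : IsClosed E)
    {c : ℝ≥0∞} (hc : c ≠ 0) (hv : ∀ l, c ≤ emp R y (l + 1) E) :
    ∃ ν : Measure Y, IsProbabilityMeasure ν ∧ MeasurePreserving R ν ν ∧ ν E ≠ 0 := by
  set l : ℕ → ℕ := fun j => j + 1 with hl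
  have hpos : ∀ j, 0 < l j := fun j => Nat.succ_pos j
  set F : ℕ → ProbabilityMeasure Y := fun j => mkP (emp R y (l j)) (emp_prob R y (hpos j))
    with hF
  set g : Ultrafilter ℕ := Filter.hyperfilter ℕ with hgdef
  have hg : (g : Filter ℕ) ≤ atTop := by
    rw [hgdef, ← Nat.cofinite_eq_atTop]
    exact Filter.hyperfilter_le_cofinite
  have hlim : Tendsto F g (𝓝 (g.map F).lim) := (g.map F).le_nhds_lim
  set ν : ProbabilityMeasure Y := (g.map F).lim with hν
  have hφ : ∀ φ : C(Y, ℝ), Tendsto (fun j => (l j : ℝ)⁻¹ * ∑ i ∈ Finset.range (l j),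
      φ (R^[i] y)) g (𝓝 (∫ z, φ z ∂(ν : Measure Y))) := by
    intro φ
    have h1 := (ProbabilityMeasure.continuous_integral_continuousMap (X := Y) φ).tendsto ν
    have h2 := h1.comp hlim
    refine h2.congr fun j => ?_
    exact emp_integral R y (l j) φ
  have hinv : (ν : Measure Y).map R = ν := by
    have hp : IsProbabilityMeasure ((ν : Measure Y).map R) :=
      Measure.isProbabilityMeasure_map hR.measurable.aemeasurable
    refine meas_ext fun φ => ?_
    rw [integral_map hR.measurable.aemeasurable φ.continuous.aestronglyMeasurable]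
    have h1 := hφ φ
    have h2 := hφ (φ.comp ⟨R, hR⟩)
    simp only [ContinuousMap.comp_apply, ContinuousMap.coe_mk] at h2
    have h3 : Tendsto (fun j => (l j : ℝ)⁻¹ * ∑ i ∈ Finset.range (l j), φ (R (R^[i] y)) -
        (l j : ℝ)⁻¹ * ∑ i ∈ Finset.range (l j), φ (R^[i] y)) g (𝓝 0) := by
      have h4 : Tendsto (fun j => 2 * ‖φ‖ / (l j : ℝ)) atTop (𝓝 0) :=
        Tendsto.div_atTop tendsto_const_nhds
          (tendsto_natCast_atTop_atTop.comp (tendsto_add_atTop_nat 1))
      refine squeeze_zero_norm (fun j => ?_) (h4.mono_left hg)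
      rw [← mul_sub, ← Finset.sum_sub_distrib]
      have h5 : ∀ i, R (R^[i] y) = R^[i + 1] y := fun i =>
        (Function.iterate_succ_apply' R i y).symm
      simp_rw [h5]
      rw [Finset.sum_range_sub (fun i => φ (R^[i] y))]
      rw [norm_mul, norm_inv, Real.norm_natCast, div_eq_inv_mul]
      refine mul_le_mul_of_nonneg_left ?_ (by positivity)
      refine (norm_sub_le _ _).trans ?_
      have := φ.norm_coe_le_norm (R^[l j] y)
      have := φ.norm_coe_le_norm (R^[0] y)
      linarith
    have h6 := tendsto_nhds_unique (h2.sub h1) h3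
    linarith
  refine ⟨ν, inferInstance, ⟨hR.measurable, hinv⟩, ?_⟩
  have h1 := ProbabilityMeasure.limsup_measure_closed_le_of_tendsto hlim hE
  have h2 : c ≤ limsup (fun j => (F j : Measure Y) E) g := by
    refine le_limsup_of_frequently_le (Eventually.frequently ?_)
    exact Eventually.of_forall fun j => hv j
  intro h0
  rw [h0] at h1
  exact hc (le_antisymm (h2.trans h1) bot_le)

end inv

/-- a compact set avoiding the measure center is null for all invariant measures -/
theorem null_of_compact {X : Type*} [TopologicalSpace X] [MeasurableSpace X] {f : X → X}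
    {E : Set X} (hE : IsCompact E) (h : Disjoint E (measureCenter f)) (μ : Measure X)
    (hμ : IsProbabilityMeasure μ) (hf : MeasurePreserving f μ μ) : μ E = 0 := by
  have h1 : E ⊆ ⋃₀ {U : Set X | IsOpen U ∧ ∀ μ : Measure X, IsProbabilityMeasure μ →
      MeasurePreserving f μ μ → μ U = 0} := by
    intro x hx
    by_contra hno
    exact (disjoint_left.1 h hx) hno
  rw [sUnion_eq_iUnion] at h1
  obtain ⟨t, hcov⟩ := hE.elim_finite_subcover _ (fun U => U.2.1) h1
  refine measure_mono_null hcov ?_
  refine le_antisymm ((measure_biUnion_finset_le t _).trans_eq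
    (Finset.sum_eq_zero fun U _ => ?_)) bot_le
  exact U.2.2 μ hμ hf

theorem sum_periodic (n : ℕ → ℕ) {m : ℕ} (hm : 1 ≤ m) (b j : ℕ) (hj : j ≤ m) :
    ∑ a ∈ Finset.range (b * m + j), n (a % m) =
      b * (∑ a ∈ Finset.range m, n a) + ∑ a ∈ Finset.range j, n a := by
  induction b generalizing j with
  | zero =>
    simp only [zero_mul, zero_add]
    refine Finset.sum_congr rfl fun a ha => ?_
    rw [Nat.mod_eq_of_lt (lt_of_lt_of_le (Finset.mem_range.1 ha) hj)]
  | succ b ih =>
    have h1 : (b + 1) * m + j = (b * m + m) + j := by ring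
    rw [h1, Finset.sum_range_add, ih m le_rfl]
    have h2 : ∀ a ∈ Finset.range j, n ((b * m + m + a) % m) = n a := by
      intro a ha
      congr 1
      have : b * m + m + a = a + (b + 1) * m := by ring
      rw [this, Nat.add_mul_mod_self_right]
      exact Nat.mod_eq_of_lt (lt_of_lt_of_le (Finset.mem_range.1 ha) hj)
    rw [Finset.sum_congr rfl h2]
    ring

open Classical in
/-- The almost specification property passes to closed invariant sets containing the measure
center. -/
theorem almostSpec_restrict {X : Type*} [MetricSpace X] [CompactSpace X] [MeasurableSpace X]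
    [BorelSpace X] {f : X → X} (hf : Continuous f) {A : Set X} (hA : IsClosed A)
    (hfA : MapsTo f A A) (hM : measureCenter f ⊆ A) (h : AlmostSpec f) :
    AlmostSpec (hfA.restrict f A A) := by
  obtain ⟨g, ε₀, k, hg, hk, hspec⟩ := h
  refine ⟨fun n ε => g n (ε / 2), 2 * ε₀, fun ε => k (ε / 2), ?_, ?_, ?_⟩
  · refine ⟨by linarith [hg.pos], ?_, ?_, ?_⟩
    · intro ε h1 h2 n hn
      exact hg.mono _ (by linarith) (by linarith) n hn
    · intro ε h1 h2
      exact hg.small _ (by linarith) (by linarith)
    · intro ε h1 n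
      have h2 : 2 * ε₀ / 2 = ε₀ := by ring
      change g n (ε / 2) = g n (2 * ε₀ / 2)
      rw [h2]
      exact hg.ext _ (by linarith) n
  · intro ε hε n hn
    exact hk _ (by linarith) n hn
  intro m ε x n hm hcond
  set N : ℕ := ∑ a ∈ Finset.range m, n a with hN
  have hn1 : ∀ j < m, 1 ≤ n j := by
    intro j hj
    have h1 := hk (ε j / 2) (by linarith [(hcond j hj).1]) (n j) (hcond j hj).2
    omega
  have hNpos : 0 < N := by
    have h1 : n 0 ≤ N := Finset.single_le_sum (f := n) (fun _ _ => Nat.zero_le _)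
      (Finset.mem_range.2 (by omega))
    have := hn1 0 (by omega)
    omega
  set E : Set X := {y | ∀ j < m, ∃ Λ ⊆ Finset.range (n j), n j - g (n j) (ε j / 2) ≤ Λ.card ∧
    ∀ i ∈ Λ, dist (f^[i] (x j : X)) (f^[i] (f^[∑ a ∈ Finset.range j, n a] y)) ≤ ε j / 2} with hEdef
  have hEc : IsClosed E := by
    have h1 : E = ⋂ j ∈ Finset.range m, ⋃ Λ ∈ ((Finset.range (n j)).powerset.filter
        fun Λ => n j - g (n j) (ε j / 2) ≤ Λ.card), ⋂ i ∈ Λ,
        {y : X | dist (f^[i] (x j : X)) (f^[i] (f^[∑ a ∈ Finset.range j, n a] y)) ≤ ε j / 2} := by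
      ext y
      simp only [hEdef, Set.mem_ofPred_eq, mem_iInter, Finset.mem_range, mem_iUnion,
        Finset.mem_filter, Finset.mem_powerset, exists_prop]
      constructor
      · intro h j hj
        obtain ⟨Λ, h2, h3, h4⟩ := h j hj
        exact ⟨Λ, ⟨h2, h3⟩, h4⟩
      · intro h j hj
        obtain ⟨Λ, ⟨h2, h3⟩, h4⟩ := h j hj
        exact ⟨Λ, h2, h3, h4⟩
    rw [h1]
    refine isClosed_biInter fun j _ => ?_
    refine (Finset.finite_toSet _).isClosed_biUnion fun Λ _ => ?_
    refine isClosed_biInter fun i _ => ?_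
    exact isClosed_le (continuous_const.dist
      ((hf.iterate i).comp (hf.iterate _))) continuous_const
  have hr : ∀ r : ℕ, 1 ≤ r → ∃ z : X, ∀ b < r, f^[b * N] z ∈ E := by
    intro r hr
    obtain ⟨z, hz⟩ := hspec (r * m) (fun j => ε (j % m) / 2) (fun j => (x (j % m) : X))
      (fun j => n (j % m)) (by nlinarith) (fun j _ => by
        have h1 := hcond (j % m) (Nat.mod_lt _ (by omega))
        exact ⟨by linarith [h1.1], h1.2⟩)
    refine ⟨z, fun b hb j hj => ?_⟩
    have hlt : b * m + j < r * m := by nlinarith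
    obtain ⟨Λ, h2, h3, h4⟩ := hz (b * m + j) hlt
    have hmod : (b * m + j) % m = j := by
      rw [Nat.mul_comm, Nat.mul_add_mod]
      exact Nat.mod_eq_of_lt hj
    simp only [hmod] at h2 h3 h4
    refine ⟨Λ, h2, h3, fun i hi => ?_⟩
    have h5 := h4 i hi
    rw [sum_periodic n hm b j hj.le, Nat.add_comm, Function.iterate_add_apply] at h5
    exact h5.le
  -- a point whose orbit stays in `E` along multiples of `N`
  obtain ⟨z, hz⟩ : ∃ z : X, ∀ b, f^[b * N] z ∈ E := by
    have h1 : (⋂ r : ℕ, {z : X | ∀ b < r + 1, f^[b * N] z ∈ E}).Nonempty := by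
      refine IsCompact.nonempty_iInter_of_sequence_nonempty_isCompact_isClosed _ ?_ ?_ ?_ ?_
      · intro r z hz b hb
        exact hz b (by omega)
      · intro r
        exact hr (r + 1) (by omega)
      · refine IsClosed.isCompact ?_
        have : {z : X | ∀ b < 0 + 1, f^[b * N] z ∈ E} = ⋂ b, ⋂ (_ : b < 0 + 1), f^[b * N] ⁻¹' E := by
          ext z; simp
        rw [this]
        exact isClosed_iInter fun b => isClosed_iInter fun _ => hEc.preimage (hf.iterate _)
      · intro r
        have : {z : X | ∀ b < r + 1, f^[b * N] z ∈ E} = ⋂ b, ⋂ (_ : b < r + 1), f^[b * N] ⁻¹' E := by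
          ext z; simp
        rw [this]
        exact isClosed_iInter fun b => isClosed_iInter fun _ => hEc.preimage (hf.iterate _)
    obtain ⟨z, hz⟩ := h1
    exact ⟨z, fun b => mem_iInter.1 hz b b (by omega)⟩
  by_cases hEA : (E ∩ A).Nonempty
  · obtain ⟨y, hyE, hyA⟩ := hEA
    refine ⟨⟨y, hyA⟩, fun j hj => ?_⟩
    obtain ⟨Λ, h2, h3, h4⟩ := hyE j hj
    refine ⟨Λ, h2, h3, fun i hi => ?_⟩
    have h5 := h4 i hi
    rw [Subtype.dist_eq, ← Function.iterate_add_apply, hfA.coe_iterate_restrict,
      hfA.coe_iterate_restrict, Function.iterate_add_apply]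
    have := (hcond j hj).1
    linarith
  · exfalso
    have hdisj : Disjoint E (measureCenter f) := by
      rw [disjoint_left]
      intro y hy hyM
      exact hEA ⟨y, hy, hM hyM⟩
    obtain ⟨ν, hν, hνf, hνE⟩ := exists_inv hf z hEc (c := ((2 * N : ℕ) : ℝ≥0∞)⁻¹)
      (ENNReal.inv_ne_zero.2 (ENNReal.natCast_ne_top _)) (fun l => by
        rw [Q70.Ue.emp_apply f z (l + 1) hEc.measurableSet]
        have h1 : (l + 1) / N + (if (l + 1) % N = 0 then 0 else 1) ≤
            ((Finset.range (l + 1)).filter fun i => f^[i] z ∈ E).card := by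
          have h2 : ((Finset.range ((l + 1) / N + (if (l + 1) % N = 0 then 0 else 1))).image
              (fun b => b * N)) ⊆ (Finset.range (l + 1)).filter fun i => f^[i] z ∈ E := by
            intro i hi
            obtain ⟨b, hb, rfl⟩ := Finset.mem_image.1 hi
            rw [Finset.mem_filter, Finset.mem_range]
            refine ⟨?_, hz b⟩
            rw [Finset.mem_range] at hb
            have h3 := Nat.div_add_mod (l + 1) N
            have h4 := Nat.mod_lt (l + 1) hNpos
            split_ifs at hb with h5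
            · nlinarith
            · have h6 : b ≤ (l + 1) / N := by omega
              have h7 : b * N ≤ (l + 1) / N * N := Nat.mul_le_mul_right _ h6
              have h8 : 0 < (l + 1) % N := Nat.pos_of_ne_zero h5
              nlinarith
          have h3 := Finset.card_le_card h2
          rwa [Finset.card_image_of_injective _
            (fun a b hab => Nat.eq_of_mul_eq_mul_right hNpos hab), Finset.card_range] at h3
        have h9 : l + 1 ≤ 2 * N *
            ((Finset.range (l + 1)).filter fun i => f^[i] z ∈ E).card := by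
          refine le_trans ?_ (Nat.mul_le_mul_left _ h1)
          have h3 := Nat.div_add_mod (l + 1) N
          have h4 := Nat.mod_lt (l + 1) hNpos
          split_ifs with h5
          · nlinarith
          · nlinarith
        rw [← ENNReal.div_eq_inv_mul, ENNReal.le_div_iff_mul_le
          (Or.inl (by exact_mod_cast (Nat.succ_ne_zero l)))
          (Or.inl (ENNReal.natCast_ne_top _)), ← ENNReal.div_eq_inv_mul]
        refine ENNReal.div_le_of_le_mul' ?_
        have h10 := h9
        norm_cast
        convert h10)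
    exact hνE (null_of_compact hEc.isCompact hdisj ν hν hνf)

end Q70.Sh
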