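import Mathlib

/-!
# The doubling-run sequence and the subshifts `Xs ⊇ As`
-/

set_option autoImplicit false

open Set Filter Topology

namespace Q70.Sh

/-- The doubling-run sequence: `W j` is the parity of `⌊log₂ (j + 1)⌋`. -/
def W (j : ℕ) : Fin 3 := if Nat.log 2 (j + 1) % 2 = 0 then 0 else 1

/-- The number of disagreements of `x` (from position `p` on) with `W` in a window of length `k`. -/
def err (x : ℕ → Fin 3) (p k : ℕ) : ℕ := ((Finset.range k).filter fun j => x (p + j) ≠ W j).card

/-- The scales. -/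
def NN (i : ℕ) : ℕ := 2 ^ (i ^ 2 + 4)

/-- `x` looks like `W` from position `p` on, in the range of scales from `NN i` to
`NN (i + 1)`. -/
def Occ (i : ℕ) (x : ℕ → Fin 3) (p : ℕ) : Prop :=
  ∀ k, NN i ≤ k → k ≤ NN (i + 1) → 64 * err x p k < k

/-- The allowed diameter of the set of occurrences. -/
def BB (i : ℕ) : ℕ := 2 ^ i * NN i

/-- The points all of whose occurrence sets of level `i` have diameter at most `BB i`. -/
def Xs : Set (ℕ → Fin 3) := {x | ∀ i p p', p < p' → Occ i x p → Occ i x p' → p' ≤ p + BB i}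

/-- The points without any occurrence. -/
def As : Set (ℕ → Fin 3) := {x | ∀ i p, ¬ Occ i x p}

/-- The shift. -/
def sh (x : ℕ → Fin 3) : ℕ → Fin 3 := fun n => x (n + 1)

theorem As_sub_Xs : As ⊆ Xs := fun x hx i p p' _ h _ => absurd h (hx i p)

theorem W_eq {a j : ℕ} (h1 : 2 ^ a ≤ j + 1) (h2 : j + 1 < 2 ^ (a + 1)) :
    W j = if a % 2 = 0 then 0 else 1 := by
  unfold W
  rw [Nat.log_eq_of_pow_le_of_lt_pow h1 h2]

theorem W_ne_two (j : ℕ) : W j ≠ 2 := by
  unfold W
  split_ifs <;> decide

theorem par_ne {a b : ℕ} (h : a % 2 ≠ b % 2) :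
    (if a % 2 = 0 then (0 : Fin 3) else 1) ≠ (if b % 2 = 0 then (0 : Fin 3) else 1) := by
  have h1 := Nat.mod_two_eq_zero_or_one a
  have h2 := Nat.mod_two_eq_zero_or_one b
  rcases h1 with h1 | h1 <;> rcases h2 with h2 | h2 <;> simp_all

theorem exists_log {d : ℕ} (hd : 15 ≤ d) :
    ∃ K : ℕ, 2 ^ (K + 3) ≤ d + 1 ∧ d + 1 < 2 ^ (K + 4) := by
  have h1 : 3 ≤ Nat.log 2 (d + 1) := by
    have h2 : 2 ^ 3 ≤ d + 1 := by omega
    exact (Nat.le_log_iff_pow_le (by norm_num) (by omega)).2 h2
  refine ⟨Nat.log 2 (d + 1) - 3, ?_, ?_⟩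
  · rw [Nat.sub_add_cancel h1]
    exact Nat.pow_log_le_self 2 (by omega)
  · have h3 : Nat.log 2 (d + 1) - 3 + 4 = Nat.log 2 (d + 1) + 1 := by omega
    rw [h3]
    exact Nat.lt_pow_succ_log_self (by norm_num) _

theorem W_shift {d : ℕ} (hd : 15 ≤ d) :
    d ≤ 16 * ((Finset.range d).filter fun j => W (d + j) ≠ W j).card := by
  obtain ⟨K, h1, h2⟩ := exists_log hd
  have e1 : 2 ^ (K + 1) = 2 * 2 ^ K := by ring
  have e2 : 2 ^ (K + 2) = 4 * 2 ^ K := by ring
  have e3 : 2 ^ (K + 3) = 8 * 2 ^ K := by ring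
  have e4 : 2 ^ (K + 4) = 16 * 2 ^ K := by ring
  have e5 : 2 ^ (K + 5) = 32 * 2 ^ K := by ring
  have hpos : 0 < 2 ^ K := by positivity
  rw [e3] at h1
  rw [e4] at h2
  by_cases hb : d + 2 * 2 ^ K ≤ 16 * 2 ^ K
  · have h3 : Finset.Ico (2 ^ K - 1) (2 * 2 ^ K - 1) ⊆
        (Finset.range d).filter fun j => W (d + j) ≠ W j := by
      intro j hj
      rw [Finset.mem_Ico] at hj
      rw [Finset.mem_filter, Finset.mem_range]
      refine ⟨by omega, ?_⟩
      rw [W_eq (a := K) (j := j) (by omega) (by rw [e1]; omega),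
        W_eq (a := K + 3) (j := d + j) (by rw [e3]; omega) (by rw [e4]; omega)]
      exact par_ne (by omega)
    have h4 := Finset.card_le_card h3
    rw [Nat.card_Ico] at h4
    omega
  · have h3 : Finset.Ico (2 * 2 ^ K - 1) (4 * 2 ^ K - 1) ⊆
        (Finset.range d).filter fun j => W (d + j) ≠ W j := by
      intro j hj
      rw [Finset.mem_Ico] at hj
      rw [Finset.mem_filter, Finset.mem_range]
      refine ⟨by omega, ?_⟩
      rw [W_eq (a := K + 1) (j := j) (by rw [e1]; omega) (by rw [e2]; omega),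
        W_eq (a := K + 4) (j := d + j) (by rw [e4]; omega) (by rw [e5]; omega)]
      exact par_ne (by omega)
    have h4 := Finset.card_le_card h3
    rw [Nat.card_Ico] at h4
    omega

theorem W_const (a : Fin 3) {d : ℕ} (hd : 15 ≤ d) :
    d ≤ 16 * ((Finset.range d).filter fun j => a ≠ W j).card := by
  obtain ⟨K, h1, h2⟩ := exists_log hd
  have e1 : 2 ^ (K + 1) = 2 * 2 ^ K := by ring
  have e2 : 2 ^ (K + 2) = 4 * 2 ^ K := by ring
  have e3 : 2 ^ (K + 3) = 8 * 2 ^ K := by ring
  have e4 : 2 ^ (K + 4) = 16 * 2 ^ K := by ring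
  have hpos : 0 < 2 ^ K := by positivity
  rw [e3] at h1
  rw [e4] at h2
  by_cases hb : a = if (K + 1) % 2 = 0 then 0 else 1
  · have h3 : Finset.Ico (2 ^ K - 1) (2 * 2 ^ K - 1) ⊆
        (Finset.range d).filter fun j => a ≠ W j := by
      intro j hj
      rw [Finset.mem_Ico] at hj
      rw [Finset.mem_filter, Finset.mem_range]
      refine ⟨by omega, ?_⟩
      rw [W_eq (a := K) (j := j) (by omega) (by rw [e1]; omega), hb]
      exact par_ne (by omega)
    have h4 := Finset.card_le_card h3
    rw [Nat.card_Ico] at h4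
    omega
  · have h3 : Finset.Ico (2 * 2 ^ K - 1) (4 * 2 ^ K - 1) ⊆
        (Finset.range d).filter fun j => a ≠ W j := by
      intro j hj
      rw [Finset.mem_Ico] at hj
      rw [Finset.mem_filter, Finset.mem_range]
      refine ⟨by omega, ?_⟩
      rw [W_eq (a := K + 1) (j := j) (by rw [e1]; omega) (by rw [e2]; omega)]
      exact hb
    have h4 := Finset.card_le_card h3
    rw [Nat.card_Ico] at h4
    omega

theorem NN_ge (i : ℕ) : 16 ≤ NN i := by
  unfold NN
  rw [pow_add]
  have : 1 ≤ 2 ^ i ^ 2 := Nat.one_le_two_pow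
  omega

theorem NN_succ (i : ℕ) : NN (i + 1) = 2 * (2 ^ i * (2 ^ i * NN i)) := by
  unfold NN
  ring

theorem NN_le (i : ℕ) : NN i ≤ NN (i + 1) :=
  Nat.pow_le_pow_right (by norm_num) (by
    have := Nat.pow_le_pow_left (Nat.le_succ i) 2
    simp only [Nat.succ_eq_add_one] at this
    omega)

/-- the constant sequences belong to `As` -/
theorem const_mem (a : Fin 3) : (fun _ => a) ∈ As := by
  intro i p h
  have h1 := h (NN i) le_rfl (NN_le i)
  have h3 := W_const a (d := NN i) (by have := NN_ge i; omega)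
  unfold err at h1
  change 64 * ((Finset.range (NN i)).filter fun j => a ≠ W j).card < NN i at h1
  omega

/-- two occurrences are close or far apart -/
theorem cluster {i : ℕ} {x : ℕ → Fin 3} {p d : ℕ} (h1 : Occ i x p) (h2 : Occ i x (p + d))
    (hd1 : NN i ≤ d) (hd2 : 2 * d ≤ NN (i + 1)) : False := by
  have h3 := h1 (2 * d) (by omega) hd2
  have h4 := h2 d hd1 (by omega)
  have h5 := W_shift (d := d) (by have := NN_ge i; omega)
  have h6 : ((Finset.range d).filter fun j => W (d + j) ≠ W j).card ≤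
      err x p (2 * d) + err x (p + d) d := by
    have h7 : ((Finset.range d).filter fun j => W (d + j) ≠ W j) ⊆
        ((Finset.range d).filter fun j => x (p + (d + j)) ≠ W (d + j)) ∪
          ((Finset.range d).filter fun j => x (p + d + j) ≠ W j) := by
      intro j hj
      rw [Finset.mem_filter] at hj
      rw [Finset.mem_union, Finset.mem_filter, Finset.mem_filter]
      by_cases h8 : x (p + (d + j)) = W (d + j)
      · right
        refine ⟨hj.1, ?_⟩
        rw [add_assoc, h8]
        exact hj.2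
      · left
        exact ⟨hj.1, h8⟩
    refine (Finset.card_le_card h7).trans ((Finset.card_union_le _ _).trans ?_)
    refine Nat.add_le_add ?_ le_rfl
    unfold err
    rw [← Finset.card_image_of_injective _ (add_right_injective d)]
    refine Finset.card_le_card ?_
    intro o ho
    obtain ⟨j, hj, rfl⟩ := Finset.mem_image.1 ho
    rw [Finset.mem_filter, Finset.mem_range] at hj ⊢
    exact ⟨by omega, hj.2⟩
  omega

theorem err_sh (x : ℕ → Fin 3) (p k : ℕ) : err (sh x) p k = err x (p + 1) k := by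
  unfold err sh
  congr 1
  refine Finset.filter_congr fun j _ => ?_
  have : p + j + 1 = p + 1 + j := by ring
  rw [this]

theorem Occ_sh (i : ℕ) (x : ℕ → Fin 3) (p : ℕ) : Occ i (sh x) p ↔ Occ i x (p + 1) := by
  unfold Occ
  simp_rw [err_sh]

theorem sh_Xs : MapsTo sh Xs Xs := by
  intro x hx i p p' hp h1 h2
  rw [Occ_sh] at h1 h2
  have := hx i (p + 1) (p' + 1) (by omega) h1 h2
  omega

theorem sh_As : MapsTo sh As As := by
  intro x hx i p h
  rw [Occ_sh] at h
  exact hx i (p + 1) h

theorem sh_iter (n : ℕ) (x : ℕ → Fin 3) : sh^[n] x = fun m => x (m + n) := by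
  induction n with
  | zero => rfl
  | succ n ih =>
    rw [Function.iterate_succ_apply', ih]
    funext m
    simp only [sh]
    congr 1
    ring

theorem Occ_iter (i n : ℕ) (x : ℕ → Fin 3) (p : ℕ) :
    Occ i (sh^[n] x) p ↔ Occ i x (p + n) := by
  induction n generalizing p with
  | zero => rfl
  | succ n ih =>
    rw [Function.iterate_succ_apply', Occ_sh, ih]
    have : p + 1 + n = p + (n + 1) := by ring
    rw [this]

theorem continuous_sh : Continuous sh := continuous_pi fun n => continuous_apply (n + 1)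

theorem continuous_err (p k : ℕ) : Continuous fun x : ℕ → Fin 3 => err x p k := by
  unfold err
  simp_rw [Finset.card_filter]
  refine continuous_finsetSum _ fun j _ => ?_
  exact (continuous_of_discreteTopology (f := fun c : Fin 3 => if c ≠ W j then 1 else 0)).comp
    (continuous_apply (p + j))

theorem isClopen_Occ (i p : ℕ) : IsClopen {x : ℕ → Fin 3 | Occ i x p} := by
  have h1 : {x : ℕ → Fin 3 | Occ i x p} = ⋂ k ∈ Finset.Icc (NN i) (NN (i + 1)),
      {x : ℕ → Fin 3 | 64 * err x p k < k} := by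
    ext x
    simp only [Occ, Finset.mem_Icc, mem_iInter, Set.mem_ofPred_eq, and_imp]
  rw [h1]
  refine isClopen_biInter_finset fun k _ => ?_
  exact (isClopen_discrete {m : ℕ | 64 * m < k}).preimage (continuous_err p k)

theorem isClosed_Xs : IsClosed Xs := by
  have h1 : Xs = ⋂ i, ⋂ p, ⋂ p', ⋂ (_ : p < p' ∧ ¬ p' ≤ p + BB i),
      ({x : ℕ → Fin 3 | Occ i x p}ᶜ ∪ {x : ℕ → Fin 3 | Occ i x p'}ᶜ) := by
    ext x
    simp only [Xs, Set.mem_ofPred_eq, mem_iInter, mem_union, mem_compl_iff]
    constructor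
    · intro h i p p' hp
      by_contra hno
      push Not at hno
      exact hp.2 (h i p p' hp.1 hno.1 hno.2)
    · intro h i p p' hp h1 h2
      by_contra hno
      rcases h i p p' ⟨hp, hno⟩ with h3 | h3
      · exact h3 h1
      · exact h3 h2
  rw [h1]
  refine isClosed_iInter fun i => isClosed_iInter fun p => isClosed_iInter fun p' =>
    isClosed_iInter fun _ => ?_
  exact (isClopen_Occ i p).compl.isClosed.union (isClopen_Occ i p').compl.isClosed

theorem isClosed_As : IsClosed As := by
  have h1 : As = ⋂ i, ⋂ p, {x : ℕ → Fin 3 | Occ i x p}ᶜ := by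
    ext x
    simp only [As, Set.mem_ofPred_eq, mem_iInter, mem_compl_iff]
  rw [h1]
  exact isClosed_iInter fun i => isClosed_iInter fun p => (isClopen_Occ i p).compl.isClosed

end Q70.Sh
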