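import Pool.Agent.Q70.ShB

/-!
# Overwriting the occurrences of a sequence by the symbol `2`
-/

set_option autoImplicit false

open Set Filter Topology

namespace Q70.Sh

/-- The position `o` is covered at level `i`. -/
def Cov (ξ : ℕ → Fin 3) (i o : ℕ) : Prop := ∃ p, BB i < p ∧ Occ i ξ p ∧ p ≤ o ∧ o < p + NN i

open Classical in
/-- The overwritten sequence. -/
noncomputable def ow (ξ : ℕ → Fin 3) : ℕ → Fin 3 := fun o => if ∃ i, Cov ξ i o then 2 else ξ o

theorem ow_ne {ξ : ℕ → Fin 3} {o : ℕ} (h : ow ξ o ≠ ξ o) : ∃ i, Cov ξ i o := by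
  by_contra hno
  apply h
  unfold ow
  rw [if_neg hno]

theorem ow_Occ {ξ : ℕ → Fin 3} {i p : ℕ} (h : Occ i (ow ξ) p) : p ≤ BB i := by
  by_contra hp
  push Not at hp
  by_cases hξ : Occ i ξ p
  · have h1 := h (NN i) le_rfl (NN_le i)
    have h2 : err (ow ξ) p (NN i) = NN i := by
      unfold err
      rw [Finset.filter_true_of_mem, Finset.card_range]
      intro j hj
      rw [Finset.mem_range] at hj
      have h3 : ow ξ (p + j) = 2 := by
        unfold ow
        rw [if_pos ⟨i, p, hp, hξ, by omega, by omega⟩]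
      rw [h3]
      exact (W_ne_two j).symm
    have := NN_ge i
    omega
  · unfold Occ at hξ
    push Not at hξ
    obtain ⟨k, hk1, hk2, hk3⟩ := hξ
    have h1 := h k hk1 hk2
    have h2 : err ξ p k ≤ err (ow ξ) p k := by
      unfold err
      refine Finset.card_le_card fun j hj => ?_
      rw [Finset.mem_filter] at hj ⊢
      refine ⟨hj.1, ?_⟩
      unfold ow
      split_ifs
      · exact (W_ne_two j).symm
      · exact hj.2
    omega

theorem ow_mem (ξ : ℕ → Fin 3) : ow ξ ∈ Xs := by
  intro i p p' _ _ h2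
  have := ow_Occ h2
  omega

open Classical in
/-- number of covered positions below `n` at level `i` -/
noncomputable def cc (ξ : ℕ → Fin 3) (i n : ℕ) : ℕ := ((Finset.range n).filter (Cov ξ i)).card

open Classical in
/-- number of occurrences below `n` at level `i` -/
noncomputable def dd (ξ : ℕ → Fin 3) (i n : ℕ) : ℕ := ((Finset.range n).filter (Occ i ξ)).card

open Classical in
/-- number of changes below `n` -/
noncomputable def ee (ξ : ℕ → Fin 3) (n : ℕ) : ℕ :=
  ((Finset.range n).filter fun o => ow ξ o ≠ ξ o).card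

theorem NN_pos (i : ℕ) : 0 < NN i := by have := NN_ge i; omega

theorem cc_zero {ξ : ℕ → Fin 3} {i n : ℕ} (h : n ≤ BB i) : cc ξ i n = 0 := by
  classical
  unfold cc
  rw [Finset.card_eq_zero, Finset.filter_eq_empty_iff]
  rintro o ho ⟨p, h1, -, h2, -⟩
  rw [Finset.mem_range] at ho
  omega

theorem cc_le_dd (ξ : ℕ → Fin 3) (i n : ℕ) : cc ξ i n ≤ NN i * dd ξ i n := by
  classical
  unfold cc dd
  have h1 : (Finset.range n).filter (Cov ξ i) ⊆
      ((Finset.range n).filter (Occ i ξ)).biUnion fun p => Finset.Ico p (p + NN i) := by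
    intro o ho
    rw [Finset.mem_filter, Finset.mem_range] at ho
    obtain ⟨ho, p, -, h2, h3, h4⟩ := ho
    rw [Finset.mem_biUnion]
    refine ⟨p, ?_, Finset.mem_Ico.2 ⟨h3, h4⟩⟩
    rw [Finset.mem_filter, Finset.mem_range]
    exact ⟨by omega, h2⟩
  refine (Finset.card_le_card h1).trans ?_
  refine (Finset.card_biUnion_le_card_mul _ _ (NN i) fun p _ => ?_).trans_eq (Nat.mul_comm _ _)
  rw [Nat.card_Ico]
  omega

/-- the general bound on the number of covered positions -/
theorem cc_le (ξ : ℕ → Fin 3) (i n : ℕ) : 2 ^ i * cc ξ i n ≤ 4 * n := by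
  classical
  by_cases hn : n ≤ BB i
  · rw [cc_zero hn]
    omega
  push Not at hn
  set H : ℕ := 2 ^ i * (2 ^ i * NN i) with hH
  have hHpos : 0 < H := by
    have := NN_pos i
    positivity
  have hNH : NN (i + 1) = 2 * H := NN_succ i
  -- the positions covered from a given block
  set Q : ℕ → Finset ℕ := fun q => (Finset.range n).filter fun o =>
    ∃ p, BB i < p ∧ Occ i ξ p ∧ p ≤ o ∧ o < p + NN i ∧ p / H = q with hQ
  have h1 : (Finset.range n).filter (Cov ξ i) ⊆ (Finset.range (n / H + 1)).biUnion Q := by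
    intro o ho
    rw [Finset.mem_filter, Finset.mem_range] at ho
    obtain ⟨ho, p, h2, h3, h4, h5⟩ := ho
    rw [Finset.mem_biUnion]
    refine ⟨p / H, ?_, ?_⟩
    · rw [Finset.mem_range]
      have : p / H ≤ n / H := Nat.div_le_div_right (by omega)
      omega
    · rw [hQ, Finset.mem_filter, Finset.mem_range]
      exact ⟨ho, p, h2, h3, h4, h5, rfl⟩
  have h2 : ∀ q ∈ Finset.range (n / H + 1), (Q q).card ≤ 2 * NN i := by
    intro q _
    by_cases hex : ∃ p, Occ i ξ p ∧ p / H = q
    · have hmin := Nat.find_spec hex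
      set p0 := Nat.find hex with hp0
      have h3 : Q q ⊆ Finset.Ico p0 (p0 + 2 * NN i) := by
        intro o ho
        rw [hQ, Finset.mem_filter] at ho
        obtain ⟨-, p, -, h5, h6, h7, h8⟩ := ho
        have h9 : p0 ≤ p := Nat.find_min' hex ⟨h5, h8⟩
        rw [Finset.mem_Ico]
        refine ⟨by omega, ?_⟩
        have h10 : p < p0 + NN i := by
          by_contra hno
          push Not at hno
          have h11 : p = p0 + (p - p0) := by omega
          have h12 := Nat.div_add_mod p H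
          have h13 := Nat.div_add_mod p0 H
          have h14 := Nat.mod_lt p hHpos
          have h15 := Nat.mod_lt p0 hHpos
          rw [h8] at h12
          rw [hmin.2] at h13
          have h16 : p - p0 < H := by omega
          rw [h11] at h5
          exact cluster hmin.1 h5 (by omega) (by omega)
        omega
      have h4 := Finset.card_le_card h3
      rw [Nat.card_Ico] at h4
      omega
    · have h3 : Q q = ∅ := by
        rw [hQ, Finset.filter_eq_empty_iff]
        rintro o - ⟨p, -, h5, -, -, h8⟩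
        exact hex ⟨p, h5, h8⟩
      rw [h3]
      simp
  have h3 : cc ξ i n ≤ (n / H + 1) * (2 * NN i) := by
    unfold cc
    refine (Finset.card_le_card h1).trans ?_
    refine (Finset.card_biUnion_le_card_mul _ _ _ h2).trans_eq ?_
    rw [Finset.card_range]
  have h4 : n / H * H ≤ n := Nat.div_mul_le_self n H
  have h5 : 2 ^ i * NN i * (n / H) ≤ n / H * H := by
    rw [hH, Nat.mul_comm (2 ^ i * NN i)]
    refine Nat.mul_le_mul_left _ ?_
    exact Nat.le_mul_of_pos_left _ (by positivity)
  have h6 : BB i = 2 ^ i * NN i := rfl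
  calc 2 ^ i * cc ξ i n ≤ 2 ^ i * ((n / H + 1) * (2 * NN i)) := Nat.mul_le_mul_left _ h3
    _ = 2 * (2 ^ i * NN i * (n / H)) + 2 * (2 ^ i * NN i) := by ring
    _ ≤ 4 * n := by omega

theorem ee_le (ξ : ℕ → Fin 3) (n : ℕ) : ee ξ n ≤ ∑ i ∈ Finset.range n, cc ξ i n := by
  classical
  unfold ee cc
  have h1 : ((Finset.range n).filter fun o => ow ξ o ≠ ξ o) ⊆
      (Finset.range n).biUnion fun i => (Finset.range n).filter (Cov ξ i) := by
    intro o ho
    rw [Finset.mem_filter] at ho
    obtain ⟨i, hi⟩ := ow_ne ho.2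
    rw [Finset.mem_biUnion]
    refine ⟨i, ?_, Finset.mem_filter.2 ⟨ho.1, hi⟩⟩
    obtain ⟨p, h2, -, h3, -⟩ := hi
    rw [Finset.mem_range] at ho ⊢
    have h4 : i < 2 ^ i := Nat.lt_two_pow_self
    have h5 : 2 ^ i ≤ BB i := Nat.le_mul_of_pos_right _ (NN_pos i)
    omega
  exact (Finset.card_le_card h1).trans Finset.card_biUnion_le

/-- splitting the levels -/
theorem ee_le' (ξ : ℕ → Fin 3) (n I : ℕ) :
    (ee ξ n : ℝ) ≤ ∑ i ∈ Finset.range I, (NN i : ℝ) * dd ξ i n + 8 * n * (1 / 2) ^ I := by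
  have h1 : (ee ξ n : ℝ) ≤ ∑ i ∈ Finset.range n, (cc ξ i n : ℝ) := by
    exact_mod_cast ee_le ξ n
  have h2 : ∀ i, (cc ξ i n : ℝ) ≤ 4 * n * (1 / 2) ^ i := by
    intro i
    have h3 : ((2 : ℝ) ^ i * cc ξ i n) ≤ 4 * n := by exact_mod_cast cc_le ξ i n
    rw [one_div, inv_pow, ← div_eq_mul_inv, le_div_iff₀ (by positivity)]
    linarith
  have h3 : ∀ i, (cc ξ i n : ℝ) ≤ NN i * dd ξ i n := by
    intro i
    exact_mod_cast cc_le_dd ξ i n
  have hsum : ∀ m, ∑ i ∈ Finset.range m, (cc ξ i n : ℝ) ≤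
      ∑ i ∈ Finset.range I, (NN i : ℝ) * dd ξ i n + 8 * n * (1 / 2) ^ I := by
    intro m
    rcases le_total m I with h | h
    · have h4 : ∑ i ∈ Finset.range m, (cc ξ i n : ℝ) ≤
          ∑ i ∈ Finset.range I, (NN i : ℝ) * dd ξ i n :=
        (Finset.sum_le_sum fun i _ => h3 i).trans
          (Finset.sum_le_sum_of_subset_of_nonneg (Finset.range_mono h)
            fun i _ _ => by positivity)
      have h5 : (0 : ℝ) ≤ 8 * n * (1 / 2) ^ I := by positivity
      linarith
    · rw [← Finset.sum_range_add_sum_Ico _ h]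
      refine add_le_add (Finset.sum_le_sum fun i _ => h3 i) ?_
      refine (Finset.sum_le_sum fun i _ => h2 i).trans ?_
      rw [← Finset.mul_sum]
      have h6 : ∑ i ∈ Finset.Ico I m, (1 / 2 : ℝ) ^ i ≤ 2 * (1 / 2) ^ I := by
        rw [geom_sum_Ico (by norm_num) h]
        have h7 : (0 : ℝ) ≤ (1 / 2) ^ m := by positivity
        rw [div_le_iff_of_neg (by norm_num)]
        nlinarith
      have h8 : (0 : ℝ) ≤ 4 * n := by positivity
      nlinarith
  exact h1.trans (hsum n)

end Q70.Sh
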