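import Pool.Agent.Q70.ShC

/-!
# Average shadowing in the subshift `Xs`
-/

set_option autoImplicit false

open Set Filter Topology

namespace Q70.Sh

attribute [local instance] PiNat.metricSpace

theorem agree {x y : ℕ → Fin 3} {L : ℕ} (h : dist x y < (1 / 2) ^ L) {c : ℕ} (hc : c ≤ L) :
    x c = y c := PiNat.apply_eq_of_dist_lt h hc

theorem dist_le_pow {x y : ℕ → Fin 3} {l : ℕ} (h : ∀ c < l, x c = y c) :
    dist x y ≤ (1 / 2) ^ l :=
  PiNat.mem_cylinder_iff_dist_le.1 (PiNat.mem_cylinder_iff.2 h)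

theorem dist_le_one' (x y : ℕ → Fin 3) : dist x y ≤ 1 := by
  have := dist_le_pow (x := x) (y := y) (l := 0) (fun c hc => by omega)
  simpa using this

theorem one_le_dist {x y : ℕ → Fin 3} (h : x 0 ≠ y 0) : 1 ≤ dist x y := by
  by_contra hno
  push Not at hno
  exact h (agree (L := 0) (by simpa using hno) le_rfl)

/-- a bad jump -/
def Bad (x : ℕ → ℕ → Fin 3) (L j : ℕ) : Prop := (1 / 2 : ℝ) ^ L ≤ dist (sh (x j)) (x (j + 1))

theorem block_agree {x : ℕ → ℕ → Fin 3} {L q : ℕ} (h : ∀ a < L, ¬ Bad x L (q + a)) :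
    ∀ a ≤ L, ∀ c, a + c ≤ L → x (q + a) c = x q (a + c) := by
  intro a
  induction a with
  | zero => intro _ c _; simp
  | succ a ih =>
    intro ha c hc
    have h1 := h a (by omega)
    unfold Bad at h1
    push Not at h1
    have h2 := agree h1 (c := c) (by omega)
    have h3 := ih (by omega) (c + 1) (by omega)
    have e1 : q + (a + 1) = q + a + 1 := by ring
    have e2 : a + 1 + c = a + (c + 1) := by ring
    rw [e1, e2, ← h3, ← h2]
    rfl

/-- the diagonal sequence -/
def dg (x : ℕ → ℕ → Fin 3) : ℕ → Fin 3 := fun j => x j 0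

theorem dg_block {x : ℕ → ℕ → Fin 3} {L q : ℕ} (h : ∀ a < L, ¬ Bad x L (q + a)) {a : ℕ}
    (ha : a ≤ L) : dg x (q + a) = x q a := block_agree h a ha 0 (by omega)

theorem Occ_block {x : ℕ → ℕ → Fin 3} {L q i p : ℕ} (h : ∀ a < L, ¬ Bad x L (q + a))
    (hp : p + NN (i + 1) ≤ L) (hO : Occ i (dg x) (q + p)) : Occ i (x q) p := by
  intro k hk1 hk2
  have h1 := hO k hk1 hk2
  have h2 : err (dg x) (q + p) k = err (x q) p k := by
    unfold err
    congr 1
    refine Finset.filter_congr fun j hj => ?_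
    rw [Finset.mem_range] at hj
    rw [add_assoc, dg_block h (by omega)]
  omega

open Classical in
theorem count_Xs {z : ℕ → Fin 3} (hz : z ∈ Xs) (i : ℕ) (S : Finset ℕ) :
    (S.filter (Occ i z)).card ≤ BB i + 1 := by
  by_cases hne : (S.filter (Occ i z)).Nonempty
  · set p0 := (S.filter (Occ i z)).min' hne with hp0
    have h0 := Finset.min'_mem _ hne
    rw [Finset.mem_filter] at h0
    have h1 : S.filter (Occ i z) ⊆ Finset.Icc p0 (p0 + BB i) := by
      intro p hp
      have h2 : p0 ≤ p := Finset.min'_le _ _ hp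
      rw [Finset.mem_filter] at hp
      rw [Finset.mem_Icc]
      refine ⟨h2, ?_⟩
      rcases h2.lt_or_eq with h3 | h3
      · exact hz i p0 p h3 h0.2 hp.2
      · omega
    have h3 := Finset.card_le_card h1
    rw [Nat.card_Icc] at h3
    omega
  · rw [Finset.not_nonempty_iff_eq_empty] at hne
    rw [hne]
    simp

open Classical in
/-- number of bad jumps below `n` -/
noncomputable def gg (x : ℕ → ℕ → Fin 3) (L n : ℕ) : ℕ := ((Finset.range n).filter (Bad x L)).card

/-- the sum of the jumps -/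
noncomputable def aa (x : ℕ → ℕ → Fin 3) (n : ℕ) : ℝ :=
  ∑ j ∈ Finset.range n, dist (sh (x j)) (x (j + 1))

theorem gg_le (x : ℕ → ℕ → Fin 3) (L n : ℕ) : (gg x L n : ℝ) ≤ 2 ^ L * aa x n := by
  classical
  have h1 : (gg x L n : ℝ) * (1 / 2) ^ L ≤ aa x n := by
    unfold gg aa
    rw [← nsmul_eq_mul]
    refine (Finset.card_nsmul_le_sum _ (fun j => dist (sh (x j)) (x (j + 1))) _
      (fun j hj => (Finset.mem_filter.1 hj).2)).trans ?_
    exact Finset.sum_le_sum_of_subset_of_nonneg (Finset.filter_subset _ _)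
      fun j _ _ => dist_nonneg
  have h2 : (gg x L n : ℝ) = 2 ^ L * (gg x L n * (1 / 2) ^ L) := by
    rw [mul_comm ((gg x L n : ℝ)), ← mul_assoc, ← mul_pow]
    norm_num
  rw [h2]
  exact mul_le_mul_of_nonneg_left h1 (by positivity)

/-- the constant of level `i` -/
def kk (i : ℕ) : ℕ := BB i + 1 + NN (i + 1)

theorem dd_le {x : ℕ → ℕ → Fin 3} (hx : ∀ j, x j ∈ Xs) (i n : ℕ) {L : ℕ} (hL : 0 < L) :
    dd (dg x) i n ≤ (n / L + 1) * kk i + L * gg x L (n + L) := by
  classical
  set P : ℕ → Finset ℕ := fun q => (Finset.Ico (q * L) (q * L + L)).filter (Occ i (dg x)) with hP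
  set bad : ℕ → Prop := fun q => ∃ a < L, Bad x L (q * L + a) with hbad
  have h1 : (Finset.range n).filter (Occ i (dg x)) ⊆ (Finset.range (n / L + 1)).biUnion P := by
    intro p hp
    rw [Finset.mem_filter, Finset.mem_range] at hp
    rw [Finset.mem_biUnion]
    refine ⟨p / L, ?_, ?_⟩
    · rw [Finset.mem_range]
      have : p / L ≤ n / L := Nat.div_le_div_right (by omega)
      omega
    · rw [hP, Finset.mem_filter, Finset.mem_Ico]
      have h2 := Nat.div_add_mod p L
      have h3 := Nat.mod_lt p hL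
      rw [Nat.mul_comm] at h2
      exact ⟨⟨by omega, by omega⟩, hp.2⟩
  have h2 : ∀ q, (P q).card ≤ kk i + if bad q then L else 0 := by
    intro q
    split_ifs with hb
    · have h3 : (P q).card ≤ L := by
        refine (Finset.card_filter_le _ _).trans ?_
        rw [Nat.card_Ico]
        omega
      omega
    · rw [hbad] at hb
      push Not at hb
      have h3 : P q ⊆ (((Finset.range L).filter (Occ i (x (q * L)))).image fun p => q * L + p) ∪
          Finset.Ico (q * L + L - NN (i + 1)) (q * L + L) := by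
        intro p hp
        rw [hP, Finset.mem_filter, Finset.mem_Ico] at hp
        rw [Finset.mem_union, Finset.mem_image, Finset.mem_Ico]
        by_cases h4 : p + NN (i + 1) ≤ q * L + L
        · left
          refine ⟨p - q * L, ?_, by omega⟩
          rw [Finset.mem_filter, Finset.mem_range]
          refine ⟨by omega, ?_⟩
          refine Occ_block hb (by omega) ?_
          have : q * L + (p - q * L) = p := by omega
          rw [this]
          exact hp.2
        · right
          omega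
      refine (Finset.card_le_card h3).trans ((Finset.card_union_le _ _).trans ?_)
      have h5 := count_Xs (hx (q * L)) i (Finset.range L)
      have h6 := Finset.card_image_le (s := (Finset.range L).filter (Occ i (x (q * L))))
        (f := fun p => q * L + p)
      rw [Nat.card_Ico]
      unfold kk
      omega
  have h3 : dd (dg x) i n ≤ ∑ q ∈ Finset.range (n / L + 1), (kk i + if bad q then L else 0) := by
    unfold dd
    refine (Finset.card_le_card h1).trans (Finset.card_biUnion_le.trans ?_)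
    exact Finset.sum_le_sum fun q _ => h2 q
  have h4 : ((Finset.range (n / L + 1)).filter bad).card ≤ gg x L (n + L) := by
    unfold gg
    have h5 : (Finset.range (n / L + 1)).filter bad ⊆
        ((Finset.range (n + L)).filter (Bad x L)).image fun j => j / L := by
      intro q hq
      rw [Finset.mem_filter, Finset.mem_range] at hq
      obtain ⟨hq1, a, ha, hb⟩ := hq
      rw [Finset.mem_image]
      refine ⟨q * L + a, ?_, ?_⟩
      · rw [Finset.mem_filter, Finset.mem_range]
        refine ⟨?_, hb⟩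
        have h6 : q * L ≤ n / L * L := Nat.mul_le_mul_right _ (by omega)
        have h7 := Nat.div_mul_le_self n L
        omega
      · rw [Nat.mul_comm, Nat.mul_add_div hL, Nat.div_eq_of_lt ha]
        rfl
    exact (Finset.card_le_card h5).trans Finset.card_image_le
  refine h3.trans ?_
  rw [Finset.sum_add_distrib, Finset.sum_const, Finset.card_range, smul_eq_mul,
    ← Finset.sum_filter, Finset.sum_const, smul_eq_mul, Nat.mul_comm _ L]
  exact Nat.add_le_add le_rfl (Nat.mul_le_mul_left _ h4)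

set_option maxHeartbeats 2000000 in
/-- the changes have small density if the jumps are small -/
theorem ee_small {η : ℝ} (hη : 0 < η) : ∃ δ > 0, ∀ x : ℕ → ℕ → Fin 3, (∀ j, x j ∈ Xs) →
    (∀ᶠ n : ℕ in atTop, aa x n ≤ δ * n) → ∀ᶠ n : ℕ in atTop, (ee (dg x) n : ℝ) ≤ η * n := by
  obtain ⟨I, hI⟩ : ∃ I : ℕ, (1 / 2 : ℝ) ^ I < η / 16 :=
    exists_pow_lt_of_lt_one (by positivity) (by norm_num)
  set C : ℝ := ∑ i ∈ Finset.range I, (NN i : ℝ) with hC
  set c : ℝ := ∑ i ∈ Finset.range I, (kk i : ℝ) with hc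
  have hC0 : 0 ≤ C := Finset.sum_nonneg fun i _ => by positivity
  have hc0 : 0 ≤ c := Finset.sum_nonneg fun i _ => by positivity
  obtain ⟨L, hL⟩ : ∃ L : ℕ, 8 * C * c / η < L := exists_nat_gt _
  have hLpos : 0 < L := by
    have : (0 : ℝ) < L := lt_of_le_of_lt (by positivity) hL
    exact_mod_cast this
  have hLr : (0 : ℝ) < L := by exact_mod_cast hLpos
  have hL' : C * c ≤ η / 8 * L := by
    rw [div_lt_iff₀ hη] at hL
    linarith
  refine ⟨η / (16 * (C + 1) * (L * 2 ^ L)), by positivity, fun x hx hev => ?_⟩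
  set δ : ℝ := η / (16 * (C + 1) * (L * 2 ^ L)) with hδ
  have hev2 : ∀ᶠ n : ℕ in atTop, aa x (n + L) ≤ δ * (n + L : ℕ) :=
    (tendsto_add_atTop_nat L).eventually hev
  obtain ⟨n1, hn1⟩ : ∃ n1 : ℕ, 8 * C * c / η < n1 := exists_nat_gt _
  filter_upwards [hev2, eventually_ge_atTop (max L n1)] with n hn hnL
  have hnL1 : (L : ℝ) ≤ n := by exact_mod_cast (le_max_left _ _).trans hnL
  have hn0 : (0 : ℝ) < n := lt_of_lt_of_le hLr hnL1
  have hnn1 : (n1 : ℝ) ≤ n := by exact_mod_cast (le_max_right _ _).trans hnL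
  have h1 := ee_le' (dg x) n I
  have h2 : ∀ i ∈ Finset.range I, (dd (dg x) i n : ℝ) ≤ (n / L + 1) * c + L * (2 ^ L * aa x (n + L)) := by
    intro i hi
    have h3 : (dd (dg x) i n : ℝ) ≤ ((n / L : ℕ) + 1) * kk i + L * gg x L (n + L) := by
      exact_mod_cast dd_le hx i n hLpos
    have h4 : ((n / L : ℕ) : ℝ) ≤ n / L := Nat.cast_div_le
    have h5 : (kk i : ℝ) ≤ c := Finset.single_le_sum (f := fun i => (kk i : ℝ))
      (fun i _ => by positivity) hi
    have h6 := gg_le x L (n + L)
    have h7 : (((n / L : ℕ) : ℝ) + 1) * kk i ≤ (n / L + 1) * c := by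
      refine mul_le_mul (by linarith) h5 (by positivity) (by positivity)
    have h8 : (L : ℝ) * gg x L (n + L) ≤ L * (2 ^ L * aa x (n + L)) :=
      mul_le_mul_of_nonneg_left h6 hLr.le
    linarith
  have h3 : ∑ i ∈ Finset.range I, (NN i : ℝ) * dd (dg x) i n ≤
      C * ((n / L + 1) * c + L * (2 ^ L * aa x (n + L))) := by
    rw [hC, Finset.sum_mul]
    exact Finset.sum_le_sum fun i hi => mul_le_mul_of_nonneg_left (h2 i hi) (by positivity)
  have h4 : C * (n / L * c) ≤ η / 8 * n := by
    have : C * (n / L * c) = (C * c) / L * n := by ring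
    rw [this]
    refine mul_le_mul_of_nonneg_right ?_ hn0.le
    rw [div_le_iff₀ hLr]
    exact hL'
  have h5 : C * c ≤ η / 8 * n := by
    have h6 : 8 * C * c / η < n := lt_of_lt_of_le hn1 hnn1
    rw [div_lt_iff₀ hη] at h6
    linarith
  have hδ0 : 0 < δ := by rw [hδ]; positivity
  have h6 : C * (L * (2 ^ L * aa x (n + L))) ≤ η / 8 * n := by
    have h7 : aa x (n + L) ≤ δ * (2 * n) := by
      refine hn.trans ?_
      push_cast
      refine mul_le_mul_of_nonneg_left (by linarith) hδ0.le
    have h8 : C * (L * (2 ^ L * aa x (n + L))) ≤ C * (L * (2 ^ L * (δ * (2 * n)))) := by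
      have h81 : (2 : ℝ) ^ L * aa x (n + L) ≤ 2 ^ L * (δ * (2 * n)) :=
        mul_le_mul_of_nonneg_left h7 (by positivity)
      exact mul_le_mul_of_nonneg_left (mul_le_mul_of_nonneg_left h81 hLr.le) hC0
    refine h8.trans ?_
    have h9 : (C + 1) * (L * (2 ^ L * (δ * (2 * n)))) = η / 8 * n := by
      have h91 : 16 * (C + 1) * (L * 2 ^ L) ≠ 0 := by positivity
      have h92 : δ * (16 * (C + 1) * (L * 2 ^ L)) = η := by
        rw [hδ]; exact div_mul_cancel₀ _ h91
      rw [← h92]
      ring
    rw [← h9]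
    have h10 : (0 : ℝ) ≤ L * (2 ^ L * (δ * (2 * n))) := by positivity
    linarith [h10]
  have h7 : 8 * (n : ℝ) * (1 / 2) ^ I ≤ η / 2 * n := by nlinarith
  have h8 : C * ((n / L + 1) * c + L * (2 ^ L * aa x (n + L))) =
      C * (n / L * c) + C * c + C * (L * (2 ^ L * aa x (n + L))) := by ring
  rw [h8] at h3
  nlinarith

open Classical in
theorem shadow_sum (x : ℕ → ℕ → Fin 3) (l n : ℕ) :
    ∑ j ∈ Finset.range n, dist (sh^[j] (ow (dg x))) (x j) ≤
      n * (1 / 2) ^ l + l * (ee (dg x) (n + l) + gg x l (n + l)) := by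
  set P : ℕ → Prop := fun m => ow (dg x) m ≠ dg x m ∨ Bad x l m with hP
  have h1 : ∀ j, dist (sh^[j] (ow (dg x))) (x j) ≤
      (1 / 2) ^ l + if ∃ c < l, P (j + c) then 1 else 0 := by
    intro j
    split_ifs with h
    · have := dist_le_one' (sh^[j] (ow (dg x))) (x j)
      have h2 : (0 : ℝ) ≤ (1 / 2) ^ l := by positivity
      linarith
    · push Not at h
      rw [add_zero]
      refine dist_le_pow fun c hc => ?_
      rw [sh_iter]
      simp only
      have h2 := h c hc
      simp only [hP, not_or, not_not] at h2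
      rw [Nat.add_comm c j, h2.1]
      exact dg_block (L := l) (q := j) (fun a ha => by
        have h3 := h a ha
        simp only [hP, not_or] at h3
        exact h3.2) hc.le
  have h2 : ((Finset.range n).filter fun j => ∃ c < l, P (j + c)).card ≤
      l * ((Finset.range (n + l)).filter P).card := by
    have h3 : ((Finset.range n).filter fun j => ∃ c < l, P (j + c)) ⊆
        (Finset.range l).biUnion fun c => (Finset.range n).filter fun j => P (j + c) := by
      intro j hj
      rw [Finset.mem_filter] at hj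
      obtain ⟨hj, c, hc, hPc⟩ := hj
      rw [Finset.mem_biUnion]
      exact ⟨c, Finset.mem_range.2 hc, Finset.mem_filter.2 ⟨hj, hPc⟩⟩
    refine (Finset.card_le_card h3).trans ?_
    refine (Finset.card_biUnion_le_card_mul _ _ _ fun c hc => ?_).trans_eq
      (by rw [Finset.card_range])
    rw [Finset.mem_range] at hc
    rw [← Finset.card_image_of_injective _ (add_left_injective c)]
    refine Finset.card_le_card ?_
    intro m hm
    obtain ⟨j, hj, rfl⟩ := Finset.mem_image.1 hm
    rw [Finset.mem_filter, Finset.mem_range] at hj ⊢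
    exact ⟨by omega, hj.2⟩
  have h3 : ((Finset.range (n + l)).filter P).card ≤ ee (dg x) (n + l) + gg x l (n + l) := by
    unfold ee gg
    refine le_trans (Finset.card_le_card ?_) (Finset.card_union_le _ _)
    intro m hm
    rw [Finset.mem_filter] at hm
    rw [Finset.mem_union, Finset.mem_filter, Finset.mem_filter]
    rcases hm.2 with h4 | h4
    · exact Or.inl ⟨hm.1, h4⟩
    · exact Or.inr ⟨hm.1, h4⟩
  have h4 : (((Finset.range n).filter fun j => ∃ c < l, P (j + c)).card : ℝ) ≤
      l * (ee (dg x) (n + l) + gg x l (n + l)) := by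
    exact_mod_cast h2.trans (Nat.mul_le_mul_left _ h3)
  refine (Finset.sum_le_sum fun j _ => h1 j).trans ?_
  rw [Finset.sum_add_distrib, Finset.sum_const, Finset.card_range, nsmul_eq_mul,
    Finset.sum_boole]
  linarith

/-- the overwritten diagonal shadows the pseudo-orbit -/
theorem shadow {ε : ℝ} (hε : 0 < ε) : ∃ δ > 0, ∀ x : ℕ → ℕ → Fin 3, (∀ j, x j ∈ Xs) →
    (∀ᶠ n : ℕ in atTop, aa x n ≤ δ * n) →
    ∀ᶠ n : ℕ in atTop, ∑ j ∈ Finset.range n, dist (sh^[j] (ow (dg x))) (x j) ≤ ε * n := by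
  obtain ⟨l, hl⟩ : ∃ l : ℕ, (1 / 2 : ℝ) ^ l < ε / 4 :=
    exists_pow_lt_of_lt_one (by positivity) (by norm_num)
  obtain ⟨δ1, hδ1, h1⟩ := ee_small (η := ε / (8 * (l + 1))) (by positivity)
  refine ⟨min δ1 (ε / (8 * (l + 1) * 2 ^ l)), lt_min hδ1 (by positivity), fun x hx hev => ?_⟩
  have hev1 : ∀ᶠ n : ℕ in atTop, aa x n ≤ δ1 * n := by
    filter_upwards [hev] with n hn
    refine hn.trans (mul_le_mul_of_nonneg_right (min_le_left _ _) (Nat.cast_nonneg _))
  have hev2 : ∀ᶠ n : ℕ in atTop, aa x n ≤ (ε / (8 * (l + 1) * 2 ^ l)) * n := by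
    filter_upwards [hev] with n hn
    refine hn.trans (mul_le_mul_of_nonneg_right (min_le_right _ _) (Nat.cast_nonneg _))
  have h2 := (tendsto_add_atTop_nat l).eventually (h1 x hx hev1)
  have h3 := (tendsto_add_atTop_nat l).eventually hev2
  filter_upwards [h2, h3, eventually_ge_atTop l] with n h2 h3 hnl
  have hnl' : (l : ℝ) ≤ n := by exact_mod_cast hnl
  have h4 := shadow_sum x l n
  have h5 := gg_le x l (n + l)
  push_cast at h2 h3
  have h6 : (l : ℝ) * ee (dg x) (n + l) ≤ ε / 4 * n := by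
    have h7 : (ee (dg x) (n + l) : ℝ) ≤ ε / (8 * (l + 1)) * (2 * n) :=
      h2.trans (mul_le_mul_of_nonneg_left (by linarith) (by positivity))
    have h8 : (l : ℝ) * ee (dg x) (n + l) ≤ (l + 1) * (ε / (8 * (l + 1)) * (2 * n)) := by
      refine mul_le_mul (by linarith) h7 (by positivity) (by positivity)
    refine h8.trans_eq ?_
    field_simp
    ring
  have h7 : (l : ℝ) * gg x l (n + l) ≤ ε / 4 * n := by
    have h8 : (gg x l (n + l) : ℝ) ≤ 2 ^ l * ((ε / (8 * (l + 1) * 2 ^ l)) * (2 * n)) := by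
      refine h5.trans (mul_le_mul_of_nonneg_left ?_ (by positivity))
      exact h3.trans (mul_le_mul_of_nonneg_left (by linarith) (by positivity))
    have h9 : (l : ℝ) * gg x l (n + l) ≤
        (l + 1) * (2 ^ l * ((ε / (8 * (l + 1) * 2 ^ l)) * (2 * n))) := by
      refine mul_le_mul (by linarith) h8 (by positivity) (by positivity)
    refine h9.trans_eq ?_
    field_simp
    ring
  have h8 : (n : ℝ) * (1 / 2) ^ l ≤ ε / 4 * n := by
    rw [mul_comm]
    exact mul_le_mul_of_nonneg_right hl.le (Nat.cast_nonneg _)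
  have h9 : (0 : ℝ) ≤ ε * n := by positivity
  nlinarith

end Q70.Sh
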