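import Pool.Agent.Q70.ShA
import Pool.Agent.Q70.ShD

/-!
# The subshifts `Xs ⊇ As`: average shadowing holds in `Xs` and fails in `As`
-/

set_option autoImplicit false

open MeasureTheory Set Filter Topology
open scoped ENNReal

namespace Q70.Sh

attribute [local instance] PiNat.metricSpace

/-- the shift on `Xs` -/
def shX : Xs → Xs := sh_Xs.restrict sh Xs Xs

/-- `As` as a subset of `Xs` -/
def AX : Set Xs := {z | (z : ℕ → Fin 3) ∈ As}

theorem shX_AX : MapsTo shX AX AX := fun z hz => sh_As (x := (z : ℕ → Fin 3)) hz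

theorem continuous_shX : Continuous shX := continuous_sh.restrict sh_Xs

theorem isClosed_AX : IsClosed AX := isClosed_As.preimage continuous_subtype_val

instance : CompactSpace Xs := isCompact_iff_compactSpace.1 isClosed_Xs.isCompact

theorem shX_iter (n : ℕ) (z : Xs) : (shX^[n] z : ℕ → Fin 3) = sh^[n] z :=
  sh_Xs.coe_iterate_restrict z n

theorem AASP_shX : AASP shX := by
  intro x hx
  set x' : ℕ → ℕ → Fin 3 := fun j => (x j : ℕ → Fin 3) with hx'
  have hmem : ∀ j, x' j ∈ Xs := fun j => (x j).2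
  refine ⟨⟨ow (dg x'), ow_mem _⟩, ?_⟩
  have haa : ∀ n, ∑ i ∈ Finset.range n, dist (shX (x i)) (x (i + 1)) = aa x' n := fun n => rfl
  simp_rw [haa] at hx
  rw [Metric.tendsto_atTop]
  intro ε hε
  obtain ⟨δ, hδ, hs⟩ := shadow (ε := ε / 2) (by positivity)
  have hev : ∀ᶠ n : ℕ in atTop, aa x' n ≤ δ * n := by
    have h1 : ∀ᶠ n : ℕ in atTop, aa x' n / n < δ := hx.eventually_lt_const hδ
    filter_upwards [h1, eventually_gt_atTop 0] with n h1 h2
    have h3 : (0 : ℝ) < n := by exact_mod_cast h2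
    rw [div_lt_iff₀ h3] at h1
    exact h1.le
  have h1 := hs x' hmem hev
  rw [eventually_atTop] at h1
  obtain ⟨N, hN⟩ := h1
  refine ⟨N + 1, fun n hn => ?_⟩
  have h2 := hN n (by omega)
  have h3 : (0 : ℝ) < n := by
    have : 0 < n := by omega
    exact_mod_cast this
  have h4 : ∑ i ∈ Finset.range n, dist (shX^[i] ⟨ow (dg x'), ow_mem _⟩) (x i) =
      ∑ i ∈ Finset.range n, dist (sh^[i] (ow (dg x'))) (x' i) := by
    refine Finset.sum_congr rfl fun i _ => ?_
    rw [Subtype.dist_eq, shX_iter]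
  rw [h4, Real.dist_eq, sub_zero, abs_of_nonneg (by positivity), div_lt_iff₀ h3]
  nlinarith

theorem ASP_shX : ASP shX := by
  intro ε hε
  obtain ⟨δ, hδ, hs⟩ := shadow (ε := ε / 2) (by positivity)
  refine ⟨δ, hδ, fun x hx => ?_⟩
  set x' : ℕ → ℕ → Fin 3 := fun j => (x j : ℕ → Fin 3) with hx'
  have hmem : ∀ j, x' j ∈ Xs := fun j => (x j).2
  refine ⟨⟨ow (dg x'), ow_mem _⟩, ?_⟩
  obtain ⟨N0, hN0⟩ := hx
  have hev : ∀ᶠ n : ℕ in atTop, aa x' n ≤ δ * n := by
    filter_upwards [eventually_ge_atTop N0, eventually_gt_atTop 0] with n h1 h2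
    have h3 : (0 : ℝ) < n := by exact_mod_cast h2
    have h4 := hN0 n h1 0
    rw [div_lt_iff₀ h3] at h4
    exact h4.le
  have h1 := hs x' hmem hev
  have h4 : ∀ n, ∑ i ∈ Finset.range n, dist (shX^[i] ⟨ow (dg x'), ow_mem _⟩) (x i) =
      ∑ i ∈ Finset.range n, dist (sh^[i] (ow (dg x'))) (x' i) := by
    intro n
    refine Finset.sum_congr rfl fun i _ => ?_
    rw [Subtype.dist_eq, shX_iter]
  simp_rw [h4]
  refine lt_of_le_of_lt (b := ε / 2) ?_ (by linarith)
  refine limsup_le_of_le (isCoboundedUnder_le_of_le atTop (x := 0) fun n => by positivity) ?_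
  filter_upwards [h1, eventually_gt_atTop 0] with n h1 h2
  have h3 : (0 : ℝ) < n := by exact_mod_cast h2
  rwa [div_le_iff₀ h3]

/-! ### Failure in `As` -/

theorem W_jump {j : ℕ} (h : W j ≠ W (j + 1)) : ∃ a, j + 2 = 2 ^ a := by
  by_contra hno
  push Not at hno
  apply h
  have h1 : 2 ^ Nat.log 2 (j + 1) ≤ j + 1 := Nat.pow_log_le_self 2 (by omega)
  have h2 : j + 1 < 2 ^ (Nat.log 2 (j + 1) + 1) := Nat.lt_pow_succ_log_self (by norm_num) _
  have h3 := hno (Nat.log 2 (j + 1) + 1)
  rw [W_eq h1 h2, W_eq (a := Nat.log 2 (j + 1)) (by omega) (by omega)]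

open Classical in
theorem W_jumps (m k n : ℕ) :
    ((Finset.range n).filter fun i => W (i + k) ≠ W (i + k + 1)).card ≤ m + (n / 2 ^ m + 1) := by
  have h1 : ((Finset.range n).filter fun i => W (i + k) ≠ W (i + k + 1)) ⊆
      ((Finset.range n).filter fun i => ∃ a < m, i + k + 2 = 2 ^ a) ∪
        ((Finset.range n).filter fun i => 2 ^ m ∣ i + k + 2) := by
    intro i hi
    rw [Finset.mem_filter] at hi
    obtain ⟨a, ha⟩ := W_jump hi.2
    rw [Finset.mem_union, Finset.mem_filter, Finset.mem_filter]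
    rcases lt_or_ge a m with h | h
    · exact Or.inl ⟨hi.1, a, h, ha⟩
    · exact Or.inr ⟨hi.1, by rw [ha]; exact pow_dvd_pow 2 h⟩
  refine (Finset.card_le_card h1).trans ((Finset.card_union_le _ _).trans ?_)
  refine Nat.add_le_add ?_ ?_
  · have h2 : ((Finset.range n).filter fun i => ∃ a < m, i + k + 2 = 2 ^ a) ⊆
        (Finset.range m).image fun a => 2 ^ a - (k + 2) := by
      intro i hi
      rw [Finset.mem_filter] at hi
      obtain ⟨-, a, ha, h3⟩ := hi
      rw [Finset.mem_image]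
      exact ⟨a, Finset.mem_range.2 ha, by omega⟩
    refine (Finset.card_le_card h2).trans (Finset.card_image_le.trans ?_)
    rw [Finset.card_range]
  · have hM : 0 < 2 ^ m := by positivity
    have h2 : (((Finset.range n).filter fun i => 2 ^ m ∣ i + k + 2).image
        fun i => (i + k + 2) / 2 ^ m) ⊆
        Finset.Ico ((k + 2 + 2 ^ m - 1) / 2 ^ m) ((k + 2 + 2 ^ m - 1) / 2 ^ m + (n / 2 ^ m + 1)) := by
      intro q hq
      obtain ⟨i, hi, rfl⟩ := Finset.mem_image.1 hq
      rw [Finset.mem_filter, Finset.mem_range] at hi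
      obtain ⟨hin, c, hc⟩ := hi
      rw [Finset.mem_Ico]
      set M := 2 ^ m with hMdef
      have h3 : (i + k + 2) / M = c := by rw [hc]; exact Nat.mul_div_cancel_left c hM
      rw [h3]
      constructor
      · have h4 : (k + 2 + M - 1) / M < c + 1 := by
          rw [Nat.div_lt_iff_lt_mul hM]
          have h5 : (c + 1) * M = M * c + M := by ring
          omega
        omega
      · have h5 : n < (n / M + 1) * M := by
          have := Nat.lt_div_mul_add (a := n) hM
          linarith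
        have h6 : k + 2 ≤ (k + 2 + M - 1) / M * M := by
          have := Nat.lt_div_mul_add (a := k + 2 + M - 1) hM
          omega
        by_contra hno
        push Not at hno
        have h7 : ((k + 2 + M - 1) / M + (n / M + 1)) * M ≤ c * M := Nat.mul_le_mul_right M hno
        have h8 : c * M = i + k + 2 := by rw [hc]; ring
        rw [h8, Nat.add_mul] at h7
        omega
    have h3 := Finset.card_le_card h2
    rw [Nat.card_Ico, Nat.add_sub_cancel_left, Finset.card_image_of_injOn] at h3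
    · exact h3
    · intro i hi j hj hij
      simp only [Finset.coe_filter, Finset.mem_range, Set.mem_ofPred_eq] at hi hj
      obtain ⟨-, c, hc⟩ := hi
      obtain ⟨-, d, hd⟩ := hj
      simp only at hij
      rw [hc, hd, Nat.mul_div_cancel_left c hM, Nat.mul_div_cancel_left d hM] at hij
      rw [hij] at hc
      omega

/-- the constant points of `AX` -/
def cst (a : Fin 3) : AX := ⟨⟨fun _ => a, As_sub_Xs (const_mem a)⟩, const_mem a⟩

theorem cst_sh (a : Fin 3) : shX_AX.restrict shX AX AX (cst a) = cst a := rfl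

theorem cst_dist (a b : Fin 3) : dist (cst a) (cst b) ≤ if a ≠ b then 1 else 0 := by
  split_ifs with h
  · exact dist_le_one' _ _
  · push Not at h
    rw [h, dist_self]

/-- uniform smallness of the jumps -/
theorem W_pseudo {δ : ℝ} (hδ : 0 < δ) : ∃ N : ℕ, ∀ n ≥ N, ∀ k : ℕ,
    (∑ i ∈ Finset.range n, dist (shX_AX.restrict shX AX AX (cst (W (i + k))))
      (cst (W (i + k + 1)))) / n < δ := by
  obtain ⟨m, hm⟩ : ∃ m : ℕ, (1 / 2 : ℝ) ^ m < δ / 2 :=
    exists_pow_lt_of_lt_one (by positivity) (by norm_num)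
  obtain ⟨N, hN⟩ : ∃ N : ℕ, 2 * (m + 1 : ℝ) / δ < N := exists_nat_gt _
  refine ⟨N + 1, fun n hn k => ?_⟩
  have hn0 : (0 : ℝ) < n := by
    have : 0 < n := by omega
    exact_mod_cast this
  have hnN : (N : ℝ) ≤ n := by
    have : N ≤ n := by omega
    exact_mod_cast this
  rw [div_lt_iff₀ hn0]
  have h1 : ∑ i ∈ Finset.range n, dist (shX_AX.restrict shX AX AX (cst (W (i + k))))
      (cst (W (i + k + 1))) ≤
      (((Finset.range n).filter fun i => W (i + k) ≠ W (i + k + 1)).card : ℝ) := by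
    rw [Finset.card_filter]
    push_cast
    refine Finset.sum_le_sum fun i _ => ?_
    rw [cst_sh]
    exact cst_dist _ _
  have h2 : (((Finset.range n).filter fun i => W (i + k) ≠ W (i + k + 1)).card : ℝ) ≤
      m + ((n / 2 ^ m : ℕ) + 1) := by
    have h3 := W_jumps m k n
    have h4 : ((Finset.range n).filter fun i => W (i + k) ≠ W (i + k + 1)).card ≤
        m + (n / 2 ^ m + 1) := by
      convert h3
    exact_mod_cast h4
  have h3 : ((n / 2 ^ m : ℕ) : ℝ) ≤ n * (1 / 2) ^ m := by
    refine Nat.cast_div_le.trans_eq ?_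
    push_cast
    rw [one_div, inv_pow, div_eq_mul_inv]
  have h4 : 2 * (m + 1 : ℝ) < δ * n := by
    rw [div_lt_iff₀ hδ] at hN
    nlinarith
  nlinarith

/-- no point of `AX` shadows the doubling-run sequence -/
theorem no_shadow (y : AX) : ¬ ∀ᶠ n : ℕ in atTop,
    (∑ i ∈ Finset.range n, dist ((shX_AX.restrict shX AX AX)^[i] y) (cst (W i))) / n < 1 / 64 := by
  intro hev
  rw [eventually_atTop] at hev
  obtain ⟨N, hN⟩ := hev
  have hNN : N ≤ NN N := by
    unfold NN
    have h1 : N < 2 ^ N := Nat.lt_two_pow_self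
    have h2 : 2 ^ N ≤ 2 ^ (N ^ 2 + 4) := Nat.pow_le_pow_right (by norm_num) (by nlinarith)
    omega
  refine y.2 N 0 fun k hk1 hk2 => ?_
  have hk0 : (0 : ℝ) < k := by
    have : 0 < k := lt_of_lt_of_le (NN_pos N) hk1
    exact_mod_cast this
  have h1 := hN k (by omega)
  rw [div_lt_iff₀ hk0] at h1
  have h2 : (err (((y : Xs) : ℕ → Fin 3)) 0 k : ℝ) ≤
      ∑ i ∈ Finset.range k, dist ((shX_AX.restrict shX AX AX)^[i] y) (cst (W i)) := by
    unfold err
    rw [Finset.card_filter]
    push_cast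
    refine Finset.sum_le_sum fun i _ => ?_
    split_ifs with h3
    · rw [Subtype.dist_eq, Subtype.dist_eq, shX_AX.coe_iterate_restrict, shX_iter, sh_iter]
      refine one_le_dist ?_
      exact h3
    · exact dist_nonneg
  have h3 : (64 : ℝ) * err (((y : Xs) : ℕ → Fin 3)) 0 k < k := by linarith
  exact_mod_cast h3

theorem not_ASP_AX : ¬ ASP (shX_AX.restrict shX AX AX) := by
  intro h
  obtain ⟨δ, hδ, h1⟩ := h (1 / 64) (by norm_num)
  obtain ⟨y, hy⟩ := h1 (fun j => cst (W j)) (W_pseudo hδ)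
  refine no_shadow y (eventually_lt_of_limsup_lt hy ?_)
  refine isBoundedUnder_of ⟨1, fun n => ?_⟩
  refine div_le_one_of_le₀ ?_ (Nat.cast_nonneg _)
  refine (Finset.sum_le_sum (g := fun _ => (1 : ℝ)) fun i _ => dist_le_one' _ _).trans ?_
  simp

theorem not_AASP_AX : ¬ AASP (shX_AX.restrict shX AX AX) := by
  intro h
  obtain ⟨y, hy⟩ := h (fun j => cst (W j)) (by
    rw [Metric.tendsto_atTop]
    intro δ hδ
    obtain ⟨N, hN⟩ := W_pseudo hδ
    refine ⟨N, fun n hn => ?_⟩
    rw [Real.dist_eq, sub_zero, abs_of_nonneg (by positivity)]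
    exact hN n hn 0)
  exact no_shadow y (hy.eventually_lt_const (by norm_num))

/-! ### The measure center -/

theorem null_Occ (i : ℕ) (μ : Measure Xs) (hμ : IsProbabilityMeasure μ)
    (hf : MeasurePreserving shX μ μ) : μ {z : Xs | Occ i z 0} = 0 := by
  classical
  have hcl : IsClopen {z : Xs | Occ i z 0} := (isClopen_Occ i 0).preimage continuous_subtype_val
  set V : Set Xs := {z : Xs | Occ i z 0} with hV
  have hVm : MeasurableSet V := hcl.isOpen.measurableSet
  have h1 : ∀ N : ℕ, (N : ℝ≥0∞) * μ V ≤ (BB i + 1 : ℕ) := by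
    intro N
    have h2 : ∀ p, μ (shX^[p] ⁻¹' V) = μ V := fun p =>
      (hf.iterate p).measure_preimage hVm.nullMeasurableSet
    have h3 : (N : ℝ≥0∞) * μ V = ∑ p ∈ Finset.range N, μ (shX^[p] ⁻¹' V) := by
      simp_rw [h2]
      rw [Finset.sum_const, Finset.card_range, nsmul_eq_mul]
    have h4 : ∀ p, μ (shX^[p] ⁻¹' V) = ∫⁻ z, (shX^[p] ⁻¹' V).indicator 1 z ∂μ := fun p => by
      rw [lintegral_indicator_one]
      exact (hf.iterate p).measurable hVm
    rw [h3]
    simp_rw [h4]
    rw [← lintegral_finsetSum]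
    · refine (lintegral_mono (g := fun _ => ((BB i + 1 : ℕ) : ℝ≥0∞)) fun z => ?_).trans ?_
      · have h5 : ∑ p ∈ Finset.range N, (shX^[p] ⁻¹' V).indicator (1 : Xs → ℝ≥0∞) z =
            (((Finset.range N).filter (Occ i (z : ℕ → Fin 3))).card : ℝ≥0∞) := by
          rw [Finset.card_filter]
          push_cast
          refine Finset.sum_congr rfl fun p _ => ?_
          rw [Set.indicator_apply]
          have h6 : z ∈ shX^[p] ⁻¹' V ↔ Occ i (z : ℕ → Fin 3) p := by
            rw [mem_preimage, hV, Set.mem_ofPred_eq, shX_iter, Occ_iter, zero_add]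
          simp only [h6, Pi.one_apply]
        simp only
        rw [h5]
        exact_mod_cast count_Xs z.2 i (Finset.range N)
      · rw [lintegral_const, measure_univ, mul_one]
    · intro p _
      exact (measurable_const.indicator ((hf.iterate p).measurable hVm))
  by_contra hne
  have hpos : 0 < μ.real V := by
    rw [Measure.real]
    exact ENNReal.toReal_pos hne (measure_ne_top μ V)
  obtain ⟨N, hN⟩ := exists_nat_gt (((BB i + 1 : ℕ) : ℝ) / μ.real V)
  rw [div_lt_iff₀ hpos] at hN
  have h2 := ENNReal.toReal_mono (ENNReal.natCast_ne_top _) (h1 N)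
  rw [ENNReal.toReal_mul, ENNReal.toReal_natCast, ENNReal.toReal_natCast] at h2
  exact absurd hN (not_lt.2 h2)

theorem center_sub : measureCenter shX ⊆ AX := by
  intro z hz
  by_contra hno
  apply hz
  have h1 : ∃ i p, Occ i (z : ℕ → Fin 3) p := by
    by_contra h
    push Not at h
    exact hno fun i p => h i p
  obtain ⟨i, p, hip⟩ := h1
  refine mem_sUnion.2 ⟨{w : Xs | Occ i (w : ℕ → Fin 3) p}, ⟨?_, ?_⟩, hip⟩
  · exact (isClopen_Occ i p).isOpen.preimage continuous_subtype_val
  · intro μ hμ hf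
    have h2 : {w : Xs | Occ i (w : ℕ → Fin 3) p} = shX^[p] ⁻¹' {w : Xs | Occ i w 0} := by
      ext w
      rw [mem_preimage, Set.mem_ofPred_eq, Set.mem_ofPred_eq, shX_iter, Occ_iter, zero_add]
    have hVm : MeasurableSet {w : Xs | Occ i w 0} :=
      ((isClopen_Occ i 0).preimage continuous_subtype_val).isOpen.measurableSet
    rw [h2, (hf.iterate p).measure_preimage hVm.nullMeasurableSet]
    exact null_Occ i μ hμ hf

end Q70.Sh
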