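import Mathlib

/-!
# Uniquely ergodic maps: convergence of empirical measures
-/

set_option autoImplicit false

open MeasureTheory Set Filter Topology
open scoped ENNReal NNReal

namespace Q70.Ue

variable {Y : Type*} [TopologicalSpace Y] [CompactSpace Y] [TopologicalSpace.MetrizableSpace Y]
  [MeasurableSpace Y] [BorelSpace Y]

/-- The empirical measure of the orbit segment of length `l` starting at `y`. -/
noncomputable def emp (R : Y → Y) (y : Y) (l : ℕ) : Measure Y :=
  (l : ℝ≥0∞)⁻¹ • ∑ i ∈ Finset.range l, Measure.dirac (R^[i] y)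

theorem emp_prob (R : Y → Y) (y : Y) {l : ℕ} (hl : 0 < l) : IsProbabilityMeasure (emp R y l) := by
  constructor
  unfold emp
  rw [Measure.smul_apply, Measure.finsetSum_apply]
  simp only [measure_univ, Finset.sum_const, Finset.card_range, nsmul_eq_mul, mul_one, smul_eq_mul]
  exact ENNReal.inv_mul_cancel (by exact_mod_cast hl.ne') (by simp)

theorem emp_integral (R : Y → Y) (y : Y) (l : ℕ) (φ : C(Y, ℝ)) :
    ∫ z, φ z ∂(emp R y l) = (l : ℝ)⁻¹ * ∑ i ∈ Finset.range l, φ (R^[i] y) := by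
  unfold emp
  rw [integral_smul_measure, integral_finsetSum_measure]
  · simp [integral_dirac]
  · intro i _
    exact (BoundedContinuousFunction.mkOfCompact φ).integrable _

open Classical in
theorem emp_apply (R : Y → Y) (y : Y) (l : ℕ) {A : Set Y} (hA : MeasurableSet A) :
    emp R y l A = (l : ℝ≥0∞)⁻¹ * (((Finset.range l).filter fun i => R^[i] y ∈ A).card : ℝ≥0∞) := by
  unfold emp
  rw [Measure.smul_apply, Measure.finsetSum_apply, smul_eq_mul]
  congr 1
  simp_rw [Measure.dirac_apply' _ hA]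
  rw [Finset.card_filter]
  push_cast
  refine Finset.sum_congr rfl fun i _ => ?_
  by_cases h : R^[i] y ∈ A
  · simp [h]
  · simp [h]

theorem meas_ext {m n : Measure Y} [IsFiniteMeasure m] [IsFiniteMeasure n]
    (h : ∀ φ : C(Y, ℝ), ∫ p, φ p ∂m = ∫ p, φ p ∂n) : m = n :=
  ext_of_forall_integral_eq_of_IsFiniteMeasure fun f => h f.toContinuousMap

/-- bundling a probability measure -/
def mkP (μ : Measure Y) (h : IsProbabilityMeasure μ) : ProbabilityMeasure Y := ⟨μ, h⟩

/-- `μ` is the only invariant probability measure of `R`. -/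
def UE (R : Y → Y) (μ : Measure Y) : Prop :=
  IsProbabilityMeasure μ ∧ μ.map R = μ ∧
    ∀ ν : Measure Y, IsProbabilityMeasure ν → ν.map R = ν → ν = μ

/-- Empirical measures of longer and longer orbit segments converge to the unique invariant
measure. -/
theorem emp_tendsto {R : Y → Y} (hR : Continuous R) {μ : Measure Y} (hμ : UE R μ)
    (y : ℕ → Y) (l : ℕ → ℕ) (hl : Tendsto l atTop atTop) (hpos : ∀ j, 0 < l j) :
    Tendsto (fun j => mkP (emp R (y j) (l j)) (emp_prob R (y j) (hpos j))) atTop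
      (𝓝 (mkP μ hμ.1)) := by
  rw [tendsto_iff_ultrafilter]
  intro g hg
  set F : ℕ → ProbabilityMeasure Y := fun j => mkP (emp R (y j) (l j)) (emp_prob R (y j) (hpos j))
    with hF
  have hlim : Tendsto F g (𝓝 (g.map F).lim) := (g.map F).le_nhds_lim
  set ν : ProbabilityMeasure Y := (g.map F).lim with hν
  have hφ : ∀ φ : C(Y, ℝ), Tendsto (fun j => (l j : ℝ)⁻¹ * ∑ i ∈ Finset.range (l j),
      φ (R^[i] (y j))) g (𝓝 (∫ z, φ z ∂(ν : Measure Y))) := by
    intro φ
    have h1 := (ProbabilityMeasure.continuous_integral_continuousMap (X := Y) φ).tendsto ν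
    have h2 := h1.comp hlim
    refine h2.congr fun j => ?_
    exact emp_integral R (y j) (l j) φ
  have hinv : (ν : Measure Y).map R = ν := by
    have hp : IsProbabilityMeasure ((ν : Measure Y).map R) :=
      Measure.isProbabilityMeasure_map hR.measurable.aemeasurable
    refine meas_ext fun φ => ?_
    rw [integral_map hR.measurable.aemeasurable φ.continuous.aestronglyMeasurable]
    have h1 := hφ φ
    have h2 := hφ (φ.comp ⟨R, hR⟩)
    simp only [ContinuousMap.comp_apply, ContinuousMap.coe_mk] at h2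
    have h3 : Tendsto (fun j => (l j : ℝ)⁻¹ * ∑ i ∈ Finset.range (l j), φ (R (R^[i] (y j))) -
        (l j : ℝ)⁻¹ * ∑ i ∈ Finset.range (l j), φ (R^[i] (y j))) g (𝓝 0) := by
      have h4 : Tendsto (fun j => 2 * ‖φ‖ / (l j : ℝ)) atTop (𝓝 0) :=
        Tendsto.div_atTop tendsto_const_nhds (tendsto_natCast_atTop_atTop.comp hl)
      refine squeeze_zero_norm (fun j => ?_) (h4.mono_left hg)
      rw [← mul_sub, ← Finset.sum_sub_distrib]
      have h5 : ∀ i, R (R^[i] (y j)) = R^[i + 1] (y j) := fun i =>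
        (Function.iterate_succ_apply' R i (y j)).symm
      simp_rw [h5]
      rw [Finset.sum_range_sub (fun i => φ (R^[i] (y j)))]
      rw [norm_mul, norm_inv, Real.norm_natCast, div_eq_inv_mul]
      refine mul_le_mul_of_nonneg_left ?_ (by positivity)
      refine (norm_sub_le _ _).trans ?_
      have := φ.norm_coe_le_norm (R^[l j] (y j))
      have := φ.norm_coe_le_norm (R^[0] (y j))
      linarith
    have h6 := tendsto_nhds_unique (h2.sub h1) h3
    linarith
  have heq : (ν : Measure Y) = μ := hμ.2.2 ν inferInstance hinv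
  have : mkP μ hμ.1 = ν := Subtype.ext heq.symm
  rw [this]
  exact hlim

open Classical in
/-- number of visits -/
noncomputable def cnt (R : Y → Y) (y : Y) (l : ℕ) (A : Set Y) : ℕ :=
  ((Finset.range l).filter fun i => R^[i] y ∈ A).card

theorem open_visits {R : Y → Y} (hR : Continuous R) {μ : Measure Y} (hμ : UE R μ)
    (y : ℕ → Y) (l : ℕ → ℕ) (hl : Tendsto l atTop atTop) (hpos : ∀ j, 0 < l j)
    {O : Set Y} (hO : IsOpen O) {δ : ℝ} (hδ0 : 0 ≤ δ) (hδ : δ < μ.real O) :
    ∀ᶠ j in atTop, δ * l j < cnt R (y j) (l j) O := by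
  have h1 := ProbabilityMeasure.le_liminf_measure_open_of_tendsto (emp_tendsto hR hμ y l hl hpos) hO
  have hp := hμ.1
  have h2 : ENNReal.ofReal δ < μ O := by
    rw [← ofReal_measureReal (μ := μ) (s := O)]
    exact (ENNReal.ofReal_lt_ofReal_iff_of_nonneg hδ0).2 hδ
  have h3 := lt_of_lt_of_le h2 h1
  have h4 := eventually_lt_of_lt_liminf h3
  filter_upwards [h4] with j hj
  simp only [mkP, ProbabilityMeasure.coe_mk] at hj
  rw [emp_apply R (y j) (l j) hO.measurableSet] at hj
  have h5 : ((l j : ℝ≥0∞)⁻¹ * (cnt R (y j) (l j) O : ℝ≥0∞))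
      = ENNReal.ofReal ((cnt R (y j) (l j) O : ℝ) / l j) := by
    rw [ENNReal.ofReal_div_of_pos (by exact_mod_cast hpos j)]
    simp [ENNReal.div_eq_inv_mul]
  change ENNReal.ofReal δ < (l j : ℝ≥0∞)⁻¹ * (cnt R (y j) (l j) O : ℝ≥0∞) at hj
  rw [h5] at hj
  have h6 := (ENNReal.ofReal_lt_ofReal_iff_of_nonneg hδ0).1 hj
  have hlp : (0 : ℝ) < l j := by exact_mod_cast hpos j
  rwa [lt_div_iff₀ hlp] at h6

theorem closed_visits {R : Y → Y} (hR : Continuous R) {μ : Measure Y} (hμ : UE R μ)
    (y : ℕ → Y) (l : ℕ → ℕ) (hl : Tendsto l atTop atTop) (hpos : ∀ j, 0 < l j)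
    {C : Set Y} (hC : IsClosed C) {δ : ℝ} (hδ : μ.real C < δ) :
    ∀ᶠ j in atTop, (cnt R (y j) (l j) C : ℝ) < δ * l j := by
  have h1 := ProbabilityMeasure.limsup_measure_closed_le_of_tendsto
    (emp_tendsto hR hμ y l hl hpos) hC
  have hp := hμ.1
  have h2 : μ C < ENNReal.ofReal δ := by
    rw [← ofReal_measureReal (μ := μ) (s := C)]
    exact (ENNReal.ofReal_lt_ofReal_iff_of_nonneg measureReal_nonneg).2 hδ
  have h3 := lt_of_le_of_lt h1 h2
  have h4 := eventually_lt_of_limsup_lt h3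
  filter_upwards [h4] with j hj
  simp only [mkP, ProbabilityMeasure.coe_mk] at hj
  rw [emp_apply R (y j) (l j) hC.measurableSet] at hj
  have h5 : ((l j : ℝ≥0∞)⁻¹ * (cnt R (y j) (l j) C : ℝ≥0∞))
      = ENNReal.ofReal ((cnt R (y j) (l j) C : ℝ) / l j) := by
    rw [ENNReal.ofReal_div_of_pos (by exact_mod_cast hpos j)]
    simp [ENNReal.div_eq_inv_mul]
  change (l j : ℝ≥0∞)⁻¹ * (cnt R (y j) (l j) C : ℝ≥0∞) < ENNReal.ofReal δ at hj
  rw [h5] at hj
  have h6 := (ENNReal.ofReal_lt_ofReal_iff_of_nonneg (by positivity)).1 hj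
  have hlp : (0 : ℝ) < l j := by exact_mod_cast hpos j
  rwa [div_lt_iff₀ hlp] at h6

end Q70.Ue
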