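import Pool.Agent.Q70.UeA

/-!
# The product of a uniquely ergodic system with a rotation by a non-eigenvalue
-/

set_option autoImplicit false

open MeasureTheory Set Filter Topology
open scoped ENNReal NNReal InnerProductSpace ComplexConjugate

namespace Q70.Ue

section hilbert

variable {H : Type*} [NormedAddCommGroup H] [InnerProductSpace ℂ H] [CompleteSpace H]

/-- `lam` is an eigenvalue of the isometry `U` -/
def IsEig (U : H →ₗᵢ[ℂ] H) (lam : ℂ) : Prop := ∃ g : H, g ≠ 0 ∧ U g = lam • g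

omit [CompleteSpace H] in
theorem eig_norm {U : H →ₗᵢ[ℂ] H} {lam : ℂ} {g : H} (hg : g ≠ 0) (h : U g = lam • g) :
    ‖lam‖ = 1 := by
  have h1 : ‖U g‖ = ‖g‖ := U.norm_map g
  rw [h, norm_smul] at h1
  have h2 : 0 < ‖g‖ := norm_pos_iff.2 hg
  have h3 : (‖lam‖ - 1) * ‖g‖ = 0 := by linarith
  rcases mul_eq_zero.1 h3 with h4 | h4
  · linarith
  · exact absurd h4 h2.ne'

omit [CompleteSpace H] in
theorem eig_orth {U : H →ₗᵢ[ℂ] H} {a b : ℂ} {g h : H} (hg0 : g ≠ 0) (hg : U g = a • g)
    (hh : U h = b • h) (hab : a ≠ b) : ⟪g, h⟫_ℂ = 0 := by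
  by_contra hne
  have h1 : ⟪U g, U h⟫_ℂ = ⟪g, h⟫_ℂ := U.inner_map_map g h
  rw [hg, hh, inner_smul_left, inner_smul_right] at h1
  have h2 : conj a * b = 1 := by
    have h3 : (conj a * b - 1) * ⟪g, h⟫_ℂ = 0 := by linear_combination h1
    rcases mul_eq_zero.1 h3 with h4 | h4
    · linear_combination h4
    · exact absurd h4 hne
  have ha : ‖a‖ = 1 := eig_norm hg0 hg
  have h4 : a * conj a = 1 := by
    rw [Complex.mul_conj, Complex.normSq_eq_norm_sq, ha]; norm_num
  apply hab
  calc a = a * (conj a * b) := by rw [h2, mul_one]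
    _ = (a * conj a) * b := by ring
    _ = b := by rw [h4, one_mul]

omit [CompleteSpace H] in
theorem eig_countable [SecondCountableTopology H] (U : H →ₗᵢ[ℂ] H) :
    {lam : ℂ | IsEig U lam}.Countable := by
  have hch : ∀ l : {lam : ℂ | IsEig U lam}, ∃ g : H, ‖g‖ = 1 ∧ U g = (l : ℂ) • g := by
    rintro ⟨l, g, hg, h⟩
    refine ⟨(‖g‖⁻¹ : ℂ) • g, ?_, ?_⟩
    · rw [norm_smul, norm_inv, Complex.norm_real, norm_norm, inv_mul_cancel₀ (norm_ne_zero_iff.2 hg)]
    · have h1 : U ((‖g‖⁻¹ : ℂ) • g) = l • ((‖g‖⁻¹ : ℂ) • g) := by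
        rw [map_smul, h, smul_comm]
      exact h1
  choose e he1 he2 using hch
  have hdisj : (univ : Set {lam : ℂ | IsEig U lam}).PairwiseDisjoint
      (fun l => Metric.ball (e l) (1 / 2)) := by
    intro l _ l' _ hne
    refine Set.disjoint_left.2 fun z hz hz' => ?_
    have h0 : e l ≠ 0 := by
      intro h
      have := he1 l
      rw [h, norm_zero] at this
      exact zero_ne_one this
    have h1 : ⟪e l, e l'⟫_ℂ = 0 :=
      eig_orth h0 (he2 l) (he2 l') (fun h => hne (Subtype.ext h))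
    have h2 : ‖e l - e l'‖ ^ 2 = 2 := by
      rw [@norm_sub_sq ℂ, h1, he1, he1]
      norm_num
    have h3 : ‖e l - e l'‖ < 1 := by
      calc ‖e l - e l'‖ = dist (e l) (e l') := (dist_eq_norm _ _).symm
        _ ≤ dist (e l) z + dist z (e l') := dist_triangle _ _ _
        _ < 1 / 2 + 1 / 2 := by
            rw [Metric.mem_ball] at hz hz'
            rw [dist_comm (e l) z]
            exact add_lt_add hz hz'
        _ = 1 := by norm_num
    have h4 : ‖e l - e l'‖ ^ 2 < 1 := by
      have := norm_nonneg (e l - e l')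
      nlinarith
    linarith
  have h1 : (univ : Set {lam : ℂ | IsEig U lam}).Countable :=
    hdisj.countable_of_isOpen (fun l _ => Metric.isOpen_ball)
      (fun l _ => ⟨e l, Metric.mem_ball_self (by norm_num)⟩)
  exact Set.countable_coe_iff.1 (countable_univ_iff.1 h1)

/-- if the adjoint of an isometry has an eigenvector with a unimodular eigenvalue, then so does the
isometry. -/
theorem eig_of_adjoint {U : H →ₗᵢ[ℂ] H} {lam : ℂ} (hl : ‖lam‖ = 1) {g : H}
    (h : ContinuousLinearMap.adjoint U.toContinuousLinearMap g = conj lam • g) : U g = lam • g := by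
  have hll : lam * conj lam = 1 := by
    rw [Complex.mul_conj, Complex.normSq_eq_norm_sq, hl]; norm_num
  have h1 : ⟪U g, lam • g⟫_ℂ = (‖g‖ : ℂ) ^ 2 := by
    rw [inner_smul_right]
    have h2 : ⟪U g, g⟫_ℂ = ⟪g, ContinuousLinearMap.adjoint U.toContinuousLinearMap g⟫_ℂ := by
      rw [ContinuousLinearMap.adjoint_inner_right]
      rfl
    rw [h2, h, inner_smul_right, ← mul_assoc, hll, one_mul, inner_self_eq_norm_sq_to_K]
    rfl
  have h2 : ‖U g - lam • g‖ ^ 2 = 0 := by
    rw [@norm_sub_sq ℂ, h1, U.norm_map, norm_smul, hl, one_mul]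
    have h3 : RCLike.re ((‖g‖ : ℂ) ^ 2) = ‖g‖ ^ 2 := by
      rw [← Complex.ofReal_pow]
      exact Complex.ofReal_re _
    rw [h3]
    ring
  have h3 : ‖U g - lam • g‖ = 0 := by simpa using h2
  exact sub_eq_zero.1 (norm_eq_zero.1 h3)

end hilbert

variable {X : Type*} [TopologicalSpace X] [CompactSpace X] [TopologicalSpace.MetrizableSpace X]
  [MeasurableSpace X] [BorelSpace X]

/-- Koopman operator -/
noncomputable def koop {T : X → X} {μ : Measure X} (h : MeasurePreserving T μ μ) :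
    Lp ℂ 2 μ →ₗᵢ[ℂ] Lp ℂ 2 μ := Lp.compMeasurePreservingₗᵢ ℂ T h

/-- the circle -/
abbrev 𝕋 : Type := UnitAddCircle

/-- product with a rotation -/
def rot (T : X → X) (a : 𝕋) : X × 𝕋 → X × 𝕋 := fun p => (T p.1, p.2 + a)

theorem rot_continuous {T : X → X} (hT : Continuous T) (a : 𝕋) : Continuous (rot T a) :=
  (hT.comp continuous_fst).prodMk (continuous_snd.add continuous_const)

theorem fourier_add_point (n : ℤ) (x y : 𝕋) :
    fourier n (x + y) = fourier n x * (fourier n y : ℂ) := by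
  simp only [fourier_apply, smul_add, AddCircle.toCircle_add, Circle.coe_mul]

theorem fourier_norm_one (n : ℤ) (x : 𝕋) : ‖(fourier n x : ℂ)‖ = 1 := by
  simp only [fourier_apply]
  exact Circle.norm_coe _

/-- the key orthogonality: no correlation with the rotation. -/
theorem no_corr {T : X → X} (hT : Continuous T) {μ : Measure X} [IsProbabilityMeasure μ]
    (hμT : MeasurePreserving T μ μ) (a : 𝕋) {n : ℤ} (hn : ¬ IsEig (koop hμT) (fourier n a))
    {ν : Measure (X × 𝕋)} [IsProbabilityMeasure ν] (hν : MeasurePreserving (rot T a) ν ν)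
    (hfst : MeasurePreserving Prod.fst ν μ) (φ : C(X, ℂ)) :
    ∫ p, φ p.1 * fourier n p.2 ∂ν = 0 := by
  set lam : ℂ := fourier n a with hlam
  have hl : ‖lam‖ = 1 := fourier_norm_one n a
  have hll : lam * conj lam = 1 := by
    rw [Complex.mul_conj, Complex.normSq_eq_norm_sq, hl]; norm_num
  have hcont : Continuous fun p : X × 𝕋 => (fourier n p.2 : ℂ) := by fun_prop
  have hmem : MemLp (fun p : X × 𝕋 => (fourier n p.2 : ℂ)) 2 ν := by
    refine MemLp.of_bound hcont.aestronglyMeasurable 1 (ae_of_all _ fun p => ?_)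
    exact (fourier_norm_one n p.2).le
  set h : Lp ℂ 2 ν := hmem.toLp _ with hh
  let iX : Lp ℂ 2 μ →ₗᵢ[ℂ] Lp ℂ 2 ν := Lp.compMeasurePreservingₗᵢ ℂ Prod.fst hfst
  let W : Lp ℂ 2 ν →ₗᵢ[ℂ] Lp ℂ 2 ν := koop hν
  have hW : W h = lam • h := by
    have h1 : W h = (hmem.comp_measurePreserving hν).toLp _ := rfl
    rw [h1, hh, ← MemLp.toLp_const_smul]
    refine MemLp.toLp_congr _ _ (ae_of_all _ fun p => ?_)
    simp only [Function.comp_apply, rot, Pi.smul_apply, smul_eq_mul, fourier_add_point]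
    rw [mul_comm]
  have hWX : ∀ f, W (iX f) = iX (koop hμT f) := by
    intro f
    rcases f with ⟨⟨_⟩, _⟩
    rfl
  set Wc := W.toContinuousLinearMap with hWc
  set Xc := iX.toContinuousLinearMap with hXc
  set Uc := (koop hμT).toContinuousLinearMap with hUc
  have hcomm : Wc.comp Xc = Xc.comp Uc := by
    ext1 f
    exact hWX f
  have hadj : (ContinuousLinearMap.adjoint Xc).comp (ContinuousLinearMap.adjoint Wc)
      = (ContinuousLinearMap.adjoint Uc).comp (ContinuousLinearMap.adjoint Xc) := by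
    rw [← ContinuousLinearMap.adjoint_comp, ← ContinuousLinearMap.adjoint_comp, hcomm]
  have hWadj : ContinuousLinearMap.adjoint Wc h = conj lam • h := by
    have h1 : ContinuousLinearMap.adjoint Wc (Wc h) = h := by
      refine ext_inner_left ℂ fun k => ?_
      rw [ContinuousLinearMap.adjoint_inner_right]
      exact W.inner_map_map k h
    have h2 : Wc h = lam • h := hW
    rw [h2, map_smul] at h1
    calc ContinuousLinearMap.adjoint Wc h
        = (conj lam * lam) • ContinuousLinearMap.adjoint Wc h := by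
          rw [mul_comm, hll, one_smul]
      _ = conj lam • (lam • ContinuousLinearMap.adjoint Wc h) := by rw [mul_smul]
      _ = conj lam • h := by rw [h1]
  set g := ContinuousLinearMap.adjoint Xc h with hg
  have hUg : ContinuousLinearMap.adjoint Uc g = conj lam • g := by
    have h1 := congrArg (fun L => L h) hadj
    simp only [ContinuousLinearMap.comp_apply] at h1
    rw [hg, ← h1, hWadj, map_smul]
  have hg0 : g = 0 := by
    by_contra hne
    exact hn ⟨g, hne, eig_of_adjoint hl hUg⟩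
  -- conclude
  have hφmem : MemLp (fun x : X => conj (φ x)) 2 μ := by
    refine MemLp.of_bound (Complex.continuous_conj.comp φ.continuous).aestronglyMeasurable ‖φ‖
      (ae_of_all _ fun x => ?_)
    rw [RCLike.norm_conj]
    exact φ.norm_coe_le_norm x
  have h1 : ⟪Xc (hφmem.toLp _), h⟫_ℂ = 0 := by
    rw [← ContinuousLinearMap.adjoint_inner_right, ← hg, hg0, inner_zero_right]
  rw [L2.inner_def] at h1
  rw [← h1]
  refine integral_congr_ae ?_
  have h2 : (Xc (hφmem.toLp _) : X × 𝕋 → ℂ) =ᵐ[ν] fun p => conj (φ p.1) := by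
    have h3 : Xc (hφmem.toLp _) = (hφmem.comp_measurePreserving hfst).toLp _ := rfl
    rw [h3]
    exact MemLp.coeFn_toLp _
  filter_upwards [h2, hmem.coeFn_toLp] with p h4 h5
  rw [h4, hh, h5]
  simp [mul_comm]

/-- The set of angles some nonzero multiple of which is an eigenvalue. -/
def bad {T : X → X} {μ : Measure X} (h : MeasurePreserving T μ μ) : Set ℝ :=
  {r | ∃ n : ℤ, n ≠ 0 ∧ IsEig (koop h) (fourier n (r : 𝕋))}

theorem bad_countable {T : X → X} {μ : Measure X} [IsProbabilityMeasure μ]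
    (h : MeasurePreserving T μ μ) : (bad h).Countable := by
  have h1 : bad h ⊆ ⋃ n : ℤ, ⋃ lam ∈ {lam : ℂ | IsEig (koop h) lam},
      {r : ℝ | n ≠ 0 ∧ (fourier n (r : 𝕋) : ℂ) = lam} := by
    rintro r ⟨n, hn, hr⟩
    exact mem_iUnion.2 ⟨n, mem_iUnion₂.2 ⟨_, hr, hn, rfl⟩⟩
  refine Set.Countable.mono h1 (countable_iUnion fun n => ?_)
  have : Fact ((2 : ℝ≥0∞) ≠ ∞) := ⟨by norm_num⟩
  refine (eig_countable (koop h)).biUnion fun lam _ => ?_
  by_cases hne : ∃ r₀ : ℝ, n ≠ 0 ∧ (fourier n (r₀ : 𝕋) : ℂ) = lam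
  · obtain ⟨r₀, hn, hr₀⟩ := hne
    have h2 : {r : ℝ | n ≠ 0 ∧ (fourier n (r : 𝕋) : ℂ) = lam} ⊆
        Set.range fun m : ℤ => r₀ + m / n := by
      rintro r ⟨_, hr⟩
      have h3 : (fourier n (r : 𝕋) : ℂ) = fourier n (r₀ : 𝕋) := by rw [hr, hr₀]
      rw [fourier_coe_apply, fourier_coe_apply, Complex.exp_eq_exp_iff_exists_int] at h3
      obtain ⟨m, hm⟩ := h3
      refine ⟨m, ?_⟩
      have hn' : (n : ℂ) ≠ 0 := by exact_mod_cast hn
      have h4 : (2 * (Real.pi : ℂ) * Complex.I) ≠ 0 := Complex.two_pi_I_ne_zero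
      have h5 : (2 * (Real.pi : ℂ) * Complex.I) * ((n : ℂ) * r) =
          (2 * (Real.pi : ℂ) * Complex.I) * ((n : ℂ) * r₀ + m) := by
        have h6 := hm
        simp only [Complex.ofReal_one, div_one] at h6
        linear_combination h6
      have h6 := mul_left_cancel₀ h4 h5
      have h7 : (n : ℝ) * r = n * r₀ + m := by exact_mod_cast h6
      have hn'' : (n : ℝ) ≠ 0 := by exact_mod_cast hn
      simp only
      field_simp
      linarith
    exact (countable_range _).mono h2
  · have : {r : ℝ | n ≠ 0 ∧ (fourier n (r : 𝕋) : ℂ) = lam} = ∅ := by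
      ext r
      simp only [Set.mem_ofPred_eq, mem_empty_iff_false, iff_false]
      intro hr
      exact hne ⟨r, hr⟩
    rw [this]
    exact countable_empty

theorem haar_inv (a : 𝕋) : MeasurePreserving (fun x : 𝕋 => x + a)
    (AddCircle.haarAddCircle (T := 1)) (AddCircle.haarAddCircle (T := 1)) :=
  measurePreserving_add_right _ a

/-- **The product with a rotation by a non-eigenvalue is uniquely ergodic.** -/
theorem prod_UE {T : X → X} (hT : Continuous T) {μ : Measure X} (hμ : UE T μ)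
    (hμT : MeasurePreserving T μ μ) {r : ℝ} (hr : r ∉ bad hμT) :
    UE (rot T (r : 𝕋)) (μ.prod (AddCircle.haarAddCircle (T := 1))) := by
  have hp := hμ.1
  have hinv : MeasurePreserving (rot T (r : 𝕋)) (μ.prod (AddCircle.haarAddCircle (T := 1)))
      (μ.prod (AddCircle.haarAddCircle (T := 1))) := hμT.prod (haar_inv (r : 𝕋))
  refine ⟨inferInstance, hinv.map_eq, ?_⟩
  intro ν hνp hν
  have hcont := rot_continuous hT (r : 𝕋)
  have hmp : MeasurePreserving (rot T (r : 𝕋)) ν ν := ⟨hcont.measurable, hν⟩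
  -- marginals
  have hmarg : ∀ ν' : Measure (X × 𝕋), IsProbabilityMeasure ν' → ν'.map (rot T (r : 𝕋)) = ν' →
      MeasurePreserving Prod.fst ν' μ := by
    intro ν' _ hν'
    refine ⟨measurable_fst, ?_⟩
    refine hμ.2.2 _ (Measure.isProbabilityMeasure_map measurable_fst.aemeasurable) ?_
    rw [Measure.map_map hT.measurable measurable_fst]
    conv_rhs => rw [← hν']
    rw [Measure.map_map measurable_fst hcont.measurable]
    rfl
  have key : ∀ (φ : C(X, ℂ)) (n : ℤ), ∫ p, φ p.1 * fourier n p.2 ∂ν =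
      ∫ p, φ p.1 * fourier n p.2 ∂(μ.prod (AddCircle.haarAddCircle (T := 1))) := by
    intro φ n
    by_cases hn : n = 0
    · subst hn
      have h1 : ∀ ν' : Measure (X × 𝕋), MeasurePreserving Prod.fst ν' μ →
          ∫ p, φ p.1 * fourier 0 p.2 ∂ν' = ∫ x, φ x ∂μ := by
        intro ν' h2
        have h3 : ∀ p : X × 𝕋, φ p.1 * (fourier 0 p.2 : ℂ) = φ p.1 := by
          intro p; simp
        simp_rw [h3]
        rw [← h2.map_eq, integral_map h2.measurable.aemeasurable
          φ.continuous.aestronglyMeasurable]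
      rw [h1 ν (hmarg ν hνp hν), h1 _ (hmarg _ inferInstance hinv.map_eq)]
    · have hne : ¬ IsEig (koop hμT) (fourier n (r : 𝕋)) := fun h => hr ⟨n, hn, h⟩
      rw [no_corr hT hμT _ hne hmp (hmarg ν hνp hν) φ,
        no_corr hT hμT _ hne hinv (hmarg _ inferInstance hinv.map_eq) φ]
  have key2 : ∀ (φ : C(X, ℂ)) (ψ : C(𝕋, ℂ)), ∫ p, φ p.1 * ψ p.2 ∂ν =
      ∫ p, φ p.1 * ψ p.2 ∂(μ.prod (AddCircle.haarAddCircle (T := 1))) := by
    intro φ ψ
    let L : Measure (X × 𝕋) → C(𝕋, ℂ) → ℂ := fun ν' ψ => ∫ p, φ p.1 * ψ p.2 ∂ν'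
    have hint : ∀ (ν' : Measure (X × 𝕋)) [IsProbabilityMeasure ν'] (ψ : C(𝕋, ℂ)),
        Integrable (fun p : X × 𝕋 => φ p.1 * ψ p.2) ν' := by
      intro ν' _ ψ
      have hc : Continuous fun p : X × 𝕋 => φ p.1 * ψ p.2 := by fun_prop
      exact (BoundedContinuousFunction.mkOfCompact ⟨_, hc⟩).integrable ν'
    have hLc : ∀ (ν' : Measure (X × 𝕋)) [IsProbabilityMeasure ν'], Continuous (L ν') := by
      intro ν' _
      have hlip : LipschitzWith (Real.toNNReal ‖φ‖) (L ν') := by
        refine LipschitzWith.of_dist_le_mul fun ψ₁ ψ₂ => ?_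
        rw [Real.coe_toNNReal _ (norm_nonneg _), dist_eq_norm, dist_eq_norm]
        simp only [L]
        rw [← integral_sub (hint ν' ψ₁) (hint ν' ψ₂)]
        have h1 : ∀ᵐ p ∂ν', ‖φ p.1 * ψ₁ p.2 - φ p.1 * ψ₂ p.2‖ ≤ ‖φ‖ * ‖ψ₁ - ψ₂‖ := by
          refine ae_of_all _ fun p => ?_
          rw [← mul_sub, norm_mul]
          exact mul_le_mul (φ.norm_coe_le_norm _) ((ψ₁ - ψ₂).norm_coe_le_norm _) (norm_nonneg _)
            (norm_nonneg _)
        have h2 := norm_integral_le_of_norm_le_const h1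
        simpa using h2
      exact hlip.continuous
    have hspan : ∀ ψ ∈ Submodule.span ℂ (range (@fourier (1 : ℝ))), L ν ψ =
        L (μ.prod (AddCircle.haarAddCircle (T := 1))) ψ := by
      intro ψ hψ
      induction hψ using Submodule.span_induction with
      | mem x hx =>
        obtain ⟨n, rfl⟩ := hx
        exact key φ n
      | zero => simp [L]
      | add x y _ _ hx hy =>
        have hadd : ∀ (ν' : Measure (X × 𝕋)) [IsProbabilityMeasure ν'],
            L ν' (x + y) = L ν' x + L ν' y := by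
          intro ν' _
          simp only [L, ContinuousMap.add_apply, mul_add]
          exact integral_add (hint ν' x) (hint ν' y)
        rw [hadd, hadd, hx, hy]
      | smul c x _ hx =>
        have hsm : ∀ (ν' : Measure (X × 𝕋)), L ν' (c • x) = c * L ν' x := by
          intro ν'
          simp only [L, ContinuousMap.smul_apply, smul_eq_mul]
          rw [← integral_const_mul]
          congr 1
          funext p
          ring
        rw [hsm, hsm, hx]
    have hdense : ψ ∈ closure (Submodule.span ℂ (range (@fourier (1 : ℝ))) : Set C(𝕋, ℂ)) := by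
      have h1 := span_fourier_closure_eq_top (T := 1)
      have h2 : ψ ∈ (Submodule.span ℂ (range (@fourier (1 : ℝ)))).topologicalClosure := by
        rw [h1]; trivial
      exact h2
    exact closure_minimal (s := (Submodule.span ℂ (range (@fourier (1 : ℝ))) : Set C(𝕋, ℂ)))
      (t := {ψ | L ν ψ = L (μ.prod (AddCircle.haarAddCircle (T := 1))) ψ}) hspan
      (isClosed_eq (hLc ν) (hLc _)) hdense
  refine Measure.ext_of_integral_mul_boundedContinuousFunction fun f g => ?_
  let fc : C(X, ℂ) := ⟨fun x => (f x : ℂ), by fun_prop⟩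
  let gc : C(𝕋, ℂ) := ⟨fun x => (g x : ℂ), by fun_prop⟩
  have h1 := key2 fc gc
  have h2 : ∀ ν' : Measure (X × 𝕋), ∫ p, fc p.1 * gc p.2 ∂ν' = ((∫ p, f p.1 * g p.2 ∂ν' : ℝ) : ℂ) := by
    intro ν'
    have h3 : ∀ p : X × 𝕋, fc p.1 * gc p.2 = ((f p.1 * g p.2 : ℝ) : ℂ) := by
      intro p
      simp [fc, gc]
    simp_rw [h3]
    exact integral_ofReal (𝕜 := ℂ)
  rw [h2, h2] at h1
  exact_mod_cast h1

end Q70.Ue
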