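import Mathlib

/-!
# Weak interpolation sets
-/

open Filter Topology

namespace Q70.WeakInterp

universe u

/-- A topological dynamical system on a compact metric space (`T` need not be invertible). -/
structure TDS where
  /-- the space -/
  X : Type u
  [metric : MetricSpace X]
  [compact : CompactSpace X]
  /-- the map -/
  T : X → X
  continuous_T : Continuous T

attribute [instance] TDS.metric TDS.compact

/-- A point is transitive if its forward orbit `{T ^ n x : n ≥ 0}` is dense. -/
def TDS.IsTransitivePoint (A : TDS.{u}) (x : A.X) : Prop :=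
  Dense (Set.range fun n : ℕ => A.T^[n] x)

/-- `S` is a weak interpolation set of order `k` for the class `C` of systems: every function
`f : S → {0, …, k - 1}` is of the form `n ↦ F (T ^ n x)` on `S`, for some system in `C`, some
transitive point `x` and some continuous `F : X → ℂ`. -/
def IsWeakInterpolationSet (C : TDS.{u} → Prop) (k : ℕ) (S : Set ℕ) : Prop :=
  ∀ f : ℕ → ℕ, (∀ n ∈ S, f n < k) →
    ∃ A : TDS.{u}, C A ∧ ∃ x : A.X, A.IsTransitivePoint x ∧ ∃ F : A.X → ℂ, Continuous F ∧
      ∀ n ∈ S, F (A.T^[n] x) = (f n : ℂ)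

/-- `S` is syndetic: for some `L`, every interval `{n, n + 1, …, n + L}` of positive integers
meets `S`. -/
def Syndetic (S : Set ℕ) : Prop :=
  ∃ L : ℕ, ∀ n : ℕ, 1 ≤ n → ∃ s ∈ S, n ≤ s ∧ s ≤ n + L

/-- Topological transitivity of a self-map. -/
def Transitive {X : Type u} [TopologicalSpace X] (T : X → X) : Prop :=
  ∀ U V : Set X, IsOpen U → IsOpen V → U.Nonempty → V.Nonempty →
    ∃ n : ℕ, 1 ≤ n ∧ (U ∩ (T^[n]) ⁻¹' V).Nonempty

/-- Total transitivity: all powers `T ^ m`, `m ≥ 1`, are topologically transitive. -/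
def TDS.TotallyTransitive (A : TDS.{u}) : Prop :=
  ∀ m : ℕ, 1 ≤ m → Transitive (A.T^[m])

end Q70.WeakInterp
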