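import Pool.Agent.Q70.UeB
import Pool.Agent.Q70.WeakInterp

/-!
# Windows, angles and patterns
-/

set_option autoImplicit false

open MeasureTheory Set Filter Topology
open scoped ENNReal NNReal

namespace Q70.Ue

/-! ### Choice of an angle -/

/-- By Baire category there is an angle, in a given open set and outside a given countable set,
which is approximated arbitrarily well infinitely often. -/
theorem exists_angle (J : Set ℕ) (a : ℕ → ℝ) (l : ℕ → ℕ)
    (hd : ∀ N : ℕ, Dense {r : ℝ | ∃ j ∈ J, N ≤ j ∧ a j = r})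
    {V : Set ℝ} (hV : IsOpen V) (hne : V.Nonempty) {B : Set ℝ} (hB : B.Countable) :
    ∃ r ∈ V, r ∉ B ∧ ∃ s : ℕ → ℕ, StrictMono s ∧
      ∀ i, s i ∈ J ∧ (l (s i) : ℝ) * |r - a (s i)| < 1 / ((i : ℝ) + 1) := by
  let G : ℕ × ℕ → Set ℝ := fun p => ⋃ j ∈ {j : ℕ | j ∈ J ∧ p.1 ≤ j},
    {r : ℝ | (l j : ℝ) * |r - a j| < 1 / ((p.2 : ℝ) + 1)}
  have hGo : ∀ p, IsOpen (G p) := by
    intro p
    refine isOpen_biUnion fun j _ => ?_
    exact isOpen_lt (by fun_prop) continuous_const
  have hGd : ∀ p, Dense (G p) := by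
    intro p
    refine (hd p.1).mono ?_
    rintro r ⟨j, hj, hpj, rfl⟩
    refine mem_iUnion₂.2 ⟨j, ⟨hj, hpj⟩, ?_⟩
    simp only [Set.mem_ofPred_eq, sub_self, abs_zero, mul_zero]
    positivity
  have h1 : (⋂ p, G p) ∈ residual ℝ :=
    countable_iInter_mem.2 fun p => residual_of_dense_open (hGo p) (hGd p)
  have h2 : Bᶜ ∈ residual ℝ := by
    have : Bᶜ = ⋂ b ∈ B, ({b} : Set ℝ)ᶜ := by
      ext r
      simp only [mem_compl_iff, mem_iInter, mem_singleton_iff]
      exact ⟨fun h i hi hri => h (hri ▸ hi), fun h hr => h r hr rfl⟩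
    rw [this]
    refine (countable_bInter_mem hB).2 fun b _ => ?_
    exact residual_of_dense_open isOpen_compl_singleton (dense_compl_singleton b)
  obtain ⟨r, hr, hrV⟩ := (dense_of_mem_residual (inter_mem h1 h2)).inter_open_nonempty V hV hne |>
    fun ⟨r, h3, h4⟩ => (⟨r, h4, h3⟩ : ∃ r, r ∈ (⋂ p, G p) ∩ Bᶜ ∧ r ∈ V)
  refine ⟨r, hrV, hr.2, ?_⟩
  have h3 : ∀ i : ℕ, ∃ᶠ j in atTop, j ∈ J ∧ (l j : ℝ) * |r - a j| < 1 / ((i : ℝ) + 1) := by
    intro i
    rw [frequently_atTop]
    intro N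
    have h4 := mem_iInter.1 hr.1 (N, i)
    obtain ⟨j, ⟨hjJ, hNj⟩, hj⟩ := mem_iUnion₂.1 h4
    exact ⟨j, hNj, hjJ, hj⟩
  exact extraction_forall_of_frequently h3

/-! ### The pattern function -/

/-- The pattern function: on `[0, 1)` divided in `L * k ^ L` cells, all the words of length `L` with
letters `< k` are written one after the other. -/
noncomputable def pat (L k : ℕ) (t : ℝ) : ℕ :=
  (⌊((L * k ^ L : ℕ) : ℝ) * Int.fract t⌋₊ / L) / k ^ (⌊((L * k ^ L : ℕ) : ℝ) * Int.fract t⌋₊ % L) % k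

theorem pat_lt {L k : ℕ} (hk : 0 < k) (t : ℝ) : pat L k t < k := Nat.mod_lt _ hk

theorem cell_eq {M : ℕ} (hM : 0 < M) {t s : ℝ} {z : ℤ} {c : ℕ} (hc : c < M) (hs0 : 0 ≤ s)
    (hs1 : s < 1) (ht : t = z + (c + s) / M) : ⌊(M : ℝ) * Int.fract t⌋₊ = c := by
  have hM' : (0 : ℝ) < M := by exact_mod_cast hM
  have hc' : (c : ℝ) + 1 ≤ M := by exact_mod_cast hc
  have hfr : Int.fract t = (c + s) / M := by
    rw [ht, Int.fract_intCast_add, Int.fract_eq_self]
    constructor
    · positivity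
    · rw [div_lt_one hM']; linarith
  rw [hfr, mul_div_cancel₀ _ hM'.ne']
  rw [Nat.floor_eq_iff (by positivity)]
  constructor <;> linarith

theorem pat_eq {L k : ℕ} (hL : 0 < L) (hk : 0 < k) {i r : ℕ} (hi : i < k ^ L) (hr : r < L)
    {t δ : ℝ} {z : ℤ}
    (ht : |t - z - (L * i + 3 / 8) / (L * k ^ L : ℕ)| < 1 / (8 * (L * k ^ L : ℕ)))
    (hδ : |δ| < 1 / (4 * (L * k ^ L : ℕ))) :
    pat L k (t + r / (L * k ^ L : ℕ) + δ) = i / k ^ r % k := by
  set M : ℕ := L * k ^ L with hM
  have hM0 : 0 < M := Nat.mul_pos hL (pow_pos hk L)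
  have hM' : (0 : ℝ) < M := by exact_mod_cast hM0
  set s : ℝ := M * (t - z - (L * i + 3 / 8) / M) + M * δ + 3 / 8 with hs
  have h1 : |(M : ℝ) * (t - z - (L * i + 3 / 8) / M)| < 1 / 8 := by
    rw [abs_mul, abs_of_pos hM']
    calc (M : ℝ) * |t - z - (L * i + 3 / 8) / M| < M * (1 / (8 * M)) :=
          mul_lt_mul_of_pos_left ht hM'
      _ = 1 / 8 := by field_simp
  have h2 : |(M : ℝ) * δ| < 1 / 4 := by
    rw [abs_mul, abs_of_pos hM']
    calc (M : ℝ) * |δ| < M * (1 / (4 * M)) := mul_lt_mul_of_pos_left hδ hM'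
      _ = 1 / 4 := by field_simp
  have h1' := abs_lt.1 h1
  have h2' := abs_lt.1 h2
  have hcell : L * i + r < M := by
    have : L * i + L ≤ L * k ^ L := by
      have : i + 1 ≤ k ^ L := hi
      calc L * i + L = L * (i + 1) := by ring
        _ ≤ L * k ^ L := Nat.mul_le_mul_left L this
    omega
  have hfl := cell_eq (M := M) (t := t + r / M + δ) (s := s) (z := z) (c := L * i + r) hM0 hcell
    (by rw [hs]; linarith) (by rw [hs]; linarith) (by
      rw [hs]; push_cast; field_simp; ring)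
  unfold pat
  rw [← hM, hfl]
  have h3 : (L * i + r) / L = i := by
    rw [Nat.mul_add_div hL, Nat.div_eq_of_lt hr, add_zero]
  have h4 : (L * i + r) % L = r := by
    rw [Nat.mul_add_mod, Nat.mod_eq_of_lt hr]
  rw [h3, h4]

theorem exists_digits {k : ℕ} (hk : 0 < k) : ∀ (L : ℕ) (w : ℕ → ℕ), (∀ r, w r < k) →
    ∃ i < k ^ L, ∀ r < L, i / k ^ r % k = w r
  | 0, _, _ => ⟨0, by simp, by simp⟩
  | L + 1, w, hw => by
    obtain ⟨i, hi, h⟩ := exists_digits hk L (fun r => w (r + 1)) (fun r => hw (r + 1))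
    refine ⟨w 0 + k * i, ?_, ?_⟩
    · have h1 := hw 0
      calc w 0 + k * i < k + k * i := by omega
        _ = k * (i + 1) := by ring
        _ ≤ k * k ^ L := Nat.mul_le_mul_left k hi
        _ = k ^ (L + 1) := by ring
    · intro r hr
      rcases r with _ | r
      · simp [Nat.add_mul_mod_self_left, Nat.mod_eq_of_lt (hw 0)]
      · have h1 : (w 0 + k * i) / k ^ (r + 1) = i / k ^ r := by
          rw [pow_succ', ← Nat.div_div_eq_div_mul, Nat.add_mul_div_left _ _ hk,
            Nat.div_eq_of_lt (hw 0), zero_add]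
        rw [h1]
        exact h r (by omega)

/-- membership in a ball of the circle -/
theorem ball_lift {t c ρ : ℝ} (h : (t : 𝕋) ∈ Metric.ball (c : 𝕋) ρ) : ∃ z : ℤ, |t - z - c| < ρ := by
  rw [Metric.mem_ball, dist_eq_norm] at h
  have h1 : (t : 𝕋) - (c : 𝕋) = ((t - c : ℝ) : 𝕋) := by
    rw [AddCircle.coe_sub]
  rw [h1, UnitAddCircle.norm_eq] at h
  refine ⟨round (t - c), ?_⟩
  have : t - (round (t - c) : ℝ) - c = t - c - round (t - c) := by ring
  rw [this]
  exact h

theorem rot_iterate {X : Type*} (T : X → X) (a : 𝕋) (x : X) (i : ℕ) :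
    (rot T a)^[i] (x, 0) = (T^[i] x, i • a) := by
  induction i with
  | zero => simp
  | succ i ih =>
    rw [Function.iterate_succ_apply', ih, Function.iterate_succ_apply']
    simp only [rot, Prod.mk.injEq, true_and]
    rw [succ_nsmul]

/-! ### Uniquely ergodic systems -/

/-- The system has exactly one invariant Borel probability measure. -/
def _root_.Q70.WeakInterp.TDS.UniquelyErgodic (A : Q70.WeakInterp.TDS) : Prop :=
  ∃! μ : @Measure A.X (borel A.X),
    @IsProbabilityMeasure A.X (borel A.X) μ ∧ @Measure.map _ _ (borel A.X) (borel A.X) A.T μ = μ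

open Classical in
/-- if a set of indices `< l` has more than `m` elements, then it contains an index `< l - m`. -/
theorem exists_small {l m : ℕ} {P : ℕ → Prop} (h : m < ((Finset.range l).filter P).card) :
    ∃ i, i + m < l ∧ P i := by
  by_contra hne
  push Not at hne
  have h1 : (Finset.range l).filter P ⊆ Finset.Ico (l - m) l := by
    intro i hi
    rw [Finset.mem_filter, Finset.mem_range] at hi
    rw [Finset.mem_Ico]
    refine ⟨?_, hi.1⟩
    by_contra h2
    exact hne i (by omega) hi.2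
  have h2 := Finset.card_le_card h1
  rw [Nat.card_Ico] at h2
  omega

end Q70.Ue
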