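import Pool.Agent.Q70.UeC

/-!
# Windows and densities
-/

set_option autoImplicit false

open MeasureTheory Set Filter Topology
open scoped ENNReal NNReal

namespace Q70.Ue

open Classical in
/-- The upper Banach density of a set of positive integers:
`lim_{N → ∞} sup_{m ≥ 0} |S ∩ {m + 1, …, m + N}| / N`. -/
noncomputable def upperBanachDensity (S : Set ℕ) : ℝ :=
  limsup (fun N : ℕ => ⨆ m : ℕ, (((Finset.Icc (m + 1) (m + N)).filter (· ∈ S)).card : ℝ) / N) atTop

open Classical in
/-- number of elements of `S` in a window -/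
noncomputable def wc (S : Set ℕ) (N l : ℕ) : ℕ := ((Finset.range l).filter fun i => N + i ∈ S).card

theorem wc_le (S : Set ℕ) (N l : ℕ) : wc S N l ≤ l := by
  classical
  unfold wc
  exact (Finset.card_filter_le _ _).trans (by simp)

open Classical in
theorem wc_Icc (S : Set ℕ) (m N : ℕ) :
    ((Finset.Icc (m + 1) (m + N)).filter (· ∈ S)).card = wc S (m + 1) N := by
  unfold wc
  symm
  refine Finset.card_bij (fun i _ => m + 1 + i) ?_ ?_ ?_
  · intro i hi
    rw [Finset.mem_filter, Finset.mem_range] at hi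
    rw [Finset.mem_filter, Finset.mem_Icc]
    exact ⟨by omega, hi.2⟩
  · intro i _ i' _ h
    omega
  · intro n hn
    rw [Finset.mem_filter, Finset.mem_Icc] at hn
    refine ⟨n - (m + 1), ?_, by omega⟩
    rw [Finset.mem_filter, Finset.mem_range]
    refine ⟨by omega, ?_⟩
    have : m + 1 + (n - (m + 1)) = n := by omega
    rw [this]
    exact hn.2

/-- moving the start of a window -/
theorem wc_drop (S : Set ℕ) (N l d : ℕ) : wc S N l ≤ wc S (N + d) (l - d) + d := by
  classical
  unfold wc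
  have h1 : (Finset.range l).filter (fun i => N + i ∈ S) ⊆
      Finset.range d ∪ ((Finset.range (l - d)).filter (fun i => N + d + i ∈ S)).map
        ⟨fun i => i + d, fun a b h => by simpa using h⟩ := by
    intro i hi
    rw [Finset.mem_filter, Finset.mem_range] at hi
    rw [Finset.mem_union]
    by_cases h : i < d
    · exact Or.inl (Finset.mem_range.2 h)
    · right
      rw [Finset.mem_map]
      refine ⟨i - d, ?_, ?_⟩
      · rw [Finset.mem_filter, Finset.mem_range]
        refine ⟨by omega, ?_⟩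
        have : N + d + (i - d) = N + i := by omega
        rw [this]
        exact hi.2
      · change i - d + d = i
        omega
  refine (Finset.card_le_card h1).trans ((Finset.card_union_le _ _).trans ?_)
  rw [Finset.card_map, Finset.card_range]
  omega

/-- Far windows with almost maximal density. -/
theorem exists_window {S : Set ℕ} {κ : ℝ} (hκ : κ ≤ upperBanachDensity S) {ε : ℝ} (hε : 0 < ε)
    (hκ0 : 0 < κ) (M₀ n₀ : ℕ) : ∃ N l : ℕ, M₀ ≤ N ∧ n₀ ≤ l ∧ (κ - ε) * l ≤ wc S N l := by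
  classical
  have hbd : ∀ N m : ℕ,
      (((Finset.Icc (m + 1) (m + N)).filter (· ∈ S)).card : ℝ) / N ≤ 1 := by
    intro N m
    have h1 := wc_Icc S m N
    have h2 := wc_le S (m + 1) N
    rcases Nat.eq_zero_or_pos N with rfl | hN
    · simp
    · rw [div_le_one (by exact_mod_cast hN)]
      rw [h1]
      exact_mod_cast h2
  have hlt : κ - ε / 2 < upperBanachDensity S := by linarith
  unfold upperBanachDensity at hlt
  have hcob : IsCoboundedUnder (· ≤ ·) atTop (fun N : ℕ => ⨆ m : ℕ,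
      (((Finset.Icc (m + 1) (m + N)).filter (· ∈ S)).card : ℝ) / N) := by
    refine IsBoundedUnder.isCoboundedUnder_le ⟨0, ?_⟩
    rw [eventually_map]
    refine Eventually.of_forall fun N => ?_
    exact Real.iSup_nonneg fun m => by positivity
  have hfr := frequently_lt_of_lt_limsup hcob hlt
  obtain ⟨B, hB⟩ := exists_nat_gt ((2 * M₀ : ℝ) / ε)
  obtain ⟨l, hl, hl2⟩ := (frequently_atTop.1 hfr) (max (B + 1) (M₀ + n₀))
  obtain ⟨m, hm⟩ := exists_lt_of_lt_ciSup hl2
  have hl1 : B + 1 ≤ l := le_trans (le_max_left _ _) hl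
  have hl3 : M₀ + n₀ ≤ l := le_trans (le_max_right _ _) hl
  have hlpos : (0 : ℝ) < l := by
    have : 0 < l := by omega
    exact_mod_cast this
  rw [lt_div_iff₀ hlpos] at hm
  have h1 := wc_Icc S m l
  have hm' : (κ - ε / 2) * l < wc S (m + 1) l := by
    rw [← h1]
    exact hm
  by_cases hmM : M₀ ≤ m + 1
  · refine ⟨m + 1, l, hmM, by omega, ?_⟩
    nlinarith
  · push Not at hmM
    set d := M₀ - (m + 1) with hd
    refine ⟨M₀, l - d, le_rfl, by omega, ?_⟩
    have h2 := wc_drop S (m + 1) l d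
    have h3 : m + 1 + d = M₀ := by omega
    rw [h3] at h2
    have h4 : ((wc S (m + 1) l : ℕ) : ℝ) ≤ wc S M₀ (l - d) + d := by exact_mod_cast h2
    have h5 : (d : ℝ) ≤ M₀ := by exact_mod_cast (by omega : d ≤ M₀)
    have h6 : (2 * M₀ : ℝ) < ε * l := by
      rw [div_lt_iff₀ hε] at hB
      have : (B : ℝ) ≤ l := by exact_mod_cast (by omega : B ≤ l)
      nlinarith
    have h7 : ((l - d : ℕ) : ℝ) = (l : ℝ) - d := by
      rw [Nat.cast_sub (by omega)]
    rw [h7]
    by_cases hneg : κ - ε ≤ 0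
    · have h8 : (0 : ℝ) ≤ (l : ℝ) - d := by
        rw [← h7]; positivity
      have h9 : (κ - ε) * ((l : ℝ) - d) ≤ 0 := mul_nonpos_of_nonpos_of_nonneg hneg h8
      exact h9.trans (by positivity)
    · push Not at hneg
      have h8 : (κ - ε) * ((l : ℝ) - d) ≤ (κ - ε) * l := by
        refine mul_le_mul_of_nonneg_left ?_ hneg.le
        have : (0 : ℝ) ≤ d := by positivity
        linarith
      nlinarith

/-- A sequence of disjoint windows in which `S` has almost density `κ`. -/
structure Windows (S : Set ℕ) (κ : ℝ) (N l : ℕ → ℕ) : Prop where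
  disj : ∀ j, N j + l j ≤ N (j + 1)
  len : ∀ j, j < l j
  dens : ∀ j : ℕ, (κ - 1 / ((j : ℝ) + 1)) * l j ≤ wc S (N j) (l j)

theorem Windows.mono {S : Set ℕ} {κ : ℝ} {N l : ℕ → ℕ} (h : Windows S κ N l) : Monotone N :=
  monotone_nat_of_le_succ fun j => (Nat.le_add_right _ _).trans (h.disj j)

theorem Windows.sub {S : Set ℕ} {κ : ℝ} {N l : ℕ → ℕ} (h : Windows S κ N l) {s : ℕ → ℕ}
    (hs : StrictMono s) : Windows S κ (N ∘ s) (l ∘ s) := by
  refine ⟨fun j => ?_, fun j => ?_, fun j => ?_⟩
  · exact (h.disj (s j)).trans (h.mono (hs (Nat.lt_succ_self j)))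
  · exact lt_of_le_of_lt (hs.id_le j) (h.len (s j))
  · refine le_trans ?_ (h.dens (s j))
    refine mul_le_mul_of_nonneg_right ?_ (by positivity)
    have h1 : (j : ℝ) ≤ s j := by exact_mod_cast hs.id_le j
    have h2 : 1 / ((s j : ℝ) + 1) ≤ 1 / ((j : ℝ) + 1) :=
      one_div_le_one_div_of_le (by positivity) (by linarith)
    linarith

theorem exists_windows {S : Set ℕ} {κ : ℝ} (hκ : κ ≤ upperBanachDensity S) (hκ0 : 0 < κ) :
    ∃ N l : ℕ → ℕ, Windows S κ N l := by
  have h : ∀ M₀ j : ℕ, ∃ N l : ℕ, M₀ ≤ N ∧ j + 1 ≤ l ∧ (κ - 1 / ((j : ℝ) + 1)) * l ≤ wc S N l :=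
    fun M₀ j => exists_window hκ (by positivity) hκ0 M₀ (j + 1)
  choose fN fl h1 h2 h3 using h
  let b : ℕ → ℕ := fun j => Nat.rec 0 (fun j bj => fN bj j + fl bj j) j
  refine ⟨fun j => fN (b j) j, fun j => fl (b j) j, fun j => ?_, fun j => h2 _ _, fun j => h3 _ _⟩
  exact h1 (b (j + 1)) (j + 1)

open Classical in
/-- the index of the window containing `n` -/
noncomputable def widx (N l : ℕ → ℕ) (n : ℕ) : ℕ :=
  if h : ∃ j, N j ≤ n ∧ n < N j + l j then Nat.find h else 0

theorem widx_eq {S : Set ℕ} {κ : ℝ} {N l : ℕ → ℕ} (h : Windows S κ N l) {j i : ℕ} (hi : i < l j) :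
    widx N l (N j + i) = j := by
  classical
  have hex : ∃ j', N j' ≤ N j + i ∧ N j + i < N j' + l j' := ⟨j, by omega, by omega⟩
  unfold widx
  rw [dif_pos hex]
  have h1 := Nat.find_spec hex
  have h2 : Nat.find hex ≤ j := Nat.find_min' hex ⟨by omega, by omega⟩
  by_contra hne
  have h3 : Nat.find hex + 1 ≤ j := by omega
  have h4 := h.mono h3
  have h5 := h.disj (Nat.find hex)
  omega

end Q70.Ue
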