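import Pool.Agent.Q70.UeD

/-!
# Windows with maximal density contain long runs
-/

set_option autoImplicit false

open MeasureTheory Set Filter Topology Q70.WeakInterp
open scoped ENNReal NNReal

namespace Q70.Ue

universe u

section closedSets

variable {X : Type u} [TopologicalSpace X] [CompactSpace X] [TopologicalSpace.MetrizableSpace X]
  [MeasurableSpace X] [BorelSpace X]

/-- if along infinitely many windows `F (T^n x) = c` for all `n ∈ S`, then `{F ∈ D}` has measure at
least `κ` for closed `D ∋ c`. -/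
theorem closed_mass {T : X → X} (hT : Continuous T) {μ : Measure X} (hμ : UE T μ) {S : Set ℕ}
    {κ : ℝ} {N l : ℕ → ℕ} (hw : Windows S κ N l) (x : X) {A : Set X} (hA : IsClosed A)
    {s : ℕ → ℕ} (hs : StrictMono s)
    (h : ∀ j, ∀ i < l (s j), N (s j) + i ∈ S → T^[N (s j) + i] x ∈ A) : κ ≤ μ.real A := by
  classical
  by_contra hlt
  push Not at hlt
  have hw' := hw.sub hs
  set δ := (κ + μ.real A) / 2 with hδ
  have hl : Tendsto (fun j => l (s j)) atTop atTop :=
    tendsto_atTop_mono (fun j => (hw'.len j).le) tendsto_id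
  have h1 := closed_visits hT hμ (fun j => T^[N (s j)] x) (fun j => l (s j)) hl
    (fun j => lt_of_le_of_lt (Nat.zero_le _) (hw'.len j)) hA (δ := δ) (by linarith)
  have h2 : ∀ᶠ j : ℕ in atTop, 1 / ((j : ℝ) + 1) < κ - δ :=
    tendsto_one_div_add_atTop_nhds_zero_nat.eventually (gt_mem_nhds (by linarith))
  obtain ⟨j, hj1, hj2⟩ := (h1.and h2).exists
  have h3 := hw'.dens j
  simp only [Function.comp_apply] at h3
  have h4 : wc S (N (s j)) (l (s j)) ≤ cnt T (T^[N (s j)] x) (l (s j)) A := by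
    unfold wc cnt
    refine Finset.card_le_card fun i hi => ?_
    rw [Finset.mem_filter, Finset.mem_range] at hi ⊢
    refine ⟨hi.1, ?_⟩
    rw [← Function.iterate_add_apply, add_comm]
    exact h j i hi.1 hi.2
  have h5 : ((wc S (N (s j)) (l (s j)) : ℕ) : ℝ) ≤ cnt T (T^[N (s j)] x) (l (s j)) A := by
    exact_mod_cast h4
  have hlp : (0 : ℝ) < l (s j) := by
    exact_mod_cast lt_of_le_of_lt (Nat.zero_le _) (hw'.len j)
  have h6 : (κ - 1 / ((j : ℝ) + 1)) * l (s j) < δ * l (s j) := h3.trans_lt (h5.trans_lt hj1)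
  have h7 : κ - 1 / ((j : ℝ) + 1) < δ := lt_of_mul_lt_mul_right h6 hlp.le
  linarith

end closedSets

/-- angles for the windows -/
noncomputable def ang2 (j : ℕ) : ℝ := TopologicalSpace.denseSeq ℝ j.unpair.2.unpair.1

theorem ang2_dense (k N : ℕ) : Dense {r : ℝ | ∃ j ∈ {j : ℕ | j.unpair.1 = k}, N ≤ j ∧ ang2 j = r} := by
  refine (TopologicalSpace.denseRange_denseSeq ℝ).mono ?_
  rintro _ ⟨m, rfl⟩
  refine ⟨Nat.pair k (Nat.pair m N), by simp, ?_, ?_⟩
  · exact (Nat.right_le_pair m N).trans (Nat.right_le_pair _ _)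
  · simp [ang2]

open Classical in
/-- the test function: constants on the windows of the types `< k`, and patterns along a rotation on
the other windows. -/
noncomputable def tst (k L : ℕ) (N l : ℕ → ℕ) (n : ℕ) : ℕ :=
  if (widx N l n).unpair.1 < k then (widx N l n).unpair.1
  else pat L k ((n - N (widx N l n) : ℕ) * ang2 (widx N l n))

theorem tst_lt {k L : ℕ} (hk : 0 < k) (N l : ℕ → ℕ) (n : ℕ) : tst k L N l n < k := by
  unfold tst
  split_ifs with h
  · exact h
  · exact pat_lt hk _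

theorem haar_closedBall (c : 𝕋) (ρ : ℝ) (hρ : 0 ≤ ρ) :
    (AddCircle.haarAddCircle (T := 1)).real (Metric.closedBall c ρ) ≤ 2 * ρ := by
  have h1 : (volume : Measure 𝕋) = AddCircle.haarAddCircle (T := 1) := by
    have := AddCircle.volume_eq_smul_haarAddCircle (T := 1)
    rw [this]
    simp
  rw [← h1, Measure.real, AddCircle.volume_closedBall]
  rw [ENNReal.toReal_ofReal (by positivity)]
  exact min_le_right _ _

theorem norm_circle_le (t : ℝ) : ‖(t : 𝕋)‖ ≤ |t| := by
  rw [UnitAddCircle.norm_eq]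
  have := round_le t 0
  simpa using this

/-- The cell of an angle. -/
theorem cell_ball {M : ℕ} (hM : 0 < M) (t : ℝ) :
    ⌊(M : ℝ) * Int.fract t⌋₊ < M ∧
    dist (t : 𝕋) ((((⌊(M : ℝ) * Int.fract t⌋₊ : ℝ) + 1 / 2) / M : ℝ) : 𝕋) ≤ 1 / (2 * M) := by
  have hM' : (0 : ℝ) < M := by exact_mod_cast hM
  have hf0 := Int.fract_nonneg t
  have hf1 := Int.fract_lt_one t
  set c := ⌊(M : ℝ) * Int.fract t⌋₊ with hc
  have h1 : (c : ℝ) ≤ M * Int.fract t := Nat.floor_le (by positivity)
  have h2 : (M : ℝ) * Int.fract t < c + 1 := Nat.lt_floor_add_one _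
  refine ⟨?_, ?_⟩
  · have : (c : ℝ) < M := by nlinarith
    exact_mod_cast this
  · have h3 : (t : 𝕋) = (Int.fract t : ℝ) := by
      have h4 : t = Int.fract t + (⌊t⌋ : ℝ) := (Int.fract_add_floor t).symm
      conv_lhs => rw [h4]
      rw [AddCircle.coe_add]
      have h5 : (((⌊t⌋ : ℤ) : ℝ) : 𝕋) = 0 := by
        have := AddCircle.coe_zsmul (1 : ℝ) (n := ⌊t⌋) (x := (1 : ℝ))
        simp only [zsmul_eq_mul, mul_one] at this
        rw [this, AddCircle.coe_period, smul_zero]
      rw [h5, add_zero]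
    rw [h3, dist_eq_norm, ← AddCircle.coe_sub]
    refine (norm_circle_le _).trans ?_
    have h4 : Int.fract t - ((c : ℝ) + 1 / 2) / M = (M * Int.fract t - c - 1 / 2) / M := by
      field_simp
      ring
    rw [h4, abs_div, abs_of_pos hM', div_le_div_iff₀ hM' (by positivity)]
    have h5 : |(M : ℝ) * Int.fract t - c - 1 / 2| ≤ 1 / 2 := by
      rw [abs_le]; constructor <;> linarith
    nlinarith

/-- **Main proposition**: if `S` is a weak interpolation set of order `k ≥ 2` for uniquely ergodic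
systems and has density almost `1 / k` in the windows, then the windows contain arbitrarily long runs
of consecutive elements of `S`. -/
theorem exists_run {k : ℕ} (hk : 2 ≤ k) {S : Set ℕ}
    (hW : IsWeakInterpolationSet.{u} TDS.UniquelyErgodic k S) {N l : ℕ → ℕ}
    (hw : Windows S (1 / k) N l) {L : ℕ} (hL : 0 < L) :
    ∃ j p, p + L ≤ l j ∧ ∀ q < L, N j + (p + q) ∈ S := by
  classical
  by_contra hno
  push Not at hno
  have hk0 : 0 < k := by omega
  have hk' : (0 : ℝ) < k := by exact_mod_cast hk0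
  obtain ⟨A, hUE, x, -, F, hF, hFx⟩ := hW (tst k L N l) (fun n _ => tst_lt hk0 N l n)
  letI : MeasurableSpace A.X := borel A.X
  haveI : BorelSpace A.X := ⟨rfl⟩
  obtain ⟨μ, ⟨hμp, hμT⟩, huniq⟩ := hUE
  have hT := A.continuous_T
  have hmp : MeasurePreserving A.T μ μ := ⟨hT.measurable, hμT⟩
  have hμ : UE A.T μ := ⟨hμp, hμT, fun ν h1 h2 => huniq ν ⟨h1, h2⟩⟩
  set M : ℕ := L * k ^ L with hM
  have hM0 : 0 < M := Nat.mul_pos hL (pow_pos hk0 L)
  have hM' : (0 : ℝ) < M := by exact_mod_cast hM0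
  have hL' : (0 : ℝ) < L := by exact_mod_cast hL
  -- the closed sets
  let Dc : ℕ → Set A.X := fun c => {y | ‖F y - (c : ℂ)‖ ≤ 1 / 3}
  have hDcl : ∀ c, IsClosed (Dc c) := fun c =>
    isClosed_le ((hF.sub continuous_const).norm) continuous_const
  have hFcl : ∀ c : ℕ, IsClosed {y | F y = (c : ℂ)} := fun c => isClosed_eq hF continuous_const
  have hmass : ∀ c < k, (1 : ℝ) / k ≤ μ.real {y | F y = (c : ℂ)} := by
    intro c hc
    refine closed_mass hT hμ hw x (hFcl c) (s := fun j => Nat.pair c j) ?_ ?_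
    · intro a b hab
      exact Nat.pair_lt_pair_right c hab
    · intro j i hi hiS
      have h1 := hFx _ hiS
      have h2 : tst k L N l (N (Nat.pair c j) + i) = c := by
        unfold tst
        rw [widx_eq hw hi]
        simp [hc]
      rw [h2] at h1
      exact h1
  have hdisj : ∀ c c' : ℕ, c ≠ c' → Disjoint (Dc c) (Dc c') := by
    intro c c' hne
    refine Set.disjoint_left.2 fun y hy hy' => ?_
    have h1 : ‖(c : ℂ) - (c' : ℂ)‖ ≤ 2 / 3 := by
      calc ‖(c : ℂ) - (c' : ℂ)‖ = ‖(F y - c') - (F y - c)‖ := by congr 1; ring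
        _ ≤ ‖F y - c'‖ + ‖F y - c‖ := norm_sub_le _ _
        _ ≤ 1 / 3 + 1 / 3 := add_le_add hy' hy
        _ = 2 / 3 := by norm_num
    have h2 : (1 : ℝ) ≤ ‖(c : ℂ) - (c' : ℂ)‖ := by
      have h3 : (c : ℂ) - (c' : ℂ) = (((c : ℤ) - (c' : ℤ) : ℤ) : ℂ) := by push_cast; rfl
      rw [h3, Complex.norm_intCast]
      have h4 : (1 : ℤ) ≤ |(c : ℤ) - (c' : ℤ)| := by
        apply Int.one_le_abs
        intro h5
        apply hne
        omega
      exact_mod_cast h4
    linarith
  have hDsum : ∑ c ∈ Finset.range k, μ.real (Dc c) ≤ 1 := by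
    rw [← measureReal_biUnion_finset (fun c _ c' _ h => hdisj c c' h)
      (fun c _ => (hDcl c).measurableSet)]
    exact measureReal_le_one
  have hDge : ∀ c < k, (1 : ℝ) / k ≤ μ.real (Dc c) := fun c hc =>
    (hmass c hc).trans (measureReal_mono (fun y hy => by
      have hy' : F y = (c : ℂ) := hy
      change ‖F y - (c : ℂ)‖ ≤ 1 / 3
      rw [hy', sub_self, norm_zero]; norm_num))
  have hDle : ∀ c < k, μ.real (Dc c) ≤ 1 / k := by
    intro c hc
    by_contra hlt
    push Not at hlt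
    have h1 : ∑ c ∈ Finset.range k, (1 : ℝ) / k < ∑ c ∈ Finset.range k, μ.real (Dc c) :=
      Finset.sum_lt_sum (fun i hi => hDge i (Finset.mem_range.1 hi))
        ⟨c, Finset.mem_range.2 hc, hlt⟩
    rw [Finset.sum_const, Finset.card_range, nsmul_eq_mul, mul_one_div_cancel hk'.ne'] at h1
    linarith
  -- the open sets
  let O : ℕ → Set A.X := fun i => {y | ∀ q < L, ‖F (A.T^[q] y) - ((i / k ^ q % k : ℕ) : ℂ)‖ < 1 / 3}
  have hOo : ∀ i, IsOpen (O i) := by
    intro i
    have h1 : O i = ⋂ q ∈ Finset.range L,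
        {y | ‖F (A.T^[q] y) - ((i / k ^ q % k : ℕ) : ℂ)‖ < 1 / 3} := by
      ext y
      simp [O]
    rw [h1]
    refine isOpen_biInter_finset fun q _ => ?_
    exact isOpen_lt (((hF.comp (hT.iterate q)).sub continuous_const).norm) continuous_const
  -- almost every point has all its values in `{0, …, k - 1}`
  have hfull : μ (⋃ c ∈ Finset.range k, {y | F y = (c : ℂ)}) = 1 := by
    have h1 : μ.real (⋃ c ∈ Finset.range k, {y | F y = (c : ℂ)}) = 1 := by
      refine le_antisymm measureReal_le_one ?_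
      rw [measureReal_biUnion_finset]
      · calc (1 : ℝ) = ∑ c ∈ Finset.range k, (1 : ℝ) / k := by
              rw [Finset.sum_const, Finset.card_range, nsmul_eq_mul, mul_one_div_cancel hk'.ne']
          _ ≤ _ := Finset.sum_le_sum fun c hc => hmass c (Finset.mem_range.1 hc)
      · intro c _ c' _ h
        refine Set.disjoint_left.2 fun y hy hy' => h ?_
        have hy1 : F y = (c : ℂ) := hy
        have hy2 : F y = (c' : ℂ) := hy'
        exact_mod_cast hy1.symm.trans hy2
      · exact fun c _ => (hFcl c).measurableSet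
    rw [Measure.real, ENNReal.toReal_eq_one_iff] at h1
    exact h1
  obtain ⟨i, hi, hOi⟩ : ∃ i < k ^ L, 0 < μ (O i) := by
    by_contra hne
    push Not at hne
    have h1 : μ (⋃ i ∈ Finset.range (k ^ L), O i) = 0 := by
      refine le_antisymm ((measure_biUnion_finset_le _ _).trans ?_) bot_le
      rw [Finset.sum_eq_zero]
      intro i hi
      exact nonpos_iff_eq_zero.1 (hne i (by simpa using hi))
    have h2 : ∀ᵐ y ∂μ, y ∈ (⋃ c ∈ Finset.range k, {y | F y = (c : ℂ)}) := by
      rw [← mem_ae_iff_prob_eq_one] at hfull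
      · exact hfull
      · exact Finset.measurableSet_biUnion _ fun c _ => (hFcl c).measurableSet
    have h3 : ∀ᵐ y ∂μ, ∀ q : ℕ, A.T^[q] y ∈ (⋃ c ∈ Finset.range k, {y | F y = (c : ℂ)}) := by
      rw [ae_all_iff]
      intro q
      exact (hmp.iterate q).quasiMeasurePreserving.ae h2
    have h4 : ∀ᵐ y ∂μ, y ∈ ⋃ i ∈ Finset.range (k ^ L), O i := by
      filter_upwards [h3] with y hy
      have h5 : ∀ q : ℕ, ∃ c < k, F (A.T^[q] y) = (c : ℂ) := by
        intro q
        obtain ⟨c, hc, hc'⟩ := mem_iUnion₂.1 (hy q)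
        exact ⟨c, Finset.mem_range.1 hc, hc'⟩
      choose c hc hc' using h5
      obtain ⟨i, hi, h⟩ := exists_digits hk0 L c hc
      refine mem_iUnion₂.2 ⟨i, Finset.mem_range.2 hi, fun q hq => ?_⟩
      rw [h q hq, hc' q, sub_self, norm_zero]
      norm_num
    have h5 : (⋃ i ∈ Finset.range (k ^ L), O i) =ᵐ[μ] (univ : Set A.X) := by
      filter_upwards [h4] with y hy
      exact propext ⟨fun _ => trivial, fun _ => hy⟩
    rw [measure_congr h5, measure_univ] at h1
    exact one_ne_zero h1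
  -- the angle
  obtain ⟨r, hrV, hrB, s, hs, hsa⟩ := exists_angle {j : ℕ | j.unpair.1 = k} ang2 l (ang2_dense k)
    (V := Metric.ball (1 / M : ℝ) (1 / (8 * M * L))) Metric.isOpen_ball
    ⟨_, Metric.mem_ball_self (by positivity)⟩ (bad_countable hmp)
  have hrV' : |r - 1 / M| < 1 / (8 * M * L) := by
    rwa [Metric.mem_ball, Real.dist_eq] at hrV
  have hprod := prod_UE hT hμ hmp hrB
  set ν : Measure (A.X × 𝕋) := μ.prod (AddCircle.haarAddCircle (T := 1)) with hν
  -- the open set of the product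
  let cU : ℝ := (L * i + 3 / 8) / M
  let U : Set 𝕋 := Metric.ball (cU : 𝕋) (1 / (8 * M))
  have hU : 0 < (AddCircle.haarAddCircle (T := 1)) U :=
    Metric.isOpen_ball.measure_pos _ ⟨_, Metric.mem_ball_self (by positivity)⟩
  have hOU : 0 < ν.real (O i ×ˢ U) := by
    rw [Measure.real, Measure.prod_prod]
    exact ENNReal.toReal_pos (mul_ne_zero hOi.ne' hU.ne')
      (ENNReal.mul_ne_top (measure_ne_top _ _) (measure_ne_top _ _))
  set m₀ := ν.real (O i ×ˢ U) with hm₀
  -- the closed set of the product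
  set η : ℝ := m₀ / (8 * L * M) with hη
  have hηpos : 0 < η := by positivity
  let cc : ℕ → 𝕋 := fun m => (((((m : ℕ) : ℝ) + 1 / 2) / M : ℝ) : 𝕋)
  let C : Set (A.X × 𝕋) := ⋃ m ∈ Finset.range M,
    Dc (m / L / k ^ (m % L) % k) ×ˢ Metric.closedBall (cc m) (1 / (2 * M) + η)
  have hCcl : IsClosed C := by
    refine isClosed_biUnion_finset fun m _ => ?_
    exact (hDcl _).prod Metric.isClosed_closedBall
  have hνC : ν.real C ≤ 1 / k + m₀ / (4 * L) := by
    calc ν.real C ≤ ∑ m ∈ Finset.range M, ν.real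
          (Dc (m / L / k ^ (m % L) % k) ×ˢ Metric.closedBall (cc m) (1 / (2 * M) + η)) :=
          measureReal_biUnion_finset_le _ _
      _ ≤ ∑ m ∈ Finset.range M, (1 / k) * (2 * (1 / (2 * M) + η)) := by
          refine Finset.sum_le_sum fun m _ => ?_
          rw [hν, Measure.real, Measure.prod_prod, ENNReal.toReal_mul]
          refine mul_le_mul (hDle _ (Nat.mod_lt _ hk0)) ?_ ENNReal.toReal_nonneg (by positivity)
          exact haar_closedBall _ _ (by positivity)
      _ = (1 / k) * (1 + 2 * M * η) := by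
          rw [Finset.sum_const, Finset.card_range, nsmul_eq_mul]
          field_simp
      _ ≤ 1 / k + m₀ / (4 * L) := by
          have h1 : 2 * M * η = m₀ / (4 * L) := by
            rw [hη]; field_simp; norm_num
          rw [h1, mul_add, mul_one]
          have h2 : (1 : ℝ) / k ≤ 1 := by
            rw [div_le_one hk']; exact_mod_cast hk0
          have h3 : 1 / (k : ℝ) * (m₀ / (4 * L)) ≤ 1 * (m₀ / (4 * L)) :=
            mul_le_mul_of_nonneg_right h2 (by positivity)
          linarith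
  -- asymptotic statements
  have hltop : Tendsto (fun j => l (s j)) atTop atTop :=
    tendsto_atTop_mono (fun j => ((hw.sub hs).len j).le) tendsto_id
  have hlpos : ∀ j, 0 < l (s j) := fun j => lt_of_le_of_lt (Nat.zero_le _) ((hw.sub hs).len j)
  have hvis := open_visits (rot_continuous hT (r : 𝕋)) hprod
    (fun j => (A.T^[N (s j)] x, (0 : 𝕋))) (fun j => l (s j)) hltop hlpos
    ((hOo i).prod (Metric.isOpen_ball : IsOpen U)) (δ := 3 / 4 * m₀)
    (by positivity) (by linarith)
  have hcl := closed_visits (rot_continuous hT (r : 𝕋)) hprod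
    (fun j => (A.T^[N (s j)] x, (0 : 𝕋))) (fun j => l (s j)) hltop hlpos hCcl
    (δ := 1 / k + 3 * m₀ / (8 * L)) (by
      have : m₀ / (4 * L) < 3 * m₀ / (8 * L) := by
        rw [div_lt_div_iff₀ (by positivity) (by positivity)]
        nlinarith [mul_pos hOU hL']
      linarith)
  have hbig : ∀ᶠ j : ℕ in atTop, (L : ℝ) < m₀ / 4 * l (s j) := by
    have h1 : Tendsto (fun j => (l (s j) : ℝ)) atTop atTop := tendsto_natCast_atTop_atTop.comp hltop
    have h2 := h1.const_mul_atTop (show (0 : ℝ) < m₀ / 4 by positivity)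
    exact h2.eventually_gt_atTop _
  have hsmall : ∀ ε : ℝ, 0 < ε → ∀ᶠ j : ℕ in atTop, 1 / ((j : ℝ) + 1) < ε := fun ε hε =>
    tendsto_one_div_add_atTop_nhds_zero_nat.eventually (gt_mem_nhds hε)
  obtain ⟨j, ⟨⟨hj1, hj2⟩, hj3⟩, ⟨hj4, hj5⟩, hj6⟩ :=
    (((hvis.and hcl).and hbig).and (((hsmall (1 / (8 * M)) (by positivity)).and
      (hsmall η hηpos)).and (hsmall (m₀ / (8 * L)) (by positivity)))).exists
  set n₀ := N (s j) with hn₀
  set ℓ := l (s j) with hℓ
  have hsjk : (s j).unpair.1 = k := (hsa j).1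
  have hdist : (ℓ : ℝ) * |r - ang2 (s j)| < 1 / ((j : ℝ) + 1) := (hsa j).2
  have hfval : ∀ p < ℓ, n₀ + p ∈ S → F (A.T^[p] (A.T^[n₀] x)) = (pat L k ((p : ℝ) * ang2 (s j)) : ℂ) := by
    intro p hp hpS
    have h1 := hFx _ hpS
    have h2 : tst k L N l (n₀ + p) = pat L k ((p : ℝ) * ang2 (s j)) := by
      unfold tst
      rw [widx_eq hw hp, hsjk, if_neg (lt_irrefl k)]
      congr 2
      rw [← hn₀]
      simp
    rw [h2] at h1
    rw [← Function.iterate_add_apply, add_comm p n₀]
    exact h1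
  have hphase : ∀ p ≤ ℓ, |(p : ℝ) * (ang2 (s j) - r)| < 1 / ((j : ℝ) + 1) := by
    intro p hp
    rw [abs_mul, Nat.abs_cast, abs_sub_comm]
    refine lt_of_le_of_lt ?_ hdist
    exact mul_le_mul_of_nonneg_right (by exact_mod_cast hp) (abs_nonneg _)
  -- the set `B`
  let B : Finset ℕ := (Finset.range ℓ).filter fun p =>
    ‖F (A.T^[p] (A.T^[n₀] x)) - (pat L k ((p : ℝ) * ang2 (s j)) : ℂ)‖ ≤ 1 / 3
  have hSB : (Finset.range ℓ).filter (fun p => n₀ + p ∈ S) ⊆ B := by
    intro p hp
    rw [Finset.mem_filter, Finset.mem_range] at hp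
    rw [Finset.mem_filter, Finset.mem_range]
    refine ⟨hp.1, ?_⟩
    rw [hfval p hp.1 hp.2, sub_self, norm_zero]
    norm_num
  have hBC : B.card ≤ cnt (rot A.T (r : 𝕋)) (A.T^[n₀] x, 0) ℓ C := by
    unfold cnt
    refine Finset.card_le_card fun p hp => ?_
    rw [Finset.mem_filter, Finset.mem_range] at hp ⊢
    refine ⟨hp.1, ?_⟩
    rw [rot_iterate]
    have hcell := cell_ball hM0 ((p : ℝ) * ang2 (s j))
    set m := ⌊(M : ℝ) * Int.fract ((p : ℝ) * ang2 (s j))⌋₊ with hm
    refine mem_iUnion₂.2 ⟨m, Finset.mem_range.2 hcell.1, ?_, ?_⟩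
    · have h1 : pat L k ((p : ℝ) * ang2 (s j)) = m / L / k ^ (m % L) % k := rfl
      have h2 := hp.2
      rw [h1] at h2
      exact h2
    · rw [Metric.mem_closedBall]
      simp only
      have h1 : (p • (r : 𝕋)) = (((p : ℝ) * r : ℝ) : 𝕋) := by
        rw [← AddCircle.coe_nsmul, nsmul_eq_mul]
      rw [h1]
      calc dist ((((p : ℝ) * r : ℝ)) : 𝕋) (cc m)
          ≤ dist ((((p : ℝ) * r : ℝ)) : 𝕋) ((((p : ℝ) * ang2 (s j) : ℝ)) : 𝕋) +
            dist ((((p : ℝ) * ang2 (s j) : ℝ)) : 𝕋) (cc m) := dist_triangle _ _ _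
        _ ≤ η + 1 / (2 * M) := by
            refine add_le_add ?_ hcell.2
            rw [dist_eq_norm, ← AddCircle.coe_sub]
            refine (norm_circle_le _).trans ?_
            have h2 : (p : ℝ) * r - p * ang2 (s j) = -((p : ℝ) * (ang2 (s j) - r)) := by ring
            rw [h2, abs_neg]
            exact ((hphase p hp.1.le).trans hj5).le
        _ = 1 / (2 * M) + η := by ring
  -- the difference
  let E : Finset ℕ := B \ (Finset.range ℓ).filter (fun p => n₀ + p ∈ S)
  have hEcard : (E.card : ℝ) < m₀ / (2 * L) * ℓ := by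
    have h1 : E.card = B.card - wc S n₀ ℓ := by
      simp only [E]
      rw [Finset.card_sdiff_of_subset hSB]
      rfl
    have h2 : wc S n₀ ℓ ≤ B.card := Finset.card_le_card hSB
    have h3 : (E.card : ℝ) = (B.card : ℝ) - wc S n₀ ℓ := by
      rw [h1, Nat.cast_sub h2]
    have h4 : (B.card : ℝ) < (1 / k + 3 * m₀ / (8 * L)) * ℓ :=
      lt_of_le_of_lt (by exact_mod_cast hBC) hj2
    have h5 := (hw.sub hs).dens j
    simp only [Function.comp_apply] at h5
    rw [← hn₀, ← hℓ] at h5
    have hℓp : (0 : ℝ) < ℓ := by exact_mod_cast hlpos j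
    have h6 : (1 / (k : ℝ) - m₀ / (8 * L)) * ℓ < wc S n₀ ℓ := by
      refine lt_of_lt_of_le ?_ h5
      exact mul_lt_mul_of_pos_right (by linarith) hℓp
    rw [h3]
    have h7 : m₀ / (2 * L) * ℓ = (1 / k + 3 * m₀ / (8 * L)) * ℓ - (1 / (k : ℝ) - m₀ / (8 * L)) * ℓ := by
      field_simp
      ring
    rw [h7]
    linarith
  -- visits to the open set
  have hV : ∀ p, p + L ≤ ℓ → (rot A.T (r : 𝕋))^[p] (A.T^[n₀] x, 0) ∈ O i ×ˢ U →
      ∀ q < L, p + q ∈ B := by
    intro p hpL hp q hq
    rw [rot_iterate] at hp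
    obtain ⟨hpO, hpU⟩ := hp
    simp only at hpO hpU
    have hpU' : (((p : ℝ) * r : ℝ) : 𝕋) ∈ Metric.ball (cU : 𝕋) (1 / (8 * M)) := by
      have h1 : (((p : ℝ) * r : ℝ) : 𝕋) = p • (r : 𝕋) := by
        rw [← AddCircle.coe_nsmul, nsmul_eq_mul]
      rw [h1]
      exact hpU
    obtain ⟨z, hz⟩ := ball_lift hpU'
    have hδ : |(q : ℝ) * (r - 1 / M) + ((p + q : ℕ) : ℝ) * (ang2 (s j) - r)| < 1 / (4 * M) := by
      have h1 : |(q : ℝ) * (r - 1 / M)| ≤ 1 / (8 * M) := by
        rw [abs_mul, Nat.abs_cast]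
        calc (q : ℝ) * |r - 1 / M| ≤ L * (1 / (8 * M * L)) := by
              refine mul_le_mul ?_ hrV'.le (abs_nonneg _) hL'.le
              exact_mod_cast hq.le
          _ = 1 / (8 * M) := by field_simp
      have h2 := (hphase (p + q) (by omega)).trans hj4
      calc |(q : ℝ) * (r - 1 / M) + ((p + q : ℕ) : ℝ) * (ang2 (s j) - r)|
          ≤ |(q : ℝ) * (r - 1 / M)| + |((p + q : ℕ) : ℝ) * (ang2 (s j) - r)| := abs_add_le _ _
        _ < 1 / (8 * M) + 1 / (8 * M) := add_lt_add_of_le_of_lt h1 h2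
        _ = 1 / (4 * M) := by field_simp; norm_num
    have hpat := pat_eq (L := L) (k := k) hL hk0 hi hq hz hδ
    have harg : (p : ℝ) * r + q / (L * k ^ L : ℕ) + ((q : ℝ) * (r - 1 / M) +
        ((p + q : ℕ) : ℝ) * (ang2 (s j) - r)) = ((p + q : ℕ) : ℝ) * ang2 (s j) := by
      rw [← hM]
      push_cast
      field_simp
      ring
    rw [harg] at hpat
    rw [Finset.mem_filter, Finset.mem_range]
    refine ⟨by omega, ?_⟩
    rw [hpat]
    have h3 := hpO q hq
    rw [← Function.iterate_add_apply] at h3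
    rw [add_comm p q]
    exact h3.le
  -- counting
  let V : Finset ℕ := (Finset.range ℓ).filter
    (fun p => (rot A.T (r : 𝕋))^[p] (A.T^[n₀] x, 0) ∈ O i ×ˢ U)
  have hVc : V.card = cnt (rot A.T (r : 𝕋)) (A.T^[n₀] x, 0) ℓ (O i ×ˢ U) := by
    unfold cnt
    simp only [V]
    congr
  have hVcard : 3 / 4 * m₀ * ℓ < V.card := by
    rw [hVc]
    exact hj1
  have hVsub : V ⊆ Finset.Ico (ℓ - L) ℓ ∪ (Finset.range L).biUnion fun q =>
      (Finset.range ℓ).filter fun p => p + q ∈ E := by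
    intro p hp
    rw [Finset.mem_filter, Finset.mem_range] at hp
    rw [Finset.mem_union]
    by_cases hpL : p + L ≤ ℓ
    · right
      obtain ⟨q, hq, hqS⟩ := hno (s j) p hpL
      rw [Finset.mem_biUnion]
      refine ⟨q, Finset.mem_range.2 hq, ?_⟩
      rw [Finset.mem_filter, Finset.mem_range]
      refine ⟨hp.1, ?_⟩
      rw [Finset.mem_sdiff]
      refine ⟨hV p hpL hp.2 q hq, ?_⟩
      rw [Finset.mem_filter]
      rintro ⟨_, h⟩
      exact hqS h
    · left
      rw [Finset.mem_Ico]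
      omega
  have hcount : V.card ≤ L + L * E.card := by
    refine (Finset.card_le_card hVsub).trans ((Finset.card_union_le _ _).trans ?_)
    refine add_le_add ?_ ?_
    · rw [Nat.card_Ico]; omega
    · refine Finset.card_biUnion_le.trans ?_
      calc ∑ q ∈ Finset.range L, ((Finset.range ℓ).filter fun p => p + q ∈ E).card
          ≤ ∑ q ∈ Finset.range L, E.card := by
            refine Finset.sum_le_sum fun q _ => ?_
            refine Finset.card_le_card_of_injOn (fun p => p + q) ?_ ?_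
            · intro p hp
              have hp' := Finset.mem_coe.1 hp
              rw [Finset.mem_filter] at hp'
              exact Finset.mem_coe.2 hp'.2
            · intro a _ b _ hab
              simpa using hab
        _ = L * E.card := by rw [Finset.sum_const, Finset.card_range, smul_eq_mul]
  have h1 : (V.card : ℝ) ≤ L + L * E.card := by exact_mod_cast hcount
  have h2 : (L : ℝ) * E.card < m₀ / 2 * ℓ := by
    calc (L : ℝ) * E.card < L * (m₀ / (2 * L) * ℓ) := mul_lt_mul_of_pos_left hEcard hL'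
      _ = m₀ / 2 * ℓ := by field_simp
  nlinarith

end Q70.Ue
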