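import Pool.Agent.Q70.UpeShift

/-!
# Uniform positive entropy of the subshift
-/

open Filter Topology MeasureTheory

namespace Q70.Upe

open Classical in
/-- The configuration with the block `w j` around the position `P j`, `j < J`. -/
noncomputable def glue (w : ℕ → ℤ → Bool) (P J : ℕ) : ℤ → Bool :=
  fun n => decide (∃ j : ℕ, j < J ∧ w j (n - P * j) = true)

theorem glue_eq_true {w : ℕ → ℤ → Bool} {P J : ℕ} {n : ℤ} :
    glue w P J n = true ↔ ∃ j : ℕ, j < J ∧ w j (n - P * j) = true := by
  simp [glue]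

theorem glue_admissible {w : ℕ → ℤ → Bool} {M b J : ℕ} (hw : ∀ j, Admissible (w j))
    (hs : ∀ j n, w j n = true → |n| ≤ M)
    (hP : 4 * ((6 * M + 1) * (2 * M + 1)) ≤ 4 ^ b) : Admissible (glue w (4 ^ b) J) := by
  intro k hk i h1 h2 R hR
  rw [glue_eq_true] at h1 h2
  obtain ⟨j, hj, h1⟩ := h1
  obtain ⟨j', hj', h2⟩ := h2
  set P : ℕ := 4 ^ b with hPdef
  have ha := abs_le.1 (hs j _ h1)
  have ha' := abs_le.1 (hs j' _ h2)
  have hPM : 6 * M + 1 < P := by nlinarith
  have hPpos : 0 < P := by omega
  have hPZ : (6 : ℤ) * M + 1 < P := by exact_mod_cast hPM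
  -- the two ones are in the same block
  have hkb : k < b := by
    by_contra hcon
    push Not at hcon
    obtain ⟨t, rfl⟩ := Nat.exists_eq_add_of_le hcon
    have e := nk_add b t
    have e3 := three_nk b
    rw [← hPdef] at e e3
    have eZ : ((nk (b + t) : ℕ) : ℤ) = nk b + P * nk t := by exact_mod_cast e
    have e3Z : (3 : ℤ) * nk b + 1 = P := by exact_mod_cast e3
    rw [eZ] at ha'
    -- `P (1 - 3 z) = 1 + 3 (a' - a)`
    set z : ℤ := (j' : ℤ) - j - nk t with hz
    have key : (P : ℤ) * (1 - 3 * z) =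
        1 + 3 * ((i + (nk b + P * nk t) - P * j') - (i - P * j)) := by
      rw [hz]; linear_combination (-1 : ℤ) * e3Z
    have hne : (1 - 3 * z) ≠ 0 := by omega
    have habs : (P : ℤ) ≤ |(P : ℤ) * (1 - 3 * z)| := by
      rw [abs_mul, abs_of_pos (by exact_mod_cast hPpos : (0 : ℤ) < P)]
      have : 1 ≤ |1 - 3 * z| := Int.one_le_abs hne
      nlinarith
    rw [key] at habs
    have : |1 + 3 * ((i + (nk b + P * nk t) - P * j') - (i - P * j))| ≤ 6 * (M : ℤ) + 1 := by
      rw [abs_le]
      constructor <;> linarith [ha.1, ha.2, ha'.1, ha'.2]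
    linarith
  have h3k := three_nk k
  have h4k : 4 ^ k ≤ P := by
    rw [hPdef]; exact Nat.pow_le_pow_right (by norm_num) hkb.le
  have h4kZ : (3 : ℤ) * nk k + 1 ≤ P := by exact_mod_cast (h3k.le.trans h4k)
  have hjj : j' = j := by
    have key : (P : ℤ) * ((j' : ℤ) - j) =
        nk k - ((i + nk k - P * j') - (i - P * j)) := by ring
    have hnk0 : (0 : ℤ) ≤ nk k := by positivity
    rcases lt_trichotomy ((j' : ℤ) - j) 0 with h | h | h
    · exfalso
      have h5 : (j' : ℤ) - j ≤ -1 := by omega
      have h6 : (P : ℤ) * ((j' : ℤ) - j) ≤ P * (-1) :=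
        mul_le_mul_of_nonneg_left h5 (by positivity)
      rw [key] at h6
      linarith [ha.1, ha.2, ha'.1, ha'.2]
    · omega
    · exfalso
      have h5 : 1 ≤ (j' : ℤ) - j := by omega
      have h6 : (P : ℤ) * 1 ≤ P * ((j' : ℤ) - j) :=
        mul_le_mul_of_nonneg_left h5 (by positivity)
      rw [key] at h6
      linarith [ha.1, ha.2, ha'.1, ha'.2]
  subst hjj
  have h2' : w j' (i - P * j' + nk k) = true := by
    have : i - P * j' + nk k = i + nk k - P * j' := by ring
    rw [this]; exact h2
  have hadm := hw j' k hk (i - P * j') h1 h2' R hR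
  have hnkM : (nk k : ℤ) ≤ 2 * M := by linarith [ha.1, ha.2, ha'.1, ha'.2]
  have hnkM' : nk k ≤ 2 * M := by exact_mod_cast hnkM
  have h2k : 2 ^ k ≤ 6 * M + 1 := by
    have : 2 ^ k ≤ 4 ^ k := Nat.pow_le_pow_left (by norm_num) k
    omega
  by_cases hcase : R + 2 * M < P
  · -- only the block itself is seen
    refine (Nat.mul_le_mul_left _ ?_).trans hadm
    unfold ones
    apply Finset.card_le_card_of_injOn (fun n : ℤ => n - P * j')
    · intro n hn
      simp only [Finset.coe_filter, Finset.mem_Icc, Set.mem_ofPred_eq] at hn ⊢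
      obtain ⟨⟨hn1, hn2⟩, hn3⟩ := hn
      rw [glue_eq_true] at hn3
      obtain ⟨l, hl, hn3⟩ := hn3
      have hal := abs_le.1 (hs l _ hn3)
      have hcZ : (R : ℤ) + 2 * M < P := by exact_mod_cast hcase
      have hlj : (l : ℤ) - j' = 0 := by
        rcases lt_trichotomy ((l : ℤ) - j') 0 with h | h | h
        · exfalso
          have h5 : (l : ℤ) - j' ≤ -1 := by omega
          have h6 : (P : ℤ) * ((l : ℤ) - j') ≤ P * (-1) :=
            mul_le_mul_of_nonneg_left h5 (by positivity)
          rw [mul_sub] at h6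
          linarith [ha.1, ha.2, hal.1, hal.2]
        · exact h
        · exfalso
          have h5 : 1 ≤ (l : ℤ) - j' := by omega
          have h6 : (P : ℤ) * 1 ≤ P * ((l : ℤ) - j') :=
            mul_le_mul_of_nonneg_left h5 (by positivity)
          rw [mul_sub] at h6
          linarith [ha.1, ha.2, hal.1, hal.2]
      have hlj' : l = j' := by omega
      subst hlj'
      exact ⟨⟨by linarith, by linarith⟩, hn3⟩
    · intro n _ n' _ h
      have h' : n - P * j' = n' - P * j' := h
      linarith
  · -- long windows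
    push Not at hcase
    set lo : ℤ := (i - R + M) / P with hlo
    set hi : ℤ := (i + R + M) / P with hhi
    have hPZpos : (0 : ℤ) < P := by exact_mod_cast hPpos
    have hcount : ones (glue w P J) i R ≤
        ((Finset.Icc lo hi) ×ˢ (Finset.Icc (-(M : ℤ)) M)).card := by
      unfold ones
      apply Finset.card_le_card_of_injOn (fun n : ℤ => ((n + M) / P, n - P * ((n + M) / P)))
      · intro n hn
        simp only [Finset.coe_filter, Finset.mem_Icc, Set.mem_ofPred_eq] at hn
        obtain ⟨⟨hn1, hn2⟩, hn3⟩ := hn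
        rw [glue_eq_true] at hn3
        obtain ⟨l, hl, hn3⟩ := hn3
        have hal := abs_le.1 (hs l _ hn3)
        have hdiv : (n + M) / (P : ℤ) = l := by
          have e : n + M = (n - P * l + M) + P * l := by ring
          rw [e, Int.add_mul_ediv_left _ _ hPZpos.ne', Int.ediv_eq_zero_of_lt (by linarith [hal.1])
            (by linarith [hal.2]), zero_add]
        rw [Finset.mem_coe, Finset.mem_product, Finset.mem_Icc, Finset.mem_Icc]
        simp only
        refine ⟨⟨?_, ?_⟩, ?_, ?_⟩
        · exact Int.ediv_le_ediv hPZpos (by linarith)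
        · exact Int.ediv_le_ediv hPZpos (by linarith)
        · rw [hdiv]; exact hal.1
        · rw [hdiv]; exact hal.2
      · intro n _ n' _ h
        have h' : ((n + M) / (P : ℤ), n - P * ((n + M) / P)) =
          ((n' + M) / (P : ℤ), n' - P * ((n' + M) / P)) := h
        rw [Prod.mk.injEq] at h'
        obtain ⟨h3, h4⟩ := h'
        rw [h3] at h4
        linarith
    rw [Finset.card_product, Int.card_Icc, Int.card_Icc] at hcount
    -- bound on the number of blocks
    have hlohi : (P : ℤ) * (hi - lo) ≤ 2 * R + P := by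
      have e1 := Int.emod_add_mul_ediv (i - R + M) P
      have e2 := Int.emod_add_mul_ediv (i + R + M) P
      have e3 := Int.emod_nonneg (i + R + M) hPZpos.ne'
      have e4 := Int.emod_lt_of_pos (i - R + M) hPZpos
      rw [← hlo] at e1
      rw [← hhi] at e2
      rw [mul_sub]
      linarith
    have hlohi0 : lo ≤ hi := Int.ediv_le_ediv hPZpos (by linarith)
    have hc2 : ((M : ℤ) + 1 - -(M : ℤ)).toNat = 2 * M + 1 := by
      omega
    rw [hc2] at hcount
    obtain ⟨D, hD⟩ : ∃ D : ℕ, hi - lo = D := ⟨(hi - lo).toNat, by omega⟩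
    have hc1 : (hi + 1 - lo).toNat = D + 1 := by omega
    rw [hc1] at hcount
    rw [hD] at hlohi
    have hlohi' : P * D ≤ 2 * R + P := by exact_mod_cast hlohi
    -- `2 ^ k * count ≤ Q (D + 1)`
    set Q := (6 * M + 1) * (2 * M + 1) with hQ
    have hQ1 : 2 ^ k * ones (glue w P J) i R ≤ Q * (D + 1) := by
      calc 2 ^ k * ones (glue w P J) i R ≤ (6 * M + 1) * ((D + 1) * (2 * M + 1)) :=
            Nat.mul_le_mul h2k hcount
        _ = Q * (D + 1) := by rw [hQ]; ring
    refine hQ1.trans ?_
    have hQM : 2 * M + 1 ≤ Q := by rw [hQ]; nlinarith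
    -- `4 Q ≤ P`
    have h7 : 4 * Q * D ≤ 2 * R + P := (Nat.mul_le_mul_right D hP).trans hlohi'
    -- case distinction on the size of `D`
    have hR2 : P ≤ R + 2 * M := hcase
    have h8 : 4 * (Q * D) ≤ 2 * R + P := by
      calc 4 * (Q * D) = 4 * Q * D := by ring
        _ ≤ 2 * R + P := h7
    rw [mul_add, mul_one]
    omega

/-- The subshift has uniform positive entropy. -/
theorem upe_shift : UPE (shift : Sub → Sub) := by
  classical
  intro U V hU hV hUV hdU hdV
  -- nonempty open sets outside `U` and `V`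
  have hout : ∀ W : Set Sub, ¬ Dense W → ∃ (p : ℤ → Bool) (M : ℕ), Admissible p ∧
      (∀ n, p n = true → |n| ≤ M) ∧
      ∀ x : Sub, (∀ n : ℤ, |n| ≤ M → x.1 n = p n) → x ∉ W := by
    intro W hW
    rw [dense_iff_inter_open] at hW
    push Not at hW
    obtain ⟨O, hO, ⟨p0, hp0⟩, hOW⟩ := hW
    have hOW' : O ∩ W = ∅ := hOW
    -- a cylinder around `p0`
    obtain ⟨t, ht, htO⟩ := (isOpen_induced_iff (f := fun x : Sub => x.1)).1 hO
    have hp0t : p0.1 ∈ t := by
      have : p0 ∈ (fun x : Sub => x.1) ⁻¹' t := by rw [htO]; exact hp0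
      exact this
    obtain ⟨I, s, hs, hst⟩ := isOpen_pi_iff.1 ht p0.1 hp0t
    obtain ⟨M, hM⟩ : ∃ M : ℕ, ∀ n ∈ I, |n| ≤ M := by
      obtain ⟨C, hC⟩ := ((I : Set ℤ).toFinite.image (fun n : ℤ => |n|)).bddAbove
      refine ⟨C.toNat, fun n hn => ?_⟩
      have := hC ⟨n, hn, rfl⟩
      have h0 := abs_nonneg n
      simp only at this
      omega
    refine ⟨fun n => decide (|n| ≤ M) && p0.1 n, M, ?_, ?_, ?_⟩
    · exact p0.2.mono fun j hj => by
        simp only [Bool.and_eq_true, decide_eq_true_eq] at hj
        exact hj.2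
    · intro n hn
      simp only [Bool.and_eq_true, decide_eq_true_eq] at hn
      exact hn.1
    · intro x hx hxW
      have hxO : x ∈ O := by
        rw [← htO]
        apply hst
        intro n hn
        have h1 := hx n (hM n hn)
        simp only [hM n hn, decide_true, Bool.true_and] at h1
        change x.1 n ∈ s n
        rw [h1]
        exact (hs n hn).2
      have : x ∈ O ∩ W := ⟨hxO, hxW⟩
      rw [hOW'] at this
      exact this
  obtain ⟨p, M1, hp, hps, hpU⟩ := hout U hdU
  obtain ⟨q, M2, hq, hqs, hqV⟩ := hout V hdV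
  set M := max M1 M2 with hM
  obtain ⟨b, hb⟩ : ∃ b : ℕ, 4 * ((6 * M + 1) * (2 * M + 1)) ≤ 4 ^ b :=
    ⟨_, (Nat.lt_pow_self (by norm_num : 1 < 4)).le⟩
  apply coverEntropy_pos_of _ U V hUV (P := 4 ^ b) (Nat.one_le_two_pow.trans
    (Nat.pow_le_pow_left (by norm_num) b))
  intro J F hF hcov
  -- the points
  set w : (Fin J → Bool) → ℕ → ℤ → Bool := fun c j =>
    if h : j < J then (if c ⟨j, h⟩ then p else q) else q with hw
  have hwadm : ∀ c j, Admissible (w c j) := by
    intro c j
    simp only [hw]
    split_ifs <;> assumption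
  have hwsupp : ∀ c j n, w c j n = true → |n| ≤ M := by
    intro c j n h
    simp only [hw] at h
    split_ifs at h
    · exact (hps n h).trans (by exact_mod_cast le_max_left M1 M2)
    · exact (hqs n h).trans (by exact_mod_cast le_max_right M1 M2)
    · exact (hqs n h).trans (by exact_mod_cast le_max_right M1 M2)
  set y : (Fin J → Bool) → Sub := fun c =>
    ⟨glue (w c) (4 ^ b) J, glue_admissible (hwadm c) (hwsupp c) hb⟩ with hy
  have hPM : 2 * M < 4 ^ b := by nlinarith
  -- the coordinates of the shifted points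
  have hcoord : ∀ (c : Fin J → Bool) (j : Fin J) (n : ℤ), |n| ≤ M →
      (shift^[4 ^ b * j] (y c)).1 n = w c j n := by
    intro c j n hn
    rw [shift_iterate]
    have hiff : glue (w c) (4 ^ b) J (n + ((4 ^ b * j : ℕ) : ℤ)) = true ↔ w c j n = true := by
      rw [glue_eq_true]
      constructor
      · rintro ⟨l, hl, h⟩
        have hal := abs_le.1 (hwsupp c l _ h)
        have hn' := abs_le.1 hn
        have hPMZ : (2 : ℤ) * M < ((4 ^ b : ℕ) : ℤ) := by exact_mod_cast hPM
        have hlj : (l : ℤ) - j = 0 := by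
          push_cast at hal h hPMZ
          rcases lt_trichotomy ((l : ℤ) - j) 0 with h0 | h0 | h0
          · exfalso
            have h5 : (l : ℤ) - j ≤ -1 := by omega
            have h6 : ((4 : ℤ) ^ b) * ((l : ℤ) - j) ≤ (4 : ℤ) ^ b * (-1) :=
              mul_le_mul_of_nonneg_left h5 (by positivity)
            rw [mul_sub] at h6
            linarith [hal.1, hal.2, hn'.1, hn'.2]
          · exact h0
          · exfalso
            have h5 : 1 ≤ (l : ℤ) - j := by omega
            have h6 : ((4 : ℤ) ^ b) * 1 ≤ (4 : ℤ) ^ b * ((l : ℤ) - j) :=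
              mul_le_mul_of_nonneg_left h5 (by positivity)
            rw [mul_sub] at h6
            linarith [hal.1, hal.2, hn'.1, hn'.2]
        have hlj' : l = j := by omega
        subst hlj'
        have e : n + ((4 ^ b * (j : ℕ) : ℕ) : ℤ) - ((4 ^ b : ℕ) : ℤ) * ((j : ℕ) : ℤ) = n := by
          push_cast; ring
        rwa [e] at h
      · intro h
        refine ⟨j, j.2, ?_⟩
        have e : n + ((4 ^ b * (j : ℕ) : ℕ) : ℤ) - ((4 ^ b : ℕ) : ℤ) * ((j : ℕ) : ℤ) = n := by
          push_cast; ring
        rw [e]; exact h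
    exact Bool.eq_iff_iff.2 hiff
  -- an element of the subcover containing `y c`
  have hchoose : ∀ c : Fin J → Bool, ∃ W ∈ F, y c ∈ W := by
    intro c
    have : y c ∈ ⋃₀ (F : Set (Set Sub)) := by rw [hcov]; trivial
    obtain ⟨W, hW, hyW⟩ := this
    exact ⟨W, hW, hyW⟩
  choose W hWF hyW using hchoose
  -- different names give different elements
  have hval : ∀ (c c' : Fin J → Bool) (j : Fin J), y c ∈ W c' → c' j = c j := by
    intro c c' j hmem
    obtain ⟨s, hs, hsW⟩ := hF (hWF c')
    have hj : 4 ^ b * (j : ℕ) < 4 ^ b * J := Nat.mul_lt_mul_of_pos_left j.2 (by positivity)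
    have h1 : shift^[4 ^ b * (j : ℕ)] (y c) ∈ s ⟨4 ^ b * j, hj⟩ := by
      rw [hsW] at hmem
      exact Set.mem_iInter.1 hmem ⟨4 ^ b * j, hj⟩
    have h2 : shift^[4 ^ b * (j : ℕ)] (y c') ∈ s ⟨4 ^ b * j, hj⟩ := by
      have := hyW c'
      rw [hsW] at this
      exact Set.mem_iInter.1 this ⟨4 ^ b * j, hj⟩
    have hnotU : ∀ c : Fin J → Bool, c j = true → shift^[4 ^ b * (j : ℕ)] (y c) ∉ U := by
      intro c hc
      apply hpU
      intro n hn
      rw [hcoord c j n (hn.trans (by exact_mod_cast le_max_left M1 M2))]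
      simp [hw, hc]
    have hnotV : ∀ c : Fin J → Bool, c j = false → shift^[4 ^ b * (j : ℕ)] (y c) ∉ V := by
      intro c hc
      apply hqV
      intro n hn
      rw [hcoord c j n (hn.trans (by exact_mod_cast le_max_right M1 M2))]
      simp [hw, hc]
    have hsj := hs ⟨4 ^ b * j, hj⟩
    rw [Set.mem_insert_iff, Set.mem_singleton_iff] at hsj
    rcases hsj with h | h
    · rw [h] at h1 h2
      have e1 : c j = false := by
        by_contra hc
        exact hnotU c (by simpa using hc) h1
      have e2 : c' j = false := by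
        by_contra hc
        exact hnotU c' (by simpa using hc) h2
      rw [e1, e2]
    · rw [h] at h1 h2
      have e1 : c j = true := by
        by_contra hc
        exact hnotV c (by simpa using hc) h1
      have e2 : c' j = true := by
        by_contra hc
        exact hnotV c' (by simpa using hc) h2
      rw [e1, e2]
  have hinj : Function.Injective W := by
    intro c c' h
    funext j
    have := hval c c' j (by rw [← h]; exact hyW c)
    exact this.symm
  calc 2 ^ J = (Finset.univ : Finset (Fin J → Bool)).card := by simp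
    _ ≤ F.card := Finset.card_le_card_of_injOn W (fun c _ => hWF c) hinj.injOn

end Q70.Upe
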