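import Mathlib

/-!
# Uniform positive entropy
-/

open Filter Topology

namespace Q70.Upe

variable {X : Type*}

/-- The cover `𝒰 ∨ T⁻¹ 𝒰 ∨ ⋯ ∨ T^{-(n-1)} 𝒰`. -/
def joinCover (T : X → X) (𝒰 : Set (Set X)) (n : ℕ) : Set (Set X) :=
  {W | ∃ s : Fin n → Set X, (∀ i, s i ∈ 𝒰) ∧ W = ⋂ i : Fin n, T^[i] ⁻¹' (s i)}

/-- The minimal cardinality of a finite subcover of `𝒱`. -/
noncomputable def minSubcover (𝒱 : Set (Set X)) : ℕ :=
  sInf {m | ∃ F : Finset (Set X), (F : Set (Set X)) ⊆ 𝒱 ∧
    ⋃₀ (F : Set (Set X)) = Set.univ ∧ F.card = m}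

/-- The topological entropy of the cover `𝒰` (the limit superior is a limit, by
subadditivity). -/
noncomputable def coverEntropy (T : X → X) (𝒰 : Set (Set X)) : ℝ :=
  limsup (fun n : ℕ => Real.log (minSubcover (joinCover T 𝒰 n)) / n) atTop

/-- Uniform positive entropy: every cover by two open sets, neither of which is dense, has
positive entropy. -/
def UPE [TopologicalSpace X] (T : X → X) : Prop :=
  ∀ U V : Set X, IsOpen U → IsOpen V → U ∪ V = Set.univ → ¬ Dense U → ¬ Dense V →
    0 < coverEntropy T {U, V}

/-- The whole join of a two-element cover is a subcover with at most `2 ^ n` elements. -/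
theorem minSubcover_le (T : X → X) (U V : Set X) (hUV : U ∪ V = Set.univ) (n : ℕ) :
    minSubcover (joinCover T {U, V} n) ≤ 2 ^ n := by
  classical
  set G : Finset (Set X) := Finset.univ.image
    (fun b : Fin n → Bool => ⋂ i : Fin n, T^[i] ⁻¹' (if b i then U else V)) with hG
  have hmem : G.card ∈ {m | ∃ F : Finset (Set X), (F : Set (Set X)) ⊆ joinCover T {U, V} n ∧
      ⋃₀ (F : Set (Set X)) = Set.univ ∧ F.card = m} := by
    refine ⟨G, ?_, ?_, rfl⟩
    · intro W hW
      rw [Finset.mem_coe, hG, Finset.mem_image] at hW
      obtain ⟨b, -, rfl⟩ := hW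
      refine ⟨fun i => if b i then U else V, fun i => ?_, rfl⟩
      by_cases h : b i <;> simp [h]
    · apply Set.eq_univ_of_forall
      intro x
      refine ⟨⋂ i : Fin n, T^[i] ⁻¹' (if decide (T^[i] x ∈ U) then U else V), ?_, ?_⟩
      · rw [Finset.mem_coe, hG, Finset.mem_image]
        exact ⟨fun i => decide (T^[i] x ∈ U), Finset.mem_univ _, rfl⟩
      · rw [Set.mem_iInter]
        intro i
        rw [Set.mem_preimage]
        by_cases h : T^[i] x ∈ U
        · simp [h]
        · simp only [h, decide_false, Bool.false_eq_true, if_false]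
          have : T^[i] x ∈ U ∪ V := by rw [hUV]; trivial
          exact this.resolve_left h
  refine (Nat.sInf_le hmem).trans ?_
  refine Finset.card_image_le.trans ?_
  simp

theorem coverEntropy_pos_of (T : X → X) (U V : Set X) (hUV : U ∪ V = Set.univ) {P : ℕ}
    (hP : 1 ≤ P) (h : ∀ J : ℕ, ∀ F : Finset (Set X),
      (F : Set (Set X)) ⊆ joinCover T {U, V} (P * J) → ⋃₀ (F : Set (Set X)) = Set.univ →
      2 ^ J ≤ F.card) : 0 < coverEntropy T {U, V} := by
  have hlog2 : 0 < Real.log 2 := Real.log_pos (by norm_num)
  have hbdd : IsBoundedUnder (· ≤ ·) atTop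
      (fun n : ℕ => Real.log (minSubcover (joinCover T {U, V} n)) / n) := by
    refine isBoundedUnder_of ⟨Real.log 2, fun n => ?_⟩
    rcases Nat.eq_zero_or_pos n with rfl | hn
    · simp [hlog2.le]
    · have hn' : (0 : ℝ) < n := by exact_mod_cast hn
      rw [div_le_iff₀ hn']
      rcases Nat.eq_zero_or_pos (minSubcover (joinCover T {U, V} n)) with h0 | h0
      · rw [h0]
        simp only [Nat.cast_zero, Real.log_zero]
        positivity
      · have h1 : (minSubcover (joinCover T {U, V} n) : ℝ) ≤ 2 ^ n := by
          exact_mod_cast minSubcover_le T U V hUV n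
        have h2 := Real.log_le_log (by exact_mod_cast h0) h1
        rw [Real.log_pow] at h2
        linarith
  have hfreq : ∃ᶠ n : ℕ in atTop, Real.log 2 / P ≤
      Real.log (minSubcover (joinCover T {U, V} n)) / n := by
    rw [Filter.frequently_atTop]
    intro a
    refine ⟨P * (a + 1), by nlinarith, ?_⟩
    have hP' : (0 : ℝ) < P := by exact_mod_cast hP
    have ha' : (0 : ℝ) < ((a + 1 : ℕ) : ℝ) := by positivity
    have hN : 2 ^ (a + 1) ≤ minSubcover (joinCover T {U, V} (P * (a + 1))) := by
      have hne : {m | ∃ F : Finset (Set X), (F : Set (Set X)) ⊆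
          joinCover T {U, V} (P * (a + 1)) ∧
          ⋃₀ (F : Set (Set X)) = Set.univ ∧ F.card = m}.Nonempty := by
        by_contra hcon
        rw [Set.not_nonempty_iff_eq_empty] at hcon
        have h1 := minSubcover_le T U V hUV (P * (a + 1))
        -- produce an element directly
        classical
        have : (Finset.univ.image (fun b : Fin (P * (a + 1)) → Bool =>
            ⋂ i : Fin (P * (a + 1)), T^[i] ⁻¹' (if b i then U else V))).card ∈
            (∅ : Set ℕ) := by
          rw [← hcon]
          refine ⟨_, ?_, ?_, rfl⟩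
          · intro W hW
            rw [Finset.mem_coe, Finset.mem_image] at hW
            obtain ⟨b, -, rfl⟩ := hW
            refine ⟨fun i => if b i then U else V, fun i => ?_, rfl⟩
            by_cases h : b i <;> simp [h]
          · apply Set.eq_univ_of_forall
            intro x
            refine ⟨⋂ i : Fin (P * (a + 1)),
              T^[i] ⁻¹' (if decide (T^[i] x ∈ U) then U else V), ?_, ?_⟩
            · rw [Finset.mem_coe, Finset.mem_image]
              exact ⟨fun i => decide (T^[i] x ∈ U), Finset.mem_univ _, rfl⟩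
            · rw [Set.mem_iInter]
              intro i
              rw [Set.mem_preimage]
              by_cases h : T^[i] x ∈ U
              · simp [h]
              · simp only [h, decide_false, Bool.false_eq_true, if_false]
                have : T^[i] x ∈ U ∪ V := by rw [hUV]; trivial
                exact this.resolve_left h
        exact this
      obtain ⟨F, hF1, hF2, hF3⟩ := Nat.sInf_mem hne
      have := h (a + 1) F hF1 hF2
      unfold minSubcover
      rw [← hF3]
      exact this
    have hN' : ((2 : ℝ)) ^ (a + 1) ≤ minSubcover (joinCover T {U, V} (P * (a + 1))) := by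
      exact_mod_cast hN
    have h2 := Real.log_le_log (by positivity) hN'
    rw [Real.log_pow] at h2
    rw [Nat.cast_mul, div_le_div_iff₀ hP' (by positivity)]
    nlinarith
  refine lt_of_lt_of_le ?_ (Filter.le_limsup_of_frequently_le hfreq hbdd)
  have hP' : (0 : ℝ) < P := by exact_mod_cast hP
  positivity

end Q70.Upe
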