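import Pool.Agent.Q70.UpeDefs

/-!
# A hereditary subshift with uniform positive entropy and without ergodic measures of full support
-/

open Filter Topology MeasureTheory

namespace Q70.Upe

/-- The distances `n_k = 1 + 4 + ⋯ + 4 ^ (k - 1) = (4 ^ k - 1) / 3`. -/
def nk (k : ℕ) : ℕ := ∑ i ∈ Finset.range k, 4 ^ i

theorem nk_succ (k : ℕ) : nk (k + 1) = nk k + 4 ^ k := Finset.sum_range_succ _ _

theorem three_nk (k : ℕ) : 3 * nk k + 1 = 4 ^ k := by
  induction k with
  | zero => simp [nk]
  | succ k ih => rw [nk_succ, pow_succ]; omega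

theorem nk_add (b t : ℕ) : nk (b + t) = nk b + 4 ^ b * nk t := by
  have h1 := three_nk (b + t)
  have h2 := three_nk b
  have h3 := three_nk t
  rw [pow_add, ← h3] at h1
  have : 4 ^ b * (3 * nk t + 1) = 3 * (4 ^ b * nk t) + 4 ^ b := by ring
  rw [this] at h1
  omega

/-- The number of ones of `x` in the window `[i - R, i + R]`. -/
noncomputable def ones (x : ℤ → Bool) (i : ℤ) (R : ℕ) : ℕ :=
  ((Finset.Icc (i - R) (i + R)).filter (fun j => x j = true)).card

/-- The configurations in which two ones at distance `n_k` force the density of ones in all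
windows of radius `R ≥ 4 ^ k` around the first of them to be at most `2 ^ (-k)`. -/
def Admissible (x : ℤ → Bool) : Prop :=
  ∀ k : ℕ, 1 ≤ k → ∀ i : ℤ, x i = true → x (i + nk k) = true →
    ∀ R : ℕ, 4 ^ k ≤ R → 2 ^ k * ones x i R ≤ 2 * R + 1

/-- The subshift. -/
def Sub : Type := {x : ℤ → Bool // Admissible x}

instance : TopologicalSpace Sub := inferInstanceAs (TopologicalSpace {x : ℤ → Bool // Admissible x})

theorem ones_mono {x y : ℤ → Bool} (h : ∀ j, x j = true → y j = true) (i : ℤ) (R : ℕ) :
    ones x i R ≤ ones y i R := by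
  unfold ones
  apply Finset.card_le_card
  intro j hj
  rw [Finset.mem_filter] at hj ⊢
  exact ⟨hj.1, h j hj.2⟩

theorem Admissible.mono {x y : ℤ → Bool} (hy : Admissible y) (h : ∀ j, x j = true → y j = true) :
    Admissible x := fun k hk i h1 h2 R hR =>
  (Nat.mul_le_mul_left _ (ones_mono h i R)).trans (hy k hk i (h _ h1) (h _ h2) R hR)

theorem ones_shift (x : ℤ → Bool) (a i : ℤ) (R : ℕ) :
    ones (fun n => x (n + a)) i R = ones x (i + a) R := by
  unfold ones
  apply Finset.card_bij (fun j _ => j + a)
  · intro j hj
    rw [Finset.mem_filter, Finset.mem_Icc] at hj ⊢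
    exact ⟨⟨by linarith [hj.1.1], by linarith [hj.1.2]⟩, hj.2⟩
  · intro j _ j' _ h
    linarith
  · intro j hj
    rw [Finset.mem_filter, Finset.mem_Icc] at hj
    refine ⟨j - a, ?_, by ring⟩
    rw [Finset.mem_filter, Finset.mem_Icc]
    refine ⟨⟨by linarith [hj.1.1], by linarith [hj.1.2]⟩, ?_⟩
    change x (j - a + a) = true
    rw [sub_add_cancel]; exact hj.2

theorem Admissible.shift {x : ℤ → Bool} (hx : Admissible x) (a : ℤ) :
    Admissible (fun n => x (n + a)) := by
  intro k hk i h1 h2 R hR
  rw [ones_shift]
  refine hx k hk (i + a) h1 ?_ R hR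
  have : i + a + nk k = i + nk k + a := by ring
  rw [this]; exact h2

/-- The shift homeomorphism. -/
def shift : Sub ≃ₜ Sub where
  toFun x := ⟨fun n => x.1 (n + 1), x.2.shift 1⟩
  invFun x := ⟨fun n => x.1 (n + (-1)), x.2.shift (-1)⟩
  left_inv x := by
    apply Subtype.ext
    funext n
    simp
  right_inv x := by
    apply Subtype.ext
    funext n
    simp
  continuous_toFun := by
    apply Continuous.subtype_mk
    exact continuous_pi fun n => (continuous_apply (n + 1)).comp continuous_subtype_val
  continuous_invFun := by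
    apply Continuous.subtype_mk
    exact continuous_pi fun n => (continuous_apply (n + (-1))).comp continuous_subtype_val

theorem shift_iterate (n : ℕ) (x : Sub) (m : ℤ) : (shift^[n] x).1 m = x.1 (m + n) := by
  induction n generalizing m with
  | zero => simp
  | succ n ih =>
    rw [Function.iterate_succ_apply']
    change (shift^[n] x).1 (m + 1) = _
    rw [ih]
    have e : m + 1 + (n : ℤ) = m + ((n + 1 : ℕ) : ℤ) := by push_cast; ring
    rw [e]

theorem isClosed_admissible : IsClosed {x : ℤ → Bool | Admissible x} := by
  have h1 : ∀ (i : ℤ), IsClopen {x : ℤ → Bool | x i = true} := fun i =>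
    (isClopen_discrete ({true} : Set Bool)).preimage (continuous_apply i)
  have hones : ∀ (i : ℤ) (R : ℕ), Continuous fun x : ℤ → Bool => ones x i R := by
    intro i R
    have : (fun x : ℤ → Bool => ones x i R) =
        fun x => ∑ j ∈ Finset.Icc (i - R) (i + R), if x j = true then 1 else 0 := by
      funext x
      unfold ones
      rw [Finset.card_filter]
    rw [this]
    apply continuous_finsetSum
    intro j _
    have hb : Continuous (fun b : Bool => if b = true then (1 : ℕ) else 0) :=
      continuous_of_discreteTopology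
    exact hb.comp (continuous_apply j)
  simp only [Admissible]
  have : {x : ℤ → Bool | ∀ k : ℕ, 1 ≤ k → ∀ i : ℤ, x i = true → x (i + nk k) = true →
      ∀ R : ℕ, 4 ^ k ≤ R → 2 ^ k * ones x i R ≤ 2 * R + 1} =
      ⋂ (k : ℕ) (_ : 1 ≤ k) (i : ℤ) (R : ℕ) (_ : 4 ^ k ≤ R),
        ({x : ℤ → Bool | x i = true}ᶜ ∪ {x : ℤ → Bool | x (i + nk k) = true}ᶜ ∪
          {x : ℤ → Bool | 2 ^ k * ones x i R ≤ 2 * R + 1}) := by
    ext x
    simp only [Set.mem_ofPred_eq, Set.mem_iInter, Set.mem_union, Set.mem_compl_iff]
    constructor
    · intro h k hk i R hR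
      by_cases h1 : x i = true
      · by_cases h2 : x (i + nk k) = true
        · exact Or.inr (h k hk i h1 h2 R hR)
        · exact Or.inl (Or.inr h2)
      · exact Or.inl (Or.inl h1)
    · intro h k hk i h1 h2 R hR
      rcases h k hk i R hR with (h3 | h3) | h3
      · exact absurd h1 h3
      · exact absurd h2 h3
      · exact h3
  rw [this]
  refine isClosed_iInter fun k => isClosed_iInter fun _ => isClosed_iInter fun i =>
    isClosed_iInter fun R => isClosed_iInter fun _ => ?_
  refine ((h1 i).compl.isClosed.union (h1 _).compl.isClosed).union ?_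
  have hc : Continuous fun x : ℤ → Bool => 2 ^ k * ones x i R :=
    continuous_const.mul (hones i R)
  exact isClosed_le hc continuous_const

instance : CompactSpace Sub := by
  have : IsCompact {x : ℤ → Bool | Admissible x} := isClosed_admissible.isCompact
  exact isCompact_iff_compactSpace.1 this

instance : T2Space Sub := inferInstanceAs (T2Space {x : ℤ → Bool // Admissible x})

instance : SecondCountableTopology Sub :=
  inferInstanceAs (SecondCountableTopology ({x : ℤ → Bool | Admissible x} : Set (ℤ → Bool)))

instance : TopologicalSpace.MetrizableSpace Sub :=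
  TopologicalSpace.metrizableSpace_of_t3_secondCountable Sub

theorem continuous_eval (m : ℤ) : Continuous (fun x : Sub => x.1 m) :=
  show Continuous (fun x : {x : ℤ → Bool // Admissible x} => x.1 m) from
    (continuous_apply m).comp continuous_subtype_val

instance : MeasurableSpace Sub := borel Sub
instance : BorelSpace Sub := ⟨rfl⟩

/-! ### The configuration with two ones -/

/-- The configuration with ones exactly at `0` and `n_k`. -/
def two (k : ℕ) : ℤ → Bool := fun n => decide (n = 0 ∨ n = nk k)

theorem nk_injective : Function.Injective nk := by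
  intro a b h
  have h1 := three_nk a
  have h2 := three_nk b
  rw [h, h2] at h1
  exact (Nat.pow_right_injective (by norm_num : 2 ≤ 4) h1.symm)

theorem nk_pos {k : ℕ} (hk : 1 ≤ k) : 0 < nk k := by
  have := three_nk k
  have h2 : 4 ≤ 4 ^ k := by
    calc 4 = 4 ^ 1 := by norm_num
      _ ≤ 4 ^ k := Nat.pow_le_pow_right (by norm_num) hk
  omega

theorem two_admissible (k : ℕ) : Admissible (two k) := by
  intro m hm i h1 h2 R hR
  simp only [two, decide_eq_true_eq] at h1 h2
  have hcard : ones (two k) i R ≤ 2 := by
    unfold ones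
    calc _ ≤ ({0, (nk k : ℤ)} : Finset ℤ).card := by
          apply Finset.card_le_card
          intro j hj
          rw [Finset.mem_filter] at hj
          have := hj.2
          simp only [two, decide_eq_true_eq] at this
          simpa using this
      _ ≤ 2 := Finset.card_le_two
  have h4 : 2 ^ m ≤ 4 ^ m := Nat.pow_le_pow_left (by norm_num) m
  nlinarith

/-! ### No ergodic measure of full support -/

theorem no_ergodic_full (μ : Measure Sub) [IsProbabilityMeasure μ] (hμ : Ergodic shift μ) :
    ¬ μ.IsOpenPosMeasure := by
  intro hpos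
  -- the invariant sets
  have hopen : ∀ m : ℤ, IsOpen {x : Sub | x.1 m = true} := fun m =>
    (isOpen_discrete ({true} : Set Bool)).preimage (continuous_eval m)
  set E : ℕ → Set Sub := fun k => {x | ∃ i : ℤ, x.1 i = true ∧ x.1 (i + nk k) = true} with hE
  have hEopen : ∀ k, IsOpen (E k) := by
    intro k
    have : E k = ⋃ i : ℤ, ({x : Sub | x.1 i = true} ∩ {x : Sub | x.1 (i + nk k) = true}) := by
      ext x
      simp [hE]
    rw [this]
    exact isOpen_iUnion fun i => (hopen _).inter (hopen _)
  have hEinv : ∀ k, shift ⁻¹' (E k) = E k := by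
    intro k
    ext x
    constructor
    · rintro ⟨i, h1, h2⟩
      refine ⟨i + 1, h1, ?_⟩
      have : i + 1 + nk k = i + nk k + 1 := by ring
      rw [this]; exact h2
    · rintro ⟨i, h1, h2⟩
      refine ⟨i - 1, ?_, ?_⟩
      · change x.1 (i - 1 + 1) = true
        rw [sub_add_cancel]; exact h1
      · change x.1 (i - 1 + nk k + 1) = true
        have : i - 1 + nk k + 1 = i + nk k := by ring
        rw [this]; exact h2
  have hEfull : ∀ k, 1 ≤ k → ∀ᵐ x ∂μ, x ∈ E k := by
    intro k _
    have hne : (E k).Nonempty := by
      refine ⟨⟨two k, two_admissible k⟩, 0, ?_, ?_⟩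
      · simp [two]
      · simp [two]
    have h0 : μ (E k) ≠ 0 := (hEopen k).measure_ne_zero μ hne
    rcases hμ.toPreErgodic.prob_eq_zero_or_one (hEopen k).measurableSet (hEinv k) with h | h
    · exact absurd h h0
    · exact (prob_compl_eq_zero_iff (hEopen k).measurableSet).2 h
  -- the set `B` of the points with a one at `0`
  set B : Set Sub := {x | x.1 0 = true} with hB
  have hBo : IsOpen B := hopen 0
  have hB0 : μ B ≠ 0 := by
    refine hBo.measure_ne_zero μ ⟨⟨two 1, two_admissible 1⟩, ?_⟩
    change two 1 0 = true
    simp [two]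
  -- averages
  set g : ℕ → Sub → ℝ := fun N x =>
    (∑ n ∈ Finset.range N, B.indicator (fun _ => (1 : ℝ)) (shift^[n] x)) / N with hg
  have hgval : ∀ N, 1 ≤ N → ∫ x, g N x ∂μ = (μ B).toReal := by
    intro N hN
    simp only [hg]
    rw [integral_div, integral_finsetSum]
    · have : ∀ n ∈ Finset.range N,
          ∫ x, B.indicator (fun _ => (1 : ℝ)) (shift^[n] x) ∂μ = (μ B).toReal := by
        intro n _
        have hmp : MeasurePreserving (shift^[n]) μ μ := hμ.toMeasurePreserving.iterate n
        have e : (fun x => B.indicator (fun _ => (1 : ℝ)) (shift^[n] x)) =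
            (shift^[n] ⁻¹' B).indicator (fun _ => (1 : ℝ)) := by
          funext x
          simp only [Set.indicator, Set.mem_preimage]
        rw [e, integral_indicator_const _ (hBo.measurableSet.preimage hmp.measurable)]
        rw [smul_eq_mul, mul_one, Measure.real,
          hmp.measure_preimage hBo.measurableSet.nullMeasurableSet]
      rw [Finset.sum_congr rfl this, Finset.sum_const, Finset.card_range, nsmul_eq_mul]
      have hN' : (N : ℝ) ≠ 0 := by positivity
      field_simp
    · intro n _
      have hmp : MeasurePreserving (shift^[n]) μ μ := hμ.toMeasurePreserving.iterate n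
      have e : (fun x => B.indicator (fun _ => (1 : ℝ)) (shift^[n] x)) =
          (shift^[n] ⁻¹' B).indicator (fun _ => (1 : ℝ)) := by
        funext x
        simp only [Set.indicator, Set.mem_preimage]
      rw [e]
      exact (integrable_const (1 : ℝ)).indicator (hBo.measurableSet.preimage hmp.measurable)
  -- almost everywhere convergence to zero
  have hlim : ∀ᵐ x ∂μ, Tendsto (fun N => g N x) atTop (𝓝 0) := by
    have hall : ∀ᵐ x ∂μ, ∀ k, 1 ≤ k → x ∈ E k := by
      rw [ae_all_iff]
      intro k
      by_cases hk : 1 ≤ k
      · filter_upwards [hEfull k hk] with x hx _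
        exact hx
      · exact Filter.Eventually.of_forall fun x h => absurd h hk
    filter_upwards [hall] with x hx
    rw [Metric.tendsto_atTop]
    intro ε hε
    obtain ⟨k0, hk0⟩ := exists_pow_lt_of_lt_one (show (0:ℝ) < ε / 4 by positivity)
      (show (1 / 2 : ℝ) < 1 by norm_num)
    set k := k0 + 1 with hk
    obtain ⟨i, hi1, hi2⟩ := hx k (by omega)
    have h4pos : 0 < 4 ^ k := by positivity
    refine ⟨4 ^ k + i.natAbs + 1, fun N hN => ?_⟩
    have hNpos : (0 : ℝ) < N := by
      have : 0 < N := by omega
      exact_mod_cast this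
    have h := x.2 k (by omega) i hi1 hi2 (N + i.natAbs) (by omega)
    have hcount : (∑ n ∈ Finset.range N, B.indicator (fun _ => (1 : ℝ)) (shift^[n] x)) ≤
        ones x.1 i (N + i.natAbs) := by
      have e1 : ∀ n ∈ Finset.range N, B.indicator (fun _ => (1 : ℝ)) (shift^[n] x) =
          if x.1 n = true then 1 else 0 := by
        intro n _
        simp only [Set.indicator, hB, Set.mem_ofPred_eq, shift_iterate, zero_add]
      rw [Finset.sum_congr rfl e1, Finset.sum_ite, Finset.sum_const_zero, add_zero,
        Finset.sum_const, nsmul_eq_mul, mul_one]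
      unfold ones
      have : ((Finset.range N).filter (fun n : ℕ => x.1 n = true)).card ≤
          ((Finset.Icc (i - ((N + i.natAbs : ℕ) : ℤ)) (i + ((N + i.natAbs : ℕ) : ℤ))).filter
            (fun j => x.1 j = true)).card := by
        apply Finset.card_le_card_of_injOn (fun n : ℕ => (n : ℤ))
        · intro n hn
          simp only [Finset.coe_filter, Finset.mem_range, Set.mem_ofPred_eq] at hn
          simp only [Finset.coe_filter, Finset.mem_Icc, Set.mem_ofPred_eq]
          refine ⟨⟨?_, ?_⟩, hn.2⟩
          · push_cast
            have := neg_abs_le i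
            have h3 := le_abs_self i
            omega
          · push_cast
            have := neg_abs_le i
            have h3 := hn.1
            omega
        · intro a _ b _ hab
          have hab' : (a : ℤ) = (b : ℤ) := hab
          exact_mod_cast hab'
      exact_mod_cast this
    have h' : (2 : ℝ) ^ k * (ones x.1 i (N + i.natAbs) : ℝ) ≤ 2 * (N + i.natAbs) + 1 := by
      exact_mod_cast h
    have hnonneg : 0 ≤ ∑ n ∈ Finset.range N, B.indicator (fun _ => (1 : ℝ)) (shift^[n] x) :=
      Finset.sum_nonneg fun n _ => Set.indicator_nonneg (fun _ _ => zero_le_one) _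
    rw [Real.dist_eq, sub_zero, abs_of_nonneg (by simp only [hg]; positivity)]
    simp only [hg]
    rw [div_lt_iff₀ hNpos]
    have h2k : (0 : ℝ) < 2 ^ k := by positivity
    have hNi : 2 * ((N : ℝ) + i.natAbs) + 1 ≤ 4 * N := by
      have : 2 * (N + i.natAbs) + 1 ≤ 4 * N := by omega
      exact_mod_cast this
    have hk1 : (1 / 2 : ℝ) ^ k < ε / 4 := by
      refine lt_of_le_of_lt ?_ hk0
      exact pow_le_pow_of_le_one (by norm_num) (by norm_num) (by omega)
    have hk2 : 1 < ε / 4 * 2 ^ k := by
      have : (1 / 2 : ℝ) ^ k * 2 ^ k = 1 := by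
        rw [← mul_pow]; norm_num
      nlinarith
    have h5 : (2 : ℝ) ^ k * (∑ n ∈ Finset.range N,
        B.indicator (fun _ => (1 : ℝ)) (shift^[n] x)) ≤ 4 * N :=
      (mul_le_mul_of_nonneg_left hcount h2k.le).trans (h'.trans hNi)
    -- compare
    by_contra hcon
    push Not at hcon
    have h6 : (2 : ℝ) ^ k * (ε * N) ≤ 4 * N :=
      (mul_le_mul_of_nonneg_left hcon h2k.le).trans h5
    nlinarith
  -- dominated convergence
  have hdct := tendsto_integral_of_dominated_convergence (μ := μ) (F := g) (f := fun _ => (0:ℝ))
    (fun _ => (1 : ℝ)) ?_ (integrable_const 1) ?_ hlim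
  · rw [integral_zero] at hdct
    have hconst : Tendsto (fun N : ℕ => ∫ x, g N x ∂μ) atTop (𝓝 (μ B).toReal) := by
      refine Tendsto.congr' ?_ tendsto_const_nhds
      filter_upwards [eventually_ge_atTop 1] with N hN
      exact (hgval N hN).symm
    have := tendsto_nhds_unique hconst hdct
    rw [ENNReal.toReal_eq_zero_iff] at this
    rcases this with h | h
    · exact hB0 h
    · exact measure_ne_top μ B h
  · intro N
    have hmeas : Measurable (g N) := by
      simp only [hg]
      apply Measurable.div_const
      apply Finset.measurable_sum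
      intro n _
      exact (measurable_const.indicator hBo.measurableSet).comp
        (hμ.toMeasurePreserving.iterate n).measurable
    exact hmeas.aestronglyMeasurable
  · intro N
    refine Filter.Eventually.of_forall fun x => ?_
    simp only [hg]
    rcases Nat.eq_zero_or_pos N with rfl | hN
    · simp
    · have hN' : (0 : ℝ) < N := by exact_mod_cast hN
      have hnonneg : 0 ≤ ∑ n ∈ Finset.range N, B.indicator (fun _ => (1 : ℝ)) (shift^[n] x) :=
        Finset.sum_nonneg fun n _ => Set.indicator_nonneg (fun _ _ => zero_le_one) _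
      rw [Real.norm_eq_abs, abs_of_nonneg (by positivity), div_le_one hN']
      calc _ ≤ ∑ n ∈ Finset.range N, (1 : ℝ) := Finset.sum_le_sum fun n _ => by
            by_cases h : shift^[n] x ∈ B <;> simp [Set.indicator, h]
        _ = N := by simp

end Q70.Upe
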