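import Mathlib

set_option autoImplicit false

/-! The base-six odometer and a cocycle with values in the cyclic group of order six. -/

open MeasureTheory Set Filter Topology
open scoped ENNReal

namespace Q70.Ur

/-- digit sequences -/
abbrev Y := ℕ → ZMod 6

/-- the uniform probability on the six residues -/
noncomputable def u : Measure (ZMod 6) := (6 : ℝ≥0∞)⁻¹ • Measure.count

theorem u_apply (s : Set (ZMod 6)) : u s = (6 : ℝ≥0∞)⁻¹ * Measure.count s := rfl

instance : IsProbabilityMeasure u := by
  refine ⟨?_⟩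
  rw [u_apply, Measure.count_apply_finite _ (Set.toFinite _)]
  have : (Set.toFinite (Set.univ : Set (ZMod 6))).toFinset.card = 6 := by
    simp
  rw [this]
  exact ENNReal.inv_mul_cancel (by norm_num) (by norm_num)

theorem u_singleton (a : ZMod 6) : u {a} = (6 : ℝ≥0∞)⁻¹ := by
  rw [u_apply, Measure.count_singleton, mul_one]

theorem lintegral_u (f : ZMod 6 → ℝ≥0∞) : ∫⁻ a, f a ∂u = (6 : ℝ≥0∞)⁻¹ * ∑ a, f a := by
  rw [u, lintegral_smul_measure, lintegral_count, tsum_fintype]
  rfl

/-- the product measure -/
noncomputable def ν : Measure Y := Measure.infinitePi (fun _ : ℕ => u)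

instance : IsProbabilityMeasure ν := by unfold ν; infer_instance

/-- prepend a digit -/
def cs (i : ZMod 6) (y : Y) : Y := fun n => Nat.casesOn n i y

@[simp] theorem cs_zero (i : ZMod 6) (y : Y) : cs i y 0 = i := rfl
@[simp] theorem cs_succ (i : ZMod 6) (y : Y) (n : ℕ) : cs i y (n + 1) = y n := rfl

/-- drop the first digit -/
def sft (y : Y) : Y := fun n => y (n + 1)

@[simp] theorem sft_cs (i : ZMod 6) (y : Y) : sft (cs i y) = y := rfl

theorem cs_sft (y : Y) : cs (y 0) (sft y) = y := by
  funext n; cases n <;> rfl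

theorem measurable_cs : Measurable (fun p : ZMod 6 × Y => cs p.1 p.2) := by
  refine measurable_pi_iff.2 fun n => ?_
  cases n with
  | zero => exact measurable_fst
  | succ n => exact (measurable_pi_apply n).comp measurable_snd

theorem measurable_cs' (i : ZMod 6) : Measurable (cs i) :=
  measurable_cs.comp (measurable_const.prodMk measurable_id)

theorem measurable_sft : Measurable sft :=
  measurable_pi_iff.2 fun n => measurable_pi_apply (n + 1)

theorem map_cs : (u.prod ν).map (fun p : ZMod 6 × Y => cs p.1 p.2) = ν := by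
  refine Measure.eq_infinitePi _ fun s t ht => ?_
  rw [Measure.map_apply measurable_cs (MeasurableSet.pi s.countable_toSet fun i _ => ht i)]
  -- shifted index set
  set s' : Finset ℕ := (s.filter (fun n => n ≠ 0)).image (fun n => n - 1) with hs'
  have hpre : (fun p : ZMod 6 × Y => cs p.1 p.2) ⁻¹' (Set.pi (s : Set ℕ) t) =
      (if 0 ∈ s then t 0 else Set.univ) ×ˢ (Set.pi (s' : Set ℕ) fun n => t (n + 1)) := by
    ext ⟨i, y⟩
    simp only [Set.mem_preimage, Set.mem_pi, Set.mem_prod, Finset.mem_coe]
    constructor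
    · intro h
      refine ⟨?_, ?_⟩
      · split_ifs with h0
        · exact h 0 h0
        · exact Set.mem_univ _
      · intro n hn
        rw [hs', Finset.mem_image] at hn
        obtain ⟨m, hm, rfl⟩ := hn
        rw [Finset.mem_filter] at hm
        obtain ⟨k, rfl⟩ := Nat.exists_eq_succ_of_ne_zero hm.2
        exact h (k + 1) hm.1
    · rintro ⟨h1, h2⟩ n hn
      cases n with
      | zero => rw [if_pos hn] at h1; exact h1
      | succ n =>
        refine h2 n ?_
        rw [hs', Finset.mem_image]
        exact ⟨n + 1, Finset.mem_filter.2 ⟨hn, by omega⟩, rfl⟩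
  rw [hpre, Measure.prod_prod]
  have h2 : ν (Set.pi (s' : Set ℕ) fun n => t (n + 1)) = ∏ n ∈ s', u (t (n + 1)) :=
    Measure.infinitePi_pi (fun _ : ℕ => u) (fun i _ => ht (i + 1))
  rw [h2, hs', Finset.prod_image]
  · by_cases h0 : 0 ∈ s
    · rw [if_pos h0, ← Finset.mul_prod_erase s (fun i => u (t i)) h0]
      congr 1
      refine Finset.prod_congr ?_ ?_
      · ext n; simp only [Finset.mem_filter, Finset.mem_erase]; tauto
      · intro n hn
        rw [Finset.mem_erase] at hn
        obtain ⟨k, rfl⟩ := Nat.exists_eq_succ_of_ne_zero hn.1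
        rfl
    · rw [if_neg h0, measure_univ, one_mul]
      refine Finset.prod_congr ?_ ?_
      · ext n; simp only [Finset.mem_filter]
        constructor
        · exact fun h => h.1
        · exact fun h => ⟨h, fun h' => h0 (h' ▸ h)⟩
      · intro n hn
        have hn0 : n ≠ 0 := fun h' => h0 (h' ▸ hn)
        obtain ⟨k, rfl⟩ := Nat.exists_eq_succ_of_ne_zero hn0
        rfl
  · intro a ha b hb hab
    simp only [Finset.coe_filter, Set.mem_ofPred_eq] at ha hb
    have h1 := ha.2
    have h2 := hb.2
    simp only at hab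
    omega

/-- conditioning on the first digit -/
theorem rec_ν {D : Set Y} (hD : MeasurableSet D) :
    ν D = (6 : ℝ≥0∞)⁻¹ * ∑ i : ZMod 6, ν (cs i ⁻¹' D) := by
  conv_lhs => rw [← map_cs]
  rw [Measure.map_apply measurable_cs hD, Measure.prod_apply (measurable_cs hD), lintegral_u]
  rfl

/-- the space -/
abbrev X := Y × ZMod 6

/-- the invariant measure -/
noncomputable def μ : Measure X := ν.prod u

instance : IsProbabilityMeasure μ := by unfold μ; infer_instance

/-- add one to a digit sequence, with carry -/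
noncomputable def sc (y : Y) : Y := fun n => if ∀ i < n, y i = 5 then y n + 1 else y n

open Classical in
/-- the cocycle: sum of (digit + 1) over the positions reached by the carry and the next one -/
noncomputable def ph (y : Y) : ZMod 6 :=
  if h : ∃ n, y n ≠ 5 then ∑ j ∈ Finset.range (Nat.find h + 1), (y (j + 1) + 1) else 0

theorem sc_cs_ne {i : ZMod 6} (hi : i ≠ 5) (y : Y) : sc (cs i y) = cs (i + 1) y := by
  funext n
  cases n with
  | zero => simp [sc]
  | succ n =>
    have : ¬ ∀ k < n + 1, cs i y k = 5 := fun h => hi (h 0 (by omega))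
    simp only [sc, if_neg this, cs_succ]

theorem sc_cs_five (y : Y) : sc (cs 5 y) = cs 0 (sc y) := by
  funext n
  cases n with
  | zero => simp [sc]; rfl
  | succ n =>
    have : (∀ k < n + 1, cs 5 y k = 5) ↔ ∀ k < n, y k = 5 := by
      constructor
      · intro h k hk; exact h (k + 1) (by omega)
      · intro h k hk
        cases k with
        | zero => rfl
        | succ k => exact h k (by omega)
    simp only [sc, cs_succ, this]

theorem ph_cs_ne {i : ZMod 6} (hi : i ≠ 5) (y : Y) : ph (cs i y) = y 0 + 1 := by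
  classical
  have h : ∃ n, cs i y n ≠ 5 := ⟨0, hi⟩
  have h0 : Nat.find h = 0 := by rw [Nat.find_eq_zero]; exact hi
  simp only [ph, dif_pos h, h0]
  simp

theorem ph_cs_five (y : Y) : ph (cs 5 y) = y 0 + 1 + ph y := by
  classical
  by_cases h : ∃ n, y n ≠ 5
  · have h' : ∃ n, cs 5 y n ≠ 5 := by
      obtain ⟨n, hn⟩ := h; exact ⟨n + 1, hn⟩
    have e : Nat.find h' = Nat.find h + 1 := by
      rw [Nat.find_eq_iff]
      refine ⟨Nat.find_spec h, ?_⟩
      intro k hk
      cases k with
      | zero => simp
      | succ k =>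
        rw [cs_succ]
        exact Nat.find_min h (by omega)
    simp only [ph, dif_pos h, dif_pos h', e]
    rw [Finset.sum_range_succ' _ (Nat.find h + 1)]
    simp only [cs_succ]
    ring
  · have h' : ¬ ∃ n, cs 5 y n ≠ 5 := by
      rintro ⟨n, hn⟩
      cases n with
      | zero => exact hn rfl
      | succ n => exact h ⟨n, hn⟩
    have h0 : y 0 = 5 := by
      by_contra hc; exact h ⟨0, hc⟩
    simp only [ph, dif_neg h, dif_neg h', h0]
    decide

/-- the transformation -/
noncomputable def T (x : X) : X := (sc x.1, x.2 + ph x.1)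

/-- the cocycle sums -/
noncomputable def S (m : ℕ) (y : Y) : ZMod 6 := ∑ t ∈ Finset.range m, ph (sc^[t] y)

theorem S_zero (y : Y) : S 0 y = 0 := by simp [S]

theorem S_succ (m : ℕ) (y : Y) : S (m + 1) y = S m y + ph (sc^[m] y) := by
  simp [S, Finset.sum_range_succ]

theorem S_add (m n : ℕ) (y : Y) : S (m + n) y = S m y + S n (sc^[m] y) := by
  induction n with
  | zero => simp [S_zero]
  | succ n ih =>
    rw [← add_assoc, S_succ, ih, S_succ, add_assoc, ← Function.iterate_add_apply, add_comm n m]

theorem T_iter (m : ℕ) (x : X) : T^[m] x = (sc^[m] x.1, x.2 + S m x.1) := by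
  induction m with
  | zero => simp [S_zero]
  | succ m ih => rw [Function.iterate_succ_apply', ih, Function.iterate_succ_apply', T, S_succ, add_assoc]

theorem sc_zero (y : Y) : sc y 0 = y 0 + 1 := by simp [sc]

theorem sc_iter_zero (m : ℕ) (y : Y) : sc^[m] y 0 = y 0 + m := by
  induction m with
  | zero => simp
  | succ m ih => rw [Function.iterate_succ_apply', sc_zero, ih]; push_cast; ring

/-- the master formula: the orbit of the point with first digit zero -/
theorem master (p : ℕ) (y : Y) : sc^[p] (cs 0 y) = cs (p : ZMod 6) (sc^[p / 6] y) ∧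
    S p (cs 0 y) = S (p / 6) y + (p : ZMod 6) * (y 0 + ((p / 6 : ℕ) : ZMod 6) + 1) := by
  induction p with
  | zero => simp [S_zero]
  | succ p ih =>
    obtain ⟨ih1, ih2⟩ := ih
    by_cases h5 : (p : ZMod 6) = 5
    · have hm : p % 6 = 5 := by
        have : (p : ZMod 6) = ((5 : ℕ) : ZMod 6) := by rw [h5]; rfl
        rw [ZMod.natCast_eq_natCast_iff'] at this
        omega
      have hq : (p + 1) / 6 = p / 6 + 1 := by omega
      have hp1 : ((p + 1 : ℕ) : ZMod 6) = 0 := by push_cast; rw [h5]; decide
      refine ⟨?_, ?_⟩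
      · rw [Function.iterate_succ_apply', ih1, h5, sc_cs_five, hp1, hq,
          Function.iterate_succ_apply']
      · rw [S_succ, ih2, ih1, h5, ph_cs_five, hp1, hq, S_succ, sc_iter_zero]
        have e6 : (6 : ZMod 6) = 0 := by decide
        linear_combination (y 0 + ((p / 6 : ℕ) : ZMod 6) + 1) * e6
    · have hm : p % 6 ≠ 5 := by
        intro hc
        apply h5
        have : (p : ZMod 6) = ((5 : ℕ) : ZMod 6) := by
          rw [ZMod.natCast_eq_natCast_iff']; omega
        rw [this]; rfl
      have hq : (p + 1) / 6 = p / 6 := by omega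
      refine ⟨?_, ?_⟩
      · rw [Function.iterate_succ_apply', ih1, sc_cs_ne h5, hq]; push_cast; rfl
      · rw [S_succ, ih2, ih1, ph_cs_ne h5, hq, sc_iter_zero]
        push_cast; ring

/-- the cocycle sums of a point with first digit `i` -/
theorem master' (i m : ℕ) (hi : i < 6) (y : Y) :
    sc^[m] (cs (i : ZMod 6) y) = cs ((i + m : ℕ) : ZMod 6) (sc^[(i + m) / 6] y) ∧
    S m (cs (i : ZMod 6) y) = S ((i + m) / 6) y +
      (m : ZMod 6) * y 0 + ((i + m : ℕ) : ZMod 6) * ((((i + m) / 6 : ℕ) : ZMod 6) + 1) - i := by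
  have h0 := master i y
  have h1 := master (i + m) y
  have hi6 : i / 6 = 0 := by omega
  rw [hi6] at h0
  have hci : cs (i : ZMod 6) y = sc^[i] (cs 0 y) := by rw [h0.1]; rfl
  refine ⟨?_, ?_⟩
  · rw [hci, ← Function.iterate_add_apply, add_comm m i, h1.1]
  · have h2 := S_add i m (cs 0 y)
    rw [← hci, h1.2, h0.2] at h2
    have h3 : S m (cs (i : ZMod 6) y) = S ((i + m) / 6) y +
      ((i + m : ℕ) : ZMod 6) * (y 0 + (((i + m) / 6 : ℕ) : ZMod 6) + 1) -
      (S 0 y + (i : ZMod 6) * (y 0 + ((0 : ℕ) : ZMod 6) + 1)) := by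
      rw [h2]; ring
    rw [h3, S_zero]
    push_cast
    ring

end Q70.Ur
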