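import Pool.Agent.Q70.UrA

set_option autoImplicit false

/-! Measure preservation and renormalisation. -/

open MeasureTheory Set Filter Topology
open scoped ENNReal

namespace Q70.Ur

theorem measurableSet_carry (n : ℕ) : MeasurableSet {y : Y | ∀ i < n, y i = 5} := by
  have : {y : Y | ∀ i < n, y i = 5} = ⋂ i : ℕ, ⋂ _ : i < n, (fun y : Y => y i) ⁻¹' {5} := by
    ext y; simp
  rw [this]
  exact MeasurableSet.iInter fun i => MeasurableSet.iInter fun _ =>
    measurable_pi_apply i (measurableSet_singleton 5)

theorem measurable_add_one : Measurable (fun a : ZMod 6 => a + 1) := measurable_of_countable _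

theorem measurable_sc : Measurable sc := by
  refine measurable_pi_iff.2 fun n => ?_
  exact Measurable.ite (measurableSet_carry n)
    (measurable_add_one.comp (measurable_pi_apply n)) (measurable_pi_apply n)

/-- truncated cocycle -/
noncomputable def phn (N : ℕ) (y : Y) : ZMod 6 :=
  ∑ j ∈ Finset.range N, if ∀ i < j, y i = 5 then y (j + 1) + 1 else 0

theorem measurable_phn (N : ℕ) : Measurable (phn N) := by
  unfold phn
  refine Finset.measurable_fun_sum _ fun j _ => ?_
  exact Measurable.ite (measurableSet_carry j)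
    (measurable_add_one.comp (measurable_pi_apply (j + 1))) measurable_const

theorem phn_eq_of_find {y : Y} {m : ℕ} (hm : y m ≠ 5) (hlt : ∀ k < m, y k = 5) (N : ℕ)
    (hN : m < N) : phn N y = ∑ j ∈ Finset.range (m + 1), (y (j + 1) + 1) := by
  unfold phn
  obtain ⟨d, rfl⟩ := Nat.exists_eq_add_of_le (show m + 1 ≤ N from hN)
  rw [Finset.sum_range_add, Finset.sum_eq_zero (s := Finset.range d), add_zero]
  · refine Finset.sum_congr rfl fun j hj => ?_
    rw [if_pos]
    intro i hi
    exact hlt i (by have := Finset.mem_range.1 hj; omega)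
  · intro j _
    rw [if_neg]
    intro hc
    exact hm (hc m (by omega))

theorem ph_eq_phn {y : Y} (h : ∃ n, y n ≠ 5) : ∃ N0, ∀ N ≥ N0, phn N y = ph y := by
  classical
  refine ⟨Nat.find h + 1, fun N hN => ?_⟩
  rw [phn_eq_of_find (Nat.find_spec h) (fun k hk => by
    by_contra hc; exact Nat.find_min h hk hc) N (by omega)]
  simp only [ph, dif_pos h]

theorem ph_five {y : Y} (h : ¬ ∃ n, y n ≠ 5) (N : ℕ) : phn N y = ph y := by
  classical
  have h5 : ∀ n, y n = 5 := fun n => by by_contra hc; exact h ⟨n, hc⟩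
  have e1 : ph y = 0 := by simp only [ph, dif_neg h]
  rw [e1]
  unfold phn
  refine Finset.sum_eq_zero fun j _ => ?_
  rw [if_pos (fun i _ => h5 i), h5]
  decide

theorem measurable_ph : Measurable ph := by
  refine measurable_of_tendsto_metrizable measurable_phn ?_
  rw [tendsto_pi_nhds]
  intro y
  refine tendsto_const_nhds.congr' ?_
  by_cases h : ∃ n, y n ≠ 5
  · obtain ⟨N0, hN0⟩ := ph_eq_phn h
    filter_upwards [eventually_ge_atTop N0] with N hN
    exact (hN0 N hN).symm
  · exact Eventually.of_forall fun N => (ph_five h N).symm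

/-- dependence on finitely many digits -/
def Dep (n : ℕ) (F : Set Y) : Prop := ∀ y z : Y, (∀ i < n, y i = z i) → (y ∈ F ↔ z ∈ F)

theorem dep_cs {n : ℕ} {F : Set Y} (h : Dep (n + 1) F) (i : ZMod 6) : Dep n (cs i ⁻¹' F) := by
  intro y z hyz
  refine h _ _ ?_
  intro j hj
  cases j with
  | zero => rfl
  | succ j => exact hyz j (by omega)

theorem map_sc_dep (n : ℕ) : ∀ F : Set Y, MeasurableSet F → Dep n F → ν (sc ⁻¹' F) = ν F := by
  induction n with
  | zero =>
    intro F _ hd
    by_cases hF : F.Nonempty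
    · obtain ⟨y, hy⟩ := hF
      have : F = Set.univ := by
        ext z; exact ⟨fun _ => Set.mem_univ _, fun _ => (hd y z (by intro i hi; omega)).1 hy⟩
      rw [this]; rfl
    · rw [Set.not_nonempty_iff_eq_empty] at hF
      rw [hF]; rfl
  | succ n ih =>
    intro F hF hd
    rw [rec_ν (measurable_sc hF), rec_ν hF]
    congr 1
    have h1 : ∀ i : ZMod 6, ν (cs i ⁻¹' (sc ⁻¹' F)) = ν (cs (i + 1) ⁻¹' F) := by
      intro i
      by_cases hi : i = 5
      · subst hi
        have e : cs (5 : ZMod 6) ⁻¹' (sc ⁻¹' F) = sc ⁻¹' (cs 0 ⁻¹' F) := by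
          ext y; simp only [Set.mem_preimage, sc_cs_five]
        have e5 : (5 : ZMod 6) + 1 = 0 := by decide
        rw [e, ih _ (measurable_cs' 0 hF) (dep_cs hd 0), e5]
      · have e : cs i ⁻¹' (sc ⁻¹' F) = cs (i + 1) ⁻¹' F := by
          ext y; simp only [Set.mem_preimage, sc_cs_ne hi]
        rw [e]
    rw [Finset.sum_congr rfl fun i _ => h1 i]
    exact (Equiv.sum_comp (Equiv.addRight (1 : ZMod 6)) fun i => ν (cs i ⁻¹' F))

theorem mp_sc : MeasurePreserving sc ν ν := by
  refine ⟨measurable_sc, ?_⟩
  refine Measure.eq_infinitePi _ fun s t ht => ?_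
  have hm : MeasurableSet (Set.pi (s : Set ℕ) t) :=
    MeasurableSet.pi s.countable_toSet fun i _ => ht i
  rw [Measure.map_apply measurable_sc hm, map_sc_dep (s.sup id + 1) _ hm]
  · exact Measure.infinitePi_pi (fun _ : ℕ => u) (fun i _ => ht i)
  · intro y z hyz
    have : ∀ i ∈ s, y i = z i := fun i hi => hyz i (by
      have := Finset.le_sup (f := id) hi
      simp only [id] at this; omega)
    simp only [Set.mem_pi, Finset.mem_coe]
    constructor
    · intro h i hi; rw [← this i hi]; exact h i hi
    · intro h i hi; rw [this i hi]; exact h i hi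

/-- the fibre rotation -/
def R (c : ZMod 6) (x : X) : X := (x.1, x.2 + c)

theorem mp_add (c : ZMod 6) : MeasurePreserving (fun a : ZMod 6 => a + c) u u := by
  refine ⟨measurable_of_countable _, ?_⟩
  ext s hs
  rw [Measure.map_apply (measurable_of_countable _) hs, u_apply, u_apply]
  congr 1
  have : (fun a : ZMod 6 => a + c) ⁻¹' s = (Equiv.addRight c) ⁻¹' s := rfl
  rw [this, ← Equiv.image_symm_eq_preimage]
  exact Measure.count_injective_image (Equiv.injective _) _

theorem measurable_R (c : ZMod 6) : Measurable (R c) :=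
  measurable_fst.prodMk ((measurable_of_countable (fun a : ZMod 6 => a + c)).comp measurable_snd)

theorem mp_R (c : ZMod 6) : MeasurePreserving (R c) μ μ :=
  (MeasurePreserving.id ν).prod (mp_add c)

theorem measurable_T : Measurable T := by
  refine (measurable_sc.comp measurable_fst).prodMk ?_
  exact (measurable_of_countable (fun p : ZMod 6 × ZMod 6 => p.1 + p.2)).comp
    (measurable_snd.prodMk (measurable_ph.comp measurable_fst))

theorem mp_T : MeasurePreserving T μ μ := by
  have h := MeasurePreserving.skew_product (μa := ν) (μb := ν) (μc := u) (μd := u)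
    (f := sc) mp_sc (g := fun y a => a + ph y)
    ((measurable_of_countable (fun p : ZMod 6 × ZMod 6 => p.1 + p.2)).comp
      (measurable_snd.prodMk (measurable_ph.comp measurable_fst)))
    (Eventually.of_forall fun y => (mp_add (ph y)).map_eq)
  exact h

/-- renormalisation -/
theorem renorm (m : ℕ) (y : Y) : sc^[6 * m] y = cs (y 0) (sc^[m] (sft y)) ∧
    S (6 * m) y = S m (sft y) + (m : ZMod 6) * y 0 := by
  have hv : ((y 0).val : ZMod 6) = y 0 := ZMod.natCast_zmod_val (y 0)
  have hl : (y 0).val < 6 := ZMod.val_lt (y 0)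
  obtain ⟨h1, h2⟩ := master' (y 0).val (6 * m) hl (sft y)
  rw [hv, cs_sft] at h1 h2
  have hq : ((y 0).val + 6 * m) / 6 = m := by omega
  have e6 : (6 : ZMod 6) = 0 := by decide
  rw [hq] at h1 h2
  refine ⟨?_, ?_⟩
  · rw [h1]
    congr 1
    push_cast
    rw [hv, e6]; ring
  · rw [h2]
    push_cast
    rw [hv]
    linear_combination ((m : ZMod 6) * (sft y 0) + (m : ZMod 6) * ((m : ZMod 6) + 1)) * e6

theorem renorm_k (k m : ℕ) (y : Y) : (∀ i < k, sc^[6 ^ k * m] y i = y i) ∧
    sft^[k] (sc^[6 ^ k * m] y) = sc^[m] (sft^[k] y) := by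
  induction k generalizing y with
  | zero => simp
  | succ k ih =>
    have e : 6 ^ (k + 1) * m = 6 * (6 ^ k * m) := by ring
    rw [e, (renorm (6 ^ k * m) y).1]
    refine ⟨?_, ?_⟩
    · intro i hi
      cases i with
      | zero => rfl
      | succ i => exact (ih (sft y)).1 i (by omega)
    · rw [Function.iterate_succ_apply, sft_cs, (ih (sft y)).2, Function.iterate_succ_apply]

theorem sft_iter (k : ℕ) (y : Y) (n : ℕ) : sft^[k] y n = y (n + k) := by
  induction k generalizing n with
  | zero => rfl
  | succ k ih => rw [Function.iterate_succ_apply']; show sft^[k] y (n + 1) = _; rw [ih]; congr 1; omega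

theorem S_k (k m : ℕ) (y : Y) :
    S (6 ^ (k + 1) * m) y = S m (sft (sft^[k] y)) + (m : ZMod 6) * (sft^[k] y 0) := by
  induction k generalizing y with
  | zero => simp only [zero_add, pow_one, Function.iterate_zero, id]; exact (renorm m y).2
  | succ k ih =>
    have e : 6 ^ (k + 1 + 1) * m = 6 * (6 ^ (k + 1) * m) := by ring
    rw [e, (renorm _ y).2, ih (sft y), Function.iterate_succ_apply]
    have e6 : (6 : ZMod 6) = 0 := by decide
    have : ((6 ^ (k + 1) * m : ℕ) : ZMod 6) = 0 := by
      push_cast; rw [e6]; simp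
    rw [this]; ring

end Q70.Ur
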