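import Pool.Agent.Q70.UrB

set_option autoImplicit false

/-! Independence, approximation, and the weak limits of the powers along two sequences. -/

open MeasureTheory Set Filter Topology
open scoped ENNReal

namespace Q70.Ur

theorem dep_mono {n k : ℕ} (h : n ≤ k) {F : Set Y} (hF : Dep n F) : Dep k F :=
  fun y z hyz => hF y z fun i hi => hyz i (by omega)

theorem measurable_sft_iter (k : ℕ) : Measurable (sft^[k]) := measurable_sft.iterate k

theorem ind_Y (k : ℕ) : ∀ (F D : Set Y), MeasurableSet F → MeasurableSet D → Dep k F →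
    ν (F ∩ sft^[k] ⁻¹' D) = ν F * ν D := by
  induction k with
  | zero =>
    intro F D _ _ hd
    by_cases hF : F.Nonempty
    · obtain ⟨y, hy⟩ := hF
      have : F = Set.univ := by
        ext z; exact ⟨fun _ => Set.mem_univ _, fun _ => (hd y z (by intro i hi; omega)).1 hy⟩
      rw [this]; simp
    · rw [Set.not_nonempty_iff_eq_empty] at hF
      rw [hF]; simp
  | succ k ih =>
    intro F D hF hD hd
    rw [rec_ν (hF.inter (measurable_sft_iter (k + 1) hD)), rec_ν hF, mul_assoc, Finset.sum_mul]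
    congr 1
    refine Finset.sum_congr rfl fun i _ => ?_
    rw [← ih _ _ (measurable_cs' i hF) hD (dep_cs hd i)]
    rfl

/-- slices -/
def sl (a : ZMod 6) (E : Set X) : Set Y := {y | (y, a) ∈ E}

theorem measurableSet_sl (a : ZMod 6) {E : Set X} (hE : MeasurableSet E) :
    MeasurableSet (sl a E) :=
  (measurable_id.prodMk measurable_const : Measurable fun y : Y => (y, a)) hE

theorem μ_sl {E : Set X} (hE : MeasurableSet E) :
    μ E = (6 : ℝ≥0∞)⁻¹ * ∑ a, ν (sl a E) := by
  unfold μ
  rw [Measure.prod_apply_symm hE, lintegral_u]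
  rfl

/-- dependence on the fibre coordinate and finitely many digits -/
def DepX (n : ℕ) (E : Set X) : Prop :=
  ∀ (y z : Y) (a : ZMod 6), (∀ i < n, y i = z i) → ((y, a) ∈ E ↔ (z, a) ∈ E)

theorem depX_mono {n k : ℕ} (h : n ≤ k) {F : Set X} (hF : DepX n F) : DepX k F :=
  fun y z a hyz => hF y z a fun i hi => hyz i (by omega)

theorem ind_X (k : ℕ) (E : Set X) (D : Set Y) (hE : MeasurableSet E) (hD : MeasurableSet D)
    (hd : DepX k E) : μ (E ∩ {x | sft^[k] x.1 ∈ D}) = μ E * ν D := by
  have hm : MeasurableSet {x : X | sft^[k] x.1 ∈ D} :=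
    ((measurable_sft_iter k).comp measurable_fst) hD
  rw [μ_sl (hE.inter hm), μ_sl hE, mul_assoc, Finset.sum_mul]
  congr 1
  refine Finset.sum_congr rfl fun a _ => ?_
  rw [← ind_Y k _ _ (measurableSet_sl a hE) hD (fun y z h => hd y z a h)]
  rfl

theorem measurable_S (m : ℕ) : Measurable (S m) := by
  unfold S
  exact Finset.measurable_fun_sum _ fun t _ => measurable_ph.comp (measurable_sc.iterate t)

/-- the law of the fibre displacement -/
def D (m : ℕ) (c : ZMod 6) : Set Y := {z | S m (sft z) + (m : ZMod 6) * z 0 = c}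

theorem measurable_disp (m : ℕ) : Measurable fun z : Y => S m (sft z) + (m : ZMod 6) * z 0 :=
  (measurable_of_countable (fun p : ZMod 6 × ZMod 6 => p.1 + (m : ZMod 6) * p.2)).comp
    (((measurable_S m).comp measurable_sft).prodMk (measurable_pi_apply 0))

theorem measurableSet_D (m : ℕ) (c : ZMod 6) : MeasurableSet (D m c) :=
  measurable_disp m (measurableSet_singleton c)

/-- exact correlations for sets depending on few digits -/
theorem corr_dep (m k : ℕ) {E F : Set X} (hE : MeasurableSet E) (hF : MeasurableSet F)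
    (dE : DepX k E) (dF : DepX k F) :
    μ (F ∩ T^[6 ^ (k + 1) * m] ⁻¹' E) = ∑ c, μ (F ∩ R c ⁻¹' E) * ν (D m c) := by
  set N := 6 ^ (k + 1) * m with hN
  set G := F ∩ T^[N] ⁻¹' E with hG
  have hmG : MeasurableSet G := hF.inter (measurable_T.iterate N hE)
  have h1 : μ G = ∑ c, μ (G ∩ {x | S N x.1 = c}) := by
    have hmS : Measurable fun x : X => S N x.1 := (measurable_S N).comp measurable_fst
    have h := sum_measure_preimage_singleton (μ := μ.restrict G) (f := fun x : X => S N x.1)
      (Finset.univ : Finset (ZMod 6)) (fun y _ => hmS (measurableSet_singleton y))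
    rw [Finset.coe_univ, Set.preimage_univ, Measure.restrict_apply_univ] at h
    rw [← h]
    refine Finset.sum_congr rfl fun c _ => ?_
    rw [Measure.restrict_apply (hmS (measurableSet_singleton c)), Set.inter_comm]
    rfl
  rw [h1]
  refine Finset.sum_congr rfl fun c _ => ?_
  have h2 : G ∩ {x | S N x.1 = c} = (F ∩ R c ⁻¹' E) ∩ {x | sft^[k] x.1 ∈ D m c} := by
    ext ⟨y, a⟩
    have hS : S N y = S m (sft (sft^[k] y)) + (m : ZMod 6) * (sft^[k] y 0) := S_k k m y
    have hd : ((sc^[N] y, a + S N y) ∈ E ↔ (y, a + S N y) ∈ E) := by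
      refine dE _ _ _ fun i hi => ?_
      exact (renorm_k (k + 1) m y).1 i (by omega)
    simp only [hG, Set.mem_inter_iff, Set.mem_preimage, T_iter, Set.mem_ofPred_eq, D, R, ← hS]
    constructor
    · rintro ⟨⟨h, h'⟩, h''⟩
      rw [hd, h''] at h'
      exact ⟨⟨h, h'⟩, h''⟩
    · rintro ⟨⟨h, h'⟩, h''⟩
      refine ⟨⟨h, ?_⟩, h''⟩
      rw [hd, h'']; exact h'
  rw [h2]
  refine ind_X k _ _ (hF.inter (measurable_R c hE)) (measurableSet_D m c) ?_
  intro y z b hyz
  simp only [Set.mem_inter_iff, Set.mem_preimage, R]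
  rw [dF y z b hyz, dE y z (b + c) hyz]

/-- the algebra of sets depending on finitely many digits -/
def Alg : Set (Set X) := {E | MeasurableSet E ∧ ∃ n, DepX n E}

theorem alg_isSetAlgebra : IsSetAlgebra Alg where
  empty_mem := ⟨MeasurableSet.empty, 0, fun _ _ _ _ => Iff.rfl⟩
  compl_mem := by
    rintro s ⟨hs, n, hn⟩
    exact ⟨hs.compl, n, fun y z a h => not_congr (hn y z a h)⟩
  union_mem := by
    rintro s t ⟨hs, n, hn⟩ ⟨ht, k, hk⟩
    refine ⟨hs.union ht, max n k, fun y z a h => ?_⟩
    exact or_congr (depX_mono (le_max_left n k) hn y z a h)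
      (depX_mono (le_max_right n k) hk y z a h)

theorem alg_gen : (inferInstance : MeasurableSpace X) = MeasurableSpace.generateFrom Alg := by
  apply le_antisymm
  · have hc : ∀ n (s : Set (ZMod 6)), (fun x : X => x.1 n) ⁻¹' s ∈ Alg := by
      intro n s
      refine ⟨((measurable_pi_apply n).comp measurable_fst) (Set.toFinite s).measurableSet,
        n + 1, ?_⟩
      intro y z a h
      simp only [Set.mem_preimage, h n (Nat.lt_succ_self n)]
    have hf : ∀ s : Set (ZMod 6), (fun x : X => x.2) ⁻¹' s ∈ Alg := by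
      intro s
      exact ⟨measurable_snd (Set.toFinite s).measurableSet, 0, fun y z a _ => Iff.rfl⟩
    have h1 : @Measurable X (ZMod 6) (MeasurableSpace.generateFrom Alg) _ (fun x => x.2) :=
      fun s _ => MeasurableSpace.measurableSet_generateFrom (hf s)
    have h2 : @Measurable X Y (MeasurableSpace.generateFrom Alg) _ (fun x => x.1) := by
      refine @measurable_pi_iff X ℕ (fun _ => ZMod 6) (MeasurableSpace.generateFrom Alg) _ _ |>.2 ?_
      exact fun n s _ => MeasurableSpace.measurableSet_generateFrom (hc n s)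
    have h3 : @Measurable X X (MeasurableSpace.generateFrom Alg) _ (fun x => (x.1, x.2)) :=
      @Measurable.prodMk X (MeasurableSpace.generateFrom Alg) Y (ZMod 6) _ _ _ _ h2 h1
    intro s hs
    exact h3 hs
  · exact MeasurableSpace.generateFrom_le fun s hs => hs.1

theorem approx (A : Set X) (hA : MeasurableSet A) {ε : ℝ} (hε : 0 < ε) :
    ∃ E n, MeasurableSet E ∧ DepX n E ∧ μ.real (symmDiff A E) < ε := by
  have h := Measure.MeasureDense.of_generateFrom_isSetAlgebra_finite (μ := μ)
    alg_isSetAlgebra alg_gen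
  obtain ⟨E, ⟨hE, n, hn⟩, h2⟩ := h.approx A hA (measure_ne_top _ _) ε hε
  refine ⟨E, n, hE, hn, ?_⟩
  rw [measureReal_def]
  exact (ENNReal.ofReal_lt_ofReal_iff hε).1 (by
    rwa [ENNReal.ofReal_toReal (measure_ne_top _ _)])

/-- the limit functional -/
noncomputable def L (m : ℕ) (A : Set X) : ℝ := ∑ c, μ.real (A ∩ R c ⁻¹' A) * ν.real (D m c)

theorem near {V : X → X} (hV : MeasurePreserving V μ μ) {A E : Set X} (hA : MeasurableSet A)
    (hE : MeasurableSet E) :
    |μ.real (A ∩ V ⁻¹' A) - μ.real (E ∩ V ⁻¹' E)| ≤ 2 * μ.real (symmDiff A E) := by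
  have hm : MeasurableSet (symmDiff A E) := hA.symmDiff hE
  have key : ∀ P Q : Set X, MeasurableSet P → MeasurableSet Q →
      μ.real (P ∩ V ⁻¹' P) ≤ μ.real (Q ∩ V ⁻¹' Q) + 2 * μ.real (symmDiff P Q) := by
    intro P Q hP hQ
    have hm' : MeasurableSet (symmDiff P Q) := hP.symmDiff hQ
    have hsub : P ∩ V ⁻¹' P ⊆ (Q ∩ V ⁻¹' Q) ∪ (symmDiff P Q ∪ V ⁻¹' (symmDiff P Q)) := by
      rintro x ⟨h1, h2⟩
      simp only [Set.mem_union, Set.mem_inter_iff, Set.mem_preimage, Set.mem_symmDiff] at *
      tauto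
    have h1 := measureReal_mono (μ := μ) hsub (measure_ne_top _ _)
    have h2 := measureReal_union_le (μ := μ) (Q ∩ V ⁻¹' Q)
      (symmDiff P Q ∪ V ⁻¹' (symmDiff P Q))
    have h3 := measureReal_union_le (μ := μ) (symmDiff P Q) (V ⁻¹' (symmDiff P Q))
    have h4 : μ.real (V ⁻¹' (symmDiff P Q)) = μ.real (symmDiff P Q) := by
      rw [measureReal_def, measureReal_def, hV.measure_preimage hm'.nullMeasurableSet]
    linarith
  have h1 := key A E hA hE
  have h2 := key E A hE hA
  rw [symmDiff_comm E A] at h2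
  rw [abs_le]
  constructor <;> linarith

theorem sum_D (m : ℕ) : ∑ c, ν.real (D m c) = 1 := by
  have h := sum_measureReal_preimage_singleton (μ := ν) (Finset.univ : Finset (ZMod 6))
    (f := fun z : Y => S m (sft z) + (m : ZMod 6) * z 0)
    (fun y _ => measurable_disp m (measurableSet_singleton y))
  rw [Finset.coe_univ, Set.preimage_univ] at h
  have h1 : ν.real Set.univ = 1 := by simp
  rw [h1] at h
  exact h

theorem L_near (m : ℕ) {A E : Set X} (hA : MeasurableSet A) (hE : MeasurableSet E) :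
    |L m A - L m E| ≤ 2 * μ.real (symmDiff A E) := by
  unfold L
  rw [← Finset.sum_sub_distrib]
  refine (Finset.abs_sum_le_sum_abs _ _).trans ?_
  have h1 : ∀ c, |μ.real (A ∩ R c ⁻¹' A) * ν.real (D m c) - μ.real (E ∩ R c ⁻¹' E) * ν.real (D m c)|
      ≤ 2 * μ.real (symmDiff A E) * ν.real (D m c) := by
    intro c
    rw [← sub_mul, abs_mul, abs_of_nonneg (measureReal_nonneg (μ := ν))]
    exact mul_le_mul_of_nonneg_right (near (mp_R c) hA hE) measureReal_nonneg
  refine (Finset.sum_le_sum fun c _ => h1 c).trans ?_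
  rw [← Finset.mul_sum, sum_D, mul_one]

/-- the weak limit along a geometric sequence -/
theorem tendsto_corr (m : ℕ) {A : Set X} (hA : MeasurableSet A) :
    Tendsto (fun k => μ.real (A ∩ T^[6 ^ (k + 1) * m] ⁻¹' A)) atTop (𝓝 (L m A)) := by
  rw [Metric.tendsto_atTop]
  intro ε hε
  obtain ⟨E, n, hE, hn, hs⟩ := approx A hA (show (0 : ℝ) < ε / 4 by linarith)
  refine ⟨n, fun k hk => ?_⟩
  have hn' := depX_mono hk hn
  have h1 := near (mp_T.iterate (6 ^ (k + 1) * m)) hA hE
  have h2 := L_near m hA hE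
  have h3 : μ.real (E ∩ T^[6 ^ (k + 1) * m] ⁻¹' E) = L m E := by
    rw [measureReal_def, corr_dep m k hE hE hn' hn', ENNReal.toReal_sum]
    · unfold L
      refine Finset.sum_congr rfl fun c _ => ?_
      rw [ENNReal.toReal_mul]; rfl
    · intro c _
      exact ENNReal.mul_ne_top (measure_ne_top _ _) (measure_ne_top _ _)
  rw [Real.dist_eq]
  rw [h3] at h1
  have h4 : |μ.real (A ∩ T^[6 ^ (k + 1) * m] ⁻¹' A) - L m A| ≤
      |μ.real (A ∩ T^[6 ^ (k + 1) * m] ⁻¹' A) - L m E| + |L m A - L m E| := by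
    have := abs_sub_le (μ.real (A ∩ T^[6 ^ (k + 1) * m] ⁻¹' A)) (L m E) (L m A)
    rwa [abs_sub_comm (L m E) (L m A)] at this
  linarith

end Q70.Ur
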