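import Pool.Agent.Q70.UrB

set_option autoImplicit false

/-! The bounded function with vanishing correlations. -/

open MeasureTheory Set Filter Topology
open scoped ENNReal

namespace Q70.Ur

/-- twice the cosine of a multiple of sixty degrees -/
def c2 (a : ZMod 6) : ℤ := (![2, 1, -1, -2, -1, 1] : Fin 6 → ℤ) a

theorem c2_bound (a : ZMod 6) : -2 ≤ c2 a ∧ c2 a ≤ 2 := by
  revert a; decide

theorem c2_sum (s t : ZMod 6) (hs : s ≠ 0) : ∑ i : ZMod 6, c2 (s * i + t) = 0 := by
  revert s t; decide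

theorem c2_zero_sum : ∑ i : ZMod 6, c2 i = 0 := by decide

theorem c2_corr (r : ZMod 6) : ∑ a : ZMod 6, c2 a * c2 (a + r) = 6 * c2 r := by
  revert r; decide

theorem integral_u (f : ZMod 6 → ℝ) : ∫ a, f a ∂u = (1 / 6) * ∑ a, f a := by
  rw [u, integral_smul_measure, integral_count]
  simp only [ENNReal.toReal_inv, ENNReal.toReal_ofNat, smul_eq_mul, one_div]

theorem integrable_of_fin {Ω : Type*} [MeasurableSpace Ω] (m : Measure Ω) [IsFiniteMeasure m]
    {f : Ω → ℝ} (hf : Measurable f) {C : ℝ} (h : ∀ x, |f x| ≤ C) : Integrable f m :=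
  Integrable.of_bound hf.aestronglyMeasurable C (Eventually.of_forall h)

theorem int_rec (f : Y → ℝ) (hf : Measurable f) {C : ℝ} (h : ∀ x, |f x| ≤ C) :
    ∫ y, f y ∂ν = (1 / 6) * ∑ i : ZMod 6, ∫ y, f (cs i y) ∂ν := by
  conv_lhs => rw [← map_cs]
  rw [integral_map measurable_cs.aemeasurable hf.aestronglyMeasurable, integral_prod, integral_u]
  exact integrable_of_fin _ (hf.comp measurable_cs) (fun p => h _)

/-- the basic integrals -/
noncomputable def G (m : ℕ) (s t : ZMod 6) : ℝ := ∫ y, (c2 (S m y + s * y 0 + t) : ℝ) ∂ν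

theorem measurable_S' (m : ℕ) : Measurable (S m) := by
  unfold S
  exact Finset.measurable_fun_sum _ fun t _ => measurable_ph.comp (measurable_sc.iterate t)

theorem measurable_G (m : ℕ) (s t : ZMod 6) :
    Measurable fun y : Y => (c2 (S m y + s * y 0 + t) : ℝ) := by
  have h1 : Measurable (fun p : ZMod 6 × ZMod 6 => (c2 (p.1 + s * p.2 + t) : ℝ)) :=
    measurable_of_countable _
  have h2 : Measurable (fun y : Y => ((S m y, y 0) : ZMod 6 × ZMod 6)) :=
    (measurable_S' m).prodMk (measurable_pi_apply 0)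
  have h3 := Measurable.comp h1 h2
  simp only [Function.comp_def] at h3
  exact h3

theorem abs_c2 (a : ZMod 6) : |(c2 a : ℝ)| ≤ 2 := by
  obtain ⟨h1, h2⟩ := c2_bound a
  rw [abs_le]
  constructor
  · exact_mod_cast h1
  · exact_mod_cast h2

theorem G_rec (m : ℕ) (s t : ZMod 6) : G m s t = (1 / 6) * ∑ i : ZMod 6,
    G ((i.val + m) / 6) m (t + s * i +
      ((i.val + m : ℕ) : ZMod 6) * ((((i.val + m) / 6 : ℕ) : ZMod 6) + 1) - i) := by
  unfold G
  rw [int_rec _ (measurable_G m s t) (fun y => abs_c2 _)]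
  congr 1
  refine Finset.sum_congr rfl fun i _ => ?_
  refine integral_congr_ae (Eventually.of_forall fun y => ?_)
  have hl : i.val < 6 := ZMod.val_lt i
  have h := (master' i.val m hl y).2
  rw [ZMod.natCast_zmod_val] at h
  simp only [h, cs_zero]
  congr 2
  ring

theorem G_zero (s t : ZMod 6) (hs : s ≠ 0) : G 0 s t = 0 := by
  unfold G
  rw [int_rec _ (measurable_G 0 s t) (fun y => abs_c2 _)]
  have : ∀ i : ZMod 6, ∫ y, (c2 (S 0 (cs i y) + s * cs i y 0 + t) : ℝ) ∂ν = (c2 (s * i + t) : ℝ) := by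
    intro i
    simp only [S_zero, cs_zero, zero_add, integral_const, smul_eq_mul]
    simp
  rw [Finset.sum_congr rfl fun i _ => this i, ← Int.cast_sum, c2_sum s t hs]
  simp

theorem G_one_one (t : ZMod 6) : G 1 1 t = 0 := by
  obtain ⟨t0, ht0⟩ := Finite.exists_max (fun t => |G 1 1 t|)
  have key : |G 1 1 t0| ≤ (1 / 6) * |G 1 1 t0| := by
    have h := G_rec 1 1 t0
    have h2 : ∀ i : ZMod 6, |G ((i.val + 1) / 6) ((1 : ℕ) : ZMod 6) (t0 + 1 * i +
        ((i.val + 1 : ℕ) : ZMod 6) * ((((i.val + 1) / 6 : ℕ) : ZMod 6) + 1) - i)| ≤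
        if i = 5 then |G 1 1 t0| else 0 := by
      intro i
      split_ifs with hi
      · subst hi
        have : ((5 : ZMod 6).val + 1) / 6 = 1 := by decide
        rw [this]
        have e : ((1 : ℕ) : ZMod 6) = 1 := by simp
        rw [e]
        exact ht0 _
      · have : (i.val + 1) / 6 = 0 := by revert i; decide
        rw [this, G_zero]
        · simp
        · decide
    have h' : |G 1 1 t0| = (1 / 6) * |∑ i : ZMod 6, G ((i.val + 1) / 6) ((1 : ℕ) : ZMod 6) (t0 + 1 * i +
        ((i.val + 1 : ℕ) : ZMod 6) * ((((i.val + 1) / 6 : ℕ) : ZMod 6) + 1) - i)| := by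
      conv_lhs => rw [h]
      rw [abs_mul, abs_of_pos (by norm_num : (0 : ℝ) < 1 / 6)]
    rw [h']
    conv_rhs => rw [← h']
    refine mul_le_mul_of_nonneg_left ?_ (by norm_num)
    refine (Finset.abs_sum_le_sum_abs _ _).trans ?_
    refine (Finset.sum_le_sum fun i _ => h2 i).trans ?_
    rw [Finset.sum_ite_eq' Finset.univ (5 : ZMod 6) (fun _ => |G 1 1 t0|)]
    simp
  have h0 : |G 1 1 t0| ≤ 0 := by linarith [abs_nonneg (G 1 1 t0)]
  exact abs_eq_zero.1 (le_antisymm ((ht0 t).trans h0) (abs_nonneg _))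

theorem G_eq_zero (m : ℕ) : ∀ s t : ZMod 6, (m ≠ 0 ∨ s ≠ 0) → G m s t = 0 := by
  induction m using Nat.strong_induction_on with
  | _ m ih =>
    intro s t h
    rcases Nat.eq_zero_or_pos m with rfl | hm
    · rcases h with h | h
      · exact absurd rfl h
      · exact G_zero s t h
    · rw [G_rec]
      rw [Finset.sum_eq_zero, mul_zero]
      intro i _
      have hl : i.val < 6 := ZMod.val_lt i
      by_cases hm1 : m = 1
      · subst hm1
        by_cases hi : (i.val + 1) / 6 = 0
        · rw [hi, G_zero]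
          decide
        · have : (i.val + 1) / 6 = 1 := by omega
          rw [this]
          have e : ((1 : ℕ) : ZMod 6) = 1 := by simp
          rw [e]
          exact G_one_one _
      · refine ih _ (by omega) _ _ ?_
        by_cases h0 : (m : ZMod 6) = 0
        · left
          have : m % 6 = 0 := by
            have h1 : (m : ZMod 6) = ((0 : ℕ) : ZMod 6) := by rw [h0]; simp
            rw [ZMod.natCast_eq_natCast_iff'] at h1
            omega
          omega
        · right; exact h0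

/-- the function with values in the unit interval -/
noncomputable def f (x : X) : ℝ := (2 + c2 x.2) / 4

theorem measurable_f : Measurable f :=
  (measurable_of_countable (fun a : ZMod 6 => ((2 : ℝ) + c2 a) / 4)).comp measurable_snd

theorem f_mem (x : X) : 0 ≤ f x ∧ f x ≤ 1 := by
  obtain ⟨h1, h2⟩ := c2_bound x.2
  have h1' : (-2 : ℝ) ≤ c2 x.2 := by exact_mod_cast h1
  have h2' : (c2 x.2 : ℝ) ≤ 2 := by exact_mod_cast h2
  unfold f
  constructor <;> linarith

theorem integral_f : ∫ x, f x ∂μ = 1 / 2 := by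
  have hint : Integrable f (ν.prod u) := integrable_of_fin _ measurable_f (C := 1) (fun x => by
    rw [abs_le]; constructor <;> linarith [(f_mem x).1, (f_mem x).2])
  unfold μ
  rw [integral_prod _ hint]
  have : ∀ y : Y, ∫ a, f (y, a) ∂u = 1 / 2 := by
    intro y
    rw [integral_u]
    simp only [f]
    rw [← Finset.sum_div, Finset.sum_add_distrib, ← Int.cast_sum, c2_zero_sum]
    simp; norm_num
  simp only [this, integral_const]
  simp

theorem corr_f (n : ℕ) : ∫ x, f x * f (T^[n] x) ∂μ = 1 / 4 + (1 / 16) * G n 0 0 := by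
  have hme : Measurable fun x => f x * f (T^[n] x) :=
    measurable_f.mul (measurable_f.comp (measurable_T.iterate n))
  have hint : Integrable (fun x => f x * f (T^[n] x)) (ν.prod u) := by
    refine integrable_of_fin _ hme (C := 1) (fun x => ?_)
    obtain ⟨a1, a2⟩ := f_mem x
    obtain ⟨b1, b2⟩ := f_mem (T^[n] x)
    rw [abs_of_nonneg (mul_nonneg a1 b1)]
    exact mul_le_one₀ a2 b1 b2
  unfold μ
  rw [integral_prod _ hint]
  have h1 : ∀ y : Y, ∫ a, f (y, a) * f (T^[n] (y, a)) ∂u = 1 / 4 + (1 / 16) * (c2 (S n y) : ℝ) := by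
    intro y
    rw [integral_u]
    simp only [f, T_iter]
    have e : ∀ a : ZMod 6, ((2 : ℝ) + c2 a) / 4 * ((2 + c2 (a + S n y)) / 4) =
        (1 / 16) * (4 + 2 * (c2 a : ℝ) + 2 * (c2 (a + S n y) : ℝ) +
          ((c2 a * c2 (a + S n y) : ℤ) : ℝ)) := by
      intro a; push_cast; ring
    rw [Finset.sum_congr rfl fun a _ => e a, ← Finset.mul_sum]
    simp only [Finset.sum_add_distrib, ← Finset.mul_sum]
    have h3 : ∑ a : ZMod 6, (c2 (a + S n y) : ℝ) = ∑ a : ZMod 6, (c2 a : ℝ) :=
      Equiv.sum_comp (Equiv.addRight (S n y)) fun a => (c2 a : ℝ)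
    rw [h3, ← Int.cast_sum, ← Int.cast_sum, c2_zero_sum, c2_corr]
    simp
    ring
  simp only [h1]
  rw [integral_add (integrable_const _), integral_const_mul, integral_const]
  · simp [G]
  · refine (integrable_of_fin _ ?_ (C := 2) (fun y => abs_c2 _)).const_mul _
    exact (measurable_of_countable (fun a : ZMod 6 => (c2 a : ℝ))).comp (measurable_S' n)

theorem corr_f' (n : ℕ) (hn : 1 ≤ n) : ∫ x, f x * f (T^[n] x) ∂μ = (∫ x, f x ∂μ) ^ 2 := by
  rw [corr_f, integral_f, G_eq_zero n 0 0 (Or.inl (by omega))]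
  norm_num

theorem f_not_const : ¬ ∃ c : ℝ, f =ᵐ[μ] fun _ => c := by
  rintro ⟨c, hc⟩
  have h1 : ∫ x, f x ∂μ = c := by
    rw [integral_congr_ae hc]; simp
  have h2 : ∫ x, f x * f (T^[0] x) ∂μ = c * c := by
    have : (fun x => f x * f (T^[0] x)) =ᵐ[μ] fun _ => c * c := by
      filter_upwards [hc] with x hx
      simp only [Function.iterate_zero, id, hx]
    rw [integral_congr_ae this]; simp
  have h3 : G 0 0 0 = 2 := by
    unfold G
    simp only [S_zero, zero_mul, add_zero, integral_const, smul_eq_mul]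
    simp [c2]
  rw [integral_f] at h1
  rw [corr_f, h3, ← h1] at h2
  norm_num at h2

end Q70.Ur
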