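import Pool.Agent.Q70.UrC
import Pool.Agent.Q70.UrD

set_option autoImplicit false

/-! Weights, lower bounds and ergodicity. -/

open MeasureTheory Set Filter Topology
open scoped ENNReal

namespace Q70.Ur

/-- cocycle of order two as a function of the first digits -/
def g2 (i a b : ZMod 6) : ZMod 6 := if i = 4 ∨ i = 5 then b + 2 * a + i + 4 else 2 * a + 2

/-- cocycle of order three as a function of the first digits -/
def g3 (i a b : ZMod 6) : ZMod 6 :=
  if i = 3 ∨ i = 4 ∨ i = 5 then b + 3 * a + i else 3 * a + 3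

theorem S_one (y : Y) : S 1 y = ph y := by rw [S_succ, S_zero]; simp

theorem S2 (i : ZMod 6) (y : Y) : S 2 (cs i y) = g2 i (y 0) (ph y) := by
  have hl : i.val < 6 := ZMod.val_lt i
  have h := (master' i.val 2 hl y).2
  rw [ZMod.natCast_zmod_val] at h
  rw [h]
  have key : ∀ i : ZMod 6, ((i.val + 2) / 6 = 0 ∧ ∀ a b : ZMod 6,
      0 + ((2 : ℕ) : ZMod 6) * a + ((i.val + 2 : ℕ) : ZMod 6) * (((0 : ℕ) : ZMod 6) + 1) - i = g2 i a b) ∨
      ((i.val + 2) / 6 = 1 ∧ ∀ a b : ZMod 6,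
      b + ((2 : ℕ) : ZMod 6) * a + ((i.val + 2 : ℕ) : ZMod 6) * (((1 : ℕ) : ZMod 6) + 1) - i = g2 i a b) := by
    decide
  rcases key i with ⟨h1, h2⟩ | ⟨h1, h2⟩
  · rw [h1, S_zero]; exact h2 _ _
  · rw [h1, S_one]; exact h2 _ _

theorem S3 (i : ZMod 6) (y : Y) : S 3 (cs i y) = g3 i (y 0) (ph y) := by
  have hl : i.val < 6 := ZMod.val_lt i
  have h := (master' i.val 3 hl y).2
  rw [ZMod.natCast_zmod_val] at h
  rw [h]
  have key : ∀ i : ZMod 6, ((i.val + 3) / 6 = 0 ∧ ∀ a b : ZMod 6,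
      0 + ((3 : ℕ) : ZMod 6) * a + ((i.val + 3 : ℕ) : ZMod 6) * (((0 : ℕ) : ZMod 6) + 1) - i = g3 i a b) ∨
      ((i.val + 3) / 6 = 1 ∧ ∀ a b : ZMod 6,
      b + ((3 : ℕ) : ZMod 6) * a + ((i.val + 3 : ℕ) : ZMod 6) * (((1 : ℕ) : ZMod 6) + 1) - i = g3 i a b) := by
    decide
  rcases key i with ⟨h1, h2⟩ | ⟨h1, h2⟩
  · rw [h1, S_zero]; exact h2 _ _
  · rw [h1, S_one]; exact h2 _ _

open Classical in
theorem D_val (m : ℕ) (g : ZMod 6 → ZMod 6 → ZMod 6 → ZMod 6)
    (hg : ∀ i y, S m (cs i y) = g i (y 0) (ph y)) (c : ZMod 6) (N : ℕ)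
    (hN : ∀ a b : ZMod 6, (∑ v : ZMod 6, ∑ i : ZMod 6,
      if g i a b + (m : ZMod 6) * v = c then 1 else 0) = N) :
    ν.real (D m c) = N / 36 := by
  have h0 : ν.real (D m c) = ∫ z, (if S m (sft z) + (m : ZMod 6) * z 0 = c then (1 : ℝ) else 0) ∂ν := by
    have : (fun z : Y => (if S m (sft z) + (m : ZMod 6) * z 0 = c then (1 : ℝ) else 0)) =
        (D m c).indicator (fun _ => (1 : ℝ)) := by
      funext z
      simp only [Set.indicator, D, Set.mem_ofPred_eq]
    rw [this, integral_indicator (measurableSet_D m c)]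
    simp
  have hb : ∀ (P : Prop) [Decidable P], |(if P then (1 : ℝ) else 0)| ≤ 1 := by
    intro P _; split_ifs <;> simp
  have hm0 : Measurable fun z : Y => (if S m (sft z) + (m : ZMod 6) * z 0 = c then (1 : ℝ) else 0) :=
    Measurable.ite (measurableSet_D m c) measurable_const measurable_const
  have hm1 : ∀ v : ZMod 6, Measurable fun y : Y =>
      (if S m y + (m : ZMod 6) * v = c then (1 : ℝ) else 0) := by
    intro v
    refine Measurable.ite ?_ measurable_const measurable_const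
    have h1 : Measurable fun y : Y => S m y + (m : ZMod 6) * v := by
      have h2 : Measurable fun b : ZMod 6 => b + (m : ZMod 6) * v := measurable_of_countable _
      exact h2.comp (measurable_S m)
    exact h1 (measurableSet_singleton c)
  rw [h0, int_rec _ hm0 (fun z => hb _)]
  have h1 : ∀ v : ZMod 6, ∫ y, (if S m (sft (cs v y)) + (m : ZMod 6) * cs v y 0 = c then (1 : ℝ) else 0) ∂ν
      = (1 / 6) * ∑ i : ZMod 6, ∫ y, (if g i (y 0) (ph y) + (m : ZMod 6) * v = c then (1 : ℝ) else 0) ∂ν := by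
    intro v
    change ∫ y, (if S m y + (m : ZMod 6) * v = c then (1 : ℝ) else 0) ∂ν = _
    rw [int_rec _ (hm1 v) (fun z => hb _)]
    simp only [hg]
  have hint : ∀ v i : ZMod 6, Integrable
      (fun y : Y => (if g i (y 0) (ph y) + (m : ZMod 6) * v = c then (1 : ℝ) else 0)) ν := by
    intro v i
    refine integrable_of_fin _ ?_ (C := 1) (fun y => hb _)
    have := (hm1 v).comp (measurable_cs' i)
    simp only [Function.comp_def, hg] at this
    exact this
  rw [Finset.sum_congr rfl fun v _ => h1 v, ← Finset.mul_sum]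
  have h2 : ∀ v : ZMod 6, ∑ i : ZMod 6, ∫ y, (if g i (y 0) (ph y) + (m : ZMod 6) * v = c then (1 : ℝ) else 0) ∂ν
      = ∫ y, ∑ i : ZMod 6, (if g i (y 0) (ph y) + (m : ZMod 6) * v = c then (1 : ℝ) else 0) ∂ν := by
    intro v
    rw [integral_finset_sum _ fun i _ => hint v i]
  rw [Finset.sum_congr rfl fun v _ => h2 v, ← integral_finset_sum]
  · have h3 : ∀ y : Y, (∑ v : ZMod 6, ∑ i : ZMod 6,
        (if g i (y 0) (ph y) + (m : ZMod 6) * v = c then (1 : ℝ) else 0)) = N := by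
      intro y
      rw [← hN (y 0) (ph y)]
      push_cast
      refine Finset.sum_congr rfl fun v _ => Finset.sum_congr rfl fun i _ => ?_
      split_ifs <;> rfl
    simp only [h3, integral_const]
    simp
    ring
  · intro v _
    exact integrable_finset_sum _ fun i _ => hint v i

theorem count2 : ∀ c a b : ZMod 6, (∑ v : ZMod 6, ∑ i : ZMod 6,
      if g2 i a b + ((2 : ℕ) : ZMod 6) * v = c then 1 else 0) =
      if c = 0 ∨ c = 2 ∨ c = 4 then 10 else 2 := by
  decide +kernel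

theorem count3 : ∀ c a b : ZMod 6, (∑ v : ZMod 6, ∑ i : ZMod 6,
      if g3 i a b + ((3 : ℕ) : ZMod 6) * v = c then 1 else 0) =
      if c = 0 ∨ c = 3 then 12 else 3 := by
  decide +kernel

end Q70.Ur
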