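import Pool.Agent.Q70.UrE

set_option autoImplicit false

/-! Every nontrivial set has too large returns along one of the two sequences. -/

open MeasureTheory Set Filter Topology
open scoped ENNReal

namespace Q70.Ur

theorem D2_val (c : ZMod 6) : ν.real (D 2 c) = if c = 0 ∨ c = 2 ∨ c = 4 then 10 / 36 else 2 / 36 := by
  classical
  have h := D_val 2 g2 S2 c (if c = 0 ∨ c = 2 ∨ c = 4 then 10 else 2) (fun a b => by
    have := count2 c a b
    convert this)
  rw [h]
  split_ifs <;> norm_num

theorem D3_val (c : ZMod 6) : ν.real (D 3 c) = if c = 0 ∨ c = 3 then 12 / 36 else 3 / 36 := by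
  classical
  have h := D_val 3 g3 S3 c (if c = 0 ∨ c = 3 then 12 else 3) (fun a b => by
    have := count3 c a b
    convert this)
  rw [h]
  split_ifs <;> norm_num

open Classical in
/-- indicator -/
noncomputable def ia (A : Set X) (x : X) : ℝ := if x ∈ A then 1 else 0

theorem measurable_ia {A : Set X} (hA : MeasurableSet A) : Measurable (ia A) :=
  Measurable.ite hA measurable_const measurable_const

theorem ia_cases (A : Set X) (x : X) : ia A x = 0 ∨ ia A x = 1 := by
  unfold ia; split_ifs <;> simp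

theorem abs_ia (A : Set X) (x : X) : |ia A x| ≤ 1 := by
  rcases ia_cases A x with h | h <;> rw [h] <;> simp

theorem integral_ia {A : Set X} (hA : MeasurableSet A) : ∫ x, ia A x ∂μ = μ.real A := by
  have : ia A = A.indicator (fun _ => (1 : ℝ)) := by
    funext x; unfold ia Set.indicator; split_ifs <;> rfl
  rw [this, integral_indicator hA]; simp

/-- pair correlations in the fibre -/
noncomputable def I (A : Set X) (c : ZMod 6) : ℝ := ∫ x, ia A x * ia A (R c x) ∂μ

theorem I_eq {A : Set X} (hA : MeasurableSet A) (c : ZMod 6) :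
    I A c = μ.real (A ∩ R c ⁻¹' A) := by
  unfold I
  rw [← integral_ia (hA.inter (measurable_R c hA))]
  refine integral_congr_ae (Eventually.of_forall fun x => ?_)
  simp only [ia, Set.mem_inter_iff, Set.mem_preimage]
  by_cases h1 : x ∈ A <;> by_cases h2 : R c x ∈ A <;> simp [h1, h2]

theorem int_R (c : ZMod 6) {f : X → ℝ} (hf : Measurable f) : ∫ x, f (R c x) ∂μ = ∫ x, f x ∂μ := by
  have h := integral_map (μ := μ) (measurable_R c).aemeasurable (f := f)
    hf.aestronglyMeasurable
  rw [(mp_R c).map_eq] at h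
  exact h.symm

theorem R_R (c d : ZMod 6) (x : X) : R c (R d x) = R (d + c) x := by
  simp [R, add_assoc]

theorem int_pair {A : Set X} (hA : MeasurableSet A) (i j : ZMod 6) :
    ∫ x, ia A (R i x) * ia A (R j x) ∂μ = I A (j - i) := by
  have h := int_R i (f := fun x => ia A x * ia A (R (j - i) x))
    ((measurable_ia hA).mul ((measurable_ia hA).comp (measurable_R _)))
  unfold I
  rw [← h]
  refine integral_congr_ae (Eventually.of_forall fun x => ?_)
  simp only [R_R]
  congr 3
  ring

/-- sums over a set of rotations -/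
noncomputable def NH (H : Finset (ZMod 6)) (A : Set X) (x : X) : ℝ := ∑ h ∈ H, ia A (R h x)

theorem measurable_NH (H : Finset (ZMod 6)) {A : Set X} (hA : MeasurableSet A) :
    Measurable (NH H A) :=
  Finset.measurable_fun_sum _ fun h _ => (measurable_ia hA).comp (measurable_R h)

theorem abs_NH (H : Finset (ZMod 6)) (A : Set X) (x : X) : |NH H A x| ≤ 6 := by
  unfold NH
  refine (Finset.abs_sum_le_sum_abs _ _).trans ?_
  refine (Finset.sum_le_sum fun h _ => abs_ia A _).trans ?_
  rw [Finset.sum_const, nsmul_eq_mul, mul_one]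
  have : H.card ≤ 6 := by
    have := Finset.card_le_univ H
    rwa [ZMod.card] at this
  exact_mod_cast this

theorem int_NH (H : Finset (ZMod 6)) {A : Set X} (hA : MeasurableSet A) :
    ∫ x, NH H A x ∂μ = H.card * μ.real A := by
  unfold NH
  rw [integral_finset_sum]
  · rw [Finset.sum_congr rfl fun h _ => (int_R h (measurable_ia hA)).trans (integral_ia hA)]
    rw [Finset.sum_const, nsmul_eq_mul]
  · intro h _
    exact integrable_of_fin _ ((measurable_ia hA).comp (measurable_R h)) (fun x => abs_ia A _)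

theorem int_NH_sq (H : Finset (ZMod 6)) (hH : ∀ i ∈ H, H.image (fun j => j - i) = H)
    {A : Set X} (hA : MeasurableSet A) :
    ∫ x, NH H A x ^ 2 ∂μ = H.card * ∑ h ∈ H, I A h := by
  have h1 : ∀ x, NH H A x ^ 2 = ∑ i ∈ H, ∑ j ∈ H, ia A (R i x) * ia A (R j x) := by
    intro x
    unfold NH
    rw [sq, Finset.sum_mul_sum]
  have hint : ∀ i j, Integrable (fun x => ia A (R i x) * ia A (R j x)) μ := by
    intro i j
    refine integrable_of_fin _ (((measurable_ia hA).comp (measurable_R i)).mul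
      ((measurable_ia hA).comp (measurable_R j))) (C := 1) (fun x => ?_)
    rw [abs_mul]
    exact mul_le_one₀ (abs_ia A _) (abs_nonneg _) (abs_ia A _)
  rw [integral_congr_ae (Eventually.of_forall h1), integral_finset_sum]
  · have h2 : ∀ i ∈ H, ∫ x, ∑ j ∈ H, ia A (R i x) * ia A (R j x) ∂μ = ∑ h ∈ H, I A h := by
      intro i hi
      rw [integral_finset_sum _ fun j _ => hint i j,
        Finset.sum_congr rfl fun j _ => int_pair hA i j]
      conv_rhs => rw [← hH i hi]
      rw [Finset.sum_image]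
      intro a _ b _ hab
      exact sub_left_injective hab
    rw [Finset.sum_congr rfl h2, Finset.sum_const, nsmul_eq_mul]
  · intro i _
    exact integrable_finset_sum _ fun j _ => hint i j

theorem int_NH_var (H : Finset (ZMod 6)) (hH : ∀ i ∈ H, H.image (fun j => j - i) = H)
    {A : Set X} (hA : MeasurableSet A) :
    H.card * ∑ h ∈ H, I A h = ∫ x, (NH H A x - H.card * μ.real A) ^ 2 ∂μ +
      (H.card * μ.real A) ^ 2 := by
  rw [← int_NH_sq H hH hA]
  set b : ℝ := H.card * μ.real A with hb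
  have e : ∀ x, (NH H A x - b) ^ 2 = NH H A x ^ 2 - 2 * b * NH H A x + b ^ 2 := by
    intro x; ring
  have i1 : Integrable (fun x => NH H A x ^ 2) μ := by
    refine integrable_of_fin _ ((measurable_NH H hA).pow_const 2) (C := 36) (fun x => ?_)
    rw [abs_pow]
    have := abs_NH H A x
    nlinarith [abs_nonneg (NH H A x)]
  have i2 : Integrable (fun x => 2 * b * NH H A x) μ :=
    (integrable_of_fin _ (measurable_NH H hA) (fun x => abs_NH H A x)).const_mul _
  have j1 : ∫ x, (NH H A x ^ 2 - 2 * b * NH H A x + b ^ 2) ∂μ =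
      ∫ x, (NH H A x ^ 2 - 2 * b * NH H A x) ∂μ + ∫ _x : X, b ^ 2 ∂μ :=
    integral_add (i1.sub i2) (integrable_const _)
  have j2 : ∫ x, (NH H A x ^ 2 - 2 * b * NH H A x) ∂μ =
      ∫ x, NH H A x ^ 2 ∂μ - ∫ x, 2 * b * NH H A x ∂μ := integral_sub i1 i2
  rw [integral_congr_ae (Eventually.of_forall e), j1, j2, integral_const_mul, int_NH H hA, ← hb]
  simp
  ring

theorem var_nonneg (H : Finset (ZMod 6)) (A : Set X) (b : ℝ) :
    0 ≤ ∫ x, (NH H A x - b) ^ 2 ∂μ := integral_nonneg fun x => sq_nonneg _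

theorem ae_of_var (H : Finset (ZMod 6)) {A : Set X} (hA : MeasurableSet A) (b : ℝ)
    (h : ∫ x, (NH H A x - b) ^ 2 ∂μ ≤ 0) : ∀ᵐ x ∂μ, NH H A x = b := by
  have i1 : Integrable (fun x => (NH H A x - b) ^ 2) μ := by
    refine integrable_of_fin _ (((measurable_NH H hA).sub_const b).pow_const 2)
      (C := (6 + |b|) ^ 2) (fun x => ?_)
    rw [abs_pow]
    refine pow_le_pow_left₀ (abs_nonneg _) ?_ 2
    refine (abs_sub _ _).trans ?_
    linarith [abs_NH H A x]
  have h0 := le_antisymm h (var_nonneg H A b)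
  rw [integral_eq_zero_iff_of_nonneg (fun x => sq_nonneg _) i1] at h0
  filter_upwards [h0] with x hx
  simp only [Pi.zero_apply] at hx
  have := pow_eq_zero_iff (n := 2) (by norm_num) |>.1 hx
  linarith

theorem sum6 (F : ZMod 6 → ℝ) : ∑ c, F c = F 0 + F 1 + F 2 + F 3 + F 4 + F 5 := by
  exact Fin.sum_univ_six F

theorem L2_eq {A : Set X} (hA : MeasurableSet A) :
    L 2 A = μ.real A ^ 2 + (2 / 27) * ∫ x, (NH {0, 2, 4} A x - 3 * μ.real A) ^ 2 ∂μ +
      (1 / 108) * ∫ x, (NH Finset.univ A x - 6 * μ.real A) ^ 2 ∂μ := by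
  have h1 := int_NH_var {0, 2, 4} (by decide) hA
  have h2 := int_NH_var Finset.univ (by decide) hA
  have c1 : (({0, 2, 4} : Finset (ZMod 6)).card : ℝ) = 3 := by
    have : ({0, 2, 4} : Finset (ZMod 6)).card = 3 := by decide
    rw [this]; norm_num
  have c2 : ((Finset.univ : Finset (ZMod 6)).card : ℝ) = 6 := by
    have : (Finset.univ : Finset (ZMod 6)).card = 6 := by decide
    rw [this]; norm_num
  rw [c1] at h1
  rw [c2, sum6] at h2
  have s1 : ∑ h ∈ ({0, 2, 4} : Finset (ZMod 6)), I A h = I A 0 + I A 2 + I A 4 := by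
    rw [Finset.sum_insert (by decide), Finset.sum_insert (by decide), Finset.sum_singleton]
    ring
  rw [s1] at h1
  have hL : L 2 A = (10 / 36) * I A 0 + (2 / 36) * I A 1 + (10 / 36) * I A 2 + (2 / 36) * I A 3
      + (10 / 36) * I A 4 + (2 / 36) * I A 5 := by
    unfold L
    rw [sum6]
    have v0 : ν.real (D 2 0) = 10 / 36 := by rw [D2_val, if_pos (by decide)]
    have v1 : ν.real (D 2 1) = 2 / 36 := by rw [D2_val, if_neg (by decide)]
    have v2 : ν.real (D 2 2) = 10 / 36 := by rw [D2_val, if_pos (by decide)]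
    have v3 : ν.real (D 2 3) = 2 / 36 := by rw [D2_val, if_neg (by decide)]
    have v4 : ν.real (D 2 4) = 10 / 36 := by rw [D2_val, if_pos (by decide)]
    have v5 : ν.real (D 2 5) = 2 / 36 := by rw [D2_val, if_neg (by decide)]
    simp only [← I_eq hA, v0, v1, v2, v3, v4, v5]
    ring
  rw [hL]
  linarith

theorem L3_eq {A : Set X} (hA : MeasurableSet A) :
    L 3 A = μ.real A ^ 2 + (1 / 8) * ∫ x, (NH {0, 3} A x - 2 * μ.real A) ^ 2 ∂μ +
      (1 / 72) * ∫ x, (NH Finset.univ A x - 6 * μ.real A) ^ 2 ∂μ := by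
  have h1 := int_NH_var {0, 3} (by decide) hA
  have h2 := int_NH_var Finset.univ (by decide) hA
  have c1 : (({0, 3} : Finset (ZMod 6)).card : ℝ) = 2 := by
    have : ({0, 3} : Finset (ZMod 6)).card = 2 := by decide
    rw [this]; norm_num
  have c2 : ((Finset.univ : Finset (ZMod 6)).card : ℝ) = 6 := by
    have : (Finset.univ : Finset (ZMod 6)).card = 6 := by decide
    rw [this]; norm_num
  rw [c1] at h1
  rw [c2, sum6] at h2
  have s1 : ∑ h ∈ ({0, 3} : Finset (ZMod 6)), I A h = I A 0 + I A 3 := by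
    rw [Finset.sum_insert (by decide), Finset.sum_singleton]
  rw [s1] at h1
  have hL : L 3 A = (12 / 36) * I A 0 + (3 / 36) * I A 1 + (3 / 36) * I A 2 + (12 / 36) * I A 3
      + (3 / 36) * I A 4 + (3 / 36) * I A 5 := by
    unfold L
    rw [sum6]
    have v0 : ν.real (D 3 0) = 12 / 36 := by rw [D3_val, if_pos (by decide)]
    have v1 : ν.real (D 3 1) = 3 / 36 := by rw [D3_val, if_neg (by decide)]
    have v2 : ν.real (D 3 2) = 3 / 36 := by rw [D3_val, if_neg (by decide)]
    have v3 : ν.real (D 3 3) = 12 / 36 := by rw [D3_val, if_pos (by decide)]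
    have v4 : ν.real (D 3 4) = 3 / 36 := by rw [D3_val, if_neg (by decide)]
    have v5 : ν.real (D 3 5) = 3 / 36 := by rw [D3_val, if_neg (by decide)]
    simp only [← I_eq hA, v0, v1, v2, v3, v4, v5]
    ring
  rw [hL]
  linarith

/-- one of the two limits exceeds the square -/
theorem exceed {A : Set X} (hA : MeasurableSet A) (h0 : 0 < μ.real A) (h1 : μ.real A < 1) :
    μ.real A ^ 2 < L 2 A ∨ μ.real A ^ 2 < L 3 A := by
  by_contra hc
  push Not at hc
  obtain ⟨a1, a2⟩ := hc
  rw [L2_eq hA] at a1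
  rw [L3_eq hA] at a2
  have p1 := var_nonneg {0, 2, 4} A (3 * μ.real A)
  have p2 := var_nonneg {0, 3} A (2 * μ.real A)
  have p3 := var_nonneg Finset.univ A (6 * μ.real A)
  have b1 := ae_of_var {0, 2, 4} hA (3 * μ.real A) (by linarith)
  have b2 := ae_of_var {0, 3} hA (2 * μ.real A) (by linarith)
  obtain ⟨x, hx1, hx2⟩ := (b1.and b2).exists
  unfold NH at hx1 hx2
  rw [Finset.sum_insert (by decide), Finset.sum_insert (by decide), Finset.sum_singleton] at hx1
  rw [Finset.sum_insert (by decide), Finset.sum_singleton] at hx2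
  rcases ia_cases A (R 0 x) with q0 | q0 <;> rcases ia_cases A (R 2 x) with q2 | q2 <;>
    rcases ia_cases A (R 4 x) with q4 | q4 <;> rcases ia_cases A (R 3 x) with q3 | q3 <;>
    rw [q0, q2, q4] at hx1 <;> rw [q0, q3] at hx2 <;> linarith

/-- every nontrivial set returns too often -/
theorem too_often {A : Set X} (hA : MeasurableSet A) (h0 : 0 < μ.real A) (h1 : μ.real A < 1) :
    ∃ c, μ.real A ^ 2 < c ∧ ∃ᶠ n in atTop, c < μ.real (A ∩ T^[n] ⁻¹' A) := by
  have key : ∀ m, 0 < m → μ.real A ^ 2 < L m A →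
      ∃ c, μ.real A ^ 2 < c ∧ ∃ᶠ n in atTop, c < μ.real (A ∩ T^[n] ⁻¹' A) := by
    intro m hm h
    refine ⟨(μ.real A ^ 2 + L m A) / 2, by linarith, ?_⟩
    have h2 := (tendsto_corr m hA).eventually (lt_mem_nhds (show (μ.real A ^ 2 + L m A) / 2 < L m A by linarith))
    have h3 : Tendsto (fun k : ℕ => 6 ^ (k + 1) * m) atTop atTop := by
      refine tendsto_atTop_mono (fun k => ?_) (tendsto_add_atTop_nat 1)
      calc k + 1 ≤ 6 ^ (k + 1) := (Nat.lt_pow_self (by norm_num)).le
        _ ≤ 6 ^ (k + 1) * m := Nat.le_mul_of_pos_right _ hm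
    exact h3.frequently h2.frequently
  rcases exceed hA h0 h1 with h | h
  · exact key 2 (by norm_num) h
  · exact key 3 (by norm_num) h

end Q70.Ur
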