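import Pool.Agent.Q70.UrF

set_option autoImplicit false

/-! Ergodicity. -/

open MeasureTheory Set Filter Topology
open scoped ENNReal

namespace Q70.Ur

theorem all_eq {q : ZMod 6 → ℝ≥0∞} (h : ∀ i, q (i + 1) = q i) (i : ZMod 6) :
    q i = (6 : ℝ≥0∞)⁻¹ * ∑ j, q j := by
  have h1 : ∀ n : ℕ, q (n : ZMod 6) = q 0 := by
    intro n
    induction n with
    | zero => simp
    | succ n ih =>
      have e : ((n + 1 : ℕ) : ZMod 6) = (n : ZMod 6) + 1 := by push_cast; ring
      rw [e, h, ih]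
  have h2 : ∀ j, q j = q 0 := by
    intro j
    rw [← ZMod.natCast_zmod_val j]; exact h1 _
  rw [Finset.sum_congr rfl fun j _ => h2 j, Finset.sum_const, h2 i]
  have : (Finset.univ : Finset (ZMod 6)).card = 6 := by decide
  rw [this, nsmul_eq_mul, ← mul_assoc]
  have h3 : (6 : ℝ≥0∞)⁻¹ * ((6 : ℕ) : ℝ≥0∞) = 1 := by
    have : ((6 : ℕ) : ℝ≥0∞) = 6 := by norm_num
    rw [this]
    exact ENNReal.inv_mul_cancel (by norm_num) (by norm_num)
  rw [h3, one_mul]

theorem sum_split {f : X → ZMod 6} (hf : Measurable f) {G : Set X} (_hG : MeasurableSet G) :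
    μ G = ∑ c, μ (G ∩ {x | f x = c}) := by
  have h := sum_measure_preimage_singleton (μ := μ.restrict G) (f := f)
    (Finset.univ : Finset (ZMod 6)) (fun y _ => hf (measurableSet_singleton y))
  rw [Finset.coe_univ, Set.preimage_univ, Measure.restrict_apply_univ] at h
  rw [← h]
  refine Finset.sum_congr rfl fun c _ => ?_
  rw [Measure.restrict_apply (hf (measurableSet_singleton c)), Set.inter_comm]
  rfl

theorem inv_iter {A : Set X} (hT : T ⁻¹' A = A) (n : ℕ) : T^[n] ⁻¹' A = A := by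
  induction n with
  | zero => rfl
  | succ n ih => rw [Function.iterate_succ, Set.preimage_comp, ih, hT]

/-- equidistribution of the next digit on an invariant set -/
theorem next_digit {A : Set X} (hA : MeasurableSet A) (hT : T ⁻¹' A = A) {n : ℕ} {F : Set Y}
    (hF : MeasurableSet F) (dF : Dep n F) (i : ZMod 6) :
    μ (A ∩ {x | x.1 ∈ F} ∩ {x | x.1 n = i}) = (6 : ℝ≥0∞)⁻¹ * μ (A ∩ {x | x.1 ∈ F}) := by
  have hmF : MeasurableSet {x : X | x.1 ∈ F} := measurable_fst hF
  have hmn : Measurable fun x : X => x.1 n := (measurable_pi_apply n).comp measurable_fst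
  rw [sum_split hmn (hA.inter hmF)]
  refine all_eq (q := fun i => μ (A ∩ {x | x.1 ∈ F} ∩ {x | x.1 n = i})) (fun i => ?_) i
  have hms : MeasurableSet (A ∩ {x : X | x.1 ∈ F} ∩ {x | x.1 n = i + 1}) :=
    (hA.inter hmF).inter (hmn (measurableSet_singleton _))
  have h := (mp_T.iterate (6 ^ n)).measure_preimage hms.nullMeasurableSet
  rw [← h]
  congr 1
  ext x
  have h1 : x ∈ T^[6 ^ n] ⁻¹' A ↔ x ∈ A := by rw [inv_iter hT]
  have h2 := renorm_k n 1 x.1
  rw [mul_one] at h2
  have h3 : sc^[6 ^ n] x.1 ∈ F ↔ x.1 ∈ F := dF _ _ h2.1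
  have h4 : sc^[6 ^ n] x.1 n = x.1 n + 1 := by
    have h5 := congrFun h2.2 0
    rw [sft_iter, Function.iterate_one, sc_zero, sft_iter, zero_add] at h5
    exact h5
  have h6 : (T^[6 ^ n] x).1 = sc^[6 ^ n] x.1 := by rw [T_iter]
  rw [Set.mem_preimage] at h1
  simp only [Set.mem_inter_iff, Set.mem_preimage, Set.mem_ofPred_eq, h1, h6, h3, h4,
    add_left_inj]

theorem upd_dep {n : ℕ} {F : Set Y} (hF : Dep (n + 1) F) (i : ZMod 6) :
    Dep n ((fun y => Function.update y n i) ⁻¹' F) := by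
  intro y z hyz
  refine hF _ _ fun j hj => ?_
  show Function.update y n i j = Function.update z n i j
  by_cases hjn : j = n
  · subst hjn; simp
  · rw [Function.update_of_ne hjn, Function.update_of_ne hjn]
    exact hyz j (by omega)

theorem upd_meas (n : ℕ) (i : ZMod 6) : Measurable fun y : Y => Function.update y n i := by
  refine measurable_pi_iff.2 fun j => ?_
  by_cases hjn : j = n
  · subst hjn; simp only [Function.update_self]; exact measurable_const
  · simp only [Function.update_of_ne hjn]; exact measurable_pi_apply j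

theorem base_ind {A : Set X} (hA : MeasurableSet A) (hT : T ⁻¹' A = A) (n : ℕ) :
    ∀ F : Set Y, MeasurableSet F → Dep n F →
    μ (A ∩ {x | x.1 ∈ F}) = μ A * μ {x | x.1 ∈ F} := by
  induction n with
  | zero =>
    intro F _ hd
    by_cases hF : F.Nonempty
    · obtain ⟨y, hy⟩ := hF
      have : F = Set.univ := by
        ext z; exact ⟨fun _ => Set.mem_univ _, fun _ => (hd y z (by intro i hi; omega)).1 hy⟩
      rw [this]; simp
    · rw [Set.not_nonempty_iff_eq_empty] at hF
      rw [hF]; simp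
  | succ n ih =>
    intro F hF hd
    have hmF : MeasurableSet {x : X | x.1 ∈ F} := measurable_fst hF
    have hmn : Measurable fun x : X => x.1 n := (measurable_pi_apply n).comp measurable_fst
    have key : ∀ B : Set X, MeasurableSet B → T ⁻¹' B = B → μ (B ∩ {x | x.1 ∈ F}) =
        ∑ i, (6 : ℝ≥0∞)⁻¹ * μ (B ∩ {x | x.1 ∈ (fun y => Function.update y n i) ⁻¹' F}) := by
      intro B hB hTB
      rw [sum_split hmn (hB.inter hmF)]
      refine Finset.sum_congr rfl fun i _ => ?_
      rw [← next_digit hB hTB (upd_meas n i hF) (upd_dep hd i) i]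
      congr 1
      ext x
      simp only [Set.mem_inter_iff, Set.mem_preimage, Set.mem_ofPred_eq]
      constructor
      · rintro ⟨⟨h1, h2⟩, h3⟩
        refine ⟨⟨h1, ?_⟩, h3⟩
        rw [← h3, Function.update_eq_self]; exact h2
      · rintro ⟨⟨h1, h2⟩, h3⟩
        refine ⟨⟨h1, ?_⟩, h3⟩
        rw [← h3, Function.update_eq_self] at h2; exact h2
    have k1 := key A hA hT
    have k2 := key Set.univ MeasurableSet.univ rfl
    simp only [Set.univ_inter] at k2
    rw [k1, k2, Finset.mul_sum]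
    refine Finset.sum_congr rfl fun i _ => ?_
    rw [ih _ (upd_meas n i hF) (upd_dep hd i)]
    ring

theorem fibre_half {A : Set X} (hA : MeasurableSet A) (hR : R 1 ⁻¹' A =ᵐ[μ] A) {F : Set Y}
    (hF : MeasurableSet F) (a : ZMod 6) :
    μ (A ∩ {x | x.1 ∈ F} ∩ {x | x.2 = a}) = (6 : ℝ≥0∞)⁻¹ * μ (A ∩ {x | x.1 ∈ F}) := by
  have hmF : MeasurableSet {x : X | x.1 ∈ F} := measurable_fst hF
  rw [sum_split measurable_snd (hA.inter hmF)]
  refine all_eq (q := fun a => μ (A ∩ {x | x.1 ∈ F} ∩ {x | x.2 = a})) (fun a => ?_) a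
  have hms : MeasurableSet (A ∩ {x : X | x.1 ∈ F} ∩ {x | x.2 = a + 1}) :=
    (hA.inter hmF).inter (measurable_snd (measurableSet_singleton _))
  have h := (mp_R 1).measure_preimage hms.nullMeasurableSet
  rw [← h]
  have e : R 1 ⁻¹' (A ∩ {x : X | x.1 ∈ F} ∩ {x | x.2 = a + 1}) =
      (R 1 ⁻¹' A) ∩ ({x : X | x.1 ∈ F} ∩ {x | x.2 = a}) := by
    ext x
    simp only [Set.mem_preimage, Set.mem_inter_iff, Set.mem_ofPred_eq, R, add_left_inj, and_assoc]
  rw [e, Set.inter_assoc]
  exact measure_congr (hR.inter (ae_eq_refl _))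

theorem indep_all {A : Set X} (hA : MeasurableSet A) (hT : T ⁻¹' A = A)
    (hR : R 1 ⁻¹' A =ᵐ[μ] A) {n : ℕ} {E : Set X} (hE : MeasurableSet E) (dE : DepX n E) :
    μ (A ∩ E) = μ A * μ E := by
  have key : ∀ B : Set X, MeasurableSet B → T ⁻¹' B = B → R 1 ⁻¹' B =ᵐ[μ] B → μ (B ∩ E) =
      ∑ a, (6 : ℝ≥0∞)⁻¹ * μ (B ∩ {x | x.1 ∈ sl a E}) := by
    intro B hB hTB hRB
    rw [sum_split measurable_snd (hB.inter hE)]
    refine Finset.sum_congr rfl fun a _ => ?_
    rw [← fibre_half hB hRB (measurableSet_sl a hE) a]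
    congr 1
    ext ⟨y, b⟩
    simp only [Set.mem_inter_iff, Set.mem_ofPred_eq, sl]
    constructor
    · rintro ⟨⟨h1, h2⟩, h3⟩
      subst h3
      exact ⟨⟨h1, h2⟩, rfl⟩
    · rintro ⟨⟨h1, h2⟩, h3⟩
      subst h3
      exact ⟨⟨h1, h2⟩, rfl⟩
  have k1 := key A hA hT hR
  have k2 := key Set.univ MeasurableSet.univ rfl (ae_eq_refl _)
  simp only [Set.univ_inter] at k2
  rw [k1, k2, Finset.mul_sum]
  refine Finset.sum_congr rfl fun a _ => ?_
  rw [base_ind hA hT n _ (measurableSet_sl a hE) (fun y z h => dE y z a h)]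
  ring

theorem real_inter_near {A E : Set X} (hA : MeasurableSet A) (hE : MeasurableSet E) :
    |μ.real A - μ.real (A ∩ E)| ≤ μ.real (symmDiff A E) ∧
    |μ.real A - μ.real E| ≤ μ.real (symmDiff A E) := by
  have hm : MeasurableSet (symmDiff A E) := hA.symmDiff hE
  have key : ∀ P Q : Set X, P ⊆ Q ∪ symmDiff A E → μ.real P ≤ μ.real Q + μ.real (symmDiff A E) := by
    intro P Q h
    exact (measureReal_mono h (measure_ne_top _ _)).trans (measureReal_union_le _ _)
  have a1 := key A (A ∩ E) (by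
    intro x hx
    by_cases he : x ∈ E
    · exact Or.inl ⟨hx, he⟩
    · exact Or.inr (by rw [Set.mem_symmDiff]; exact Or.inl ⟨hx, he⟩))
  have a2 := key (A ∩ E) A (fun x hx => Or.inl hx.1)
  have a3 := key A E (by
    intro x hx
    by_cases he : x ∈ E
    · exact Or.inl he
    · exact Or.inr (by rw [Set.mem_symmDiff]; exact Or.inl ⟨hx, he⟩))
  have a4 := key E A (by
    intro x hx
    by_cases he : x ∈ A
    · exact Or.inl he
    · exact Or.inr (by rw [Set.mem_symmDiff]; exact Or.inr ⟨hx, he⟩))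
  constructor
  · rw [abs_le]; constructor <;> linarith
  · rw [abs_le]; constructor <;> linarith

/-- invariant sets are trivial -/
theorem trivial_of_inv {A : Set X} (hA : MeasurableSet A) (hT : T ⁻¹' A = A) :
    μ.real A = 0 ∨ μ.real A = 1 := by
  set α := μ.real A with hα
  -- the limit functional equals the measure
  have hL : L 2 A = α := by
    have h1 := tendsto_corr 2 hA
    have h2 : (fun k : ℕ => μ.real (A ∩ T^[6 ^ (k + 1) * 2] ⁻¹' A)) = fun _ => α := by
      funext k; rw [inv_iter hT, Set.inter_self]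
    rw [h2] at h1
    exact tendsto_nhds_unique h1 tendsto_const_nhds |>.symm ▸ rfl
  have hle : ∀ c, μ.real (A ∩ R c ⁻¹' A) ≤ α := fun c =>
    measureReal_mono Set.inter_subset_left (measure_ne_top _ _)
  have hsum : ∑ c, (α - μ.real (A ∩ R c ⁻¹' A)) * ν.real (D 2 c) = 0 := by
    have h3 : ∑ c, (α - μ.real (A ∩ R c ⁻¹' A)) * ν.real (D 2 c) =
        α * ∑ c, ν.real (D 2 c) - L 2 A := by
      unfold L
      rw [Finset.mul_sum, ← Finset.sum_sub_distrib]
      exact Finset.sum_congr rfl fun c _ => by ring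
    rw [h3, sum_D, hL]; ring
  have h1 : μ.real (A ∩ R 1 ⁻¹' A) = α := by
    have h4 := (Finset.sum_eq_zero_iff_of_nonneg (fun c _ => mul_nonneg
      (sub_nonneg.2 (hle c)) measureReal_nonneg)).1 hsum 1 (Finset.mem_univ _)
    have v1 : ν.real (D 2 1) = 2 / 36 := by rw [D2_val, if_neg (by decide)]
    rw [v1] at h4
    linarith
  have hR : R 1 ⁻¹' A =ᵐ[μ] A := by
    have m1 : μ (A ∩ R 1 ⁻¹' A) = μ A := by
      have := h1
      rw [hα, measureReal_def, measureReal_def] at this
      exact (ENNReal.toReal_eq_toReal_iff' (measure_ne_top _ _) (measure_ne_top _ _)).1 this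
    have m2 : μ (R 1 ⁻¹' A) = μ A := (mp_R 1).measure_preimage hA.nullMeasurableSet
    have e1 : (A ∩ R 1 ⁻¹' A : Set X) =ᵐ[μ] A :=
      ae_eq_of_subset_of_measure_ge Set.inter_subset_left m1.ge
        (hA.inter (measurable_R 1 hA)).nullMeasurableSet (measure_ne_top _ _)
    have e2 : (A ∩ R 1 ⁻¹' A : Set X) =ᵐ[μ] (R 1 ⁻¹' A : Set X) :=
      ae_eq_of_subset_of_measure_ge Set.inter_subset_right (by rw [m1, m2])
        (hA.inter (measurable_R 1 hA)).nullMeasurableSet (measure_ne_top _ _)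
    exact e2.symm.trans e1
  have hsq : α = α ^ 2 := by
    by_contra hne
    have hpos : 0 < |α - α ^ 2| := abs_pos.2 (sub_ne_zero.2 hne)
    obtain ⟨E, n, hE, dE, hs⟩ := approx A hA (show (0 : ℝ) < |α - α ^ 2| / 2 by linarith)
    obtain ⟨b1, b2⟩ := real_inter_near hA hE
    have h5 : μ.real (A ∩ E) = α * μ.real E := by
      rw [measureReal_def, indep_all hA hT hR hE dE, ENNReal.toReal_mul]; rfl
    have hα0 : 0 ≤ α := measureReal_nonneg
    have hα1 : α ≤ 1 := measureReal_le_one
    rw [h5, ← hα] at b1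
    rw [← hα] at b2
    have h6 : |α * μ.real E - α ^ 2| ≤ μ.real (symmDiff A E) := by
      have : α * μ.real E - α ^ 2 = α * (μ.real E - α) := by ring
      rw [this, abs_mul, abs_of_nonneg hα0, abs_sub_comm]
      calc α * |α - μ.real E| ≤ 1 * |α - μ.real E| :=
            mul_le_mul_of_nonneg_right hα1 (abs_nonneg _)
        _ ≤ _ := by rw [one_mul]; exact b2
    have h7 := abs_sub_le α (α * μ.real E) (α ^ 2)
    linarith
  have : α * (α - 1) = 0 := by linarith [hsq, sq α]
  rcases mul_eq_zero.1 this with h | h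
  · exact Or.inl h
  · exact Or.inr (by linarith)

theorem ergodic_T : Ergodic T μ := by
  refine ⟨mp_T, ⟨fun A hA hT => ?_⟩⟩
  rw [eventuallyConst_set']
  rcases trivial_of_inv hA hT with h | h
  · left
    rw [ae_eq_empty]
    rw [measureReal_def, ENNReal.toReal_eq_zero_iff] at h
    exact h.resolve_right (measure_ne_top _ _)
  · right
    rw [ae_eq_univ, prob_compl_eq_zero_iff hA]
    rw [measureReal_def] at h
    have := ENNReal.ofReal_toReal (measure_ne_top μ A)
    rw [h] at this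
    simpa using this.symm

end Q70.Ur
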