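import Mathlib
import Pool.Agent.H25R3.RE.Strong

set_option autoImplicit false

/-! Spectral gap of the Bernoulli shift of a nonamenable group. -/

open MeasureTheory Set Filter Topology

namespace Q70.Wd

open Pool.Agent.H25R3.RE

/-- amenability: a finitely additive left invariant probability on all subsets -/
def Amen (G : Type) [Group G] : Prop :=
  ∃ m : Set G → ℝ, (∀ A, 0 ≤ m A) ∧ m univ = 1 ∧
    (∀ A B, Disjoint A B → m (A ∪ B) = m A + m B) ∧
    ∀ (g : G) (A : Set G), m ((fun x => g * x) '' A) = m A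

variable (G : Type)

/-- the configuration space -/
abbrev Cfg := G × ℕ → ZMod 2

/-- Haar probability -/
noncomputable def coin [Countable G] : Measure (Cfg G) :=
  Measure.addHaarMeasure (⊤ : TopologicalSpace.PositiveCompacts (Cfg G))

instance [Countable G] : IsProbabilityMeasure (coin G) := by
  refine ⟨?_⟩
  have h := Measure.addHaarMeasure_self (K₀ := (⊤ : TopologicalSpace.PositiveCompacts (Cfg G)))
  exact h

variable {G}

theorem coin_add [Countable G] (d : Cfg G) : (coin G).map (fun x => x + d) = coin G := by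
  have : (coin G).IsAddLeftInvariant := by unfold coin; infer_instance
  exact map_add_right_eq_self (coin G) d

theorem coin_perm [Countable G] (e : Equiv.Perm (G × ℕ)) :
    (coin G).map (fun x j => x (e j)) = coin G := by
  refine perm_inv Set.univ (fun _ a => ⟨a, Set.mem_univ _, fun _ _ => rfl⟩) (coin G)
    (fun d _ => coin_add d) e (fun _ _ => Set.mem_univ _)

variable [Group G]

/-- left multiplication on the index set -/
def eg (g : G) : Equiv.Perm (G × ℕ) where
  toFun j := (g * j.1, j.2)
  invFun j := (g⁻¹ * j.1, j.2)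
  left_inv j := by simp
  right_inv j := by simp

/-- the shift -/
def sh (g : G) (x : Cfg G) : Cfg G := fun j => x (g⁻¹ * j.1, j.2)

theorem sh_eq (g : G) : sh g = fun x : Cfg G => fun j => x ((eg g).symm j) := rfl

theorem sh_one (x : Cfg G) : sh 1 x = x := by
  funext j; simp [sh]

theorem sh_mul (g h : G) (x : Cfg G) : sh (g * h) x = sh g (sh h x) := by
  funext j; simp [sh, mul_assoc]

theorem measurable_sh (g : G) : Measurable (sh g) := by
  rw [sh_eq]; exact measurable_comp_perm (eg g).symm

theorem mp_sh [Countable G] (g : G) : MeasurePreserving (sh g) (coin G) (coin G) :=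
  ⟨measurable_sh g, by rw [sh_eq]; exact coin_perm (eg g).symm⟩

/-- the Walsh coefficient -/
noncomputable def wc [Countable G] (φ : Cfg G → ℝ) (S : Finset (G × ℕ)) : ℝ :=
  ∫ x, walsh S x * φ x ∂(coin G)

theorem wc_sh [Countable G] (φ : Cfg G → ℝ) (hφ : Measurable φ) (g : G) (S : Finset (G × ℕ)) :
    wc (fun x => φ (sh g x)) S = wc φ (S.map (eg g).toEmbedding) :=
  coeff_transform (coin G) (eg g) (coin_perm (eg g)) φ hφ S

theorem wc_pars [Countable G] (φ : Cfg G → ℝ) (hφ : MemLp φ 2 (coin G)) :
    HasSum (fun S => wc φ S ^ 2) (∫ x, φ x ^ 2 ∂(coin G)) := by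
  classical
  exact parseval (coin G) (fun i => coin_add _) φ hφ

open Classical in
/-- centred indicator -/
noncomputable def ci [Countable G] (B : Set (Cfg G)) (x : Cfg G) : ℝ :=
  (if x ∈ B then 1 else 0) - (coin G).real B

theorem measurable_ci [Countable G] {B : Set (Cfg G)} (hB : MeasurableSet B) :
    Measurable (ci B) :=
  (Measurable.ite hB measurable_const measurable_const).sub measurable_const

theorem abs_ci_le [Countable G] (B : Set (Cfg G)) (x : Cfg G) : |ci B x| ≤ 2 := by
  have h0 : 0 ≤ (coin G).real B := measureReal_nonneg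
  have h1 : (coin G).real B ≤ 1 := measureReal_le_one
  unfold ci
  split_ifs <;> rw [abs_le] <;> constructor <;> linarith

theorem memLp_ci [Countable G] {B : Set (Cfg G)} (hB : MeasurableSet B) :
    MemLp (ci B) 2 (coin G) :=
  MemLp.of_bound (measurable_ci hB).aestronglyMeasurable 2
    (Eventually.of_forall fun x => by rw [Real.norm_eq_abs]; exact abs_ci_le B x)

theorem integral_ind [Countable G] {B : Set (Cfg G)} (hB : MeasurableSet B) :
    ∫ x, B.indicator (fun _ => (1 : ℝ)) x ∂(coin G) = (coin G).real B := by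
  rw [integral_indicator hB]; simp

theorem integral_ci [Countable G] {B : Set (Cfg G)} (hB : MeasurableSet B) :
    ∫ x, ci B x ∂(coin G) = 0 := by
  have h1 : ∀ x, ci B x = B.indicator (fun _ => (1 : ℝ)) x - (coin G).real B := by
    intro x; unfold ci Set.indicator; split_ifs <;> rfl
  rw [integral_congr_ae (Eventually.of_forall h1), integral_sub, integral_ind hB]
  · simp
  · exact (integrable_const (1 : ℝ)).indicator hB
  · exact integrable_const _

theorem integral_ci_sq [Countable G] {B : Set (Cfg G)} (hB : MeasurableSet B) :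
    ∫ x, ci B x ^ 2 ∂(coin G) = (coin G).real B * (1 - (coin G).real B) := by
  set p := (coin G).real B with hp
  have h1 : ∀ x, ci B x ^ 2 = (1 - 2 * p) * B.indicator (fun _ => (1 : ℝ)) x + p ^ 2 := by
    intro x; unfold ci Set.indicator; rw [← hp]; split_ifs <;> ring
  rw [integral_congr_ae (Eventually.of_forall h1), integral_add, integral_const_mul,
    integral_ind hB, ← hp]
  · simp; ring
  · exact ((integrable_const (1 : ℝ)).indicator hB).const_mul _
  · exact integrable_const _

/-- the set of disagreement -/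
def dis (g : G) (B : Set (Cfg G)) : Set (Cfg G) := {x | ¬ (sh g x ∈ B ↔ x ∈ B)}

theorem measurableSet_dis (g : G) {B : Set (Cfg G)} (hB : MeasurableSet B) :
    MeasurableSet (dis g B) := by
  have : dis g B = ((sh g ⁻¹' B) \ B) ∪ (B \ (sh g ⁻¹' B)) := by
    ext x
    simp only [dis, Set.mem_ofPred_eq, Set.mem_union, Set.mem_sdiff, Set.mem_preimage]
    tauto
  rw [this]
  exact ((measurable_sh g hB).diff hB).union (hB.diff (measurable_sh g hB))

theorem integral_ci_diff [Countable G] (g : G) {B : Set (Cfg G)} (hB : MeasurableSet B) :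
    ∫ x, (ci B (sh g x) - ci B x) ^ 2 ∂(coin G) = (coin G).real (dis g B) := by
  classical
  rw [← integral_ind (measurableSet_dis g hB)]
  refine integral_congr_ae (Eventually.of_forall fun x => ?_)
  show (ci B (sh g x) - ci B x) ^ 2 = (dis g B).indicator (fun _ => (1 : ℝ)) x
  unfold ci
  by_cases h1 : sh g x ∈ B <;> by_cases h2 : x ∈ B
  · rw [if_pos h1, if_pos h2, Set.indicator_of_notMem]
    · ring
    · simp [dis, h1, h2]
  · rw [if_pos h1, if_neg h2, Set.indicator_of_mem]
    · ring
    · simp [dis, h1, h2]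
  · rw [if_neg h1, if_pos h2, Set.indicator_of_mem]
    · ring
    · simp [dis, h1, h2]
  · rw [if_neg h1, if_neg h2, Set.indicator_of_notMem]
    · ring
    · simp [dis, h1, h2]

theorem wc_empty [Countable G] {B : Set (Cfg G)} (hB : MeasurableSet B) :
    wc (ci B) ∅ = 0 := by
  unfold wc
  simp only [walsh_empty, ContinuousMap.one_apply, one_mul]
  exact integral_ci hB

theorem hasSum_ci [Countable G] {B : Set (Cfg G)} (hB : MeasurableSet B) :
    HasSum (fun S => wc (ci B) S ^ 2) ((coin G).real B * (1 - (coin G).real B)) := by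
  rw [← integral_ci_sq hB]; exact wc_pars _ (memLp_ci hB)

theorem hasSum_diff [Countable G] (g : G) {B : Set (Cfg G)} (hB : MeasurableSet B) :
    HasSum (fun S => (wc (ci B) (S.map (eg g).toEmbedding) - wc (ci B) S) ^ 2)
      ((coin G).real (dis g B)) := by
  rw [← integral_ci_diff g hB]
  have h1 : MemLp (fun x => ci B (sh g x) - ci B x) 2 (coin G) :=
    MemLp.sub ((memLp_ci hB).comp_measurePreserving (mp_sh g)) (memLp_ci hB)
  have h2 := wc_pars _ h1
  have hb : ∀ ψ : Cfg G → ℝ, Measurable ψ → (∀ x, |ψ x| ≤ 2) → ∀ S : Finset (G × ℕ),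
      Integrable (fun x => walsh S x * ψ x) (coin G) := by
    intro ψ hψ hb S
    refine Integrable.of_bound ((measurable_walsh S).mul hψ).aestronglyMeasurable 2
      (Eventually.of_forall fun x => ?_)
    rw [Real.norm_eq_abs, abs_mul]
    rcases walsh_abs S x with h | h <;> rw [h] <;> simpa using hb x
  have h3 : ∀ S, wc (fun x => ci B (sh g x) - ci B x) S
      = wc (ci B) (S.map (eg g).toEmbedding) - wc (ci B) S := by
    intro S
    rw [← wc_sh (ci B) (measurable_ci hB) g S]
    have hi1 := hb (fun x => ci B (sh g x)) ((measurable_ci hB).comp (measurable_sh g))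
      (fun x => abs_ci_le B _) S
    have hi2 := hb _ (measurable_ci hB) (abs_ci_le B) S
    have hi3 := integral_sub hi1 hi2
    show ∫ x, walsh S x * (ci B (sh g x) - ci B x) ∂coin G
      = ∫ x, walsh S x * ci B (sh g x) ∂coin G - ∫ x, walsh S x * ci B x ∂coin G
    rw [← hi3]
    refine integral_congr_ae (Eventually.of_forall fun x => ?_)
    show walsh S x * (ci B (sh g x) - ci B x) = walsh S x * ci B (sh g x) - walsh S x * ci B x
    ring
  have h4 : (fun S => wc (fun x => ci B (sh g x) - ci B x) S ^ 2)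
      = fun S => (wc (ci B) (S.map (eg g).toEmbedding) - wc (ci B) S) ^ 2 := by
    funext S; rw [h3 S]
  rwa [h4] at h2

/-! ### Means -/

open Classical in
/-- the uniform measure of a finite set of indices, pushed to the group -/
noncomputable def wt (S : Finset (G × ℕ)) (A : Set G) : ℝ :=
  ((S.filter (fun i => i.1 ∈ A)).card : ℝ) / (S.card : ℝ)

omit [Group G] in
theorem wt_nonneg (S : Finset (G × ℕ)) (A : Set G) : 0 ≤ wt S A := by
  unfold wt; positivity

omit [Group G] in
theorem wt_le_one (S : Finset (G × ℕ)) (A : Set G) : wt S A ≤ 1 := by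
  classical
  unfold wt
  apply div_le_one_of_le₀ _ (by positivity)
  exact_mod_cast Finset.card_filter_le _ _

omit [Group G] in
theorem wt_univ {S : Finset (G × ℕ)} (hS : S ≠ ∅) : wt S univ = 1 := by
  classical
  unfold wt
  have h : (S.card : ℝ) ≠ 0 := by
    rw [Nat.cast_ne_zero]; exact Finset.card_ne_zero.2 (Finset.nonempty_iff_ne_empty.2 hS)
  rw [div_eq_one_iff_eq h, Nat.cast_inj]
  congr 1
  ext i
  simp

omit [Group G] in
theorem wt_union (S : Finset (G × ℕ)) {A B : Set G} (h : Disjoint A B) :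
    wt S (A ∪ B) = wt S A + wt S B := by
  classical
  unfold wt
  rw [← add_div, ← Nat.cast_add, ← Finset.card_union_of_disjoint]
  · congr 3
    ext i
    simp only [Finset.mem_filter, Finset.mem_union, Set.mem_union]
    tauto
  · rw [Finset.disjoint_filter]
    intro i _ h1 h2
    exact Set.disjoint_left.1 h h1 h2

theorem wt_map (S : Finset (G × ℕ)) (g : G) (A : Set G) :
    wt (S.map (eg g).toEmbedding) ((fun x => g * x) '' A) = wt S A := by
  classical
  unfold wt
  rw [Finset.card_map, Finset.filter_map, Finset.card_map]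
  congr 3
  ext i
  simp [eg]

/-- the mean attached to a square summable family -/
noncomputable def mean (c : Finset (G × ℕ) → ℝ) (v : ℝ) (A : Set G) : ℝ :=
  (∑' S, c S ^ 2 * wt S A) / v

omit [Group G] in
theorem summ {c : Finset (G × ℕ) → ℝ} {v : ℝ} (h : HasSum (fun S => c S ^ 2) v) (A : Set G) :
    Summable (fun S => c S ^ 2 * wt S A) := by
  refine Summable.of_nonneg_of_le (fun S => ?_) (fun S => ?_) h.summable
  · exact mul_nonneg (sq_nonneg _) (wt_nonneg S A)
  · exact mul_le_of_le_one_right (sq_nonneg _) (wt_le_one S A)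

omit [Group G] in
theorem mean_nonneg {c : Finset (G × ℕ) → ℝ} {v : ℝ} (hv : 0 < v) (A : Set G) :
    0 ≤ mean c v A :=
  div_nonneg (tsum_nonneg fun S => mul_nonneg (sq_nonneg _) (wt_nonneg S A)) hv.le

omit [Group G] in
theorem mean_le_one {c : Finset (G × ℕ) → ℝ} {v : ℝ} (h : HasSum (fun S => c S ^ 2) v)
    (hv : 0 < v) (A : Set G) : mean c v A ≤ 1 := by
  unfold mean
  rw [div_le_one hv, ← h.tsum_eq]
  exact (summ h A).tsum_le_tsum (fun S => mul_le_of_le_one_right (sq_nonneg _) (wt_le_one S A))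
    h.summable

omit [Group G] in
theorem mean_univ {c : Finset (G × ℕ) → ℝ} {v : ℝ} (h : HasSum (fun S => c S ^ 2) v)
    (hv : 0 < v) (h0 : c ∅ = 0) : mean c v univ = 1 := by
  unfold mean
  rw [div_eq_one_iff_eq hv.ne', ← h.tsum_eq]
  refine tsum_congr fun S => ?_
  by_cases hS : S = ∅
  · rw [hS, h0]; simp
  · rw [wt_univ hS, mul_one]

omit [Group G] in
theorem mean_union {c : Finset (G × ℕ) → ℝ} {v : ℝ} (h : HasSum (fun S => c S ^ 2) v)
    {A B : Set G} (hAB : Disjoint A B) : mean c v (A ∪ B) = mean c v A + mean c v B := by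
  unfold mean
  rw [← add_div, ← (summ h A).tsum_add (summ h B)]
  congr 1
  refine tsum_congr fun S => ?_
  rw [wt_union S hAB, mul_add]

/-- the action on finite sets of indices -/
noncomputable def eF (g : G) : Finset (G × ℕ) ≃ Finset (G × ℕ) := (eg g).finsetCongr

theorem mean_shift {c : Finset (G × ℕ) → ℝ} {v d l : ℝ} (h : HasSum (fun S => c S ^ 2) v)
    (hv : 0 < v) (g : G)
    (hd : HasSum (fun S => (c (S.map (eg g).toEmbedding) - c S) ^ 2) d) (hl : 0 < l)
    (A : Set G) :
    |mean c v ((fun x => g * x) '' A) - mean c v A| ≤ (l * d / 2 + 2 * v / l) / v := by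
  have hF : ∀ S, eF g S = S.map (eg g).toEmbedding := fun S => rfl
  have h1 : HasSum (fun S : Finset (G × ℕ) => c (S.map (eg g).toEmbedding) ^ 2) v := by
    have := (eF g).hasSum_iff (f := fun S => c S ^ 2) (a := v)
    exact this.2 h
  have h2 : ∑' S, c S ^ 2 * wt S ((fun x => g * x) '' A)
      = ∑' S, c (S.map (eg g).toEmbedding) ^ 2 * wt S A := by
    rw [← (eF g).tsum_eq (fun S => c S ^ 2 * wt S ((fun x => g * x) '' A))]
    refine tsum_congr fun S => ?_
    rw [hF, wt_map]
  unfold mean
  rw [h2, ← sub_div, abs_div, abs_of_pos hv]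
  apply div_le_div_of_nonneg_right _ hv.le
  rw [← (summ h1 A).tsum_sub (summ h A)]
  have hmaj : HasSum (fun S : Finset (G × ℕ) => l / 2 * (c (S.map (eg g).toEmbedding) - c S) ^ 2
      + 1 / l * (c (S.map (eg g).toEmbedding) ^ 2 + c S ^ 2)) (l / 2 * d + 1 / l * (v + v)) :=
    (hd.mul_left _).add ((h1.add h).mul_left _)
  have hterm : ∀ S, ‖c (S.map (eg g).toEmbedding) ^ 2 * wt S A - c S ^ 2 * wt S A‖
      ≤ l / 2 * (c (S.map (eg g).toEmbedding) - c S) ^ 2
      + 1 / l * (c (S.map (eg g).toEmbedding) ^ 2 + c S ^ 2) := by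
    intro S
    set a := c (S.map (eg g).toEmbedding)
    set b := c S
    have e1 : a ^ 2 * wt S A - b ^ 2 * wt S A = ((a - b) * (a + b)) * wt S A := by ring
    rw [e1, Real.norm_eq_abs, abs_mul, abs_of_nonneg (wt_nonneg S A)]
    refine le_trans (mul_le_of_le_one_right (abs_nonneg _) (wt_le_one S A)) ?_
    have e2 : (0 : ℝ) ≤ (l * |a - b| - |a + b|) ^ 2 := sq_nonneg _
    have e3 : |a - b| ^ 2 = (a - b) ^ 2 := sq_abs _
    have e4 : |a + b| ^ 2 = (a + b) ^ 2 := sq_abs _
    have e5 : (a + b) ^ 2 ≤ 2 * (a ^ 2 + b ^ 2) := by nlinarith [sq_nonneg (a - b)]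
    rw [abs_mul]
    have e6 : 2 * l * (|a - b| * |a + b|) ≤ l ^ 2 * (a - b) ^ 2 + 2 * (a ^ 2 + b ^ 2) := by
      nlinarith
    have e7 : l / 2 * (a - b) ^ 2 + 1 / l * (a ^ 2 + b ^ 2)
        = (l ^ 2 * (a - b) ^ 2 + 2 * (a ^ 2 + b ^ 2)) / (2 * l) := by
      field_simp
    rw [e7, le_div_iff₀ (by positivity)]
    linarith
  have hs := Summable.of_norm_bounded hmaj.summable hterm
  calc |∑' S, (c (S.map (eg g).toEmbedding) ^ 2 * wt S A - c S ^ 2 * wt S A)|
      ≤ ∑' S, (l / 2 * (c (S.map (eg g).toEmbedding) - c S) ^ 2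
      + 1 / l * (c (S.map (eg g).toEmbedding) ^ 2 + c S ^ 2)) := by
        rw [← Real.norm_eq_abs]
        exact tsum_of_norm_bounded hmaj hterm |>.trans_eq hmaj.tsum_eq.symm
    _ = l * d / 2 + 2 * v / l := by
        rw [hmaj.tsum_eq]; ring

/-- **Spectral gap.** -/
theorem gap [Countable G] (hG : ¬ Amen G) : ∃ (F : Finset G) (κ : ℝ), 0 < κ ∧
    ∀ B : Set (Cfg G), MeasurableSet B →
      κ * ((coin G).real B * (1 - (coin G).real B)) ≤ ∑ g ∈ F, (coin G).real (dis g B) := by
  by_contra hcon
  push Not at hcon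
  apply hG
  classical
  obtain ⟨f, hf⟩ := exists_surjective_nat G
  have hex : ∀ n : ℕ, ∃ B : Set (Cfg G), MeasurableSet B ∧
      ∑ g ∈ (Finset.range (n + 1)).image f, (coin G).real (dis g B)
        < 1 / ((n : ℝ) + 1) ^ 2 * ((coin G).real B * (1 - (coin G).real B)) :=
    fun n => hcon _ _ (by positivity)
  choose B hB hBn using hex
  set v : ℕ → ℝ := fun n => (coin G).real (B n) * (1 - (coin G).real (B n)) with hv
  have hvpos : ∀ n, 0 < v n := by
    intro n
    by_contra hle
    push Not at hle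
    have h1 := hBn n
    have h2 : 0 ≤ ∑ g ∈ (Finset.range (n + 1)).image f, (coin G).real (dis g (B n)) :=
      Finset.sum_nonneg fun _ _ => measureReal_nonneg
    have h3 : 1 / ((n : ℝ) + 1) ^ 2 * v n ≤ 0 :=
      mul_nonpos_of_nonneg_of_nonpos (by positivity) hle
    have h4 : (coin G).real (B n) * (1 - (coin G).real (B n)) = v n := rfl
    rw [h4] at h1
    linarith
  set c : ℕ → Finset (G × ℕ) → ℝ := fun n => wc (ci (B n)) with hc
  have hcs : ∀ n, HasSum (fun S => c n S ^ 2) (v n) := fun n => hasSum_ci (hB n)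
  have hc0 : ∀ n, c n ∅ = 0 := fun n => wc_empty (hB n)
  set M : ℕ → Set G → unitInterval := fun n A =>
    ⟨mean (c n) (v n) A, mean_nonneg (hvpos n) A, mean_le_one (hcs n) (hvpos n) A⟩ with hM
  set U : Ultrafilter (Set G → unitInterval) := (hyperfilter ℕ).map M with hU
  have hlim : (U : Filter (Set G → unitInterval)) ≤ 𝓝 U.lim := U.le_nhds_lim
  have htend : Tendsto M (hyperfilter ℕ) (𝓝 U.lim) := hlim
  set m : Set G → ℝ := fun A => (U.lim A : ℝ) with hm
  have hmt : ∀ A, Tendsto (fun n => mean (c n) (v n) A) (hyperfilter ℕ) (𝓝 (m A)) := by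
    intro A
    have h1 : Tendsto (fun n => M n A) (hyperfilter ℕ) (𝓝 (U.lim A)) :=
      (tendsto_pi_nhds.1 htend) A
    exact (continuous_subtype_val.tendsto _).comp h1
  refine ⟨m, fun A => (U.lim A).2.1, ?_, ?_, ?_⟩
  · refine tendsto_nhds_unique (hmt univ) ?_
    refine tendsto_const_nhds.congr fun n => ?_
    exact (mean_univ (hcs n) (hvpos n) (hc0 n)).symm
  · intro A A' hAA
    refine tendsto_nhds_unique (hmt (A ∪ A')) ?_
    refine ((hmt A).add (hmt A')).congr fun n => ?_
    exact (mean_union (hcs n) hAA).symm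
  · intro g A
    obtain ⟨k, rfl⟩ := hf g
    have h1 : Tendsto (fun n => mean (c n) (v n) ((fun x => f k * x) '' A)
        - mean (c n) (v n) A) (hyperfilter ℕ) (𝓝 (m ((fun x => f k * x) '' A) - m A)) :=
      (hmt _).sub (hmt A)
    have h2 : Tendsto (fun n => mean (c n) (v n) ((fun x => f k * x) '' A)
        - mean (c n) (v n) A) atTop (𝓝 0) := by
      refine squeeze_zero_norm' (a := fun n : ℕ => 5 / 2 * (1 / ((n : ℝ) + 1))) ?_ ?_
      · filter_upwards [eventually_ge_atTop k] with n hn
        rw [Real.norm_eq_abs]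
        have hpos : (0 : ℝ) < (n : ℝ) + 1 := by positivity
        refine le_trans (mean_shift (hcs n) (hvpos n) (f k) (hasSum_diff (f k) (hB n)) hpos A) ?_
        have hd : (coin G).real (dis (f k) (B n)) ≤ 1 / ((n : ℝ) + 1) ^ 2 * v n := by
          refine le_trans ?_ (hBn n).le
          exact Finset.single_le_sum (f := fun g => (coin G).real (dis g (B n)))
            (fun _ _ => measureReal_nonneg)
            (Finset.mem_image.2 ⟨k, Finset.mem_range.2 (by omega), rfl⟩)
        rw [div_le_iff₀ (hvpos n)]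
        have e1 : ((n : ℝ) + 1) * (coin G).real (dis (f k) (B n)) / 2
            ≤ ((n : ℝ) + 1) * (1 / ((n : ℝ) + 1) ^ 2 * v n) / 2 := by
          have := mul_le_mul_of_nonneg_left hd hpos.le
          linarith
        have e2 : ((n : ℝ) + 1) * (1 / ((n : ℝ) + 1) ^ 2 * v n) / 2 + 2 * v n / ((n : ℝ) + 1)
            = 5 / 2 * (1 / ((n : ℝ) + 1)) * v n := by
          field_simp; ring
        linarith
      · have := tendsto_one_div_add_atTop_nhds_zero_nat (𝕜 := ℝ)
        simpa using this.const_mul (5 / 2)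
    have h3 := h2.mono_left (Nat.hyperfilter_le_atTop)
    have h4 := tendsto_nhds_unique h1 h3
    linarith

end Q70.Wd
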