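import Mathlib
import Pool.Agent.Q70.WdA

set_option autoImplicit false

/-! Two copies of the Bernoulli shift with weights `t` and `1 - t`. -/

open MeasureTheory Set Filter Topology

namespace Q70.Wd

open Pool.Agent.H25R3.RE

variable {G : Type} [Group G]

theorem sh_inv_sh (g : G) (x : Cfg G) : sh g⁻¹ (sh g x) = x := by
  rw [← sh_mul, inv_mul_cancel, sh_one]

theorem sh_sh_inv (g : G) (x : Cfg G) : sh g (sh g⁻¹ x) = x := by
  rw [← sh_mul, mul_inv_cancel, sh_one]

theorem sh_inj (g : G) : Function.Injective (sh (G := G) g) := by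
  intro x y h
  rw [← sh_inv_sh g x, h, sh_inv_sh]

theorem image_sh (g : G) (W : Set (Cfg G)) : sh g '' W = sh g⁻¹ ⁻¹' W := by
  ext x
  constructor
  · rintro ⟨y, hy, rfl⟩
    rw [mem_preimage, sh_inv_sh]; exact hy
  · intro hx
    exact ⟨_, hx, sh_sh_inv g x⟩

theorem real_dis [Countable G] (g : G) {E : Set (Cfg G)} (hE : MeasurableSet E) :
    (coin G).real (dis g E) = 2 * ((coin G).real E - (coin G).real (sh g '' E ∩ E)) := by
  have hm := measurable_sh g hE
  have h1 : dis g E = ((sh g ⁻¹' E) \ E) ∪ (E \ (sh g ⁻¹' E)) := by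
    ext x
    simp only [dis, Set.mem_ofPred_eq, Set.mem_union, Set.mem_sdiff, Set.mem_preimage]
    tauto
  have h2 : (coin G).real (sh g '' E ∩ E) = (coin G).real (E ∩ sh g ⁻¹' E) := by
    have e1 : sh g '' E ∩ E = sh g '' (E ∩ sh g ⁻¹' E) := by
      ext x
      constructor
      · rintro ⟨⟨y, hy, rfl⟩, h⟩
        exact ⟨y, ⟨hy, h⟩, rfl⟩
      · rintro ⟨y, ⟨hy, h⟩, rfl⟩
        exact ⟨⟨y, hy, rfl⟩, h⟩
    rw [e1, image_sh]
    exact (mp_sh g⁻¹).measureReal_preimage ((hE.inter hm).nullMeasurableSet)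
  have h3 : (coin G).real (sh g ⁻¹' E) = (coin G).real E :=
    (mp_sh g).measureReal_preimage hE.nullMeasurableSet
  have h4 : (coin G).real ((sh g ⁻¹' E) \ E) + (coin G).real (E ∩ sh g ⁻¹' E)
      = (coin G).real (sh g ⁻¹' E) := by
    rw [inter_comm]; exact measureReal_diff_add_inter hE
  have h5 : (coin G).real (E \ (sh g ⁻¹' E)) + (coin G).real (E ∩ sh g ⁻¹' E)
      = (coin G).real E := measureReal_diff_add_inter hm
  rw [h1, measureReal_union _ (hE.diff hm), h2]
  · linarith
  · exact disjoint_left.2 fun x h6 h7 => h6.2 h7.1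

open Classical in
theorem flip_measurable (i : G × ℕ) :
    Measurable (fun x : Cfg G => x + (Pi.single i 1 : Cfg G)) := measurable_add_const' _

open Classical in
theorem fix_null [Countable G] (g : G) (hg : g ≠ 1) : coin G {x | sh g x = x} = 0 := by
  set S : Set (Cfg G) := {x | ∀ m : ℕ, x (g⁻¹, m) = x (1, m)} with hS
  have hsub : {x | sh g x = x} ⊆ S := by
    intro x hx m
    have := congrFun (show sh g x = x from hx) (1, m)
    simpa [sh] using this
  have hne : g⁻¹ ≠ 1 := by simpa using hg
  have hSm : MeasurableSet S := by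
    have : S = ⋂ m : ℕ, {x : Cfg G | x (g⁻¹, m) = x (1, m)} := by ext x; simp [hS]
    rw [this]
    exact MeasurableSet.iInter fun m =>
      measurableSet_eq_fun (measurable_pi_apply _) (measurable_pi_apply _)
  refine measure_mono_null hsub ?_
  refine null_of_disjoint (coin G) S hSm
    (fun n x => x + (Pi.single ((1 : G), n) 1 : Cfg G)) (fun n => flip_measurable _)
    (fun n => coin_add _) ?_
  intro n n' hnn
  rw [disjoint_left]
  intro x hx hx'
  have h1 := hx n
  have h2 := hx' n
  have e1 : (Pi.single ((1 : G), n) 1 : Cfg G) (g⁻¹, n) = 0 :=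
    Pi.single_eq_of_ne (by intro h; exact hne (congrArg Prod.fst h)) _
  have e2 : (Pi.single ((1 : G), n) 1 : Cfg G) (1, n) = 1 := Pi.single_eq_same _ _
  have e3 : (Pi.single ((1 : G), n') 1 : Cfg G) (g⁻¹, n) = 0 :=
    Pi.single_eq_of_ne (by intro h; exact hne (congrArg Prod.fst h)) _
  have e4 : (Pi.single ((1 : G), n') 1 : Cfg G) (1, n) = 0 :=
    Pi.single_eq_of_ne (by intro h; exact hnn (congrArg Prod.snd h)) _
  simp only [Pi.add_apply, e1, e2, e3, e4, add_zero] at h1 h2
  rw [h2] at h1
  have : (1 : ZMod 2) = 0 := by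
    have := h1.symm
    simpa using this
  exact one_ne_zero this

open Classical in
theorem coin_singleton [Countable G] (y : Cfg G) : coin G {y} = 0 := by
  refine null_of_disjoint (coin G) {y} (measurableSet_singleton y)
    (fun n x => x + (Pi.single ((1 : G), n) 1 : Cfg G)) (fun n => flip_measurable _)
    (fun n => coin_add _) ?_
  intro n n' hnn
  rw [disjoint_left]
  intro x hx hx'
  have h0 : x + (Pi.single ((1 : G), n) 1 : Cfg G) = x + (Pi.single ((1 : G), n') 1 : Cfg G) := by
    have h1 : x + (Pi.single ((1 : G), n) 1 : Cfg G) = y := hx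
    have h2 : x + (Pi.single ((1 : G), n') 1 : Cfg G) = y := hx'
    rw [h1, h2]
  have h3 := congrFun (add_left_cancel h0) (1, n)
  rw [Pi.single_eq_same, Pi.single_eq_of_ne (by intro h; exact hnn (congrArg Prod.snd h))] at h3
  exact one_ne_zero h3

/-! ### Two copies -/

/-- two copies of the Bernoulli space with weights `t` and `1 - t` -/
noncomputable def nu (G : Type) [Group G] [Countable G] (t : ℝ) : Measure (Cfg G × Bool) :=
  ENNReal.ofReal t • (coin G).map (fun x => (x, true))
    + ENNReal.ofReal (1 - t) • (coin G).map (fun x => (x, false))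

theorem measurable_sec (b : Bool) : Measurable (fun x : Cfg G => (x, b)) :=
  measurable_id.prodMk measurable_const

theorem nu_apply [Countable G] (t : ℝ) {D : Set (Cfg G × Bool)} (hD : MeasurableSet D) :
    nu G t D = ENNReal.ofReal t * coin G {x | (x, true) ∈ D}
      + ENNReal.ofReal (1 - t) * coin G {x | (x, false) ∈ D} := by
  unfold nu
  rw [Measure.add_apply, Measure.smul_apply, Measure.smul_apply,
    Measure.map_apply (measurable_sec true) hD, Measure.map_apply (measurable_sec false) hD]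
  rfl

theorem nu_prob [Countable G] {t : ℝ} (h0 : 0 ≤ t) (h1 : t ≤ 1) :
    IsProbabilityMeasure (nu G t) := by
  refine ⟨?_⟩
  rw [nu_apply t MeasurableSet.univ]
  simp only [mem_univ, Set.ofPred_true, measure_univ, mul_one]
  rw [← ENNReal.ofReal_add h0 (by linarith)]
  simp

theorem nu_real [Countable G] {t : ℝ} (h0 : 0 ≤ t) (h1 : t ≤ 1) {D : Set (Cfg G × Bool)}
    (hD : MeasurableSet D) :
    (nu G t).real D = t * (coin G).real {x | (x, true) ∈ D}
      + (1 - t) * (coin G).real {x | (x, false) ∈ D} := by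
  unfold Measure.real
  rw [nu_apply t hD, ENNReal.toReal_add (ENNReal.mul_ne_top ENNReal.ofReal_ne_top
    (measure_ne_top _ _)) (ENNReal.mul_ne_top ENNReal.ofReal_ne_top (measure_ne_top _ _)),
    ENNReal.toReal_mul, ENNReal.toReal_mul, ENNReal.toReal_ofReal h0,
    ENNReal.toReal_ofReal (by linarith)]

theorem nu_null [Countable G] (t : ℝ) {D : Set (Cfg G × Bool)} (hD : MeasurableSet D)
    (h : ∀ b, coin G {x | (x, b) ∈ D} = 0) : nu G t D = 0 := by
  rw [nu_apply t hD, h true, h false]; simp

theorem nu_atomless [Countable G] (t : ℝ) : NullSingletonClass (nu G t) := by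
  refine ⟨fun p => nu_null t (measurableSet_singleton p) fun b => ?_⟩
  refine measure_mono_null (t := {p.1}) ?_ (coin_singleton p.1)
  intro x hx
  exact congrArg Prod.fst (show (x, b) = p from hx)

/-- the action on two copies -/
def sh2 (g : G) (p : Cfg G × Bool) : Cfg G × Bool := (sh g p.1, p.2)

theorem sh2_one (p : Cfg G × Bool) : sh2 1 p = p := by unfold sh2; rw [sh_one]

theorem sh2_mul (g h : G) (p : Cfg G × Bool) : sh2 (g * h) p = sh2 g (sh2 h p) := by
  unfold sh2; rw [sh_mul]

theorem measurable_sh2 (g : G) : Measurable (sh2 g) :=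
  ((measurable_sh g).comp measurable_fst).prodMk measurable_snd

theorem mp_sh2 [Countable G] (t : ℝ) (g : G) : MeasurePreserving (sh2 g) (nu G t) (nu G t) := by
  refine ⟨measurable_sh2 g, ?_⟩
  ext D hD
  rw [Measure.map_apply (measurable_sh2 g) hD, nu_apply t (measurable_sh2 g hD), nu_apply t hD]
  have h : ∀ b, coin G {x | (x, b) ∈ sh2 g ⁻¹' D} = coin G {x | (x, b) ∈ D} := by
    intro b
    have hm : MeasurableSet {x | (x, b) ∈ D} := measurable_sec b hD
    rw [← (mp_sh g).measure_preimage hm.nullMeasurableSet]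
    rfl
  rw [h true, h false]

theorem free_sh2 [Countable G] (t : ℝ) : ∀ᵐ p ∂(nu G t), ∀ g : G, g ≠ 1 → sh2 g p ≠ p := by
  rw [ae_all_iff]
  intro g
  by_cases hg : g = 1
  · exact Eventually.of_forall fun p h => absurd hg h
  rw [ae_iff]
  have hm : MeasurableSet {p : Cfg G × Bool | ¬ (g ≠ 1 → sh2 g p ≠ p)} := by
    have : {p : Cfg G × Bool | ¬ (g ≠ 1 → sh2 g p ≠ p)} = {p | sh2 g p = p} := by
      ext p; simp [hg]
    rw [this]
    exact measurableSet_eq_fun (measurable_sh2 g) measurable_id
  refine nu_null t hm fun b => ?_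
  refine measure_mono_null ?_ (fix_null g hg)
  intro x hx
  have h1 : ¬ (g ≠ 1 → sh2 g (x, b) ≠ (x, b)) := hx
  push Not at h1
  exact congrArg Prod.fst h1.2

theorem image_sh2 (g : G) (D : Set (Cfg G × Bool)) (b : Bool) :
    {x | (x, b) ∈ sh2 g '' D ∩ D} = sh g '' {x | (x, b) ∈ D} ∩ {x | (x, b) ∈ D} := by
  ext x
  constructor
  · rintro ⟨⟨p, hp, h1⟩, h2⟩
    refine ⟨⟨p.1, ?_, congrArg Prod.fst h1⟩, h2⟩
    have : p.2 = b := congrArg Prod.snd h1
    show (p.1, b) ∈ D
    rw [← this]; exact hp
  · rintro ⟨⟨y, hy, h1⟩, h2⟩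
    exact ⟨⟨(y, b), hy, by unfold sh2; rw [h1]⟩, h2⟩

/-- **Rigidity of the weights.** -/
theorem rigid [Countable G] (hG : ¬ Amen G) {t t' : ℝ} (h0 : 0 < t) (h1 : t < 1 / 2)
    (h0' : 0 < t') (h1' : t' < 1 / 2)
    (h : ∀ (F : Finset G) (ε : ℝ), 0 < ε → ∃ D : Set (Cfg G × Bool), MeasurableSet D ∧
      ∀ g ∈ F, |t - (nu G t').real (sh2 g '' D ∩ D)| < ε) : t = t' := by
  classical
  obtain ⟨F, κ, hκ, hgap⟩ := gap hG
  by_contra hne
  -- the distance from `t` to the possible measures
  set ρ : ℝ := min (min t (1 / 2 - t)) |t - t'| / 2 with hρ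
  have hρpos : 0 < ρ := by
    have : 0 < |t - t'| := abs_pos.2 (sub_ne_zero.2 hne)
    have : 0 < min (min t (1 / 2 - t)) |t - t'| := lt_min (lt_min h0 (by linarith)) this
    positivity
  have hρ1 : 2 * ρ ≤ t := by
    rw [hρ]; have := (min_le_left (min t (1 / 2 - t)) |t - t'|).trans (min_le_left _ _); linarith
  have hρ2 : 2 * ρ ≤ 1 / 2 - t := by
    rw [hρ]; have := (min_le_left (min t (1 / 2 - t)) |t - t'|).trans (min_le_right _ _); linarith
  have hρ3 : 2 * ρ ≤ |t - t'| := by
    rw [hρ]; have := min_le_right (min t (1 / 2 - t)) |t - t'|; linarith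
  set N : ℝ := (F.card : ℝ) + 1 with hN
  have hNpos : 0 < N := by positivity
  -- the accuracy
  set ε : ℝ := min (ρ / 4) (κ * t' * ρ / (32 * N)) with hε
  have hεpos : 0 < ε := lt_min (by positivity) (by positivity)
  obtain ⟨D, hD, hDF⟩ := h (insert 1 F) ε hεpos
  have hD1 : |t - (nu G t').real D| < ε := by
    have := hDF 1 (Finset.mem_insert_self _ _)
    have e : sh2 (1 : G) '' D = D := by
      ext p
      constructor
      · rintro ⟨q, hq, rfl⟩; rwa [sh2_one]
      · intro hp; exact ⟨p, hp, sh2_one p⟩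
    rwa [e, inter_self] at this
  set E : Bool → Set (Cfg G) := fun b => {x | (x, b) ∈ D} with hE
  have hEm : ∀ b, MeasurableSet (E b) := fun b => measurable_sec b hD
  set p : Bool → ℝ := fun b => (coin G).real (E b) with hp
  have hp0 : ∀ b, 0 ≤ p b := fun b => measureReal_nonneg
  have hp1 : ∀ b, p b ≤ 1 := fun b => measureReal_le_one
  have hnD : (nu G t').real D = t' * p true + (1 - t') * p false :=
    nu_real h0'.le (by linarith) hD
  have hdis : ∀ g ∈ F, t' * (coin G).real (dis g (E true))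
      + (1 - t') * (coin G).real (dis g (E false)) ≤ 4 * ε := by
    intro g hg
    have h2 := hDF g (Finset.mem_insert_of_mem hg)
    have hm : MeasurableSet (sh2 g '' D ∩ D) := by
      have : sh2 g '' D = sh2 g⁻¹ ⁻¹' D := by
        ext q
        constructor
        · rintro ⟨r, hr, rfl⟩
          rw [mem_preimage, ← sh2_mul, inv_mul_cancel, sh2_one]; exact hr
        · intro hq
          exact ⟨_, hq, by rw [← sh2_mul, mul_inv_cancel, sh2_one]⟩
      rw [this]
      exact (measurable_sh2 g⁻¹ hD).inter hD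
    rw [nu_real h0'.le (by linarith) hm, image_sh2, image_sh2] at h2
    rw [real_dis g (hEm true), real_dis g (hEm false)]
    have h3 := abs_lt.1 h2
    have h4 := abs_lt.1 hD1
    rw [hnD] at h4
    have e1 : (coin G).real (sh g '' E true ∩ E true)
      = (coin G).real (sh g '' {x | (x, true) ∈ D} ∩ {x | (x, true) ∈ D}) := rfl
    have e2 : (coin G).real (sh g '' E false ∩ E false)
      = (coin G).real (sh g '' {x | (x, false) ∈ D} ∩ {x | (x, false) ∈ D}) := rfl
    rw [e1, e2]
    have e3 : (coin G).real (E true) = p true := rfl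
    have e4 : (coin G).real (E false) = p false := rfl
    rw [e3, e4]
    nlinarith [h3.1, h3.2, h4.1, h4.2]
  have hsum : t' * ∑ g ∈ F, (coin G).real (dis g (E true))
      + (1 - t') * ∑ g ∈ F, (coin G).real (dis g (E false)) ≤ N * (4 * ε) := by
    rw [Finset.mul_sum, Finset.mul_sum, ← Finset.sum_add_distrib]
    refine (Finset.sum_le_card_nsmul F _ (4 * ε) hdis).trans ?_
    rw [nsmul_eq_mul, hN]
    nlinarith
  have hs0 : ∀ b, 0 ≤ ∑ g ∈ F, (coin G).real (dis g (E b)) :=
    fun b => Finset.sum_nonneg fun _ _ => measureReal_nonneg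
  have hgt := hgap (E true) (hEm true)
  have hgf := hgap (E false) (hEm false)
  have hεN : N * (4 * ε) ≤ κ * t' * (ρ / 8) := by
    have : ε ≤ κ * t' * ρ / (32 * N) := min_le_right _ _
    have h5 : N * (4 * ε) ≤ N * (4 * (κ * t' * ρ / (32 * N))) := by
      apply mul_le_mul_of_nonneg_left _ hNpos.le; linarith
    refine h5.trans_eq ?_
    field_simp
    ring
  have hvt : p true * (1 - p true) ≤ ρ / 8 := by
    have h6 : t' * (κ * (p true * (1 - p true))) ≤ κ * t' * (ρ / 8) := by
      have := mul_le_mul_of_nonneg_left hgt h0'.le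
      have h7 : 0 ≤ (1 - t') * ∑ g ∈ F, (coin G).real (dis g (E false)) :=
        mul_nonneg (by linarith) (hs0 false)
      have e : (coin G).real (E true) = p true := rfl
      rw [e] at this
      linarith
    have h8 : κ * t' * (p true * (1 - p true)) ≤ κ * t' * (ρ / 8) := by linarith
    exact le_of_mul_le_mul_left h8 (by positivity)
  have hvf : p false * (1 - p false) ≤ ρ / 8 := by
    have h6 : t' * (κ * (p false * (1 - p false))) ≤ κ * t' * (ρ / 8) := by
      have h9 := mul_le_mul_of_nonneg_left hgf (show 0 ≤ 1 - t' by linarith)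
      have h7 : 0 ≤ t' * ∑ g ∈ F, (coin G).real (dis g (E true)) :=
        mul_nonneg h0'.le (hs0 true)
      have e : (coin G).real (E false) = p false := rfl
      rw [e] at h9
      have h10 : 0 ≤ κ * (p false * (1 - p false)) :=
        mul_nonneg hκ.le (mul_nonneg (hp0 _) (by linarith [hp1 false]))
      have h11 : t' * (κ * (p false * (1 - p false)))
          ≤ (1 - t') * (κ * (p false * (1 - p false))) :=
        mul_le_mul_of_nonneg_right (by linarith) h10
      linarith
    have h8 : κ * t' * (p false * (1 - p false)) ≤ κ * t' * (ρ / 8) := by linarith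
    exact le_of_mul_le_mul_left h8 (by positivity)
  have hsplit : ∀ b, p b * (1 - p b) ≤ ρ / 8 → p b ≤ ρ / 4 ∨ 1 - p b ≤ ρ / 4 := by
    intro b hb
    rcases le_total (p b) (1 / 2) with h12 | h12
    · left
      nlinarith [hp0 b]
    · right
      nlinarith [hp1 b]
  have hε1 : ε ≤ ρ / 4 := min_le_left _ _
  have h13 := abs_lt.1 hD1
  rw [hnD] at h13
  have ht0 := hp0 true
  have ht1 := hp1 true
  have hf0 := hp0 false
  have hf1 := hp1 false
  rcases hsplit true hvt with h14 | h14 <;> rcases hsplit false hvf with h15 | h15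
  · nlinarith
  · have : t' * p true ≤ ρ / 4 := by nlinarith
    have : (1 - t') * (1 - p false) ≤ ρ / 4 := by nlinarith
    nlinarith
  · have h16 : t' * (1 - p true) ≤ ρ / 4 := by nlinarith
    have h17 : 0 ≤ t' * (1 - p true) := mul_nonneg h0'.le (by linarith)
    have h18 : (1 - t') * p false ≤ ρ / 4 := by nlinarith
    have h19 : 0 ≤ (1 - t') * p false := mul_nonneg (by linarith) hf0
    have : |t - t'| ≤ ρ := by
      rw [abs_le]; constructor <;> nlinarith
    linarith
  · have h16 : t' * (1 - p true) ≤ ρ / 4 := by nlinarith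
    have h17 : (1 - t') * (1 - p false) ≤ ρ / 4 := by nlinarith
    nlinarith

end Q70.Wd
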