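import Pool.Agent.Q70.WeakInterp

/-!
# Syndetic sets are not weak interpolation sets of order 2 for totally transitive systems
-/

open Filter Topology

namespace Q70.WeakInterp

universe u

theorem surjective_of_transitive {X : Type u} [TopologicalSpace X] [T2Space X] [CompactSpace X]
    {T : X → X} (hT : Continuous T) (h : Transitive T) : Function.Surjective T := by
  have hclosed : IsClosed (Set.range T) := (isCompact_range hT).isClosed
  have hdense : Dense (Set.range T) := by
    rw [dense_iff_inter_open]
    intro V hV hVne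
    obtain ⟨n, hn, x, -, hx⟩ := h V V hV hV hVne hVne
    refine ⟨T^[n] x, hx, ?_⟩
    obtain ⟨k, rfl⟩ : ∃ k, n = k + 1 := ⟨n - 1, by omega⟩
    rw [Function.iterate_succ_apply']
    exact ⟨_, rfl⟩
  intro y
  have : y ∈ closure (Set.range T) := hdense y
  rwa [hclosed.closure_eq] at this

/-- In a totally transitive system the orbit of a transitive point along any residue class is
dense. -/
theorem dense_residue (A : TDS.{u}) (hA : A.TotallyTransitive) {x : A.X}
    (hx : A.IsTransitivePoint x) {m : ℕ} (hm : 1 ≤ m) (r : ℕ) :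
    Dense (Set.range fun k : ℕ => A.T^[m * k + r] x) := by
  have hT := A.continuous_T
  have hsurj : Function.Surjective A.T := by
    have h1 := hA 1 le_rfl
    rw [Function.iterate_one] at h1
    exact surjective_of_transitive hT h1
  -- some residue class has a closure with nonempty interior
  have hcov : (⋃ i : Fin m, closure (Set.range fun k : ℕ => A.T^[m * k + i] x)) = Set.univ := by
    have hcl : IsClosed (⋃ i : Fin m, closure (Set.range fun k : ℕ => A.T^[m * k + i] x)) :=
      isClosed_iUnion_of_finite fun i => isClosed_closure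
    apply Set.eq_univ_of_univ_subset
    rw [← hx.closure_eq]
    refine hcl.closure_subset_iff.2 ?_
    rintro _ ⟨n, rfl⟩
    rw [Set.mem_iUnion]
    refine ⟨⟨n % m, Nat.mod_lt _ hm⟩, subset_closure ⟨n / m, ?_⟩⟩
    simp only
    rw [Nat.div_add_mod]
  have : Nonempty A.X := ⟨x⟩
  obtain ⟨i, hi⟩ := nonempty_interior_of_iUnion_of_closed
    (f := fun i : Fin m => closure (Set.range fun k : ℕ => A.T^[m * k + i] x))
    (fun i => isClosed_closure) hcov
  -- its closure is everything
  have hall : closure (Set.range fun k : ℕ => A.T^[m * k + i] x) = Set.univ := by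
    apply Set.eq_univ_of_forall
    intro y
    rw [mem_closure_iff]
    intro V hV hyV
    obtain ⟨n, hn, u, hu, hun⟩ := hA m hm _ V isOpen_interior hV hi ⟨y, hyV⟩
    have huc : u ∈ closure (Set.range fun k : ℕ => A.T^[m * k + i] x) := interior_subset hu
    have hcont : Continuous ((A.T^[m])^[n]) := (hT.iterate m).iterate n
    rw [mem_closure_iff] at huc
    obtain ⟨_, hv, k, rfl⟩ := huc _ (hV.preimage hcont) hun
    refine ⟨_, hv, k + n, ?_⟩
    have e : m * (k + n) + i = m * n + (m * k + i) := by ring
    change A.T^[m * (k + n) + i] x = _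
    rw [e, ← Function.iterate_mul, ← Function.iterate_add_apply]
  -- transport to the class of `r`
  rw [dense_iff_inter_open]
  intro V hV hVne
  obtain ⟨j, hj⟩ : ∃ j : ℕ, i.1 + j ≡ r [MOD m] ∧ r ≤ i.1 + j := by
    refine ⟨r + (m - i.1), ?_, by omega⟩
    have : i.1 + (r + (m - i.1)) = r + m := by have := i.2; omega
    rw [this]
    exact Nat.add_modEq_right
  have hcont : Continuous (A.T^[j]) := hT.iterate j
  obtain ⟨v, hv⟩ := hVne
  obtain ⟨u, hu⟩ := hsurj.iterate j v
  have hune : u ∈ closure (Set.range fun k : ℕ => A.T^[m * k + i] x) := by rw [hall]; trivial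
  rw [mem_closure_iff] at hune
  obtain ⟨_, hw, k, rfl⟩ := hune _ (hV.preimage hcont) (by rw [Set.mem_preimage, hu]; exact hv)
  rw [Set.mem_preimage, ← Function.iterate_add_apply] at hw
  obtain ⟨q, hq⟩ : ∃ q, i.1 + j = m * q + r := by
    have h1 := (Nat.modEq_iff_dvd' hj.2).1 hj.1.symm
    obtain ⟨q, hq⟩ := h1
    exact ⟨q, by omega⟩
  refine ⟨_, hw, k + q, ?_⟩
  have e : m * (k + q) + r = j + (m * k + i.1) := by rw [mul_add]; omega
  change A.T^[m * (k + q) + r] x = _
  rw [e]

/-- **No syndetic set is a weak interpolation set of order 2 for totally transitive systems.** -/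
theorem not_syndetic {S : Set ℕ} (hS : Syndetic S) :
    ¬ IsWeakInterpolationSet TDS.TotallyTransitive.{u} 2 S := by
  classical
  obtain ⟨L, hL⟩ := hS
  intro h
  -- the periodic word containing all words of length `L + 1`
  set K := L + 1 with hK
  set z : ℕ → Bool := fun n => Nat.testBit ((n / K) % 2 ^ K) (n % K) with hz
  obtain ⟨A, hA, x, hx, F, hF, hFS⟩ := h (fun n => if z n then 0 else 1) (by
    intro n _
    split_ifs <;> norm_num)
  have hT := A.continuous_T
  have hsurj : Function.Surjective A.T := by
    have h1 := hA 1 le_rfl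
    rw [Function.iterate_one] at h1
    exact surjective_of_transitive hT h1
  -- the word read at `x`
  set P : ℕ → ℂ := fun j => F (A.T^[j] x) with hP
  set b : ℕ → Bool := fun j => decide (P j = 1) with hb
  set w : ℕ := Nat.ofBits (n := K) (fun j => b j.1) with hw
  have hwlt : w < 2 ^ K := Nat.ofBits_lt_two_pow _
  have hwbit : ∀ j, j < K → Nat.testBit w j = b j := by
    intro j hj
    rw [hw, Nat.testBit_ofBits_lt _ _ hj]
  -- the target values
  set c : ℕ → ℂ := fun j => if b j then 0 else 1 with hc
  have hcne : ∀ j, 0 < ‖c j - P j‖ := by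
    intro j
    rw [norm_pos_iff, sub_ne_zero]
    simp only [hc, hb]
    by_cases h1 : P j = 1
    · simp [h1]
    · simp [h1, Ne.symm h1]
  -- the neighbourhood of `x`
  set V : Set A.X := ⋂ j ∈ Finset.range K, {u | ‖F (A.T^[j] u) - P j‖ < ‖c j - P j‖} with hV
  have hVo : IsOpen V := by
    rw [hV]
    apply isOpen_biInter_finset
    intro j _
    have : Continuous fun u => ‖F (A.T^[j] u) - P j‖ :=
      ((hF.comp (hT.iterate j)).sub continuous_const).norm
    exact isOpen_lt this continuous_const
  have hxV : x ∈ V := by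
    rw [hV, Set.mem_iInter₂]
    intro j _
    simp only [Set.mem_ofPred_eq, hP, sub_self, norm_zero]
    exact hcne j
  -- a return at a time `n ≡ K w` modulo the period
  set m := K * 2 ^ K with hm
  have hm1 : 1 ≤ m := Nat.mul_pos (by omega) (by positivity)
  have hpre : ((A.T^[m]) ⁻¹' V).Nonempty := by
    obtain ⟨u, hu⟩ := hsurj.iterate m x
    exact ⟨u, by rw [Set.mem_preimage, hu]; exact hxV⟩
  obtain ⟨_, hk, k, rfl⟩ := (dense_iff_inter_open.1 (dense_residue A hA hx hm1 (K * w)))
    _ (hVo.preimage (hT.iterate m)) hpre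
  rw [Set.mem_preimage, ← Function.iterate_add_apply] at hk
  set n := m + (m * k + K * w) with hn
  obtain ⟨s, hsS, hs1, hs2⟩ := hL n (by omega)
  obtain ⟨j, rfl⟩ : ∃ j, s = j + n := ⟨s - n, by omega⟩
  have hj : j < K := by omega
  -- the letter of `z` at `s`
  have hzs : z (j + n) = b j := by
    have e : j + n = K * (2 ^ K * (k + 1) + w) + j := by
      rw [hn, hm]; ring
    simp only [hz]
    rw [e, Nat.mul_add_div (by omega), Nat.div_eq_of_lt hj, Nat.mul_add_mod, Nat.mod_eq_of_lt hj,
      add_zero, Nat.mul_add_mod, Nat.mod_eq_of_lt hwlt, hwbit j hj]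
  have hval := hFS _ hsS
  rw [hzs] at hval
  have hmem := Set.mem_iInter₂.1 hk j (Finset.mem_range.2 hj)
  simp only [Set.mem_ofPred_eq] at hmem
  rw [← Function.iterate_add_apply, hval] at hmem
  have hcc : (((if b j then 0 else 1 : ℕ) : ℕ) : ℂ) = c j := by
    simp only [hc]
    split_ifs <;> simp
  rw [hcc] at hmem
  exact lt_irrefl _ hmem

end Q70.WeakInterp
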